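import Mathlib

/-!
RG campaign: common definitions for the arithmetic part. Everything is expressed by the valuation
`w.valuation M : M → ℤᵐ⁰` of a maximal ideal `w` of the ring of integers of a number field `M` and
by a group `G` acting on `M` by ring automorphisms.
-/

set_option autoImplicit false

namespace Pool.Agent.RG

open NumberField IsDedekindDomain

/-- `w` lies above the rational number `q` -/
def Above {M : Type} [Field M] [NumberField M] (w : HeightOneSpectrum (𝓞 M)) (q : ℕ) : Prop :=
  w.valuation M (q : M) < 1

/-- `g` belongs to the decomposition group of `w` -/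
def IsDec {G M : Type} [Group G] [Field M] [NumberField M] [MulSemiringAction G M]
    (w : HeightOneSpectrum (𝓞 M)) (g : G) : Prop :=
  ∀ x : M, w.valuation M (g • x) = w.valuation M x

/-- `g` belongs to the inertia group of `w` -/
def IsInert {G M : Type} [Group G] [Field M] [NumberField M] [MulSemiringAction G M]
    (w : HeightOneSpectrum (𝓞 M)) (g : G) : Prop :=
  IsDec w g ∧ ∀ x : M, w.valuation M x ≤ 1 → w.valuation M (g • x - x) < 1

/-- `g` is a Frobenius element at `w`: it belongs to the decomposition group and acts on the
residue field by the `q`-th power map -/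
def IsFrob {G M : Type} [Group G] [Field M] [NumberField M] [MulSemiringAction G M]
    (w : HeightOneSpectrum (𝓞 M)) (q : ℕ) (g : G) : Prop :=
  IsDec w g ∧ ∀ x : M, w.valuation M x ≤ 1 → w.valuation M (g • x - x ^ q) < 1

/-- The Galois extension `L / ℚ` is unramified outside `S` -/
def UnrOutside (S : Finset ℕ) (L : Type) [Field L] [NumberField L] : Prop :=
  ∀ w : HeightOneSpectrum (𝓞 L), (∀ q ∈ S, ¬ Above w q) →
    ∀ σ : L ≃ₐ[ℚ] L, IsInert w σ → σ = 1

end Pool.Agent.RG
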