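import Mathlib
import Pool.Agent.Lib.RG.Defs

/-!
PART G, row G01: primes above and below along a homomorphism of number fields.
-/

set_option autoImplicit false

namespace Pool.Agent.RG

open NumberField IsDedekindDomain

/-- `w₂` lies above `w₁` along `j` -/
def Lies {M₁ M₂ : Type} [Field M₁] [NumberField M₁] [Field M₂] [NumberField M₂] (j : M₁ →+* M₂)
    (w₂ : HeightOneSpectrum (𝓞 M₂)) (w₁ : HeightOneSpectrum (𝓞 M₁)) : Prop :=
  ∀ x : M₁, (w₂.valuation M₂ (j x) ≤ 1 ↔ w₁.valuation M₁ x ≤ 1) ∧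
    (w₂.valuation M₂ (j x) < 1 ↔ w₁.valuation M₁ x < 1)

variable {M₁ M₂ M₃ : Type} [Field M₁] [NumberField M₁] [Field M₂] [NumberField M₂] [Field M₃]
  [NumberField M₃]

namespace G01aux

theorem mem_iff (w : HeightOneSpectrum (𝓞 M₁)) (x : 𝓞 M₁) :
    w.valuation M₁ (algebraMap (𝓞 M₁) M₁ x) < 1 ↔ x ∈ w.asIdeal :=
  HeightOneSpectrum.valuation_lt_one_iff_mem (K := M₁) w x

theorem le_one (w : HeightOneSpectrum (𝓞 M₁)) (x : 𝓞 M₁) :
    w.valuation M₁ (algebraMap (𝓞 M₁) M₁ x) ≤ 1 :=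
  HeightOneSpectrum.valuation_le_one (K := M₁) w x

theorem map_coe (j : M₁ →+* M₂) (x : 𝓞 M₁) :
    algebraMap (𝓞 M₂) M₂ (RingOfIntegers.mapRingHom j x) = j (algebraMap (𝓞 M₁) M₁ x) := rfl

theorem map_injective (j : M₁ →+* M₂) :
    Function.Injective (RingOfIntegers.mapRingHom j : 𝓞 M₁ →+* 𝓞 M₂) := by
  intro x y hxy
  apply RingOfIntegers.coe_injective
  apply j.injective
  change algebraMap (𝓞 M₂) M₂ (RingOfIntegers.mapRingHom j x) =
    algebraMap (𝓞 M₂) M₂ (RingOfIntegers.mapRingHom j y)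
  rw [hxy]

/-- the key step -/
theorem lies_of_comap {j : M₁ →+* M₂} {w₂ : HeightOneSpectrum (𝓞 M₂)}
    {w₁ : HeightOneSpectrum (𝓞 M₁)}
    (h : ∀ x : 𝓞 M₁, RingOfIntegers.mapRingHom j x ∈ w₂.asIdeal ↔ x ∈ w₁.asIdeal) :
    Lies j w₂ w₁ := by
  have key : ∀ x : M₁, w₁.valuation M₁ x ≤ 1 → w₂.valuation M₂ (j x) ≤ 1 ∧
      (w₁.valuation M₁ x < 1 → w₂.valuation M₂ (j x) < 1) := by
    intro x hx
    obtain ⟨n, d, hnd⟩ := w₁.exists_primeCompl_mul_eq_of_integer x hx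
    have hd : w₂.valuation M₂ (j (algebraMap (𝓞 M₁) M₁ d)) = 1 := by
      rw [← map_coe, HeightOneSpectrum.valuation_eq_one_iff_notMem, h]
      exact d.2
    have hd1 : w₁.valuation M₁ (algebraMap (𝓞 M₁) M₁ d) = 1 := by
      rw [HeightOneSpectrum.valuation_eq_one_iff_notMem]
      exact d.2
    have h2 : w₂.valuation M₂ (j x) = w₂.valuation M₂ (j (algebraMap (𝓞 M₁) M₁ n)) := by
      rw [← hnd, map_mul, map_mul, hd, mul_one]
    have h1 : w₁.valuation M₁ x = w₁.valuation M₁ (algebraMap (𝓞 M₁) M₁ n) := by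
      rw [← hnd, map_mul, hd1, mul_one]
    refine ⟨?_, fun hlt => ?_⟩
    · rw [h2, ← map_coe]
      exact le_one w₂ _
    · rw [h2, ← map_coe, mem_iff, h, ← mem_iff, ← h1]
      exact hlt
  intro x
  have hinv₁ : w₁.valuation M₁ x⁻¹ = (w₁.valuation M₁ x)⁻¹ := map_inv₀ _ _
  have hinv₂ : w₂.valuation M₂ (j x⁻¹) = (w₂.valuation M₂ (j x))⁻¹ := by
    rw [map_inv₀, map_inv₀]
  refine ⟨⟨fun h2 => ?_, fun h1 => (key x h1).1⟩, ⟨fun h2 => ?_, fun h1 => (key x h1.le).2 h1⟩⟩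
  · by_contra hcon
    push Not at hcon
    have h3 : w₁.valuation M₁ x⁻¹ < 1 := by
      rw [hinv₁]
      exact inv_lt_one_of_one_lt₀ hcon
    have h4 := (key x⁻¹ h3.le).2 h3
    rw [hinv₂] at h4
    have h5 : w₂.valuation M₂ (j x) ≠ 0 := by
      intro h0
      have hx0 : x = 0 := by
        have : j x = 0 := (Valuation.zero_iff _).1 h0
        exact j.injective (by rw [this, map_zero])
      rw [hx0, map_zero] at hcon
      exact absurd hcon (not_lt.2 zero_le)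
    have h6 : (1 : WithZero (Multiplicative ℤ)) < w₂.valuation M₂ (j x) := by
      rw [← inv_inv (w₂.valuation M₂ (j x))]
      exact (one_lt_inv₀ (zero_lt_iff.2 (inv_ne_zero h5))).2 h4
    exact absurd h2 (not_le.2 h6)
  · by_contra hcon
    push Not at hcon
    have hx0 : x ≠ 0 := by
      intro h0
      rw [h0, map_zero] at hcon
      exact absurd hcon (not_le.2 zero_lt_one)
    have h3 : w₁.valuation M₁ x⁻¹ ≤ 1 := by
      rw [hinv₁]
      exact inv_le_one_of_one_le₀ hcon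
    have h4 := (key x⁻¹ h3).1
    rw [hinv₂] at h4
    have h5 : w₂.valuation M₂ (j x) ≠ 0 := by
      intro h0
      apply hx0
      have : j x = 0 := (Valuation.zero_iff _).1 h0
      exact j.injective (by rw [this, map_zero])
    have h6 : (1 : WithZero (Multiplicative ℤ)) ≤ w₂.valuation M₂ (j x) :=
      (inv_le_one₀ (zero_lt_iff.2 h5)).1 h4
    exact absurd h2 (not_lt.2 h6)

end G01aux

open G01aux

/-- every prime lies above some prime -/
theorem exists_below (j : M₁ →+* M₂) (w₂ : HeightOneSpectrum (𝓞 M₂)) :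
    ∃ w₁ : HeightOneSpectrum (𝓞 M₁), Lies j w₂ w₁ := by
  let _ : Algebra (𝓞 M₁) (𝓞 M₂) := (RingOfIntegers.mapRingHom j).toAlgebra
  have hint : Algebra.IsIntegral (𝓞 M₁) (𝓞 M₂) :=
    ⟨fun x => (Algebra.IsIntegral.isIntegral (R := ℤ) x).tower_top⟩
  have hne : w₂.asIdeal.comap (RingOfIntegers.mapRingHom j) ≠ ⊥ :=
    Ideal.IsIntegral.comap_ne_bot (𝓞 M₁) w₂.ne_bot
  refine ⟨⟨w₂.asIdeal.comap (RingOfIntegers.mapRingHom j), Ideal.IsPrime.comap _, hne⟩, ?_⟩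
  exact lies_of_comap fun x => Iff.rfl

/-- above every prime there is a prime -/
theorem exists_above (j : M₁ →+* M₂) (w₁ : HeightOneSpectrum (𝓞 M₁)) :
    ∃ w₂ : HeightOneSpectrum (𝓞 M₂), Lies j w₂ w₁ := by
  let _ : Algebra (𝓞 M₁) (𝓞 M₂) := (RingOfIntegers.mapRingHom j).toAlgebra
  have hint : Algebra.IsIntegral (𝓞 M₁) (𝓞 M₂) :=
    ⟨fun x => (Algebra.IsIntegral.isIntegral (R := ℤ) x).tower_top⟩
  have hker : RingHom.ker (algebraMap (𝓞 M₁) (𝓞 M₂)) ≤ w₁.asIdeal := by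
    intro x hx
    have h1 : RingOfIntegers.mapRingHom j x = 0 := hx
    have h2 : x = 0 := map_injective j (by rw [h1, map_zero])
    rw [h2]
    exact Ideal.zero_mem _
  obtain ⟨Q, hQ, hQc⟩ := Ideal.exists_ideal_over_prime_of_isIntegral_of_isDomain w₁.asIdeal hker
  have hne : Q ≠ ⊥ := by
    intro h0
    apply w₁.ne_bot
    rw [← hQc, h0]
    rw [eq_bot_iff]
    intro x hx
    have h1 : RingOfIntegers.mapRingHom j x = 0 := hx
    exact map_injective j (by rw [h1, map_zero])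
  refine ⟨⟨Q, hQ, hne⟩, lies_of_comap fun x => ?_⟩
  rw [← hQc]
  exact Iff.rfl

/-- the prime below is unique -/
theorem Lies.unique {j : M₁ →+* M₂} {w₂ : HeightOneSpectrum (𝓞 M₂)}
    {w₁ w₁' : HeightOneSpectrum (𝓞 M₁)} (h : Lies j w₂ w₁) (h' : Lies j w₂ w₁') : w₁ = w₁' := by
  ext x
  rw [← mem_iff, ← mem_iff, ← (h _).2, ← (h' _).2]

theorem Lies.above_iff {j : M₁ →+* M₂} {w₂ : HeightOneSpectrum (𝓞 M₂)}
    {w₁ : HeightOneSpectrum (𝓞 M₁)} (h : Lies j w₂ w₁) (q : ℕ) : Above w₂ q ↔ Above w₁ q := by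
  have h1 := (h (q : M₁)).2
  rw [map_natCast] at h1
  exact h1

theorem Lies.trans {j : M₁ →+* M₂} {i : M₂ →+* M₃} {w₃ : HeightOneSpectrum (𝓞 M₃)}
    {w₂ : HeightOneSpectrum (𝓞 M₂)} {w₁ : HeightOneSpectrum (𝓞 M₁)} (h : Lies i w₃ w₂)
    (h' : Lies j w₂ w₁) : Lies (i.comp j) w₃ w₁ := fun x =>
  ⟨(h (j x)).1.trans (h' x).1, (h (j x)).2.trans (h' x).2⟩

namespace G01aux

theorem above_iff_mem (w : HeightOneSpectrum (𝓞 M₁)) (q : ℕ) :
    Above w q ↔ (q : 𝓞 M₁) ∈ w.asIdeal := by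
  rw [← mem_iff, map_natCast]
  exact Iff.rfl

theorem one_mem_of_coprime {w : HeightOneSpectrum (𝓞 M₁)} {q r : ℕ} (h : Nat.Coprime q r)
    (hq : (q : 𝓞 M₁) ∈ w.asIdeal) (hr : (r : 𝓞 M₁) ∈ w.asIdeal) : False := by
  have h1 : IsCoprime (q : ℤ) (r : ℤ) := Nat.isCoprime_iff_coprime.2 h
  obtain ⟨a, b, hab⟩ := h1
  have h2 : (a : 𝓞 M₁) * (q : 𝓞 M₁) + (b : 𝓞 M₁) * (r : 𝓞 M₁) = 1 := by
    have := congrArg (fun z : ℤ => (z : 𝓞 M₁)) hab
    push_cast at this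
    exact this
  apply w.isPrime.ne_top
  rw [Ideal.eq_top_iff_one, ← h2]
  exact Ideal.add_mem _ (Ideal.mul_mem_left _ _ hq) (Ideal.mul_mem_left _ _ hr)

end G01aux

/-- every prime lies above a unique rational prime -/
theorem exists_prime_above (w : HeightOneSpectrum (𝓞 M₁)) : ∃ q : ℕ, q.Prime ∧ Above w q := by
  have hfin : Finite (𝓞 M₁ ⧸ w.asIdeal) := Ideal.finiteQuotientOfFreeOfNeBot w.asIdeal w.ne_bot
  have hdom : IsDomain (𝓞 M₁ ⧸ w.asIdeal) := Ideal.Quotient.isDomain w.asIdeal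
  obtain ⟨q, hq⟩ := CharP.exists (𝓞 M₁ ⧸ w.asIdeal)
  have hq0 : q ≠ 0 := CharP.char_ne_zero_of_finite (𝓞 M₁ ⧸ w.asIdeal) q
  have hqp : q.Prime := (CharP.char_is_prime_or_zero (𝓞 M₁ ⧸ w.asIdeal) q).resolve_right hq0
  refine ⟨q, hqp, (above_iff_mem w q).2 ?_⟩
  rw [← Ideal.Quotient.eq_zero_iff_mem, map_natCast]
  exact CharP.cast_eq_zero _ q

theorem Above.unique {w : HeightOneSpectrum (𝓞 M₁)} {q r : ℕ} (hq : q.Prime) (hr : r.Prime)
    (h : Above w q) (h' : Above w r) : q = r := by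
  by_contra hne
  exact one_mem_of_coprime ((Nat.coprime_primes hq hr).2 hne) ((above_iff_mem w q).1 h)
    ((above_iff_mem w r).1 h')

/-- above every rational prime there is a prime -/
theorem exists_above_prime (M₁ : Type) [Field M₁] [NumberField M₁] {q : ℕ} (hq : q.Prime) :
    ∃ w : HeightOneSpectrum (𝓞 M₁), Above w q := by
  have hprime : Prime (q : ℤ) := Nat.prime_iff_prime_int.1 hq
  have hP : (Ideal.span {(q : ℤ)}).IsPrime :=
    (Ideal.span_singleton_prime hprime.ne_zero).2 hprime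
  have hker : RingHom.ker (algebraMap ℤ (𝓞 M₁)) ≤ Ideal.span {(q : ℤ)} := by
    intro x hx
    have h1 : algebraMap ℤ (𝓞 M₁) x = 0 := hx
    have h2 : x = 0 := by
      have h3 : (x : 𝓞 M₁) = 0 := by simpa using h1
      exact_mod_cast h3
    rw [h2]
    exact Ideal.zero_mem _
  obtain ⟨Q, hQ, hQc⟩ :=
    Ideal.exists_ideal_over_prime_of_isIntegral_of_isDomain (Ideal.span {(q : ℤ)}) hker
  have hmem : (q : 𝓞 M₁) ∈ Q := by
    have h1 : (q : ℤ) ∈ Q.comap (algebraMap ℤ (𝓞 M₁)) := by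
      rw [hQc]
      exact Ideal.mem_span_singleton_self _
    have h2 : algebraMap ℤ (𝓞 M₁) (q : ℤ) ∈ Q := h1
    simpa using h2
  have hne : Q ≠ ⊥ := by
    intro h0
    rw [h0] at hmem
    have h1 : (q : 𝓞 M₁) = 0 := hmem
    have h2 : q = 0 := by exact_mod_cast h1
    exact hq.ne_zero h2
  exact ⟨⟨Q, hQ, hne⟩, (above_iff_mem _ q).2 hmem⟩

/-- an integer prime to `q` is a unit at the primes above `q` -/
theorem valuation_natCast_eq_one {w : HeightOneSpectrum (𝓞 M₁)} {q : ℕ} (hq : q.Prime)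
    (h : Above w q) {n : ℕ} (hn : ¬ q ∣ n) : w.valuation M₁ (n : M₁) = 1 := by
  have h1 : w.valuation M₁ (algebraMap (𝓞 M₁) M₁ (n : 𝓞 M₁)) = 1 := by
    rw [HeightOneSpectrum.valuation_eq_one_iff_notMem]
    intro h2
    exact one_mem_of_coprime ((Nat.Prime.coprime_iff_not_dvd hq).2 hn) ((above_iff_mem w q).1 h) h2
  rw [map_natCast] at h1
  exact h1

end Pool.Agent.RG
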