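import Mathlib
import Pool.Agent.Lib.RG.Defs
import Pool.Agent.Lib.RG.G01

/-!
PART G, row G02: formal properties of decomposition, inertia and Frobenius elements.
-/

set_option autoImplicit false

namespace Pool.Agent.RG

open NumberField IsDedekindDomain

namespace G02aux

theorem le_one {M : Type} [Field M] [NumberField M] (w : HeightOneSpectrum (𝓞 M)) (x : 𝓞 M) :
    w.valuation M (algebraMap (𝓞 M) M x) ≤ 1 :=
  HeightOneSpectrum.valuation_le_one (K := M) w x

end G02aux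

section
variable {G M : Type} [Group G] [Field M] [NumberField M] [MulSemiringAction G M]
  {w : HeightOneSpectrum (𝓞 M)} {q : ℕ} {g h : G}

theorem IsDec.one (w : HeightOneSpectrum (𝓞 M)) : IsDec w (1 : G) := by
  intro x
  rw [one_smul]

theorem IsDec.mul (hg : IsDec w g) (hh : IsDec w h) : IsDec w (g * h) := by
  intro x
  rw [mul_smul, hg, hh]

theorem IsDec.inv (hg : IsDec w g) : IsDec w g⁻¹ := by
  intro x
  rw [← hg (g⁻¹ • x), smul_inv_smul]

theorem IsInert.one (w : HeightOneSpectrum (𝓞 M)) : IsInert w (1 : G) := by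
  refine ⟨IsDec.one w, fun x _ => ?_⟩
  rw [one_smul, sub_self, map_zero]
  exact zero_lt_one

theorem IsInert.mul (hg : IsInert w g) (hh : IsInert w h) : IsInert w (g * h) := by
  refine ⟨hg.1.mul hh.1, fun x hx => ?_⟩
  have e : (g * h) • x - x = g • (h • x - x) + (g • x - x) := by
    rw [mul_smul, smul_sub]
    ring
  rw [e]
  refine Valuation.map_add_lt _ ?_ (hg.2 x hx)
  rw [hg.1]
  exact hh.2 x hx

theorem IsInert.inv (hg : IsInert w g) : IsInert w g⁻¹ := by
  refine ⟨hg.1.inv, fun x hx => ?_⟩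
  have e : g⁻¹ • x - x = -(g⁻¹ • (g • x - x)) := by
    rw [smul_sub, inv_smul_smul]
    ring
  rw [e, Valuation.map_neg, hg.1.inv]
  exact hg.2 x hx

theorem IsInert.conj (hg : IsInert w g) (hh : IsDec w h) : IsInert w (h * g * h⁻¹) := by
  refine ⟨(hh.mul hg.1).mul hh.inv, fun x hx => ?_⟩
  have e : (h * g * h⁻¹) • x - x = h • (g • (h⁻¹ • x) - h⁻¹ • x) := by
    rw [mul_smul, mul_smul, smul_sub, smul_inv_smul]
  rw [e, hh]
  refine hg.2 _ ?_
  rw [hh.inv]
  exact hx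

/-- the inertia group as a subgroup -/
def inertiaGroup (G : Type) [Group G] [MulSemiringAction G M] (w : HeightOneSpectrum (𝓞 M)) :
    Subgroup G where
  carrier := {g | IsInert w g}
  mul_mem' := fun ha hb => ha.mul hb
  one_mem' := IsInert.one w
  inv_mem' := fun ha => ha.inv

/-- a Frobenius element times an inertia element is a Frobenius element -/
theorem IsFrob.mul_inert (hg : IsFrob w q g) (hh : IsInert w h) : IsFrob w q (g * h) := by
  refine ⟨hg.1.mul hh.1, fun x hx => ?_⟩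
  have e : (g * h) • x - x ^ q = g • (h • x - x) + (g • x - x ^ q) := by
    rw [mul_smul, smul_sub]
    ring
  rw [e]
  refine Valuation.map_add_lt _ ?_ (hg.2 x hx)
  rw [hg.1]
  exact hh.2 x hx

/-- two Frobenius elements differ by an inertia element -/
theorem IsFrob.inv_mul (hg : IsFrob w q g) (hh : IsFrob w q h) : IsInert w (g⁻¹ * h) := by
  refine ⟨hg.1.inv.mul hh.1, fun x hx => ?_⟩
  have e : (g⁻¹ * h) • x - x = g⁻¹ • ((h • x - x ^ q) - (g • x - x ^ q)) := by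
    rw [mul_smul, smul_sub, smul_sub, smul_sub, inv_smul_smul]
    ring
  rw [e, hg.1.inv]
  exact Valuation.map_sub_lt _ (hh.2 x hx) (hg.2 x hx)

/-- the Frobenius and inertia conditions only have to be checked on algebraic integers -/
theorem isInert_iff_of_isDec (hg : IsDec w g) :
    IsInert w g ↔ ∀ x : 𝓞 M, w.valuation M (g • (x : M) - (x : M)) < 1 := by
  refine ⟨fun h x => h.2 _ (G02aux.le_one w x), fun h => ⟨hg, fun x hx => ?_⟩⟩
  obtain ⟨n, d, hnd⟩ := w.exists_primeCompl_mul_eq_of_integer x hx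
  have hd : w.valuation M (algebraMap (𝓞 M) M d) = 1 := by
    rw [HeightOneSpectrum.valuation_eq_one_iff_notMem]
    exact d.2
  have hgnd : g • x * g • algebraMap (𝓞 M) M d = g • algebraMap (𝓞 M) M n := by
    rw [← smul_mul', hnd]
  have e : (g • x - x) * (g • algebraMap (𝓞 M) M d) * algebraMap (𝓞 M) M d =
      (g • algebraMap (𝓞 M) M n - algebraMap (𝓞 M) M n) * algebraMap (𝓞 M) M d -
        algebraMap (𝓞 M) M n * (g • algebraMap (𝓞 M) M d - algebraMap (𝓞 M) M d) := by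
    rw [← hgnd, ← hnd]
    ring
  have e2 : w.valuation M (g • x - x) = w.valuation M
      ((g • algebraMap (𝓞 M) M n - algebraMap (𝓞 M) M n) * algebraMap (𝓞 M) M d -
        algebraMap (𝓞 M) M n * (g • algebraMap (𝓞 M) M d - algebraMap (𝓞 M) M d)) := by
    rw [← e, map_mul, map_mul, hg, hd, mul_one, mul_one]
  rw [e2]
  refine Valuation.map_sub_lt _ ?_ ?_
  · rw [map_mul, hd, mul_one]
    exact h n
  · rw [map_mul]
    exact lt_of_le_of_lt ((mul_le_mul' (G02aux.le_one w n) le_rfl).trans_eq (one_mul _)) (h d)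

theorem isFrob_iff_of_isDec (hg : IsDec w g) :
    IsFrob w q g ↔ ∀ x : 𝓞 M, w.valuation M (g • (x : M) - (x : M) ^ q) < 1 := by
  refine ⟨fun h x => h.2 _ (G02aux.le_one w x), fun h => ⟨hg, fun x hx => ?_⟩⟩
  obtain ⟨n, d, hnd⟩ := w.exists_primeCompl_mul_eq_of_integer x hx
  have hd : w.valuation M (algebraMap (𝓞 M) M d) = 1 := by
    rw [HeightOneSpectrum.valuation_eq_one_iff_notMem]
    exact d.2
  have hgnd : g • x * g • algebraMap (𝓞 M) M d = g • algebraMap (𝓞 M) M n := by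
    rw [← smul_mul', hnd]
  have e : (g • x - x ^ q) * (g • algebraMap (𝓞 M) M d) * algebraMap (𝓞 M) M d ^ q =
      (g • algebraMap (𝓞 M) M n - algebraMap (𝓞 M) M n ^ q) * algebraMap (𝓞 M) M d ^ q -
        algebraMap (𝓞 M) M n ^ q *
          (g • algebraMap (𝓞 M) M d - algebraMap (𝓞 M) M d ^ q) := by
    rw [← hgnd, ← hnd, mul_pow]
    ring
  have e2 : w.valuation M (g • x - x ^ q) = w.valuation M
      ((g • algebraMap (𝓞 M) M n - algebraMap (𝓞 M) M n ^ q) * algebraMap (𝓞 M) M d ^ q -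
        algebraMap (𝓞 M) M n ^ q *
          (g • algebraMap (𝓞 M) M d - algebraMap (𝓞 M) M d ^ q)) := by
    rw [← e, map_mul, map_mul, hg, map_pow, hd, one_pow, mul_one, mul_one]
  rw [e2]
  refine Valuation.map_sub_lt _ ?_ ?_
  · rw [map_mul, map_pow, hd, one_pow, mul_one]
    exact h n
  · rw [map_mul, map_pow]
    exact lt_of_le_of_lt ((mul_le_mul' (pow_le_one' (G02aux.le_one w n) q) le_rfl).trans_eq (one_mul _))
      (h d)

end

section
variable {M₁ M₂ : Type} [Field M₁] [NumberField M₁] [Field M₂] [NumberField M₂]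
  {j : M₁ →+* M₂} {w₂ : HeightOneSpectrum (𝓞 M₂)} {w₁ : HeightOneSpectrum (𝓞 M₁)}
  {σ₁ : M₁ ≃ₐ[ℚ] M₁} {σ₂ : M₂ ≃ₐ[ℚ] M₂}

theorem IsDec.restrict (h : Lies j w₂ w₁) (hc : ∀ x, σ₂ (j x) = j (σ₁ x)) (hσ : IsDec w₂ σ₂) :
    IsDec w₁ σ₁ := by
  intro x
  change w₁.valuation M₁ (σ₁ x) = w₁.valuation M₁ x
  by_cases hx : x = 0
  · rw [hx, map_zero]
  have hjx : j x ≠ 0 := fun h0 => hx (j.injective (by rw [h0, map_zero]))
  have hv1 : w₁.valuation M₁ x ≠ 0 := (Valuation.ne_zero_iff _).2 hx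
  have hv2 : w₂.valuation M₂ (j x) ≠ 0 := (Valuation.ne_zero_iff _).2 hjx
  have h2 : w₂.valuation M₂ (j (σ₁ x / x)) = 1 := by
    rw [map_div₀, ← hc, map_div₀]
    have h3 : w₂.valuation M₂ (σ₂ (j x)) = w₂.valuation M₂ (j x) := hσ (j x)
    rw [h3, div_self hv2]
  have h3 : w₁.valuation M₁ (σ₁ x / x) ≤ 1 := (h _).1.1 h2.le
  have h4 : ¬ w₁.valuation M₁ (σ₁ x / x) < 1 := fun h5 => by
    have h6 := (h _).2.2 h5
    rw [h2] at h6
    exact lt_irrefl _ h6
  have h5 : w₁.valuation M₁ (σ₁ x / x) = 1 := le_antisymm h3 (not_lt.1 h4)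
  rw [map_div₀, div_eq_one_iff_eq hv1] at h5
  exact h5

theorem IsInert.restrict (h : Lies j w₂ w₁) (hc : ∀ x, σ₂ (j x) = j (σ₁ x))
    (hσ : IsInert w₂ σ₂) : IsInert w₁ σ₁ := by
  refine ⟨IsDec.restrict h hc hσ.1, fun x hx => ?_⟩
  have h1 := hσ.2 (j x) ((h x).1.2 hx)
  change w₂.valuation M₂ (σ₂ (j x) - j x) < 1 at h1
  rw [hc, ← map_sub, (h _).2] at h1
  exact h1

theorem IsFrob.restrict {q : ℕ} (h : Lies j w₂ w₁) (hc : ∀ x, σ₂ (j x) = j (σ₁ x))
    (hσ : IsFrob w₂ q σ₂) : IsFrob w₁ q σ₁ := by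
  refine ⟨IsDec.restrict h hc hσ.1, fun x hx => ?_⟩
  have h1 := hσ.2 (j x) ((h x).1.2 hx)
  change w₂.valuation M₂ (σ₂ (j x) - (j x) ^ q) < 1 at h1
  rw [hc, ← map_pow, ← map_sub, (h _).2] at h1
  exact h1

/-- conjugation: if `τ` maps `w` to `w'` -/
theorem IsInert.conj_to {M : Type} [Field M] [NumberField M] {w w' : HeightOneSpectrum (𝓞 M)}
    {τ σ : M ≃ₐ[ℚ] M} (hτ : ∀ x, w'.valuation M (τ x) = w.valuation M x) (hσ : IsInert w σ) :
    IsInert w' (τ * σ * τ⁻¹) := by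
  have hτ' : ∀ x, w.valuation M (τ⁻¹ x) = w'.valuation M x := by
    intro x
    rw [← hτ]
    exact congrArg _ (AlgEquiv.apply_symm_apply τ x)
  refine ⟨fun x => ?_, fun x hx => ?_⟩
  · change w'.valuation M (τ (σ (τ⁻¹ x))) = w'.valuation M x
    have h1 : w.valuation M (σ (τ⁻¹ x)) = w.valuation M (τ⁻¹ x) := hσ.1 _
    rw [hτ, h1, hτ']
  · change w'.valuation M (τ (σ (τ⁻¹ x)) - x) < 1
    have h1 : x = τ (τ⁻¹ x) := (AlgEquiv.apply_symm_apply τ x).symm
    have h2 : τ (σ (τ⁻¹ x)) - x = τ (σ (τ⁻¹ x) - τ⁻¹ x) := by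
      rw [map_sub, ← h1]
    rw [h2, hτ]
    refine hσ.2 _ ?_
    rw [hτ']
    exact hx

/-- being unramified outside `S` is invariant under isomorphisms -/
theorem UnrOutside.of_equiv {M N : Type} [Field M] [NumberField M] [Field N] [NumberField N]
    (e : M ≃+* N) {S : Finset ℕ} (h : UnrOutside S M) : UnrOutside S N := by
  intro w hw σ hσ
  obtain ⟨w₁, hw₁⟩ := exists_below (e : M →+* N) w
  let σ' : M ≃ₐ[ℚ] M := AlgEquiv.ofRingEquiv (f := (e.trans σ.toRingEquiv).trans e.symm) (by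
    intro r
    rw [eq_ratCast, map_ratCast])
  have hc : ∀ x, σ ((e : M →+* N) x) = (e : M →+* N) (σ' x) := by
    intro x
    exact (e.apply_symm_apply (σ (e x))).symm
  have h1 := h w₁ (fun q hq h2 => hw q hq ((hw₁.above_iff q).2 h2)) σ'
    (IsInert.restrict hw₁ hc hσ)
  ext y
  have h2 := hc (e.symm y)
  rw [h1] at h2
  have h3 : (e : M →+* N) (e.symm y) = y := e.apply_symm_apply y
  rw [h3] at h2
  rw [h2]
  exact h3

theorem UnrOutside.mono {M : Type} [Field M] [NumberField M] {S T : Finset ℕ} (hST : S ⊆ T)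
    (h : UnrOutside S M) : UnrOutside T M := by
  intro w hw σ hσ
  exact h w (fun q hq => hw q (hST hq)) σ hσ

end

end Pool.Agent.RG
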