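import Mathlib
import Pool.Agent.Lib.RG.Defs
import Pool.Agent.Lib.RG.G01
import Pool.Agent.Lib.RG.G02

/-!
PART G, row G03: Galois action on primes: transitivity, Frobenius elements, lifting of inertia.
-/

set_option autoImplicit false

namespace Pool.Agent.RG

open NumberField IsDedekindDomain

namespace G03aux

open scoped Pointwise

section val

variable {G M : Type} [Group G] [Field M] [NumberField M] [MulSemiringAction G M]

omit [NumberField M] in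
theorem coe_smul (g : G) (x : 𝓞 M) : ((g • x : 𝓞 M) : M) = g • (x : M) :=
  algebraMap.coe_smul' g x M

theorem mem_iff (w : HeightOneSpectrum (𝓞 M)) (x : 𝓞 M) :
    x ∈ w.asIdeal ↔ w.valuation M (x : M) < 1 :=
  (HeightOneSpectrum.valuation_lt_one_iff_mem w x).symm

theorem int_le {w w' : HeightOneSpectrum (𝓞 M)} {g : G} (h : g • w.asIdeal = w'.asIdeal)
    (x : 𝓞 M) (n : ℕ) :
    w.intValuation x ≤ WithZero.exp (-(n : ℤ)) ↔
      w'.intValuation (g • x) ≤ WithZero.exp (-(n : ℤ)) := by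
  rw [HeightOneSpectrum.intValuation_le_pow_iff_mem, HeightOneSpectrum.intValuation_le_pow_iff_mem,
    ← h, ← Ideal.smul_mem_pointwise_smul_iff (a := g), smul_pow']

theorem int_eq {w w' : HeightOneSpectrum (𝓞 M)} {g : G} (h : g • w.asIdeal = w'.asIdeal)
    (x : 𝓞 M) : w'.intValuation (g • x) = w.intValuation x := by
  by_cases hx : x = 0
  · subst hx
    simp
  have hgx : g • x ≠ 0 := fun h0 => hx (by
    have := congrArg (fun y => g⁻¹ • y) h0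
    simpa using this)
  have key := int_le h x
  rw [w.intValuation_if_neg hx, w'.intValuation_if_neg hgx] at *
  simp only [WithZero.exp_le_exp, neg_le_neg_iff, Int.ofNat_le] at key
  congr 3
  exact le_antisymm ((key _).2 le_rfl) ((key _).1 le_rfl)

theorem val_eq {w w' : HeightOneSpectrum (𝓞 M)} {g : G} (h : g • w.asIdeal = w'.asIdeal)
    (x : M) : w'.valuation M (g • x) = w.valuation M x := by
  obtain ⟨a, b, hb, rfl⟩ := IsFractionRing.div_surjective (A := 𝓞 M) x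
  rw [smul_div₀', map_div₀, map_div₀]
  have h1 : ∀ y : 𝓞 M, w'.valuation M (g • (algebraMap (𝓞 M) M y)) =
      w.valuation M (algebraMap (𝓞 M) M y) := fun y => by
    have := coe_smul g y
    rw [HeightOneSpectrum.valuation_of_algebraMap, ← int_eq h, ←
      HeightOneSpectrum.valuation_of_algebraMap (K := M)]
    rw [← this]
  rw [h1, h1]

theorem under_eq {w : HeightOneSpectrum (𝓞 M)} {q : ℕ} (hq : q.Prime) (h : Above w q) :
    w.asIdeal.under ℤ = Ideal.span {(q : ℤ)} := by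
  have hp : Prime (q : ℤ) := Nat.prime_iff_prime_int.1 hq
  have hmax : (Ideal.span {(q : ℤ)}).IsMaximal := by
    have := (Ideal.span_singleton_prime hp.ne_zero).2 hp
    exact this.isMaximal (by simpa using hp.ne_zero)
  have hpr : (w.asIdeal.under ℤ).IsPrime := inferInstance
  refine (hmax.eq_of_le hpr.ne_top ?_).symm
  rw [Ideal.span_singleton_le_iff_mem, Ideal.under_def, Ideal.mem_comap, mem_iff]
  simpa [Above] using h

omit [NumberField M] in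
theorem smul_eq [Finite G] {w : HeightOneSpectrum (𝓞 M)} {g : G}
    (h : ∀ x : 𝓞 M, x ∈ w.asIdeal → g • x ∈ w.asIdeal) : g • w.asIdeal = w.asIdeal := by
  refine smul_eq_of_smul_le fun x hx => ?_
  rw [Ideal.mem_pointwise_smul_iff_inv_smul_mem] at hx
  simpa using h _ hx

end val

end G03aux

open G03aux Pointwise

/-- the Galois group permutes the primes above a rational prime transitively -/
theorem exists_conj {M : Type} [Field M] [NumberField M] [IsGalois ℚ M] {q : ℕ} (hq : q.Prime)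
    {w w' : HeightOneSpectrum (𝓞 M)} (h : Above w q) (h' : Above w' q) :
    ∃ τ : M ≃ₐ[ℚ] M, ∀ x, w'.valuation M (τ x) = w.valuation M x := by
  obtain ⟨g, hg⟩ := Algebra.IsInvariant.exists_smul_of_under_eq ℤ (𝓞 M) (M ≃ₐ[ℚ] M)
    w.asIdeal w'.asIdeal (by rw [under_eq hq h, under_eq hq h'])
  exact ⟨g, fun x => val_eq hg.symm x⟩

/-- Frobenius elements exist -/
theorem exists_frob {M : Type} [Field M] [NumberField M] [IsGalois ℚ M] {q : ℕ} (hq : q.Prime)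
    {w : HeightOneSpectrum (𝓞 M)} (h : Above w q) : ∃ σ : M ≃ₐ[ℚ] M, IsFrob w q σ := by
  have hfin : Finite (𝓞 M ⧸ w.asIdeal) := by
    have := w.asIdeal.finiteQuotientOfFreeOfNeBot w.ne_bot
    exact this
  obtain ⟨σ, hσ⟩ := IsArithFrobAt.exists_of_isInvariant ℤ (M ≃ₐ[ℚ] M) w.asIdeal
  have hcard : Nat.card (ℤ ⧸ w.asIdeal.under ℤ) = q := by
    rw [under_eq hq h]
    simp [Int.card_ideal_quot]
  have h1 : ∀ x : 𝓞 M, σ • x - x ^ q ∈ w.asIdeal := fun x => by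
    have := hσ x
    rw [hcard] at this
    exact this
  have hdec : IsDec w σ := fun x => val_eq (smul_eq fun x hx => by
    have h2 := h1 x
    have h3 : x ^ q ∈ w.asIdeal := w.asIdeal.pow_mem_of_mem hx q hq.pos
    have := w.asIdeal.add_mem h2 h3
    simpa using this) x
  refine ⟨σ, (isFrob_iff_of_isDec hdec).2 fun x => ?_⟩
  have := (mem_iff w _).1 (h1 x)
  simpa [coe_smul] using this

/-- inertia elements lift to inertia elements -/
theorem exists_inert_lift {M₁ M₂ : Type} [Field M₁] [NumberField M₁] [Field M₂] [NumberField M₂]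
    [IsGalois ℚ M₁] [IsGalois ℚ M₂] {j : M₁ →+* M₂} {w₂ : HeightOneSpectrum (𝓞 M₂)}
    {w₁ : HeightOneSpectrum (𝓞 M₁)} (h : Lies j w₂ w₁) {σ₁ : M₁ ≃ₐ[ℚ] M₁}
    (hσ : IsInert w₁ σ₁) :
    ∃ σ₂ : M₂ ≃ₐ[ℚ] M₂, (∀ x, σ₂ (j x) = j (σ₁ x)) ∧ IsInert w₂ σ₂ := by
  let : Algebra M₁ M₂ := j.toAlgebra
  have : IsScalarTower ℚ M₁ M₂ := IsScalarTower.rat
  have : IsGalois M₁ M₂ := IsGalois.tower_top_of_isGalois ℚ M₁ M₂
  -- the prime below
  have hu : ∀ a : 𝓞 M₁, algebraMap (𝓞 M₁) (𝓞 M₂) a ∈ w₂.asIdeal ↔ a ∈ w₁.asIdeal := fun a => by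
    rw [mem_iff, mem_iff]
    have h1 : ((algebraMap (𝓞 M₁) (𝓞 M₂) a : 𝓞 M₂) : M₂) = j (a : M₁) := rfl
    rw [h1]
    exact (h _).2
  have hunder : w₂.asIdeal.under (𝓞 M₁) = w₁.asIdeal := by
    ext a
    rw [Ideal.under_def, Ideal.mem_comap]
    exact hu a
  -- lift
  set σ : M₂ ≃ₐ[ℚ] M₂ := AlgEquiv.liftNormal σ₁ M₂ with hσd
  have hσj : ∀ x, σ (j x) = j (σ₁ x) := fun x => AlgEquiv.liftNormal_commutes σ₁ M₂ x
  have hσa : ∀ a : 𝓞 M₁, σ • algebraMap (𝓞 M₁) (𝓞 M₂) a = algebraMap (𝓞 M₁) (𝓞 M₂) (σ₁ • a) := by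
    intro a
    apply RingOfIntegers.ext
    exact hσj a
  have hdec₁ : ∀ a : 𝓞 M₁, σ₁ • a ∈ w₁.asIdeal ↔ a ∈ w₁.asIdeal := fun a => by
    rw [mem_iff, mem_iff, coe_smul]
    exact (hσ.1 (a : M₁)) ▸ Iff.rfl
  have hin₁ : ∀ a : 𝓞 M₁, σ₁ • a - a ∈ w₁.asIdeal := fun a => by
    rw [mem_iff]
    have := hσ.2 (a : M₁) (w₁.valuation_le_one a)
    simpa [coe_smul] using this
  -- move the prime back
  have hpr : (σ • w₂.asIdeal).IsPrime := Ideal.IsPrime.smul _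
  have hsu : (σ • w₂.asIdeal).under (𝓞 M₁) = w₂.asIdeal.under (𝓞 M₁) := by
    ext a
    rw [Ideal.under_def, Ideal.mem_comap, Ideal.under_def, Ideal.mem_comap, hu,
      Ideal.mem_pointwise_smul_iff_inv_smul_mem]
    have h1 : σ⁻¹ • algebraMap (𝓞 M₁) (𝓞 M₂) a = algebraMap (𝓞 M₁) (𝓞 M₂) (σ₁⁻¹ • a) := by
      rw [inv_smul_eq_iff, hσa, smul_inv_smul]
    rw [h1, hu, ← hdec₁, smul_inv_smul]
  obtain ⟨τ, hτ⟩ := Algebra.IsInvariant.exists_smul_of_under_eq (𝓞 M₁) (𝓞 M₂) (M₂ ≃ₐ[M₁] M₂)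
    (σ • w₂.asIdeal) w₂.asIdeal hsu
  set τ' : M₂ ≃ₐ[ℚ] M₂ := τ.restrictScalars ℚ with hτd
  have hτs : ∀ b : 𝓞 M₂, τ' • b = τ • b := fun b => rfl
  have hτa : ∀ a : 𝓞 M₁, τ' • algebraMap (𝓞 M₁) (𝓞 M₂) a = algebraMap (𝓞 M₁) (𝓞 M₂) a := by
    intro a
    apply RingOfIntegers.ext
    exact τ.commutes (a : M₁)
  set π : M₂ ≃ₐ[ℚ] M₂ := τ' * σ with hπd
  have hπQ : π • w₂.asIdeal = w₂.asIdeal := by
    rw [hπd, mul_smul]
    have h1 : τ' • (σ • w₂.asIdeal) = τ • (σ • w₂.asIdeal) := rfl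
    rw [h1, ← hτ]
  have hπa : ∀ a : 𝓞 M₁, π • algebraMap (𝓞 M₁) (𝓞 M₂) a = algebraMap (𝓞 M₁) (𝓞 M₂) (σ₁ • a) := by
    intro a
    rw [hπd, mul_smul, hσa, hτa]
  -- the action on the residue field
  have : w₂.asIdeal.LiesOver w₁.asIdeal := ⟨hunder.symm⟩
  let f : (𝓞 M₂ ⧸ w₂.asIdeal) ≃ₐ[𝓞 M₁ ⧸ w₁.asIdeal] (𝓞 M₂ ⧸ w₂.asIdeal) :=
    AlgEquiv.ofRingEquiv (f := Ideal.quotientEquiv w₂.asIdeal w₂.asIdeal
      (MulSemiringAction.toRingEquiv (M₂ ≃ₐ[ℚ] M₂) (𝓞 M₂) π) hπQ.symm) (by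
        intro x
        obtain ⟨a, rfl⟩ := Ideal.Quotient.mk_surjective x
        have h1 : algebraMap (𝓞 M₁ ⧸ w₁.asIdeal) (𝓞 M₂ ⧸ w₂.asIdeal)
            (Ideal.Quotient.mk w₁.asIdeal a) =
            Ideal.Quotient.mk w₂.asIdeal (algebraMap (𝓞 M₁) (𝓞 M₂) a) := rfl
        rw [h1]
        change Ideal.Quotient.mk w₂.asIdeal (π • algebraMap (𝓞 M₁) (𝓞 M₂) a) = _
        rw [hπa, Ideal.Quotient.eq, ← map_sub, hu]
        exact hin₁ a)
  obtain ⟨ρ, hρ⟩ := Ideal.Quotient.stabilizerHom_surjective (M₂ ≃ₐ[M₁] M₂) w₁.asIdeal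
    w₂.asIdeal f
  have hρf : ∀ b : 𝓞 M₂, π • b - ρ.1 • b ∈ w₂.asIdeal := fun b => by
    rw [← Ideal.Quotient.eq]
    exact (DFunLike.congr_fun hρ (Ideal.Quotient.mk w₂.asIdeal b)).symm
  set ρ' : M₂ ≃ₐ[ℚ] M₂ := ρ.1.restrictScalars ℚ with hρd
  have hρs : ∀ b : 𝓞 M₂, ρ' • b = ρ.1 • b := fun b => rfl
  have hρQ : ρ'⁻¹ • w₂.asIdeal = w₂.asIdeal := by
    rw [inv_smul_eq_iff]
    exact ρ.2.symm
  set σ₂ : M₂ ≃ₐ[ℚ] M₂ := ρ'⁻¹ * π with hσ₂d
  have hin₂ : ∀ b : 𝓞 M₂, σ₂ • b - b ∈ w₂.asIdeal := fun b => by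
    have h1 : σ₂ • b - b = ρ'⁻¹ • (π • b - ρ.1 • b) := by
      rw [smul_sub, hσ₂d, mul_smul, ← hρs, inv_smul_smul]
    rw [h1]
    have h2 : ρ'⁻¹ • (π • b - ρ.1 • b) ∈ ρ'⁻¹ • w₂.asIdeal :=
      Ideal.smul_mem_pointwise_smul _ _ _ (hρf b)
    exact hρQ.le h2
  have hdec₂ : IsDec w₂ σ₂ := fun x => val_eq (smul_eq fun x hx => by
    have := w₂.asIdeal.add_mem (hin₂ x) hx
    simpa using this) x
  refine ⟨σ₂, fun x => ?_, (isInert_iff_of_isDec hdec₂).2 fun x => ?_⟩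
  · have h1 : π (j x) = j (σ₁ x) := by
      change τ (σ (j x)) = _
      rw [hσj]
      exact τ.commutes (σ₁ x)
    change ρ'⁻¹ (π (j x)) = _
    rw [h1]
    have h2 : ρ' (j (σ₁ x)) = j (σ₁ x) := ρ.1.commutes (σ₁ x)
    conv_lhs => rw [← h2]
    exact ρ'.symm_apply_apply _
  · have := (mem_iff w₂ _).1 (hin₂ x)
    simpa [coe_smul] using this

/-- a subextension of an extension unramified outside `S` is unramified outside `S` -/
theorem UnrOutside.sub {M₁ M₂ : Type} [Field M₁] [NumberField M₁] [Field M₂] [NumberField M₂]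
    [IsGalois ℚ M₁] [IsGalois ℚ M₂] (j : M₁ →+* M₂) {S : Finset ℕ} (h : UnrOutside S M₂) :
    UnrOutside S M₁ := by
  intro w₁ hw₁ σ₁ hσ₁
  obtain ⟨w₂, hw₂⟩ := exists_above j w₁
  obtain ⟨σ₂, hc, hσ₂⟩ := exists_inert_lift hw₂ hσ₁
  have h1 : σ₂ = 1 := h w₂ (fun q hq h' => hw₁ q hq ((hw₂.above_iff q).1 h')) σ₂ hσ₂
  ext x
  have := hc x
  rw [h1] at this
  exact (j.injective this).symm

end Pool.Agent.RG
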