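import Mathlib
import Pool.Agent.Lib.RG.Defs
import Pool.Agent.Lib.RG.G01
import Pool.Agent.Lib.RG.G02
import Pool.Agent.Lib.RG.G03

/-!
PART G, row G07: the maximal `p`-extension of `ℚ` unramified outside `S`.
-/

set_option autoImplicit false

namespace Pool.Agent.RG

open NumberField IsDedekindDomain

/-- an algebraic closure of `ℚ` -/
abbrev QBar : Type := AlgebraicClosure ℚ

/-- `L` is a finite Galois extension of `ℚ` of `p`-power degree, unramified outside `S` -/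
def InC (p : ℕ) (S : Finset ℕ) (L : IntermediateField ℚ QBar) : Prop :=
  ∃ _ : NumberField L, IsGalois ℚ L ∧ (∃ k, Module.finrank ℚ L = p ^ k) ∧ UnrOutside S L

/-- the maximal `p`-extension of `ℚ` unramified outside `S` -/
noncomputable def KS (p : ℕ) (S : Finset ℕ) : IntermediateField ℚ QBar := sSup {L | InC p S L}

/-- the characteristic properties of the maximal `p`-extension unramified outside `S` -/
structure MaxExt (p : ℕ) (S : Finset ℕ) (K : Type) [Field K] [CharZero K] : Prop where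
  gal : IsGalois ℚ K
  deg : ∀ (L : IntermediateField ℚ K) [NumberField L] [IsGalois ℚ L],
    ∃ k, Module.finrank ℚ L = p ^ k
  unr : ∀ (L : IntermediateField ℚ K) [NumberField L] [IsGalois ℚ L], UnrOutside S L
  max : ∀ (M : Type) [Field M] [NumberField M] [IsGalois ℚ M],
    (∃ k, Module.finrank ℚ M = p ^ k) → UnrOutside S M → Nonempty (M →ₐ[ℚ] K)

namespace G07aux

theorem isAlgCl : IsAlgClosure ℚ QBar := by
  have h : @IsAlgClosure ℚ QBar _ _ (@AlgebraicClosure.instAlgebra ℚ _ ℚ _ (Algebra.id ℚ)) _ :=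
    inferInstance
  exact h

theorem normalQBar : Normal ℚ QBar := by
  have := isAlgCl
  exact IsAlgClosure.normal ℚ QBar

/-- an automorphism of the compositum which is trivial on both factors is trivial -/
theorem eq_one_of_sup {M₁ M₂ : IntermediateField ℚ QBar} {σ : ↥(M₁ ⊔ M₂) ≃ₐ[ℚ] ↥(M₁ ⊔ M₂)}
    (h₁ : ∀ (x : QBar) (hx : x ∈ M₁), (σ ⟨x, (le_sup_left : M₁ ≤ M₁ ⊔ M₂) hx⟩ : QBar) = x)
    (h₂ : ∀ (x : QBar) (hx : x ∈ M₂), (σ ⟨x, (le_sup_right : M₂ ≤ M₁ ⊔ M₂) hx⟩ : QBar) = x) :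
    σ = 1 := by
  have := normalQBar
  let τ : QBar ≃ₐ[ℚ] QBar := σ.liftNormal QBar
  have hτ : ∀ y : ↥(M₁ ⊔ M₂), τ (y : QBar) = (σ y : QBar) := fun y => σ.liftNormal_commutes QBar y
  have t₁ : τ ∈ M₁.fixingSubgroup := by
    rw [IntermediateField.mem_fixingSubgroup_iff]
    intro x hx
    exact (hτ ⟨x, (le_sup_left : M₁ ≤ M₁ ⊔ M₂) hx⟩).trans (h₁ x hx)
  have t₂ : τ ∈ M₂.fixingSubgroup := by
    rw [IntermediateField.mem_fixingSubgroup_iff]
    intro x hx
    exact (hτ ⟨x, (le_sup_right : M₂ ≤ M₁ ⊔ M₂) hx⟩).trans (h₂ x hx)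
  have t : τ ∈ (M₁ ⊔ M₂).fixingSubgroup := by
    rw [IntermediateField.fixingSubgroup_sup]
    exact ⟨t₁, t₂⟩
  rw [IntermediateField.mem_fixingSubgroup_iff] at t
  refine AlgEquiv.ext fun y => Subtype.ext ?_
  exact (hτ y).symm.trans (t y y.2)

/-- restriction of an automorphism to a normal subfield -/
theorem exists_res {M N : Type} [Field M] [NumberField M] [Field N] [NumberField N]
    [IsGalois ℚ M] (j : M →+* N) (σ : N ≃ₐ[ℚ] N) : ∃ τ : M ≃ₐ[ℚ] M, ∀ x, σ (j x) = j (τ x) := by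
  let _ : Algebra M N := j.toAlgebra
  have : IsScalarTower ℚ M N := inferInstance
  exact ⟨σ.restrictNormal M, fun x => (σ.restrictNormal_commutes M x).symm⟩

theorem finrank_dvd {M N : Type} [Field M] [NumberField M] [Field N] [NumberField N]
    (j : M →+* N) : Module.finrank ℚ M ∣ Module.finrank ℚ N := by
  let _ : Algebra M N := j.toAlgebra
  exact ⟨_, (Module.finrank_mul_finrank ℚ M N).symm⟩

theorem pow_comm {M N : Type} [Field M] [NumberField M] [Field N] [NumberField N]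
    (j : M →+* N) (σ : N ≃ₐ[ℚ] N) (τ : M ≃ₐ[ℚ] M) (h : ∀ x, σ (j x) = j (τ x)) (n : ℕ) (x : M) :
    (σ ^ n) (j x) = j ((τ ^ n) x) := by
  induction n generalizing x with
  | zero => simp
  | succ n ih => rw [pow_succ, pow_succ, AlgEquiv.mul_apply, AlgEquiv.mul_apply, h, ih]

theorem unr_res {M N : Type} [Field M] [NumberField M] [Field N] [NumberField N]
    [IsGalois ℚ M] {S : Finset ℕ} (hM : UnrOutside S M) (j : M →+* N)
    {w : HeightOneSpectrum (𝓞 N)} (hw : ∀ q ∈ S, ¬ Above w q) {σ : N ≃ₐ[ℚ] N}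
    (hσ : IsInert w σ) (x : M) : σ (j x) = j x := by
  obtain ⟨w₁, hl⟩ := exists_below j w
  obtain ⟨τ, hτ⟩ := exists_res j σ
  have h := hM w₁ (fun q hq => fun h => hw q hq ((hl.above_iff q).2 h)) τ
    (IsInert.restrict hl hτ hσ)
  rw [hτ, h]
  rfl

theorem inC_sup {p : ℕ} [Fact p.Prime] {S : Finset ℕ} {M₁ M₂ : IntermediateField ℚ QBar}
    (h₁ : InC p S M₁) (h₂ : InC p S M₂) : InC p S (M₁ ⊔ M₂) := by
  obtain ⟨n₁, g₁, ⟨k₁, f₁⟩, u₁⟩ := h₁
  obtain ⟨n₂, g₂, ⟨k₂, f₂⟩, u₂⟩ := h₂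
  have fd₁ : FiniteDimensional ℚ M₁ := n₁.to_finiteDimensional
  have fd₂ : FiniteDimensional ℚ M₂ := n₂.to_finiteDimensional
  have fd : FiniteDimensional ℚ ↥(M₁ ⊔ M₂) := IntermediateField.finiteDimensional_sup M₁ M₂
  have nf : NumberField ↥(M₁ ⊔ M₂) := ⟨⟩
  have nm₁ : Normal ℚ M₁ := g₁.to_normal
  have nm₂ : Normal ℚ M₂ := g₂.to_normal
  have nm : Normal ℚ ↥(M₁ ⊔ M₂) := @IntermediateField.normal_sup ℚ QBar _ _ _ M₁ M₂ nm₁ nm₂
  have gal : IsGalois ℚ ↥(M₁ ⊔ M₂) := ⟨⟩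
  let j₁ : M₁ →+* ↥(M₁ ⊔ M₂) :=
    (IntermediateField.inclusion (le_sup_left : M₁ ≤ M₁ ⊔ M₂)).toRingHom
  let j₂ : M₂ →+* ↥(M₁ ⊔ M₂) :=
    (IntermediateField.inclusion (le_sup_right : M₂ ≤ M₁ ⊔ M₂)).toRingHom
  have key : ∀ σ : ↥(M₁ ⊔ M₂) ≃ₐ[ℚ] ↥(M₁ ⊔ M₂), (∀ x, σ (j₁ x) = j₁ x) →
      (∀ x, σ (j₂ x) = j₂ x) → σ = 1 := by
    intro σ a b
    refine eq_one_of_sup (fun x hx => ?_) fun x hx => ?_
    · exact congrArg Subtype.val (a ⟨x, hx⟩)
    · exact congrArg Subtype.val (b ⟨x, hx⟩)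
  refine ⟨nf, gal, ?_, ?_⟩
  · have hp : IsPGroup p (↥(M₁ ⊔ M₂) ≃ₐ[ℚ] ↥(M₁ ⊔ M₂)) := by
      intro σ
      refine ⟨k₁ + k₂, key _ (fun x => ?_) fun x => ?_⟩
      · obtain ⟨τ, hτ⟩ := exists_res j₁ σ
        have e : τ ^ p ^ k₁ = 1 := by
          rw [← f₁, ← IsGalois.card_aut_eq_finrank]
          exact pow_card_eq_one'
        rw [pow_comm j₁ σ τ hτ, pow_add, pow_mul, e, one_pow]
        rfl
      · obtain ⟨τ, hτ⟩ := exists_res j₂ σ
        have e : τ ^ p ^ k₂ = 1 := by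
          rw [← f₂, ← IsGalois.card_aut_eq_finrank]
          exact pow_card_eq_one'
        rw [pow_comm j₂ σ τ hτ, pow_add, mul_comm, pow_mul, e, one_pow]
        rfl
    obtain ⟨k, hk⟩ := IsPGroup.iff_card.1 hp
    exact ⟨k, by rw [← hk, IsGalois.card_aut_eq_finrank]⟩
  · intro w hw σ hσ
    exact key σ (unr_res u₁ j₁ hw hσ) (unr_res u₂ j₂ hw hσ)

theorem inC_image {p : ℕ} [Fact p.Prime] {S : Finset ℕ} {M : Type} [Field M] [NumberField M]
    [IsGalois ℚ M] (hk : ∃ k, Module.finrank ℚ M = p ^ k) (hu : UnrOutside S M) (f : M →ₐ[ℚ] QBar) :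
    InC p S f.fieldRange := by
  let e : M ≃ₐ[ℚ] f.fieldRange := AlgEquiv.ofInjectiveField f
  have fd : FiniteDimensional ℚ f.fieldRange := e.toLinearEquiv.finiteDimensional
  have nf : NumberField f.fieldRange := ⟨⟩
  refine ⟨nf, IsGalois.of_algEquiv e, ?_, ?_⟩
  · obtain ⟨k, hk⟩ := hk
    exact ⟨k, by rw [← hk]; exact e.symm.toLinearEquiv.finrank_eq⟩
  · exact UnrOutside.of_equiv (M := M) (N := f.fieldRange) e.toRingEquiv hu

theorem inC_bot (p : ℕ) (S : Finset ℕ) : InC p S ⊥ := by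
  have fr : Module.finrank ℚ (⊥ : IntermediateField ℚ QBar) = 1 := IntermediateField.finrank_bot
  have fd : FiniteDimensional ℚ (⊥ : IntermediateField ℚ QBar) :=
    FiniteDimensional.of_finrank_pos (by rw [fr]; exact one_pos)
  have nf : NumberField (⊥ : IntermediateField ℚ QBar) := ⟨⟩
  have gal : IsGalois ℚ (⊥ : IntermediateField ℚ QBar) :=
    IsGalois.of_algEquiv (IntermediateField.botEquiv ℚ QBar).symm
  refine ⟨nf, gal, ⟨0, by rw [fr, pow_zero]⟩, ?_⟩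
  intro w hw σ hσ
  have hc : Nat.card ((⊥ : IntermediateField ℚ QBar) ≃ₐ[ℚ] (⊥ : IntermediateField ℚ QBar)) = 1 := by
    rw [IsGalois.card_aut_eq_finrank, fr]
  have : Subsingleton ((⊥ : IntermediateField ℚ QBar) ≃ₐ[ℚ] (⊥ : IntermediateField ℚ QBar)) :=
    (Nat.card_eq_one_iff_unique.1 hc).1
  exact Subsingleton.elim _ _

/-- a number field inside the maximal extension is inside a member of the class -/
theorem exists_member {p : ℕ} [Fact p.Prime] {S : Finset ℕ} (L : IntermediateField ℚ QBar)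
    [FiniteDimensional ℚ L] (hL : L ≤ KS p S) : ∃ M, InC p S M ∧ L ≤ M := by
  obtain ⟨α, hα⟩ := Field.exists_primitive_element ℚ L
  have hne : Nonempty {M // InC p S M} := ⟨⟨⊥, inC_bot p S⟩⟩
  have hdir : Directed (· ≤ ·) (fun M : {M // InC p S M} => (M : IntermediateField ℚ QBar)) := by
    intro M N
    exact ⟨⟨M ⊔ N, inC_sup M.2 N.2⟩, le_sup_left, le_sup_right⟩
  have hmem : (α : QBar) ∈ KS p S := hL α.2
  rw [KS, sSup_eq_iSup'] at hmem
  have hmem' : (α : QBar) ∈ ((⨆ M : {M // InC p S M}, (M : IntermediateField ℚ QBar)) :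
    IntermediateField ℚ QBar) := hmem
  rw [← SetLike.mem_coe, IntermediateField.coe_iSup_of_directed hdir, Set.mem_iUnion] at hmem'
  obtain ⟨⟨M, hM⟩, hα'⟩ := hmem'
  refine ⟨M, hM, ?_⟩
  intro x hx
  have h1 : (⟨x, hx⟩ : L) ∈ (⊤ : IntermediateField ℚ L) := trivial
  rw [← hα] at h1
  let g : L →ₐ[ℚ] QBar := L.val.toRingHom.toRatAlgHom
  have h2 : IntermediateField.adjoin ℚ {α} ≤ M.comap g := by
    rw [IntermediateField.adjoin_simple_le_iff]
    exact hα'
  exact h2 h1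

end G07aux

open G07aux

theorem maxExt_KS (p : ℕ) [Fact p.Prime] (S : Finset ℕ) : MaxExt p S (KS p S) := by
  have hsub : ∀ (L : IntermediateField ℚ (KS p S)) [NumberField L],
      ∃ (M : IntermediateField ℚ QBar) (_ : L →+* M), InC p S M := by
    intro L hL
    let f : L →ₐ[ℚ] QBar := ((KS p S).val.toRingHom.comp L.val.toRingHom).toRatAlgHom
    let e : L ≃ₐ[ℚ] f.fieldRange := AlgEquiv.ofInjectiveField f
    have fd : FiniteDimensional ℚ f.fieldRange := e.toLinearEquiv.finiteDimensional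
    obtain ⟨M, hM, hle⟩ := exists_member (p := p) (S := S) f.fieldRange (by
      rintro _ ⟨x, rfl⟩
      exact (x : KS p S).2)
    exact ⟨M, (IntermediateField.inclusion hle).toRingHom.comp e.toRingEquiv.toRingHom, hM⟩
  refine ⟨?_, ?_, ?_, ?_⟩
  · have h : Normal ℚ ↥(⨆ M : {M // InC p S M}, (M : IntermediateField ℚ QBar)) :=
      @IntermediateField.normal_iSup ℚ QBar _ _ _ _
        (fun M : {M // InC p S M} => (M : IntermediateField ℚ QBar))
        (fun M => M.2.choose_spec.1.to_normal)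
    have nm : Normal ℚ (KS p S) := by
      rw [KS, sSup_eq_iSup']
      exact h
    exact ⟨⟩
  · intro L _ _
    obtain ⟨M, j, nf, gal, ⟨k, hk⟩, hu⟩ := hsub L
    have hd : Module.finrank ℚ L ∣ p ^ k := by
      rw [← hk]
      exact finrank_dvd j
    obtain ⟨i, -, hi⟩ := (Nat.dvd_prime_pow Fact.out).1 hd
    exact ⟨i, hi⟩
  · intro L _ _
    obtain ⟨M, j, nf, gal, hk, hu⟩ := hsub L
    exact UnrOutside.sub j hu
  · intro M _ _ _ hk hu
    have := isAlgCl
    let f : M →ₐ[ℚ] QBar := IsAlgClosed.lift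
    have hle : f.fieldRange ≤ KS p S := le_sSup (inC_image hk hu f)
    exact ⟨((IntermediateField.inclusion hle).toRingHom.comp
      (AlgEquiv.ofInjectiveField f).toRingEquiv.toRingHom).toRatAlgHom⟩

end Pool.Agent.RG
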