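import Mathlib
import Pool.Agent.Lib.RG.Defs
import Pool.Agent.Lib.RG.G07

/-!
PART G, row G08: infinite Galois theory of `K / ℚ`.
-/

set_option autoImplicit false

namespace Pool.Agent.RG

open NumberField IsDedekindDomain

variable {K : Type} [Field K] [CharZero K] [IsGalois ℚ K]

private theorem G08aux_isGal (L : IntermediateField ℚ K)
    (h : @IsGalois ℚ _ L _ (IntermediateField.algebra' L)) : IsGalois ℚ L := h

private theorem G08aux_isGal' (L : IntermediateField ℚ K) (h : IsGalois ℚ L) :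
    @IsGalois ℚ _ L _ (IntermediateField.algebra' L) := h

private theorem G08aux_layer (U : Subgroup (K ≃ₐ[ℚ] K)) [U.Normal]
    (hU : IsOpen (U : Set (K ≃ₐ[ℚ] K))) :
    ∃ (L : IntermediateField ℚ K), @FiniteDimensional ℚ L _ _
      (IntermediateField.algebra' L).toModule ∧ IsGalois ℚ L ∧ L.fixingSubgroup = U := by
  have hcl : IsClosed (U : Set (K ≃ₐ[ℚ] K)) := Subgroup.isClosed_of_isOpen U hU
  let H : ClosedSubgroup (K ≃ₐ[ℚ] K) := ⟨U, hcl⟩
  have h1 : (IntermediateField.fixedField (H : Subgroup (K ≃ₐ[ℚ] K))).fixingSubgroup = U :=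
    InfiniteGalois.fixingSubgroup_fixedField H
  refine ⟨IntermediateField.fixedField (H : Subgroup (K ≃ₐ[ℚ] K)), ?_, ?_, h1⟩
  · refine (InfiniteGalois.isOpen_iff_finite _).mp ?_
    rw [h1]
    exact hU
  · refine G08aux_isGal _ ((InfiniteGalois.normal_iff_isGalois _).mp ?_)
    rw [h1]
    infer_instance

/-- an open normal subgroup is the kernel of the restriction to a finite Galois extension -/
theorem exists_layer (U : Subgroup (K ≃ₐ[ℚ] K)) [U.Normal] (hU : IsOpen (U : Set (K ≃ₐ[ℚ] K))) :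
    ∃ (L : IntermediateField ℚ K) (_ : NumberField L) (_ : IsGalois ℚ L),
      (∀ g : K ≃ₐ[ℚ] K, AlgEquiv.restrictNormalHom L g = 1 ↔ g ∈ U) ∧
      U.index = Module.finrank ℚ L := by
  obtain ⟨L, hfin, hgal, hL⟩ := G08aux_layer U hU
  have hnf : NumberField L := by
    refine @NumberField.mk _ _ _ ?_
    exact hfin
  refine ⟨L, hnf, hgal, ?_, ?_⟩
  · intro g
    haveI := G08aux_isGal' L hgal
    have h := IntermediateField.restrictNormalHom_ker L
    rw [hL] at h
    rw [← h, MonoidHom.mem_ker]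
    rfl
  · rw [← hL]
    exact (IntermediateField.finrank_eq_fixingSubgroup_index K L).symm

theorem restrict_surjective (L : IntermediateField ℚ K) [IsGalois ℚ L] :
    Function.Surjective (AlgEquiv.restrictNormalHom L : (K ≃ₐ[ℚ] K) →* (L ≃ₐ[ℚ] L)) := by
  exact AlgEquiv.restrictNormalHom_surjective K

/-- the kernel of the restriction to a number field is open -/
theorem isOpen_ker_restrict (L : IntermediateField ℚ K) [NumberField L] [IsGalois ℚ L] :
    IsOpen (((AlgEquiv.restrictNormalHom L : (K ≃ₐ[ℚ] K) →* (L ≃ₐ[ℚ] L)).ker :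
      Set (K ≃ₐ[ℚ] K))) := by
  have h : (AlgEquiv.restrictNormalHom L : (K ≃ₐ[ℚ] K) →* (L ≃ₐ[ℚ] L)).ker
      = L.fixingSubgroup := by
    haveI := G08aux_isGal' L inferInstance
    exact IntermediateField.restrictNormalHom_ker L
  rw [h]
  haveI : FiniteDimensional ℚ L := inferInstance
  exact IntermediateField.fixingSubgroup_isOpen L

/-- the same for a number field which is only embedded into `K` -/
theorem exists_restrict {M : Type} [Field M] [NumberField M] [IsGalois ℚ M] (e : M →ₐ[ℚ] K) :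
    ∃ r : (K ≃ₐ[ℚ] K) →* (M ≃ₐ[ℚ] M), IsOpen (r.ker : Set (K ≃ₐ[ℚ] K)) ∧
      Function.Surjective r ∧ ∀ g x, g (e x) = e (r g x) := by
  letI := e.toRingHom.toAlgebra
  haveI : IsScalarTower ℚ M K := IsScalarTower.of_algebraMap_eq (fun x => (e.commutes x).symm)
  have hr : ∀ (g : K ≃ₐ[ℚ] K) (x : M), g (e x) = e (AlgEquiv.restrictNormalHom M g x) := by
    intro g x
    exact (AlgEquiv.restrictNormal_commutes g M x).symm
  refine ⟨AlgEquiv.restrictNormalHom M, ?_, AlgEquiv.restrictNormalHom_surjective K, hr⟩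
  have hle : e.fieldRange.fixingSubgroup ≤
      (AlgEquiv.restrictNormalHom M : (K ≃ₐ[ℚ] K) →* (M ≃ₐ[ℚ] M)).ker := by
    intro g hg
    rw [MonoidHom.mem_ker]
    ext x
    have h1 : g (e x) = e x := by
      rw [IntermediateField.mem_fixingSubgroup_iff] at hg
      exact hg (e x) ⟨x, rfl⟩
    have h2 := hr g x
    rw [h1] at h2
    exact (e.injective h2).symm
  haveI : FiniteDimensional ℚ e.fieldRange := by
    exact (AlgEquiv.ofInjectiveField e).toLinearEquiv.finiteDimensional
  exact Subgroup.isOpen_mono hle (IntermediateField.fixingSubgroup_isOpen e.fieldRange)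

/-- elements which agree on all layers are equal -/
theorem eq_of_layers {g h : K ≃ₐ[ℚ] K}
    (H : ∀ (L : IntermediateField ℚ K) [NumberField L] [IsGalois ℚ L],
      AlgEquiv.restrictNormalHom L g = AlgEquiv.restrictNormalHom L h) : g = h := by
  ext x
  let L := FiniteGaloisIntermediateField.adjoin ℚ {x}
  have hx : x ∈ L.toIntermediateField := FiniteGaloisIntermediateField.subset_adjoin _ _ rfl
  haveI h1 : NumberField L.toIntermediateField := @NumberField.mk _ _ _ L.finiteDimensional
  haveI h2 : IsGalois ℚ L.toIntermediateField := L.isGalois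
  have h3 := H L.toIntermediateField
  have h4 : (AlgEquiv.restrictNormalHom L.toIntermediateField g ⟨x, hx⟩ : K) = g x :=
    AlgEquiv.restrictNormal_commutes g L.toIntermediateField ⟨x, hx⟩
  have h5 : (AlgEquiv.restrictNormalHom L.toIntermediateField h ⟨x, hx⟩ : K) = h x :=
    AlgEquiv.restrictNormal_commutes h L.toIntermediateField ⟨x, hx⟩
  rw [← h4, ← h5, h3]

/-- layers are directed -/
theorem exists_layer_ge (L₁ L₂ : IntermediateField ℚ K) [NumberField L₁] [NumberField L₂]
    [IsGalois ℚ L₁] [IsGalois ℚ L₂] :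
    ∃ (L : IntermediateField ℚ K) (_ : NumberField L) (_ : IsGalois ℚ L), L₁ ≤ L ∧ L₂ ≤ L := by
  haveI a1 : @FiniteDimensional ℚ L₁ _ _ (IntermediateField.algebra' L₁).toModule :=
    NumberField.to_finiteDimensional
  haveI a2 : @FiniteDimensional ℚ L₂ _ _ (IntermediateField.algebra' L₂).toModule :=
    NumberField.to_finiteDimensional
  let M₁ : FiniteGaloisIntermediateField ℚ K :=
    { L₁ with finiteDimensional := a1, isGalois := G08aux_isGal' L₁ inferInstance }
  let M₂ : FiniteGaloisIntermediateField ℚ K :=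
    { L₂ with finiteDimensional := a2, isGalois := G08aux_isGal' L₂ inferInstance }
  let L := M₁ ⊔ M₂
  haveI h1 : NumberField L.toIntermediateField := @NumberField.mk _ _ _ L.finiteDimensional
  haveI h2 : IsGalois ℚ L.toIntermediateField := L.isGalois
  refine ⟨L.toIntermediateField, h1, h2, ?_, ?_⟩
  · exact (le_sup_left : M₁ ≤ M₁ ⊔ M₂)
  · exact (le_sup_right : M₂ ≤ M₁ ⊔ M₂)

theorem MaxExt.pro_p {p : ℕ} {S : Finset ℕ} (h : MaxExt p S K) (U : Subgroup (K ≃ₐ[ℚ] K))
    (hN : U.Normal) (hU : IsOpen (U : Set (K ≃ₐ[ℚ] K))) : ∃ k, U.index = p ^ k := by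
  obtain ⟨L, hnf, hgal, -, hidx⟩ := exists_layer U hU
  rw [hidx]
  exact h.deg L

end Pool.Agent.RG
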