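import Mathlib
import Pool.Agent.Lib.RG.Defs
import Pool.Agent.Lib.RG.G01
import Pool.Agent.Lib.RG.G02
import Pool.Agent.Lib.RG.G03
import Pool.Agent.Lib.RG.G04
import Pool.Agent.Lib.RG.G07
import Pool.Agent.Lib.RG.G08

/-!
PART G, row G09: compactness: inertia generators and Frobenius elements of the maximal extension.
-/

set_option autoImplicit false

namespace Pool.Agent.RG

open NumberField IsDedekindDomain

/-- On every layer `x` generates the inertia group and `y` is a Frobenius element of some prime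
above `q`. -/
def InFr {K : Type} [Field K] [CharZero K] (q : ℕ) (x y : K ≃ₐ[ℚ] K) : Prop :=
  ∀ (L : IntermediateField ℚ K) [NumberField L] [IsGalois ℚ L],
    ∃ w : HeightOneSpectrum (𝓞 L), Above w q ∧
      (∀ σ : L ≃ₐ[ℚ] L, IsInert w σ ↔ σ ∈ Subgroup.zpowers (AlgEquiv.restrictNormalHom L x)) ∧
      IsFrob w q (AlgEquiv.restrictNormalHom L y)

namespace G09aux

/-- the condition of `InFr` on one layer, for elements of the Galois group of the layer -/
def Good {M : Type} [Field M] [NumberField M] (q : ℕ) (s t : M ≃ₐ[ℚ] M) : Prop :=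
  ∃ w : HeightOneSpectrum (𝓞 M), Above w q ∧
    (∀ σ : M ≃ₐ[ℚ] M, IsInert w σ ↔ σ ∈ Subgroup.zpowers s) ∧ IsFrob w q t

theorem isInert_zpow {M : Type} [Field M] [NumberField M] {w : HeightOneSpectrum (𝓞 M)}
    {g : M ≃ₐ[ℚ] M} (h : IsInert w g) (k : ℤ) : IsInert w (g ^ k) :=
  (inertiaGroup (M ≃ₐ[ℚ] M) w).zpow_mem (x := g) h k

theorem isInert_pow {M : Type} [Field M] [NumberField M] {w : HeightOneSpectrum (𝓞 M)}
    {g : M ≃ₐ[ℚ] M} (h : IsInert w g) (k : ℕ) : IsInert w (g ^ k) :=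
  (inertiaGroup (M ≃ₐ[ℚ] M) w).pow_mem (x := g) h k

variable {K : Type} [Field K] [CharZero K]

theorem comm_restrict [Normal ℚ K] {L₁ L : IntermediateField ℚ K} [IsGalois ℚ L₁] [IsGalois ℚ L]
    (h : L₁ ≤ L) (g : K ≃ₐ[ℚ] K) (x : L₁) :
    AlgEquiv.restrictNormalHom L g (IntermediateField.inclusion h x) =
      IntermediateField.inclusion h (AlgEquiv.restrictNormalHom L₁ g x) := by
  apply Subtype.ext
  have h1 := AlgEquiv.restrictNormal_commutes g L (IntermediateField.inclusion h x)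
  have h2 := AlgEquiv.restrictNormal_commutes g L₁ x
  exact h1.trans h2.symm

/-- the restriction to a layer -/
noncomputable abbrev res [Normal ℚ K] (L : IntermediateField ℚ K) [NumberField L] [IsGalois ℚ L] :
    (K ≃ₐ[ℚ] K) →* (L ≃ₐ[ℚ] L) := AlgEquiv.restrictNormalHom L

theorem continuous_restrict [IsGalois ℚ K] (L : IntermediateField ℚ K) [NumberField L]
    [h : IsGalois ℚ L] : Continuous (res L) := by
  have : @Normal ℚ L _ _ (IntermediateField.algebra' L) := h.to_normal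
  exact InfiniteGalois.restrictNormalHom_continuous L

theorem isClosed_good [IsGalois ℚ K] (L : IntermediateField ℚ K) [NumberField L] [IsGalois ℚ L]
    (q : ℕ) : IsClosed {z : (K ≃ₐ[ℚ] K) × (K ≃ₐ[ℚ] K) | Good q (res L z.1) (res L z.2)} := by
  have hc := continuous_restrict (K := K) L
  have hc2 : Continuous fun z : (K ≃ₐ[ℚ] K) × (K ≃ₐ[ℚ] K) => (res L z.1, res L z.2) :=
    (hc.comp continuous_fst).prodMk (hc.comp continuous_snd)
  have : DiscreteTopology (L ≃ₐ[ℚ] L) := inferInstance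
  exact (isClosed_discrete {u : (L ≃ₐ[ℚ] L) × (L ≃ₐ[ℚ] L) | Good q u.1 u.2}).preimage hc2

theorem nonempty_good {p : ℕ} [Fact p.Prime] {S : Finset ℕ} [IsGalois ℚ K]
    (hK : MaxExt p S K) {q : ℕ} (hq : q.Prime) (hqp : q ≠ p)
    (L : IntermediateField ℚ K) [NumberField L] [IsGalois ℚ L] :
    {z : (K ≃ₐ[ℚ] K) × (K ≃ₐ[ℚ] K) | Good q (res L z.1) (res L z.2)}.Nonempty := by
  obtain ⟨k, hk⟩ := hK.deg L
  obtain ⟨w, hw⟩ := exists_above_prime L hq
  obtain ⟨t, ht⟩ := exists_inert_generator (p := p) hk hq hqp hw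
  obtain ⟨s, hs⟩ := exists_frob hq hw
  obtain ⟨x, hx⟩ := restrict_surjective (K := K) L t
  obtain ⟨y, hy⟩ := restrict_surjective (K := K) L s
  refine ⟨(x, y), w, hw, ?_, ?_⟩
  · show ∀ σ : L ≃ₐ[ℚ] L, IsInert w σ ↔ σ ∈ Subgroup.zpowers (res L x)
    rw [show res L x = t from hx]
    exact ht
  · show IsFrob w q (res L y)
    rw [show res L y = s from hy]
    exact hs

theorem zpow_comm {M₁ M : Type} [Field M₁] [Field M] [CharZero M₁] [CharZero M]
    {j : M₁ →+* M} {σ₁ : M₁ ≃ₐ[ℚ] M₁} {σ : M ≃ₐ[ℚ] M} (h : ∀ x, σ (j x) = j (σ₁ x)) (k : ℤ)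
    (x : M₁) : (σ ^ k) (j x) = j ((σ₁ ^ k) x) := by
  have hn : ∀ (n : ℕ) (x : M₁), (σ ^ n) (j x) = j ((σ₁ ^ n) x) := by
    intro n
    induction n with
    | zero => intro x; simp
    | succ n ih =>
      intro x
      rw [pow_succ, pow_succ, AlgEquiv.mul_apply, AlgEquiv.mul_apply, h, ih]
  obtain ⟨n, rfl | rfl⟩ := k.eq_nat_or_neg
  · simpa using hn n x
  · rw [zpow_neg, zpow_neg, zpow_natCast, zpow_natCast]
    have h1 := hn n ((σ₁ ^ n)⁻¹ x)
    have h2 : (σ₁ ^ n) ((σ₁ ^ n)⁻¹ x) = x := by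
      rw [← AlgEquiv.mul_apply, mul_inv_cancel, AlgEquiv.one_apply]
    rw [h2] at h1
    rw [← h1, ← AlgEquiv.mul_apply, inv_mul_cancel, AlgEquiv.one_apply]

theorem good_restrict {M₁ M : Type} [Field M₁] [NumberField M₁] [Field M] [NumberField M]
    [IsGalois ℚ M₁] [IsGalois ℚ M] (j : M₁ →+* M) {q : ℕ} {s t : M ≃ₐ[ℚ] M}
    {s₁ t₁ : M₁ ≃ₐ[ℚ] M₁} (hs : ∀ x, s (j x) = j (s₁ x)) (ht : ∀ x, t (j x) = j (t₁ x))
    (h : Good q s t) : Good q s₁ t₁ := by
  obtain ⟨w, hw, hin, hfr⟩ := h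
  obtain ⟨w₁, hl⟩ := exists_below j w
  refine ⟨w₁, (hl.above_iff q).1 hw, ?_, hfr.restrict hl ht⟩
  intro σ
  constructor
  · intro hσ
    obtain ⟨σ₂, hc, hi⟩ := exists_inert_lift hl hσ
    obtain ⟨k, hk⟩ := Subgroup.mem_zpowers_iff.1 ((hin σ₂).1 hi)
    refine Subgroup.mem_zpowers_iff.2 ⟨k, ?_⟩
    ext x
    apply j.injective
    rw [← hc x, ← hk, zpow_comm hs k x]
  · intro hσ
    obtain ⟨k, hk⟩ := Subgroup.mem_zpowers_iff.1 hσ
    have h1 : IsInert w (s ^ k) := isInert_zpow ((hin s).2 (Subgroup.mem_zpowers s)) k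
    rw [← hk]
    exact h1.restrict hl (zpow_comm hs k)

/-- index type of the layers -/
def Layer (K : Type) [Field K] [CharZero K] : Type :=
  {L : IntermediateField ℚ K // NumberField L ∧ IsGalois ℚ L}

/-- the pairs which are good on a layer -/
def T (q : ℕ) (L : Layer K) [IsGalois ℚ K] : Set ((K ≃ₐ[ℚ] K) × (K ≃ₐ[ℚ] K)) :=
  {z | ∃ (_ : NumberField L.1) (_ : IsGalois ℚ L.1), Good q (res L.1 z.1) (res L.1 z.2)}

theorem T_eq [IsGalois ℚ K] (q : ℕ) (L : Layer K) [h1 : NumberField L.1] [h2 : IsGalois ℚ L.1] :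
    T q L = {z | Good q (res L.1 z.1) (res L.1 z.2)} := by
  ext z
  constructor
  · rintro ⟨_, _, h⟩
    exact h
  · intro h
    exact ⟨h1, h2, h⟩

theorem isClosed_T (q : ℕ) (L : Layer K) [IsGalois ℚ K] : IsClosed (T q L) := by
  have := L.2.1
  have := L.2.2
  rw [T_eq]
  exact isClosed_good L.1 q

theorem nonempty_T {p : ℕ} [Fact p.Prime] {S : Finset ℕ} [IsGalois ℚ K]
    (hK : MaxExt p S K) {q : ℕ} (hq : q.Prime) (hqp : q ≠ p) (L : Layer K) : (T q L).Nonempty := by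
  have := L.2.1
  have := L.2.2
  rw [T_eq]
  exact nonempty_good hK hq hqp L.1

theorem T_mono (q : ℕ) [IsGalois ℚ K] {L₁ L : Layer K} (h : L₁.1 ≤ L.1) : T q L ⊆ T q L₁ := by
  have := L.2.1
  have := L.2.2
  have := L₁.2.1
  have := L₁.2.2
  rw [T_eq, T_eq]
  intro z hz
  exact good_restrict (IntermediateField.inclusion h : L₁.1 →ₐ[ℚ] L.1).toRingHom
    (fun x => comm_restrict h z.1 x) (fun x => comm_restrict h z.2 x) hz

end G09aux

open G09aux in
theorem exists_inFr {p : ℕ} [Fact p.Prime] {S : Finset ℕ} {K : Type} [Field K] [CharZero K]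
    (hK : MaxExt p S K) {q : ℕ} (hq : q.Prime) (hqp : q ≠ p) :
    ∃ x y : K ≃ₐ[ℚ] K, InFr q x y ∧ y * x * y⁻¹ = x ^ q := by
  have := hK.gal
  have hne : Nonempty (Layer K) := by
    have hf : FiniteDimensional ℚ (⊥ : IntermediateField ℚ K) := inferInstance
    have hg : @IsGalois ℚ _ (⊥ : IntermediateField ℚ K) _ (IntermediateField.algebra' _) :=
      inferInstance
    exact ⟨⟨⊥, ⟨⟩, hg⟩⟩
  have hdir : Directed (· ⊇ ·) (fun L : Layer K => T q L) := by
    intro L₁ L₂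
    have := L₁.2.1
    have := L₁.2.2
    have := L₂.2.1
    have := L₂.2.2
    obtain ⟨L, h1, h2, h3, h4⟩ := exists_layer_ge L₁.1 L₂.1
    exact ⟨⟨L, h1, h2⟩, T_mono q h3, T_mono q h4⟩
  obtain ⟨z, hz⟩ := IsCompact.nonempty_iInter_of_directed_nonempty_isCompact_isClosed
    (fun L : Layer K => T q L) hdir (fun L => nonempty_T hK hq hqp L)
    (fun L => (isClosed_T q L).isCompact) (fun L => isClosed_T q L)
  rw [Set.mem_iInter] at hz
  have hgood : InFr q z.1 z.2 := by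
    intro L _ _
    obtain ⟨_, _, h⟩ := hz ⟨L, inferInstance, inferInstance⟩
    exact h
  refine ⟨z.1, z.2, hgood, ?_⟩
  apply eq_of_layers
  intro L _ _
  obtain ⟨w, hw, hin, hfr⟩ := hgood L
  obtain ⟨k, hk⟩ := hK.deg L
  rw [map_mul, map_mul, map_inv, map_pow]
  exact tame_relation (p := p) hk hq hqp hw ((hin _).2 (Subgroup.mem_zpowers _)) hfr

/-- the Frobenius element may be changed by powers of the inertia generator -/
theorem InFr.mul_pow {K : Type} [Field K] [CharZero K] {q : ℕ} {x y : K ≃ₐ[ℚ] K}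
    (h : InFr q x y) (c : ℕ) : InFr q x (y * x ^ c) := by
  intro L _ _
  obtain ⟨w, hw, hin, hfr⟩ := h L
  refine ⟨w, hw, hin, ?_⟩
  rw [map_mul, map_pow]
  exact hfr.mul_inert (G09aux.isInert_pow ((hin _).2 (Subgroup.mem_zpowers _)) c)

end Pool.Agent.RG
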