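import Mathlib
import Pool.Agent.Lib.RG.Defs
import Pool.Agent.Lib.RG.G01
import Pool.Agent.Lib.RG.G02

/-!
PART G, row G05: Minkowski: a Galois number field different from `ℚ` has a nontrivial inertia
element.
-/

set_option autoImplicit false

namespace Pool.Agent.RG

open NumberField IsDedekindDomain
open scoped Pointwise

theorem G05aux_le {M : Type} [Field M] [NumberField M] (w : HeightOneSpectrum (𝓞 M))
    (σ : M ≃ₐ[ℚ] M) (h : σ • w.asIdeal = w.asIdeal) (r : 𝓞 M) :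
    w.intValuation (σ • r) ≤ w.intValuation r := by
  by_cases hr : r = 0
  · simp [hr]
  · have e := w.intValuation_if_neg hr
    have h1 := (w.intValuation_le_pow_iff_mem r _).1 e.le
    rw [e, w.intValuation_le_pow_iff_mem]
    have h2 := Ideal.smul_mem_pointwise_smul σ r _ h1
    rwa [smul_pow', h] at h2

theorem G05aux_int {M : Type} [Field M] [NumberField M] (w : HeightOneSpectrum (𝓞 M))
    (σ : M ≃ₐ[ℚ] M) (h : σ • w.asIdeal = w.asIdeal) (r : 𝓞 M) :
    w.intValuation (σ • r) = w.intValuation r := by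
  refine le_antisymm (G05aux_le w σ h r) ?_
  have h' : σ⁻¹ • w.asIdeal = w.asIdeal := by
    rw [inv_smul_eq_iff, h]
  have := G05aux_le w σ⁻¹ h' (σ • r)
  rwa [inv_smul_smul] at this

theorem G05aux_dec {M : Type} [Field M] [NumberField M] (w : HeightOneSpectrum (𝓞 M))
    (σ : M ≃ₐ[ℚ] M) (h : σ • w.asIdeal = w.asIdeal) : IsDec w σ := by
  intro x
  obtain ⟨a, b, _, rfl⟩ := IsFractionRing.div_surjective (𝓞 M) x
  have e : ∀ r : 𝓞 M, σ • (algebraMap (𝓞 M) M r) = algebraMap (𝓞 M) M (σ • r) := fun r => rfl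
  rw [div_eq_mul_inv, smul_mul', smul_inv'', e, e, map_mul, map_mul, map_inv₀, map_inv₀,
    w.valuation_of_algebraMap, w.valuation_of_algebraMap, w.valuation_of_algebraMap,
    w.valuation_of_algebraMap, G05aux_int w σ h, G05aux_int w σ h]

theorem exists_inert_ne_one {M : Type} [Field M] [NumberField M] [IsGalois ℚ M]
    (h : Module.finrank ℚ M ≠ 1) :
    ∃ (w : HeightOneSpectrum (𝓞 M)) (σ : M ≃ₐ[ℚ] M), IsInert w σ ∧ σ ≠ 1 := by
  obtain ⟨P, hP, hur⟩ := NumberField.exists_not_isUnramifiedAt_int (K := M) (𝒪 := 𝓞 M) h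
  have hPp : P.IsPrime := hP.isPrime
  have hbot : P ≠ ⊥ := Ideal.IsMaximal.ne_bot_of_isIntegral_int P
  rw [← Ideal.ramificationIdx_eq_one_iff,
    ← Ideal.ramificationIdxIn_eq_ramificationIdx (P.under ℤ) P (M ≃ₐ[ℚ] M),
    ← Ideal.card_inertia_eq_ramificationIdxIn (G := M ≃ₐ[ℚ] M) (P.under ℤ) P] at hur
  have hne : Ideal.inertia (M ≃ₐ[ℚ] M) P ≠ ⊥ := by
    intro hb
    apply hur
    rw [hb]
    simp
  obtain ⟨⟨σ, hσ⟩, hσ'⟩ := Subgroup.ne_bot_iff_exists_ne_one.1 hne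
  have hσ1 : σ ≠ 1 := fun e => hσ' (Subtype.ext e)
  have hst : σ • P = P := Ideal.inertia_le_stabilizer (M := M ≃ₐ[ℚ] M) P hσ
  refine ⟨⟨P, hPp, hbot⟩, σ, ?_, hσ1⟩
  have hdec : IsDec (⟨P, hPp, hbot⟩ : HeightOneSpectrum (𝓞 M)) σ := G05aux_dec _ σ hst
  rw [isInert_iff_of_isDec hdec]
  intro x
  have h1 : σ • x - x ∈ P := hσ x
  have h2 := (HeightOneSpectrum.valuation_lt_one_iff_mem (K := M) ⟨P, hPp, hbot⟩ (σ • x - x)).2 h1
  exact h2

end Pool.Agent.RG
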