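import Mathlib
import Pool.Agent.Lib.RG.Defs
import Pool.Agent.Lib.RG.G01
import Pool.Agent.Lib.RG.G02
import Pool.Agent.Lib.RG.G03
import Pool.Agent.Lib.RG.G05
import Pool.Agent.Lib.RG.G07
import Pool.Agent.Lib.RG.G08
import Pool.Agent.Lib.RG.G09

/-!
PART G, row G10: the inertia generators generate the Galois group of the maximal extension.
-/

set_option autoImplicit false

namespace Pool.Agent.RG

open NumberField IsDedekindDomain

/-- a proper subgroup of a finite `p`-group lies in a proper normal subgroup -/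
theorem G10_normal {P : Type} [Group P] [Finite P] {p k : ℕ} [Fact p.Prime]
    (hP : Nat.card P = p ^ k) (H : Subgroup P) (hH : H ≠ ⊤) :
    ∃ N : Subgroup P, N.Normal ∧ H ≤ N ∧ N ≠ ⊤ := by
  obtain h | ⟨N, hN, hHN⟩ := eq_top_or_exists_le_coatom H
  · exact absurd h hH
  · have hp : IsPGroup p P := IsPGroup.of_card hP
    have : Group.IsNilpotent P := hp.isNilpotent
    exact ⟨N, Subgroup.NormalizerCondition.normal_of_coatom N Group.normalizerCondition_of_isNilpotent hN,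
      hHN, hN.1⟩

theorem closure_inertia {p : ℕ} [Fact p.Prime] {S : Finset ℕ} {K : Type} [Field K] [CharZero K]
    (hK : MaxExt p S K) (hS : ∀ q ∈ S, q.Prime) {ι : Type} (q : ι → ℕ) (hq : ∀ r ∈ S, ∃ i, q i = r)
    (x y : ι → (K ≃ₐ[ℚ] K)) (hxy : ∀ i, InFr (q i) (x i) (y i)) :
    (Subgroup.closure (Set.range x)).topologicalClosure = ⊤ := by
  have := hK.gal
  by_contra hC
  set C : Subgroup (K ≃ₐ[ℚ] K) := (Subgroup.closure (Set.range x)).topologicalClosure with hCdef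
  have hCcl : IsClosed (C : Set (K ≃ₐ[ℚ] K)) := Subgroup.isClosed_topologicalClosure _
  obtain ⟨g, hg⟩ : ∃ g, g ∉ C := by
    by_contra h
    push Not at h
    exact hC ((Subgroup.eq_top_iff' _).2 h)
  -- an open normal subgroup with `g U ∩ C = ∅`
  obtain ⟨U, hU⟩ : ∃ U : OpenNormalSubgroup (K ≃ₐ[ℚ] K), ∀ u ∈ U, g * u ∉ C := by
    have h1 : IsOpen ((fun u : K ≃ₐ[ℚ] K => g * u) ⁻¹' (C : Set (K ≃ₐ[ℚ] K))ᶜ) :=
      hCcl.isOpen_compl.preimage (continuous_const.mul continuous_id)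
    have h2 : (1 : K ≃ₐ[ℚ] K) ∈ ((fun u : K ≃ₐ[ℚ] K => g * u) ⁻¹' (C : Set (K ≃ₐ[ℚ] K))ᶜ) := by
      simpa using hg
    obtain ⟨U, hU⟩ := ProfiniteGrp.exist_openNormalSubgroup_sub_open_nhds_of_one h1 h2
    exact ⟨U, fun u hu => hU hu⟩
  have : U.toSubgroup.Normal := U.isNormal'
  obtain ⟨L, _, _, hL1, hL2⟩ := exists_layer U.toSubgroup U.isOpen'
  set r : (K ≃ₐ[ℚ] K) →* (L ≃ₐ[ℚ] L) := AlgEquiv.restrictNormalHom L with hr
  obtain ⟨k, hk⟩ := hK.deg L
  have hcard : Nat.card (L ≃ₐ[ℚ] L) = p ^ k := by rw [IsGalois.card_aut_eq_finrank, hk]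
  have hne : C.map r ≠ ⊤ := by
    intro h
    have h1 : r g ∈ C.map r := by rw [h]; exact Subgroup.mem_top _
    obtain ⟨c, hc, hcg⟩ := Subgroup.mem_map.1 h1
    have h2 : g⁻¹ * c ∈ U.toSubgroup := by
      rw [← hL1, map_mul, map_inv, hcg, inv_mul_cancel]
    exact hU _ h2 (by simpa using hc)
  obtain ⟨N, hN, hCN, hNt⟩ := G10_normal hcard _ hne
  -- the corresponding layer
  set V : Subgroup (K ≃ₐ[ℚ] K) := N.comap r with hV
  have : V.Normal := hN.comap r
  have hVo : IsOpen (V : Set (K ≃ₐ[ℚ] K)) := by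
    refine Subgroup.isOpen_mono (H₁ := r.ker) ?_ (isOpen_ker_restrict L)
    intro a ha
    rw [hV, Subgroup.mem_comap, (MonoidHom.mem_ker.1 ha)]
    exact N.one_mem
  have hVt : V ≠ ⊤ := by
    intro h
    apply hNt
    rw [Subgroup.eq_top_iff']
    intro a
    obtain ⟨b, rfl⟩ := restrict_surjective L a
    have : b ∈ V := by rw [h]; exact Subgroup.mem_top _
    exact this
  obtain ⟨F, _, _, hF1, hF2⟩ := exists_layer V hVo
  have hFx : ∀ i, AlgEquiv.restrictNormalHom F (x i) = 1 := by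
    intro i
    rw [hF1]
    apply hCN
    refine Subgroup.mem_map_of_mem r ?_
    exact Subgroup.le_topologicalClosure _ (Subgroup.subset_closure ⟨i, rfl⟩)
  have hdeg : Module.finrank ℚ F ≠ 1 := by
    rw [← hF2]
    intro h
    exact hVt (Subgroup.index_eq_one.1 h)
  obtain ⟨w, σ, hσ, hσ1⟩ := exists_inert_ne_one hdeg
  obtain ⟨ℓ, hℓ, hwℓ⟩ := exists_prime_above w
  by_cases hℓS : ℓ ∈ S
  · obtain ⟨i, hi⟩ := hq ℓ hℓS
    obtain ⟨w', hw', hin, -⟩ := hxy i F
    rw [hi] at hw'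
    obtain ⟨τ, hτ⟩ := exists_conj hℓ hwℓ hw'
    have h1 := hσ.conj_to hτ
    rw [hin, hFx i, Subgroup.zpowers_one_eq_bot, Subgroup.mem_bot] at h1
    apply hσ1
    have h2 : τ * σ = τ := by
      have := congrArg (fun z => z * τ) h1
      simpa [mul_assoc] using this
    exact mul_eq_left.1 h2
  · apply hσ1
    refine hK.unr F w (fun r hr hwr => ?_) σ hσ
    exact hℓS ((Above.unique hℓ (hS r hr) hwℓ hwr) ▸ hr)

end Pool.Agent.RG
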