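import Mathlib

/-!
RG campaign, PART D: the pattern of prime numbers used in the theorem.
-/

set_option autoImplicit false

namespace Pool.Agent.RG

/-- `b` is a `p`-th power modulo `q` -/
def PP (p b q : ℕ) : Prop := ∃ x : ZMod q, x ^ p = (b : ZMod q)

/-- The primes `a_i`, `s_i` (all `= 1` mod `p`) have the linking pattern of the theorem. -/
structure Pattern (p m : ℕ) [NeZero m] (a s : Fin m → ℕ) : Prop where
  pa : ∀ i, (a i).Prime ∧ a i % p = 1
  ps : ∀ i, (s i).Prime ∧ s i % p = 1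
  inj : Function.Injective (Sum.elim a s)
  aa : ∀ i j, i ≠ j → PP p (a i) (a j)
  as : ∀ i j, (PP p (a i) (s j) ↔ j ≠ i + 1)
  sa : ∀ i j, (PP p (s i) (a j) ↔ j ≠ i)

end Pool.Agent.RG
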