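import Mathlib
import Pool.Agent.Lib.RG.Defs
import Pool.Agent.Lib.RG.Pattern
import Pool.Agent.Lib.RG.G01
import Pool.Agent.Lib.RG.G02
import Pool.Agent.Lib.RG.G03

/-!
PART G, row G06: the cyclic field of degree `p` and conductor `q`, where `q = 1` mod `p`.
-/

set_option autoImplicit false

namespace Pool.Agent.RG

open NumberField IsDedekindDomain

namespace G06aux

section val

variable {M : Type} [Field M] [NumberField M]

theorem val_int_le (w : HeightOneSpectrum (𝓞 M)) (x : 𝓞 M) : w.valuation M (x : M) ≤ 1 :=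
  w.valuation_le_one x

theorem eq_of_iff {w w₁ : HeightOneSpectrum (𝓞 M)}
    (h : ∀ x : 𝓞 M, w.valuation M (x : M) < 1 ↔ w₁.valuation M (x : M) < 1) : w = w₁ := by
  apply HeightOneSpectrum.ext
  ext x
  rw [← HeightOneSpectrum.valuation_lt_one_iff_mem (K := M),
    ← HeightOneSpectrum.valuation_lt_one_iff_mem (K := M)]
  exact h x

/-- An automorphism which preserves the prime preserves the valuation. -/
theorem isDec_of_iff {w : HeightOneSpectrum (𝓞 M)} {σ : M ≃ₐ[ℚ] M}
    (h : ∀ x : 𝓞 M, w.valuation M (σ (x : M)) < 1 ↔ w.valuation M (x : M) < 1) :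
    IsDec w σ := by
  obtain ⟨w₁, hw₁⟩ := exists_below (σ : M →+* M) w
  have e : w = w₁ := eq_of_iff (fun x => (h x).symm.trans (hw₁ (x : M)).2)
  subst e
  have H1 : ∀ x : M, w.valuation M (σ x) ≤ 1 ↔ w.valuation M x ≤ 1 := fun x => (hw₁ x).1
  have H2 : ∀ x : M, w.valuation M (σ x) < 1 ↔ w.valuation M x < 1 := fun x => (hw₁ x).2
  have H3 : ∀ x : M, w.valuation M x = 1 → w.valuation M (σ x) = 1 := by
    intro x hx
    have a1 := (H1 x).2 hx.le
    have a2 : ¬ w.valuation M (σ x) < 1 := fun h3 => by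
      have := (H2 x).1 h3
      rw [hx] at this
      exact lt_irrefl _ this
    exact le_antisymm a1 (not_lt.1 a2)
  obtain ⟨π, hπ⟩ := w.valuation_exists_uniformizer M
  have hπ0 : π ≠ 0 := by
    rintro rfl
    rw [map_zero] at hπ
    exact absurd hπ.symm (WithZero.exp_ne_zero)
  -- the value of `σ π`
  have hσπ0 : w.valuation M (σ π) ≠ 0 := by
    rw [Ne, map_eq_zero, map_eq_zero]
    exact hπ0
  obtain ⟨m, hm⟩ : ∃ m : ℤ, w.valuation M (σ π) = WithZero.exp m :=
    ⟨WithZero.log (w.valuation M (σ π)), (WithZero.exp_log hσπ0).symm⟩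
  have key : ∀ (x : M) (n : ℤ), w.valuation M x = WithZero.exp n →
      w.valuation M (σ x) = WithZero.exp (-(n * m)) := by
    intro x n hx
    have h1 : w.valuation M (x * π ^ n) = 1 := by
      rw [map_mul, map_zpow₀, hx, hπ, ← WithZero.exp_zsmul, ← WithZero.exp_add,
        ← WithZero.exp_zero]
      congr 1
      simp
    have h2 := H3 _ h1
    rw [map_mul, map_zpow₀, map_mul, map_zpow₀, hm, ← WithZero.exp_zsmul] at h2
    rw [WithZero.exp_neg]
    have h3 : WithZero.exp (n • m) = WithZero.exp (n * m) := by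
      rw [smul_eq_mul]
    rw [h3] at h2
    exact eq_inv_of_mul_eq_one_left h2
  -- surjectivity
  have hm1 : m = -1 := by
    have h1 : w.valuation M (σ (σ.symm π)) = WithZero.exp (-1 : ℤ) := by
      rw [AlgEquiv.apply_symm_apply]
      exact hπ
    have h2 : w.valuation M (σ.symm π) ≠ 0 := by
      rw [Ne, map_eq_zero, map_eq_zero]
      exact hπ0
    have h3 := key (σ.symm π) _ (WithZero.exp_log h2).symm
    rw [h1] at h3
    have h4 : (-1 : ℤ) = -(WithZero.log (w.valuation M (σ.symm π)) * m) := by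
      simpa using h3
    have h5 : w.valuation M (σ π) < 1 := by
      rw [H2, hπ, ← WithZero.exp_zero, WithZero.exp_lt_exp]
      norm_num
    rw [hm, ← WithZero.exp_zero, WithZero.exp_lt_exp] at h5
    have h6 : WithZero.log (w.valuation M (σ.symm π)) * m = 1 := by omega
    rcases Int.isUnit_iff.1 (IsUnit.of_mul_eq_one _ (by rw [mul_comm] at h6; exact h6)) with h7 | h7
    · omega
    · exact h7
  intro x
  show w.valuation M (σ x) = w.valuation M x
  by_cases hx : x = 0
  · rw [hx, map_zero]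
  · have hx0 : w.valuation M x ≠ 0 := by
      rw [Ne, map_eq_zero]
      exact hx
    have h1 := key x _ (WithZero.exp_log hx0).symm
    rw [h1, hm1]
    conv_rhs => rw [← WithZero.exp_log hx0]
    congr 1
    ring

/-- values of the differences of powers -/
theorem val_one_sub_pow_le (w : HeightOneSpectrum (𝓞 M)) {u : M} (hu : w.valuation M u ≤ 1)
    (n : ℕ) : w.valuation M (1 - u ^ n) ≤ w.valuation M (1 - u) := by
  have h1 : 1 - u ^ n = (∑ i ∈ Finset.range n, u ^ i) * (1 - u) := by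
    have := geom_sum_mul u n
    linear_combination this
  rw [h1, map_mul]
  refine mul_le_of_le_one_left' ?_
  refine Valuation.map_sum_le _ (fun i _ => ?_)
  rw [map_pow]
  exact pow_le_one' hu i

end val

section cyc

variable {q : ℕ} {M : Type} [Field M] [NumberField M]

theorem val_root (w : HeightOneSpectrum (𝓞 M)) {η : M} (hq : q ≠ 0) (h : η ^ q = 1) :
    w.valuation M η = 1 := by
  have h1 : (w.valuation M η) ^ q = 1 := by rw [← map_pow, h, map_one]
  exact (pow_eq_one_iff.1 h1).resolve_right hq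

theorem prod_val (hq : q.Prime) (w : HeightOneSpectrum (𝓞 M)) {η : M}
    (h : IsPrimitiveRoot η q) :
    ∏ k ∈ Finset.range (q - 1), w.valuation M (1 - η ^ (k + 1)) = w.valuation M (q : M) := by
  obtain ⟨n, rfl⟩ : ∃ n, q = n + 1 := ⟨q - 1, by have := hq.one_lt; omega⟩
  rw [← map_prod, Nat.add_sub_cancel, h.prod_one_sub_pow_eq_order]
  push_cast
  rfl

theorem val_one_sub_le_one (w : HeightOneSpectrum (𝓞 M)) {u : M} (hu : w.valuation M u ≤ 1) :
    w.valuation M (1 - u) ≤ 1 := by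
  refine (Valuation.map_sub _ _ _).trans ?_
  rw [map_one]
  exact max_le le_rfl hu

omit [NumberField M] in
theorem primitive_of_ne (hq : q.Prime) {η : M} (h : η ^ q = 1) (h1 : η ≠ 1) :
    IsPrimitiveRoot η q := by
  have : Fact q.Prime := ⟨hq⟩
  have h2 : orderOf η = q := orderOf_eq_prime h h1
  rw [← h2]
  exact IsPrimitiveRoot.orderOf η

theorem val_eq_one (hq : q.Prime) {w : HeightOneSpectrum (𝓞 M)} (hw : w.valuation M (q : M) = 1)
    {η : M} (h : η ^ q = 1) (h1 : η ≠ 1) : w.valuation M (1 - η) = 1 := by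
  have hp := primitive_of_ne hq h h1
  have hη : w.valuation M η = 1 := val_root w hq.ne_zero h
  have h2 := prod_val hq w hp
  rw [hw] at h2
  by_contra hne
  have h3 : w.valuation M (1 - η) < 1 := lt_of_le_of_ne (val_one_sub_le_one w hη.le) hne
  have h4 : ∏ k ∈ Finset.range (q - 1), w.valuation M (1 - η ^ (k + 1)) < 1 := by
    have h5 : 0 ∈ Finset.range (q - 1) := by
      rw [Finset.mem_range]
      have := hq.one_lt
      omega
    rw [← Finset.mul_prod_erase _ _ h5]
    refine lt_of_le_of_lt ?_ h3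
    rw [zero_add, pow_one]
    refine mul_le_of_le_one_right' ?_
    refine Finset.prod_le_one' (fun k _ => ?_)
    refine val_one_sub_le_one w ?_
    rw [map_pow, hη, one_pow]
  rw [h2] at h4
  exact lt_irrefl _ h4

theorem val_lt_one (hq : q.Prime) {w : HeightOneSpectrum (𝓞 M)} (hw : w.valuation M (q : M) < 1)
    {ζ : M} (h : IsPrimitiveRoot ζ q) : w.valuation M (1 - ζ) < 1 := by
  have hζ : w.valuation M ζ = 1 := val_root w hq.ne_zero h.pow_eq_one
  have h2 := prod_val hq w h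
  have h3 : ∃ k ∈ Finset.range (q - 1), w.valuation M (1 - ζ ^ (k + 1)) < 1 := by
    by_contra hcon
    push Not at hcon
    have h4 : (1 : WithZero (Multiplicative ℤ)) ≤
        ∏ k ∈ Finset.range (q - 1), w.valuation M (1 - ζ ^ (k + 1)) :=
      Finset.one_le_prod' hcon
    rw [h2] at h4
    exact absurd hw (not_lt.2 h4)
  obtain ⟨k, hk, h4⟩ := h3
  rw [Finset.mem_range] at hk
  have hc : Nat.Coprime (k + 1) q := by
    refine (Nat.Prime.coprime_iff_not_dvd hq).2 ?_ |>.symm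
    intro h5
    have := Nat.le_of_dvd (by omega) h5
    omega
  obtain ⟨j, -, hj⟩ := Nat.exists_mul_mod_eq_one_of_coprime hc hq.one_lt
  have h5 : (ζ ^ (k + 1)) ^ j = ζ := by
    rw [← pow_mul, ← pow_mod_orderOf, ← h.eq_orderOf, hj, pow_one]
  have h6 := val_one_sub_pow_le w (u := ζ ^ (k + 1)) (by rw [map_pow, hζ, one_pow]) j
  rw [h5] at h6
  exact lt_of_le_of_lt h6 h4

end cyc

section main

variable {q : ℕ} {M : Type} [Field M] [NumberField M]

/-- congruent roots of unity are equal -/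
theorem eq_of_val_lt (hq : q.Prime) {w : HeightOneSpectrum (𝓞 M)} (hw : w.valuation M (q : M) = 1)
    {x y : M} (hx : x ^ q = 1) (hy : y ^ q = 1) (h : w.valuation M (x - y) < 1) : x = y := by
  by_contra hne
  have hy0 : y ≠ 0 := by
    rintro rfl
    rw [zero_pow hq.ne_zero] at hy
    exact zero_ne_one hy
  have h1 : (x / y) ^ q = 1 := by rw [div_pow, hx, hy, div_one]
  have h2 : x / y ≠ 1 := fun h3 => hne ((div_eq_one_iff_eq hy0).1 h3)
  have h3 := val_eq_one hq hw h1 h2
  have h4 : x - y = -(y * (1 - x / y)) := by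
    field_simp
    ring
  rw [h4, Valuation.map_neg, map_mul, h3, val_root w hq.ne_zero hy, one_mul] at h
  exact lt_irrefl _ h

theorem val_sub_lt (w : HeightOneSpectrum (𝓞 M)) {ζ : M} (hζ : w.valuation M ζ = 1)
    (h : w.valuation M (1 - ζ) < 1) (n : ℕ) : w.valuation M (ζ ^ n - ζ) < 1 := by
  have h1 : ζ ^ n - ζ = (1 - ζ) - (1 - ζ ^ n) := by ring
  rw [h1]
  refine lt_of_le_of_lt (Valuation.map_sub _ _ _) (max_lt h ?_)
  exact lt_of_le_of_lt (val_one_sub_pow_le w hζ.le n) h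

variable [IsCyclotomicExtension {q} ℚ M]

theorem inert_int (hq : q.Prime) {w : HeightOneSpectrum (𝓞 M)} (hw : w.valuation M (q : M) < 1)
    {ζ : M} (h : IsPrimitiveRoot ζ q) {σ : M ≃ₐ[ℚ] M} {n : ℕ} (hσ : σ ζ = ζ ^ n) (x : 𝓞 M) :
    w.valuation M (σ (x : M) - (x : M)) < 1 := by
  have : NeZero q := ⟨hq.ne_zero⟩
  have hζ : w.valuation M ζ = 1 := val_root w hq.ne_zero h.pow_eq_one
  have h1 := val_lt_one hq hw h
  have h2 : (x : M) ∈ Algebra.adjoin ℤ {ζ} := by
    have h3 := IsCyclotomicExtension.Rat.isIntegralClosure_adjoin_singleton (K := M) h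
    have h4 : IsIntegral ℤ (x : M) := x.isIntegral_coe
    obtain ⟨y, hy⟩ := h3.isIntegral_iff.1 h4
    rw [← hy]
    exact y.2
  suffices H : ∀ y ∈ Algebra.adjoin ℤ {ζ}, w.valuation M y ≤ 1 ∧
      w.valuation M (σ y - y) < 1 from (H _ h2).2
  intro y hy
  induction hy using Algebra.adjoin_induction with
  | mem z hz =>
    rw [Set.mem_singleton_iff] at hz
    subst hz
    rw [hσ]
    exact ⟨hζ.le, val_sub_lt w hζ h1 n⟩
  | algebraMap k =>
    have h3 : (algebraMap ℤ M k) = (((k : ℤ) : 𝓞 M) : M) := by simp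
    refine ⟨?_, ?_⟩
    · rw [h3]
      exact val_int_le w _
    · have h4 : σ (algebraMap ℤ M k) = algebraMap ℤ M k := by simp
      rw [h4, sub_self, map_zero]
      exact zero_lt_one
  | add a b _ _ ha hb =>
    refine ⟨(Valuation.map_add _ _ _).trans (max_le ha.1 hb.1), ?_⟩
    have h3 : σ (a + b) - (a + b) = (σ a - a) + (σ b - b) := by rw [map_add]; ring
    rw [h3]
    exact lt_of_le_of_lt (Valuation.map_add _ _ _) (max_lt ha.2 hb.2)
  | mul a b _ _ ha hb =>
    refine ⟨by rw [map_mul]; exact mul_le_one' ha.1 hb.1, ?_⟩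
    have h3 : σ (a * b) - a * b = (σ a - a) * (σ b - b) + (σ a - a) * b + a * (σ b - b) := by
      rw [map_mul]
      ring
    rw [h3]
    refine lt_of_le_of_lt (Valuation.map_add _ _ _) (max_lt (lt_of_le_of_lt
      (Valuation.map_add _ _ _) (max_lt ?_ ?_)) ?_)
    · rw [map_mul]
      exact lt_of_le_of_lt (mul_le_of_le_one_right' hb.2.le) ha.2
    · rw [map_mul]
      exact lt_of_le_of_lt (mul_le_of_le_one_right' hb.1) ha.2
    · rw [map_mul]
      exact lt_of_le_of_lt (mul_le_of_le_one_left' ha.1) hb.2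

theorem inert_of_above (hq : q.Prime) {w : HeightOneSpectrum (𝓞 M)} (hw : Above w q)
    (σ : M ≃ₐ[ℚ] M) : IsInert w σ := by
  have : NeZero q := ⟨hq.ne_zero⟩
  have hζ := IsCyclotomicExtension.zeta_spec q ℚ M
  have h1 := IsCyclotomicExtension.Rat.galEquivZMod_apply_of_pow_eq q M σ hζ.pow_eq_one
  have h2 : ∀ x : 𝓞 M, w.valuation M (σ (x : M) - (x : M)) < 1 :=
    fun x => inert_int hq hw hζ h1 x
  have h3 : IsDec w σ := by
    refine isDec_of_iff (fun x => ⟨fun h4 => ?_, fun h4 => ?_⟩)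
    · have h5 : (x : M) = σ (x : M) - (σ (x : M) - (x : M)) := by ring
      rw [h5]
      exact lt_of_le_of_lt (Valuation.map_sub _ _ _) (max_lt h4 (h2 x))
    · have h5 : σ (x : M) = (σ (x : M) - (x : M)) + (x : M) := by ring
      rw [h5]
      exact lt_of_le_of_lt (Valuation.map_add _ _ _) (max_lt (h2 x) h4)
  exact (isInert_iff_of_isDec h3).2 h2

theorem theta_eq (hq : q.Prime) {w : HeightOneSpectrum (𝓞 M)} (hw : ¬ Above w q)
    {σ : M ≃ₐ[ℚ] M} {n : ℕ}
    (h : ∀ x : M, w.valuation M x ≤ 1 → w.valuation M (σ x - x ^ n) < 1) :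
    haveI : NeZero q := ⟨hq.ne_zero⟩
    ((IsCyclotomicExtension.Rat.galEquivZMod q M σ : (ZMod q)ˣ) : ZMod q) = n := by
  have : NeZero q := ⟨hq.ne_zero⟩
  have hζ := IsCyclotomicExtension.zeta_spec q ℚ M
  have h1 := IsCyclotomicExtension.Rat.galEquivZMod_apply_of_pow_eq q M σ hζ.pow_eq_one
  have hwq : w.valuation M (q : M) = 1 := by
    refine le_antisymm ?_ (not_lt.1 hw)
    have := val_int_le w ((q : ℕ) : 𝓞 M)
    simpa using this
  have h2 := h (IsCyclotomicExtension.zeta q ℚ M) (val_root w hq.ne_zero hζ.pow_eq_one).le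
  have h3 := eq_of_val_lt hq hwq (by rw [← map_pow, hζ.pow_eq_one, map_one])
    (by rw [← pow_mul, mul_comm, pow_mul, hζ.pow_eq_one, one_pow]) h2
  rw [h1] at h3
  have h5 : (q : ℤ) ∣ (((IsCyclotomicExtension.Rat.galEquivZMod q M σ).val.val : ℕ) : ℤ) -
      (n : ℤ) := by
    refine (hζ.zpow_eq_one_iff_dvd _).1 ?_
    rw [zpow_sub₀ (hζ.ne_zero hq.ne_zero), zpow_natCast, zpow_natCast, h3]
    exact div_self (pow_ne_zero _ (hζ.ne_zero hq.ne_zero))
  have h6 := (ZMod.intCast_zmod_eq_zero_iff_dvd _ q).2 h5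
  push_cast at h6
  rw [ZMod.natCast_zmod_val] at h6
  exact sub_eq_zero.1 h6

end main

theorem exists_cyc {q : ℕ} (hq : q.Prime) :
    ∃ (M : Type) (_ : Field M) (_ : NumberField M), IsCyclotomicExtension {q} ℚ M := by
  have : NeZero q := ⟨hq.ne_zero⟩
  have : NeZero ((q : ℕ) : ℚ) := ⟨by exact_mod_cast hq.ne_zero⟩
  refine ⟨CyclotomicField q ℚ, inferInstance, inferInstance, ?_⟩
  have h := CyclotomicField.isCyclotomicExtension q ℚ
  have e : (DivisionRing.toRatAlgebra : Algebra ℚ (CyclotomicField q ℚ)) =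
    CyclotomicField.algebra q ℚ := Subsingleton.elim _ _
  rw [e]
  exact h

end G06aux

open G06aux

/-- the cyclotomic field of prime conductor `q` in the language of `Defs` -/
theorem cyclotomic_facts {q : ℕ} (hq : q.Prime) :
    ∃ (M : Type) (_ : Field M) (_ : NumberField M) (_ : IsGalois ℚ M)
      (θ : (M ≃ₐ[ℚ] M) ≃* (ZMod q)ˣ), UnrOutside {q} M ∧
      (∀ w : HeightOneSpectrum (𝓞 M), Above w q → ∀ σ : M ≃ₐ[ℚ] M, IsInert w σ) ∧
      (∀ ℓ : ℕ, ℓ.Prime → ℓ ≠ q → ∀ w : HeightOneSpectrum (𝓞 M), Above w ℓ →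
        ∀ σ : M ≃ₐ[ℚ] M, IsFrob w ℓ σ → ((θ σ : (ZMod q)ˣ) : ZMod q) = ℓ) := by
  have : NeZero q := ⟨hq.ne_zero⟩
  obtain ⟨M, _, _, _⟩ := exists_cyc hq
  refine ⟨M, inferInstance, inferInstance, IsCyclotomicExtension.isGalois {q} ℚ M,
    IsCyclotomicExtension.Rat.galEquivZMod q M, ?_, ?_, ?_⟩
  · intro w hw σ hσ
    have h1 : ¬ Above w q := hw q (Finset.mem_singleton_self q)
    have h2 := theta_eq (n := 1) hq h1 (σ := σ) (fun x hx => by
      rw [pow_one]
      exact hσ.2 x hx)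
    have h3 : IsCyclotomicExtension.Rat.galEquivZMod q M σ = 1 := by
      apply Units.ext
      rw [h2]
      simp
    exact (MulEquiv.map_eq_one_iff _).1 h3
  · intro w hw σ
    exact inert_of_above hq hw σ
  · intro l hl hlq w hw σ hσ
    have h1 : ¬ Above w q := fun h => hlq (Above.unique hl hq hw h)
    exact theta_eq hq h1 hσ.2

/-- the cyclic field of degree `p` and conductor `q` -/
theorem exists_cyclic_field {p q : ℕ} [Fact p.Prime] (hq : q.Prime) (hpq : q % p = 1) :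
    ∃ (F : Type) (_ : Field F) (_ : NumberField F) (_ : IsGalois ℚ F),
      Module.finrank ℚ F = p ∧ UnrOutside {q} F ∧
      (∀ w : HeightOneSpectrum (𝓞 F), Above w q → ∀ σ : F ≃ₐ[ℚ] F, IsInert w σ) ∧
      (∀ ℓ : ℕ, ℓ.Prime → ℓ ≠ q → ∀ w : HeightOneSpectrum (𝓞 F), Above w ℓ →
        ∀ σ : F ≃ₐ[ℚ] F, IsFrob w ℓ σ → (σ = 1 ↔ PP p ℓ q)) := by
  have hp : p.Prime := Fact.out
  have : Fact q.Prime := ⟨hq⟩
  obtain ⟨M, _, _, _, θ, hun, hin, hfr⟩ := cyclotomic_facts hq
  -- the subgroup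
  set P : Subgroup (ZMod q)ˣ := (powMonoidHom p : (ZMod q)ˣ →* (ZMod q)ˣ).range with hP
  set H : Subgroup (M ≃ₐ[ℚ] M) := P.comap θ.toMonoidHom with hH
  have hPi : P.index = p := by
    rw [hP, IsCyclic.index_powMonoidHom_range, Nat.card_eq_fintype_card, ZMod.card_units]
    have h1 : p ∣ q - 1 := by
      have h2 := Nat.div_add_mod q p
      rw [hpq] at h2
      exact ⟨q / p, by omega⟩
    exact Nat.gcd_eq_right h1
  have hHi : H.index = p := by
    rw [hH, Subgroup.index_comap_of_surjective _ θ.surjective, hPi]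
  have hcomm : ∀ a b : M ≃ₐ[ℚ] M, a * b = b * a := by
    intro a b
    apply θ.injective
    rw [map_mul, map_mul, mul_comm]
  have hHn : H.Normal := ⟨fun n hn g => by
    rw [hcomm g n, mul_assoc, mul_inv_cancel, mul_one]
    exact hn⟩
  set F : IntermediateField ℚ M := IntermediateField.fixedField H with hF
  have hFix : F.fixingSubgroup = H := IntermediateField.fixingSubgroup_fixedField H
  have hFn : F.fixingSubgroup.Normal := by rw [hFix]; exact hHn
  have : IsGalois ℚ F := IsGalois.of_fixedField_normal_subgroup H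
  have hdeg : Module.finrank ℚ F = p := by
    rw [IntermediateField.finrank_eq_fixingSubgroup_index, hFix, hHi]
  have hsurj : ∀ σ₁ : F ≃ₐ[ℚ] F, ∃ σ₂ : M ≃ₐ[ℚ] M, ∀ x : F, σ₂ (F.val x) = F.val (σ₁ x) := by
    intro σ₁
    refine ⟨σ₁.liftNormal M, fun x => ?_⟩
    exact AlgEquiv.liftNormal_commutes σ₁ M x
  have hrest : ∀ σ₂ : M ≃ₐ[ℚ] M, ∃ σ₁ : F ≃ₐ[ℚ] F, ∀ x : F, σ₂ (F.val x) = F.val (σ₁ x) := by
    intro σ₂
    refine ⟨σ₂.restrictNormal F, fun x => ?_⟩
    exact (AlgEquiv.restrictNormal_commutes σ₂ F x).symm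
  have hunF : UnrOutside {q} F := UnrOutside.sub (F.val : F →+* M) hun
  refine ⟨F, inferInstance, inferInstance, inferInstance, hdeg, hunF, ?_, ?_⟩
  · intro w₁ hw₁ σ₁
    obtain ⟨w₂, hw₂⟩ := exists_above (F.val : F →+* M) w₁
    obtain ⟨σ₂, hσ₂⟩ := hsurj σ₁
    exact IsInert.restrict hw₂ hσ₂ (hin w₂ ((hw₂.above_iff q).2 hw₁) σ₂)
  · intro l hl hlq w₁ hw₁ σ₁ hσ₁
    obtain ⟨w₂, hw₂⟩ := exists_above (F.val : F →+* M) w₁
    have hw₂l : Above w₂ l := (hw₂.above_iff l).2 hw₁
    obtain ⟨σ₂, hσ₂⟩ := exists_frob hl hw₂l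
    obtain ⟨τ₁, hτ₁⟩ := hrest σ₂
    have h1 : IsFrob w₁ l τ₁ := IsFrob.restrict hw₂ hτ₁ hσ₂
    have h2 : τ₁⁻¹ * σ₁ = 1 := by
      refine hunF w₁ ?_ _ (h1.inv_mul hσ₁)
      intro q' hq' h3
      rw [Finset.mem_singleton] at hq'
      subst hq'
      exact hlq (Above.unique hl hq hw₁ h3)
    have h3 : σ₁ = τ₁ := (inv_mul_eq_one.1 h2).symm
    have h4 : σ₁ = 1 ↔ σ₂ ∈ H := by
      rw [h3, ← hFix]
      constructor
      · intro h5
        rw [IntermediateField.mem_fixingSubgroup_iff]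
        intro x hx
        have := hτ₁ ⟨x, hx⟩
        rw [h5] at this
        exact this
      · intro h5
        rw [IntermediateField.mem_fixingSubgroup_iff] at h5
        ext x
        have := hτ₁ x
        exact this.symm.trans (h5 _ x.2)
    have h5 := hfr l hl hlq w₂ hw₂l σ₂ hσ₂
    rw [h4]
    constructor
    · rintro ⟨y, hy⟩
      refine ⟨(y : ZMod q), ?_⟩
      rw [← h5]
      have : ((powMonoidHom p y : (ZMod q)ˣ) : ZMod q) = ((θ σ₂ : (ZMod q)ˣ) : ZMod q) := by
        rw [hy]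
        rfl
      rw [← this, powMonoidHom_apply, Units.val_pow_eq_pow_val]
    · rintro ⟨y, hy⟩
      have hy0 : y ≠ 0 := by
        rintro rfl
        rw [zero_pow hp.ne_zero, ← h5] at hy
        exact (θ σ₂).ne_zero hy.symm
      refine ⟨Units.mk0 y hy0, ?_⟩
      apply Units.ext
      rw [powMonoidHom_apply, Units.val_pow_eq_pow_val, Units.val_mk0, hy, ← h5]
      rfl

end Pool.Agent.RG
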