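import Mathlib
import Pool.Agent.Lib.RG.Defs
import Pool.Agent.Lib.RG.Pattern
import Pool.Agent.Lib.RG.G01
import Pool.Agent.Lib.RG.G02
import Pool.Agent.Lib.RG.G03
import Pool.Agent.Lib.RG.G06
import Pool.Agent.Lib.RG.G07
import Pool.Agent.Lib.RG.G08
import Pool.Agent.Lib.RG.G09

/-!
PART G, row G11: the characters of order `p` of the maximal extension and the linking numbers.
-/

set_option autoImplicit false

namespace Pool.Agent.RG

open NumberField IsDedekindDomain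

/-- an abstract cyclic group of order `p` with a given generator -/
theorem G11_equiv {p : ℕ} [Fact p.Prime] {A : Type} [Group A] [Finite A] (hA : Nat.card A = p)
    {g : A} (hg : ∀ a : A, a ∈ Subgroup.zpowers g) :
    ∃ ρ : A ≃* Multiplicative (ZMod p), ρ g = Multiplicative.ofAdd 1 := by
  have hgp : g ^ p = 1 := by rw [← hA]; exact pow_card_eq_one'
  let f0 : {f : ℤ →+ Additive A // f p = 0} := ⟨zmultiplesHom (Additive A) (Additive.ofMul g), by
    rw [zmultiplesHom_apply, natCast_zsmul, ← ofMul_pow, hgp, ofMul_one]⟩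
  let f : ZMod p →+ Additive A := ZMod.lift p f0
  have hf : ∀ n : ℤ, f (n : ZMod p) = Additive.ofMul (g ^ n) := by
    intro n
    change ZMod.lift p f0 (n : ZMod p) = _
    rw [ZMod.lift_coe]
    change zmultiplesHom (Additive A) (Additive.ofMul g) n = _
    rw [zmultiplesHom_apply, ofMul_zpow]
  let F : Multiplicative (ZMod p) →* A := AddMonoidHom.toMultiplicativeLeft f
  have hF : ∀ n : ℤ, F (Multiplicative.ofAdd (n : ZMod p)) = g ^ n := fun n => by
    change Additive.toMul (f (n : ZMod p)) = _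
    rw [hf]
    rfl
  have hsurj : Function.Surjective F := by
    intro a
    obtain ⟨n, hn⟩ := Subgroup.mem_zpowers_iff.1 (hg a)
    exact ⟨_, (hF n).trans hn⟩
  have hcard : Nat.card (Multiplicative (ZMod p)) = Nat.card A := by
    rw [hA]
    change Nat.card (ZMod p) = p
    rw [Nat.card_zmod]
  have hbij : Function.Bijective F := by
    have : Finite (Multiplicative (ZMod p)) := inferInstanceAs (Finite (ZMod p))
    exact (Nat.bijective_iff_surjective_and_card F).2 ⟨hsurj, hcard⟩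
  refine ⟨(MulEquiv.ofBijective F hbij).symm, ?_⟩
  rw [MulEquiv.symm_apply_eq]
  have := hF 1
  simp only [Int.cast_one, zpow_one] at this
  exact this.symm

/-- transport of `InFr` to an embedded number field -/
theorem G11_transport {K F : Type} [Field K] [CharZero K] [Field F] [NumberField F] [IsGalois ℚ F]
    (e : F →ₐ[ℚ] K) {r : (K ≃ₐ[ℚ] K) →* (F ≃ₐ[ℚ] F)} (hr : ∀ g x, g (e x) = e (r g x)) {ℓ : ℕ}
    {x y : K ≃ₐ[ℚ] K} (h : InFr ℓ x y) :
    ∃ w : HeightOneSpectrum (𝓞 F), Above w ℓ ∧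
      (∀ σ : F ≃ₐ[ℚ] F, IsInert w σ ↔ σ ∈ Subgroup.zpowers (r x)) ∧ IsFrob w ℓ (r y) := by
  let L : IntermediateField ℚ K := e.fieldRange
  let ε : F ≃ₐ[ℚ] L := AlgEquiv.ofInjectiveField e
  have hε : ∀ z, ((ε z : L) : K) = e z := fun z => rfl
  have hfin : FiniteDimensional ℚ L := LinearEquiv.finiteDimensional ε.toLinearEquiv
  have hnf : NumberField L := { to_charZero := inferInstance, to_finiteDimensional := hfin }
  have hgal : IsGalois ℚ L := IsGalois.of_algEquiv ε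
  obtain ⟨w', hw1, hw2, hw3⟩ := h L
  let j : F →+* L := ε.toRingEquiv.toRingHom
  have hj : ∀ z, ((j z : L) : K) = e z := fun z => rfl
  obtain ⟨w, hw⟩ := exists_below j w'
  have hcomp : ∀ (g : K ≃ₐ[ℚ] K) (z : F),
      AlgEquiv.restrictNormalHom L g (j z) = j (r g z) := by
    intro g z
    have h1 : ((AlgEquiv.restrictNormalHom L g (j z) : L) : K) = g ((j z : L) : K) :=
      AlgEquiv.restrictNormal_commutes g L (j z)
    apply Subtype.ext
    rw [h1, hj, hj, hr]
  refine ⟨w, (hw.above_iff ℓ).1 hw1, fun σ => ⟨fun hσ => ?_, ?_⟩,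
    IsFrob.restrict hw (hcomp y) hw3⟩
  · obtain ⟨σ', h1, h2⟩ := exists_inert_lift hw hσ
    obtain ⟨n, hn⟩ := Subgroup.mem_zpowers_iff.1 ((hw2 σ').1 h2)
    refine Subgroup.mem_zpowers_iff.2 ⟨n, ?_⟩
    refine AlgEquiv.ext fun z => j.injective ?_
    rw [← h1, ← hn, ← map_zpow, ← map_zpow, hcomp]
  · intro hσ
    obtain ⟨n, rfl⟩ := Subgroup.mem_zpowers_iff.1 hσ
    have h1 : IsInert w' (AlgEquiv.restrictNormalHom L (x ^ n)) := by
      rw [hw2, map_zpow]
      exact Subgroup.mem_zpowers_iff.2 ⟨n, rfl⟩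
    have h2 := IsInert.restrict hw (hcomp (x ^ n)) h1
    rwa [map_zpow] at h2

/-- the character belonging to the cyclic field of conductor `q`, normalised by `χ x = 1` -/
theorem exists_character {p : ℕ} [Fact p.Prime] {S : Finset ℕ} {K : Type} [Field K] [CharZero K]
    (hK : MaxExt p S K) {q : ℕ} (hq : q.Prime) (hpq : q % p = 1) (hqS : q ∈ S)
    {x y : K ≃ₐ[ℚ] K} (hxy : InFr q x y) :
    ∃ χ : (K ≃ₐ[ℚ] K) →* Multiplicative (ZMod p), IsOpen (χ.ker : Set (K ≃ₐ[ℚ] K)) ∧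
      χ x = Multiplicative.ofAdd 1 ∧
      ∀ (ℓ : ℕ) (x' y' : K ≃ₐ[ℚ] K), ℓ.Prime → ℓ ≠ q → InFr ℓ x' y' →
        χ x' = 1 ∧ (χ y' = 1 ↔ PP p ℓ q) := by
  have hgal := hK.gal
  obtain ⟨F, hF0, hF1, hF2, hdeg, hunr, hram, hfrob⟩ := exists_cyclic_field (p := p) hq hpq
  obtain ⟨e⟩ := hK.max F ⟨1, by rw [hdeg, pow_one]⟩
    (hunr.mono (Finset.singleton_subset_iff.2 hqS))
  obtain ⟨r, hr1, hr2, hr3⟩ := exists_restrict e
  have hcard : Nat.card (F ≃ₐ[ℚ] F) = p := by rw [IsGalois.card_aut_eq_finrank, hdeg]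
  obtain ⟨w, hw1, hw2, -⟩ := G11_transport e hr3 hxy
  obtain ⟨ρ, hρ⟩ := G11_equiv hcard (g := r x) fun a => (hw2 a).1 (hram w hw1 a)
  refine ⟨ρ.toMonoidHom.comp r, ?_, hρ, ?_⟩
  · refine Subgroup.isOpen_mono (H₁ := r.ker) ?_ hr1
    intro g hg
    rw [MonoidHom.mem_ker] at hg ⊢
    rw [MonoidHom.comp_apply, hg, map_one]
  · intro ℓ x' y' hℓ hne h'
    obtain ⟨w', hw1', hw2', hw3'⟩ := G11_transport e hr3 h'
    have h1 : r x' = 1 := by
      refine hunr w' ?_ _ ((hw2' _).2 (Subgroup.mem_zpowers _))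
      intro t ht hab
      rw [Finset.mem_singleton] at ht
      subst ht
      exact hne (Above.unique hℓ hq hw1' hab)
    refine ⟨?_, ?_⟩
    · change ρ (r x') = 1
      rw [h1, map_one]
    · change ρ (r y') = 1 ↔ _
      rw [map_eq_one_iff ρ ρ.injective]
      exact hfrob ℓ hℓ hne w' hw1' _ hw3'

end Pool.Agent.RG
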