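import Mathlib
import Pool.Agent.Lib.RG.Defs

/-!
PART E, row E20: adjoining a primitive p-th root of unity to a Galois p-extension `L` of `ℚ`.
M = splitting field of X^p - 1 over L (or L(zeta) in an algebraic closure); Galois over ℚ (compositum of L and ℚ(zeta), or splitting
field of a product). [ℚ(zeta) : ℚ] = p - 1 is prime to [L : ℚ] = p^k, so restriction {g | g zeta = zeta} = Gal(M/ℚ(zeta)) -> Gal(L/ℚ)
is bijective (injective: M = L(zeta); |Gal(M/ℚ(zeta))| = [M:ℚ]/(p-1) = p^k). theta = the inverse.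
-/

set_option autoImplicit false

namespace Pool.Agent.RG

open NumberField IsDedekindDomain

private theorem e20_aux (p : ℕ) [Fact p.Prime] (L M : Type) [Field L] [NumberField L] [IsGalois ℚ L]
    [Field M] [NumberField M] [Algebra L M] [IsScalarTower ℚ L M] [IsCyclotomicExtension {p} L M]
    (k : ℕ) (hL : Module.finrank ℚ L = p ^ k) :
    ∃ (_ : IsGalois ℚ M) (j : L →+* M) (ζ : M)
      (θ : (L ≃ₐ[ℚ] L) →* (M ≃ₐ[ℚ] M)), IsPrimitiveRoot ζ p ∧ (∀ h x, θ h (j x) = j (h x)) ∧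
      (∀ h, θ h ζ = ζ) ∧ Function.Injective θ ∧ ∀ g : M ≃ₐ[ℚ] M, g ζ = ζ → ∃ h, g = θ h := by
  have hp : p.Prime := Fact.out
  have hp0 : NeZero p := ⟨hp.ne_zero⟩
  have hnorm : Normal ℚ M := by
    obtain ⟨f, hf, hf'⟩ := IsGalois.is_separable_splitting_field ℚ L
    have h1 : Polynomial.IsSplittingField L M
        ((Polynomial.X ^ p - 1 : Polynomial ℚ).map (algebraMap ℚ L)) := by
      have := IsCyclotomicExtension.isSplittingField_X_pow_sub_one p L M
      simpa using this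
    have h2 : Polynomial.IsSplittingField ℚ M (f * (Polynomial.X ^ p - 1)) :=
      Polynomial.IsSplittingField.mul (K := L) M f (Polynomial.X ^ p - 1) hf.ne_zero
        (Polynomial.X_pow_sub_C_ne_zero hp.pos 1)
    exact Normal.of_isSplittingField (f * (Polynomial.X ^ p - 1))
  have hgal : IsGalois ℚ M := ⟨⟩
  obtain ⟨ζ, hζ⟩ : ∃ ζ : M, IsPrimitiveRoot ζ p := ⟨_, IsCyclotomicExtension.zeta_spec p L M⟩
  obtain ⟨H, hH⟩ : ∃ H : Subgroup (M ≃ₐ[ℚ] M),
      H = (IntermediateField.adjoin ℚ {ζ}).fixingSubgroup := ⟨_, rfl⟩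
  have hmem : ∀ g : M ≃ₐ[ℚ] M, g ∈ H ↔ g ζ = ζ := by
    intro g
    rw [hH, IntermediateField.mem_fixingSubgroup_iff]
    constructor
    · intro h
      exact h ζ (IntermediateField.mem_adjoin_simple_self ℚ ζ)
    · intro h x hx
      induction hx using IntermediateField.adjoin_induction with
      | mem x hx => rw [Set.mem_singleton_iff.1 hx]; exact h
      | algebraMap x => exact g.commutes x
      | add x y _ _ h1 h2 => rw [map_add, h1, h2]
      | inv x _ h1 => rw [map_inv₀, h1]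
      | mul x y _ _ h1 h2 => rw [map_mul, h1, h2]
  have hcard : p ^ k ≤ Nat.card H := by
    have h1 : Nat.card H = Module.finrank (IntermediateField.adjoin ℚ {ζ}) M := by
      rw [hH]; exact IsGalois.card_fixingSubgroup_eq_finrank _
    have h2 : Module.finrank ℚ (IntermediateField.adjoin ℚ {ζ}) = p - 1 := by
      rw [IntermediateField.adjoin.finrank (Algebra.IsIntegral.isIntegral ζ),
        ← Polynomial.cyclotomic_eq_minpoly_rat hζ hp.pos, Polynomial.natDegree_cyclotomic,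
        Nat.totient_prime hp]
    have h3 := Module.finrank_mul_finrank ℚ (IntermediateField.adjoin ℚ {ζ}) M
    have h4 := Module.finrank_mul_finrank ℚ L M
    rw [h2, ← h1] at h3
    rw [hL, ← h3] at h4
    have h5 : p ^ k ∣ (p - 1) * Nat.card H := ⟨_, h4.symm⟩
    have h6 : Nat.Coprime (p ^ k) (p - 1) := by
      apply Nat.Coprime.pow_left
      rw [Nat.Prime.coprime_iff_not_dvd hp]
      intro h
      have := Nat.le_of_dvd (Nat.sub_pos_of_lt hp.one_lt) h
      have := hp.one_lt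
      omega
    exact Nat.le_of_dvd Nat.card_pos (h6.dvd_of_dvd_mul_left h5)
  obtain ⟨r, hr⟩ : ∃ r : H →* (L ≃ₐ[ℚ] L), r = (AlgEquiv.restrictNormalHom L).comp H.subtype :=
    ⟨_, rfl⟩
  have hrj : ∀ (g : H) (x : L), algebraMap L M (r g x) = (g : M ≃ₐ[ℚ] M) (algebraMap L M x) := by
    intro g x
    rw [hr]
    exact AlgEquiv.restrictNormal_commutes (g : M ≃ₐ[ℚ] M) L x
  have hinj : Function.Injective r := by
    rw [injective_iff_map_eq_one]
    intro g hg
    have h1 : ∀ x : L, (g : M ≃ₐ[ℚ] M) (algebraMap L M x) = algebraMap L M x := by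
      intro x
      rw [← hrj, hg]
      rfl
    obtain ⟨g', hg'⟩ : ∃ g' : M →ₐ[L] M, ∀ x, g' x = (g : M ≃ₐ[ℚ] M) x :=
      ⟨{ toRingHom := ((g : M ≃ₐ[ℚ] M) : M →+* M), commutes' := h1 }, fun x => rfl⟩
    have h2 : g' = AlgHom.id L M := by
      have h3 := IsCyclotomicExtension.adjoin_primitive_root_eq_top (A := L) hζ
      apply AlgHom.ext_of_adjoin_eq_top h3
      intro x hx
      rw [Set.mem_singleton_iff.1 hx, hg', (hmem _).1 g.2]
      rfl
    apply Subtype.ext
    ext x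
    rw [← hg', h2]
    rfl
  have hcardL : Nat.card (L ≃ₐ[ℚ] L) = p ^ k := by
    rw [IsGalois.card_aut_eq_finrank, hL]
  have hbij : Function.Bijective r := by
    have h1 : Nat.card H ≤ Nat.card (L ≃ₐ[ℚ] L) := Nat.card_le_card_of_injective r hinj
    exact (Nat.bijective_iff_injective_and_card r).2 ⟨hinj, by omega⟩
  obtain ⟨e, he⟩ : ∃ e : H ≃* (L ≃ₐ[ℚ] L), ∀ g, e g = r g := ⟨MulEquiv.ofBijective r hbij, fun g => rfl⟩
  refine ⟨hgal, algebraMap L M, ζ, H.subtype.comp e.symm.toMonoidHom, hζ, ?_, ?_, ?_, ?_⟩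
  · intro h x
    have h1 := hrj (e.symm h) x
    rw [← he, MulEquiv.apply_symm_apply] at h1
    exact h1.symm
  · intro h
    exact (hmem _).1 (e.symm h).2
  · intro a b hab
    have h1 : e.symm a = e.symm b := Subtype.ext hab
    exact e.symm.injective h1
  · intro g hg
    refine ⟨e ⟨g, (hmem g).2 hg⟩, ?_⟩
    change g = ((e.symm (e ⟨g, (hmem g).2 hg⟩) : H) : M ≃ₐ[ℚ] M)
    rw [MulEquiv.symm_apply_apply]

theorem exists_M (p : ℕ) [Fact p.Prime] (L : Type) [Field L] [NumberField L] [IsGalois ℚ L] (k : ℕ)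
    (hL : Module.finrank ℚ L = p ^ k) :
    ∃ (M : Type) (_ : Field M) (_ : NumberField M) (_ : IsGalois ℚ M) (j : L →+* M) (ζ : M)
      (θ : (L ≃ₐ[ℚ] L) →* (M ≃ₐ[ℚ] M)), IsPrimitiveRoot ζ p ∧ (∀ h x, θ h (j x) = j (h x)) ∧
      (∀ h, θ h ζ = ζ) ∧ Function.Injective θ ∧ ∀ g : M ≃ₐ[ℚ] M, g ζ = ζ → ∃ h, g = θ h := by
  have hp : p.Prime := Fact.out
  have hp0 : NeZero p := ⟨hp.ne_zero⟩
  obtain ⟨h1, j, ζ, θ, h2⟩ := e20_aux p L (CyclotomicField p L) k hL
  exact ⟨CyclotomicField p L, inferInstance, inferInstance, h1, j, ζ, θ, h2⟩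

end Pool.Agent.RG
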