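import Mathlib
import Pool.Agent.Lib.RG.Defs

/-!
PART E, row E22a: local computations at a prime `w` above `p` in a field containing `ζ` (a primitive p-th root of unity), v = 1 - ζ.
(i) w(p) = w(1-zeta)^(p-1): p = prod_{0<i<p} (1 - zeta^i), (1 - zeta^i)/(1 - zeta) is a unit.
(ii) w(y) <= 1 => w((1 + (1-zeta) y)^p - 1) <= w(1-zeta)^p (binomial theorem).
(iii) w(u-1) < 1 and w(u^p - 1) as follows: if w(b) = 1 and w(b^p - 1) < 1 then w(b - 1) < 1 (b^p - 1 = (b-1)^p mod p).
(iv) w(B^p - 1) <= w(1-zeta)^p => w(B-1) <= w(1-zeta): B^p - 1 = prod (B - zeta^i), some factor has w <= w(1-zeta), and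
w(zeta^i - zeta^j) <= w(1-zeta).
-/

set_option autoImplicit false

namespace Pool.Agent.RG

open NumberField IsDedekindDomain

variable {p : ℕ} [Fact p.Prime] {M : Type} [Field M] [NumberField M] {ζ : M}
  {w : HeightOneSpectrum (𝓞 M)}

private theorem val_nat_le (n : ℕ) : w.valuation M (n : M) ≤ 1 := by
  induction n with
  | zero => simp
  | succ n ih =>
    rw [Nat.cast_succ]
    exact (Valuation.map_add _ _ _).trans (max_le ih (by rw [map_one]))

private theorem val_root {z : M} (hz : z ^ p = 1) : w.valuation M z = 1 := by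
  have h1 : w.valuation M z ^ p = 1 := by rw [← map_pow, hz, map_one]
  exact (pow_eq_one_iff_of_nonneg zero_le (Fact.out : p.Prime).ne_zero).1 h1

private theorem val_one_sub_pow_le {z : M} (hz : z ^ p = 1) (k : ℕ) :
    w.valuation M (1 - z ^ k) ≤ w.valuation M (1 - z) := by
  rw [← mul_neg_geom_sum, map_mul]
  have h1 : w.valuation M (∑ i ∈ Finset.range k, z ^ i) ≤ 1 := by
    refine Valuation.map_sum_le _ fun i _ => ?_
    rw [map_pow, val_root hz, one_pow]
  exact mul_le_of_le_one_right' h1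

private theorem val_one_sub_pow_eq (hζ : IsPrimitiveRoot ζ p) {k : ℕ} (hk : ¬ p ∣ k) :
    w.valuation M (1 - ζ ^ k) = w.valuation M (1 - ζ) := by
  have hp : p.Prime := Fact.out
  refine le_antisymm (val_one_sub_pow_le hζ.pow_eq_one k) ?_
  have h1 : IsPrimitiveRoot (ζ ^ k) p :=
    hζ.pow_of_coprime k ((hp.coprime_iff_not_dvd.2 hk).symm)
  haveI : NeZero p := ⟨hp.ne_zero⟩
  obtain ⟨i, -, hi⟩ := h1.eq_pow_of_pow_eq_one hζ.pow_eq_one
  have h2 := val_one_sub_pow_le (w := w) h1.pow_eq_one i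
  rwa [hi] at h2

private theorem val_p_eq' (hζ : IsPrimitiveRoot ζ p) :
    w.valuation M (p : M) = w.valuation M (1 - ζ) ^ (p - 1) := by
  have hp : p.Prime := Fact.out
  obtain ⟨n, rfl⟩ : ∃ n, p = n + 1 := ⟨p - 1, (Nat.succ_pred_eq_of_pos hp.pos).symm⟩
  have h1 := hζ.prod_one_sub_pow_eq_order
  rw [Nat.cast_succ, ← h1, map_prod, Nat.add_sub_cancel]
  rw [Finset.prod_congr rfl (g := fun _ => w.valuation M (1 - ζ)), Finset.prod_const,
    Finset.card_range]
  intro k hk
  refine val_one_sub_pow_eq hζ ?_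
  intro h
  have h2 := Nat.le_of_dvd (Nat.succ_pos k) h
  have h3 := Finset.mem_range.1 hk
  omega

theorem val_p_eq (hζ : IsPrimitiveRoot ζ p) (hw : Above w p) :
    w.valuation M (p : M) = w.valuation M (1 - ζ) ^ (p - 1) :=
  val_p_eq' hζ

theorem val_one_sub_lt (hζ : IsPrimitiveRoot ζ p) (hw : Above w p) :
    w.valuation M (1 - ζ) < 1 := by
  by_contra h
  rw [not_lt] at h
  have h1 : w.valuation M (p : M) < 1 := hw
  rw [val_p_eq' hζ] at h1
  exact absurd h1 (not_lt.2 (one_le_pow₀ h))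

private theorem val_one_sub_le (hζ : IsPrimitiveRoot ζ p) : w.valuation M (1 - ζ) ≤ 1 := by
  refine (Valuation.map_sub _ _ _).trans (max_le (by rw [map_one]) ?_)
  rw [val_root hζ.pow_eq_one]

private theorem val_rest {x y : M} (hx : w.valuation M x ≤ 1) (hy : w.valuation M y ≤ 1) :
    w.valuation M (∑ k ∈ Finset.Ioo 0 p, x ^ (k - 1) * y ^ (p - k - 1) * ↑(p.choose k / p)) ≤ 1 := by
  refine Valuation.map_sum_le _ fun k _ => ?_
  rw [map_mul, map_mul, map_pow, map_pow]
  exact mul_le_one' (mul_le_one' (pow_le_one' hx _) (pow_le_one' hy _)) (val_nat_le _)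

theorem val_pow_sub_one_le (hζ : IsPrimitiveRoot ζ p) (hw : Above w p) {y : M}
    (hy : w.valuation M y ≤ 1) :
    w.valuation M ((1 + (1 - ζ) * y) ^ p - 1) ≤ w.valuation M (1 - ζ) ^ p := by
  have hp : p.Prime := Fact.out
  have hu : w.valuation M ((1 - ζ) * y) ≤ w.valuation M (1 - ζ) := by
    rw [map_mul]
    exact mul_le_of_le_one_right' hy
  have hu1 : w.valuation M ((1 - ζ) * y) ≤ 1 := hu.trans (val_one_sub_le hζ)
  rw [add_pow_prime_eq hp, one_pow]
  set R := ∑ k ∈ Finset.Ioo 0 p, (1 : M) ^ (k - 1) * ((1 - ζ) * y) ^ (p - k - 1) *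
    ↑(p.choose k / p) with hR
  have hR1 : w.valuation M R ≤ 1 := val_rest (by rw [map_one]) hu1
  have h1 : (1 : M) + ((1 - ζ) * y) ^ p + ↑p * 1 * ((1 - ζ) * y) * R - 1 =
      ((1 - ζ) * y) ^ p + ↑p * ((1 - ζ) * y) * R := by ring
  rw [h1]
  refine (Valuation.map_add _ _ _).trans (max_le ?_ ?_)
  · rw [map_pow]
    exact pow_le_pow_left₀ zero_le hu p
  · rw [map_mul, map_mul, val_p_eq' hζ]
    calc w.valuation M (1 - ζ) ^ (p - 1) * w.valuation M ((1 - ζ) * y) * w.valuation M R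
        ≤ w.valuation M (1 - ζ) ^ (p - 1) * w.valuation M (1 - ζ) * 1 :=
          mul_le_mul' (mul_le_mul' le_rfl hu) hR1
      _ = w.valuation M (1 - ζ) ^ p := by
          rw [mul_one, ← pow_succ, Nat.sub_add_cancel hp.one_le]

theorem val_sub_one_lt_of_pow (hζ : IsPrimitiveRoot ζ p) (hw : Above w p) {b : M}
    (hb : w.valuation M b = 1) (h : w.valuation M (b ^ p - 1) < 1) :
    w.valuation M (b - 1) < 1 := by
  have hp : p.Prime := Fact.out
  have hb1 : w.valuation M (b - 1) ≤ 1 :=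
    (Valuation.map_sub _ _ _).trans (max_le hb.le (by rw [map_one]))
  have h1 := add_pow_prime_eq hp (b - 1) 1
  set R := ∑ k ∈ Finset.Ioo 0 p, (b - 1) ^ (k - 1) * (1 : M) ^ (p - k - 1) *
    ↑(p.choose k / p) with hR
  have hR1 : w.valuation M R ≤ 1 := val_rest hb1 (by rw [map_one])
  rw [sub_add_cancel, one_pow, mul_one] at h1
  have h2 : (b - 1) ^ p = (b ^ p - 1) - ↑p * (b - 1) * R := by
    rw [h1]
    ring
  have h3 : w.valuation M ((b - 1) ^ p) < 1 := by
    rw [h2]
    refine (Valuation.map_sub _ _ _).trans_lt (max_lt h ?_)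
    rw [map_mul, map_mul]
    calc w.valuation M (p : M) * w.valuation M (b - 1) * w.valuation M R
        ≤ w.valuation M (p : M) * 1 * 1 := mul_le_mul' (mul_le_mul' le_rfl hb1) hR1
      _ < 1 := by rw [mul_one, mul_one]; exact hw
  by_contra h4
  rw [not_lt] at h4
  rw [map_pow] at h3
  exact absurd h3 (not_lt.2 (one_le_pow₀ h4))

theorem val_sub_one_le_of_pow (hζ : IsPrimitiveRoot ζ p) (hw : Above w p) {B : M}
    (h : w.valuation M (B ^ p - 1) ≤ w.valuation M (1 - ζ) ^ p) :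
    w.valuation M (B - 1) ≤ w.valuation M (1 - ζ) := by
  have hp : p.Prime := Fact.out
  have h1 := IsPrimitiveRoot.pow_sub_pow_eq_prod_sub_mul B 1 hp.pos hζ
  rw [one_pow] at h1
  have h2 : ∃ z ∈ Polynomial.nthRootsFinset p (1 : M),
      w.valuation M (B - z * 1) ≤ w.valuation M (1 - ζ) := by
    by_contra hcon
    push Not at hcon
    have h3 : w.valuation M (1 - ζ) ^ p < w.valuation M (B ^ p - 1) := by
      have h0 : w.valuation M (1 - ζ) ^ p =
          ∏ _z ∈ Polynomial.nthRootsFinset p (1 : M), w.valuation M (1 - ζ) := by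
        rw [Finset.prod_const, hζ.card_nthRootsFinset]
      rw [h1, map_prod, h0]
      refine Finset.prod_lt_prod_of_nonempty ?_ hcon ?_
      · intro z _
        refine lt_of_le_of_ne zero_le ?_
        intro h0
        have h4 : (1 : M) - ζ = 0 := (Valuation.zero_iff _).1 h0.symm
        have h5 : ζ = 1 := (sub_eq_zero.1 h4).symm
        rw [h5] at hζ
        exact hp.one_lt.ne' (hζ.unique IsPrimitiveRoot.one)
      · rw [← Finset.card_pos, hζ.card_nthRootsFinset]
        exact hp.pos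
    exact absurd h (not_le.2 h3)
  obtain ⟨z, hz, hz1⟩ := h2
  rw [mul_one] at hz1
  rw [Polynomial.mem_nthRootsFinset hp.pos] at hz
  haveI : NeZero p := ⟨hp.ne_zero⟩
  obtain ⟨i, -, rfl⟩ := hζ.eq_pow_of_pow_eq_one hz
  have h3 : B - 1 = (B - ζ ^ i) - (1 - ζ ^ i) := by ring
  rw [h3]
  exact (Valuation.map_sub _ _ _).trans (max_le hz1 (val_one_sub_pow_le hζ.pow_eq_one i))

end Pool.Agent.RG
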