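import Mathlib
import Pool.Agent.Lib.RG.Defs
import Pool.Agent.Lib.RG.G01
import Pool.Agent.Lib.RG.G02
import Pool.Agent.Lib.RG.G03
import Pool.Agent.Lib.RG.E22a

/-!
PART E, row E22b: Galois theory above p for M ⊇ ℚ(ζ). Data: ρ : E → Gal(M/ℚ), range = the stabilizer of ζ, trivial inertia above p.
(i) transitivity: two primes w, w' above p: there is e with w'(ρ e x) = w(x) (exists_conj gives g in Gal(M/ℚ); multiply by a decomposition
element at w' with the same action on zeta: the decomposition group at w' maps onto Gal(ℚ(zeta)/ℚ) because p is totally ramified there: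
inertia elements of ℚ(zeta) lift, exists_inert_lift).
(ii) there is e with IsFrob w p (ρ e): Frobenius of Gal(M/ℚ) at w times an inert element so that zeta is fixed.
(iii) value group: for every x ≠ 0 there is an integer n with w(x) = w(1-zeta)^n: the inertia group of w in Gal(M/ℚ) has order p-1 (it meets the
stabilizer of zeta trivially), so w(p) = (uniformizer)^(p-1) and val_p_eq.
(iv) residues: x with w(x) <= 1, w(ρ e x - x) < 1 for the Frobenius e of (ii) => w(x - a) < 1 for an integer a (x^p = x mod w has the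
solutions 0..p-1).
-/

set_option autoImplicit false

namespace Pool.Agent.RG

open NumberField IsDedekindDomain

namespace E22bAux

open scoped Pointwise

section val

variable {G M : Type} [Group G] [Field M] [NumberField M] [MulSemiringAction G M]

omit [NumberField M] in
private theorem coe_smul (g : G) (x : 𝓞 M) : ((g • x : 𝓞 M) : M) = g • (x : M) :=
  algebraMap.coe_smul' g x M

private theorem mem_iff (w : HeightOneSpectrum (𝓞 M)) (x : 𝓞 M) :
    x ∈ w.asIdeal ↔ w.valuation M (x : M) < 1 :=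
  (HeightOneSpectrum.valuation_lt_one_iff_mem w x).symm

private theorem int_le {w w' : HeightOneSpectrum (𝓞 M)} {g : G}
    (h : g • w.asIdeal = w'.asIdeal) (x : 𝓞 M) (n : ℕ) :
    w.intValuation x ≤ WithZero.exp (-(n : ℤ)) ↔
      w'.intValuation (g • x) ≤ WithZero.exp (-(n : ℤ)) := by
  rw [HeightOneSpectrum.intValuation_le_pow_iff_mem, HeightOneSpectrum.intValuation_le_pow_iff_mem,
    ← h, ← Ideal.smul_mem_pointwise_smul_iff (a := g), smul_pow']

private theorem int_eq {w w' : HeightOneSpectrum (𝓞 M)} {g : G}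
    (h : g • w.asIdeal = w'.asIdeal)
    (x : 𝓞 M) : w'.intValuation (g • x) = w.intValuation x := by
  by_cases hx : x = 0
  · subst hx
    simp
  have hgx : g • x ≠ 0 := fun h0 => hx (by
    have := congrArg (fun y => g⁻¹ • y) h0
    simpa using this)
  have key := int_le h x
  rw [w.intValuation_if_neg hx, w'.intValuation_if_neg hgx] at *
  simp only [WithZero.exp_le_exp, neg_le_neg_iff, Int.ofNat_le] at key
  congr 3
  exact le_antisymm ((key _).2 le_rfl) ((key _).1 le_rfl)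

private theorem val_eq {w w' : HeightOneSpectrum (𝓞 M)} {g : G}
    (h : g • w.asIdeal = w'.asIdeal)
    (x : M) : w'.valuation M (g • x) = w.valuation M x := by
  obtain ⟨a, b, hb, rfl⟩ := IsFractionRing.div_surjective (A := 𝓞 M) x
  rw [smul_div₀', map_div₀, map_div₀]
  have h1 : ∀ y : 𝓞 M, w'.valuation M (g • (algebraMap (𝓞 M) M y)) =
      w.valuation M (algebraMap (𝓞 M) M y) := fun y => by
    have := coe_smul g y
    rw [HeightOneSpectrum.valuation_of_algebraMap, ← int_eq h, ←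
      HeightOneSpectrum.valuation_of_algebraMap (K := M)]
    rw [← this]
  rw [h1, h1]

private theorem under_eq {w : HeightOneSpectrum (𝓞 M)} {q : ℕ} (hq : q.Prime) (h : Above w q) :
    w.asIdeal.under ℤ = Ideal.span {(q : ℤ)} := by
  have hp : Prime (q : ℤ) := Nat.prime_iff_prime_int.1 hq
  have hmax : (Ideal.span {(q : ℤ)}).IsMaximal := by
    have := (Ideal.span_singleton_prime hp.ne_zero).2 hp
    exact this.isMaximal (by simpa using hp.ne_zero)
  have hpr : (w.asIdeal.under ℤ).IsPrime := inferInstance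
  refine (hmax.eq_of_le hpr.ne_top ?_).symm
  rw [Ideal.span_singleton_le_iff_mem, Ideal.under_def, Ideal.mem_comap, mem_iff]
  simpa [Above] using h

omit [NumberField M] in
private theorem smul_eq [Finite G] {w : HeightOneSpectrum (𝓞 M)} {g : G}
    (h : ∀ x : 𝓞 M, x ∈ w.asIdeal → g • x ∈ w.asIdeal) : g • w.asIdeal = w.asIdeal := by
  refine smul_eq_of_smul_le fun x hx => ?_
  rw [Ideal.mem_pointwise_smul_iff_inv_smul_mem] at hx
  simpa using h _ hx

/-- an element of the Mathlib inertia group is inert -/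
private theorem inert_of_forall [Finite G] {w : HeightOneSpectrum (𝓞 M)} {g : G}
    (h : ∀ x : 𝓞 M, g • x - x ∈ w.asIdeal) : IsInert w g := by
  have hdec : IsDec w g := fun x => val_eq (smul_eq fun x hx => by
    have := w.asIdeal.add_mem (h x) hx
    simpa using this) x
  refine (isInert_iff_of_isDec hdec).2 fun x => ?_
  have := (mem_iff w _).1 (h x)
  simpa [coe_smul] using this

end val

/-- every automorphism of the cyclotomic field is inert at `p` -/
private theorem cyclo_inert {p : ℕ} [Fact p.Prime] {N : Type} [Field N] [NumberField N]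
    [IsCyclotomicExtension {p} ℚ N] {ζ : N} (hζ : IsPrimitiveRoot ζ p)
    {w : HeightOneSpectrum (𝓞 N)} (hw : Above w p) (σ : N ≃ₐ[ℚ] N) : IsInert w σ := by
  have hmem : ∀ y ∈ Algebra.adjoin ℤ ({ζ} : Set N), w.valuation N y ≤ 1 ∧
      w.valuation N (σ y) ≤ 1 ∧ w.valuation N (σ y - y) < 1 := by
    intro y hy
    induction hy using Algebra.adjoin_induction with
    | mem x hx =>
      rw [Set.mem_singleton_iff] at hx
      subst hx
      have hσζ : IsPrimitiveRoot (σ x) p := hζ.map_of_injective σ.injective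
      have h1 := val_one_sub_lt hζ hw
      have h2 := val_one_sub_lt hσζ hw
      have hint : ∀ z : N, IsPrimitiveRoot z p → w.valuation N z ≤ 1 := fun z hz => by
        have hz' : IsIntegral ℤ z := hz.isIntegral (Fact.out : p.Prime).pos
        exact w.valuation_le_one (⟨z, hz'⟩ : 𝓞 N)
      refine ⟨hint _ hζ, hint _ hσζ, ?_⟩
      have h3 : σ x - x = (1 - x) - (1 - σ x) := by ring
      rw [h3]
      exact (Valuation.map_sub _ _ _).trans_lt (max_lt h1 h2)
    | algebraMap r =>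
      have h1 : w.valuation N (algebraMap ℤ N r) ≤ 1 := by
        have := w.valuation_le_one (K := N) (algebraMap ℤ (𝓞 N) r)
        simpa using this
      have h2 : σ (algebraMap ℤ N r) = algebraMap ℤ N r := by simp
      refine ⟨h1, by rw [h2]; exact h1, ?_⟩
      rw [h2, sub_self, map_zero]
      exact zero_lt_one
    | add x y hx hy hx' hy' =>
      refine ⟨(Valuation.map_add _ _ _).trans (max_le hx'.1 hy'.1), ?_, ?_⟩
      · rw [map_add]
        exact (Valuation.map_add _ _ _).trans (max_le hx'.2.1 hy'.2.1)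
      · have h3 : σ (x + y) - (x + y) = (σ x - x) + (σ y - y) := by rw [map_add]; ring
        rw [h3]
        exact (Valuation.map_add _ _ _).trans_lt (max_lt hx'.2.2 hy'.2.2)
    | mul x y hx hy hx' hy' =>
      refine ⟨by rw [map_mul]; exact mul_le_one' hx'.1 hy'.1, ?_, ?_⟩
      · rw [map_mul, map_mul]
        exact mul_le_one' hx'.2.1 hy'.2.1
      · have h3 : σ (x * y) - (x * y) = σ x * (σ y - y) + (σ x - x) * y := by rw [map_mul]; ring
        rw [h3]
        refine (Valuation.map_add _ _ _).trans_lt (max_lt ?_ ?_)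
        · rw [map_mul]
          exact (mul_le_of_le_one_left' hx'.2.1).trans_lt hy'.2.2
        · rw [map_mul, mul_comm]
          exact (mul_le_of_le_one_left' hy'.1).trans_lt hx'.2.2
  have hcl := IsCyclotomicExtension.Rat.isIntegralClosure_adjoin_singleton_of_prime hζ
  refine inert_of_forall fun x => ?_
  obtain ⟨y, hy⟩ := (hcl.isIntegral_iff (x := (x : N))).1 x.2
  rw [mem_iff]
  have h4 := (hmem (y : N) y.2).2.2
  have h5 : (y : N) = (x : N) := hy
  rw [h5] at h4
  simpa [coe_smul] using h4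

variable {p : ℕ} [Fact p.Prime] {M : Type} [Field M] [NumberField M] [IsGalois ℚ M] {ζ : M}

/-- inert elements act arbitrarily on `ζ` -/
private theorem inert_zeta (hζ : IsPrimitiveRoot ζ p) {w : HeightOneSpectrum (𝓞 M)}
    (hw : Above w p) (g : M ≃ₐ[ℚ] M) : ∃ i : M ≃ₐ[ℚ] M, IsInert w i ∧ i ζ = g ζ := by
  have : NeZero p := ⟨(Fact.out : p.Prime).ne_zero⟩
  have hcyc : IsCyclotomicExtension {p} ℚ (IntermediateField.adjoin ℚ ({ζ} : Set M)) :=
    hζ.intermediateField_adjoin_isCyclotomicExtension ℚ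
  let M₁ := IntermediateField.adjoin ℚ ({ζ} : Set M)
  have : IsGalois ℚ M₁ := IsCyclotomicExtension.isGalois {p} ℚ M₁
  let ζ₁ : M₁ := IntermediateField.AdjoinSimple.gen ℚ ζ
  have hζ₁ : IsPrimitiveRoot ζ₁ p := by
    have h1 : algebraMap M₁ M ζ₁ = ζ := IntermediateField.AdjoinSimple.algebraMap_gen ℚ ζ
    rw [← h1] at hζ
    exact hζ.of_map_of_injective (algebraMap M₁ M).injective
  obtain ⟨w₁, hw₁⟩ := exists_below (algebraMap M₁ M) w
  have hab : Above w₁ p := (hw₁.above_iff p).1 hw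
  obtain ⟨i, hi, hi'⟩ := exists_inert_lift hw₁ (cyclo_inert hζ₁ hab (g.restrictNormal M₁))
  refine ⟨i, hi', ?_⟩
  have h2 := hi ζ₁
  rw [AlgEquiv.restrictNormal_commutes] at h2
  exact h2

end E22bAux

open E22bAux

variable {p : ℕ} [Fact p.Prime] {M : Type} [Field M] [NumberField M] [IsGalois ℚ M] {ζ : M}
  {E : Type} [Group E] {ρ : E →* (M ≃ₐ[ℚ] M)}

theorem conj_above_p (hζ : IsPrimitiveRoot ζ p) (hρ : ∀ e, ρ e ζ = ζ)
    (hsurj : ∀ g : M ≃ₐ[ℚ] M, g ζ = ζ → ∃ e, g = ρ e) {w w' : HeightOneSpectrum (𝓞 M)}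
    (hw : Above w p) (hw' : Above w' p) :
    ∃ e, ∀ x, w'.valuation M (ρ e x) = w.valuation M x := by
  obtain ⟨τ, hτ⟩ := exists_conj (Fact.out : p.Prime) hw hw'
  obtain ⟨i, hi, hi'⟩ := inert_zeta hζ hw' τ
  obtain ⟨e, he⟩ := hsurj (i⁻¹ * τ) (by
    rw [AlgEquiv.mul_apply, ← hi', ← AlgEquiv.mul_apply, inv_mul_cancel, AlgEquiv.one_apply])
  refine ⟨e, fun x => ?_⟩
  rw [← he, AlgEquiv.mul_apply, ← hτ x]
  exact hi.1.inv (τ x)

theorem frob_above_p (hζ : IsPrimitiveRoot ζ p) (hρ : ∀ e, ρ e ζ = ζ)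
    (hsurj : ∀ g : M ≃ₐ[ℚ] M, g ζ = ζ → ∃ e, g = ρ e) {w : HeightOneSpectrum (𝓞 M)}
    (hw : Above w p) : ∃ e, IsFrob w p (ρ e) := by
  obtain ⟨σ, hσ⟩ := exists_frob (Fact.out : p.Prime) hw
  obtain ⟨i, hi, hi'⟩ := inert_zeta hζ hw σ⁻¹
  obtain ⟨e, he⟩ := hsurj (σ * i) (by
    rw [AlgEquiv.mul_apply, hi', ← AlgEquiv.mul_apply, mul_inv_cancel, AlgEquiv.one_apply])
  refine ⟨e, ?_⟩
  rw [← he]
  exact hσ.mul_inert hi

theorem value_above_p (hζ : IsPrimitiveRoot ζ p) (hρ : ∀ e, ρ e ζ = ζ)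
    (hsurj : ∀ g : M ≃ₐ[ℚ] M, g ζ = ζ → ∃ e, g = ρ e) {w : HeightOneSpectrum (𝓞 M)}
    (hw : Above w p) (hab : ∀ e, IsInert w (ρ e) → ρ e = 1) (x : M) (hx : x ≠ 0) :
    ∃ n : ℤ, w.valuation M x = w.valuation M (1 - ζ) ^ n := by
  have hp := (Fact.out : p.Prime)
  -- the inertia group has at most `p - 1` elements
  let I := w.asIdeal.inertia (M ≃ₐ[ℚ] M)
  have hI : ∀ g ∈ I, IsInert w g := fun g hg => inert_of_forall hg
  have hcardI : Nat.card I ≤ p - 1 := by
    have h1 : Nat.card (primitiveRoots p M) = p - 1 := by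
      rw [Nat.card_eq_fintype_card, Fintype.card_coe, hζ.card_primitiveRoots,
        Nat.totient_prime hp]
    rw [← h1]
    refine Nat.card_le_card_of_injective
      (fun g : I => (⟨g.1 ζ, (mem_primitiveRoots hp.pos).2
        (hζ.map_of_injective g.1.injective)⟩ : primitiveRoots p M)) ?_
    intro g h hgh
    have h2 : g.1 ζ = h.1 ζ := congrArg (fun z : primitiveRoots p M => (z : M)) hgh
    obtain ⟨e, he⟩ := hsurj (g.1⁻¹ * h.1) (by
      rw [AlgEquiv.mul_apply, ← h2, ← AlgEquiv.mul_apply, inv_mul_cancel, AlgEquiv.one_apply])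
    have h3 : g.1⁻¹ * h.1 = 1 := by
      rw [he]
      apply hab
      rw [← he]
      exact (hI _ g.2).inv.mul (hI _ h.2)
    exact Subtype.ext (inv_mul_eq_one.1 h3)
  -- the prime `p` of `ℤ`
  have hpZ : Prime (p : ℤ) := Nat.prime_iff_prime_int.1 hp
  let v : HeightOneSpectrum ℤ := ⟨Ideal.span {(p : ℤ)}, (Ideal.span_singleton_prime
    hpZ.ne_zero).2 hpZ, by simpa using hpZ.ne_zero⟩
  have hlo : w.asIdeal.LiesOver v.asIdeal := ⟨(under_eq hp hw).symm⟩
  have hcard := Ideal.card_inertia_eq_ramificationIdxIn (G := M ≃ₐ[ℚ] M)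
    v.asIdeal w.asIdeal
  rw [Ideal.ramificationIdxIn_eq_ramificationIdx v.asIdeal w.asIdeal (M ≃ₐ[ℚ] M),
    ← Ideal.ramificationIdx'_eq_ramificationIdx v.asIdeal w.asIdeal v.ne_bot] at hcard
  have key := HeightOneSpectrum.valuation_liesOver M v w (p : ℚ)
  have hv : v.valuation ℚ (p : ℚ) = WithZero.exp (-1 : ℤ) := by
    have h1 := v.intValuation_singleton (r := (p : ℤ)) hpZ.ne_zero rfl
    rw [← h1, ← HeightOneSpectrum.valuation_of_algebraMap (K := ℚ)]
    simp
  rw [← hcard, hv, map_natCast, val_p_eq hζ hw] at key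
  have hz : w.valuation M (1 - ζ) ≠ 0 := by
    rw [Valuation.ne_zero_iff]
    exact sub_ne_zero.2 (hζ.ne_one hp.one_lt).symm
  obtain ⟨m, hm⟩ : ∃ m : ℤ, w.valuation M (1 - ζ) = WithZero.exp m :=
    ⟨WithZero.log (w.valuation M (1 - ζ)), (WithZero.exp_log hz).symm⟩
  have hm0 : m < 0 := by
    have h1 := val_one_sub_lt hζ hw
    rw [hm, ← WithZero.exp_zero, WithZero.exp_lt_exp] at h1
    exact h1
  have hm1 : m = -1 := by
    rw [hm, ← WithZero.exp_nsmul, ← WithZero.exp_nsmul, WithZero.exp_inj] at key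
    simp only [nsmul_eq_mul, mul_neg, mul_one] at key
    have h2 : (Nat.card I : ℤ) ≤ ((p - 1 : ℕ) : ℤ) := by exact_mod_cast hcardI
    have h3 : (1 : ℤ) ≤ ((p - 1 : ℕ) : ℤ) := by
      have := hp.two_le
      omega
    by_contra hne
    have h4 : m ≤ -2 := by omega
    have h5 : ((p - 1 : ℕ) : ℤ) * m ≤ ((p - 1 : ℕ) : ℤ) * (-2) :=
      mul_le_mul_of_nonneg_left h4 (by omega)
    change -(Nat.card I : ℤ) = _ at key
    omega
  obtain ⟨k, hk⟩ : ∃ k : ℤ, w.valuation M x = WithZero.exp k :=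
    ⟨WithZero.log (w.valuation M x), (WithZero.exp_log ((Valuation.ne_zero_iff _).2 hx)).symm⟩
  refine ⟨-k, ?_⟩
  rw [hk, hm, hm1, ← WithZero.exp_zsmul]
  simp

theorem residue_above_p {w : HeightOneSpectrum (𝓞 M)} (hw : Above w p) {g : M ≃ₐ[ℚ] M}
    (hg : IsFrob w p g) {x : M} (hx : w.valuation M x ≤ 1)
    (hgx : w.valuation M (g x - x) < 1) : ∃ a : ℤ, w.valuation M (x - a) < 1 := by
  have hp := (Fact.out : p.Prime)
  have h1 : w.valuation M (x ^ p - x) < 1 := by
    have h2 : x ^ p - x = (g x - x) - (g • x - x ^ p) := by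
      rw [AlgEquiv.smul_def]; ring
    rw [h2]
    exact (Valuation.map_sub _ _ _).trans_lt (max_lt hgx (hg.2 x hx))
  obtain ⟨n, d, hnd⟩ := HeightOneSpectrum.exists_primeCompl_mul_eq_of_integer w x hx
  have hd : w.valuation M ((d : 𝓞 M) : M) = 1 :=
    (HeightOneSpectrum.valuation_eq_one_iff_notMem w).2 d.2
  have hd0 : ((d : 𝓞 M) : M) ≠ 0 := by
    intro h0
    rw [h0, map_zero] at hd
    exact zero_ne_one hd
  have hmax : w.asIdeal.IsMaximal := w.isMaximal
  letI : Field (𝓞 M ⧸ w.asIdeal) := Ideal.Quotient.field w.asIdeal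
  have hchar : CharP (𝓞 M ⧸ w.asIdeal) p := by
    rw [CharP.charP_iff_prime_eq_zero hp]
    have h2 : ((p : 𝓞 M) : M) = (p : M) := by simp
    have h3 : (p : 𝓞 M) ∈ w.asIdeal := by
      rw [mem_iff, h2]
      exact hw
    have h4 := Ideal.Quotient.eq_zero_iff_mem.2 h3
    simpa using h4
  let π := Ideal.Quotient.mk w.asIdeal
  have hdπ : π (d : 𝓞 M) ≠ 0 := fun h0 => d.2 (Ideal.Quotient.eq_zero_iff_mem.1 h0)
  have hx' : x * ((d : 𝓞 M) : M) = algebraMap (𝓞 M) M n := hnd
  have hpp : p = (p - 1) + 1 := by have := hp.two_le; omega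
  have h5 : n ^ p - n * (d : 𝓞 M) ^ (p - 1) ∈ w.asIdeal := by
    rw [mem_iff]
    have h6 : ((n ^ p - n * (d : 𝓞 M) ^ (p - 1) : 𝓞 M) : M) =
        (x ^ p - x) * ((d : 𝓞 M) : M) ^ p := by
      simp only [map_sub, map_mul, map_pow]
      have hdp : ((d : 𝓞 M) : M) ^ p = ((d : 𝓞 M) : M) ^ (p - 1) * ((d : 𝓞 M) : M) := by
        rw [← pow_succ, ← hpp]
      rw [← hx', mul_pow, sub_mul]
      linear_combination x * hdp
    rw [h6, map_mul, map_pow, hd, one_pow, mul_one]
    exact h1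
  have h7 : π n ^ p = π n * π (d : 𝓞 M) ^ (p - 1) := by
    have h8 := Ideal.Quotient.eq_zero_iff_mem.2 h5
    rw [map_sub, map_mul, map_pow, map_pow, sub_eq_zero] at h8
    exact h8
  have h9 : (π n / π (d : 𝓞 M)) ^ p = π n / π (d : 𝓞 M) := by
    rw [div_pow, h7, div_eq_div_iff (pow_ne_zero _ hdπ) hdπ]
    conv_rhs => rw [hpp, pow_succ]
    ring
  rw [← Subfield.mem_bot_iff_pow_eq_self (F := 𝓞 M ⧸ w.asIdeal) (p := p),
    mem_bot_iff_intCast p] at h9
  obtain ⟨a, hz⟩ := h9
  rw [eq_div_iff hdπ] at hz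
  have h10 : n - (a : 𝓞 M) * (d : 𝓞 M) ∈ w.asIdeal := by
    rw [← Ideal.Quotient.eq_zero_iff_mem, map_sub, map_mul, map_intCast, sub_eq_zero]
    exact hz.symm
  refine ⟨a, ?_⟩
  rw [mem_iff] at h10
  have h11 : ((n - (a : 𝓞 M) * (d : 𝓞 M) : 𝓞 M) : M) = (x - a) * ((d : 𝓞 M) : M) := by
    simp only [map_sub, map_mul, map_intCast]
    rw [← hx']
    ring
  rw [h11, map_mul, hd, mul_one] at h10
  exact h10

end Pool.Agent.RG
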