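import Mathlib
import Pool.Agent.Lib.RG.E22a
import Pool.Agent.Lib.RG.E22b

/-!
PART E, row E22: the p-adic adjustment. One w above p is enough (conj_above_p: (ρ e)(c α) = c α b(e)^p). Fix w and the Frobenius f
from frob_above_p. Multiply α by a power of 1 - ζ (fixed by E): w(α) = 1 (value_above_p; the p-th power part can also be put into x).
w(b f) = 1. Residue field perfect: α = x^p mod w for some x with w(x) = 1 (x = α^(p^(n-1)), residue field of order p^n). For 1 <= i < p assume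
w(c α / x^p - 1) <= w(1-ζ)^i, put c α/x^p = 1 + (1-ζ)^i y; f(cα/x^p) = (cα/x^p) * (b f * x / f x)^p and the p-th power of a unit which is
1 mod w is 1 mod (1-ζ)^p (E22a iii, ii); so f y - y has w < 1, y = a mod w with a an integer (residue_above_p); replace c by
c (1 - a (1-ζ)^i). After p - 1 steps the exponent is p.
-/

set_option autoImplicit false

namespace Pool.Agent.RG

open NumberField IsDedekindDomain

private theorem zpow_lt_one_le {a : WithZero (Multiplicative ℤ)} (h0 : a ≠ 0) (h1 : a < 1) {n : ℤ}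
    (h : a ^ n < 1) : a ^ n ≤ a := by
  have hn : 0 < n := by
    by_contra hneg
    push Not at hneg
    have h2 : 1 ≤ a ^ n := by
      have h3 : a ^ n = (a⁻¹) ^ (-n) := by rw [inv_zpow', neg_neg]
      rw [h3]
      obtain ⟨m, hm⟩ := Int.eq_ofNat_of_zero_le (show 0 ≤ -n by omega)
      rw [hm, zpow_natCast]
      refine one_le_pow₀ ?_
      rw [one_le_inv₀ (zero_lt_iff.mpr h0)]
      exact h1.le
    exact absurd h (not_lt.mpr h2)
  obtain ⟨m, hm⟩ := Int.eq_ofNat_of_zero_le hn.le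
  subst hm
  rw [zpow_natCast]
  have hm1 : 1 ≤ m := by omega
  calc a ^ m ≤ a ^ 1 := pow_le_pow_of_le_one zero_le h1.le hm1
    _ = a := pow_one a

/-- elements of valuation `< 1` have valuation at most that of `1 - ζ` -/
private theorem lt_one_le {p : ℕ} [Fact p.Prime] {M : Type} [Field M] [NumberField M]
    [IsGalois ℚ M] {ζ : M} {E : Type} [Group E] {ρ : E →* (M ≃ₐ[ℚ] M)}
    (hζ : IsPrimitiveRoot ζ p) (hρ : ∀ e, ρ e ζ = ζ)
    (hsurj : ∀ g : M ≃ₐ[ℚ] M, g ζ = ζ → ∃ e, g = ρ e) {w : HeightOneSpectrum (𝓞 M)}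
    (hw : Above w p) (hab : ∀ e, IsInert w (ρ e) → ρ e = 1) {z : M}
    (hz : w.valuation M z < 1) : w.valuation M z ≤ w.valuation M (1 - ζ) := by
  by_cases h0 : z = 0
  · rw [h0, map_zero]
    exact zero_le
  obtain ⟨n, hn⟩ := value_above_p hζ hρ hsurj hw hab z h0
  have hπ : (1 - ζ) ≠ 0 := by
    intro h
    have h2 : ζ = 1 := (sub_eq_zero.mp h).symm
    have h3 := hζ.ne_one (Fact.out : p.Prime).one_lt
    exact h3 h2
  have hv0 : w.valuation M (1 - ζ) ≠ 0 := (Valuation.ne_zero_iff _).mpr hπ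
  rw [hn] at hz ⊢
  exact zpow_lt_one_le hv0 (val_one_sub_lt hζ hw) hz

theorem padic_adjust {p : ℕ} [Fact p.Prime] (hp : p ≠ 2) {M : Type} [Field M] [NumberField M]
    [IsGalois ℚ M] {ζ : M} {E : Type} [Group E] {ρ : E →* (M ≃ₐ[ℚ] M)}
    (hζ : IsPrimitiveRoot ζ p) (hρ : ∀ e, ρ e ζ = ζ)
    (hsurj : ∀ g : M ≃ₐ[ℚ] M, g ζ = ζ → ∃ e, g = ρ e)
    (hab : ∀ w : HeightOneSpectrum (𝓞 M), Above w p → ∀ e, IsInert w (ρ e) → ρ e = 1)
    (b : E → M) (α : M) (hα : α ≠ 0) (hb : ∀ e, b e ^ p * α = ρ e α) :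
    ∃ c : M, c ≠ 0 ∧ (∀ e, ρ e c = c) ∧ ∀ w : HeightOneSpectrum (𝓞 M), Above w p →
      ∃ x : M, x ≠ 0 ∧ w.valuation M (c * α / x ^ p - 1) ≤ w.valuation M (1 - ζ) ^ p := by
  classical
  have hp1 : 1 < p := (Fact.out : p.Prime).one_lt
  have hp0 : p ≠ 0 := by omega
  by_cases hex : ∃ w : HeightOneSpectrum (𝓞 M), Above w p
  swap
  · refine ⟨1, one_ne_zero, fun e => map_one _, fun w hw => absurd ⟨w, hw⟩ hex⟩
  obtain ⟨w, hw⟩ := hex
  have hπ : (1 - ζ) ≠ 0 := by
    intro h
    have h2 : ζ = 1 := (sub_eq_zero.mp h).symm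
    exact hζ.ne_one hp1 h2
  set v := w.valuation M with hv
  have hvπ0 : v (1 - ζ) ≠ 0 := (Valuation.ne_zero_iff _).mpr hπ
  have hvπ1 : v (1 - ζ) < 1 := val_one_sub_lt hζ hw
  have hρπ : ∀ e, ρ e (1 - ζ) = 1 - ζ := by
    intro e
    rw [map_sub, map_one, hρ]
  have hb0 : ∀ e, b e ≠ 0 := by
    intro e h
    have h1 := hb e
    rw [h, zero_pow hp0, zero_mul] at h1
    exact hα ((map_eq_zero (ρ e)).mp h1.symm)
  have hle : ∀ z : M, v z < 1 → v z ≤ v (1 - ζ) := fun z hz =>
    lt_one_le hζ hρ hsurj hw (hab w hw) hz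
  obtain ⟨f, hf1, hf2⟩ := frob_above_p hζ hρ hsurj hw
  have hg1 : ∀ x : M, v (ρ f x) = v x := hf1
  have hg2 : ∀ x : M, v x ≤ 1 → v (ρ f x - x ^ p) < 1 := hf2
  obtain ⟨n, hn⟩ := value_above_p hζ hρ hsurj hw (hab w hw) α hα
  -- the main induction
  have main : ∀ i : ℕ, i < p → ∃ c : M, c ≠ 0 ∧ (∀ e, ρ e c = c) ∧ ∃ x : M, v x = 1 ∧
      v (c * α / x ^ p - 1) ≤ v (1 - ζ) ^ (i + 1) := by
    intro i
    induction i with
    | zero =>
      intro _
      refine ⟨(1 - ζ) ^ (-n), zpow_ne_zero _ hπ, fun e => by rw [map_zpow₀, hρπ], ?_⟩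
      set β := (1 - ζ) ^ (-n) * α with hβ
      have hβv : v β = 1 := by
        rw [hβ, map_mul, map_zpow₀, hn, ← zpow_add₀ hvπ0]
        simp
      have hβ0 : β ≠ 0 := by
        intro h
        rw [h, map_zero] at hβv
        exact zero_ne_one hβv
      have hβb : b f ^ p * β = ρ f β := by
        rw [hβ, map_mul, map_zpow₀, hρπ, ← hb f]
        ring
      have hbv : v (b f) = 1 := by
        have h1 : v (b f) ^ p * v β = v β := by
          rw [← map_pow, ← map_mul, hβb, hg1]
        rw [hβv, mul_one] at h1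
        exact (pow_eq_one_iff.mp h1).resolve_right hp0
      refine ⟨β / b f, by rw [map_div₀, hβv, hbv, div_one], ?_⟩
      rw [zero_add, pow_one]
      apply hle
      have h1 : β / (β / b f) ^ p - 1 = (ρ f β - β ^ p) / β ^ p := by
        rw [← hβb, div_pow, sub_div, div_self (pow_ne_zero _ hβ0), div_div_eq_mul_div]
        ring
      rw [h1, map_div₀, map_pow, hβv, one_pow, div_one]
      exact hg2 β hβv.le
    | succ i ih =>
      intro hi
      obtain ⟨c, hc0, hcf, x, hx, hcx⟩ := ih (by omega)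
      have hx0 : x ≠ 0 := by
        intro h
        rw [h, map_zero] at hx
        exact zero_ne_one hx
      have hρx0 : ρ f x ≠ 0 := by
        intro h
        exact hx0 ((map_eq_zero (ρ f)).mp h)
      set j := i + 1 with hj
      set y := (c * α / x ^ p - 1) / (1 - ζ) ^ j with hy
      have hpj : (1 - ζ) ^ j ≠ 0 := pow_ne_zero _ hπ
      have hyv : v y ≤ 1 := by
        rw [hy, map_div₀, map_pow]
        exact div_le_one_of_le₀ hcx zero_le
      have hcy : c * α / x ^ p = 1 + (1 - ζ) ^ j * y := by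
        rw [hy]
        field_simp
        ring
      have hsmall : v ((1 - ζ) ^ j * y) < 1 := by
        rw [map_mul, map_pow]
        calc v (1 - ζ) ^ j * v y ≤ v (1 - ζ) ^ j * 1 := by gcongr
          _ = v (1 - ζ) ^ j := mul_one _
          _ < 1 := pow_lt_one₀ zero_le hvπ1 (by omega)
      have h1v : v (1 + (1 - ζ) ^ j * y) = 1 := by
        exact Valuation.map_one_add_of_lt v hsmall
      have h10 : (1 + (1 - ζ) ^ j * y) ≠ 0 := by
        intro h
        rw [h, map_zero] at h1v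
        exact zero_ne_one h1v
      -- valuation of `b f`
      have hbv : v (b f) = 1 := by
        have h1 : v (b f) ^ p * v α = v α := by
          rw [← map_pow, ← map_mul, hb, hg1]
        have hα0 : v α ≠ 0 := (Valuation.ne_zero_iff _).mpr hα
        have h2 : v (b f) ^ p = 1 := by
          have := mul_right_cancel₀ hα0 (h1.trans (one_mul _).symm)
          exact this
        exact (pow_eq_one_iff.mp h2).resolve_right hp0
      set u := b f * x / ρ f x with hu
      have huv : v u = 1 := by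
        rw [hu, map_div₀, map_mul, hbv, hg1, hx]
        simp
      have hrel : 1 + (1 - ζ) ^ j * ρ f y = (1 + (1 - ζ) ^ j * y) * u ^ p := by
        have h2 : ρ f (c * α / x ^ p) = 1 + (1 - ζ) ^ j * ρ f y := by
          rw [hcy, map_add, map_one, map_mul, map_pow, hρπ]
        rw [← h2, ← hcy, map_div₀, map_mul, map_pow, hcf, ← hb f, hu, div_pow, mul_pow]
        have hρxp : ρ f x ^ p ≠ 0 := pow_ne_zero _ hρx0
        have hxp : x ^ p ≠ 0 := pow_ne_zero _ hx0
        field_simp
      have hup : u ^ p - 1 = (1 - ζ) ^ j * (ρ f y - y) / (1 + (1 - ζ) ^ j * y) := by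
        rw [eq_div_iff h10, sub_mul, mul_comm (u ^ p), ← hrel]
        ring
      have hdy : v (ρ f y - y) ≤ 1 := by
        refine (Valuation.map_sub _ _ _).trans ?_
        rw [hg1]
        simpa using hyv
      have hup1 : v (u ^ p - 1) < 1 := by
        rw [hup, map_div₀, h1v, div_one, map_mul, map_pow]
        calc v (1 - ζ) ^ j * v (ρ f y - y) ≤ v (1 - ζ) ^ j * 1 := by gcongr
          _ = v (1 - ζ) ^ j := mul_one _
          _ < 1 := pow_lt_one₀ zero_le hvπ1 (by omega)
      have hu1 : v (u - 1) < 1 := val_sub_one_lt_of_pow hζ hw huv hup1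
      have hu1' : v (u - 1) ≤ v (1 - ζ) := hle _ hu1
      set t := (u - 1) / (1 - ζ) with ht
      have htv : v t ≤ 1 := by
        rw [ht, map_div₀]
        exact div_le_one_of_le₀ hu1' zero_le
      have hut : u = 1 + (1 - ζ) * t := by
        rw [ht]
        field_simp
        ring
      have hup2 : v (u ^ p - 1) ≤ v (1 - ζ) ^ p := by
        rw [hut]
        exact val_pow_sub_one_le hζ hw htv
      have hdy2 : v (ρ f y - y) < 1 := by
        rw [hup, map_div₀, h1v, div_one, map_mul, map_pow] at hup2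
        have h3 : v (1 - ζ) ^ p = v (1 - ζ) ^ j * v (1 - ζ) ^ (p - j) := by
          rw [← pow_add]
          congr 1
          omega
        rw [h3] at hup2
        have h4 : v (ρ f y - y) ≤ v (1 - ζ) ^ (p - j) :=
          le_of_mul_le_mul_left hup2 (zero_lt_iff.mpr (pow_ne_zero _ hvπ0))
        exact h4.trans_lt (pow_lt_one₀ zero_le hvπ1 (by omega))
      obtain ⟨a, ha⟩ := residue_above_p hw (g := ρ f) ⟨hf1, hf2⟩ hyv hdy2
      have ha' : v (y - a) ≤ v (1 - ζ) := hle _ ha
      have hav : v (a : M) ≤ 1 := by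
        have h3 : v (((a : 𝓞 M) : M)) ≤ 1 := w.valuation_le_one (K := M) (a : 𝓞 M)
        simpa using h3
      have hasmall : v ((a : M) * (1 - ζ) ^ j) < 1 := by
        rw [map_mul, map_pow]
        calc v (a : M) * v (1 - ζ) ^ j ≤ 1 * v (1 - ζ) ^ j := by gcongr
          _ = v (1 - ζ) ^ j := one_mul _
          _ < 1 := pow_lt_one₀ zero_le hvπ1 (by omega)
      have hav1 : v (1 - (a : M) * (1 - ζ) ^ j) = 1 := by
        exact Valuation.map_one_sub_of_lt v hasmall
      refine ⟨c * (1 - (a : M) * (1 - ζ) ^ j), mul_ne_zero hc0 ?_, ?_, x, hx, ?_⟩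
      · intro h
        rw [h, map_zero] at hav1
        exact zero_ne_one hav1
      · intro e
        rw [map_mul, hcf, map_sub, map_one, map_mul, map_pow, hρπ, map_intCast]
      · have h5 : c * (1 - (a : M) * (1 - ζ) ^ j) * α / x ^ p - 1
            = (1 - ζ) ^ j * (y - a) - a * y * ((1 - ζ) ^ j * (1 - ζ) ^ j) := by
          have : c * (1 - (a : M) * (1 - ζ) ^ j) * α / x ^ p
              = (c * α / x ^ p) * (1 - (a : M) * (1 - ζ) ^ j) := by ring
          rw [this, hcy]
          ring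
        rw [h5]
        refine (Valuation.map_sub _ _ _).trans (max_le ?_ ?_)
        · rw [map_mul, map_pow, pow_succ (v (1 - ζ)) j]
          exact mul_le_mul_right ha' _
        · rw [map_mul, map_mul, map_mul, map_pow, pow_succ (v (1 - ζ)) j]
          have h6 : v (1 - ζ) ^ j ≤ v (1 - ζ) := by
            calc v (1 - ζ) ^ j ≤ v (1 - ζ) ^ 1 := pow_le_pow_of_le_one zero_le hvπ1.le (by omega)
              _ = v (1 - ζ) := pow_one _
          calc v (a : M) * v y * (v (1 - ζ) ^ j * v (1 - ζ) ^ j)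
              ≤ 1 * 1 * (v (1 - ζ) ^ j * v (1 - ζ)) := by gcongr
            _ = v (1 - ζ) ^ j * v (1 - ζ) := by simp
  obtain ⟨c, hc0, hcf, x, hx, hcx⟩ := main (p - 1) (by omega)
  have hpp : p - 1 + 1 = p := by omega
  rw [hpp] at hcx
  have hx0 : x ≠ 0 := by
    intro h
    rw [h, map_zero] at hx
    exact zero_ne_one hx
  refine ⟨c, hc0, hcf, fun w' hw' => ?_⟩
  obtain ⟨e, he⟩ := conj_above_p hζ hρ hsurj hw hw'
  have hρx0 : ρ e x ≠ 0 := by
    intro h
    exact hx0 ((map_eq_zero (ρ e)).mp h)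
  refine ⟨ρ e x / b e, div_ne_zero hρx0 (hb0 e), ?_⟩
  have h7 : c * α / (ρ e x / b e) ^ p - 1 = ρ e (c * α / x ^ p - 1) := by
    rw [map_sub, map_one, map_div₀, map_mul, map_pow, hcf, ← hb e, div_pow, div_div_eq_mul_div]
    ring
  rw [h7, he]
  have h8 : w'.valuation M (1 - ζ) = v (1 - ζ) := by
    rw [← he (1 - ζ), hρπ]
  rw [h8]
  exact hcx

end Pool.Agent.RG
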