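import Mathlib
import Pool.Agent.Lib.RG.Defs

/-!
PART E, row E25 (pure group theory): averaging. Schur-Zassenhaus: complement C of P in Γ (Subgroup.exists_right_complement'_of_coprime), |C| prime
to p; ρ is trivial on C (H is a p-group: π surjective from E; so ρ kills elements of order prime to p). For c in C put ψ^c x = ψ (c^-1 x c),
ψ^c = ψ * χ_c with χ_c : P -> ker π hom (ker π central). ψ' = ψ * prod_c χ_c^t with t |C| = 1 mod p is invariant: ψ' (c x c^-1) = ψ' x; Ψ (x c) = ψ' x.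
On I: for x in I ∩ P: ψ x = 1 and χ_c x = 1, so Ψ x = 1; in general x^(index) is in I ∩ P, Ψ x ^ index = 1, index prime to p.
-/

set_option autoImplicit false

namespace Pool.Agent.RG

open NumberField IsDedekindDomain

/-- Extension of an invariant homomorphism by the trivial one on a complement. -/
private theorem E25_extend {Γ : Type} [Group Γ] (P C : Subgroup Γ) [P.Normal]
    (hC : Subgroup.IsComplement' P C) {E : Type} [Group E] (ψ : P →* E)
    (hinv : ∀ c ∈ C, ∀ x : P, ∀ h : c * x * c⁻¹ ∈ P, ψ ⟨c * x * c⁻¹, h⟩ = ψ x) :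
    ∃ Ψ : Γ →* E, ∀ (x : P) (c : C), Ψ ((x : Γ) * c) = ψ x := by
  let F : Γ → E := fun g => ψ (Subgroup.IsComplement.equiv hC g).1
  have hF : ∀ (x : P) (c : C), F ((x : Γ) * c) = ψ x := by
    intro x c
    have h1 : (Subgroup.IsComplement.equiv hC) ((x : Γ) * c) = (x, c) := by
      rw [← Equiv.eq_symm_apply, Subgroup.IsComplement.equiv_symm_apply]
    simp only [F]
    exact congrArg (fun z : P × C => ψ z.1) h1
  have hdec : ∀ g : Γ, ∃ (x : P) (c : C), (x : Γ) * c = g := fun g =>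
    ⟨_, _, Subgroup.IsComplement.equiv_fst_mul_equiv_snd hC g⟩
  refine ⟨MonoidHom.mk' F ?_, hF⟩
  intro g h
  obtain ⟨x, c, rfl⟩ := hdec g
  obtain ⟨y, d, rfl⟩ := hdec h
  have hy : (c : Γ) * y * (c : Γ)⁻¹ ∈ P := ‹P.Normal›.conj_mem y y.2 c
  have e : (x : Γ) * c * (y * d) = ((x * ⟨(c : Γ) * y * (c : Γ)⁻¹, hy⟩ : P) : Γ) * ((c * d : C) : Γ) := by
    rw [Subgroup.coe_mul, Subgroup.coe_mul]
    group
  rw [e, hF, hF, hF, map_mul, hinv c c.2 y hy]

theorem averaging (p : ℕ) [Fact p.Prime] (Γ : Type) [Group Γ] [Finite Γ] (P : Subgroup Γ)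
    [P.Normal] (hP : IsPGroup p P) (hidx : P.index.Coprime p) (E H : Type) [Group E] [Finite E]
    [Group H] (hE : IsPGroup p E) (π : E →* H) (hπ : Function.Surjective π)
    (hker : π.ker ≤ Subgroup.center E) (hcard : Nat.card π.ker = p) (ρ : Γ →* H) (ψ : P →* E)
    (hψ : ∀ x : P, π (ψ x) = ρ x) :
    ∃ Ψ : Γ →* E, (∀ x, π (Ψ x) = ρ x) ∧ ∀ I : Subgroup Γ,
      (∀ x ∈ I, ∀ g : Γ, ∀ h : g * x * g⁻¹ ∈ P, ψ ⟨g * x * g⁻¹, h⟩ = 1) → ∀ x ∈ I, Ψ x = 1 := by
  classical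
  have hp : p.Prime := Fact.out
  -- the complement
  have hcop : (Nat.card P).Coprime P.index := by
    obtain ⟨n, hn⟩ := (IsPGroup.iff_card).1 hP
    rw [hn]
    exact (Nat.Coprime.pow_right n hidx).symm
  obtain ⟨C, hC⟩ := Subgroup.exists_right_complement'_of_coprime hcop
  have hCcard : Nat.card C = P.index := (Subgroup.IsComplement.card_right hC)
  -- `ρ` is trivial on `C`
  have hH : IsPGroup p H := hE.of_surjective π hπ
  have hρ : ∀ c ∈ C, ρ c = 1 := by
    intro c hc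
    obtain ⟨n, hn⟩ := hH (ρ c)
    have h1 : (ρ c) ^ P.index = 1 := by
      rw [← map_pow, ← hCcard]
      have h2 : (⟨c, hc⟩ : C) ^ Nat.card C = 1 := pow_card_eq_one'
      have h3 := congrArg (Subtype.val) h2
      rw [Subgroup.coe_pow, Subgroup.coe_one] at h3
      rw [h3, map_one]
    have h4 : orderOf (ρ c) ∣ 1 := by
      rw [← (Nat.Coprime.pow_right n hidx)]
      exact Nat.dvd_gcd (orderOf_dvd_of_pow_eq_one h1) (orderOf_dvd_of_pow_eq_one hn)
    exact orderOf_eq_one_iff.1 (Nat.dvd_one.1 h4)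
  have hmem : ∀ (c : C) (x : P), (c : Γ)⁻¹ * x * (c : Γ) ∈ P := by
    intro c x
    have := ‹P.Normal›.conj_mem x x.2 (c : Γ)⁻¹
    rwa [inv_inv] at this
  -- conjugation
  let cj : C → P → P := fun c x => ⟨(c : Γ)⁻¹ * x * (c : Γ), hmem c x⟩
  have cj_mul : ∀ c x y, cj c (x * y) = cj c x * cj c y := by
    intro c x y
    ext1
    simp only [cj, Subgroup.coe_mul]
    group
  have cj_cj : ∀ c d x, cj c (cj d x) = cj (d * c) x := by
    intro c d x
    ext1
    simp only [cj, Subgroup.coe_mul]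
    group
  -- the characters
  let χ : C → P → E := fun c x => (ψ x)⁻¹ * ψ (cj c x)
  have hχ : ∀ c x, ψ (cj c x) = ψ x * χ c x := fun c x => by simp only [χ, mul_inv_cancel_left]
  have hχk : ∀ c x, χ c x ∈ π.ker := by
    intro c x
    rw [MonoidHom.mem_ker]
    simp only [χ, map_mul, map_inv, hψ, cj]
    rw [hρ c c.2]
    group
  have hcomm : ∀ z ∈ π.ker, ∀ e : E, e * z = z * e := fun z hz e =>
    (Subgroup.mem_center_iff.1 (hker hz)) e
  let K : Type := π.ker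
  let ck : CommGroup π.ker :=
    { (inferInstance : Group π.ker) with
      mul_comm := fun a b => Subtype.ext (hcomm b b.2 a) }
  let χ' : C → P → π.ker := fun c x => ⟨χ c x, hχk c x⟩
  have χ'_mul : ∀ c x y, χ' c (x * y) = χ' c x * χ' c y := by
    intro c x y
    ext1
    change χ c (x * y) = χ c x * χ c y
    have h1 : ψ (cj c (x * y)) = ψ (cj c x) * ψ (cj c y) := by rw [cj_mul, map_mul]
    rw [hχ, hχ, hχ, map_mul] at h1
    have h2 : ψ x * χ c x * (ψ y * χ c y) = ψ x * ψ y * (χ c x * χ c y) := by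
      rw [mul_assoc, ← mul_assoc (χ c x), ← hcomm _ (hχk c x) (ψ y)]
      group
    rw [h2] at h1
    exact mul_left_cancel h1
  have χ'_cj : ∀ c d x, χ' c (cj d x) = (χ' d x)⁻¹ * χ' (d * c) x := by
    intro c d x
    ext1
    change (ψ (cj d x))⁻¹ * ψ (cj c (cj d x)) = (χ d x)⁻¹ * χ (d * c) x
    rw [cj_cj, hχ, hχ]
    group
  have fC : Fintype C := Fintype.ofFinite C
  -- the exponent
  obtain ⟨t, ht⟩ : ∃ t : ℕ, (t * Nat.card C) % p = 1 % p := by
    rw [hCcard]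
    obtain ⟨t, ht⟩ := Nat.exists_mul_mod_eq_one_of_coprime hidx hp.one_lt
    exact ⟨t, by rw [mul_comm, ht.2, Nat.mod_eq_of_lt hp.one_lt]⟩
  have hpow : ∀ z : π.ker, z ^ (t * Nat.card C) = z := by
    intro z
    have h1 : z ^ p = 1 := by
      rw [← hcard]
      exact pow_card_eq_one'
    rw [pow_eq_pow_mod _ h1, ht, ← pow_eq_pow_mod _ h1, pow_one]
  -- the averaged homomorphism
  let Q : P → π.ker := fun x => (∏ c : C, χ' c x) ^ t
  have Q_mul : ∀ x y, Q (x * y) = Q x * Q y := by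
    intro x y
    simp only [Q, χ'_mul]
    rw [Finset.prod_mul_distrib, mul_pow]
  have Q_cj : ∀ d x, Q (cj d x) = (χ' d x)⁻¹ * Q x := by
    intro d x
    have h1 : ∏ c : C, χ' (d * c) x = ∏ c : C, χ' c x :=
      Fintype.prod_equiv (Equiv.mulLeft d) _ _ (fun c => rfl)
    simp only [Q, χ'_cj]
    rw [Finset.prod_mul_distrib, h1, mul_pow, Finset.prod_const, Finset.card_univ, ← pow_mul,
      mul_comm _ t, ← Nat.card_eq_fintype_card, hpow]
  let ψ' : P →* E := MonoidHom.mk' (fun x => ψ x * (Q x : E)) (by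
    intro x y
    rw [map_mul, Q_mul, Subgroup.coe_mul]
    rw [mul_assoc (ψ x) (Q x : E), ← mul_assoc (Q x : E), ← hcomm _ (Q x).2 (ψ y)]
    group)
  have hψ'v : ∀ x, ψ' x = ψ x * (Q x : E) := fun x => rfl
  have hinv : ∀ (d : C) (x : P), ψ' (cj d x) = ψ' x := by
    intro d x
    rw [hψ'v, hψ'v, Q_cj, hχ, Subgroup.coe_mul, Subgroup.coe_inv]
    change ψ x * χ d x * ((χ d x)⁻¹ * (Q x : E)) = _
    group
  obtain ⟨Ψ, hΨ⟩ := E25_extend P C hC ψ' (by
    intro c hc x h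
    have h1 := hinv ⟨c, hc⟩⁻¹ x
    rw [← h1]
    congr 1
    ext1
    simp only [cj, Subgroup.coe_inv, inv_inv])
  have hdec : ∀ g : Γ, ∃ (x : P) (c : C), (x : Γ) * c = g := fun g =>
    ⟨_, _, Subgroup.IsComplement.equiv_fst_mul_equiv_snd hC g⟩
  have hlift : ∀ x, π (Ψ x) = ρ x := by
    intro g
    obtain ⟨x, c, rfl⟩ := hdec g
    rw [hΨ, hψ'v, map_mul, hψ, (MonoidHom.mem_ker).1 (Q x).2, mul_one, map_mul, hρ c c.2, mul_one]
  refine ⟨Ψ, hlift, ?_⟩
  intro I hI
  have hIP : ∀ x ∈ I, x ∈ P → Ψ x = 1 := by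
    intro x hx hxP
    have h1 : ψ ⟨x, hxP⟩ = 1 := by
      have := hI x hx 1 (by rw [one_mul, inv_one, mul_one]; exact hxP)
      rw [← this]
      congr 1
      ext1
      group
    have h2 : ∀ c : C, χ' c ⟨x, hxP⟩ = 1 := by
      intro c
      ext1
      change (ψ ⟨x, hxP⟩)⁻¹ * ψ (cj c ⟨x, hxP⟩) = 1
      have h3 : ψ (cj c ⟨x, hxP⟩) = 1 := by
        have h4 := hmem c ⟨x, hxP⟩
        have := hI x hx (c : Γ)⁻¹ (by rw [inv_inv]; exact h4)
        rw [← this]
        congr 1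
        ext1
        simp only [cj, inv_inv]
      rw [h1, h3, inv_one, one_mul]
    have h3 := hΨ ⟨x, hxP⟩ 1
    rw [Subgroup.coe_one, mul_one] at h3
    rw [h3, hψ'v, h1]
    simp only [Q, h2]
    simp
  intro x hx
  have h1 : x ^ P.index ∈ P := by
    have h2 : ((x : Γ ⧸ P)) ^ P.index = 1 := by
      rw [Subgroup.index]
      exact pow_card_eq_one'
    rw [← QuotientGroup.mk_pow] at h2
    exact (QuotientGroup.eq_one_iff _).1 h2
  have h2 : (Ψ x) ^ P.index = 1 := by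
    rw [← map_pow]
    exact hIP _ (I.pow_mem hx _) h1
  obtain ⟨n, hn⟩ := hE (Ψ x)
  have h4 : orderOf (Ψ x) ∣ 1 := by
    rw [← (Nat.Coprime.pow_right n hidx)]
    exact Nat.dvd_gcd (orderOf_dvd_of_pow_eq_one h2) (orderOf_dvd_of_pow_eq_one hn)
  exact orderOf_eq_one_iff.1 (Nat.dvd_one.1 h4)

end Pool.Agent.RG
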