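import Mathlib
import Pool.Agent.Lib.RG.Defs

/-!
PART E, row E26: Hilbert 90 for the p-th power of the cocycle. f h = b(e)^p for h = ρ e is well defined on the finite group R = range ρ of automorphisms of
M (b (e z) = b e * ρ e (b z)), f (h h') = f h * h (f h'). Independence of the automorphisms (linearIndependent_monoidHom) gives x with
s = sum_h f h * h x <> 0; then f h * h s = s; α = s^-1. (Or Mathlib's Hilbert 90 for Gal(M/fixed field of R).)
-/

set_option autoImplicit false

namespace Pool.Agent.RG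

open NumberField IsDedekindDomain

theorem exists_alpha {p : ℕ} [Fact p.Prime] {M : Type} [Field M] [NumberField M] {E : Type}
    [Group E] [Finite E] (ρ : E →* (M ≃ₐ[ℚ] M)) (b : E → M) (hb0 : ∀ e, b e ≠ 0)
    (hb : ∀ e f, b (e * f) = b e * ρ e (b f)) (hz : ∀ z, ρ z = 1 → b z ^ p = 1) :
    ∃ α : M, α ≠ 0 ∧ ∀ e, b e ^ p * α = ρ e α := by
  classical
  have hF : Fintype E := Fintype.ofFinite E
  obtain ⟨μ, hμ⟩ : ∃ μ : E → (M →* M), ∀ e x, μ e x = ρ e x :=
    ⟨fun e => ((ρ e : M ≃ₐ[ℚ] M) : M →+* M), fun e x => rfl⟩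
  have hμ1 : ∀ e, μ e = μ 1 → ρ e = 1 := by
    intro e he
    ext x
    rw [← hμ e x, he, hμ 1 x, map_one]
  -- a nonzero value
  obtain ⟨x, hx⟩ : ∃ x : M, ∑ e, b e ^ p * ρ e x ≠ 0 := by
    by_contra hcon
    push Not at hcon
    have h1 := linearIndependent_monoidHom M M
    rw [linearIndependent_iff'] at h1
    have h2 := h1 (Finset.univ.image μ) (fun χ => ∑ e ∈ Finset.univ.filter (fun e => μ e = χ), b e ^ p)
      ?_ (μ 1) (Finset.mem_image_of_mem _ (Finset.mem_univ _))
    · have h3 : ∑ e ∈ Finset.univ.filter (fun e => μ e = μ 1), b e ^ p =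
          ((Finset.univ.filter (fun e => μ e = μ 1)).card : M) := by
        rw [Finset.card_eq_sum_ones, Nat.cast_sum]
        refine Finset.sum_congr rfl fun e he => ?_
        rw [hz e (hμ1 e (Finset.mem_filter.1 he).2), Nat.cast_one]
      have h4 : ∑ e ∈ Finset.univ.filter (fun e => μ e = μ 1), b e ^ p = 0 := h2
      rw [h3, Nat.cast_eq_zero, Finset.card_eq_zero] at h4
      have h5 : (1 : E) ∈ Finset.univ.filter (fun e => μ e = μ 1) :=
        Finset.mem_filter.2 ⟨Finset.mem_univ _, rfl⟩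
      rw [h4] at h5
      exact absurd h5 (Finset.notMem_empty _)
    · funext x
      rw [Finset.sum_apply, Pi.zero_apply, ← hcon x,
        ← Finset.sum_fiberwise_of_maps_to (s := Finset.univ) (t := Finset.univ.image μ) (g := μ)
          (fun e _ => Finset.mem_image_of_mem _ (Finset.mem_univ _)) (fun e => b e ^ p * ρ e x)]
      refine Finset.sum_congr rfl fun χ _ => ?_
      rw [Pi.smul_apply, smul_eq_mul, Finset.sum_mul]
      refine Finset.sum_congr rfl fun e he => ?_
      rw [← (Finset.mem_filter.1 he).2, hμ]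
  refine ⟨(∑ e, b e ^ p * ρ e x)⁻¹, inv_ne_zero hx, fun e => ?_⟩
  have h1 : b e ^ p * ρ e (∑ f, b f ^ p * ρ f x) = ∑ f, b f ^ p * ρ f x := by
    rw [map_sum, Finset.mul_sum, ← Equiv.sum_comp (Equiv.mulLeft e) (fun f => b f ^ p * ρ f x)]
    refine Finset.sum_congr rfl fun f _ => ?_
    rw [Equiv.coe_mulLeft, hb, map_mul ρ, map_mul, map_pow, mul_pow, mul_assoc]
    rfl
  have h2 : b e ^ p ≠ 0 := pow_ne_zero _ (hb0 e)
  rw [map_inv₀]
  have h3 : ρ e (∑ f, b f ^ p * ρ f x) = (∑ f, b f ^ p * ρ f x) / b e ^ p := by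
    rw [eq_div_iff h2, mul_comm]
    exact h1
  rw [h3, inv_div, div_eq_mul_inv]

end Pool.Agent.RG
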