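import Mathlib
import Pool.Agent.Lib.RG.Defs
import Pool.Agent.Lib.RG.E22a

/-!
PART E, row E27: Kummer extensions by p-primary elements are unramified above p, elementwise. B = A/x, w(B^p - 1) <= w(1-ζ)^p, so w(B-1) <= w(1-ζ)
(val_sub_one_le_of_pow); g B = ζ^i B. C = (B-1)/(1-ζ), w(C) <= 1, g inert: w(g C - C) < 1; g C - C = (ζ^i - 1) B/(1-ζ), which has w = 1 if
ζ^i <> 1 (w(B) = 1 and w(ζ^i - 1) = w(1-ζ)). So ζ^i = 1.
-/

set_option autoImplicit false

namespace Pool.Agent.RG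

open NumberField IsDedekindDomain

private theorem e27_root {p : ℕ} [Fact p.Prime] {M : Type} [Field M] [NumberField M]
    {w : HeightOneSpectrum (𝓞 M)} {z : M} (hz : z ^ p = 1) : w.valuation M z = 1 := by
  have h1 : w.valuation M z ^ p = 1 := by rw [← map_pow, hz, map_one]
  exact (pow_eq_one_iff_of_nonneg zero_le (Fact.out : p.Prime).ne_zero).1 h1

private theorem e27_le {p : ℕ} [Fact p.Prime] {M : Type} [Field M] [NumberField M]
    {w : HeightOneSpectrum (𝓞 M)} {z : M} (hz : z ^ p = 1) (k : ℕ) :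
    w.valuation M (1 - z ^ k) ≤ w.valuation M (1 - z) := by
  rw [← mul_neg_geom_sum, map_mul]
  have h1 : w.valuation M (∑ i ∈ Finset.range k, z ^ i) ≤ 1 := by
    refine Valuation.map_sum_le _ fun i _ => ?_
    rw [map_pow, e27_root hz, one_pow]
  exact mul_le_of_le_one_right' h1

theorem kummer_unramified {p : ℕ} [Fact p.Prime] {N : Type} [Field N] [NumberField N] {ζ : N}
    (hζ : IsPrimitiveRoot ζ p) {w : HeightOneSpectrum (𝓞 N)} (hw : Above w p)
    {g : N ≃ₐ[ℚ] N} (hg : IsInert w g) (hgζ : g ζ = ζ) {A β x : N} (hA : A ^ p = β)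
    (hβ0 : β ≠ 0) (hx0 : x ≠ 0) (hβ : g β = β) (hx : g x = x)
    (h : w.valuation N (β / x ^ p - 1) ≤ w.valuation N (1 - ζ) ^ p) : g A = A := by
  have hp : p.Prime := Fact.out
  have hA0 : A ≠ 0 := by
    rintro rfl
    rw [zero_pow hp.ne_zero] at hA
    exact hβ0 hA.symm
  have hζ1 : ζ ≠ 1 := fun h1 => hp.one_lt.ne' (by rw [h1] at hζ; exact hζ.unique IsPrimitiveRoot.one)
  have hd0 : (1 : N) - ζ ≠ 0 := sub_ne_zero.2 hζ1.symm
  -- the quotient `z = g A / A` is a `p`-th root of unity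
  obtain ⟨z, hz⟩ : ∃ z, g A = z * A := ⟨g A / A, by field_simp⟩
  have hzp : z ^ p = 1 := by
    have h1 : (g A) ^ p = A ^ p := by rw [← map_pow, hA, hβ]
    rw [hz, mul_pow] at h1
    exact mul_right_cancel₀ (pow_ne_zero p hA0) (h1.trans (one_mul _).symm)
  by_cases hz1 : z = 1
  · rw [hz, hz1, one_mul]
  exfalso
  have hzprim : IsPrimitiveRoot z p := by
    have h1 : orderOf z = p := orderOf_eq_prime hzp hz1
    rw [← h1]
    exact IsPrimitiveRoot.orderOf z
  have hzle : w.valuation N (1 - ζ) ≤ w.valuation N (1 - z) := by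
    have _ : NeZero p := ⟨hp.ne_zero⟩
    obtain ⟨i, -, rfl⟩ := hzprim.eq_pow_of_pow_eq_one hζ.pow_eq_one
    exact e27_le hzp i
  set B : N := A / x with hB
  have hBp : B ^ p = β / x ^ p := by rw [hB, div_pow, hA]
  have hB1 : w.valuation N (B - 1) ≤ w.valuation N (1 - ζ) := by
    refine val_sub_one_le_of_pow hζ hw ?_
    rw [hBp]
    exact h
  have hgB : g B = z * B := by
    rw [hB, map_div₀, hz, hx, mul_div_assoc]
  have hlt : w.valuation N (1 - ζ) < 1 := val_one_sub_lt hζ hw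
  have hvB : w.valuation N B = 1 := by
    have h1 : w.valuation N (B - 1) < 1 := hB1.trans_lt hlt
    have h2 : B = 1 + (B - 1) := by ring
    rw [h2]
    exact Valuation.map_one_add_of_lt _ h1
  have hvd : w.valuation N (1 - ζ) ≠ 0 := (Valuation.ne_zero_iff _).2 hd0
  have hC : w.valuation N ((B - 1) / (1 - ζ)) ≤ 1 := by
    rw [map_div₀]
    exact div_le_one_of_le₀ hB1 zero_le
  have h3 := hg.2 _ hC
  have h4 : g • ((B - 1) / (1 - ζ)) - (B - 1) / (1 - ζ) = -((1 - z) * B / (1 - ζ)) := by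
    change g ((B - 1) / (1 - ζ)) - (B - 1) / (1 - ζ) = -((1 - z) * B / (1 - ζ))
    rw [map_div₀, map_sub, map_sub, map_one, hgζ, hgB]
    field_simp
    ring
  rw [h4, Valuation.map_neg, map_div₀, map_mul, hvB, mul_one] at h3
  refine absurd h3 (not_lt.2 ?_)
  rw [one_le_div₀ (zero_lt_iff.2 hvd)]
  exact hzle

end Pool.Agent.RG
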