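import Mathlib
import Pool.Agent.Lib.RG.Defs
import Pool.Agent.Lib.RG.G01
import Pool.Agent.Lib.RG.G02
import Pool.Agent.Lib.RG.G03

/-!
PART E, row E29: passing to the fixed field of the kernel of Ψ. N0 = fixed field of ker Ψ (normal subgroup: Galois over ℚ), Gal(N0/ℚ) = Gal(N/ℚ)/ker Ψ,
Ψ0 injective. j(L) is contained in N0 because ker Ψ acts trivially on j(L). Inertia: a nontrivial inert element of N0 at w0 lifts to an inert
element of N at some w above w0 (exists_above, exists_inert_lift), on which Ψ is not 1.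
-/

set_option autoImplicit false

namespace Pool.Agent.RG

open NumberField IsDedekindDomain

/-- the Galois extension `N / ℚ` is unramified above `ℓ` -/
def UnrAt (ℓ : ℕ) (N : Type) [Field N] [NumberField N] : Prop :=
  ∀ w : HeightOneSpectrum (𝓞 N), Above w ℓ → ∀ σ : N ≃ₐ[ℚ] N, IsInert w σ → σ = 1

theorem inj_reduce {L : Type} [Field L] [NumberField L] {E : Type} [Group E]
    (π : E →* (L ≃ₐ[ℚ] L)) {N : Type} [Field N] [NumberField N] [IsGalois ℚ N] (j : L →+* N)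
    (Ψ : (N ≃ₐ[ℚ] N) →* E) (hΨ : ∀ (g : N ≃ₐ[ℚ] N) (x : L), g (j x) = j (π (Ψ g) x)) :
    ∃ (N₀ : Type) (_ : Field N₀) (_ : NumberField N₀) (_ : IsGalois ℚ N₀) (j₀ : L →+* N₀)
      (Ψ₀ : (N₀ ≃ₐ[ℚ] N₀) →* E), Function.Injective Ψ₀ ∧
      (∀ (g : N₀ ≃ₐ[ℚ] N₀) (x : L), g (j₀ x) = j₀ (π (Ψ₀ g) x)) ∧
      ∀ ℓ : ℕ, (∀ w : HeightOneSpectrum (𝓞 N), Above w ℓ → ∀ g : N ≃ₐ[ℚ] N, IsInert w g → Ψ g = 1) →
        UnrAt ℓ N₀ := by
  let F : IntermediateField ℚ N := IntermediateField.fixedField Ψ.ker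
  have hF : ∀ x : N, x ∈ F ↔ ∀ g : N ≃ₐ[ℚ] N, Ψ g = 1 → g x = x := by
    intro x
    constructor
    · intro h g hg
      exact (IntermediateField.mem_fixedField_iff _ _).1 h g hg
    · intro h
      exact (IntermediateField.mem_fixedField_iff _ _).2 (fun g hg => h g hg)
  have hgal : IsGalois ℚ F := IsGalois.of_fixedField_normal_subgroup Ψ.ker
  have huniq : ∀ g h : N ≃ₐ[ℚ] N, (∀ x ∈ F, g x = h x) → Ψ g = Ψ h := by
    intro g h hgh
    have h1 : h⁻¹ * g ∈ F.fixingSubgroup := by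
      rw [IntermediateField.mem_fixingSubgroup_iff]
      intro x hx
      rw [AlgEquiv.mul_apply, hgh x hx, ← AlgEquiv.mul_apply, inv_mul_cancel, AlgEquiv.one_apply]
    rw [IntermediateField.fixingSubgroup_fixedField, MonoidHom.mem_ker, map_mul, map_inv] at h1
    exact (inv_mul_eq_one.1 h1).symm
  have hlift : ∀ g₀ : F ≃ₐ[ℚ] F, ∃ g : N ≃ₐ[ℚ] N, ∀ x : F, g (x : N) = g₀ x := by
    intro g₀
    obtain ⟨g, hg⟩ := AlgEquiv.restrictNormalHom_surjective (F := ℚ) (K₁ := F) N g₀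
    refine ⟨g, fun x => ?_⟩
    have h1 := AlgEquiv.restrictNormal_commutes g F x
    rw [← hg]
    exact h1.symm
  choose s hs using hlift
  let Ψ₀ : (F ≃ₐ[ℚ] F) →* E := MonoidHom.mk' (fun g => Ψ (s g)) (by
    intro g h
    rw [← map_mul]
    apply huniq
    intro x hx
    rw [AlgEquiv.mul_apply, hs (g * h) ⟨x, hx⟩, hs h ⟨x, hx⟩, hs g, AlgEquiv.mul_apply])
  have hΨ₀ : ∀ g, Ψ₀ g = Ψ (s g) := fun g => rfl
  have hj : ∀ x : L, j x ∈ F := by
    intro x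
    rw [hF]
    intro g hg
    rw [hΨ, hg, map_one, AlgEquiv.one_apply]
  let j₀ : L →+* F := j.codRestrict F hj
  have hj₀ : ∀ x, ((j₀ x : F) : N) = j x := fun x => rfl
  have hinj : Function.Injective Ψ₀ := by
    intro g h hgh
    rw [hΨ₀, hΨ₀] at hgh
    have h1 : Ψ ((s h)⁻¹ * s g) = 1 := by rw [map_mul, map_inv, hgh, inv_mul_cancel]
    ext x
    have h2 := (hF x).1 x.2 _ h1
    rw [AlgEquiv.mul_apply] at h2
    have h3 : s g x = s h x := by
      have h4 := congrArg (s h) h2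
      rwa [← AlgEquiv.mul_apply, mul_inv_cancel, AlgEquiv.one_apply] at h4
    rw [← hs, ← hs, h3]
  refine ⟨F, inferInstance, inferInstance, hgal, j₀, Ψ₀, hinj, ?_, ?_⟩
  · intro g x
    ext
    rw [← hs, hj₀, hΨ, hj₀, hΨ₀]
  · intro ℓ hℓ w₀ hw₀ σ₀ hσ₀
    let inc : F →+* N := algebraMap F N
    obtain ⟨w, hw⟩ := exists_above inc w₀
    obtain ⟨σ, hσ1, hσ2⟩ := exists_inert_lift hw hσ₀
    have h1 : Ψ σ = 1 := hℓ w ((hw.above_iff ℓ).2 hw₀) σ hσ2
    apply hinj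
    rw [map_one, hΨ₀, ← h1]
    apply huniq
    intro x hx
    rw [hs σ₀ ⟨x, hx⟩]
    exact (hσ1 ⟨x, hx⟩).symm

end Pool.Agent.RG
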