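import Mathlib
import Pool.Agent.Lib.RG.Defs

/-!
PART E, row E30: compositum of two Galois extensions of `ℚ` (in an algebraic closure, or splitting field of a product of polynomials).
An automorphism is determined by its two restrictions.
-/

set_option autoImplicit false

namespace Pool.Agent.RG

open NumberField IsDedekindDomain

private theorem e30_restr (N K : Type) [Field N] [NumberField N] [IsGalois ℚ N] [Field K]
    [NumberField K] [IsGalois ℚ K] (i : N →ₐ[ℚ] K) :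
    ∃ r : (K ≃ₐ[ℚ] K) →* (N ≃ₐ[ℚ] N), (∀ g x, g (i x) = i (r g x)) ∧ Function.Surjective r := by
  let _ : Algebra N K := i.toRingHom.toAlgebra
  have _ : IsScalarTower ℚ N K := IsScalarTower.of_algebraMap_eq (fun x => (i.commutes x).symm)
  refine ⟨AlgEquiv.restrictNormalHom N, ?_, AlgEquiv.restrictNormalHom_surjective K⟩
  intro g x
  exact (AlgEquiv.restrictNormal_commutes g N x).symm

private theorem e30_gen (k N F : Type) [Field k] [Field N] [Field F] [Algebra k N] [Algebra k F]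
    [FiniteDimensional k N] [FiniteDimensional k F] [IsGalois k N] [IsGalois k F] :
    ∃ (K : Type) (_ : Field K) (_ : Algebra k K) (_ : FiniteDimensional k K) (_ : IsGalois k K)
      (i₁ : N →ₐ[k] K) (i₂ : F →ₐ[k] K),
      ∀ g : K ≃ₐ[k] K, (∀ x, g (i₁ x) = i₁ x) → (∀ x, g (i₂ x) = i₂ x) → g = 1 := by
  let Ω := AlgebraicClosure k
  let e₁ : N →ₐ[k] Ω := IsAlgClosed.lift
  let e₂ : F →ₐ[k] Ω := IsAlgClosed.lift
  let K₁ : IntermediateField k Ω := e₁.fieldRange
  let K₂ : IntermediateField k Ω := e₂.fieldRange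
  have hg₁ : IsGalois k K₁ := IsGalois.of_algEquiv (AlgEquiv.ofInjectiveField e₁)
  have hg₂ : IsGalois k K₂ := IsGalois.of_algEquiv (AlgEquiv.ofInjectiveField e₂)
  have hf₁ : FiniteDimensional k K₁ :=
    (AlgEquiv.ofInjectiveField e₁).toLinearEquiv.finiteDimensional
  have hf₂ : FiniteDimensional k K₂ :=
    (AlgEquiv.ofInjectiveField e₂).toLinearEquiv.finiteDimensional
  let K : IntermediateField k Ω := K₁ ⊔ K₂
  have hf : FiniteDimensional k K := IntermediateField.finiteDimensional_sup K₁ K₂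
  have hg : IsGalois k K := inferInstanceAs (IsGalois k ↥(K₁ ⊔ K₂))
  let i₁ : N →ₐ[k] K := (IntermediateField.inclusion (le_sup_left : K₁ ≤ K)).comp
    (AlgEquiv.ofInjectiveField e₁).toAlgHom
  let i₂ : F →ₐ[k] K := (IntermediateField.inclusion (le_sup_right : K₂ ≤ K)).comp
    (AlgEquiv.ofInjectiveField e₂).toAlgHom
  refine ⟨K, inferInstance, inferInstance, hf, hg, i₁, i₂, ?_⟩
  intro g h1 h2
  let L : IntermediateField k Ω :=
    IntermediateField.map K.val (IntermediateField.fixedField (Subgroup.zpowers g))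
  have hL : ∀ z : K, g z = z → (z : Ω) ∈ L := by
    intro z hz
    refine ⟨z, ?_, rfl⟩
    change z ∈ IntermediateField.fixedField (Subgroup.zpowers g)
    rw [IntermediateField.mem_fixedField_iff]
    intro f hf
    have h3 : Subgroup.zpowers g ≤ MulAction.stabilizer (K ≃ₐ[k] K) z := by
      rw [Subgroup.zpowers_le]
      exact hz
    exact h3 hf
  have h3 : K ≤ L := by
    refine sup_le ?_ ?_
    · rintro _ ⟨x, rfl⟩
      exact hL (i₁ x) (h1 x)
    · rintro _ ⟨x, rfl⟩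
      exact hL (i₂ x) (h2 x)
  ext x
  obtain ⟨z, hz, hzx⟩ := h3 x.2
  have hzx' : z = x := Subtype.ext hzx
  subst hzx'
  have hz' : z ∈ IntermediateField.fixedField (Subgroup.zpowers g) := hz
  rw [IntermediateField.mem_fixedField_iff] at hz'
  rw [hz' g (Subgroup.mem_zpowers g), AlgEquiv.one_apply]

theorem exists_compositum (N F : Type) [Field N] [NumberField N] [IsGalois ℚ N] [Field F]
    [NumberField F] [IsGalois ℚ F] :
    ∃ (K : Type) (_ : Field K) (_ : NumberField K) (_ : IsGalois ℚ K) (i₁ : N →+* K)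
      (i₂ : F →+* K) (r₁ : (K ≃ₐ[ℚ] K) →* (N ≃ₐ[ℚ] N)) (r₂ : (K ≃ₐ[ℚ] K) →* (F ≃ₐ[ℚ] F)),
      (∀ g x, g (i₁ x) = i₁ (r₁ g x)) ∧ (∀ g x, g (i₂ x) = i₂ (r₂ g x)) ∧
      Function.Surjective r₁ ∧ Function.Surjective r₂ ∧
      ∀ g, r₁ g = 1 → r₂ g = 1 → g = 1 := by
  obtain ⟨K, fK, a, hf, hg, i₁, i₂, h⟩ := e30_gen ℚ N F
  have hc : CharZero K := algebraRat.charZero K
  obtain rfl : a = DivisionRing.toRatAlgebra := Subsingleton.elim _ _
  have hK : NumberField K := ⟨⟩
  obtain ⟨r₁, hr₁, hs₁⟩ := e30_restr N K i₁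
  obtain ⟨r₂, hr₂, hs₂⟩ := e30_restr F K i₂
  refine ⟨K, fK, hK, hg, i₁.toRingHom, i₂.toRingHom, r₁, r₂, hr₁, hr₂, hs₁, hs₂, ?_⟩
  intro g h1 h2
  refine h g (fun x => ?_) (fun x => ?_)
  · rw [hr₁, h1, AlgEquiv.one_apply]
  · rw [hr₂, h2, AlgEquiv.one_apply]

end Pool.Agent.RG
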