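import Mathlib
import Pool.Agent.Lib.RG.Defs
import Pool.Agent.Lib.RG.G01
import Pool.Agent.Lib.RG.G02
import Pool.Agent.Lib.RG.G03
import Pool.Agent.Lib.RG.G04
import Pool.Agent.Lib.RG.G06
import Pool.Agent.Lib.RG.E29
import Pool.Agent.Lib.RG.E30

/-!
PART E, row E28: removing one tamely ramified prime ℓ not in S, ℓ ≠ p. If UnrAt ℓ N nothing to do. N has degree a power of p (Ψ injective). Let w above ℓ,
t a generator of the inertia group (exists_inert_generator), t <> 1, s a Frobenius element (exists_frob). π (Ψ t) is inert on L at a prime not above S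
(IsInert.restrict, Ψ intertwines), so Ψ t in ker π, central of order p; tame_relation: s t s^-1 = t^ℓ, Ψ(s t s^-1) = Ψ t, so t^(ℓ-1) = 1, ℓ = 1 mod p.
F from exists_cyclic_field for q = ℓ, K compositum (E30), w'' above w, t'' generator of inertia of K at w'' (K has p-power degree): r1 t'' and r2 t'' generate the
inertia groups of N at w and of F (exists_inert_lift), so Ψ (r1 t'') = z <> 1 in ker π, r2 t'' generates Gal(F/ℚ) (cyclic of order p): let ω : Gal(F/ℚ) -> ker π be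
the hom with ω (r2 t'') = z. Ψ'' g = Ψ (r1 g) * (ω (r2 g))^-1 is a hom (ker π central), Ψ'' t'' = 1, so Ψ'' = 1 on all inertia groups above ℓ (conjugates,
exists_conj, IsInert.conj_to). For ℓ' <> ℓ with UnrAt ℓ' N: inert g above ℓ' has r1 g = 1, r2 g = 1 (UnrOutside {ℓ} F). Then inj_reduce.
-/

set_option autoImplicit false

namespace Pool.Agent.RG

open NumberField IsDedekindDomain

private theorem e28_finrank {p : ℕ} [Fact p.Prime] {M : Type} [Field M] [NumberField M]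
    [IsGalois ℚ M] (h : IsPGroup p (M ≃ₐ[ℚ] M)) : ∃ k : ℕ, Module.finrank ℚ M = p ^ k := by
  obtain ⟨k, hk⟩ := IsPGroup.iff_card.1 h
  exact ⟨k, by rw [← IsGalois.card_aut_eq_finrank, hk]⟩

private theorem e28_prod {p : ℕ} [Fact p.Prime] {G₁ G₂ G : Type} [Group G₁] [Group G₂] [Group G]
    (h₁ : IsPGroup p G₁) (h₂ : IsPGroup p G₂) (r₁ : G →* G₁) (r₂ : G →* G₂)
    (h : ∀ g, r₁ g = 1 → r₂ g = 1 → g = 1) : IsPGroup p G := by
  intro g
  obtain ⟨a, ha⟩ := h₁ (r₁ g)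
  obtain ⟨b, hb⟩ := h₂ (r₂ g)
  refine ⟨a + b, h _ ?_ ?_⟩
  · rw [pow_add, pow_mul, map_pow, map_pow, ha, one_pow]
  · rw [pow_add, mul_comm, pow_mul, map_pow, map_pow, hb, one_pow]

/-- the restriction of a generator of the inertia group generates the inertia group below -/
private theorem e28_gen {K N : Type} [Field K] [NumberField K] [IsGalois ℚ K] [Field N]
    [NumberField N] [IsGalois ℚ N] (i : N →+* K) (r : (K ≃ₐ[ℚ] K) →* (N ≃ₐ[ℚ] N))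
    (hr : ∀ g x, g (i x) = i (r g x)) {w₂ : HeightOneSpectrum (𝓞 K)}
    {w₁ : HeightOneSpectrum (𝓞 N)} (h : Lies i w₂ w₁) {t : K ≃ₐ[ℚ] K}
    (ht : ∀ σ : K ≃ₐ[ℚ] K, IsInert w₂ σ ↔ σ ∈ Subgroup.zpowers t) {σ : N ≃ₐ[ℚ] N}
    (hσ : IsInert w₁ σ) : σ ∈ Subgroup.zpowers (r t) := by
  obtain ⟨τ, hτ1, hτ2⟩ := exists_inert_lift h hσ
  have h1 : r τ = σ := by
    ext x
    apply i.injective
    rw [← hr, hτ1]
  rw [← h1, ← MonoidHom.map_zpowers]
  exact ⟨τ, (ht τ).1 hτ2, rfl⟩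

theorem remove_one {p : ℕ} [Fact p.Prime] {S : Finset ℕ} {L : Type} [Field L] [NumberField L]
    [IsGalois ℚ L] {E : Type} [Group E] [Finite E] (hE : IsPGroup p E) (π : E →* (L ≃ₐ[ℚ] L))
    (hker : π.ker ≤ Subgroup.center E) (hcard : Nat.card π.ker = p) (hunr : UnrOutside S L)
    {N : Type} [Field N] [NumberField N] [IsGalois ℚ N] (j : L →+* N) (Ψ : (N ≃ₐ[ℚ] N) →* E)
    (hinj : Function.Injective Ψ)
    (hΨ : ∀ (g : N ≃ₐ[ℚ] N) (x : L), g (j x) = j (π (Ψ g) x)) (ℓ : ℕ) (hℓ : ℓ.Prime)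
    (hℓS : ℓ ∉ S) (hℓp : ℓ ≠ p) (hS : ∀ q ∈ S, q.Prime) :
    ∃ (N' : Type) (_ : Field N') (_ : NumberField N') (_ : IsGalois ℚ N') (j' : L →+* N')
      (Ψ' : (N' ≃ₐ[ℚ] N') →* E), Function.Injective Ψ' ∧
      (∀ (g : N' ≃ₐ[ℚ] N') (x : L), g (j' x) = j' (π (Ψ' g) x)) ∧ UnrAt ℓ N' ∧
      ∀ ℓ' : ℕ, ℓ'.Prime → ℓ' ≠ ℓ → UnrAt ℓ' N → UnrAt ℓ' N' := by
  have hp : p.Prime := Fact.out
  by_cases hu : UnrAt ℓ N
  · exact ⟨N, inferInstance, inferInstance, inferInstance, j, Ψ, hinj, hΨ, hu,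
      fun _ _ _ h => h⟩
  unfold UnrAt at hu
  push Not at hu
  obtain ⟨w, hw, σ, hσ, hσ1⟩ := hu
  have hpN : IsPGroup p (N ≃ₐ[ℚ] N) := IsPGroup.of_injective hE Ψ hinj
  obtain ⟨k, hk⟩ := e28_finrank hpN
  obtain ⟨t, ht⟩ := exists_inert_generator hk hℓ hℓp hw
  obtain ⟨s, hs⟩ := exists_frob hℓ hw
  have htin : IsInert w t := (ht t).2 (Subgroup.mem_zpowers t)
  -- inert elements go to the kernel of `π`
  have hkerin : ∀ τ : N ≃ₐ[ℚ] N, IsInert w τ → Ψ τ ∈ π.ker := by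
    intro τ hτ
    obtain ⟨w₁, hw₁⟩ := exists_below j w
    rw [MonoidHom.mem_ker]
    refine hunr w₁ ?_ _ (IsInert.restrict hw₁ (fun x => hΨ τ x) hτ)
    intro q hq hq1
    have h1 := Above.unique (hS q hq) hℓ ((hw₁.above_iff q).2 hq1) hw
    exact hℓS (h1 ▸ hq)
  -- elements of the kernel of `π` have order dividing `p`
  have hkp : ∀ z ∈ π.ker, z ^ p = 1 := by
    intro z hz
    have h1 : (⟨z, hz⟩ : π.ker) ^ Nat.card π.ker = 1 := pow_card_eq_one'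
    rw [hcard] at h1
    exact congrArg Subtype.val h1
  have htp : t ^ p = 1 := hinj (by rw [map_pow, hkp _ (hkerin t htin), map_one])
  have ht1 : t ≠ 1 := by
    rintro rfl
    have h1 := (ht σ).1 hσ
    rw [Subgroup.zpowers_one_eq_bot, Subgroup.mem_bot] at h1
    exact hσ1 h1
  have hord : orderOf t = p := orderOf_eq_prime htp ht1
  -- the tame relation
  have htame := tame_relation hk hℓ hℓp hw htin hs
  have hℓ1 : ℓ % p = 1 := by
    have h1 : t ^ ℓ = t := by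
      apply hinj
      rw [← htame, map_mul, map_mul, map_inv]
      have h2 := Subgroup.mem_center_iff.1 (hker (hkerin t htin)) (Ψ s)
      rw [h2, mul_inv_cancel_right]
    have h3 : t ^ ℓ = t ^ 1 := by rw [h1, pow_one]
    rw [pow_eq_pow_iff_modEq, hord] at h3
    have h4 : ℓ % p = 1 % p := h3
    rw [h4, Nat.mod_eq_of_lt hp.one_lt]
  obtain ⟨F, _, _, _, hF1, hF2, hF3, -⟩ := exists_cyclic_field (p := p) hℓ hℓ1
  obtain ⟨K, _, _, _, i₁, i₂, r₁, r₂, hr₁, hr₂, -, -, hr⟩ := exists_compositum N F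
  have hcardF : Nat.card (F ≃ₐ[ℚ] F) = p := by rw [IsGalois.card_aut_eq_finrank, hF1]
  have hpF : IsPGroup p (F ≃ₐ[ℚ] F) := IsPGroup.of_card (n := 1) (by rw [hcardF, pow_one])
  have hpK : IsPGroup p (K ≃ₐ[ℚ] K) := e28_prod hpN hpF r₁ r₂ hr
  obtain ⟨k', hk'⟩ := e28_finrank hpK
  obtain ⟨w₂, hw₂⟩ := exists_above i₁ w
  have hw₂ℓ : Above w₂ ℓ := (hw₂.above_iff ℓ).2 hw
  obtain ⟨wF, hwF⟩ := exists_below i₂ w₂
  have hwFℓ : Above wF ℓ := (hwF.above_iff ℓ).1 hw₂ℓ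
  obtain ⟨u, hu⟩ := exists_inert_generator hk' hℓ hℓp hw₂ℓ
  have huin : IsInert w₂ u := (hu u).2 (Subgroup.mem_zpowers u)
  have hu1 : IsInert w (r₁ u) := IsInert.restrict hw₂ (hr₁ u) huin
  have hgenF : ∀ τ : F ≃ₐ[ℚ] F, τ ∈ Subgroup.zpowers (r₂ u) :=
    fun τ => e28_gen i₂ r₂ hr₂ hwF hu (hF3 wF hwFℓ τ)
  have hordF : orderOf (r₂ u) = p := by
    rw [orderOf_eq_card_of_forall_mem_zpowers hgenF, hcardF]
  let z : π.ker := ⟨Ψ (r₁ u), hkerin _ hu1⟩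
  have hz : orderOf z ∣ orderOf (r₂ u) := by
    rw [hordF, ← hcard]
    exact orderOf_dvd_natCard z
  let ω : (F ≃ₐ[ℚ] F) →* π.ker := monoidHomOfForallMemZpowers hgenF hz
  have hω : ω (r₂ u) = z := monoidHomOfForallMemZpowers_apply_gen hgenF hz
  have hcen : ∀ (x : F ≃ₐ[ℚ] F) (y : E), y * (ω x : E) = ω x * y := fun x y =>
    Subgroup.mem_center_iff.1 (hker (ω x).2) y
  let Ψ₂ : (K ≃ₐ[ℚ] K) →* E := MonoidHom.mk' (fun g => Ψ (r₁ g) * ((ω (r₂ g) : π.ker) : E)⁻¹) (by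
    intro a b
    have h1 : ∀ (x : F ≃ₐ[ℚ] F) (y : E), ((ω x : π.ker) : E)⁻¹ * y = y * ((ω x : π.ker) : E)⁻¹ := by
      intro x y
      rw [inv_mul_eq_iff_eq_mul, ← mul_assoc, ← hcen, mul_inv_cancel_right]
    rw [map_mul, map_mul, map_mul, map_mul, Subgroup.coe_mul, mul_inv_rev, h1 (r₂ b), mul_assoc,
      mul_assoc, ← mul_assoc (Ψ (r₁ b)), ← h1 (r₂ a), mul_assoc])
  have hΨ₂ : ∀ g, Ψ₂ g = Ψ (r₁ g) * ((ω (r₂ g) : π.ker) : E)⁻¹ := fun g => rfl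
  have hΨ₂u : Ψ₂ u = 1 := by
    rw [hΨ₂, hω]
    exact mul_inv_cancel _
  have hcompat : ∀ (g : K ≃ₐ[ℚ] K) (x : L),
      g ((i₁.comp j) x) = (i₁.comp j) (π (Ψ₂ g) x) := by
    intro g x
    have h1 : π (Ψ₂ g) = π (Ψ (r₁ g)) := by
      rw [hΨ₂, map_mul, map_inv, (MonoidHom.mem_ker).1 (ω (r₂ g)).2, inv_one, mul_one]
    rw [h1, RingHom.comp_apply, RingHom.comp_apply, hr₁, hΨ]
  obtain ⟨N₀, _, _, _, j₀, Ψ₀, hinj₀, hΨ₀, hred⟩ := inj_reduce π (i₁.comp j) Ψ₂ hcompat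
  refine ⟨N₀, inferInstance, inferInstance, inferInstance, j₀, Ψ₀, hinj₀, hΨ₀, hred ℓ ?_, ?_⟩
  · intro v hv g hg
    obtain ⟨τ, hτ⟩ := exists_conj hℓ hv hw₂ℓ
    have h1 : τ * g * τ⁻¹ ∈ Subgroup.zpowers u := (hu _).1 (IsInert.conj_to hτ hg)
    have h2 : Ψ₂ (τ * g * τ⁻¹) = 1 := by
      have h3 : Subgroup.zpowers u ≤ Ψ₂.ker := by
        rw [Subgroup.zpowers_le]
        exact hΨ₂u
      exact h3 h1
    rw [map_mul, map_mul, map_inv, mul_inv_eq_one, mul_eq_left] at h2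
    exact h2
  · intro ℓ' hℓ' hne hun
    refine hred ℓ' ?_
    intro v hv g hg
    obtain ⟨v₁, hv₁⟩ := exists_below i₁ v
    obtain ⟨v₂, hv₂⟩ := exists_below i₂ v
    have h1 : r₁ g = 1 := hun v₁ ((hv₁.above_iff ℓ').1 hv) _ (IsInert.restrict hv₁ (hr₁ g) hg)
    have h2 : r₂ g = 1 := by
      refine hF2 v₂ ?_ _ (IsInert.restrict hv₂ (hr₂ g) hg)
      intro q hq hq1
      rw [Finset.mem_singleton] at hq
      subst hq
      exact hne (Above.unique hℓ' hℓ ((hv₂.above_iff ℓ').1 hv) hq1)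
    rw [hΨ₂, h1, h2, map_one, map_one]
    exact mul_inv_cancel _

end Pool.Agent.RG
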