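import Mathlib
import Pool.Agent.Lib.RG.Defs
import Pool.Agent.Lib.RG.G01
import Pool.Agent.Lib.RG.G02

/-!
PART E, row E32: only finitely many rational primes ramify in a number field (for g <> 1 choose x integral with g x <> x: if g is inert at w then
w contains g x - x; a nonzero integral element lies in finitely many primes; there are finitely many g).
-/

set_option autoImplicit false

namespace Pool.Agent.RG

open NumberField IsDedekindDomain

/-- a nontrivial automorphism moves an algebraic integer -/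
private theorem E32_move {N : Type} [Field N] [NumberField N] {σ : N ≃ₐ[ℚ] N} (hσ : σ ≠ 1) :
    ∃ x : 𝓞 N, σ (x : N) ≠ (x : N) := by
  by_contra hcon
  push Not at hcon
  apply hσ
  ext y
  obtain ⟨a, b, hb, rfl⟩ := IsFractionRing.div_surjective (A := 𝓞 N) y
  show σ (algebraMap (𝓞 N) N a / algebraMap (𝓞 N) N b) = _
  rw [map_div₀]
  have h1 : σ (algebraMap (𝓞 N) N a) = algebraMap (𝓞 N) N a := hcon a
  have h2 : σ (algebraMap (𝓞 N) N b) = algebraMap (𝓞 N) N b := hcon b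
  rw [h1, h2]
  rfl

/-- finitely many primes are inert for a nontrivial automorphism -/
private theorem E32_fin {N : Type} [Field N] [NumberField N] {σ : N ≃ₐ[ℚ] N} (hσ : σ ≠ 1) :
    {w : HeightOneSpectrum (𝓞 N) | IsInert w σ}.Finite := by
  obtain ⟨x, hx⟩ := E32_move hσ
  have hint : IsIntegral ℤ (σ (x : N) - (x : N)) := by
    refine IsIntegral.sub ?_ x.isIntegral_coe
    exact x.isIntegral_coe.map (σ.toRingEquiv.toRingHom.toIntAlgHom)
  let y : 𝓞 N := ⟨σ (x : N) - (x : N), hint⟩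
  have hy : y ≠ 0 := by
    intro h
    have h1 : σ (x : N) - (x : N) = 0 := congrArg (fun z : 𝓞 N => (z : N)) h
    exact hx (sub_eq_zero.1 h1)
  have hI : Ideal.span {y} ≠ 0 := by
    rw [Submodule.zero_eq_bot, Ne, Ideal.span_singleton_eq_bot]
    exact hy
  refine (Ideal.finite_factors hI).subset ?_
  intro w hw
  show w.asIdeal ∣ Ideal.span {y}
  rw [← HeightOneSpectrum.valuation_lt_one_iff_dvd (K := N)]
  exact hw.2 (x : N) (w.valuation_le_one x)

theorem finite_ramified (N : Type) [Field N] [NumberField N] :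
    Set.Finite {ℓ : ℕ | ℓ.Prime ∧ ∃ w : HeightOneSpectrum (𝓞 N), Above w ℓ ∧
      ∃ σ : N ≃ₐ[ℚ] N, IsInert w σ ∧ σ ≠ 1} := by
  have hG : Finite (N ≃ₐ[ℚ] N) := inferInstance
  have h1 : (⋃ σ : {σ : N ≃ₐ[ℚ] N // σ ≠ 1},
      {w : HeightOneSpectrum (𝓞 N) | IsInert w σ.1}).Finite :=
    Set.finite_iUnion fun σ => E32_fin σ.2
  have h2 : (⋃ w ∈ (⋃ σ : {σ : N ≃ₐ[ℚ] N // σ ≠ 1},
      {w : HeightOneSpectrum (𝓞 N) | IsInert w σ.1}), {ℓ : ℕ | ℓ.Prime ∧ Above w ℓ}).Finite := by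
    refine Set.Finite.biUnion h1 fun w _ => ?_
    refine Set.Subsingleton.finite ?_
    rintro a ⟨ha1, ha2⟩ b ⟨hb1, hb2⟩
    exact ha2.unique ha1 hb1 hb2
  refine h2.subset ?_
  rintro ℓ ⟨hℓ, w, hw, σ, hσ1, hσ2⟩
  refine Set.mem_biUnion (x := w) ?_ ⟨hℓ, hw⟩
  exact Set.mem_iUnion.2 ⟨⟨σ, hσ2⟩, hσ1⟩

end Pool.Agent.RG
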