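import Mathlib
import Pool.Agent.Lib.RG.E28
import Pool.Agent.Lib.RG.E32

/-!
PART E, row E31: removing all ramified primes outside S. Induction on the number of rational primes ℓ not in S, ramified in N (E32 finite), using
remove_one (E28); primes above p are unramified all the time. At the end UnrOutside S N: every prime w lies above a rational prime (exists_prime_above).
-/

set_option autoImplicit false

namespace Pool.Agent.RG

open NumberField IsDedekindDomain

/-- the primes outside `S` that ramify -/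
private def E31_bad (S : Finset ℕ) (N : Type) [Field N] [NumberField N] : Set ℕ :=
  {ℓ : ℕ | ℓ.Prime ∧ ℓ ∉ S ∧ ¬ UnrAt ℓ N}

private theorem E31_bad_fin (S : Finset ℕ) (N : Type) [Field N] [NumberField N] :
    (E31_bad S N).Finite := by
  refine (finite_ramified N).subset ?_
  rintro ℓ ⟨h1, -, h2⟩
  refine ⟨h1, ?_⟩
  unfold UnrAt at h2
  push Not at h2
  obtain ⟨w, hw, σ, hσ1, hσ2⟩ := h2
  exact ⟨w, hw, σ, hσ1, hσ2⟩

private theorem E31_aux {p : ℕ} [Fact p.Prime] {S : Finset ℕ} {L : Type} [Field L] [NumberField L]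
    [IsGalois ℚ L] {E : Type} [Group E] [Finite E] (hE : IsPGroup p E) (π : E →* (L ≃ₐ[ℚ] L))
    (hker : π.ker ≤ Subgroup.center E) (hcard : Nat.card π.ker = p) (hunr : UnrOutside S L)
    (hS : ∀ q ∈ S, q.Prime) (n : ℕ) :
    ∀ {N : Type} [Field N] [NumberField N] [IsGalois ℚ N] (j : L →+* N)
    (Ψ : (N ≃ₐ[ℚ] N) →* E), Function.Injective Ψ →
    (∀ (g : N ≃ₐ[ℚ] N) (x : L), g (j x) = j (π (Ψ g) x)) → UnrAt p N →
    (E31_bad S N).ncard ≤ n →
    ∃ (N' : Type) (_ : Field N') (_ : NumberField N') (_ : IsGalois ℚ N') (j' : L →+* N')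
      (Ψ' : (N' ≃ₐ[ℚ] N') →* E), Function.Injective Ψ' ∧
      (∀ (g : N' ≃ₐ[ℚ] N') (x : L), g (j' x) = j' (π (Ψ' g) x)) ∧ UnrOutside S N' := by
  induction n with
  | zero =>
    intro N _ _ _ j Ψ hinj hΨ hp hn
    refine ⟨N, inferInstance, inferInstance, inferInstance, j, Ψ, hinj, hΨ, ?_⟩
    intro w hw σ hσ
    obtain ⟨q, hq, hwq⟩ := exists_prime_above w
    have h0 : E31_bad S N = ∅ := by
      rwa [Nat.le_zero, Set.ncard_eq_zero (E31_bad_fin S N)] at hn
    by_contra hne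
    have h1 : q ∈ E31_bad S N := ⟨hq, fun h => hw q h hwq, fun h => hne (h w hwq σ hσ)⟩
    rw [h0] at h1
    exact h1
  | succ n ih =>
    intro N _ _ _ j Ψ hinj hΨ hp hn
    by_cases hle : (E31_bad S N).ncard ≤ n
    · exact ih j Ψ hinj hΨ hp hle
    · obtain ⟨ℓ, hℓ1, hℓ2, hℓ3⟩ : (E31_bad S N).Nonempty := by
        rw [Set.nonempty_iff_ne_empty]
        intro h0
        rw [h0, Set.ncard_empty] at hle
        exact hle (Nat.zero_le _)
      have hℓp : ℓ ≠ p := by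
        rintro rfl
        exact hℓ3 hp
      obtain ⟨N', _, _, _, j', Ψ', h1, h2, h3, h4⟩ :=
        remove_one hE π hker hcard hunr j Ψ hinj hΨ ℓ hℓ1 hℓ2 hℓp hS
      refine ih j' Ψ' h1 h2 (h4 p Fact.out hℓp.symm hp) ?_
      have h5 : E31_bad S N' ⊂ E31_bad S N := by
        refine ⟨?_, ?_⟩
        · rintro q ⟨hq1, hq2, hq3⟩
          refine ⟨hq1, hq2, fun h => hq3 ?_⟩
          by_cases hq : q = ℓ
          · rw [hq]
            exact h3
          · exact h4 q hq1 hq h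
        · intro h
          exact (h (⟨hℓ1, hℓ2, hℓ3⟩ : ℓ ∈ E31_bad S N)).2.2 h3
      have h6 := Set.ncard_lt_ncard h5 (E31_bad_fin S N)
      omega

theorem remove_all {p : ℕ} [Fact p.Prime] {S : Finset ℕ} {L : Type} [Field L] [NumberField L]
    [IsGalois ℚ L] {E : Type} [Group E] [Finite E] (hE : IsPGroup p E) (π : E →* (L ≃ₐ[ℚ] L))
    (hker : π.ker ≤ Subgroup.center E) (hcard : Nat.card π.ker = p) (hunr : UnrOutside S L)
    (hS : ∀ q ∈ S, q.Prime) {N : Type} [Field N] [NumberField N] [IsGalois ℚ N] (j : L →+* N)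
    (Ψ : (N ≃ₐ[ℚ] N) →* E) (hinj : Function.Injective Ψ)
    (hΨ : ∀ (g : N ≃ₐ[ℚ] N) (x : L), g (j x) = j (π (Ψ g) x)) (hp : UnrAt p N) :
    ∃ (N' : Type) (_ : Field N') (_ : NumberField N') (_ : IsGalois ℚ N') (j' : L →+* N')
      (Ψ' : (N' ≃ₐ[ℚ] N') →* E), Function.Injective Ψ' ∧
      (∀ (g : N' ≃ₐ[ℚ] N') (x : L), g (j' x) = j' (π (Ψ' g) x)) ∧ UnrOutside S N' :=
  E31_aux hE π hker hcard hunr hS _ j Ψ hinj hΨ hp le_rfl

end Pool.Agent.RG
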