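import Mathlib
import Pool.Agent.Lib.RG.Defs
import Pool.Agent.Lib.RG.G01

/-!
PART E, row E36: the image of a prime under an automorphism, and comparison of valuations of elements under a Lies relation.
exists_map_prime: w' = the prime of the image ideal of w under the automorphism induced by g on the ring of integers (w'.asIdeal = map); the valuations agree by
uniqueness (HeightOneSpectrum valuations are determined by the ideal: compare on integers, powers of the ideal).
lies_le: divide by b.
-/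

set_option autoImplicit false

namespace Pool.Agent.RG

open NumberField IsDedekindDomain

namespace E36

theorem exp_neg_one_ne_zero : (WithZero.exp (-1 : ℤ) : WithZero (Multiplicative ℤ)) ≠ 0 :=
  WithZero.exp_ne_zero

theorem le_exp_of_lt_one {a : WithZero (Multiplicative ℤ)} (h : a < 1) :
    a ≤ WithZero.exp (-1 : ℤ) := by
  by_cases h0 : a = 0
  · rw [h0]
    exact zero_le
  · rw [← WithZero.exp_log h0] at h ⊢
    rw [← WithZero.exp_zero, WithZero.exp_lt_exp] at h
    rw [WithZero.exp_le_exp]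
    omega

/-- the comparison of valuations along an isomorphism is an equality -/
theorem val_eq {N : Type} [Field N] (v v' : Valuation N (WithZero (Multiplicative ℤ)))
    (g : N ≃+* N) (h1 : ∀ x, v' (g x) ≤ 1 ↔ v x ≤ 1) (h2 : ∀ x, v' (g x) < 1 ↔ v x < 1)
    {π π' : N} (hπ : v π = WithZero.exp (-1 : ℤ)) (hπ' : v' π' = WithZero.exp (-1 : ℤ)) (x : N) :
    v' (g x) = v x := by
  have hlt : (WithZero.exp (-1 : ℤ) : WithZero (Multiplicative ℤ)) < 1 := by
    rw [← WithZero.exp_zero, WithZero.exp_lt_exp]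
    omega
  have hπ0 : π ≠ 0 := by
    intro h0
    rw [h0, map_zero] at hπ
    exact exp_neg_one_ne_zero hπ.symm
  have hgπ0 : g π ≠ 0 := by
    rwa [Ne, EmbeddingLike.map_eq_zero_iff]
  have hgπ : v' (g π) = WithZero.exp (-1 : ℤ) := by
    apply le_antisymm
    · apply le_exp_of_lt_one
      rw [h2, hπ]
      exact hlt
    · obtain ⟨y, hy⟩ := g.surjective π'
      have hy1 : v y < 1 := by
        rw [← h2, hy, hπ']
        exact hlt
      have hy2 : v (y / π) ≤ 1 := by
        rw [map_div₀, hπ]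
        exact div_le_one_of_le₀ (le_exp_of_lt_one hy1) zero_le
      rw [← h1, map_div₀, map_div₀, hy, hπ'] at hy2
      rwa [div_le_one₀ (zero_lt_iff.2 ((v'.ne_zero_iff).2 hgπ0))] at hy2
  by_cases hx : x = 0
  · rw [hx, map_zero, map_zero, map_zero]
  have hvx : v x ≠ 0 := (v.ne_zero_iff).2 hx
  have hvx2 : v x = v (π ^ (-(WithZero.log (v x)))) := by
    rw [map_zpow₀, hπ, ← WithZero.exp_zsmul, smul_eq_mul, mul_neg, mul_one, neg_neg,
      WithZero.exp_log hvx]
  set n : ℤ := -(WithZero.log (v x)) with hn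
  have hπn : v (π ^ n) ≠ 0 := by
    rw [← hvx2]
    exact hvx
  have h3 : v (x / π ^ n) = 1 := by
    rw [map_div₀, ← hvx2, div_self hvx]
  have h4 : v' (g (x / π ^ n)) = 1 := by
    apply le_antisymm
    · rw [h1, h3]
    · rw [← not_lt, h2, h3]
      exact lt_irrefl _
  rw [map_div₀, map_div₀] at h4
  have h5 : v' (g (π ^ n)) = v (π ^ n) := by
    rw [map_zpow₀, map_zpow₀, map_zpow₀, hgπ, hπ]
  rw [h5] at h4
  rw [hvx2]
  exact (div_eq_one_iff_eq hπn).1 h4

end E36

theorem exists_map_prime {N : Type} [Field N] [NumberField N] (g : N ≃ₐ[ℚ] N)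
    (w : HeightOneSpectrum (𝓞 N)) :
    ∃ w' : HeightOneSpectrum (𝓞 N), ∀ x, w'.valuation N (g x) = w.valuation N x := by
  obtain ⟨w', hw'⟩ := exists_above ((g : N ≃+* N) : N →+* N) w
  obtain ⟨π, hπ⟩ := w.valuation_exists_uniformizer N
  obtain ⟨π', hπ'⟩ := w'.valuation_exists_uniformizer N
  exact ⟨w', E36.val_eq _ _ (g : N ≃+* N) (fun x => (hw' x).1) (fun x => (hw' x).2) hπ hπ'⟩

theorem lies_le {M N : Type} [Field M] [NumberField M] [Field N] [NumberField N] {i : M →+* N}
    {w : HeightOneSpectrum (𝓞 N)} {w₁ : HeightOneSpectrum (𝓞 M)} (h : Lies i w w₁) {a b : M}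
    (hb : b ≠ 0) (hab : w₁.valuation M a ≤ w₁.valuation M b) :
    w.valuation N (i a) ≤ w.valuation N (i b) := by
  have hvb : w₁.valuation M b ≠ 0 := ((w₁.valuation M).ne_zero_iff).2 hb
  have hib : i b ≠ 0 := fun h0 => hb (i.injective (by rw [h0, map_zero]))
  have h1 : w₁.valuation M (a / b) ≤ 1 := by
    rw [map_div₀]
    exact div_le_one_of_le₀ hab zero_le
  rw [← (h _).1, map_div₀, map_div₀,
    div_le_one₀ (zero_lt_iff.2 (((w.valuation N).ne_zero_iff).2 hib))] at h1
  exact h1

end Pool.Agent.RG
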