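import Mathlib
import Pool.Agent.Lib.RG.Defs

/-!
PART E, first half (Brauer-Hasse-Noether for a finite `p`-group `E` acting on a number field `M`
through a central extension): definitions.
-/

set_option autoImplicit false

namespace Pool.Agent.RG.E

open NumberField IsDedekindDomain

/-- the action on units -/
scoped instance unitsAct {E M : Type} [Group E] [Field M] [MulSemiringAction E M] :
    MulDistribMulAction E Mˣ := Units.mulDistribMulActionRight

theorem coe_act {E M : Type} [Group E] [Field M] [MulSemiringAction E M] (g : E) (u : Mˣ) :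
    ((g • u : Mˣ) : M) = g • (u : M) := rfl

section
variable {M : Type} [Field M] [NumberField M] {E : Type} [Group E] [MulSemiringAction E M]

/-- the decomposition group -/
def decG (E : Type) [Group E] [MulSemiringAction E M] (w : HeightOneSpectrum (𝓞 M)) :
    Subgroup E where
  carrier := {g | IsDec w g}
  mul_mem' := by
    intro a b ha hb x
    rw [mul_smul, ha, hb]
  one_mem' := by
    intro x
    rw [one_smul]
  inv_mem' := by
    intro a ha x
    have h := ha (a⁻¹ • x)
    rw [smul_inv_smul] at h
    exact h.symm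

theorem mem_decG {w : HeightOneSpectrum (𝓞 M)} {g : E} : g ∈ decG E w ↔ IsDec w g := Iff.rfl

/-- units congruent to `1` modulo `w` -/
def U1 (w : HeightOneSpectrum (𝓞 M)) : Subgroup Mˣ where
  carrier := {u | w.valuation M ((u : M) - 1) < 1}
  one_mem' := by
    change w.valuation M (((1 : Mˣ) : M) - 1) < 1
    rw [Units.val_one, sub_self, map_zero]
    exact zero_lt_one
  mul_mem' := by
    intro a b ha hb
    change w.valuation M (((a * b : Mˣ) : M) - 1) < 1
    have ha' : w.valuation M ((a : M) - 1) < 1 := ha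
    have hb' : w.valuation M ((b : M) - 1) < 1 := hb
    have e : ((a * b : Mˣ) : M) - 1 = ((a : M) - 1) * ((b : M) - 1) + (((a : M) - 1) + ((b : M) - 1)) := by
      rw [Units.val_mul]; ring
    rw [e]
    refine (Valuation.map_add _ _ _).trans_lt (max_lt ?_ ?_)
    · rw [map_mul]
      exact mul_lt_one_of_nonneg_of_lt_one_left zero_le ha' hb'.le
    · exact (Valuation.map_add _ _ _).trans_lt (max_lt ha' hb')
  inv_mem' := by
    intro a ha
    change w.valuation M (((a⁻¹ : Mˣ) : M) - 1) < 1
    have ha' : w.valuation M ((a : M) - 1) < 1 := ha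
    have h1 : w.valuation M (a : M) = 1 := by
      have h := Valuation.map_one_add_of_lt (v := w.valuation M) ha'
      rwa [add_sub_cancel] at h
    have e : ((a⁻¹ : Mˣ) : M) - 1 = -(((a : M) - 1) * ((a⁻¹ : Mˣ) : M)) := by
      rw [sub_mul, Units.mul_inv]; ring
    have h2 : w.valuation M ((a⁻¹ : Mˣ) : M) = 1 := by
      rw [Units.val_inv_eq_inv_val, map_inv₀, h1, inv_one]
    rw [e, Valuation.map_neg, map_mul, h2, mul_one]
    exact ha'

theorem mem_U1 {w : HeightOneSpectrum (𝓞 M)} {u : Mˣ} :
    u ∈ U1 w ↔ w.valuation M ((u : M) - 1) < 1 := Iff.rfl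

/-- The setting: `E` is a finite `p`-group acting on `M`, the elements which act trivially form a
central subgroup `Z` of order `p` identified by `ι` with the `p`-th roots of unity, which are fixed
by `E`; inertia above `p` acts trivially. -/
structure Cen (p : ℕ) (M : Type) [Field M] [NumberField M] (E : Type) [Group E]
    [MulSemiringAction E M] (Z : Subgroup E) (ι : Z →* Mˣ) : Prop where
  pg : IsPGroup p E
  cen : Z ≤ Subgroup.center E
  card : Nat.card Z = p
  ker : ∀ g : E, (∀ x : M, g • x = x) ↔ g ∈ Z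
  inj : Function.Injective ι
  fix : ∀ (g : E) (z : Z), g • (ι z : M) = ι z
  unr : ∀ w : HeightOneSpectrum (𝓞 M), Above w p → ∀ g : E, IsInert w g → g ∈ Z

/-- a solution of the embedding problem over the fixed field of `A` -/
structure Sol {Z : Subgroup E} (ι : Z →* Mˣ) (A : Subgroup E) (b : E → Mˣ) : Prop where
  coc : ∀ g ∈ A, ∀ h ∈ A, b (g * h) = b g * g • b h
  res : ∀ z : Z, b z = ι z

/-- a local solution at `w` -/
structure LocSol {Z : Subgroup E} (ι : Z →* Mˣ) (w : HeightOneSpectrum (𝓞 M)) (b : E → Mˣ) :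
    Prop where
  unit : ∀ g : E, IsDec w g → w.valuation M (b g : M) = 1
  coc : ∀ g h : E, IsDec w g → IsDec w h → b (g * h) / (b g * g • b h) ∈ U1 w
  res : ∀ z : Z, b z / ι z ∈ U1 w

end

/-- `A₁` is normal in `A` with cyclic quotient of order `n` generated by `e` -/
structure Step {E : Type} [Group E] (n : ℕ) (A A1 : Subgroup E) (e : E) : Prop where
  pos : 0 < n
  le : A1 ≤ A
  mem : e ∈ A
  pow : e ^ n ∈ A1
  min : ∀ i : ℕ, 0 < i → i < n → e ^ i ∉ A1
  norm : ∀ a ∈ A, ∀ x ∈ A1, a * x * a⁻¹ ∈ A1
  gen : ∀ g ∈ A, ∃ i < n, ∃ x ∈ A1, g = e ^ i * x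

/-- the relation between a cocycle `b` on `A₁` and the value `m` at `e` of an extension -/
def RelOn {E V : Type} [Group E] [CommGroup V] [MulDistribMulAction E V] (A1 : Subgroup E)
    (b : E → V) (e : E) (m : V) : Prop :=
  ∀ x ∈ A1, b (e * x * e⁻¹) * (e * x * e⁻¹) • m = m * e • b x

end Pool.Agent.RG.E
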