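import Mathlib
import Pool.Agent.Lib.RG.EDefs

/-!
PART E, row E01: extension of homomorphisms and of cocycles from `A₁` to `A`, `A / A₁` cyclic.
-/

set_option autoImplicit false

namespace Pool.Agent.RG.E

/- PROOF. S g := t ^ i * s x for a chosen representation g = e ^ i * x (hS.gen). First show
S (e ^ i * x) = t ^ i * s x for ALL i : ℕ, x ∈ A1: if e ^ i * x = e ^ j * y with j < n, then
either i < j, e ^ (j - i) ∈ A1 contradicts hS.min (0 < j - i < n), or i ≥ j, e ^ (i - j) ∈ A1, so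
i - j = n * q (divide with remainder, hS.min), t ^ (i - j) = (t ^ n) ^ q = s (e ^ n) ^ q
= s (e ^ (i - j)) (s is multiplicative on A1, s 1 = 1). Then, by induction from hrel (applied to
e⁻¹ * x * e ∈ A1), s x * t ^ j = t ^ j * s (e⁻¹ ^ j * x * e ^ j), hence S is multiplicative. -/
theorem ext_hom {E H : Type} [Group E] [Group H] {n : ℕ} {A A1 : Subgroup E} {e : E}
    (hS : Step n A A1 e) (s : E → H) (hs : ∀ g ∈ A1, ∀ h ∈ A1, s (g * h) = s g * s h)
    (t : H) (hrel : ∀ x ∈ A1, s (e * x * e⁻¹) * t = t * s x) (hpow : s (e ^ n) = t ^ n) :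
    ∃ S : E → H, (∀ g ∈ A, ∀ h ∈ A, S (g * h) = S g * S h) ∧
      ∀ i : ℕ, ∀ x ∈ A1, S (e ^ i * x) = t ^ i * s x := by
  classical
  have hs1 : s 1 = 1 := by
    have h := hs 1 A1.one_mem 1 A1.one_mem
    rw [mul_one] at h
    exact left_eq_mul.1 h
  have hconj : ∀ x ∈ A1, e⁻¹ * x * e ∈ A1 := by
    intro x hx
    have h := hS.norm e⁻¹ (A.inv_mem hS.mem) x hx
    rwa [inv_inv] at h
  have hsq : ∀ q : ℕ, s ((e ^ n) ^ q) = t ^ (n * q) := by
    intro q
    induction q with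
    | zero => rw [pow_zero, mul_zero, pow_zero, hs1]
    | succ q ih => rw [pow_succ, hs _ (A1.pow_mem hS.pow q) _ hS.pow, ih, hpow, mul_add, mul_one,
        pow_add]
  have hk : ∀ k : ℕ, e ^ k ∈ A1 → s (e ^ k) = t ^ k := by
    intro k hk
    have h1 : e ^ k = (e ^ n) ^ (k / n) * e ^ (k % n) := by
      rw [← pow_mul, ← pow_add, Nat.div_add_mod]
    have h2 : e ^ (k % n) ∈ A1 := by
      have h3 := A1.mul_mem (A1.inv_mem (A1.pow_mem hS.pow (k / n))) hk
      rwa [h1, inv_mul_cancel_left] at h3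
    have h3 : k % n = 0 := by
      by_contra h4
      exact hS.min _ (Nat.pos_of_ne_zero h4) (Nat.mod_lt _ hS.pos) h2
    have h4 : k = n * (k / n) := (Nat.mul_div_cancel' (Nat.dvd_of_mod_eq_zero h3)).symm
    rw [h4, pow_mul, hsq]
  have hwd : ∀ (i k : ℕ) (x y : E), x ∈ A1 → y ∈ A1 → e ^ i * x = e ^ (i + k) * y →
      t ^ i * s x = t ^ (i + k) * s y := by
    intro i k x y hx hy h
    rw [pow_add, mul_assoc] at h
    have h1 : x = e ^ k * y := mul_left_cancel h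
    have h2 : e ^ k ∈ A1 := by
      have : e ^ k = x * y⁻¹ := by rw [h1]; group
      rw [this]
      exact A1.mul_mem hx (A1.inv_mem hy)
    rw [h1, hs _ h2 _ hy, hk k h2, pow_add, mul_assoc]
  have hwd' : ∀ (i j : ℕ) (x y : E), x ∈ A1 → y ∈ A1 → e ^ i * x = e ^ j * y →
      t ^ i * s x = t ^ j * s y := by
    intro i j x y hx hy h
    rcases le_total i j with hij | hij
    · obtain ⟨k, rfl⟩ := Nat.exists_eq_add_of_le hij
      exact hwd i k x y hx hy h
    · obtain ⟨k, rfl⟩ := Nat.exists_eq_add_of_le hij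
      exact (hwd j k y x hy hx h.symm).symm
  have hex : ∀ g ∈ A, ∃ (i : ℕ) (x : E), x ∈ A1 ∧ g = e ^ i * x := by
    intro g hg
    obtain ⟨i, _, x, hx, h⟩ := hS.gen g hg
    exact ⟨i, x, hx, h⟩
  choose! I X hX hIX using hex
  have hmem : ∀ (i : ℕ) (x : E), x ∈ A1 → e ^ i * x ∈ A := fun i x hx =>
    A.mul_mem (A.pow_mem hS.mem i) (hS.le hx)
  obtain ⟨S, hSdef⟩ : ∃ S : E → H, ∀ g, S g = t ^ I g * s (X g) := ⟨_, fun g => rfl⟩
  have hSval : ∀ (i : ℕ) (x : E), x ∈ A1 → S (e ^ i * x) = t ^ i * s x := by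
    intro i x hx
    rw [hSdef]
    exact hwd' _ _ _ _ (hX _ (hmem i x hx)) hx (hIX _ (hmem i x hx)).symm
  have hcomm : ∀ (j : ℕ) (x : E), x ∈ A1 → (e⁻¹ ^ j * x * e ^ j ∈ A1 ∧
      s x * t ^ j = t ^ j * s (e⁻¹ ^ j * x * e ^ j)) := by
    intro j
    induction j with
    | zero =>
      intro x hx
      simp only [pow_zero, one_mul, mul_one]
      exact ⟨hx, trivial⟩
    | succ j ih =>
      intro x hx
      obtain ⟨h1, h2⟩ := ih _ (hconj x hx)
      have h3 : e⁻¹ ^ (j + 1) * x * e ^ (j + 1) = e⁻¹ ^ j * (e⁻¹ * x * e) * e ^ j := by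
        rw [pow_succ, pow_succ']
        group
      rw [h3]
      refine ⟨h1, ?_⟩
      have h4 := hrel _ (hconj x hx)
      have h5 : e * (e⁻¹ * x * e) * e⁻¹ = x := by group
      rw [h5] at h4
      rw [pow_succ', ← mul_assoc, h4, mul_assoc, h2, ← mul_assoc, ← pow_succ']
  refine ⟨S, ?_, fun i x hx => hSval i x hx⟩
  intro g hg h hh
  obtain ⟨i, _, x, hx, rfl⟩ := hS.gen g hg
  obtain ⟨j, _, y, hy, rfl⟩ := hS.gen h hh
  obtain ⟨h1, h2⟩ := hcomm j x hx
  have h3 : e ^ i * x * (e ^ j * y) = e ^ (i + j) * (e⁻¹ ^ j * x * e ^ j * y) := by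
    rw [pow_add, inv_pow]
    group
  rw [h3, hSval _ _ (A1.mul_mem h1 hy), hSval _ _ hx, hSval _ _ hy, hs _ h1 _ hy, pow_add]
  have h4 : t ^ i * s x * (t ^ j * s y) = t ^ i * (s x * t ^ j) * s y := by group
  rw [h4, h2]
  group

/- PROOF. Apply ext_hom with H = V ⋊[MulDistribMulAction.toMulAut E V] E, s x = ⟨b1 x, x⟩,
t = ⟨β, e⟩ (t ^ i = ⟨∏ k < i, e ^ k • β, e ^ i⟩); b g = (S g).left; (S g).right = g on A because
g = e ^ i * x. -/
theorem ext_exact {E V : Type} [Group E] [CommGroup V] [MulDistribMulAction E V]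
    {n : ℕ} {A A1 : Subgroup E} {e : E} (hS : Step n A A1 e) (b1 : E → V)
    (hb1 : ∀ g ∈ A1, ∀ h ∈ A1, b1 (g * h) = b1 g * g • b1 h)
    (β : V) (hrel : RelOn A1 b1 e β)
    (hpow : b1 (e ^ n) = ∏ i ∈ Finset.range n, e ^ i • β) :
    ∃ b : E → V, (∀ g ∈ A, ∀ h ∈ A, b (g * h) = b g * g • b h) ∧
      ∀ i : ℕ, ∀ x ∈ A1, b (e ^ i * x) = (∏ k ∈ Finset.range i, e ^ k • β) * e ^ i • b1 x := by
  obtain ⟨t, ht⟩ : ∃ t : V ⋊[MulDistribMulAction.toMulAut E V] E, t = ⟨β, e⟩ := ⟨_, rfl⟩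
  obtain ⟨s, hs⟩ : ∃ s : E → V ⋊[MulDistribMulAction.toMulAut E V] E, ∀ x, s x = ⟨b1 x, x⟩ :=
    ⟨_, fun x => rfl⟩
  have htp : ∀ i : ℕ, t ^ i = ⟨∏ k ∈ Finset.range i, e ^ k • β, e ^ i⟩ := by
    intro i
    induction i with
    | zero =>
      rw [pow_zero]
      ext
      · rw [Finset.prod_range_zero]; rfl
      · rw [pow_zero]; rfl
    | succ i ih =>
      rw [pow_succ, ih, ht]
      ext
      · rw [Finset.prod_range_succ]; rfl
      · rw [pow_succ]; rfl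
  obtain ⟨S, h1, h2⟩ := ext_hom hS s
    (by
      intro g hg h hh
      rw [hs, hs, hs]
      ext
      · exact hb1 g hg h hh
      · rfl) t
    (by
      intro x hx
      rw [hs, hs, ht]
      ext
      · exact hrel x hx
      · change e * x * e⁻¹ * e = e * x
        group)
    (by
      rw [hs, htp, hpow])
  have h3 : ∀ (i : ℕ) (x : E), x ∈ A1 →
      S (e ^ i * x) = ⟨(∏ k ∈ Finset.range i, e ^ k • β) * e ^ i • b1 x, e ^ i * x⟩ := by
    intro i x hx
    rw [h2 i x hx, htp, hs]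
    rfl
  have h4 : ∀ g ∈ A, (S g).right = g := by
    intro g hg
    obtain ⟨i, _, x, hx, rfl⟩ := hS.gen g hg
    rw [h3 i x hx]
  refine ⟨fun g => (S g).left, ?_, fun i x hx => ?_⟩
  · intro g hg h hh
    change (S (g * h)).left = (S g).left * g • (S h).left
    rw [h1 g hg h hh, SemidirectProduct.mul_left, h4 g hg]
    rfl
  · change (S (e ^ i * x)).left = _
    rw [h3 i x hx]

end Pool.Agent.RG.E
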