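import Mathlib
import Pool.Agent.Lib.RG.EDefs

/-!
PART E, row E04: Hilbert 90 for a finite group acting on `M` (with kernel), and existence of the
relation `RelOn`.
-/

set_option autoImplicit false

namespace Pool.Agent.RG.E

variable {M : Type} [Field M] [NumberField M] {E : Type} [Group E] [MulSemiringAction E M]

/-- the monoid homomorphism given by an element -/
private def e04f (A : Subgroup E) (h : A) : M →* M :=
  ((MulSemiringAction.toRingHom E M (h : E)) : M →* M)

omit [NumberField M] in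
private theorem e04f_apply (A : Subgroup E) (h : A) (x : M) :
    e04f A h x = (h : E) • x := rfl

private theorem e04_exists [Finite E] (A : Subgroup E) (c : E → Mˣ)
    (h1 : ∀ g ∈ A, (∀ x : M, g • x = x) → c g = 1) [Fintype A] :
    ∃ x : M, ∑ h : A, (c h : M) * (h : E) • x ≠ 0 := by
  classical
  by_contra hcon
  push Not at hcon
  have hli := linearIndependent_monoidHom M M
  rw [linearIndependent_iff] at hli
  have h0 := hli (∑ h : A, Finsupp.single (e04f (M := M) A h) (c h : M)) (by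
    rw [map_sum]
    funext x
    rw [Finset.sum_apply]
    simp only [Finsupp.linearCombination_single, Pi.smul_apply, smul_eq_mul, Pi.zero_apply]
    exact hcon x)
  have h2 := DFunLike.congr_fun h0 (e04f (M := M) A 1)
  rw [Finsupp.finsetSum_apply, Finsupp.coe_zero, Pi.zero_apply] at h2
  simp only [Finsupp.single_apply] at h2
  have h3 : ∀ h : A, (if e04f (M := M) A h = e04f A 1 then (c h : M) else 0)
      = if e04f (M := M) A h = e04f A 1 then 1 else 0 := by
    intro h
    split_ifs with hh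
    · rw [h1 h h.2 (fun x => by
        have := DFunLike.congr_fun hh x
        rw [e04f_apply, e04f_apply] at this
        simpa using this)]
      rfl
    · rfl
  rw [Finset.sum_congr rfl (fun h _ => h3 h), Finset.sum_boole] at h2
  have h4 : (Finset.univ.filter (fun h : A => e04f (M := M) A h = e04f A 1)).card = 0 := by
    exact_mod_cast h2
  rw [Finset.card_eq_zero] at h4
  have h5 : (1 : A) ∈ Finset.univ.filter (fun h : A => e04f (M := M) A h = e04f A 1) := by
    simp
  rw [h4] at h5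
  simp at h5

/- PROOF. Dedekind independence (linearIndependent_monoidHom M M) for the family of monoid
homomorphisms f h = (x ↦ h • x) : M →* M, h ∈ A: if ∑ h ∈ A, c h * h • x = 0 for all x, then the
Finsupp ∑ h, single (f h) (c h) is zero; evaluating at f 1: ∑ over h ∈ A acting trivially of c h
= their number = 0 in M, contradiction (characteristic 0, h = 1 is among them). So there is x with
Y := ∑ h ∈ A, c h * h • x ≠ 0; g • Y = Y / c g (reindex h ↦ g * h, hc), and m := Y⁻¹ does it. -/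
theorem hilbert90 [Finite E] (A : Subgroup E) (c : E → Mˣ)
    (hc : ∀ g ∈ A, ∀ h ∈ A, c (g * h) = c g * g • c h)
    (h1 : ∀ g ∈ A, (∀ x : M, g • x = x) → c g = 1) :
    ∃ m : Mˣ, ∀ g ∈ A, c g = (g • m) / m := by
  classical
  have : Fintype A := Fintype.ofFinite A
  obtain ⟨x, hx⟩ := e04_exists (M := M) A c h1
  have key : ∀ g ∈ A, (c g : M) * g • (∑ h : A, (c h : M) * (h : E) • x)
      = ∑ h : A, (c h : M) * (h : E) • x := by
    intro g hg
    rw [Finset.smul_sum, Finset.mul_sum]
    rw [← Equiv.sum_comp (Equiv.mulLeft (⟨g, hg⟩ : A)) (fun h : A => (c h : M) * (h : E) • x)]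
    refine Finset.sum_congr rfl (fun h _ => ?_)
    have e1 : ((Equiv.mulLeft (⟨g, hg⟩ : A) h : A) : E) = g * (h : E) := rfl
    rw [e1, hc g hg h h.2, Units.val_mul, coe_act, smul_mul', mul_smul, mul_assoc]
  refine ⟨(Units.mk0 _ hx)⁻¹, fun g hg => ?_⟩
  have hk := key g hg
  rw [smul_inv', div_inv_eq_mul, eq_comm, inv_mul_eq_iff_eq_mul]
  apply Units.ext
  rw [Units.val_mul, coe_act, Units.val_mk0, mul_comm]
  exact hk.symm

/- PROOF. c y := e • b1 (e⁻¹ * y * e) / b1 y is a cocycle on A1 and c = 1 on the elements acting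
trivially (they are in Z, which is central, b1 = ι there, ι fixed). hilbert90: c y = (y • m) / m;
with y = e x e⁻¹ this is RelOn. -/
theorem exists_rel [Finite E] {p : ℕ} {Z : Subgroup E} {ι : Z →* Mˣ} (hC : Cen p M E Z ι)
    {A1 : Subgroup E} (hZ : Z ≤ A1) {b1 : E → Mˣ} (hb : Sol ι A1 b1) (e : E)
    (hn : ∀ x ∈ A1, e * x * e⁻¹ ∈ A1) (hn' : ∀ x ∈ A1, e⁻¹ * x * e ∈ A1) :
    ∃ m : Mˣ, RelOn A1 b1 e m := by
  have hcc : ∀ g ∈ A1, ∀ h ∈ A1, e • b1 (e⁻¹ * (g * h) * e) / b1 (g * h)
      = e • b1 (e⁻¹ * g * e) / b1 g * g • (e • b1 (e⁻¹ * h * e) / b1 h) := by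
    intro g hg h hh
    have e1 : e⁻¹ * (g * h) * e = (e⁻¹ * g * e) * (e⁻¹ * h * e) := by group
    simp only [e1]
    rw [hb.coc _ (hn' g hg) _ (hn' h hh), hb.coc g hg h hh, smul_mul', smul_div', ← mul_smul,
      ← mul_smul]
    have e2 : e * (e⁻¹ * g * e) = g * e := by group
    rw [e2, div_mul_div_comm]
  have hcz : ∀ g ∈ A1, (∀ x : M, g • x = x) → e • b1 (e⁻¹ * g * e) / b1 g = 1 := by
    intro g _ hgt
    have hgZ : g ∈ Z := (hC.ker g).1 hgt
    have hcen := hC.cen hgZ
    rw [Subgroup.mem_center_iff] at hcen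
    have e1 : e⁻¹ * g * e = g := by
      rw [hcen e⁻¹, mul_assoc, inv_mul_cancel, mul_one]
    simp only [e1]
    have e2 : b1 g = ι ⟨g, hgZ⟩ := hb.res ⟨g, hgZ⟩
    rw [e2]
    have e3 : e • ι ⟨g, hgZ⟩ = ι ⟨g, hgZ⟩ := Units.ext (hC.fix e ⟨g, hgZ⟩)
    rw [e3, div_self']
  obtain ⟨m, hm⟩ := hilbert90 (M := M) A1 (fun y => e • b1 (e⁻¹ * y * e) / b1 y) hcc hcz
  refine ⟨m, fun x hx => ?_⟩
  have h := hm _ (hn x hx)
  have e1 : e⁻¹ * (e * x * e⁻¹) * e = x := by group
  simp only [e1] at h
  rw [div_eq_div_iff_mul_eq_mul] at h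
  rw [mul_comm m, h, mul_comm]

end Pool.Agent.RG.E
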