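import Mathlib
import Pool.Agent.Lib.RG.EDefs

/-!
PART E, row E03: the obstruction `b₁(eⁿ) / ∏ eⁱ m` is fixed by `A` and does not depend on `e`.
-/

set_option autoImplicit false

namespace Pool.Agent.RG.E

private lemma E03_pow {E : Type} [Group E] {n : ℕ} {A A1 : Subgroup E} {e : E}
    (hS : Step n A A1 e) {y : E} (hy : y ∈ A1) (k : ℕ) : ∃ u ∈ A1, (e * y) ^ k = e ^ k * u := by
  induction k with
  | zero => exact ⟨1, A1.one_mem, by simp⟩
  | succ k ih =>
    obtain ⟨u, hu, h⟩ := ih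
    refine ⟨e⁻¹ * u * e⁻¹⁻¹ * y, A1.mul_mem (hS.norm _ (A.inv_mem hS.mem) _ hu) hy, ?_⟩
    rw [pow_succ, h, pow_succ]
    group

/-- change of the generator -/
theorem Step.change {E : Type} [Group E] {n : ℕ} {A A1 : Subgroup E} {e : E}
    (hS : Step n A A1 e) {y : E} (hy : y ∈ A1) : Step n A A1 (e * y) := by
  refine ⟨hS.pos, hS.le, A.mul_mem hS.mem (hS.le hy), ?_, ?_, hS.norm, ?_⟩
  · obtain ⟨u, hu, h⟩ := E03_pow hS hy n
    rw [h]
    exact A1.mul_mem hS.pow hu
  · intro i hi hin hmem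
    obtain ⟨u, hu, h⟩ := E03_pow hS hy i
    refine hS.min i hi hin ?_
    have h1 : e ^ i = (e * y) ^ i * u⁻¹ := by rw [h, mul_inv_cancel_right]
    rw [h1]
    exact A1.mul_mem hmem (A1.inv_mem hu)
  · intro g hg
    obtain ⟨i, hi, x, hx, rfl⟩ := hS.gen g hg
    obtain ⟨u, hu, h⟩ := E03_pow hS hy i
    refine ⟨i, hi, u⁻¹ * x, A1.mul_mem (A1.inv_mem hu) hx, ?_⟩
    rw [h]
    group

section
variable {E V : Type} [Group E] [CommGroup V] [MulDistribMulAction E V]
  {n : ℕ} {A A1 : Subgroup E} {e : E}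

private lemma E03_one (b1 : E → V) (hb1 : ∀ g ∈ A1, ∀ h ∈ A1, b1 (g * h) = b1 g * g • b1 h) :
    b1 1 = 1 := by
  have h := hb1 1 A1.one_mem 1 A1.one_mem
  rw [mul_one, one_smul] at h
  exact (mul_eq_left.1 h.symm)

private lemma E03_conj (hS : Step n A A1 e) {x : E} (hx : x ∈ A1) : e * x * e⁻¹ ∈ A1 :=
  hS.norm e hS.mem x hx

private lemma E03_conj' (hS : Step n A A1 e) {x : E} (hx : x ∈ A1) : e⁻¹ * x * e ∈ A1 := by
  have h := hS.norm e⁻¹ (A.inv_mem hS.mem) x hx
  rwa [inv_inv] at h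

private lemma E03_rel_pow (hS : Step n A A1 e) (b1 : E → V)
    (m : V) (hrel : RelOn A1 b1 e m) (k : ℕ) : ∀ x ∈ A1,
    b1 (e ^ k * x * (e ^ k)⁻¹) * (e ^ k * x * (e ^ k)⁻¹) • ∏ i ∈ Finset.range k, e ^ i • m =
      (∏ i ∈ Finset.range k, e ^ i • m) * e ^ k • b1 x := by
  induction k with
  | zero =>
    intro x hx
    simp
  | succ k ih =>
    intro x hx
    have h1 := ih _ (E03_conj hS hx)
    have h2 := hrel x hx
    have e1 : e ^ (k + 1) * x * (e ^ (k + 1))⁻¹ = e ^ k * (e * x * e⁻¹) * (e ^ k)⁻¹ := by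
      rw [pow_succ]
      group
    have e2 : (e ^ k * (e * x * e⁻¹) * (e ^ k)⁻¹) * e ^ k = e ^ k * (e * x * e⁻¹) := by group
    rw [Finset.prod_range_succ, e1, smul_mul', ← mul_assoc, h1, smul_smul, e2, mul_assoc,
      mul_smul (e ^ k), ← smul_mul', h2, smul_mul', ← mul_assoc, smul_smul, ← pow_succ]

private lemma E03_prod (m : V) (k : ℕ) :
    e • (∏ i ∈ Finset.range k, e ^ i • m) * m = (∏ i ∈ Finset.range k, e ^ i • m) * e ^ k • m := by
  rw [← Finset.prod_range_succ, Finset.prod_range_succ', pow_zero, one_smul, Finset.smul_prod']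
  congr 1
  refine Finset.prod_congr rfl fun i _ => ?_
  rw [smul_smul, ← pow_succ']

end

/- PROOF in the semidirect product (or by direct computation): s x = (b1 x, x) is multiplicative on
A1, t = (m, e), t * s x * t⁻¹ = s (e x e⁻¹). c0 := b1 (e^n) / ∏ e^i m satisfies s (e^n) = c0 t^n. t
commutes with s (e^n) (as e e^n e⁻¹ = e^n) and with t^n, so e • c0 = c0. For x ∈ A1:
s (e^n x e^-n) = s (e^n) s x s (e^n)⁻¹ and = t^n s x t^-n, hence c0 commutes with s (e^n x e^-n),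
i.e. y • c0 = c0 for y = e^n x e^-n, i.e. for all y ∈ A1. Finally A = ⋃ e^i A1. -/
theorem obst_fixed {E V : Type} [Group E] [CommGroup V] [MulDistribMulAction E V]
    {n : ℕ} {A A1 : Subgroup E} {e : E} (hS : Step n A A1 e) (b1 : E → V)
    (hb1 : ∀ g ∈ A1, ∀ h ∈ A1, b1 (g * h) = b1 g * g • b1 h)
    (m : V) (hrel : RelOn A1 b1 e m) (g : E) (hg : g ∈ A) :
    g • (b1 (e ^ n) / ∏ i ∈ Finset.range n, e ^ i • m) =
      b1 (e ^ n) / ∏ i ∈ Finset.range n, e ^ i • m := by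
  set P : V := ∏ i ∈ Finset.range n, e ^ i • m with hP
  have hen : e ^ n ∈ A := A.pow_mem hS.mem n
  have he : e • (b1 (e ^ n) / P) = b1 (e ^ n) / P := by
    have h1 := hrel _ hS.pow
    have e1 : e * e ^ n * e⁻¹ = e ^ n := by
      rw [← pow_succ', pow_succ]
      group
    rw [e1] at h1
    have h2 := E03_prod (e := e) m n
    rw [← hP] at h2
    have h3 : e • b1 (e ^ n) = b1 (e ^ n) * e ^ n • m / m := by
      rw [h1, mul_div_cancel_left]
    have h4 : e • P = P * e ^ n • m / m := by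
      rw [← h2, mul_div_cancel_right]
    rw [smul_div', h3, h4, div_div_div_cancel_right, mul_div_mul_right_eq_div]
  have hA1 : ∀ y ∈ A1, y • (b1 (e ^ n) / P) = b1 (e ^ n) / P := by
    intro y hy
    set x : E := (e ^ n)⁻¹ * y * e ^ n with hx
    have hxA : x ∈ A1 := by
      have := hS.norm (e ^ n)⁻¹ (A.inv_mem hen) y hy
      rwa [inv_inv] at this
    have hyx : e ^ n * x * (e ^ n)⁻¹ = y := by
      rw [hx]
      group
    have h1 := E03_rel_pow hS b1 m hrel n x hxA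
    rw [hyx, ← hP] at h1
    have h2 := hb1 _ hS.pow x hxA
    have h3 := hb1 y hy _ hS.pow
    have h4 : e ^ n * x = y * e ^ n := by
      rw [← hyx]
      group
    rw [h4, h3] at h2
    -- h2 : b1 y * y • b1 (e^n) = b1 (e^n) * e^n • b1 x
    have h5 : y • b1 (e ^ n) = b1 (e ^ n) * e ^ n • b1 x / b1 y := by
      rw [← h2, mul_div_cancel_left]
    have h6 : y • P = P * e ^ n • b1 x / b1 y := by
      rw [← h1, mul_div_cancel_left]
    rw [smul_div', h5, h6, div_div_div_cancel_right, mul_div_mul_right_eq_div]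
  have hpow : ∀ i : ℕ, e ^ i • (b1 (e ^ n) / P) = b1 (e ^ n) / P := by
    intro i
    induction i with
    | zero => rw [pow_zero, one_smul]
    | succ i ih => rw [pow_succ, mul_smul, he, ih]
  obtain ⟨i, _, x, hx, rfl⟩ := hS.gen g hg
  rw [mul_smul, hA1 x hx, hpow]

/-- change of `e` to `e * y`, `m` to `m * e • b1 y` -/
theorem rel_change {E V : Type} [Group E] [CommGroup V] [MulDistribMulAction E V]
    {n : ℕ} {A A1 : Subgroup E} {e : E} (hS : Step n A A1 e) (b1 : E → V)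
    (hb1 : ∀ g ∈ A1, ∀ h ∈ A1, b1 (g * h) = b1 g * g • b1 h)
    (m : V) (hrel : RelOn A1 b1 e m) {y : E} (hy : y ∈ A1) :
    RelOn A1 b1 (e * y) (m * e • b1 y) := by
  intro x hx
  have hx2 : y * x * y⁻¹ ∈ A1 := A1.mul_mem (A1.mul_mem hy hx) (A1.inv_mem hy)
  have e1 : e * y * x * (e * y)⁻¹ = e * (y * x * y⁻¹) * e⁻¹ := by group
  have e2 : e * (y * x * y⁻¹) * e⁻¹ * e = e * (y * x * y⁻¹) := by group
  have e3 : y * x * y⁻¹ * y = y * x := by group
  have h1 := hrel _ hx2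
  have h2 := hb1 _ hx2 y hy
  have h3 := hb1 y hy x hx
  rw [e1, smul_mul', ← mul_assoc, h1, smul_smul, e2, mul_smul e, mul_assoc, ← smul_mul', ← h2, e3,
    h3, smul_mul', ← mul_assoc, mul_smul]

/- PROOF: (t * s y)^k = t^k * s u and (e y)^k = e^k u with the same u ∈ A1 (induction on k). -/
theorem obst_change {E V : Type} [Group E] [CommGroup V] [MulDistribMulAction E V]
    {n : ℕ} {A A1 : Subgroup E} {e : E} (hS : Step n A A1 e) (b1 : E → V)
    (hb1 : ∀ g ∈ A1, ∀ h ∈ A1, b1 (g * h) = b1 g * g • b1 h)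
    (m : V) (hrel : RelOn A1 b1 e m) {y : E} (hy : y ∈ A1) :
    b1 ((e * y) ^ n) / ∏ i ∈ Finset.range n, (e * y) ^ i • (m * e • b1 y) =
      b1 (e ^ n) / ∏ i ∈ Finset.range n, e ^ i • m := by
  have key : ∀ k : ℕ, ∃ u ∈ A1, (e * y) ^ k = e ^ k * u ∧
      ∏ i ∈ Finset.range k, (e * y) ^ i • (m * e • b1 y) =
        (∏ i ∈ Finset.range k, e ^ i • m) * e ^ k • b1 u := by
    intro k
    induction k with
    | zero => exact ⟨1, A1.one_mem, by simp, by simp [E03_one b1 hb1]⟩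
    | succ k ih =>
      obtain ⟨u, hu, h1, h2⟩ := ih
      have hu1 := E03_conj' hS hu
      refine ⟨e⁻¹ * u * e * y, A1.mul_mem hu1 hy, ?_, ?_⟩
      · rw [pow_succ, h1, pow_succ]
        group
      · have h3 := hrel _ hu1
        have e1 : e * (e⁻¹ * u * e) * e⁻¹ = u := by group
        have e2 : u * e = e * (e⁻¹ * u * e) := by group
        rw [e1] at h3
        have h4 : b1 u * u • (m * e • b1 y) = m * e • b1 (e⁻¹ * u * e * y) := by
          rw [smul_mul', ← mul_assoc, h3, smul_smul, e2, mul_smul e, mul_assoc, ← smul_mul',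
            ← hb1 _ hu1 y hy]
        rw [Finset.prod_range_succ, h2, h1, Finset.prod_range_succ, mul_smul (e ^ k) u, mul_assoc,
          ← smul_mul', h4, smul_mul', ← mul_assoc, smul_smul, ← pow_succ]
  obtain ⟨u, hu, h1, h2⟩ := key n
  rw [h2, h1, hb1 _ hS.pow u hu, mul_div_mul_right_eq_div]

/-- the power map on elements fixed by `A₁` -/
theorem pow_smul_change {E V : Type} [Group E] [CommGroup V] [MulDistribMulAction E V]
    {n : ℕ} {A A1 : Subgroup E} {e : E} (hS : Step n A A1 e) {y : E} (hy : y ∈ A1) (d : V)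
    (hd : ∀ g ∈ A1, g • d = d) (i : ℕ) : (e * y) ^ i • d = e ^ i • d := by
  obtain ⟨u, hu, h⟩ := E03_pow hS hy i
  rw [h, mul_smul, hd u hu]

end Pool.Agent.RG.E
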