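import Mathlib
import Pool.Agent.Lib.RG.EDefs

/-!
PART E, row E05: translates of primes by group elements and approximate idempotents.
-/

set_option autoImplicit false

namespace Pool.Agent.RG.E

open NumberField IsDedekindDomain

variable {M : Type} [Field M] [NumberField M] {E : Type} [Group E] [MulSemiringAction E M]

private theorem E05_int_le {w w' : HeightOneSpectrum (𝓞 M)} (τ : 𝓞 M ≃+* 𝓞 M)
    (h : ∀ (x : 𝓞 M) (n : ℕ), x ∈ w'.asIdeal ^ n → τ x ∈ w.asIdeal ^ n) (x : 𝓞 M) :
    w.intValuation (τ x) ≤ w'.intValuation x := by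
  rcases eq_or_ne x 0 with rfl | hx
  · simp
  rw [HeightOneSpectrum.intValuation_eq_exp_neg_multiplicity w' hx,
    HeightOneSpectrum.intValuation_le_pow_iff_mem]
  apply h
  rw [← HeightOneSpectrum.intValuation_le_pow_iff_mem,
    HeightOneSpectrum.intValuation_eq_exp_neg_multiplicity w' hx]

private theorem E05_val {w w' : HeightOneSpectrum (𝓞 M)} (σ : M ≃+* M) (τ : 𝓞 M ≃+* 𝓞 M)
    (e : ∀ a : 𝓞 M, σ (algebraMap (𝓞 M) M a) = algebraMap (𝓞 M) M (τ a))
    (h : w'.asIdeal = Ideal.comap (τ : 𝓞 M →+* 𝓞 M) w.asIdeal) (x : M) :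
    w'.valuation M x = w.valuation M (σ x) := by
  have hpow : ∀ n : ℕ, w'.asIdeal ^ n = Ideal.comap (τ : 𝓞 M →+* 𝓞 M) (w.asIdeal ^ n) := by
    intro n
    have e1 : ∀ I : Ideal (𝓞 M), Ideal.comap (τ : 𝓞 M →+* 𝓞 M) I
        = Ideal.map (τ.symm : 𝓞 M →+* 𝓞 M) I := by
      intro I
      exact (Ideal.map_symm (I := I) τ).symm
    rw [h, e1, e1, Ideal.map_pow]
  have hint : ∀ x : 𝓞 M, w'.intValuation x = w.intValuation (τ x) := by
    intro x
    apply le_antisymm
    · have := E05_int_le (w := w') (w' := w) τ.symm (by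
        intro y n hy
        rw [hpow n, Ideal.mem_comap]
        simpa using hy) (τ x)
      simpa using this
    · refine E05_int_le τ (fun y n hy => ?_) x
      rw [hpow n, Ideal.mem_comap] at hy
      exact hy
  obtain ⟨a, b, hb, rfl⟩ := IsFractionRing.div_surjective (A := 𝓞 M) x
  rw [map_div₀, map_div₀, map_div₀]
  rw [e, e, HeightOneSpectrum.valuation_of_algebraMap, HeightOneSpectrum.valuation_of_algebraMap,
    HeightOneSpectrum.valuation_of_algebraMap, HeightOneSpectrum.valuation_of_algebraMap, hint,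
    hint]

private theorem E05_coe (g : E) (a : 𝓞 M) :
    MulSemiringAction.toRingEquiv E M g (algebraMap (𝓞 M) M a) =
      algebraMap (𝓞 M) M (RingOfIntegers.mapRingEquiv (MulSemiringAction.toRingEquiv E M g) a) :=
  rfl

/- PROOF: comap of the ideal under the ring automorphism of 𝓞 M induced by g (compare
Pool.Agent.RG.H.exists_translate in team-store rg_H02.lean and G03). -/
/-- translate of a prime by a group element -/
theorem exists_translate (w : HeightOneSpectrum (𝓞 M)) (g : E) :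
    ∃ v : HeightOneSpectrum (𝓞 M), ∀ x : M, v.valuation M x = w.valuation M (g • x) := by
  set σ : M ≃+* M := MulSemiringAction.toRingEquiv E M g with hσ
  set τ : 𝓞 M ≃+* 𝓞 M := RingOfIntegers.mapRingEquiv σ with hτ
  have hpr : (Ideal.comap (τ : 𝓞 M →+* 𝓞 M) w.asIdeal).IsPrime := by
    have := w.isPrime
    exact Ideal.comap_isPrime _ _
  have hne : Ideal.comap (τ : 𝓞 M →+* 𝓞 M) w.asIdeal ≠ ⊥ := by
    intro h
    apply w.ne_bot
    rw [eq_bot_iff]
    intro x hx
    have h1 : τ.symm x ∈ Ideal.comap (τ : 𝓞 M →+* 𝓞 M) w.asIdeal := by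
      rw [Ideal.mem_comap]
      simpa using hx
    rw [h, Ideal.mem_bot] at h1
    rw [Ideal.mem_bot]
    simpa using congrArg τ h1
  refine ⟨⟨Ideal.comap (τ : 𝓞 M →+* 𝓞 M) w.asIdeal, hpr, hne⟩, fun x => ?_⟩
  exact E05_val σ τ (fun a => E05_coe g a) rfl x

/-- two primes with the same valuation ideal on integers have the same valuation -/
theorem val_eq_of_lt {v w : HeightOneSpectrum (𝓞 M)}
    (h : ∀ x : 𝓞 M, v.valuation M (x : M) < 1 → w.valuation M (x : M) < 1) : v = w := by
  apply HeightOneSpectrum.ext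
  refine v.isMaximal.eq_of_le w.isPrime.ne_top fun x hx => ?_
  exact (HeightOneSpectrum.valuation_lt_one_iff_mem (K := M) w x).1
    (h x ((HeightOneSpectrum.valuation_lt_one_iff_mem (K := M) v x).2 hx))

/-- chinese remainder theorem: approximate idempotent -/
theorem exists_eps (w : HeightOneSpectrum (𝓞 M)) (T : Set (HeightOneSpectrum (𝓞 M)))
    (hT : T.Finite) (hw : w ∉ T) :
    ∃ ε : 𝓞 M, w.valuation M ((ε : M) - 1) < 1 ∧ ∀ v ∈ T, v.valuation M (ε : M) < 1 := by
  have hcop : IsCoprime w.asIdeal (∏ v ∈ hT.toFinset, v.asIdeal) := by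
    refine IsCoprime.prod_right fun v hv => ?_
    rw [Ideal.isCoprime_iff_sup_eq]
    refine w.isMaximal.coprime_of_ne v.isMaximal fun h => hw ?_
    rw [HeightOneSpectrum.ext h]
    exact hT.mem_toFinset.1 hv
  obtain ⟨i, hi, j, hj, hij⟩ := Ideal.isCoprime_iff_exists.1 hcop
  refine ⟨j, ?_, fun v hv => ?_⟩
  · have h1 : ((j : 𝓞 M) : M) - 1 = ((-i : 𝓞 M) : M) := by
      have h2 : (j : 𝓞 M) - 1 = -i := by rw [← hij]; ring
      rw [← h2]
      simp
    rw [h1]
    exact (HeightOneSpectrum.valuation_lt_one_iff_mem (K := M) w _).2 (neg_mem hi)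
  · refine (HeightOneSpectrum.valuation_lt_one_iff_mem (K := M) v _).2 ?_
    exact Ideal.le_of_dvd (Finset.dvd_prod_of_mem _ (hT.mem_toFinset.2 hv)) hj

/- PROOF: exists_eps for T = the set of translates of w by E different from w. -/
theorem exists_eps_act [Finite E] (w : HeightOneSpectrum (𝓞 M)) :
    ∃ ε : M, w.valuation M (ε - 1) < 1 ∧ (∀ g : E, w.valuation M (g • ε) ≤ 1) ∧
      ∀ g : E, ¬ IsDec w g → w.valuation M (g • ε) < 1 := by
  choose tr htr using fun g : E => exists_translate w g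
  obtain ⟨ε, h1, h2⟩ := exists_eps w (Set.range tr \ {w}) ((Set.finite_range tr).sdiff)
    (fun h => h.2 rfl)
  refine ⟨(ε : M), h1, fun g => ?_, fun g hg => ?_⟩
  · rw [← htr]
    exact HeightOneSpectrum.valuation_le_one _ _
  · rw [← htr]
    refine h2 _ ⟨⟨g, rfl⟩, fun h => hg fun x => ?_⟩
    have h3 : tr g = w := h
    rw [← htr, h3]

/- PROOF: otherwise the translates w_h (x ↦ w (h x)), h ∈ A1, are all different from v, so by CRT
there is y ∈ 𝓞 M with v y < 1 and w (h • y) = 1 for all h ∈ A1 (exists_eps for v and T = {w_h},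
y = 1 - ε); N = ∏ h ∈ A1, h • y is fixed by A1, v N < 1 and w N = 1: contradiction. -/
/-- `A₁` is transitive on the primes with the same restriction to the fixed field of `A₁` -/
theorem conj_sub [Finite E] (A1 : Subgroup E) (v w : HeightOneSpectrum (𝓞 M))
    (h : ∀ y : M, (∀ g ∈ A1, g • y = y) → v.valuation M y < 1 → w.valuation M y < 1) :
    ∃ g ∈ A1, ∀ x : M, v.valuation M x = w.valuation M (g • x) := by
  classical
  by_contra hcon
  have hcon' : ∀ g ∈ A1, ¬ ∀ x : M, v.valuation M x = w.valuation M (g • x) :=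
    fun g hg h1 => hcon ⟨g, hg, h1⟩
  choose tr htr using fun g : E => exists_translate w g
  obtain ⟨ε, h1, h2⟩ := exists_eps v (tr '' (A1 : Set E)) ((Set.toFinite _).image tr) (by
    rintro ⟨g, hg, hgv⟩
    exact hcon' g hg fun x => by rw [← htr, hgv])
  have hfin : Fintype A1 := Fintype.ofFinite A1
  set y : M := 1 - (ε : M) with hy
  have hvy : v.valuation M y < 1 := by
    have h3 : y = -((ε : M) - 1) := by rw [hy]; ring
    rw [h3, Valuation.map_neg]
    exact h1
  have hint : ∀ g : E, ∀ u : HeightOneSpectrum (𝓞 M), u.valuation M (g • y) ≤ 1 := by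
    intro g u
    have h3 : g • y = algebraMap (𝓞 M) M
        (RingOfIntegers.mapRingEquiv (MulSemiringAction.toRingEquiv E M g) (1 - ε)) := by
      rw [← E05_coe, hy, map_sub (algebraMap (𝓞 M) M), map_one]
      rfl
    rw [h3]
    exact HeightOneSpectrum.valuation_le_one _ _
  have hwy : ∀ g ∈ A1, w.valuation M (g • y) = 1 := by
    intro g hg
    rw [← htr, hy, sub_eq_add_neg]
    have h4 : (tr g).valuation M (-(ε : M)) < 1 := by
      rw [Valuation.map_neg]
      exact h2 _ ⟨g, hg, rfl⟩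
    exact ((tr g).valuation M).map_one_add_of_lt h4
  have hN := h (∏ g : A1, (g : E) • y) ?_ ?_
  · rw [map_prod, Finset.prod_congr rfl fun (g : A1) _ => hwy g.1 g.2, Finset.prod_const_one] at hN
    exact lt_irrefl _ hN
  · intro g hg
    rw [Finset.smul_prod']
    refine Fintype.prod_equiv (Equiv.mulLeft (⟨g, hg⟩ : A1)) _ _ fun x => ?_
    rw [smul_smul]
    rfl
  · rw [map_prod, ← Finset.mul_prod_erase Finset.univ _ (Finset.mem_univ (1 : A1))]
    have ha : v.valuation M (((1 : A1) : E) • y) < 1 := by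
      rw [OneMemClass.coe_one, one_smul]
      exact hvy
    have hb : ∏ g ∈ Finset.univ.erase (1 : A1), v.valuation M ((g : E) • y) ≤ 1 :=
      Finset.prod_le_one' fun g _ => hint g v
    exact (mul_le_of_le_one_right' hb).trans_lt ha

end Pool.Agent.RG.E
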