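import Mathlib
import Pool.Agent.Lib.RG.E05

/-!
PART E, row E06: if the inert elements of `A` at `w` act trivially, then the fixed field of `A`
has the full value group at `w`.
-/

set_option autoImplicit false

namespace Pool.Agent.RG.E

open NumberField IsDedekindDomain

variable {M : Type} [Field M] [NumberField M]

namespace E06

variable (w : HeightOneSpectrum (𝓞 M))

/-- the residue field -/
abbrev kf : Type := IsLocalRing.ResidueField (w.valuation M).valuationSubring

open Classical in
/-- the residue of an element of valuation at most one, zero otherwise -/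
noncomputable def rr (x : M) : kf w :=
  if h : w.valuation M x ≤ 1 then
    IsLocalRing.residue (w.valuation M).valuationSubring ⟨x, h⟩ else 0

theorem rr_of_le {x : M} (h : w.valuation M x ≤ 1) :
    rr w x = IsLocalRing.residue (w.valuation M).valuationSubring ⟨x, h⟩ := dif_pos h

theorem rr_mul {x y : M} (hx : w.valuation M x ≤ 1) (hy : w.valuation M y ≤ 1) :
    rr w (x * y) = rr w x * rr w y := by
  have hxy : w.valuation M (x * y) ≤ 1 := by
    rw [map_mul]
    exact mul_le_one' hx hy
  rw [rr_of_le w hx, rr_of_le w hy, rr_of_le w hxy, ← map_mul]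
  rfl

theorem rr_add {x y : M} (hx : w.valuation M x ≤ 1) (hy : w.valuation M y ≤ 1) :
    rr w (x + y) = rr w x + rr w y := by
  have hxy : w.valuation M (x + y) ≤ 1 :=
    (Valuation.map_add _ _ _).trans (max_le hx hy)
  rw [rr_of_le w hx, rr_of_le w hy, rr_of_le w hxy, ← map_add]
  rfl

theorem rr_one : rr w 1 = 1 := by
  have h1 : w.valuation M 1 ≤ 1 := by rw [map_one]
  rw [rr_of_le w h1]
  exact map_one _

theorem rr_zero : rr w 0 = 0 := by
  have h1 : w.valuation M 0 ≤ 1 := by
    rw [map_zero]
    exact zero_le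
  rw [rr_of_le w h1]
  exact map_zero _

theorem rr_eq_zero {x : M} (hx : w.valuation M x ≤ 1) :
    rr w x = 0 ↔ w.valuation M x < 1 := by
  rw [rr_of_le w hx, IsLocalRing.residue_eq_zero_iff, IsLocalRing.mem_maximalIdeal,
    mem_nonunits_iff]
  have key := (Valuation.integer.integers (w.valuation M)).isUnit_iff_valuation_eq_one
    (x := (⟨x, hx⟩ : (w.valuation M).integer))
  exact (not_congr key).trans ⟨fun h => lt_of_le_of_ne hx h, fun h => ne_of_lt h⟩

theorem rr_sum {ι : Type} (s : Finset ι) (f : ι → M) (hf : ∀ i ∈ s, w.valuation M (f i) ≤ 1) :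
    rr w (∑ i ∈ s, f i) = ∑ i ∈ s, rr w (f i) ∧ w.valuation M (∑ i ∈ s, f i) ≤ 1 := by
  classical
  induction s using Finset.induction_on with
  | empty =>
    rw [Finset.sum_empty, Finset.sum_empty, rr_zero, map_zero]
    exact ⟨rfl, zero_le⟩
  | insert a s ha ih =>
    have h1 := ih (fun i hi => hf i (Finset.mem_insert_of_mem hi))
    have h2 := hf a (Finset.mem_insert_self a s)
    rw [Finset.sum_insert ha, Finset.sum_insert ha, rr_add w h2 h1.2, h1.1]
    exact ⟨rfl, (Valuation.map_add _ _ _).trans (max_le h2 h1.2)⟩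

/-- the group of elements of valuation one -/
def UU : Subgroup Mˣ where
  carrier := {u | w.valuation M (u : M) = 1}
  one_mem' := by
    change w.valuation M ((1 : Mˣ) : M) = 1
    rw [Units.val_one, map_one]
  mul_mem' := by
    intro a b ha hb
    change w.valuation M ((a * b : Mˣ) : M) = 1
    have ha' : w.valuation M (a : M) = 1 := ha
    have hb' : w.valuation M (b : M) = 1 := hb
    rw [Units.val_mul, map_mul, ha', hb', mul_one]
  inv_mem' := by
    intro a ha
    change w.valuation M ((a⁻¹ : Mˣ) : M) = 1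
    have ha' : w.valuation M (a : M) = 1 := ha
    rw [Units.val_inv_eq_inv_val, map_inv₀, ha', inv_one]

theorem val_UU (u : UU w) : w.valuation M ((u : Mˣ) : M) = 1 := u.2

variable {G : Type} [Group G] [MulSemiringAction G M]

/-- the residue characters -/
noncomputable def chi (g : {g : G // IsDec w g}) : UU w →* kf w where
  toFun u := rr w ((g : G) • ((u : Mˣ) : M))
  map_one' := by
    change rr w ((g : G) • (((1 : UU w) : Mˣ) : M)) = 1
    rw [Subgroup.coe_one, Units.val_one, smul_one, rr_one]
  map_mul' := by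
    intro a b
    change rr w ((g : G) • (((a * b : UU w) : Mˣ) : M)) = _
    rw [Subgroup.coe_mul, Units.val_mul, smul_mul']
    exact rr_mul w ((g.2 _).trans (val_UU w a)).le ((g.2 _).trans (val_UU w b)).le

theorem chi_apply (g : {g : G // IsDec w g}) (u : UU w) :
    chi w g u = rr w ((g : G) • ((u : Mˣ) : M)) := rfl

theorem isDec_mul {g h : G} (hg : IsDec w g) (hh : IsDec w h) : IsDec w (g * h) := by
  intro x
  rw [mul_smul, hg, hh]

theorem isDec_inv {g : G} (hg : IsDec w g) : IsDec w g⁻¹ := by
  intro x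
  have h := hg (g⁻¹ • x)
  rw [smul_inv_smul] at h
  exact h.symm

theorem chi_injective (hw : ∀ g : G, IsInert w g → g = 1) :
    Function.Injective (chi w : {g : G // IsDec w g} → UU w →* kf w) := by
  intro g h hgh
  have hi : IsInert w ((h : G)⁻¹ * (g : G)) := by
    refine ⟨isDec_mul w (isDec_inv w h.2) g.2, fun x hx => ?_⟩
    rcases lt_or_eq_of_le hx with hlt | heq
    · refine Valuation.map_sub_lt _ ?_ hlt
      rw [isDec_mul w (isDec_inv w h.2) g.2]
      exact hlt
    · have hx0 : x ≠ 0 := by
        intro h0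
        rw [h0, map_zero] at heq
        exact zero_ne_one heq
      have e1 : chi w g ⟨Units.mk0 x hx0, heq⟩ = chi w h ⟨Units.mk0 x hx0, heq⟩ := by rw [hgh]
      rw [chi_apply, chi_apply] at e1
      change rr w ((g : G) • x) = rr w ((h : G) • x) at e1
      have hgx : w.valuation M ((g : G) • x) ≤ 1 := (g.2 x).trans_le hx
      have hhx : w.valuation M ((h : G) • x) ≤ 1 := (h.2 x).trans_le hx
      have hd : w.valuation M ((g : G) • x - (h : G) • x) ≤ 1 :=
        (Valuation.map_sub _ _ _).trans (max_le hgx hhx)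
      have e2 : rr w ((g : G) • x) = rr w ((g : G) • x - (h : G) • x) + rr w ((h : G) • x) := by
        rw [← rr_add w hd hhx, sub_add_cancel]
      have e3 : rr w ((g : G) • x - (h : G) • x) = 0 := by
        rw [e1] at e2
        exact left_eq_add.1 (by rw [add_comm] at e2; exact e2)
      rw [rr_eq_zero w hd] at e3
      have e4 : ((h : G)⁻¹ * (g : G)) • x - x = (h : G)⁻¹ • ((g : G) • x - (h : G) • x) := by
        rw [smul_sub, inv_smul_smul, mul_smul]
      rw [e4, isDec_inv w h.2]
      exact e3
  have h1 := hw _ hi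
  apply Subtype.ext
  exact (inv_mul_eq_one.1 h1).symm

/-- a unit on which the weighted sum over the decomposition group is large -/
theorem exists_unit [Finite G] (hw : ∀ g : G, IsInert w g → g = 1) (y : Mˣ) :
    ∃ a : Mˣ, w.valuation M (a : M) = 1 ∧ ∀ s : Finset G, (∀ g, g ∈ s ↔ IsDec w g) →
      w.valuation M (∑ g ∈ s, g • ((a : M) * y)) = w.valuation M (y : M) := by
  classical
  have _ : Fintype {g : G // IsDec w g} := Fintype.ofFinite _
  have hy0 : (y : M) ≠ 0 := y.ne_zero
  have hvy : w.valuation M (y : M) ≠ 0 := ((w.valuation M).ne_zero_iff).2 hy0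
  let c : {g : G // IsDec w g} → kf w := fun g => rr w (((g : G) • (y : M)) / y)
  have hcv : ∀ g : {g : G // IsDec w g}, w.valuation M (((g : G) • (y : M)) / y) = 1 := by
    intro g
    rw [map_div₀, g.2, div_self hvy]
  have hli := (linearIndependent_monoidHom (UU w) (kf w)).comp _ (chi_injective w hw)
  have hne : ∃ a : UU w, ∑ g : {g : G // IsDec w g}, c g * chi w g a ≠ 0 := by
    by_contra hcon
    push Not at hcon
    have h1 := Fintype.linearIndependent_iff.1 hli c (by
      funext a
      rw [Finset.sum_apply]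
      exact hcon a) ⟨1, fun x => by rw [one_smul]⟩
    change rr w (((1 : G) • (y : M)) / y) = 0 at h1
    rw [one_smul, div_self hy0, rr_one] at h1
    exact one_ne_zero h1
  obtain ⟨a, ha⟩ := hne
  refine ⟨a, val_UU w a, fun s hs => ?_⟩
  have hav := val_UU w a
  have h3 : ∀ g : {g : G // IsDec w g},
      c g * chi w g a = rr w (((g : G) • (y : M)) / y * ((g : G) • ((a : Mˣ) : M))) := by
    intro g
    rw [rr_mul w (hcv g).le ((g.2 _).trans hav).le]
    rfl
  have h4 := rr_sum w Finset.univ
    (fun g : {g : G // IsDec w g} => ((g : G) • (y : M)) / y * ((g : G) • ((a : Mˣ) : M)))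
    (fun g _ => by
      rw [map_mul, hcv g, one_mul, g.2]
      exact hav.le)
  rw [Finset.sum_congr rfl (fun g _ => h3 g), ← h4.1, Ne, rr_eq_zero w h4.2, not_lt] at ha
  have h5 := le_antisymm h4.2 ha
  have h6 : ∑ g ∈ s, g • (((a : Mˣ) : M) * y) = (y : M) *
      ∑ g : {g : G // IsDec w g}, ((g : G) • (y : M)) / y * ((g : G) • ((a : Mˣ) : M)) := by
    rw [Finset.mul_sum]
    rw [← Finset.sum_subtype s hs (fun g => (y : M) * ((g • (y : M)) / y * (g • ((a : Mˣ) : M))))]
    refine Finset.sum_congr rfl fun g _ => ?_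
    rw [smul_mul']
    field_simp
  rw [h6, map_mul, h5, mul_one]

theorem exists_pow_small {ι : Type} (s : Finset ι)
    (A B : ι → WithZero (Multiplicative ℤ)) (hB : ∀ i ∈ s, B i < 1)
    {C : WithZero (Multiplicative ℤ)} (hC : C ≠ 0) :
    ∃ N : ℕ, ∀ i ∈ s, A i * B i ^ N < C := by
  classical
  have h1 : ∀ i ∈ s, ∃ N : ℕ, A i * B i ^ N < C := by
    intro i hi
    by_cases hA : A i = 0
    · exact ⟨0, by rw [hA, zero_mul]; exact zero_lt_iff.2 hC⟩
    · obtain ⟨n, hn⟩ := exists_pow_lt₀ (hB i hi) (Units.mk0 (C / A i) (div_ne_zero hC hA))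
      refine ⟨n, ?_⟩
      rw [Units.val_mk0, lt_div_iff₀ (zero_lt_iff.2 hA)] at hn
      rwa [mul_comm]
  choose! N hN using h1
  refine ⟨s.sup N, fun i hi => lt_of_le_of_lt ?_ (hN i hi)⟩
  exact mul_le_mul' le_rfl (pow_le_pow_right_of_le_one' (hB i hi).le (Finset.le_sup hi))

end E06

/- PROOF. Let k = residue field of the valuation subring of w (a field; r : {w ≤ 1} → k), U = the
subgroup of Mˣ of elements of valuation 1. For g ∈ G with IsDec w g: χ_g : U →* k, a ↦ r (g • a).
χ_g = χ_h implies h⁻¹ g inert, so g = h. Dedekind independence (linearIndependent_monoidHom U k):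
the constants c_g = r ((g • y) / y) are not zero, so there is a ∈ U with ∑_{g dec} c_g χ_g(a) ≠ 0,
i.e. w (∑_{g dec} g • (a y)) = w y. With ε of exists_eps_act and N large,
x := ∑ g : G, g • (a * y * ε ^ N) has w (x - ∑_{g dec} g • (a y)) < w y. -/
/-- the case of a faithful action -/
theorem exists_fixed_val_faithful {G : Type} [Group G] [MulSemiringAction G M] [Finite G]
    (w : HeightOneSpectrum (𝓞 M)) (hw : ∀ g : G, IsInert w g → g = 1) (y : Mˣ) :
    ∃ x : Mˣ, (∀ g : G, g • (x : M) = x) ∧ w.valuation M (x : M) = w.valuation M (y : M) := by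
  classical
  have _ : Fintype G := Fintype.ofFinite G
  have hy0 : (y : M) ≠ 0 := y.ne_zero
  have hvy : w.valuation M (y : M) ≠ 0 := ((w.valuation M).ne_zero_iff).2 hy0
  obtain ⟨a, ha1, ha2⟩ := E06.exists_unit w hw y
  obtain ⟨ε, he1, he2, he3⟩ := exists_eps_act (E := G) w
  set s : Finset G := Finset.univ.filter (fun g => IsDec w g) with hs
  have hsm : ∀ g, g ∈ s ↔ IsDec w g := fun g => by
    rw [hs, Finset.mem_filter]
    exact and_iff_right (Finset.mem_univ g)
  have hS := ha2 s hsm
  obtain ⟨N, hN⟩ := E06.exists_pow_small (Finset.univ.filter (fun g : G => ¬ IsDec w g))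
    (fun g => w.valuation M (g • ((a : M) * y))) (fun g => w.valuation M (g • ε))
    (fun g hg => he3 g (Finset.mem_filter.1 hg).2) hvy
  set x : M := ∑ g : G, g • ((a : M) * y * ε ^ N) with hx
  have hεv : w.valuation M ε = 1 := by
    have h := Valuation.map_one_add_of_lt (v := w.valuation M) he1
    rwa [add_sub_cancel] at h
  have hεN : w.valuation M (ε ^ N - 1) < 1 := by
    rw [← geom_sum_mul, map_mul]
    refine lt_of_le_of_lt ((mul_le_mul' ?_ le_rfl).trans_eq (one_mul _)) he1
    refine Valuation.map_sum_le _ fun i _ => ?_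
    rw [map_pow, hεv, one_pow]
  have hdiff : w.valuation M (x - ∑ g ∈ s, g • ((a : M) * y)) < w.valuation M (y : M) := by
    have e1 : x - ∑ g ∈ s, g • ((a : M) * y) =
        ∑ g ∈ s, g • ((a : M) * y) * g • (ε ^ N - 1) +
          ∑ g ∈ Finset.univ.filter (fun g : G => ¬ IsDec w g),
            g • ((a : M) * y) * (g • ε) ^ N := by
      rw [hx, ← Finset.sum_filter_add_sum_filter_not Finset.univ (fun g => IsDec w g), ← hs,
        add_sub_right_comm, ← Finset.sum_sub_distrib]
      congr 1
      · refine Finset.sum_congr rfl fun g _ => ?_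
        rw [smul_sub, smul_one, smul_mul' g _ (ε ^ N)]
        ring
      · refine Finset.sum_congr rfl fun g _ => ?_
        rw [smul_mul' g _ (ε ^ N), smul_pow']
    rw [e1]
    refine Valuation.map_add_lt _ ?_ ?_
    · refine Valuation.map_sum_lt _ hvy fun g hg => ?_
      have hgd := (hsm g).1 hg
      rw [map_mul, hgd, hgd, map_mul, ha1, one_mul]
      calc w.valuation M (y : M) * w.valuation M (ε ^ N - 1)
          < w.valuation M (y : M) * 1 := by
            exact (mul_lt_mul_iff_right₀ (zero_lt_iff.2 hvy)).2 hεN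
        _ = _ := mul_one _
    · refine Valuation.map_sum_lt _ hvy fun g hg => ?_
      rw [map_mul, map_pow]
      exact hN g hg
  have hxv : w.valuation M x = w.valuation M (y : M) := by
    have e1 : x = (∑ g ∈ s, g • ((a : M) * y)) + (x - ∑ g ∈ s, g • ((a : M) * y)) := by ring
    rw [e1, Valuation.map_add_eq_of_lt_left _ (by rw [hS]; exact hdiff), hS]
  have hx0 : x ≠ 0 := by
    intro h0
    rw [h0, map_zero] at hxv
    exact hvy hxv.symm
  refine ⟨Units.mk0 x hx0, fun g => ?_, hxv⟩
  rw [Units.val_mk0, hx, Finset.smul_sum]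
  refine Fintype.sum_equiv (Equiv.mulLeft g) _ _ fun h => ?_
  rw [Equiv.coe_mulLeft, mul_smul]

/- PROOF. Apply exists_fixed_val_faithful to the image of A in M ≃+* M (RingAut M acts on M by
RingAut.applyMulSemiringAction; Subgroup.map (MulSemiringAction.toRingAut E M) A). -/
theorem exists_fixed_val {E : Type} [Group E] [MulSemiringAction E M] [Finite E] (A : Subgroup E)
    (w : HeightOneSpectrum (𝓞 M)) (hw : ∀ g ∈ A, IsInert w g → ∀ x : M, g • x = x) (y : Mˣ) :
    ∃ x : Mˣ, (∀ g ∈ A, g • x = x) ∧ w.valuation M (x : M) = w.valuation M (y : M) := by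
  have _ : Finite (Subgroup.map (MulSemiringAction.toRingAut E M) A) := by
    have h1 : (Subgroup.map (MulSemiringAction.toRingAut E M) A : Set (RingAut M)).Finite := by
      rw [Subgroup.coe_map]
      exact (Set.toFinite _).image _
    exact h1.to_subtype
  obtain ⟨x, hx1, hx2⟩ := exists_fixed_val_faithful
    (G := Subgroup.map (MulSemiringAction.toRingAut E M) A) w (by
      rintro ⟨g, hg⟩ hi
      obtain ⟨a, haA, rfl⟩ := hg
      have h1 := hw a haA ⟨fun x => hi.1 x, fun x hx => hi.2 x hx⟩
      apply Subtype.ext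
      apply RingEquiv.ext
      intro x
      exact h1 x) y
  refine ⟨x, fun g hg => ?_, hx2⟩
  apply Units.ext
  rw [coe_act]
  exact hx1 ⟨MulSemiringAction.toRingAut E M g, Subgroup.mem_map_of_mem _ hg⟩

end Pool.Agent.RG.E
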