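import Mathlib
import Pool.Agent.Lib.RG.EDefs

/-!
PART E, row E07: tame lemma and Hilbert 90 modulo `U1 w`.
-/

set_option autoImplicit false

namespace Pool.Agent.RG.E

open NumberField IsDedekindDomain

variable {M : Type} [Field M] [NumberField M] {E : Type} [Group E] [MulSemiringAction E M]

/-- powers of `p` are units outside `p` -/
theorem val_pow_eq_one {p : ℕ} {w : HeightOneSpectrum (𝓞 M)} (hw : ¬ Above w p) (n : ℕ) :
    w.valuation M ((p ^ n : ℕ) : M) = 1 := by
  have hle : ∀ m : ℕ, w.valuation M ((m : ℕ) : M) ≤ 1 := by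
    intro m
    have h := w.valuation_le_one (K := M) (m : 𝓞 M)
    have e : algebraMap (𝓞 M) M (m : 𝓞 M) = (m : M) := map_natCast (algebraMap (𝓞 M) M) m
    rw [← e]
    exact h
  have h1 : w.valuation M ((p : ℕ) : M) = 1 := by
    apply le_antisymm (hle p)
    by_contra hlt
    exact hw (not_le.mp hlt)
  rw [Nat.cast_pow, map_pow, h1, one_pow]

/- PROOF. Let z = h • x - x and suppose z ≠ 0. By hh (and induction) w (h ^ i • z - z) < w z. With
n = orderOf h = p ^ k: ∑ i < n, h ^ i • z = h ^ n • x - x = 0, but it is n z + (smaller than w z),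
and w n = 1: contradiction. -/
theorem tame_trivial {p : ℕ} [Fact p.Prime] [Finite E] (hpg : IsPGroup p E)
    (w : HeightOneSpectrum (𝓞 M)) (hw : ¬ Above w p) (h : E)
    (hh : ∀ x : M, x ≠ 0 → w.valuation M (h • x - x) < w.valuation M x) (x : M) : h • x = x := by
  have hdec : ∀ y : M, w.valuation M (h • y) = w.valuation M y := by
    intro y
    rcases eq_or_ne y 0 with rfl | hy
    · rw [smul_zero]
    · have e : h • y = y + (h • y - y) := by ring
      rw [e]
      exact Valuation.map_add_eq_of_lt_left _ (hh y hy)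
  have hdec' : ∀ (i : ℕ) (y : M), w.valuation M (h ^ i • y) = w.valuation M y := by
    intro i
    induction i with
    | zero => intro y; rw [pow_zero, one_smul]
    | succ i ih => intro y; rw [pow_succ, mul_smul, ih, hdec]
  by_contra hne
  obtain ⟨z, hz⟩ : ∃ z : M, z = h • x - x := ⟨_, rfl⟩
  have hz0 : z ≠ 0 := by rw [hz]; exact sub_ne_zero.mpr hne
  have hvz : w.valuation M z ≠ 0 := (Valuation.ne_zero_iff _).mpr hz0
  have hi : ∀ i : ℕ, w.valuation M (h ^ i • z - z) < w.valuation M z := by
    intro i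
    induction i with
    | zero =>
      rw [pow_zero, one_smul, sub_self, map_zero]
      exact zero_lt_iff.mpr hvz
    | succ i ih =>
      have e : h ^ (i + 1) • z - z = h ^ i • (h • z - z) + (h ^ i • z - z) := by
        rw [pow_succ, mul_smul, smul_sub]; ring
      rw [e]
      refine (Valuation.map_add _ _ _).trans_lt (max_lt ?_ ih)
      rw [hdec']
      exact hh z hz0
  obtain ⟨k, hk⟩ := (IsPGroup.iff_orderOf.mp hpg) h
  have hsum : ∑ i ∈ Finset.range (orderOf h), h ^ i • z = 0 := by
    have e : ∀ m : ℕ, ∑ i ∈ Finset.range m, h ^ i • z = h ^ m • x - x := by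
      intro m
      induction m with
      | zero => rw [Finset.sum_range_zero, pow_zero, one_smul, sub_self]
      | succ m ih =>
        rw [Finset.sum_range_succ, ih, hz, smul_sub, pow_succ, mul_smul]; ring
    rw [e, pow_orderOf_eq_one, one_smul, sub_self]
  have hsum2 : ((orderOf h : ℕ) : M) * z = -∑ i ∈ Finset.range (orderOf h), (h ^ i • z - z) := by
    rw [Finset.sum_sub_distrib, hsum, Finset.sum_const, Finset.card_range, nsmul_eq_mul]
    ring
  have h1 : w.valuation M (((orderOf h : ℕ) : M) * z) = w.valuation M z := by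
    rw [map_mul, hk, val_pow_eq_one hw, one_mul]
  have h2 : w.valuation M (-∑ i ∈ Finset.range (orderOf h), (h ^ i • z - z)) < w.valuation M z := by
    rw [Valuation.map_neg]
    exact Valuation.map_sum_lt _ hvz (fun i _ => hi i)
  rw [hsum2] at h1
  exact absurd h1 h2.ne

/-- the residue class of an element of value at most one -/
noncomputable def E07_res (w : HeightOneSpectrum (𝓞 M)) (y : M) (hy : w.valuation M y ≤ 1) :
    IsLocalRing.ResidueField (w.valuation M).valuationSubring :=
  IsLocalRing.residue (w.valuation M).valuationSubring ⟨y, hy⟩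

theorem E07_res_eq_zero (w : HeightOneSpectrum (𝓞 M)) (y : M) (hy : w.valuation M y ≤ 1) :
    E07_res w y hy = 0 ↔ w.valuation M y < 1 := by
  unfold E07_res
  rw [IsLocalRing.residue_eq_zero_iff, Valuation.mem_maximalIdeal_iff]

theorem E07_res_sub (w : HeightOneSpectrum (𝓞 M)) (y z : M) (hy : w.valuation M y ≤ 1)
    (hz : w.valuation M z ≤ 1) (h : E07_res w y hy = E07_res w z hz) :
    w.valuation M (y - z) < 1 := by
  have hyz : w.valuation M (y - z) ≤ 1 := (Valuation.map_sub _ _ _).trans (max_le hy hz)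
  rw [← E07_res_eq_zero w _ hyz]
  have e : E07_res w (y - z) hyz = E07_res w y hy - E07_res w z hz := by
    unfold E07_res
    rw [← map_sub]
    rfl
  rw [e, h, sub_self]

theorem E07_res_sub' (w : HeightOneSpectrum (𝓞 M)) (y z : M) (hy : w.valuation M y ≤ 1)
    (hz : w.valuation M z ≤ 1) (h : w.valuation M (y - z) < 1) :
    E07_res w y hy = E07_res w z hz := by
  have hyz : w.valuation M (y - z) ≤ 1 := h.le
  rw [← E07_res_eq_zero w _ hyz] at h
  have e : E07_res w (y - z) hyz = E07_res w y hy - E07_res w z hz := by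
    unfold E07_res
    rw [← map_sub]
    rfl
  rw [e] at h
  exact sub_eq_zero.mp h

theorem E07_res_one (w : HeightOneSpectrum (𝓞 M)) (h : w.valuation M (1 : M) ≤ 1) :
    E07_res w 1 h = 1 := by
  unfold E07_res
  rw [← map_one (IsLocalRing.residue (w.valuation M).valuationSubring)]
  rfl

theorem E07_res_mul (w : HeightOneSpectrum (𝓞 M)) (y z : M) (hy : w.valuation M y ≤ 1)
    (hz : w.valuation M z ≤ 1) (h : w.valuation M (y * z) ≤ 1) :
    E07_res w (y * z) h = E07_res w y hy * E07_res w z hz := by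
  unfold E07_res
  rw [← map_mul]
  rfl

theorem E07_res_sum (w : HeightOneSpectrum (𝓞 M)) {κ : Type} (s : Finset κ) (y : κ → M)
    (hy : ∀ i, w.valuation M (y i) ≤ 1) (h : w.valuation M (∑ i ∈ s, y i) ≤ 1) :
    E07_res w (∑ i ∈ s, y i) h = ∑ i ∈ s, E07_res w (y i) (hy i) := by
  unfold E07_res
  rw [← map_sum]
  congr 1
  apply Subtype.ext
  simp

theorem E07_quot (w : HeightOneSpectrum (𝓞 M)) {h : E} (hd : IsDec w h) (x : Mˣ) :
    w.valuation M (h • (x : M) / (x : M)) = 1 := by
  rw [map_div₀, hd]
  exact div_self ((Valuation.ne_zero_iff _).mpr x.ne_zero)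

/-- the multiplicative function given by the action -/
noncomputable def E07_th (w : HeightOneSpectrum (𝓞 M)) (h : E) (hd : IsDec w h) :
    Mˣ →* IsLocalRing.ResidueField (w.valuation M).valuationSubring where
  toFun x := E07_res w (h • (x : M) / (x : M)) (E07_quot w hd x).le
  map_one' := by
    have e : h • ((1 : Mˣ) : M) / ((1 : Mˣ) : M) = 1 := by
      rw [Units.val_one, smul_one, div_one]
    rw [← E07_res_one w (by rw [map_one])]
    congr 1
  map_mul' x y := by
    rw [← E07_res_mul w _ _ _ _ (by rw [map_mul, E07_quot w hd, E07_quot w hd, one_mul])]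
    congr 1
    rw [Units.val_mul, smul_mul']
    have hx := x.ne_zero
    have hy := y.ne_zero
    field_simp

theorem E07_exists {p : ℕ} [Fact p.Prime] [Finite E] (hpg : IsPGroup p E)
    (w : HeightOneSpectrum (𝓞 M)) (hw : ¬ Above w p) (D : Subgroup E) (hD : ∀ g ∈ D, IsDec w g)
    [Fintype D] (c : E → Mˣ) (hu : ∀ g ∈ D, w.valuation M (c g : M) = 1)
    (h1 : ∀ g ∈ D, (∀ x : M, g • x = x) → c g ∈ U1 w) :
    ∃ x : Mˣ, w.valuation M (∑ h : D, (c (h : E) : M) * (h : E) • (x : M)) =
      w.valuation M (x : M) := by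
  classical
  by_contra hno
  push Not at hno
  set k := IsLocalRing.ResidueField (w.valuation M).valuationSubring with hk
  let θ : D → (Mˣ →* k) := fun h => E07_th w (h : E) (hD h h.2)
  let cb : D → k := fun h => E07_res w (c (h : E) : M) (hu h h.2).le
  have hzero : ∀ x : Mˣ, ∑ h : D, cb h * θ h x = 0 := by
    intro x
    have hvx : w.valuation M (x : M) ≠ 0 := (Valuation.ne_zero_iff _).mpr x.ne_zero
    have hterm : ∀ h : D, w.valuation M ((c (h : E) : M) * ((h : E) • (x : M) / (x : M))) ≤ 1 := by
      intro h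
      rw [map_mul, hu h h.2, one_mul]
      exact (E07_quot w (hD h h.2) x).le
    have hsum : w.valuation M (∑ h : D, (c (h : E) : M) * ((h : E) • (x : M) / (x : M))) ≤ 1 :=
      Valuation.map_sum_le _ (fun h _ => hterm h)
    have e : ∑ h : D, cb h * θ h x =
        E07_res w (∑ h : D, (c (h : E) : M) * ((h : E) • (x : M) / (x : M))) hsum := by
      rw [E07_res_sum w _ _ hterm]
      refine Finset.sum_congr rfl (fun h _ => ?_)
      exact (E07_res_mul w _ _ (hu h h.2).le (E07_quot w (hD h h.2) x).le (hterm h)).symm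
    rw [e, E07_res_eq_zero]
    have e2 : ∑ h : D, (c (h : E) : M) * ((h : E) • (x : M) / (x : M)) =
        (∑ h : D, (c (h : E) : M) * (h : E) • (x : M)) / (x : M) := by
      rw [Finset.sum_div]
      refine Finset.sum_congr rfl (fun h _ => ?_)
      ring
    refine lt_of_le_of_ne hsum ?_
    intro h2
    rw [e2, map_div₀] at h2
    exact hno x (eq_of_div_eq_one h2)
  have hli := linearIndependent_monoidHom Mˣ k
  have hl : (∑ h : D, Finsupp.single (θ h) (cb h) : (Mˣ →* k) →₀ k) = 0 := by
    rw [linearIndependent_iff] at hli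
    apply hli
    rw [map_sum]
    ext x
    rw [Finset.sum_apply, Pi.zero_apply, ← hzero x]
    refine Finset.sum_congr rfl (fun h _ => ?_)
    rw [Finsupp.linearCombination_single, Pi.smul_apply, smul_eq_mul]
  have hev := DFunLike.congr_fun hl (1 : Mˣ →* k)
  rw [Finsupp.finsetSum_apply, Finsupp.zero_apply] at hev
  -- the elements with trivial character act trivially
  have htriv : ∀ h : D, θ h = 1 → ∀ x : M, (h : E) • x = x := by
    intro h hh x
    refine tame_trivial hpg w hw (h : E) ?_ x
    intro y hy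
    have h3 := DFunLike.congr_fun hh (Units.mk0 y hy)
    have h4 : E07_res w ((h : E) • y / y) (E07_quot w (hD h h.2) (Units.mk0 y hy)).le =
        E07_res w 1 (by rw [map_one]) := by
      rw [E07_res_one]
      exact h3
    have h5 := E07_res_sub w _ _ _ _ h4
    have hvy : w.valuation M y ≠ 0 := (Valuation.ne_zero_iff _).mpr hy
    have e : (h : E) • y - y = ((h : E) • y / y - 1) * y := by
      field_simp
    rw [e, map_mul]
    calc w.valuation M ((h : E) • y / y - 1) * w.valuation M y < 1 * w.valuation M y :=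
          mul_lt_mul_of_pos_right h5 (zero_lt_iff.mpr hvy)
      _ = w.valuation M y := one_mul _
  let K : Subgroup D :=
    { carrier := {h | ∀ x : M, (h : E) • x = x}
      mul_mem' := by
        intro a b ha hb x
        change ((a : E) * (b : E)) • x = x
        rw [mul_smul, hb, ha]
      one_mem' := by
        intro x
        change (1 : E) • x = x
        rw [one_smul]
      inv_mem' := by
        intro a ha x
        change ((a : E)⁻¹) • x = x
        rw [inv_smul_eq_iff, ha] }
  have hKmem : ∀ h : D, h ∈ K ↔ θ h = 1 := by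
    intro h
    constructor
    · intro hh
      ext x
      change E07_res w ((h : E) • (x : M) / (x : M)) _ = 1
      rw [← E07_res_one w (by rw [map_one])]
      congr 1
      rw [hh x]
      exact div_self x.ne_zero
    · intro hh
      exact htriv h hh
  have hcb : ∀ h : D, θ h = 1 → cb h = 1 := by
    intro h hh
    have h3 := h1 (h : E) h.2 (htriv h hh)
    rw [mem_U1] at h3
    rw [← E07_res_one w (by rw [map_one])]
    exact E07_res_sub' w _ _ _ _ h3
  have hcount : ∑ h : D, (Finsupp.single (θ h) (cb h) : (Mˣ →* k) →₀ k) 1 =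
      ((Nat.card K : ℕ) : k) := by
    have e1 : ∀ h : D, (Finsupp.single (θ h) (cb h) : (Mˣ →* k) →₀ k) 1 =
        if h ∈ K then 1 else 0 := by
      intro h
      rw [Finsupp.single_apply]
      by_cases hh : θ h = 1
      · rw [if_pos hh, if_pos ((hKmem h).mpr hh), hcb h hh]
      · rw [if_neg hh, if_neg (fun h' => hh ((hKmem h).mp h'))]
    rw [Finset.sum_congr rfl (fun h _ => e1 h), Finset.sum_boole]
    congr 1
    rw [Nat.card_eq_fintype_card, Fintype.card_subtype]
  rw [hcount] at hev
  have hKp : IsPGroup p K := (hpg.to_subgroup D).to_subgroup K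
  obtain ⟨m, hm⟩ := IsPGroup.iff_card.mp hKp
  rw [hm] at hev
  have hval := val_pow_eq_one (M := M) hw m
  have h9 : E07_res w ((p ^ m : ℕ) : M) hval.le = ((p ^ m : ℕ) : k) := by
    unfold E07_res
    rw [← map_natCast (IsLocalRing.residue (w.valuation M).valuationSubring)]
    rfl
  rw [← h9, E07_res_eq_zero, hval] at hev
  exact lt_irrefl _ hev

/- PROOF. Let k = residue field of the valuation subring of w. For h ∈ D let θ_h : Mˣ →* k,
x ↦ residue of (h • x) / x (multiplicative in x!). If ∑ h ∈ D, c̄(h) θ_h(x) = 0 for all x ∈ Mˣ, then by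
Dedekind independence (linearIndependent_monoidHom Mˣ k, Finsupp ∑ single θ_h c̄(h), evaluated at
θ_1): ∑ over {h ∈ D | θ_h = θ_1} of c̄(h) = 0; θ_h = θ_1 = 1 implies h acts trivially
(tame_trivial), so c̄(h) = 1, and the number of these h is the order of a subgroup of a p-group, a
power of p, not zero in k: contradiction. So there is x ∈ Mˣ such that Y := ∑ h ∈ D, c h * h • x
has w Y = w x. Then w (g • Y - Y / c g) < w x = w Y (hc), so c g ≡ Y / (g • Y); a := Y⁻¹. -/
theorem th90 {p : ℕ} [Fact p.Prime] [Finite E] (hpg : IsPGroup p E)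
    (w : HeightOneSpectrum (𝓞 M)) (hw : ¬ Above w p) (D : Subgroup E) (hD : ∀ g ∈ D, IsDec w g)
    (c : E → Mˣ) (hu : ∀ g ∈ D, w.valuation M (c g : M) = 1)
    (hc : ∀ g ∈ D, ∀ h ∈ D, c (g * h) / (c g * g • c h) ∈ U1 w)
    (h1 : ∀ g ∈ D, (∀ x : M, g • x = x) → c g ∈ U1 w) :
    ∃ a : Mˣ, ∀ h ∈ D, c h / ((h • a) / a) ∈ U1 w := by
  classical
  let _ : Fintype D := Fintype.ofFinite D
  obtain ⟨x, hx⟩ := E07_exists hpg w hw D hD c hu h1
  set Y : M := ∑ h : D, (c (h : E) : M) * (h : E) • (x : M) with hY
  have hvx : w.valuation M (x : M) ≠ 0 := (Valuation.ne_zero_iff _).mpr x.ne_zero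
  have hvY : w.valuation M Y ≠ 0 := by rw [hx]; exact hvx
  have hY0 : Y ≠ 0 := (Valuation.ne_zero_iff _).mp hvY
  refine ⟨(Units.mk0 Y hY0)⁻¹, ?_⟩
  intro g hg
  have hgc : w.valuation M (c g : M) = 1 := hu g hg
  have hre : Y = ∑ h : D, (c (g * (h : E)) : M) * (g * (h : E)) • (x : M) := by
    rw [hY]
    exact (Fintype.sum_equiv (Equiv.mulLeft (⟨g, hg⟩ : D)) _ _ (fun h => rfl)).symm
  have hdiff : g • Y - Y / (c g : M) =
      ∑ h : D, (g • (c (h : E) : M) - (c (g * (h : E)) : M) / (c g : M)) *
        (g * (h : E)) • (x : M) := by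
    have e1 : g • Y = ∑ h : D, (g • (c (h : E) : M)) * (g * (h : E)) • (x : M) := by
      rw [hY, Finset.smul_sum]
      refine Finset.sum_congr rfl (fun h _ => ?_)
      rw [smul_mul', mul_smul]
    have e2 : Y / (c g : M) =
        ∑ h : D, ((c (g * (h : E)) : M) / (c g : M)) * (g * (h : E)) • (x : M) := by
      conv_lhs => rw [hre]
      rw [Finset.sum_div]
      refine Finset.sum_congr rfl (fun h _ => ?_)
      ring
    rw [e1, e2, ← Finset.sum_sub_distrib]
    refine Finset.sum_congr rfl (fun h _ => ?_)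
    ring
  have hlt : w.valuation M (g • Y - Y / (c g : M)) < w.valuation M Y := by
    rw [hdiff, hx]
    refine Valuation.map_sum_lt _ hvx (fun h _ => ?_)
    rw [map_mul, hD _ (D.mul_mem hg h.2)]
    have h3 := hc g hg h h.2
    rw [mem_U1] at h3
    have h4 : g • (c (h : E) : M) - (c (g * (h : E)) : M) / (c g : M) =
        -((g • (c (h : E) : M)) *
          (((c (g * (h : E)) / (c g * g • c (h : E)) : Mˣ) : M) - 1)) := by
      have h5 : g • (c (h : E) : M) ≠ 0 := (g • c (h : E)).ne_zero
      have h6 : (c g : M) ≠ 0 := (c g).ne_zero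
      rw [Units.val_div_eq_div_val, Units.val_mul, coe_act]
      field_simp
      ring
    have h7 : w.valuation M (g • (c (h : E) : M) - (c (g * (h : E)) : M) / (c g : M)) < 1 := by
      rw [h4, Valuation.map_neg, map_mul, hD g hg, hu h h.2, one_mul]
      exact h3
    calc w.valuation M (g • (c (h : E) : M) - (c (g * (h : E)) : M) / (c g : M)) *
          w.valuation M (x : M)
        < 1 * w.valuation M (x : M) := by
          exact mul_lt_mul_of_pos_right h7 (zero_lt_iff.mpr hvx)
      _ = w.valuation M (x : M) := one_mul _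
  rw [mem_U1]
  have h8 : g • Y ≠ 0 := (smul_ne_zero_iff_ne g).mpr hY0
  have h6 : (c g : M) ≠ 0 := (c g).ne_zero
  have e3 : ((c g / ((g • (Units.mk0 Y hY0)⁻¹) / (Units.mk0 Y hY0)⁻¹) : Mˣ) : M) - 1 =
      (c g : M) * (g • Y - Y / (c g : M)) / Y := by
    rw [smul_inv', Units.val_div_eq_div_val, Units.val_div_eq_div_val, Units.val_inv_eq_inv_val,
      Units.val_inv_eq_inv_val, coe_act, Units.val_mk0]
    field_simp
  rw [e3, map_div₀, map_mul, hgc, one_mul]
  exact (div_lt_one₀ (zero_lt_iff.mpr hvY)).mpr hlt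

end Pool.Agent.RG.E
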