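import Mathlib
import Pool.Agent.Lib.RG.E05
import Pool.Agent.Lib.RG.E07

/-!
PART E, row E08: approximation by elements fixed by `A₁`; cocycles modulo `U1 w` are units.
-/

set_option autoImplicit false

namespace Pool.Agent.RG.E

open NumberField IsDedekindDomain

variable {M : Type} [Field M] [NumberField M] {E : Type} [Group E] [MulSemiringAction E M]

private theorem E08_val_ne (w : HeightOneSpectrum (𝓞 M)) (u : Mˣ) : w.valuation M (u : M) ≠ 0 :=
  (Valuation.ne_zero_iff _).2 u.ne_zero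

private theorem E08_div_mem {w : HeightOneSpectrum (𝓞 M)} {u v : Mˣ}
    (h : w.valuation M ((u : M) - v) < w.valuation M (v : M)) : u / v ∈ U1 w := by
  rw [mem_U1]
  have h1 : ((u / v : Mˣ) : M) - 1 = ((u : M) - v) * (v : M)⁻¹ := by
    rw [Units.val_div_eq_div_val, sub_mul, mul_inv_cancel₀ v.ne_zero, div_eq_mul_inv]
  rw [h1, map_mul, map_inv₀]
  have h2 : 0 < w.valuation M (v : M) := zero_lt_iff.2 (E08_val_ne w v)
  rwa [mul_inv_lt_iff₀ h2, one_mul]

private theorem E08_mem_div {w : HeightOneSpectrum (𝓞 M)} {u v : Mˣ} (h : u / v ∈ U1 w) :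
    w.valuation M ((u : M) - v) < w.valuation M (v : M) := by
  rw [mem_U1] at h
  have h1 : (u : M) - v = (((u / v : Mˣ) : M) - 1) * v := by
    rw [Units.val_div_eq_div_val, sub_mul, div_mul_cancel₀ _ v.ne_zero, one_mul]
  rw [h1, map_mul]
  exact mul_lt_of_lt_one_left (zero_lt_iff.2 (E08_val_ne w v)) h

private theorem E08_eps_pow {w : HeightOneSpectrum (𝓞 M)} {ε : M} (h : w.valuation M (ε - 1) < 1)
    (N : ℕ) : w.valuation M (ε ^ N - 1) < 1 := by
  have h1 : w.valuation M ε ≤ 1 := by
    have h2 : ε = (ε - 1) + 1 := by ring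
    rw [h2]
    exact (Valuation.map_add _ _ _).trans (max_le h.le (by rw [map_one]))
  rw [← mul_geom_sum, map_mul]
  have h2 : w.valuation M (∑ i ∈ Finset.range N, ε ^ i) ≤ 1 := by
    refine Valuation.map_sum_le _ fun i _ => ?_
    rw [map_pow]
    exact pow_le_one' h1 i
  exact (mul_le_of_le_one_right' h2).trans_lt h

private theorem E08_exists_N [Finite E] (w : HeightOneSpectrum (𝓞 M)) (x : Mˣ) {ε : M}
    (h2 : ∀ g : E, w.valuation M (g • ε) ≤ 1)
    (h3 : ∀ g : E, ¬ IsDec w g → w.valuation M (g • ε) < 1) :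
    ∃ N : ℕ, ∀ g : E, ¬ IsDec w g →
      w.valuation M (g • ((x : M) * ε ^ N)) < w.valuation M (x : M) := by
  classical
  have hN : ∀ g : E, ∃ N : ℕ, ¬ IsDec w g →
      w.valuation M (g • (x : M)) * w.valuation M (g • ε) ^ N < w.valuation M (x : M) := by
    intro g
    by_cases hg : IsDec w g
    · exact ⟨0, fun h => absurd hg h⟩
    · have hgx : w.valuation M (g • (x : M)) ≠ 0 := E08_val_ne w (g • x)
      obtain ⟨N, hN⟩ := exists_pow_lt₀ (h3 g hg)
        (Units.mk0 (w.valuation M (x : M) * (w.valuation M (g • (x : M)))⁻¹)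
          (mul_ne_zero (E08_val_ne w x) (inv_ne_zero hgx)))
      refine ⟨N, fun _ => ?_⟩
      rw [Units.val_mk0, lt_mul_inv_iff₀ (zero_lt_iff.2 hgx)] at hN
      rwa [mul_comm]
  choose N hN using hN
  haveI := Fintype.ofFinite E
  refine ⟨∑ g, N g, fun g hg => ?_⟩
  rw [smul_mul', smul_pow', map_mul, map_pow]
  refine lt_of_le_of_lt ?_ (hN g hg)
  refine mul_le_mul' le_rfl ?_
  exact pow_le_pow_right_of_le_one' (h2 g) (Finset.single_le_sum (f := N) (fun _ _ => Nat.zero_le _)
    (Finset.mem_univ g))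

/- PROOF. With ε of exists_eps_act and N large, y := (∑ h ∈ A1, h • (x * ε ^ N)) / |A1 ∩ Dec|. For
h ∈ A1 ∩ Dec: w (h • (x ε^N) - x) < w x; for the other h ∈ A1: w (h • (x ε^N)) < w x; |A1 ∩ Dec| is
a power of p. -/
theorem approx_fixed {p : ℕ} [Fact p.Prime] [Finite E] (hpg : IsPGroup p E)
    (w : HeightOneSpectrum (𝓞 M)) (hw : ¬ Above w p) (A1 : Subgroup E) (x : Mˣ)
    (hx : ∀ h ∈ A1, IsDec w h → (h • x) / x ∈ U1 w) :
    ∃ y : Mˣ, (∀ g ∈ A1, g • y = y) ∧ x / y ∈ U1 w := by
  classical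
  obtain ⟨ε, h1, h2, h3⟩ := exists_eps_act (E := E) w
  obtain ⟨N, hN⟩ := E08_exists_N w x h2 h3
  set z : M := (x : M) * ε ^ N with hz
  haveI := Fintype.ofFinite A1
  let S : M := ∑ h : A1, (h : E) • z
  have hS : ∀ g ∈ A1, g • S = S := by
    intro g hg
    show g • ∑ h : A1, (h : E) • z = ∑ h : A1, (h : E) • z
    rw [Finset.smul_sum]
    refine Fintype.sum_equiv (Equiv.mulLeft (⟨g, hg⟩ : A1)) _ _ fun h => ?_
    rw [smul_smul]
    rfl
  -- the number of elements of the decomposition group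
  let D : Subgroup E := A1 ⊓ decG E w
  obtain ⟨k, hk⟩ := (hpg.to_subgroup D).exists_card_eq
  have hd : w.valuation M ((Nat.card D : ℕ) : M) = 1 := by
    rw [hk]
    exact val_pow_eq_one hw k
  have hcount : Nat.card D = (Finset.univ.filter fun h : A1 => IsDec w (h : E)).card := by
    rw [← Fintype.card_subtype, ← Nat.card_eq_fintype_card]
    refine Nat.card_congr
      { toFun := fun g => ⟨⟨g.1, g.2.1⟩, g.2.2⟩
        invFun := fun g => ⟨g.1.1, g.1.2, g.2⟩
        left_inv := fun g => rfl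
        right_inv := fun g => rfl }
  have hxpos : 0 < w.valuation M (x : M) := zero_lt_iff.2 (E08_val_ne w x)
  have hmain : w.valuation M (S - (Nat.card D : ℕ) * (x : M)) < w.valuation M (x : M) := by
    have e1 : S - (Nat.card D : ℕ) * (x : M) =
        ∑ h : A1, if IsDec w (h : E) then (h : E) • z - (x : M) else (h : E) • z := by
      rw [hcount, ← nsmul_eq_mul, ← Finset.sum_const, Finset.sum_filter, ← Finset.sum_sub_distrib]
      refine Finset.sum_congr rfl fun h _ => ?_
      split_ifs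
      · rfl
      · rw [sub_zero]
    rw [e1]
    refine Valuation.map_sum_lt _ hxpos.ne' fun h _ => ?_
    split_ifs with hdec
    · have e2 : (h : E) • z - (x : M) = (h : E) • (z - (x : M)) + ((h : E) • (x : M) - x) := by
        rw [smul_sub]
        ring
      rw [e2]
      refine (Valuation.map_add _ _ _).trans_lt (max_lt ?_ ?_)
      · rw [hdec]
        have e3 : z - (x : M) = (x : M) * (ε ^ N - 1) := by rw [hz]; ring
        rw [e3, map_mul]
        exact mul_lt_of_lt_one_right hxpos (E08_eps_pow h1 N)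
      · exact E08_mem_div (hx h h.2 hdec)
    · exact hN h hdec
  -- the element
  have hd0 : ((Nat.card D : ℕ) : M) ≠ 0 := by
    intro h
    rw [h, map_zero] at hd
    exact zero_ne_one hd
  have hy1 : w.valuation M (S / (Nat.card D : ℕ) - (x : M)) < w.valuation M (x : M) := by
    have e1 : S / (Nat.card D : ℕ) - (x : M) =
        (S - (Nat.card D : ℕ) * (x : M)) / (Nat.card D : ℕ) := by
      rw [sub_div, mul_div_cancel_left₀ _ hd0]
    rw [e1, map_div₀, hd, div_one]
    exact hmain
  have hy2 : w.valuation M (S / (Nat.card D : ℕ)) = w.valuation M (x : M) := by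
    have e1 : S / (Nat.card D : ℕ) = (x : M) + (S / (Nat.card D : ℕ) - (x : M)) := by ring
    rw [e1]
    exact Valuation.map_add_eq_of_lt_left _ hy1
  have hy0 : S / (Nat.card D : ℕ) ≠ 0 := by
    intro h
    rw [h, map_zero] at hy2
    exact hxpos.ne hy2
  refine ⟨Units.mk0 _ hy0, fun g hg => ?_, ?_⟩
  · apply Units.ext
    have h4 : g • ((Nat.card D : ℕ) : M) = ((Nat.card D : ℕ) : M) :=
      map_natCast (MulSemiringAction.toRingHom E M g) _
    rw [coe_act, Units.val_mk0, div_eq_mul_inv, smul_mul', hS g hg, smul_inv'', h4]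
  · refine E08_div_mem ?_
    rw [Units.val_mk0, hy2, Valuation.map_sub_swap]
    exact hy1

/- PROOF. g ↦ w (b g) is multiplicative on the finite subgroup D (w (g • x) = w x), so its values
are elements of finite order of the ordered group, i.e. 1. -/
theorem unit_of_coc [Finite E] (w : HeightOneSpectrum (𝓞 M)) (D : Subgroup E)
    (hD : ∀ g ∈ D, IsDec w g) (b : E → Mˣ)
    (hb : ∀ g ∈ D, ∀ h ∈ D, b (g * h) / (b g * g • b h) ∈ U1 w) (g : E) (hg : g ∈ D) :
    w.valuation M (b g : M) = 1 := by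
  have hmul : ∀ g ∈ D, ∀ h ∈ D, w.valuation M (b (g * h) : M) =
      w.valuation M (b g : M) * w.valuation M (b h : M) := by
    intro g hg h hh
    have h1 := E08_mem_div (hb g hg h hh)
    have h2 : w.valuation M (b (g * h) : M) = w.valuation M ((b g * g • b h : Mˣ) : M) := by
      have e1 : (b (g * h) : M) = ((b g * g • b h : Mˣ) : M) +
        ((b (g * h) : M) - ((b g * g • b h : Mˣ) : M)) := by ring
      conv_lhs => rw [e1]
      exact Valuation.map_add_eq_of_lt_left _ h1
    rw [h2, Units.val_mul, map_mul, coe_act, hD g hg]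
  have h1 : w.valuation M (b 1 : M) = 1 := by
    have h2 := hmul 1 D.one_mem 1 D.one_mem
    rw [mul_one] at h2
    have h3 := E08_val_ne w (b 1)
    exact (mul_eq_left₀ h3).1 h2.symm
  have hpow : ∀ k : ℕ, w.valuation M (b (g ^ k) : M) = w.valuation M (b g : M) ^ k := by
    intro k
    induction k with
    | zero => rw [pow_zero, pow_zero, h1]
    | succ k ih => rw [pow_succ, hmul _ (D.pow_mem hg k) _ hg, ih, pow_succ]
  have h2 := hpow (orderOf g)
  rw [pow_orderOf_eq_one, h1] at h2
  exact (pow_eq_one_iff_of_nonneg zero_le (orderOf_pos g).ne').1 h2.symm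

/-- `U1 w` is stable under the decomposition group -/
theorem smul_mem_U1 {w : HeightOneSpectrum (𝓞 M)} {g : E} (hg : IsDec w g) {u : Mˣ}
    (hu : u ∈ U1 w) : g • u ∈ U1 w := by
  rw [mem_U1] at hu ⊢
  have h1 : ((g • u : Mˣ) : M) - 1 = g • ((u : M) - 1) := by
    rw [coe_act, smul_sub, smul_one]
  rw [h1, hg]
  exact hu

end Pool.Agent.RG.E
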