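import Mathlib
import Pool.Agent.Lib.RG.E03
import Pool.Agent.Lib.RG.E06
import Pool.Agent.Lib.RG.E08

/-!
PART E, row E09: local analysis of the obstruction.
-/

set_option autoImplicit false

namespace Pool.Agent.RG.E

open NumberField IsDedekindDomain

variable {M : Type} [Field M] [NumberField M] {E : Type} [Group E] [MulSemiringAction E M]

namespace E09

variable (w : HeightOneSpectrum (𝓞 M))

/-- the quotient by `U1 w` -/
def QQ : Type := Mˣ ⧸ U1 w

noncomputable instance instQQ : CommGroup (QQ w) := inferInstanceAs (CommGroup (Mˣ ⧸ U1 w))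

/-- the projection modulo `U1 w` -/
def pr : Mˣ →* QQ w := QuotientGroup.mk' (U1 w)

theorem pr_eq {x y : Mˣ} : pr w x = pr w y ↔ x / y ∈ U1 w := QuotientGroup.eq_iff_div_mem

theorem pr_smul {g : E} (hg : IsDec w g) {x y : Mˣ} (h : pr w x = pr w y) :
    pr w (g • x) = pr w (g • y) := by
  rw [pr_eq] at h ⊢
  rw [← smul_div']
  exact smul_mem_U1 hg h

theorem abel1 {G : Type} [AddCommGroup G] {A B H a0 K L P R m0 hm be hbe : G}
    (h1 : A - B = H - a0) (h2 : A + hm = m0 + K) (h3 : K - L = P - R) (h4 : B + hbe = be + L) :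
    hm + H - P - hbe = m0 + a0 - R - be := by
  have e : (hm + H - P - hbe) - (m0 + a0 - R - be) = ((A + hm) - (m0 + K)) -
      ((A - B) - (H - a0)) + ((K - L) - (P - R)) - ((B + hbe) - (be + L)) := by abel
  rw [h1, h2, h3, h4, sub_self, sub_self, sub_self, sub_self, sub_self, add_zero, sub_self] at e
  exact sub_eq_zero.1 e

theorem comm1 {Q : Type} [CommGroup Q] {A B H a0 K L P R m0 hm be hbe : Q}
    (h1 : A / B = H / a0) (h2 : A * hm = m0 * K) (h3 : K / L = P / R) (h4 : B * hbe = be * L) :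
    hm * H / P / hbe = m0 * a0 / R / be :=
  abel1 (G := Additive Q) h1 h2 h3 h4

theorem abel2 {G : Type} [AddCommGroup G] (S a0 ep be : G) :
    -(S + (a0 - ep) - be) = ep - a0 + be - S := by abel

theorem comm2 {Q : Type} [CommGroup Q] {S a0 ep T be b1 : Q} (h1 : b1 / be = ep / a0)
    (h2 : be = T) : (S * (a0 / ep) / T)⁻¹ = b1 / S := by
  subst h2
  have h3 : b1 = ep / a0 * be := by rw [← h1, div_mul_cancel]
  rw [h3]
  have e := abel2 (G := Additive Q) S a0 ep be
  exact e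

theorem isDec_pow {g : E} (hg : IsDec w g) (n : ℕ) : IsDec w (g ^ n) := by
  have h : g ∈ decG E w := hg
  exact pow_mem h n

end E09

/- PROOF. D := A1 ⊓ decG E w. th90 for c = b1 / β on D (c g is a unit at w by unit_of_coc for b1 and
hβ.unit; elements acting trivially are in Z (hC.ker), there b1 = ι ≡ β): a with b1 h / β h ≡ (h•a)/a on D.
Put b1' h = b1 h * a / (h•a), m' = m * a / (e•a): again RelOn A1 b1' e m' (exact), and
b1' (e^p) / ∏ e^i m' = b1 (e^p) / ∏ e^i m (telescoping), b1' ≡ β mod U1 w on D. For h ∈ D,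
x = e⁻¹ h e ∈ D (hS.norm): b1' h * h•m' = m' * e•b1' x and β h * h•β e ≡ β (h e) = β (e x) ≡ β e * e•β x,
hence X := m' / β e satisfies (h•X)/X ∈ U1 w on D. approx_fixed: Y fixed by A1, X / Y ∈ U1 w.
β (e^p) ≡ ∏ i<p, e^i•β e (induction), e^p ∈ D. So b1' (e^p) / ∏ e^i m' ≡ ∏ e^i•X⁻¹ ≡ ∏ e^i•Y⁻¹, d := Y⁻¹. -/
theorem local_norm {p : ℕ} [Fact p.Prime] [Finite E] {Z : Subgroup E} {ι : Z →* Mˣ}
    (hC : Cen p M E Z ι) {A A1 : Subgroup E} {e : E} (hS : Step p A A1 e) (hZ : Z ≤ A1)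
    {b1 : E → Mˣ} (hb : Sol ι A1 b1) {m : Mˣ} (hm : RelOn A1 b1 e m)
    (w : HeightOneSpectrum (𝓞 M)) (hw : ¬ Above w p) {β : E → Mˣ} (hβ : LocSol ι w β)
    (he : IsDec w e) :
    ∃ d : Mˣ, (∀ g ∈ A1, g • d = d) ∧ (∏ i ∈ Finset.range p, e ^ i • d) /
      (b1 (e ^ p) / ∏ i ∈ Finset.range p, e ^ i • m) ∈ U1 w := by
  set D : Subgroup E := A1 ⊓ decG E w with hDdef
  have hD : ∀ g ∈ D, IsDec w g := fun g hg => hg.2
  have hD1 : ∀ g ∈ D, g ∈ A1 := fun g hg => hg.1
  have hβc : ∀ g h : E, IsDec w g → IsDec w h →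
      E09.pr w (β (g * h)) = E09.pr w (β g) * E09.pr w (g • β h) := by
    intro g h hg hh
    rw [← map_mul, E09.pr_eq]
    exact hβ.coc g h hg hh
  have hbu : ∀ g ∈ D, w.valuation M (b1 g : M) = 1 :=
    fun g hg => unit_of_coc w D hD b1 (fun g hg h hh => by
      rw [hb.coc g (hD1 g hg) h (hD1 h hh), div_self']
      exact one_mem _) g hg
  obtain ⟨a, ha⟩ := th90 hC.pg w hw D hD (fun g => b1 g / β g)
    (fun g hg => by
      change w.valuation M ((b1 g / β g : Mˣ) : M) = 1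
      rw [Units.val_div_eq_div_val, map_div₀, hbu g hg, hβ.unit g (hD g hg), div_one])
    (fun g hg h hh => by
      change b1 (g * h) / β (g * h) / (b1 g / β g * g • (b1 h / β h)) ∈ U1 w
      rw [← E09.pr_eq, map_mul, smul_div', map_div, map_div, map_div,
        hβc g h (hD g hg) (hD h hh), hb.coc g (hD1 g hg) h (hD1 h hh), map_mul]
      exact (div_mul_div_comm _ _ _ _).symm)
    (fun g hg ht => by
      have hgZ : g ∈ Z := (hC.ker g).1 ht
      have e1 : b1 g = ι ⟨g, hgZ⟩ := hb.res ⟨g, hgZ⟩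
      have e2 : β g / ι ⟨g, hgZ⟩ ∈ U1 w := hβ.res ⟨g, hgZ⟩
      rw [e1, ← inv_div]
      exact inv_mem e2)
  have hA : ∀ h ∈ D, E09.pr w (b1 h) / E09.pr w (β h) =
      E09.pr w (h • a) / E09.pr w a := by
    intro h hh
    rw [← map_div, ← map_div, E09.pr_eq]
    exact ha h hh
  set X : Mˣ := m * a / (e • a) / β e with hX
  have hXD : ∀ h ∈ A1, IsDec w h → (h • X) / X ∈ U1 w := by
    intro h hh hhd
    have hhD : h ∈ D := ⟨hh, hhd⟩
    have hxA : e⁻¹ * h * e ∈ A1 := by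
      have := hS.norm e⁻¹ (inv_mem hS.mem) h hh
      rwa [inv_inv] at this
    have hxd : IsDec w (e⁻¹ * h * e) := by
      have h1 : e ∈ decG E w := he
      have h2 : h ∈ decG E w := hhd
      exact mul_mem (mul_mem (inv_mem h1) h2) h1
    have hxD : e⁻¹ * h * e ∈ D := ⟨hxA, hxd⟩
    have hex : e * (e⁻¹ * h * e) = h * e := by group
    have r2 : E09.pr w (b1 h) * E09.pr w (h • m) =
        E09.pr w m * E09.pr w (e • b1 (e⁻¹ * h * e)) := by
      have h1 := hm _ hxA
      have h2 : e * (e⁻¹ * h * e) * e⁻¹ = h := by group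
      rw [h2] at h1
      rw [← map_mul, h1, map_mul]
    have r3 : E09.pr w (e • b1 (e⁻¹ * h * e)) / E09.pr w (e • β (e⁻¹ * h * e)) =
        E09.pr w (h • e • a) / E09.pr w (e • a) := by
      have h1 : E09.pr w (b1 (e⁻¹ * h * e) / β (e⁻¹ * h * e)) =
          E09.pr w (((e⁻¹ * h * e) • a) / a) := by
        rw [map_div, map_div]
        exact hA _ hxD
      have h2 := E09.pr_smul w he h1
      rw [smul_div', smul_div', map_div, map_div, smul_smul, hex, mul_smul] at h2
      exact h2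
    have r4 : E09.pr w (β h) * E09.pr w (h • β e) =
        E09.pr w (β e) * E09.pr w (e • β (e⁻¹ * h * e)) := by
      rw [← hβc h e hhd he, ← hβc e _ he hxd, hex]
    have h5 := E09.comm1 (hA h hhD) r2 r3 r4
    rw [← E09.pr_eq, hX, smul_div', smul_div', smul_mul']
    simp only [map_div, map_mul]
    exact h5
  obtain ⟨Y, hY1, hY2⟩ := approx_fixed hC.pg w hw A1 X hXD
  have hXY : E09.pr w X = E09.pr w Y := (E09.pr_eq w).2 hY2
  have hβ1 : E09.pr w (β 1) = 1 := by
    have h1 := hβc 1 1 (fun x => by rw [one_smul]) (fun x => by rw [one_smul])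
    rw [mul_one, one_smul] at h1
    exact left_eq_mul.1 h1
  have hβp : ∀ n : ℕ, E09.pr w (β (e ^ n)) =
      ∏ i ∈ Finset.range n, E09.pr w (e ^ i • β e) := by
    intro n
    induction n with
    | zero => rw [pow_zero, Finset.range_zero, Finset.prod_empty, hβ1]
    | succ n ih =>
      rw [pow_succ, hβc _ _ (E09.isDec_pow w he n) he, ih, Finset.prod_range_succ]
  have hepD : e ^ p ∈ D := ⟨hS.pow, E09.isDec_pow w he p⟩
  refine ⟨Y⁻¹, fun g hg => by rw [smul_inv', hY1 g hg], ?_⟩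
  rw [← E09.pr_eq, map_prod, map_div, map_prod]
  have h6 : ∀ i : ℕ, E09.pr w (e ^ i • Y⁻¹) =
      (E09.pr w (e ^ i • m) * (E09.pr w (e ^ i • a) / E09.pr w (e ^ (i + 1) • a)) /
        E09.pr w (e ^ i • β e))⁻¹ := by
    intro i
    rw [smul_inv', map_inv, ← E09.pr_smul w (E09.isDec_pow w he i) hXY, hX, smul_div', smul_div',
      smul_mul', smul_smul, ← pow_succ]
    simp only [map_div, map_mul]
    rw [mul_div_assoc]
  rw [Finset.prod_congr rfl (fun i _ => h6 i), Finset.prod_inv_distrib, Finset.prod_div_distrib,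
    Finset.prod_mul_distrib, Finset.prod_range_div', pow_zero, one_smul]
  exact E09.comm2 (hA _ hepD) (hβp p)

/- PROOF. w (b1 (e^p)) = 1 by unit_of_coc on D = A1 ⊓ decG E w, w (∏ e^i m) = w m ^ p because e is in
the decomposition group; exists_fixed_val A w _ m⁻¹ (inert elements are in Z by hC.unr, so they act
trivially by hC.ker). -/
theorem local_val {p : ℕ} [Fact p.Prime] [Finite E] {Z : Subgroup E} {ι : Z →* Mˣ}
    (hC : Cen p M E Z ι) {A A1 : Subgroup E} {e : E} (hS : Step p A A1 e)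
    {b1 : E → Mˣ} (hb : Sol ι A1 b1) (m : Mˣ)
    (w : HeightOneSpectrum (𝓞 M)) (hw : Above w p) (he : IsDec w e) :
    ∃ y : Mˣ, (∀ g ∈ A, g • y = y) ∧
      w.valuation M ((b1 (e ^ p) / ∏ i ∈ Finset.range p, e ^ i • m : Mˣ) : M) =
        w.valuation M (y : M) ^ p := by
  obtain ⟨y, hy1, hy2⟩ := exists_fixed_val A w
    (fun g _ hi => (hC.ker g).2 (hC.unr w hw g hi)) m⁻¹
  refine ⟨y, hy1, ?_⟩
  have hbu : w.valuation M (b1 (e ^ p) : M) = 1 :=
    unit_of_coc w (A1 ⊓ decG E w) (fun g hg => hg.2) b1 (fun g hg h hh => by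
      rw [hb.coc g hg.1 h hh.1, div_self']
      exact one_mem _) (e ^ p) ⟨hS.pow, E09.isDec_pow w he p⟩
  have h1 : ∀ i : ℕ, w.valuation M ((e ^ i • m : Mˣ) : M) = w.valuation M (m : M) := by
    intro i
    rw [coe_act]
    exact E09.isDec_pow w he i _
  rw [hy2, Units.val_div_eq_div_val, map_div₀, hbu, Units.coe_prod, map_prod,
    Finset.prod_congr rfl (fun i _ => h1 i), Finset.prod_const, Finset.card_range,
    Units.val_inv_eq_inv_val, map_inv₀, inv_pow, one_div]

end Pool.Agent.RG.E
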