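import Mathlib
import Pool.Agent.Lib.RG.Defs

/-!
PART H: definitions. Everything is expressed by subgroups of `Kˣ` and by the additive valuations
`vl v : Kˣ → ℤ` of the maximal ideals `v` of the ring of integers.
-/

set_option autoImplicit false
set_option linter.unusedSectionVars false

namespace Pool.Agent.RG.H

open NumberField IsDedekindDomain WithZero

/-- The finite primes of a number field. -/
abbrev Pr (K : Type) [Field K] [NumberField K] : Type := HeightOneSpectrum (𝓞 K)

section one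

variable {K : Type} [Field K] [NumberField K]

/-- The additive valuation of `v`. -/
noncomputable def vl (v : Pr K) (x : Kˣ) : ℤ := -log (v.valuation K (x : K))

theorem val_ne_zero (v : Pr K) (x : Kˣ) : v.valuation K (x : K) ≠ 0 :=
  (Valuation.ne_zero_iff _).2 x.ne_zero

theorem val_eq (v : Pr K) (x : Kˣ) : v.valuation K (x : K) = exp (-vl v x) := by
  unfold vl
  rw [neg_neg, exp_log (val_ne_zero v x)]

theorem vl_eq_iff {v : Pr K} {x : Kˣ} {n : ℤ} : vl v x = n ↔ v.valuation K (x : K) = exp (-n) := by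
  rw [val_eq, exp_inj, neg_inj]

theorem vl_eq_zero {v : Pr K} {x : Kˣ} : vl v x = 0 ↔ v.valuation K (x : K) = 1 := by
  rw [vl_eq_iff, neg_zero, exp_zero]

@[simp] theorem vl_one (v : Pr K) : vl v (1 : Kˣ) = 0 := by
  rw [vl_eq_zero, Units.val_one, map_one]

theorem vl_mul (v : Pr K) (x y : Kˣ) : vl v (x * y) = vl v x + vl v y := by
  unfold vl
  rw [Units.val_mul, map_mul, log_mul (val_ne_zero v x) (val_ne_zero v y), neg_add]

theorem vl_inv (v : Pr K) (x : Kˣ) : vl v x⁻¹ = -vl v x := by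
  have h := vl_mul v x x⁻¹
  rw [mul_inv_cancel, vl_one] at h
  omega

theorem vl_div (v : Pr K) (x y : Kˣ) : vl v (x / y) = vl v x - vl v y := by
  rw [div_eq_mul_inv, vl_mul, vl_inv, sub_eq_add_neg]

theorem vl_pow (v : Pr K) (x : Kˣ) (n : ℕ) : vl v (x ^ n) = n * vl v x := by
  induction n with
  | zero => simp
  | succ n ih =>
    rw [pow_succ, vl_mul, ih]
    push_cast
    ring

/-- The `S`-units. -/
def SU (S : Finset (Pr K)) : Subgroup Kˣ where
  carrier := {x | ∀ v, v ∉ S → vl v x = 0}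
  one_mem' := fun v _ => vl_one v
  mul_mem' := fun {x y} hx hy v hv => by rw [vl_mul, hx v hv, hy v hv, add_zero]
  inv_mem' := fun {x} hx v hv => by rw [vl_inv, hx v hv, neg_zero]

theorem mem_SU {S : Finset (Pr K)} {x : Kˣ} : x ∈ SU S ↔ ∀ v, v ∉ S → vl v x = 0 := Iff.rfl

/-- The units at `v` which are congruent to `1` modulo `v ^ n`. For `n = 0`: all units at `v`. -/
def UU (v : Pr K) (n : ℕ) : Subgroup Kˣ where
  carrier := {x | vl v x = 0 ∧ v.valuation K ((x : K) - 1) ≤ exp (-(n : ℤ))}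
  one_mem' := ⟨vl_one v, by rw [Units.val_one, sub_self, map_zero]; exact zero_le⟩
  mul_mem' := fun {x y} hx hy => by
    refine ⟨by rw [vl_mul, hx.1, hy.1, add_zero], ?_⟩
    have e : ((x * y : Kˣ) : K) - 1 = ((x : K) - 1) * y + ((y : K) - 1) := by
      rw [Units.val_mul]
      ring
    rw [e]
    refine Valuation.map_add_le _ ?_ hy.2
    rw [map_mul, vl_eq_zero.1 hy.1, mul_one]
    exact hx.2
  inv_mem' := fun {x} hx => by
    refine ⟨by rw [vl_inv, hx.1, neg_zero], ?_⟩
    have e : ((x⁻¹ : Kˣ) : K) - 1 = -(((x : K) - 1) * ((x⁻¹ : Kˣ) : K)) := by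
      rw [sub_mul, Units.mul_inv]
      ring
    have h1 : vl v x⁻¹ = 0 := by rw [vl_inv, hx.1, neg_zero]
    rw [e, Valuation.map_neg, map_mul, vl_eq_zero.1 h1, mul_one]
    exact hx.2

theorem mem_UU {v : Pr K} {n : ℕ} {x : Kˣ} :
    x ∈ UU v n ↔ vl v x = 0 ∧ v.valuation K ((x : K) - 1) ≤ exp (-(n : ℤ)) := Iff.rfl

theorem UU_mono (v : Pr K) {m n : ℕ} (h : m ≤ n) : UU v n ≤ UU v m := fun x hx =>
  ⟨hx.1, hx.2.trans (by rw [exp_le_exp]; omega)⟩

variable (K) in
/-- The `p`-th powers. -/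
def PP (p : ℕ) : Subgroup Kˣ := (powMonoidHom p : Kˣ →* Kˣ).range

theorem mem_PP {p : ℕ} {x : Kˣ} : x ∈ PP K p ↔ ∃ y : Kˣ, y ^ p = x := by
  unfold PP
  rw [MonoidHom.mem_range]
  rfl

/-- The valuation of the number `p` at `v`. -/
noncomputable def ev (p : ℕ) (v : Pr K) : ℕ := (-log (v.valuation K (p : K))).toNat

/-- The subgroup `Kˣ ^ p (1 + v ^ (2 v(p) + 1))`. -/
noncomputable def NP (p : ℕ) (v : Pr K) : Subgroup Kˣ := PP K p ⊔ UU v (2 * ev p v + 1)

/-- The elements whose valuation at `v` is divisible by `p`. -/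
def Dv (p : ℕ) (v : Pr K) : Subgroup Kˣ where
  carrier := {x | (p : ℤ) ∣ vl v x}
  one_mem' := by
    change (p : ℤ) ∣ vl v 1
    rw [vl_one]
    exact dvd_zero _
  mul_mem' := fun {x y} hx hy => by
    change (p : ℤ) ∣ vl v (x * y)
    rw [vl_mul]
    exact dvd_add hx hy
  inv_mem' := fun {x} hx => by
    change (p : ℤ) ∣ vl v x⁻¹
    rw [vl_inv]
    exact (dvd_neg).2 hx

theorem mem_Dv {p : ℕ} {v : Pr K} {x : Kˣ} : x ∈ Dv p v ↔ (p : ℤ) ∣ vl v x := Iff.rfl

end one

section two

variable {K L : Type} [Field K] [NumberField K] [Field L] [NumberField L] [Algebra K L]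

/-- The prime of `K` below the prime `w` of `L`. -/
def below (w : Pr L) : Pr K where
  asIdeal := w.asIdeal.under (𝓞 K)
  isPrime := inferInstance
  ne_bot := by
    have h := w.ne_bot
    exact mt Ideal.eq_bot_of_comap_eq_bot h

variable (K L) in
/-- `Kˣ → Lˣ`. -/
def emb : Kˣ →* Lˣ := Units.map (algebraMap K L : K →* L)

theorem emb_val (x : Kˣ) : ((emb K L x : Lˣ) : L) = algebraMap K L (x : K) := rfl

variable (K L) in
/-- The norm `Lˣ → Kˣ`. -/
noncomputable def nrm : Lˣ →* Kˣ := Units.map (Algebra.norm K : L →* K)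

theorem nrm_val (x : Lˣ) : ((nrm K L x : Kˣ) : K) = Algebra.norm K (x : L) := rfl

variable (L) in
/-- `v` does not split in `L`: some (the only) prime above it is fixed by the Galois group. -/
def NS (v : Pr K) : Prop :=
  ∃ w : Pr L, below w = v ∧ ∀ σ : L ≃ₐ[K] L, IsDec w σ

variable (L) in
/-- The primes of `S` which do not split in `L`. -/
noncomputable def nsF (S : Finset (Pr K)) : Finset (Pr K) :=
  @Finset.filter _ (fun v => NS L v) (fun _ => Classical.propDecidable _) S

theorem mem_nsF {S : Finset (Pr K)} {v : Pr K} : v ∈ nsF L S ↔ v ∈ S ∧ NS L v := by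
  classical
  unfold nsF
  rw [Finset.mem_filter]

variable (L) in
open Classical in
/-- The norms up to elements congruent to `1` modulo `v` (`v` not above `p`), respectively the
elements with valuation divisible by `p` (`v` above `p`). -/
noncomputable def Nv (p : ℕ) (v : Pr K) : Subgroup Kˣ :=
  if Above v p then Dv p v else (nrm K L).range ⊔ UU v 1

variable (L) in
/-- The intersection of the groups `Nv`, `v ∈ S` non split. -/
noncomputable def JJ (p : ℕ) (S : Finset (Pr K)) : Subgroup Kˣ := ⨅ v ∈ nsF L S, Nv L p v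

/-- The intersection of the groups `NP`, `v ∈ S`. -/
noncomputable def II (p : ℕ) (S : Finset (Pr K)) : Subgroup Kˣ := ⨅ v ∈ S, NP p v

variable (K L) in
/-- The hypotheses: `L / K` has odd prime degree `p`, `K` contains the `p`-th roots of unity, the
primes above `p` are unramified. -/
structure Hyp (p : ℕ) : Prop where
  prime : p.Prime
  odd : p ≠ 2
  rank : Module.finrank K L = p
  root : ∃ ζ : K, IsPrimitiveRoot ζ p
  unr : ∀ w : Pr L, Above w p → ∀ σ : L ≃ₐ[K] L, IsInert w σ → σ = 1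

variable (K L) in
/-- `S` contains the primes above `p` and the primes which are ramified in `L`, the primes outside
`S` are principal up to `S`, for `K` and for `L`. -/
structure Good (p : ℕ) (S : Finset (Pr K)) : Prop where
  above : ∀ v : Pr K, Above v p → v ∈ S
  ram : ∀ w : Pr L, below w ∉ S → ∀ σ : L ≃ₐ[K] L, IsInert w σ → σ = 1
  prK : ∀ v : Pr K, v ∉ S → ∃ ϖ : Kˣ, vl v ϖ = 1 ∧ ∀ v', v' ∉ S → v' ≠ v → vl v' ϖ = 0
  prL : ∀ w : Pr L, below w ∉ S → ∃ ϖ : Lˣ, vl w ϖ = 1 ∧
    ∀ w' : Pr L, (below w' : Pr K) ∉ S → w' ≠ w → vl w' ϖ = 0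

end two

end Pool.Agent.RG.H
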