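import Mathlib
import Pool.Agent.Lib.RG.HDefs

/-!
Row H01: primes of an extension.
-/

set_option autoImplicit false
set_option linter.unusedSectionVars false

namespace Pool.Agent.RG.H

open NumberField IsDedekindDomain WithZero

variable {K L : Type} [Field K] [NumberField K] [Field L] [NumberField L] [Algebra K L]

/-- The same for the valuation itself, including `0`. -/
private theorem exists_e_val_aux (w : Pr L) : ∃ e : ℕ, 1 ≤ e ∧ ∀ x : K,
    w.valuation L (algebraMap K L x) = ((below w : Pr K).valuation K x) ^ e := by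
  have : w.asIdeal.LiesOver (below w : Pr K).asIdeal := ⟨rfl⟩
  refine ⟨(below w : Pr K).asIdeal.ramificationIdx' w.asIdeal, ?_, fun x => ?_⟩
  · exact Nat.one_le_iff_ne_zero.2
      (Ideal.IsDedekindDomain.ramificationIdx'_ne_zero_of_liesOver w.asIdeal (below w : Pr K).ne_bot)
  · exact (HeightOneSpectrum.valuation_liesOver L (below w : Pr K) w x).symm

/-- Mathlib `HeightOneSpectrum.valuation_liesOver`. -/
theorem exists_e (w : Pr L) : ∃ e : ℕ, 1 ≤ e ∧ ∀ x : Kˣ,
    vl w (emb K L x) = e * vl (below w : Pr K) x := by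
  obtain ⟨e, he, h⟩ := exists_e_val_aux (K := K) w
  refine ⟨e, he, fun x => ?_⟩
  rw [vl_eq_iff, emb_val, h, val_eq, ← exp_nsmul]
  congr 1
  simp

/-- The same for the valuation itself, including `0`. -/
theorem exists_e_val (w : Pr L) : ∃ e : ℕ, 1 ≤ e ∧ ∀ x : K,
    w.valuation L (algebraMap K L x) = ((below w : Pr K).valuation K x) ^ e :=
  exists_e_val_aux w

theorem exists_above (v : Pr K) : ∃ w : Pr L, (below w : Pr K) = v := by
  have : v.asIdeal.IsMaximal := v.isMaximal
  obtain ⟨P, hP1, hP2⟩ := Ideal.exists_maximal_ideal_liesOver_of_isIntegral v.asIdeal (S := 𝓞 L)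
  have hP0 : P ≠ ⊥ := Ideal.ne_bot_of_liesOver_of_ne_bot v.ne_bot P
  refine ⟨⟨P, hP1.isPrime, hP0⟩, ?_⟩
  apply HeightOneSpectrum.ext
  exact hP2.over.symm

theorem fin_up (S : Finset (Pr K)) : ∃ T : Finset (Pr L), ∀ w, w ∈ T ↔ (below w : Pr K) ∈ S := by
  have h1 : ∀ v : Pr K, {w : Pr L | (below w : Pr K) = v}.Finite := by
    intro v
    have : v.asIdeal.IsMaximal := v.isMaximal
    refine Set.Finite.of_finite_image (f := fun w : Pr L => w.asIdeal)
      ((IsDedekindDomain.primesOver_finite v.asIdeal (𝓞 L)).subset ?_) ?_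
    · rintro _ ⟨w, hw, rfl⟩
      refine ⟨w.isPrime, ⟨?_⟩⟩
      rw [← show (below w : Pr K) = v from hw]
      rfl
    · intro w _ w' _ h
      exact HeightOneSpectrum.ext h
  have h2 : {w : Pr L | (below w : Pr K) ∈ S}.Finite := by
    have : {w : Pr L | (below w : Pr K) ∈ S} = ⋃ v ∈ S, {w : Pr L | (below w : Pr K) = v} := by
      ext w
      simp
    rw [this]
    exact S.finite_toSet.biUnion (fun v _ => h1 v)
  exact ⟨h2.toFinset, fun w => by simp⟩

theorem above_iff (w : Pr L) (q : ℕ) : Above w q ↔ Above (below w : Pr K) q := by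
  obtain ⟨e, he, h⟩ := exists_e_val_aux (K := K) w
  unfold Above
  have h1 := h (q : K)
  rw [map_natCast] at h1
  rw [h1]
  exact pow_lt_one_iff (by omega)

private theorem fin_dvd (a : 𝓞 K) (ha : a ≠ 0) :
    {v : Pr K | v.valuation K (algebraMap (𝓞 K) K a) < 1}.Finite := by
  have h1 : Ideal.span {a} ≠ 0 := by
    rw [Ideal.zero_eq_bot, Ne, Ideal.span_singleton_eq_bot]
    exact ha
  refine (Ideal.finite_factors h1).subset ?_
  intro v hv
  exact (HeightOneSpectrum.valuation_lt_one_iff_dvd v a).1 hv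

/-- Only finitely many primes have a nonzero valuation at `x`. -/
theorem fin_vl (x : Kˣ) : ∃ S : Finset (Pr K), x ∈ SU S := by
  classical
  obtain ⟨a, b, hb, hab⟩ := IsFractionRing.div_surjective (A := 𝓞 K) (x : K)
  have hb0 : b ≠ 0 := nonZeroDivisors.ne_zero hb
  have ha0 : a ≠ 0 := by
    rintro rfl
    rw [map_zero, zero_div] at hab
    exact x.ne_zero hab.symm
  refine ⟨(fin_dvd a ha0).toFinset ∪ (fin_dvd b hb0).toFinset, ?_⟩
  rw [mem_SU]
  intro v hv
  rw [Finset.mem_union, not_or] at hv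
  have h1 : v.valuation K (algebraMap (𝓞 K) K a) = 1 := by
    have := hv.1
    rw [Set.Finite.mem_toFinset] at this
    exact le_antisymm (HeightOneSpectrum.valuation_le_one v a) (not_lt.1 this)
  have h2 : v.valuation K (algebraMap (𝓞 K) K b) = 1 := by
    have := hv.2
    rw [Set.Finite.mem_toFinset] at this
    exact le_antisymm (HeightOneSpectrum.valuation_le_one v b) (not_lt.1 this)
  rw [vl_eq_zero, ← hab, map_div₀, h1, h2, div_one]

/-- Only finitely many primes are above `q`. -/
theorem fin_above (q : ℕ) (hq : q ≠ 0) : ∃ S : Finset (Pr K), ∀ v, Above v q → v ∈ S := by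
  have hq' : (q : 𝓞 K) ≠ 0 := by exact_mod_cast hq
  refine ⟨(fin_dvd (q : 𝓞 K) hq').toFinset, fun v hv => ?_⟩
  rw [Set.Finite.mem_toFinset]
  change v.valuation K (algebraMap (𝓞 K) K (q : 𝓞 K)) < 1
  rw [map_natCast]
  exact hv

end Pool.Agent.RG.H
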