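import Mathlib
import Pool.Agent.Lib.RG.HDefs

/-!
Row H02: the Galois group acts transitively on the primes above a prime.
-/

set_option autoImplicit false
set_option linter.unusedSectionVars false

namespace Pool.Agent.RG.H

open NumberField IsDedekindDomain WithZero

variable {K L : Type} [Field K] [NumberField K] [Field L] [NumberField L] [Algebra K L]

theorem pr_ext {w w' : Pr L} (h : ∀ x : L, w.valuation L x = w'.valuation L x) : w = w' := by
  apply HeightOneSpectrum.ext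
  ext x
  rw [← HeightOneSpectrum.valuation_lt_one_iff_mem (K := L) w x,
    ← HeightOneSpectrum.valuation_lt_one_iff_mem (K := L) w' x, h]

private theorem int_le_aux {w w' : Pr L} (τ : 𝓞 L ≃+* 𝓞 L)
    (h : ∀ (x : 𝓞 L) (n : ℕ), x ∈ w'.asIdeal ^ n → τ x ∈ w.asIdeal ^ n) (x : 𝓞 L) :
    w.intValuation (τ x) ≤ w'.intValuation x := by
  rcases eq_or_ne x 0 with rfl | hx
  · simp
  rw [HeightOneSpectrum.intValuation_eq_exp_neg_multiplicity w' hx,
    HeightOneSpectrum.intValuation_le_pow_iff_mem]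
  apply h
  rw [← HeightOneSpectrum.intValuation_le_pow_iff_mem,
    HeightOneSpectrum.intValuation_eq_exp_neg_multiplicity w' hx]

private theorem val_aux {w w' : Pr L} (σ : L ≃ₐ[K] L)
    (h : ∀ x : 𝓞 L, x ∈ w'.asIdeal ↔ galRestrict (𝓞 K) K L (𝓞 L) σ x ∈ w.asIdeal) (x : L) :
    w'.valuation L x = w.valuation L (σ x) := by
  set τ : 𝓞 L ≃+* 𝓞 L := (galRestrict (𝓞 K) K L (𝓞 L) σ).toRingEquiv with hτ
  have h' : w'.asIdeal = Ideal.comap (τ : 𝓞 L →+* 𝓞 L) w.asIdeal := by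
    ext x
    rw [Ideal.mem_comap]
    exact h x
  have hpow : ∀ n : ℕ, w'.asIdeal ^ n = Ideal.comap (τ : 𝓞 L →+* 𝓞 L) (w.asIdeal ^ n) := by
    intro n
    have e1 : ∀ I : Ideal (𝓞 L), Ideal.comap (τ : 𝓞 L →+* 𝓞 L) I
        = Ideal.map (τ.symm : 𝓞 L →+* 𝓞 L) I := by
      intro I
      exact (Ideal.map_symm (I := I) τ).symm
    rw [h', e1, e1, Ideal.map_pow]
  have hint : ∀ x : 𝓞 L, w'.intValuation x = w.intValuation (τ x) := by
    intro x
    apply le_antisymm
    · have := int_le_aux (w := w') (w' := w) τ.symm (by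
        intro y n hy
        rw [hpow n, Ideal.mem_comap]
        simpa using hy) (τ x)
      simpa using this
    · refine int_le_aux τ (fun y n hy => ?_) x
      rw [hpow n, Ideal.mem_comap] at hy
      exact hy
  obtain ⟨a, b, hb, rfl⟩ := IsFractionRing.div_surjective (A := 𝓞 L) x
  rw [map_div₀, map_div₀, map_div₀]
  have e : ∀ a : 𝓞 L, σ (algebraMap (𝓞 L) L a) = algebraMap (𝓞 L) L (τ a) := by
    intro a
    rw [hτ]
    exact (algebraMap_galRestrict_apply (𝓞 K) σ a).symm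
  rw [e, e, HeightOneSpectrum.valuation_of_algebraMap, HeightOneSpectrum.valuation_of_algebraMap,
    HeightOneSpectrum.valuation_of_algebraMap, HeightOneSpectrum.valuation_of_algebraMap, hint,
    hint]

/-- The translate of a prime. -/
theorem exists_translate (w : Pr L) (σ : L ≃ₐ[K] L) : ∃ w' : Pr L,
    (below w' : Pr K) = below w ∧ ∀ x : L, w'.valuation L x = w.valuation L (σ x) := by
  set τ := galRestrict (𝓞 K) K L (𝓞 L) σ with hτ
  have hpr : (Ideal.comap (τ : 𝓞 L →+* 𝓞 L) w.asIdeal).IsPrime := by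
    have := w.isPrime
    exact Ideal.comap_isPrime _ _
  have hne : Ideal.comap (τ : 𝓞 L →+* 𝓞 L) w.asIdeal ≠ ⊥ := by
    intro h
    apply w.ne_bot
    rw [eq_bot_iff]
    intro x hx
    have h1 : τ.symm x ∈ Ideal.comap (τ : 𝓞 L →+* 𝓞 L) w.asIdeal := by
      rw [Ideal.mem_comap]
      simpa using hx
    rw [h, Ideal.mem_bot] at h1
    rw [Ideal.mem_bot]
    simpa using congrArg τ h1
  refine ⟨⟨Ideal.comap (τ : 𝓞 L →+* 𝓞 L) w.asIdeal, hpr, hne⟩, ?_, ?_⟩
  · apply HeightOneSpectrum.ext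
    ext x
    change τ (algebraMap (𝓞 K) (𝓞 L) x) ∈ w.asIdeal ↔ algebraMap (𝓞 K) (𝓞 L) x ∈ w.asIdeal
    rw [AlgEquiv.commutes]
  · exact val_aux σ (fun x => Iff.rfl)

theorem exists_conj [IsGalois K L] (w w' : Pr L) (h : (below w : Pr K) = below w') :
    ∃ σ : L ≃ₐ[K] L, ∀ x : L, w'.valuation L x = w.valuation L (σ x) := by
  have h1 : w.asIdeal ∈ (below w : Pr K).asIdeal.primesOver (𝓞 L) := ⟨w.isPrime, ⟨rfl⟩⟩
  have h2 : w'.asIdeal ∈ (below w : Pr K).asIdeal.primesOver (𝓞 L) := by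
    rw [h]
    exact ⟨w'.isPrime, ⟨rfl⟩⟩
  obtain ⟨σ, hσ⟩ := Ideal.exists_comap_galRestrict_eq (𝓞 K) K L (𝓞 L) h1 h2
  refine ⟨σ, val_aux σ (fun x => ?_)⟩
  rw [← hσ, Ideal.mem_comap]

end Pool.Agent.RG.H
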