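import Mathlib
import Pool.Agent.Lib.RG.HDefs

/-!
Row H03: trivial inertia group implies ramification index one (Mathlib
`Ideal.card_inertia_eq_ramificationIdxIn`), finiteness of the ramified primes (if `σ x ≠ x`, `x`
integral, then `σ x - x` is divisible by the primes at which `σ` is inert).
-/

set_option autoImplicit false
set_option linter.unusedSectionVars false

namespace Pool.Agent.RG.H

open NumberField IsDedekindDomain WithZero

variable {K L : Type} [Field K] [NumberField K] [Field L] [NumberField L] [Algebra K L]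

variable [IsGalois K L]

namespace H03aux

open scoped Pointwise

theorem coe_smul (g : L ≃ₐ[K] L) (x : 𝓞 L) : ((g • x : 𝓞 L) : L) = g • (x : L) :=
  algebraMap.coe_smul' g x L

theorem mem_iff (w : HeightOneSpectrum (𝓞 L)) (x : 𝓞 L) :
    x ∈ w.asIdeal ↔ w.valuation L (x : L) < 1 :=
  (HeightOneSpectrum.valuation_lt_one_iff_mem w x).symm

theorem int_le {w : HeightOneSpectrum (𝓞 L)} {g : L ≃ₐ[K] L} (h : g • w.asIdeal = w.asIdeal)
    (x : 𝓞 L) (n : ℕ) :
    w.intValuation x ≤ WithZero.exp (-(n : ℤ)) ↔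
      w.intValuation (g • x) ≤ WithZero.exp (-(n : ℤ)) := by
  rw [HeightOneSpectrum.intValuation_le_pow_iff_mem, HeightOneSpectrum.intValuation_le_pow_iff_mem]
  conv_rhs => rw [← h]
  rw [← Ideal.smul_mem_pointwise_smul_iff (a := g), smul_pow']

theorem int_eq {w : HeightOneSpectrum (𝓞 L)} {g : L ≃ₐ[K] L} (h : g • w.asIdeal = w.asIdeal)
    (x : 𝓞 L) : w.intValuation (g • x) = w.intValuation x := by
  by_cases hx : x = 0
  · subst hx
    simp
  have hgx : g • x ≠ 0 := fun h0 => hx (by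
    have := congrArg (fun y => g⁻¹ • y) h0
    simpa using this)
  have key := int_le h x
  rw [w.intValuation_if_neg hx, w.intValuation_if_neg hgx] at *
  simp only [WithZero.exp_le_exp, neg_le_neg_iff, Int.ofNat_le] at key
  congr 3
  exact le_antisymm ((key _).2 le_rfl) ((key _).1 le_rfl)

theorem val_eq {w : HeightOneSpectrum (𝓞 L)} {g : L ≃ₐ[K] L} (h : g • w.asIdeal = w.asIdeal)
    (x : L) : w.valuation L (g • x) = w.valuation L x := by
  obtain ⟨a, b, hb, rfl⟩ := IsFractionRing.div_surjective (A := 𝓞 L) x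
  rw [smul_div₀', map_div₀, map_div₀]
  have h1 : ∀ y : 𝓞 L, w.valuation L (g • (algebraMap (𝓞 L) L y)) =
      w.valuation L (algebraMap (𝓞 L) L y) := fun y => by
    have := coe_smul g y
    rw [HeightOneSpectrum.valuation_of_algebraMap, ← int_eq h, ←
      HeightOneSpectrum.valuation_of_algebraMap (K := L)]
    rw [← this]
  rw [h1, h1]

theorem isInert_of_mem {w : HeightOneSpectrum (𝓞 L)} {g : L ≃ₐ[K] L}
    (h : g ∈ w.asIdeal.inertia (L ≃ₐ[K] L)) : IsInert w g := by
  have h0 : ∀ x : 𝓞 L, g • x - x ∈ w.asIdeal := h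
  have hst : g • w.asIdeal = w.asIdeal := Ideal.inertia_le_stabilizer _ h
  have hdec : IsDec w g := fun x => val_eq hst x
  refine ⟨hdec, fun x hx => ?_⟩
  obtain ⟨n, d, hnd⟩ := HeightOneSpectrum.exists_primeCompl_mul_eq_of_integer w x hx
  have hd : w.valuation L ((d : 𝓞 L) : L) = 1 :=
    (HeightOneSpectrum.valuation_eq_one_iff_notMem w).2 d.2
  have hgd : w.valuation L (g • ((d : 𝓞 L) : L)) = 1 := by rw [hdec, hd]
  have hnum : (g • n - n) * (d : 𝓞 L) - n * (g • (d : 𝓞 L) - d) ∈ w.asIdeal :=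
    w.asIdeal.sub_mem (w.asIdeal.mul_mem_right _ (h0 n)) (w.asIdeal.mul_mem_left _ (h0 _))
  rw [mem_iff] at hnum
  have e : (((g • n - n) * (d : 𝓞 L) - n * (g • (d : 𝓞 L) - d) : 𝓞 L) : L) =
      (g • x - x) * (g • ((d : 𝓞 L) : L) * ((d : 𝓞 L) : L)) := by
    have h1 : x * algebraMap (𝓞 L) L (d : 𝓞 L) = algebraMap (𝓞 L) L n := hnd
    have h2 : g • x * g • algebraMap (𝓞 L) L (d : 𝓞 L) = g • algebraMap (𝓞 L) L n := by
      rw [← smul_mul', h1]
    simp only [map_sub, map_mul, coe_smul]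
    linear_combination (algebraMap (𝓞 L) L (d : 𝓞 L)) * h2.symm -
      (g • algebraMap (𝓞 L) L (d : 𝓞 L)) * h1.symm
  rw [e, map_mul, map_mul, hgd, hd, mul_one, mul_one] at hnum
  exact hnum

end H03aux

open H03aux

theorem e_one (w : Pr L) (h : ∀ σ : L ≃ₐ[K] L, IsInert w σ → σ = 1) (x : Kˣ) :
    vl w (emb K L x) = vl (below w : Pr K) x := by
  have hlo : w.asIdeal.LiesOver (below w : Pr K).asIdeal := ⟨rfl⟩
  have hcard := Ideal.card_inertia_eq_ramificationIdxIn (G := L ≃ₐ[K] L)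
    (below w : Pr K).asIdeal w.asIdeal
  have hbot : w.asIdeal.inertia (L ≃ₐ[K] L) = ⊥ := by
    rw [eq_bot_iff]
    intro σ hσ
    exact h σ (isInert_of_mem hσ)
  rw [hbot, Nat.card_eq_fintype_card, Fintype.card_unique,
    Ideal.ramificationIdxIn_eq_ramificationIdx (below w : Pr K).asIdeal w.asIdeal (L ≃ₐ[K] L),
    ← Ideal.ramificationIdx'_eq_ramificationIdx (below w : Pr K).asIdeal w.asIdeal
      (below w : Pr K).ne_bot] at hcard
  have key := HeightOneSpectrum.valuation_liesOver L (below w : Pr K) w (x : K)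
  rw [← hcard, pow_one] at key
  unfold vl
  rw [emb_val, ← key]

theorem fin_ram : {w : Pr L | ∃ σ : L ≃ₐ[K] L, σ ≠ 1 ∧ IsInert w σ}.Finite := by
  have h1 : {w : Pr L | ∃ σ : L ≃ₐ[K] L, σ ≠ 1 ∧ IsInert w σ} =
      ⋃ σ : L ≃ₐ[K] L, {w : Pr L | σ ≠ 1 ∧ IsInert w σ} := by
    ext w
    simp
  rw [h1]
  apply Set.finite_iUnion
  intro σ
  by_cases hσ : σ = 1
  · simp [hσ]
  have h2 : ∃ a : 𝓞 L, σ • a ≠ a := by
    by_contra hcon
    push Not at hcon
    apply hσ
    apply AlgEquiv.ext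
    intro x
    obtain ⟨a, b, hb, rfl⟩ := IsFractionRing.div_surjective (A := 𝓞 L) x
    have ha := coe_smul σ a
    have hb' := coe_smul σ b
    rw [hcon] at ha hb'
    rw [map_div₀]
    change σ • (a : L) / σ • (b : L) = _
    rw [← ha, ← hb']
    rfl
  obtain ⟨a, ha⟩ := h2
  have hc : Ideal.span {σ • a - a} ≠ 0 := by
    rw [Ne, Ideal.zero_eq_bot, Ideal.span_singleton_eq_bot]
    exact sub_ne_zero.2 ha
  refine (Ideal.finite_factors hc).subset ?_
  rintro w ⟨-, hw⟩
  change w.asIdeal ∣ _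
  rw [Ideal.dvd_span_singleton, mem_iff]
  have := hw.2 (a : L) (HeightOneSpectrum.valuation_le_one w a)
  simpa [coe_smul] using this

end Pool.Agent.RG.H
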