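import Mathlib
import Pool.Agent.Lib.RG.HDefs
import Pool.Agent.Lib.RG.H02

/-!
Row H04: decomposition and inertia groups in a Galois extension of prime degree. (The elements
with `IsDec w` resp. `IsInert w` are subgroups; a group of prime order has only two subgroups.)
-/

set_option autoImplicit false
set_option linter.unusedSectionVars false

namespace Pool.Agent.RG.H

open NumberField IsDedekindDomain WithZero

variable {K L : Type} [Field K] [NumberField K] [Field L] [NumberField L] [Algebra K L]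

/-- The decomposition group as a subgroup. -/
def decG (w : Pr L) : Subgroup (L ≃ₐ[K] L) where
  carrier := {σ | IsDec w σ}
  one_mem' := fun x => by rw [one_smul]
  mul_mem' := fun {σ τ} hσ hτ x => by rw [mul_smul, hσ, hτ]
  inv_mem' := fun {σ} hσ x => by
    have h := hσ (σ⁻¹ • x)
    rw [smul_inv_smul] at h
    exact h.symm

theorem mem_decG {w : Pr L} {σ : L ≃ₐ[K] L} : σ ∈ decG (K := K) w ↔ IsDec w σ := Iff.rfl

/-- The inertia group as a subgroup. -/
def inertG (w : Pr L) : Subgroup (L ≃ₐ[K] L) where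
  carrier := {σ | IsInert w σ}
  one_mem' := ⟨fun x => by rw [one_smul], fun x _ => by
    rw [one_smul, sub_self, map_zero]
    exact zero_lt_one⟩
  mul_mem' := fun {σ τ} hσ hτ => by
    refine ⟨(decG (K := K) w).mul_mem hσ.1 hτ.1, fun x hx => ?_⟩
    have e : (σ * τ) • x - x = σ • (τ • x - x) + (σ • x - x) := by
      rw [mul_smul, smul_sub]
      ring
    rw [e]
    refine Valuation.map_add_lt _ ?_ (hσ.2 x hx)
    rw [hσ.1]
    exact hτ.2 x hx
  inv_mem' := fun {σ} hσ => by
    refine ⟨(decG (K := K) w).inv_mem hσ.1, fun x hx => ?_⟩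
    have e : σ⁻¹ • x - x = -(σ⁻¹ • (σ • x - x)) := by
      rw [smul_sub, inv_smul_smul]
      ring
    have h1 : IsDec w σ⁻¹ := (decG (K := K) w).inv_mem hσ.1
    rw [e, Valuation.map_neg, h1]
    exact hσ.2 x hx

theorem mem_inertG {w : Pr L} {σ : L ≃ₐ[K] L} : σ ∈ inertG (K := K) w ↔ IsInert w σ := Iff.rfl

variable [IsGalois K L] {p : ℕ}

theorem top_of_ne (hp : p.Prime) (hL : Module.finrank K L = p) (H : Subgroup (L ≃ₐ[K] L))
    {σ : L ≃ₐ[K] L} (h1 : σ ≠ 1) (h : σ ∈ H) (τ : L ≃ₐ[K] L) : τ ∈ H := by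
  have : Fact p.Prime := ⟨hp⟩
  have hc : Nat.card (L ≃ₐ[K] L) = p := by rw [IsGalois.card_aut_eq_finrank, hL]
  have : Fact (Nat.card (L ≃ₐ[K] L)).Prime := ⟨by rw [hc]; exact hp⟩
  rcases H.eq_bot_or_eq_top_of_prime_card with h2 | h2
  · rw [h2, Subgroup.mem_bot] at h
    exact absurd h h1
  · rw [h2]
    exact Subgroup.mem_top τ

theorem dec_all (hp : p.Prime) (hL : Module.finrank K L = p) (w : Pr L) {σ : L ≃ₐ[K] L}
    (h1 : σ ≠ 1) (h : IsDec w σ) (τ : L ≃ₐ[K] L) : IsDec w τ :=
  top_of_ne hp hL (decG w) h1 h τ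

theorem inert_all (hp : p.Prime) (hL : Module.finrank K L = p) (w : Pr L) {σ : L ≃ₐ[K] L}
    (h1 : σ ≠ 1) (h : IsInert w σ) (τ : L ≃ₐ[K] L) : IsInert w τ :=
  top_of_ne hp hL (inertG w) h1 h τ

theorem split_dec (hp : p.Prime) (hL : Module.finrank K L = p) (w : Pr L)
    (h : ¬ NS L (below w : Pr K)) (σ : L ≃ₐ[K] L) (hσ : IsDec w σ) : σ = 1 := by
  by_contra h1
  exact h ⟨w, rfl, fun τ => dec_all hp hL w h1 hσ τ⟩

theorem ns_unique {v : Pr K} (h : NS L v) {w w' : Pr L} (hw : (below w : Pr K) = v)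
    (hw' : (below w' : Pr K) = v) : w = w' := by
  obtain ⟨w₀, h₀, hd⟩ := h
  have key : ∀ u : Pr L, (below u : Pr K) = v → u = w₀ := by
    intro u hu
    obtain ⟨σ, hσ⟩ := exists_conj (K := K) w₀ u (h₀.trans hu.symm)
    refine pr_ext fun x => ?_
    rw [hσ x]
    exact hd σ x
  rw [key w hw, key w' hw']

theorem ns_dec {v : Pr K} (h : NS L v) {w : Pr L} (hw : (below w : Pr K) = v)
    (σ : L ≃ₐ[K] L) : IsDec w σ := by
  have h' := h
  obtain ⟨w₀, h₀, hd⟩ := h
  rw [ns_unique h' hw h₀]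
  exact hd σ

theorem h04_exists_above (v : Pr K) : ∃ w : Pr L, (below w : Pr K) = v := by
  obtain ⟨Q, hQ, hQ2⟩ := Ideal.exists_maximal_ideal_liesOver_of_isIntegral (S := 𝓞 L) v.asIdeal
  have hne : Q ≠ ⊥ := by
    rintro rfl
    have h1 : v.asIdeal = (⊥ : Ideal (𝓞 L)).under (𝓞 K) := hQ2.over
    have h2 : (⊥ : Ideal (𝓞 L)).under (𝓞 K) = ⊥ := Ideal.comap_bot_of_injective _
      (FaithfulSMul.algebraMap_injective (𝓞 K) (𝓞 L))
    exact v.ne_bot (h1.trans h2)
  refine ⟨⟨Q, hQ.isPrime, hne⟩, ?_⟩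
  apply HeightOneSpectrum.ext
  exact hQ2.over.symm

/-- There are `p` primes above a split prime. -/
theorem split_card (hp : p.Prime) (hL : Module.finrank K L = p) {v : Pr K} (h : ¬ NS L v) :
    Nat.card {w : Pr L // (below w : Pr K) = v} = p := by
  obtain ⟨w₀, hw₀⟩ := h04_exists_above (L := L) v
  have hsp : ∀ σ : L ≃ₐ[K] L, IsDec w₀ σ → σ = 1 := by
    intro σ hσ
    refine split_dec hp hL w₀ ?_ σ hσ
    rw [hw₀]
    exact h
  choose f hf hf' using exists_translate (K := K) w₀
  have hbij : Function.Bijective (fun σ : L ≃ₐ[K] L =>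
      (⟨f σ, (hf σ).trans hw₀⟩ : {w : Pr L // (below w : Pr K) = v})) := by
    constructor
    · intro σ τ hστ
      have h1 : f σ = f τ := congrArg Subtype.val hστ
      have h2 : ∀ x : L, w₀.valuation L (σ x) = w₀.valuation L (τ x) := by
        intro x
        rw [← hf', ← hf', h1]
      have h3 : σ * τ⁻¹ = 1 := by
        refine hsp _ fun x => ?_
        have h4 := h2 (τ⁻¹ x)
        have h5 : τ (τ⁻¹ x) = x := by
          rw [← AlgEquiv.mul_apply, mul_inv_cancel]
          rfl
        rw [h5] at h4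
        exact h4
      exact mul_inv_eq_one.1 h3
    · rintro ⟨w, hw⟩
      obtain ⟨σ, hσ⟩ := exists_conj (K := K) w₀ w (hw₀.trans hw.symm)
      refine ⟨σ, Subtype.ext ?_⟩
      refine pr_ext fun x => ?_
      show (f σ).valuation L x = w.valuation L x
      rw [hf', hσ]
  rw [← Nat.card_eq_of_bijective _ hbij, IsGalois.card_aut_eq_finrank, hL]

/-- The number of primes above the primes of `S`. -/
theorem card_up (hp : p.Prime) (hL : Module.finrank K L = p) {S : Finset (Pr K)}
    {T : Finset (Pr L)} (hT : ∀ w, w ∈ T ↔ (below w : Pr K) ∈ S) :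
    T.card + (p - 1) * (nsF L S).card = p * S.card := by
  classical
  have h1 : T.card = ∑ v ∈ S, (T.filter fun w => (below w : Pr K) = v).card :=
    Finset.card_eq_sum_card_fiberwise fun w hw => (hT w).1 hw
  have h2 : ∀ v ∈ S, (T.filter fun w => (below w : Pr K) = v).card
      + (p - 1) * (if NS L v then 1 else 0) = p := by
    intro v hv
    have h3 : (T.filter fun w => (below w : Pr K) = v).card =
        Nat.card {w : Pr L // (below w : Pr K) = v} := by
      symm
      refine Nat.subtype_card _ fun w => ?_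
      rw [Finset.mem_filter, hT]
      constructor
      · exact fun h => h.2
      · intro h
        exact ⟨by rw [h]; exact hv, h⟩
    rw [h3]
    by_cases hns : NS L v
    · rw [if_pos hns]
      have h4 : Nat.card {w : Pr L // (below w : Pr K) = v} = 1 := by
        obtain ⟨w₀, hw₀⟩ := h04_exists_above (L := L) v
        rw [Nat.card_eq_one_iff_unique]
        exact ⟨⟨fun a b => Subtype.ext (ns_unique hns a.2 b.2)⟩, ⟨⟨w₀, hw₀⟩⟩⟩
      rw [h4]
      have := hp.one_lt
      omega
    · rw [if_neg hns, split_card hp hL hns]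
      omega
  have h5 : (nsF L S).card = ∑ v ∈ S, (if NS L v then 1 else 0) := by
    unfold nsF
    rw [Finset.card_filter]
  rw [h1, h5, Finset.mul_sum, ← Finset.sum_add_distrib, Finset.sum_congr rfl h2,
    Finset.sum_const, smul_eq_mul, mul_comm]

end Pool.Agent.RG.H
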