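import Mathlib
import Pool.Agent.Lib.RG.HDefs
import Pool.Agent.Lib.RG.H01
import Pool.Agent.Lib.RG.H02
import Pool.Agent.Lib.RG.H03
import Pool.Agent.Lib.RG.H04

/-!
Row H06: norms and valuations. `L / K` is Galois: the norm is the product of the conjugates.
-/

set_option autoImplicit false
set_option linter.unusedSectionVars false

namespace Pool.Agent.RG.H

open NumberField IsDedekindDomain WithZero

variable {K L : Type} [Field K] [NumberField K] [Field L] [NumberField L] [Algebra K L]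

variable [IsGalois K L] {p : ℕ}

theorem emb_nrm (b : Lˣ) : ((emb K L (nrm K L b) : Lˣ) : L) = ∏ σ : L ≃ₐ[K] L, σ (b : L) := by
  rw [emb_val, nrm_val]
  exact Algebra.norm_eq_prod_automorphisms K (b : L)

theorem nrm_emb (hL : Module.finrank K L = p) (x : Kˣ) : nrm K L (emb K L x) = x ^ p := by
  ext
  rw [nrm_val, emb_val, Algebra.norm_algebraMap, hL, Units.val_pow_eq_pow_val]

private theorem vl_prod (w : Pr L) {ι : Type} (s : Finset ι) (f : ι → Lˣ) :
    vl w (∏ i ∈ s, f i) = ∑ i ∈ s, vl w (f i) := by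
  classical
  induction s using Finset.induction_on with
  | empty => rw [Finset.prod_empty, Finset.sum_empty, vl_one]
  | insert a s ha ih => rw [Finset.prod_insert ha, Finset.sum_insert ha, vl_mul, ih]

/-- The conjugate of a unit. -/
private def cj (σ : L ≃ₐ[K] L) (b : Lˣ) : Lˣ := Units.map (σ : L →* L) b

private theorem cj_val (σ : L ≃ₐ[K] L) (b : Lˣ) : ((cj σ b : Lˣ) : L) = σ (b : L) := rfl

private theorem vl_nrm_sum (w : Pr L) (b : Lˣ) :
    vl w (emb K L (nrm K L b)) = ∑ σ : L ≃ₐ[K] L, vl w (cj σ b) := by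
  rw [← vl_prod]
  congr 1
  ext
  rw [emb_nrm, Units.coe_prod]
  rfl

private theorem vl_cj {w w' : Pr L} {σ : L ≃ₐ[K] L}
    (h : ∀ x : L, w'.valuation L x = w.valuation L (σ x)) (b : Lˣ) :
    vl w (cj σ b) = vl w' b := by
  rw [vl_eq_iff, cj_val, ← h, val_eq]

theorem vl_nrm_ns (hL : Module.finrank K L = p) {w : Pr L} (h : NS L (below w : Pr K))
    (b : Lˣ) : vl w (emb K L (nrm K L b)) = p * vl w b := by
  rw [vl_nrm_sum]
  have h1 : ∀ σ : L ≃ₐ[K] L, vl w (cj σ b) = vl w b := fun σ =>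
    vl_cj (fun x => (ns_dec h rfl σ x).symm) b
  simp only [h1, Finset.sum_const, nsmul_eq_mul]
  rw [Finset.card_univ, ← Nat.card_eq_fintype_card, IsGalois.card_aut_eq_finrank, hL]

private theorem vl_nrm_zero {v : Pr K} {b : Lˣ} (h : ∀ w : Pr L, (below w : Pr K) = v → vl w b = 0) :
    vl v (nrm K L b) = 0 := by
  obtain ⟨w, hw⟩ := exists_above (L := L) v
  obtain ⟨e, he, hex⟩ := exists_e (K := K) w
  have h1 := hex (nrm K L b)
  rw [vl_nrm_sum, Finset.sum_eq_zero, hw] at h1
  · rcases mul_eq_zero.mp h1.symm with h2 | h2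
    · have : e = 0 := by exact_mod_cast h2
      omega
    · exact h2
  · intro σ _
    obtain ⟨w', hw', hx⟩ := exists_translate (K := K) w σ
    rw [vl_cj hx]
    exact h w' (hw'.trans hw)

/-- Norms of `S`-units are `S`-units. -/
theorem nrm_SU {S : Finset (Pr K)} {T : Finset (Pr L)} (hT : ∀ w, w ∈ T ↔ (below w : Pr K) ∈ S)
    {b : Lˣ} (hb : b ∈ SU T) : nrm K L b ∈ SU S := by
  intro v hv
  refine vl_nrm_zero fun w hw => hb w fun hwT => hv ?_
  rw [← hw]
  exact (hT w).mp hwT

theorem emb_SU {S : Finset (Pr K)} {T : Finset (Pr L)} (hT : ∀ w, w ∈ T ↔ (below w : Pr K) ∈ S)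
    {x : Kˣ} : emb K L x ∈ SU T ↔ x ∈ SU S := by
  constructor
  · intro h v hv
    obtain ⟨w, hw⟩ := exists_above (L := L) v
    obtain ⟨e, he, hex⟩ := exists_e (K := K) w
    have h1 := hex x
    rw [h w (fun hwT => hv (by rw [← hw]; exact (hT w).mp hwT)), hw] at h1
    rcases mul_eq_zero.mp h1.symm with h2 | h2
    · have : e = 0 := by exact_mod_cast h2
      omega
    · exact h2
  · intro h w hw
    obtain ⟨e, he, hex⟩ := exists_e (K := K) w
    rw [hex, h _ fun hwS => hw ((hT w).mpr hwS), mul_zero]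

/-- A split prime outside a good set `S` is, up to `S`, generated by a norm. -/
theorem exists_nrm_unif (hp : p.Prime) (hL : Module.finrank K L = p) {S : Finset (Pr K)}
    (hS : Good K L p S) {v : Pr K} (hv : v ∉ S) (h : ¬ NS L v) :
    ∃ b : Lˣ, vl v (nrm K L b) = 1 ∧ ∀ v', v' ∉ S → v' ≠ v → vl v' (nrm K L b) = 0 := by
  classical
  obtain ⟨w, hw⟩ := exists_above (L := L) v
  obtain ⟨ϖ, h1, h2⟩ := hS.prL w (by rw [hw]; exact hv)
  refine ⟨ϖ, ?_, ?_⟩
  · obtain ⟨e, he, hex⟩ := exists_e (K := K) w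
    have h3 := hex (nrm K L ϖ)
    rw [vl_nrm_sum, Finset.sum_eq_single (1 : L ≃ₐ[K] L), hw] at h3
    · have h4 : vl w (cj (1 : L ≃ₐ[K] L) ϖ) = 1 := by
        rw [vl_cj (w' := w) (fun x => rfl), h1]
      rw [h4] at h3
      have h5 : (e : ℤ) * vl v (nrm K L ϖ) = 1 := h3.symm
      rcases Int.eq_one_or_neg_one_of_mul_eq_one h5 with h6 | h6
      · rw [h6, one_mul] at h5
        exact h5
      · have : (0 : ℤ) ≤ e := Int.natCast_nonneg e
        omega
    · intro σ _ hσ
      obtain ⟨w', hw', hx⟩ := exists_translate (K := K) w σ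
      rw [vl_cj hx]
      refine h2 w' (by rw [hw', hw]; exact hv) fun hww => hσ ?_
      refine split_dec hp hL w (by rw [hw]; exact h) σ fun x => ?_
      rw [hww] at hx
      exact (hx x).symm
    · intro hh
      exact absurd (Finset.mem_univ _) hh
  · intro v' hv' hne
    refine vl_nrm_zero fun w' hw' => h2 w' (by rw [hw']; exact hv') fun hww => hne ?_
    rw [← hw', hww, hw]

end Pool.Agent.RG.H
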