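import Mathlib
import Pool.Agent.Lib.RG.HDefs
import Pool.Agent.Lib.RG.H01
import Pool.Agent.Lib.RG.H03
import Pool.Agent.Lib.RG.H04
import Pool.Agent.Lib.RG.H06

/-!
Row H07: the local norm groups of the primes which do not split: first properties. `NP_le_Nv`:
`ev p v = 0` if `v` is not above `p`; `p`-th powers are norms. `nrm_le_Nv`: `v` above `p` is
unramified (`unr`), so `v(N b) = w(N b) = p w(b)`.
-/

set_option autoImplicit false
set_option linter.unusedSectionVars false

namespace Pool.Agent.RG.H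

open NumberField IsDedekindDomain WithZero

variable {K L : Type} [Field K] [NumberField K] [Field L] [NumberField L] [Algebra K L]

variable [IsGalois K L] {p : ℕ}

theorem ev_eq_zero_iff {q : ℕ} (hq : q ≠ 0) (v : Pr K) : ev q v = 0 ↔ ¬ Above v q := by
  have hq' : (q : K) ≠ 0 := Nat.cast_ne_zero.mpr hq
  have h1 : v.valuation K (q : K) ≤ 1 := by
    have h0 := v.valuation_le_one (K := K) (q : 𝓞 K)
    have e : algebraMap (𝓞 K) K (q : 𝓞 K) = (q : K) := map_natCast _ q
    rw [← e]
    exact h0
  have h2 := val_eq v (Units.mk0 (q : K) hq')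
  rw [Units.val_mk0] at h2
  have h3 : ev q v = (vl v (Units.mk0 (q : K) hq')).toNat := rfl
  unfold Above
  rw [h3, not_lt]
  rw [h2, ← exp_zero, exp_le_exp] at h1 ⊢
  constructor
  · intro h4
    have h5 := Int.toNat_eq_zero.mp h4
    omega
  · intro h4
    rw [Int.toNat_eq_zero]
    omega

theorem NP_le_Nv (h : Hyp K L p) (v : Pr K) : NP p v ≤ Nv L p v := by
  unfold NP Nv
  split_ifs with hv
  · refine sup_le ?_ ?_
    · intro x hx
      obtain ⟨y, rfl⟩ := mem_PP.mp hx
      rw [mem_Dv, vl_pow]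
      exact dvd_mul_right _ _
    · intro x hx
      rw [mem_Dv, hx.1]
      exact dvd_zero _
  · refine sup_le ?_ ?_
    · intro x hx
      obtain ⟨y, rfl⟩ := mem_PP.mp hx
      refine Subgroup.mem_sup_left ⟨emb K L y, ?_⟩
      exact nrm_emb h.rank y
    · exact (UU_mono v (by omega)).trans le_sup_right

theorem UU_le_Nv (h : Hyp K L p) (v : Pr K) : UU v 1 ≤ Nv L p v := by
  unfold Nv
  split_ifs with hv
  · intro x hx
    rw [mem_Dv, hx.1]
    exact dvd_zero _
  · exact le_sup_right

theorem nrm_le_Nv (h : Hyp K L p) {v : Pr K} (hv : NS L v) : (nrm K L).range ≤ Nv L p v := by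
  unfold Nv
  split_ifs with hva
  · rintro _ ⟨b, rfl⟩
    obtain ⟨w, hw, -⟩ := id hv
    have hv' : NS L (below w : Pr K) := by rw [hw]; exact hv
    have h1 := e_one (K := K) w (h.unr w ((above_iff (K := K) w p).mpr (by rw [hw]; exact hva)))
      (nrm K L b)
    rw [vl_nrm_ns h.rank hv', hw] at h1
    rw [mem_Dv, ← h1]
    exact dvd_mul_right _ _
  · exact le_sup_left

end Pool.Agent.RG.H
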