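import Mathlib
import Pool.Agent.Lib.RG.HDefs
import Pool.Agent.Lib.RG.H01
import Pool.Agent.Lib.RG.H03

/-!
Row H14: existence of good sets. The class groups of `K` and `L` are finite: let `S` contain the
primes which divide (a representative in) each class of `K`, the primes below those which divide a
representative of each class of `L`, the primes above `p` and the primes below the ramified ones
(`fin_ram`, `fin_above`).
-/

set_option autoImplicit false
set_option linter.unusedSectionVars false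

namespace Pool.Agent.RG.H

open NumberField IsDedekindDomain WithZero

/-- The primes outside a finite set are principal up to this set. -/
private theorem exists_principal (M : Type) [Field M] [NumberField M] : ∃ S : Finset (Pr M),
    ∀ v : Pr M, v ∉ S → ∃ ϖ : Mˣ, vl v ϖ = 1 ∧ ∀ v' : Pr M, v' ∉ S → v' ≠ v → vl v' ϖ = 0 := by
  classical
  have hsurj := ClassGroup.mk0_surjective (R := 𝓞 M)
  choose I hI using fun c : ClassGroup (𝓞 M) => hsurj c
  let S : Finset (Pr M) := Finset.univ.biUnion fun c : ClassGroup (𝓞 M) =>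
    (Ideal.finite_factors (nonZeroDivisors.coe_ne_zero (I c))).toFinset
  have hS : ∀ (v : Pr M) (c : ClassGroup (𝓞 M)), v.asIdeal ∣ (I c : Ideal (𝓞 M)) → v ∈ S := by
    intro v c hv
    refine Finset.mem_biUnion.mpr ⟨c, Finset.mem_univ _, ?_⟩
    rw [Set.Finite.mem_toFinset]
    exact hv
  refine ⟨S, fun v hv => ?_⟩
  let v0 : nonZeroDivisors (Ideal (𝓞 M)) :=
    ⟨v.asIdeal, mem_nonZeroDivisors_of_ne_zero v.ne_bot⟩
  set c := (ClassGroup.mk0 v0)⁻¹ with hc
  have h1 : ClassGroup.mk0 (v0 * I c) = 1 := by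
    rw [map_mul, hI, hc, mul_inv_cancel]
  rw [ClassGroup.mk0_eq_one_iff] at h1
  obtain ⟨⟨r, hr⟩⟩ := h1
  have hr' : v.asIdeal * (I c : Ideal (𝓞 M)) = Ideal.span {r} := by
    rw [Ideal.submodule_span_eq] at hr
    rw [← hr]
    rfl
  have hr0 : r ≠ 0 := by
    intro h0
    rw [h0, Ideal.span_singleton_eq_bot.mpr rfl, ← Ideal.zero_eq_bot] at hr'
    rcases mul_eq_zero.mp hr' with h2 | h2
    · exact v.ne_bot h2
    · exact nonZeroDivisors.coe_ne_zero (I c) h2
  have hrM : algebraMap (𝓞 M) M r ≠ 0 := by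
    rwa [Ne, map_eq_zero_iff _ (NumberField.RingOfIntegers.coe_injective)]
  refine ⟨Units.mk0 _ hrM, ?_, fun v' hv' hne => ?_⟩
  · rw [vl_eq_iff, Units.val_mk0, HeightOneSpectrum.valuation_of_algebraMap]
    have h2 : v.intValuation r ≤ exp (-((1 : ℕ) : ℤ)) := by
      rw [HeightOneSpectrum.intValuation_le_pow_iff_dvd, pow_one, ← hr']
      exact dvd_mul_right _ _
    have h3 : ¬ v.intValuation r ≤ exp (-((2 : ℕ) : ℤ)) := by
      rw [HeightOneSpectrum.intValuation_le_pow_iff_dvd, pow_two, ← hr']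
      intro h4
      exact hv (hS v c ((mul_dvd_mul_iff_left v.ne_bot).mp h4))
    have h4 := HeightOneSpectrum.intValuation_ne_zero v r hr0
    obtain ⟨n, hn⟩ : ∃ n : ℤ, v.intValuation r = exp n := ⟨_, (exp_log h4).symm⟩
    rw [hn, exp_le_exp] at h2 h3
    rw [hn, exp_inj]
    push_cast at h2 h3
    omega
  · rw [vl_eq_iff, Units.val_mk0, HeightOneSpectrum.valuation_of_algebraMap, neg_zero, exp_zero]
    refine le_antisymm (v'.intValuation_le_one r) ?_
    rw [← not_lt, HeightOneSpectrum.intValuation_lt_one_iff_dvd, ← hr']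
    intro h4
    rcases (Ideal.prime_of_isPrime v'.ne_bot v'.isPrime).dvd_or_dvd h4 with h5 | h5
    · exact hne (HeightOneSpectrum.ext (by
        have h6 := Ideal.le_of_dvd h5
        exact (v.isMaximal.eq_of_le v'.isPrime.ne_top h6).symm))
    · exact hv' (hS v' c h5)

variable {K L : Type} [Field K] [NumberField K] [Field L] [NumberField L] [Algebra K L]

variable [IsGalois K L] {p : ℕ}

theorem exists_good (hp : p.Prime) (S₀ : Finset (Pr K)) :
    ∃ S : Finset (Pr K), S₀ ⊆ S ∧ Good K L p S := by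
  classical
  obtain ⟨S1, h1⟩ := fin_above (K := K) p hp.ne_zero
  obtain ⟨S2, h2⟩ := exists_principal K
  obtain ⟨S3, h3⟩ := exists_principal L
  have h4 := fin_ram (K := K) (L := L)
  let S4 : Finset (Pr K) := h4.toFinset.image below
  let S5 : Finset (Pr K) := S3.image below
  refine ⟨S₀ ∪ S1 ∪ S2 ∪ S4 ∪ S5, fun x hx => by simp [hx], ?_, ?_, ?_, ?_⟩
  · intro v hv
    have := h1 v hv
    simp [this]
  · intro w hw σ hσ
    by_contra hne
    apply hw
    have : (below w : Pr K) ∈ S4 := by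
      refine Finset.mem_image.mpr ⟨w, ?_, rfl⟩
      rw [Set.Finite.mem_toFinset]
      exact ⟨σ, hne, hσ⟩
    simp [this]
  · intro v hv
    obtain ⟨ϖ, ha, hb⟩ := h2 v (fun h => hv (by simp [h]))
    exact ⟨ϖ, ha, fun v' hv' hne => hb v' (fun h => hv' (by simp [h])) hne⟩
  · intro w hw
    have h5 : ∀ w : Pr L, (below w : Pr K) ∉ S₀ ∪ S1 ∪ S2 ∪ S4 ∪ S5 → w ∉ S3 := by
      intro w hw hw3
      apply hw
      have : (below w : Pr K) ∈ S5 := Finset.mem_image.mpr ⟨w, hw3, rfl⟩
      simp [this]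
    obtain ⟨ϖ, ha, hb⟩ := h3 w (h5 w hw)
    exact ⟨ϖ, ha, fun w' hw' hne => hb w' (h5 w' hw') hne⟩

end Pool.Agent.RG.H
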