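import Mathlib
import Pool.Agent.Lib.RG.HDefs

/-!
Row H13: the norm of the ideal `(p)`.
-/

set_option autoImplicit false
set_option linter.unusedSectionVars false

namespace Pool.Agent.RG.H

open NumberField IsDedekindDomain WithZero

variable {K : Type} [Field K] [NumberField K]

private theorem ev_count {p : ℕ} (hp : p.Prime) (v : Pr K) :
    ev p v = (Associates.mk v.asIdeal).count
      (Associates.mk (Ideal.span {(p : 𝓞 K)} : Ideal (𝓞 K))).factors := by
  have h0 : (p : 𝓞 K) ≠ 0 := Nat.cast_ne_zero.2 hp.ne_zero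
  have h : v.valuation K (p : K) = v.intValuation (p : 𝓞 K) := by
    rw [← HeightOneSpectrum.valuation_of_algebraMap (K := K)]
    congr 1
  unfold ev
  rw [h, HeightOneSpectrum.intValuation_if_neg _ h0, log_exp, neg_neg, Int.toNat_natCast]

private theorem above_of_ev {p : ℕ} (hp : p.Prime) (v : Pr K) (h : ev p v ≠ 0) : Above v p := by
  have h0 : (p : 𝓞 K) ≠ 0 := Nat.cast_ne_zero.2 hp.ne_zero
  have h' : v.valuation K (p : K) = v.intValuation (p : 𝓞 K) := by
    rw [← HeightOneSpectrum.valuation_of_algebraMap (K := K)]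
    congr 1
  rw [ev_count hp] at h
  unfold Above
  rw [h', HeightOneSpectrum.intValuation_if_neg _ h0, ← exp_zero, exp_lt_exp]
  omega

theorem prod_ev {p : ℕ} (hp : p.Prime) {S : Finset (Pr K)} (hS : ∀ v : Pr K, Above v p → v ∈ S) :
    ∏ v ∈ S, Ideal.absNorm v.asIdeal ^ ev p v = p ^ Module.finrank ℚ K := by
  classical
  have h0 : (p : 𝓞 K) ≠ 0 := Nat.cast_ne_zero.2 hp.ne_zero
  have hs : (Ideal.span {(p : 𝓞 K)} : Ideal (𝓞 K)) ≠ 0 := by
    simpa using h0
  have h1 : Ideal.absNorm (Ideal.span {(p : 𝓞 K)} : Ideal (𝓞 K)) = p ^ Module.finrank ℚ K := by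
    rw [Ideal.absNorm_span_natCast, RingOfIntegers.rank]
  rw [← h1, ← Ideal.finprod_heightOneSpectrum_factorization hs]
  have h2 : (∏ᶠ v : Pr K, v.maxPowDividing (Ideal.span {(p : 𝓞 K)})) =
      ∏ v ∈ S, v.maxPowDividing (Ideal.span {(p : 𝓞 K)}) := by
    refine finprod_eq_prod_of_mulSupport_subset _ ?_
    intro v hv
    rw [Function.mem_mulSupport] at hv
    refine hS v (above_of_ev hp v ?_)
    intro h3
    apply hv
    rw [ev_count hp] at h3
    rw [HeightOneSpectrum.maxPowDividing, h3, pow_zero]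
  rw [h2, map_prod]
  refine Finset.prod_congr rfl fun v _ => ?_
  rw [HeightOneSpectrum.maxPowDividing, map_pow, ev_count hp]

/-- A number field which contains a primitive root of unity of odd prime order has no real places. -/
theorem finrank_eq {p : ℕ} (hp : p.Prime) (hp2 : p ≠ 2) {ζ : K} (hζ : IsPrimitiveRoot ζ p) :
    Module.finrank ℚ K = 2 * InfinitePlace.nrComplexPlaces K ∧
      InfinitePlace.nrRealPlaces K = 0 := by
  have h2 : 2 < p := lt_of_le_of_ne hp.two_le (Ne.symm hp2)
  have h : InfinitePlace.nrRealPlaces K = 0 :=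
    InfinitePlace.IsPrimitiveRoot.nrRealPlaces_eq_zero_of_two_lt h2 hζ
  refine ⟨?_, h⟩
  rw [← InfinitePlace.card_add_two_mul_card_eq_rank, h, zero_add]

end Pool.Agent.RG.H
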