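import Mathlib
import Pool.Agent.Lib.RG.HDefs

/-!
Row H15: the `S`-unit theorem: `𝓞_K^*` is finitely generated of rank `Units.rank K` (Mathlib), the
image of the `S`-units in `ℤ^S` by the valuations has finite index (the class number), the kernel
is `𝓞_K^*`.
-/

set_option autoImplicit false
set_option linter.unusedSectionVars false

namespace Pool.Agent.RG.H

open NumberField IsDedekindDomain WithZero

variable {K : Type} [Field K] [NumberField K]

namespace H15Aux

/-- the valuations of an `S`-unit -/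
noncomputable def vals (S : Finset (Pr K)) : Additive (SU S) →ₗ[ℤ] (S → ℤ) :=
  AddMonoidHom.toIntLinearMap
    { toFun := fun x v => vl (v : Pr K) ((Additive.toMul x : SU S) : Kˣ)
      map_zero' := by
        funext v
        exact vl_one _
      map_add' := fun x y => by
        funext v
        exact vl_mul _ _ _ }

theorem vals_apply (S : Finset (Pr K)) (x : SU S) (v : S) :
    vals S (Additive.ofMul x) v = vl (v : Pr K) (x : Kˣ) := rfl

/-- the units -/
noncomputable def unitsTo (S : Finset (Pr K)) : Additive (𝓞 K)ˣ →ₗ[ℤ] Additive (SU S) :=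
  AddMonoidHom.toIntLinearMap (MonoidHom.toAdditive
    { toFun := fun u => ⟨Units.map (algebraMap (𝓞 K) K : 𝓞 K →* K) u, fun v _ => by
        rw [vl_eq_zero]
        have h1 := v.valuation_le_one (K := K) (u : 𝓞 K)
        have h2 := v.valuation_le_one (K := K) ((u⁻¹ : (𝓞 K)ˣ) : 𝓞 K)
        have h3 : v.valuation K (algebraMap (𝓞 K) K (u : 𝓞 K)) *
            v.valuation K (algebraMap (𝓞 K) K ((u⁻¹ : (𝓞 K)ˣ) : 𝓞 K)) = 1 := by
          rw [← map_mul, ← map_mul, Units.mul_inv, map_one, map_one]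
        exact le_antisymm h1 (by
          calc (1 : WithZero (Multiplicative ℤ)) = _ := h3.symm
            _ ≤ v.valuation K (algebraMap (𝓞 K) K (u : 𝓞 K)) * 1 := by gcongr
            _ = _ := mul_one _)⟩
      map_one' := Subtype.ext (map_one _)
      map_mul' := fun x y => Subtype.ext (map_mul _ _ _) })

theorem unitsTo_val (S : Finset (Pr K)) (u : (𝓞 K)ˣ) :
    (((Additive.toMul (unitsTo S (Additive.ofMul u)) : SU S) : Kˣ) : K) =
      algebraMap (𝓞 K) K (u : 𝓞 K) := rfl

theorem unitsTo_inj (S : Finset (Pr K)) : Function.Injective (unitsTo S) := by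
  intro x y h
  have h1 := congrArg (fun z : Additive (SU S) => (((Additive.toMul z : SU S) : Kˣ) : K)) h
  have h2 : algebraMap (𝓞 K) K ((Additive.toMul x : (𝓞 K)ˣ) : 𝓞 K) =
      algebraMap (𝓞 K) K ((Additive.toMul y : (𝓞 K)ˣ) : 𝓞 K) := h1
  exact Additive.toMul.injective (Units.ext (RingOfIntegers.coe_injective h2))

theorem unitsTo_range (S : Finset (Pr K)) :
    LinearMap.range (unitsTo S) = LinearMap.ker (vals S) := by
  ext z
  constructor
  · rintro ⟨u, rfl⟩
    rw [LinearMap.mem_ker]
    funext v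
    have h1 := v.1.valuation_le_one (K := K) ((Additive.toMul u : (𝓞 K)ˣ) : 𝓞 K)
    have h2 := v.1.valuation_le_one (K := K) (((Additive.toMul u : (𝓞 K)ˣ)⁻¹ : (𝓞 K)ˣ) : 𝓞 K)
    have h3 : v.1.valuation K (algebraMap (𝓞 K) K ((Additive.toMul u : (𝓞 K)ˣ) : 𝓞 K)) *
        v.1.valuation K (algebraMap (𝓞 K) K (((Additive.toMul u : (𝓞 K)ˣ)⁻¹ : (𝓞 K)ˣ) : 𝓞 K)) = 1 := by
      rw [← map_mul, ← map_mul, Units.mul_inv, map_one, map_one]
    change vl (v : Pr K) _ = 0
    rw [vl_eq_zero]
    exact le_antisymm h1 (by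
      calc (1 : WithZero (Multiplicative ℤ)) = _ := h3.symm
        _ ≤ v.1.valuation K (algebraMap (𝓞 K) K ((Additive.toMul u : (𝓞 K)ˣ) : 𝓞 K)) * 1 := by
            gcongr
        _ = _ := mul_one _)
  · intro hz
    rw [LinearMap.mem_ker] at hz
    set x : Kˣ := ((Additive.toMul z : SU S) : Kˣ) with hx
    have hv : ∀ v : Pr K, vl v x = 0 := by
      intro v
      by_cases hvS : v ∈ S
      · exact congrFun hz ⟨v, hvS⟩
      · exact (Additive.toMul z : SU S).2 v hvS
    obtain ⟨a, ha⟩ := HeightOneSpectrum.mem_integers_of_valuation_le_one (R := 𝓞 K) K (x : K)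
      fun v => (vl_eq_zero.1 (hv v)).le
    obtain ⟨b, hb⟩ := HeightOneSpectrum.mem_integers_of_valuation_le_one (R := 𝓞 K) K
      ((x⁻¹ : Kˣ) : K) fun v => by
        have h : vl v x⁻¹ = 0 := by rw [vl_inv, hv v, neg_zero]
        exact (vl_eq_zero.1 h).le
    have hab : a * b = 1 := by
      apply RingOfIntegers.coe_injective
      rw [map_mul, ha, hb, Units.mul_inv, map_one]
    refine ⟨Additive.ofMul ⟨a, b, hab, by rw [mul_comm, hab]⟩, ?_⟩
    apply Additive.toMul.injective
    apply Subtype.ext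
    apply Units.ext
    exact ha

/-- the elements with divisor a multiple of a prime -/
theorem exists_elt (v : Pr K) : ∃ x : Kˣ, vl v x = (Nat.card (ClassGroup (𝓞 K)) : ℤ) ∧
    ∀ w : Pr K, w ≠ v → vl w x = 0 := by
  set h := Nat.card (ClassGroup (𝓞 K)) with hh
  have hmem : v.asIdeal ^ h ∈ nonZeroDivisors (Ideal (𝓞 K)) :=
    mem_nonZeroDivisors_of_ne_zero (pow_ne_zero _ v.ne_bot)
  have h1 : ClassGroup.mk0 ⟨v.asIdeal ^ h, hmem⟩ = 1 := by
    have h2 : (⟨v.asIdeal ^ h, hmem⟩ : nonZeroDivisors (Ideal (𝓞 K))) =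
        ⟨v.asIdeal, mem_nonZeroDivisors_of_ne_zero v.ne_bot⟩ ^ h := rfl
    rw [h2, map_pow, hh]
    exact pow_card_eq_one'
  obtain ⟨a, ha⟩ := (Submodule.isPrincipal_iff _).1 ((ClassGroup.mk0_eq_one_iff hmem).1 h1)
  have ha' : v.asIdeal ^ h = Ideal.span {a} := ha
  have ha0 : a ≠ 0 := by
    rintro rfl
    rw [Ideal.span_singleton_eq_bot.2 rfl] at ha'
    exact pow_ne_zero _ v.ne_bot ha'
  have haK : (a : K) ≠ 0 := by
    intro h
    exact ha0 (RingOfIntegers.coe_injective (h.trans (map_zero _).symm))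
  have hle : ∀ (w : Pr K) (n : ℕ), (n : ℤ) ≤ vl w (Units.mk0 (a : K) haK) ↔
      w.asIdeal ^ n ∣ v.asIdeal ^ h := by
    intro w n
    rw [ha', ← w.intValuation_le_pow_iff_dvd, ← w.valuation_of_algebraMap (K := K)]
    have := val_eq w (Units.mk0 (a : K) haK)
    rw [Units.val_mk0] at this
    change _ ↔ w.valuation K (a : K) ≤ _
    rw [this, exp_le_exp, neg_le_neg_iff]
  have hnn : ∀ w : Pr K, 0 ≤ vl w (Units.mk0 (a : K) haK) := by
    intro w
    have := (hle w 0).2 (by rw [pow_zero]; exact one_dvd _)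
    simpa using this
  refine ⟨Units.mk0 (a : K) haK, ?_, fun w hw => ?_⟩
  · apply le_antisymm
    · by_contra hcon
      push Not at hcon
      have h2 : ((h + 1 : ℕ) : ℤ) ≤ vl v (Units.mk0 (a : K) haK) := by
        push_cast
        omega
      have h3 := (hle v (h + 1)).1 h2
      have h4 := Ideal.le_of_dvd h3
      have h5 : v.asIdeal ^ (h + 1) < v.asIdeal ^ h :=
        Ideal.pow_right_strictAnti v.asIdeal v.ne_bot v.isPrime.ne_top (Nat.lt_succ_self h)
      exact absurd h4 (not_le_of_gt h5)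
    · exact (hle v h).2 dvd_rfl
  · by_contra hcon
    have h2 : ((1 : ℕ) : ℤ) ≤ vl w (Units.mk0 (a : K) haK) := by
      have := hnn w
      push_cast
      omega
    have h3 := (hle w 1).1 h2
    rw [pow_one] at h3
    have h4 : v.asIdeal ≤ w.asIdeal := w.isPrime.le_of_pow_le (Ideal.le_of_dvd h3)
    have hmax : v.asIdeal.IsMaximal := v.isMaximal
    have h5 := hmax.eq_of_le w.isPrime.ne_top h4
    exact hw (HeightOneSpectrum.ext h5.symm)

theorem card_pos : 0 < Nat.card (ClassGroup (𝓞 K)) := Nat.card_pos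

theorem finrank_range (S : Finset (Pr K)) :
    Module.finrank ℤ (LinearMap.range (vals S)) = S.card := by
  classical
  set h := Nat.card (ClassGroup (𝓞 K)) with hh
  have hc : Module.finrank ℤ (S → ℤ) = S.card := by simp
  apply le_antisymm
  · rw [← hc]
    exact Submodule.finrank_le _
  · rw [← hc]
    have hmem : ∀ x : S → ℤ, (h : ℤ) • x ∈ LinearMap.range (vals S) := by
      intro x
      have hx : (h : ℤ) • x = ∑ v : S, x v • ((h : ℤ) • (Pi.single v (1 : ℤ) : S → ℤ)) := by
        funext w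
        simp [Finset.sum_apply, Pi.single_apply, mul_comm]
      rw [hx]
      refine Submodule.sum_mem _ fun v _ => Submodule.smul_mem _ _ ?_
      obtain ⟨y, hy1, hy2⟩ := exists_elt (v : Pr K)
      have hyS : y ∈ SU S := fun w hw => hy2 w (by
        rintro rfl
        exact hw v.2)
      refine ⟨Additive.ofMul ⟨y, hyS⟩, ?_⟩
      funext w
      rw [vals_apply]
      by_cases hwv : w = v
      · subst hwv
        simp [hy1, hh]
      · rw [hy2 (w : Pr K) (fun h => hwv (Subtype.ext h))]
        simp [hwv]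
    let f : (S → ℤ) →ₗ[ℤ] LinearMap.range (vals S) :=
      LinearMap.codRestrict _ ((h : ℤ) • LinearMap.id) hmem
    have hf : Function.Injective f := by
      intro x y hxy
      have h1 : (h : ℤ) • x = (h : ℤ) • y := congrArg Subtype.val hxy
      have h2 : (h : ℤ) ≠ 0 := by
        have := card_pos (K := K)
        rw [← hh] at this
        exact_mod_cast this.ne'
      funext v
      have h3 := congrFun h1 v
      simp only [Pi.smul_apply, smul_eq_mul] at h3
      exact mul_left_cancel₀ h2 h3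
    exact LinearMap.finrank_le_finrank_of_injective hf

theorem finite_ker (S : Finset (Pr K)) : Module.Finite ℤ (LinearMap.ker (vals S)) := by
  rw [← unitsTo_range]
  infer_instance

theorem finite_SU (S : Finset (Pr K)) : Module.Finite ℤ (Additive (SU S)) := by
  refine ⟨Submodule.fg_of_fg_map_of_fg_inf_ker (vals S) (IsNoetherian.noetherian _) ?_⟩
  rw [top_inf_eq]
  exact (Module.Finite.iff_fg).1 (finite_ker S)

end H15Aux

open H15Aux

theorem fg_SU (S : Finset (Pr K)) : Group.FG (SU S) := by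
  have h1 := finite_SU S
  rw [Module.Finite.iff_addGroup_fg] at h1
  exact GroupFG.iff_add_fg.2 h1

theorem rank_SU (S : Finset (Pr K)) :
    Module.finrank ℤ (Additive (SU S)) = Units.rank K + S.card := by
  have h1 := finite_SU S
  have h2 := Submodule.finrank_quotient_add_finrank (LinearMap.ker (vals S))
  rw [LinearEquiv.finrank_eq (vals S).quotKerEquivRange, finrank_range] at h2
  have h3 : Module.finrank ℤ (LinearMap.ker (vals S)) = Units.rank K := by
    rw [← Units.finrank_eq, ← unitsTo_range,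
      ← LinearEquiv.finrank_eq (LinearEquiv.ofInjective _ (unitsTo_inj S))]
  rw [← h2, h3, add_comm]

/-- The `p`-torsion of the `S`-units. -/
theorem torsion_SU {p : ℕ} (hp : p.Prime) {ζ : K} (hζ : IsPrimitiveRoot ζ p)
    (S : Finset (Pr K)) : Nat.card {x : SU S // x ^ p = 1} = p := by
  have : NeZero p := ⟨hp.ne_zero⟩
  have h1 : Nat.card (rootsOfUnity p K) = p := hζ.card_rootsOfUnity
  conv_rhs => rw [← h1]
  refine Nat.card_congr
    { toFun := fun x => ⟨(x.1 : Kˣ), (mem_rootsOfUnity _ _).2 (by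
        have := congrArg (fun z : SU S => (z : Kˣ)) x.2
        simpa using this)⟩
      invFun := fun x => ⟨⟨(x : Kˣ), fun v _ => by
        have h2 : (x : Kˣ) ^ p = 1 := (mem_rootsOfUnity _ _).1 x.2
        have h3 := vl_pow v (x : Kˣ) p
        rw [h2, vl_one] at h3
        have h4 : (p : ℤ) ≠ 0 := by exact_mod_cast hp.ne_zero
        rcases mul_eq_zero.1 h3.symm with h | h
        · exact absurd h h4
        · exact h⟩, Subtype.ext ((mem_rootsOfUnity _ _).1 x.2)⟩
      left_inv := fun x => rfl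
      right_inv := fun x => rfl }

end Pool.Agent.RG.H
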