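import Mathlib
import Pool.Agent.Lib.RG.HDefs

/-!
Row H16: finitely generated abelian groups, written multiplicatively. `h(f) = |coker f| / |ker f|`
is multiplicative: exact sequence `0 → ker g → ker fg → ker f → coker g → coker fg → coker f → 0`.
`index_pow`: structure theorem, or additivity of `h(p)` and of the rank.
`herbrand`: in the commutative ring of endomorphisms generated by `t` one has `p = ∏ (1 - t^i)`,
`0 < i < p` (as `1 + t + .. + t^(p-1) = 0`, i.e. the ring is a quotient of `ℤ[X] / Φ_p`) and
`1 - t^i = (1 - t) u` with `u` invertible; so `h(p) = h(1 - t)^(p-1)`.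
-/

set_option autoImplicit false
set_option linter.unusedSectionVars false

namespace Pool.Agent.RG.H

open NumberField IsDedekindDomain WithZero

theorem index_mul {B : Type} [CommGroup B] (f g : B →* B) (hf : f.range.index ≠ 0)
    (hg : g.range.index ≠ 0) (hf' : Finite f.ker) (hg' : Finite g.ker) :
    (f.comp g).range.index * (Nat.card f.ker * Nat.card g.ker) =
      f.range.index * g.range.index * Nat.card (f.comp g).ker := by
  have _h1 := hf
  have _h2 := hg
  have _h3 := hg'
  have _h4 := hf'
  have e1 : (f.comp g).range = g.range.map f := MonoidHom.range_comp f g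
  have e2 : (f.comp g).range.index = (g.range ⊔ f.ker).index * f.range.index := by
    rw [e1, Subgroup.index_map]
  have e3 : g.range.relIndex (g.range ⊔ f.ker) * (g.range ⊔ f.ker).index = g.range.index :=
    Subgroup.relIndex_mul_index le_sup_left
  have e4 : g.range.relIndex (g.range ⊔ f.ker) = g.range.relIndex f.ker := by
    rw [sup_comm, Subgroup.relIndex_sup_right]
  have e5 : Nat.card (g.range.subgroupOf f.ker) * g.range.relIndex f.ker = Nat.card f.ker :=
    Subgroup.card_mul_index _
  have e6 : Nat.card (f.comp g).ker = Nat.card g.ker * Nat.card (g.range.subgroupOf f.ker) := by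
    -- restrict g to the kernel of f g
    let k : (f.comp g).ker →* f.ker := (g.comp (f.comp g).ker.subtype).codRestrict f.ker
      (fun x => by
        rw [MonoidHom.mem_ker]
        exact x.2)
    have k1 : k.range = g.range.subgroupOf f.ker := by
      ext x
      rw [Subgroup.mem_subgroupOf, MonoidHom.mem_range, MonoidHom.mem_range]
      constructor
      · rintro ⟨y, rfl⟩
        exact ⟨y, rfl⟩
      · rintro ⟨y, hy⟩
        refine ⟨⟨y, ?_⟩, Subtype.ext hy⟩
        rw [MonoidHom.mem_ker, MonoidHom.comp_apply, hy]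
        exact x.2
    have k2 : Nat.card k.ker = Nat.card g.ker := by
      refine Nat.card_congr ⟨fun x => ⟨x.1.1, ?_⟩, fun x => ⟨⟨x.1, ?_⟩, ?_⟩, fun x => rfl,
        fun x => rfl⟩
      · have := x.2
        rw [MonoidHom.mem_ker] at this
        exact congrArg Subtype.val this
      · rw [MonoidHom.mem_ker, MonoidHom.comp_apply, MonoidHom.mem_ker.1 x.2, map_one]
      · rw [MonoidHom.mem_ker]
        exact Subtype.ext (MonoidHom.mem_ker.1 x.2)
    rw [← k1, ← k2, ← Subgroup.card_mul_index k.ker, Subgroup.index_ker]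
  rw [e2, e6, ← e5, ← e3, e4]
  ring

namespace H16Aux

theorem finrank_congr {B C : Type} [CommGroup B] [CommGroup C] (e : B ≃* C) :
    Module.finrank ℤ (Additive B) = Module.finrank ℤ (Additive C) :=
  (MulEquiv.toAdditive e).toIntLinearEquiv.finrank_eq

theorem finrank_finite {B : Type} [CommGroup B] [Finite B] :
    Module.finrank ℤ (Additive B) = 0 := by
  apply Module.finrank_eq_zero_of_rank_eq_zero
  rw [rank_eq_zero_iff]
  intro x
  refine ⟨(Nat.card (Additive B) : ℤ), Int.natCast_ne_zero.2 Nat.card_pos.ne', ?_⟩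
  rw [natCast_zsmul]
  exact card_nsmul_eq_zero'

end H16Aux

theorem fg_sub {B : Type} [CommGroup B] [Group.FG B] (H : Subgroup B) : Group.FG H := by
  have h1 : AddGroup.FG (Additive B) := inferInstance
  have h2 : Module.Finite ℤ (Additive B) := Module.Finite.iff_addGroup_fg.2 h1
  have h3 : (Subgroup.toAddSubgroup H).toIntSubmodule.FG := IsNoetherian.noetherian _
  have h4 : (Subgroup.toAddSubgroup H).FG := by
    rw [Submodule.fg_iff_addSubgroup_fg, AddSubgroup.toIntSubmodule_toAddSubgroup] at h3
    exact h3
  have h5 : H.FG := by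
    rw [Subgroup.fg_iff_add_fg]
    exact h4
  exact (Group.fg_iff_subgroup_fg H).2 h5

/-- The rank is additive. -/
theorem rank_add {B C : Type} [CommGroup B] [CommGroup C] [Group.FG B] (f : B →* C) :
    Module.finrank ℤ (Additive B) =
      Module.finrank ℤ (Additive f.ker) + Module.finrank ℤ (Additive f.range) := by
  let F : Additive B →ₗ[ℤ] Additive C := (MonoidHom.toAdditive f).toIntLinearMap
  have h1 : AddGroup.FG (Additive B) := inferInstance
  have h2 : Module.Finite ℤ (Additive B) := Module.Finite.iff_addGroup_fg.2 h1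
  have h3 := Submodule.finrank_quotient_add_finrank (LinearMap.ker F)
  rw [F.quotKerEquivRange.finrank_eq] at h3
  have h4 : Module.finrank ℤ (LinearMap.range F) = Module.finrank ℤ (Additive f.range) := by
    refine LinearEquiv.finrank_eq (LinearEquiv.ofBijective
      (AddMonoidHom.toIntLinearMap (AddMonoidHom.mk' (fun x : LinearMap.range F =>
        (Additive.ofMul (⟨Additive.toMul x.1, by
          obtain ⟨y, hy⟩ := x.2
          exact ⟨Additive.toMul y, congrArg Additive.toMul hy⟩⟩ : f.range) : Additive f.range))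
        (fun x y => rfl))) ⟨?_, ?_⟩)
    · intro x y h
      apply Subtype.ext
      exact congrArg (fun z : Additive f.range => Additive.ofMul (Additive.toMul z).1) h
    · intro z
      refine ⟨⟨Additive.ofMul (Additive.toMul z).1, ?_⟩, rfl⟩
      obtain ⟨y, hy⟩ := (Additive.toMul z).2
      exact ⟨Additive.ofMul y, congrArg Additive.ofMul hy⟩
  have h5 : Module.finrank ℤ (LinearMap.ker F) = Module.finrank ℤ (Additive f.ker) := by
    refine LinearEquiv.finrank_eq (LinearEquiv.ofBijective
      (AddMonoidHom.toIntLinearMap (AddMonoidHom.mk' (fun x : LinearMap.ker F =>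
        (Additive.ofMul (⟨Additive.toMul x.1, by
          have := x.2
          rw [LinearMap.mem_ker] at this
          exact congrArg Additive.toMul this⟩ : f.ker) : Additive f.ker))
        (fun x y => rfl))) ⟨?_, ?_⟩)
    · intro x y h
      apply Subtype.ext
      exact congrArg (fun z : Additive f.ker => Additive.ofMul (Additive.toMul z).1) h
    · intro z
      refine ⟨⟨Additive.ofMul (Additive.toMul z).1, ?_⟩, rfl⟩
      rw [LinearMap.mem_ker]
      exact congrArg Additive.ofMul (Additive.toMul z).2
  rw [h4, h5] at h3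
  omega

theorem rank_finite {B : Type} [CommGroup B] [Group.FG B] (H : Subgroup B) (h : H.index ≠ 0) :
    Module.finrank ℤ (Additive H) = Module.finrank ℤ (Additive B) := by
  have h1 := rank_add (QuotientGroup.mk' H)
  have hfi0 : H.FiniteIndex := ⟨h⟩
  have hfi : Finite (B ⧸ H) := Subgroup.finite_quotient_of_finiteIndex
  rw [H16Aux.finrank_finite (B := (QuotientGroup.mk' H).range), add_zero] at h1
  rw [h1]
  exact H16Aux.finrank_congr (MulEquiv.subgroupCongr (QuotientGroup.ker_mk' H).symm)

namespace H16Aux

theorem card_pt_congr {B C : Type} [CommGroup B] [CommGroup C] (e : B ≃* C) (p : ℕ) :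
    Nat.card {b : B // b ^ p = 1} = Nat.card {c : C // c ^ p = 1} :=
  Nat.card_congr (e.toEquiv.subtypeEquiv fun b => by
    change b ^ p = 1 ↔ (e b) ^ p = 1
    rw [← map_pow, MulEquiv.map_eq_one_iff])

theorem index_congr {B C : Type} [CommGroup B] [CommGroup C] (e : B ≃* C) (p : ℕ) :
    (powMonoidHom p : B →* B).range.index = (powMonoidHom p : C →* C).range.index := by
  have h : (powMonoidHom p : C →* C).range = (powMonoidHom p : B →* B).range.map e.toMonoidHom := by
    ext c
    rw [MonoidHom.mem_range, Subgroup.mem_map]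
    constructor
    · rintro ⟨d, rfl⟩
      refine ⟨(e.symm d) ^ p, ⟨e.symm d, rfl⟩, ?_⟩
      change e ((e.symm d) ^ p) = d ^ p
      rw [map_pow, MulEquiv.apply_symm_apply]
    · rintro ⟨b, ⟨b', rfl⟩, rfl⟩
      refine ⟨e b', ?_⟩
      change (e b') ^ p = e (b' ^ p)
      rw [map_pow]
  rw [h, Subgroup.index_map_of_bijective e.bijective]

theorem index_finite {T : Type} [CommGroup T] [Finite T] (p : ℕ) :
    (powMonoidHom p : T →* T).range.index = Nat.card {b : T // b ^ p = 1} := by
  have h1 := Subgroup.card_mul_index (powMonoidHom p : T →* T).range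
  have h2 := Subgroup.card_mul_index (powMonoidHom p : T →* T).ker
  rw [Subgroup.index_ker] at h2
  have h3 : Nat.card (powMonoidHom p : T →* T).ker = Nat.card {b : T // b ^ p = 1} := rfl
  rw [h3] at h2
  have h4 : 0 < Nat.card (powMonoidHom p : T →* T).range := Nat.card_pos
  have h5 : Nat.card (powMonoidHom p : T →* T).range * (powMonoidHom p : T →* T).range.index =
      Nat.card (powMonoidHom p : T →* T).range * Nat.card {b : T // b ^ p = 1} := by
    rw [h1, ← h2, mul_comm]
  exact Nat.eq_of_mul_eq_mul_left h4 h5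

theorem index_prod {C D : Type} [CommGroup C] [CommGroup D] (p : ℕ) :
    (powMonoidHom p : C × D →* C × D).range.index =
      (powMonoidHom p : C →* C).range.index * (powMonoidHom p : D →* D).range.index := by
  have h : (powMonoidHom p : C × D →* C × D).range =
      (powMonoidHom p : C →* C).range.prod (powMonoidHom p : D →* D).range := by
    ext ⟨c, d⟩
    rw [MonoidHom.mem_range, Subgroup.mem_prod, MonoidHom.mem_range, MonoidHom.mem_range]
    constructor
    · rintro ⟨x, hx⟩
      exact ⟨⟨x.1, congrArg Prod.fst hx⟩, ⟨x.2, congrArg Prod.snd hx⟩⟩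
    · rintro ⟨⟨x, hx⟩, ⟨y, hy⟩⟩
      exact ⟨(x, y), Prod.ext hx hy⟩
  rw [h, Subgroup.index_prod]

theorem index_free {j : Type} [Fintype j] (p : ℕ) (hp : p ≠ 0) :
    (powMonoidHom p : (j → Multiplicative ℤ) →* (j → Multiplicative ℤ)).range.index =
      p ^ Fintype.card j := by
  have : NeZero p := ⟨hp⟩
  let φ : (j → Multiplicative ℤ) →* (j → Multiplicative (ZMod p)) :=
    { toFun := fun x i => Multiplicative.ofAdd ((Multiplicative.toAdd (x i) : ℤ) : ZMod p)
      map_one' := by
        funext i
        simp
      map_mul' := fun x y => by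
        funext i
        simp }
  have h1 : φ.ker = (powMonoidHom p : (j → Multiplicative ℤ) →* (j → Multiplicative ℤ)).range := by
    ext x
    rw [MonoidHom.mem_ker, MonoidHom.mem_range]
    constructor
    · intro h
      have h2 : ∀ i, ∃ y : ℤ, Multiplicative.toAdd (x i) = p * y := by
        intro i
        have h3 : ((Multiplicative.toAdd (x i) : ℤ) : ZMod p) = 0 := congrFun h i
        rw [ZMod.intCast_zmod_eq_zero_iff_dvd] at h3
        exact h3
      choose y hy using h2
      refine ⟨fun i => Multiplicative.ofAdd (y i), ?_⟩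
      funext i
      change (Multiplicative.ofAdd (y i)) ^ p = x i
      rw [← ofAdd_nsmul, nsmul_eq_mul, ← hy i]
      rfl
    · rintro ⟨y, rfl⟩
      funext i
      change ((Multiplicative.toAdd ((y i) ^ p) : ℤ) : ZMod p) = 0
      rw [toAdd_pow]
      simp
  have h2 : Function.Surjective φ := by
    intro z
    refine ⟨fun i => Multiplicative.ofAdd ((Multiplicative.toAdd (z i)).val : ℤ), ?_⟩
    funext i
    change (((Multiplicative.toAdd (z i)).val : ℤ) : ZMod p) = Multiplicative.toAdd (z i)
    simp
  rw [← h1, Subgroup.index_ker, MonoidHom.range_eq_top.2 h2, Subgroup.card_top]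
  have h3 : Nat.card (j → Multiplicative (ZMod p)) = Nat.card (j → ZMod p) := rfl
  rw [h3, Nat.card_fun, Nat.card_zmod, Nat.card_eq_fintype_card]

end H16Aux

theorem index_pow {B : Type} [CommGroup B] [Group.FG B] {p : ℕ} (hp : p.Prime) :
    (powMonoidHom p : B →* B).range.index =
      p ^ Module.finrank ℤ (Additive B) * Nat.card {b : B // b ^ p = 1} := by
  obtain ⟨ι, j, _, _, q, hq, e, ⟨E⟩⟩ := CommGroup.equiv_free_prod_prod_multiplicative_zmod B
  have hne : ∀ i, NeZero (q i ^ e i) := fun i => ⟨pow_ne_zero _ (hq i).ne_zero⟩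
  have hfin : ∀ i, Finite (Multiplicative (ZMod (q i ^ e i))) := fun i => inferInstance
  rw [H16Aux.index_congr E, H16Aux.card_pt_congr E, H16Aux.finrank_congr E, H16Aux.index_prod,
    H16Aux.index_free p hp.ne_zero, H16Aux.index_finite]
  have hFG : Group.FG ((j → Multiplicative ℤ) × ((i : ι) → Multiplicative (ZMod (q i ^ e i)))) :=
    Group.fg_of_surjective (f := E.toMonoidHom) E.surjective
  have h1 : Module.finrank ℤ (Additive ((j → Multiplicative ℤ) ×
      ((i : ι) → Multiplicative (ZMod (q i ^ e i))))) = Fintype.card j := by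
    rw [rank_add (MonoidHom.fst (j → Multiplicative ℤ)
      ((i : ι) → Multiplicative (ZMod (q i ^ e i))))]
    have h2 : Finite (MonoidHom.fst (j → Multiplicative ℤ)
      ((i : ι) → Multiplicative (ZMod (q i ^ e i)))).ker := by
      refine Finite.of_injective (fun x => x.1.2) ?_
      intro x y h
      apply Subtype.ext
      refine Prod.ext ?_ h
      have hx : x.1.1 = 1 := x.2
      have hy : y.1.1 = 1 := y.2
      rw [hx, hy]
    rw [H16Aux.finrank_finite, zero_add]
    have h3 : (MonoidHom.fst (j → Multiplicative ℤ)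
      ((i : ι) → Multiplicative (ZMod (q i ^ e i)))).range = ⊤ :=
      MonoidHom.range_eq_top.2 Prod.fst_surjective
    rw [h3, H16Aux.finrank_congr Subgroup.topEquiv]
    have h4 : Module.finrank ℤ (Additive (j → Multiplicative ℤ)) = Module.finrank ℤ (j → ℤ) :=
      LinearEquiv.finrank_eq (AddEquiv.toIntLinearEquiv
        { toFun := fun x i => Multiplicative.toAdd (Additive.toMul x i)
          invFun := fun x => Additive.ofMul fun i => Multiplicative.ofAdd (x i)
          left_inv := fun x => rfl
          right_inv := fun x => rfl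
          map_add' := fun x y => rfl })
    rw [h4, Module.finrank_pi]
  have h2 : Nat.card {b : (j → Multiplicative ℤ) × ((i : ι) → Multiplicative (ZMod (q i ^ e i))) //
      b ^ p = 1} = Nat.card {b : (i : ι) → Multiplicative (ZMod (q i ^ e i)) // b ^ p = 1} := by
    refine Nat.card_congr ⟨fun x => ⟨x.1.2, congrArg Prod.snd x.2⟩, fun x => ⟨(1, x.1), ?_⟩,
      fun x => ?_, fun x => rfl⟩
    · refine Prod.ext ?_ x.2
      exact one_pow _
    · apply Subtype.ext
      refine Prod.ext ?_ rfl
      have h3 : x.1.1 ^ p = 1 := congrArg Prod.fst x.2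
      funext i
      have h4 : (x.1.1 i) ^ p = 1 := congrFun h3 i
      have h5 : (p : ℤ) * Multiplicative.toAdd (x.1.1 i) = 0 := by
        have := congrArg Multiplicative.toAdd h4
        rw [toAdd_pow, toAdd_one, nsmul_eq_mul] at this
        exact this
      have h6 : Multiplicative.toAdd (x.1.1 i) = 0 := by
        rcases mul_eq_zero.1 h5 with h | h
        · exact absurd h (by exact_mod_cast hp.ne_zero)
        · exact h
      change (1 : Multiplicative ℤ) = x.1.1 i
      rw [← ofAdd_toAdd (x.1.1 i), h6]
      rfl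
  rw [h1, h2]

namespace H16Aux

open Polynomial

variable {B : Type} [CommGroup B]

/-- An endomorphism of `Additive B` as an endomorphism of `B`. -/
def toB (g : AddMonoid.End (Additive B)) : B →* B where
  toFun b := Additive.toMul (g (Additive.ofMul b))
  map_one' := congrArg Additive.toMul (map_zero g)
  map_mul' x y := congrArg Additive.toMul (map_add g (Additive.ofMul x) (Additive.ofMul y))

theorem toB_mul (g h : AddMonoid.End (Additive B)) : toB (g * h) = (toB g).comp (toB h) := rfl

theorem range_le {T : AddMonoid.End (Additive B)} {P Q : ℤ[X]} (h : P ∣ Q) :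
    (toB (aeval T Q)).range ≤ (toB (aeval T P)).range := by
  obtain ⟨R, rfl⟩ := h
  rw [map_mul, toB_mul, MonoidHom.range_comp]
  exact Subgroup.map_le_range _ _

theorem ker_le {T : AddMonoid.End (Additive B)} {P Q : ℤ[X]} (h : P ∣ Q) :
    (toB (aeval T P)).ker ≤ (toB (aeval T Q)).ker := by
  obtain ⟨R, rfl⟩ := h
  rw [mul_comm P R, map_mul, toB_mul]
  intro x hx
  rw [MonoidHom.mem_ker, MonoidHom.comp_apply, MonoidHom.mem_ker.1 hx, map_one]

theorem dvd_prod {p : ℕ} (hp : p.Prime) :
    cyclotomic p ℤ ∣ (∏ k ∈ Finset.range (p - 1), (1 - X ^ (k + 1) : ℤ[X])) - (p : ℤ[X]) := by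
  have hζ := Complex.isPrimitiveRoot_exp p hp.ne_zero
  rw [cyclotomic_eq_minpoly hζ hp.pos]
  refine minpoly.isIntegrallyClosed_dvd (hζ.isIntegral hp.pos) ?_
  obtain ⟨n, rfl⟩ : ∃ n, p = n + 1 := ⟨p - 1, by have := hp.pos; omega⟩
  have h := hζ.prod_one_sub_pow_eq_order
  rw [map_sub, map_prod]
  simp only [map_sub, map_one, map_pow, aeval_X, map_natCast, Nat.add_sub_cancel]
  rw [h]
  push_cast
  ring

end H16Aux

theorem herbrand {B : Type} [CommGroup B] [Group.FG B] {p : ℕ} (hp : p.Prime) (t f : B →* B)
    (hf : ∀ b, f b = b / t b) (ht : ∀ b, ∏ i ∈ Finset.range p, (t ^[i]) b = 1) :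
    f.range.index ^ (p - 1) = Nat.card f.ker ^ (p - 1) * p ^ Module.finrank ℤ (Additive B) := by
  open Polynomial H16Aux in
  let T : AddMonoid.End (Additive B) := MonoidHom.toAdditive t
  have hTi : ∀ (i : ℕ) (b : B), (T ^ i) (Additive.ofMul b) = Additive.ofMul ((t ^[i]) b) := by
    intro i
    induction i with
    | zero => intro b; rfl
    | succ n ih =>
      intro b
      rw [pow_succ, Function.iterate_succ_apply]
      exact ih (t b)
  have hcyc : aeval T (cyclotomic p ℤ) = 0 := by
    have : Fact p.Prime := ⟨hp⟩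
    rw [cyclotomic_prime, map_sum]
    simp only [map_pow, aeval_X]
    apply AddMonoidHom.ext
    intro b
    have h1 : (∑ i ∈ Finset.range p, T ^ i : AddMonoid.End (Additive B)) b =
        ∑ i ∈ Finset.range p, (T ^ i) b :=
      AddMonoidHom.finsetSum_apply _ _ _
    have h2 : ∑ i ∈ Finset.range p, (T ^ i) b =
        Additive.ofMul (∏ i ∈ Finset.range p, (t ^[i]) (Additive.toMul b)) := by
      rw [ofMul_prod]
      exact Finset.sum_congr rfl fun i _ => hTi i _
    rw [ht] at h2
    exact h1.trans h2
  have hTp : T ^ p = 1 := by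
    have h1 : (X ^ p - 1 : ℤ[X]) = cyclotomic p ℤ * (X - 1) := by
      have : Fact p.Prime := ⟨hp⟩
      exact (cyclotomic_prime_mul_X_sub_one ℤ p).symm
    have h2 : aeval T (X ^ p - 1 : ℤ[X]) = 0 := by
      rw [h1, map_mul, hcyc, zero_mul]
    rw [map_sub, map_pow, aeval_X, map_one, sub_eq_zero] at h2
    exact h2
  have hf1 : f = toB (aeval T (1 - X : ℤ[X])) := by
    rw [map_sub, map_one, aeval_X]
    ext b
    have h1 : (1 - T) (Additive.ofMul b) = Additive.ofMul b - T (Additive.ofMul b) :=
      AddMonoidHom.sub_apply _ _ _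
    rw [hf]
    exact (congrArg Additive.toMul h1).symm
  have hk : ∀ k, k < p - 1 → (toB (aeval T (1 - X ^ (k + 1) : ℤ[X]))).range = f.range ∧
      (toB (aeval T (1 - X ^ (k + 1) : ℤ[X]))).ker = f.ker := by
    intro k hk
    have hd1 : (1 - X : ℤ[X]) ∣ 1 - X ^ (k + 1) := by
      have := sub_dvd_pow_sub_pow (1 : ℤ[X]) X (k + 1)
      rwa [one_pow] at this
    obtain ⟨m, -, hm⟩ := Nat.exists_mul_mod_eq_one_of_coprime (n := k + 1) (k := p)
      (Nat.coprime_of_lt_prime (Nat.succ_ne_zero k) (by omega) hp).symm hp.one_lt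
    have hd2 : (1 - X ^ (k + 1) : ℤ[X]) ∣ 1 - X ^ ((k + 1) * m) := by
      have := sub_dvd_pow_sub_pow (1 : ℤ[X]) (X ^ (k + 1)) m
      rwa [one_pow, ← pow_mul] at this
    have hT : aeval T (1 - X ^ ((k + 1) * m) : ℤ[X]) = aeval T (1 - X : ℤ[X]) := by
      rw [map_sub, map_sub, map_one, map_pow, aeval_X]
      congr 1
      rw [← Nat.div_add_mod ((k + 1) * m) p, hm, pow_add, pow_mul, hTp, one_pow, one_mul, pow_one]
    rw [hf1]
    refine ⟨le_antisymm (range_le hd1) ?_, le_antisymm ?_ (ker_le hd1)⟩
    · rw [← hT]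
      exact range_le hd2
    · rw [← hT]
      exact ker_le hd2
  -- the partial products
  let G : ℕ → ℤ[X] := fun m => ∏ k ∈ Finset.range m, (1 - X ^ (k + 1) : ℤ[X])
  have hGp : toB (aeval T (G (p - 1))) = powMonoidHom p := by
    obtain ⟨c, hc⟩ := dvd_prod hp
    have h1 : aeval T (G (p - 1)) = (p : AddMonoid.End (Additive B)) := by
      have h2 : aeval T (G (p - 1) - (p : ℤ[X])) = 0 := by
        rw [show G (p - 1) - (p : ℤ[X]) = _ from hc, map_mul, hcyc, zero_mul]
      rw [map_sub, map_natCast, sub_eq_zero] at h2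
      exact h2
    rw [h1]
    ext b
    exact congrArg Additive.toMul (AddMonoid.End.natCast_apply p (Additive.ofMul b))
  have hpi : (powMonoidHom p : B →* B).range.index ≠ 0 := by
    have := Subgroup.finiteIndex_range_powMonoidHom_of_fg B hp.ne_zero
    exact this.index_ne_zero
  have hpk : Finite (powMonoidHom p : B →* B).ker := by
    have h1 : Group.FG (powMonoidHom p : B →* B).ker := fg_sub _
    apply CommGroup.finite_of_fg_isMulTorsion
    intro x
    rw [isOfFinOrder_iff_pow_eq_one]
    exact ⟨p, hp.pos, Subtype.ext x.2⟩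
  have hGd : ∀ m, m ≤ p - 1 → G m ∣ G (p - 1) := fun m hm =>
    Finset.prod_dvd_prod_of_subset _ _ _ (Finset.range_subset_range.2 hm)
  have hGi : ∀ m, m ≤ p - 1 → (toB (aeval T (G m))).range.index ≠ 0 := by
    intro m hm h0
    have h1 := Subgroup.index_dvd_of_le (range_le (T := T) (hGd m hm))
    rw [h0, zero_dvd_iff, hGp] at h1
    exact hpi h1
  have hGk : ∀ m, m ≤ p - 1 → Finite (toB (aeval T (G m))).ker := by
    intro m hm
    have h1 := ker_le (T := T) (hGd m hm)
    rw [hGp] at h1
    exact Finite.Set.subset _ h1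
  have hp1 : 1 ≤ p - 1 := by have := hp.two_le; omega
  have hfi : f.range.index ≠ 0 := by
    have := hGi 1 hp1
    have h2 : G 1 = 1 - X := by simp [G]
    rwa [h2, ← hf1] at this
  have hfk : Finite f.ker := by
    have := hGk 1 hp1
    have h2 : G 1 = 1 - X := by simp [G]
    rwa [h2, ← hf1] at this
  have key : ∀ m, m ≤ p - 1 → (toB (aeval T (G m))).range.index * Nat.card f.ker ^ m =
      f.range.index ^ m * Nat.card (toB (aeval T (G m))).ker := by
    intro m
    induction m with
    | zero =>
      intro _
      have h0 : toB (aeval T (G 0)) = MonoidHom.id B := by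
        have : G 0 = 1 := by simp [G]
        rw [this, map_one]
        rfl
      rw [h0, pow_zero, pow_zero, MonoidHom.range_eq_top.2 Function.surjective_id,
        Subgroup.index_top, (MonoidHom.ker_eq_bot_iff _).2 Function.injective_id,
        Subgroup.card_bot]
    | succ m ih =>
      intro hm
      have ih' := ih (by omega)
      obtain ⟨hr, hkk⟩ := hk m (by omega)
      have hG : toB (aeval T (G (m + 1))) =
          (toB (aeval T (G m))).comp (toB (aeval T (1 - X ^ (m + 1) : ℤ[X]))) := by
        have : G (m + 1) = G m * (1 - X ^ (m + 1)) := Finset.prod_range_succ _ _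
        rw [this, map_mul, toB_mul]
      have h1 := index_mul (toB (aeval T (G m))) (toB (aeval T (1 - X ^ (m + 1) : ℤ[X])))
        (hGi m (by omega)) (by rw [hr]; exact hfi) (hGk m (by omega)) (by rw [hkk]; exact hfk)
      rw [← hG, hr, hkk] at h1
      have hpos : 0 < Nat.card (toB (aeval T (G m))).ker := by
        have := hGk m (by omega)
        exact Nat.card_pos
      apply Nat.eq_of_mul_eq_mul_left hpos
      calc Nat.card (toB (aeval T (G m))).ker *
            ((toB (aeval T (G (m + 1)))).range.index * Nat.card f.ker ^ (m + 1))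
          = ((toB (aeval T (G (m + 1)))).range.index *
              (Nat.card (toB (aeval T (G m))).ker * Nat.card f.ker)) * Nat.card f.ker ^ m := by
            ring
        _ = ((toB (aeval T (G m))).range.index * Nat.card f.ker ^ m) * f.range.index *
              Nat.card (toB (aeval T (G (m + 1)))).ker := by
            rw [h1]
            ring
        _ = _ := by
            rw [ih']
            ring
  have h1 := key (p - 1) le_rfl
  rw [hGp, index_pow hp] at h1
  have h2 : Nat.card (powMonoidHom p : B →* B).ker = Nat.card {b : B // b ^ p = 1} := rfl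
  rw [← h2] at h1
  have h3 : 0 < Nat.card (powMonoidHom p : B →* B).ker := Nat.card_pos
  apply Nat.eq_of_mul_eq_mul_left h3
  rw [mul_comm _ (f.range.index ^ (p - 1)), ← h1]
  ring

end Pool.Agent.RG.H
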