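import Mathlib
import Pool.Agent.Lib.RG.HDefs
import Pool.Agent.Lib.RG.H01
import Pool.Agent.Lib.RG.H02
import Pool.Agent.Lib.RG.H03
import Pool.Agent.Lib.RG.H06

/-!
Row H17: Hilbert 90 for `S`-units. Hilbert 90 (Mathlib `groupCohomology.exists_div_of_norm_eq_one`)
gives `u = x / σ x`, `x : L^*`. For `w` not above `S`: `w(x) = w(σ x)`, so the valuation of `x` at
the primes above `v ∉ S` is constant, `= k v`; `w` is unramified, so `x ∏ ϖ_v ^ (- k v)` is an
`S`-unit (`prK`).
-/

set_option autoImplicit false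
set_option linter.unusedSectionVars false

namespace Pool.Agent.RG.H

open NumberField IsDedekindDomain WithZero

private theorem vl_zpow_aux {M : Type} [Field M] [NumberField M] (v : Pr M) (x : Mˣ) (n : ℤ) :
    vl v (x ^ n) = n * vl v x := by
  obtain ⟨m, rfl | rfl⟩ := n.eq_nat_or_neg
  · rw [zpow_natCast, vl_pow]
  · rw [zpow_neg, zpow_natCast, vl_inv, vl_pow]
    ring

private theorem vl_prod_aux {M : Type} [Field M] [NumberField M] (v : Pr M) {ι : Type}
    (s : Finset ι) (f : ι → Mˣ) : vl v (∏ i ∈ s, f i) = ∑ i ∈ s, vl v (f i) := by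
  classical
  induction s using Finset.induction_on with
  | empty => simp
  | insert a s ha ih => rw [Finset.prod_insert ha, Finset.sum_insert ha, vl_mul, ih]

variable {K L : Type} [Field K] [NumberField K] [Field L] [NumberField L] [Algebra K L]

variable [IsGalois K L] {p : ℕ}

theorem hilbert90_SU (h : Hyp K L p) {S : Finset (Pr K)} (hS : Good K L p S)
    {T : Finset (Pr L)} (hT : ∀ w, w ∈ T ↔ (below w : Pr K) ∈ S) {σ : L ≃ₐ[K] L} (hσ : σ ≠ 1)
    {u : Lˣ} (hu : u ∈ SU T) (hN : nrm K L u = 1) :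
    ∃ x ∈ SU T, (u : L) * σ (x : L) = x := by
  classical
  have hpf : Fact p.Prime := ⟨h.prime⟩
  have hcard : Nat.card (L ≃ₐ[K] L) = p := by rw [IsGalois.card_aut_eq_finrank, h.rank]
  have hz : Subgroup.zpowers σ = ⊤ := zpowers_eq_top_of_prime_card hcard hσ
  have hg : ∀ τ : L ≃ₐ[K] L, τ ∈ Subgroup.zpowers σ := fun τ => by rw [hz]; trivial
  have hcyc : IsCyclic (L ≃ₐ[K] L) := ⟨σ, hg⟩
  have hN' : Algebra.norm K (u : L) = 1 := by
    rw [← nrm_val, hN, Units.val_one]
  obtain ⟨y, hy⟩ := groupCohomology.exists_div_of_norm_eq_one hg hN'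
  have hσy0 : σ (y : L) ≠ 0 := by
    rw [Ne, map_eq_zero_iff _ σ.injective]
    exact y.ne_zero
  have hy' : (u : L) * σ (y : L) = y := by
    rw [← hy, div_mul_cancel₀ _ hσy0]
  -- the valuation of `τ y`
  have hτ : ∀ w : Pr L, w ∉ T → ∀ τ : L ≃ₐ[K] L,
      w.valuation L (τ (σ (y : L))) = w.valuation L (τ (y : L)) := by
    intro w hw τ
    obtain ⟨w', hb, hw'⟩ := exists_translate w τ
    have hw'T : w' ∉ T := by
      rw [hT, hb, ← hT]
      exact hw
    have h1 : w'.valuation L (u : L) = 1 := vl_eq_zero.1 (hu w' hw'T)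
    have h2 : w'.valuation L (y : L) = w'.valuation L (σ (y : L)) := by
      conv_lhs => rw [← hy']
      rw [map_mul, h1, one_mul]
    rw [← hw', ← hw', h2]
  have hpow : ∀ w : Pr L, w ∉ T → ∀ n : ℕ,
      w.valuation L ((σ ^ n) (y : L)) = w.valuation L (y : L) := by
    intro w hw n
    induction n with
    | zero => simp
    | succ n ih =>
      rw [pow_succ, AlgEquiv.mul_apply, hτ w hw, ih]
  have hall : ∀ w : Pr L, w ∉ T → ∀ τ : L ≃ₐ[K] L,
      w.valuation L (τ (y : L)) = w.valuation L (y : L) := by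
    intro w hw τ
    have hfin : Finite (L ≃ₐ[K] L) := Nat.finite_of_card_ne_zero (by rw [hcard]; exact h.prime.ne_zero)
    obtain ⟨n, rfl⟩ : ∃ n : ℕ, σ ^ n = τ := by
      have := mem_powers_iff_mem_zpowers.2 (hg τ)
      exact this
    exact hpow w hw n
  have hconst : ∀ w w' : Pr L, w ∉ T → (below w : Pr K) = below w' → vl w y = vl w' y := by
    intro w w' hw hb
    obtain ⟨τ, hτ'⟩ := exists_conj w w' hb
    unfold vl
    rw [hτ' (y : L), hall w hw τ]
  -- the exponents
  choose ab hab using fun v : Pr K => exists_above (L := L) v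
  set k : Pr K → ℤ := fun v => vl (ab v) y with hk
  have hky : ∀ w : Pr L, w ∉ T → vl w y = k (below w : Pr K) := by
    intro w hw
    exact hconst w (ab (below w)) hw (hab _).symm
  obtain ⟨T', hT'⟩ := fin_vl y
  choose ϖ hϖ1 hϖ2 using hS.prK
  set S' : Finset (Pr K) := (T'.image fun w => (below w : Pr K)) \ S with hS'
  set z : Kˣ := ∏ v ∈ S'.attach, (ϖ v.1 (Finset.mem_sdiff.1 v.2).2) ^ (-k v.1) with hz
  have hzv : ∀ v, v ∉ S → vl v z = -k v := by
    intro v hv
    rw [hz, vl_prod_aux]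
    by_cases hvS' : v ∈ S'
    · rw [Finset.sum_eq_single (⟨v, hvS'⟩ : {x // x ∈ S'})]
      · rw [vl_zpow_aux, hϖ1, mul_one]
      · intro v' _ hne
        rw [vl_zpow_aux, hϖ2 v'.1 _ v hv, mul_zero]
        rintro rfl
        exact hne rfl
      · intro hn
        exact absurd (Finset.mem_attach _ _) hn
    · have hk0 : k v = 0 := by
        by_contra hne
        apply hvS'
        rw [hS', Finset.mem_sdiff]
        refine ⟨Finset.mem_image.2 ⟨ab v, ?_, hab v⟩, hv⟩
        by_contra hnot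
        exact hne (hT' _ hnot)
      rw [hk0, neg_zero]
      refine Finset.sum_eq_zero fun v' _ => ?_
      rw [vl_zpow_aux, hϖ2 v'.1 _ v hv, mul_zero]
      rintro rfl
      exact hvS' v'.2
  refine ⟨y * emb K L z, ?_, ?_⟩
  · intro w hw
    have hbw : (below w : Pr K) ∉ S := by rwa [← hT]
    rw [vl_mul, e_one w (hS.ram w hbw), hzv _ hbw, hky w hw, add_neg_cancel]
  · rw [Units.val_mul, emb_val, map_mul, AlgEquiv.commutes, ← mul_assoc, hy']

end Pool.Agent.RG.H
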