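import Mathlib
import Pool.Agent.Lib.RG.HDefs
import Pool.Agent.Lib.RG.H04
import Pool.Agent.Lib.RG.H06
import Pool.Agent.Lib.RG.H13
import Pool.Agent.Lib.RG.H15
import Pool.Agent.Lib.RG.H16
import Pool.Agent.Lib.RG.H17

/-!
Row H18: indices of `p`-th powers and norms in the `S`-units. `index_PP`: `index_pow`, `rank_SU`,
`torsion_SU`, `Units.rank K = r₂ - 1`. `index_nrm`: `A = SU T`, `B = ker N = (1 - σ) A`
(`hilbert90_SU`), `A^G = SU S`; `N A / (A^G)^p = A / (A^G B) = B / (1 - σ) B`; `herbrand` for `B` with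
`ker (1 - σ) = μ_p`; `rank B = rank A - rank A^G` (`N : A → A^G` has finite cokernel),
`rank A = p r₂ - 1 + |T|`, `|T| = p (|S| - s') + s'` (`card_up`), `s' = |nsF L S|`.
-/

set_option autoImplicit false
set_option linter.unusedSectionVars false

namespace Pool.Agent.RG.H

open NumberField IsDedekindDomain WithZero

variable {K L : Type} [Field K] [NumberField K] [Field L] [NumberField L] [Algebra K L]

variable {p : ℕ}

private theorem H18_SU_of_pow (hp : p ≠ 0) {S : Finset (Pr K)} {x : Kˣ} (hx : x ^ p ∈ SU S) :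
    x ∈ SU S := by
  intro v hv
  have h := hx v hv
  rw [vl_pow] at h
  rcases mul_eq_zero.1 h with h1 | h1
  · exact absurd (Int.natCast_eq_zero.1 h1) hp
  · exact h1

private theorem H18_relIndex_PP (hp : p ≠ 0) (S : Finset (Pr K)) :
    (PP K p).relIndex (SU S) = (powMonoidHom p : SU S →* SU S).range.index := by
  unfold Subgroup.relIndex
  congr 1
  ext x
  rw [Subgroup.mem_subgroupOf, mem_PP, MonoidHom.mem_range]
  constructor
  · rintro ⟨y, hy⟩
    refine ⟨⟨y, H18_SU_of_pow hp (by rw [hy]; exact x.2)⟩, ?_⟩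
    ext1
    exact hy
  · rintro ⟨y, hy⟩
    refine ⟨y, ?_⟩
    have := congrArg Subtype.val hy
    exact this

private theorem H18_rank (hp : p.Prime) (hp2 : p ≠ 2) {ζ : K} (hζ : IsPrimitiveRoot ζ p) :
    Units.rank K + 1 = InfinitePlace.nrComplexPlaces K := by
  obtain ⟨h1, h2⟩ := finrank_eq hp hp2 hζ
  have h3 : 0 < Module.finrank ℚ K := Module.finrank_pos
  unfold Units.rank
  rw [InfinitePlace.card_eq_nrRealPlaces_add_nrComplexPlaces, h2]
  omega

theorem index_PP (hp : p.Prime) (hp2 : p ≠ 2) {ζ : K} (hζ : IsPrimitiveRoot ζ p)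
    (S : Finset (Pr K)) :
    (PP K p).relIndex (SU S) = p ^ (S.card + InfinitePlace.nrComplexPlaces K) := by
  have := fg_SU S
  rw [H18_relIndex_PP hp.ne_zero, index_pow hp, rank_SU, torsion_SU hp hζ, ← pow_succ,
    ← H18_rank hp hp2 hζ]
  congr 1
  ring

/-- The pure group theory: `N A / (A^G)^p = A / (A^G B) = B / (1 - σ) B`. -/
private theorem H18_alg {A U : Type} [CommGroup A] [CommGroup U] (s : A →* A) (N : A →* U)
    (E : U →* A) (hE : ∀ x, s (E x) = E x) (hNE : ∀ x, N (E x) = x ^ p)
    (hfix : ∀ a, s a = a → ∃ x, E x = a) (h90 : ∀ u, N u = 1 → ∃ x, u * s x = x)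
    (t f : N.ker →* N.ker) (ht : ∀ b, (t b : A) = s b) (hf : ∀ b, f b = b / t b)
    (hNs : ∀ a, N (s a) = N a) :
    N.range.index * f.range.index = (powMonoidHom p : U →* U).range.index := by
  have hle : (powMonoidHom p : U →* U).range ≤ N.range := by
    rintro _ ⟨x, rfl⟩
    exact ⟨E x, hNE x⟩
  rw [← Subgroup.relIndex_mul_index hle, mul_comm]
  congr 1
  rw [← Subgroup.index_comap]
  let D : A →* N.ker :=
    { toFun := fun a => ⟨a / s a, by rw [MonoidHom.mem_ker, map_div, hNs, div_self']⟩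
      map_one' := by
        ext1
        change (1 : A) / s 1 = 1
        rw [map_one, div_one]
      map_mul' := fun a b => by
        ext1
        change a * b / s (a * b) = a / s a * (b / s b)
        rw [map_mul, mul_div_mul_comm] }
  have hD : ∀ a, (D a : A) = a / s a := fun a => rfl
  have hsurj : Function.Surjective D := by
    intro u
    obtain ⟨x, hx⟩ := h90 u u.2
    refine ⟨x, ?_⟩
    ext1
    rw [hD, div_eq_iff_eq_mul, hx]
  have h1 : (f.range.comap D).index = f.range.index :=
    Subgroup.index_comap_of_surjective _ hsurj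
  rw [← h1]
  congr 1
  ext a
  rw [Subgroup.mem_comap, Subgroup.mem_comap]
  constructor
  · rintro ⟨b, hb⟩
    -- `D a = b / s b`, so `a / b` is fixed
    have h2 : a / s a = b / s b := by
      have := congrArg Subtype.val hb
      rw [hf, Subgroup.coe_div, ht, hD] at this
      exact this.symm
    have h3 : s (a / b) = a / b := by
      rw [map_div]
      rw [div_eq_div_iff_mul_eq_mul] at h2 ⊢
      rw [mul_comm, ← h2, mul_comm]
    obtain ⟨x, hx⟩ := hfix _ h3
    refine ⟨x, ?_⟩
    have h4 : N (a / b) = N a := by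
      rw [map_div, (MonoidHom.mem_ker).1 b.2, div_one]
    change x ^ p = N a
    rw [← hNE, hx, h4]
  · rintro ⟨x, hx⟩
    have hx' : x ^ p = N a := hx
    refine ⟨⟨a / E x, by rw [MonoidHom.mem_ker, map_div, hNE, hx', div_self']⟩, ?_⟩
    ext1
    rw [hf, Subgroup.coe_div, ht, hD]
    change a / E x / s (a / E x) = a / s a
    rw [map_div, hE, div_div_div_cancel_right]

private theorem H18_alg_rank {A U : Type} [CommGroup A] [CommGroup U] [Group.FG A] [Group.FG U]
    (N : A →* U) (E : U →* A) (hNE : ∀ x, N (E x) = x ^ p)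
    (hfin : (powMonoidHom p : U →* U).range.index ≠ 0) :
    Module.finrank ℤ (Additive A) = Module.finrank ℤ (Additive N.ker) +
      Module.finrank ℤ (Additive U) := by
  have hle : (powMonoidHom p : U →* U).range ≤ N.range := by
    rintro _ ⟨x, rfl⟩
    exact ⟨E x, hNE x⟩
  rw [rank_add N, rank_finite N.range]
  intro h
  apply hfin
  rw [← Subgroup.relIndex_mul_index hle, h, mul_zero]

section galois

variable [IsGalois K L]

private theorem H18_SU_conj {S : Finset (Pr K)} {T : Finset (Pr L)}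
    (hT : ∀ w, w ∈ T ↔ (below w : Pr K) ∈ S) (σ : L ≃ₐ[K] L) {x : Lˣ} (hx : x ∈ SU T) :
    Units.map ((σ : L →+* L) : L →* L) x ∈ SU T := by
  intro w hw
  obtain ⟨w', h1, h2⟩ := exists_translate w σ
  have h3 : w' ∉ T := by
    rw [hT, h1, ← hT]
    exact hw
  have h4 := hx w' h3
  rw [vl_eq_zero, h2] at h4
  rw [vl_eq_zero]
  exact h4

private theorem H18_prod (hL : Module.finrank K L = p) (hp : p.Prime) {σ : L ≃ₐ[K] L}
    (hσ : σ ≠ 1) (b : L) : ∏ τ : L ≃ₐ[K] L, τ b = ∏ i ∈ Finset.range p, (σ ^ i) b := by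
  classical
  have hp' : Fact p.Prime := ⟨hp⟩
  have hcard : Nat.card (L ≃ₐ[K] L) = p := by
    rw [IsGalois.card_aut_eq_finrank, hL]
  have hgen : ∀ x : L ≃ₐ[K] L, x ∈ Subgroup.zpowers σ :=
    fun x => mem_zpowers_of_prime_card hcard hσ
  have hord : orderOf σ = p := by
    rw [orderOf_eq_card_of_forall_mem_zpowers hgen, hcard]
  rw [← IsCyclic.image_range_orderOf hgen, Finset.prod_image, hord]
  intro i hi j hj hij
  exact pow_injOn_Iio_orderOf (by simpa using hi) (by simpa using hj) hij

end galois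

theorem index_nrm [IsGalois K L] (h : Hyp K L p) {S : Finset (Pr K)} (hS : Good K L p S)
    {T : Finset (Pr L)} (hT : ∀ w, w ∈ T ↔ (below w : Pr K) ∈ S) :
    ((SU T).map (nrm K L)).relIndex (SU S) * p = p ^ (nsF L S).card := by
  classical
  have hp := h.prime
  have hp' : Fact p.Prime := ⟨hp⟩
  have hL := h.rank
  obtain ⟨ζ, hζ⟩ := h.root
  have hζL : IsPrimitiveRoot (algebraMap K L ζ) p :=
    hζ.map_of_injective (algebraMap K L).injective
  have hcard : Nat.card (L ≃ₐ[K] L) = p := by
    rw [IsGalois.card_aut_eq_finrank, hL]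
  -- a generator
  obtain ⟨σ, hσ⟩ : ∃ σ : L ≃ₐ[K] L, σ ≠ 1 := by
    have : Nontrivial (L ≃ₐ[K] L) := by
      rw [← Finite.one_lt_card_iff_nontrivial, hcard]
      exact hp.one_lt
    exact exists_ne 1
  have fgA := fg_SU T
  have fgU := fg_SU S
  -- the maps
  let s : SU T →* SU T :=
    ((Units.map ((σ : L →+* L) : L →* L)).comp (SU T).subtype).codRestrict (SU T)
      (fun x => H18_SU_conj hT σ x.2)
  let N : SU T →* SU S :=
    ((nrm K L).comp (SU T).subtype).codRestrict (SU S) (fun x => nrm_SU hT x.2)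
  let E : SU S →* SU T :=
    ((emb K L).comp (SU S).subtype).codRestrict (SU T) (fun x => (emb_SU hT).2 x.2)
  have hs : ∀ a : SU T, (((s a : Lˣ)) : L) = σ ((a : Lˣ) : L) := fun a => rfl
  have hN : ∀ a : SU T, (N a : Kˣ) = nrm K L a := fun a => rfl
  have hEv : ∀ x : SU S, (E x : Lˣ) = emb K L x := fun x => rfl
  have hEinj : Function.Injective E := by
    intro x y hxy
    ext1
    ext1
    have h1 := congrArg (fun z : SU T => ((z : Lˣ) : L)) hxy
    simp only [hEv, emb_val] at h1
    exact (algebraMap K L).injective h1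
  have hE : ∀ x, s (E x) = E x := by
    intro x
    ext
    rw [hs, hEv, emb_val, AlgEquiv.commutes]
  have hNE : ∀ x, N (E x) = x ^ p := by
    intro x
    ext1
    rw [hN, hEv, nrm_emb hL]
    rfl
  have hiter : ∀ (a : SU T) (i : ℕ), (((s^[i] a : SU T) : Lˣ) : L) = (σ ^ i) ((a : Lˣ) : L) := by
    intro a i
    induction i with
    | zero => simp
    | succ i ih => rw [Function.iterate_succ_apply', hs, ih, pow_succ']; rfl
  have hEN : ∀ a, E (N a) = ∏ i ∈ Finset.range p, s^[i] a := by
    intro a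
    ext1
    ext1
    rw [hEv, hN, emb_nrm, H18_prod hL hp hσ]
    simp only [Subgroup.val_finsetProd, Units.coe_prod, hiter]
  have hfix : ∀ a, s a = a → ∃ x, E x = a := by
    intro a ha
    have h1 : σ ((a : Lˣ) : L) = ((a : Lˣ) : L) := by
      rw [← hs, ha]
    have h2 : ∀ τ : L ≃ₐ[K] L, τ ((a : Lˣ) : L) = ((a : Lˣ) : L) := by
      intro τ
      obtain ⟨n, rfl⟩ : τ ∈ Submonoid.powers σ := mem_powers_of_prime_card hcard hσ
      induction n with
      | zero => simp
      | succ n ih =>
        have e : (fun x => σ ^ x) (n + 1) = (σ ^ n) * σ := pow_succ σ n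
        rw [e, AlgEquiv.mul_apply, h1]
        exact ih
    obtain ⟨c, hc⟩ := (IsGalois.mem_range_algebraMap_iff_fixed _).2 h2
    have hc0 : c ≠ 0 := by
      rintro rfl
      rw [map_zero] at hc
      exact (a : Lˣ).ne_zero hc.symm
    have hc1 : emb K L (Units.mk0 c hc0) = (a : Lˣ) := by
      ext
      rw [emb_val, Units.val_mk0, hc]
    refine ⟨⟨Units.mk0 c hc0, (emb_SU hT).1 (by rw [hc1]; exact a.2)⟩, ?_⟩
    ext1
    rw [hEv]
    exact hc1
  have h90 : ∀ u, N u = 1 → ∃ x, u * s x = x := by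
    intro u hu
    have hu' : nrm K L (u : Lˣ) = 1 := by
      rw [← hN, hu]
      rfl
    obtain ⟨x, hx, hx'⟩ := hilbert90_SU h hS hT hσ u.2 hu'
    refine ⟨⟨x, hx⟩, ?_⟩
    ext
    rw [Subgroup.coe_mul, Units.val_mul, hs]
    exact hx'
  have hNs : ∀ a, N (s a) = N a := by
    intro a
    ext1
    ext1
    rw [hN, hN, nrm_val, nrm_val, hs]
    exact Algebra.norm_eq_of_algEquiv σ _
  let t : N.ker →* N.ker :=
    (s.comp N.ker.subtype).codRestrict N.ker
      (fun x => by
        rw [MonoidHom.mem_ker]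
        change N (s x) = 1
        rw [hNs]
        exact x.2)
  have ht : ∀ b, (t b : SU T) = s b := fun b => rfl
  let f : N.ker →* N.ker := MonoidHom.id _ / t
  have hf : ∀ b, f b = b / t b := fun b => rfl
  have hiter' : ∀ (b : N.ker) (i : ℕ), ((t^[i] b : N.ker) : SU T) = s^[i] (b : SU T) := by
    intro b i
    induction i with
    | zero => rfl
    | succ i ih => rw [Function.iterate_succ_apply', Function.iterate_succ_apply', ht, ih]
  have htn : ∀ b, ∏ i ∈ Finset.range p, (t^[i]) b = 1 := by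
    intro b
    ext1
    rw [Subgroup.val_finsetProd]
    simp only [hiter']
    rw [← hEN, (MonoidHom.mem_ker).1 b.2, map_one]
    rfl
  have fgB : Group.FG N.ker := fg_sub N.ker
  have hherb := herbrand hp t f hf htn
  -- the kernel of `f`
  have hker : Nat.card f.ker = p := by
    rw [← torsion_SU hp hζ S]
    symm
    refine Nat.card_congr (Equiv.ofBijective
      (fun x : {x : SU S // x ^ p = 1} =>
        (⟨⟨E x.1, by rw [MonoidHom.mem_ker, hNE, x.2]⟩, by
          rw [MonoidHom.mem_ker, hf, div_eq_one]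
          ext1
          rw [ht]
          exact (hE x.1).symm⟩ : f.ker)) ⟨?_, ?_⟩)
    · intro x y hxy
      have h1 := congrArg (fun z : f.ker => ((z : N.ker) : SU T)) hxy
      exact Subtype.ext (hEinj h1)
    · rintro ⟨⟨b, hb⟩, hb2⟩
      have h1 : s b = b := by
        rw [MonoidHom.mem_ker, hf, div_eq_one] at hb2
        have := congrArg Subtype.val hb2
        rw [ht] at this
        exact this.symm
      obtain ⟨x, hx⟩ := hfix b h1
      refine ⟨⟨x, ?_⟩, ?_⟩
      · rw [← hNE, hx]
        exact hb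
      · ext1
        ext1
        exact hx
  rw [hker] at hherb
  -- the number of `p`-th powers
  have hidx : (powMonoidHom p : SU S →* SU S).range.index =
      p ^ (S.card + InfinitePlace.nrComplexPlaces K) := by
    rw [← H18_relIndex_PP hp.ne_zero, index_PP hp h.odd hζ]
  have halg := H18_alg s N E hE hNE hfix h90 t f ht hf hNs
  have hrk := H18_alg_rank N E hNE (by rw [hidx]; exact pow_ne_zero _ hp.ne_zero)
  have hrange : ((SU T).map (nrm K L)).relIndex (SU S) = N.range.index := by
    unfold Subgroup.relIndex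
    congr 1
    ext x
    rw [Subgroup.mem_subgroupOf, Subgroup.mem_map, MonoidHom.mem_range]
    constructor
    · rintro ⟨y, hy, hyx⟩
      refine ⟨⟨y, hy⟩, ?_⟩
      ext1
      exact hyx
    · rintro ⟨y, hy⟩
      refine ⟨y, y.2, ?_⟩
      rw [← hN, hy]
  -- numbers
  have e1 := H18_rank hp h.odd hζ
  have e2 := H18_rank hp h.odd hζL
  have e3 := (finrank_eq hp h.odd hζ).1
  have e4 := (finrank_eq hp h.odd hζL).1
  have e5 : Module.finrank ℚ K * p = Module.finrank ℚ L := by
    rw [← hL]
    exact Module.finrank_mul_finrank ℚ K L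
  have e6 := card_up hp hL hT
  rw [rank_SU, rank_SU] at hrk
  rw [hidx] at halg
  rw [hrange]
  obtain ⟨q, rfl⟩ : ∃ q, p = q + 1 := ⟨p - 1, by have := hp.pos; omega⟩
  have hq : q ≠ 0 := by
    rintro rfl
    exact hp.ne_one rfl
  rw [Nat.add_sub_cancel] at hherb e6
  set P := q + 1 with hP
  set X := N.range.index
  set Y := f.range.index
  set rB := Module.finrank ℤ (Additive N.ker)
  set r2 := InfinitePlace.nrComplexPlaces K
  set R2 := InfinitePlace.nrComplexPlaces L
  set n' := (nsF L S).card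
  have e7 : R2 = r2 * P := by
    rw [e3, e4] at e5
    nlinarith
  have e8 : rB + q * n' = q * (r2 + S.card) := by
    have h1 : Units.rank L + 1 = r2 * P := by rw [e2, e7]
    have h2 : r2 * P = r2 * q + r2 := by rw [hP]; ring
    have h3 : P * S.card = q * S.card + S.card := by rw [hP]; ring
    rw [mul_add, mul_comm q r2]
    omega
  have e9 : (Y * P ^ n') ^ q = (P ^ (1 + r2 + S.card)) ^ q := by
    rw [mul_pow, hherb, ← pow_mul, ← pow_mul, mul_assoc, ← pow_add, ← pow_add]
    congr 1
    rw [mul_comm n' q, e8]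
    ring
  have e10 : Y * P ^ n' = P ^ (1 + r2 + S.card) := Nat.pow_left_injective hq e9
  have e11 : Y * (X * P) = Y * P ^ n' := by
    rw [e10]
    calc Y * (X * P) = X * Y * P := by ring
      _ = P ^ (S.card + r2) * P := by rw [halg]
      _ = P ^ (1 + r2 + S.card) := by rw [← pow_succ]; congr 1; ring
  have hY : Y ≠ 0 := by
    intro h0
    rw [h0, zero_mul] at e10
    exact absurd e10.symm (pow_ne_zero _ hp.ne_zero)
  exact Nat.eq_of_mul_eq_mul_left (Nat.pos_of_ne_zero hY) e11

end Pool.Agent.RG.H
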