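import Mathlib
import Pool.Agent.Lib.RG.HDefs

/-!
Row H10: weak approximation. `weak_approx`: write `x v = a v / b v` with integral elements,
Chinese remainder theorem with high powers of the primes (Mathlib: `IsDedekindDomain.exists_forall_sub_mem_ideal`).
`index_iInf`: `K^* → ∏ K^* / N v` is surjective with kernel `⨅ N v`.
-/

set_option autoImplicit false
set_option linter.unusedSectionVars false

namespace Pool.Agent.RG.H

open NumberField IsDedekindDomain WithZero

variable {K : Type} [Field K] [NumberField K]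

/-- additive weak approximation -/
private theorem wa_add (S : Finset (Pr K)) (x : Pr K → K) (n : Pr K → ℕ) :
    ∃ y : K, ∀ v ∈ S, v.valuation K (y - x v) ≤ exp (-(n v : ℤ)) := by
  classical
  obtain ⟨d, hd⟩ := IsLocalization.exist_integer_multiples_of_finset (nonZeroDivisors (𝓞 K))
    (S.image x)
  have hd0 : ((d : 𝓞 K) : K) ≠ 0 := by
    have := nonZeroDivisors.ne_zero d.2
    exact_mod_cast this
  have hint : ∀ v ∈ S, ∃ a : 𝓞 K, (a : K) = ((d : 𝓞 K) : K) * x v := by
    intro v hv
    obtain ⟨a, ha⟩ := hd (x v) (Finset.mem_image_of_mem _ hv)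
    refine ⟨a, ?_⟩
    have h2 : algebraMap (𝓞 K) K a = (d : 𝓞 K) • x v := ha
    rw [Algebra.smul_def] at h2
    exact h2
  choose! a ha using hint
  -- the exponents
  have hex : ∀ v : Pr K, ∃ m : ℕ, exp (-(m : ℤ)) ≤ exp (-(n v : ℤ)) * v.valuation K ((d : 𝓞 K) : K) := by
    intro v
    have h0 : v.valuation K ((d : 𝓞 K) : K) ≠ 0 := (Valuation.ne_zero_iff _).2 hd0
    have h1 : v.valuation K ((d : 𝓞 K) : K) = exp (log (v.valuation K ((d : 𝓞 K) : K))) :=
      (exp_log h0).symm
    set k := log (v.valuation K ((d : 𝓞 K) : K)) with hk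
    refine ⟨(n v + (-k).toNat), ?_⟩
    rw [h1, ← exp_add, exp_le_exp]
    push_cast
    have := Int.self_le_toNat (-k)
    omega
  choose m hm using hex
  obtain ⟨b, hb⟩ := IsDedekindDomain.exists_forall_sub_mem_ideal (s := S)
    (fun v : Pr K => v.asIdeal) m
    (fun v _ => v.prime)
    (fun v _ w _ hvw h => hvw (HeightOneSpectrum.ext h))
    (fun v : S => a v.1)
  refine ⟨(b : K) / ((d : 𝓞 K) : K), ?_⟩
  intro v hv
  have h1 : b - a v ∈ v.asIdeal ^ m v := hb v hv
  have h2 : v.valuation K ((b : K) - (a v : K)) ≤ exp (-(m v : ℤ)) := by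
    have h3 := (v.intValuation_le_pow_iff_mem (b - a v) (m v)).2 h1
    rw [← HeightOneSpectrum.valuation_of_algebraMap (K := K)] at h3
    simpa using h3
  have h4 : (b : K) / ((d : 𝓞 K) : K) - x v = ((b : K) - (a v : K)) / ((d : 𝓞 K) : K) := by
    rw [ha v hv]
    field_simp
  have h0 : v.valuation K ((d : 𝓞 K) : K) ≠ 0 := (Valuation.ne_zero_iff _).2 hd0
  rw [h4, map_div₀]
  rw [div_le_iff₀ (zero_lt_iff.2 h0)]
  exact h2.trans (hm v)

theorem weak_approx (S : Finset (Pr K)) (x : Pr K → Kˣ) (n : ℕ) :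
    ∃ y : Kˣ, ∀ v ∈ S, y / x v ∈ UU v n := by
  classical
  rcases S.eq_empty_or_nonempty with h | h
  · exact ⟨1, by simp [h]⟩
  have hex : ∀ v : Pr K, ∃ m : ℕ, exp (-(m : ℤ)) ≤ exp (-((n : ℤ) + 1)) * v.valuation K (x v : K) := by
    intro v
    rw [val_eq]
    refine ⟨(n + 1 + (vl v (x v)).toNat), ?_⟩
    rw [← exp_add, exp_le_exp]
    push_cast
    have := Int.self_le_toNat (vl v (x v))
    omega
  choose m hm using hex
  obtain ⟨y, hy⟩ := wa_add S (fun v => (x v : K)) m
  have key : ∀ v ∈ S, v.valuation K (y / (x v : K) - 1) ≤ exp (-((n : ℤ) + 1)) := by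
    intro v hv
    have h0 : v.valuation K (x v : K) ≠ 0 := val_ne_zero v (x v)
    have h1 : y / (x v : K) - 1 = (y - (x v : K)) / (x v : K) := by
      have := (x v).ne_zero
      field_simp
    rw [h1, map_div₀]
    rw [div_le_iff₀ (zero_lt_iff.2 h0)]
    exact (hy v hv).trans (hm v)
  have hone : ∀ v ∈ S, v.valuation K (y / (x v : K)) = 1 := by
    intro v hv
    have h1 : v.valuation K (y / (x v : K) - 1) < v.valuation K (1 : K) := by
      rw [map_one]
      refine lt_of_le_of_lt (key v hv) ?_
      rw [← exp_zero, exp_lt_exp]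
      omega
    have h2 : y / (x v : K) = 1 + (y / (x v : K) - 1) := by ring
    rw [h2, Valuation.map_add_eq_of_lt_left _ h1, map_one]
  have hy0 : y ≠ 0 := by
    obtain ⟨v, hv⟩ := h
    intro h0
    have := hone v hv
    rw [h0, zero_div, map_zero] at this
    exact zero_ne_one this
  refine ⟨Units.mk0 y hy0, ?_⟩
  intro v hv
  rw [mem_UU]
  have h3 : ((Units.mk0 y hy0 / x v : Kˣ) : K) = y / (x v : K) := by
    rw [Units.val_div_eq_div_val, Units.val_mk0]
  constructor
  · rw [vl_eq_zero, h3]
    exact hone v hv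
  · rw [h3]
    refine (key v hv).trans ?_
    rw [exp_le_exp]
    omega

theorem index_iInf (S : Finset (Pr K)) (N : Pr K → Subgroup Kˣ) (n : ℕ)
    (h : ∀ v ∈ S, UU v n ≤ N v) : (⨅ v ∈ S, N v).index = ∏ v ∈ S, (N v).index := by
  classical
  induction S using Finset.induction_on with
  | empty => simp
  | insert v S hv ih =>
    rw [Finset.prod_insert hv, ← ih (fun w hw => h w (Finset.mem_insert_of_mem hw)),
      Finset.iInf_insert]
    set A := ⨅ w ∈ S, N w with hA
    have hsup : A ⊔ N v = ⊤ := by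
      rw [eq_top_iff]
      intro z _
      obtain ⟨y, hy⟩ := weak_approx (insert v S) (fun w => if w = v then z else 1) n
      have h1 : y / z ∈ N v := by
        have := hy v (Finset.mem_insert_self _ _)
        rw [if_pos rfl] at this
        exact h v (Finset.mem_insert_self _ _) this
      have h2 : y ∈ A := by
        rw [hA]
        simp only [Subgroup.mem_iInf]
        intro w hw
        have hwv : w ≠ v := fun e => hv (e ▸ hw)
        have := hy w (Finset.mem_insert_of_mem hw)
        rw [if_neg hwv, div_one] at this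
        exact h w (Finset.mem_insert_of_mem hw) this
      have h3 : z = y * (y / z)⁻¹ := by
        rw [inv_div, mul_div_cancel]
      rw [h3]
      exact Subgroup.mul_mem_sup h2 ((N v).inv_mem h1)
    have h4 : (N v).relIndex A = (N v).index := by
      rw [← Subgroup.relIndex_sup_right (H := A) (K := N v), hsup, Subgroup.relIndex_top_right]
    rw [inf_comm, ← Subgroup.relIndex_mul_index (inf_le_left : A ⊓ N v ≤ A),
      Subgroup.inf_relIndex_left, h4]

/-- An element of valuation one. -/
theorem exists_unif (v : Pr K) : ∃ ϖ : Kˣ, vl v ϖ = 1 := by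
  obtain ⟨π, hπ⟩ := v.valuation_exists_uniformizer K
  have h0 : π ≠ 0 := by
    intro h
    rw [h, map_zero] at hπ
    exact exp_ne_zero hπ.symm
  exact ⟨Units.mk0 π h0, vl_eq_iff.2 hπ⟩

end Pool.Agent.RG.H
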