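import Mathlib
import Pool.Agent.Lib.RG.HDefs
import Pool.Agent.Lib.RG.H10

/-!
Row H11: the index of `K^*p (1 + v^n)`. `K^* / UU v 0 = ℤ`, `UU v 0 / UU v n = (𝓞 / v^n)^*`, and a
finite abelian group `A` has `|A / A^p| = |A[p]|`.
-/

set_option autoImplicit false
set_option linter.unusedSectionVars false

namespace Pool.Agent.RG.H

open NumberField IsDedekindDomain WithZero

variable {K : Type} [Field K] [NumberField K]

namespace H11Aux

/-- approximation by integers -/
theorem exists_int (v : Pr K) (n : ℕ) {x : K} (hx : v.valuation K x ≤ 1) :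
    ∃ a : 𝓞 K, v.valuation K ((a : K) - x) ≤ exp (-(n : ℤ)) := by
  obtain ⟨a, ha⟩ := v.exists_valuation_sub_lt_of_integer hx
    (Units.mk0 (exp (-(n : ℤ))) exp_ne_zero)
  exact ⟨a, ha.le⟩

theorem mem_pow_iff (v : Pr K) (n : ℕ) (a b : 𝓞 K) :
    Ideal.Quotient.mk (v.asIdeal ^ n) a = Ideal.Quotient.mk (v.asIdeal ^ n) b ↔
      v.valuation K ((a : K) - (b : K)) ≤ exp (-(n : ℤ)) := by
  rw [Ideal.Quotient.eq, ← v.intValuation_le_pow_iff_mem, ← v.valuation_of_algebraMap (K := K)]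
  have : ((a - b : 𝓞 K) : K) = (a : K) - (b : K) := by push_cast; rfl
  rw [← this]

/-- the units at `v` -/
abbrev A (v : Pr K) : Subgroup Kˣ := UU v 0

theorem val_A {v : Pr K} (x : A v) : v.valuation K ((x : Kˣ) : K) = 1 :=
  vl_eq_zero.1 x.2.1

theorem mem_A {v : Pr K} {x : Kˣ} (h : vl v x = 0) : x ∈ A v := by
  refine ⟨h, ?_⟩
  rw [Nat.cast_zero, neg_zero, exp_zero]
  refine (Valuation.map_sub _ _ _).trans (max_le ?_ ?_)
  · exact (vl_eq_zero.1 h).le
  · rw [map_one]

/-- an integer close to a unit at `v` -/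
noncomputable def ap (v : Pr K) (n : ℕ) (x : A v) : 𝓞 K :=
  (exists_int v n (val_A x).le).choose

theorem ap_spec (v : Pr K) (n : ℕ) (x : A v) :
    v.valuation K ((ap v n x : K) - ((x : Kˣ) : K)) ≤ exp (-(n : ℤ)) :=
  (exists_int v n (val_A x).le).choose_spec

/-- reduction of the units at `v` -/
noncomputable def red0 (v : Pr K) (n : ℕ) : A v →* (𝓞 K ⧸ v.asIdeal ^ n) where
  toFun x := Ideal.Quotient.mk _ (ap v n x)
  map_one' := by
    rw [← map_one (Ideal.Quotient.mk (v.asIdeal ^ n)), mem_pow_iff]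
    have := ap_spec v n 1
    simpa using this
  map_mul' x y := by
    rw [← map_mul (Ideal.Quotient.mk (v.asIdeal ^ n)), mem_pow_iff]
    have h1 := ap_spec v n (x * y)
    have h2 := ap_spec v n x
    have h3 := ap_spec v n y
    have e : (ap v n (x * y) : K) - ((ap v n x * ap v n y : 𝓞 K) : K) =
        ((ap v n (x * y) : K) - (((x * y : A v) : Kˣ) : K)) -
        ((ap v n x : K) * ((ap v n y : K) - ((y : Kˣ) : K)) +
          ((ap v n x : K) - ((x : Kˣ) : K)) * ((y : Kˣ) : K)) := by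
      push_cast
      ring
    rw [e]
    refine (Valuation.map_sub _ _ _).trans (max_le h1 ?_)
    refine Valuation.map_add_le _ ?_ ?_
    · rw [map_mul]
      exact (mul_le_of_le_one_left' (v.valuation_le_one _)).trans h3
    · rw [map_mul, val_A, mul_one]
      exact h2

/-- reduction of the units at `v` -/
noncomputable def red (v : Pr K) (n : ℕ) : A v →* (𝓞 K ⧸ v.asIdeal ^ n)ˣ := (red0 v n).toHomUnits

theorem red_val (v : Pr K) (n : ℕ) (x : A v) :
    ((red v n x : (𝓞 K ⧸ v.asIdeal ^ n)ˣ) : 𝓞 K ⧸ v.asIdeal ^ n) =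
      Ideal.Quotient.mk _ (ap v n x) := rfl

theorem red_eq_one_iff (v : Pr K) (n : ℕ) (x : A v) : red v n x = 1 ↔ (x : Kˣ) ∈ UU v n := by
  rw [← Units.val_inj, red_val, Units.val_one, ← map_one (Ideal.Quotient.mk (v.asIdeal ^ n)),
    mem_pow_iff, mem_UU]
  have h := ap_spec v n x
  constructor
  · intro h1
    refine ⟨x.2.1, ?_⟩
    have e : ((x : Kˣ) : K) - 1 = ((ap v n x : K) - ((1 : 𝓞 K) : K)) -
        ((ap v n x : K) - ((x : Kˣ) : K)) := by
      push_cast
      ring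
    rw [e]
    exact (Valuation.map_sub _ _ _).trans (max_le h1 h)
  · rintro ⟨-, h1⟩
    have e : (ap v n x : K) - ((1 : 𝓞 K) : K) = ((ap v n x : K) - ((x : Kˣ) : K)) +
        (((x : Kˣ) : K) - 1) := by
      push_cast
      ring
    rw [e]
    exact Valuation.map_add_le _ h h1

theorem red_surjective (v : Pr K) {n : ℕ} (hn : 1 ≤ n) : Function.Surjective (red v n) := by
  intro u
  obtain ⟨b, hb⟩ := Ideal.Quotient.mk_surjective (u : 𝓞 K ⧸ v.asIdeal ^ n)
  have hbv : b ∉ v.asIdeal := by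
    intro h
    have h1 : (u : 𝓞 K ⧸ v.asIdeal ^ n) ^ n = 0 := by
      rw [← hb, ← map_pow, Ideal.Quotient.eq_zero_iff_mem]
      exact Ideal.pow_mem_pow h n
    have h2 : IsUnit ((u : 𝓞 K ⧸ v.asIdeal ^ n) ^ n) := (Units.isUnit u).pow n
    rw [h1] at h2
    have hnt : Nontrivial (𝓞 K ⧸ v.asIdeal ^ n) := by
      refine Ideal.Quotient.nontrivial_iff.2 fun htop => ?_
      have h3 : v.asIdeal ^ n ≤ v.asIdeal := Ideal.pow_le_self (by omega)
      rw [htop, top_le_iff] at h3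
      exact v.isPrime.ne_top h3
    exact not_isUnit_zero h2
  have hval : v.valuation K (b : K) = 1 := (v.valuation_eq_one_iff_notMem).2 hbv
  have hb0 : (b : K) ≠ 0 := by
    intro h
    rw [h, map_zero] at hval
    exact zero_ne_one hval
  have hvl : vl v (Units.mk0 (b : K) hb0) = 0 := vl_eq_zero.2 hval
  refine ⟨⟨Units.mk0 (b : K) hb0, mem_A hvl⟩, ?_⟩
  rw [← Units.val_inj, red_val, ← hb, mem_pow_iff]
  exact ap_spec v n _

theorem finite_quot (v : Pr K) (n : ℕ) : Finite (𝓞 K ⧸ v.asIdeal ^ n) :=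
  Ideal.finiteQuotientOfFreeOfNeBot _ (pow_ne_zero _ v.ne_bot)

/-- valuation modulo `p` -/
noncomputable def vlp (p : ℕ) (v : Pr K) : Kˣ →* Multiplicative (ZMod p) where
  toFun x := Multiplicative.ofAdd ((vl v x : ℤ) : ZMod p)
  map_one' := by simp
  map_mul' x y := by
    rw [vl_mul, Int.cast_add, ofAdd_add]

theorem sup_eq_ker {p : ℕ} (v : Pr K) : PP K p ⊔ A v = (vlp p v).ker := by
  apply le_antisymm
  · refine sup_le ?_ ?_
    · intro x hx
      obtain ⟨y, rfl⟩ := mem_PP.1 hx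
      rw [MonoidHom.mem_ker]
      simp [vlp, vl_pow]
    · intro x hx
      rw [MonoidHom.mem_ker]
      simp [vlp, hx.1]
  · intro x hx
    rw [MonoidHom.mem_ker] at hx
    have h1 : ((vl v x : ℤ) : ZMod p) = 0 := hx
    rw [ZMod.intCast_zmod_eq_zero_iff_dvd] at h1
    obtain ⟨k, hk⟩ := h1
    obtain ⟨ϖ, hϖ⟩ := exists_unif v
    have hz : ∀ m : ℤ, vl v (ϖ ^ m) = m := by
      intro m
      rcases m.eq_nat_or_neg with ⟨j, rfl | rfl⟩
      · rw [zpow_natCast, vl_pow, hϖ, mul_one]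
      · rw [zpow_neg, vl_inv, zpow_natCast, vl_pow, hϖ, mul_one]
    rw [Subgroup.mem_sup]
    refine ⟨(ϖ ^ k) ^ p, mem_PP.2 ⟨ϖ ^ k, rfl⟩, x / (ϖ ^ k) ^ p, mem_A ?_, by simp⟩
    rw [vl_div, vl_pow, hz, hk, sub_self]

theorem index_sup {p : ℕ} (hp : p.Prime) (v : Pr K) : (PP K p ⊔ A v).index = p := by
  have : NeZero p := ⟨hp.ne_zero⟩
  rw [sup_eq_ker, Subgroup.index_ker]
  have hs : Function.Surjective (vlp p v) := by
    intro y
    obtain ⟨ϖ, hϖ⟩ := exists_unif v
    refine ⟨ϖ ^ (Multiplicative.toAdd y).val, ?_⟩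
    apply Multiplicative.toAdd.injective
    simp [vlp, vl_pow, hϖ]
  rw [MonoidHom.range_eq_top.2 hs, Nat.card_congr Subgroup.topEquiv.toEquiv,
    Nat.card_congr (Multiplicative.toAdd), Nat.card_zmod]

theorem index_range {B : Type} [CommGroup B] [Finite B] (p : ℕ) :
    (powMonoidHom p : B →* B).range.index = Nat.card {x : B // x ^ p = 1} := by
  have h1 := (powMonoidHom p : B →* B).range.index_mul_card
  have h2 := (powMonoidHom p : B →* B).ker.card_mul_index
  rw [Subgroup.index_ker] at h2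
  have h3 : 0 < Nat.card (powMonoidHom p : B →* B).range := Nat.card_pos
  have h4 : (powMonoidHom p : B →* B).range.index = Nat.card (powMonoidHom p : B →* B).ker :=
    Nat.eq_of_mul_eq_mul_right h3 (h1.trans h2.symm)
  rw [h4]
  exact Nat.card_congr (Equiv.subtypeEquivRight fun x => by
    rw [MonoidHom.mem_ker]
    rfl)

end H11Aux

open H11Aux in
theorem index_PU {p : ℕ} (hp : p.Prime) (v : Pr K) {n : ℕ} (hn : 1 ≤ n) :
    (PP K p ⊔ UU v n).index = p * Nat.card {x : (𝓞 K ⧸ v.asIdeal ^ n)ˣ // x ^ p = 1} := by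
  have hfin := finite_quot v n
  have hle : UU v n ≤ A v := UU_mono v (Nat.zero_le n)
  have hsup : PP K p ⊔ A v = (PP K p ⊔ UU v n) ⊔ A v := by
    rw [sup_assoc, sup_eq_right.2 hle]
  have h1 := Subgroup.relIndex_mul_index
    (show PP K p ⊔ UU v n ≤ PP K p ⊔ A v from sup_le_sup_left hle _)
  rw [index_sup hp, hsup, Subgroup.relIndex_sup_left] at h1
  have h2 : (PP K p ⊔ UU v n).relIndex (A v) =
      Nat.card {x : (𝓞 K ⧸ v.asIdeal ^ n)ˣ // x ^ p = 1} := by
    have h3 : (PP K p ⊔ UU v n).subgroupOf (A v) =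
        Subgroup.comap (red v n) (powMonoidHom p : (𝓞 K ⧸ v.asIdeal ^ n)ˣ →* _).range := by
      ext x
      rw [Subgroup.mem_subgroupOf, Subgroup.mem_comap, MonoidHom.mem_range, Subgroup.mem_sup]
      constructor
      · rintro ⟨y, hy, z, hz, hyz⟩
        obtain ⟨t, rfl⟩ := mem_PP.1 hy
        have ht : vl v t = 0 := by
          have h4 : vl v (t ^ p * z) = 0 := by rw [hyz]; exact x.2.1
          rw [vl_mul, vl_pow, hz.1, add_zero, mul_eq_zero] at h4
          exact h4.resolve_left (by exact_mod_cast hp.ne_zero)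
        refine ⟨red v n ⟨t, mem_A ht⟩, ?_⟩
        have h5 : x = ⟨t, mem_A ht⟩ ^ p * ⟨z, hle hz⟩ := Subtype.ext hyz.symm
        rw [h5, map_mul, map_pow, (red_eq_one_iff v n ⟨z, hle hz⟩).2 hz, mul_one]
        rfl
      · rintro ⟨b, hb⟩
        obtain ⟨y, rfl⟩ := red_surjective v hn b
        have h4 : red v n (x / y ^ p) = 1 := by
          rw [map_div, map_pow, ← hb]
          exact div_self' _
        have h5 := (red_eq_one_iff v n _).1 h4
        exact ⟨(y : Kˣ) ^ p, mem_PP.2 ⟨_, rfl⟩, _, h5, by simp⟩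
    unfold Subgroup.relIndex
    rw [h3, Subgroup.index_comap_of_surjective _ (red_surjective v hn), index_range]
  rw [h2, mul_comm] at h1
  exact h1.symm

end Pool.Agent.RG.H
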