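import Mathlib
import Pool.Agent.Lib.RG.HDefs

/-!
Row H12: the number of solutions of `x ^ p = 1` modulo `v ^ (2 e + 1)`, `e = v(p)`, `q = N(v)`, is
`p q ^ e`. Let `ζ` be a primitive `p`-th root of unity; `v(ζ^i - ζ^j) = c` for `i ≠ j` with
`(p - 1) c = e` (`∏ (1 - ζ^i) = p` and the quotients `(1 - ζ^i) / (1 - ζ)` are units).
`x^p - 1 = ∏ (x - ζ^i)`. If `m = v(x - ζ^i)` is maximal and `m ≤ c` then `v(x^p - 1) ≤ p c < 2 e + 1`.
If `m > c` the other factors have valuation `c` and `v(x^p - 1) = m + e`. So `x^p = 1` modulo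
`v^(2e+1)` iff `x = ζ^i` modulo `v^(e+1)` for some `i`, and these `p` classes are distinct modulo
`v^(e+1)` and have `q^e` lifts each.
-/

set_option autoImplicit false
set_option linter.unusedSectionVars false

namespace Pool.Agent.RG.H

open NumberField IsDedekindDomain WithZero

variable {K : Type} [Field K] [NumberField K]

namespace H12Aux

/-- The valuation of `p`. -/
theorem val_p {p : ℕ} (hp : p.Prime) (v : Pr K) :
    v.intValuation ((p : ℕ) : 𝓞 K) = exp (-(ev p v : ℤ)) := by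
  have h1 : v.valuation K ((p : ℕ) : K) = v.intValuation ((p : ℕ) : 𝓞 K) := by
    have h := HeightOneSpectrum.valuation_of_algebraMap (K := K) v ((p : ℕ) : 𝓞 K)
    have h3 : (algebraMap (𝓞 K) K) ((p : ℕ) : 𝓞 K) = (p : K) := map_natCast _ _
    rw [← h3]
    exact h
  have h0 : v.intValuation ((p : ℕ) : 𝓞 K) ≠ 0 := by
    rw [← h1, Valuation.ne_zero_iff]
    exact Nat.cast_ne_zero.2 hp.ne_zero
  have hle : v.intValuation ((p : ℕ) : 𝓞 K) ≤ 1 := v.intValuation_le_one _
  have hlog : log (v.intValuation ((p : ℕ) : 𝓞 K)) ≤ 0 := by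
    rw [← exp_log h0, ← exp_zero, exp_le_exp] at hle
    exact hle
  unfold ev
  rw [h1, Int.toNat_of_nonneg (by omega), neg_neg, exp_log h0]

section roots

variable {p : ℕ} (hp : p.Prime) {ξ : 𝓞 K} (hξ : IsPrimitiveRoot ξ p) (v : Pr K)

theorem val_root (hp : p.Prime) {α : 𝓞 K} (hα : α ^ p = 1) (v : Pr K) : v.intValuation α = 1 := by
  have h1 : v.intValuation α ^ p = 1 := by rw [← map_pow, hα, map_one]
  exact (pow_eq_one_iff.1 h1).resolve_right hp.ne_zero

theorem val_dvd {a b : 𝓞 K} (h : a ∣ b) (v : Pr K) : v.intValuation b ≤ v.intValuation a := by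
  obtain ⟨c, rfl⟩ := h
  rw [map_mul]
  exact mul_le_of_le_one_right' (v.intValuation_le_one c)

theorem val_prim {ξ ξ' : 𝓞 K} (hp : p.Prime) (hξ : IsPrimitiveRoot ξ p)
    (hξ' : IsPrimitiveRoot ξ' p) (v : Pr K) :
    v.intValuation (1 - ξ') = v.intValuation (1 - ξ) := by
  have key : ∀ {ξ ξ' : 𝓞 K}, IsPrimitiveRoot ξ p → IsPrimitiveRoot ξ' p →
      v.intValuation (1 - ξ') ≤ v.intValuation (1 - ξ) := by
    intro ξ ξ' h h'
    have : NeZero p := ⟨hp.ne_zero⟩
    obtain ⟨i, -, rfl⟩ := h.eq_pow_of_pow_eq_one h'.pow_eq_one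
    apply val_dvd
    have := sub_dvd_pow_sub_pow (1 : 𝓞 K) ξ i
    rwa [one_pow] at this
  exact le_antisymm (key hξ hξ') (key hξ' hξ)

theorem prim_of {α : 𝓞 K} (hp : p.Prime) (hα : α ^ p = 1) (h1 : α ≠ 1) : IsPrimitiveRoot α p := by
  have : Fact p.Prime := ⟨hp⟩
  have h2 : orderOf α = p := orderOf_eq_prime hα h1
  rw [← h2]
  exact IsPrimitiveRoot.orderOf α

theorem val_sub {ξ : 𝓞 K} (hp : p.Prime) (hξ : IsPrimitiveRoot ξ p) (v : Pr K) {α β : 𝓞 K}
    (hα : α ^ p = 1) (hβ : β ^ p = 1) (hne : α ≠ β) :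
    v.intValuation (α - β) = v.intValuation (1 - ξ) := by
  have h1 : β * (α * β ^ (p - 1)) = α := by
    have : β ^ (p - 1) * β = β ^ p := by
      rw [← pow_succ, Nat.sub_add_cancel hp.one_le]
    calc β * (α * β ^ (p - 1)) = α * (β ^ (p - 1) * β) := by ring
      _ = α := by rw [this, hβ, mul_one]
  have h2 : (α * β ^ (p - 1)) ^ p = 1 := by
    rw [mul_pow, hα, ← pow_mul, mul_comm (p - 1) p, pow_mul, hβ, one_pow, mul_one]
  have h3 : α * β ^ (p - 1) ≠ 1 := by
    intro h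
    rw [h, mul_one] at h1
    exact hne h1.symm
  have h4 : α - β = -(β * (1 - α * β ^ (p - 1))) := by
    rw [mul_sub, h1]
    ring
  rw [h4, Valuation.map_neg, map_mul, val_root hp hβ, one_mul]
  exact val_prim hp hξ (prim_of hp h2 h3) v

theorem val_pow {ξ : 𝓞 K} (hp : p.Prime) (hξ : IsPrimitiveRoot ξ p) (v : Pr K) :
    v.intValuation (1 - ξ) ^ (p - 1) = exp (-(ev p v : ℤ)) := by
  rw [← val_p hp v]
  obtain ⟨n, rfl⟩ : ∃ n, p = n + 1 := ⟨p - 1, by have := hp.pos; omega⟩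
  have h := hξ.prod_one_sub_pow_eq_order
  rw [Nat.cast_succ, ← h, map_prod, Nat.add_sub_cancel]
  rw [Finset.prod_congr rfl (g := fun _ => v.intValuation (1 - ξ)), Finset.prod_const,
    Finset.card_range]
  intro k hk
  rw [Finset.mem_range] at hk
  refine val_prim hp hξ (hξ.pow_of_coprime _ ?_) v
  exact (Nat.coprime_of_lt_prime (Nat.succ_ne_zero k) (by omega) hp).symm

theorem exp_lt {ξ : 𝓞 K} (hp : p.Prime) (hξ : IsPrimitiveRoot ξ p) (v : Pr K) :
    exp (-(ev p v : ℤ)) ≤ v.intValuation (1 - ξ) := by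
  rw [← val_pow hp hξ v]
  have hle : v.intValuation (1 - ξ) ≤ 1 := v.intValuation_le_one _
  have h1 : p - 1 ≠ 0 := by have := hp.two_le; omega
  exact pow_le_of_le_one zero_le hle h1

theorem key {ξ : 𝓞 K} (hp : p.Prime) (hξ : IsPrimitiveRoot ξ p) (v : Pr K) (x : 𝓞 K) :
    x ^ p - 1 ∈ v.asIdeal ^ (2 * ev p v + 1) ↔
      ∃ α : 𝓞 K, α ^ p = 1 ∧ x - α ∈ v.asIdeal ^ (ev p v + 1) := by
  classical
  have hprod : v.intValuation (x ^ p - 1) =
      ∏ α ∈ Polynomial.nthRootsFinset p (1 : 𝓞 K), v.intValuation (x - α) := by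
    have h1 := hξ.pow_sub_pow_eq_prod_sub_mul x 1 hp.pos
    rw [one_pow] at h1
    rw [h1, map_prod]
    simp only [mul_one]
  have hmem : ∀ α : 𝓞 K, α ∈ Polynomial.nthRootsFinset p (1 : 𝓞 K) ↔ α ^ p = 1 := fun α =>
    Polynomial.mem_nthRootsFinset hp.pos 1
  have hcard : (Polynomial.nthRootsFinset p (1 : 𝓞 K)).card = p := hξ.card_nthRootsFinset
  -- if one factor is small, the others are constant
  have hsmall : ∀ α : 𝓞 K, α ^ p = 1 → v.intValuation (x - α) < v.intValuation (1 - ξ) →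
      v.intValuation (x ^ p - 1) = v.intValuation (x - α) * exp (-(ev p v : ℤ)) := by
    intro α hα hlt
    rw [hprod, ← Finset.mul_prod_erase _ _ ((hmem α).2 hα), ← val_pow hp hξ v]
    congr 1
    rw [Finset.prod_congr rfl (g := fun _ => v.intValuation (1 - ξ)), Finset.prod_const,
      Finset.card_erase_of_mem ((hmem α).2 hα), hcard]
    intro β hβ
    rw [Finset.mem_erase, hmem] at hβ
    have h1 : x - β = (x - α) + (α - β) := by ring
    have h2 := val_sub hp hξ v hα hβ.2 hβ.1.symm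
    rw [h1, Valuation.map_add_eq_of_lt_right _ (by rw [h2]; exact hlt), h2]
  constructor
  · intro h
    rw [← HeightOneSpectrum.intValuation_le_pow_iff_mem] at h
    by_contra hcon
    push Not at hcon
    have hcon' : ∀ α : 𝓞 K, α ^ p = 1 → exp (-((ev p v + 1 : ℕ) : ℤ)) < v.intValuation (x - α) := by
      intro α hα
      rw [← not_le, HeightOneSpectrum.intValuation_le_pow_iff_mem]
      exact hcon α hα
    by_cases hex : ∃ α : 𝓞 K, α ^ p = 1 ∧ v.intValuation (x - α) < v.intValuation (1 - ξ)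
    · obtain ⟨α, hα, hlt⟩ := hex
      rw [hsmall α hα hlt] at h
      have h1 := hcon' α hα
      have h2 : exp (-((2 * ev p v + 1 : ℕ) : ℤ)) =
          exp (-((ev p v + 1 : ℕ) : ℤ)) * exp (-(ev p v : ℤ)) := by
        rw [← exp_add]
        congr 1
        push_cast
        ring
      rw [h2] at h
      exact absurd h (not_le.2 (mul_lt_mul_of_pos_right h1 (by exact exp_pos)))
    · push Not at hex
      have h1 : exp (-(ev p v : ℤ)) * exp (-(ev p v : ℤ)) ≤ v.intValuation (x ^ p - 1) := by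
        calc exp (-(ev p v : ℤ)) * exp (-(ev p v : ℤ))
            ≤ v.intValuation (1 - ξ) * v.intValuation (1 - ξ) ^ (p - 1) := by
              rw [val_pow hp hξ v]
              exact mul_le_mul_left (exp_lt hp hξ v) _
          _ = v.intValuation (1 - ξ) ^ p := by
              rw [← pow_succ', Nat.sub_add_cancel hp.one_le]
          _ = ∏ _α ∈ Polynomial.nthRootsFinset p (1 : 𝓞 K), v.intValuation (1 - ξ) := by
              rw [Finset.prod_const, hcard]
          _ ≤ v.intValuation (x ^ p - 1) := by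
              rw [hprod]
              exact Finset.prod_le_prod' fun α hα => hex α ((hmem α).1 hα)
      have h2 := h1.trans h
      rw [← exp_add, exp_le_exp] at h2
      push_cast at h2
      omega
  · rintro ⟨α, hα, hx⟩
    rw [← HeightOneSpectrum.intValuation_le_pow_iff_mem] at hx ⊢
    have hlt : v.intValuation (x - α) < v.intValuation (1 - ξ) := by
      refine hx.trans_lt (lt_of_lt_of_le ?_ (exp_lt hp hξ v))
      rw [exp_lt_exp]
      push_cast
      omega
    rw [hsmall α hα hlt]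
    have h2 : exp (-((2 * ev p v + 1 : ℕ) : ℤ)) =
        exp (-((ev p v + 1 : ℕ) : ℤ)) * exp (-(ev p v : ℤ)) := by
      rw [← exp_add]
      congr 1
      push_cast
      ring
    rw [h2]
    exact mul_le_mul_left hx _

end roots

end H12Aux

open H12Aux

theorem card_roots {p : ℕ} (hp : p.Prime) {ζ : K} (hζ : IsPrimitiveRoot ζ p) (v : Pr K) :
    Nat.card {x : (𝓞 K ⧸ v.asIdeal ^ (2 * ev p v + 1))ˣ // x ^ p = 1} =
      p * Ideal.absNorm v.asIdeal ^ ev p v := by
  classical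
  have : NeZero p := ⟨hp.ne_zero⟩
  have hξ : IsPrimitiveRoot hζ.toInteger p := hζ.toInteger_isPrimitiveRoot
  set e := ev p v with he
  let A := 𝓞 K ⧸ v.asIdeal ^ (2 * e + 1)
  let A' := 𝓞 K ⧸ v.asIdeal ^ (e + 1)
  let π : A →+* A' := Ideal.Quotient.factor (Ideal.pow_le_pow_right (by omega))
  -- units
  have e1 : Nat.card {x : Aˣ // x ^ p = 1} = Nat.card {x : A // x ^ p = 1} := by
    refine Nat.card_congr (Equiv.ofBijective (fun x => ⟨((x.1 : Aˣ) : A), ?_⟩) ⟨?_, ?_⟩)
    · rw [← Units.val_pow_eq_pow_val, x.2, Units.val_one]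
    · intro x y h
      exact Subtype.ext (Units.ext (congrArg Subtype.val h))
    · rintro ⟨x, hx⟩
      refine ⟨⟨Units.ofPowEqOne x p hx hp.ne_zero, ?_⟩, rfl⟩
      exact Units.pow_ofPowEqOne hx hp.ne_zero
  have hmem : ∀ α : 𝓞 K, α ∈ Polynomial.nthRootsFinset p (1 : 𝓞 K) ↔ α ^ p = 1 := fun α =>
    Polynomial.mem_nthRootsFinset hp.pos 1
  have hker : ∀ x : 𝓞 K, (Ideal.Quotient.mk (v.asIdeal ^ (2 * e + 1)) x : A) ∈ RingHom.ker π ↔
      x ∈ v.asIdeal ^ (e + 1) := by
    intro x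
    rw [RingHom.mem_ker, Ideal.Quotient.factor_mk, Ideal.Quotient.eq_zero_iff_mem]
  have hroot : ∀ x : 𝓞 K, (Ideal.Quotient.mk (v.asIdeal ^ (2 * e + 1)) x : A) ^ p = 1 ↔
      ∃ α : 𝓞 K, α ^ p = 1 ∧ x - α ∈ v.asIdeal ^ (e + 1) := by
    intro x
    rw [← key hp hξ v x, ← map_pow, ← sub_eq_zero, ← map_one (Ideal.Quotient.mk _), ← map_sub,
      Ideal.Quotient.eq_zero_iff_mem]
  have e2 : Nat.card (Polynomial.nthRootsFinset p (1 : 𝓞 K) × RingHom.ker π) =
      Nat.card {x : A // x ^ p = 1} := by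
    refine Nat.card_congr (Equiv.ofBijective (fun y =>
      ⟨Ideal.Quotient.mk (v.asIdeal ^ (2 * e + 1)) y.1.1 + y.2.1, ?_⟩) ⟨?_, ?_⟩)
    · obtain ⟨⟨α, hα⟩, ⟨k, hk⟩⟩ := y
      obtain ⟨b, rfl⟩ := Ideal.Quotient.mk_surjective k
      rw [hmem] at hα
      have hk' := (hker b).1 hk
      change (Ideal.Quotient.mk (v.asIdeal ^ (2 * e + 1)) α +
        Ideal.Quotient.mk (v.asIdeal ^ (2 * e + 1)) b) ^ p = 1
      rw [← map_add, hroot]
      exact ⟨α, hα, by rwa [add_sub_cancel_left]⟩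
    · rintro ⟨⟨α, hα⟩, ⟨k, hk⟩⟩ ⟨⟨β, hβ⟩, ⟨l, hl⟩⟩ h
      obtain ⟨b, rfl⟩ := Ideal.Quotient.mk_surjective k
      obtain ⟨c, rfl⟩ := Ideal.Quotient.mk_surjective l
      have h' : (Ideal.Quotient.mk (v.asIdeal ^ (2 * e + 1)) α +
        Ideal.Quotient.mk (v.asIdeal ^ (2 * e + 1)) b) =
        (Ideal.Quotient.mk (v.asIdeal ^ (2 * e + 1)) β +
        Ideal.Quotient.mk (v.asIdeal ^ (2 * e + 1)) c) := congrArg Subtype.val h
      have hk' := (hker b).1 hk
      have hl' := (hker c).1 hl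
      rw [hmem] at hα hβ
      have hab : α = β := by
        by_contra hne
        rw [← map_add, ← map_add, Ideal.Quotient.eq] at h'
        have h1 : α - β ∈ v.asIdeal ^ (e + 1) := by
          have h2 : α - β = (α + b - (β + c)) - (b - c) := by ring
          rw [h2]
          exact sub_mem (Ideal.pow_le_pow_right (by omega) h') (sub_mem hk' hl')
        rw [← HeightOneSpectrum.intValuation_le_pow_iff_mem, val_sub hp hξ v hα hβ hne] at h1
        have h2 := (exp_lt hp hξ v).trans h1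
        rw [exp_le_exp] at h2
        push_cast at h2
        omega
      subst hab
      have h2 := add_left_cancel h'
      exact Prod.ext rfl (Subtype.ext h2)
    · rintro ⟨y, hy⟩
      obtain ⟨x, rfl⟩ := Ideal.Quotient.mk_surjective y
      obtain ⟨α, hα, hx⟩ := (hroot x).1 hy
      refine ⟨⟨⟨α, (hmem α).2 hα⟩, ⟨Ideal.Quotient.mk (v.asIdeal ^ (2 * e + 1)) (x - α),
        (hker _).2 hx⟩⟩, Subtype.ext ?_⟩
      change Ideal.Quotient.mk (v.asIdeal ^ (2 * e + 1)) α +
        Ideal.Quotient.mk (v.asIdeal ^ (2 * e + 1)) (x - α) =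
        Ideal.Quotient.mk (v.asIdeal ^ (2 * e + 1)) x
      rw [← map_add, add_sub_cancel]
  have hcard : ∀ n : ℕ, Nat.card (𝓞 K ⧸ v.asIdeal ^ n) = Ideal.absNorm v.asIdeal ^ n := by
    intro n
    rw [← map_pow, Ideal.absNorm_apply, Submodule.cardQuot_apply]
  have hq : 0 < Ideal.absNorm v.asIdeal := by
    rw [Nat.pos_iff_ne_zero, ne_eq, Ideal.absNorm_eq_zero_iff]
    exact v.ne_bot
  have e3 : Nat.card (RingHom.ker π) = Ideal.absNorm v.asIdeal ^ e := by
    have h1 := AddSubgroup.card_mul_index (π : A →+ A').ker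
    rw [AddSubgroup.index_ker, AddMonoidHom.range_eq_top.2
      (Ideal.Quotient.factor_surjective (Ideal.pow_le_pow_right (by omega))),
      AddSubgroup.card_top] at h1
    have h2 : Nat.card A = Ideal.absNorm v.asIdeal ^ (2 * e + 1) := hcard _
    have h3 : Nat.card A' = Ideal.absNorm v.asIdeal ^ (e + 1) := hcard _
    rw [h2, h3] at h1
    have h4 : Nat.card (RingHom.ker π) = Nat.card (π : A →+ A').ker :=
      Nat.card_congr (Equiv.subtypeEquivRight fun x => by
        rw [RingHom.mem_ker, AddMonoidHom.mem_ker, AddMonoidHom.coe_coe])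
    rw [h4]
    apply Nat.eq_of_mul_eq_mul_right (pow_pos hq (e + 1))
    rw [h1, ← pow_add]
    congr 1
    omega
  change Nat.card {x : Aˣ // x ^ p = 1} = _
  rw [e1, ← e2, Nat.card_prod, e3, Nat.card_eq_fintype_card, Fintype.card_coe,
    hξ.card_nthRootsFinset]

end Pool.Agent.RG.H
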