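import Mathlib
import Pool.Agent.Lib.RG.HDefs
import Pool.Agent.Lib.RG.H10
import Pool.Agent.Lib.RG.H11
import Pool.Agent.Lib.RG.H12

/-!
Row HIdx: `index_NP` from `index_PU` and `card_roots`. `PP ⊔ UU v 0` has index `p` (it is `Dv p v`),
so for `v` not above `p` (`ev p v = 0`) the index of `NP` in it is `p`.
-/

set_option autoImplicit false
set_option linter.unusedSectionVars false

namespace Pool.Agent.RG.H

open NumberField IsDedekindDomain WithZero

variable {K : Type} [Field K] [NumberField K] {p : ℕ}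

theorem index_NP (hp : p.Prime) {ζ : K} (hζ : IsPrimitiveRoot ζ p) (v : Pr K) :
    (NP p v).index = p ^ 2 * Ideal.absNorm v.asIdeal ^ ev p v := by
  unfold NP
  rw [index_PU hp v (by omega), card_roots hp hζ v]
  ring

private lemma vl_zpow (v : Pr K) (x : Kˣ) (n : ℤ) : vl v (x ^ n) = n * vl v x := by
  cases n with
  | ofNat n => rw [Int.ofNat_eq_natCast, zpow_natCast, vl_pow]
  | negSucc n =>
    rw [zpow_negSucc, vl_inv, vl_pow, Int.negSucc_eq]
    push_cast
    ring

/-- the valuation modulo `p` -/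
private noncomputable def vlp (p : ℕ) (v : Pr K) : Kˣ →* Multiplicative (ZMod p) where
  toFun x := Multiplicative.ofAdd ((vl v x : ℤ) : ZMod p)
  map_one' := by rw [vl_one, Int.cast_zero, ofAdd_zero]
  map_mul' x y := by rw [vl_mul, Int.cast_add, ofAdd_add]

private lemma ker_vlp (v : Pr K) : (vlp p v).ker = Dv p v := by
  ext x
  rw [MonoidHom.mem_ker, mem_Dv, ← ZMod.intCast_zmod_eq_zero_iff_dvd]
  constructor
  · intro h
    exact Multiplicative.ofAdd.injective (h.trans ofAdd_zero.symm)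
  · intro h
    show Multiplicative.ofAdd ((vl v x : ℤ) : ZMod p) = 1
    rw [h, ofAdd_zero]

theorem index_Dv (hp : p.Prime) (v : Pr K) : (Dv p v).index = p := by
  have : NeZero p := ⟨hp.ne_zero⟩
  obtain ⟨ϖ, hϖ⟩ := exists_unif v
  have hsurj : Function.Surjective (vlp p v) := by
    intro a
    refine ⟨ϖ ^ (Multiplicative.toAdd a).val, ?_⟩
    show Multiplicative.ofAdd ((vl v (ϖ ^ (Multiplicative.toAdd a).val) : ℤ) : ZMod p) = a
    rw [vl_pow, hϖ, mul_one, Int.cast_natCast, ZMod.natCast_zmod_val, ofAdd_toAdd]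
  rw [← ker_vlp, Subgroup.index_ker, MonoidHom.range_eq_top.mpr hsurj, Subgroup.card_top,
    Nat.card_congr (Multiplicative.toAdd (α := ZMod p)), Nat.card_zmod]

private lemma ev_zero {v : Pr K} (hv : ¬ Above v p) : ev p v = 0 := by
  unfold Above at hv
  have h1 : v.valuation K (p : K) ≤ 1 := by
    have h3 : algebraMap (𝓞 K) K (p : 𝓞 K) = (p : K) := map_natCast (algebraMap (𝓞 K) K) p
    calc v.valuation K (p : K) = v.valuation K (algebraMap (𝓞 K) K (p : 𝓞 K)) := by rw [h3]
      _ ≤ 1 := v.valuation_le_one (K := K) (p : 𝓞 K)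
  have h2 : v.valuation K (p : K) = 1 := le_antisymm h1 (not_lt.mp hv)
  unfold ev
  rw [h2, log_one, neg_zero, Int.toNat_zero]

private lemma mem_UU_zero {v : Pr K} {x : Kˣ} (h : vl v x = 0) : x ∈ UU v 0 := by
  refine ⟨h, ?_⟩
  rw [Nat.cast_zero, neg_zero, exp_zero]
  refine (Valuation.map_sub _ _ _).trans ?_
  rw [vl_eq_zero.1 h, map_one, max_self]

private lemma sup_eq_Dv (v : Pr K) : PP K p ⊔ UU v 0 = Dv p v := by
  apply le_antisymm
  · rw [sup_le_iff]
    constructor
    · intro x hx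
      obtain ⟨y, rfl⟩ := mem_PP.mp hx
      rw [mem_Dv, vl_pow]
      exact dvd_mul_right _ _
    · intro x hx
      rw [mem_Dv, hx.1]
      exact dvd_zero _
  · intro x hx
    obtain ⟨k, hk⟩ := mem_Dv.mp hx
    obtain ⟨ϖ, hϖ⟩ := exists_unif v
    have h1 : x = (ϖ ^ k) ^ p * (x / (ϖ ^ k) ^ p) := by rw [mul_div_cancel]
    rw [h1]
    refine Subgroup.mul_mem_sup (mem_PP.mpr ⟨_, rfl⟩) (mem_UU_zero ?_)
    rw [vl_div, vl_pow, vl_zpow, hϖ, hk, mul_one, sub_self]

theorem relIndex_units (hp : p.Prime) {ζ : K} (hζ : IsPrimitiveRoot ζ p) {v : Pr K}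
    (hv : ¬ Above v p) : (NP p v).relIndex (UU v 0) = p := by
  have h0 := ev_zero hv
  have h1 := index_NP hp hζ v
  rw [h0, pow_zero, mul_one] at h1
  have h2 : UU v 0 ⊔ NP p v = Dv p v := by
    rw [← sup_eq_Dv (p := p) v]
    unfold NP
    rw [h0, sup_comm (UU v 0), sup_assoc, sup_eq_right.mpr (UU_mono v (by omega))]
  have h3 : (NP p v).relIndex (Dv p v) = (NP p v).relIndex (UU v 0) := by
    rw [← h2, Subgroup.relIndex_sup_right]
  have h4 : NP p v ≤ Dv p v := by
    rw [← h2]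
    exact le_sup_right
  have h5 := Subgroup.relIndex_mul_index h4
  rw [h1, index_Dv hp v, h3, pow_two] at h5
  exact Nat.eq_of_mul_eq_mul_right hp.pos h5

end Pool.Agent.RG.H
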