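import Mathlib
import Pool.Agent.Lib.RG.HDefs
import Pool.Agent.Lib.RG.H01
import Pool.Agent.Lib.RG.H03
import Pool.Agent.Lib.RG.H04
import Pool.Agent.Lib.RG.H06
import Pool.Agent.Lib.RG.H07
import Pool.Agent.Lib.RG.HIdx

/-!
Row H08: the local norm group of a prime which does not split is a proper subgroup.
(a) trivial inertia: elements of `Nv` have valuation divisible by `p` (`e_one`, `vl_nrm_ns`).
(b) `v` not above `p`, nontrivial inertia (then all `σ` are inert, `inert_all`): if `b` is a unit at
`w` put `a = Tr(b) / p` (or `Tr(b c)` ..); `w(b - a) > 0` since `p b - Tr b` is a sum of the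
`b - σ b`; so `N b = a ^ p` modulo `w`; a unit `x` at `v` in `Nv` is a `p`-th power modulo `v`; but
some unit is not (`relIndex_units`).
-/

set_option autoImplicit false
set_option linter.unusedSectionVars false

namespace Pool.Agent.RG.H

open NumberField IsDedekindDomain WithZero

variable {K L : Type} [Field K] [NumberField K] [Field L] [NumberField L] [Algebra K L]

private theorem h08_le_exp {z : ℤᵐ⁰} (h : z < 1) : z ≤ exp (-(1 : ℤ)) := by
  by_cases h0 : z = 0
  · rw [h0]
    exact zero_le
  · rw [← log_le_iff_le_exp h0]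
    rw [← exp_zero, ← log_lt_iff_lt_exp h0] at h
    omega

/-- a product of elements congruent to `a` -/
private theorem h08_prod {ι : Type} (w : Pr L) (s : Finset ι) (f : ι → L) (a : L)
    (ha : w.valuation L a ≤ 1) (hf : ∀ i ∈ s, w.valuation L (f i - a) < 1) :
    w.valuation L (∏ i ∈ s, f i - a ^ s.card) < 1 := by
  classical
  have h1 : ∀ i ∈ s, w.valuation L (f i) ≤ 1 := by
    intro i hi
    have : f i = (f i - a) + a := by ring
    rw [this]
    exact Valuation.map_add_le _ (hf i hi).le ha
  induction s using Finset.induction_on with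
  | empty => simp
  | insert i s hi ih =>
    rw [Finset.prod_insert hi, Finset.card_insert_of_notMem hi, pow_succ]
    have e : f i * ∏ j ∈ s, f j - a ^ s.card * a =
        f i * (∏ j ∈ s, f j - a ^ s.card) + a ^ s.card * (f i - a) := by ring
    rw [e]
    have h2 := ih (fun j hj => hf j (Finset.mem_insert_of_mem hj))
      (fun j hj => h1 j (Finset.mem_insert_of_mem hj))
    refine Valuation.map_add_lt _ ?_ ?_
    · rw [map_mul]
      exact lt_of_le_of_lt (mul_le_of_le_one_left' (h1 i (Finset.mem_insert_self _ _))) h2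
    · rw [map_mul, map_pow]
      exact lt_of_le_of_lt (mul_le_of_le_one_left' (pow_le_one₀ zero_le ha))
        (hf i (Finset.mem_insert_self _ _))

variable [IsGalois K L] {p : ℕ}

theorem Nv_ne_top (h : Hyp K L p) {v : Pr K} (hv : NS L v) : Nv L p v ≠ ⊤ := by
  classical
  intro htop
  have hp0 : p ≠ 0 := h.prime.ne_zero
  have hDv : Dv p v ≠ ⊤ := by
    intro h1
    have h2 := index_Dv h.prime v
    rw [h1, Subgroup.index_top] at h2
    exact h.prime.one_lt.ne h2
  by_cases ha : Above v p
  · have hN : Nv L p v = Dv p v := if_pos ha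
    exact hDv (hN ▸ htop)
  have hN : Nv L p v = (nrm K L).range ⊔ UU v 1 := if_neg ha
  obtain ⟨w, hw, -⟩ := id hv
  have hNS : NS L (below w : Pr K) := by rw [hw]; exact hv
  by_cases hin : ∀ σ : L ≃ₐ[K] L, IsInert w σ → σ = 1
  · apply hDv
    rw [eq_top_iff, ← htop, hN]
    refine sup_le ?_ ?_
    · rintro _ ⟨b, rfl⟩
      rw [mem_Dv]
      have h1 := e_one w hin (nrm K L b)
      rw [vl_nrm_ns h.rank hNS b, hw] at h1
      rw [← h1]
      exact dvd_mul_right _ _
    · intro x hx
      rw [mem_Dv, hx.1]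
      exact dvd_zero _
  push Not at hin
  obtain ⟨σ, hσ, hσ1⟩ := hin
  have hall := inert_all h.prime h.rank w hσ1 hσ
  -- a unit which is not a p-th power
  have hx : ∃ x ∈ UU v 0, x ∉ NP p v := by
    by_contra hcon
    push Not at hcon
    have h1 : (NP p v).relIndex (UU v 0) = 1 := Subgroup.relIndex_eq_one.2 hcon
    obtain ⟨ζ, hζ⟩ := h.root
    rw [relIndex_units h.prime hζ ha] at h1
    exact h.prime.one_lt.ne' h1
  obtain ⟨x, hx0, hxN⟩ := hx
  have hxT : x ∈ (nrm K L).range ⊔ UU v 1 := by
    rw [← hN, htop]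
    exact Subgroup.mem_top x
  obtain ⟨y, ⟨b, rfl⟩, z, hz, hyz⟩ := Subgroup.mem_sup.1 hxT
  have hy0 : vl v (nrm K L b) = 0 := by
    have h1 := hx0.1
    rw [← hyz, vl_mul, hz.1, add_zero] at h1
    exact h1
  obtain ⟨e, he, hev⟩ := exists_e (K := K) w
  obtain ⟨e', he', hev'⟩ := exists_e_val (K := K) w
  have hb0 : vl w b = 0 := by
    have h1 := vl_nrm_ns h.rank hNS b
    rw [hev, hw, hy0, mul_zero] at h1
    rcases mul_eq_zero.1 h1.symm with h2 | h2
    · exact absurd (by exact_mod_cast h2) hp0
    · exact h2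
  have hb1 : w.valuation L (b : L) = 1 := vl_eq_zero.1 hb0
  have hgal : ∀ τ : L ≃ₐ[K] L, w.valuation L (τ (b : L) - b) < 1 := fun τ =>
    (hall τ).2 b hb1.le
  have hcard : Fintype.card (L ≃ₐ[K] L) = p := by
    rw [← Nat.card_eq_fintype_card, IsGalois.card_aut_eq_finrank, h.rank]
  -- the value of p at w
  have hpw : w.valuation L (p : L) = 1 := by
    have h1 : ¬ Above w p := by
      rw [above_iff (K := K), hw]
      exact ha
    have h2 : w.valuation L (p : L) ≤ 1 := by
      have h3 := w.valuation_le_one (K := L) (p : 𝓞 L)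
      simpa using h3
    exact le_antisymm h2 (not_lt.1 h1)
  have hpL : (p : L) ≠ 0 := Nat.cast_ne_zero.2 hp0
  set a0 : K := Algebra.trace K L (b : L) / p with ha0
  have ha0L : algebraMap K L a0 - b = (∑ τ : L ≃ₐ[K] L, (τ (b : L) - b)) / p := by
    rw [Finset.sum_sub_distrib, Finset.sum_const, Finset.card_univ, hcard, nsmul_eq_mul, ha0,
      map_div₀, trace_eq_sum_automorphisms, map_natCast]
    field_simp
  have ha0b : w.valuation L (algebraMap K L a0 - b) < 1 := by
    rw [ha0L, map_div₀, hpw, div_one]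
    exact Valuation.map_sum_lt _ one_ne_zero fun τ _ => hgal τ
  have ha0w : w.valuation L (algebraMap K L a0) = 1 := by
    have e1 : algebraMap K L a0 = (algebraMap K L a0 - b) + b := by ring
    rw [e1, Valuation.map_add_eq_of_lt_right _ (by rw [hb1]; exact ha0b), hb1]
  have ha0ne : a0 ≠ 0 := by
    intro h0
    rw [h0, map_zero, map_zero] at ha0w
    exact zero_ne_one ha0w
  have hprod : w.valuation L
      (algebraMap K L ((nrm K L b : Kˣ) : K) - (algebraMap K L a0) ^ p) < 1 := by
    have h1 := h08_prod w Finset.univ (fun τ : L ≃ₐ[K] L => τ (b : L)) (algebraMap K L a0)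
      ha0w.le (fun τ _ => by
        have e1 : τ (b : L) - algebraMap K L a0 =
            (τ (b : L) - b) - (algebraMap K L a0 - b) := by ring
        rw [e1]
        exact Valuation.map_sub_lt _ (hgal τ) ha0b)
    rw [Finset.card_univ, hcard, ← emb_nrm b, emb_val] at h1
    exact h1
  set a : Kˣ := Units.mk0 a0 ha0ne with hadef
  have haL : ((emb K L a : Lˣ) : L) = algebraMap K L a0 := rfl
  have hav : vl v a = 0 := by
    have h1 : vl w (emb K L a) = 0 := by
      rw [vl_eq_zero, haL]
      exact ha0w
    rw [hev, hw] at h1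
    rcases mul_eq_zero.1 h1 with h2 | h2
    · exfalso
      have : e = 0 := by exact_mod_cast h2
      omega
    · exact h2
  set u : Kˣ := nrm K L b / a ^ p with hu
  have huU : u ∈ UU v 1 := by
    refine ⟨by rw [hu, vl_div, vl_pow, hy0, hav, mul_zero, sub_zero], ?_⟩
    have hlt : v.valuation K ((u : K) - 1) < 1 := by
      by_contra hcon
      have h1 : 1 ≤ (v.valuation K ((u : K) - 1)) ^ e' := one_le_pow₀ (not_lt.1 hcon)
      rw [← hw, ← hev'] at h1
      have e1 : algebraMap K L ((u : K) - 1) =
          (algebraMap K L ((nrm K L b : Kˣ) : K) - (algebraMap K L a0) ^ p) /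
            (algebraMap K L a0) ^ p := by
        have hane : algebraMap K L a0 ≠ 0 := by
          simpa using ha0ne
        rw [hu, Units.val_div_eq_div_val, Units.val_pow_eq_pow_val, hadef, Units.val_mk0, map_sub,
          map_div₀, map_pow, map_one]
        field_simp
      rw [e1, map_div₀, map_pow, ha0w, one_pow, div_one] at h1
      exact absurd hprod (not_lt.2 h1)
    exact h08_le_exp hlt
  apply hxN
  have hev0 : ev p v = 0 := (ev_eq_zero_iff hp0 v).2 ha
  unfold NP
  rw [hev0]
  have e2 : x = a ^ p * (u * z) := by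
    rw [hu, ← mul_assoc, mul_div_cancel, hyz]
  rw [e2]
  exact Subgroup.mul_mem_sup (mem_PP.2 ⟨a, rfl⟩) ((UU v 1).mul_mem huU hz)

/-- A proper subgroup of finite index which contains all `p`-th powers has index at least `p`. -/
theorem index_ge {B : Type} [CommGroup B] {q : ℕ} (hq : q.Prime) {H : Subgroup B}
    (h0 : H.index ≠ 0) (h1 : H ≠ ⊤) (h2 : ∀ x : B, x ^ q ∈ H) : q ≤ H.index := by
  have : Fact q.Prime := ⟨hq⟩
  obtain ⟨x, hx⟩ : ∃ x, x ∉ H := by
    by_contra hcon
    push Not at hcon
    exact h1 (eq_top_iff.2 fun x _ => hcon x)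
  have h3 : orderOf (QuotientGroup.mk x : B ⧸ H) = q := by
    apply orderOf_eq_prime
    · rw [← QuotientGroup.mk_pow, QuotientGroup.eq_one_iff]
      exact h2 x
    · rw [Ne, QuotientGroup.eq_one_iff]
      exact hx
  have h4 : q ∣ H.index := by
    rw [← h3, Subgroup.index]
    exact orderOf_dvd_natCard _
  exact Nat.le_of_dvd (Nat.pos_of_ne_zero h0) h4

end Pool.Agent.RG.H
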