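import Mathlib
import Pool.Agent.Lib.RG.HDefs
import Pool.Agent.Lib.RG.H01
import Pool.Agent.Lib.RG.H06
import Pool.Agent.Lib.RG.H07
import Pool.Agent.Lib.RG.H08
import Pool.Agent.Lib.RG.H10
import Pool.Agent.Lib.RG.HIdx
import Pool.Agent.Lib.RG.H13
import Pool.Agent.Lib.RG.H18

/-!
Row H23: indices. `index_II` from `index_NP`, `index_iInf`, `prod_ev`,
`finrank_eq`; `index_JJ` from `index_iInf`, `index_ge`, `Nv_ne_top`, `NP_le_Nv`. First inequality:
`JJ.index ≥ p^s'`, `JJ.relIndex (SU S) ≤ p^(s'-1)` since `N(SU T) ≤ SU S ⊓ JJ` (`nrm_le_Nv`,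
`index_nrm`).
-/

set_option autoImplicit false
set_option linter.unusedSectionVars false

namespace Pool.Agent.RG.H

open NumberField IsDedekindDomain WithZero

variable {K L : Type} [Field K] [NumberField K] [Field L] [NumberField L] [Algebra K L]

variable [IsGalois K L] {p : ℕ}

theorem index_II (hp : p.Prime) (hp2 : p ≠ 2) {ζ : K} (hζ : IsPrimitiveRoot ζ p)
    {S : Finset (Pr K)} (hS : ∀ v : Pr K, Above v p → v ∈ S) :
    (II p S).index = p ^ (2 * (S.card + InfinitePlace.nrComplexPlaces K)) := by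
  unfold II
  rw [index_iInf S (NP p) (S.sup fun v => 2 * ev p v + 1)]
  · rw [Finset.prod_congr rfl (fun v _ => index_NP hp hζ v), Finset.prod_mul_distrib,
      Finset.prod_const, prod_ev hp hS, (finrank_eq hp hp2 hζ).1, ← pow_mul, ← pow_add]
    congr 1
    ring
  · intro v hv
    refine le_trans (UU_mono v ?_) le_sup_right
    exact Finset.le_sup (f := fun v => 2 * ev p v + 1) hv

theorem index_JJ (h : Hyp K L p) (S : Finset (Pr K)) :
    (JJ L p S).index ≠ 0 ∧ p ^ (nsF L S).card ≤ (JJ L p S).index := by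
  unfold JJ
  rw [index_iInf (nsF L S) (Nv L p) 1 (fun v _ => UU_le_Nv h v)]
  obtain ⟨ζ, hζ⟩ := h.root
  have h0 : ∀ v ∈ nsF L S, (Nv L p v).index ≠ 0 := by
    intro v hv h0
    have h1 := Subgroup.index_dvd_of_le (NP_le_Nv h v)
    rw [h0, zero_dvd_iff, index_NP h.prime hζ v] at h1
    have h2 : Ideal.absNorm v.asIdeal ≠ 0 := by
      rw [Ne, Ideal.absNorm_eq_zero_iff]
      exact v.ne_bot
    exact mul_ne_zero (pow_ne_zero _ h.prime.ne_zero) (pow_ne_zero _ h2) h1
  refine ⟨Finset.prod_ne_zero_iff.2 h0, ?_⟩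
  refine Finset.pow_card_le_prod (nsF L S) _ p fun v hv => ?_
  refine index_ge h.prime (h0 v hv) (Nv_ne_top h (mem_nsF.1 hv).2) fun x => ?_
  exact NP_le_Nv h v (le_sup_left (a := PP K p) (mem_PP.2 ⟨x, rfl⟩))

theorem first_ineq (h : Hyp K L p) {S : Finset (Pr K)} (hS : Good K L p S) :
    p ≤ (SU S ⊔ JJ L p S).index := by
  obtain ⟨T, hT⟩ := fin_up (K := K) (L := L) S
  have hA1 : (SU T).map (nrm K L) ≤ SU S := by
    rintro _ ⟨b, hb, rfl⟩
    exact nrm_SU hT hb
  have hA2 : (SU T).map (nrm K L) ≤ JJ L p S := by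
    rintro _ ⟨b, hb, rfl⟩
    unfold JJ
    simp only [Subgroup.mem_iInf]
    intro v hv
    exact nrm_le_Nv h (mem_nsF.1 hv).2 ⟨b, rfl⟩
  have h1 := index_nrm h hS hT
  obtain ⟨h2, h3⟩ := index_JJ (L := L) h S
  have e1 : (JJ L p S).relIndex (SU S) * (SU S ⊔ JJ L p S).index = (JJ L p S).index := by
    rw [← Subgroup.relIndex_sup_right (SU S) (JJ L p S)]
    exact Subgroup.relIndex_mul_index le_sup_right
  set A := (SU T).map (nrm K L)
  have hA0 : A.relIndex (SU S) ≠ 0 := by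
    intro h4
    rw [h4, zero_mul] at h1
    exact (pow_pos h.prime.pos _).ne h1
  have e2 : (JJ L p S).relIndex (SU S) ≤ A.relIndex (SU S) :=
    Subgroup.relIndex_le_of_le_left hA2 hA0
  have h5 : A.relIndex (SU S) * p ≤ A.relIndex (SU S) * (SU S ⊔ JJ L p S).index := by
    rw [h1]
    refine h3.trans ?_
    rw [← e1]
    exact Nat.mul_le_mul_right _ e2
  exact Nat.le_of_mul_le_mul_left h5 (Nat.pos_of_ne_zero hA0)

end Pool.Agent.RG.H
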