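import Mathlib
import Pool.Agent.Lib.RG.HDefs
import Pool.Agent.Lib.RG.H02

/-!
Row H05: the absolute norms of the primes. `split_norm`: `e f g = p` with `g = p` (Mathlib
`Ideal.card_stabilizer_eq` or `ncard_primesOver_mul_..`). `deg_one_dec`: every element of the
residue field is the image of a rational integer, hence `σ` with `IsDec w σ` is inert.
-/

set_option autoImplicit false
set_option linter.unusedSectionVars false

namespace Pool.Agent.RG.H

open NumberField IsDedekindDomain WithZero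

variable {K L : Type} [Field K] [NumberField K] [Field L] [NumberField L] [Algebra K L]

variable [IsGalois K L] {p : ℕ}

theorem split_norm (hp : p.Prime) (hL : Module.finrank K L = p) (w : Pr L)
    (h : ¬ NS L (below w : Pr K)) :
    Ideal.absNorm w.asIdeal = Ideal.absNorm (below w : Pr K).asIdeal := by
  classical
  -- another prime above
  obtain ⟨w', hw', hne⟩ : ∃ w' : Pr L, (below w' : Pr K) = below w ∧ w' ≠ w := by
    by_contra hcon
    push Not at hcon
    apply h
    refine ⟨w, rfl, fun σ x => ?_⟩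
    obtain ⟨w', h1, h2⟩ := exists_translate (K := K) w σ
    have h3 := hcon w' h1
    rw [h3] at h2
    exact (h2 x).symm
  have : (below w : Pr K).asIdeal.IsPrime := (below w : Pr K).isPrime
  have : (below w : Pr K).asIdeal.IsMaximal := (below w : Pr K).isMaximal
  have : w.asIdeal.IsPrime := w.isPrime
  have : w.asIdeal.IsMaximal := w.isMaximal
  have : w.asIdeal.LiesOver (below w : Pr K).asIdeal := ⟨rfl⟩
  have : IsGaloisGroup Gal(L/K) (𝓞 K) (𝓞 L) := IsGaloisGroup.of_isFractionRing _ _ _ K L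
  have hefg := Ideal.ncard_primesOver_mul_ramificationIdxIn_mul_inertiaDegIn
    (below w : Pr K).asIdeal (𝓞 L) Gal(L/K)
  have hcard : Nat.card Gal(L/K) = p := by
    rw [IsGalois.card_aut_eq_finrank, hL]
  rw [hcard] at hefg
  have hg : 2 ≤ ((below w : Pr K).asIdeal.primesOver (𝓞 L)).ncard := by
    have h1 : w.asIdeal ∈ (below w : Pr K).asIdeal.primesOver (𝓞 L) := ⟨w.isPrime, ⟨rfl⟩⟩
    have h2 : w'.asIdeal ∈ (below w : Pr K).asIdeal.primesOver (𝓞 L) := by
      rw [← hw']
      exact ⟨w'.isPrime, ⟨rfl⟩⟩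
    have h3 : w.asIdeal ≠ w'.asIdeal := fun h => hne (HeightOneSpectrum.ext h).symm
    have := Set.ncard_le_ncard (s := {w.asIdeal, w'.asIdeal})
      (t := (below w : Pr K).asIdeal.primesOver (𝓞 L))
      (by
        intro x hx
        rcases hx with rfl | hx
        · exact h1
        · rw [Set.mem_singleton_iff.1 hx]
          exact h2) (IsDedekindDomain.primesOver_finite _ _)
    rwa [Set.ncard_pair h3] at this
  have h1 : ((below w : Pr K).asIdeal.primesOver (𝓞 L)).ncard = p := by
    rcases (Nat.dvd_prime hp).1 ⟨_, hefg.symm⟩ with h | h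
    · omega
    · exact h
  have h2 : Ideal.inertiaDegIn (below w : Pr K).asIdeal (𝓞 L) = 1 := by
    rw [h1] at hefg
    have h3 : Ideal.ramificationIdxIn (below w : Pr K).asIdeal (𝓞 L)
        * Ideal.inertiaDegIn (below w : Pr K).asIdeal (𝓞 L) = 1 :=
      Nat.eq_of_mul_eq_mul_left hp.pos (by rw [hefg, mul_one])
    exact Nat.eq_one_of_mul_eq_one_left h3
  rw [Ideal.inertiaDegIn_eq_inertiaDeg (below w : Pr K).asIdeal w.asIdeal Gal(L/K)] at h2
  rw [Ideal.absNorm_eq_pow_inertiaDeg'_of_liesOver w.asIdeal (below w : Pr K).asIdeal,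
    Ideal.inertiaDeg'_eq_inertiaDeg, h2, pow_one]
  · exact (below w : Pr K).isPrime
  · exact (below w : Pr K).ne_bot

/-- Every element which is integral at `w` is congruent to a rational integer, if the residue
field has prime order. -/
private theorem exists_int_aux (w : Pr L) (hw : (Ideal.absNorm w.asIdeal).Prime) (x : L)
    (hx : w.valuation L x ≤ 1) : ∃ n : ℤ, w.valuation L (x - n) < 1 := by
  obtain ⟨a, ha⟩ := HeightOneSpectrum.exists_valuation_sub_lt_of_integer w hx 1
  rw [Units.val_one] at ha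
  have : Fact (Ideal.absNorm w.asIdeal).Prime := ⟨hw⟩
  have hcard : Nat.card (𝓞 L ⧸ w.asIdeal) = Ideal.absNorm w.asIdeal := rfl
  have : w.asIdeal.IsPrime := w.isPrime
  have h1 : AddSubgroup.zmultiples (1 : 𝓞 L ⧸ w.asIdeal) = ⊤ :=
    zmultiples_eq_top_of_prime_card hcard one_ne_zero
  have h2 : (Ideal.Quotient.mk w.asIdeal a) ∈ AddSubgroup.zmultiples (1 : 𝓞 L ⧸ w.asIdeal) := by
    rw [h1]
    exact AddSubgroup.mem_top _
  obtain ⟨n, hn⟩ := AddSubgroup.mem_zmultiples_iff.1 h2
  refine ⟨n, ?_⟩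
  have h3 : a - (n : 𝓞 L) ∈ w.asIdeal := by
    rw [← Ideal.Quotient.eq_zero_iff_mem, map_sub, ← hn, map_intCast, zsmul_one, sub_self]
  have h4 : w.valuation L (algebraMap (𝓞 L) L (a - (n : 𝓞 L))) < 1 :=
    (HeightOneSpectrum.valuation_lt_one_iff_mem (K := L) w (a - (n : 𝓞 L))).2 h3
  rw [map_sub (algebraMap (𝓞 L) L), map_intCast] at h4
  have h5 : x - n = (algebraMap (𝓞 L) L a - n) - (algebraMap (𝓞 L) L a - x) := by ring
  rw [h5]
  exact Valuation.map_sub_lt _ h4 ha

theorem deg_one_dec (w : Pr L) (hw : (Ideal.absNorm w.asIdeal).Prime)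
    (h : ∀ σ : L ≃ₐ[K] L, IsInert w σ → σ = 1) (σ : L ≃ₐ[K] L) (hσ : IsDec w σ) : σ = 1 := by
  apply h
  refine ⟨hσ, fun x hx => ?_⟩
  obtain ⟨n, hn⟩ := exists_int_aux w hw x hx
  have h1 : w.valuation L (σ • (x - (n : L))) < 1 := by
    rw [hσ]
    exact hn
  have h2 : σ • x - x = σ • (x - (n : L)) - (x - (n : L)) := by
    rw [smul_sub]
    have : σ • (n : L) = (n : L) := map_intCast σ n
    rw [this]
    ring
  rw [h2]
  exact Valuation.map_sub_lt _ h1 hn

end Pool.Agent.RG.H
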