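import Mathlib
import Pool.Agent.Lib.RG.HDefs

/-!
Row H19: Kummer theory (Mathlib `FieldTheory/KummerExtension`).
-/

set_option autoImplicit false
set_option linter.unusedSectionVars false

namespace Pool.Agent.RG.H

open NumberField IsDedekindDomain WithZero

variable {K : Type} [Field K] [NumberField K] {p : ℕ}

open Polynomial in
/-- The extension `K(b^(1/p))`. -/
theorem exists_kummer (hp : p.Prime) {ζ : K} (hζ : IsPrimitiveRoot ζ p) (b : Kˣ)
    (hb : b ∉ PP K p) :
    ∃ (L : Type) (_ : Field L) (_ : NumberField L) (_ : Algebra K L),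
      IsGalois K L ∧ Module.finrank K L = p ∧ ∃ β : L, β ^ p = algebraMap K L b := by
  have hirr : Irreducible (X ^ p - C (b : K)) := by
    refine X_pow_sub_C_irreducible_of_prime hp fun c hc => hb ?_
    have hc0 : c ≠ 0 := by
      rintro rfl
      rw [zero_pow hp.ne_zero] at hc
      exact b.ne_zero hc.symm
    rw [mem_PP]
    refine ⟨Units.mk0 c hc0, ?_⟩
    ext
    rw [Units.val_pow_eq_pow_val, Units.val_mk0, hc]
  have hprim : (primitiveRoots p K).Nonempty := ⟨ζ, (mem_primitiveRoots hp.pos).2 hζ⟩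
  have := Fact.mk hirr
  have hsp := isSplittingField_AdjoinRoot_X_pow_sub_C hprim hirr
  have hfin : Module.Finite K (AdjoinRoot (X ^ p - C (b : K))) :=
    Polynomial.IsSplittingField.finiteDimensional _ (X ^ p - C (b : K))
  refine ⟨AdjoinRoot (X ^ p - C (b : K)), inferInstance, NumberField.of_module_finite K _,
    inferInstance, ?_, ?_, AdjoinRoot.root _, root_X_pow_sub_C_pow p (b : K)⟩
  · exact isGalois_of_isSplittingField_X_pow_sub_C hprim hirr _
  · exact finrank_of_isSplittingField_X_pow_sub_C hprim hirr _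

open IntermediateField in
/-- `L = K(a^(1/p))`, and the elements of `K` which are `p`-th powers in `L`. -/
theorem exists_rad (hp : p.Prime) {ζ : K} (hζ : IsPrimitiveRoot ζ p) (L : Type) [Field L]
    [NumberField L] [Algebra K L] [IsGalois K L] (hL : Module.finrank K L = p) :
    ∃ a : Kˣ, a ∉ PP K p ∧ (∃ α : L, α ^ p = algebraMap K L a) ∧
      ∀ b : Kˣ, (∃ β : L, β ^ p = algebraMap K L b) → ∃ k : ℕ, b / a ^ k ∈ PP K p := by
  classical
  have : Fact p.Prime := ⟨hp⟩
  have hcard : Nat.card (L ≃ₐ[K] L) = p := by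
    rw [IsGalois.card_aut_eq_finrank, hL]
  have : IsCyclic (L ≃ₐ[K] L) := isCyclic_of_prime_card hcard
  have hprim : (primitiveRoots (Module.finrank K L) K).Nonempty := by
    rw [hL]
    exact ⟨ζ, (mem_primitiveRoots hp.pos).2 hζ⟩
  obtain ⟨α, ⟨a, ha⟩, hα⟩ := exists_root_adjoin_eq_top_of_isCyclic K L hprim
  rw [hL] at ha
  have hζL : IsPrimitiveRoot (algebraMap K L ζ) p :=
    hζ.map_of_injective (algebraMap K L).injective
  -- `α` is not in `K`
  have hαK : ¬ ∃ c : K, algebraMap K L c = α := by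
    rintro ⟨c, hc⟩
    have h1 : K⟮α⟯ = ⊥ := by
      rw [adjoin_simple_eq_bot_iff, mem_bot]
      exact ⟨c, hc⟩
    rw [h1] at hα
    have h2 : Module.finrank K (⊥ : IntermediateField K L) = 1 := IntermediateField.finrank_bot
    rw [hα, finrank_top', hL] at h2
    exact hp.one_lt.ne' h2
  have hα0 : α ≠ 0 := by
    rintro rfl
    exact hαK ⟨0, map_zero _⟩
  have ha0 : a ≠ 0 := by
    rintro rfl
    rw [map_zero] at ha
    exact hα0 (pow_eq_zero_iff hp.ne_zero |>.1 ha.symm)
  have key : ∀ x y : L, y ≠ 0 → x ^ p = y ^ p → ∃ i : ℕ, x = algebraMap K L ζ ^ i * y := by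
    intro x y hy hxy
    have h1 : (x / y) ^ p = 1 := by
      rw [div_pow, hxy, div_self (pow_ne_zero _ hy)]
    obtain ⟨i, _, hi⟩ := hζL.eq_pow_of_pow_eq_one h1
    exact ⟨i, by rw [hi, div_mul_cancel₀ _ hy]⟩
  refine ⟨Units.mk0 a ha0, ?_, ⟨α, ha.symm⟩, ?_⟩
  · rw [mem_PP]
    rintro ⟨c, hc⟩
    have hc' : (c : K) ^ p = a := by
      have := congrArg Units.val hc
      simpa using this
    have hc0 : algebraMap K L (c : K) ≠ 0 := by
      rw [Ne, map_eq_zero]
      exact c.ne_zero
    obtain ⟨i, hi⟩ := key α (algebraMap K L c) hc0 (by rw [← ha, ← map_pow, hc'])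
    exact hαK ⟨ζ ^ i * c, by rw [map_mul, map_pow, hi]⟩
  · rintro b ⟨β, hβ⟩
    -- an automorphism moving `α`
    have h1 : ∃ σ : L ≃ₐ[K] L, σ α ≠ α := by
      by_contra hcon
      push Not at hcon
      exact hαK ((IsGalois.mem_range_algebraMap_iff_fixed α).2 hcon)
    obtain ⟨σ, hσ⟩ := h1
    have hσ1 : σ ≠ 1 := by
      rintro rfl
      exact hσ rfl
    have hβ0 : β ≠ 0 := by
      rintro rfl
      rw [zero_pow hp.ne_zero] at hβ
      have := hβ.symm
      rw [map_eq_zero] at this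
      exact b.ne_zero this
    obtain ⟨i, hi⟩ := key (σ α) α hα0 (by rw [← map_pow, ← ha, AlgEquiv.commutes])
    obtain ⟨j, hj⟩ := key (σ β) β hβ0 (by rw [← map_pow, hβ, AlgEquiv.commutes])
    have hi1 : (algebraMap K L ζ) ^ i ≠ 1 := by
      intro h
      rw [h, one_mul] at hi
      exact hσ hi
    have hip : IsPrimitiveRoot ((algebraMap K L ζ) ^ i) p := by
      refine hζL.pow_of_coprime i ?_
      rw [Nat.coprime_comm, hp.coprime_iff_not_dvd]
      rintro ⟨c, rfl⟩
      exact hi1 (by rw [pow_mul, hζL.pow_eq_one, one_pow])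
    obtain ⟨k, _, hk⟩ := hip.eq_pow_of_pow_eq_one (ξ := (algebraMap K L ζ) ^ j)
      (by rw [← pow_mul, mul_comm, pow_mul, hζL.pow_eq_one, one_pow])
    refine ⟨k, ?_⟩
    have hfix : σ (β / α ^ k) = β / α ^ k := by
      rw [map_div₀, map_pow, hi, hj, mul_pow, ← hk, mul_div_mul_left]
      exact pow_ne_zero _ (hip.ne_zero hp.ne_zero)
    have hfix' : ∀ τ : L ≃ₐ[K] L, τ (β / α ^ k) = β / α ^ k := by
      intro τ
      have hτ : τ ∈ Submonoid.powers σ := mem_powers_of_prime_card hcard hσ1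
      obtain ⟨n, rfl⟩ := hτ
      induction n with
      | zero => simp
      | succ n ih =>
        have e : (fun x => σ ^ x) (n + 1) = (σ ^ n) * σ := pow_succ σ n
        rw [e, AlgEquiv.mul_apply, hfix]
        exact ih
    obtain ⟨c, hc⟩ := (IsGalois.mem_range_algebraMap_iff_fixed _).2 hfix'
    have hcp : c ^ p = (b : K) / a ^ k := by
      apply (algebraMap K L).injective
      rw [map_pow, hc, div_pow, hβ, ← pow_mul, mul_comm k p, pow_mul, ← ha, map_div₀, map_pow]
    have hc0 : c ≠ 0 := by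
      rintro rfl
      rw [map_zero] at hc
      exact (div_ne_zero hβ0 (pow_ne_zero _ hα0)) hc.symm
    rw [mem_PP]
    refine ⟨Units.mk0 c hc0, ?_⟩
    ext
    simp [hcp]

end Pool.Agent.RG.H
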