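import Mathlib
import Pool.Agent.Lib.RG.HDefs
import Pool.Agent.Lib.RG.H01
import Pool.Agent.Lib.RG.H02
import Pool.Agent.Lib.RG.H03
import Pool.Agent.Lib.RG.H04

/-!
Row H20: decomposition of the primes in `K(b^(1/p))`. `split_of_NP`: if `b ∈ NP p v`, `w` above `v`
and `σ ≠ 1` is in the decomposition group of `w`: replace `β` by `β / y`, `b = y^p u`, so
`w(β^p - 1) ≥ e(w|v) (2 v(p) + 1)`, `σ β = η β` with `η` a primitive `p`-th root of unity; with
`π = w(1 - η)` one has `w(p) ≤ π ^ (p - 1)`, so `w(β - ζ) < π` for some `p`-th root of unity `ζ`,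
and `w(η β - ζ) = w(σ β - ζ) < π`, a contradiction.
-/

set_option autoImplicit false
set_option linter.unusedSectionVars false

namespace Pool.Agent.RG.H

open NumberField IsDedekindDomain WithZero

variable {K L : Type} [Field K] [NumberField K] [Field L] [NumberField L] [Algebra K L]

/-- Roots of unity have valuation one. -/
private theorem val_root (w : Pr L) {p : ℕ} (hp : 0 < p) {η : L} (h : η ^ p = 1) :
    w.valuation L η = 1 := by
  have h1 : (w.valuation L η) ^ p = 1 := by rw [← map_pow, h, map_one]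
  exact (pow_eq_one_iff_of_nonneg zero_le hp.ne').1 h1

private theorem val_nat_le (w : Pr L) (n : ℕ) : w.valuation L (n : L) ≤ 1 := by
  have h := w.valuation_le_one (K := L) (n : 𝓞 L)
  have e : algebraMap (𝓞 L) L (n : 𝓞 L) = (n : L) := map_natCast _ n
  exact (congrArg (w.valuation L) e).symm.le.trans h

/-- `w(p) ≤ w(1 - η) ^ (p - 1)`. -/
private theorem val_p_le (w : Pr L) {p : ℕ} (hp : p.Prime) {η : L} (h : IsPrimitiveRoot η p) :
    w.valuation L (p : L) ≤ (w.valuation L (1 - η)) ^ (p - 1) := by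
  obtain ⟨n, rfl⟩ : ∃ n, p = n + 1 := ⟨p - 1, by have := hp.pos; omega⟩
  have h1 := h.prod_one_sub_pow_eq_order
  have h2 : w.valuation L ((n + 1 : ℕ) : L) =
      ∏ k ∈ Finset.range n, w.valuation L (1 - η ^ (k + 1)) := by
    rw [← map_prod, h1]
    push_cast
    rfl
  rw [h2, Nat.add_sub_cancel]
  have h3 : ∀ k ∈ Finset.range n, w.valuation L (1 - η ^ (k + 1)) ≤ w.valuation L (1 - η) := by
    intro k _
    have e : 1 - η ^ (k + 1) = (1 - η) * ∑ i ∈ Finset.range (k + 1), η ^ i := by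
      rw [mul_neg_geom_sum]
    rw [e, map_mul]
    refine mul_le_of_le_one_right' ?_
    refine Valuation.map_sum_le _ fun i _ => ?_
    rw [map_pow, val_root w hp.pos h.pow_eq_one, one_pow]
  calc ∏ k ∈ Finset.range n, w.valuation L (1 - η ^ (k + 1))
      ≤ ∏ _k ∈ Finset.range n, w.valuation L (1 - η) := Finset.prod_le_prod' h3
    _ = _ := by rw [Finset.prod_const, Finset.card_range]

variable [IsGalois K L] {p : ℕ}

/-- If `σ ≠ 1` then `σ β = η β` for a primitive root of unity `η`. -/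
private theorem exists_eta (hp : p.Prime) (hL : Module.finrank K L = p) {b : Kˣ} {β : L}
    (hβ : β ^ p = algebraMap K L b) (hb : b ∉ PP K p) {σ : L ≃ₐ[K] L} (hσ : σ ≠ 1) :
    ∃ η : L, IsPrimitiveRoot η p ∧ σ β = η * β := by
  have hβ0 : β ≠ 0 := by
    rintro rfl
    rw [zero_pow hp.ne_zero] at hβ
    exact b.ne_zero ((map_eq_zero (algebraMap K L)).1 hβ.symm)
  have hne : σ β ≠ β := by
    intro h
    -- all `τ` fix `β`
    have hcard : Nat.card (L ≃ₐ[K] L) = p := by rw [IsGalois.card_aut_eq_finrank, hL]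
    have hfix : ∀ τ : L ≃ₐ[K] L, τ β = β := by
      intro τ
      have hpf : Fact p.Prime := ⟨hp⟩
      have hz : Subgroup.zpowers σ = ⊤ := zpowers_eq_top_of_prime_card hcard hσ
      have hτ : τ ∈ Subgroup.zpowers σ := by rw [hz]; trivial
      obtain ⟨k, rfl⟩ := Subgroup.mem_zpowers_iff.1 hτ
      have hst : σ ∈ MulAction.stabilizer (L ≃ₐ[K] L) β := h
      exact Subgroup.zpow_mem _ hst k
    obtain ⟨y, hy⟩ : β ∈ Set.range (algebraMap K L) := by
      have := IsGalois.mem_range_algebraMap_iff_fixed (F := K) (E := L) β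
      exact this.2 hfix
    apply hb
    rw [mem_PP]
    have hy0 : y ≠ 0 := by
      rintro rfl
      rw [map_zero] at hy
      exact hβ0 hy.symm
    refine ⟨Units.mk0 y hy0, ?_⟩
    ext
    apply (algebraMap K L).injective
    rw [← hβ, ← hy]
    simp
  refine ⟨σ β / β, ?_, by field_simp⟩
  have hpow : (σ β / β) ^ p = 1 := by
    rw [div_pow, ← map_pow, hβ, AlgEquiv.commutes, div_self]
    rw [← hβ]
    exact pow_ne_zero _ hβ0
  have h1 : σ β / β ≠ 1 := by
    intro h
    apply hne
    rwa [div_eq_one_iff_eq hβ0] at h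
  have hpf : Fact p.Prime := ⟨hp⟩
  have ho : orderOf (σ β / β) = p := orderOf_eq_prime hpow h1
  have := IsPrimitiveRoot.orderOf (σ β / β)
  rwa [ho] at this

theorem split_of_NP (hp : p.Prime) (hp2 : p ≠ 2) {ζ : K} (hζ : IsPrimitiveRoot ζ p)
    (hL : Module.finrank K L = p) {b : Kˣ} {β : L} (hβ : β ^ p = algebraMap K L b)
    (hb : b ∉ PP K p) {v : Pr K} (hv : b ∈ NP p v) {w : Pr L} (hw : (below w : Pr K) = v)
    (σ : L ≃ₐ[K] L) (hσ : IsDec w σ) : σ = 1 := by
  by_contra hσ1
  obtain ⟨η, hη, hση⟩ := exists_eta hp hL hβ hb hσ1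
  unfold NP at hv
  obtain ⟨c, hc, u, hu, hcu⟩ := Subgroup.mem_sup.1 hv
  obtain ⟨y, rfl⟩ := mem_PP.1 hc
  set γ : L := β / algebraMap K L (y : K) with hγ
  have hy0 : algebraMap K L (y : K) ≠ 0 := by
    rw [Ne, map_eq_zero]
    exact y.ne_zero
  have hγp : γ ^ p = algebraMap K L (u : K) := by
    rw [hγ, div_pow, hβ, ← hcu, div_eq_iff (pow_ne_zero _ hy0), ← map_pow, ← map_mul]
    congr 1
    push_cast
    ring
  have hσγ : σ γ = η * γ := by
    rw [hγ, map_div₀, hση, AlgEquiv.commutes]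
    ring
  obtain ⟨e, he, hev⟩ := exists_e_val (K := K) w
  -- the valuation of `p`
  have hvp : v.valuation K (p : K) = exp (-(ev p v : ℤ)) := by
    have hp0 : v.valuation K (p : K) ≠ 0 := by
      rw [Ne, map_eq_zero]
      exact Nat.cast_ne_zero.2 hp.ne_zero
    have hle : log (v.valuation K (p : K)) ≤ 0 := by
      rw [← log_one, log_le_log hp0 one_ne_zero]
      exact val_nat_le v p
    unfold ev
    rw [Int.toNat_of_nonneg (by omega), neg_neg, exp_log hp0]
  have hwp : w.valuation L (p : L) = exp (-(ev p v : ℤ)) ^ e := by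
    have h := hev (p : K)
    rwa [map_natCast, hw, hvp] at h
  set π := w.valuation L (1 - η) with hπ
  have hπ1 : π ≤ 1 := by
    refine (Valuation.map_sub _ _ _).trans ?_
    rw [map_one, val_root w hp.pos hη.pow_eq_one, max_self]
  have hpπ : w.valuation L (p : L) ≤ π ^ (p - 1) := val_p_le w hp hη
  have hpπ' : w.valuation L (p : L) ≤ π := by
    refine hpπ.trans ?_
    have h2 := hp.two_le
    exact pow_le_of_le_one zero_le hπ1 (by omega)
  have hππ : exp (-(2 * ev p v : ℤ)) ^ e ≤ π ^ p := by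
    have e1 : exp (-(2 * ev p v : ℤ)) ^ e = w.valuation L (p : L) * w.valuation L (p : L) := by
      rw [hwp, ← mul_pow, ← exp_add]
      congr 2
      ring
    rw [e1]
    calc w.valuation L (p : L) * w.valuation L (p : L) ≤ π ^ (p - 1) * π :=
          mul_le_mul' hpπ hpπ'
      _ = π ^ p := by
          rw [← pow_succ]
          congr 1
          have := hp.pos
          omega
  have hlt : w.valuation L (γ ^ p - 1) < π ^ p := by
    refine lt_of_lt_of_le ?_ hππ
    rw [hγp, ← map_one (algebraMap K L), ← map_sub, hev, hw]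
    refine lt_of_le_of_lt (pow_le_pow_left' hu.2 e) ?_
    refine pow_lt_pow_left₀ ?_ zero_le (by omega)
    rw [exp_lt_exp]
    push_cast
    omega
  -- some factor is small
  obtain ⟨ξ, hξ, hξlt⟩ : ∃ ξ ∈ Polynomial.nthRootsFinset p (1 : L), w.valuation L (γ - ξ) < π := by
    by_contra hcon
    push Not at hcon
    have h1 : w.valuation L (γ ^ p - 1) =
        ∏ ξ ∈ Polynomial.nthRootsFinset p (1 : L), w.valuation L (γ - ξ) := by
      have := hη.pow_sub_pow_eq_prod_sub_mul γ 1 hp.pos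
      rw [one_pow] at this
      rw [this, map_prod]
      refine Finset.prod_congr rfl fun ξ _ => ?_
      rw [mul_one]
    have h2 : π ^ p ≤ w.valuation L (γ ^ p - 1) := by
      rw [h1]
      calc π ^ p = ∏ _ξ ∈ Polynomial.nthRootsFinset p (1 : L), π := by
            rw [Finset.prod_const, hη.card_nthRootsFinset]
        _ ≤ _ := Finset.prod_le_prod' hcon
    exact absurd hlt (not_lt.2 h2)
  have hξp : ξ ^ p = 1 := (Polynomial.mem_nthRootsFinset hp.pos _).1 hξ
  -- conclusion
  have h1 : w.valuation L (η * γ - η * ξ) < π := by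
    rw [← mul_sub, map_mul, val_root w hp.pos hη.pow_eq_one, one_mul]
    exact hξlt
  have h2 : w.valuation L (η * γ - σ ξ) < π := by
    rw [← hσγ, ← map_sub]
    have := hσ (γ - ξ)
    rw [show σ (γ - ξ) = σ • (γ - ξ) from rfl, this]
    exact hξlt
  -- `σ ξ = ξ` since `ξ ∈ K`
  have hσξ : σ ξ = ξ := by
    have hζ' : IsPrimitiveRoot (algebraMap K L ζ) p :=
      hζ.map_of_injective (algebraMap K L).injective
    have : NeZero p := ⟨hp.ne_zero⟩
    obtain ⟨i, _, hi⟩ := hζ'.eq_pow_of_pow_eq_one hξp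
    rw [← hi, ← map_pow, AlgEquiv.commutes]
  rw [hσξ] at h2
  have h3 : w.valuation L (ξ * (1 - η)) < π := by
    have e1 : ξ * (1 - η) = (η * γ - η * ξ) - (η * γ - ξ) := by ring
    rw [e1]
    exact Valuation.map_sub_lt _ h1 h2
  rw [map_mul, val_root w hp.pos hξp, one_mul] at h3
  exact lt_irrefl _ h3

theorem unram_of_unit (hp : p.Prime) {ζ : K} (hζ : IsPrimitiveRoot ζ p)
    (hL : Module.finrank K L = p) {b : Kˣ} {β : L} (hβ : β ^ p = algebraMap K L b)
    (hb : b ∉ PP K p) {v : Pr K} (hp' : ¬ Above v p) (hv : vl v b = 0) {w : Pr L}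
    (hw : (below w : Pr K) = v) (σ : L ≃ₐ[K] L) (hσ : IsInert w σ) : σ = 1 := by
  by_contra hσ1
  obtain ⟨η, hη, hση⟩ := exists_eta hp hL hβ hb hσ1
  obtain ⟨e, he, hev⟩ := exists_e_val (K := K) w
  have hwβ : w.valuation L β = 1 := by
    have h1 : (w.valuation L β) ^ p = 1 := by
      rw [← map_pow, hβ, hev, hw, vl_eq_zero.1 hv, one_pow]
    exact (pow_eq_one_iff_of_nonneg zero_le hp.pos.ne').1 h1
  have h1 := hσ.2 β hwβ.le
  rw [show σ • β = σ β from rfl, hση] at h1
  have h2 : η * β - β = (η - 1) * β := by ring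
  rw [h2, map_mul, hwβ, mul_one] at h1
  have h3 : w.valuation L (1 - η) < 1 := by
    rw [Valuation.map_sub_swap]
    exact h1
  apply hp'
  rw [← hw]
  rw [← above_iff (K := K) w p]
  refine lt_of_le_of_lt (val_p_le w hp hη) ?_
  have h4 := hp.two_le
  exact pow_lt_one' h3 (by omega)

/-- Unramified radical extensions: the valuation of the radicand is divisible by `p`. (`w(β)` is an
integer, `w(b) = v(b)` by `e_one`.) -/
theorem dvd_of_unram (hp : p.Prime) (hL : Module.finrank K L = p) {b : Kˣ} {β : L}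
    (hβ : β ^ p = algebraMap K L b) {w : Pr L}
    (h : ∀ σ : L ≃ₐ[K] L, IsInert w σ → σ = 1) : (p : ℤ) ∣ vl (below w : Pr K) b := by
  have hβ0 : β ≠ 0 := by
    rintro rfl
    rw [zero_pow hp.ne_zero] at hβ
    exact b.ne_zero ((map_eq_zero (algebraMap K L)).1 hβ.symm)
  have h1 := e_one w h b
  have h2 : emb K L b = (Units.mk0 β hβ0) ^ p := by
    ext
    rw [emb_val, ← hβ]
    simp
  rw [h2, vl_pow] at h1
  exact ⟨_, h1.symm⟩

end Pool.Agent.RG.H
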