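import Mathlib
import Pool.Agent.Lib.RG.HDefs

/-!
Row Zeta1: convergence. There are at most `[M:ℚ]` primes above a rational prime `q`, and their
norms are powers of `q`.
-/

set_option autoImplicit false
set_option linter.unusedSectionVars false

namespace Pool.Agent.RG.H

open NumberField IsDedekindDomain WithZero Filter Topology Asymptotics

variable (M : Type) [Field M] [NumberField M]

theorem Zeta1Aux.hasSum_fiber {α : Type} (g : α → ℕ) (hfin : ∀ n, Finite {a // g a = n}) (h : ℕ → ℝ)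
    (hn : ∀ n, 0 ≤ h n) (hs : Summable fun n => (Nat.card {a // g a = n} : ℝ) * h n) :
    HasSum (fun a => h (g a)) (∑' n, (Nat.card {a // g a = n} : ℝ) * h n) := by
  have hfib : ∀ n, HasSum (fun a : {a // g a = n} => h (g a.1))
      ((Nat.card {a // g a = n} : ℝ) * h n) := by
    intro n
    have := hfin n
    have := Fintype.ofFinite {a // g a = n}
    have h1 := hasSum_fintype (fun a : {a // g a = n} => h (g a.1))
    have h2 : ∑ a : {a // g a = n}, h (g a.1) = (Nat.card {a // g a = n} : ℝ) * h n := by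
      rw [Finset.sum_congr rfl (g := fun _ => h n) (fun a _ => by rw [a.2])]
      rw [Finset.sum_const, nsmul_eq_mul, Nat.card_eq_fintype_card]
      rfl
    rwa [h2] at h1
  have hsig : Summable (fun x : (Σ n, {a // g a = n}) => h (g x.2.1)) := by
    refine (summable_sigma_of_nonneg (fun x => hn _)).2 ⟨fun n => (hfib n).summable, ?_⟩
    refine hs.congr fun n => ?_
    exact ((hfib n).tsum_eq).symm
  have h3 := hsig.hasSum
  rw [hsig.tsum_sigma' (fun n => (hfib n).summable)] at h3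
  rw [tsum_congr (fun n => (hfib n).tsum_eq)] at h3
  have h4 : HasSum ((fun a => h (g a)) ∘ (Equiv.sigmaFiberEquiv g))
      (∑' n, (Nat.card {a // g a = n} : ℝ) * h n) := h3
  exact (Equiv.hasSum_iff (Equiv.sigmaFiberEquiv g)).1 h4

theorem Zeta1Aux.count_isBigO :
    (fun n : ℕ ↦ ∑ k ∈ Finset.Icc 1 n, (Nat.card {I : Ideal (𝓞 M) // Ideal.absNorm I = k} : ℝ))
      =O[atTop] fun n : ℕ ↦ (n : ℝ) ^ (1 : ℝ) := by
  have h1 := ((NumberField.Ideal.tendsto_norm_le_div_atTop₀ M).comp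
    tendsto_natCast_atTop_atTop)
  have h2 : (fun n : ℕ ↦ (Nat.card {I : nonZeroDivisors (Ideal (𝓞 M)) //
      (Ideal.absNorm (I : Ideal (𝓞 M)) : ℝ) ≤ (n : ℝ)} : ℝ)) =O[atTop] fun n : ℕ ↦ (n : ℝ) ^ (1 : ℝ) := by
    have h3 := h1.isBigO_one ℝ
    have h4 := h3.mul (isBigO_refl (fun n : ℕ ↦ (n : ℝ)) atTop)
    refine (h4.congr' ?_ ?_)
    · filter_upwards [eventually_gt_atTop 0] with n hn
      simp only [Function.comp_apply]
      rw [div_mul_cancel₀]
      exact_mod_cast hn.ne'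
    · filter_upwards with n
      simp
  refine h2.congr' (Eventually.of_forall fun n => ?_) (Eventually.of_forall fun n => rfl)
  simp only [Nat.cast_le, ← Nat.cast_sum]
  congr
  rw [← add_left_inj 1, ← Ideal.card_norm_le_eq_card_norm_le_add_one,
    show Finset.Icc 1 n = Finset.Ioc 0 n from Finset.Icc_succ_left_eq_Ioc _ _,
    show 1 = Nat.card {I : Ideal (𝓞 M) // Ideal.absNorm I = 0} by simp [Ideal.absNorm_eq_zero_iff],
    Finset.sum_Ioc_add_eq_sum_Icc (n.zero_le),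
    ← Finset.card_preimage_eq_sum_card_image_eq (fun k _ ↦ Ideal.finite_setOfPred_absNorm_eq k)]
  simp [Set.coe_eq_subtype]


private theorem card_fiber_le (q : ℕ) (s : Finset (Pr M))
    (h : ∀ w ∈ s, Ideal.absNorm (Ideal.under ℤ w.asIdeal) = q) : s.card ≤ Module.finrank ℚ M := by
  classical
  rcases s.eq_empty_or_nonempty with rfl | ⟨w0, hw0⟩
  · simp
  have : NeZero w0.asIdeal := ⟨w0.ne_bot⟩
  have hq : q.Prime := by
    rw [← h w0 hw0]
    exact Nat.absNorm_under_prime w0.asIdeal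
  have hp0 : Ideal.span {(q : ℤ)} ≠ ⊥ := by
    rw [Ne, Ideal.span_singleton_eq_bot]
    exact_mod_cast hq.ne_zero
  have hmax : (Ideal.span {(q : ℤ)}).IsMaximal :=
    ((Ideal.span_singleton_prime (by exact_mod_cast hq.ne_zero)).2
      (Nat.prime_iff_prime_int.mp hq)).isMaximal hp0
  have h1 := Ideal.card_primesOverFinset_le_finrank (𝓞 M) ℚ M hp0
  refine le_trans ?_ h1
  rw [← Finset.card_image_of_injective s (f := fun w : Pr M => w.asIdeal)
    (fun a b hab => HeightOneSpectrum.ext hab)]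
  refine Finset.card_le_card fun I hI => ?_
  obtain ⟨w, hw, rfl⟩ := Finset.mem_image.1 hI
  rw [IsDedekindDomain.mem_primesOverFinset_iff hp0]
  refine ⟨w.isPrime, ?_⟩
  rw [← h w hw]
  exact Int.liesOver_span_absNorm w.asIdeal

private theorem norm_ge (w : Pr M) (hw : ¬ (Ideal.absNorm w.asIdeal).Prime) :
    (Ideal.absNorm (Ideal.under ℤ w.asIdeal)) ^ 2 ≤ Ideal.absNorm w.asIdeal := by
  have : NeZero w.asIdeal := ⟨w.ne_bot⟩
  have hq : (Ideal.absNorm (Ideal.under ℤ w.asIdeal)).Prime := Nat.absNorm_under_prime w.asIdeal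
  have h1 := Ideal.absNorm_eq_pow_inertiaDeg' w.asIdeal hq
  set f := Ideal.inertiaDeg' (Ideal.span {((Ideal.absNorm (Ideal.under ℤ w.asIdeal) : ℕ) : ℤ)})
    w.asIdeal
  have h0 : f ≠ 0 := by
    intro h0
    rw [h0, pow_zero, Ideal.absNorm_eq_one_iff] at h1
    exact w.isPrime.ne_top h1
  have h2 : f ≠ 1 := by
    intro h2
    rw [h2, pow_one] at h1
    exact hw (h1 ▸ hq)
  rw [h1]
  exact Nat.pow_le_pow_right hq.pos (by omega)


theorem Zeta1Aux.finite_norm (n : ℕ) :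
    Finite {I : {I : Ideal (𝓞 M) // I ≠ ⊥} // Ideal.absNorm I.1 = n} := by
  have h : Finite {I : Ideal (𝓞 M) // Ideal.absNorm I = n} :=
    Ideal.finite_setOfPred_absNorm_eq n
  exact Finite.of_injective (β := {I : Ideal (𝓞 M) // Ideal.absNorm I = n})
    (fun I => ⟨I.1.1, I.2⟩) (fun I J hIJ => by
      apply Subtype.ext
      apply Subtype.ext
      exact congrArg (fun x => x.1) hIJ)

theorem Zeta1Aux.card_norm (n : ℕ) (hn : n ≠ 0) :
    Nat.card {I : {I : Ideal (𝓞 M) // I ≠ ⊥} // Ideal.absNorm I.1 = n} =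
      Nat.card {I : Ideal (𝓞 M) // Ideal.absNorm I = n} := by
  refine Nat.card_congr ⟨fun I => ⟨I.1.1, I.2⟩, fun I => ⟨⟨I.1, ?_⟩, I.2⟩, fun I => rfl,
    fun I => rfl⟩
  intro h
  apply hn
  rw [← I.2, h, Ideal.absNorm_bot]

theorem Zeta1Aux.card_norm_zero :
    Nat.card {I : {I : Ideal (𝓞 M) // I ≠ ⊥} // Ideal.absNorm I.1 = 0} = 0 := by
  have : IsEmpty {I : {I : Ideal (𝓞 M) // I ≠ ⊥} // Ideal.absNorm I.1 = 0} :=
    ⟨fun I => I.1.2 (Ideal.absNorm_eq_zero_iff.1 I.2)⟩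
  exact Nat.card_of_isEmpty

theorem Zeta1Aux.summable_nat {s : ℝ} (hs : 1 < s) :
    Summable fun n : ℕ => (Nat.card {I : {I : Ideal (𝓞 M) // I ≠ ⊥} // Ideal.absNorm I.1 = n} : ℝ) *
      (n : ℝ) ^ (-s) := by
  have h1 : LSeriesSummable (fun n => ((Nat.card {I : Ideal (𝓞 M) // Ideal.absNorm I = n} : ℝ) : ℂ))
      (s : ℂ) :=
    LSeriesSummable_of_sum_norm_bigO_and_nonneg (Zeta1Aux.count_isBigO M) (fun n => Nat.cast_nonneg _)
      zero_le_one (by simpa using hs)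
  have h2 := (show Summable (LSeries.term _ _) from h1).norm
  refine h2.congr fun n => ?_
  rcases eq_or_ne n 0 with rfl | hn
  · rw [LSeries.term_zero, norm_zero, Zeta1Aux.card_norm_zero]
    simp
  · rw [LSeries.term_of_ne_zero hn, Zeta1Aux.card_norm M n hn, norm_div, Complex.norm_real,
      Complex.norm_natCast_cpow_of_pos (Nat.pos_of_ne_zero hn), Complex.ofReal_re,
      Real.rpow_neg (Nat.cast_nonneg n), div_eq_mul_inv]
    congr 1
    exact Real.norm_of_nonneg (Nat.cast_nonneg _)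

theorem Zeta1Aux.hasSum_ideals {s : ℝ} (hs : 1 < s) :
    HasSum (fun I : {I : Ideal (𝓞 M) // I ≠ ⊥} => (Ideal.absNorm I.1 : ℝ) ^ (-s))
      (∑' n : ℕ, (Nat.card {I : {I : Ideal (𝓞 M) // I ≠ ⊥} // Ideal.absNorm I.1 = n} : ℝ) *
      (n : ℝ) ^ (-s)) :=
  Zeta1Aux.hasSum_fiber (fun I : {I : Ideal (𝓞 M) // I ≠ ⊥} => Ideal.absNorm I.1)
    (Zeta1Aux.finite_norm M) (fun n => (n : ℝ) ^ (-s))
    (fun n => Real.rpow_nonneg (Nat.cast_nonneg n) _) (Zeta1Aux.summable_nat M hs)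

theorem summable_ideals {s : ℝ} (hs : 1 < s) :
    Summable fun I : {I : Ideal (𝓞 M) // I ≠ ⊥} => (Ideal.absNorm I.1 : ℝ) ^ (-s) :=
  (Zeta1Aux.hasSum_ideals M hs).summable

theorem summable_primes {s : ℝ} (hs : 1 < s) :
    Summable fun w : Pr M => (Ideal.absNorm w.asIdeal : ℝ) ^ (-s) := by
  have h := summable_ideals M hs
  exact h.comp_injective (i := fun w : Pr M => (⟨w.asIdeal, w.ne_bot⟩ : {I : Ideal (𝓞 M) // I ≠ ⊥}))
    (fun a b hab => HeightOneSpectrum.ext (congrArg (fun x => x.1) hab))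

open Classical in
/-- The primes whose norm is not a prime number contribute a bounded amount. -/
theorem high_degree : ∃ C : ℝ, ∀ s : ℝ, 1 < s →
    ∑' w : Pr M, (if (Ideal.absNorm w.asIdeal).Prime then 0 else
      (Ideal.absNorm w.asIdeal : ℝ) ^ (-s)) ≤ C := by
  have hsq : Summable fun n : ℕ => ((n : ℝ) ^ 2)⁻¹ := by
    simp
  refine ⟨(Module.finrank ℚ M : ℝ) * ∑' n : ℕ, ((n : ℝ) ^ 2)⁻¹, fun s hs => ?_⟩
  have hT : 0 ≤ ∑' n : ℕ, ((n : ℝ) ^ 2)⁻¹ := tsum_nonneg fun n => by positivity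
  refine tsum_le_of_sum_le' (by positivity) fun t => ?_
  have hqp : ∀ w : Pr M, (Ideal.absNorm (Ideal.under ℤ w.asIdeal)).Prime := by
    intro w
    have : NeZero w.asIdeal := ⟨w.ne_bot⟩
    exact Nat.absNorm_under_prime w.asIdeal
  have h1 : ∀ w ∈ t, (if (Ideal.absNorm w.asIdeal).Prime then 0 else
      (Ideal.absNorm w.asIdeal : ℝ) ^ (-s)) ≤
      (fun n : ℕ => ((n : ℝ) ^ 2)⁻¹) (Ideal.absNorm (Ideal.under ℤ w.asIdeal)) := by
    intro w _
    split_ifs with hw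
    · positivity
    · have h2 := norm_ge M w hw
      have h3 := (hqp w).pos
      have h4 : (0 : ℝ) < ((Ideal.absNorm (Ideal.under ℤ w.asIdeal) : ℕ) : ℝ) ^ 2 := by positivity
      have h5 : (((Ideal.absNorm (Ideal.under ℤ w.asIdeal) : ℕ) : ℝ)) ^ 2 ≤
          (Ideal.absNorm w.asIdeal : ℝ) := by exact_mod_cast h2
      have h6 : (1 : ℝ) ≤ (Ideal.absNorm w.asIdeal : ℝ) := by
        have h7 : 1 ≤ (Ideal.absNorm (Ideal.under ℤ w.asIdeal)) ^ 2 := Nat.one_le_pow _ _ h3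
        exact_mod_cast h7.trans h2
      calc (Ideal.absNorm w.asIdeal : ℝ) ^ (-s) ≤ (Ideal.absNorm w.asIdeal : ℝ) ^ (-1 : ℝ) :=
            Real.rpow_le_rpow_of_exponent_le h6 (by linarith)
        _ = (Ideal.absNorm w.asIdeal : ℝ)⁻¹ := Real.rpow_neg_one _
        _ ≤ _ := inv_anti₀ h4 h5
  refine (Finset.sum_le_sum h1).trans ?_
  rw [Finset.sum_comp (fun n : ℕ => ((n : ℝ) ^ 2)⁻¹)
    (fun w : Pr M => Ideal.absNorm (Ideal.under ℤ w.asIdeal))]
  calc _ ≤ ∑ b ∈ t.image (fun w : Pr M => Ideal.absNorm (Ideal.under ℤ w.asIdeal)),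
        (Module.finrank ℚ M : ℝ) * ((b : ℝ) ^ 2)⁻¹ := by
        refine Finset.sum_le_sum fun b _ => ?_
        rw [nsmul_eq_mul]
        refine mul_le_mul_of_nonneg_right ?_ (by positivity)
        have h8 := card_fiber_le M b (t.filter fun w : Pr M =>
          Ideal.absNorm (Ideal.under ℤ w.asIdeal) = b) (fun w hw => (Finset.mem_filter.1 hw).2)
        exact_mod_cast h8
    _ = (Module.finrank ℚ M : ℝ) *
        ∑ b ∈ t.image (fun w : Pr M => Ideal.absNorm (Ideal.under ℤ w.asIdeal)),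
          ((b : ℝ) ^ 2)⁻¹ := by rw [Finset.mul_sum]
    _ ≤ _ := mul_le_mul_of_nonneg_left (hsq.sum_le_tsum _ fun n _ => by positivity) (by positivity)

end Pool.Agent.RG.H
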