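import Mathlib
import Pool.Agent.Lib.RG.HDefs
import Pool.Agent.Lib.RG.Zeta1

/-!
Row Zeta2: Euler product bounds. For finite `F` and `k`: the sum over the ideals
`∏_{w ∈ F} w^(a w)`, `a w ≤ k`, is `∏_{w ∈ F} ∑_{a ≤ k} N(w)^(-a s)` (unique factorisation). Lower
bound for the full sum: `∏ (1 + N^(-s)) ≥ ..` or `∑_{a ≤ k} x^a → (1 - x)⁻¹ ≥ exp x`. Upper bound:
every finite set of ideals is of this form for some `F`, `k`; `(1 - x)⁻¹ ≤ exp (x + x^2)` for
`0 ≤ x ≤ 1/2` and `∑ N(w)^(-2) < ∞`.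
-/

set_option autoImplicit false
set_option linter.unusedSectionVars false

namespace Pool.Agent.RG.H

open NumberField IsDedekindDomain WithZero

variable (M : Type) [Field M] [NumberField M]

/-- the multiplicative function `I ↦ N(I)^(-s)` -/
private noncomputable def psi (s : ℝ) : Ideal (𝓞 M) →* ℝ where
  toFun I := (Ideal.absNorm I : ℝ) ^ (-s)
  map_one' := by simp
  map_mul' I J := by
    rw [map_mul, Nat.cast_mul, Real.mul_rpow (Nat.cast_nonneg _) (Nat.cast_nonneg _)]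

private theorem psi_apply (s : ℝ) (I : Ideal (𝓞 M)) : psi M s I = (Ideal.absNorm I : ℝ) ^ (-s) := rfl

private theorem psi_nonneg (s : ℝ) (I : Ideal (𝓞 M)) : 0 ≤ psi M s I :=
  Real.rpow_nonneg (Nat.cast_nonneg _) _

private theorem two_le (w : Pr M) : (2 : ℝ) ≤ (Ideal.absNorm w.asIdeal : ℝ) := by
  have h0 : Ideal.absNorm w.asIdeal ≠ 0 := fun h => w.ne_bot (Ideal.absNorm_eq_zero_iff.1 h)
  have h1 : Ideal.absNorm w.asIdeal ≠ 1 := fun h => w.isPrime.ne_top (Ideal.absNorm_eq_one_iff.1 h)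
  have h2 : 2 ≤ Ideal.absNorm w.asIdeal := by omega
  exact_mod_cast h2

private theorem psi_le {s : ℝ} (hs : 1 < s) (w : Pr M) : psi M s w.asIdeal ≤ 1 / 2 := by
  have h2 := two_le M w
  calc psi M s w.asIdeal ≤ (Ideal.absNorm w.asIdeal : ℝ) ^ (-1 : ℝ) :=
        Real.rpow_le_rpow_of_exponent_le (by linarith) (by linarith)
    _ = (Ideal.absNorm w.asIdeal : ℝ)⁻¹ := Real.rpow_neg_one _
    _ ≤ 1 / 2 := by
        rw [one_div]
        exact inv_anti₀ (by norm_num) h2

private theorem psi_sq {s : ℝ} (hs : 1 < s) (w : Pr M) :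
    (psi M s w.asIdeal) ^ 2 ≤ psi M 2 w.asIdeal := by
  have h2 := two_le M w
  rw [psi_apply, psi_apply, ← Real.rpow_natCast, ← Real.rpow_mul (Nat.cast_nonneg _)]
  exact Real.rpow_le_rpow_of_exponent_le (by linarith) (by push_cast; linarith)

private theorem psi_eq_prod {I : Ideal (𝓞 M)} (hI : I ≠ ⊥) (F : Finset (Pr M))
    (hF : ∀ w : Pr M, (Associates.mk w.asIdeal).count (Associates.mk I).factors ≠ 0 → w ∈ F) :
    ∏ w : F, w.1.asIdeal ^ ((Associates.mk w.1.asIdeal).count (Associates.mk I).factors) = I := by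
  rw [Finset.prod_coe_sort F
    (fun w : Pr M => w.asIdeal ^ ((Associates.mk w.asIdeal).count (Associates.mk I).factors))]
  have h := Ideal.finprod_heightOneSpectrum_factorization (I := I) hI
  conv_rhs => rw [← h]
  rw [finprod_eq_prod_of_mulSupport_subset]
  · rfl
  · intro w hw
    rw [Function.mem_mulSupport] at hw
    refine Finset.mem_coe.2 (hF w fun h0 => hw ?_)
    rw [HeightOneSpectrum.maxPowDividing, h0, pow_zero]

private theorem upper {s : ℝ} (hs : 1 < s) (T : Finset {I : Ideal (𝓞 M) // I ≠ ⊥}) :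
    ∃ F : Finset (Pr M), ∑ I ∈ T, psi M s I.1 ≤ ∏ w ∈ F, (1 - psi M s w.asIdeal)⁻¹ := by
  classical
  have hfin : ∀ I : {I : Ideal (𝓞 M) // I ≠ ⊥},
      {w : Pr M | (Associates.mk w.asIdeal).count (Associates.mk I.1).factors ≠ 0}.Finite := by
    intro I
    refine (Ideal.finite_factors I.2).subset fun w hw => ?_
    exact (Associates.count_ne_zero_iff_dvd I.2 w.irreducible).1 hw
  set F : Finset (Pr M) := T.biUnion fun I => (hfin I).toFinset with hFdef
  have hF : ∀ I ∈ T, ∀ w : Pr M,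
      (Associates.mk w.asIdeal).count (Associates.mk I.1).factors ≠ 0 → w ∈ F := by
    intro I hI w hw
    rw [hFdef, Finset.mem_biUnion]
    exact ⟨I, hI, (hfin I).mem_toFinset.2 hw⟩
  set e : {I : Ideal (𝓞 M) // I ≠ ⊥} → (F → ℕ) := fun I w =>
    (Associates.mk w.1.asIdeal).count (Associates.mk I.1).factors with hedef
  set k : ℕ := T.sup fun I => Finset.univ.sup (e I) with hk
  have hek : ∀ I ∈ T, ∀ w : F, e I w ≤ k := by
    intro I hI w
    have h1 : e I w ≤ Finset.univ.sup (e I) := Finset.le_sup (f := e I) (Finset.mem_univ w)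
    have h2 : Finset.univ.sup (e I) ≤ k :=
      Finset.le_sup (f := fun I => Finset.univ.sup (e I)) hI
    exact h1.trans h2
  have hinj : Set.InjOn e (T : Set {I : Ideal (𝓞 M) // I ≠ ⊥}) := by
    intro I hI J hJ hIJ
    apply Subtype.ext
    rw [← psi_eq_prod M I.2 F (hF I hI), ← psi_eq_prod M J.2 F (hF J hJ)]
    refine Finset.prod_congr rfl fun w _ => ?_
    have := congrFun hIJ w
    rw [hedef] at this
    simp only at this
    rw [this]
  refine ⟨F, ?_⟩
  have h1 : ∀ I ∈ T, psi M s I.1 = (fun p : F → ℕ => ∏ w : F, (psi M s w.1.asIdeal) ^ (p w)) (e I) := by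
    intro I hI
    conv_lhs => rw [← psi_eq_prod M I.2 F (hF I hI)]
    rw [map_prod]
    exact Finset.prod_congr rfl fun w _ => map_pow _ _ _
  rw [Finset.sum_congr rfl h1,
    ← Finset.sum_image (f := fun p : F → ℕ => ∏ w : F, (psi M s w.1.asIdeal) ^ (p w)) hinj]
  have h2 : T.image e ⊆ Fintype.piFinset fun _ : F => Finset.range (k + 1) := by
    intro p hp
    obtain ⟨I, hI, rfl⟩ := Finset.mem_image.1 hp
    rw [Fintype.mem_piFinset]
    intro w
    rw [Finset.mem_range]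
    exact Nat.lt_succ_of_le (hek I hI w)
  refine (Finset.sum_le_sum_of_subset_of_nonneg h2 fun p _ _ =>
    Finset.prod_nonneg fun w _ => pow_nonneg (psi_nonneg M s _) _).trans ?_
  rw [← Finset.prod_univ_sum (fun _ : F => Finset.range (k + 1))
    (fun (w : F) (a : ℕ) => (psi M s w.1.asIdeal) ^ a)]
  rw [← Finset.prod_coe_sort F (fun w : Pr M => (1 - psi M s w.asIdeal)⁻¹)]
  refine Finset.prod_le_prod (fun w _ => Finset.sum_nonneg fun a _ => pow_nonneg (psi_nonneg M s _) _)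
    fun w _ => ?_
  have h3 := psi_nonneg M s w.1.asIdeal
  have h4 := psi_le M hs w.1
  rw [← tsum_geometric_of_lt_one h3 (by linarith)]
  exact (summable_geometric_of_lt_one h3 (by linarith)).sum_le_tsum _ fun a _ => pow_nonneg h3 _

private theorem inv_le_exp {x : ℝ} (h0 : 0 ≤ x) (h1 : x ≤ 1 / 2) :
    (1 - x)⁻¹ ≤ Real.exp (x + x ^ 2) := by
  have h2 := Real.quadratic_le_exp_of_nonneg (x := x + x ^ 2) (by positivity)
  rw [inv_le_iff_one_le_mul₀ (by linarith)]
  refine le_trans ?_ (mul_le_mul_of_nonneg_right h2 (by linarith))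
  have h3 : 0 ≤ x ^ 2 := by positivity
  have h4 : (1 + (x + x ^ 2) + (x + x ^ 2) ^ 2 / 2) * (1 - x) =
      1 + x ^ 2 * ((1 - x) * (1 + x) ^ 2 / 2 - x) := by ring
  rw [h4]
  have h5 : 0 ≤ (1 - x) * (1 + x) ^ 2 / 2 - x := by
    have h6 : (1 - x) * (1 + x) ^ 2 / 2 - x = (1 - x - x ^ 2 - x ^ 3) / 2 := by ring
    rw [h6]
    have h7 : x ^ 2 ≤ 1 / 4 := by nlinarith
    have h8 : x ^ 3 ≤ 1 / 8 := by nlinarith
    linarith
  nlinarith [mul_nonneg h3 h5]

private theorem exp_le_one_add {x : ℝ} (h0 : 0 ≤ x) : Real.exp (x - x ^ 2) ≤ 1 + x := by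
  have h1 := Real.add_one_le_exp (-(x - x ^ 2))
  have h2 : Real.exp (x - x ^ 2) * Real.exp (-(x - x ^ 2)) = 1 := by
    rw [← Real.exp_add, add_neg_cancel, Real.exp_zero]
  have h3 := Real.exp_pos (x - x ^ 2)
  have h4 : 1 ≤ (1 + x) * Real.exp (-(x - x ^ 2)) := by
    refine le_trans ?_ (mul_le_mul_of_nonneg_left h1 (by linarith))
    have h5 : 0 ≤ x ^ 3 := by positivity
    nlinarith
  have h6 : (1 + x) = (1 + x) * Real.exp (-(x - x ^ 2)) * Real.exp (x - x ^ 2) := by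
    rw [mul_assoc, mul_comm (Real.exp (-(x - x ^ 2))), h2, mul_one]
  rw [h6]
  nlinarith

private theorem lower {s : ℝ} (hs : 1 < s) (F : Finset (Pr M)) :
    ∏ w ∈ F, (1 + psi M s w.asIdeal) ≤ ∑' I : {I : Ideal (𝓞 M) // I ≠ ⊥}, psi M s I.1 := by
  classical
  rw [Finset.prod_one_add]
  set g : Finset (Pr M) → {I : Ideal (𝓞 M) // I ≠ ⊥} := fun S =>
    ⟨∏ w ∈ S, w.asIdeal, by
      rw [← Ideal.zero_eq_bot, Finset.prod_ne_zero_iff]
      exact fun w _ => w.ne_bot⟩ with hg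
  have hmem : ∀ (S : Finset (Pr M)) (w : Pr M), w ∈ S ↔ w.asIdeal ∣ ∏ v ∈ S, v.asIdeal := by
    intro S w
    constructor
    · intro h
      exact Finset.dvd_prod_of_mem _ h
    · intro h
      have hp : Prime w.asIdeal := w.prime
      obtain ⟨v, hv, hvw⟩ := (hp.dvd_finsetProd_iff _).1 h
      rw [hp.dvd_prime_iff_associated v.prime, associated_iff_eq] at hvw
      rwa [HeightOneSpectrum.ext hvw]
  have hinj : Function.Injective g := by
    intro S T hST
    have h1 : ∏ w ∈ S, w.asIdeal = ∏ w ∈ T, w.asIdeal := congrArg (fun x => x.1) hST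
    ext w
    rw [hmem S, hmem T, h1]
  have h2 : ∀ S ∈ F.powerset, ∏ w ∈ S, psi M s w.asIdeal =
      (fun I : {I : Ideal (𝓞 M) // I ≠ ⊥} => psi M s I.1) (g S) := by
    intro S _
    exact (map_prod (psi M s) _ _).symm
  rw [Finset.sum_congr rfl h2, ← Finset.sum_image (f := fun I : {I : Ideal (𝓞 M) // I ≠ ⊥} =>
    psi M s I.1) (hinj.injOn)]
  exact (summable_ideals M hs).sum_le_tsum _ fun I _ => psi_nonneg M s I.1

theorem euler_bounds : ∃ C : ℝ, ∀ s : ℝ, 1 < s → s ≤ 2 →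
    |Real.log (∑' I : {I : Ideal (𝓞 M) // I ≠ ⊥}, (Ideal.absNorm I.1 : ℝ) ^ (-s)) -
      ∑' w : Pr M, (Ideal.absNorm w.asIdeal : ℝ) ^ (-s)| ≤ C := by
  have hK := summable_primes M (s := 2) (by norm_num)
  refine ⟨∑' w : Pr M, psi M 2 w.asIdeal, fun s hs _ => ?_⟩
  change |Real.log (∑' I : {I : Ideal (𝓞 M) // I ≠ ⊥}, psi M s I.1) -
    ∑' w : Pr M, psi M s w.asIdeal| ≤ _
  set K := ∑' w : Pr M, psi M 2 w.asIdeal
  have hP : Summable fun w : Pr M => psi M s w.asIdeal := summable_primes M hs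
  have hI : Summable fun I : {I : Ideal (𝓞 M) // I ≠ ⊥} => psi M s I.1 := summable_ideals M hs
  have hsq : ∀ F : Finset (Pr M), ∑ w ∈ F, (psi M s w.asIdeal) ^ 2 ≤ K := fun F =>
    (Finset.sum_le_sum fun w _ => psi_sq M hs w).trans
      (hK.sum_le_tsum _ fun w _ => psi_nonneg M 2 w.asIdeal)
  have hlow : ∀ F : Finset (Pr M), Real.exp (∑ w ∈ F, psi M s w.asIdeal - K) ≤
      ∑' I : {I : Ideal (𝓞 M) // I ≠ ⊥}, psi M s I.1 := by
    intro F
    refine le_trans ?_ (lower M hs F)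
    calc Real.exp (∑ w ∈ F, psi M s w.asIdeal - K)
        ≤ Real.exp (∑ w ∈ F, (psi M s w.asIdeal - (psi M s w.asIdeal) ^ 2)) := by
          rw [Real.exp_le_exp, Finset.sum_sub_distrib]
          linarith [hsq F]
      _ = ∏ w ∈ F, Real.exp (psi M s w.asIdeal - (psi M s w.asIdeal) ^ 2) := Real.exp_sum _ _
      _ ≤ _ := Finset.prod_le_prod (fun w _ => (Real.exp_pos _).le)
          fun w _ => exp_le_one_add (psi_nonneg M s _)
  have hpos : 0 < ∑' I : {I : Ideal (𝓞 M) // I ≠ ⊥}, psi M s I.1 :=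
    (Real.exp_pos _).trans_le (hlow ∅)
  have h1 : ∑' w : Pr M, psi M s w.asIdeal ≤
      Real.log (∑' I : {I : Ideal (𝓞 M) // I ≠ ⊥}, psi M s I.1) + K := by
    refine hP.tsum_le_of_sum_le fun F => ?_
    have h2 := (Real.le_log_iff_exp_le hpos).2 (hlow F)
    linarith
  have h3 : ∑' I : {I : Ideal (𝓞 M) // I ≠ ⊥}, psi M s I.1 ≤
      Real.exp (∑' w : Pr M, psi M s w.asIdeal + K) := by
    refine hI.tsum_le_of_sum_le fun T => ?_
    obtain ⟨F, hF⟩ := upper M hs T
    refine hF.trans ?_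
    calc ∏ w ∈ F, (1 - psi M s w.asIdeal)⁻¹
        ≤ ∏ w ∈ F, Real.exp (psi M s w.asIdeal + (psi M s w.asIdeal) ^ 2) := by
          refine Finset.prod_le_prod (fun w _ => ?_) fun w _ =>
            inv_le_exp (psi_nonneg M s _) (psi_le M hs w)
          have := psi_le M hs w
          rw [inv_nonneg]
          linarith
      _ = Real.exp (∑ w ∈ F, (psi M s w.asIdeal + (psi M s w.asIdeal) ^ 2)) :=
          (Real.exp_sum _ _).symm
      _ ≤ _ := by
          rw [Real.exp_le_exp, Finset.sum_add_distrib]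
          have h4 := hP.sum_le_tsum F fun w _ => psi_nonneg M s w.asIdeal
          linarith [hsq F]
  have h5 := (Real.log_le_iff_le_exp hpos).2 h3
  rw [abs_le]
  constructor <;> linarith

end Pool.Agent.RG.H
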