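import Mathlib
import Pool.Agent.Lib.RG.HDefs
import Pool.Agent.Lib.RG.Zeta1

/-!
Row Zeta3: the pole. Mathlib `NumberField.tendsto_sub_one_mul_dedekindZeta_nhdsGT`; group the
ideals by their norm. (On `(1, 2]` the function `(s-1) Z(s)` is bounded above and below: near `1` by
the limit, elsewhere `1 ≤ Z(s) ≤ Z(s₀)`.)
-/

set_option autoImplicit false
set_option linter.unusedSectionVars false

namespace Pool.Agent.RG.H

open NumberField IsDedekindDomain WithZero Filter Topology

variable (M : Type) [Field M] [NumberField M]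

/-- the zeta sum -/
private noncomputable def ZZ (s : ℝ) : ℝ :=
  ∑' I : {I : Ideal (𝓞 M) // I ≠ ⊥}, (Ideal.absNorm I.1 : ℝ) ^ (-s)

private theorem norm_pos (I : {I : Ideal (𝓞 M) // I ≠ ⊥}) : 1 ≤ (Ideal.absNorm I.1 : ℝ) := by
  have h : Ideal.absNorm I.1 ≠ 0 := fun h => I.2 (Ideal.absNorm_eq_zero_iff.1 h)
  exact_mod_cast Nat.pos_of_ne_zero h

private theorem dedekind_eq {s : ℝ} (hs : 1 < s) : dedekindZeta M (s : ℂ) = (ZZ M s : ℂ) := by
  unfold ZZ dedekindZeta LSeries
  rw [(Zeta1Aux.hasSum_ideals M hs).tsum_eq, Complex.ofReal_tsum]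
  refine tsum_congr fun n => ?_
  rcases eq_or_ne n 0 with rfl | hn
  · rw [LSeries.term_zero, Zeta1Aux.card_norm_zero]
    simp
  · rw [LSeries.term_of_ne_zero hn, Zeta1Aux.card_norm M n hn, Complex.ofReal_mul,
      Real.rpow_neg (Nat.cast_nonneg n), Complex.ofReal_inv,
      Complex.ofReal_cpow (Nat.cast_nonneg n), div_eq_mul_inv]
    simp

private theorem ZZ_one_le {s : ℝ} (hs : 1 < s) : 1 ≤ ZZ M s := by
  have h1 := (summable_ideals M hs).le_tsum (⟨⊤, top_ne_bot⟩ : {I : Ideal (𝓞 M) // I ≠ ⊥})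
    (fun I _ => Real.rpow_nonneg (Nat.cast_nonneg _) _)
  refine le_trans (le_of_eq ?_) h1
  simp

private theorem ZZ_anti {s t : ℝ} (hs : 1 < s) (hst : s ≤ t) : ZZ M t ≤ ZZ M s := by
  refine (summable_ideals M (hs.trans_le hst)).tsum_le_tsum (fun I => ?_) (summable_ideals M hs)
  exact Real.rpow_le_rpow_of_exponent_le (norm_pos M I) (by linarith)

private theorem limit_ZZ : Tendsto (fun s : ℝ ↦ (s - 1) * ZZ M s) (𝓝[>] 1)
    (𝓝 (dedekindZeta_residue M)) := by
  have h := tendsto_sub_one_mul_dedekindZeta_nhdsGT M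
  have h2 := (Complex.continuous_re.tendsto _).comp h
  simp only [Complex.ofReal_re] at h2
  refine h2.congr' ?_
  filter_upwards [self_mem_nhdsWithin] with s hs
  have hs' : 1 < s := hs
  simp only [Function.comp_apply]
  rw [dedekind_eq M hs', ← Complex.ofReal_one, ← Complex.ofReal_sub, ← Complex.ofReal_mul,
    Complex.ofReal_re]

theorem zeta_pole : ∃ C : ℝ, ∀ s : ℝ, 1 < s → s ≤ 2 →
    |Real.log (∑' I : {I : Ideal (𝓞 M) // I ≠ ⊥}, (Ideal.absNorm I.1 : ℝ) ^ (-s)) -
      Real.log (1 / (s - 1))| ≤ C := by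
  have hr := dedekindZeta_residue_pos M
  set r := dedekindZeta_residue M
  have h1 : ∀ᶠ s in 𝓝[>] (1 : ℝ), (s - 1) * ZZ M s ∈ Set.Ioo (r / 2) (2 * r) :=
    (limit_ZZ M) (Ioo_mem_nhds (by linarith) (by linarith))
  rw [eventually_nhdsWithin_iff, Metric.eventually_nhds_iff] at h1
  obtain ⟨δ, hδ, h2⟩ := h1
  set a : ℝ := min (r / 2) (δ / 2)
  set b : ℝ := max (2 * r) (ZZ M (1 + δ / 2))
  have ha : 0 < a := lt_min (by linarith) (by linarith)
  have key : ∀ s : ℝ, 1 < s → s ≤ 2 → a ≤ (s - 1) * ZZ M s ∧ (s - 1) * ZZ M s ≤ b := by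
    intro s hs hs2
    by_cases hd : s < 1 + δ
    · have h3 := @h2 s (by rw [Real.dist_eq, abs_of_pos (by linarith)]; linarith) hs
      exact ⟨(min_le_left _ _).trans h3.1.le, h3.2.le.trans (le_max_left _ _)⟩
    · push Not at hd
      have h3 := ZZ_one_le M hs
      have h4 : ZZ M s ≤ ZZ M (1 + δ / 2) := ZZ_anti M (by linarith) (by linarith)
      constructor
      · refine (min_le_right _ _).trans ?_
        nlinarith
      · refine le_trans ?_ (le_max_right _ _)
        nlinarith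
  refine ⟨max |Real.log a| |Real.log b|, fun s hs hs2 => ?_⟩
  obtain ⟨h5, h6⟩ := key s hs hs2
  have h7 : Real.log (ZZ M s) - Real.log (1 / (s - 1)) = Real.log ((s - 1) * ZZ M s) := by
    have h8 := ZZ_one_le M hs
    rw [one_div, Real.log_inv, Real.log_mul (by linarith) (by linarith)]
    ring
  change |Real.log (ZZ M s) - Real.log (1 / (s - 1))| ≤ _
  rw [h7, abs_le]
  have h9 : Real.log a ≤ Real.log ((s - 1) * ZZ M s) := Real.log_le_log ha h5
  have h10 : Real.log ((s - 1) * ZZ M s) ≤ Real.log b := Real.log_le_log (ha.trans_le h5) h6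
  constructor
  · have := neg_abs_le (Real.log a)
    have := le_max_left |Real.log a| |Real.log b|
    linarith
  · have := le_abs_self (Real.log b)
    have := le_max_right |Real.log a| |Real.log b|
    linarith

end Pool.Agent.RG.H
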