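import Mathlib
import Pool.Agent.Lib.RG.HDefs
import Pool.Agent.Lib.RG.Zeta1
import Pool.Agent.Lib.RG.Zeta2
import Pool.Agent.Lib.RG.Zeta3

/-!
Row Zeta: the sum over the primes of degree one (from Zeta1, Zeta2, Zeta3).
-/

set_option autoImplicit false
set_option linter.unusedSectionVars false

namespace Pool.Agent.RG.H

open NumberField IsDedekindDomain WithZero

theorem prime_sum (M : Type) [Field M] [NumberField M] :
    ∃ C : ℝ, ∀ s : ℝ, 1 < s → s ≤ 2 →
      Summable (fun w : {w : HeightOneSpectrum (𝓞 M) // (Ideal.absNorm w.asIdeal).Prime} =>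
        (Ideal.absNorm w.1.asIdeal : ℝ) ^ (-s)) ∧
      |(∑' w : {w : HeightOneSpectrum (𝓞 M) // (Ideal.absNorm w.asIdeal).Prime},
        (Ideal.absNorm w.1.asIdeal : ℝ) ^ (-s)) - Real.log (1 / (s - 1))| ≤ C := by
  classical
  obtain ⟨C1, h1⟩ := high_degree M
  obtain ⟨C2, h2⟩ := euler_bounds M
  obtain ⟨C3, h3⟩ := zeta_pole M
  refine ⟨C1 + C2 + C3, fun s hs hs2 => ?_⟩
  have hsum := summable_primes M hs
  have hsub := hsum.subtype {w : Pr M | (Ideal.absNorm w.asIdeal).Prime}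
  refine ⟨hsub, ?_⟩
  have e1 : (∑' w : {w : HeightOneSpectrum (𝓞 M) // (Ideal.absNorm w.asIdeal).Prime},
        (Ideal.absNorm w.1.asIdeal : ℝ) ^ (-s)) =
      ∑' w : Pr M, (if (Ideal.absNorm w.asIdeal).Prime then
        (Ideal.absNorm w.asIdeal : ℝ) ^ (-s) else 0) := by
    have h := tsum_subtype {w : Pr M | (Ideal.absNorm w.asIdeal).Prime}
      (fun w : Pr M => (Ideal.absNorm w.asIdeal : ℝ) ^ (-s))
    refine Eq.trans h (tsum_congr fun w => ?_)
    simp only [Set.indicator, Set.mem_ofPred_eq]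
  have hA : Summable fun w : Pr M => (if (Ideal.absNorm w.asIdeal).Prime then
        (Ideal.absNorm w.asIdeal : ℝ) ^ (-s) else 0) := by
    refine hsum.of_nonneg_of_le (fun w => ?_) (fun w => ?_)
    · split_ifs
      · exact Real.rpow_nonneg (Nat.cast_nonneg _) _
      · exact le_refl _
    · split_ifs
      · exact le_refl _
      · exact Real.rpow_nonneg (Nat.cast_nonneg _) _
  have hB : Summable fun w : Pr M => (if (Ideal.absNorm w.asIdeal).Prime then 0 else
        (Ideal.absNorm w.asIdeal : ℝ) ^ (-s)) := by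
    refine hsum.of_nonneg_of_le (fun w => ?_) (fun w => ?_)
    · split_ifs
      · exact le_refl _
      · exact Real.rpow_nonneg (Nat.cast_nonneg _) _
    · split_ifs
      · exact Real.rpow_nonneg (Nat.cast_nonneg _) _
      · exact le_refl _
  have e2 : (∑' w : Pr M, (Ideal.absNorm w.asIdeal : ℝ) ^ (-s)) =
      (∑' w : Pr M, (if (Ideal.absNorm w.asIdeal).Prime then
        (Ideal.absNorm w.asIdeal : ℝ) ^ (-s) else 0)) +
      ∑' w : Pr M, (if (Ideal.absNorm w.asIdeal).Prime then 0 else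
        (Ideal.absNorm w.asIdeal : ℝ) ^ (-s)) := by
    rw [← hA.tsum_add hB]
    refine tsum_congr fun w => ?_
    split_ifs <;> simp
  have h4 := h1 s hs
  have h5 : 0 ≤ ∑' w : Pr M, (if (Ideal.absNorm w.asIdeal).Prime then 0 else
        (Ideal.absNorm w.asIdeal : ℝ) ^ (-s)) := by
    refine tsum_nonneg fun w => ?_
    split_ifs
    · exact le_refl _
    · exact Real.rpow_nonneg (Nat.cast_nonneg _) _
  have h6 := abs_le.1 (h2 s hs hs2)
  have h7 := abs_le.1 (h3 s hs hs2)
  rw [e1, abs_le]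
  constructor
  · linarith [h6.1, h6.2, h7.1, h7.2]
  · linarith [h6.1, h6.2, h7.1, h7.2]

end Pool.Agent.RG.H

namespace Pool.Agent.RG

open NumberField IsDedekindDomain

/-- The export of `H.prime_sum`. -/
theorem prime_sum (M : Type) [Field M] [NumberField M] :
    ∃ C : ℝ, ∀ s : ℝ, 1 < s → s ≤ 2 →
      Summable (fun w : {w : HeightOneSpectrum (𝓞 M) // (Ideal.absNorm w.asIdeal).Prime} =>
        (Ideal.absNorm w.1.asIdeal : ℝ) ^ (-s)) ∧
      |(∑' w : {w : HeightOneSpectrum (𝓞 M) // (Ideal.absNorm w.asIdeal).Prime},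
        (Ideal.absNorm w.1.asIdeal : ℝ) ^ (-s)) - Real.log (1 / (s - 1))| ≤ C :=
  H.prime_sum M

end Pool.Agent.RG
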