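import Mathlib
import Pool.Agent.Lib.RG.HDefs
import Pool.Agent.Lib.RG.H01
import Pool.Agent.Lib.RG.H04
import Pool.Agent.Lib.RG.H05
import Pool.Agent.Lib.RG.H07
import Pool.Agent.Lib.RG.H19
import Pool.Agent.Lib.RG.H20
import Pool.Agent.Lib.RG.Zeta

/-!
Row H21: `b` not a `p`-th power in `M`: infinitely many primes `w` of degree one at which `b` is not a
`p`-th power. Otherwise, with `M' = M(b^(1/p))` (`exists_kummer`) almost every `w` with prime norm
(not above `p`, `b` a unit at `w`) has `b ∈ NP p w`, so it splits (`split_of_NP`): `p` primes of `M'`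
above it (`split_card`), with the same norm (`split_norm`). So the sum of `prime_sum M'` is at
least `p` times the sum of `prime_sum M` minus a constant: contradiction for `s → 1`.
-/

set_option autoImplicit false
set_option linter.unusedSectionVars false

namespace Pool.Agent.RG.H

open NumberField IsDedekindDomain WithZero

variable {M : Type} [Field M] [NumberField M] {p : ℕ}

/-- The counting: if almost all primes of `M` of prime norm split completely in `L`, the sum over
the primes of prime norm of `L` is at least `p` times that of `M`, up to a constant. -/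
private theorem sum_split (L : Type) [Field L] [NumberField L] [Algebra M L] [IsGalois M L]
    (hp : p.Prime) (hL : Module.finrank M L = p) (F : Finset (Pr M))
    (hsplit : ∀ v : Pr M, v ∉ F → (Ideal.absNorm v.asIdeal).Prime → ¬ NS L v)
    {s : ℝ} (hs : 1 < s)
    (hsumL : Summable (fun w : {w : HeightOneSpectrum (𝓞 L) // (Ideal.absNorm w.asIdeal).Prime} =>
        (Ideal.absNorm w.1.asIdeal : ℝ) ^ (-s)))
    (hsumM : Summable (fun w : {w : HeightOneSpectrum (𝓞 M) // (Ideal.absNorm w.asIdeal).Prime} =>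
        (Ideal.absNorm w.1.asIdeal : ℝ) ^ (-s))) :
    (p : ℝ) * (∑' w : {w : HeightOneSpectrum (𝓞 M) // (Ideal.absNorm w.asIdeal).Prime},
        (Ideal.absNorm w.1.asIdeal : ℝ) ^ (-s))
      ≤ (∑' w : {w : HeightOneSpectrum (𝓞 L) // (Ideal.absNorm w.asIdeal).Prime},
        (Ideal.absNorm w.1.asIdeal : ℝ) ^ (-s)) + p * F.card := by
  classical
  set f : {w : HeightOneSpectrum (𝓞 M) // (Ideal.absNorm w.asIdeal).Prime} → ℝ :=
    fun w => (Ideal.absNorm w.1.asIdeal : ℝ) ^ (-s) with hf
  set g : {w : HeightOneSpectrum (𝓞 L) // (Ideal.absNorm w.asIdeal).Prime} → ℝ :=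
    fun w => (Ideal.absNorm w.1.asIdeal : ℝ) ^ (-s) with hg
  have hg0 : ∀ w, 0 ≤ g w := fun w => Real.rpow_nonneg (Nat.cast_nonneg _) _
  have hf1 : ∀ w, f w ≤ 1 := by
    intro w
    apply Real.rpow_le_one_of_one_le_of_nonpos
    · exact_mod_cast w.2.one_lt.le
    · linarith
  rw [← tsum_mul_left]
  apply (hsumM.mul_left (p : ℝ)).tsum_le_of_sum_le
  intro T
  -- the good part of `T`
  set T' := T.filter (fun v => v.1 ∉ F) with hT'
  have hnorm : ∀ v ∈ T', ∀ w : {w : Pr L // (below w : Pr M) = v.1},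
      Ideal.absNorm w.1.asIdeal = Ideal.absNorm v.1.asIdeal := by
    intro v hv w
    have hv2 := (Finset.mem_filter.1 hv).2
    have h1 : ¬ NS L (below w.1 : Pr M) := by
      rw [w.2]
      exact hsplit v.1 hv2 v.2
    rw [split_norm hp hL w.1 h1, w.2]
  have hfin : ∀ v ∈ T', Finite {w : Pr L // (below w : Pr M) = v.1} := by
    intro v hv
    have hv2 := (Finset.mem_filter.1 hv).2
    apply Nat.finite_of_card_ne_zero
    rw [split_card hp hL (hsplit v.1 hv2 v.2)]
    exact hp.ne_zero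
  -- the primes above
  have hfib : ∀ v ∈ T', ∃ W : Finset {w : HeightOneSpectrum (𝓞 L) // (Ideal.absNorm w.asIdeal).Prime},
      (∀ w ∈ W, (below w.1 : Pr M) = v.1) ∧ ∑ w ∈ W, g w = p * f v := by
    intro v hv
    have := hfin v hv
    have hv2 := (Finset.mem_filter.1 hv).2
    let _ : Fintype {w : Pr L // (below w : Pr M) = v.1} := Fintype.ofFinite _
    let e : {w : Pr L // (below w : Pr M) = v.1} ↪
        {w : HeightOneSpectrum (𝓞 L) // (Ideal.absNorm w.asIdeal).Prime} :=
      ⟨fun w => ⟨w.1, by rw [hnorm v hv w]; exact v.2⟩, by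
        intro a b hab
        apply Subtype.ext
        exact congrArg (fun z => z.1) hab⟩
    refine ⟨Finset.univ.map e, ?_, ?_⟩
    · intro w hw
      obtain ⟨a, _, rfl⟩ := Finset.mem_map.1 hw
      exact a.2
    · rw [Finset.sum_map]
      have h1 : ∀ a : {w : Pr L // (below w : Pr M) = v.1}, g (e a) = f v := by
        intro a
        change (Ideal.absNorm a.1.asIdeal : ℝ) ^ (-s) = (Ideal.absNorm v.1.asIdeal : ℝ) ^ (-s)
        rw [hnorm v hv a]
      rw [Finset.sum_congr rfl (fun a _ => h1 a), Finset.sum_const, nsmul_eq_mul,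
        Finset.card_univ, ← Nat.card_eq_fintype_card, split_card hp hL (hsplit v.1 hv2 v.2)]
  choose! W hW1 hW2 using hfib
  have hdisj : Set.PairwiseDisjoint (T' : Set _) W := by
    intro v hv v' hv' hne
    rw [Function.onFun, Finset.disjoint_left]
    intro w hw hw'
    apply hne
    apply Subtype.ext
    rw [← hW1 v hv w hw, hW1 v' hv' w hw']
  have h1 : ∑ v ∈ T', (p : ℝ) * f v ≤ ∑' w, g w := by
    rw [← Finset.sum_congr rfl hW2, ← Finset.sum_biUnion hdisj]
    exact hsumL.sum_le_tsum _ (fun w _ => hg0 w)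
  have h2 : ∑ v ∈ T.filter (fun v => ¬ v.1 ∉ F), (p : ℝ) * f v ≤ p * F.card := by
    calc ∑ v ∈ T.filter (fun v => ¬ v.1 ∉ F), (p : ℝ) * f v
        ≤ ∑ v ∈ T.filter (fun v => ¬ v.1 ∉ F), (p : ℝ) := by
          apply Finset.sum_le_sum
          intro v _
          have : (0 : ℝ) ≤ p := Nat.cast_nonneg _
          nlinarith [hf1 v]
      _ = p * (T.filter (fun v => ¬ v.1 ∉ F)).card := by
          rw [Finset.sum_const, nsmul_eq_mul, mul_comm]
      _ ≤ p * F.card := by
          have h3 : (T.filter (fun v => ¬ v.1 ∉ F)).card ≤ F.card := by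
            apply Finset.card_le_card_of_injOn (fun v => v.1)
            · intro v hv
              have := (Finset.mem_filter.1 hv).2
              exact not_not.1 this
            · intro a _ b _ hab
              exact Subtype.ext hab
          have h4 : ((T.filter (fun v => ¬ v.1 ∉ F)).card : ℝ) ≤ F.card := by exact_mod_cast h3
          exact mul_le_mul_of_nonneg_left h4 (Nat.cast_nonneg _)
  rw [← Finset.sum_filter_add_sum_filter_not T (fun v => v.1 ∉ F)]
  exact add_le_add h1 h2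

theorem exists_nonpower (hp : p.Prime) (hp2 : p ≠ 2) {ζ : M} (hζ : IsPrimitiveRoot ζ p)
    {b : Mˣ} (hb : b ∉ PP M p) (F : Finset (Pr M)) :
    ∃ w : Pr M, w ∉ F ∧ (Ideal.absNorm w.asIdeal).Prime ∧ vl w b = 0 ∧
      b ∉ PP M p ⊔ UU w 1 := by
  classical
  by_contra hcon
  push Not at hcon
  obtain ⟨L, iF, iN, iA, hG, hL, β, hβ⟩ := exists_kummer hp hζ b hb
  obtain ⟨S1, hS1⟩ := fin_vl b
  obtain ⟨S2, hS2⟩ := fin_above (K := M) p hp.ne_zero
  set F' := F ∪ S1 ∪ S2 with hF'
  have hsplit : ∀ v : Pr M, v ∉ F' → (Ideal.absNorm v.asIdeal).Prime → ¬ NS L v := by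
    intro v hv hvp hNS
    have h1 : v ∉ F := fun h => hv (by simp [hF', h])
    have h2 : v ∉ S1 := fun h => hv (by simp [hF', h])
    have h3 : v ∉ S2 := fun h => hv (by simp [hF', h])
    have h4 : ¬ Above v p := fun h => h3 (hS2 v h)
    have h5 : vl v b = 0 := mem_SU.1 hS1 v h2
    have h6 : b ∈ NP p v := by
      have h7 := hcon v h1 hvp h5
      unfold NP
      rw [(ev_eq_zero_iff hp.ne_zero v).2 h4]
      exact h7
    obtain ⟨w, hw, hdec⟩ := hNS
    have h8 : ∀ σ : L ≃ₐ[M] L, σ = 1 := fun σ =>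
      split_of_NP hp hp2 hζ hL hβ hb h6 hw σ (hdec σ)
    have h9 : Nat.card (L ≃ₐ[M] L) = 1 := by
      rw [Nat.card_eq_one_iff_unique]
      exact ⟨⟨fun a b => by rw [h8 a, h8 b]⟩, ⟨1⟩⟩
    rw [IsGalois.card_aut_eq_finrank, hL] at h9
    exact hp.one_lt.ne' h9
  obtain ⟨C1, hC1⟩ := prime_sum L
  obtain ⟨C2, hC2⟩ := prime_sum M
  set T : ℝ := |C1| + p * |C2| + p * F'.card + 1 with hT
  have hT0 : 0 < T := by positivity
  have hexp : Real.exp (-T) ≤ 1 := Real.exp_le_one_iff.2 (by linarith)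
  have hexp0 : 0 < Real.exp (-T) := Real.exp_pos _
  obtain ⟨hsL, hbL⟩ := hC1 (1 + Real.exp (-T)) (by linarith) (by linarith)
  obtain ⟨hsM, hbM⟩ := hC2 (1 + Real.exp (-T)) (by linarith) (by linarith)
  have hlog : Real.log (1 / (1 + Real.exp (-T) - 1)) = T := by
    rw [add_sub_cancel_left, one_div, Real.log_inv, Real.log_exp, neg_neg]
  rw [hlog] at hbL hbM
  have hmain := sum_split L hp hL F' hsplit (s := 1 + Real.exp (-T)) (by linarith) hsL hsM
  have h1 := (abs_le.1 hbL).2
  have h2 := (abs_le.1 hbM).1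
  have h3 : C1 ≤ |C1| := le_abs_self _
  have h4 : C2 ≤ |C2| := le_abs_self _
  have hp2' : (2 : ℝ) ≤ p := by exact_mod_cast hp.two_le
  set A := ∑' w : {w : HeightOneSpectrum (𝓞 M) // (Ideal.absNorm w.asIdeal).Prime},
        (Ideal.absNorm w.1.asIdeal : ℝ) ^ (-(1 + Real.exp (-T))) with hA
  set B := ∑' w : {w : HeightOneSpectrum (𝓞 L) // (Ideal.absNorm w.asIdeal).Prime},
        (Ideal.absNorm w.1.asIdeal : ℝ) ^ (-(1 + Real.exp (-T))) with hB
  have h5 : T - |C2| ≤ A := by linarith
  have h6 : B ≤ T + |C1| := by linarith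
  have h7 : (p : ℝ) * (T - |C2|) ≤ p * A := mul_le_mul_of_nonneg_left h5 (by linarith)
  have h8 : 2 * T ≤ p * T := mul_le_mul_of_nonneg_right hp2' hT0.le
  have h9 : (p : ℝ) * (T - |C2|) = p * T - p * |C2| := by ring
  linarith

end Pool.Agent.RG.H
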