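import Mathlib
import Pool.Agent.Lib.RG.HDefs
import Pool.Agent.Lib.RG.H01
import Pool.Agent.Lib.RG.H04
import Pool.Agent.Lib.RG.H05
import Pool.Agent.Lib.RG.H07
import Pool.Agent.Lib.RG.H10
import Pool.Agent.Lib.RG.HIdx
import Pool.Agent.Lib.RG.H18
import Pool.Agent.Lib.RG.H19
import Pool.Agent.Lib.RG.H20
import Pool.Agent.Lib.RG.H21

/-!
Row H22: the auxiliary primes `T`. By induction on `i ≤ |S| + r₂ - 1` there is `T` with `|T| = i`,
disjoint from `S`, all `v ∈ T` split in `L`, and `(⨅ v ∈ T, NP p v).relIndex (SU S) = p ^ i`. Step: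
`L = K(a^(1/p))`; `a` may be chosen in `SU S` (`dvd_of_unram`, `prK`). The subgroup of `SU S` of the
elements which are `p`-th powers in `L` is generated by `a` and the `p`-th powers: index
`p^(|S| + r₂ - 1)` in `SU S` (`index_PP`); it is contained in every `NP p v`, `v` split (`w` above `v`:
`a = α^p`, `α` is congruent to an element of `K` modulo `w` since the residue fields agree, or use
the argument in `L`). If `i < |S| + r₂ - 1` there is `b ∈ SU S` in all `NP p v`, `v ∈ T`, which is not a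
`p`-th power in `L`. `exists_nonpower` for `L` gives `w` of prime norm, not above `S ∪ T`; `v = below w`
splits (`deg_one_dec`), `b ∉ NP p v`. The new index is `p^(i+1)`, since `UU v 0` modulo `NP p v` has
order `p` (`relIndex_units`). At the end: `{x | ∀ v ∈ T, vl v x = 0}` modulo `⨅ NP` has order
`p^i`, so `SU S` is onto.
-/

set_option autoImplicit false
set_option linter.unusedSectionVars false

namespace Pool.Agent.RG.H

open NumberField IsDedekindDomain WithZero

variable {K L : Type} [Field K] [NumberField K] [Field L] [NumberField L] [Algebra K L]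

variable [IsGalois K L] {p : ℕ}

/-- the elements of `K` which are `p`-th powers in `L` -/
private def H22W (K L : Type) [Field K] [NumberField K] [Field L] [NumberField L] [Algebra K L]
    (p : ℕ) : Subgroup Kˣ := (PP L p).comap (emb K L)

private theorem H22_mem_W {x : Kˣ} : x ∈ H22W K L p ↔ ∃ β : L, β ^ p = algebraMap K L x := by
  unfold H22W
  rw [Subgroup.mem_comap, mem_PP]
  constructor
  · rintro ⟨y, hy⟩
    exact ⟨y, by rw [← emb_val, ← hy, Units.val_pow_eq_pow_val]⟩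
  · rintro ⟨β, hβ⟩
    by_cases hp : p = 0
    · subst hp
      refine ⟨1, ?_⟩
      ext
      rw [pow_zero, Units.val_one, emb_val, ← hβ, pow_zero]
    · have h0 : β ≠ 0 := by
        rintro rfl
        rw [zero_pow hp] at hβ
        have : (x : K) = 0 := by
          have h1 := hβ.symm
          rwa [map_eq_zero] at h1
        exact x.ne_zero this
      refine ⟨Units.mk0 β h0, ?_⟩
      ext
      rw [Units.val_pow_eq_pow_val, Units.val_mk0, hβ, emb_val]

private theorem H22_pow_mem (q : ℕ) {H : Subgroup Kˣ} (hH : PP K q ≤ H) (x : Kˣ) : x ^ q ∈ H :=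
  hH (mem_PP.2 ⟨x, rfl⟩)

private theorem H22_W_index (h : Hyp K L p) :
    (PP K p).relIndex (H22W K L p) ≠ 0 ∧ (PP K p).relIndex (H22W K L p) ≤ p := by
  obtain ⟨ζ, hζ⟩ := h.root
  obtain ⟨a, ha, ⟨α, hα⟩, hb⟩ := exists_rad h.prime hζ L h.rank
  have hp0 := h.prime.pos
  have haW : a ∈ H22W K L p := H22_mem_W.2 ⟨α, hα⟩
  let f : Fin p → (H22W K L p) ⧸ (PP K p).subgroupOf (H22W K L p) :=
    fun i => QuotientGroup.mk (⟨a, haW⟩ ^ (i : ℕ))
  have hf : Function.Surjective f := by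
    intro y
    obtain ⟨x, rfl⟩ := QuotientGroup.mk_surjective y
    obtain ⟨k, hk⟩ := hb x (H22_mem_W.1 x.2)
    refine ⟨⟨k % p, Nat.mod_lt _ hp0⟩, ?_⟩
    change QuotientGroup.mk (⟨a, haW⟩ ^ (k % p)) = QuotientGroup.mk x
    rw [QuotientGroup.eq, Subgroup.mem_subgroupOf]
    have e : (((⟨a, haW⟩ ^ (k % p))⁻¹ * x : H22W K L p) : Kˣ) =
        (x : Kˣ) / a ^ k * (a ^ (k / p)) ^ p := by
      rw [Subgroup.coe_mul, Subgroup.coe_inv, Subgroup.coe_pow]
      have e2 : a ^ k = (a ^ (k / p)) ^ p * a ^ (k % p) := by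
        rw [← pow_mul, ← pow_add, mul_comm (k / p) p, Nat.div_add_mod]
      rw [e2, div_eq_mul_inv, mul_inv]
      have e3 : (x : Kˣ) * (((a ^ (k / p)) ^ p)⁻¹ * (a ^ (k % p))⁻¹) * (a ^ (k / p)) ^ p =
          (x : Kˣ) * (a ^ (k % p))⁻¹ * (((a ^ (k / p)) ^ p)⁻¹ * (a ^ (k / p)) ^ p) := by
        simp only [mul_assoc, mul_left_comm, mul_comm]
      rw [e3, inv_mul_cancel, mul_one, mul_comm]
    rw [e]
    exact mul_mem hk (H22_pow_mem p le_rfl _)
  have hfin : Finite ((H22W K L p) ⧸ (PP K p).subgroupOf (H22W K L p)) := Finite.of_surjective f hf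
  constructor
  · change Nat.card _ ≠ 0
    exact Nat.card_pos.ne'
  · change Nat.card _ ≤ p
    calc Nat.card _ ≤ Nat.card (Fin p) := Nat.card_le_card_of_surjective f hf
      _ = p := Nat.card_fin p

private theorem H22_SU_le {S : Finset (Pr K)} {v : Pr K} (hv : v ∉ S) : SU S ≤ UU v 0 := by
  intro x hx
  have h0 := hx v hv
  refine ⟨h0, ?_⟩
  rw [Nat.cast_zero, neg_zero, exp_zero]
  refine (Valuation.map_sub _ _ _).trans ?_
  rw [vl_eq_zero.1 h0, map_one, max_self]

private theorem H22_vl_le {v : Pr K} {x : Kˣ} (h0 : vl v x = 0) : x ∈ UU v 0 := by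
  refine ⟨h0, ?_⟩
  rw [Nat.cast_zero, neg_zero, exp_zero]
  refine (Valuation.map_sub _ _ _).trans ?_
  rw [vl_eq_zero.1 h0, map_one, max_self]

private theorem H22_relIndex_le {B : Type} [CommGroup B] (H J U : Subgroup B) (hJ : J ≤ U)
    (h0 : H.relIndex U ≠ 0) : H.relIndex J ≤ H.relIndex U :=
  Subgroup.relIndex_le_of_le_right hJ h0

private theorem H22_choose (h : Hyp K L p) {S T : Finset (Pr K)} (hS : Good K L p S)
    (hd : Disjoint S T) (hc : T.card + 1 < S.card + InfinitePlace.nrComplexPlaces K) :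
    ∃ b ∈ SU S, (∀ v ∈ T, b ∈ NP p v) ∧ emb K L b ∉ PP L p := by
  classical
  by_contra hcon
  push Not at hcon
  obtain ⟨ζ, hζ⟩ := h.root
  have hpp : ∀ v ∈ T, (NP p v).relIndex (SU S) ≤ p := by
    intro v hv
    have hvS : v ∉ S := Finset.disjoint_right.1 hd hv
    have h1 := relIndex_units h.prime hζ (v := v) (fun h2 => hvS (hS.above v h2))
    refine le_of_le_of_eq (H22_relIndex_le _ _ _ (H22_SU_le hvS) ?_) h1
    rw [h1]
    exact h.prime.ne_zero
  have hpp0 : ∀ v ∈ T, (NP p v).relIndex (SU S) ≠ 0 := by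
    intro v hv
    have hvS : v ∉ S := Finset.disjoint_right.1 hd hv
    have h1 := relIndex_units h.prime hζ (v := v) (fun h2 => hvS (hS.above v h2))
    exact mt (fun h3 => Subgroup.relIndex_eq_zero_of_le_right (H22_SU_le hvS) h3)
      (by rw [h1]; exact h.prime.ne_zero)
  have hI : ∀ T' : Finset (Pr K), T' ⊆ T → (⨅ v ∈ T', NP p v).relIndex (SU S) ≤ p ^ T'.card ∧
      (⨅ v ∈ T', NP p v).relIndex (SU S) ≠ 0 := by
    intro T'
    induction T' using Finset.induction_on with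
    | empty =>
      intro _
      simp
    | insert v T' hv ih =>
      intro hT
      obtain ⟨h1, h2⟩ := ih (fun x hx => hT (Finset.mem_insert_of_mem hx))
      have hvT := hT (Finset.mem_insert_self v T')
      rw [Finset.iInf_insert, Finset.card_insert_of_notMem hv]
      constructor
      · refine (Subgroup.relIndex_inf_le).trans ?_
        rw [pow_succ, mul_comm]
        exact Nat.mul_le_mul h1 (hpp v hvT)
      · exact Subgroup.relIndex_inf_ne_zero (hpp0 v hvT) h2
  obtain ⟨hI1, hI0⟩ := hI T le_rfl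
  set I : Subgroup Kˣ := ⨅ v ∈ T, NP p v with hIdef
  have hPI : PP K p ≤ I := by
    rw [hIdef]
    refine le_iInf₂ fun v _ => ?_
    exact le_sup_left
  have hn := index_PP h.prime h.odd hζ S
  have hW : I ⊓ SU S ≤ H22W K L p := by
    rintro x ⟨hx1, hx2⟩
    have h3 : ∀ v ∈ T, x ∈ NP p v := by
      intro v hv
      have h4 : I ≤ NP p v := iInf₂_le v hv
      exact h4 hx1
    exact hcon x hx2 h3
  obtain ⟨hW0, hW1⟩ := H22_W_index h
  have e1 : (PP K p).relIndex (I ⊓ SU S) * I.relIndex (SU S) = (PP K p).relIndex (SU S) := by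
    have h5 := Subgroup.relIndex_mul_relIndex (PP K p ⊓ SU S) (I ⊓ SU S) (SU S)
      (inf_le_inf_right _ hPI) inf_le_right
    rw [Subgroup.inf_relIndex_right, Subgroup.inf_relIndex_right] at h5
    rw [← h5]
    congr 1
    rw [← Subgroup.inf_relIndex_right (PP K p) (I ⊓ SU S), ← Subgroup.inf_relIndex_right (PP K p ⊓ SU S) (I ⊓ SU S)]
    congr 1
    ext x
    simp only [Subgroup.mem_inf]
    tauto
  have e2 : (PP K p).relIndex (I ⊓ SU S) ≤ p :=
    (H22_relIndex_le _ _ _ hW hW0).trans hW1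
  have e3 : p ^ (S.card + InfinitePlace.nrComplexPlaces K) ≤ p ^ (T.card + 1) := by
    rw [← hn, ← e1, pow_succ, mul_comm (p ^ T.card)]
    exact Nat.mul_le_mul e2 hI1
  have e4 := (Nat.pow_le_pow_iff_right h.prime.one_lt).1 e3
  omega

private theorem H22_gen {B : Type} [CommGroup B] {q : ℕ} (hq : q.Prime) {N U : Subgroup B}
    (hN : N.relIndex U = q) {b : B} (hb : b ∈ U) (hb' : b ∉ N) {x : B} (hx : x ∈ U) :
    ∃ k : ℕ, x / b ^ k ∈ N := by
  have := Fact.mk hq
  have h1 : (QuotientGroup.mk (⟨b, hb⟩ : U) : U ⧸ N.subgroupOf U) ≠ 1 := by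
    intro h2
    rw [QuotientGroup.eq_one_iff, Subgroup.mem_subgroupOf] at h2
    exact hb' h2
  have h3 := mem_powers_of_prime_card (G := U ⧸ N.subgroupOf U) (p := q) hN
    (g := QuotientGroup.mk (⟨b, hb⟩ : U)) (g' := QuotientGroup.mk (⟨x, hx⟩ : U)) h1
  obtain ⟨k, hk⟩ := h3
  refine ⟨k, ?_⟩
  have h4 : (QuotientGroup.mk ((⟨b, hb⟩ : U) ^ k) : U ⧸ N.subgroupOf U) =
      QuotientGroup.mk (⟨x, hx⟩ : U) := hk
  rw [QuotientGroup.eq, Subgroup.mem_subgroupOf] at h4
  rw [div_eq_mul_inv, mul_comm]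
  exact h4

private theorem H22_step (h : Hyp K L p) {S T : Finset (Pr K)} (hS : Good K L p S)
    (hd : Disjoint S T) (hc : T.card + 1 < S.card + InfinitePlace.nrComplexPlaces K) :
    ∃ v : Pr K, v ∉ S ∧ v ∉ T ∧ ¬ NS L v ∧ ∃ b ∈ SU S, (∀ v' ∈ T, b ∈ NP p v') ∧
      b ∉ NP p v := by
  classical
  obtain ⟨b, hb, hbT, hbL⟩ := H22_choose h hS hd hc
  obtain ⟨ζ, hζ⟩ := h.root
  obtain ⟨F, hF⟩ := fin_up (L := L) (S ∪ T)
  have hζL : IsPrimitiveRoot (algebraMap K L ζ) p :=
    hζ.map_of_injective (algebraMap K L).injective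
  obtain ⟨w, hwF, hwp, hw0, hwb⟩ := exists_nonpower h.prime h.odd hζL hbL F
  have hvST : (below w : Pr K) ∉ S ∪ T := fun h1 => hwF ((hF w).2 h1)
  have hvS : (below w : Pr K) ∉ S := fun h1 => hvST (Finset.mem_union_left _ h1)
  have hvT : (below w : Pr K) ∉ T := fun h1 => hvST (Finset.mem_union_right _ h1)
  refine ⟨below w, hvS, hvT, ?_, b, hb, hbT, ?_⟩
  · intro hNS
    have h1 : ∀ σ : L ≃ₐ[K] L, σ = 1 := fun σ =>
      deg_one_dec w hwp (hS.ram w hvS) σ (ns_dec hNS rfl σ)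
    have h2 : Nat.card (L ≃ₐ[K] L) = 1 := by
      rw [Nat.card_eq_one_iff_unique]
      exact ⟨⟨fun a b => by rw [h1 a, h1 b]⟩, ⟨1⟩⟩
    rw [IsGalois.card_aut_eq_finrank, h.rank] at h2
    exact h.prime.one_lt.ne' h2
  · intro h1
    apply hwb
    have hnp : ¬ Above (below w : Pr K) p := fun h2 => hvS (hS.above _ h2)
    have hev : ev p (below w : Pr K) = 0 := (ev_eq_zero_iff h.prime.ne_zero _).2 hnp
    unfold NP at h1
    rw [hev, Subgroup.mem_sup] at h1
    obtain ⟨y, hy, u, hu, hyu⟩ := h1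
    rw [← hyu, map_mul]
    refine Subgroup.mul_mem_sup ?_ ?_
    · obtain ⟨z, hz⟩ := mem_PP.1 hy
      exact mem_PP.2 ⟨emb K L z, by rw [← map_pow, hz]⟩
    · obtain ⟨e, he, hev⟩ := exists_e (K := K) w
      obtain ⟨e', he', hev'⟩ := exists_e_val (K := K) w
      refine ⟨by rw [hev, hu.1, mul_zero], ?_⟩
      rw [emb_val]
      have e5 : algebraMap K L (u : K) - 1 = algebraMap K L ((u : K) - 1) := by
        rw [map_sub, map_one]
      rw [e5, hev']
      have h6 := hu.2
      have h7 : (below w : Pr K).valuation K ((u : K) - 1) ^ e' ≤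
          (exp (-((2 * 0 + 1 : ℕ) : ℤ)) : ℤᵐ⁰) ^ e' := pow_le_pow_left' h6 e'
      refine h7.trans ?_
      rw [← exp_nsmul, exp_le_exp]
      simp only [nsmul_eq_mul]
      push_cast
      have : (1 : ℤ) ≤ e' := by exact_mod_cast he'
      linarith

private theorem H22_main (h : Hyp K L p) {S : Finset (Pr K)} (hS : Good K L p S) (i : ℕ)
    (hi : i + 1 ≤ S.card + InfinitePlace.nrComplexPlaces K) :
    ∃ T : Finset (Pr K), Disjoint S T ∧ T.card = i ∧ (∀ v ∈ T, ¬ NS L v) ∧
      ∀ x : Kˣ, (∀ v ∈ T, vl v x = 0) → ∃ u ∈ SU S, ∀ v ∈ T, x / u ∈ NP p v := by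
  classical
  induction i with
  | zero =>
    exact ⟨∅, Finset.disjoint_empty_right _, rfl, by simp, fun x _ => ⟨1, one_mem _, by simp⟩⟩
  | succ i ih =>
    obtain ⟨T, hd, hc, hns, hsur⟩ := ih (by omega)
    obtain ⟨v, hvS, hvT, hvn, b, hb, hbT, hbv⟩ := H22_step h hS hd (by omega)
    refine ⟨insert v T, ?_, ?_, ?_, ?_⟩
    · rw [Finset.disjoint_insert_right]
      exact ⟨hvS, hd⟩
    · rw [Finset.card_insert_of_notMem hvT, hc]
    · intro v' hv'
      rcases Finset.mem_insert.1 hv' with rfl | h1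
      · exact hvn
      · exact hns v' h1
    · intro x hx
      obtain ⟨u, hu, hu'⟩ := hsur x (fun v' hv' => hx v' (Finset.mem_insert_of_mem hv'))
      obtain ⟨ζ, hζ⟩ := h.root
      have h1 := relIndex_units h.prime hζ (v := v) (fun h2 => hvS (hS.above v h2))
      have hxu : x / u ∈ UU v 0 := by
        refine H22_vl_le ?_
        rw [vl_div, hx v (Finset.mem_insert_self v T), hu v hvS, sub_zero]
      obtain ⟨k, hk⟩ := H22_gen h.prime h1 (H22_SU_le hvS hb) hbv hxu
      refine ⟨u * b ^ k, mul_mem hu (pow_mem hb k), ?_⟩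
      intro v' hv'
      rw [← div_div]
      rcases Finset.mem_insert.1 hv' with rfl | h3
      · exact hk
      · exact div_mem (hu' v' h3) (pow_mem (hbT v' h3) k)

theorem exists_T (h : Hyp K L p) {S : Finset (Pr K)} (hS : Good K L p S) :
    ∃ T : Finset (Pr K), Disjoint S T ∧
      T.card + 1 = S.card + InfinitePlace.nrComplexPlaces K ∧ (∀ v ∈ T, ¬ NS L v) ∧
      ∀ x : Kˣ, (∀ v ∈ T, vl v x = 0) → ∃ u ∈ SU S, ∀ v ∈ T, x / u ∈ NP p v := by
  obtain ⟨ζ, hζ⟩ := h.root
  have h1 := (finrank_eq h.prime h.odd hζ).1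
  have h2 : 0 < Module.finrank ℚ K := Module.finrank_pos
  obtain ⟨T, hd, hc, hns, hx⟩ := H22_main h hS
    (S.card + InfinitePlace.nrComplexPlaces K - 1) (by omega)
  exact ⟨T, hd, by omega, hns, hx⟩

end Pool.Agent.RG.H
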