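import Mathlib
import Pool.Agent.Lib.RG.HDefs
import Pool.Agent.Lib.RG.H01
import Pool.Agent.Lib.RG.H03
import Pool.Agent.Lib.RG.H04
import Pool.Agent.Lib.RG.H06
import Pool.Agent.Lib.RG.H07

/-!
Row H09: units are local norms at the unramified primes which do not split. `w` above `v`, all `σ`
are in the decomposition group and only `1` is inert, so the group acts faithfully on the finite
field `𝓞 L ⧸ w`, with fixed field `k`; the norm `𝓞 L ⧸ w → k` is the product of the conjugates and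
is surjective (finite fields: `FiniteField` norm surjective, or count); lift.
-/

set_option autoImplicit false
set_option linter.unusedSectionVars false

namespace Pool.Agent.RG.H

open NumberField IsDedekindDomain WithZero

/-- A faithful action on a finite field: the fixed elements are norms. -/
theorem exists_norm_fin (G F : Type) [Group G] [Fintype G] [Field F] [Finite F]
    [MulSemiringAction G F] [FaithfulSMul G F] (x : F) (hx : ∀ g : G, g • x = x) :
    ∃ y : F, ∏ g : G, g • y = x := by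
  classical
  obtain ⟨y, hy⟩ := FiniteField.norm_surjective (FixedPoints.subfield G F) F ⟨x, hx⟩
  refine ⟨y, ?_⟩
  have hgal : IsGalois (FixedPoints.subfield G F) F := ⟨⟩
  have h1 := Algebra.norm_eq_prod_automorphisms (FixedPoints.subfield G F) y
  rw [hy] at h1
  have h2 : (∏ g : G, g • y) = ∏ σ : F ≃ₐ[FixedPoints.subfield G F] F, σ y :=
    Fintype.prod_equiv (FixedPoints.toAlgAutMulEquiv G F).toEquiv _ _ (fun g => rfl)
  rw [h2, ← h1]
  rfl

variable {K L : Type} [Field K] [NumberField K] [Field L] [NumberField L] [Algebra K L]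

theorem h09_coe_smul (σ : L ≃ₐ[K] L) (b : 𝓞 L) : ((σ • b : 𝓞 L) : L) = σ (b : L) := rfl

theorem h09_mem {w : Pr L} {b : 𝓞 L} : b ∈ w.asIdeal ↔ w.valuation L (b : L) < 1 :=
  (HeightOneSpectrum.valuation_lt_one_iff_mem (K := L) w b).symm

theorem h09_le {w : Pr L} (hd : ∀ σ : L ≃ₐ[K] L, IsDec w σ) (σ : L ≃ₐ[K] L) :
    w.asIdeal ≤ w.asIdeal.comap (MulSemiringAction.toRingHom (L ≃ₐ[K] L) (𝓞 L) σ) := by
  intro b hb
  rw [Ideal.mem_comap]
  rw [h09_mem] at hb ⊢
  have h := hd σ (b : L)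
  show w.valuation L (σ • (b : L)) < 1
  rw [h]
  exact hb

/-- The action on the residue field. -/
@[reducible] noncomputable def resAct {w : Pr L} (hd : ∀ σ : L ≃ₐ[K] L, IsDec w σ) :
    MulSemiringAction (L ≃ₐ[K] L) (𝓞 L ⧸ w.asIdeal) where
  smul σ := Ideal.quotientMap w.asIdeal (MulSemiringAction.toRingHom (L ≃ₐ[K] L) (𝓞 L) σ)
    (h09_le hd σ)
  one_smul y := by
    obtain ⟨b, rfl⟩ := Ideal.Quotient.mk_surjective y
    show Ideal.Quotient.mk w.asIdeal ((1 : L ≃ₐ[K] L) • b) = _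
    rw [one_smul]
  mul_smul σ τ y := by
    obtain ⟨b, rfl⟩ := Ideal.Quotient.mk_surjective y
    show Ideal.Quotient.mk w.asIdeal ((σ * τ) • b) = Ideal.Quotient.mk w.asIdeal (σ • τ • b)
    rw [mul_smul]
  smul_zero σ := map_zero (Ideal.quotientMap w.asIdeal
    (MulSemiringAction.toRingHom (L ≃ₐ[K] L) (𝓞 L) σ) (h09_le hd σ))
  smul_add σ := map_add (Ideal.quotientMap w.asIdeal
    (MulSemiringAction.toRingHom (L ≃ₐ[K] L) (𝓞 L) σ) (h09_le hd σ))
  smul_one σ := map_one (Ideal.quotientMap w.asIdeal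
    (MulSemiringAction.toRingHom (L ≃ₐ[K] L) (𝓞 L) σ) (h09_le hd σ))
  smul_mul σ := map_mul (Ideal.quotientMap w.asIdeal
    (MulSemiringAction.toRingHom (L ≃ₐ[K] L) (𝓞 L) σ) (h09_le hd σ))

theorem exists_int_approx (w : Pr L) (x : L) (hx : w.valuation L x ≤ 1) :
    ∃ b : 𝓞 L, w.valuation L (x - b) < 1 := by
  obtain ⟨b, hb⟩ := HeightOneSpectrum.exists_valuation_sub_lt_of_integer w hx 1
  refine ⟨b, ?_⟩
  rw [Valuation.map_sub_swap]
  exact hb

theorem h09_lt_one {a : ℤᵐ⁰} (h : a < 1) : a ≤ exp (-((1 : ℕ) : ℤ)) := by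
  by_cases h0 : a = 0
  · rw [h0]
    exact zero_le
  · have h1 : a = exp (log a) := (exp_log h0).symm
    rw [h1] at h ⊢
    rw [← exp_zero, exp_lt_exp] at h
    rw [exp_le_exp]
    push_cast
    omega

variable [IsGalois K L] {p : ℕ}

theorem units_le_Nv (h : Hyp K L p) {v : Pr K} (hv : NS L v) (hp : ¬ Above v p)
    (hun : ∀ w : Pr L, (below w : Pr K) = v → ∀ σ : L ≃ₐ[K] L, IsInert w σ → σ = 1) :
    UU v 0 ≤ Nv L p v := by
  classical
  intro x hx
  obtain ⟨w, hw, hd⟩ := hv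
  have hun' := hun w hw
  subst hw
  unfold Nv
  rw [if_neg hp]
  obtain ⟨e, he, hval⟩ := exists_e_val (K := K) w
  have hvx : (below w : Pr K).valuation K (x : K) = 1 := vl_eq_zero.1 hx.1
  have hwx : w.valuation L (algebraMap K L (x : K)) = 1 := by rw [hval, hvx, one_pow]
  obtain ⟨b₀, hb₀⟩ := exists_int_approx w (algebraMap K L (x : K)) hwx.le
  let _ : MulSemiringAction (L ≃ₐ[K] L) (𝓞 L ⧸ w.asIdeal) := resAct hd
  have hsm : ∀ (σ : L ≃ₐ[K] L) (b : 𝓞 L), σ • (Ideal.Quotient.mk w.asIdeal b) =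
      Ideal.Quotient.mk w.asIdeal (σ • b) := fun σ b => rfl
  have : w.asIdeal.IsMaximal := w.isMaximal
  let _ : Field (𝓞 L ⧸ w.asIdeal) := Ideal.Quotient.field w.asIdeal
  have hfin : Finite (𝓞 L ⧸ w.asIdeal) := Ideal.finiteQuotientOfFreeOfNeBot w.asIdeal w.ne_bot
  have hfaith : FaithfulSMul (L ≃ₐ[K] L) (𝓞 L ⧸ w.asIdeal) := by
    refine ⟨fun {σ τ} hστ => ?_⟩
    have h1 : ∀ b : 𝓞 L, w.valuation L (σ (b : L) - τ (b : L)) < 1 := by
      intro b
      have h2 := hστ (Ideal.Quotient.mk w.asIdeal b)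
      rw [hsm, hsm, Ideal.Quotient.eq, h09_mem] at h2
      exact h2
    have h2 : IsInert w (τ⁻¹ * σ) := by
      refine ⟨hd _, fun z hz => ?_⟩
      obtain ⟨b, hb⟩ := exists_int_approx w z hz
      have e1 : (τ⁻¹ * σ) • z - z = (τ⁻¹ * σ) • (z - b) - (z - b)
          + τ⁻¹ • (σ (b : L) - τ (b : L)) := by
        have e2 : τ⁻¹ • τ (b : L) = (b : L) := inv_smul_smul τ (b : L)
        have e3 : τ⁻¹ • σ (b : L) = (τ⁻¹ * σ) • (b : L) := (mul_smul τ⁻¹ σ (b : L)).symm
        rw [smul_sub, smul_sub, e2, e3]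
        ring
      rw [e1]
      refine Valuation.map_add_lt _ (Valuation.map_sub_lt _ ?_ hb) ?_
      · rw [hd]
        exact hb
      · rw [hd]
        exact h1 b
    exact (inv_mul_eq_one.1 (hun' _ h2)).symm
  have hfix : ∀ σ : L ≃ₐ[K] L, σ • (Ideal.Quotient.mk w.asIdeal b₀) =
      Ideal.Quotient.mk w.asIdeal b₀ := by
    intro σ
    rw [hsm, Ideal.Quotient.eq, h09_mem]
    have e1 : ((σ • b₀ - b₀ : 𝓞 L) : L) = (algebraMap K L (x : K) - b₀)
        - σ • (algebraMap K L (x : K) - b₀) := by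
      have e2 : σ • algebraMap K L (x : K) = algebraMap K L (x : K) := σ.commutes x
      rw [smul_sub, e2]
      show σ (b₀ : L) - (b₀ : L) = _
      show σ (b₀ : L) - (b₀ : L) = (algebraMap K L (x : K) - b₀)
        - (algebraMap K L (x : K) - σ (b₀ : L))
      ring
    rw [e1]
    refine Valuation.map_sub_lt _ hb₀ ?_
    rw [hd]
    exact hb₀
  obtain ⟨y, hy⟩ := exists_norm_fin (L ≃ₐ[K] L) (𝓞 L ⧸ w.asIdeal) _ hfix
  obtain ⟨b, rfl⟩ := Ideal.Quotient.mk_surjective y
  have hprod : w.valuation L ((∏ σ : L ≃ₐ[K] L, σ (b : L)) - (b₀ : L)) < 1 := by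
    have h1 : (∏ σ : L ≃ₐ[K] L, σ • (Ideal.Quotient.mk w.asIdeal b)) =
        Ideal.Quotient.mk w.asIdeal (∏ σ : L ≃ₐ[K] L, σ • b) := by
      rw [map_prod]
      rfl
    rw [h1, Ideal.Quotient.eq, h09_mem] at hy
    have h2 : (((∏ σ : L ≃ₐ[K] L, σ • b) - b₀ : 𝓞 L) : L) =
        (∏ σ : L ≃ₐ[K] L, σ (b : L)) - (b₀ : L) := by
      show algebraMap (𝓞 L) L ((∏ σ : L ≃ₐ[K] L, σ • b) - b₀) = _
      rw [map_sub, map_prod]
      rfl
    rw [h2] at hy
    exact hy
  rw [← Algebra.norm_eq_prod_automorphisms K (b : L)] at hprod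
  have hlt : w.valuation L (algebraMap K L (Algebra.norm K (b : L) - (x : K))) < 1 := by
    have e1 : algebraMap K L (Algebra.norm K (b : L) - (x : K)) =
        (algebraMap K L (Algebra.norm K (b : L)) - (b₀ : L))
          - (algebraMap K L (x : K) - (b₀ : L)) := by
      rw [map_sub]
      ring
    rw [e1]
    exact Valuation.map_sub_lt _ hprod hb₀
  have hlt' : (below w : Pr K).valuation K (Algebra.norm K (b : L) - (x : K)) < 1 := by
    rw [hval] at hlt
    by_contra hcon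
    exact absurd hlt (not_lt.2 (one_le_pow₀ (not_lt.1 hcon)))
  have hNb : (below w : Pr K).valuation K (Algebra.norm K (b : L)) = 1 := by
    have e1 : Algebra.norm K (b : L) = (Algebra.norm K (b : L) - (x : K)) + (x : K) := by ring
    have e2 : (below w : Pr K).valuation K (Algebra.norm K (b : L) - (x : K)) <
        (below w : Pr K).valuation K (x : K) := by rw [hvx]; exact hlt'
    rw [e1, Valuation.map_add_eq_of_lt_right _ e2, hvx]
  have hb0 : (b : L) ≠ 0 := by
    intro h0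
    rw [h0, Algebra.norm_zero, map_zero] at hNb
    exact zero_ne_one hNb
  have hx' : x = nrm K L (Units.mk0 (b : L) hb0) * (x / nrm K L (Units.mk0 (b : L) hb0)) := by
    rw [mul_div_cancel]
  rw [hx']
  refine Subgroup.mul_mem_sup ⟨_, rfl⟩ ?_
  have hvN : vl (below w : Pr K) (nrm K L (Units.mk0 (b : L) hb0)) = 0 := by
    rw [vl_eq_zero, nrm_val]
    exact hNb
  refine ⟨by rw [vl_div, hx.1, hvN, sub_zero], h09_lt_one ?_⟩
  have hN0 : Algebra.norm K (b : L) ≠ 0 := by
    intro h0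
    rw [h0, map_zero] at hNb
    exact zero_ne_one hNb
  have e1 : ((x / nrm K L (Units.mk0 (b : L) hb0) : Kˣ) : K) - 1 =
      -(Algebra.norm K (b : L) - (x : K)) / Algebra.norm K (b : L) := by
    rw [Units.val_div_eq_div_val, nrm_val]
    show (x : K) / Algebra.norm K (b : L) - 1 = _
    field_simp
    ring
  rw [e1, map_div₀, hNb, div_one, Valuation.map_neg]
  exact hlt'

end Pool.Agent.RG.H
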