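import Mathlib
import Pool.Agent.Lib.RG.HDefs
import Pool.Agent.Lib.RG.H01
import Pool.Agent.Lib.RG.H07
import Pool.Agent.Lib.RG.H09
import Pool.Agent.Lib.RG.H14
import Pool.Agent.Lib.RG.H19
import Pool.Agent.Lib.RG.H20
import Pool.Agent.Lib.RG.H22
import Pool.Agent.Lib.RG.H23

/-!
Row H24: an element of `SU (S ∪ T)` which lies in `NP p v` for all `v ∈ S` is a `p`-th power.
Otherwise let `L' = K(b^(1/p))` (`exists_kummer`); it is unramified above `p` (`split_of_NP`), so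
`Hyp K L' p`. Let `S'' ⊇ S ∪ T` be good for `L'`. `first_ineq` contradicts `SU S'' ⊔ JJ L' p S'' = ⊤`:
given `x`, let `y` be the product of the `ϖ_v ^ (v(x))`, `v ∈ S'' \ S` (`prK` of `S`), and `u ∈ SU S` for
`x / y` (property of `T`); `x / (y u) ∈ JJ L' p S''`: the `v ∈ S` are split in `L'`, for `v ∈ T` use
`NP_le_Nv`, for the other `v ∈ S''` `units_le_Nv` (`unram_of_unit`).
-/

set_option autoImplicit false
set_option linter.unusedSectionVars false

namespace Pool.Agent.RG.H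

open NumberField IsDedekindDomain WithZero

section

variable {K : Type} [Field K] [NumberField K]

theorem vl_zpow (v : Pr K) (x : Kˣ) (n : ℤ) : vl v (x ^ n) = n * vl v x := by
  obtain ⟨m, rfl | rfl⟩ := n.eq_nat_or_neg
  · rw [zpow_natCast, vl_pow]
  · rw [zpow_neg, zpow_natCast, vl_inv, vl_pow]
    ring

theorem vl_prod (v : Pr K) {ι : Type} (F : Finset ι) (f : ι → Kˣ) :
    vl v (∏ i ∈ F, f i) = ∑ i ∈ F, vl v (f i) := by
  classical
  induction F using Finset.induction_on with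
  | empty => simp
  | insert a s ha ih => rw [Finset.prod_insert ha, Finset.sum_insert ha, vl_mul, ih]

theorem mem_UU_zero {v : Pr K} {x : Kˣ} : x ∈ UU v 0 ↔ vl v x = 0 := by
  rw [mem_UU]
  refine ⟨fun h => h.1, fun h => ⟨h, ?_⟩⟩
  rw [Nat.cast_zero, neg_zero, exp_zero]
  have h1 : v.valuation K (x : K) ≤ 1 := (vl_eq_zero.1 h).le
  have h2 : v.valuation K (1 : K) ≤ 1 := by rw [map_one]
  exact (v.valuation K).map_sub_le h1 h2

/-- A product of local uniformizers. -/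
theorem vl_prod_unif {S F : Finset (Pr K)} {ϖ : Pr K → Kˣ} (h1 : ∀ v ∈ F, vl v (ϖ v) = 1)
    (h2 : ∀ v ∈ F, ∀ v', v' ∉ S → v' ≠ v → vl v' (ϖ v) = 0) (hF : ∀ v ∈ F, v ∉ S) (x : Kˣ) :
    (∀ v' ∈ F, vl v' (∏ v ∈ F, ϖ v ^ vl v x) = vl v' x) ∧
      ∀ v', v' ∉ S → v' ∉ F → vl v' (∏ v ∈ F, ϖ v ^ vl v x) = 0 := by
  constructor
  · intro v' hv'
    rw [vl_prod, Finset.sum_eq_single_of_mem v' hv', vl_zpow, h1 v' hv', mul_one]
    intro v hv hne
    rw [vl_zpow, h2 v hv v' (hF v' hv') hne.symm, mul_zero]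
  · intro v' hv' hv'F
    rw [vl_prod]
    refine Finset.sum_eq_zero fun v hv => ?_
    rw [vl_zpow, h2 v hv v' hv' (fun h => hv'F (h ▸ hv)), mul_zero]

end

variable {K L : Type} [Field K] [NumberField K] [Field L] [NumberField L] [Algebra K L]

variable [IsGalois K L] {p : ℕ}

theorem mem_PP_of_II (h : Hyp K L p) {S T : Finset (Pr K)} (hS : Good K L p S)
    (hST : Disjoint S T)
    (hT : ∀ x : Kˣ, (∀ v ∈ T, vl v x = 0) → ∃ u ∈ SU S, ∀ v ∈ T, x / u ∈ NP p v)
    {b : Kˣ} (hb : ∀ v, v ∉ S → v ∉ T → vl v b = 0) (hbI : b ∈ II p S) : b ∈ PP K p := by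
  classical
  by_contra hbP
  obtain ⟨ζ, hζ⟩ := h.root
  obtain ⟨L', fL, nL, aL, gal, hL', β, hβ⟩ := exists_kummer h.prime hζ b hbP
  have hbI' : ∀ v ∈ S, b ∈ NP p v := by
    intro v hv
    unfold II at hbI
    simp only [Subgroup.mem_iInf] at hbI
    exact hbI v hv
  have H : Hyp K L' p := by
    refine ⟨h.prime, h.odd, hL', h.root, ?_⟩
    intro w hw σ hσ
    exact split_of_NP h.prime h.odd hζ hL' hβ hbP (hbI' _ (hS.above _ ((above_iff w p).1 hw))) rfl
      σ hσ.1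
  obtain ⟨S'', hS'', hG⟩ := exists_good (K := K) (L := L') h.prime (S ∪ T)
  have hSS : S ⊆ S'' := Finset.subset_union_left.trans hS''
  have hTS : T ⊆ S'' := Finset.subset_union_right.trans hS''
  have key : SU S'' ⊔ JJ L' p S'' = ⊤ := by
    rw [eq_top_iff]
    rintro x -
    have hch : ∀ v : Pr K, ∃ ϖ : Kˣ, v ∉ S → vl v ϖ = 1 ∧
        ∀ v', v' ∉ S → v' ≠ v → vl v' ϖ = 0 := by
      intro v
      by_cases hv : v ∈ S
      · exact ⟨1, fun h => absurd hv h⟩
      · obtain ⟨ϖ, hϖ⟩ := hS.prK v hv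
        exact ⟨ϖ, fun _ => hϖ⟩
    choose ϖ hϖ using hch
    have hF : ∀ v ∈ S'' \ S, v ∉ S := fun v hv => (Finset.mem_sdiff.1 hv).2
    obtain ⟨hy1, hy2⟩ := vl_prod_unif (S := S) (F := S'' \ S) (ϖ := ϖ)
      (fun v hv => (hϖ v (hF v hv)).1) (fun v hv => (hϖ v (hF v hv)).2) hF x
    set y : Kˣ := ∏ v ∈ S'' \ S, ϖ v ^ vl v x
    obtain ⟨u, hu, hxu⟩ := hT (x / y) (by
      intro v hv
      rw [vl_div, hy1 v, sub_self]
      rw [Finset.mem_sdiff]
      exact ⟨hTS hv, fun h => Finset.disjoint_left.1 hST h hv⟩)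
    have hyS : y ∈ SU S'' := by
      intro v hv
      exact hy2 v (fun h => hv (hSS h)) (fun h => hv (Finset.mem_sdiff.1 h).1)
    have huS : u ∈ SU S'' := fun v hv => hu v (fun h => hv (hSS h))
    have hz : x / y / u ∈ JJ L' p S'' := by
      unfold JJ
      simp only [Subgroup.mem_iInf]
      intro v hv
      rw [mem_nsF] at hv
      obtain ⟨hv, hns⟩ := hv
      by_cases hvS : v ∈ S
      · exfalso
        obtain ⟨w, hw, hdec⟩ := hns
        have hcard : 1 < Nat.card (L' ≃ₐ[K] L') := by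
          rw [IsGalois.card_aut_eq_finrank, hL']
          exact h.prime.one_lt
        have : Finite (L' ≃ₐ[K] L') := Nat.finite_of_card_ne_zero (by omega)
        rw [Finite.one_lt_card_iff_nontrivial] at hcard
        obtain ⟨σ, hσ⟩ := exists_ne (1 : L' ≃ₐ[K] L')
        exact hσ (split_of_NP h.prime h.odd hζ hL' hβ hbP (hbI' v hvS) hw σ (hdec σ))
      · by_cases hvT : v ∈ T
        · exact NP_le_Nv H v (hxu v hvT)
        · have hvp : ¬ Above v p := fun h => hvS (hS.above v h)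
          refine units_le_Nv H hns hvp ?_ ?_
          · intro w hw σ hσ
            exact unram_of_unit h.prime hζ hL' hβ hbP hvp (hb v hvS hvT) hw σ hσ
          · rw [mem_UU_zero, vl_div, vl_div, hy1 v (Finset.mem_sdiff.2 ⟨hv, hvS⟩), hu v hvS,
              sub_self, sub_zero]
    have hx : x = y * u * (x / y / u) := by
      rw [div_div, mul_div_cancel]
    rw [hx]
    exact Subgroup.mul_mem_sup ((SU S'').mul_mem hyS huS) hz
  have h1 := first_ineq H hG
  rw [key, Subgroup.index_top] at h1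
  exact absurd h.prime.one_lt (not_lt.2 h1)

end Pool.Agent.RG.H
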