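import Mathlib
import Pool.Agent.Lib.RG.HDefs
import Pool.Agent.Lib.RG.H06
import Pool.Agent.Lib.RG.H07
import Pool.Agent.Lib.RG.H18
import Pool.Agent.Lib.RG.H22
import Pool.Agent.Lib.RG.H23
import Pool.Agent.Lib.RG.H24

/-!
Row H25: the second inequality. With `T` of `exists_T`, `s = |S| + r₂`: the index of `II` is
`p^(2s)`; `II ⊓ SU (S ∪ T) = PP ⊓ SU (S ∪ T)` (`mem_PP_of_II`) has index `p^(2s-1)` in `SU (S ∪ T)`
(`index_PP`); so `SU (S ∪ T) ⊔ II` has index `p`. It is contained in `SU S ⊔ JJ`: `II ≤ JJ`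
(`NP_le_Nv`) and the elements of `SU (S ∪ T)` are `SU S` times norms (`exists_nrm_unif`,
`nrm_le_Nv`).
-/

set_option autoImplicit false
set_option linter.unusedSectionVars false

namespace Pool.Agent.RG.H

open NumberField IsDedekindDomain WithZero

variable {K L : Type} [Field K] [NumberField K] [Field L] [NumberField L] [Algebra K L]

variable [IsGalois K L] {p : ℕ}

theorem second_ineq (h : Hyp K L p) {S : Finset (Pr K)} (hS : Good K L p S) :
    (SU S ⊔ JJ L p S).index ≤ p ∧ (SU S ⊔ JJ L p S).index ≠ 0 := by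
  classical
  obtain ⟨ζ, hζ⟩ := h.root
  obtain ⟨T, hST, hcard, hns, hT⟩ := exists_T h hS
  have hI := index_II h.prime h.odd hζ hS.above
  have hP := index_PP h.prime h.odd hζ (S ∪ T)
  rw [Finset.card_union_of_disjoint hST] at hP
  have e0 : II p S ⊓ SU (S ∪ T) = PP K p ⊓ SU (S ∪ T) := by
    apply le_antisymm
    · rintro b ⟨hb1, hb2⟩
      refine ⟨mem_PP_of_II h hS hST hT (fun v hv1 hv2 => hb2 v ?_) hb1, hb2⟩
      rw [Finset.mem_union]
      exact fun h => h.elim hv1 hv2
    · rintro b ⟨hb1, hb2⟩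
      refine ⟨?_, hb2⟩
      unfold II
      change b ∈ (⨅ v ∈ S, NP p v)
      simp only [Subgroup.mem_iInf]
      intro v hv
      exact (le_sup_left : PP K p ≤ NP p v) hb1
  have e1 : (II p S).relIndex (SU (S ∪ T)) = (PP K p).relIndex (SU (S ∪ T)) := by
    rw [← Subgroup.inf_relIndex_right, e0, Subgroup.inf_relIndex_right]
  have e2 : (II p S).relIndex (SU (S ∪ T)) * (SU (S ∪ T) ⊔ II p S).index = (II p S).index := by
    rw [← Subgroup.relIndex_sup_right (SU (S ∪ T)) (II p S)]
    exact Subgroup.relIndex_mul_index le_sup_right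
  have e3 : (SU (S ∪ T) ⊔ II p S).index = p := by
    rw [e1, hP, hI] at e2
    have e4 : 2 * (S.card + InfinitePlace.nrComplexPlaces K) =
        S.card + T.card + InfinitePlace.nrComplexPlaces K + 1 := by omega
    rw [e4, pow_succ] at e2
    exact Nat.eq_of_mul_eq_mul_left (pow_pos h.prime.pos _) e2
  have hle : SU (S ∪ T) ⊔ II p S ≤ SU S ⊔ JJ L p S := by
    refine sup_le ?_ ?_
    · intro x hx
      have hch : ∀ v : Pr K, ∃ b : Lˣ, v ∈ T → vl v (nrm K L b) = 1 ∧
          ∀ v', v' ∉ S → v' ≠ v → vl v' (nrm K L b) = 0 := by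
        intro v
        by_cases hv : v ∈ T
        · obtain ⟨b, hb⟩ := exists_nrm_unif h.prime h.rank hS
            (fun h => Finset.disjoint_left.1 hST h hv) (hns v hv)
          exact ⟨b, fun _ => hb⟩
        · exact ⟨1, fun h => absurd h hv⟩
      choose b hb using hch
      have hF : ∀ v ∈ T, v ∉ S := fun v hv h => Finset.disjoint_left.1 hST h hv
      obtain ⟨hy1, hy2⟩ := vl_prod_unif (S := S) (F := T) (ϖ := fun v => nrm K L (b v))
        (fun v hv => (hb v hv).1) (fun v hv => (hb v hv).2) hF x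
      set y : Kˣ := ∏ v ∈ T, nrm K L (b v) ^ vl v x with hy
      have hyN : y ∈ (nrm K L).range := by
        rw [hy]
        refine Subgroup.prod_mem _ fun v _ => Subgroup.zpow_mem _ ?_ _
        exact MonoidHom.mem_range.2 ⟨b v, rfl⟩
      have hyJ : y ∈ JJ L p S := by
        unfold JJ
        simp only [Subgroup.mem_iInf]
        intro v hv
        exact nrm_le_Nv h (mem_nsF.1 hv).2 hyN
      have hxy : x / y ∈ SU S := by
        intro v hv
        rw [vl_div]
        by_cases hvT : v ∈ T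
        · rw [hy1 v hvT, sub_self]
        · rw [hy2 v hv hvT, hx v (by
            rw [Finset.mem_union]
            exact fun h => h.elim hv hvT), sub_zero]
      have e5 : x = x / y * y := (div_mul_cancel x y).symm
      rw [e5]
      exact Subgroup.mul_mem_sup hxy hyJ
    · refine le_trans ?_ le_sup_right
      unfold II JJ
      refine le_iInf₂ fun v hv => ?_
      exact (iInf₂_le v (mem_nsF.1 hv).1).trans (NP_le_Nv h v)
  have h5 := Subgroup.index_dvd_of_le hle
  rw [e3] at h5
  refine ⟨Nat.le_of_dvd h.prime.pos h5, fun h0 => ?_⟩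
  rw [h0, zero_dvd_iff] at h5
  exact h.prime.ne_zero h5

end Pool.Agent.RG.H
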