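import Mathlib
import Pool.Agent.Lib.RG.Defs
import Pool.Agent.Lib.RG.H01
import Pool.Agent.Lib.RG.H06
import Pool.Agent.Lib.RG.H07
import Pool.Agent.Lib.RG.H14
import Pool.Agent.Lib.RG.H18
import Pool.Agent.Lib.RG.H23
import Pool.Agent.Lib.RG.H25

/-!
PART H, export: the Hasse norm theorem for cyclic extensions of odd prime degree `p` of a number
field which contains the `p`-th roots of unity, unramified above `p`.
-/

set_option autoImplicit false

namespace Pool.Agent.RG.H

open NumberField IsDedekindDomain WithZero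

private theorem eq_of_indices {B : Type} [CommGroup B] {A J U : Subgroup B} {p n : ℕ}
    (hp : 0 < p) (hAU : A ≤ U) (hAJ : A ≤ J) (h1 : A.relIndex U * p = p ^ n)
    (h2 : J.index ≠ 0) (h3 : p ^ n ≤ J.index) (h4 : (U ⊔ J).index ≤ p) {c : B} (hcU : c ∈ U)
    (hcJ : c ∈ J) : c ∈ A := by
  have e1 : J.relIndex U * (U ⊔ J).index = J.index := by
    rw [← Subgroup.relIndex_sup_right U J]
    exact Subgroup.relIndex_mul_index le_sup_right
  have e2 : A.relIndex (U ⊓ J) * (U ⊓ J).relIndex U = A.relIndex U :=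
    Subgroup.relIndex_mul_relIndex A (U ⊓ J) U (le_inf hAU hAJ) inf_le_left
  have e3 : (U ⊓ J).relIndex U = J.relIndex U := by
    rw [inf_comm]
    exact Subgroup.inf_relIndex_right J U
  rw [e3] at e2
  have hJ0 : J.relIndex U ≠ 0 := by
    intro h
    rw [h, zero_mul] at e1
    exact h2 e1.symm
  have hA0 : A.relIndex U ≠ 0 := by
    intro h
    rw [h, zero_mul] at h1
    exact (pow_pos hp n).ne h1
  have h5 : A.relIndex U * p ≤ J.relIndex U * p := by
    rw [h1]
    refine h3.trans ?_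
    rw [← e1]
    exact Nat.mul_le_mul_left _ h4
  have h6 : A.relIndex U ≤ J.relIndex U := Nat.le_of_mul_le_mul_right h5 hp
  have h7 : A.relIndex (U ⊓ J) = 1 := by
    rw [← e2] at h6
    have h8 : A.relIndex (U ⊓ J) * J.relIndex U ≤ 1 * J.relIndex U := by
      rw [one_mul]
      exact h6
    have h9 := Nat.le_of_mul_le_mul_right h8 (Nat.pos_of_ne_zero hJ0)
    have h10 : A.relIndex (U ⊓ J) ≠ 0 := by
      intro h
      rw [h, zero_mul] at e2
      exact hA0 e2.symm
    omega
  exact Subgroup.relIndex_eq_one.1 h7 ⟨hcU, hcJ⟩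

theorem hasse_norm (p : ℕ) [Fact p.Prime] (hp : p ≠ 2)
    (K L : Type) [Field K] [NumberField K] [Field L] [NumberField L] [Algebra K L] [IsGalois K L]
    (hL : Module.finrank K L = p) (ζ : K) (hζ : IsPrimitiveRoot ζ p)
    (hunr : ∀ w : HeightOneSpectrum (𝓞 L), Above w p →
      ∀ σ : L ≃ₐ[K] L, IsInert w σ → σ = 1)
    (c : K) (hc : c ≠ 0)
    (h1 : ∀ w : HeightOneSpectrum (𝓞 L), ¬ Above w p → (∀ σ : L ≃ₐ[K] L, IsDec w σ) →
      ∃ b : L, b ≠ 0 ∧ w.valuation L (algebraMap K L (Algebra.norm K b / c) - 1) < 1)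
    (h2 : ∀ w : HeightOneSpectrum (𝓞 L), Above w p → (∀ σ : L ≃ₐ[K] L, IsDec w σ) →
      ∃ x : K, w.valuation L (algebraMap K L c) = w.valuation L (algebraMap K L x) ^ p) :
    ∃ b : L, Algebra.norm K b = c := by
  classical
  have H : Hyp K L p := ⟨Fact.out, hp, hL, ⟨ζ, hζ⟩, hunr⟩
  have hp0 : 0 < p := H.prime.pos
  set c' : Kˣ := Units.mk0 c hc with hc'
  obtain ⟨S₀, hS₀⟩ := fin_vl c'
  obtain ⟨S, hSS, hS⟩ := exists_good (K := K) (L := L) H.prime S₀
  have hcS : c' ∈ SU S := fun v hv => hS₀ v (fun h => hv (hSS h))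
  obtain ⟨T, hT⟩ := fin_up (K := K) (L := L) S
  have hcJ : c' ∈ JJ L p S := by
    unfold JJ
    simp only [Subgroup.mem_iInf]
    intro v hv
    rw [mem_nsF] at hv
    obtain ⟨hvS, w, hw, hdec⟩ := hv
    subst hw
    unfold Nv
    split_ifs with hab
    · obtain ⟨x, hx⟩ := h2 w ((above_iff w p).2 hab) hdec
      have hx0 : x ≠ 0 := by
        intro h0
        rw [h0, map_zero, map_zero, zero_pow hp0.ne'] at hx
        have := (Valuation.zero_iff _).1 hx
        rw [map_eq_zero] at this
        exact hc this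
      obtain ⟨e, he, hev⟩ := exists_e (K := K) w
      have hx2 : vl w (emb K L c') = p * vl w (emb K L (Units.mk0 x hx0)) := by
        have h3 : vl w (emb K L (Units.mk0 x hx0) ^ p) = p * vl w (emb K L (Units.mk0 x hx0)) :=
          vl_pow w _ p
        rw [← h3, vl_eq_iff]
        change w.valuation L (algebraMap K L c) = _
        rw [hx, ← val_eq, Units.val_pow_eq_pow_val, map_pow]
        rfl
      rw [hev, hev] at hx2
      rw [mem_Dv]
      refine ⟨vl (below w) (Units.mk0 x hx0), ?_⟩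
      have he0 : (e : ℤ) ≠ 0 := by omega
      apply mul_left_cancel₀ he0
      rw [hx2]
      ring
    · obtain ⟨b, hb0, hb⟩ := h1 w (mt (above_iff w p).1 hab) hdec
      obtain ⟨e, he, hev⟩ := exists_e_val (K := K) w
      set y : Kˣ := nrm K L (Units.mk0 b hb0) / c' with hy
      have hyv : (y : K) = Algebra.norm K b / c := by
        rw [hy, Units.val_div_eq_div_val]
        rfl
      have hy1 : (below w : Pr K).valuation K ((y : K) - 1) < 1 := by
        have h3 : w.valuation L (algebraMap K L ((y : K) - 1)) < 1 := by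
          rw [map_sub, map_one, hyv]
          exact hb
        rw [hev] at h3
        by_contra h4
        exact absurd (one_le_pow₀ (not_lt.1 h4) (n := e)) (not_le.2 h3)
      have hyU : y ∈ UU (below w : Pr K) 1 := by
        rw [mem_UU]
        constructor
        · rw [vl_eq_zero]
          have h3 : (y : K) = 1 + ((y : K) - 1) := by ring
          rw [h3]
          exact Valuation.map_one_add_of_lt _ hy1
        · have h3 : (1 : WithZero (Multiplicative ℤ)) = exp (-((1 : ℕ) : ℤ)) * exp 1 := by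
            rw [← exp_add, Nat.cast_one, neg_add_cancel, exp_zero]
          rw [h3] at hy1
          exact (lt_mul_exp_iff_le exp_ne_zero).1 hy1
      have hcy : c' = nrm K L (Units.mk0 b hb0) * y⁻¹ := by
        rw [hy, inv_div, mul_div_cancel]
      rw [hcy]
      exact Subgroup.mul_mem_sup ⟨_, rfl⟩ ((UU _ 1).inv_mem hyU)
  have hA : c' ∈ (SU T).map (nrm K L) := by
    refine eq_of_indices hp0 (U := SU S) (J := JJ L p S) (n := (nsF L S).card) ?_ ?_
      (index_nrm H hS hT) (index_JJ H S).1 (index_JJ H S).2 (second_ineq H hS).1 hcS hcJ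
    · rintro _ ⟨b, hb, rfl⟩
      exact nrm_SU hT hb
    · rintro _ ⟨b, hb, rfl⟩
      unfold JJ
      simp only [Subgroup.mem_iInf]
      intro v hv
      exact nrm_le_Nv H (mem_nsF.1 hv).2 ⟨b, rfl⟩
  obtain ⟨b, hb, hbc⟩ := hA
  refine ⟨b, ?_⟩
  have := congrArg (fun z : Kˣ => (z : K)) hbc
  exact this

end Pool.Agent.RG.H

namespace Pool.Agent.RG

open NumberField IsDedekindDomain

/-- The Hasse norm theorem for cyclic extensions of odd prime degree `p` of a number field which
contains the `p`-th roots of unity, unramified above `p`. -/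
theorem hasse_norm (p : ℕ) [Fact p.Prime] (hp : p ≠ 2)
    (K L : Type) [Field K] [NumberField K] [Field L] [NumberField L] [Algebra K L] [IsGalois K L]
    (hL : Module.finrank K L = p) (ζ : K) (hζ : IsPrimitiveRoot ζ p)
    (hunr : ∀ w : HeightOneSpectrum (𝓞 L), Above w p →
      ∀ σ : L ≃ₐ[K] L, IsInert w σ → σ = 1)
    (c : K) (hc : c ≠ 0)
    (h1 : ∀ w : HeightOneSpectrum (𝓞 L), ¬ Above w p → (∀ σ : L ≃ₐ[K] L, IsDec w σ) →
      ∃ b : L, b ≠ 0 ∧ w.valuation L (algebraMap K L (Algebra.norm K b / c) - 1) < 1)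
    (h2 : ∀ w : HeightOneSpectrum (𝓞 L), Above w p → (∀ σ : L ≃ₐ[K] L, IsDec w σ) →
      ∃ x : K, w.valuation L (algebraMap K L c) = w.valuation L (algebraMap K L x) ^ p) :
    ∃ b : L, Algebra.norm K b = c :=
  H.hasse_norm p hp K L hL ζ hζ hunr c hc h1 h2

end Pool.Agent.RG
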