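import Mathlib
import Pool.Agent.Lib.RG.EDefs
import Pool.Agent.Lib.RG.HMain

/-!
PART E, row E10: the Hasse norm theorem in terms of one automorphism `σ` of `L` of order `p`.
-/

set_option autoImplicit false

namespace Pool.Agent.RG.E

open NumberField IsDedekindDomain

/-- powers of inert elements are inert -/
theorem e10_inert_pow {G M : Type} [Group G] [Field M] [NumberField M] [MulSemiringAction G M]
    (w : HeightOneSpectrum (𝓞 M)) (g : G) (hg : IsInert w g) (n : ℕ) : IsInert w (g ^ n) := by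
  induction n with
  | zero =>
    refine ⟨fun x => by rw [pow_zero, one_smul], fun x _ => ?_⟩
    rw [pow_zero, one_smul, sub_self, map_zero]
    exact zero_lt_one
  | succ n ih =>
    refine ⟨fun x => ?_, fun x hx => ?_⟩
    · rw [pow_succ, mul_smul, ih.1, hg.1]
    · have h1 : w.valuation M (g • x) ≤ 1 := by rw [hg.1]; exact hx
      have h2 := ih.2 (g • x) h1
      have h3 := hg.2 x hx
      have e : g ^ (n + 1) • x - x = (g ^ n • (g • x) - g • x) + (g • x - x) := by
        rw [pow_succ, mul_smul]; ring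
      rw [e]
      exact (Valuation.map_add _ _ _).trans_lt (max_lt h2 h3)

/-- powers of decomposition elements -/
theorem e10_dec_pow {G M : Type} [Group G] [Field M] [NumberField M] [MulSemiringAction G M]
    (w : HeightOneSpectrum (𝓞 M)) (g : G) (hg : IsDec w g) (n : ℕ) : IsDec w (g ^ n) := by
  induction n with
  | zero => intro x; rw [pow_zero, one_smul]
  | succ n ih => intro x; rw [pow_succ, mul_smul, ih, hg]

/-- the fixed field of an automorphism of prime order, and its Galois group -/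
theorem e10_fixed {p : ℕ} [Fact p.Prime] {L : Type} [Field L] [NumberField L]
    (σ : L ≃+* L) (hσp : ∀ x : L, (⇑σ)^[p] x = x) (hσ : ∃ x : L, σ x ≠ x) :
    ∃ (K : Type) (_ : Field K) (_ : NumberField K) (_ : Algebra K L) (_ : IsGalois K L)
      (s : L ≃ₐ[K] L), Module.finrank K L = p ∧ (∀ x, s x = σ x) ∧
      (∀ x : L, σ x = x → ∃ y : K, algebraMap K L y = x) ∧ (∀ y : K, σ (algebraMap K L y) = algebraMap K L y) ∧
      orderOf s = p ∧ ∀ g : L ≃ₐ[K] L, g ∈ Subgroup.zpowers s := by
  have hτp : (σ : RingAut L) ^ p = 1 := by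
    have hpow : ∀ (n : ℕ) (x : L), ((σ : RingAut L) ^ n) x = (⇑σ)^[n] x := by
      intro n
      induction n with
      | zero => intro x; rfl
      | succ n ih =>
        intro x
        rw [pow_succ, Function.iterate_succ_apply]
        exact ih (σ x)
    refine RingEquiv.ext fun x => ?_
    rw [hpow]
    exact hσp x
  have hτ1 : (σ : RingAut L) ≠ 1 := by
    intro h
    obtain ⟨x, hx⟩ := hσ
    apply hx
    have := congrArg (fun f : RingAut L => f x) h
    exact this
  have hord : orderOf (σ : RingAut L) = p := orderOf_eq_prime hτp hτ1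
  have hfin : Finite (Subgroup.zpowers (σ : RingAut L)) := by
    have : IsOfFinOrder (σ : RingAut L) := by
      rw [← orderOf_pos_iff, hord]; exact (Fact.out : p.Prime).pos
    exact Set.Finite.to_subtype (finite_zpowers.2 this)
  let G : Subgroup (RingAut L) := Subgroup.zpowers (σ : RingAut L)
  have hfinG : Finite G := hfin
  let g0 : G := ⟨(σ : RingAut L), Subgroup.mem_zpowers _⟩
  let K := FixedPoints.subfield G L
  have hK : NumberField K := NumberField.of_tower ℚ L _
  let s : L ≃ₐ[K] L := MulSemiringAction.toAlgAut G K L g0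
  have hs : ∀ x, s x = σ x := fun x => rfl
  have hcard : Nat.card G = p := by
    rw [Nat.card_zpowers, hord]
  have hfr : Module.finrank K L = p := by
    have := Fintype.ofFinite G
    rw [FixedPoints.finrank_eq_card G L, ← Nat.card_eq_fintype_card, hcard]
  have hord2 : orderOf s = p := by
    have h1 : orderOf s = orderOf g0 :=
      orderOf_injective (MulSemiringAction.toAlgAut G K L)
        (FixedPoints.toAlgAut_bijective G L).1 g0
    rw [h1, ← hord]
    exact (orderOf_injective G.subtype G.subtype_injective g0).symm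
  refine ⟨K, inferInstance, hK, inferInstance, IsGalois.of_fixed_field L G, s, hfr, hs, ?_, ?_,
    hord2, ?_⟩
  · intro x hx
    refine ⟨⟨x, ?_⟩, rfl⟩
    rintro ⟨g, hg⟩
    obtain ⟨n, rfl⟩ := Subgroup.mem_zpowers_iff.1 hg
    change ((σ : RingAut L) ^ n) • x = x
    have h1 : (σ : RingAut L) ∈ MulAction.stabilizer (RingAut L) x := hx
    exact Subgroup.zpow_mem _ h1 n
  · intro y
    exact y.2 g0
  · intro g
    obtain ⟨⟨a, ha⟩, rfl⟩ := (FixedPoints.toAlgAut_bijective G L).2 g
    obtain ⟨n, rfl⟩ := Subgroup.mem_zpowers_iff.1 ha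
    rw [Subgroup.mem_zpowers_iff]
    refine ⟨n, ?_⟩
    change (MulSemiringAction.toAlgAut G K L g0) ^ n = _
    rw [← map_zpow]
    rfl

theorem hasse_cyclic {p : ℕ} [Fact p.Prime] (hp : p ≠ 2) {L : Type} [Field L] [NumberField L]
    (σ : L ≃+* L) (hσp : ∀ x : L, (⇑σ)^[p] x = x) (hσ : ∃ x : L, σ x ≠ x)
    (ζ : L) (hζ : IsPrimitiveRoot ζ p) (hζσ : σ ζ = ζ)
    (hunr : ∀ w : HeightOneSpectrum (𝓞 L), Above w p →
      (∀ x : L, w.valuation L (σ x) = w.valuation L x) →
      ∃ x : L, w.valuation L x ≤ 1 ∧ ¬ w.valuation L (σ x - x) < 1)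
    (c : L) (hc : c ≠ 0) (hcσ : σ c = c)
    (h1 : ∀ w : HeightOneSpectrum (𝓞 L), ¬ Above w p →
      (∀ x : L, w.valuation L (σ x) = w.valuation L x) →
      ∃ b : L, b ≠ 0 ∧ w.valuation L ((∏ i ∈ Finset.range p, (⇑σ)^[i] b) / c - 1) < 1)
    (h2 : ∀ w : HeightOneSpectrum (𝓞 L), Above w p →
      (∀ x : L, w.valuation L (σ x) = w.valuation L x) →
      ∃ x : L, σ x = x ∧ w.valuation L c = w.valuation L x ^ p) :
    ∃ b : L, ∏ i ∈ Finset.range p, (⇑σ)^[i] b = c := by
  classical
  obtain ⟨K, _, _, _, _, s, hfr, hs, hfix, hfix', hord, hgen⟩ := e10_fixed (p := p) σ hσp hσ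
  have hpow : ∀ (n : ℕ) (x : L), (s ^ n) x = (⇑σ)^[n] x := by
    intro n
    induction n with
    | zero => intro x; rfl
    | succ n ih =>
      intro x
      rw [pow_succ, Function.iterate_succ_apply, AlgEquiv.mul_apply, ih, hs]
  have hpos : 0 < p := (Fact.out : p.Prime).pos
  have hfd : FiniteDimensional K L := Module.finite_of_finrank_pos (by rw [hfr]; exact hpos)
  have hsfin : IsOfFinOrder s := by rw [← orderOf_pos_iff, hord]; exact hpos
  -- the norm as a product of iterates
  have hnorm : ∀ b : L, algebraMap K L (Algebra.norm K b) = ∏ i ∈ Finset.range p, (⇑σ)^[i] b := by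
    intro b
    rw [Algebra.norm_eq_prod_automorphisms]
    symm
    refine Finset.prod_bij (fun i _ => s ^ i) (fun i _ => Finset.mem_univ _) ?_ ?_ ?_
    · intro i hi j hj hij
      refine pow_injOn_Iio_orderOf ?_ ?_ hij
      · rw [hord]; exact Finset.mem_range.1 hi
      · rw [hord]; exact Finset.mem_range.1 hj
    · intro g _
      have hg := hgen g
      rw [mem_zpowers_iff_mem_range_orderOf, hord, Finset.mem_image] at hg
      obtain ⟨i, hi, rfl⟩ := hg
      exact ⟨i, hi, rfl⟩
    · intro i _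
      exact (hpow i b).symm
  obtain ⟨c', hc'⟩ := hfix c hcσ
  obtain ⟨ζ', hζ'⟩ := hfix ζ hζσ
  have hinj : Function.Injective (algebraMap K L) := (algebraMap K L).injective
  have hc'0 : c' ≠ 0 := by
    rintro rfl
    rw [map_zero] at hc'
    exact hc hc'.symm
  have hζK : IsPrimitiveRoot ζ' p := by
    rw [← hζ'] at hζ
    exact hζ.of_map_of_injective hinj
  have hu : ∀ w : HeightOneSpectrum (𝓞 L), Above w p →
      ∀ g : L ≃ₐ[K] L, IsInert w g → g = 1 := by
    intro w hw g hg
    by_contra hne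
    have hgord : orderOf g = p := by
      refine orderOf_eq_prime ?_ hne
      obtain ⟨n, rfl⟩ := Subgroup.mem_zpowers_iff.1 (hgen g)
      rw [← zpow_natCast, ← zpow_mul, mul_comm, zpow_mul, zpow_natCast, ← hord, pow_orderOf_eq_one,
        one_zpow]
    have hcardG : Nat.card (L ≃ₐ[K] L) = p := by
      rw [IsGalois.card_aut_eq_finrank, hfr]
    have htop : Subgroup.zpowers g = ⊤ := by
      apply Subgroup.eq_top_of_card_eq
      rw [Nat.card_zpowers, hgord, hcardG]
    have hsg : s ∈ Subgroup.zpowers g := by rw [htop]; exact Subgroup.mem_top _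
    rw [mem_zpowers_iff_mem_range_orderOf, Finset.mem_image] at hsg
    obtain ⟨n, _, hn⟩ := hsg
    have hsin : IsInert w s := by
      rw [← hn]
      exact e10_inert_pow w g hg n
    obtain ⟨x, hx, hx'⟩ := hunr w hw (fun x => by rw [← hs]; exact hsin.1 x)
    apply hx'
    rw [← hs]
    exact hsin.2 x hx
  have hn1 : ∀ w : HeightOneSpectrum (𝓞 L), ¬ Above w p → (∀ g : L ≃ₐ[K] L, IsDec w g) →
      ∃ b : L, b ≠ 0 ∧ w.valuation L (algebraMap K L (Algebra.norm K b / c') - 1) < 1 := by
    intro w hw hdec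
    obtain ⟨b, hb0, hb⟩ := h1 w hw (fun x => by rw [← hs]; exact hdec s x)
    refine ⟨b, hb0, ?_⟩
    rw [map_div₀, hnorm, hc']
    exact hb
  have hn2 : ∀ w : HeightOneSpectrum (𝓞 L), Above w p → (∀ g : L ≃ₐ[K] L, IsDec w g) →
      ∃ x : K, w.valuation L (algebraMap K L c') = w.valuation L (algebraMap K L x) ^ p := by
    intro w hw hdec
    obtain ⟨x, hx, hxc⟩ := h2 w hw (fun x => by rw [← hs]; exact hdec s x)
    obtain ⟨x', rfl⟩ := hfix x hx
    refine ⟨x', ?_⟩
    rw [hc']
    exact hxc
  obtain ⟨b, hb⟩ := hasse_norm p hp K L hfr ζ' hζK hu c' hc'0 hn1 hn2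
  refine ⟨b, ?_⟩
  rw [← hnorm, hb, hc']

end Pool.Agent.RG.E
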