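import Mathlib
import Pool.Agent.Lib.RG.E05
import Pool.Agent.Lib.RG.G02

/-!
PART E, row E11: lifting of inertia.
-/

set_option autoImplicit false

namespace Pool.Agent.RG.E

open NumberField IsDedekindDomain

variable {M : Type} [Field M] [NumberField M] {E : Type} [Group E] [MulSemiringAction E M]

private theorem e11_mem_iff (w : HeightOneSpectrum (𝓞 M)) (x : 𝓞 M) :
    w.valuation M (algebraMap (𝓞 M) M x) < 1 ↔ x ∈ w.asIdeal :=
  HeightOneSpectrum.valuation_lt_one_iff_mem (K := M) w x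

private theorem e11_le_one (w : HeightOneSpectrum (𝓞 M)) (x : 𝓞 M) :
    w.valuation M (algebraMap (𝓞 M) M x) ≤ 1 :=
  HeightOneSpectrum.valuation_le_one (K := M) w x

/-- approximation of a `w`-integral element by an integer -/
private theorem e11_approx (w : HeightOneSpectrum (𝓞 M)) (y : M) (hy : w.valuation M y ≤ 1) :
    ∃ n : 𝓞 M, w.valuation M (y - algebraMap (𝓞 M) M n) < 1 := by
  obtain ⟨n, d, hnd⟩ := w.exists_primeCompl_mul_eq_of_integer y hy
  have hd : (d : 𝓞 M) ∉ w.asIdeal := d.2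
  have hmax : w.asIdeal.IsMaximal := w.isMaximal
  obtain ⟨d', hd'⟩ : ∃ d' : 𝓞 M, (1 : 𝓞 M) - d * d' ∈ w.asIdeal := by
    let _ : Field (𝓞 M ⧸ w.asIdeal) := Ideal.Quotient.field w.asIdeal
    have hne : Ideal.Quotient.mk w.asIdeal (d : 𝓞 M) ≠ 0 := by
      rw [Ne, Ideal.Quotient.eq_zero_iff_mem]
      exact hd
    obtain ⟨d', hd'⟩ := Ideal.Quotient.mk_surjective (Ideal.Quotient.mk w.asIdeal (d : 𝓞 M))⁻¹
    refine ⟨d', ?_⟩
    rw [← Ideal.Quotient.eq_zero_iff_mem, map_sub, map_mul, map_one, hd', mul_inv_cancel₀ hne,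
      sub_self]
  refine ⟨n * d', ?_⟩
  have e : y - algebraMap (𝓞 M) M (n * d') = y * algebraMap (𝓞 M) M (1 - d * d') := by
    rw [map_mul, ← hnd, map_sub, map_one, map_mul]
    ring
  rw [e, map_mul]
  exact lt_of_le_of_lt ((mul_le_mul' hy le_rfl).trans_eq (one_mul _)) ((e11_mem_iff w _).2 hd')

private theorem e11_gen (w : HeightOneSpectrum (𝓞 M)) :
    ∃ a : 𝓞 M, w.valuation M (a : M) = 1 ∧
      ∀ y : M, w.valuation M y = 1 → ∃ j : ℕ, w.valuation M (y - (a : M) ^ j) < 1 := by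
  have hmax : w.asIdeal.IsMaximal := w.isMaximal
  let _ : Field (𝓞 M ⧸ w.asIdeal) := Ideal.Quotient.field w.asIdeal
  have hfin : Finite (𝓞 M ⧸ w.asIdeal) := Ideal.finiteQuotientOfFreeOfNeBot w.asIdeal w.ne_bot
  have hfin' : Finite (𝓞 M ⧸ w.asIdeal)ˣ := inferInstance
  obtain ⟨u, hu⟩ := IsCyclic.exists_generator (α := (𝓞 M ⧸ w.asIdeal)ˣ)
  obtain ⟨a, ha⟩ := Ideal.Quotient.mk_surjective (u : 𝓞 M ⧸ w.asIdeal)
  have hval : ∀ b : 𝓞 M, Ideal.Quotient.mk w.asIdeal b ≠ 0 →
      w.valuation M (algebraMap (𝓞 M) M b) = 1 := by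
    intro b hb
    rw [HeightOneSpectrum.valuation_eq_one_iff_notMem]
    rwa [Ne, Ideal.Quotient.eq_zero_iff_mem] at hb
  refine ⟨a, hval a (by rw [ha]; exact u.ne_zero), ?_⟩
  intro y hy
  obtain ⟨n, hn⟩ := e11_approx w y hy.le
  have hn1 : w.valuation M (algebraMap (𝓞 M) M n) = 1 := by
    have h1 : algebraMap (𝓞 M) M n = y - (y - algebraMap (𝓞 M) M n) := by ring
    rw [h1, Valuation.map_sub_eq_of_lt_left, hy]
    rwa [hy]
  have hn0 : Ideal.Quotient.mk w.asIdeal n ≠ 0 := by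
    rw [Ne, Ideal.Quotient.eq_zero_iff_mem, ← e11_mem_iff, hn1]
    exact lt_irrefl _
  have hmem := hu (Units.mk0 _ hn0)
  rw [← mem_powers_iff_mem_zpowers] at hmem
  obtain ⟨j, hj⟩ := hmem
  refine ⟨j, ?_⟩
  have h2 : n - a ^ j ∈ w.asIdeal := by
    rw [← Ideal.Quotient.eq_zero_iff_mem, map_sub, map_pow, ha]
    have h3 := congrArg Units.val hj
    have h4 : ((u ^ j : (𝓞 M ⧸ w.asIdeal)ˣ) : 𝓞 M ⧸ w.asIdeal) =
        Ideal.Quotient.mk w.asIdeal n := h3
    rw [Units.val_pow_eq_pow_val] at h4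
    rw [h4, sub_self]
  have h3 : y - (a : M) ^ j = (y - algebraMap (𝓞 M) M n) + algebraMap (𝓞 M) M (n - a ^ j) := by
    rw [map_sub, map_pow]
    ring
  rw [h3]
  exact Valuation.map_add_lt _ hn ((e11_mem_iff w _).2 h2)

private theorem e11_pow_sub (w : HeightOneSpectrum (𝓞 M)) {a b : M} (ha : w.valuation M a ≤ 1)
    (hb : w.valuation M b ≤ 1) (h : w.valuation M (a - b) < 1) (j : ℕ) :
    w.valuation M (a ^ j - b ^ j) < 1 := by
  induction j with
  | zero => simp
  | succ j ih =>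
    have e : a ^ (j + 1) - b ^ (j + 1) = a ^ j * (a - b) + (a ^ j - b ^ j) * b := by ring
    rw [e]
    refine Valuation.map_add_lt _ ?_ ?_
    · rw [map_mul, map_pow]
      exact lt_of_le_of_lt ((mul_le_mul' (pow_le_one' ha j) le_rfl).trans_eq (one_mul _)) h
    · rw [map_mul]
      exact lt_of_le_of_lt ((mul_le_mul' le_rfl hb).trans_eq (mul_one _)) ih

/-- the polynomial argument -/
private theorem e11_poly [Finite E] (A1 : Subgroup E) (w : HeightOneSpectrum (𝓞 M)) (g : E)
    (hg : IsDec w g)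
    (h : ∀ y : M, (∀ x ∈ A1, x • y = y) → w.valuation M y ≤ 1 →
      w.valuation M (g • y - y) < 1) (a : M) (ha : ∀ x : E, w.valuation M (x • a) ≤ 1) :
    ∃ x ∈ A1, w.valuation M (g • a - x • a) < 1 := by
  classical
  have hfA : Fintype A1 := Fintype.ofFinite A1
  set R := (w.valuation M).integer with hR
  let P : Polynomial R := ∏ x : A1, (Polynomial.X - Polynomial.C ⟨(x : E) • a, ha x⟩)
  set F : Polynomial M := P.map R.subtype with hF
  have hFprod : F = ∏ x : A1, (Polynomial.X - Polynomial.C ((x : E) • a)) := by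
    rw [hF, Polynomial.map_prod]
    refine Finset.prod_congr rfl fun x _ => ?_
    rw [Polynomial.map_sub, Polynomial.map_X, Polynomial.map_C]
    rfl
  have hcoef : ∀ i, w.valuation M (F.coeff i) ≤ 1 := by
    intro i
    rw [hF, Polynomial.coeff_map]
    exact (P.coeff i).2
  have hfix : ∀ i, ∀ y ∈ A1, y • F.coeff i = F.coeff i := by
    intro i y hy
    have h1 : F.map (MulSemiringAction.toRingHom E M y) = F := by
      conv_lhs => rw [hFprod]
      rw [Polynomial.map_prod, hFprod]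
      refine Fintype.prod_equiv (Equiv.mulLeft (⟨y, hy⟩ : A1)) _ _ fun x => ?_
      rw [Polynomial.map_sub, Polynomial.map_X, Polynomial.map_C]
      congr 2
      show y • (x : E) • a = ((⟨y, hy⟩ * x : A1) : E) • a
      rw [Subgroup.coe_mul, mul_smul]
    have h2 := congrArg (fun Q : Polynomial M => Q.coeff i) h1
    simp only [Polynomial.coeff_map] at h2
    exact h2
  have hFa : F.eval a = 0 := by
    rw [hFprod, Polynomial.eval_prod]
    refine Finset.prod_eq_zero (Finset.mem_univ (1 : A1)) ?_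
    simp
  have hdiff : F.eval (g • a) = ∑ i ∈ Finset.range (F.natDegree + 1),
      (F.coeff i - g • F.coeff i) * (g • a) ^ i := by
    have h1 : ∑ i ∈ Finset.range (F.natDegree + 1), (g • F.coeff i) * (g • a) ^ i = 0 := by
      have h2 : ∀ i, (g • F.coeff i) * (g • a) ^ i = g • (F.coeff i * a ^ i) := by
        intro i
        rw [smul_mul', smul_pow']
      simp only [h2]
      rw [← Finset.smul_sum, ← Polynomial.eval_eq_sum_range, hFa, smul_zero]
    simp only [sub_mul]
    rw [Finset.sum_sub_distrib, h1, sub_zero, ← Polynomial.eval_eq_sum_range]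
  have hlt : w.valuation M (F.eval (g • a)) < 1 := by
    rw [hdiff]
    refine Valuation.map_sum_lt _ one_ne_zero fun i _ => ?_
    rw [map_mul, map_pow]
    have h1 : w.valuation M (F.coeff i - g • F.coeff i) < 1 := by
      rw [Valuation.map_sub_swap]
      exact h _ (fun x hx => hfix i x hx) (hcoef i)
    exact lt_of_le_of_lt ((mul_le_mul' le_rfl (pow_le_one' (ha g) i)).trans_eq (mul_one _)) h1
  by_contra hcon
  push Not at hcon
  rw [hFprod, Polynomial.eval_prod, map_prod] at hlt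
  have h1 : ∏ x : A1, w.valuation M
      (Polynomial.eval (g • a) (Polynomial.X - Polynomial.C ((x : E) • a))) = 1 := by
    refine Finset.prod_eq_one fun x _ => ?_
    rw [Polynomial.eval_sub, Polynomial.eval_X, Polynomial.eval_C]
    refine le_antisymm ?_ (hcon x x.2)
    exact Valuation.map_sub_le _ (ha g) (ha x)
  rw [h1] at hlt
  exact lt_irrefl _ hlt

/- PROOF. The residue field k = 𝓞 M ⧸ w is finite, let a ∈ 𝓞 M map to a generator of kˣ; a' := a * ε
with ε of exists_eps_act: w (a' - a) < 1, w (h • a') ≤ 1 for all h (w ∘ h is the valuation of another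
prime, so ≤ 1 on 𝓞 M), w (h • a') < 1 if h is not in Dec. The polynomial F = ∏ x ∈ A1, (X - x • a') has
coefficients fixed by A1 and of valuation ≤ 1 at w. Hence F (g • a') ≡ (gF) (g • a') = g • F (a') = 0
mod w, so w (g • a' - x • a') < 1 for some x ∈ A1; g • a' is a unit, so x ∈ Dec. Then g * x⁻¹ is inert:
every unit y satisfies y ≡ (x • a) ^ j mod w for some j, and (g x⁻¹) • (x • a) = g • a ≡ x • a. -/
theorem inert_lift [Finite E] (A1 : Subgroup E) (w : HeightOneSpectrum (𝓞 M)) (g : E)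
    (hg : IsDec w g)
    (h : ∀ y : M, (∀ x ∈ A1, x • y = y) → w.valuation M y ≤ 1 →
      w.valuation M (g • y - y) < 1) :
    ∃ x ∈ A1, IsInert w (g * x) := by
  obtain ⟨a₀, ha₀, hgen₀⟩ := e11_gen w
  obtain ⟨ε, hε1, hε2, hε3⟩ := exists_eps_act (E := E) w
  set a : M := (a₀ : M) * ε with ha
  have hva₀ : ∀ x : E, w.valuation M (x • (a₀ : M)) ≤ 1 := by
    intro x
    obtain ⟨v, hv⟩ := exists_translate w x
    rw [← hv]
    exact e11_le_one v a₀
  have haa : w.valuation M (a - (a₀ : M)) < 1 := by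
    have e : a - (a₀ : M) = (a₀ : M) * (ε - 1) := by rw [ha]; ring
    rw [e, map_mul, ha₀, one_mul]
    exact hε1
  have hle : ∀ x : E, w.valuation M (x • a) ≤ 1 := by
    intro x
    rw [ha, smul_mul', map_mul]
    exact (mul_le_mul' (hva₀ x) (hε2 x)).trans_eq (one_mul _)
  have hlt : ∀ x : E, ¬ IsDec w x → w.valuation M (x • a) < 1 := by
    intro x hx
    rw [ha, smul_mul', map_mul]
    exact lt_of_le_of_lt ((mul_le_mul' (hva₀ x) le_rfl).trans_eq (one_mul _)) (hε3 x hx)
  have ha1 : w.valuation M a = 1 := by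
    have e : a = (a₀ : M) - ((a₀ : M) - a) := by ring
    have h1 : w.valuation M ((a₀ : M) - a) < w.valuation M (a₀ : M) := by
      rw [ha₀, Valuation.map_sub_swap]
      exact haa
    rw [e, Valuation.map_sub_eq_of_lt_left _ h1, ha₀]
  have hgen : ∀ y : M, w.valuation M y = 1 → ∃ j : ℕ, w.valuation M (y - a ^ j) < 1 := by
    intro y hy
    obtain ⟨j, hj⟩ := hgen₀ y hy
    refine ⟨j, ?_⟩
    have e : y - a ^ j = (y - (a₀ : M) ^ j) + ((a₀ : M) ^ j - a ^ j) := by ring
    rw [e]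
    refine Valuation.map_add_lt _ hj ?_
    refine e11_pow_sub w ha₀.le ha1.le ?_ j
    rw [Valuation.map_sub_swap]
    exact haa
  obtain ⟨x, hx, hxa⟩ := e11_poly A1 w g hg h a hle
  have hxd : IsDec w x := by
    by_contra hnd
    have h1 := hlt x hnd
    have h2 : w.valuation M (g • a) = 1 := by rw [hg, ha1]
    have h3 : w.valuation M (g • a - x • a) = 1 := by
      rw [Valuation.map_sub_eq_of_lt_left, h2]
      rw [h2]
      exact h1
    rw [h3] at hxa
    exact lt_irrefl _ hxa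
  refine ⟨x⁻¹, A1.inv_mem hx, ?_⟩
  have hσ : IsDec w (g * x⁻¹) := hg.mul hxd.inv
  refine ⟨hσ, ?_⟩
  intro y hy
  rcases lt_or_eq_of_le hy with hy1 | hy1
  · refine Valuation.map_sub_lt _ ?_ hy1
    rw [hσ]
    exact hy1
  · obtain ⟨j, hj⟩ := hgen (x⁻¹ • y) (by rw [hxd.inv, hy1])
    have h1 : w.valuation M (y - (x • a) ^ j) < 1 := by
      have e : y - (x • a) ^ j = x • (x⁻¹ • y - a ^ j) := by
        rw [smul_sub, smul_inv_smul, smul_pow']
      rw [e, hxd]
      exact hj
    have h2 : (g * x⁻¹) • y - y = (g * x⁻¹) • (y - (x • a) ^ j) + ((g • a) ^ j - (x • a) ^ j) -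
        (y - (x • a) ^ j) := by
      rw [smul_sub, smul_pow', mul_smul g x⁻¹ (x • a), inv_smul_smul]
      ring
    rw [h2]
    refine Valuation.map_sub_lt _ (Valuation.map_add_lt _ ?_ ?_) h1
    · rw [hσ]
      exact h1
    · exact e11_pow_sub w (hle g) (hle x) hxa j

end Pool.Agent.RG.E
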