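import Mathlib
import Pool.Agent.Lib.RG.EDefs

/-!
PART E, row E12: the fixed field of `A₁` with the automorphism given by `e`.
-/

set_option autoImplicit false

namespace Pool.Agent.RG.E

/- PROOF. L := FixedPoints.subfield A1 M (↥A1 acts on M), a number field (finite over ℚ because it is
a ℚ-subspace of M), j = the inclusion (Subfield.subtype), σ = the restriction of e. -/
theorem exists_fixed_field {M : Type} [Field M] [NumberField M] {E : Type} [Group E]
    [MulSemiringAction E M] (A1 : Subgroup E) (e : E) (hn : ∀ x ∈ A1, e * x * e⁻¹ ∈ A1)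
    (hn' : ∀ x ∈ A1, e⁻¹ * x * e ∈ A1) :
    ∃ (L : Type) (_ : Field L) (_ : NumberField L) (j : L →+* M) (σ : L ≃+* L),
      (∀ y : M, (∀ g ∈ A1, g • y = y) ↔ ∃ x : L, j x = y) ∧ ∀ x : L, j (σ x) = e • j x := by
  let L : Subfield M :=
    { carrier := {y | ∀ g ∈ A1, g • y = y}
      mul_mem' := fun {a b} ha hb g hg => by rw [smul_mul', ha g hg, hb g hg]
      one_mem' := fun g _ => smul_one g
      add_mem' := fun {a b} ha hb g hg => by rw [smul_add, ha g hg, hb g hg]
      zero_mem' := fun g _ => smul_zero g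
      neg_mem' := fun {a} ha g hg => by rw [smul_neg, ha g hg]
      inv_mem' := fun a ha g hg => by
        change g • a⁻¹ = a⁻¹
        rw [smul_inv'', ha g hg] }
  have hL : ∀ y : M, y ∈ L ↔ ∀ g ∈ A1, g • y = y := fun y => Iff.rfl
  have hfin : FiniteDimensional ℚ L :=
    FiniteDimensional.of_injective (L.subtype.toRatAlgHom.toLinearMap) Subtype.val_injective
  have hnf : NumberField L := { to_charZero := inferInstance, to_finiteDimensional := hfin }
  have h1 : ∀ x : L, e • (x : M) ∈ L := by
    intro x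
    rw [hL]
    intro g hg
    have h := (hL x).1 x.2 _ (hn' g hg)
    have h2 : g * e = e * (e⁻¹ * g * e) := by group
    rw [← mul_smul, h2, mul_smul, h]
  have h2 : ∀ x : L, e⁻¹ • (x : M) ∈ L := by
    intro x
    rw [hL]
    intro g hg
    have h := (hL x).1 x.2 _ (hn g hg)
    have h2 : g * e⁻¹ = e⁻¹ * (e * g * e⁻¹) := by group
    rw [← mul_smul, h2, mul_smul, h]
  let σ : L ≃+* L :=
    { toFun := fun x => ⟨e • (x : M), h1 x⟩
      invFun := fun x => ⟨e⁻¹ • (x : M), h2 x⟩
      left_inv := fun x => Subtype.ext (inv_smul_smul e (x : M))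
      right_inv := fun x => Subtype.ext (smul_inv_smul e (x : M))
      map_mul' := fun x y => Subtype.ext (smul_mul' e (x : M) (y : M))
      map_add' := fun x y => Subtype.ext (smul_add e (x : M) (y : M)) }
  refine ⟨L, inferInstance, hnf, L.subtype, σ, fun y => ?_, fun x => rfl⟩
  constructor
  · intro h
    exact ⟨⟨y, h⟩, rfl⟩
  · rintro ⟨x, rfl⟩
    exact x.2

end Pool.Agent.RG.E
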