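import Mathlib
import Pool.Agent.Lib.RG.E10
import Pool.Agent.Lib.RG.E11
import Pool.Agent.Lib.RG.E12
import Pool.Agent.Lib.RG.G01

/-!
PART E, row E13: the Hasse norm theorem for the fixed fields of `A₁` and `A` in `M`.
-/

set_option autoImplicit false

namespace Pool.Agent.RG.E

open NumberField IsDedekindDomain

variable {M : Type} [Field M] [NumberField M] {E : Type} [Group E] [MulSemiringAction E M]

/-- an element acting trivially on the fixed field of `A₁` is in `A₁` -/
private theorem mem_of_fix [Finite E] {p : ℕ} {Z : Subgroup E} {ι : Z →* Mˣ}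
    (hC : Cen p M E Z ι) {A1 : Subgroup E} (hZ : Z ≤ A1) (e : E)
    (h : ∀ y : M, (∀ g ∈ A1, g • y = y) → e • y = y) : e ∈ A1 := by
  have hfin : Finite A1 := inferInstance
  let f : M ≃ₐ[FixedPoints.subfield A1 M] M :=
    AlgEquiv.ofRingEquiv (f := MulSemiringAction.toRingEquiv E M e) (by
      intro r
      refine h (r : M) fun g hg => ?_
      exact r.2 (⟨g, hg⟩ : A1))
  obtain ⟨x, hx⟩ := FixedPoints.toAlgAut_surjective A1 M f
  have h1 : ∀ y : M, ((x : E)⁻¹ * e) • y = y := by
    intro y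
    have h2 : (x : E) • y = e • y := by
      have h3 := congrArg (fun t : M ≃ₐ[FixedPoints.subfield A1 M] M => t y) hx
      exact h3
    rw [mul_smul, ← h2, inv_smul_smul]
  have h3 := hZ ((hC.ker _).1 h1)
  have h4 := A1.mul_mem x.2 h3
  rwa [mul_inv_cancel_left] at h4

/- PROOF. L, j, σ from exists_fixed_field; j (σ^[i] x) = e ^ i • j x; σ^[p] = id as e ^ p ∈ A1; σ ≠ id:
otherwise e acts trivially on the fixed field of A1, so (Galois theory: M over the fixed field of A1;
or: the elements of E acting trivially on the fixed field of A1 are in A1 * Z = A1) e ∈ A1,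
contradiction to hS.min (p ≥ 2). ζ := preimage of ι z0, z0 a generator of Z (Nat.card Z = p, ι
injective, hC.fix). For w' : HeightOneSpectrum (𝓞 L) choose w above (exists_above j w' of G01:
Lies j w w'). If σ preserves w', then the prime v = w ∘ e (exists_translate w e) and w agree on the
fixed field of A1, so by conj_sub there is x ∈ A1 with e * x ∈ Dec w (up to inverting; A1 is normal).
hunr: if σ were inert at w', then inert_lift (for g = e * x) gives e * x * y inert at w, so in Z ≤ A1 by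
hC.unr and e ∈ A1, contradiction. h1, h2 of hasse_cyclic: from h1, h2 (w (j x) and w' x: use Lies for
< 1; for the equality w' c = w' x ^ p apply Lies to c / x^p and x^p / c, valuation = 1 iff both ≤ 1). -/
theorem norm_lg {p : ℕ} [Fact p.Prime] (hp : p ≠ 2) [Finite E] {Z : Subgroup E} {ι : Z →* Mˣ}
    (hC : Cen p M E Z ι) {A A1 : Subgroup E} {e : E} (hS : Step p A A1 e) (hZ : Z ≤ A1)
    (c : Mˣ) (hc : ∀ g ∈ A, g • c = c)
    (h1 : ∀ w : HeightOneSpectrum (𝓞 M), ¬ Above w p → ∀ x ∈ A1, IsDec w (e * x) →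
      ∃ d : Mˣ, (∀ g ∈ A1, g • d = d) ∧ (∏ i ∈ Finset.range p, e ^ i • d) / c ∈ U1 w)
    (h2 : ∀ w : HeightOneSpectrum (𝓞 M), Above w p → ∀ x ∈ A1, IsDec w (e * x) →
      ∃ y : Mˣ, (∀ g ∈ A, g • y = y) ∧ w.valuation M (c : M) = w.valuation M (y : M) ^ p) :
    ∃ d : Mˣ, (∀ g ∈ A1, g • d = d) ∧ ∏ i ∈ Finset.range p, e ^ i • d = c := by
  have hpp : p.Prime := Fact.out
  have heA1 : e ∉ A1 := by
    have h := hS.min 1 one_pos hpp.one_lt
    rwa [pow_one] at h
  obtain ⟨L, hLf, hLn, j, σ, hj, hjσ⟩ := exists_fixed_field (M := M) A1 e (hS.norm e hS.mem) (by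
    intro x hx
    have h := hS.norm e⁻¹ (A.inv_mem hS.mem) x hx
    rwa [inv_inv] at h)
  have hfixj : ∀ x : L, ∀ g ∈ A1, g • j x = j x := fun x => (hj (j x)).2 ⟨x, rfl⟩
  have hiter : ∀ (i : ℕ) (x : L), j ((⇑σ)^[i] x) = e ^ i • j x := by
    intro i
    induction i with
    | zero => intro x; rw [pow_zero, one_smul]; rfl
    | succ i ih =>
      intro x
      rw [Function.iterate_succ_apply', hjσ, ih, ← mul_smul, ← pow_succ']
  have hσp : ∀ x : L, (⇑σ)^[p] x = x := by
    intro x
    apply j.injective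
    rw [hiter]
    exact hfixj x _ hS.pow
  have hσ : ∃ x : L, σ x ≠ x := by
    by_contra hcon
    push Not at hcon
    apply heA1
    refine mem_of_fix hC hZ e fun y hy => ?_
    obtain ⟨x, rfl⟩ := (hj y).1 hy
    rw [← hjσ, hcon]
  -- the root of unity
  have hfinZ : Finite Z := inferInstance
  obtain ⟨z0, hz0⟩ : ∃ z : Z, z ≠ 1 := by
    have h : 1 < Nat.card Z := by rw [hC.card]; exact hpp.one_lt
    have := Finite.one_lt_card_iff_nontrivial.1 h
    exact exists_ne 1
  have hord : orderOf z0 = p := by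
    have h : orderOf z0 ∣ p := by rw [← hC.card]; exact orderOf_dvd_natCard z0
    rcases (Nat.dvd_prime hpp).1 h with h | h
    · exact absurd (orderOf_eq_one_iff.1 h) hz0
    · exact h
  have hζM : IsPrimitiveRoot ((ι z0 : Mˣ) : M) p := by
    have h : orderOf (ι z0) = p := by rw [orderOf_injective ι hC.inj]; exact hord
    rw [IsPrimitiveRoot.coe_units_iff, ← h]
    exact IsPrimitiveRoot.orderOf _
  obtain ⟨ζ, hζj⟩ : ∃ ζ : L, j ζ = ((ι z0 : Mˣ) : M) := (hj _).1 fun g _ => hC.fix g z0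
  have hζ : IsPrimitiveRoot ζ p := by
    refine IsPrimitiveRoot.of_map_of_injective (f := j) ?_ j.injective
    rw [hζj]
    exact hζM
  have hζσ : σ ζ = ζ := by
    apply j.injective
    rw [hjσ, hζj]
    exact hC.fix e z0
  -- decomposition
  have hdec : ∀ (w' : HeightOneSpectrum (𝓞 L)), (∀ x : L, w'.valuation L (σ x) = w'.valuation L x) →
      ∃ w : HeightOneSpectrum (𝓞 M), Lies j w w' ∧ ∃ x ∈ A1, IsDec w (e * x) := by
    intro w' hw'
    obtain ⟨w, hw⟩ := exists_above j w'
    refine ⟨w, hw, ?_⟩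
    obtain ⟨v, hv⟩ := exists_translate w e
    obtain ⟨g, hg, hgx⟩ := conj_sub A1 v w (by
      intro y hy hlt
      obtain ⟨x, rfl⟩ := (hj y).1 hy
      rw [hv, ← hjσ, (hw _).2, hw', ← (hw _).2] at hlt
      exact hlt)
    refine ⟨g⁻¹, A1.inv_mem hg, fun x => ?_⟩
    rw [mul_smul, ← hv, hgx, smul_inv_smul]
  obtain ⟨c', hc'⟩ : ∃ c' : L, j c' = (c : M) := (hj _).1 fun g hg => by
    rw [← coe_act, hc g (hS.le hg)]
  have hc'0 : c' ≠ 0 := by
    intro h0
    rw [h0, map_zero] at hc'
    exact c.ne_zero hc'.symm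
  have hc'σ : σ c' = c' := by
    apply j.injective
    rw [hjσ, hc', ← coe_act, hc e hS.mem]
  have hprodj : ∀ b : L, j (∏ i ∈ Finset.range p, (⇑σ)^[i] b) =
      ∏ i ∈ Finset.range p, e ^ i • j b := by
    intro b
    rw [map_prod]
    exact Finset.prod_congr rfl fun i _ => hiter i b
  have hprodd : ∀ d : Mˣ, ((∏ i ∈ Finset.range p, e ^ i • d : Mˣ) : M) =
      ∏ i ∈ Finset.range p, e ^ i • (d : M) := by
    intro d
    rw [Units.coe_prod]
    rfl
  obtain ⟨b, hb⟩ := hasse_cyclic hp σ hσp hσ ζ hζ hζσ (by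
      intro w' hab hw'
      by_contra hcon
      push Not at hcon
      obtain ⟨w, hw, x, hx, hxd⟩ := hdec w' hw'
      obtain ⟨x', hx', hin⟩ := inert_lift A1 w (e * x) hxd (by
        intro y hy hle
        obtain ⟨t, rfl⟩ := (hj y).1 hy
        rw [mul_smul, hy x hx, ← hjσ, ← map_sub, (hw _).2]
        exact hcon t ((hw t).1.1 hle))
      have h3 := hZ (hC.unr w ((hw.above_iff p).2 hab) _ hin)
      apply heA1
      have h4 := A1.mul_mem (A1.mul_mem h3 (A1.inv_mem hx')) (A1.inv_mem hx)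
      rwa [mul_inv_cancel_right, mul_inv_cancel_right] at h4) c' hc'0 hc'σ (by
      intro w' hab hw'
      obtain ⟨w, hw, x, hx, hxd⟩ := hdec w' hw'
      obtain ⟨d, hd, hdc⟩ := h1 w (fun h => hab ((hw.above_iff p).1 h)) x hx hxd
      obtain ⟨b, hbd⟩ : ∃ b : L, j b = (d : M) := (hj _).1 fun g hg => by
        rw [← coe_act, hd g hg]
      refine ⟨b, ?_, ?_⟩
      · intro h0
        rw [h0, map_zero] at hbd
        exact d.ne_zero hbd.symm
      · rw [← (hw _).2, map_sub, map_div₀, hprodj, hc', map_one, hbd, ← hprodd]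
        rw [mem_U1, Units.val_div_eq_div_val] at hdc
        exact hdc) (by
      intro w' hab hw'
      obtain ⟨w, hw, x, hx, hxd⟩ := hdec w' hw'
      obtain ⟨y, hy, hyc⟩ := h2 w ((hw.above_iff p).2 hab) x hx hxd
      obtain ⟨b, hby⟩ : ∃ b : L, j b = (y : M) := (hj _).1 fun g hg => by
        rw [← coe_act, hy g (hS.le hg)]
      have hb0 : b ≠ 0 := by
        intro h0
        rw [h0, map_zero] at hby
        exact y.ne_zero hby.symm
      refine ⟨b, ?_, ?_⟩
      · apply j.injective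
        rw [hjσ, hby, ← coe_act, hy e hS.mem]
      · have hvy : w.valuation M (y : M) ^ p ≠ 0 := pow_ne_zero _ ((Valuation.ne_zero_iff _).2 y.ne_zero)
        have hvb : w'.valuation L b ^ p ≠ 0 := pow_ne_zero _ ((Valuation.ne_zero_iff _).2 hb0)
        have h5 : w.valuation M (j (c' / b ^ p)) = 1 := by
          rw [map_div₀, map_pow, hby, hc', map_div₀, map_pow, hyc, div_self hvy]
        have h6 : w'.valuation L (c' / b ^ p) = 1 := by
          refine le_antisymm ((hw _).1.1 h5.le) (not_lt.1 fun h => ?_)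
          have h7 := (hw _).2.2 h
          rw [h5] at h7
          exact lt_irrefl _ h7
        rw [map_div₀, map_pow, div_eq_one_iff_eq hvb] at h6
        exact h6)
  have hjb : j b ≠ 0 := by
    intro h0
    have hb0 : b = 0 := j.injective (by rw [h0, map_zero])
    apply hc'0
    rw [← hb, hb0]
    refine Finset.prod_eq_zero (Finset.mem_range.2 hpp.pos) ?_
    rfl
  refine ⟨Units.mk0 (j b) hjb, ?_, ?_⟩
  · intro g hg
    ext
    rw [coe_act, Units.val_mk0]
    exact hfixj b g hg
  · ext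
    rw [hprodd, Units.val_mk0, ← hprodj, hb, hc']

end Pool.Agent.RG.E
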