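import Mathlib
import Pool.Agent.Lib.RG.E01
import Pool.Agent.Lib.RG.E04
import Pool.Agent.Lib.RG.E09
import Pool.Agent.Lib.RG.E13

/-!
PART E, row E14: one step of the construction of a solution.
-/

set_option autoImplicit false

namespace Pool.Agent.RG.E

open NumberField IsDedekindDomain

variable {M : Type} [Field M] [NumberField M] {E : Type} [Group E] [MulSemiringAction E M]

theorem bhn_step {p : ℕ} [Fact p.Prime] (hp : p ≠ 2) [Finite E] {Z : Subgroup E} {ι : Z →* Mˣ}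
    (hC : Cen p M E Z ι)
    (hloc : ∀ w : HeightOneSpectrum (𝓞 M), ¬ Above w p → ∃ β : E → Mˣ, LocSol ι w β)
    {A A1 : Subgroup E} {e : E} (hS : Step p A A1 e) (hZ : Z ≤ A1)
    (hb : ∃ b : E → Mˣ, Sol ι A1 b) : ∃ b : E → Mˣ, Sol ι A b := by
  obtain ⟨b1, hb⟩ := hb
  have hn' : ∀ x ∈ A1, e⁻¹ * x * e ∈ A1 := fun x hx => by
    have h := hS.norm e⁻¹ (inv_mem hS.mem) x hx
    rwa [inv_inv] at h
  obtain ⟨m, hm⟩ := exists_rel hC hZ hb e (fun x hx => hS.norm e hS.mem x hx) hn'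
  have hfix : ∀ g ∈ A, g • (b1 (e ^ p) / ∏ i ∈ Finset.range p, e ^ i • m) =
      b1 (e ^ p) / ∏ i ∈ Finset.range p, e ^ i • m :=
    fun g hg => obst_fixed hS b1 hb.coc m hm g hg
  obtain ⟨d, hd1, hd2⟩ := norm_lg hp hC hS hZ
    (b1 (e ^ p) / ∏ i ∈ Finset.range p, e ^ i • m) hfix (by
      intro w hw x hx hdec
      obtain ⟨β, hβ⟩ := hloc w hw
      obtain ⟨d, hd, hd'⟩ := local_norm hC (hS.change hx) hZ hb
        (rel_change hS b1 hb.coc m hm hx) w hw hβ hdec
      refine ⟨d, hd, ?_⟩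
      rw [obst_change hS b1 hb.coc m hm hx,
        Finset.prod_congr rfl (fun i _ => pow_smul_change hS hx d hd i)] at hd'
      exact hd') (by
      intro w hw x hx hdec
      obtain ⟨y, hy, hy'⟩ := local_val hC (hS.change hx) hb (m * e • b1 x) w hw hdec
      refine ⟨y, hy, ?_⟩
      rw [obst_change hS b1 hb.coc m hm hx] at hy'
      exact hy')
  have hrel : RelOn A1 b1 e (m * d) := by
    intro x hx
    have h := hm x hx
    rw [smul_mul', hd1 _ (hS.norm e hS.mem x hx), ← mul_assoc, h, mul_right_comm]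
  have hpow : b1 (e ^ p) = ∏ i ∈ Finset.range p, e ^ i • (m * d) := by
    simp only [smul_mul']
    rw [Finset.prod_mul_distrib, hd2, mul_div_cancel]
  obtain ⟨b, hb1, hb2⟩ := ext_exact hS b1 hb.coc (m * d) hrel hpow
  refine ⟨b, ⟨hb1, fun z => ?_⟩⟩
  have h := hb2 0 z (hZ z.2)
  rw [pow_zero, one_mul, one_smul, Finset.prod_range_zero, one_mul] at h
  rw [h, hb.res]

end Pool.Agent.RG.E
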