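import Mathlib
import Pool.Agent.Lib.RG.E14

/-!
PART E, row E15: induction over the subgroups of the `p`-group `E`.
-/

set_option autoImplicit false

namespace Pool.Agent.RG.E

open NumberField IsDedekindDomain

/-- A step from `A1` to `K` with index `p`. -/
theorem step_of_index {p : ℕ} [Fact p.Prime] {E : Type} [Group E] {K A1 : Subgroup E}
    (hle : A1 ≤ K) (hN : (A1.subgroupOf K).Normal) (hi : (A1.subgroupOf K).index = p)
    {e : E} (heK : e ∈ K) (he : e ∉ A1) : Step p K A1 e := by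
  have hp : p.Prime := Fact.out
  have hcard : Nat.card (K ⧸ A1.subgroupOf K) = p := hi
  let q : K →* K ⧸ A1.subgroupOf K := QuotientGroup.mk' _
  have hq : ∀ x : K, q x = 1 ↔ (x : E) ∈ A1 := by
    intro x
    change ((x : K ⧸ A1.subgroupOf K)) = 1 ↔ _
    rw [QuotientGroup.eq_one_iff]
    exact Subgroup.mem_subgroupOf
  let e' : K := ⟨e, heK⟩
  have he1 : q e' ≠ 1 := fun h => he ((hq e').1 h)
  have hpow : q e' ^ p = 1 := by
    rw [← hcard]
    exact pow_card_eq_one'
  have hord : orderOf (q e') = p := orderOf_eq_prime hpow he1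
  refine ⟨hp.pos, hle, heK, ?_, ?_, ?_, ?_⟩
  · have h := (hq (e' ^ p)).1 (by rw [map_pow]; exact hpow)
    simpa using h
  · intro i hi0 hip hmem
    have h : q e' ^ i = 1 := by
      rw [← map_pow]
      exact (hq _).2 (by simpa using hmem)
    have hd := orderOf_dvd_of_pow_eq_one h
    rw [hord] at hd
    exact absurd (Nat.le_of_dvd hi0 hd) (by omega)
  · intro a ha x hx
    have h := hN.conj_mem ⟨x, hle hx⟩ (Subgroup.mem_subgroupOf.2 hx) ⟨a, ha⟩
    exact Subgroup.mem_subgroupOf.1 h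
  · intro g hg
    obtain ⟨k, hk⟩ := mem_powers_of_prime_card hcard (g := q e') (g' := q ⟨g, hg⟩) he1
    have hk' : q e' ^ (k % p) = q ⟨g, hg⟩ := by
      rw [← hord, pow_mod_orderOf]
      exact hk
    refine ⟨k % p, Nat.mod_lt _ hp.pos, (e ^ (k % p))⁻¹ * g, ?_, ?_⟩
    · have h : q ((e' ^ (k % p))⁻¹ * ⟨g, hg⟩) = 1 := by
        rw [map_mul, map_inv, map_pow, hk', inv_mul_cancel]
      have h2 := (hq _).1 h
      simpa using h2
    · rw [mul_inv_cancel_left]

/- PROOF. Sylow.exists_subgroup_card_pow_succ gives K > A1 with |K| = p |A1|; A1 is normal in K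
(index p in a p-group), e ∈ K \ A1; e^p ∈ A1, K / A1 is cyclic of order p generated by e. -/
theorem exists_step {p : ℕ} [Fact p.Prime] {E : Type} [Group E] [Finite E] (hE : IsPGroup p E)
    (A1 : Subgroup E) (hA : A1 ≠ ⊤) : ∃ (A : Subgroup E) (e : E), Step p A A1 e := by
  have hp : p.Prime := Fact.out
  obtain ⟨n, hn⟩ := (IsPGroup.iff_card.1 (hE.to_subgroup A1))
  obtain ⟨m, hm⟩ := (IsPGroup.iff_card.1 hE)
  have hlt : n < m := by
    have h1 : Nat.card A1 ≠ Nat.card E := by
      intro h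
      exact hA (Subgroup.eq_top_of_card_eq A1 h)
    have h2 : Nat.card A1 ∣ Nat.card E := Subgroup.card_subgroup_dvd_card A1
    rw [hn, hm] at h1 h2
    have h3 := (Nat.pow_dvd_pow_iff_le_right hp.one_lt).1 h2
    rcases h3.lt_or_eq with h | h
    · exact h
    · exact absurd (by rw [h]) h1
  obtain ⟨K, hK, hle⟩ := Sylow.exists_subgroup_card_pow_succ (p := p) (n := n) (H := A1)
    (by rw [hm]; exact pow_dvd_pow p hlt) hn
  have hc : Nat.card (A1.subgroupOf K) = p ^ n := by
    rw [← hn]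
    exact Nat.card_congr (Subgroup.subgroupOfEquivOfLe hle).toEquiv
  have hidx : (A1.subgroupOf K).index = p := by
    have h := Subgroup.card_mul_index (A1.subgroupOf K)
    rw [hc, hK, pow_succ] at h
    exact Nat.eq_of_mul_eq_mul_left (pow_pos hp.pos n) h
  have hN : (A1.subgroupOf K).Normal := by
    apply Subgroup.normal_of_index_eq_minFac_card
    rw [hidx, hK, Nat.Prime.pow_minFac hp (Nat.succ_ne_zero n)]
  have hex : ∃ e ∈ K, e ∉ A1 := by
    by_contra hcon
    push Not at hcon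
    have : K = A1 := le_antisymm hcon hle
    rw [this, hn] at hK
    have := Nat.pow_right_injective hp.two_le hK
    omega
  obtain ⟨e, heK, he⟩ := hex
  exact ⟨K, e, step_of_index hle hN hidx heK he⟩

variable {M : Type} [Field M] [NumberField M] {E : Type} [Group E] [MulSemiringAction E M]

/-- The solution over the kernel of the action. -/
theorem sol_base {p : ℕ} {Z : Subgroup E} {ι : Z →* Mˣ} (hC : Cen p M E Z ι) :
    ∃ b : E → Mˣ, Sol ι Z b := by
  classical
  have hval : ∀ (g : E) (hg : g ∈ Z),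
      (if h : g ∈ Z then ι ⟨g, h⟩ else 1) = ι ⟨g, hg⟩ := by
    intro g hg
    exact dif_pos hg
  refine ⟨fun g => if h : g ∈ Z then ι ⟨g, h⟩ else 1, ?_, ?_⟩
  · intro g hg h hh
    rw [hval (g * h) (Z.mul_mem hg hh), hval g hg, hval h hh]
    have hact : g • ι ⟨h, hh⟩ = ι ⟨h, hh⟩ := by
      apply Units.ext
      rw [coe_act]
      exact hC.fix g _
    rw [hact, ← map_mul]
    rfl
  · intro z
    exact hval z z.2

/- PROOF. Choose a subgroup A1 ≥ Z maximal with ∃ b, Sol ι A1 b (for A1 = Z: b z = ι z, extended by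
1; Z acts trivially). If A1 ≠ ⊤, exists_step and bhn_step give a larger one (e ∉ A1 by Step.min 1). -/
theorem bhn_of_local {p : ℕ} [Fact p.Prime] (hp : p ≠ 2) [Finite E] {Z : Subgroup E} {ι : Z →* Mˣ}
    (hC : Cen p M E Z ι)
    (hloc : ∀ w : HeightOneSpectrum (𝓞 M), ¬ Above w p → ∃ β : E → Mˣ, LocSol ι w β) :
    ∃ b : E → Mˣ, Sol ι ⊤ b := by
  have hpp : p.Prime := Fact.out
  let S : Set (Subgroup E) := {A | Z ≤ A ∧ ∃ b : E → Mˣ, Sol ι A b}
  have hne : S.Nonempty := ⟨Z, le_refl Z, sol_base hC⟩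
  obtain ⟨A1, ⟨hZ, hb⟩, hmax⟩ := (wellFounded_gt (α := Subgroup E)).has_min S hne
  by_cases hA : A1 = ⊤
  · rw [hA] at hb
    exact hb
  · exfalso
    obtain ⟨A, e, hS⟩ := exists_step hC.pg A1 hA
    have hb' := bhn_step hp hC hloc hS hZ hb
    refine hmax A ⟨hZ.trans hS.le, hb'⟩ ?_
    refine lt_of_le_of_ne hS.le ?_
    intro heq
    have h1 := hS.min 1 Nat.one_pos hpp.one_lt
    rw [pow_one, heq] at h1
    exact h1 hS.mem

end Pool.Agent.RG.E
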