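import Mathlib
import Pool.Agent.Lib.RG.E01

/-!
PART E, row E02: the version of `ext_exact` modulo a subgroup `N` of `V`.
-/

set_option autoImplicit false

namespace Pool.Agent.RG.E

/-- the action of one element of `A` on the quotient `V ⧸ N` -/
private noncomputable def e02map {E V : Type} [Group E] [CommGroup V] [MulDistribMulAction E V]
    (A : Subgroup E) (N : Subgroup V) (hN : ∀ g ∈ A, ∀ v ∈ N, g • v ∈ N) (a : A) :
    V ⧸ N →* V ⧸ N :=
  QuotientGroup.map N N (MulDistribMulAction.toMonoidHom V (a : E))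
    (by intro v hv; exact hN a a.2 v hv)

private theorem e02map_mk {E V : Type} [Group E] [CommGroup V] [MulDistribMulAction E V]
    (A : Subgroup E) (N : Subgroup V) (hN : ∀ g ∈ A, ∀ v ∈ N, g • v ∈ N) (a : A) (v : V) :
    e02map A N hN a (v : V ⧸ N) = (((a : E) • v : V) : V ⧸ N) := rfl

/-- the action of `A` on the quotient `V ⧸ N` -/
private noncomputable abbrev e02act {E V : Type} [Group E] [CommGroup V] [MulDistribMulAction E V]
    (A : Subgroup E) (N : Subgroup V) (hN : ∀ g ∈ A, ∀ v ∈ N, g • v ∈ N) :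
    MulDistribMulAction A (V ⧸ N) where
  smul a v := e02map A N hN a v
  one_smul v := by
    induction v using QuotientGroup.induction_on with
    | H v =>
      show e02map A N hN 1 (v : V ⧸ N) = v
      rw [e02map_mk, OneMemClass.coe_one, one_smul]
  mul_smul a b v := by
    induction v using QuotientGroup.induction_on with
    | H v =>
      show e02map A N hN (a * b) (v : V ⧸ N) = e02map A N hN a (e02map A N hN b (v : V ⧸ N))
      rw [e02map_mk, e02map_mk, e02map_mk, Subgroup.coe_mul, mul_smul]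
  smul_mul a v w := map_mul (e02map A N hN a) v w
  smul_one a := map_one (e02map A N hN a)

theorem ext_mod {E V : Type} [Group E] [CommGroup V] [MulDistribMulAction E V]
    {n : ℕ} {A A1 : Subgroup E} {e : E} (hS : Step n A A1 e) (N : Subgroup V)
    (hN : ∀ g ∈ A, ∀ v ∈ N, g • v ∈ N) (b1 : E → V)
    (hb1 : ∀ g ∈ A1, ∀ h ∈ A1, b1 (g * h) / (b1 g * g • b1 h) ∈ N)
    (β : V) (hrel : ∀ x ∈ A1, b1 (e * x * e⁻¹) * (e * x * e⁻¹) • β / (β * e • b1 x) ∈ N)
    (hpow : b1 (e ^ n) / ∏ i ∈ Finset.range n, e ^ i • β ∈ N) :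
    ∃ b : E → V, (∀ g ∈ A, ∀ h ∈ A, b (g * h) / (b g * g • b h) ∈ N) ∧
      ∀ i : ℕ, ∀ x ∈ A1,
        b (e ^ i * x) / ((∏ k ∈ Finset.range i, e ^ k • β) * e ^ i • b1 x) ∈ N := by
  letI : MulDistribMulAction A (V ⧸ N) := e02act A N hN
  have hsm : ∀ (a : A) (v : V), a • (v : V ⧸ N) = (((a : E) • v : V) : V ⧸ N) := fun a v => rfl
  set e' : A := ⟨e, hS.mem⟩ with he'
  have hpowe : ∀ i : ℕ, ((e' ^ i : A) : E) = e ^ i := fun i => by rw [Subgroup.coe_pow]
  have hS' : Step n (⊤ : Subgroup A) (A1.subgroupOf A) e' := by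
    refine ⟨hS.pos, le_top, Subgroup.mem_top _, ?_, ?_, ?_, ?_⟩
    · rw [Subgroup.mem_subgroupOf, hpowe]
      exact hS.pow
    · intro i h0 h1 h2
      rw [Subgroup.mem_subgroupOf, hpowe] at h2
      exact hS.min i h0 h1 h2
    · intro a _ x hx
      rw [Subgroup.mem_subgroupOf] at hx ⊢
      exact hS.norm a a.2 x hx
    · intro g _
      obtain ⟨i, hi, x, hx, hg⟩ := hS.gen g g.2
      refine ⟨i, hi, ⟨x, hS.le hx⟩, ?_, ?_⟩
      · rw [Subgroup.mem_subgroupOf]
        exact hx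
      · apply Subtype.ext
        rw [Subgroup.coe_mul, hpowe]
        exact hg
  have hprod : ∀ i : ℕ, ((∏ k ∈ Finset.range i, e ^ k • β : V) : V ⧸ N) =
      ∏ k ∈ Finset.range i, e' ^ k • (β : V ⧸ N) := by
    intro i
    rw [← QuotientGroup.mk'_apply, map_prod]
    refine Finset.prod_congr rfl fun k _ => ?_
    rw [hsm, hpowe]
    rfl
  obtain ⟨b', hb', hb''⟩ := ext_exact hS' (fun g => (b1 g : V ⧸ N))
    (by
      intro g hg h hh
      rw [Subgroup.mem_subgroupOf] at hg hh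
      have := hb1 g hg h hh
      rw [← QuotientGroup.eq_iff_div_mem] at this
      exact this)
    (β : V ⧸ N)
    (by
      intro x hx
      rw [Subgroup.mem_subgroupOf] at hx
      have := hrel x hx
      rw [← QuotientGroup.eq_iff_div_mem] at this
      exact this)
    (by
      show ((b1 ((e' ^ n : A) : E) : V) : V ⧸ N) = _
      rw [← hprod, hpowe, QuotientGroup.eq_iff_div_mem]
      exact hpow)
  classical
  set b : E → V := fun g => if h : g ∈ A then (b' ⟨g, h⟩).out else 1 with hb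
  have hbA : ∀ (g : E) (h : g ∈ A), ((b g : V) : V ⧸ N) = b' ⟨g, h⟩ := by
    intro g h
    rw [hb]
    simp only [dif_pos h]
    exact QuotientGroup.out_eq' _
  refine ⟨b, ?_, ?_⟩
  · intro g hg h hh
    rw [← QuotientGroup.eq_iff_div_mem]
    show ((b (g * h) : V) : V ⧸ N) = ((b g : V) : V ⧸ N) * ((g • b h : V) : V ⧸ N)
    rw [hbA _ (A.mul_mem hg hh), hbA g hg]
    have h1 : ((g • b h : V) : V ⧸ N) = (⟨g, hg⟩ : A) • ((b h : V) : V ⧸ N) := rfl
    rw [h1, hbA h hh]
    exact hb' ⟨g, hg⟩ (Subgroup.mem_top _) ⟨h, hh⟩ (Subgroup.mem_top _)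
  · intro i x hx
    rw [← QuotientGroup.eq_iff_div_mem]
    show ((b (e ^ i * x) : V) : V ⧸ N) = ((∏ k ∈ Finset.range i, e ^ k • β : V) : V ⧸ N) *
      ((e ^ i • b1 x : V) : V ⧸ N)
    have hxA := hS.le hx
    rw [hbA _ (A.mul_mem (A.pow_mem hS.mem i) hxA), hprod]
    have h1 := hb'' i ⟨x, hxA⟩ (by rw [Subgroup.mem_subgroupOf]; exact hx)
    have h2 : (⟨e ^ i * x, A.mul_mem (A.pow_mem hS.mem i) hxA⟩ : A) = e' ^ i * ⟨x, hxA⟩ := by
      apply Subtype.ext
      rw [Subgroup.coe_mul, hpowe]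
    rw [h2, h1, hsm, hpowe]

end Pool.Agent.RG.E
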