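import Mathlib
import Pool.Agent.Lib.RG.EDefs

/-!
PART E, row E16: norms and roots in the residue field.
-/

set_option autoImplicit false

namespace Pool.Agent.RG.E

open NumberField IsDedekindDomain

/- PROOF. Every ring automorphism of a finite field k of characteristic q is a power of Frobenius;
the fixed field k0 of F has Q elements, |k| = Q ^ n (n = order of F = [k : k0], Artin), the F^i, i < n,
are all the automorphisms over k0, i.e. x ↦ x ^ (Q ^ i), so ∏ F^i b = b ^ ((Q^n - 1)/(Q - 1)), and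
kˣ is cyclic of order Q^n - 1, cˣ of order dividing Q - 1. (Mathlib may know that the norm of finite
fields is surjective; then use K = fixed field, Algebra.norm_eq_prod_automorphisms.) -/
theorem ff_norm {k : Type} [Field k] [Finite k] (F : k ≃+* k) (n : ℕ) (hn : 0 < n)
    (hF : ∀ x : k, (⇑F)^[n] x = x) (hmin : ∀ i : ℕ, 0 < i → i < n → ∃ x : k, (⇑F)^[i] x ≠ x)
    (c : k) (hc : F c = c) : ∃ b : k, ∏ i ∈ Finset.range n, (⇑F)^[i] b = c := by
  classical
  have hpow : ∀ (i : ℕ) (x : k), ((F : RingAut k) ^ i) x = (⇑F)^[i] x := by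
    intro i
    induction i with
    | zero => intro x; rfl
    | succ i ih =>
      intro x
      rw [pow_succ, Function.iterate_succ_apply, ← ih]
      rfl
  have hord : orderOf (F : RingAut k) = n := by
    rw [orderOf_eq_iff hn]
    constructor
    · ext x
      rw [hpow, hF]
      rfl
    · intro m hm hm0 h1
      obtain ⟨x, hx⟩ := hmin m hm0 hm
      apply hx
      rw [← hpow, h1]
      rfl
  have hfin : IsOfFinOrder (F : RingAut k) := by
    rw [← orderOf_pos_iff, hord]
    exact hn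
  let G : Subgroup (RingAut k) := Subgroup.zpowers (F : RingAut k)
  have hG : Finite G := Finite.of_equiv _ (finEquivZPowers hfin)
  let K0 := FixedPoints.subfield G k
  have hle : G ≤ MulAction.stabilizer (RingAut k) c := by
    rw [Subgroup.zpowers_le]
    exact hc
  have hcK : c ∈ K0 := by
    intro g
    exact hle g.2
  obtain ⟨b, hb⟩ := FiniteField.norm_surjective K0 k ⟨c, hcK⟩
  refine ⟨b, ?_⟩
  have h1 := Algebra.norm_eq_prod_automorphisms K0 b
  rw [hb] at h1
  have h2 : algebraMap K0 k ⟨c, hcK⟩ = c := rfl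
  rw [h2] at h1
  rw [h1, ← hord, Finset.prod_range]
  let e : Fin (orderOf (F : RingAut k)) ≃ Gal(k/K0) :=
    (finEquivZPowers hfin).trans (FixedPoints.toAlgAutMulEquiv G k).toEquiv
  refine Fintype.prod_equiv e _ _ (fun i => ?_)
  rw [← hpow]
  rfl

variable {M : Type} [Field M] [NumberField M] {E : Type} [Group E] [MulSemiringAction E M]

/-- the residue class of an element of value at most one -/
noncomputable def E16_res (w : HeightOneSpectrum (𝓞 M)) (y : M) (hy : w.valuation M y ≤ 1) :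
    IsLocalRing.ResidueField (w.valuation M).valuationSubring :=
  IsLocalRing.residue (w.valuation M).valuationSubring ⟨y, hy⟩

theorem E16_res_eq_zero (w : HeightOneSpectrum (𝓞 M)) (y : M) (hy : w.valuation M y ≤ 1) :
    E16_res w y hy = 0 ↔ w.valuation M y < 1 := by
  unfold E16_res
  rw [IsLocalRing.residue_eq_zero_iff, Valuation.mem_maximalIdeal_iff]

theorem E16_res_eq_iff (w : HeightOneSpectrum (𝓞 M)) (y z : M) (hy : w.valuation M y ≤ 1)
    (hz : w.valuation M z ≤ 1) :
    E16_res w y hy = E16_res w z hz ↔ w.valuation M (y - z) < 1 := by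
  have hyz : w.valuation M (y - z) ≤ 1 := (Valuation.map_sub _ _ _).trans (max_le hy hz)
  rw [← E16_res_eq_zero w _ hyz]
  have e : E16_res w (y - z) hyz = E16_res w y hy - E16_res w z hz := by
    unfold E16_res
    rw [← map_sub]
    rfl
  rw [e, sub_eq_zero]

theorem E16_res_one (w : HeightOneSpectrum (𝓞 M)) (h : w.valuation M (1 : M) ≤ 1) :
    E16_res w 1 h = 1 := by
  unfold E16_res
  rw [← map_one (IsLocalRing.residue (w.valuation M).valuationSubring)]
  rfl

theorem E16_res_pow (w : HeightOneSpectrum (𝓞 M)) (y : M) (n : ℕ) (hy : w.valuation M y ≤ 1)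
    (h : w.valuation M (y ^ n) ≤ 1) :
    E16_res w (y ^ n) h = E16_res w y hy ^ n := by
  unfold E16_res
  rw [← map_pow]
  rfl

theorem E16_res_surj (w : HeightOneSpectrum (𝓞 M))
    (b : IsLocalRing.ResidueField (w.valuation M).valuationSubring) :
    ∃ (y : M) (hy : w.valuation M y ≤ 1), E16_res w y hy = b := by
  obtain ⟨y, hy⟩ := IsLocalRing.residue_surjective b
  exact ⟨y.1, y.2, hy⟩

theorem E16_res_prod (w : HeightOneSpectrum (𝓞 M)) {κ : Type} (s : Finset κ) (y : κ → M)
    (hy : ∀ i, w.valuation M (y i) ≤ 1) (h : w.valuation M (∏ i ∈ s, y i) ≤ 1) :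
    E16_res w (∏ i ∈ s, y i) h = ∏ i ∈ s, E16_res w (y i) (hy i) := by
  unfold E16_res
  rw [← map_prod]
  congr 1
  apply Subtype.ext
  simp

theorem E16_unit (w : HeightOneSpectrum (𝓞 M)) (y : M) (hy : w.valuation M y ≤ 1)
    (h : E16_res w y hy ≠ 0) : w.valuation M y = 1 := by
  rw [Ne, E16_res_eq_zero, not_lt] at h
  exact le_antisymm hy h

instance E16_finite (w : HeightOneSpectrum (𝓞 M)) :
    Finite (IsLocalRing.ResidueField (w.valuation M).valuationSubring) := by
  have hq : Finite (𝓞 M ⧸ w.asIdeal) := Ideal.finiteQuotientOfFreeOfNeBot w.asIdeal w.ne_bot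
  have hint : ∀ a : 𝓞 M, w.valuation M (algebraMap (𝓞 M) M a) ≤ 1 :=
    fun a => w.valuation_le_one (K := M) a
  let f : (𝓞 M ⧸ w.asIdeal) → IsLocalRing.ResidueField (w.valuation M).valuationSubring :=
    fun a => E16_res w (algebraMap (𝓞 M) M (Quotient.out a)) (hint _)
  refine Finite.of_surjective f ?_
  intro b
  obtain ⟨y, hy, rfl⟩ := E16_res_surj w b
  obtain ⟨a, ha⟩ := w.exists_valuation_sub_lt_of_integer hy 1
  rw [Units.val_one] at ha
  refine ⟨Ideal.Quotient.mk w.asIdeal a, ?_⟩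
  rw [E16_res_eq_iff]
  have h1 : a - Quotient.out (Ideal.Quotient.mk w.asIdeal a) ∈ w.asIdeal := by
    rw [← Ideal.Quotient.eq_zero_iff_mem, map_sub, sub_eq_zero]
    exact (Ideal.Quotient.mk_out (Ideal.Quotient.mk w.asIdeal a)).symm
  have h2 : w.valuation M (algebraMap (𝓞 M) M
      (a - Quotient.out (Ideal.Quotient.mk w.asIdeal a))) < 1 :=
    (HeightOneSpectrum.valuation_lt_one_iff_mem (K := M) w _).mpr h1
  have e : algebraMap (𝓞 M) M (Quotient.out (Ideal.Quotient.mk w.asIdeal a)) - y =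
      (algebraMap (𝓞 M) M a - y) - algebraMap (𝓞 M) M
        (a - Quotient.out (Ideal.Quotient.mk w.asIdeal a)) := by
    rw [map_sub]; ring
  rw [e]
  exact Valuation.map_sub_lt _ ha h2

theorem E16_dec_inv {w : HeightOneSpectrum (𝓞 M)} {g : E} (hg : IsDec w g) : IsDec w g⁻¹ := by
  intro x
  have h := hg (g⁻¹ • x)
  rw [smul_inv_smul] at h
  exact h.symm

theorem E16_dec_pow {w : HeightOneSpectrum (𝓞 M)} {g : E} (hg : IsDec w g) (i : ℕ) :
    IsDec w (g ^ i) := by
  induction i with
  | zero => intro x; rw [pow_zero, one_smul]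
  | succ i ih => intro x; rw [pow_succ, mul_smul, ih, hg]

/-- the action of an element of the decomposition group on the valuation ring -/
noncomputable def E16_act (w : HeightOneSpectrum (𝓞 M)) (g : E) (hg : IsDec w g) :
    (w.valuation M).valuationSubring ≃+* (w.valuation M).valuationSubring where
  toFun y := ⟨g • (y : M), by
    change w.valuation M (g • (y : M)) ≤ 1
    rw [hg]
    exact y.2⟩
  invFun y := ⟨g⁻¹ • (y : M), by
    change w.valuation M (g⁻¹ • (y : M)) ≤ 1
    rw [E16_dec_inv hg]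
    exact y.2⟩
  left_inv y := Subtype.ext (inv_smul_smul g (y : M))
  right_inv y := Subtype.ext (smul_inv_smul g (y : M))
  map_mul' y z := Subtype.ext (smul_mul' g (y : M) (z : M))
  map_add' y z := Subtype.ext (smul_add g (y : M) (z : M))

/-- the action of an element of the decomposition group on the residue field -/
noncomputable def E16_bar (w : HeightOneSpectrum (𝓞 M)) (g : E) (hg : IsDec w g) :
    IsLocalRing.ResidueField (w.valuation M).valuationSubring ≃+*
      IsLocalRing.ResidueField (w.valuation M).valuationSubring :=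
  IsLocalRing.ResidueField.mapEquiv (E16_act w g hg)

theorem E16_bar_res (w : HeightOneSpectrum (𝓞 M)) (g : E) (hg : IsDec w g) (y : M)
    (hy : w.valuation M y ≤ 1) (hy' : w.valuation M (g • y) ≤ 1) :
    E16_bar w g hg (E16_res w y hy) = E16_res w (g • y) hy' := rfl

theorem E16_bar_iter (w : HeightOneSpectrum (𝓞 M)) (g : E) (hg : IsDec w g) (i : ℕ) :
    ∀ (y : M) (hy : w.valuation M y ≤ 1) (hy' : w.valuation M (g ^ i • y) ≤ 1),
    (⇑(E16_bar w g hg))^[i] (E16_res w y hy) = E16_res w (g ^ i • y) hy' := by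
  induction i with
  | zero =>
    intro y hy hy'
    rw [Function.iterate_zero, id]
    congr 1
    rw [pow_zero, one_smul]
  | succ i ih =>
    intro y hy hy'
    have h1 : w.valuation M (g ^ i • y) ≤ 1 := by
      rw [E16_dec_pow hg]; exact hy
    have h2 : w.valuation M (g • (g ^ i • y)) ≤ 1 := by
      rw [hg]; exact h1
    rw [Function.iterate_succ_apply', ih y hy h1, E16_bar_res w g hg _ h1 h2]
    congr 1
    rw [pow_succ', mul_smul]

theorem E16_iter_id (w : HeightOneSpectrum (𝓞 M)) (g : E) (hg : IsDec w g) (i : ℕ) :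
    (∀ b, (⇑(E16_bar w g hg))^[i] b = b) ↔ IsInert w (g ^ i) := by
  constructor
  · intro h
    refine ⟨E16_dec_pow hg i, fun x hx => ?_⟩
    have hx' : w.valuation M (g ^ i • x) ≤ 1 := by
      rw [E16_dec_pow hg]; exact hx
    have h1 := h (E16_res w x hx)
    rw [E16_bar_iter w g hg i x hx hx', E16_res_eq_iff] at h1
    exact h1
  · intro h b
    obtain ⟨y, hy, rfl⟩ := E16_res_surj w b
    have hy' : w.valuation M (g ^ i • y) ≤ 1 := by
      rw [E16_dec_pow hg]; exact hy
    rw [E16_bar_iter w g hg i y hy hy', E16_res_eq_iff]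
    exact h.2 y hy

/-- congruence of units in terms of the residue field -/
theorem E16_div_mem (w : HeightOneSpectrum (𝓞 M)) (c d : Mˣ)
    (hc : w.valuation M (c : M) = 1) (hd : w.valuation M (d : M) = 1) :
    c / d ∈ U1 w ↔ E16_res w (c : M) hc.le = E16_res w (d : M) hd.le := by
  rw [mem_U1, E16_res_eq_iff]
  have h0 : (d : M) ≠ 0 := d.ne_zero
  have e : ((c / d : Mˣ) : M) - 1 = ((c : M) - (d : M)) / (d : M) := by
    rw [Units.val_div_eq_div_val]
    field_simp
  rw [e, map_div₀, hd, div_one]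

/- PROOF. Apply ff_norm to k = 𝓞 M ⧸ w (finite) or the residue field of the valuation subring, with
the automorphism induced by F. -/
theorem exists_norm_mod (w : HeightOneSpectrum (𝓞 M)) (F : E) (hF : IsDec w F) (n : ℕ)
    (hn : 0 < n) (hFn : IsInert w (F ^ n)) (hmin : ∀ i : ℕ, 0 < i → i < n → ¬ IsInert w (F ^ i))
    (c : Mˣ) (hc : w.valuation M (c : M) = 1) (hFc : (F • c) / c ∈ U1 w) :
    ∃ u : Mˣ, w.valuation M (u : M) = 1 ∧ c / ∏ i ∈ Finset.range n, F ^ i • u ∈ U1 w := by
  have hFc1 : w.valuation M ((F • c : Mˣ) : M) = 1 := by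
    rw [coe_act, hF]; exact hc
  have h1 : E16_bar w F hF (E16_res w (c : M) hc.le) = E16_res w (c : M) hc.le := by
    rw [E16_div_mem w _ _ hFc1 hc] at hFc
    exact (E16_bar_res w F hF (c : M) hc.le hFc1.le).trans hFc
  obtain ⟨b, hb⟩ := ff_norm (E16_bar w F hF) n hn ((E16_iter_id w F hF n).mpr hFn)
    (by
      intro i hi hin
      by_contra hcon
      push Not at hcon
      exact hmin i hi hin ((E16_iter_id w F hF i).mp hcon)) _ h1
  obtain ⟨y, hy, rfl⟩ := E16_res_surj w b
  have hc0 : E16_res w (c : M) hc.le ≠ 0 := by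
    rw [Ne, E16_res_eq_zero, hc]
    exact lt_irrefl _
  have hb0 : E16_res w y hy ≠ 0 := by
    intro h0
    apply hc0
    rw [← hb]
    refine Finset.prod_eq_zero (Finset.mem_range.mpr hn) ?_
    rw [Function.iterate_zero, id]
    exact h0
  have hy1 : w.valuation M y = 1 := E16_unit w y hy hb0
  have hy0 : y ≠ 0 := by
    intro h0
    rw [h0, map_zero] at hy1
    exact zero_ne_one hy1
  have hval : ∀ i : ℕ, w.valuation M (F ^ i • y) = 1 := by
    intro i
    rw [E16_dec_pow hF, hy1]
  have hcoe : ((∏ i ∈ Finset.range n, F ^ i • (Units.mk0 y hy0) : Mˣ) : M) =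
      ∏ i ∈ Finset.range n, F ^ i • y := by
    rw [Units.coe_prod]
    rfl
  have hprod : w.valuation M ((∏ i ∈ Finset.range n, F ^ i • (Units.mk0 y hy0) : Mˣ) : M) = 1 := by
    rw [hcoe, map_prod]
    exact Finset.prod_eq_one (fun i _ => hval i)
  refine ⟨Units.mk0 y hy0, hy1, ?_⟩
  rw [E16_div_mem w _ _ hc hprod, ← hb]
  have h2 : E16_res w ((∏ i ∈ Finset.range n, F ^ i • (Units.mk0 y hy0) : Mˣ) : M) hprod.le =
      E16_res w (∏ i ∈ Finset.range n, F ^ i • y) (by rw [← hcoe]; exact hprod.le) := by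
    congr 1
  rw [h2, E16_res_prod w _ _ (fun i => (hval i).le)]
  refine Finset.prod_congr rfl (fun i _ => ?_)
  exact E16_bar_iter w F hF i y hy (hval i).le

theorem E16_cyclic_root {C : Type} [CommGroup C] [IsCyclic C] [Finite C] {j p : ℕ}
    (hp : 0 < p) (h : j * p ∣ Nat.card C) (c : C) (hc : c ^ p = 1) : ∃ u : C, u ^ j = c := by
  obtain ⟨g, hg⟩ := IsCyclic.exists_monoid_generator (α := C)
  obtain ⟨a, ha⟩ := hg c
  have ha' : g ^ a = c := ha
  have hord : orderOf g = Nat.card C := by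
    refine orderOf_eq_card_of_forall_mem_zpowers (fun x => ?_)
    obtain ⟨b, hb⟩ := hg x
    have hb' : g ^ b = x := hb
    rw [← hb']
    exact Subgroup.npow_mem_zpowers g b
  have h1 : orderOf g ∣ a * p := by
    rw [orderOf_dvd_iff_pow_eq_one, pow_mul, ha', hc]
  rw [hord] at h1
  obtain ⟨b, hb⟩ := Nat.dvd_of_mul_dvd_mul_right hp (h.trans h1)
  refine ⟨g ^ b, ?_⟩
  rw [← pow_mul, mul_comm b j, ← hb, ha']

theorem E16_conj_pow {C : Type} [Group C] {s t : C} {q : ℕ} (h : s * t * s⁻¹ = t ^ q) (i : ℕ) :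
    s ^ i * t * (s ^ i)⁻¹ = t ^ (q ^ i) := by
  induction i with
  | zero => simp
  | succ i ih =>
    have e : s ^ (i + 1) * t * (s ^ (i + 1))⁻¹ = s * (s ^ i * t * (s ^ i)⁻¹) * s⁻¹ := by
      rw [pow_succ']; group
    rw [e, ih, ← conj_pow, h, ← pow_mul, pow_succ']

theorem E16_order {C : Type} [Group C] [Finite C] {p : ℕ} [Fact p.Prime] (t : C)
    (Z : Subgroup C) (hZ : Nat.card Z = p) (j : ℕ) (hj : 0 < j) (htj : t ^ j ∈ Z)
    (hmin : ∀ i : ℕ, 0 < i → i < j → t ^ i ∉ Z) (hne : t ^ j ≠ 1) : j * p = orderOf t := by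
  have hdvd : j ∣ orderOf t := by
    rw [Nat.dvd_iff_mod_eq_zero]
    by_contra hr
    have h1 : t ^ (orderOf t % j) ∈ Z := by
      have h2 : t ^ (j * (orderOf t / j)) * t ^ (orderOf t % j) = 1 := by
        rw [← pow_add, Nat.div_add_mod, pow_orderOf_eq_one]
      rw [pow_mul] at h2
      have h3 : t ^ (orderOf t % j) = ((t ^ j) ^ (orderOf t / j))⁻¹ := eq_inv_of_mul_eq_one_right h2
      rw [h3]
      exact Z.inv_mem (Z.pow_mem htj _)
    exact hmin _ (Nat.pos_of_ne_zero hr) (Nat.mod_lt _ hj) h1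
  have h1 : orderOf (t ^ j) = orderOf t / j := orderOf_pow_of_dvd hj.ne' hdvd
  have h2 : orderOf (t ^ j) = p := by
    have h3 : orderOf (⟨t ^ j, htj⟩ : Z) ∣ p := by
      rw [← hZ]; exact orderOf_dvd_natCard _
    rw [Subgroup.orderOf_mk] at h3
    rcases (Nat.dvd_prime (Fact.out : p.Prime)).mp h3 with h4 | h4
    · exact absurd (orderOf_eq_one_iff.mp h4) hne
    · exact h4
  rw [← h2, h1, Nat.mul_div_cancel' hdvd]

/- PROOF. k = residue field, |k| = q ^ f. s ^ f acts trivially on k, so it is inert, it commutes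
with t (hcomm), hence t ^ (q ^ f) = t, t ^ (q ^ f - 1) = 1. If c ∈ U1 w take u = 1. Otherwise c has
order p modulo U1 w, t ^ j ≠ 1 has order p (by hord), so the order of t is j * p (j is the minimal
exponent for a subgroup not containing t^i, hmin), j p | q ^ f - 1 = |kˣ|, kˣ cyclic, so c is a j-th
power. -/
theorem exists_root_mod [Finite E] {p q : ℕ} [Fact p.Prime] (hq : q.Prime)
    (w : HeightOneSpectrum (𝓞 M)) (hwq : Above w q) (s t : E) (hs : IsFrob w q s)
    (hst : s * t * s⁻¹ = t ^ q) (hcomm : ∀ g : E, IsInert w g → g * t = t * g)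
    (Z : Subgroup E) (hZ : Nat.card Z = p) (j : ℕ) (hj : 0 < j) (htj : t ^ j ∈ Z)
    (hmin : ∀ i : ℕ, 0 < i → i < j → t ^ i ∉ Z)
    (c : Mˣ) (hc : c ^ p = 1) (hc1 : t ^ j = 1 → c = 1) :
    ∃ u : Mˣ, w.valuation M (u : M) = 1 ∧ c / u ^ j ∈ U1 w := by
  classical
  by_cases hcU : c ∈ U1 w
  · refine ⟨1, by rw [Units.val_one, map_one], ?_⟩
    rw [one_pow, div_one]
    exact hcU
  have htne : t ^ j ≠ 1 := by
    intro h
    apply hcU
    rw [hc1 h]
    exact (U1 w).one_mem
  have hvc : w.valuation M (c : M) = 1 := by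
    have h1 : w.valuation M (c : M) ^ p = 1 := by
      rw [← map_pow, ← Units.val_pow_eq_pow_val, hc, Units.val_one, map_one]
    exact (pow_eq_one_iff.mp h1).resolve_right (Fact.out : p.Prime).ne_zero
  let k := IsLocalRing.ResidueField (w.valuation M).valuationSubring
  let _ : Fintype k := Fintype.ofFinite k
  have hqle : w.valuation M ((q : ℕ) : M) ≤ 1 := le_of_lt hwq
  have hqk : ((q : ℕ) : k) = 0 := by
    have h1 : E16_res w ((q : ℕ) : M) hqle = 0 := (E16_res_eq_zero w _ hqle).mpr hwq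
    rw [← h1]
    unfold E16_res
    rw [← map_natCast (IsLocalRing.residue (w.valuation M).valuationSubring)]
    rfl
  have hchar : CharP k q := (CharP.charP_iff_prime_eq_zero hq).mpr hqk
  obtain ⟨f, -, hf⟩ := FiniteField.card k q
  have hbar : ∀ b : k, E16_bar w s hs.1 b = b ^ q := by
    intro b
    obtain ⟨y, hy, rfl⟩ := E16_res_surj w b
    have hy' : w.valuation M (s • y) ≤ 1 := by rw [hs.1]; exact hy
    have hyq : w.valuation M (y ^ q) ≤ 1 := by
      rw [map_pow]; exact pow_le_one' hy q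
    rw [E16_bar_res w s hs.1 y hy hy', ← E16_res_pow w y q hy hyq, E16_res_eq_iff]
    exact hs.2 y hy
  have hiter : ∀ (i : ℕ) (b : k), (⇑(E16_bar w s hs.1))^[i] b = b ^ (q ^ i) := by
    intro i
    induction i with
    | zero => intro b; rw [Function.iterate_zero, id, pow_zero, pow_one]
    | succ i ih =>
      intro b
      rw [Function.iterate_succ_apply', ih, hbar, ← pow_mul, pow_succ]
  have hinert : IsInert w (s ^ (f : ℕ)) := by
    rw [← E16_iter_id w s hs.1]
    intro b
    rw [hiter, ← hf, FiniteField.pow_card]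
  have hq1 : 1 ≤ q ^ (f : ℕ) := Nat.one_le_pow _ _ hq.pos
  have htq : t ^ (q ^ (f : ℕ) - 1) = 1 := by
    have h1 := E16_conj_pow hst (f : ℕ)
    rw [hcomm _ hinert, mul_assoc, mul_inv_cancel, mul_one] at h1
    have h2 : t ^ (q ^ (f : ℕ) - 1) * t = 1 * t := by
      rw [← pow_succ, Nat.sub_add_cancel hq1, ← h1, one_mul]
    exact mul_right_cancel h2
  have hjp : j * p ∣ Nat.card kˣ := by
    rw [E16_order t Z hZ j hj htj hmin htne, Nat.card_units, Nat.card_eq_fintype_card, hf]
    exact orderOf_dvd_of_pow_eq_one htq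
  have hc0 : E16_res w (c : M) hvc.le ≠ 0 := by
    rw [Ne, E16_res_eq_zero, hvc]
    exact lt_irrefl _
  have hcp : (Units.mk0 (E16_res w (c : M) hvc.le) hc0) ^ p = 1 := by
    ext
    rw [Units.val_pow_eq_pow_val, Units.val_mk0, Units.val_one]
    have hle : w.valuation M ((c : M) ^ p) ≤ 1 := by
      rw [map_pow, hvc, one_pow]
    rw [← E16_res_pow w (c : M) p hvc.le hle, ← E16_res_one w (by rw [map_one])]
    congr 1
    rw [← Units.val_pow_eq_pow_val, hc, Units.val_one]
  obtain ⟨ub, hub⟩ := E16_cyclic_root (Fact.out : p.Prime).pos hjp _ hcp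
  obtain ⟨y, hy, hyu⟩ := E16_res_surj w (ub : k)
  have hy1 : w.valuation M y = 1 := E16_unit w y hy (by rw [hyu]; exact ub.ne_zero)
  have hy0 : y ≠ 0 := by
    intro h0
    rw [h0, map_zero] at hy1
    exact zero_ne_one hy1
  have hyj : w.valuation M ((Units.mk0 y hy0 ^ j : Mˣ) : M) = 1 := by
    rw [Units.val_pow_eq_pow_val, map_pow, Units.val_mk0, hy1, one_pow]
  refine ⟨Units.mk0 y hy0, hy1, ?_⟩
  rw [E16_div_mem w _ _ hvc hyj]
  have h3 : (ub : k) ^ j = E16_res w (c : M) hvc.le := by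
    have h4 := congrArg (fun z : kˣ => (z : k)) hub
    simpa using h4
  rw [← h3, ← hyu, ← E16_res_pow w y j hy (by rw [map_pow, hy1, one_pow])]
  congr 1

end Pool.Agent.RG.E
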