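import Mathlib
import Pool.Agent.Lib.RG.EDefs
import Pool.Agent.Lib.RG.G02

/-!
PART E, row E17: the decomposition group modulo inertia is cyclic, generated by Frobenius.
-/

set_option autoImplicit false

namespace Pool.Agent.RG.E

open NumberField IsDedekindDomain

variable {M : Type} [Field M] [NumberField M] {E : Type} [Group E] [MulSemiringAction E M]

namespace E17aux

/-- the residue field -/
abbrev Res (w : HeightOneSpectrum (𝓞 M)) : Type := 𝓞 M ⧸ w.asIdeal

noncomputable instance resField (w : HeightOneSpectrum (𝓞 M)) : Field (Res w) :=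
  haveI : w.asIdeal.IsMaximal := w.isMaximal
  Ideal.Quotient.field w.asIdeal

instance resFinite (w : HeightOneSpectrum (𝓞 M)) : Finite (Res w) :=
  Ring.HasFiniteQuotients.finiteQuotient w.ne_bot

theorem coe_smul (g : E) (x : 𝓞 M) : ((g • x : 𝓞 M) : M) = g • (x : M) :=
  algebraMap.smul' g x M

theorem mem_iff (w : HeightOneSpectrum (𝓞 M)) (x : 𝓞 M) :
    x ∈ w.asIdeal ↔ w.valuation M (x : M) < 1 :=
  (HeightOneSpectrum.valuation_lt_one_iff_mem (K := M) w x).symm

/-- the action of an element of the decomposition group on the residue field -/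
noncomputable def act (w : HeightOneSpectrum (𝓞 M)) (g : decG E w) :
    Res w →+* Res w :=
  Ideal.quotientMap w.asIdeal (MulSemiringAction.toRingHom E (𝓞 M) (g : E)) (by
    intro x hx
    rw [Ideal.mem_comap, MulSemiringAction.toRingHom_apply, mem_iff, coe_smul,
      mem_decG.1 g.2]
    exact (mem_iff w x).1 hx)

theorem act_mk (w : HeightOneSpectrum (𝓞 M)) (g : decG E w) (x : 𝓞 M) :
    act w g (Ideal.Quotient.mk _ x) = Ideal.Quotient.mk _ ((g : E) • x) := rfl

/-- the homomorphism from the decomposition group to the Galois group of the residue field -/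
noncomputable def hom (q : ℕ) [Fact q.Prime] (w : HeightOneSpectrum (𝓞 M))
    [Algebra (ZMod q) (Res w)] : decG E w →* Gal(Res w/ZMod q) where
  toFun g :=
    { toFun := act w g
      invFun := act w g⁻¹
      left_inv := by
        intro x
        obtain ⟨x, rfl⟩ := Ideal.Quotient.mk_surjective x
        rw [act_mk, act_mk, Subgroup.coe_inv, inv_smul_smul]
      right_inv := by
        intro x
        obtain ⟨x, rfl⟩ := Ideal.Quotient.mk_surjective x
        rw [act_mk, act_mk, Subgroup.coe_inv, smul_inv_smul]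
      map_mul' := map_mul _
      map_add' := map_add _
      commutes' := by
        intro r
        have h : ((act w g).comp (algebraMap (ZMod q) (Res w)))
            = algebraMap (ZMod q) (Res w) := Subsingleton.elim _ _
        exact congrArg (fun f => f r) h }
  map_one' := by
    ext x
    obtain ⟨x, rfl⟩ := Ideal.Quotient.mk_surjective x
    change act w (1 : decG E w) (Ideal.Quotient.mk _ x) = _
    rw [act_mk, Subgroup.coe_one, one_smul]
    rfl
  map_mul' a b := by
    ext x
    obtain ⟨x, rfl⟩ := Ideal.Quotient.mk_surjective x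
    change act w (a * b) (Ideal.Quotient.mk _ x) =
      act w a (act w b (Ideal.Quotient.mk _ x))
    rw [act_mk, act_mk, act_mk, Subgroup.coe_mul, mul_smul]

theorem hom_mk (q : ℕ) [Fact q.Prime] (w : HeightOneSpectrum (𝓞 M))
    [Algebra (ZMod q) (Res w)] (g : decG E w) (x : 𝓞 M) :
    hom q w g (Ideal.Quotient.mk _ x) = Ideal.Quotient.mk _ ((g : E) • x) := rfl

theorem hom_eq_one_iff (q : ℕ) [Fact q.Prime] (w : HeightOneSpectrum (𝓞 M))
    [Algebra (ZMod q) (Res w)] (g : decG E w) :
    hom q w g = 1 ↔ IsInert w (g : E) := by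
  rw [isInert_iff_of_isDec g.2]
  constructor
  · intro h x
    have h1 : hom q w g (Ideal.Quotient.mk _ x) = Ideal.Quotient.mk _ x := by rw [h]; rfl
    rw [hom_mk, Ideal.Quotient.mk_eq_mk_iff_sub_mem, mem_iff] at h1
    rw [← coe_smul]
    simpa using h1
  · intro h
    ext x
    obtain ⟨x, rfl⟩ := Ideal.Quotient.mk_surjective x
    rw [hom_mk]
    change _ = Ideal.Quotient.mk _ x
    rw [Ideal.Quotient.mk_eq_mk_iff_sub_mem, mem_iff]
    have h1 := h x
    rw [← coe_smul] at h1
    simpa using h1

/-- the general step -/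
theorem step_of_gen [Finite E] (q : ℕ) [Fact q.Prime] (w : HeightOneSpectrum (𝓞 M))
    [Algebra (ZMod q) (Res w)] (F : decG E w)
    (hF : ∀ g : decG E w, hom q w g ∈ Subgroup.zpowers (hom q w F)) :
    ∃ n : ℕ, Step n (decG E w) (inertiaGroup E w) (F : E) := by
  classical
  have hfin : IsOfFinOrder (hom q w F) := isOfFinOrder_of_finite _
  refine ⟨orderOf (hom q w F), ?_⟩
  refine ⟨hfin.orderOf_pos, fun g hg => hg.1, F.2, ?_, ?_, ?_, ?_⟩
  · have h := (hom_eq_one_iff q w (F ^ orderOf (hom q w F))).1 (by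
      rw [map_pow, pow_orderOf_eq_one])
    exact h
  · intro i hi hin h
    have h1 := (hom_eq_one_iff q w (F ^ i)).2 h
    rw [map_pow] at h1
    exact absurd (orderOf_le_of_pow_eq_one hi h1) (not_le.2 hin)
  · intro a ha x hx
    exact IsInert.conj hx ha
  · intro g hg
    have h1 := hF ⟨g, hg⟩
    rw [← hfin.mem_powers_iff_mem_zpowers, hfin.mem_powers_iff_mem_range_orderOf] at h1
    obtain ⟨i, hi, hig⟩ := Finset.mem_image.1 h1
    rw [Finset.mem_range] at hi
    refine ⟨i, hi, (F : E) ^ (-(i : ℤ)) * g, ?_, by simp⟩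
    have h2 := (hom_eq_one_iff q w (F ^ (-(i : ℤ)) * ⟨g, hg⟩)).1 (by
      rw [map_mul, ← hig, map_zpow]
      simp)
    change IsInert w ((F : E) ^ (-(i : ℤ)) * g)
    simpa using h2

theorem charP_res {q : ℕ} (hq : q.Prime) (w : HeightOneSpectrum (𝓞 M)) (hwq : Above w q) :
    CharP (Res w) q := by
  have h0 : (q : Res w) = 0 := by
    have h1 : (q : 𝓞 M) ∈ w.asIdeal := by
      rw [mem_iff]
      simpa [Above] using hwq
    have h2 := Ideal.Quotient.eq_zero_iff_mem.2 h1
    simpa using h2
  exact (CharP.charP_iff_prime_eq_zero hq).2 h0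

end E17aux

open E17aux

/- PROOF. decG / inertiaGroup embeds into the group of ring automorphisms of the finite residue field
k = 𝓞 M ⧸ w, which is cyclic (Galois group of k over its prime field ZMod q). -/
theorem exists_dec_gen [Finite E] (w : HeightOneSpectrum (𝓞 M)) :
    ∃ (n : ℕ) (F : E), Step n (decG E w) (inertiaGroup E w) F := by
  obtain ⟨q, hq⟩ := CharP.exists (Res w)
  have : Fact q.Prime := ⟨CharP.char_is_prime (Res w) q⟩
  let _ : Algebra (ZMod q) (Res w) := ZMod.algebra _ q
  obtain ⟨y, hy⟩ := IsCyclic.exists_generator (α := (hom (E := E) q w).range)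
  obtain ⟨F, hF⟩ := y.2
  obtain ⟨n, hn⟩ := step_of_gen q w F (by
    intro g
    obtain ⟨i, hi⟩ := Subgroup.mem_zpowers_iff.1 (hy ⟨hom q w g, g, rfl⟩)
    rw [Subgroup.mem_zpowers_iff]
    refine ⟨i, ?_⟩
    rw [hF]
    simpa using congrArg Subtype.val hi)
  exact ⟨n, F, hn⟩

/- PROOF. Every automorphism of k is a power of the Frobenius x ↦ x ^ q, which is the action of s. -/
theorem step_frob [Finite E] {q : ℕ} (hq : q.Prime) (w : HeightOneSpectrum (𝓞 M))
    (hwq : Above w q) (s : E) (hs : IsFrob w q s) :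
    ∃ n : ℕ, Step n (decG E w) (inertiaGroup E w) s := by
  have : Fact q.Prime := ⟨hq⟩
  have : CharP (Res w) q := charP_res hq w hwq
  let _ : Algebra (ZMod q) (Res w) := ZMod.algebra _ q
  have hfr : hom q w (⟨s, hs.1⟩ : decG E w) =
      FiniteField.frobeniusAlgEquivOfAlgebraic (ZMod q) (Res w) := by
    ext x
    obtain ⟨x, rfl⟩ := Ideal.Quotient.mk_surjective x
    rw [hom_mk]
    have h1 := (isFrob_iff_of_isDec hs.1).1 hs x
    simp only [FiniteField.coe_frobeniusAlgEquivOfAlgebraic, ZMod.card]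
    rw [← map_pow, Ideal.Quotient.mk_eq_mk_iff_sub_mem, mem_iff]
    rw [← coe_smul] at h1
    simpa using h1
  obtain ⟨n, hn⟩ := step_of_gen q w (⟨s, hs.1⟩ : decG E w) (by
    intro g
    obtain ⟨i, hi⟩ := (FiniteField.bijective_frobeniusAlgEquivOfAlgebraic_pow
      (ZMod q) (Res w)).2 (hom q w g)
    rw [hfr, ← hi]
    exact Subgroup.npow_mem_zpowers _ _)
  exact ⟨n, hn⟩

end Pool.Agent.RG.E
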