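import Mathlib
import Pool.Agent.Lib.RG.E02
import Pool.Agent.Lib.RG.E08
import Pool.Agent.Lib.RG.E16
import Pool.Agent.Lib.RG.E17

/-!
PART E, row E18: local solutions.
-/

set_option autoImplicit false

namespace Pool.Agent.RG.E

open NumberField IsDedekindDomain

variable {M : Type} [Field M] [NumberField M] {E : Type} [Group E] [MulSemiringAction E M]

namespace E18aux

open scoped Classical in
/-- the cocycle `ι` on `Z`, extended by `1` -/
noncomputable def bZ {Z : Subgroup E} (ι : Z →* Mˣ) (g : E) : Mˣ :=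
  if h : g ∈ Z then ι ⟨g, h⟩ else 1

theorem bZ_mem {Z : Subgroup E} (ι : Z →* Mˣ) {g : E} (h : g ∈ Z) : bZ ι g = ι ⟨g, h⟩ :=
  dif_pos h

/-- the projection modulo `U1 w` -/
abbrev pr (w : HeightOneSpectrum (𝓞 M)) : Mˣ →* Mˣ ⧸ U1 w := QuotientGroup.mk' (U1 w)

theorem mem_iff_pr (w : HeightOneSpectrum (𝓞 M)) (x y : Mˣ) :
    x / y ∈ U1 w ↔ pr w x = pr w y :=
  (QuotientGroup.eq_iff_div_mem (N := U1 w)).symm

theorem smul_pr {w : HeightOneSpectrum (𝓞 M)} {g : E} (hg : IsDec w g) {x y : Mˣ}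
    (h : pr w x = pr w y) : pr w (g • x) = pr w (g • y) := by
  rw [← mem_iff_pr] at h ⊢
  have h1 := smul_mem_U1 hg h
  rwa [smul_div'] at h1

theorem mem_U1_of {w : HeightOneSpectrum (𝓞 M)} {x y : Mˣ} (hy : w.valuation M (y : M) = 1)
    (h : w.valuation M ((x : M) - (y : M)) < 1) : pr w x = pr w y := by
  rw [← mem_iff_pr, mem_U1]
  have e : ((x / y : Mˣ) : M) - 1 = ((x : M) - (y : M)) / (y : M) := by
    rw [Units.val_div_eq_div_val, sub_div, div_self y.ne_zero]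
  rw [e, map_div₀, hy, div_one]
  exact h

theorem inert_smul {w : HeightOneSpectrum (𝓞 M)} {g : E} (hg : IsInert w g) {u : Mˣ}
    (hu : w.valuation M (u : M) = 1) : pr w (g • u) = pr w u :=
  mem_U1_of hu (hg.2 _ hu.le)

theorem frob_smul {w : HeightOneSpectrum (𝓞 M)} {q : ℕ} {g : E} (hg : IsFrob w q g) {u : Mˣ}
    (hu : w.valuation M (u : M) = 1) : pr w (g • u) = pr w u ^ q := by
  rw [← map_pow]
  refine mem_U1_of ?_ ?_
  · rw [Units.val_pow_eq_pow_val, map_pow, hu, one_pow]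
  · rw [Units.val_pow_eq_pow_val]
    exact hg.2 _ hu.le

section

variable {p : ℕ} {Z : Subgroup E} {ι : Z →* Mˣ}

theorem smul_of_mem (hC : Cen p M E Z ι) {z : E} (hz : z ∈ Z) (u : Mˣ) : z • u = u := by
  ext
  exact (hC.ker z).2 hz _

theorem smul_iota (hC : Cen p M E Z ι) (g : E) (z : Z) : g • ι z = ι z := by
  ext
  exact hC.fix g z

theorem inert_of_mem (hC : Cen p M E Z ι) (w : HeightOneSpectrum (𝓞 M)) {z : E} (hz : z ∈ Z) :
    IsInert w z := by
  have h := (hC.ker z).2 hz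
  refine ⟨fun x => by rw [h], fun x _ => ?_⟩
  rw [h, sub_self, map_zero]
  exact zero_lt_one

theorem conj_of_mem (hC : Cen p M E Z ι) (g : E) {z : E} (hz : z ∈ Z) : g * z * g⁻¹ = z := by
  have h := Subgroup.mem_center_iff.1 (hC.cen hz) g
  rw [h, mul_inv_cancel_right]

theorem iota_pow (hC : Cen p M E Z ι) (z : Z) : ι z ^ p = 1 := by
  rw [← map_pow]
  have h : z ^ p = 1 := by
    rw [← hC.card]
    exact pow_card_eq_one'
  rw [h, map_one]

theorem val_iota [Fact p.Prime] (hC : Cen p M E Z ι) (w : HeightOneSpectrum (𝓞 M)) (z : Z) :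
    w.valuation M (ι z : M) = 1 := by
  have h : (w.valuation M (ι z : M)) ^ p = 1 := by
    rw [← map_pow, ← Units.val_pow_eq_pow_val, iota_pow hC, Units.val_one, map_one]
  exact (pow_eq_one_iff.1 h).resolve_right (Fact.out : p.Prime).ne_zero

theorem coc_bZ (hC : Cen p M E Z ι) (w : HeightOneSpectrum (𝓞 M)) :
    ∀ g ∈ Z, ∀ h ∈ Z, bZ ι (g * h) / (bZ ι g * g • bZ ι h) ∈ U1 w := by
  intro g hg h hh
  rw [bZ_mem ι hg, bZ_mem ι hh, bZ_mem ι (mul_mem hg hh), smul_iota hC, ← map_mul]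
  change ι (⟨g, hg⟩ * ⟨h, hh⟩) / _ ∈ _
  rw [div_self']
  exact one_mem _

theorem rel_bZ (hC : Cen p M E Z ι) (w : HeightOneSpectrum (𝓞 M)) (e : E) (β : Mˣ) :
    ∀ x ∈ Z, bZ ι (e * x * e⁻¹) * (e * x * e⁻¹) • β / (β * e • bZ ι x) ∈ U1 w := by
  intro x hx
  rw [conj_of_mem hC e hx, smul_of_mem hC hx, bZ_mem ι hx, smul_iota hC, mul_comm, div_self']
  exact one_mem _

end

end E18aux

open E18aux

/- PROOF. Step n (decG E w) (inertiaGroup E w) F from exists_dec_gen; inertiaGroup = Z (elements of Z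
act trivially). b1 z = ι z on Z (1 elsewhere), u from exists_norm_mod for c = ι (F ^ n) (fixed by F),
ext_mod with N = U1 w; unit from unit_of_coc. -/
theorem loc_unram {p : ℕ} [Fact p.Prime] [Finite E] {Z : Subgroup E} {ι : Z →* Mˣ}
    (hC : Cen p M E Z ι) (w : HeightOneSpectrum (𝓞 M)) (hI : ∀ g : E, IsInert w g → g ∈ Z) :
    ∃ β : E → Mˣ, LocSol ι w β := by
  obtain ⟨n, F, hS⟩ := exists_dec_gen (E := E) w
  have hA1 : ∀ x ∈ inertiaGroup E w, x ∈ Z := fun x hx => hI x hx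
  have hFn : F ^ n ∈ Z := hA1 _ hS.pow
  have hFd : IsDec w F := hS.mem
  obtain ⟨u, hu1, hu2⟩ := exists_norm_mod w F hFd n hS.pos hS.pow
    (fun i hi hin h => hS.min i hi hin h) (ι ⟨F ^ n, hFn⟩) (val_iota hC w _) (by
      rw [smul_iota hC, div_self']
      exact one_mem _)
  obtain ⟨b, hb1, hb2⟩ := ext_mod hS (U1 w) (fun g hg v hv => smul_mem_U1 hg hv) (bZ ι)
    (fun g hg h hh => coc_bZ hC w g (hA1 g hg) h (hA1 h hh)) u
    (fun x hx => rel_bZ hC w F u x (hA1 x hx)) (by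
      rw [bZ_mem ι hFn]
      exact hu2)
  refine ⟨b, fun g hg => unit_of_coc w (decG E w) (fun _ h => h) b hb1 g hg,
    fun g h hg hh => hb1 g hg h hh, fun z => ?_⟩
  have h := hb2 0 (z : E) (inert_of_mem hC w z.2)
  simpa [bZ_mem ι z.2] using h

/- PROOF. Let j > 0 be minimal with t ^ j ∈ Z: Step j (inertiaGroup E w) Z t by hI. With b1 = ι on Z
and u from exists_root_mod for c = ι (t ^ j): ext_mod (N = U1 w) gives b2 on the inertia group (t inert:
t ^ i • u ≡ u), b2 (t ^ i * z) ≡ u ^ i * ι z. Step n (decG E w) (inertiaGroup E w) s from step_frob.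
RelOn modulo U1 w for b2, e = s and every β: b2 (s x s⁻¹) ≡ s • b2 x for x = t ^ i z: s x s⁻¹ =
t ^ (q i) z, s • u ≡ u ^ q (Frobenius), s • ι z = ι z. c := b2 (s ^ n) satisfies s • c ≡ c, so
exists_norm_mod gives β0 with c ≡ ∏ s ^ i • β0; ext_mod again. -/
theorem loc_tame {p : ℕ} [Fact p.Prime] [Finite E] {Z : Subgroup E} {ι : Z →* Mˣ}
    (hC : Cen p M E Z ι) (w : HeightOneSpectrum (𝓞 M)) (hw : ¬ Above w p)
    {q : ℕ} (hq : q.Prime) (hwq : Above w q) {t s : E} (ht : IsInert w t)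
    (hI : ∀ g : E, IsInert w g → ∃ k : ℤ, ∃ z ∈ Z, g = t ^ k * z) (hs : IsFrob w q s)
    (hst : s * t * s⁻¹ = t ^ q) : ∃ β : E → Mˣ, LocSol ι w β := by
  classical
  have hex : ∃ j : ℕ, 0 < j ∧ t ^ j ∈ Z :=
    ⟨orderOf t, orderOf_pos t, by rw [pow_orderOf_eq_one]; exact one_mem _⟩
  obtain ⟨hj, htj⟩ := Nat.find_spec hex
  have hjmin : ∀ i : ℕ, 0 < i → i < Nat.find hex → t ^ i ∉ Z :=
    fun i hi hij h => Nat.find_min hex hij ⟨hi, h⟩
  set j := Nat.find hex with hjdef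
  have htpow : ∀ i : ℕ, IsInert w (t ^ i) := fun i => (inertiaGroup E w).pow_mem ht i
  have hSZ : Step j (inertiaGroup E w) Z t := by
    refine ⟨hj, fun z hz => inert_of_mem hC w hz, ht, htj, hjmin, ?_, ?_⟩
    · intro a _ x hx
      rw [conj_of_mem hC a hx]
      exact hx
    · intro g hg
      obtain ⟨k, z, hz, rfl⟩ := hI g hg
      have hj' : (0 : ℤ) < j := by exact_mod_cast hj
      have h0 : 0 ≤ k % j := Int.emod_nonneg k hj'.ne'
      have h1 : k % j < j := Int.emod_lt_of_pos k hj'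
      refine ⟨(k % j).toNat, by omega, (t ^ j) ^ (k / j) * z,
        Z.mul_mem (Z.zpow_mem htj _) hz, ?_⟩
      have h2 : (((k % j).toNat : ℕ) : ℤ) = k % j := Int.toNat_of_nonneg h0
      rw [← mul_assoc, ← zpow_natCast t (k % j).toNat, h2, ← zpow_natCast t j, ← zpow_mul,
        ← zpow_add, Int.emod_add_mul_ediv]
  have hcomm : ∀ g : E, IsInert w g → g * t = t * g := by
    intro g hg
    obtain ⟨k, z, hz, rfl⟩ := hI g hg
    have h := Subgroup.mem_center_iff.1 (hC.cen hz) t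
    rw [mul_assoc, ← h, ← mul_assoc, ← mul_assoc, (Commute.zpow_self t k).eq]
  obtain ⟨u, hu1, hu2⟩ := exists_root_mod hq w hwq s t hs hst hcomm Z hC.card j hj htj hjmin
    (ι ⟨t ^ j, htj⟩) (iota_pow hC _) (by
      intro h
      have h2 : (⟨t ^ j, htj⟩ : Z) = 1 := Subtype.ext h
      rw [h2, map_one])
  rw [mem_iff_pr] at hu2
  obtain ⟨b2, hb1, hb2⟩ := ext_mod hSZ (U1 w) (fun g hg v hv => smul_mem_U1 hg.1 hv) (bZ ι)
    (coc_bZ hC w) u (rel_bZ hC w t u) (by
      rw [mem_iff_pr, bZ_mem ι htj, hu2, map_prod,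
        Finset.prod_congr rfl (fun i _ => inert_smul (htpow i) hu1), Finset.prod_const,
        Finset.card_range, map_pow])
  -- the values of `b2`
  have hval : ∀ (i : ℕ) (z : E) (hz : z ∈ Z),
      pr w (b2 (t ^ i * z)) = pr w u ^ i * pr w (ι ⟨z, hz⟩) := by
    intro i z hz
    have h := hb2 i z hz
    rw [mem_iff_pr, bZ_mem ι hz, smul_iota hC, map_mul, map_prod,
      Finset.prod_congr rfl (fun k _ => inert_smul (htpow k) hu1), Finset.prod_const,
      Finset.card_range] at h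
    exact h
  have hconj : ∀ (i : ℕ) (z : E), z ∈ Z → s * (t ^ i * z) * s⁻¹ = t ^ (q * i) * z := by
    intro i z hz
    have h1 : s * (t ^ i * z) * s⁻¹ = (s * t * s⁻¹) ^ i * (s * z * s⁻¹) := by
      rw [conj_pow]
      group
    rw [h1, hst, conj_of_mem hC s hz, ← pow_mul]
  have hsb : ∀ x, IsInert w x → pr w (b2 (s * x * s⁻¹)) = pr w (s • b2 x) := by
    intro x hx
    obtain ⟨i, -, z, hz, rfl⟩ := hSZ.gen x hx
    rw [hconj i z hz, hval _ _ hz]
    have h1 : pr w (s • b2 (t ^ i * z)) = pr w (s • (u ^ i * ι ⟨z, hz⟩)) := by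
      refine smul_pr hs.1 ?_
      rw [hval _ _ hz, map_mul, map_pow]
    rw [h1, smul_mul', smul_pow', smul_iota hC, map_mul, map_pow, frob_smul hs hu1, pow_mul]
  obtain ⟨n, hS⟩ := step_frob hq w hwq s hs
  have hcun : w.valuation M (b2 (s ^ n) : M) = 1 :=
    unit_of_coc w (inertiaGroup E w) (fun _ h => h.1) b2 hb1 _ hS.pow
  obtain ⟨β, hβ1, hβ2⟩ := exists_norm_mod w s hs.1 n hS.pos hS.pow
    (fun i hi hin h => hS.min i hi hin h) (b2 (s ^ n)) hcun (by
      rw [mem_iff_pr, ← hsb _ hS.pow]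
      congr 2
      group)
  obtain ⟨b, hb3, hb4⟩ := ext_mod hS (U1 w) (fun g hg v hv => smul_mem_U1 hg hv) b2 hb1 β
    (fun x hx => by
      rw [mul_comm β (s • b2 x), mem_iff_pr, map_mul, map_mul, hsb x hx,
        inert_smul (IsInert.conj hx hs.1) hβ1])
    hβ2
  refine ⟨b, fun g hg => unit_of_coc w (decG E w) (fun _ h => h) b hb3 g hg,
    fun g h hg hh => hb3 g hg h hh, fun z => ?_⟩
  have h := hb4 0 (z : E) (inert_of_mem hC w z.2)
  rw [mem_iff_pr] at h ⊢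
  have h5 := hval 0 z z.2
  simp only [pow_zero, one_mul, Finset.range_zero, Finset.prod_empty, one_smul] at h h5
  rw [h, h5]

end Pool.Agent.RG.E
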