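import Mathlib
import Pool.Agent.Lib.RG.E15
import Pool.Agent.Lib.RG.E18

/-!
PART E, export of the first half: global solutions of embedding problems over `M` (Brauer-Hasse-Noether
for central extensions by the `p`-th roots of unity).
-/

set_option autoImplicit false

namespace Pool.Agent.RG

open NumberField IsDedekindDomain

theorem bhn (p : ℕ) [Fact p.Prime] (hp : p ≠ 2) (M : Type) [Field M] [NumberField M]
    (E : Type) [Group E] [Finite E] (hE : IsPGroup p E) [MulSemiringAction E M]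
    (Z : Subgroup E) (hZ : Z ≤ Subgroup.center E) (hZp : Nat.card Z = p)
    (hker : ∀ g : E, (∀ x : M, g • x = x) ↔ g ∈ Z) (ι : Z →* Mˣ) (hι : Function.Injective ι)
    (hιf : ∀ (g : E) (z : Z), g • ((ι z : Mˣ) : M) = ι z)
    (hab : ∀ w : HeightOneSpectrum (𝓞 M), Above w p → ∀ g : E, IsInert w g → g ∈ Z)
    (hloc : ∀ w : HeightOneSpectrum (𝓞 M), ¬ Above w p → (∃ g : E, IsInert w g ∧ g ∉ Z) →
      ∃ (q : ℕ) (t s : E), q.Prime ∧ q % p = 1 ∧ Above w q ∧ IsInert w t ∧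
        (∀ g : E, IsInert w g → ∃ k : ℤ, ∃ z ∈ Z, g = t ^ k * z) ∧ IsFrob w q s ∧
        s * t * s⁻¹ = t ^ q) :
    ∃ b : E → Mˣ, (∀ g h : E, ((b (g * h) : Mˣ) : M) = b g * g • ((b h : Mˣ) : M)) ∧
      ∀ z : Z, b z = ι z := by
  have hC : Pool.Agent.RG.E.Cen p M E Z ι := ⟨hE, hZ, hZp, hker, hι, hιf, hab⟩
  obtain ⟨b, hb⟩ := Pool.Agent.RG.E.bhn_of_local hp hC (fun w hw => by
    by_cases h : ∃ g : E, IsInert w g ∧ g ∉ Z
    · obtain ⟨q, t, s, hq, -, hwq, ht, hI, hs, hst⟩ := hloc w hw h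
      exact Pool.Agent.RG.E.loc_tame hC w hw hq hwq ht hI hs hst
    · push Not at h
      exact Pool.Agent.RG.E.loc_unram hC w h)
  refine ⟨b, fun g h => ?_, hb.res⟩
  rw [hb.coc g (Subgroup.mem_top g) h (Subgroup.mem_top h), Units.val_mul, Pool.Agent.RG.E.coe_act]

end Pool.Agent.RG
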