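import Mathlib
import Pool.Agent.Lib.RG.Defs
import Pool.Agent.Lib.RG.G01
import Pool.Agent.Lib.RG.G02
import Pool.Agent.Lib.RG.G03
import Pool.Agent.Lib.RG.EBHN
import Pool.Agent.Lib.RG.E20
import Pool.Agent.Lib.RG.E22
import Pool.Agent.Lib.RG.E23
import Pool.Agent.Lib.RG.E24
import Pool.Agent.Lib.RG.E25
import Pool.Agent.Lib.RG.E26
import Pool.Agent.Lib.RG.E27
import Pool.Agent.Lib.RG.E29
import Pool.Agent.Lib.RG.E31
import Pool.Agent.Lib.RG.E33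
import Pool.Agent.Lib.RG.E36

/-!
PART E, export: central embedding problems with kernel of order `p` for `p`-extensions of `ℚ`
unramified outside `S`.
-/

set_option autoImplicit false

namespace Pool.Agent.RG

open NumberField IsDedekindDomain

/-- the zpowers of a primitive root of unity of order `p`, as the image of a group of order `p` -/
theorem exists_iota {p : ℕ} [Fact p.Prime] {M : Type} [Field M] {ζ : M}
    (hζ : IsPrimitiveRoot ζ p) {Z : Type} [Group Z] (hZ : Nat.card Z = p) :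
    ∃ ι : Z →* Mˣ, Function.Injective ι ∧ ∀ z, ∃ k : ℕ, ((ι z : Mˣ) : M) = ζ ^ k := by
  have hp : p.Prime := Fact.out
  obtain ⟨u, hu⟩ : IsUnit ζ := hζ.isUnit hp.ne_zero
  have hu' : IsPrimitiveRoot u p := by
    rw [← IsPrimitiveRoot.coe_units_iff, hu]
    exact hζ
  have hc : Nat.card (Subgroup.zpowers u) = p := by
    rw [Nat.card_zpowers, ← hu'.eq_orderOf]
  let e : Z ≃* Subgroup.zpowers u := mulEquivOfPrimeCardEq hZ hc
  refine ⟨(Subgroup.zpowers u).subtype.comp e.toMonoidHom, ?_, ?_⟩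
  · intro a b hab
    exact e.injective (Subtype.ext hab)
  · intro z
    have h1 : ((((Subgroup.zpowers u).subtype.comp e.toMonoidHom) z : Mˣ) : M) ^ p = 1 := by
      rw [← Units.val_pow_eq_pow_val, ← map_pow]
      have h2 : z ^ p = 1 := by
        rw [← hZ]
        exact pow_card_eq_one'
      rw [h2, map_one, Units.val_one]
    obtain ⟨k, -, hk⟩ := hζ.eq_pow_of_pow_eq_one h1
    exact ⟨k, hk.symm⟩

/-- first half: the data over `M = L(ζ)` -/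
theorem emb_M (p : ℕ) [Fact p.Prime] (hp : p ≠ 2) (S : Finset ℕ)
    (hS : ∀ q ∈ S, q.Prime ∧ q % p = 1)
    (L : Type) [Field L] [NumberField L] [IsGalois ℚ L]
    (E : Type) [Group E] [Finite E] (hE : IsPGroup p E)
    (π : E →* (L ≃ₐ[ℚ] L)) (hπ : Function.Surjective π) (hker : π.ker ≤ Subgroup.center E)
    (hcard : Nat.card π.ker = p) (hunr : UnrOutside S L)
    (hloc : ∀ q ∈ S, ∃ w : HeightOneSpectrum (𝓞 L), Above w q ∧ ∃ t s : E,
      (∀ σ : L ≃ₐ[ℚ] L, IsInert w σ ↔ σ ∈ Subgroup.zpowers (π t)) ∧ IsFrob w q (π s) ∧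
      s * t * s⁻¹ = t ^ q) :
    ∃ (M : Type) (_ : Field M) (_ : NumberField M) (_ : IsGalois ℚ M) (j : L →+* M) (ζ : M)
      (ρ : E →* (M ≃ₐ[ℚ] M)) (b : E → M), IsPrimitiveRoot ζ p ∧
      (∀ e x, ρ e (j x) = j (π e x)) ∧ (∀ e, ρ e ζ = ζ) ∧
      (∀ g : M ≃ₐ[ℚ] M, g ζ = ζ → ∃ e, g = ρ e) ∧ ρ.ker = π.ker ∧
      (∀ w : HeightOneSpectrum (𝓞 M), Above w p → ∀ e, IsInert w (ρ e) → ρ e = 1) ∧
      (∀ e, b e ≠ 0) ∧ (∀ e f, b (e * f) = b e * ρ e (b f)) ∧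
      (∀ z ∈ ρ.ker, b z = 1 → z = 1) ∧ (∀ z ∈ ρ.ker, b z ^ p = 1) := by
  classical
  have hpp : p.Prime := Fact.out
  obtain ⟨k, hk⟩ : ∃ k, Module.finrank ℚ L = p ^ k := by
    have h1 : IsPGroup p (L ≃ₐ[ℚ] L) := hE.of_surjective π hπ
    obtain ⟨k, hk⟩ := IsPGroup.iff_card.mp h1
    exact ⟨k, by rw [← hk]; exact (IsGalois.card_aut_eq_finrank ℚ L).symm⟩
  obtain ⟨M, iM1, iM2, iM3, j, ζ, θ, hζ, hθ, hθζ, hinj, hsurj⟩ := exists_M p L k hk
  let ρ : E →* (M ≃ₐ[ℚ] M) := θ.comp π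
  have hρ : ∀ e, ρ e = θ (π e) := fun e => rfl
  have hρ1 : ∀ e, ρ e = 1 ↔ π e = 1 := by
    intro e
    rw [hρ]
    constructor
    · intro h
      exact hinj (by rw [h, map_one])
    · intro h
      rw [h, map_one]
  have hρker : ρ.ker = π.ker := by
    ext z
    rw [MonoidHom.mem_ker, MonoidHom.mem_ker, hρ1]
  have hab : ∀ w : HeightOneSpectrum (𝓞 M), Above w p → ∀ e, IsInert w (ρ e) → ρ e = 1 := by
    intro w hw e he
    obtain ⟨w₁, hw₁⟩ := exists_below j w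
    have h1 : IsInert w₁ (π e) := IsInert.restrict hw₁ (fun x => hθ (π e) x) he
    have h2 : Above w₁ p := (hw₁.above_iff p).mp hw
    rw [hρ1]
    refine hunr w₁ ?_ (π e) h1
    intro q hq hwq
    have h3 : p = q := Above.unique hpp (hS q hq).1 h2 hwq
    have h4 := (hS q hq).2
    rw [← h3, Nat.mod_self] at h4
    exact absurd h4 (by norm_num)
  let act : MulSemiringAction E M := MulSemiringAction.compHom M ρ
  have hsmul : ∀ (e : E) (x : M), e • x = ρ e x := fun e x => rfl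
  have hine : ∀ (w : HeightOneSpectrum (𝓞 M)) (e : E), IsInert w e ↔ IsInert w (ρ e) :=
    fun w e => Iff.rfl
  obtain ⟨ι, hι, hιk⟩ := exists_iota hζ hcard
  have hkerπ : ∀ g : E, (∀ x : M, g • x = x) ↔ g ∈ π.ker := by
    intro g
    rw [MonoidHom.mem_ker, ← hρ1]
    constructor
    · intro h
      exact AlgEquiv.ext h
    · intro h x
      rw [hsmul, h]
      rfl
  obtain ⟨b, hb, hbι⟩ := bhn p hp M E hE π.ker hker hcard hkerπ ι hι
    (by
      intro g z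
      obtain ⟨n, hn⟩ := hιk z
      rw [hn, hsmul, map_pow, hρ, hθζ])
    (by
      intro w hw g hg
      rw [MonoidHom.mem_ker, ← hρ1]
      exact hab w hw g ((hine w g).mp hg))
    (by
      intro w hw hg
      obtain ⟨g, hg, hg1⟩ := hg
      obtain ⟨q, t, s, h1, h2, h3, h4, h5, h6, h7⟩ := local_hyp hS π hπ hunr hloc hζ hθ hinj hsurj
        w hw ⟨g, (hine w g).mp hg, hg1⟩
      exact ⟨q, t, s, h1, h2, h3, h4, h5, h6, h7⟩)
  refine ⟨M, iM1, iM2, iM3, j, ζ, ρ, fun e => ((b e : Mˣ) : M), hζ, fun e x => hθ (π e) x,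
    fun e => hθζ _, ?_, hρker, hab, fun e => (b e).ne_zero, hb, ?_, ?_⟩
  · intro g hg
    obtain ⟨h, hh⟩ := hsurj g hg
    obtain ⟨e, he⟩ := hπ h
    exact ⟨e, by rw [hh, hρ, he]⟩
  · intro z hz h1
    rw [hρker] at hz
    have h2 := hbι ⟨z, hz⟩
    have h3 : b z = 1 := Units.ext h1
    have h4 : ι ⟨z, hz⟩ = 1 := by
      rw [← h2]
      exact h3
    have h5 : (⟨z, hz⟩ : π.ker) = 1 := hι (by rw [h4, map_one])
    exact congrArg Subtype.val h5
  · intro z hz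
    rw [hρker] at hz
    have h2 := hbι ⟨z, hz⟩
    have h3 : (ι ⟨z, hz⟩) ^ p = 1 := by
      rw [← map_pow]
      have h4 : (⟨z, hz⟩ : π.ker) ^ p = 1 := by
        rw [← hcard]
        exact pow_card_eq_one'
      rw [h4, map_one]
    have h5 : (b z) ^ p = 1 := by
      rw [← h3, ← h2]
    have h6 := congrArg Units.val h5
    simpa using h6

/-- second half: the Kummer extension `N` -/
theorem emb_N {p : ℕ} [Fact p.Prime] (hp : p ≠ 2) {M : Type} [Field M] [NumberField M]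
    [IsGalois ℚ M] {ζ : M} {E : Type} [Group E] [Finite E] (hE : IsPGroup p E)
    {ρ : E →* (M ≃ₐ[ℚ] M)} {b : E → M}
    (hζ : IsPrimitiveRoot ζ p) (hρζ : ∀ e, ρ e ζ = ζ)
    (hsurj : ∀ g : M ≃ₐ[ℚ] M, g ζ = ζ → ∃ e, g = ρ e) (hcard : Nat.card ρ.ker = p)
    (hab : ∀ w : HeightOneSpectrum (𝓞 M), Above w p → ∀ e, IsInert w (ρ e) → ρ e = 1)
    (hb0 : ∀ e, b e ≠ 0) (hb : ∀ e f, b (e * f) = b e * ρ e (b f))
    (hbinj : ∀ z ∈ ρ.ker, b z = 1 → z = 1) (hbp : ∀ z ∈ ρ.ker, b z ^ p = 1) :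
    ∃ (N : Type) (_ : Field N) (_ : NumberField N) (_ : IsGalois ℚ N) (i : M →+* N)
      (ψ : fixS (i ζ) →* E), IsPGroup p (fixS (i ζ)) ∧
      (∀ (g : fixS (i ζ)) (x : M), (g : N ≃ₐ[ℚ] N) (i x) = i (ρ (ψ g) x)) ∧
      ∀ w : HeightOneSpectrum (𝓞 N), Above w p → ∀ g : fixS (i ζ),
        IsInert w (g : N ≃ₐ[ℚ] N) → ψ g = 1 := by
  classical
  have hpp : p.Prime := Fact.out
  obtain ⟨α, hα, hbα⟩ := exists_alpha (p := p) ρ b hb0 hb (fun z hz => hbp z hz)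
  obtain ⟨c, hc, hcf, hcw⟩ := padic_adjust hp hζ hρζ hsurj hab b α hα hbα
  have hβ : c * α ≠ 0 := mul_ne_zero hc hα
  have hbβ : ∀ e, b e ^ p * (c * α) = ρ e (c * α) := by
    intro e
    rw [map_mul, hcf, ← hbα]
    ring
  have hM : IsPGroup p (fixS ζ) := by
    rintro ⟨g, hg⟩
    obtain ⟨e, he⟩ := hsurj g hg
    obtain ⟨n, hn⟩ := hE e
    refine ⟨n, Subtype.ext ?_⟩
    show g ^ p ^ n = 1
    rw [he, ← map_pow, hn, map_one]
  obtain ⟨N, iN1, iN2, iN3, i, A, hA, hN⟩ := exists_N hζ hM (c * α) hβ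
  obtain ⟨ψ, hψ1, hψ2⟩ := exists_psi hζ hρζ hsurj hcard b hb0 hb hbinj (c * α) hβ hbβ i A hA
  refine ⟨N, iN1, iN2, iN3, i, ψ, hN, hψ1, ?_⟩
  intro w hw g hg
  obtain ⟨w₁, hw₁⟩ := exists_below i w
  have h1 : IsInert w₁ (ρ (ψ g)) := IsInert.restrict hw₁ (fun x => hψ1 g x) hg
  have h2 : Above w₁ p := (hw₁.above_iff p).mp hw
  have h3 : ρ (ψ g) = 1 := hab w₁ h2 _ h1
  have h4 : ∀ x : M, (g : N ≃ₐ[ℚ] N) (i x) = i x := by
    intro x
    rw [hψ1, h3]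
    rfl
  obtain ⟨x, hx, hx1⟩ := hcw w₁ h2
  have hζ1 : 1 - ζ ≠ 0 := by
    intro h
    exact hζ.ne_one hpp.one_lt (sub_eq_zero.mp h).symm
  have h5 : w.valuation N (i (c * α / x ^ p - 1)) ≤ w.valuation N (i ((1 - ζ) ^ p)) := by
    refine lies_le hw₁ (pow_ne_zero p hζ1) ?_
    rw [map_pow]
    exact hx1
  have h6 : w.valuation N (i (c * α) / (i x) ^ p - 1) ≤ w.valuation N (1 - i ζ) ^ p := by
    rw [← map_pow (w.valuation N)]
    have e1 : i (c * α / x ^ p - 1) = i (c * α) / (i x) ^ p - 1 := by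
      rw [map_sub, map_div₀, map_pow, map_one]
    have e2 : i ((1 - ζ) ^ p) = (1 - i ζ) ^ p := by
      rw [map_pow, map_sub, map_one]
    rw [← e1, ← e2]
    exact h5
  have hiinj : Function.Injective i := i.injective
  have h7 : (g : N ≃ₐ[ℚ] N) A = A := by
    refine kummer_unramified (hζ.map_of_injective hiinj) hw hg (h4 ζ) hA ?_ ?_ (h4 _) (h4 x) h6
    · exact (map_ne_zero i).mpr hβ
    · exact (map_ne_zero i).mpr hx
  have hA0 : A ≠ 0 := by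
    intro h
    rw [h, zero_pow hpp.ne_zero] at hA
    exact (map_ne_zero i).mpr hβ hA.symm
  have h8 : i (b (ψ g)) * A = A := by
    rw [← hψ2]
    exact h7
  have h9 : i (b (ψ g)) = 1 := by
    have := mul_right_cancel₀ hA0 (h8.trans (one_mul A).symm)
    exact this
  have h10 : b (ψ g) = 1 := hiinj (by rw [h9, map_one])
  exact hbinj _ h3 h10

theorem embedding (p : ℕ) [Fact p.Prime] (hp : p ≠ 2) (S : Finset ℕ)
    (hS : ∀ q ∈ S, q.Prime ∧ q % p = 1)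
    (L : Type) [Field L] [NumberField L] [IsGalois ℚ L]
    (E : Type) [Group E] [Finite E] (hE : IsPGroup p E)
    (π : E →* (L ≃ₐ[ℚ] L)) (hπ : Function.Surjective π) (hker : π.ker ≤ Subgroup.center E)
    (hcard : Nat.card π.ker = p) (hunr : UnrOutside S L)
    (hloc : ∀ q ∈ S, ∃ w : HeightOneSpectrum (𝓞 L), Above w q ∧ ∃ t s : E,
      (∀ σ : L ≃ₐ[ℚ] L, IsInert w σ ↔ σ ∈ Subgroup.zpowers (π t)) ∧ IsFrob w q (π s) ∧
      s * t * s⁻¹ = t ^ q) :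
    ∃ (L' : Type) (_ : Field L') (_ : NumberField L') (_ : IsGalois ℚ L') (j : L →+* L')
      (ψ : (L' ≃ₐ[ℚ] L') →* E), Function.Injective ψ ∧
      (∀ (g : L' ≃ₐ[ℚ] L') (x : L), g (j x) = j (π (ψ g) x)) ∧ UnrOutside S L' := by
  obtain ⟨M, _, _, _, j, ζ, ρ, b, hζ, hρj, hρζ, hsurj, hρker, hab, hb0, hb, hbinj, hbp⟩ :=
    emb_M p hp S hS L E hE π hπ hker hcard hunr hloc
  obtain ⟨N, _, _, _, i, ψ, hN, hψ1, hψ2⟩ := emb_N hp hE hζ hρζ hsurj (by rw [hρker, hcard]) hab hb0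
    hb hbinj hbp
  obtain ⟨r, hr⟩ := exists_restr (i.comp j)
  have hζ' : IsPrimitiveRoot (i ζ) p := hζ.map_of_injective i.injective
  have : (fixS (i ζ)).Normal := fixS_normal hζ'
  have hinj : Function.Injective (i.comp j) := (i.comp j).injective
  have hψr : ∀ x : fixS (i ζ), π (ψ x) = r x := by
    intro x
    apply AlgEquiv.ext
    intro y
    apply hinj
    rw [← hr]
    show i (j (π (ψ x) y)) = (x : N ≃ₐ[ℚ] N) (i (j y))
    rw [hψ1, hρj]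
  obtain ⟨Ψ, hΨ1, hΨ2⟩ := averaging p (N ≃ₐ[ℚ] N) (fixS (i ζ)) hN (fixS_index hζ') E (L ≃ₐ[ℚ] L) hE
    π hπ hker hcard r ψ hψr
  have hΨ3 : ∀ (g : N ≃ₐ[ℚ] N) (x : L), g ((i.comp j) x) = (i.comp j) (π (Ψ g) x) := by
    intro g x
    rw [hΨ1, hr]
  have hΨ4 : ∀ w : HeightOneSpectrum (𝓞 N), Above w p → ∀ g : N ≃ₐ[ℚ] N, IsInert w g → Ψ g = 1 := by
    intro w hw g hg
    refine hΨ2 (inertiaGroup (N ≃ₐ[ℚ] N) w) ?_ g hg
    intro x hx y hy
    obtain ⟨w', hw'⟩ := exists_map_prime y w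
    have h1 : IsInert w' (y * x * y⁻¹) := IsInert.conj_to hw' hx
    have h2 : Above w' p := by
      have h3 := hw' (p : N)
      rw [map_natCast] at h3
      show w'.valuation N (p : N) < 1
      rw [h3]
      exact hw
    exact hψ2 w' h2 ⟨y * x * y⁻¹, hy⟩ h1
  obtain ⟨N₀, _, _, _, j₀, Ψ₀, hinj₀, hΨ₀, hunr₀⟩ := inj_reduce π (i.comp j) Ψ hΨ3
  exact remove_all hE π hker hcard hunr (fun q hq => (hS q hq).1) j₀ Ψ₀ hinj₀ hΨ₀ (hunr₀ p hΨ4)

end Pool.Agent.RG
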