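import Mathlib
import Pool.Agent.Lib.RG.Defs
import Pool.Agent.Lib.RG.EMain
import Pool.Agent.Lib.RG.G07
import Pool.Agent.Lib.RG.G08
import Pool.Agent.Lib.RG.G09

/-!
PART G, row G12: locally solvable central embedding problems are solvable inside the maximal
extension.
-/

set_option autoImplicit false

namespace Pool.Agent.RG

open NumberField IsDedekindDomain

/-- factor a homomorphism through a surjection with the same kernel -/
theorem G12_equiv {G A B : Type} [Group G] [Group A] [Group B] (r : G →* A) (φ : G →* B)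
    (hr : Function.Surjective r) (hφ : Function.Surjective φ) (h : ∀ g, r g = 1 ↔ g ∈ φ.ker) :
    ∃ θ : A ≃* B, ∀ g, θ (r g) = φ g := by
  have hk : r.ker = φ.ker := by
    ext g
    rw [MonoidHom.mem_ker, h g]
  refine ⟨(QuotientGroup.quotientKerEquivOfSurjective r hr).symm.trans
    ((QuotientGroup.quotientMulEquivOfEq hk).trans
      (QuotientGroup.quotientKerEquivOfSurjective φ hφ)), fun g => ?_⟩
  have h1 : (QuotientGroup.quotientKerEquivOfSurjective r hr).symm (r g)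
      = (QuotientGroup.mk g : G ⧸ r.ker) := by
    rw [MulEquiv.symm_apply_eq]
    rfl
  simp only [MulEquiv.trans_apply, h1]
  rfl

theorem lift_property {p : ℕ} [Fact p.Prime] (hp : p ≠ 2) {S : Finset ℕ}
    (hS : ∀ q ∈ S, q.Prime ∧ q % p = 1) {K : Type} [Field K] [CharZero K]
    (hK : MaxExt p S K) {ι : Type} (q : ι → ℕ) (hq : ∀ r ∈ S, ∃ i, q i = r)
    (x y : ι → (K ≃ₐ[ℚ] K)) (hxy : ∀ i, InFr (q i) (x i) (y i))
    (E H : Type) [Group E] [Finite E] [Group H] [Finite H] (π : E →* H)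
    (hπ : Function.Surjective π) (hker : π.ker ≤ Subgroup.center E) (hcard : Nat.card π.ker = p)
    (φ : (K ≃ₐ[ℚ] K) →* H) (hφ : IsOpen (φ.ker : Set (K ≃ₐ[ℚ] K)))
    (hφs : Function.Surjective φ) (ex ey : ι → E) (hx : ∀ i, π (ex i) = φ (x i))
    (hy : ∀ i, π (ey i) = φ (y i)) (hr : ∀ i, ey i * ex i * (ey i)⁻¹ = ex i ^ q i) :
    ∃ ψ : (K ≃ₐ[ℚ] K) →* E, IsOpen (ψ.ker : Set (K ≃ₐ[ℚ] K)) ∧ π.comp ψ = φ := by
  have hgal := hK.gal
  obtain ⟨L, hL1, hL2, hL3, hL4⟩ := exists_layer φ.ker hφ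
  obtain ⟨θ, hθ⟩ := G12_equiv (AlgEquiv.restrictNormalHom L : (K ≃ₐ[ℚ] K) →* (L ≃ₐ[ℚ] L)) φ
    (restrict_surjective L) hφs hL3
  have hθ' : ∀ g, θ.symm (φ g) = AlgEquiv.restrictNormalHom L g := fun g => by
    rw [MulEquiv.symm_apply_eq, hθ]
  obtain ⟨k, hk⟩ := hK.deg L
  have hcH : Nat.card H = p ^ k := by
    rw [← Nat.card_congr θ.toEquiv, IsGalois.card_aut_eq_finrank, hk]
  have hE : IsPGroup p E := by
    refine IsPGroup.of_card (n := k + 1) ?_
    have h1 := Subgroup.card_eq_card_quotient_mul_card_subgroup π.ker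
    rw [h1, hcard, Nat.card_congr (QuotientGroup.quotientKerEquivOfSurjective π hπ).toEquiv, hcH,
      pow_succ]
  let π' : E →* (L ≃ₐ[ℚ] L) := θ.symm.toMonoidHom.comp π
  have hπ' : Function.Surjective π' := θ.symm.surjective.comp hπ
  have hker' : π'.ker = π.ker := by
    ext e
    simp [π', MonoidHom.mem_ker]
  obtain ⟨L', hf', hn', hg', j, ψ', hinj, hcomp, hunr⟩ := embedding p hp S hS L E hE π' hπ'
    (by rw [hker']; exact hker) (by rw [hker']; exact hcard) (hK.unr L) (by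
      intro r hr'
      obtain ⟨i, rfl⟩ := hq r hr'
      obtain ⟨w, hw1, hw2, hw3⟩ := hxy i L
      have e1 : π' (ex i) = AlgEquiv.restrictNormalHom L (x i) := by
        change θ.symm (π (ex i)) = _
        rw [hx, hθ']
      have e2 : π' (ey i) = AlgEquiv.restrictNormalHom L (y i) := by
        change θ.symm (π (ey i)) = _
        rw [hy, hθ']
      refine ⟨w, hw1, ex i, ey i, ?_, ?_, hr i⟩
      · rw [e1]
        exact hw2
      · rw [e2]
        exact hw3)
  have hdeg : ∃ k, Module.finrank ℚ L' = p ^ k := by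
    have h1 : IsPGroup p (L' ≃ₐ[ℚ] L') := hE.of_injective ψ' hinj
    obtain ⟨n, hn⟩ := IsPGroup.iff_card.1 h1
    exact ⟨n, by rw [← IsGalois.card_aut_eq_finrank, hn]⟩
  obtain ⟨e₀⟩ := hK.max L' hdeg hunr
  -- adjust the embedding
  let ϕ : L →ₐ[ℚ] K := e₀.comp j.toRatAlgHom
  let h0 : K →ₐ[ℚ] K := AlgHom.liftNormal ϕ K
  have hh0 : ∀ z : L, h0 (z : K) = e₀ (j z) := fun z => by
    have := AlgHom.liftNormal_commutes ϕ K z
    exact this
  have hbij : Function.Bijective h0 := Algebra.IsAlgebraic.algHom_bijective h0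
  let g0 : K ≃ₐ[ℚ] K := (AlgEquiv.ofBijective h0 hbij).symm
  have hg0 : ∀ z : L, g0 (e₀ (j z)) = (z : K) := fun z => by
    rw [← hh0 z]
    exact (AlgEquiv.ofBijective h0 hbij).symm_apply_apply (z : K)
  let e : L' →ₐ[ℚ] K := (g0 : K →ₐ[ℚ] K).comp e₀
  have he : ∀ z : L, e (j z) = (z : K) := hg0
  obtain ⟨r, hr1, hr2, hr3⟩ := exists_restrict e
  refine ⟨ψ'.comp r, ?_, ?_⟩
  · refine Subgroup.isOpen_mono (H₁ := r.ker) ?_ hr1
    intro g hg
    rw [MonoidHom.mem_ker] at hg ⊢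
    rw [MonoidHom.comp_apply, hg, map_one]
  · ext g
    change π (ψ' (r g)) = φ g
    have key : π' (ψ' (r g)) = AlgEquiv.restrictNormalHom L g := by
      refine AlgEquiv.ext fun z => ?_
      have h1 : ((AlgEquiv.restrictNormalHom L g z : L) : K) = g (z : K) :=
        AlgEquiv.restrictNormal_commutes g L z
      have h2 : g (z : K) = ((π' (ψ' (r g)) z : L) : K) := by
        rw [← he z, hr3, hcomp, he]
      exact Subtype.ext (h2.symm.trans h1.symm)
    have h3 : θ.symm (π (ψ' (r g))) = θ.symm (φ g) := by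
      rw [hθ']
      exact key
    exact θ.symm.injective h3

end Pool.Agent.RG
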