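import Mathlib

/-!
PART P, definitions used in the export: profinite groups with a presentation of Koch type with cyclic
leading linking pattern.
-/

set_option autoImplicit false

namespace Pool.Agent.RG

/-- the index set: `Sum.inl r` is the letter `a_r`, `Sum.inr r` is the letter `s_r` -/
abbrev Idx (m : ℕ) : Type := Fin m ⊕ Fin m

/-- the cycle `a_r → s_{r+1} → a_{r+1} → ...` -/
def nx {m : ℕ} [NeZero m] : Idx m → Idx m
  | Sum.inl r => Sum.inr (r + 1)
  | Sum.inr r => Sum.inl r

/-- Data of Koch type on a profinite group `G`. -/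
structure Koch (p m : ℕ) [NeZero m] (G : Type) [Group G] [TopologicalSpace G]
    [IsTopologicalGroup G] where
  x : Idx m → G
  y : Idx m → G
  q : Idx m → ℕ
  χ : Idx m → G →* Multiplicative (ZMod p)
  cont : ∀ i, IsOpen ((χ i).ker : Set G)
  gen : (Subgroup.closure (Set.range x)).topologicalClosure = ⊤
  hq : ∀ i, q i % p = 1
  tame : ∀ i, y i * x i * (y i)⁻¹ = x i ^ q i
  dual : ∀ i j, χ j (x i) = Multiplicative.ofAdd (if i = j then 1 else 0)
  self : ∀ i, χ i (y i) = 1
  linkA : ∀ (r : Fin m) (j : Idx m), j ≠ Sum.inl r → (χ j (y (Sum.inl r)) ≠ 1 ↔ j = nx (Sum.inl r))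
  linkS : ∀ r t : Fin m, (χ (Sum.inl t) (y (Sum.inr r)) ≠ 1 ↔ t = r)
  lift : ∀ (E H : Type) [Group E] [Finite E] [Group H] [Finite H] (π : E →* H),
    Function.Surjective π → π.ker ≤ Subgroup.center E → Nat.card π.ker = p →
    ∀ φ : G →* H, IsOpen (φ.ker : Set G) → Function.Surjective φ →
    ∀ ex ey : Idx m → E, (∀ i, π (ex i) = φ (x i)) → (∀ i, π (ey i) = φ (y i)) →
      (∀ i, ey i * ex i * (ey i)⁻¹ = ex i ^ q i) →
      ∃ ψ : G →* E, IsOpen (ψ.ker : Set G) ∧ π.comp ψ = φ

/-- `U` is topologically generated by at most `n` elements -/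
def GenBy {G : Type} [Group G] [TopologicalSpace G] [IsTopologicalGroup G] (U : Subgroup G)
    (n : ℕ) : Prop :=
  ∃ T : Finset G, T.card ≤ n ∧ (Subgroup.closure (T : Set G)).topologicalClosure = U

end Pool.Agent.RG
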