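import Mathlib
import Pool.Agent.Lib.RG.PMain0

/-!
PART P, definitions: words, weights, the filtered free algebra, the ideals `J`, normal words, series of
subgroups and filtrations of group algebras.
-/

set_option autoImplicit false

namespace Pool.Agent.RG

open scoped Classical

variable {m : ℕ}

/-- weights: `a_r` has weight 2, `s_r` has weight 3 -/
def wt : Idx m → ℕ
  | Sum.inl _ => 2
  | Sum.inr _ => 3

/-- the weight of a word -/
def wl (w : FreeMonoid (Idx m)) : ℕ := ((FreeMonoid.toList w).map wt).sum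

/-- the free algebra on the letters with its basis of words -/
abbrev FA (F : Type) [Field F] (m : ℕ) : Type := MonoidAlgebra F (FreeMonoid (Idx m))

section algebra

variable {F : Type} [Field F]

/-- a word as an element of the free algebra -/
noncomputable def wd (w : FreeMonoid (Idx m)) : FA F m := MonoidAlgebra.of F (FreeMonoid (Idx m)) w

/-- the letter `i` as an element of the free algebra -/
noncomputable def X (i : Idx m) : FA F m := wd (FreeMonoid.of i)

/-- the span of the words of weight at least `k` -/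
noncomputable def Pge (F : Type) [Field F] (m : ℕ) (k : ℤ) : Submodule F (FA F m) :=
  Submodule.span F {x | ∃ w : FreeMonoid (Idx m), k ≤ wl w ∧ x = wd w}

/-- The two-sided ideal generated by the `f i` and by the words of weight larger than `k` (it is
defined as a left ideal). -/
noncomputable def J (f : Idx m → FA F m) (k : ℤ) : Ideal (FA F m) :=
  Ideal.span ({x | ∃ i w, x = f i * wd w} ∪ {x | ∃ w : FreeMonoid (Idx m), k < wl w ∧ x = wd w})

/-- The dimension of the algebra modulo `J f k`. -/
noncomputable def bd (f : Idx m → FA F m) (k : ℤ) : ℕ := Module.finrank F (FA F m ⧸ J f k)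

/-- The shape of the relations: `f i = l i * (X (nx i) * X i - X i * X (nx i)) + (weight ≥ 6)`. -/
def Shape [NeZero m] (l : Idx m → F) (f : Idx m → FA F m) : Prop :=
  ∀ i, l i ≠ 0 ∧ f i - l i • (X (nx i) * X i - X i * X (nx i)) ∈ Pge F m 6

end algebra

/-- the pair `(a, s)` is forbidden in normal words: `s` is a neighbour of `a` in the cycle -/
def Bad [NeZero m] (i j : Idx m) : Prop :=
  (∃ r, i = Sum.inl r) ∧ (∃ r, j = Sum.inr r) ∧ (j = nx i ∨ i = nx j)

/-- normal words: no two consecutive letters form a bad pair -/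
def IsNormalWord [NeZero m] (w : FreeMonoid (Idx m)) : Prop :=
  List.IsChain (fun i j : Idx m => ¬ Bad i j) (FreeMonoid.toList w)

/-- the number of normal words of weight at most `k` -/
noncomputable def Hc (m : ℕ) [NeZero m] (k : ℤ) : ℕ :=
  Nat.card {w : FreeMonoid (Idx m) // IsNormalWord w ∧ (wl w : ℤ) ≤ k}

/-- the exponent sum of the letter `j` in a word of the free group -/
def ex (p : ℕ) {m : ℕ} (j : Idx m) : FreeGroup (Idx m) →* Multiplicative (ZMod p) :=
  FreeGroup.lift fun i => Multiplicative.ofAdd (if i = j then 1 else 0)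

/-- A series of subgroups of the finite group `Q` with `[D a, D b] ≤ D (a + b)` and
`(D a) ^ p ≤ D (p a)`, of length `n`. -/
structure NpSeries (p : ℕ) (Q : Type) [Group Q] (n : ℕ) (D : ℕ → Subgroup Q) : Prop where
  anti : Antitone D
  one : D 1 = ⊤
  bot : D (n + 1) = ⊥
  comm : ∀ a b, ∀ g ∈ D a, ∀ h ∈ D b, g * h * g⁻¹ * h⁻¹ ∈ D (a + b)
  pow : ∀ a, ∀ g ∈ D a, g ^ p ∈ D (p * a)

/-- the group algebra over the field with `p` elements -/
abbrev GA (p : ℕ) (Q : Type) [Group Q] : Type := MonoidAlgebra (ZMod p) Q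

/-- the element `g - 1` of the group algebra -/
noncomputable def dl (p : ℕ) {Q : Type} [Group Q] (g : Q) : GA p Q :=
  MonoidAlgebra.of (ZMod p) Q g - 1

/-- The filtration of the group algebra defined by a series of subgroups: `Ef p D w` is spanned by
the products of elements `h - 1`, `h ∈ D a`, with sum of the weights `a` at least `w`. -/
noncomputable def Ef (p : ℕ) {Q : Type} [Group Q] (D : ℕ → Subgroup Q) (w : ℤ) :
    Submodule (ZMod p) (GA p Q) :=
  Submodule.span (ZMod p) {x | ∃ l : List (ℕ × Q), (∀ a ∈ l, a.2 ∈ D a.1) ∧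
    w ≤ ((l.map Prod.fst).sum : ℕ) ∧ x = (l.map fun a => dl p a.2).prod}

/-- The exact depth condition: `x` has weight `v` and `x ^ (p ^ k)` has weight exactly `v p ^ k` as
long as `v p ^ k ≤ n`. -/
def Exact {Q : Type} [Group Q] (p n v : ℕ) (D : ℕ → Subgroup Q) (x : Q) : Prop :=
  x ∈ D v ∧ ∀ k, v * p ^ k ≤ n → x ^ p ^ k ∉ D (v * p ^ k + 1)

/-- A map `δ : G → V` is a derivation for the action of `G` on the group algebra `V` of `Q` defined
by `φ : G → Q`. -/
def IsDer (p : ℕ) {G Q : Type} [Group G] [Group Q] (φ : G →* Q) (δ : G → GA p Q) : Prop :=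
  ∀ g h, δ (g * h) = δ g + MonoidAlgebra.of (ZMod p) Q (φ g) * δ h

/-- The derivation `δ` is locally constant. -/
def LocConst {G : Type} {V : Type} [Group G] [TopologicalSpace G] [Zero V] (δ : G → V) : Prop :=
  ∃ N : Subgroup G, IsOpen (N : Set G) ∧ ∀ g ∈ N, δ g = 0

/-- The elements of `Ef p D k` which are mapped by left multiplication by `x - 1` (`x` of weight
`v`) to weight larger than `k + v`. -/
noncomputable def Kr (p : ℕ) {Q : Type} [Group Q] (D : ℕ → Subgroup Q) (x : Q) (v : ℕ) (k : ℤ) :
    Submodule (ZMod p) (GA p Q) :=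
  Ef p D k ⊓ (Ef p D (k + v + 1)).comap (LinearMap.mulLeft (ZMod p) (dl p x))

/-- The values on the `x i` of the locally constant derivations `G → V`. -/
def Derv (p : ℕ) {m : ℕ} {G Q : Type} [Group G] [TopologicalSpace G] [Group Q] (x : Idx m → G)
    (φ : G →* Q) : Submodule (ZMod p) (Idx m → GA p Q) where
  carrier := {v | ∃ δ : G → GA p Q, IsDer p φ δ ∧ LocConst δ ∧ ∀ i, δ (x i) = v i}
  zero_mem' := ⟨fun _ => 0, fun g h => by simp, ⟨⊤, by simp, fun g _ => rfl⟩, fun i => rfl⟩
  add_mem' := by
    rintro v v' ⟨δ, h1, ⟨N, hN, hN0⟩, h2⟩ ⟨δ', h1', ⟨N', hN', hN0'⟩, h2'⟩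
    refine ⟨fun g => δ g + δ' g, fun g h => ?_, ⟨N ⊓ N', hN.inter hN', fun g hg => ?_⟩, fun i => ?_⟩
    · simp only [h1 g h, h1' g h, mul_add]
      abel
    · simp only [hN0 g hg.1, hN0' g hg.2, add_zero]
    · simp only [h2, h2', Pi.add_apply]
  smul_mem' := by
    rintro c v ⟨δ, h1, ⟨N, hN, hN0⟩, h2⟩
    refine ⟨fun g => c • δ g, fun g h => ?_, ⟨N, hN, fun g hg => ?_⟩, fun i => ?_⟩
    · simp only [h1 g h, smul_add, mul_smul_comm]
    · simp only [hN0 g hg, smul_zero]
    · simp only [h2, Pi.smul_apply]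

/-- A family of homomorphisms from the subgroup `U` to `ℤ / p`, with open kernels, linearly
independent over `ℤ / p`. -/
def IndepHoms (p : ℕ) {G : Type} [Group G] [TopologicalSpace G] (U : Subgroup G) (r : ℕ)
    (f : Fin r → U →* Multiplicative (ZMod p)) : Prop :=
  (∀ t, IsOpen (((f t).ker.map U.subtype : Subgroup G) : Set G)) ∧
    LinearIndependent (ZMod p) fun t => fun u : U => Multiplicative.toAdd (f t u)

end Pool.Agent.RG
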