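import Mathlib
import Pool.Agent.Lib.RG.PDefs

/-!
PART P, row P01: the kernel lemma behind the Vinberg inequality.
Proof: `g i j` = the part of `f i` consisting of the words ending in `j`, with the last letter removed. If
`∑ c j X j` is in `J f n` write the element as `∑ u f_i v + (words of weight > n)`: the terms with `v`
empty give `a i`; if `v = v' j` then `u f_i v'` is in `J f (anything)`; compare the words ending
in `j` (the map removing the last letter `j` is well defined on all words).
-/

set_option autoImplicit false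

namespace Pool.Agent.RG

open scoped Classical

variable {F : Type} [Field F] {m : ℕ}

theorem P01_word_cases (w : FreeMonoid (Idx m)) :
    w = 1 ∨ ∃ w' k, w = w' * FreeMonoid.of k := by
  rcases List.eq_nil_or_concat (FreeMonoid.toList w) with h | ⟨L, b, h⟩
  · left
    exact FreeMonoid.toList.injective h
  · right
    refine ⟨FreeMonoid.ofList L, b, FreeMonoid.toList.injective ?_⟩
    rw [h, FreeMonoid.toList_mul, FreeMonoid.toList_of, FreeMonoid.toList_ofList,
      List.concat_eq_append]

theorem P01_word_inj {w w' : FreeMonoid (Idx m)} {j k : Idx m}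
    (h : w * FreeMonoid.of j = w' * FreeMonoid.of k) : w = w' ∧ j = k := by
  have h1 := congrArg FreeMonoid.toList h
  rw [FreeMonoid.toList_mul, FreeMonoid.toList_mul, FreeMonoid.toList_of,
    FreeMonoid.toList_of] at h1
  obtain ⟨h2, h3⟩ := List.append_inj' h1 rfl
  exact ⟨FreeMonoid.toList.injective h2, List.singleton_injective h3⟩

theorem P01_word_ne {w : FreeMonoid (Idx m)} {j : Idx m} : w * FreeMonoid.of j ≠ 1 := by
  intro h
  have h1 := congrArg FreeMonoid.toList h
  rw [FreeMonoid.toList_mul, FreeMonoid.toList_of, FreeMonoid.toList_one] at h1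
  exact absurd h1 (by simp)

theorem P01_wl_one : wl (1 : FreeMonoid (Idx m)) = 0 := rfl

theorem P01_wl_mul (u v : FreeMonoid (Idx m)) : wl (u * v) = wl u + wl v := by
  unfold wl
  rw [FreeMonoid.toList_mul, List.map_append, List.sum_append]

theorem P01_wl_of (i : Idx m) : wl (FreeMonoid.of i) = wt i := by
  unfold wl
  rw [FreeMonoid.toList_of, List.map_singleton, List.sum_singleton]

theorem P01_wt_ge (i : Idx m) : 2 ≤ wt i := by
  cases i with
  | inl r => exact le_rfl
  | inr r => exact Nat.le_succ 2

theorem P01_wt_le (i : Idx m) : wt i ≤ 3 := by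
  cases i with
  | inl r => exact Nat.le_succ 2
  | inr r => exact le_rfl

theorem P01_wd_mul (u v : FreeMonoid (Idx m)) : (wd (u * v) : FA F m) = wd u * wd v :=
  map_mul (MonoidAlgebra.of F (FreeMonoid (Idx m))) u v

theorem P01_wd_one : (wd 1 : FA F m) = 1 := map_one (MonoidAlgebra.of F (FreeMonoid (Idx m)))

/-- the linear map removing the last letter `j` -/
noncomputable def P01_rm (j : Idx m) : FA F m →ₗ[F] FA F m :=
  (MonoidAlgebra.basis (FreeMonoid (Idx m)) F).constr F fun w =>
    if h : ∃ w', w = w' * FreeMonoid.of j then wd h.choose else 0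

theorem P01_rm_wd (j : Idx m) (w : FreeMonoid (Idx m)) :
    P01_rm j (wd w : FA F m) = if h : ∃ w', w = w' * FreeMonoid.of j then wd h.choose else 0 := by
  have h1 : (wd w : FA F m) = MonoidAlgebra.basis (FreeMonoid (Idx m)) F w := by
    rw [MonoidAlgebra.basis_apply]
    rfl
  rw [h1, P01_rm, Module.Basis.constr_basis]

theorem P01_rm_one (j : Idx m) : P01_rm j (1 : FA F m) = 0 := by
  rw [← P01_wd_one, P01_rm_wd, dif_neg]
  rintro ⟨w', h⟩
  exact P01_word_ne h.symm

theorem P01_rm_mul_X (j k : Idx m) (x : FA F m) : P01_rm j (x * X k) = if k = j then x else 0 := by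
  induction x using MonoidAlgebra.induction_on with
  | of w =>
    change P01_rm j (wd w * wd (FreeMonoid.of k)) = if k = j then wd w else 0
    rw [← P01_wd_mul, P01_rm_wd]
    by_cases hk : k = j
    · subst hk
      have hex : ∃ w', w * FreeMonoid.of k = w' * FreeMonoid.of k := ⟨w, rfl⟩
      rw [dif_pos hex, if_pos rfl, (P01_word_inj hex.choose_spec).1.symm]
    · rw [if_neg hk, dif_neg]
      rintro ⟨w', h⟩
      exact hk (P01_word_inj h).2
  | add x y hx hy =>
    rw [add_mul, map_add, hx, hy]
    split_ifs <;> simp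
  | smul r x hx =>
    rw [smul_mul_assoc, map_smul, hx]
    split_ifs <;> simp

/-- the augmentation -/
noncomputable def P01_eps : FA F m →ₐ[F] F :=
  MonoidAlgebra.lift F F (FreeMonoid (Idx m)) (FreeMonoid.lift fun _ => 0)

theorem P01_eps_X (j : Idx m) : P01_eps (X j : FA F m) = 0 := by
  unfold P01_eps X wd
  rw [MonoidAlgebra.lift_of, FreeMonoid.lift_eval_of]

theorem P01_eps_wd (w : FreeMonoid (Idx m)) (h : 0 < wl w) : P01_eps (wd w : FA F m) = 0 := by
  rcases P01_word_cases w with rfl | ⟨w', k, rfl⟩
  · exact absurd h (lt_irrefl _)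
  · rw [P01_wd_mul, map_mul]
    have h1 : P01_eps (wd (FreeMonoid.of k) : FA F m) = 0 := P01_eps_X k
    rw [h1, mul_zero]

theorem P01_rm_mul (j : Idx m) (a x : FA F m) :
    P01_rm j (a * x) = a * P01_rm j x + P01_eps x • P01_rm j a := by
  induction x using MonoidAlgebra.induction_on with
  | of w =>
    change P01_rm j (a * wd w) = a * P01_rm j (wd w) + P01_eps (wd w : FA F m) • P01_rm j a
    rcases P01_word_cases w with rfl | ⟨w', k, rfl⟩
    · rw [P01_wd_one, mul_one, P01_rm_one, map_one, mul_zero, zero_add, one_smul]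
    · have h1 : (wd (w' * FreeMonoid.of k) : FA F m) = wd w' * X k := P01_wd_mul _ _
      rw [h1, ← mul_assoc, P01_rm_mul_X, P01_rm_mul_X, map_mul, P01_eps_X, mul_zero, zero_smul,
        add_zero]
      split_ifs <;> simp
  | add x y hx hy =>
    rw [mul_add, map_add, hx, hy, map_add, map_add, mul_add, add_smul]
    abel
  | smul r x hx =>
    rw [mul_smul_comm, map_smul, hx, map_smul, map_smul, mul_smul_comm, smul_add, smul_assoc]

theorem P01_expand (x : FA F m) : x = P01_eps x • (1 : FA F m) + ∑ j, P01_rm j x * X j := by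
  induction x using MonoidAlgebra.induction_on with
  | of w =>
    change wd w = P01_eps (wd w : FA F m) • (1 : FA F m) + ∑ j, P01_rm j (wd w : FA F m) * X j
    rcases P01_word_cases w with rfl | ⟨w', k, rfl⟩
    · rw [P01_wd_one, map_one, one_smul]
      have h1 : ∑ j, P01_rm j (1 : FA F m) * X j = 0 :=
        Finset.sum_eq_zero fun j _ => by rw [P01_rm_one, zero_mul]
      rw [h1, add_zero]
    · have h1 : (wd (w' * FreeMonoid.of k) : FA F m) = wd w' * X k := P01_wd_mul _ _
      rw [h1, map_mul, P01_eps_X, mul_zero, zero_smul, zero_add, Finset.sum_eq_single k]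
      · rw [P01_rm_mul_X, if_pos rfl]
      · intro j _ hj
        rw [P01_rm_mul_X, if_neg hj.symm, zero_mul]
      · intro h
        exact absurd (Finset.mem_univ k) h
  | add x y hx hy =>
    have h1 : ∑ j, P01_rm j (x + y) * X j =
        ∑ j, P01_rm j x * X j + ∑ j, P01_rm j y * X j := by
      rw [← Finset.sum_add_distrib]
      exact Finset.sum_congr rfl fun j _ => by rw [map_add, add_mul]
    rw [h1, map_add, add_smul]
    conv_lhs => rw [hx, hy]
    abel
  | smul r x hx =>
    have h1 : ∑ j, P01_rm j (r • x) * X j = r • ∑ j, P01_rm j x * X j := by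
      rw [Finset.smul_sum]
      exact Finset.sum_congr rfl fun j _ => by rw [map_smul, smul_mul_assoc]
    rw [h1, map_smul, smul_assoc, ← smul_add, ← hx]

theorem P01_Pge_mono {a b : ℤ} (h : a ≤ b) : Pge F m b ≤ Pge F m a := by
  apply Submodule.span_mono
  rintro _ ⟨w, hw, rfl⟩
  exact ⟨w, h.trans hw, rfl⟩

theorem P01_wd_Pge {a : ℤ} {w : FreeMonoid (Idx m)} (h : a ≤ wl w) : (wd w : FA F m) ∈ Pge F m a :=
  Submodule.subset_span ⟨w, h, rfl⟩

theorem P01_X_Pge (i : Idx m) : (X i : FA F m) ∈ Pge F m (wt i) :=
  P01_wd_Pge (by rw [P01_wl_of])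

theorem P01_Pge_mul {a b : ℤ} {x y : FA F m} (hx : x ∈ Pge F m a) (hy : y ∈ Pge F m b) :
    x * y ∈ Pge F m (a + b) := by
  induction hx using Submodule.span_induction with
  | mem x hx =>
    obtain ⟨w, hw, rfl⟩ := hx
    induction hy using Submodule.span_induction with
    | mem y hy =>
      obtain ⟨w', hw', rfl⟩ := hy
      rw [← P01_wd_mul]
      refine P01_wd_Pge ?_
      rw [P01_wl_mul]
      push_cast
      omega
    | zero => rw [mul_zero]; exact Submodule.zero_mem _
    | add y z _ _ hy hz => rw [mul_add]; exact Submodule.add_mem _ hy hz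
    | smul c y _ hy => rw [mul_smul_comm]; exact Submodule.smul_mem _ _ hy
  | zero => rw [zero_mul]; exact Submodule.zero_mem _
  | add y z _ _ hy hz => rw [add_mul]; exact Submodule.add_mem _ hy hz
  | smul c y _ hy => rw [smul_mul_assoc]; exact Submodule.smul_mem _ _ hy

theorem P01_rm_Pge {a : ℤ} {x : FA F m} (hx : x ∈ Pge F m a) (j : Idx m) :
    P01_rm j x ∈ Pge F m (a - wt j) := by
  induction hx using Submodule.span_induction with
  | mem x hx =>
    obtain ⟨w, hw, rfl⟩ := hx
    rcases P01_word_cases w with rfl | ⟨w', k, rfl⟩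
    · rw [P01_wd_one, P01_rm_one]
      exact Submodule.zero_mem _
    · have h1 : (wd (w' * FreeMonoid.of k) : FA F m) = wd w' * X k := P01_wd_mul _ _
      rw [h1, P01_rm_mul_X]
      split_ifs with hk
      · refine P01_wd_Pge ?_
        rw [P01_wl_mul, P01_wl_of, hk] at hw
        push_cast at hw
        omega
      · exact Submodule.zero_mem _
  | zero => rw [map_zero]; exact Submodule.zero_mem _
  | add y z _ _ hy hz => rw [map_add]; exact Submodule.add_mem _ hy hz
  | smul c y _ hy => rw [map_smul]; exact Submodule.smul_mem _ _ hy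

theorem P01_eps_Pge {a : ℤ} (ha : 0 < a) {x : FA F m} (hx : x ∈ Pge F m a) : P01_eps x = 0 := by
  induction hx using Submodule.span_induction with
  | mem x hx =>
    obtain ⟨w, hw, rfl⟩ := hx
    exact P01_eps_wd w (by omega)
  | zero => rw [map_zero]
  | add y z _ _ hy hz => rw [map_add, hy, hz, add_zero]
  | smul c y _ hy => rw [map_smul, hy, smul_zero]

theorem P01_wt_nx [NeZero m] (i : Idx m) : wt i + wt (nx i) = 5 := by
  cases i <;> rfl

theorem P01_shape [NeZero m] {l : Idx m → F} {f : Idx m → FA F m} (hf : Shape l f) (i : Idx m) :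
    f i ∈ Pge F m 5 := by
  have h1 := P01_Pge_mono (show (5 : ℤ) ≤ 6 by norm_num) (hf i).2
  have h2 : X (nx i) * X i - X i * X (nx i) ∈ Pge F m 5 := by
    have h3 := P01_wt_nx i
    refine Submodule.sub_mem _ ?_ ?_
    · refine P01_Pge_mono ?_ (P01_Pge_mul (P01_X_Pge (nx i)) (P01_X_Pge i))
      omega
    · refine P01_Pge_mono ?_ (P01_Pge_mul (P01_X_Pge i) (P01_X_Pge (nx i)))
      omega
  have h3 := Submodule.add_mem _ h1 (Submodule.smul_mem _ (l i) h2)
  rwa [sub_add_cancel] at h3

section J

variable {f : Idx m → FA F m}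

theorem P01_smul_mem {I : Ideal (FA F m)} (c : F) {x : FA F m} (hx : x ∈ I) : c • x ∈ I := by
  have h1 : c • x = (c • (1 : FA F m)) * x := by rw [smul_mul_assoc, one_mul]
  rw [h1]
  exact I.mul_mem_left _ hx

theorem P01_J_wd {n : ℤ} {w : FreeMonoid (Idx m)} (h : n < wl w) : wd w ∈ J f n :=
  Ideal.subset_span (Or.inr ⟨w, h, rfl⟩)

theorem P01_J_rel (n : ℤ) (i : Idx m) (x : FA F m) : f i * x ∈ J f n := by
  induction x using MonoidAlgebra.induction_on with
  | of w => exact Ideal.subset_span (Or.inl ⟨i, w, rfl⟩)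
  | add x y hx hy => rw [mul_add]; exact (J f n).add_mem hx hy
  | smul r x hx => rw [mul_smul_comm]; exact P01_smul_mem r hx

theorem P01_J_Pge {n k : ℤ} (h : n < k) {x : FA F m} (hx : x ∈ Pge F m k) : x ∈ J f n := by
  induction hx using Submodule.span_induction with
  | mem x hx =>
    obtain ⟨w, hw, rfl⟩ := hx
    exact P01_J_wd (h.trans_le hw)
  | zero => exact (J f n).zero_mem
  | add y z _ _ hy hz => exact (J f n).add_mem hy hz
  | smul c y _ hy => exact P01_smul_mem c hy

theorem P01_J_mul {a k : ℤ} {x y : FA F m} (hx : x ∈ J f a) (hy : y ∈ Pge F m k) :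
    x * y ∈ J f (a + k) := by
  induction hx using Submodule.span_induction with
  | mem x hx =>
    rcases hx with ⟨i, w, rfl⟩ | ⟨w, hw, rfl⟩
    · rw [mul_assoc]
      exact P01_J_rel _ _ _
    · refine P01_J_Pge (k := wl w + k) (by omega) (P01_Pge_mul (P01_wd_Pge le_rfl) hy)
  | zero => rw [zero_mul]; exact (J f _).zero_mem
  | add y z _ _ hy hz => rw [add_mul]; exact (J f _).add_mem hy hz
  | smul c y _ hy => rw [smul_eq_mul, mul_assoc]; exact (J f _).mul_mem_left _ hy

theorem P01_J_mono {a b : ℤ} (h : a ≤ b) : J f b ≤ J f a := by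
  apply Ideal.span_mono
  rintro x (hx | ⟨w, hw, rfl⟩)
  · exact Or.inl hx
  · exact Or.inr ⟨w, h.trans_lt hw, rfl⟩

theorem P01_J_neg {n : ℤ} (h : n < 0) : J f n = ⊤ := by
  rw [Ideal.eq_top_iff_one, ← P01_wd_one]
  exact P01_J_wd (by rw [P01_wl_one]; exact_mod_cast h)

theorem P01_eps_J [NeZero m] {l : Idx m → F} (hf : Shape l f) {n : ℤ} (hn : 0 ≤ n) {x : FA F m}
    (hx : x ∈ J f n) : P01_eps x = 0 := by
  induction hx using Submodule.span_induction with
  | mem x hx =>
    rcases hx with ⟨i, w, rfl⟩ | ⟨w, hw, rfl⟩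
    · rw [map_mul, P01_eps_Pge (by norm_num) (P01_shape hf i), zero_mul]
    · exact P01_eps_wd w (by omega)
  | zero => rw [map_zero]
  | add y z _ _ hy hz => rw [map_add, hy, hz, add_zero]
  | smul c y _ hy => rw [smul_eq_mul, map_mul, hy, mul_zero]

end J

theorem P01_kernel [NeZero m] (l : Idx m → F) (f : Idx m → FA F m) (hf : Shape l f) :
    ∃ g : Idx m → Idx m → FA F m, (∀ i, f i = ∑ j, g i j * X j) ∧
      (∀ i j, g i j ∈ Pge F m (5 - wt j)) ∧
      ∀ (n : ℤ) (c : Idx m → FA F m), ∑ j, c j * X j ∈ J f n →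
        ∃ a : Idx m → FA F m, ∀ j, c j - ∑ i, a i * g i j ∈ J f (n - wt j) := by
  refine ⟨fun i j => P01_rm j (f i), fun i => ?_, fun i j => P01_rm_Pge (P01_shape hf i) j, ?_⟩
  · have h1 := P01_expand (f i)
    rw [P01_eps_Pge (by norm_num) (P01_shape hf i), zero_smul, zero_add] at h1
    exact h1
  · intro n c hc
    by_cases hn : 0 ≤ n
    · have key : ∀ x ∈ J f n, ∃ a : Idx m → FA F m,
          ∀ j, P01_rm j x - ∑ i, a i * P01_rm j (f i) ∈ J f (n - wt j) := by
        intro x hx
        induction hx using Submodule.span_induction with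
        | mem x hx =>
          rcases hx with ⟨i, w, rfl⟩ | ⟨w, hw, rfl⟩
          · rcases P01_word_cases w with rfl | ⟨w', k, rfl⟩
            · refine ⟨fun i' => if i' = i then 1 else 0, fun j => ?_⟩
              rw [P01_wd_one, mul_one, Finset.sum_eq_single i]
              · simp only [if_true]
                rw [one_mul, sub_self]
                exact (J f _).zero_mem
              · intro i' _ hi'
                simp only [if_neg hi']
                rw [zero_mul]
              · intro h
                exact absurd (Finset.mem_univ i) h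
            · refine ⟨0, fun j => ?_⟩
              have h1 : (wd (w' * FreeMonoid.of k) : FA F m) = wd w' * X k := P01_wd_mul _ _
              have h2 : ∑ i', (0 : Idx m → FA F m) i' * P01_rm j (f i') = 0 :=
                Finset.sum_eq_zero fun i' _ => by rw [Pi.zero_apply, zero_mul]
              rw [h1, h2, sub_zero, ← mul_assoc, P01_rm_mul_X]
              split_ifs
              · exact P01_J_rel _ _ _
              · exact (J f _).zero_mem
          · refine ⟨0, fun j => ?_⟩
            have h2 : ∑ i', (0 : Idx m → FA F m) i' * P01_rm j (f i') = 0 :=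
              Finset.sum_eq_zero fun i' _ => by rw [Pi.zero_apply, zero_mul]
            rw [h2, sub_zero]
            exact P01_J_Pge (k := wl w - wt j) (by omega) (P01_rm_Pge (P01_wd_Pge le_rfl) j)
        | zero =>
          refine ⟨0, fun j => ?_⟩
          have h2 : ∑ i', (0 : Idx m → FA F m) i' * P01_rm j (f i') = 0 :=
            Finset.sum_eq_zero fun i' _ => by rw [Pi.zero_apply, zero_mul]
          rw [h2, sub_zero, map_zero]
          exact (J f _).zero_mem
        | add x y _ _ hx hy =>
          obtain ⟨a, ha⟩ := hx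
          obtain ⟨b, hb⟩ := hy
          refine ⟨a + b, fun j => ?_⟩
          have h2 : ∑ i, (a + b) i * P01_rm j (f i) =
              ∑ i, a i * P01_rm j (f i) + ∑ i, b i * P01_rm j (f i) := by
            rw [← Finset.sum_add_distrib]
            exact Finset.sum_congr rfl fun i _ => by rw [Pi.add_apply, add_mul]
          have h3 := (J f _).add_mem (ha j) (hb j)
          rw [map_add, h2]
          have h4 : P01_rm j x + P01_rm j y -
              (∑ i, a i * P01_rm j (f i) + ∑ i, b i * P01_rm j (f i)) =
              P01_rm j x - ∑ i, a i * P01_rm j (f i) +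
              (P01_rm j y - ∑ i, b i * P01_rm j (f i)) := by abel
          rw [h4]
          exact h3
        | smul c y hy' hy =>
          obtain ⟨a, ha⟩ := hy
          refine ⟨fun i => c * a i, fun j => ?_⟩
          have h2 : ∑ i, c * a i * P01_rm j (f i) = c * ∑ i, a i * P01_rm j (f i) := by
            rw [Finset.mul_sum]
            exact Finset.sum_congr rfl fun i _ => mul_assoc _ _ _
          rw [smul_eq_mul, P01_rm_mul, P01_eps_J hf hn hy', zero_smul, add_zero, h2, ← mul_sub]
          exact (J f _).mul_mem_left _ (ha j)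
      obtain ⟨a, ha⟩ := key _ hc
      refine ⟨a, fun j => ?_⟩
      have h1 : P01_rm j (∑ k, c k * X k) = c j := by
        rw [map_sum, Finset.sum_eq_single j]
        · rw [P01_rm_mul_X, if_pos rfl]
        · intro k _ hk
          rw [P01_rm_mul_X, if_neg hk]
        · intro h
          exact absurd (Finset.mem_univ j) h
      have h2 := ha j
      rwa [h1] at h2
    · refine ⟨0, fun j => ?_⟩
      rw [P01_J_neg (by omega)]
      exact Submodule.mem_top

end Pool.Agent.RG
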