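import Mathlib
import Pool.Agent.Lib.RG.P01

/-!
PART P, row P02: the Vinberg (Golod-Shafarevich) inequality for the numbers `bd f n`.
Proof: theta : (+)_j T/J(n - wt j) -> T/J n, (c_j) -> sum c_j X_j has range of codimension at most one
(`1 ∉ J f n + (span of nonempty words)` for `0 ≤ n`, and every nonempty word ends in a letter),
precisely: range = image of the nonempty words, so its dimension is bd f n - 1; its kernel is contained in the range of
(+)_i T/J(n-5) -> (+)_j T/J(n - wt j), a -> (sum_i a_i g i j)_j (P01), of dimension at most 2m bd f (n-5).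
All quotients are finite dimensional.
-/

set_option autoImplicit false

namespace Pool.Agent.RG

open scoped Classical

variable {F : Type} [Field F] {m : ℕ}

theorem P02_length (w : FreeMonoid (Idx m)) : 2 * (FreeMonoid.toList w).length ≤ wl w := by
  unfold wl
  induction FreeMonoid.toList w with
  | nil => exact le_rfl
  | cons a L ih =>
    rw [List.map_cons, List.sum_cons, List.length_cons]
    have := P01_wt_ge a
    omega

theorem P02_words_finite (n : ℤ) : {w : FreeMonoid (Idx m) | (wl w : ℤ) ≤ n}.Finite := by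
  have h1 : {L : List (Idx m) | L.length ≤ n.toNat}.Finite := List.finite_length_le _ _
  refine (h1.preimage (f := FreeMonoid.toList) FreeMonoid.toList.injective.injOn).subset ?_
  intro w hw
  have h2 := P02_length w
  have h3 : (wl w : ℤ) ≤ n := hw
  show (FreeMonoid.toList w).length ≤ n.toNat
  omega

theorem P02_finite (f : Idx m → FA F m) (n : ℤ) : Module.Finite F (FA F m ⧸ J f n) := by
  have hfin : ((fun w : FreeMonoid (Idx m) => (Submodule.Quotient.mk (wd w) : FA F m ⧸ J f n)) ''
      {w | (wl w : ℤ) ≤ n}).Finite := (P02_words_finite n).image _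
  refine ⟨⟨hfin.toFinset, ?_⟩⟩
  rw [Set.Finite.coe_toFinset, eq_top_iff]
  rintro x -
  obtain ⟨y, rfl⟩ := Submodule.Quotient.mk_surjective _ x
  induction y using MonoidAlgebra.induction_on with
  | of w =>
    by_cases hw : (wl w : ℤ) ≤ n
    · exact Submodule.subset_span ⟨w, hw, rfl⟩
    · have h1 : (Submodule.Quotient.mk (wd w) : FA F m ⧸ J f n) = 0 :=
        (Submodule.Quotient.mk_eq_zero _).2 (P01_J_wd (by omega))
      change Submodule.Quotient.mk (wd w) ∈ _
      rw [h1]
      exact Submodule.zero_mem _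
  | add y z hy hz =>
    rw [Submodule.Quotient.mk_add]
    exact Submodule.add_mem _ hy hz
  | smul c y hy =>
    rw [Submodule.Quotient.mk_smul]
    exact Submodule.smul_mem _ _ hy

/-- right multiplication by `y`, from the quotient by `J f a` to the quotient by `J f b` -/
noncomputable def P02_mul (f : Idx m → FA F m) {a b : ℤ} (y : FA F m) (h : ∀ x ∈ J f a, x * y ∈ J f b) :
    (FA F m ⧸ J f a) →ₗ[FA F m] (FA F m ⧸ J f b) :=
  Submodule.mapQ (J f a) (J f b) (LinearMap.toSpanSingleton (FA F m) (FA F m) y) h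

theorem P02_mul_mk (f : Idx m → FA F m) {a b : ℤ} (y : FA F m) (h : ∀ x ∈ J f a, x * y ∈ J f b)
    (x : FA F m) : P02_mul f y h (Submodule.Quotient.mk x) = Submodule.Quotient.mk (x * y) := rfl

theorem P02_vinberg [NeZero m] (l : Idx m → F) (f : Idx m → FA F m) (hf : Shape l f) (n : ℤ)
    (hn : 0 ≤ n) :
    1 + ∑ j : Idx m, bd f (n - wt j) ≤ bd f n + 2 * m * bd f (n - 5) := by
  obtain ⟨g, hg1, hg2, hg3⟩ := P01_kernel l f hf
  have hfin : ∀ k : ℤ, Module.Finite F (FA F m ⧸ J f k) := P02_finite f
  have hX : ∀ j : Idx m, ∀ x ∈ J f (n - wt j), x * X j ∈ J f n := by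
    intro j x hx
    have h1 := P01_J_mul hx (P01_X_Pge j)
    rwa [sub_add_cancel] at h1
  have hG : ∀ i j : Idx m, ∀ x ∈ J f (n - 5), x * g i j ∈ J f (n - wt j) := by
    intro i j x hx
    have h1 := P01_J_mul hx (hg2 i j)
    rwa [show n - 5 + (5 - (wt j : ℤ)) = n - wt j by ring] at h1
  let θ : (∀ j : Idx m, FA F m ⧸ J f (n - wt j)) →ₗ[FA F m] (FA F m ⧸ J f n) :=
    ∑ j, (P02_mul f (X j) (hX j)).comp (LinearMap.proj j)
  let κ : (Idx m → FA F m ⧸ J f (n - 5)) →ₗ[FA F m] (∀ j : Idx m, FA F m ⧸ J f (n - wt j)) :=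
    LinearMap.pi fun j => ∑ i, (P02_mul f (g i j) (hG i j)).comp (LinearMap.proj i)
  have hθ : ∀ c : Idx m → FA F m, θ (fun j => Submodule.Quotient.mk (c j)) =
      Submodule.Quotient.mk (∑ j, c j * X j) := by
    intro c
    show (∑ j, (P02_mul f (X j) (hX j)).comp (LinearMap.proj j)) _ = _
    rw [LinearMap.sum_apply]
    have h1 : (Submodule.Quotient.mk (∑ j, c j * X j) : FA F m ⧸ J f n) =
        ∑ j, Submodule.Quotient.mk (c j * X j) := map_sum (Submodule.mkQ (J f n)) _ _
    rw [h1]
    rfl
  have hκ : ∀ a : Idx m → FA F m, κ (fun j => Submodule.Quotient.mk (a j)) =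
      fun j => Submodule.Quotient.mk (∑ i, a i * g i j) := by
    intro a
    funext j
    show (∑ i, (P02_mul f (g i j) (hG i j)).comp (LinearMap.proj i)) _ = _
    rw [LinearMap.sum_apply]
    have h1 : (Submodule.Quotient.mk (∑ i, a i * g i j) : FA F m ⧸ J f (n - wt j)) =
        ∑ i, Submodule.Quotient.mk (a i * g i j) := map_sum (Submodule.mkQ (J f (n - wt j))) _ _
    rw [h1]
    rfl
  let θ' := θ.restrictScalars F
  let κ' := κ.restrictScalars F
  have hker : LinearMap.ker θ' ≤ LinearMap.range κ' := by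
    intro v hv
    have hex : ∀ j, ∃ c : FA F m, (Submodule.Quotient.mk c : FA F m ⧸ J f (n - wt j)) = v j :=
      fun j => Submodule.Quotient.mk_surjective _ (v j)
    choose c hc using hex
    have hv1 : θ v = 0 := hv
    have hv2 : v = fun j => Submodule.Quotient.mk (c j) := funext fun j => (hc j).symm
    rw [hv2, hθ, Submodule.Quotient.mk_eq_zero] at hv1
    obtain ⟨a, ha⟩ := hg3 n c hv1
    refine ⟨fun j => Submodule.Quotient.mk (a j), ?_⟩
    show κ _ = v
    rw [hκ, hv2]
    funext j
    exact ((Submodule.Quotient.eq _).2 (ha j)).symm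
  have h1 : Module.finrank F (LinearMap.ker θ') ≤ 2 * m * bd f (n - 5) := by
    refine (Submodule.finrank_mono hker).trans ((LinearMap.finrank_range_le κ').trans ?_)
    rw [Module.finrank_pi_fintype]
    rw [Finset.sum_const, Finset.card_univ, Fintype.card_sum, Fintype.card_fin, smul_eq_mul]
    unfold bd
    apply le_of_eq
    ring
  have h2 : Module.finrank F (LinearMap.range θ') < bd f n := by
    refine Submodule.finrank_lt ?_
    intro htop
    have h3 : (Submodule.Quotient.mk (1 : FA F m) : FA F m ⧸ J f n) ∈ LinearMap.range θ' := by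
      rw [htop]
      exact Submodule.mem_top
    obtain ⟨v, hv⟩ := h3
    have hex : ∀ j, ∃ c : FA F m, (Submodule.Quotient.mk c : FA F m ⧸ J f (n - wt j)) = v j :=
      fun j => Submodule.Quotient.mk_surjective _ (v j)
    choose c hc using hex
    have hv1 : θ v = Submodule.Quotient.mk 1 := hv
    have hv2 : v = fun j => Submodule.Quotient.mk (c j) := funext fun j => (hc j).symm
    rw [hv2, hθ, Submodule.Quotient.eq] at hv1
    have h4 := P01_eps_J hf hn hv1
    rw [map_sub, map_sum, map_one] at h4
    have h5 : ∑ j, P01_eps (c j * X j) = 0 := Finset.sum_eq_zero fun j _ => by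
      rw [map_mul, P01_eps_X, mul_zero]
    rw [h5, zero_sub] at h4
    exact one_ne_zero (neg_eq_zero.1 h4)
  have h3 := LinearMap.finrank_range_add_finrank_ker θ'
  rw [Module.finrank_pi_fintype] at h3
  have h4 : ∑ j : Idx m, bd f (n - wt j) =
      ∑ j : Idx m, Module.finrank F (FA F m ⧸ J f (n - wt j)) := rfl
  omega

end Pool.Agent.RG
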