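import Mathlib
import Pool.Agent.Lib.RG.PDefs

/-!
PART P, row P03: the normal words of weight at most `n` span the algebra modulo `J f n`.
Proof: for a word u a s v with a bad pair (a,s): a s = s a + (weight >= 6) modulo the relation f_i with {a,s} = {i, nx i}
(l_i <> 0), so u a s v = u s a v + (words of larger weight) mod J. Induction: decreasing weight (words of weight > n are in J), then
the number of pairs (position of an `a` before a position of an `s`), which decreases.
-/

set_option autoImplicit false

namespace Pool.Agent.RG

open scoped Classical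

variable {F : Type} [Field F] {m : ℕ}

private def isS : Idx m → Bool
  | Sum.inl _ => false
  | Sum.inr _ => true

private def inv : List (Idx m) → ℕ
  | [] => 0
  | i :: l => (if isS i then 0 else l.countP isS) + inv l

private lemma countP_swap (u v : List (Idx m)) (i j : Idx m) :
    (u ++ i :: j :: v).countP isS = (u ++ j :: i :: v).countP isS := by
  simp only [List.countP_append, List.countP_cons]
  omega

private lemma inv_swap (u v : List (Idx m)) (r t : Fin m) :
    inv (u ++ Sum.inr t :: Sum.inl r :: v) < inv (u ++ Sum.inl r :: Sum.inr t :: v) := by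
  induction u with
  | nil =>
    simp only [List.nil_append, inv, isS, List.countP_cons]
    simp
  | cons a u ih =>
    simp only [List.cons_append, inv]
    rw [countP_swap u v (Sum.inr t) (Sum.inl r)]
    omega

private lemma wl_mul (u v : FreeMonoid (Idx m)) : wl (u * v) = wl u + wl v := by
  simp [wl, FreeMonoid.toList_mul, List.map_append, List.sum_append]

private lemma wd_mul (u v : FreeMonoid (Idx m)) : (wd (u * v) : FA F m) = wd u * wd v := by
  simp [wd]

private lemma wl_of (i : Idx m) : wl (FreeMonoid.of i) = wt i := by
  simp [wl]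

private lemma exists_bad [NeZero m] (l : List (Idx m))
    (h : ¬ List.IsChain (fun i j : Idx m => ¬ Bad i j) l) :
    ∃ u v i j, l = u ++ i :: j :: v ∧ Bad i j := by
  induction l with
  | nil => exact absurd List.IsChain.nil h
  | cons a l ih =>
    cases l with
    | nil => exact absurd (List.IsChain.singleton a) h
    | cons b l =>
      rw [List.isChain_cons_cons] at h
      by_cases hab : Bad a b
      · exact ⟨[], l, a, b, rfl, hab⟩
      · have h2 : ¬ List.IsChain (fun i j : Idx m => ¬ Bad i j) (b :: l) := fun h' => h ⟨hab, h'⟩
        obtain ⟨u, v, i, j, e, hb⟩ := ih h2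
        exact ⟨a :: u, v, i, j, by rw [e]; rfl, hb⟩

/-- the span of the normal words of weight at most `n` plus the ideal -/
private noncomputable def TT [NeZero m] (f : Idx m → FA F m) (n : ℤ) : Submodule F (FA F m) :=
  Submodule.span F {z : FA F m | ∃ w : FreeMonoid (Idx m),
    IsNormalWord w ∧ (wl w : ℤ) ≤ n ∧ z = wd w} ⊔ (J f n).restrictScalars F

private lemma J_rel (f : Idx m → FA F m) (n : ℤ) (i : Idx m) (u v : FreeMonoid (Idx m)) :
    wd u * f i * wd v ∈ J f n := by
  rw [mul_assoc]
  exact Ideal.mul_mem_left _ _ (Ideal.subset_span (Or.inl ⟨i, v, rfl⟩))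

private lemma J_big (f : Idx m → FA F m) (n : ℤ) (w : FreeMonoid (Idx m)) (h : n < wl w) :
    (wd w : FA F m) ∈ J f n :=
  Ideal.subset_span (Or.inr ⟨w, h, rfl⟩)

private lemma sandwich (S : Submodule F (FA F m)) (u v : FreeMonoid (Idx m)) (k : ℤ)
    (hS : ∀ w : FreeMonoid (Idx m), wl u + k + wl v ≤ wl w → wd w ∈ S) (g : FA F m)
    (hg : g ∈ Pge F m k) : wd u * g * wd v ∈ S := by
  refine Submodule.span_induction (p := fun g _ => wd u * g * wd v ∈ S) ?_ ?_ ?_ ?_ hg
  · rintro x ⟨w, hw, rfl⟩
    rw [← wd_mul, ← wd_mul]
    refine hS _ ?_
    rw [wl_mul, wl_mul]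
    push_cast
    omega
  · simp
  · intro x y _ _ hx hy
    rw [mul_add, add_mul]
    exact S.add_mem hx hy
  · intro c x _ hx
    rw [mul_smul_comm, smul_mul_assoc]
    exact S.smul_mem c hx

private lemma TT_word [NeZero m] (l : Idx m → F) (f : Idx m → FA F m) (hf : Shape l f) (n : ℤ) :
    ∀ (k : ℕ) (w : FreeMonoid (Idx m)), n - wl w < k → wd w ∈ TT f n := by
  intro k
  induction k with
  | zero =>
    intro w hw
    refine Submodule.mem_sup_right (J_big f n w ?_)
    push_cast at hw
    omega
  | succ k ihk =>
    suffices H : ∀ (t : ℕ) (w : FreeMonoid (Idx m)), inv (FreeMonoid.toList w) < t →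
        n - wl w < (k + 1 : ℕ) → wd w ∈ TT f n from
      fun w hw => H (inv (FreeMonoid.toList w) + 1) w (Nat.lt_succ_self _) hw
    intro t
    induction t with
    | zero => intro w hw; omega
    | succ t iht =>
      intro w hw hn
      by_cases hwn : n < wl w
      · exact Submodule.mem_sup_right (J_big f n w hwn)
      · by_cases hnw : IsNormalWord w
        · exact Submodule.mem_sup_left (Submodule.subset_span ⟨w, hnw, by omega, rfl⟩)
        · obtain ⟨u, v, i, j, e, hb⟩ := exists_bad _ hnw
          obtain ⟨⟨r, rfl⟩, ⟨s, rfl⟩, hij⟩ := hb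
          set u' := FreeMonoid.ofList u with hu'
          set v' := FreeMonoid.ofList v with hv'
          have ew : w = u' * FreeMonoid.of (Sum.inl r) * FreeMonoid.of (Sum.inr s) * v' := by
            apply FreeMonoid.toList.injective
            simp [FreeMonoid.toList_mul, e, hu', hv']
          have ewl : wl w = wl u' + 5 + wl v' := by
            rw [ew, wl_mul, wl_mul, wl_mul, wl_of, wl_of]
            simp only [wt]
          have hbig : ∀ g ∈ Pge F m 6, wd u' * g * wd v' ∈ TT f n := by
            intro g hg
            refine sandwich (TT f n) u' v' 6 (fun w' hw' => ihk w' ?_) g hg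
            push_cast at hn
            omega
          have hrel : ∀ i, wd u' * f i * wd v' ∈ TT f n :=
            fun i => Submodule.mem_sup_right (J_rel f n i u' v')
          have hsw : wd u' * (X (Sum.inr s) * X (Sum.inl r)) * wd v' ∈ TT f n := by
            have e2 : wd u' * (X (Sum.inr s) * X (Sum.inl r)) * wd v' =
                (wd (u' * FreeMonoid.of (Sum.inr s) * FreeMonoid.of (Sum.inl r) * v') : FA F m) := by
              simp only [wd_mul, X, mul_assoc]
            rw [e2]
            apply iht
            · have e3 : FreeMonoid.toList (u' * FreeMonoid.of (Sum.inr s) *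
                  FreeMonoid.of (Sum.inl r) * v') = u ++ Sum.inr s :: Sum.inl r :: v := by
                simp [FreeMonoid.toList_mul, hu', hv']
              rw [e3]
              rw [e] at hw
              have := inv_swap u v r s
              omega
            · have e4 : wl (u' * FreeMonoid.of (Sum.inr s) * FreeMonoid.of (Sum.inl r) * v')
                  = wl w := by
                rw [ewl, wl_mul, wl_mul, wl_mul, wl_of, wl_of]
                simp only [wt]
              rw [e4]
              exact hn
          have ewd : (wd w : FA F m) = wd u' * (X (Sum.inl r) * X (Sum.inr s)) * wd v' := by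
            rw [ew]
            simp only [wd_mul, X, mul_assoc]
          rw [ewd]
          rcases hij with hij | hij
          · -- j = nx i
            obtain ⟨hl, hg⟩ := hf (Sum.inl r)
            rw [← hij] at hg
            set g := f (Sum.inl r) - l (Sum.inl r) •
              (X (Sum.inr s) * X (Sum.inl r) - X (Sum.inl r) * X (Sum.inr s)) with hgdef
            have key : wd u' * (X (Sum.inl r) * X (Sum.inr s)) * wd v' =
                wd u' * (X (Sum.inr s) * X (Sum.inl r)) * wd v'
                - (l (Sum.inl r))⁻¹ • (wd u' * f (Sum.inl r) * wd v')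
                + (l (Sum.inl r))⁻¹ • (wd u' * g * wd v') := by
              rw [hgdef, mul_sub, sub_mul, mul_smul_comm, smul_mul_assoc, smul_sub, smul_smul,
                inv_mul_cancel₀ hl, one_smul, mul_sub, sub_mul]
              abel
            rw [key]
            exact Submodule.add_mem _ (Submodule.sub_mem _ hsw (Submodule.smul_mem _ _ (hrel _)))
              (Submodule.smul_mem _ _ (hbig g hg))
          · obtain ⟨hl, hg⟩ := hf (Sum.inr s)
            rw [← hij] at hg
            set g := f (Sum.inr s) - l (Sum.inr s) •
              (X (Sum.inl r) * X (Sum.inr s) - X (Sum.inr s) * X (Sum.inl r)) with hgdef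
            have key : wd u' * (X (Sum.inl r) * X (Sum.inr s)) * wd v' =
                wd u' * (X (Sum.inr s) * X (Sum.inl r)) * wd v'
                + (l (Sum.inr s))⁻¹ • (wd u' * f (Sum.inr s) * wd v')
                - (l (Sum.inr s))⁻¹ • (wd u' * g * wd v') := by
              rw [hgdef, mul_sub, sub_mul, mul_smul_comm, smul_mul_assoc, smul_sub, smul_smul,
                inv_mul_cancel₀ hl, one_smul, mul_sub, sub_mul]
              abel
            rw [key]
            exact Submodule.sub_mem _ (Submodule.add_mem _ hsw (Submodule.smul_mem _ _ (hrel _)))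
              (Submodule.smul_mem _ _ (hbig g hg))

theorem P03_span [NeZero m] (l : Idx m → F) (f : Idx m → FA F m) (hf : Shape l f) (n : ℤ)
    (x : FA F m) :
    ∃ y ∈ Submodule.span F
      {z : FA F m | ∃ w : FreeMonoid (Idx m), IsNormalWord w ∧ (wl w : ℤ) ≤ n ∧ z = wd w},
      x - y ∈ J f n := by
  have hx : x ∈ TT f n := by
    refine MonoidAlgebra.induction_on (motive := fun x => x ∈ TT f n) x (fun w => ?_) ?_ ?_
    · exact TT_word l f hf n ((n - wl w).toNat + 1) w (by push_cast; omega)
    · exact fun x y hx hy => Submodule.add_mem _ hx hy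
    · exact fun c x hx => Submodule.smul_mem _ c hx
  obtain ⟨y, hy, z, hz, rfl⟩ := Submodule.mem_sup.1 hx
  exact ⟨y, hy, by simpa using hz⟩

end Pool.Agent.RG
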