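import Mathlib
import Pool.Agent.Lib.RG.PDefs

/-!
PART P, row P04: the recursion for the number of normal words.
Proof: pairs (letter j, normal word w) with weight of j w at most n correspond to: nonempty normal words of weight at most n,
and words a s w with (a,s) bad, a s w of weight at most n, w normal (`s` never begins a bad pair, so `s w` is normal iff `w` is).
There are 2m bad pairs because 2 <= m.
-/

set_option autoImplicit false

namespace Pool.Agent.RG

open scoped Classical

variable {m : ℕ}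

namespace P04aux

/-- weight of a list -/
def wll (w : List (Idx m)) : ℕ := (w.map wt).sum

theorem wll_cons (i : Idx m) (w : List (Idx m)) : wll (i :: w) = wt i + wll w := by
  simp [wll]

theorem wt_ge (i : Idx m) : 2 ≤ wt i := by
  cases i <;> simp [wt]

theorem wll_ge (w : List (Idx m)) : 2 * w.length ≤ wll w := by
  induction w with
  | nil => simp [wll]
  | cons i w ih =>
    rw [wll_cons, List.length_cons]
    have := wt_ge i
    omega

/-- normal lists -/
def Nl [NeZero m] (w : List (Idx m)) : Prop := List.IsChain (fun i j : Idx m => ¬ Bad i j) w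

/-- normal lists of weight at most n -/
def A (m : ℕ) [NeZero m] (n : ℤ) : Type := {w : List (Idx m) // Nl w ∧ (wll w : ℤ) ≤ n}

theorem finite_le (n : ℤ) : Finite {w : List (Idx m) // (wll w : ℤ) ≤ n} := by
  have h : {w : List (Idx m) | (wll w : ℤ) ≤ n}.Finite := by
    refine (List.finite_length_le (Idx m) n.toNat).subset ?_
    intro w hw
    have h1 := wll_ge w
    have h2 : (wll w : ℤ) ≤ n := hw
    show w.length ≤ n.toNat
    omega
  exact h

instance finA [NeZero m] (n : ℤ) : Finite (A m n) := by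
  have := finite_le (m := m) n
  refine Finite.of_injective
    (fun w : A m n => (⟨w.1, w.2.2⟩ : {w : List (Idx m) // (wll w : ℤ) ≤ n})) ?_
  intro a b h
  apply Subtype.ext
  simpa using h

theorem Hc_eq [NeZero m] (n : ℤ) : Hc m n = Nat.card (A m n) := rfl

theorem bad_iff [NeZero m] (i j : Idx m) :
    Bad i j ↔ ∃ r t : Fin m, i = Sum.inl r ∧ j = Sum.inr t ∧ (t = r + 1 ∨ t = r) := by
  constructor
  · rintro ⟨⟨r, rfl⟩, ⟨t, rfl⟩, h⟩
    refine ⟨r, t, rfl, rfl, ?_⟩
    rcases h with h | h
    · left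
      simpa [nx] using h
    · right
      have : (Sum.inl r : Idx m) = Sum.inl t := h
      exact (Sum.inl.inj this).symm
  · rintro ⟨r, t, rfl, rfl, h⟩
    refine ⟨⟨r, rfl⟩, ⟨t, rfl⟩, ?_⟩
    rcases h with h | h
    · left
      rw [h]
      rfl
    · right
      rw [h]
      rfl

/-- bad pairs -/
def BP (m : ℕ) [NeZero m] : Type := {x : Idx m × Idx m // Bad x.1 x.2}

instance finBP [NeZero m] : Finite (BP m) := by
  unfold BP
  infer_instance

theorem add_one_ne [NeZero m] (hm : 2 ≤ m) (r : Fin m) : r + 1 ≠ r := by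
  intro h
  have h1 : (1 : Fin m) = 0 := by
    simpa using h
  have h2 := congrArg Fin.val h1
  rw [Fin.val_one', Fin.val_zero] at h2
  rw [Nat.mod_eq_of_lt (by omega)] at h2
  omega

theorem card_BP [NeZero m] (hm : 2 ≤ m) : Nat.card (BP m) = 2 * m := by
  have e : Bool × Fin m ≃ BP m := by
    refine Equiv.ofBijective (fun x => ⟨(Sum.inl x.2, Sum.inr (if x.1 then x.2 + 1 else x.2)), ?_⟩) ⟨?_, ?_⟩
    · rw [bad_iff]
      refine ⟨x.2, _, rfl, rfl, ?_⟩
      cases x.1 <;> simp
    · rintro ⟨b, r⟩ ⟨c, t⟩ h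
      have h1 : ((Sum.inl r : Idx m), (Sum.inr (if b = true then r + 1 else r) : Idx m)) =
        (Sum.inl t, Sum.inr (if c = true then t + 1 else t)) := congrArg Subtype.val h
      rw [Prod.mk.injEq] at h1
      obtain ⟨h1, h2⟩ := h1
      have h1 := Sum.inl.inj h1
      have h2 := Sum.inr.inj h2
      subst h1
      have := add_one_ne hm r
      cases b <;> cases c
      · rfl
      · exact (this (by simpa using h2.symm)).elim
      · exact (this (by simpa using h2)).elim
      · rfl
    · rintro ⟨⟨i, j⟩, h⟩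
      obtain ⟨r, t, h1, h2, h3⟩ := (bad_iff _ _).1 h
      simp only at h1 h2
      subst h1
      subst h2
      rcases h3 with h3 | h3
      · exact ⟨(true, r), Subtype.ext (by simp [h3])⟩
      · exact ⟨(false, r), Subtype.ext (by simp [h3])⟩
  rw [← Nat.card_congr e]
  simp

theorem nl_inr [NeZero m] (t : Fin m) (w : List (Idx m)) : Nl (Sum.inr t :: w) ↔ Nl w := by
  unfold Nl
  rw [List.isChain_cons]
  constructor
  · exact fun h => h.2
  · intro h
    refine ⟨?_, h⟩
    intro y _ hb
    obtain ⟨r, _, h1, _⟩ := (bad_iff _ _).1 hb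
    exact absurd h1 (by simp)

/-- the map of the proof -/
def fm [NeZero m] (n : ℤ) : A m n ⊕ (BP m × A m (n - 5)) → Option (Σ j : Idx m, A m (n - wt j))
  | Sum.inl ⟨[], _⟩ => none
  | Sum.inl ⟨j :: w, h⟩ => some ⟨j, w, (List.isChain_cons.1 h.1).2, by
      have := h.2
      rw [wll_cons] at this
      push_cast at this
      omega⟩
  | Sum.inr (x, w) => some ⟨x.1.1, x.1.2 :: w.1, by
      obtain ⟨r, t, h1, h2, _⟩ := (bad_iff _ _).1 x.2
      rw [h2, nl_inr]
      exact w.2.1, by
      obtain ⟨r, t, h1, h2, _⟩ := (bad_iff _ _).1 x.2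
      have := w.2.2
      rw [wll_cons, h1, h2]
      simp only [wt]
      push_cast
      omega⟩

/-- the list of an element of the target -/
def tl [NeZero m] (n : ℤ) (s : Σ j : Idx m, A m (n - wt j)) : List (Idx m) := s.1 :: s.2.1

theorem fm_inj [NeZero m] (n : ℤ) : Function.Injective (fm (m := m) n) := by
  have key : ∀ (j k : Idx m) (w : List (Idx m)) (w' : List (Idx m)), Bad j k → Nl (j :: w') →
      w' = k :: w → False := by
    rintro j k w w' hb hn rfl
    unfold Nl at hn
    rw [List.isChain_cons_cons] at hn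
    exact hn.1 hb
  rintro (⟨_ | ⟨j, w⟩, hw⟩ | ⟨⟨⟨j, k⟩, hjk⟩, w⟩) (⟨_ | ⟨j', w'⟩, hw'⟩ | ⟨⟨⟨j', k'⟩, hjk'⟩, w'⟩) h
  · rfl
  · exact absurd h (by simp [fm])
  · exact absurd h (by simp [fm])
  · exact absurd h (by simp [fm])
  · have h' : some (j :: w) = some (j' :: w') := congrArg (Option.map (tl n)) h
    rw [Option.some.injEq, List.cons.injEq] at h'
    obtain ⟨rfl, rfl⟩ := h'
    rfl
  · have h' : some (j :: w) = some (j' :: k' :: w'.1) := congrArg (Option.map (tl n)) h
    rw [Option.some.injEq, List.cons.injEq] at h'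
    obtain ⟨rfl, h'⟩ := h'
    exact (key _ _ _ _ hjk' hw.1 h').elim
  · exact absurd h (by simp [fm])
  · have h' : some (j :: k :: w.1) = some (j' :: w') := congrArg (Option.map (tl n)) h
    rw [Option.some.injEq, List.cons.injEq] at h'
    obtain ⟨rfl, h'⟩ := h'
    exact (key _ _ _ _ hjk hw'.1 h'.symm).elim
  · have h' : some (j :: k :: w.1) = some (j' :: k' :: w'.1) := congrArg (Option.map (tl n)) h
    rw [Option.some.injEq, List.cons.injEq, List.cons.injEq] at h'
    obtain ⟨rfl, rfl, h'⟩ := h'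
    have h2 : w = w' := Subtype.ext h'
    rw [h2]

theorem fm_surj [NeZero m] (n : ℤ) (hn : 0 ≤ n) : Function.Surjective (fm (m := m) n) := by
  rintro (_ | ⟨j, w, hw1, hw2⟩)
  · exact ⟨Sum.inl ⟨[], List.isChain_nil, by simpa [wll] using hn⟩, rfl⟩
  · by_cases h : Nl (j :: w)
    · refine ⟨Sum.inl ⟨j :: w, h, ?_⟩, rfl⟩
      rw [wll_cons]
      push_cast
      omega
    · obtain _ | ⟨k, w⟩ := w
      · exact (h (List.isChain_singleton _)).elim
      · have hb : Bad j k := by
          by_contra hb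
          apply h
          unfold Nl
          rw [List.isChain_cons_cons]
          exact ⟨hb, hw1⟩
        obtain ⟨r, t, h1, h2, h3⟩ := (bad_iff _ _).1 hb
        refine ⟨Sum.inr (⟨(j, k), hb⟩, ⟨w, ?_, ?_⟩), rfl⟩
        · rw [h2, nl_inr] at hw1
          exact hw1
        · rw [wll_cons, h1, h2] at hw2
          simp only [wt] at hw2
          push_cast at hw2
          omega

end P04aux

theorem P04_count [NeZero m] (hm : 2 ≤ m) (n : ℤ) (hn : 0 ≤ n) :
    Hc m n + 2 * m * Hc m (n - 5) = 1 + ∑ j : Idx m, Hc m (n - wt j) := by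
  have e := Nat.card_congr (Equiv.ofBijective _ ⟨P04aux.fm_inj (m := m) n, P04aux.fm_surj n hn⟩)
  rw [Nat.card_sum, Nat.card_prod, P04aux.card_BP hm, Finite.card_option, Nat.card_sigma] at e
  simp only [P04aux.Hc_eq]
  rw [e, add_comm]

theorem P04_neg [NeZero m] (n : ℤ) (hn : n < 0) : Hc m n = 0 := by
  have : IsEmpty {w : FreeMonoid (Idx m) // IsNormalWord w ∧ (wl w : ℤ) ≤ n} := by
    constructor
    rintro ⟨w, _, h⟩
    omega
  exact Nat.card_of_isEmpty

theorem P04_finite (n : ℤ) : Finite {w : FreeMonoid (Idx m) // (wl w : ℤ) ≤ n} :=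
  P04aux.finite_le n

end Pool.Agent.RG
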