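import Mathlib
import Pool.Agent.Lib.RG.P02
import Pool.Agent.Lib.RG.P03
import Pool.Agent.Lib.RG.P04

/-!
PART P, row P05: the normal words are a basis modulo `J f n`; so powers of letters are not in `J f n`.
Proof: P03 gives bd <= Hc, P02 and P04 give bd >= Hc by induction on n (for n < 0 both vanish); if X i ^ r were in J f n with
r wt i <= n, then the other normal words would span (P03) and bd < Hc.
-/

set_option autoImplicit false

namespace Pool.Agent.RG

open scoped Classical

variable {F : Type} [Field F] {m : ℕ}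

namespace P05aux

/-- If the words in `A` span modulo `J f n` then the dimension is at most the number of elements
of `A`. -/
theorem bd_le (f : Idx m → FA F m) (n : ℤ) (A : Set (FreeMonoid (Idx m))) (hA : A.Finite)
    (h : ∀ x : FA F m, ∃ y ∈ Submodule.span F {z : FA F m | ∃ w ∈ A, z = wd w}, x - y ∈ J f n) :
    bd f n ≤ Nat.card A := by
  have : Fintype A := hA.fintype
  let q : FA F m →ₗ[F] (FA F m ⧸ J f n) := (J f n).mkQ.restrictScalars F
  have hq : Function.Surjective q := (J f n).mkQ_surjective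
  let b : A → (FA F m ⧸ J f n) := fun w => q (wd w.1)
  have hspan : Submodule.span F (Set.range b) = ⊤ := by
    rw [eq_top_iff]
    rintro z -
    obtain ⟨x, rfl⟩ := hq z
    obtain ⟨y, hy, hxy⟩ := h x
    have h1 : q x = q y := by
      rw [← sub_eq_zero, ← map_sub]
      exact (Submodule.Quotient.mk_eq_zero _).2 hxy
    rw [h1]
    have h2 : q y ∈ (Submodule.span F {z : FA F m | ∃ w ∈ A, z = wd w}).map q := ⟨y, hy, rfl⟩
    rw [Submodule.map_span] at h2
    refine Submodule.span_mono ?_ h2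
    rintro _ ⟨_, ⟨w, hw, rfl⟩, rfl⟩
    exact ⟨⟨w, hw⟩, rfl⟩
  have h3 := finrank_range_le_card (R := F) b
  rw [Set.finrank, hspan, finrank_top] at h3
  rw [Nat.card_eq_fintype_card]
  exact h3

theorem finite_normal [NeZero m] (n : ℤ) :
    {w : FreeMonoid (Idx m) | IsNormalWord w ∧ (wl w : ℤ) ≤ n}.Finite := by
  have h := P04_finite (m := m) n
  have h2 : {w : FreeMonoid (Idx m) | (wl w : ℤ) ≤ n}.Finite := h
  exact h2.subset fun w hw => hw.2

theorem bd_le_Hc [NeZero m] (l : Idx m → F) (f : Idx m → FA F m) (hf : Shape l f) (n : ℤ) :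
    bd f n ≤ Hc m n := by
  refine bd_le f n {w : FreeMonoid (Idx m) | IsNormalWord w ∧ (wl w : ℤ) ≤ n} (finite_normal n) ?_
  intro x
  obtain ⟨y, hy, hxy⟩ := P03_span l f hf n x
  refine ⟨y, ?_, hxy⟩
  convert hy using 3
  ext z
  constructor
  · rintro ⟨w, ⟨h1, h2⟩, rfl⟩
    exact ⟨w, h1, h2, rfl⟩
  · rintro ⟨w, h1, h2, rfl⟩
    exact ⟨w, ⟨h1, h2⟩, rfl⟩

theorem one_le_wt (j : Idx m) : 1 ≤ wt j := by
  cases j <;> simp [wt]

theorem dim_aux [NeZero m] (hm : 2 ≤ m) (l : Idx m → F) (f : Idx m → FA F m) (hf : Shape l f)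
    (N : ℕ) : ∀ n : ℤ, n < N → bd f n = Hc m n := by
  induction N with
  | zero =>
    intro n hn
    have h1 := bd_le_Hc l f hf n
    rw [P04_neg n (by simpa using hn)] at h1 ⊢
    omega
  | succ N ih =>
    intro n hn
    push_cast at hn
    rcases lt_or_ge n 0 with h0 | h0
    · have h1 := bd_le_Hc l f hf n
      rw [P04_neg n h0] at h1 ⊢
      omega
    · have h1 := bd_le_Hc l f hf n
      have h2 := P02_vinberg l f hf n h0
      have h3 := P04_count hm n h0
      have h4 : ∑ j : Idx m, bd f (n - wt j) = ∑ j : Idx m, Hc m (n - wt j) := by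
        refine Finset.sum_congr rfl fun j _ => ih _ ?_
        have := one_le_wt j
        omega
      rw [h4, ih (n - 5) (by omega)] at h2
      omega

end P05aux

open P05aux in
theorem P05_dim [NeZero m] (hm : 2 ≤ m) (l : Idx m → F) (f : Idx m → FA F m) (hf : Shape l f)
    (n : ℤ) : bd f n = Hc m n :=
  dim_aux hm l f hf (n.toNat + 1) n (by omega)

namespace P05aux

theorem X_pow (i : Idx m) (r : ℕ) :
    (X i : FA F m) ^ r = wd (FreeMonoid.of i ^ r) := by
  unfold X wd
  rw [map_pow]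

theorem toList_pow (i : Idx m) (r : ℕ) :
    FreeMonoid.toList (FreeMonoid.of i ^ r) = List.replicate r i := by
  induction r with
  | zero => rfl
  | succ r ih =>
    rw [pow_succ', FreeMonoid.toList_mul, ih, FreeMonoid.toList_of]
    rfl

theorem wl_pow (i : Idx m) (r : ℕ) : wl (FreeMonoid.of i ^ r) = r * wt i := by
  unfold wl
  rw [toList_pow, List.map_replicate, List.sum_replicate, smul_eq_mul]

theorem normal_pow [NeZero m] (i : Idx m) (r : ℕ) : IsNormalWord (FreeMonoid.of i ^ r) := by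
  unfold IsNormalWord
  rw [toList_pow]
  have h : ¬ Bad i i := by
    rintro ⟨⟨a, ha⟩, ⟨b, hb⟩, -⟩
    rw [ha] at hb
    exact Sum.inl_ne_inr hb
  induction r with
  | zero => exact List.isChain_nil
  | succ r ih =>
    cases r with
    | zero => exact List.isChain_singleton _
    | succ r => exact List.isChain_cons_cons.2 ⟨h, ih⟩

end P05aux

open P05aux in
theorem P05_pow [NeZero m] (hm : 2 ≤ m) (l : Idx m → F) (f : Idx m → FA F m) (hf : Shape l f)
    (n : ℤ) (i : Idx m) (r : ℕ) (hr : ((r * wt i : ℕ) : ℤ) ≤ n) : X i ^ r ∉ J f n := by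
  intro hmem
  have h1 := P05_dim hm l f hf n
  have hfin := finite_normal (m := m) n
  have hw0 : FreeMonoid.of i ^ r ∈ {w : FreeMonoid (Idx m) | IsNormalWord w ∧ (wl w : ℤ) ≤ n} :=
    ⟨normal_pow i r, by rw [wl_pow]; exact hr⟩
  have h2 : bd f n ≤ Nat.card ↥({w : FreeMonoid (Idx m) | IsNormalWord w ∧ (wl w : ℤ) ≤ n} \
      {FreeMonoid.of i ^ r}) := by
    refine bd_le f n _ (hfin.subset Set.sdiff_subset) fun x => ?_
    obtain ⟨y, hy, hxy⟩ := P03_span l f hf n x
    have h3 : ∀ y ∈ Submodule.span F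
        {z : FA F m | ∃ w : FreeMonoid (Idx m), IsNormalWord w ∧ (wl w : ℤ) ≤ n ∧ z = wd w},
        ∃ y' ∈ Submodule.span F {z : FA F m | ∃ w ∈ ({w : FreeMonoid (Idx m) |
          IsNormalWord w ∧ (wl w : ℤ) ≤ n} \ {FreeMonoid.of i ^ r}), z = wd w},
          y - y' ∈ J f n := by
      intro y hy
      induction hy using Submodule.span_induction with
      | mem z hz =>
        obtain ⟨w, h4, h5, rfl⟩ := hz
        by_cases hw : w = FreeMonoid.of i ^ r
        · refine ⟨0, Submodule.zero_mem _, ?_⟩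
          rw [sub_zero, hw, ← X_pow]
          exact hmem
        · refine ⟨wd w, Submodule.subset_span ⟨w, ⟨⟨h4, h5⟩, hw⟩, rfl⟩, ?_⟩
          rw [sub_self]
          exact Submodule.zero_mem _
      | zero => exact ⟨0, Submodule.zero_mem _, by rw [sub_zero]; exact Submodule.zero_mem _⟩
      | add a b _ _ ha hb =>
        obtain ⟨a', ha1, ha2⟩ := ha
        obtain ⟨b', hb1, hb2⟩ := hb
        refine ⟨a' + b', Submodule.add_mem _ ha1 hb1, ?_⟩
        rw [add_sub_add_comm]
        exact Submodule.add_mem _ ha2 hb2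
      | smul c a _ ha =>
        obtain ⟨a', ha1, ha2⟩ := ha
        refine ⟨c • a', Submodule.smul_mem _ _ ha1, ?_⟩
        rw [← smul_sub]
        exact Submodule.smul_of_tower_mem _ c ha2
    obtain ⟨y', hy1, hy2⟩ := h3 y hy
    refine ⟨y', hy1, ?_⟩
    have h4 := Submodule.add_mem _ hxy hy2
    rwa [sub_add_sub_cancel] at h4
  have h5 : Nat.card ↥({w : FreeMonoid (Idx m) | IsNormalWord w ∧ (wl w : ℤ) ≤ n} \
      {FreeMonoid.of i ^ r}) < Hc m n := by
    have h6 : Hc m n = Nat.card ↥{w : FreeMonoid (Idx m) | IsNormalWord w ∧ (wl w : ℤ) ≤ n} := rfl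
    rw [h6, Nat.card_coe_set_eq, Nat.card_coe_set_eq]
    exact Set.ncard_lt_ncard (Set.sdiff_singleton_ssubset.2 hw0) hfin
  omega

end Pool.Agent.RG
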