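import Mathlib
import Pool.Agent.Lib.RG.PDefs

/-!
PART P, row P06: values of words of the free group at the units 1 + X i, up to weight 4.
Proof: induction on the word (FreeGroup.induction_on): the set of words for which g exists is closed under products and inverses:
(1+A+g)(1+B+g') = 1+A+B+(g+g'+AB+..), AB of weight >= 4 (A, B of weight >= 2); the inverse of 1+A+g is the finite sum
of (-(A+g))^k modulo words of weight > n.
-/

set_option autoImplicit false

namespace Pool.Agent.RG

open scoped Classical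

variable {m : ℕ}

private theorem p06_anti {F : Type} [Field F] {a b : ℤ} (h : a ≤ b) : Pge F m b ≤ Pge F m a := by
  apply Submodule.span_mono
  rintro x ⟨w, hw, rfl⟩
  exact ⟨w, h.trans hw, rfl⟩

private theorem p06_wl_mul (v w : FreeMonoid (Idx m)) : wl (v * w) = wl v + wl w := by
  simp [wl, FreeMonoid.toList_mul]

private theorem p06_mul {F : Type} [Field F] {a b : ℤ} {x y : FA F m} (hx : x ∈ Pge F m a)
    (hy : y ∈ Pge F m b) : x * y ∈ Pge F m (a + b) := by
  induction hx using Submodule.span_induction with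
  | mem x hx =>
    obtain ⟨v, hv, rfl⟩ := hx
    induction hy using Submodule.span_induction with
    | mem y hy =>
      obtain ⟨w, hw, rfl⟩ := hy
      apply Submodule.subset_span
      refine ⟨v * w, ?_, ?_⟩
      · rw [p06_wl_mul]
        push_cast
        omega
      · rw [wd, wd, wd, map_mul]
    | zero => rw [mul_zero]; exact Submodule.zero_mem _
    | add y z _ _ hy hz => rw [mul_add]; exact Submodule.add_mem _ hy hz
    | smul c y _ hy => rw [mul_smul_comm]; exact Submodule.smul_mem _ _ hy
  | zero => rw [zero_mul]; exact Submodule.zero_mem _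
  | add y z _ _ hy hz => rw [add_mul]; exact Submodule.add_mem _ hy hz
  | smul c y _ hy => rw [smul_mul_assoc]; exact Submodule.smul_mem _ _ hy

private theorem p06_X {F : Type} [Field F] (i : Idx m) : (X i : FA F m) ∈ Pge F m 2 := by
  apply Submodule.subset_span
  refine ⟨FreeMonoid.of i, ?_, rfl⟩
  rcases i with i | i <;> simp [wl, wt]

private theorem p06_pow {F : Type} [Field F] {x : FA F m} (hx : x ∈ Pge F m 2) (k : ℕ) :
    x ^ k ∈ Pge F m (2 * k) := by
  induction k with
  | zero =>
    apply Submodule.subset_span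
    refine ⟨1, ?_, ?_⟩
    · simp
    · rw [pow_zero, wd, map_one]
  | succ k ih =>
    rw [pow_succ]
    have h := p06_mul ih hx
    refine p06_anti ?_ h
    push_cast
    omega

private theorem p06_kill {F : Type} [Field F] {n : ℕ} {A : Type} [Ring A] (θ : FA F m →+* A)
    (h : ∀ v : FreeMonoid (Idx m), n < wl v → θ (wd v) = 0) {x : FA F m} {k : ℤ}
    (hk : (n : ℤ) < k) (hx : x ∈ Pge F m k) : θ x = 0 := by
  induction hx using Submodule.span_induction with
  | mem x hx =>
    obtain ⟨v, hv, rfl⟩ := hx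
    exact h v (by omega)
  | zero => exact map_zero θ
  | add y z _ _ hy hz => rw [map_add, hy, hz, add_zero]
  | smul c y _ hy => rw [Algebra.smul_def, map_mul, hy, mul_zero]

theorem P06_word (p : ℕ) [Fact p.Prime] (n : ℕ) (w : FreeGroup (Idx m)) :
    ∃ g ∈ Pge (ZMod p) m 4, ∀ (A : Type) [Ring A] (θ : FA (ZMod p) m →+* A),
      (∀ v : FreeMonoid (Idx m), n < wl v → θ (wd v) = 0) →
      ∀ u : Idx m → Aˣ, (∀ i, (u i : A) = 1 + θ (X i)) →
        ((FreeGroup.lift u w : Aˣ) : A)
          = θ (1 + ∑ j, (Multiplicative.toAdd (ex p j w) : ZMod p) • X j + g) := by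
  have hL : ∀ w : FreeGroup (Idx m),
      ∑ j, (Multiplicative.toAdd (ex p j w) : ZMod p) • (X j : FA (ZMod p) m) ∈
        Pge (ZMod p) m 2 := fun w =>
    Submodule.sum_mem _ fun j _ => Submodule.smul_mem _ _ (p06_X j)
  have hof : ∀ i : Idx m,
      ∑ j, (Multiplicative.toAdd (ex p j (FreeGroup.of i)) : ZMod p) • (X j : FA (ZMod p) m)
        = X i := by
    intro i
    rw [Finset.sum_eq_single i]
    · simp [ex]
    · intro j _ hj
      simp [ex, hj.symm]
    · intro h
      exact absurd (Finset.mem_univ i) h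
  induction w using FreeGroup.induction_on with
  | C1 =>
    refine ⟨0, Submodule.zero_mem _, ?_⟩
    intro A _ θ _ u _
    simp
  | of i =>
    refine ⟨0, Submodule.zero_mem _, ?_⟩
    intro A _ θ _ u hu
    rw [hof, FreeGroup.lift_apply_of, hu, add_zero, map_add, map_one]
  | inv_of i _ =>
    have hneg : (-X i : FA (ZMod p) m) ∈ Pge (ZMod p) m 2 := Submodule.neg_mem _ (p06_X i)
    refine ⟨∑ k ∈ Finset.range n, (-X i) ^ (k + 2), ?_, ?_⟩
    · refine Submodule.sum_mem _ fun k _ => p06_anti ?_ (p06_pow hneg (k + 2))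
      push_cast
      omega
    intro A _ θ hθ u hu
    have e1 : ∑ j, (Multiplicative.toAdd (ex p j (FreeGroup.of i)⁻¹) : ZMod p) •
        (X j : FA (ZMod p) m) = -X i := by
      rw [← hof i, ← Finset.sum_neg_distrib]
      apply Finset.sum_congr rfl
      intro j _
      rw [map_inv, toAdd_inv, neg_smul]
    have e2 : (1 + -X i + ∑ k ∈ Finset.range n, (-X i) ^ (k + 2) : FA (ZMod p) m) =
        ∑ k ∈ Finset.range (n + 2), (-X i) ^ k := by
      rw [Finset.sum_range_succ', Finset.sum_range_succ']
      simp only [zero_add, pow_one, pow_zero]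
      abel
    have e3 : ((u i : Aˣ) : A) * θ (∑ k ∈ Finset.range (n + 2), (-X i) ^ k) = 1 := by
      have h1 : (1 - -X i : FA (ZMod p) m) * ∑ k ∈ Finset.range (n + 2), (-X i) ^ k =
          1 - (-X i) ^ (n + 2) := mul_neg_geom_sum _ _
      have h2 : θ ((-X i) ^ (n + 2)) = 0 :=
        p06_kill θ hθ (k := 2 * ((n + 2 : ℕ) : ℤ)) (by push_cast; omega) (p06_pow hneg (n + 2))
      have h3 := congrArg θ h1
      rw [map_mul, map_sub, map_sub, map_one, map_neg, sub_neg_eq_add, ← hu i, h2, sub_zero] at h3
      exact h3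
    rw [e1, e2, map_inv, FreeGroup.lift_apply_of]
    rw [← mul_one (((u i)⁻¹ : Aˣ) : A), ← e3, ← mul_assoc, Units.inv_mul, one_mul]
  | mul x y hx hy =>
    obtain ⟨g, hg, hgx⟩ := hx
    obtain ⟨g', hg', hgy⟩ := hy
    set a := ∑ j, (Multiplicative.toAdd (ex p j x) : ZMod p) • (X j : FA (ZMod p) m) with ha
    set b := ∑ j, (Multiplicative.toAdd (ex p j y) : ZMod p) • (X j : FA (ZMod p) m) with hb
    refine ⟨g + g' + (a + g) * (b + g'), ?_, ?_⟩
    · refine Submodule.add_mem _ (Submodule.add_mem _ hg hg') ?_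
      exact p06_mul (a := 2) (b := 2)
        (Submodule.add_mem _ (hL x) (p06_anti (by norm_num) hg))
        (Submodule.add_mem _ (hL y) (p06_anti (by norm_num) hg'))
    intro A _ θ hθ u hu
    have e1 : ∑ j, (Multiplicative.toAdd (ex p j (x * y)) : ZMod p) •
        (X j : FA (ZMod p) m) = a + b := by
      rw [ha, hb, ← Finset.sum_add_distrib]
      apply Finset.sum_congr rfl
      intro j _
      rw [map_mul, toAdd_mul, add_smul]
    rw [e1, map_mul, Units.val_mul, hgx A θ hθ u hu, hgy A θ hθ u hu, ← map_mul]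
    congr 1
    noncomm_ring

end Pool.Agent.RG
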