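import Mathlib
import Pool.Agent.Lib.RG.P06

/-!
PART P, row P07: the tame relation y x y^-1 = x^q for words y = w i gives relations f i of the right shape.
Proof: with P06, y = 1 + sum_j l_ij X_j + g; f i := y x - x^q y, x = 1 + X_i (q = 1 mod p, p odd: (1+X)^q = 1 + X + X^3(..)), so
f i = [y - 1, X_i] - (x^q - x) y = l_i (X_nx X_i - X_i X_nx) + (weight >= 6) with l_i = the exponent of nx i (self exponent zero; for
i = a the other exponents vanish; for i = s the other letters s' have weight 3, products of two have weight 6).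
-/

set_option autoImplicit false

namespace Pool.Agent.RG

open scoped Classical

variable {m : ℕ}

section P07

variable {F : Type} [Field F]

private theorem P07_wl_mul (v w : FreeMonoid (Idx m)) : wl (v * w) = wl v + wl w := by
  simp [wl]

private theorem P07_wd_mul (v w : FreeMonoid (Idx m)) :
    (wd v : FA F m) * wd w = wd (v * w) := by
  simp only [wd, map_mul]

private theorem P07_mul {a b : ℤ} {x y : FA F m} (hx : x ∈ Pge F m a) (hy : y ∈ Pge F m b) :
    x * y ∈ Pge F m (a + b) := by
  have h := Submodule.mul_mem_mul hx hy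
  rw [Pge, Pge, Submodule.span_mul_span] at h
  refine Submodule.span_mono ?_ h
  rintro _ ⟨x, ⟨v, hv, rfl⟩, y, ⟨w, hw, rfl⟩, rfl⟩
  refine ⟨v * w, ?_, ?_⟩
  · rw [P07_wl_mul]
    push_cast
    linarith
  · simp only [P07_wd_mul]

private theorem P07_anti {a b : ℤ} (h : a ≤ b) : Pge F m b ≤ Pge F m a := by
  apply Submodule.span_mono
  rintro _ ⟨w, hw, rfl⟩
  exact ⟨w, h.trans hw, rfl⟩

private theorem P07_top (x : FA F m) : x ∈ Pge F m 0 := by
  rw [← MonoidAlgebra.sum_coeff_single x, Finsupp.sum]
  apply Submodule.sum_mem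
  intro w _
  have : (MonoidAlgebra.single w (x.coeff w) : FA F m) = x.coeff w • wd w := by
    rw [wd, MonoidAlgebra.of_apply, MonoidAlgebra.smul_single, smul_eq_mul, mul_one]
  rw [this]
  exact Submodule.smul_mem _ _ (Submodule.subset_span ⟨w, by positivity, rfl⟩)

private theorem P07_mul_left {k : ℤ} {x : FA F m} (y : FA F m) (hx : x ∈ Pge F m k) :
    y * x ∈ Pge F m k := by
  have := P07_mul (P07_top y) hx
  rwa [zero_add] at this

private theorem P07_mul_right {k : ℤ} {x : FA F m} (y : FA F m) (hx : x ∈ Pge F m k) :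
    x * y ∈ Pge F m k := by
  have := P07_mul hx (P07_top y)
  rwa [add_zero] at this

private theorem P07_X (i : Idx m) : (X i : FA F m) ∈ Pge F m (wt i) := by
  refine Submodule.subset_span ⟨FreeMonoid.of i, ?_, rfl⟩
  simp [wl]

private theorem P07_X2 (i : Idx m) : (X i : FA F m) ∈ Pge F m 2 := by
  refine P07_anti ?_ (P07_X i)
  rcases i with i | i <;> simp [wt]

private theorem P07_pow {k : ℤ} {x : FA F m} (hx : x ∈ Pge F m k) (s : ℕ) :
    x ^ s ∈ Pge F m (s * k) := by
  induction s with
  | zero => simpa using P07_top (F := F) (m := m) 1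
  | succ s ih =>
    rw [pow_succ]
    have e : ((s + 1 : ℕ) : ℤ) * k = s * k + k := by
      push_cast
      ring
    rw [e]
    exact P07_mul ih hx

private theorem P07_one_add {k : ℤ} {z : FA F m} (hz : z ∈ Pge F m k) (s : ℕ) :
    (1 + z) ^ s - 1 ∈ Pge F m k := by
  induction s with
  | zero => simp
  | succ s ih =>
    have : (1 + z) ^ (s + 1) - 1 = ((1 + z) ^ s - 1) * (1 + z) + z := by
      rw [pow_succ]
      noncomm_ring
    rw [this]
    exact Submodule.add_mem _ (P07_mul_right _ ih) hz

end P07

private theorem P07_tame (p : ℕ) [Fact p.Prime] (hp : p ≠ 2) (i : Idx m) (q : ℕ) (hq : q % p = 1) :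
    (1 + X i : FA (ZMod p) m) ^ q - (1 + X i) ∈ Pge (ZMod p) m 6 := by
  have hc : CharP (FA (ZMod p) m) p :=
    charP_of_injective_algebraMap (algebraMap (ZMod p) (FA (ZMod p) m)).injective p
  have h3 : 3 ≤ p := by
    have := (Fact.out : p.Prime).two_le
    omega
  obtain ⟨s, hs⟩ : ∃ s, q = p * s + 1 := ⟨q / p, by
    have := Nat.div_add_mod q p
    omega⟩
  have e : (1 + X i : FA (ZMod p) m) ^ q - (1 + X i) =
      ((1 + X i ^ p) ^ s - 1) * (1 + X i) := by
    rw [hs, pow_succ, pow_mul]
    rw [add_pow_char_of_commute _ (Commute.one_left _), one_pow]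
    noncomm_ring
  rw [e]
  apply P07_mul_right
  apply P07_one_add
  refine P07_anti ?_ (P07_pow (P07_X2 i) p)
  have : (3 : ℤ) ≤ p := by exact_mod_cast h3
  linarith

theorem P07_rel (p : ℕ) [Fact p.Prime] (hp : p ≠ 2) [NeZero m] (hm : 2 ≤ m)
    (w : Idx m → FreeGroup (Idx m)) (q : Idx m → ℕ) (hq : ∀ i, q i % p = 1)
    (hself : ∀ i, ex p i (w i) = 1)
    (hA : ∀ (r : Fin m) (j : Idx m), j ≠ Sum.inl r →
      (ex p j (w (Sum.inl r)) ≠ 1 ↔ j = nx (Sum.inl r)))
    (hS : ∀ r t : Fin m, (ex p (Sum.inl t) (w (Sum.inr r)) ≠ 1 ↔ t = r)) (n : ℕ) :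
    ∃ (l : Idx m → ZMod p) (f : Idx m → FA (ZMod p) m), Shape l f ∧
      ∀ (A : Type) [Ring A] (θ : FA (ZMod p) m →+* A), (∀ x ∈ J f n, θ x = 0) →
        ∀ u : Idx m → Aˣ, (∀ i, (u i : A) = 1 + θ (X i)) →
          ∀ i, FreeGroup.lift u (w i) * u i * (FreeGroup.lift u (w i))⁻¹ = u i ^ q i := by
  choose g hg hgθ using fun i => P06_word (m := m) p n (w i)
  let e : Idx m → Idx m → ZMod p := fun i j => Multiplicative.toAdd (ex p j (w i))
  let y : Idx m → FA (ZMod p) m := fun i => 1 + ∑ j, e i j • X j + g i
  let f : Idx m → FA (ZMod p) m := fun i => y i * (1 + X i) - (1 + X i) ^ q i * y i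
  refine ⟨fun i => e i (nx i), f, ?_, ?_⟩
  · intro i
    have hcomm : ∑ j, e i j • (X j * X i - X i * X j) - e i (nx i) • (X (nx i) * X i - X i * X (nx i))
        ∈ Pge (ZMod p) m 6 := by
      rw [← Finset.add_sum_erase _ _ (Finset.mem_univ (nx i)), add_sub_cancel_left]
      apply Submodule.sum_mem
      intro j hj
      have hj' : j ≠ nx i := (Finset.mem_erase.1 hj).1
      rcases i with r | r
      · by_cases hji : j = Sum.inl r
        · rw [hji, sub_self, smul_zero]
          exact Submodule.zero_mem _
        · have h1 : ex p j (w (Sum.inl r)) = 1 := by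
            by_contra h
            exact hj' ((hA r j hji).1 h)
          have h2 : e (Sum.inl r) j = 0 := by
            simp only [e, h1]
            rfl
          rw [h2, zero_smul]
          exact Submodule.zero_mem _
      · rcases j with t | t
        · have h1 : ex p (Sum.inl t) (w (Sum.inr r)) = 1 := by
            by_contra h
            apply hj'
            rw [(hS r t).1 h]
            rfl
          have h2 : e (Sum.inr r) (Sum.inl t) = 0 := by
            simp only [e, h1]
            rfl
          rw [h2, zero_smul]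
          exact Submodule.zero_mem _
        · apply Submodule.smul_mem
          have h3 : ∀ a b : Fin m, (X (Sum.inr a) : FA (ZMod p) m) * X (Sum.inr b) ∈ Pge (ZMod p) m 6 := by
            intro a b
            have := P07_mul (P07_X (F := ZMod p) (m := m) (Sum.inr a))
              (P07_X (F := ZMod p) (m := m) (Sum.inr b))
            refine P07_anti ?_ this
            simp [wt]
          exact Submodule.sub_mem _ (h3 t r) (h3 r t)
    constructor
    · rcases i with r | r
      · have h1 : nx (Sum.inl r) ≠ (Sum.inl r : Idx m) := by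
          simp [nx]
        have h2 := (hA r _ h1).2 rfl
        intro h
        apply h2
        exact Multiplicative.toAdd.injective h
      · have h2 := (hS r r).2 rfl
        intro h
        apply h2
        exact Multiplicative.toAdd.injective h
    · have e1 : f i = (∑ j, e i j • (X j * X i - X i * X j)) + (g i * X i - X i * g i) -
          ((1 + X i) ^ q i - (1 + X i)) * y i := by
        have h1 : ∑ j, e i j • (X j * X i - X i * X j) =
            (∑ j, e i j • X j) * X i - X i * ∑ j, e i j • (X j : FA (ZMod p) m) := by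
          rw [Finset.sum_mul, Finset.mul_sum, ← Finset.sum_sub_distrib]
          apply Finset.sum_congr rfl
          intro j _
          rw [smul_sub, smul_mul_assoc, mul_smul_comm]
        rw [h1]
        simp only [f, y]
        noncomm_ring
      rw [e1]
      have h2 : g i * X i - X i * g i ∈ Pge (ZMod p) m 6 := by
        have a1 := P07_mul (hg i) (P07_X2 (F := ZMod p) i)
        have a2 := P07_mul (P07_X2 (F := ZMod p) i) (hg i)
        norm_num at a1 a2
        exact Submodule.sub_mem _ a1 a2
      have h3 := P07_mul_right (y i) (P07_tame p hp i (q i) (hq i))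
      have h4 := Submodule.sub_mem _ (Submodule.add_mem _ hcomm h2) h3
      convert h4 using 1
      abel
  · intro A _ θ hθ u hu i
    have hword : ∀ v : FreeMonoid (Idx m), n < wl v → θ (wd v) = 0 := by
      intro v hv
      apply hθ
      exact Ideal.subset_span (Or.inr ⟨v, by exact_mod_cast hv, rfl⟩)
    have hy := hgθ i A θ hword u hu
    have hf0 : θ (f i) = 0 := by
      apply hθ
      refine Ideal.subset_span (Or.inl ⟨i, 1, ?_⟩)
      rw [wd, map_one, mul_one]
    have h1 : ((FreeGroup.lift u (w i) : Aˣ) : A) = θ (y i) := hy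
    have h2 : (u i : A) = θ (1 + X i) := by
      rw [map_add, map_one, hu]
    rw [mul_inv_eq_iff_eq_mul]
    apply Units.ext
    rw [Units.val_mul, Units.val_mul, Units.val_pow_eq_pow_val, h1, h2, ← map_mul, ← map_pow,
      ← map_mul, ← sub_eq_zero, ← map_sub]
    exact hf0

end Pool.Agent.RG
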