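import Mathlib
import Pool.Agent.Lib.RG.P05
import Pool.Agent.Lib.RG.P07

/-!
PART P, row P08: finite quotients with an N_p-series in which the generators have exact depth.
Proof: f, l from P07 for n; A = FA / J f n (J is two-sided: a left ideal closed under right multiplication by words), finite ring of
characteristic p; u i = 1 + X i unit (X i nilpotent); Q = subgroup of the units generated by the u i (a p-group: (1+a)^(p^k) = 1);
D w = {g : g - 1 in the image of Pge w}; D (n+1) = 1; D 2 = Q; Exact from P05_pow: (1+X)^(p^k) - 1 = X^(p^k) and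
X^r - (element of Pge (r wt + 1)) in J f n would give X^r in J f (r wt) (J f n is contained in J f (r wt)).
card A <= card F^(number of words of weight <= n).
-/

set_option autoImplicit false

namespace Pool.Agent.RG

open scoped Classical

variable {m : ℕ}

/-- the bound for the order of the finite quotient of depth `n` -/
noncomputable def Nbd (p m n : ℕ) : ℕ := p ^ Nat.card {w : FreeMonoid (Idx m) // wl w ≤ n}

section

variable {F : Type} [Field F]

private theorem P08_wl_mul (v w : FreeMonoid (Idx m)) : wl (v * w) = wl v + wl w := by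
  simp [wl]

private theorem P08_wd_mul (v w : FreeMonoid (Idx m)) :
    (wd v * wd w : FA F m) = wd (v * w) := (map_mul _ _ _).symm

private theorem P08_top (x : FA F m) : x ∈ Submodule.span F (Set.range (wd : _ → FA F m)) := by
  induction x using MonoidAlgebra.induction_on with
  | of w => exact Submodule.subset_span ⟨w, rfl⟩
  | add f g hf hg => exact Submodule.add_mem _ hf hg
  | smul r f hf => exact Submodule.smul_mem _ _ hf

private theorem P08_Pge_mul {a b : ℤ} {x y : FA F m} (hx : x ∈ Pge F m a) (hy : y ∈ Pge F m b) :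
    x * y ∈ Pge F m (a + b) := by
  refine Submodule.span_induction ?_ ?_ ?_ ?_ hx
  · rintro _ ⟨v, hv, rfl⟩
    refine Submodule.span_induction ?_ ?_ ?_ ?_ hy
    · rintro _ ⟨w, hw, rfl⟩
      rw [P08_wd_mul]
      refine Submodule.subset_span ⟨v * w, ?_, rfl⟩
      rw [P08_wl_mul]
      push_cast
      omega
    · rw [mul_zero]
      exact Submodule.zero_mem _
    · intro y z _ _ hy hz
      rw [mul_add]
      exact Submodule.add_mem _ hy hz
    · intro c y _ hy
      rw [mul_smul_comm]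
      exact Submodule.smul_mem _ _ hy
  · rw [zero_mul]
    exact Submodule.zero_mem _
  · intro y z _ _ hy hz
    rw [add_mul]
    exact Submodule.add_mem _ hy hz
  · intro c y _ hy
    rw [smul_mul_assoc]
    exact Submodule.smul_mem _ _ hy

private theorem P08_Pge_anti {a b : ℤ} (h : a ≤ b) : Pge F m b ≤ Pge F m a := by
  refine Submodule.span_mono ?_
  rintro _ ⟨w, hw, rfl⟩
  exact ⟨w, h.trans hw, rfl⟩

private theorem P08_Pge_zero (x : FA F m) : x ∈ Pge F m 0 := by
  refine Submodule.span_mono ?_ (P08_top x)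
  rintro _ ⟨w, rfl⟩
  exact ⟨w, by positivity, rfl⟩

private theorem P08_X_mem (i : Idx m) : (X i : FA F m) ∈ Pge F m (wt i) :=
  Submodule.subset_span ⟨FreeMonoid.of i, by simp [wl], rfl⟩

private theorem P08_Pge_le_J (f : Idx m → FA F m) {k a : ℤ} (h : k < a) {x : FA F m}
    (hx : x ∈ Pge F m a) : x ∈ J f k := by
  refine Submodule.span_induction ?_ ?_ ?_ ?_ hx
  · rintro _ ⟨w, hw, rfl⟩
    exact Ideal.subset_span (Or.inr ⟨w, by omega, rfl⟩)
  · exact Submodule.zero_mem _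
  · intro y z _ _ hy hz
    exact Submodule.add_mem _ hy hz
  · intro c y _ hy
    exact (J f k).smul_of_tower_mem c hy

private theorem P08_J_anti (f : Idx m → FA F m) {k k' : ℤ} (h : k ≤ k') : J f k' ≤ J f k := by
  refine Ideal.span_mono ?_
  rintro x (hx | ⟨w, hw, rfl⟩)
  · exact Or.inl hx
  · exact Or.inr ⟨w, h.trans_lt hw, rfl⟩

private theorem P08_J_mul_wd (f : Idx m → FA F m) (k : ℤ) {x : FA F m} (hx : x ∈ J f k)
    (v : FreeMonoid (Idx m)) : x * wd v ∈ J f k := by
  refine Submodule.span_induction ?_ ?_ ?_ ?_ hx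
  · rintro x (⟨i, w, rfl⟩ | ⟨w, hw, rfl⟩)
    · rw [mul_assoc, P08_wd_mul]
      exact Ideal.subset_span (Or.inl ⟨i, w * v, rfl⟩)
    · rw [P08_wd_mul]
      refine Ideal.subset_span (Or.inr ⟨w * v, ?_, rfl⟩)
      rw [P08_wl_mul]
      push_cast
      omega
  · rw [zero_mul]
    exact Submodule.zero_mem _
  · intro y z _ _ hy hz
    rw [add_mul]
    exact Submodule.add_mem _ hy hz
  · intro c y _ hy
    rw [smul_mul_assoc]
    exact Submodule.smul_mem _ _ hy

private instance P08_twoSided (f : Idx m → FA F m) (k : ℤ) : (J f k).IsTwoSided := by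
  constructor
  intro a b ha
  refine Submodule.span_induction (p := fun b _ => a * b ∈ J f k) ?_ ?_ ?_ ?_ (P08_top b)
  · rintro _ ⟨v, rfl⟩
    exact P08_J_mul_wd f k ha v
  · rw [mul_zero]
    exact Submodule.zero_mem _
  · intro y z _ _ hy hz
    rw [mul_add]
    exact Submodule.add_mem _ hy hz
  · intro c y _ hy
    rw [mul_smul_comm]
    exact (J f k).smul_of_tower_mem c hy

end

section

variable (p : ℕ) [Fact p.Prime]

/-- the finite algebra -/
private abbrev P08_A (f : Idx m → FA (ZMod p) m) (n : ℕ) : Type := FA (ZMod p) m ⧸ J f (n : ℤ)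

variable {p} (f : Idx m → FA (ZMod p) m) (n : ℕ)

/-- the filtration of the finite algebra -/
private noncomputable def P08_I (a : ℤ) : AddSubgroup (P08_A p f n) :=
  (Pge (ZMod p) m a).toAddSubgroup.map (Ideal.Quotient.mk (J f (n : ℤ))).toAddMonoidHom

private theorem P08_mem_I {a : ℤ} {x : P08_A p f n} :
    x ∈ P08_I f n a ↔ ∃ y ∈ Pge (ZMod p) m a, Ideal.Quotient.mk (J f (n : ℤ)) y = x := by
  rfl

private theorem P08_I_mul {a b : ℤ} {x y : P08_A p f n} (hx : x ∈ P08_I f n a)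
    (hy : y ∈ P08_I f n b) : x * y ∈ P08_I f n (a + b) := by
  obtain ⟨x', hx', rfl⟩ := hx
  obtain ⟨y', hy', rfl⟩ := hy
  exact ⟨x' * y', P08_Pge_mul hx' hy', map_mul (Ideal.Quotient.mk (J f (n : ℤ))) x' y'⟩

private theorem P08_I_zero (x : P08_A p f n) : x ∈ P08_I f n 0 := by
  obtain ⟨y, rfl⟩ := Ideal.Quotient.mk_surjective x
  exact ⟨y, P08_Pge_zero y, rfl⟩

private theorem P08_I_anti {a b : ℤ} (h : a ≤ b) {x : P08_A p f n} (hx : x ∈ P08_I f n b) :
    x ∈ P08_I f n a := by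
  obtain ⟨x', hx', rfl⟩ := hx
  exact ⟨x', P08_Pge_anti h hx', rfl⟩

private theorem P08_I_bot {a : ℤ} (h : (n : ℤ) < a) {x : P08_A p f n} (hx : x ∈ P08_I f n a) :
    x = 0 := by
  obtain ⟨x', hx', rfl⟩ := hx
  exact Ideal.Quotient.eq_zero_iff_mem.2 (P08_Pge_le_J f h hx')

private theorem P08_I_mul_left {a : ℤ} (x : P08_A p f n) {y : P08_A p f n}
    (hy : y ∈ P08_I f n a) : x * y ∈ P08_I f n a := by
  have := P08_I_mul f n (P08_I_zero f n x) hy
  rwa [zero_add] at this

private theorem P08_I_mul_right {a : ℤ} (x : P08_A p f n) {y : P08_A p f n}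
    (hy : y ∈ P08_I f n a) : y * x ∈ P08_I f n a := by
  have := P08_I_mul f n hy (P08_I_zero f n x)
  rwa [add_zero] at this

private theorem P08_I_pow {a : ℤ} {x : P08_A p f n} (hx : x ∈ P08_I f n a) (r : ℕ) :
    x ^ r ∈ P08_I f n (r * a) := by
  induction r with
  | zero =>
    rw [Nat.cast_zero, zero_mul]
    exact P08_I_zero f n _
  | succ r ih =>
    rw [pow_succ]
    have := P08_I_mul f n ih hx
    have h : ((r + 1 : ℕ) : ℤ) * a = r * a + a := by push_cast; ring
    rw [h]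
    exact this

/-- the series of subgroups of the unit group -/
private noncomputable def P08_D (a : ℕ) : Subgroup (P08_A p f n)ˣ where
  carrier := {g | (g : P08_A p f n) - 1 ∈ P08_I f n a}
  one_mem' := by
    show ((1 : (P08_A p f n)ˣ) : P08_A p f n) - 1 ∈ P08_I f n a
    rw [Units.val_one, sub_self]
    exact AddSubgroup.zero_mem _
  mul_mem' := by
    intro g h hg hh
    have hg' : (g : P08_A p f n) - 1 ∈ P08_I f n a := hg
    have hh' : (h : P08_A p f n) - 1 ∈ P08_I f n a := hh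
    show ((g * h : (P08_A p f n)ˣ) : P08_A p f n) - 1 ∈ P08_I f n a
    have h1 : ((g * h : (P08_A p f n)ˣ) : P08_A p f n) - 1 =
        (g : P08_A p f n) * ((h : P08_A p f n) - 1) + ((g : P08_A p f n) - 1) := by
      rw [Units.val_mul]
      noncomm_ring
    rw [h1]
    exact AddSubgroup.add_mem _ (P08_I_mul_left f n _ hh') hg'
  inv_mem' := by
    intro g hg
    have hg' : (g : P08_A p f n) - 1 ∈ P08_I f n a := hg
    show ((g⁻¹ : (P08_A p f n)ˣ) : P08_A p f n) - 1 ∈ P08_I f n a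
    have h1 : ((g⁻¹ : (P08_A p f n)ˣ) : P08_A p f n) - 1 =
        -(((g⁻¹ : (P08_A p f n)ˣ) : P08_A p f n) * ((g : P08_A p f n) - 1)) := by
      rw [mul_sub, Units.inv_mul]
      noncomm_ring
    rw [h1]
    exact AddSubgroup.neg_mem _ (P08_I_mul_left f n _ hg')

private theorem P08_mem_D {a : ℕ} {g : (P08_A p f n)ˣ} :
    g ∈ P08_D f n a ↔ (g : P08_A p f n) - 1 ∈ P08_I f n a := Iff.rfl

private theorem P08_D_anti {a b : ℕ} (h : a ≤ b) : P08_D f n b ≤ P08_D f n a :=
  fun _ hg => P08_I_anti f n (Int.ofNat_le.2 h) hg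

private theorem P08_D_bot {a : ℕ} (h : n < a) {g : (P08_A p f n)ˣ} (hg : g ∈ P08_D f n a) :
    g = 1 := by
  have := P08_I_bot f n (Int.ofNat_lt.2 h) hg
  exact Units.ext (sub_eq_zero.1 this)

private theorem P08_D_comm {a b : ℕ} {g h : (P08_A p f n)ˣ} (hg : g ∈ P08_D f n a)
    (hh : h ∈ P08_D f n b) : g * h * g⁻¹ * h⁻¹ ∈ P08_D f n (a + b) := by
  rw [P08_mem_D] at hg hh ⊢
  have h1 : ((g * h * g⁻¹ * h⁻¹ : (P08_A p f n)ˣ) : P08_A p f n) - 1 =
      (((g : P08_A p f n) - 1) * ((h : P08_A p f n) - 1) -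
        ((h : P08_A p f n) - 1) * ((g : P08_A p f n) - 1)) *
        ((g⁻¹ * h⁻¹ : (P08_A p f n)ˣ) : P08_A p f n) := by
    have h2 : ((g : P08_A p f n) - 1) * ((h : P08_A p f n) - 1) -
        ((h : P08_A p f n) - 1) * ((g : P08_A p f n) - 1) =
        ((g * h : (P08_A p f n)ˣ) : P08_A p f n) - ((h * g : (P08_A p f n)ˣ) : P08_A p f n) := by
      rw [Units.val_mul, Units.val_mul]
      noncomm_ring
    have h3 : (h * g) * (g⁻¹ * h⁻¹) = 1 := by group
    rw [h2, sub_mul, ← Units.val_mul, ← Units.val_mul, h3, Units.val_one]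
    congr 2
    group
  rw [h1]
  refine P08_I_mul_right f n _ (AddSubgroup.sub_mem _ ?_ ?_)
  · have := P08_I_mul f n hg hh
    push_cast
    exact this
  · have := P08_I_mul f n hh hg
    rw [add_comm] at this
    push_cast
    exact this

private theorem P08_surj (x : P08_A p f n) (hfin : Finite {w : FreeMonoid (Idx m) // wl w ≤ n}) :
    ∃ c : {w : FreeMonoid (Idx m) // wl w ≤ n} → ZMod p,
      Ideal.Quotient.mk (J f (n : ℤ)) (∑ᶠ w, c w • wd (w : FreeMonoid (Idx m))) = x := by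
  have := Fintype.ofFinite {w : FreeMonoid (Idx m) // wl w ≤ n}
  obtain ⟨y, rfl⟩ := Ideal.Quotient.mk_surjective x
  refine Submodule.span_induction (p := fun y _ => ∃ c : {w : FreeMonoid (Idx m) // wl w ≤ n} →
    ZMod p, Ideal.Quotient.mk (J f (n : ℤ)) (∑ᶠ w, c w • wd (w : FreeMonoid (Idx m))) =
      Ideal.Quotient.mk (J f (n : ℤ)) y) ?_ ?_ ?_ ?_ (P08_top y)
  · rintro _ ⟨w, rfl⟩
    by_cases hw : wl w ≤ n
    · refine ⟨Pi.single ⟨w, hw⟩ 1, ?_⟩
      rw [finsum_eq_sum_of_fintype]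
      congr 1
      rw [Finset.sum_eq_single ⟨w, hw⟩]
      · simp
      · intro b _ hb
        rw [Pi.single_eq_of_ne hb, zero_smul]
      · intro h
        exact absurd (Finset.mem_univ _) h
    · refine ⟨0, ?_⟩
      have h1 : Ideal.Quotient.mk (J f (n : ℤ)) (wd w) = 0 :=
        Ideal.Quotient.eq_zero_iff_mem.2 (Ideal.subset_span (Or.inr ⟨w, by omega, rfl⟩))
      rw [h1]
      simp
  · exact ⟨0, by simp⟩
  · rintro y z - - ⟨c, hc⟩ ⟨d, hd⟩
    refine ⟨c + d, ?_⟩
    rw [map_add, ← hc, ← hd, ← map_add]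
    congr 1
    rw [finsum_eq_sum_of_fintype, finsum_eq_sum_of_fintype, finsum_eq_sum_of_fintype,
      ← Finset.sum_add_distrib]
    exact Finset.sum_congr rfl fun w _ => add_smul _ _ _
  · rintro a y - ⟨c, hc⟩
    refine ⟨a • c, ?_⟩
    have h1 : ∀ z : FA (ZMod p) m, Ideal.Quotient.mk (J f (n : ℤ)) (a • z) =
        Ideal.Quotient.mk (J f (n : ℤ)) (algebraMap (ZMod p) _ a) *
          Ideal.Quotient.mk (J f (n : ℤ)) z := by
      intro z
      rw [Algebra.smul_def, map_mul]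
    rw [h1, ← hc, ← h1]
    congr 1
    rw [finsum_eq_sum_of_fintype, finsum_eq_sum_of_fintype, Finset.smul_sum]
    exact Finset.sum_congr rfl fun w _ => by rw [Pi.smul_apply, smul_assoc]

end

theorem P08_series (p : ℕ) [Fact p.Prime] (hp : p ≠ 2) [NeZero m] (hm : 2 ≤ m)
    (w : Idx m → FreeGroup (Idx m)) (q : Idx m → ℕ) (hq : ∀ i, q i % p = 1)
    (hself : ∀ i, ex p i (w i) = 1)
    (hA : ∀ (r : Fin m) (j : Idx m), j ≠ Sum.inl r →
      (ex p j (w (Sum.inl r)) ≠ 1 ↔ j = nx (Sum.inl r)))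
    (hS : ∀ r t : Fin m, (ex p (Sum.inl t) (w (Sum.inr r)) ≠ 1 ↔ t = r)) (n : ℕ) :
    ∃ (Q : Type) (_ : Group Q) (_ : Finite Q) (ξ : Idx m → Q) (D : ℕ → Subgroup Q),
      IsPGroup p Q ∧ Nat.card Q ≤ Nbd p m n ∧ Subgroup.closure (Set.range ξ) = ⊤ ∧
      (∀ i, FreeGroup.lift ξ (w i) * ξ i * (FreeGroup.lift ξ (w i))⁻¹ = ξ i ^ q i) ∧
      NpSeries p Q n D ∧ D 2 = ⊤ ∧ ∀ i, Exact p n (wt i) D (ξ i) := by
  obtain ⟨l, f, hf, hrel⟩ := P07_rel p hp hm w q hq hself hA hS n
  have hpp : p.Prime := Fact.out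
  -- finiteness
  have hfinw : Finite {w : FreeMonoid (Idx m) // wl w ≤ n} := by
    have := P04_finite (m := m) (n : ℤ)
    exact Finite.of_injective
      (fun w : {w : FreeMonoid (Idx m) // wl w ≤ n} =>
        (⟨w.1, Int.ofNat_le.2 w.2⟩ : {w : FreeMonoid (Idx m) // (wl w : ℤ) ≤ n}))
      (fun a b h => by
        have h' := congrArg Subtype.val h
        exact Subtype.ext h')
  have hsur : Function.Surjective fun c : {w : FreeMonoid (Idx m) // wl w ≤ n} → ZMod p =>
      Ideal.Quotient.mk (J f (n : ℤ)) (∑ᶠ w, c w • wd (w : FreeMonoid (Idx m))) :=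
    fun x => P08_surj f n x hfinw
  have hfinA : Finite (P08_A p f n) := Finite.of_surjective _ hsur
  have hcardA : Nat.card (P08_A p f n) ≤ Nbd p m n := by
    have h1 := Nat.card_le_card_of_surjective _ hsur
    rwa [Nat.card_fun, Nat.card_zmod] at h1
  -- characteristic
  have hone : (1 : FA (ZMod p) m) ∉ J f (n : ℤ) := by
    have := P05_pow hm l f hf (n : ℤ) (Sum.inl 0) 0 (by simp)
    rwa [pow_zero] at this
  have hnt : Nontrivial (P08_A p f n) := by
    refine ⟨⟨Ideal.Quotient.mk (J f (n : ℤ)) 1, 0, fun h => hone ?_⟩⟩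
    exact Ideal.Quotient.eq_zero_iff_mem.1 h
  have hchar : CharP (P08_A p f n) p :=
    charP_of_injective_ringHom ((Ideal.Quotient.mk (J f (n : ℤ))).comp
      (algebraMap (ZMod p) (FA (ZMod p) m))).injective p
  have hpow : ∀ (g : P08_A p f n) (k : ℕ), g ^ p ^ k - 1 = (g - 1) ^ p ^ k := by
    intro g k
    rw [sub_pow_char_pow_of_commute p k (Commute.one_right g), one_pow]
  -- the units
  have hnil : ∀ i, IsNilpotent (Ideal.Quotient.mk (J f (n : ℤ)) (X i)) := by
    intro i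
    refine ⟨n + 1, P08_I_bot f n (a := ((n + 1 : ℕ) : ℤ) * wt i) ?_ (P08_I_pow f n ?_ (n + 1))⟩
    · have : 1 ≤ wt i := by rcases i with i | i <;> simp [wt]
      push_cast
      nlinarith
    · exact ⟨X i, P08_X_mem i, rfl⟩
  let u : Idx m → (P08_A p f n)ˣ := fun i => (hnil i).isUnit_one_add.unit
  have hu : ∀ i, (u i : P08_A p f n) = 1 + Ideal.Quotient.mk (J f (n : ℤ)) (X i) :=
    fun i => (hnil i).isUnit_one_add.unit_spec
  have hu1 : ∀ i, (u i : P08_A p f n) - 1 = Ideal.Quotient.mk (J f (n : ℤ)) (X i) := by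
    intro i
    rw [hu, add_sub_cancel_left]
  have huD : ∀ i, u i ∈ P08_D f n (wt i) := by
    intro i
    rw [P08_mem_D, hu1]
    exact ⟨X i, P08_X_mem i, rfl⟩
  let Q : Subgroup (P08_A p f n)ˣ := Subgroup.closure (Set.range u)
  let ξ : Idx m → Q := fun i => ⟨u i, Subgroup.subset_closure ⟨i, rfl⟩⟩
  have hQ2 : Q ≤ P08_D f n 2 := by
    rw [Subgroup.closure_le]
    rintro _ ⟨i, rfl⟩
    refine P08_D_anti f n ?_ (huD i)
    rcases i with i | i <;> simp [wt]
  have hlift : ∀ v : FreeGroup (Idx m), ((FreeGroup.lift ξ v : Q) : (P08_A p f n)ˣ) =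
      FreeGroup.lift u v := by
    intro v
    have : Q.subtype.comp (FreeGroup.lift ξ) = FreeGroup.lift u := by
      refine FreeGroup.ext_hom _ _ fun i => ?_
      simp [ξ]
    exact DFunLike.congr_fun this v
  refine ⟨Q, inferInstance, inferInstance, ξ, fun a => (P08_D f n a).subgroupOf Q, ?_, ?_, ?_, ?_,
    ⟨?_, ?_, ?_, ?_, ?_⟩, ?_, ?_⟩
  · intro g
    refine ⟨n + 1, Subtype.ext ?_⟩
    refine P08_D_bot f n (Nat.lt_succ_self n) (g := ((g ^ p ^ (n + 1) : Q) : (P08_A p f n)ˣ)) ?_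
    rw [P08_mem_D, Subgroup.coe_pow, Units.val_pow_eq_pow_val, hpow]
    have h1 : ((g : (P08_A p f n)ˣ) : P08_A p f n) - 1 ∈ P08_I f n ((2 : ℕ) : ℤ) := hQ2 g.2
    refine P08_I_anti f n ?_ (P08_I_pow f n h1 (p ^ (n + 1)))
    have h2 : n + 1 ≤ p ^ (n + 1) := (Nat.lt_pow_self hpp.one_lt).le
    have h3 : ((n + 1 : ℕ) : ℤ) ≤ ((p ^ (n + 1) : ℕ) : ℤ) := by exact_mod_cast h2
    push_cast at h3 ⊢
    nlinarith
  · refine le_trans (Nat.card_le_card_of_injective
      (fun g : Q => ((g : (P08_A p f n)ˣ) : P08_A p f n)) ?_) hcardA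
    intro g h hgh
    exact Subtype.ext (Units.ext hgh)
  · have h1 : Set.range ξ = ((↑) : Q → (P08_A p f n)ˣ) ⁻¹' Set.range u := by
      ext g
      constructor
      · rintro ⟨i, rfl⟩
        exact ⟨i, rfl⟩
      · rintro ⟨i, hi⟩
        exact ⟨i, Subtype.ext hi⟩
    rw [h1]
    exact Subgroup.closure_closure_coe_preimage
  · intro i
    refine Subtype.ext ?_
    have h1 := hrel (P08_A p f n) (Ideal.Quotient.mk (J f (n : ℤ)))
      (fun x hx => Ideal.Quotient.eq_zero_iff_mem.2 hx) u hu i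
    rw [Subgroup.coe_mul, Subgroup.coe_mul, Subgroup.coe_inv, Subgroup.coe_pow, hlift]
    exact h1
  · intro a b hab g hg
    exact P08_D_anti f n hab hg
  · rw [Subgroup.subgroupOf_eq_top]
    exact hQ2.trans (P08_D_anti f n (by norm_num))
  · rw [eq_bot_iff]
    intro g hg
    exact Subtype.ext (P08_D_bot f n (Nat.lt_succ_self n) hg)
  · intro a b g hg h hh
    exact P08_D_comm f n hg hh
  · intro a g hg
    have hg' : ((g : (P08_A p f n)ˣ) : P08_A p f n) - 1 ∈ P08_I f n a := hg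
    show ((g ^ p : Q) : (P08_A p f n)ˣ) ∈ P08_D f n (p * a)
    rw [P08_mem_D, Subgroup.coe_pow, Units.val_pow_eq_pow_val]
    have h1 := hpow ((g : (P08_A p f n)ˣ) : P08_A p f n) 1
    rw [pow_one] at h1
    rw [h1]
    have h2 := P08_I_pow f n hg' p
    push_cast
    exact h2
  · rw [Subgroup.subgroupOf_eq_top]
    exact hQ2
  · intro i
    refine ⟨huD i, fun k hk hmem => ?_⟩
    have h1 : ((u i ^ p ^ k : (P08_A p f n)ˣ) : P08_A p f n) - 1 ∈
      P08_I f n ((wt i * p ^ k + 1 : ℕ) : ℤ) := hmem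
    rw [Units.val_pow_eq_pow_val, hpow, hu1, ← map_pow] at h1
    obtain ⟨y, hy, hyx⟩ := h1
    have h2 : X i ^ p ^ k - y ∈ J f (n : ℤ) := by
      rw [← Ideal.Quotient.eq_zero_iff_mem, map_sub, sub_eq_zero]
      exact hyx.symm
    have h3 : X i ^ p ^ k ∈ J f ((wt i * p ^ k : ℕ) : ℤ) := by
      have h4 := P08_J_anti f (Int.ofNat_le.2 hk) h2
      have h5 : y ∈ J f ((wt i * p ^ k : ℕ) : ℤ) :=
        P08_Pge_le_J f (Int.ofNat_lt.2 (Nat.lt_succ_self _)) hy
      have h6 := Submodule.add_mem _ h4 h5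
      rwa [sub_add_cancel] at h6
    exact P05_pow hm l f hf _ i (p ^ k) (by rw [mul_comm]) h3

end Pool.Agent.RG
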