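import Mathlib
import Pool.Agent.Lib.RG.PDefs

/-!
PART P, row P09: basic properties of the filtration `Ef`.
`P09_bot`: nilpotency. Proof: the products of `K` elements `g - 1` vanish for large `K` (a finite `p`-group acting on a
nonzero vector space over the field with `p` elements has a nonzero fixed vector, applied to the quotients of the group
algebra by left ideals); a product of weight >= (n+1) K (weights <= n, otherwise a factor is 0) has at least
`K` factors.
-/

set_option autoImplicit false

namespace Pool.Agent.RG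

open scoped Classical

theorem P09_anti (p : ℕ) {Q : Type} [Group Q] (D : ℕ → Subgroup Q) {a b : ℤ} (h : a ≤ b) :
    Ef p D b ≤ Ef p D a := by
  refine Submodule.span_mono ?_
  rintro x ⟨l, hl, hs, hx⟩
  exact ⟨l, hl, h.trans hs, hx⟩

theorem P09_dl (p : ℕ) {Q : Type} [Group Q] (D : ℕ → Subgroup Q) (a : ℕ) (g : Q) (hg : g ∈ D a) :
    dl p g ∈ Ef p D a := by
  refine Submodule.subset_span ⟨[(a, g)], ?_, ?_, ?_⟩
  · simpa using hg
  · simp
  · simp

theorem P09_mul (p : ℕ) {Q : Type} [Group Q] (D : ℕ → Subgroup Q) (a b : ℤ) (x y : GA p Q)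
    (hx : x ∈ Ef p D a) (hy : y ∈ Ef p D b) : x * y ∈ Ef p D (a + b) := by
  have key : ∀ x ∈ {x : GA p Q | ∃ l : List (ℕ × Q), (∀ c ∈ l, c.2 ∈ D c.1) ∧
      a ≤ ((l.map Prod.fst).sum : ℕ) ∧ x = (l.map fun c => dl p c.2).prod},
      ∀ y ∈ Ef p D b, x * y ∈ Ef p D (a + b) := by
    rintro x ⟨l, hl, hs, rfl⟩ y hy
    refine Submodule.span_induction (p := fun y _ => (l.map fun c => dl p c.2).prod * y ∈
      Ef p D (a + b)) ?_ ?_ ?_ ?_ hy
    · rintro y ⟨l', hl', hs', rfl⟩
      refine Submodule.subset_span ⟨l ++ l', ?_, ?_, ?_⟩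
      · intro c hc
        rcases List.mem_append.1 hc with h | h
        · exact hl c h
        · exact hl' c h
      · rw [List.map_append, List.sum_append]
        push_cast
        push_cast at hs hs'
        omega
      · rw [List.map_append, List.prod_append]
    · simp
    · intro y y' _ _ h h'
      rw [mul_add]
      exact Submodule.add_mem _ h h'
    · intro c y _ h
      rw [mul_smul_comm]
      exact Submodule.smul_mem _ c h
  refine Submodule.span_induction (p := fun x _ => x * y ∈ Ef p D (a + b)) ?_ ?_ ?_ ?_ hx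
  · intro x hx
    exact key x hx y hy
  · simp
  · intro y y' _ _ h h'
    rw [add_mul]
    exact Submodule.add_mem _ h h'
  · intro c y _ h
    rw [smul_mul_assoc]
    exact Submodule.smul_mem _ c h

private lemma one_mem (p : ℕ) {Q : Type} [Group Q] (D : ℕ → Subgroup Q) (a : ℤ) (h : a ≤ 0) :
    (1 : GA p Q) ∈ Ef p D a :=
  Submodule.subset_span ⟨[], by simp, by simpa using h, by simp⟩

theorem P09_top (p : ℕ) {Q : Type} [Group Q] (n : ℕ) (D : ℕ → Subgroup Q)
    (hD : NpSeries p Q n D) (a : ℤ) (h : a ≤ 0) : Ef p D a = ⊤ := by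
  rw [eq_top_iff]
  intro x _
  refine MonoidAlgebra.induction_on (motive := fun x => x ∈ Ef p D a) x (fun g => ?_) ?_ ?_
  · have e : MonoidAlgebra.of (ZMod p) Q g = 1 + dl p g := by simp [dl]
    rw [e]
    refine Submodule.add_mem _ (one_mem p D a h) (P09_anti p D (b := (1 : ℕ)) ?_ (P09_dl p D 1 g ?_))
    · push_cast
      omega
    · rw [hD.one]
      trivial
  · exact fun x y hx hy => Submodule.add_mem _ hx hy
  · exact fun c x hx => Submodule.smul_mem _ c hx

private lemma finGA (p : ℕ) [Fact p.Prime] (Q : Type) [Group Q] [Finite Q] : Finite (GA p Q) := by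
  have : Finite (Q → ZMod p) := inferInstance
  refine Finite.of_injective (fun x : GA p Q => fun q : Q => x.coeff q) ?_
  intro x y h
  ext q
  exact congrFun h q

private lemma nilp (p : ℕ) [Fact p.Prime] {Q : Type} [Group Q] [Finite Q] (hQ : IsPGroup p Q)
    (W : Submodule (GA p Q) (GA p Q)) :
    ∃ K : ℕ, ∀ l : List Q, K ≤ l.length → (l.map fun g => dl p g).prod ∈ W := by
  have := finGA p Q
  induction W using IsNoetherian.induction with
  | hgt W ih =>
    by_cases hW : W = ⊤
    · exact ⟨0, fun l _ => by rw [hW]; trivial⟩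
    · -- a fixed vector modulo `W`
      let _ : MulAction Q (GA p Q ⧸ W) := MulAction.compHom _ (MonoidAlgebra.of (ZMod p) Q)
      have hsmul : ∀ (g : Q) (x : GA p Q ⧸ W), g • x = (MonoidAlgebra.of (ZMod p) Q g) • x :=
        fun g x => rfl
      have : Nontrivial (GA p Q ⧸ W) := Submodule.Quotient.nontrivial_iff.2 hW
      have : Finite (GA p Q ⧸ W) := Finite.of_surjective _ (Submodule.Quotient.mk_surjective W)
      obtain ⟨v, hv⟩ := exists_ne (0 : GA p Q ⧸ W)
      have hpv : p • v = 0 := by
        obtain ⟨v, rfl⟩ := Submodule.Quotient.mk_surjective W v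
        rw [← Submodule.Quotient.mk_smul]
        have : p • v = 0 := by
          rw [← Nat.cast_smul_eq_nsmul (ZMod p)]
          simp
        rw [this, Submodule.Quotient.mk_zero]
      have hord : addOrderOf v = p := addOrderOf_eq_prime hpv hv
      have hdvd : p ∣ Nat.card (GA p Q ⧸ W) := by
        have := addOrderOf_dvd_natCard v
        rwa [hord] at this
      have h0 : (0 : GA p Q ⧸ W) ∈ MulAction.fixedPoints Q (GA p Q ⧸ W) := by
        intro g
        rw [hsmul, smul_zero]
      obtain ⟨b, hb, hb0⟩ := hQ.exists_fixed_point_of_prime_dvd_card_of_fixed_point _ hdvd h0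
      obtain ⟨x, rfl⟩ := Submodule.Quotient.mk_surjective W b
      have hx : ∀ g, dl p g * x ∈ W := by
        intro g
        have := hb g
        rw [hsmul, ← Submodule.Quotient.mk_smul, Submodule.Quotient.eq] at this
        rw [dl, sub_mul, one_mul]
        exact this
      have hxW : x ∉ W := fun h => hb0 ((Submodule.Quotient.mk_eq_zero W).2 h).symm
      have hyx : ∀ y : GA p Q, ∃ c : ZMod p, y * x - c • x ∈ W := by
        intro y
        refine MonoidAlgebra.induction_on (motive := fun y => ∃ c : ZMod p, y * x - c • x ∈ W) y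
          (fun g => ⟨1, ?_⟩) ?_ ?_
        · have := hx g
          rw [dl, sub_mul, one_mul] at this
          rw [one_smul]
          exact this
        · rintro y y' ⟨c, hc⟩ ⟨c', hc'⟩
          refine ⟨c + c', ?_⟩
          have := W.add_mem hc hc'
          rw [add_mul, add_smul]
          convert this using 1
          abel
        · rintro r y ⟨c, hc⟩
          refine ⟨r * c, ?_⟩
          have := W.smul_mem (algebraMap (ZMod p) (GA p Q) r) hc
          rw [smul_eq_mul, ← Algebra.smul_def, smul_sub, smul_smul] at this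
          rw [smul_mul_assoc]
          exact this
      obtain ⟨K, hK⟩ := ih (W ⊔ Submodule.span (GA p Q) {x})
        (lt_of_le_of_ne le_sup_left fun h => hxW (by
          rw [h]; exact Submodule.mem_sup_right (Submodule.mem_span_singleton_self x)))
      refine ⟨K + 1, fun l hl => ?_⟩
      cases l with
      | nil => simp at hl
      | cons g l =>
        have h1 := hK l (by simpa using hl)
        obtain ⟨w, hw, z, hz, e⟩ := Submodule.mem_sup.1 h1
        obtain ⟨y, rfl⟩ := Submodule.mem_span_singleton.1 hz
        rw [List.map_cons, List.prod_cons, ← e, mul_add]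
        refine W.add_mem (W.smul_mem (dl p g) hw) ?_
        obtain ⟨c, hc⟩ := hyx y
        have h2 := W.smul_mem (dl p g) hc
        have h3 := W.smul_mem (algebraMap (ZMod p) (GA p Q) c) (hx g)
        rw [smul_eq_mul, mul_sub, mul_smul_comm] at h2
        rw [smul_eq_mul, ← Algebra.smul_def] at h3
        have h4 := W.add_mem h2 h3
        rw [sub_add_cancel] at h4
        exact h4

private lemma isP (p : ℕ) [Fact p.Prime] {Q : Type} [Group Q] (n : ℕ)
    (D : ℕ → Subgroup Q) (hD : NpSeries p Q n D) : IsPGroup p Q := by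
  have h : ∀ (g : Q) (k : ℕ), g ^ p ^ k ∈ D (p ^ k) := by
    intro g k
    induction k with
    | zero => simp [hD.one]
    | succ k ih =>
      have := hD.pow _ _ ih
      rw [← pow_mul] at this
      rw [pow_succ]
      rwa [mul_comm p] at this
  intro g
  refine ⟨n + 1, ?_⟩
  have h1 := hD.anti (a := n + 1) (b := p ^ (n + 1))
    (Nat.lt_pow_self (Fact.out : p.Prime).one_lt).le (h g (n + 1))
  rw [hD.bot] at h1
  exact h1

theorem P09_bot (p : ℕ) [Fact p.Prime] {Q : Type} [Group Q] [Finite Q] (n : ℕ)
    (D : ℕ → Subgroup Q) (hD : NpSeries p Q n D) : ∃ W : ℕ, ∀ a : ℤ, W ≤ a → Ef p D a = ⊥ := by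
  obtain ⟨K, hK⟩ := nilp p (isP p n D hD) ⊥
  refine ⟨n * K + 1, fun a ha => ?_⟩
  rw [eq_bot_iff]
  refine Submodule.span_le.2 ?_
  rintro x ⟨l, hl, hs, rfl⟩
  by_cases hlen : K ≤ l.length
  · have := hK (l.map Prod.snd) (by simpa using hlen)
    rw [List.map_map] at this
    exact this
  · -- some weight is larger than `n`
    have hex : ∃ c ∈ l, n < c.1 := by
      by_contra hcon
      push Not at hcon
      have h1 : (l.map Prod.fst).sum ≤ (l.map Prod.fst).length • n :=
        List.sum_le_card_nsmul _ _ (by
          intro c hc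
          obtain ⟨d, hd, rfl⟩ := List.mem_map.1 hc
          exact hcon d hd)
      rw [List.length_map, smul_eq_mul] at h1
      have h2 : l.length * n ≤ K * n := Nat.mul_le_mul_right n (by omega)
      have h3 : ((n * K + 1 : ℕ) : ℤ) ≤ ((l.map Prod.fst).sum : ℕ) := ha.trans hs
      have h4 : n * K + 1 ≤ (l.map Prod.fst).sum := by exact_mod_cast h3
      have h5 : n * K = K * n := mul_comm _ _
      omega
    obtain ⟨c, hc, hcn⟩ := hex
    have hc1 : c.2 = 1 := by
      have := hD.anti (show n + 1 ≤ c.1 from hcn) (hl c hc)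
      rw [hD.bot] at this
      exact this
    have h0 : dl p c.2 = 0 := by
      rw [hc1, dl, map_one, sub_self]
    have : (l.map fun a => dl p a.2).prod = 0 :=
      List.prod_eq_zero (List.mem_map.2 ⟨c, hc, h0⟩)
    rw [this]
    simp

end Pool.Agent.RG
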