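import Mathlib
import Pool.Agent.Lib.RG.PDefs

/-!
PART P, row P10: adapted elements. `D k / D (k+1)` (k >= 1) is an elementary abelian p-group; choose a basis of each quotient
which contains the class of x^(p^j) when k = v p^j <= n. The y t are the other basis elements. The order of Q is the product of the
orders of the quotients, so p^(K + M) = |Q|. K is the number of j with v p^j <= n, and x^(p^K) in D (v p^K) <= D (n+1) = 1.
-/

set_option autoImplicit false

namespace Pool.Agent.RG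

open scoped Classical

private theorem card_sup_zpowers (p : ℕ) [Fact p.Prime] {Q : Type} [Group Q] (L : Subgroup Q)
    (hL : L.Normal) (g : Q) (hg : g ∉ L) (hgp : g ^ p ∈ L) :
    Nat.card (Subgroup.zpowers g ⊔ L : Subgroup Q) = p * Nat.card L := by
  have h1 : L.relIndex (Subgroup.zpowers g ⊔ L) = L.relIndex (Subgroup.zpowers g) :=
    Subgroup.relIndex_sup_right _ _
  have h2 : L.relIndex (Subgroup.zpowers g) = p := by
    have h := Subgroup.relIndex_ker (K := Subgroup.zpowers g) (QuotientGroup.mk' L)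
    rw [QuotientGroup.ker_mk', MonoidHom.map_zpowers, Nat.card_zpowers] at h
    rw [h]
    apply orderOf_eq_prime
    · rw [← map_pow]
      exact (QuotientGroup.eq_one_iff _).2 hgp
    · intro h3
      exact hg ((QuotientGroup.eq_one_iff _).1 h3)
  have h3 := Subgroup.relIndex_mul_relIndex ⊥ L (Subgroup.zpowers g ⊔ L) bot_le le_sup_right
  rw [Subgroup.relIndex_bot_left, Subgroup.relIndex_bot_left, h1, h2] at h3
  rw [← h3, mul_comm]

private theorem normal_between {Q : Type} [Group Q] {H N : Subgroup Q}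
    (hc : ∀ g ∈ H, ∀ h : Q, g * h * g⁻¹ * h⁻¹ ∈ N) {L : Subgroup Q} (h1 : N ≤ L) (h2 : L ≤ H) :
    L.Normal := by
  refine ⟨fun g hg h => ?_⟩
  have e1 := h1 (hc g⁻¹ (H.inv_mem (h2 hg)) h)
  have e2 : h * g * h⁻¹ = g * (g⁻¹ * h * g⁻¹⁻¹ * h⁻¹) := by group
  rw [e2]
  exact L.mul_mem hg e1

private theorem extend_gens (p : ℕ) [Fact p.Prime] {Q : Type} [Group Q] [Finite Q]
    {H N : Subgroup Q} (hc : ∀ g ∈ H, ∀ h : Q, g * h * g⁻¹ * h⁻¹ ∈ N) (hp : ∀ g ∈ H, g ^ p ∈ N)
    (r : ℕ) : ∀ L : Subgroup Q, N ≤ L → L ≤ H → Nat.card H - Nat.card L ≤ r →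
    ∃ (M : ℕ) (y : Fin M → Q), (∀ t, y t ∈ H) ∧ H ≤ Subgroup.closure (Set.range y) ⊔ L ∧
      p ^ M * Nat.card L = Nat.card H := by
  induction r with
  | zero =>
    intro L h1 h2 h3
    have h4 : H = L := by
      symm
      apply Subgroup.eq_of_le_of_card_ge h2
      omega
    refine ⟨0, Fin.elim0, fun t => t.elim0, ?_, ?_⟩
    · rw [h4]; exact le_sup_right
    · rw [h4, pow_zero, one_mul]
  | succ r ih =>
    intro L h1 h2 h3
    by_cases h4 : H ≤ L
    · refine ⟨0, Fin.elim0, fun t => t.elim0, h4.trans le_sup_right, ?_⟩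
      rw [le_antisymm h4 h2, pow_zero, one_mul]
    · obtain ⟨g, hg, hgL⟩ := SetLike.not_le_iff_exists.1 h4
      have h5 : Subgroup.zpowers g ⊔ L ≤ H := sup_le (Subgroup.zpowers_le.2 hg) h2
      have h6 := card_sup_zpowers p L (normal_between hc h1 h2) g hgL (h1 (hp g hg))
      have h7 : 0 < Nat.card L := Nat.card_pos
      have h8 : 2 ≤ p := (Fact.out : p.Prime).two_le
      have h9 : Nat.card (Subgroup.zpowers g ⊔ L : Subgroup Q) ≤ Nat.card H :=
        Subgroup.card_le_of_le h5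
      have h10 : 2 * Nat.card L ≤ p * Nat.card L := Nat.mul_le_mul_right _ h8
      obtain ⟨M, y, hy1, hy2, hy3⟩ := ih (Subgroup.zpowers g ⊔ L) (h1.trans le_sup_right) h5
        (by omega)
      refine ⟨M + 1, Fin.cons g y, ?_, ?_, ?_⟩
      · intro t
        refine Fin.cases ?_ (fun t => ?_) t
        · rw [Fin.cons_zero]; exact hg
        · rw [Fin.cons_succ]; exact hy1 t
      · refine hy2.trans (sup_le ?_ (sup_le ?_ le_sup_right))
        · refine le_sup_of_le_left (Subgroup.closure_mono ?_)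
          rintro _ ⟨t, rfl⟩
          exact ⟨t.succ, Fin.cons_succ _ _ _⟩
        · refine le_sup_of_le_left ?_
          rw [Subgroup.zpowers_le]
          exact Subgroup.subset_closure ⟨0, Fin.cons_zero _ _⟩
      · rw [← hy3, h6]
        ring

theorem P10_adapted (p : ℕ) [Fact p.Prime] {Q : Type} [Group Q] [Finite Q] (n : ℕ)
    (D : ℕ → Subgroup Q) (hD : NpSeries p Q n D) (v : ℕ) (hv : 0 < v) (x : Q)
    (hx : Exact p n v D x) :
    ∃ (K M : ℕ) (y : Fin M → Q) (a : Fin M → ℕ), orderOf x = p ^ K ∧ p ^ (K + M) = Nat.card Q ∧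
      (∀ t, 1 ≤ a t ∧ y t ∈ D (a t)) ∧
      ∀ k, 1 ≤ k → D k ≤ Subgroup.closure
        ({g | ∃ j, v * p ^ j = k ∧ g = x ^ p ^ j} ∪ {g | ∃ t, a t = k ∧ g = y t}) ⊔ D (k + 1) := by
  have hp2 : 2 ≤ p := (Fact.out : p.Prime).two_le
  have hxj : ∀ j, x ^ p ^ j ∈ D (v * p ^ j) := by
    intro j
    induction j with
    | zero => rw [pow_zero, pow_one, mul_one]; exact hx.1
    | succ j ih =>
      have h := hD.pow _ _ ih
      rw [← pow_mul, ← pow_succ] at h
      have e : p * (v * p ^ j) = v * p ^ (j + 1) := by ring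
      rwa [e] at h
  -- the quotients
  have hc : ∀ k, ∀ g ∈ D k, ∀ h : Q, g * h * g⁻¹ * h⁻¹ ∈ D (k + 1) := by
    intro k g hg h
    exact hD.comm k 1 g hg h (by rw [hD.one]; trivial)
  have hpw : ∀ k, 1 ≤ k → ∀ g ∈ D k, g ^ p ∈ D (k + 1) := by
    intro k hk g hg
    refine hD.anti ?_ (hD.pow k g hg)
    nlinarith
  -- one step
  have hstep : ∀ k, 1 ≤ k → k ≤ n → ∃ (M : ℕ) (y : Fin M → Q), (∀ t, y t ∈ D k) ∧
      D k ≤ Subgroup.closure ({g | ∃ j, v * p ^ j = k ∧ g = x ^ p ^ j} ∪ Set.range y) ⊔ D (k + 1) ∧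
      p ^ ((if ∃ j, v * p ^ j = k then 1 else 0) + M) * Nat.card (D (k + 1)) = Nat.card (D k) := by
    intro k hk hkn
    by_cases hj : ∃ j, v * p ^ j = k
    · obtain ⟨j, hj'⟩ := hj
      have h1 : x ^ p ^ j ∈ D k := by rw [← hj']; exact hxj j
      have h2 : x ^ p ^ j ∉ D (k + 1) := by
        rw [← hj']
        exact hx.2 j (by rw [hj']; exact hkn)
      have h3 := card_sup_zpowers p (D (k + 1))
        (normal_between (hc k) le_rfl (hD.anti (Nat.le_succ k))) (x ^ p ^ j) h2 (hpw k hk _ h1)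
      have h4 : Subgroup.zpowers (x ^ p ^ j) ⊔ D (k + 1) ≤ D k :=
        sup_le (Subgroup.zpowers_le.2 h1) (hD.anti (Nat.le_succ k))
      obtain ⟨M, y, hy1, hy2, hy3⟩ := extend_gens p (hc k) (hpw k hk) _
        (Subgroup.zpowers (x ^ p ^ j) ⊔ D (k + 1)) le_sup_right h4 le_rfl
      refine ⟨M, y, hy1, ?_, ?_⟩
      · refine hy2.trans (sup_le ?_ (sup_le ?_ le_sup_right))
        · exact le_sup_of_le_left (Subgroup.closure_mono Set.subset_union_right)
        · refine le_sup_of_le_left ?_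
          rw [Subgroup.zpowers_le]
          exact Subgroup.subset_closure (Or.inl ⟨j, hj', rfl⟩)
      · rw [if_pos ⟨j, hj'⟩, ← hy3, h3]
        ring
    · obtain ⟨M, y, hy1, hy2, hy3⟩ := extend_gens p (hc k) (hpw k hk) _
        (D (k + 1)) le_rfl (hD.anti (Nat.le_succ k)) le_rfl
      refine ⟨M, y, hy1, ?_, ?_⟩
      · exact hy2.trans (sup_le (le_sup_of_le_left
          (Subgroup.closure_mono Set.subset_union_right)) le_sup_right)
      · rw [if_neg hj, zero_add]
        exact hy3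
  choose! M y hy1 hy2 hy3 using hstep
  obtain ⟨ε, hε⟩ : ∃ ε : ℕ → ℕ, ∀ k, ε k = if ∃ j, v * p ^ j = k then 1 else 0 := ⟨_, fun k => rfl⟩
  -- the order of `Q`
  have hcardQ : ∀ r, r ≤ n → Nat.card Q =
      p ^ (∑ k ∈ Finset.range r, (ε (k + 1) + M (k + 1))) * Nat.card (D (r + 1)) := by
    intro r
    induction r with
    | zero =>
      intro _
      rw [Finset.sum_range_zero, pow_zero, one_mul, hD.one]
      exact Subgroup.card_top.symm
    | succ r ih =>
      intro hr
      have h1 := hy3 (r + 1) (by omega) hr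
      rw [← hε] at h1
      rw [ih (by omega), Finset.sum_range_succ, pow_add, mul_assoc, h1]
  have hQ := hcardQ n le_rfl
  rw [hD.bot, Subgroup.card_bot, mul_one, Finset.sum_add_distrib] at hQ
  -- the order of `x`
  have hex : ∃ j, n < v * p ^ j := ⟨n, lt_of_lt_of_le (Nat.lt_pow_self hp2)
    (Nat.le_mul_of_pos_left _ hv)⟩
  obtain ⟨K, hK⟩ : ∃ K, K = Nat.find hex := ⟨_, rfl⟩
  have hK1 : n < v * p ^ K := by rw [hK]; exact Nat.find_spec hex
  have hK2 : ∀ j, j < K → v * p ^ j ≤ n := by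
    intro j hj
    rw [hK] at hj
    exact not_lt.1 (Nat.find_min hex hj)
  have hone : ∀ g ∈ D (n + 1), g = 1 := by
    intro g hg
    rw [hD.bot] at hg
    exact Subgroup.mem_bot.1 hg
  have hord : orderOf x = p ^ K := by
    have h1 : x ^ p ^ K = 1 := hone _ (hD.anti (by omega) (hxj K))
    rcases Nat.eq_zero_or_pos K with h0 | h0
    · rw [h0, pow_zero, pow_one] at h1
      rw [h0, pow_zero, h1, orderOf_one]
    · obtain ⟨K', rfl⟩ : ∃ K', K = K' + 1 := ⟨K - 1, by omega⟩
      apply orderOf_eq_prime_pow _ h1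
      intro h2
      apply hx.2 K' (hK2 K' (by omega))
      rw [h2]
      exact one_mem _
  have hKsum : ∑ k ∈ Finset.range n, ε (k + 1) = K := by
    have h1 : ∑ k ∈ Finset.range n, ε (k + 1) =
        ((Finset.range n).filter fun k => ∃ j, v * p ^ j = k + 1).card := by
      rw [Finset.card_filter]
      exact Finset.sum_congr rfl fun k _ => hε (k + 1)
    have h2 : (Finset.range n).filter (fun k => ∃ j, v * p ^ j = k + 1) =
        (Finset.range K).image fun j => v * p ^ j - 1 := by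
      ext k
      simp only [Finset.mem_filter, Finset.mem_range, Finset.mem_image]
      constructor
      · rintro ⟨hk, j, hj⟩
        refine ⟨j, ?_, by omega⟩
        by_contra hjK
        have h3 : v * p ^ K ≤ v * p ^ j :=
          Nat.mul_le_mul_left _ (Nat.pow_le_pow_right (by omega) (by omega))
        omega
      · rintro ⟨j, hj, rfl⟩
        have h3 := hK2 j hj
        have h4 : 0 < v * p ^ j := Nat.mul_pos hv (Nat.pow_pos (by omega))
        exact ⟨by omega, j, by omega⟩
    rw [h1, h2, Finset.card_image_of_injOn, Finset.card_range]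
    intro i _ j _ hij
    have h3 : 0 < v * p ^ j := Nat.mul_pos hv (Nat.pow_pos (by omega))
    have h4 : 0 < v * p ^ i := Nat.mul_pos hv (Nat.pow_pos (by omega))
    have h5 : v * p ^ i - 1 = v * p ^ j - 1 := hij
    have h6 : v * p ^ i = v * p ^ j := by omega
    exact Nat.pow_right_injective hp2 (Nat.eq_of_mul_eq_mul_left hv h6)
  -- the index set
  obtain ⟨e⟩ : Nonempty (Fin (Fintype.card (Σ k : Fin n, Fin (M (k + 1)))) ≃
      (Σ k : Fin n, Fin (M (k + 1)))) := ⟨(Fintype.equivFin _).symm⟩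
  have hI : Fintype.card (Σ k : Fin n, Fin (M (k + 1))) = ∑ k ∈ Finset.range n, M (k + 1) := by
    rw [Fintype.card_sigma]
    simp only [Fintype.card_fin]
    rw [Fin.sum_univ_eq_sum_range (fun k => M (k + 1))]
  refine ⟨K, Fintype.card (Σ k : Fin n, Fin (M (k + 1))),
    fun t => y ((e t).1 + 1) (e t).2, fun t => (e t).1 + 1, hord, ?_, ?_, ?_⟩
  · rw [hI, hQ, hKsum]
  · intro t
    have ht : (e t).1.val < n := (e t).1.2
    exact ⟨Nat.succ_le_succ (Nat.zero_le _), hy1 _ (Nat.succ_le_succ (Nat.zero_le _)) ht _⟩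
  · intro k hk
    by_cases hkn : k ≤ n
    · refine (hy2 k hk hkn).trans (sup_le (le_sup_of_le_left (Subgroup.closure_mono ?_))
        le_sup_right)
      refine Set.union_subset_union_right _ ?_
      rintro _ ⟨t, rfl⟩
      obtain ⟨k', rfl⟩ : ∃ k', k = k' + 1 := ⟨k - 1, by omega⟩
      refine ⟨e.symm ⟨⟨k', by omega⟩, t⟩, ?_, ?_⟩
      · simp only [Equiv.apply_symm_apply]
      · have key : ∀ i : (Σ k : Fin n, Fin (M (k + 1))), i = ⟨⟨k', by omega⟩, t⟩ →
            y (k' + 1) t = y (i.1 + 1) i.2 := by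
          rintro _ rfl
          rfl
        exact key _ (e.apply_symm_apply _)
    · have h1 : D k ≤ ⊥ := by
        rw [← hD.bot]
        exact hD.anti (by omega)
      exact h1.trans bot_le

end Pool.Agent.RG
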