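import Mathlib
import Pool.Agent.Lib.RG.P09
import Pool.Agent.Lib.RG.P10

/-!
PART P, row P11: Jennings type spanning statement. Ordered products
(x-1)^e (y_1-1)^(e_1) .. (y_M-1)^(e_M), e < p^K, e_t < p, of weight e v + sum e_t a_t >= k span Ef k. Proof: decreasing induction on
k (start P09_bot), for fixed k induction on the number of factors: modulo Ef (k+1) and products with fewer factors of weight >= k:
(g-1)(h-1) = (h-1)(g-1) + (commutator - 1)(..), (gh-1) = (g-1) + (h-1) + higher, (g-1)^p = g^p - 1, so every product can be
sorted; a factor from D k is replaced by factors from the adapted elements of P10. The b t are the products without the power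
of (x - 1), c t their weights.
-/

set_option autoImplicit false

namespace Pool.Agent.RG

open scoped Classical

section P11

variable (p : ℕ) {Q : Type} [Group Q]

private theorem P11_dl_pow [Fact p.Prime] (g : Q) (j : ℕ) : dl p (g ^ p ^ j) = dl p g ^ p ^ j := by
  have hc : CharP (GA p Q) p :=
    charP_of_injective_algebraMap (algebraMap (ZMod p) (GA p Q)).injective p
  simp only [dl, map_pow]
  rw [sub_pow_char_pow_of_commute _ _ (Commute.one_right _)]
  simp

private theorem P11_lift {α β : Type*} (f : α → β) (l : List β) (h : ∀ z ∈ l, ∃ t, f t = z) :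
    ∃ I : List α, I.map f = l := by
  induction l with
  | nil => exact ⟨[], rfl⟩
  | cons b l ih =>
    obtain ⟨t, ht⟩ := h b (by simp)
    obtain ⟨I, hI⟩ := ih fun z hz => h z (List.mem_cons_of_mem _ hz)
    exact ⟨t :: I, by simp [ht, hI]⟩

private theorem P11_sort {M : ℕ} (I : List (Fin M)) :
    I.Perm ((List.finRange M).flatMap fun t => List.replicate (I.count t) t) := by
  rw [List.perm_iff_count]
  intro t
  rw [List.count_flatMap, ← List.ofFn_eq_map, List.sum_ofFn, Finset.sum_eq_single t]
  · simp
  · intro b _ hb
    simp only [Function.comp_apply]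
    rw [List.count_replicate]
    simp [hb]
  · simp

/-- the product of the `h - 1` over a list -/
private noncomputable def P11_pr (l : List (ℕ × Q)) : GA p Q := (l.map fun a => dl p a.2).prod

/-- valid lists -/
private def P11_V (D : ℕ → Subgroup Q) (l : List (ℕ × Q)) : Prop := ∀ a ∈ l, 1 ≤ a.1 ∧ a.2 ∈ D a.1

/-- the weight of a list -/
private def P11_w (l : List (ℕ × Q)) : ℕ := (l.map Prod.fst).sum

private theorem P11_pr_append (l l' : List (ℕ × Q)) :
    P11_pr p (l ++ l') = P11_pr p l * P11_pr p l' := by
  simp [P11_pr]

private theorem P11_pr_cons (a : ℕ × Q) (l : List (ℕ × Q)) :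
    P11_pr p (a :: l) = dl p a.2 * P11_pr p l := by
  simp [P11_pr]

omit [Group Q] in
private theorem P11_w_append (l l' : List (ℕ × Q)) : P11_w (l ++ l') = P11_w l + P11_w l' := by
  simp [P11_w]

omit [Group Q] in
private theorem P11_w_cons (a : ℕ × Q) (l : List (ℕ × Q)) : P11_w (a :: l) = a.1 + P11_w l := by
  simp [P11_w]

private theorem P11_mem {D : ℕ → Subgroup Q} {l : List (ℕ × Q)} (h : P11_V D l) {k : ℤ}
    (hk : k ≤ P11_w l) : P11_pr p l ∈ Ef p D k :=
  Submodule.subset_span ⟨l, fun a ha => (h a ha).2, hk, rfl⟩

private theorem P11_swap {D : ℕ → Subgroup Q} {n : ℕ} (hD : NpSeries p Q n D) {k : ℤ}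
    {T : Submodule (ZMod p) (GA p Q)} (hT : Ef p D (k + 1) ≤ T) {N : ℕ}
    (IH : ∀ l : List (ℕ × Q), P11_V D l → k ≤ P11_w l → l.length < N → P11_pr p l ∈ T)
    (l1 l2 : List (ℕ × Q)) (a b : ℕ × Q) (hV : P11_V D (l1 ++ a :: b :: l2))
    (hk : k ≤ P11_w (l1 ++ a :: b :: l2)) (hN : (l1 ++ a :: b :: l2).length ≤ N) :
    P11_pr p (l1 ++ a :: b :: l2) - P11_pr p (l1 ++ b :: a :: l2) ∈ T := by
  have ha := hV a (by simp)
  have hb := hV b (by simp)
  have hc : a.2 * b.2 * a.2⁻¹ * b.2⁻¹ ∈ D (a.1 + b.1) := hD.comm _ _ _ ha.2 _ hb.2
  set c : Q := a.2 * b.2 * a.2⁻¹ * b.2⁻¹ with hcdef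
  have e : dl p a.2 * dl p b.2 - dl p b.2 * dl p a.2 = dl p c + dl p c * dl p (b.2 * a.2) := by
    have h1 : (MonoidAlgebra.of (ZMod p) Q c) * (MonoidAlgebra.of (ZMod p) Q (b.2 * a.2)) =
        MonoidAlgebra.of (ZMod p) Q a.2 * MonoidAlgebra.of (ZMod p) Q b.2 := by
      rw [← map_mul, ← map_mul]
      congr 1
      rw [hcdef]
      group
    have h2 : MonoidAlgebra.of (ZMod p) Q (b.2 * a.2) =
        MonoidAlgebra.of (ZMod p) Q b.2 * MonoidAlgebra.of (ZMod p) Q a.2 := map_mul _ _ _
    simp only [dl]
    have h3 : (MonoidAlgebra.of (ZMod p) Q c - 1) + (MonoidAlgebra.of (ZMod p) Q c - 1) *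
        (MonoidAlgebra.of (ZMod p) Q (b.2 * a.2) - 1) =
        (MonoidAlgebra.of (ZMod p) Q c) * (MonoidAlgebra.of (ZMod p) Q (b.2 * a.2)) -
          MonoidAlgebra.of (ZMod p) Q (b.2 * a.2) := by
      noncomm_ring
    rw [h3, h1, h2]
    noncomm_ring
  have e2 : P11_pr p (l1 ++ a :: b :: l2) - P11_pr p (l1 ++ b :: a :: l2) =
      P11_pr p (l1 ++ (a.1 + b.1, c) :: l2) +
        P11_pr p (l1 ++ (a.1 + b.1, c) :: (1, b.2 * a.2) :: l2) := by
    simp only [P11_pr_append, P11_pr_cons]
    have : P11_pr p l1 * (dl p a.2 * (dl p b.2 * P11_pr p l2)) -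
        P11_pr p l1 * (dl p b.2 * (dl p a.2 * P11_pr p l2)) =
        P11_pr p l1 * (dl p a.2 * dl p b.2 - dl p b.2 * dl p a.2) * P11_pr p l2 := by
      noncomm_ring
    rw [this, e]
    noncomm_ring
  rw [e2]
  have hV1 : ∀ a' ∈ l1, 1 ≤ a'.1 ∧ a'.2 ∈ D a'.1 := fun a' h => hV a' (by simp [h])
  have hV2 : ∀ a' ∈ l2, 1 ≤ a'.1 ∧ a'.2 ∈ D a'.1 := fun a' h => hV a' (by simp [h])
  simp only [P11_w_append, P11_w_cons] at hk
  simp only [List.length_append, List.length_cons] at hN
  apply T.add_mem
  · apply IH
    · intro a' h
      simp only [List.mem_append, List.mem_cons] at h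
      rcases h with h | h | h
      · exact hV1 a' h
      · rw [h]
        exact ⟨by simp only; omega, hc⟩
      · exact hV2 a' h
    · simp only [P11_w_append, P11_w_cons]
      refine hk.trans (le_of_eq ?_)
      push_cast
      ring
    · simp only [List.length_append, List.length_cons]
      omega
  · apply hT
    apply P11_mem
    · intro a' h
      simp only [List.mem_append, List.mem_cons] at h
      rcases h with h | h | h | h
      · exact hV1 a' h
      · rw [h]
        exact ⟨by simp only; omega, hc⟩
      · rw [h]
        refine ⟨le_refl _, ?_⟩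
        simp only
        rw [hD.one]
        trivial
      · exact hV2 a' h
    · simp only [P11_w_append, P11_w_cons]
      push_cast at hk ⊢
      linarith

private theorem P11_perm {D : ℕ → Subgroup Q} {n : ℕ} (hD : NpSeries p Q n D) {k : ℤ}
    {T : Submodule (ZMod p) (GA p Q)} (hT : Ef p D (k + 1) ≤ T) {N : ℕ}
    (IH : ∀ l : List (ℕ × Q), P11_V D l → k ≤ P11_w l → l.length < N → P11_pr p l ∈ T)
    {l l' : List (ℕ × Q)} (hp : l.Perm l') : ∀ (l1 : List (ℕ × Q)), P11_V D (l1 ++ l) →
    k ≤ P11_w (l1 ++ l) → (l1 ++ l).length ≤ N → P11_pr p (l1 ++ l) - P11_pr p (l1 ++ l') ∈ T := by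
  induction hp with
  | nil =>
    intro l1 _ _ _
    simp
  | @cons a l l' _ ih =>
    intro l1 hV hk hN
    have := ih (l1 ++ [a]) (by simpa using hV) (by simpa using hk) (by simpa using hN)
    simpa using this
  | swap a b l =>
    intro l1 hV hk hN
    exact P11_swap p hD hT IH l1 l b a hV hk hN
  | @trans l l' l'' h1 h2 ih1 ih2 =>
    intro l1 hV hk hN
    have hpp : (l1 ++ l').Perm (l1 ++ l) := (List.Perm.append_left l1 h1).symm
    have e1 := ih1 l1 hV hk hN
    have e2 := ih2 l1 (fun a ha => hV a (hpp.mem_iff.1 ha)) (by
      have : P11_w (l1 ++ l') = P11_w (l1 ++ l) := (hpp.map _).sum_eq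
      rw [this]
      exact hk) (by
      rw [hpp.length_eq]
      exact hN)
    have := T.add_mem e1 e2
    simpa using this

private theorem P11_perm_mem {D : ℕ → Subgroup Q} {n : ℕ} (hD : NpSeries p Q n D) {k : ℤ}
    {T : Submodule (ZMod p) (GA p Q)} (hT : Ef p D (k + 1) ≤ T) {N : ℕ}
    (IH : ∀ l : List (ℕ × Q), P11_V D l → k ≤ P11_w l → l.length < N → P11_pr p l ∈ T)
    {l l' : List (ℕ × Q)} (hp : l.Perm l') (hV : P11_V D l) (hk : k ≤ P11_w l)
    (hN : l.length ≤ N) (h : P11_pr p l' ∈ T) : P11_pr p l ∈ T := by
  have := P11_perm p hD hT IH hp [] hV hk hN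
  simp only [List.nil_append] at this
  have h2 := T.add_mem this h
  simpa using h2

/-- replacing one factor by generators -/
private theorem P11_repl {D : ℕ → Subgroup Q} {n : ℕ} (hD : NpSeries p Q n D) {k : ℤ}
    {T : Submodule (ZMod p) (GA p Q)} (hT : Ef p D (k + 1) ≤ T)
    (l1 l2 : List (ℕ × Q)) (a : ℕ) (ha : 1 ≤ a) (S : Set Q) (hS : D a ≤ Subgroup.closure S ⊔ D (a + 1))
    (hSD : ∀ s ∈ S, s ∈ D a)
    (hV1 : P11_V D l1) (hV2 : P11_V D l2) (hk : k ≤ P11_w l1 + a + P11_w l2)
    (h : ∀ s ∈ S, P11_pr p (l1 ++ (a, s) :: l2) ∈ T) :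
    ∀ g ∈ D a, P11_pr p (l1 ++ (a, g) :: l2) ∈ T := by
  have hlist : ∀ (c d : ℕ) (g g' : Q), 1 ≤ c → 1 ≤ d → g ∈ D c → g' ∈ D d → a + 1 ≤ c + d →
      P11_pr p (l1 ++ (c, g) :: (d, g') :: l2) ∈ T := by
    intro c d g g' hc hd hg hg' hcd
    apply hT
    apply P11_mem
    · intro a' h
      simp only [List.mem_append, List.mem_cons] at h
      rcases h with h | h | h | h
      · exact hV1 a' h
      · rw [h]
        exact ⟨hc, hg⟩
      · rw [h]
        exact ⟨hd, hg'⟩
      · exact hV2 a' h
    · simp only [P11_w_append, P11_w_cons]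
      push_cast
      have : ((a + 1 : ℕ) : ℤ) ≤ ((c + d : ℕ) : ℤ) := by exact_mod_cast hcd
      push_cast at this
      linarith
  have hmul : ∀ g g' : Q, P11_pr p (l1 ++ (a, g * g') :: l2) =
      P11_pr p (l1 ++ (a, g) :: l2) + P11_pr p (l1 ++ (a, g') :: l2) +
        P11_pr p (l1 ++ (a, g) :: (a, g') :: l2) := by
    intro g g'
    simp only [P11_pr_append, P11_pr_cons]
    have : dl p (g * g') = dl p g + dl p g' + dl p g * dl p g' := by
      simp only [dl, map_mul]
      noncomm_ring
    rw [this]
    noncomm_ring
  let Z : Subgroup Q :=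
    { carrier := {g | g ∈ D a ∧ P11_pr p (l1 ++ (a, g) :: l2) ∈ T}
      one_mem' := by
        refine ⟨(D a).one_mem, ?_⟩
        simp only [P11_pr_append, P11_pr_cons]
        have : dl p (1 : Q) = 0 := by
          simp only [dl, map_one, sub_self]
        rw [this]
        simp
      mul_mem' := by
        rintro g g' ⟨hg, hg1⟩ ⟨hg', hg1'⟩
        refine ⟨(D a).mul_mem hg hg', ?_⟩
        rw [hmul]
        exact T.add_mem (T.add_mem hg1 hg1') (hlist a a g g' ha ha hg hg' (by omega))
      inv_mem' := by
        rintro g ⟨hg, hg1⟩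
        refine ⟨(D a).inv_mem hg, ?_⟩
        have e := hmul g g⁻¹
        rw [mul_inv_cancel] at e
        have e0 : P11_pr p (l1 ++ (a, (1 : Q)) :: l2) = 0 := by
          simp only [P11_pr_append, P11_pr_cons]
          have : dl p (1 : Q) = 0 := by
            simp only [dl, map_one, sub_self]
          rw [this]
          simp
        rw [e0] at e
        have e2 : P11_pr p (l1 ++ (a, g⁻¹) :: l2) = -(P11_pr p (l1 ++ (a, g) :: l2) +
            P11_pr p (l1 ++ (a, g) :: (a, g⁻¹) :: l2)) := by
          rw [eq_neg_iff_add_eq_zero, e]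
          abel
        rw [e2]
        exact T.neg_mem (T.add_mem hg1
          (hlist a a g g⁻¹ ha ha hg ((D a).inv_mem hg) (by omega))) }
  have hZ1 : Subgroup.closure S ≤ Z := by
    rw [Subgroup.closure_le]
    intro s hs
    exact ⟨hSD s hs, h s hs⟩
  have hZ2 : D (a + 1) ≤ Z := by
    intro g hg
    refine ⟨hD.anti (Nat.le_succ a) hg, ?_⟩
    apply hT
    have e : P11_pr p (l1 ++ (a, g) :: l2) = P11_pr p (l1 ++ (a + 1, g) :: l2) := by
      simp only [P11_pr_append, P11_pr_cons]
    rw [e]
    apply P11_mem
    · intro a' h
      simp only [List.mem_append, List.mem_cons] at h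
      rcases h with h | h | h
      · exact hV1 a' h
      · rw [h]
        exact ⟨by simp only; omega, hg⟩
      · exact hV2 a' h
    · simp only [P11_w_append, P11_w_cons]
      push_cast
      linarith
  intro g hg
  exact ((hS.trans (sup_le hZ1 hZ2)) hg).2

end P11

theorem P11_span (p : ℕ) [Fact p.Prime] {Q : Type} [Group Q] [Finite Q] (n : ℕ)
    (D : ℕ → Subgroup Q) (hD : NpSeries p Q n D) (v : ℕ) (hv : 0 < v) (x : Q)
    (hx : Exact p n v D x) :
    ∃ (β : Type) (_ : Fintype β) (b : β → GA p Q) (c : β → ℤ),
      Fintype.card β * orderOf x = Nat.card Q ∧ (∀ t, 0 ≤ c t ∧ b t ∈ Ef p D (c t)) ∧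
      ∀ k : ℤ, Ef p D k ≤
        (Ef p D (k - v)).map (LinearMap.mulLeft (ZMod p) (dl p x)) ⊔
          Submodule.span (ZMod p) {z | ∃ t, k ≤ c t ∧ z = b t} := by
  obtain ⟨K, M, y, a, hK, hKM, hy, hgen⟩ := P10_adapted p n D hD v hv x hx
  obtain ⟨W, hW⟩ := P09_bot p n D hD
  -- the sorted list of an exponent vector
  let L : (Fin M → ℕ) → List (ℕ × Q) := fun e =>
    (List.finRange M).flatMap fun t => List.replicate (e t) (a t, y t)
  have hLV : ∀ e, P11_V D (L e) := by
    intro e z hz
    simp only [L, List.mem_flatMap, List.mem_replicate] at hz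
    obtain ⟨t, -, -, rfl⟩ := hz
    exact hy t
  refine ⟨Fin M → Fin p, inferInstance, fun e => P11_pr p (L fun t => (e t : ℕ)),
    fun e => (P11_w (L fun t => (e t : ℕ)) : ℤ), ?_, ?_, ?_⟩
  · rw [hK, ← hKM, Fintype.card_fun, Fintype.card_fin, Fintype.card_fin, pow_add]
    ring
  · intro e
    exact ⟨Int.natCast_nonneg _, P11_mem p (hLV _) le_rfl⟩
  -- decreasing induction
  have main : ∀ d : ℕ, ∀ k : ℤ, (W : ℤ) ≤ k + d → Ef p D k ≤
        (Ef p D (k - v)).map (LinearMap.mulLeft (ZMod p) (dl p x)) ⊔
          Submodule.span (ZMod p) {z | ∃ e : Fin M → Fin p,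
            k ≤ (P11_w (L fun t => (e t : ℕ)) : ℤ) ∧ z = P11_pr p (L fun t => (e t : ℕ))} := by
    intro d
    induction d with
    | zero =>
      intro k hk
      rw [hW k (by simpa using hk)]
      exact bot_le
    | succ d ih =>
      intro k hk
      have ih' := ih (k + 1) (by push_cast at hk; linarith)
      set T := (Ef p D (k - v)).map (LinearMap.mulLeft (ZMod p) (dl p x)) ⊔
          Submodule.span (ZMod p) {z | ∃ e : Fin M → Fin p,
            k ≤ (P11_w (L fun t => (e t : ℕ)) : ℤ) ∧ z = P11_pr p (L fun t => (e t : ℕ))} with hTdef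
      have hT : Ef p D (k + 1) ≤ T := by
        refine ih'.trans (sup_le_sup ?_ ?_)
        · exact Submodule.map_mono (P09_anti p D (by linarith))
        · apply Submodule.span_mono
          rintro z ⟨e, he, rfl⟩
          exact ⟨e, by linarith, rfl⟩
      -- induction on the number of factors
      have hlen : ∀ N : ℕ, ∀ l : List (ℕ × Q), P11_V D l → k ≤ P11_w l → l.length ≤ N →
          P11_pr p l ∈ T := by
        intro N
        induction N using Nat.strong_induction_on with
        | _ N IHN =>
        have IH : ∀ l : List (ℕ × Q), P11_V D l → k ≤ P11_w l → l.length < N → P11_pr p l ∈ T :=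
          fun l h1 h2 h3 => IHN l.length h3 l h1 h2 le_rfl
        -- lists with an x-power
        have hxp : ∀ (j : ℕ) (l : List (ℕ × Q)), P11_V D l → k ≤ v * p ^ j + P11_w l →
            dl p (x ^ p ^ j) * P11_pr p l ∈ T := by
          intro j l hl hkl
          have e1 : dl p (x ^ p ^ j) = dl p x ^ p ^ j := P11_dl_pow p x j
          obtain ⟨s, hs⟩ : ∃ s, p ^ j = s + 1 :=
            ⟨p ^ j - 1, (Nat.succ_pred_eq_of_pos (pow_pos (Fact.out : p.Prime).pos j)).symm⟩
          have e2 : dl p x ^ p ^ j * P11_pr p l = dl p x * P11_pr p (List.replicate s (v, x) ++ l) := by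
            rw [P11_pr_append, hs, pow_succ']
            have : P11_pr p (List.replicate s (v, x)) = dl p x ^ s := by
              simp [P11_pr]
            rw [this]
            noncomm_ring
          rw [e1, e2]
          apply Submodule.mem_sup_left
          refine ⟨_, P11_mem p (D := D) ?_ ?_, rfl⟩
          · intro z hz
            rw [List.mem_append, List.mem_replicate] at hz
            rcases hz with ⟨-, rfl⟩ | hz
            · exact ⟨hv, hx.1⟩
            · exact hl z hz
          · rw [P11_w_append]
            have : P11_w (List.replicate s (v, x)) = s * v := by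
              simp [P11_w]
            rw [this]
            have hs2 : ((p ^ j : ℕ) : ℤ) = s + 1 := by
              rw [hs]
              push_cast
              ring
            push_cast at hs2 hkl ⊢
            rw [hs2] at hkl
            linarith
        -- lists of adapted elements
        have hadj : ∀ l : List (ℕ × Q), (∀ z ∈ l, (∃ j, z = (v * p ^ j, x ^ p ^ j)) ∨
            ∃ t, z = (a t, y t)) → k ≤ P11_w l → l.length ≤ N → P11_pr p l ∈ T := by
          intro l hl hkl hlN
          have hVl : P11_V D l := by
            intro z hz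
            rcases hl z hz with ⟨j, rfl⟩ | ⟨t, rfl⟩
            · refine ⟨Nat.mul_pos hv (pow_pos (Fact.out : p.Prime).pos j), ?_⟩
              clear hz
              induction j with
              | zero => simpa using hx.1
              | succ j ihj =>
                have := hD.pow _ _ ihj
                simp only at this ⊢
                rw [pow_succ, pow_mul, show v * (p ^ j * p) = p * (v * p ^ j) by ring]
                exact this
            · exact hy t
          by_cases hxin : ∃ j, (v * p ^ j, x ^ p ^ j) ∈ l
          · obtain ⟨j, hj⟩ := hxin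
            obtain ⟨l', hl'⟩ : ∃ l', l.Perm ((v * p ^ j, x ^ p ^ j) :: l') :=
              ⟨l.erase _, List.perm_cons_erase hj⟩
            refine P11_perm_mem p hD hT IH hl' hVl hkl hlN ?_
            rw [P11_pr_cons]
            refine hxp j l' (fun z hz => hVl z (hl'.mem_iff.2 (List.mem_cons_of_mem _ hz))) ?_
            have : P11_w l = v * p ^ j + P11_w l' := by
              have h1 : P11_w l = P11_w ((v * p ^ j, x ^ p ^ j) :: l') := (hl'.map _).sum_eq
              rw [h1, P11_w_cons]
            rw [this] at hkl
            push_cast at hkl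
            exact hkl
          · -- only the `y t`
            have hyl : ∀ z ∈ l, ∃ t, (a t, y t) = z := by
              intro z hz
              rcases hl z hz with ⟨j, rfl⟩ | ⟨t, rfl⟩
              · exact absurd ⟨j, hz⟩ hxin
              · exact ⟨t, rfl⟩
            obtain ⟨I, hI⟩ := P11_lift (fun t => (a t, y t)) l hyl
            by_cases hcount : ∃ t, p ≤ I.count t
            · obtain ⟨t, ht⟩ := hcount
              obtain ⟨I', hI'⟩ := (List.replicate_sublist_iff.2 ht).exists_perm_append
              have hl' : l.Perm (List.replicate p (a t, y t) ++ I'.map (fun t => (a t, y t))) := by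
                rw [← hI]
                have := hI'.map (fun t => (a t, y t))
                simpa using this
              refine P11_perm_mem p hD hT IH hl' hVl hkl hlN ?_
              have e1 : P11_pr p (List.replicate p (a t, y t) ++ I'.map (fun t => (a t, y t))) =
                  P11_pr p ((p * a t, y t ^ p) :: I'.map (fun t => (a t, y t))) := by
                rw [P11_pr_append, P11_pr_cons]
                have h1 : P11_pr p (List.replicate p (a t, y t)) = dl p (y t) ^ p := by
                  simp [P11_pr]
                have h2 := P11_dl_pow p (y t) 1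
                rw [pow_one] at h2
                rw [h1, ← h2]
              rw [e1]
              have hw : P11_w l = p * a t + P11_w (I'.map (fun t => (a t, y t))) := by
                have h1 : P11_w l = P11_w (List.replicate p (a t, y t) ++
                  I'.map (fun t => (a t, y t))) := (hl'.map _).sum_eq
                rw [h1, P11_w_append]
                congr 1
                simp [P11_w]
              have hlen : l.length = p + (I'.map (fun t => (a t, y t))).length := by
                rw [hl'.length_eq, List.length_append, List.length_replicate]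
              apply IH
              · intro z hz
                rw [List.mem_cons] at hz
                rcases hz with rfl | hz
                · exact ⟨Nat.mul_pos (Fact.out : p.Prime).pos (hy t).1, hD.pow _ _ (hy t).2⟩
                · exact hVl z (hl'.mem_iff.2 (List.mem_append_right _ hz))
              · rw [P11_w_cons, ← hw]
                exact hkl
              · rw [List.length_cons]
                have := (Fact.out : p.Prime).two_le
                omega
            · push Not at hcount
              have hs := (P11_sort I).map (fun t => (a t, y t))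
              rw [hI, List.map_flatMap] at hs
              simp only [List.map_replicate] at hs
              refine P11_perm_mem p hD hT IH hs hVl hkl hlN ?_
              apply Submodule.mem_sup_right
              refine Submodule.subset_span ⟨fun t => ⟨I.count t, hcount t⟩, ?_, rfl⟩
              have h1 : P11_w l = P11_w (L fun t => I.count t) := (hs.map _).sum_eq
              simp only
              rw [← h1]
              exact hkl
        -- all lists
        have hall : ∀ l2 l1 : List (ℕ × Q), P11_V D l2 → (∀ z ∈ l1, (∃ j, z = (v * p ^ j, x ^ p ^ j)) ∨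
            ∃ t, z = (a t, y t)) → k ≤ P11_w (l1 ++ l2) → (l1 ++ l2).length ≤ N →
            P11_pr p (l1 ++ l2) ∈ T := by
          intro l2
          induction l2 with
          | nil =>
            intro l1 _ hl1 hk1 hN1
            rw [List.append_nil] at *
            exact hadj l1 hl1 hk1 hN1
          | cons z l2 ih2 =>
            intro l1 hV2 hl1 hk1 hN1
            obtain ⟨hz1, hz2⟩ := hV2 z (by simp)
            have hV2' : P11_V D l2 := fun z' hz' => hV2 z' (List.mem_cons_of_mem _ hz')
            have hx' : ∀ j, x ^ p ^ j ∈ D (v * p ^ j) := by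
              intro j
              induction j with
              | zero => simpa using hx.1
              | succ j ihj =>
                have := hD.pow _ _ ihj
                rw [pow_succ, pow_mul, show v * (p ^ j * p) = p * (v * p ^ j) by ring]
                exact this
            have hV1 : P11_V D l1 := by
              intro z' hz'
              rcases hl1 z' hz' with ⟨j, rfl⟩ | ⟨t, rfl⟩
              · exact ⟨Nat.mul_pos hv (pow_pos (Fact.out : p.Prime).pos j), hx' j⟩
              · exact hy t
            have := P11_repl p hD hT l1 l2 z.1 hz1 _ (hgen z.1 hz1) ?_ hV1 hV2' ?_ ?_ z.2 hz2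
            · exact this
            · rintro s (⟨j, hj, rfl⟩ | ⟨t, ht, rfl⟩)
              · rw [← hj]
                exact hx' j
              · rw [← ht]
                exact (hy t).2
            · rw [P11_w_append, P11_w_cons] at hk1
              push_cast at hk1 ⊢
              linarith
            · intro s hs
              have e : l1 ++ (z.1, s) :: l2 = (l1 ++ [(z.1, s)]) ++ l2 := by simp
              rw [e]
              apply ih2 _ hV2'
              · intro z' hz'
                rw [List.mem_append, List.mem_singleton] at hz'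
                rcases hz' with hz' | rfl
                · exact hl1 z' hz'
                · rcases hs with ⟨j, hj, rfl⟩ | ⟨t, ht, rfl⟩
                  · left
                    exact ⟨j, by rw [hj]⟩
                  · right
                    exact ⟨t, by rw [ht]⟩
              · have : P11_w ((l1 ++ [(z.1, s)]) ++ l2) = P11_w (l1 ++ z :: l2) := by
                  simp [P11_w]
                rw [this]
                exact hk1
              · have : ((l1 ++ [(z.1, s)]) ++ l2).length = (l1 ++ z :: l2).length := by
                  simp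
                rw [this]
                exact hN1
        intro l hl hkl hlN
        have := hall l [] hl (by simp) (by simpa using hkl) (by simpa using hlN)
        simpa using this
      -- conclusion
      refine Submodule.span_le.2 ?_
      rintro z ⟨l, hl, hkl, rfl⟩
      have h1 := hlen (l.map fun b => (max b.1 1, b.2)).length (l.map fun b => (max b.1 1, b.2)) ?_ ?_
        le_rfl
      · have e : P11_pr p (l.map fun b => (max b.1 1, b.2)) = (l.map fun a => dl p a.2).prod := by
          simp [P11_pr, Function.comp_def]
        rw [← e]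
        exact h1
      · intro z hz
        rw [List.mem_map] at hz
        obtain ⟨b, hb, rfl⟩ := hz
        refine ⟨le_max_right _ _, ?_⟩
        rcases Nat.eq_zero_or_pos b.1 with h0 | h0
        · simp only [h0]
          rw [show max 0 1 = 1 from rfl, hD.one]
          trivial
        · simp only
          rw [max_eq_left h0]
          exact hl b hb
      · refine hkl.trans ?_
        have : (l.map Prod.fst).sum ≤ P11_w (l.map fun b => (max b.1 1, b.2)) := by
          unfold P11_w
          rw [List.map_map]
          apply List.sum_le_sum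
          intro b _
          exact le_max_left _ _
        exact_mod_cast this
  intro k
  obtain ⟨d, hd⟩ : ∃ d : ℕ, (W : ℤ) ≤ k + d := ⟨((W : ℤ) - k).toNat, by
    have := Int.self_le_toNat ((W : ℤ) - k)
    linarith⟩
  exact main d k hd

end Pool.Agent.RG
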