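import Mathlib
import Pool.Agent.Lib.RG.P11

/-!
PART P, row P12: the kernel of x - 1 on the graded pieces. Proof: for the graded map xi : gr_k -> gr_(k+v), the total dimension
of the kernels equals the total dimension of the cokernels Ef k / ((x-1) Ef (k-v) + Ef (k+1)) (finite dimension, telescoping sums); the
cokernel in degree k is spanned by the b t with c t = k (P11), total at most card beta = |Q| / orderOf x.
-/

set_option autoImplicit false

namespace Pool.Agent.RG

open scoped Classical

private theorem finrank_map_inf {F V : Type} [Field F] [AddCommGroup V] [Module F V]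
    [FiniteDimensional F V] (T : V →ₗ[F] V) (A : Submodule F V) :
    Module.finrank F (A.map T) + Module.finrank F (A ⊓ LinearMap.ker T : Submodule F V) =
      Module.finrank F A := by
  have h1 := LinearMap.finrank_range_add_finrank_ker (T.comp A.subtype)
  rw [LinearMap.range_comp, Submodule.range_subtype, LinearMap.ker_comp] at h1
  rw [← h1]
  congr 1
  rw [← Submodule.finrank_map_subtype_eq A, Submodule.map_comap_subtype]

private theorem finrank_comap_sup {F V : Type} [Field F] [AddCommGroup V] [Module F V]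
    [FiniteDimensional F V] (T : V →ₗ[F] V) (A B : Submodule F V) :
    Module.finrank F A + Module.finrank F B =
      Module.finrank F (A ⊓ B.comap T : Submodule F V) +
        Module.finrank F (A.map T ⊔ B : Submodule F V) := by
  have h1 := finrank_map_inf T A
  have h2 := finrank_map_inf T (A ⊓ B.comap T)
  have e1 : (A ⊓ B.comap T).map T = A.map T ⊓ B := by
    ext y
    simp only [Submodule.mem_map, Submodule.mem_inf, Submodule.mem_comap]
    constructor
    · rintro ⟨z, ⟨hz, hz'⟩, rfl⟩
      exact ⟨⟨z, hz, rfl⟩, hz'⟩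
    · rintro ⟨⟨z, hz, rfl⟩, hz'⟩
      exact ⟨z, ⟨hz, hz'⟩, rfl⟩
  have e2 : A ⊓ B.comap T ⊓ LinearMap.ker T = A ⊓ LinearMap.ker T := by
    ext x
    simp only [Submodule.mem_inf, Submodule.mem_comap, LinearMap.mem_ker]
    constructor
    · rintro ⟨⟨h, _⟩, h'⟩
      exact ⟨h, h'⟩
    · rintro ⟨h, h'⟩
      exact ⟨⟨h, by rw [h']; exact B.zero_mem⟩, h'⟩
  rw [e1, e2] at h2
  have h3 := Submodule.finrank_sup_add_finrank_inf_eq (A.map T) B
  omega

theorem P12_kernel (p : ℕ) [Fact p.Prime] {Q : Type} [Group Q] [Finite Q] (n : ℕ)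
    (D : ℕ → Subgroup Q) (hD : NpSeries p Q n D) (v : ℕ) (hv : 0 < v) (x : Q)
    (hx : Exact p n v D x) (W : ℕ) :
    (∑ k ∈ Finset.range W, (Module.finrank (ZMod p) (Kr p D x v k) -
      Module.finrank (ZMod p) (Ef p D ((k : ℤ) + 1)))) * orderOf x ≤ Nat.card Q := by
  have hfd : FiniteDimensional (ZMod p) (GA p Q) := by
    have := Fintype.ofFinite Q
    infer_instance
  obtain ⟨β, hβ, b, c, hcard, hbc, hspan⟩ := P11_span p n D hD v hv x hx
  obtain ⟨T, hT⟩ : ∃ T : GA p Q →ₗ[ZMod p] GA p Q, T = LinearMap.mulLeft (ZMod p) (dl p x) :=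
    ⟨_, rfl⟩
  have hTV : ∀ k : ℤ, (Ef p D k).map T ≤ Ef p D (k + v) := by
    intro k
    rw [Submodule.map_le_iff_le_comap]
    intro y hy
    rw [Submodule.mem_comap, hT, LinearMap.mulLeft_apply]
    have := P09_mul p D v k (dl p x) y (P09_dl p D v x hx.1) hy
    rwa [add_comm] at this
  obtain ⟨d, hd⟩ : ∃ d : ℤ → ℕ, ∀ k, d k = Module.finrank (ZMod p) (Ef p D k) := ⟨_, fun k => rfl⟩
  obtain ⟨u, hu⟩ : ∃ u : ℤ → ℕ, ∀ k, u k = Module.finrank (ZMod p)
      ((Ef p D (k - v)).map T ⊔ Ef p D (k + 1) : Submodule (ZMod p) (GA p Q)) := ⟨_, fun k => rfl⟩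
  obtain ⟨kr, hkr⟩ : ∃ kr : ℤ → ℕ, ∀ k, kr k = Module.finrank (ZMod p) (Kr p D x v k) :=
    ⟨_, fun k => rfl⟩
  obtain ⟨N, hN⟩ : ∃ N : ℤ → ℕ, ∀ k, N k = (Finset.univ.filter fun t => c t = k).card :=
    ⟨_, fun k => rfl⟩
  have h1 : ∀ k : ℤ, d k + d (k + v + 1) = kr k + u (k + v) := by
    intro k
    rw [hd, hd, hkr, hu, add_sub_cancel_right]
    have := finrank_comap_sup T (Ef p D k) (Ef p D (k + v + 1))
    rw [this]
    unfold Kr
    rw [hT]
  have h2 : ∀ j : ℤ, d j ≤ u j + N j := by
    intro j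
    have e1 : Ef p D j ≤ ((Ef p D (j - v)).map T ⊔ Ef p D (j + 1)) ⊔
        Submodule.span (ZMod p) (((Finset.univ.filter fun t => c t = j).image b : Finset _) :
          Set (GA p Q)) := by
      refine (hspan j).trans ?_
      rw [← hT]
      refine sup_le (le_sup_of_le_left le_sup_left) ?_
      rw [Submodule.span_le]
      rintro z ⟨t, ht, rfl⟩
      rcases eq_or_lt_of_le ht with h | h
      · refine Submodule.mem_sup_right (Submodule.subset_span ?_)
        rw [Finset.mem_coe, Finset.mem_image]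
        exact ⟨t, Finset.mem_filter.2 ⟨Finset.mem_univ _, h.symm⟩, rfl⟩
      · refine Submodule.mem_sup_left (Submodule.mem_sup_right ?_)
        exact P09_anti p D (by omega) (hbc t).2
    rw [hd, hu, hN]
    refine (Submodule.finrank_mono e1).trans ?_
    refine (Submodule.finrank_add_le_finrank_add_finrank _ _).trans ?_
    refine Nat.add_le_add_left ?_ _
    exact (finrank_span_finset_le_card _).trans Finset.card_image_le
  have h3 : ∀ k : ℤ, d (k + 1) ≤ kr k := by
    intro k
    rw [hd, hkr]
    apply Submodule.finrank_mono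
    unfold Kr
    refine le_inf (P09_anti p D (by omega)) ?_
    rw [← hT, ← Submodule.map_le_iff_le_comap]
    refine (hTV (k + 1)).trans ?_
    have : k + 1 + v = k + v + 1 := by ring
    rw [this]
  have h4 : ∀ M : ℕ, ∑ j ∈ Finset.range M, N j ≤ Fintype.card β := by
    intro M
    have e1 : ∑ j ∈ Finset.range M, N j =
        ((Finset.range M).biUnion fun j => Finset.univ.filter fun t => c t = (j : ℤ)).card := by
      rw [Finset.card_biUnion]
      · exact Finset.sum_congr rfl fun j _ => hN j
      · intro i _ j _ hij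
        rw [Function.onFun, Finset.disjoint_left]
        intro t ht1 ht2
        rw [Finset.mem_filter] at ht1 ht2
        exact hij (by exact_mod_cast ht1.2.symm.trans ht2.2)
    rw [e1, ← Finset.card_univ]
    exact Finset.card_le_card (Finset.subset_univ _)
  have hmono : ∀ {a b : ℤ}, a ≤ b → d b ≤ d a := by
    intro a b hab
    rw [hd, hd]
    exact Submodule.finrank_mono (P09_anti p D hab)
  have h5 : ∀ j : ℕ, j ≤ v → d 0 ≤ d j + ∑ i ∈ Finset.range j, N i := by
    intro j
    induction j with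
    | zero => intro _; simp
    | succ j ih =>
      intro hj
      have e1 := ih (by omega)
      have e2 := h2 j
      have e3 : u j = d (j + 1) := by
        have e4 : Ef p D ((j : ℤ) - v) = Ef p D 0 := by
          rw [P09_top p n D hD _ (by omega), P09_top p n D hD _ le_rfl]
        have e5 : (Ef p D ((j : ℤ) - v)).map T ⊔ Ef p D ((j : ℤ) + 1) = Ef p D ((j : ℤ) + 1) := by
          rw [sup_eq_right, e4]
          exact (hTV 0).trans (P09_anti p D (by omega))
        rw [hu, hd, e5]
      rw [Finset.sum_range_succ]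
      push_cast
      rw [e3] at e2
      omega
  have h6 : ∀ M : ℕ, ∑ k ∈ Finset.range M, (kr k - d ((k : ℤ) + 1)) + d M + d v ≤
      d 0 + d ((M : ℤ) + v) + ∑ k ∈ Finset.range M, N ((k : ℤ) + v) := by
    intro M
    induction M with
    | zero => simp
    | succ M ih =>
      rw [Finset.sum_range_succ, Finset.sum_range_succ]
      have e1 := h1 M
      have e2 := h2 ((M : ℤ) + v)
      have e3 := h3 M
      have e4 : ((M + 1 : ℕ) : ℤ) = (M : ℤ) + 1 := by push_cast; rfl
      have e5 : (M : ℤ) + 1 + v = M + v + 1 := by ring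
      rw [e4, e5]
      omega
  have h7 : ∑ k ∈ Finset.range W, N ((k : ℤ) + v) + ∑ i ∈ Finset.range v, N i =
      ∑ j ∈ Finset.range (v + W), N j := by
    rw [Finset.sum_range_add, add_comm]
    congr 1
    refine Finset.sum_congr rfl fun k _ => ?_
    push_cast
    rw [add_comm]
  have h8 : ∑ k ∈ Finset.range W, (kr k - d ((k : ℤ) + 1)) ≤ Fintype.card β := by
    have e1 := h6 W
    have e2 := h5 v le_rfl
    have e3 := h4 (v + W)
    have e4 : d ((W : ℤ) + v) ≤ d W := hmono (by omega)
    omega
  rw [← hcard]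
  apply Nat.mul_le_mul_right
  refine le_of_eq_of_le ?_ h8
  refine Finset.sum_congr rfl fun k _ => ?_
  rw [hkr, hd]

theorem P12_order (p : ℕ) [Fact p.Prime] {Q : Type} [Group Q] [Finite Q] (n : ℕ)
    (D : ℕ → Subgroup Q) (hD : NpSeries p Q n D) (v : ℕ) (hv : 0 < v) (x : Q)
    (hx : Exact p n v D x) : n < v * orderOf x := by
  obtain ⟨K, M, y, a, hK, _⟩ := P10_adapted p n D hD v hv x hx
  by_contra h
  rw [not_lt, hK] at h
  apply hx.2 K h
  rw [← hK, pow_orderOf_eq_one]
  exact one_mem _

end Pool.Agent.RG
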