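import Mathlib
import Pool.Agent.Lib.RG.PDefs

/-!
PART P, row P13 (pure linear algebra): leading forms. S t = {v in S : v i in E (t + wt i) for all i}; the map
S t / S (t+1) -> (+)_i gr_(t + wt i) is injective; along the path i0, nx i0, nx (nx i0), .. (which visits all 2m indices) the
component at nx i is determined by the component at i up to the kernel of L i on gr (if two elements agree at i, their difference
v has v i in the next step, so L_i (v (nx i)) is in E (t+6)). So dim S t / S (t+1) <= dim gr_(t + wt i0) + sum over the other 2m - 1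
steps of dim (Kr i (t + wt (nx i)) / E (..+1)). Sum over t in Z (only finitely many t matter: E = top below 0, bot above W).
-/

set_option autoImplicit false

namespace Pool.Agent.RG

open scoped Classical

private theorem P13_step {F M V : Type} [Field F] [AddCommGroup M] [Module F M]
    [AddCommGroup V] [Module F V] [FiniteDimensional F M] [FiniteDimensional F V]
    (A : Submodule F M) (f : M →ₗ[F] V) (K K' : Submodule F V) (hK : K' ≤ K)
    (hA : ∀ v ∈ A, f v ∈ K) :
    Module.finrank F A ≤ Module.finrank F (A ⊓ K'.comap f : Submodule F M) +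
      (Module.finrank F K - Module.finrank F K') := by
  let g : A →ₗ[F] V ⧸ K' := K'.mkQ.comp (f.comp A.subtype)
  have h1 := LinearMap.finrank_range_add_finrank_ker g
  have h2 : Module.finrank F (LinearMap.ker g) =
      Module.finrank F (A ⊓ K'.comap f : Submodule F M) := by
    have : (LinearMap.ker g).map A.subtype = A ⊓ K'.comap f := by
      ext x
      simp only [Submodule.mem_map, LinearMap.mem_ker, Submodule.mem_inf, Submodule.mem_comap]
      constructor
      · rintro ⟨y, hy, rfl⟩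
        refine ⟨y.2, ?_⟩
        have : K'.mkQ (f y) = 0 := hy
        simpa [Submodule.Quotient.mk_eq_zero] using this
      · rintro ⟨hx, hx'⟩
        refine ⟨⟨x, hx⟩, ?_, rfl⟩
        change K'.mkQ (f x) = 0
        simpa [Submodule.Quotient.mk_eq_zero] using hx'
    rw [← this]
    exact (LinearEquiv.finrank_eq (Submodule.equivMapOfInjective A.subtype
      (Submodule.injective_subtype A) (LinearMap.ker g)))
  have h3 : LinearMap.range g ≤ K.map K'.mkQ := by
    rintro _ ⟨y, rfl⟩
    exact ⟨f y, hA _ y.2, rfl⟩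
  have h4 : Module.finrank F (K.map K'.mkQ) + Module.finrank F K' = Module.finrank F K := by
    have := Submodule.finrank_quotient_add_finrank (K'.comap K.subtype)
    have e1 : Module.finrank F (K'.comap K.subtype) = Module.finrank F K' := by
      have := LinearEquiv.finrank_eq (Submodule.comapSubtypeEquivOfLe hK)
      exact this
    let g2 : K →ₗ[F] V ⧸ K' := K'.mkQ.comp K.subtype
    have h5 := LinearMap.finrank_range_add_finrank_ker g2
    have h6 : LinearMap.range g2 = K.map K'.mkQ := by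
      rw [LinearMap.range_comp, Submodule.range_subtype]
    have h7 : LinearMap.ker g2 = K'.comap K.subtype := by
      rw [LinearMap.ker_comp, Submodule.ker_mkQ]
    rw [h6, h7, e1] at h5
    exact h5
  have h5 := Submodule.finrank_mono h3
  omega

private def P13_idx {m : ℕ} [NeZero m] (j : ℕ) : Idx m := nx^[j] (Sum.inl 0)

private theorem P13_fin {m : ℕ} [NeZero m] (k : ℕ) :
    (Fin.ofNat m (k + 1) : Fin m) = Fin.ofNat m k + 1 := by
  apply Fin.ext
  simp [Fin.ofNat, Fin.val_add]

private theorem P13_fin' {m : ℕ} [NeZero m] (r : Fin m) : (Fin.ofNat m r.val : Fin m) = r := by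
  apply Fin.ext
  simp [Fin.ofNat, Nat.mod_eq_of_lt r.2]

private theorem P13_idx_even {m : ℕ} [NeZero m] (k : ℕ) :
    (P13_idx (2 * k) : Idx m) = Sum.inl (Fin.ofNat m k) := by
  induction k with
  | zero => simp [P13_idx]
  | succ k ih =>
    have : 2 * (k + 1) = (2 * k + 1) + 1 := by ring
    unfold P13_idx at ih ⊢
    rw [this, Function.iterate_succ_apply', Function.iterate_succ_apply', ih, P13_fin]
    simp [nx]

private theorem P13_idx_odd {m : ℕ} [NeZero m] (k : ℕ) :
    (P13_idx (2 * k + 1) : Idx m) = Sum.inr (Fin.ofNat m k + 1) := by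
  have := P13_idx_even (m := m) k
  unfold P13_idx at this ⊢
  rw [Function.iterate_succ_apply', this]
  simp [nx]

private theorem P13_idx_surj {m : ℕ} [NeZero m] (i : Idx m) :
    ∃ j < 2 * m, (P13_idx j : Idx m) = i := by
  rcases i with r | r
  · refine ⟨2 * r.val, by have := r.2; omega, ?_⟩
    rw [P13_idx_even, P13_fin']
  · refine ⟨2 * (r - 1 : Fin m).val + 1, by have := (r - 1 : Fin m).2; omega, ?_⟩
    rw [P13_idx_odd, P13_fin']
    simp

private theorem P13_wt_nx {m : ℕ} [NeZero m] (i : Idx m) : (wt i : ℤ) + wt (nx i) = 5 := by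
  rcases i with r | r <;> simp [nx, wt]

private theorem P13_idx_succ {m : ℕ} [NeZero m] (j : ℕ) :
    (P13_idx (j + 1) : Idx m) = nx (P13_idx j) := by
  unfold P13_idx
  rw [Function.iterate_succ_apply']

section main

variable {m : ℕ} [NeZero m] {F V : Type} [Field F] [AddCommGroup V]
    [Module F V] [FiniteDimensional F V] (E : ℤ → Submodule F V)
    (S : Submodule F (Idx m → V))

private def P13_T (t : ℤ) (j : ℕ) : Submodule F (Idx m → V) where
  carrier := {v | v ∈ S ∧ (∀ i, v i ∈ E (t + wt i)) ∧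
    ∀ l < j, v (P13_idx l) ∈ E (t + wt (P13_idx l : Idx m) + 1)}
  zero_mem' := ⟨S.zero_mem, fun i => (E _).zero_mem, fun l _ => (E _).zero_mem⟩
  add_mem' := by
    rintro v w ⟨h1, h2, h3⟩ ⟨h1', h2', h3'⟩
    exact ⟨S.add_mem h1 h1', fun i => (E _).add_mem (h2 i) (h2' i),
      fun l hl => (E _).add_mem (h3 l hl) (h3' l hl)⟩
  smul_mem' := by
    rintro c v ⟨h1, h2, h3⟩
    exact ⟨S.smul_mem c h1, fun i => (E _).smul_mem c (h2 i),
      fun l hl => (E _).smul_mem c (h3 l hl)⟩

private theorem P13_T_mem {t : ℤ} {j : ℕ} {v : Idx m → V} : v ∈ P13_T E S t j ↔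
    v ∈ S ∧ (∀ i, v i ∈ E (t + wt i)) ∧
    ∀ l < j, v (P13_idx l) ∈ E (t + wt (P13_idx l : Idx m) + 1) := Iff.rfl

private theorem P13_T_succ (t : ℤ) (j : ℕ) :
    P13_T E S t j ⊓ (E (t + wt (P13_idx j : Idx m) + 1)).comap
      (LinearMap.proj (P13_idx j : Idx m) : (Idx m → V) →ₗ[F] V) = P13_T E S t (j + 1) := by
  ext v
  simp only [Submodule.mem_inf, P13_T_mem, Submodule.mem_comap, LinearMap.proj_apply]
  constructor
  · rintro ⟨⟨h1, h2, h3⟩, h4⟩
    refine ⟨h1, h2, fun l hl => ?_⟩
    rcases Nat.lt_succ_iff_lt_or_eq.mp hl with h | h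
    · exact h3 l h
    · rw [h]; exact h4
  · rintro ⟨h1, h2, h3⟩
    exact ⟨⟨h1, h2, fun l hl => h3 l (by omega)⟩, h3 j (by omega)⟩

variable {E} in
private theorem P13_T_last (hanti : ∀ a b, a ≤ b → E b ≤ E a) (t : ℤ) :
    P13_T E S t (2 * m) = P13_T E S (t + 1) 0 := by
  ext v
  simp only [P13_T_mem]
  constructor
  · rintro ⟨h1, h2, h3⟩
    refine ⟨h1, fun i => ?_, fun l hl => absurd hl (by omega)⟩
    obtain ⟨j, hj, rfl⟩ := P13_idx_surj i
    have := h3 j hj
    rwa [show t + 1 + (wt (P13_idx j : Idx m) : ℤ) = t + wt (P13_idx j : Idx m) + 1 by ring]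
  · rintro ⟨h1, h2, _⟩
    refine ⟨h1, fun i => hanti _ _ (by linarith) (h2 i), fun l _ => ?_⟩
    have := h2 (P13_idx l)
    rwa [show t + 1 + (wt (P13_idx l : Idx m) : ℤ) = t + wt (P13_idx l : Idx m) + 1 by ring] at this

private noncomputable def P13_d (L : Idx m → V →ₗ[F] V) (i : Idx m) (k : ℤ) : ℕ :=
  Module.finrank F (E k ⊓ (E (k + wt i + 1)).comap (L i) : Submodule F V) -
        Module.finrank F (E (k + 1))

variable {E S} in
private theorem P13_step_succ (hanti : ∀ a b, a ≤ b → E b ≤ E a) (L : Idx m → V →ₗ[F] V)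
    (hL : ∀ i a, ∀ v ∈ E a, L i v ∈ E (a + wt i))
    (hS : ∀ v ∈ S, ∀ t : ℤ, (∀ i, v i ∈ E (t + wt i)) →
      ∀ i, L (nx i) (v i) - L i (v (nx i)) ∈ E (t + 6)) (t : ℤ) (j : ℕ) :
    Module.finrank F (P13_T E S t (j + 1)) ≤ Module.finrank F (P13_T E S t (j + 2)) +
      P13_d E L (P13_idx j) (t + wt (P13_idx (j + 1) : Idx m)) := by
  have key := P13_step (P13_T E S t (j + 1))
    (LinearMap.proj (P13_idx (j + 1) : Idx m) : (Idx m → V) →ₗ[F] V)
    (E (t + wt (P13_idx (j + 1) : Idx m)) ⊓
      (E ((t + wt (P13_idx (j + 1) : Idx m)) + wt (P13_idx j : Idx m) + 1)).comap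
        (L (P13_idx j)))
    (E (t + wt (P13_idx (j + 1) : Idx m) + 1))
    (by
      intro x hx
      refine ⟨hanti _ _ (by linarith) hx, ?_⟩
      have := hL (P13_idx j) _ x hx
      rw [SetLike.mem_coe, Submodule.mem_comap]
      rwa [show t + (wt (P13_idx (j + 1) : Idx m) : ℤ) + wt (P13_idx j : Idx m) + 1
        = t + wt (P13_idx (j + 1) : Idx m) + 1 + wt (P13_idx j : Idx m) by ring])
    (by
      rintro v ⟨h1, h2, h3⟩
      refine ⟨h2 _, ?_⟩
      rw [SetLike.mem_coe, Submodule.mem_comap, LinearMap.proj_apply]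
      have e1 := P13_wt_nx (P13_idx j : Idx m)
      rw [← P13_idx_succ] at e1
      have e2 : t + (wt (P13_idx (j + 1) : Idx m) : ℤ) + wt (P13_idx j : Idx m) + 1 = t + 6 := by
        linarith
      rw [e2]
      have h4 := hS v h1 t h2 (P13_idx j)
      rw [← P13_idx_succ] at h4
      have h5 := hL (P13_idx (j + 1)) _ _ (h3 j (by omega))
      have e3 : t + (wt (P13_idx j : Idx m) : ℤ) + 1 + wt (P13_idx (j + 1) : Idx m) = t + 6 := by
        linarith
      rw [e3] at h5
      have := (E (t + 6)).sub_mem h5 h4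
      simpa using this)
  rw [P13_T_succ] at key
  exact key

variable {E S} in
private theorem P13_step_zero (hanti : ∀ a b, a ≤ b → E b ≤ E a) (t : ℤ) :
    Module.finrank F (P13_T E S t 0) ≤ Module.finrank F (P13_T E S t 1) +
      (Module.finrank F (E (t + 2)) - Module.finrank F (E (t + 3))) := by
  have key := P13_step (P13_T E S t 0)
    (LinearMap.proj (P13_idx 0 : Idx m) : (Idx m → V) →ₗ[F] V)
    (E (t + wt (P13_idx 0 : Idx m))) (E (t + wt (P13_idx 0 : Idx m) + 1))
    (hanti _ _ (by linarith)) (by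
      rintro v ⟨h1, h2, h3⟩
      exact h2 _)
  rw [P13_T_succ] at key
  have e : (wt (P13_idx 0 : Idx m) : ℤ) = 2 := by simp [P13_idx, wt]
  rw [e, show t + 2 + 1 = t + 3 by ring] at key
  exact key

variable {E S} in
private theorem P13_stage (hanti : ∀ a b, a ≤ b → E b ≤ E a) (L : Idx m → V →ₗ[F] V)
    (hL : ∀ i a, ∀ v ∈ E a, L i v ∈ E (a + wt i))
    (hS : ∀ v ∈ S, ∀ t : ℤ, (∀ i, v i ∈ E (t + wt i)) →
      ∀ i, L (nx i) (v i) - L i (v (nx i)) ∈ E (t + 6)) (t : ℤ) :
    Module.finrank F (P13_T E S t 0) ≤ Module.finrank F (P13_T E S (t + 1) 0) +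
      (Module.finrank F (E (t + 2)) - Module.finrank F (E (t + 3))) +
      ∑ j ∈ Finset.range (2 * m - 1), P13_d E L (P13_idx j) (t + wt (P13_idx (j + 1) : Idx m)) := by
  have h0 := P13_step_zero (E := E) (S := S) hanti t
  have h1 : ∀ n, Module.finrank F (P13_T E S t 1) ≤ Module.finrank F (P13_T E S t (n + 1)) +
      ∑ j ∈ Finset.range n, P13_d E L (P13_idx j) (t + wt (P13_idx (j + 1) : Idx m)) := by
    intro n
    induction n with
    | zero => simp
    | succ n ih =>
      rw [Finset.sum_range_succ]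
      have := P13_step_succ (E := E) (S := S) hanti L hL hS t n
      rw [show n + 1 + 1 = n + 2 from rfl]
      omega
  have h2 := h1 (2 * m - 1)
  have hm0 : 0 < m := Nat.pos_of_ne_zero (NeZero.ne m)
  rw [show 2 * m - 1 + 1 = 2 * m by omega, P13_T_last S hanti] at h2
  omega

end main

theorem P13_linalg {m : ℕ} [NeZero m] (hm : 2 ≤ m) (F V : Type) [Field F] [AddCommGroup V]
    [Module F V] [FiniteDimensional F V] (E : ℤ → Submodule F V) (W : ℕ)
    (hanti : ∀ a b, a ≤ b → E b ≤ E a) (htop : ∀ a, a ≤ 0 → E a = ⊤)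
    (hbot : ∀ a : ℤ, (W : ℤ) ≤ a → E a = ⊥) (L : Idx m → V →ₗ[F] V)
    (hL : ∀ i a, ∀ v ∈ E a, L i v ∈ E (a + wt i)) (B : ℕ)
    (hB : ∀ (i : Idx m) (W' : ℕ), ∑ k ∈ Finset.range W',
      (Module.finrank F (E k ⊓ (E ((k : ℤ) + wt i + 1)).comap (L i) : Submodule F V) -
        Module.finrank F (E ((k : ℤ) + 1))) ≤ B)
    (S : Submodule F (Idx m → V))
    (hS : ∀ v ∈ S, ∀ t : ℤ, (∀ i, v i ∈ E (t + wt i)) →
      ∀ i, L (nx i) (v i) - L i (v (nx i)) ∈ E (t + 6)) :
    Module.finrank F S ≤ Module.finrank F V + (2 * m - 1) * B := by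
  have hstart : P13_T E S (-3) 0 = S := by
    ext v
    simp only [P13_T_mem]
    constructor
    · exact fun h => h.1
    · intro h
      refine ⟨h, fun i => ?_, fun l hl => absurd hl (by omega)⟩
      have : (wt i : ℤ) ≤ 3 := by rcases i with r | r <;> simp [wt]
      rw [htop _ (by linarith)]
      trivial
  have hend : P13_T E S (W : ℤ) 0 = ⊥ := by
    rw [eq_bot_iff]
    rintro v ⟨h1, h2, _⟩
    rw [Submodule.mem_bot]
    funext i
    have := h2 i
    rw [hbot _ (by have : (0 : ℤ) ≤ wt i := by positivity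
                   linarith)] at this
    simpa using this
  have hsum : ∀ n : ℕ, Module.finrank F (P13_T E S (-3) 0) ≤
      Module.finrank F (P13_T E S (-3 + n) 0) +
      (∑ k ∈ Finset.range n, (Module.finrank F (E (-3 + k + 2)) - Module.finrank F (E (-3 + k + 3)))) +
      ∑ j ∈ Finset.range (2 * m - 1), ∑ k ∈ Finset.range n,
        P13_d E L (P13_idx j) (-3 + k + wt (P13_idx (j + 1) : Idx m)) := by
    intro n
    induction n with
    | zero => simp
    | succ n ih =>
      have h1 := P13_stage (E := E) (S := S) hanti L hL hS (-3 + n)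
      have h2 : ∑ j ∈ Finset.range (2 * m - 1), ∑ k ∈ Finset.range (n + 1),
        P13_d E L (P13_idx j) (-3 + k + wt (P13_idx (j + 1) : Idx m)) =
        ∑ j ∈ Finset.range (2 * m - 1), ∑ k ∈ Finset.range n,
        P13_d E L (P13_idx j) (-3 + k + wt (P13_idx (j + 1) : Idx m)) +
        ∑ j ∈ Finset.range (2 * m - 1),
          P13_d E L (P13_idx j) (-3 + n + wt (P13_idx (j + 1) : Idx m)) := by
        rw [← Finset.sum_add_distrib]
        refine Finset.sum_congr rfl fun j _ => ?_
        rw [Finset.sum_range_succ]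
      rw [h2, Finset.sum_range_succ]
      have e : (-3 + ((n + 1 : ℕ) : ℤ)) = -3 + n + 1 := by push_cast; ring
      rw [e]
      omega
  have hfin := hsum (W + 3)
  rw [show (-3 + ((W + 3 : ℕ) : ℤ)) = W by push_cast; ring, hend, hstart, finrank_bot, zero_add] at hfin
  have hc : ∀ n : ℕ, (∑ k ∈ Finset.range n,
      (Module.finrank F (E (-3 + k + 2)) - Module.finrank F (E (-3 + k + 3)))) +
      Module.finrank F (E (-3 + n + 2)) ≤ Module.finrank F V := by
    intro n
    induction n with
    | zero => simpa using Submodule.finrank_le _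
    | succ n ih =>
      rw [Finset.sum_range_succ]
      have h1 : Module.finrank F (E (-3 + n + 3)) ≤ Module.finrank F (E (-3 + n + 2)) :=
        Submodule.finrank_mono (hanti _ _ (by linarith))
      rw [show (-3 + ((n + 1 : ℕ) : ℤ) + 2) = -3 + n + 3 by push_cast; ring]
      omega
  have hd0 : ∀ (i : Idx m) (k : ℤ), k + 1 ≤ 0 → P13_d E L i k = 0 := by
    intro i k hk
    unfold P13_d
    rw [htop (k + 1) hk, finrank_top]
    exact Nat.sub_eq_zero_of_le (Submodule.finrank_le _)
  have hd : ∀ j, ∑ k ∈ Finset.range (W + 3),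
        P13_d E L (P13_idx j) (-3 + k + wt (P13_idx (j + 1) : Idx m)) ≤ B := by
    intro j
    have hw : wt (P13_idx (j + 1) : Idx m) = 2 ∨ wt (P13_idx (j + 1) : Idx m) = 3 := by
      generalize (P13_idx (j + 1) : Idx m) = i
      rcases i with r | r <;> simp [wt]
    rcases hw with h | h
    · rw [h, show W + 3 = (W + 2) + 1 by ring, Finset.sum_range_succ']
      rw [hd0 _ _ (by norm_num), add_zero]
      refine le_trans (le_of_eq ?_) (hB (P13_idx j) (W + 2))
      refine Finset.sum_congr rfl fun k _ => ?_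
      rw [show (-3 + ((k + 1 : ℕ) : ℤ) + ((2 : ℕ) : ℤ)) = k by push_cast; ring]
      rfl
    · rw [h]
      refine le_trans (le_of_eq ?_) (hB (P13_idx j) (W + 3))
      refine Finset.sum_congr rfl fun k _ => ?_
      rw [show (-3 + (k : ℤ) + ((3 : ℕ) : ℤ)) = k by push_cast; ring]
      rfl
  have h3 := hc (W + 3)
  have h4 : ∑ j ∈ Finset.range (2 * m - 1), ∑ k ∈ Finset.range (W + 3),
        P13_d E L (P13_idx j) (-3 + k + wt (P13_idx (j + 1) : Idx m)) ≤ (2 * m - 1) * B := by
    refine le_trans (Finset.sum_le_sum fun j _ => hd j) ?_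
    simp
  omega

end Pool.Agent.RG
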