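import Mathlib
import Pool.Agent.Lib.RG.P09

/-!
PART P, row P14: values of derivations on words. Proof: induction on the word; (g h - 1) = (g-1) + (h-1) + (g-1)(h-1),
delta(gh) = delta g + delta h + (g-1) delta h, everything in D 2, delta of everything in Ef (t+2); inverses:
delta(g^-1) = - g^-1 delta g.
-/

set_option autoImplicit false

namespace Pool.Agent.RG

open scoped Classical

private theorem P14_dl_mul (p : ℕ) {Q : Type} [Group Q] (g h : Q) :
    dl p (g * h) = dl p g + dl p h + dl p g * dl p h := by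
  unfold dl
  rw [map_mul]
  noncomm_ring

private theorem P14_dl_one (p : ℕ) {Q : Type} [Group Q] : dl p (1 : Q) = 0 := by
  unfold dl
  rw [map_one, sub_self]

private theorem P14_dl_inv (p : ℕ) {Q : Type} [Group Q] (g : Q) :
    dl p g⁻¹ = -dl p g - dl p g⁻¹ * dl p g := by
  have h := P14_dl_mul p g⁻¹ g
  rw [inv_mul_cancel, P14_dl_one] at h
  have h2 : dl p g⁻¹ + (dl p g + dl p g⁻¹ * dl p g) = 0 := by
    rw [← add_assoc]
    exact h.symm
  refine (eq_neg_of_add_eq_zero_left h2).trans ?_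
  abel

private theorem P14_der_one {p : ℕ} {G Q : Type} [Group G] [Group Q] {φ : G →* Q}
    {δ : G → GA p Q} (hδ : IsDer p φ δ) : δ 1 = 0 := by
  have h := hδ 1 1
  rw [mul_one, map_one, map_one, one_mul] at h
  exact left_eq_add.1 h

private theorem P14_der_mul {p : ℕ} {G Q : Type} [Group G] [Group Q] {φ : G →* Q}
    {δ : G → GA p Q} (hδ : IsDer p φ δ) (g h : G) :
    δ (g * h) = δ g + δ h + dl p (φ g) * δ h := by
  rw [hδ, dl, sub_mul, one_mul]
  abel

private theorem P14_der_inv {p : ℕ} {G Q : Type} [Group G] [Group Q] {φ : G →* Q}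
    {δ : G → GA p Q} (hδ : IsDer p φ δ) (g : G) :
    δ g⁻¹ = -δ g - dl p (φ g⁻¹) * δ g := by
  have h := P14_der_mul hδ g⁻¹ g
  rw [inv_mul_cancel, P14_der_one hδ] at h
  have h2 : δ g⁻¹ + (δ g + dl p (φ g⁻¹) * δ g) = 0 := by
    rw [← add_assoc]
    exact h.symm
  refine (eq_neg_of_add_eq_zero_left h2).trans ?_
  abel

theorem P14_word (p : ℕ) [Fact p.Prime] {m : ℕ} {G Q : Type} [Group G] [Group Q] [Finite Q]
    (n : ℕ) (D : ℕ → Subgroup Q) (hD : NpSeries p Q n D) (hD2 : D 2 = ⊤) (φ : G →* Q)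
    (δ : G → GA p Q) (hδ : IsDer p φ δ) (x : Idx m → G) (hx : ∀ i, φ (x i) ∈ D (wt i)) (t : ℤ)
    (ht : ∀ i, δ (x i) ∈ Ef p D (t + wt i)) (w : FreeGroup (Idx m)) :
    dl p (φ (FreeGroup.lift x w)) -
        ∑ j, (Multiplicative.toAdd (ex p j w) : ZMod p) • dl p (φ (x j)) ∈ Ef p D 4 ∧
      δ (FreeGroup.lift x w) -
        ∑ j, (Multiplicative.toAdd (ex p j w) : ZMod p) • δ (x j) ∈ Ef p D (t + 4) ∧
      δ (FreeGroup.lift x w) ∈ Ef p D (t + 2) := by
  have hwt2 : ∀ i : Idx m, (2 : ℤ) ≤ wt i := by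
    intro i
    rcases i with i | i <;> simp [wt]
  have hdl2 : ∀ g : Q, dl p g ∈ Ef p D 2 := by
    intro g
    have h := P09_dl p D 2 g (by rw [hD2]; trivial)
    exact_mod_cast h
  have hδx : ∀ i, δ (x i) ∈ Ef p D (t + 2) := fun i =>
    P09_anti p D (by linarith [hwt2 i]) (ht i)
  have hsum : ∀ c : Idx m → ZMod p, ∑ j, c j • δ (x j) ∈ Ef p D (t + 2) := fun c =>
    Submodule.sum_mem _ fun j _ => Submodule.smul_mem _ _ (hδx j)
  have h42 : Ef p D (t + 4) ≤ Ef p D (t + 2) := P09_anti p D (by linarith)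
  have hc : ∀ (g : G) (c : Idx m → ZMod p), δ g - ∑ j, c j • δ (x j) ∈ Ef p D (t + 4) →
      δ g ∈ Ef p D (t + 2) := by
    intro g c h
    have h1 := Submodule.add_mem _ (h42 h) (hsum c)
    rwa [sub_add_cancel] at h1
  have hdd : ∀ g h : Q, dl p g * dl p h ∈ Ef p D 4 := by
    intro g h
    have h1 := P09_mul p D 2 2 _ _ (hdl2 g) (hdl2 h)
    have h2 : (2 : ℤ) + 2 = 4 := by norm_num
    rwa [h2] at h1
  have hdδ : ∀ (g : Q) (v : GA p Q), v ∈ Ef p D (t + 2) → dl p g * v ∈ Ef p D (t + 4) := by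
    intro g v hv
    have h1 := P09_mul p D 2 (t + 2) _ _ (hdl2 g) hv
    have h2 : (2 : ℤ) + (t + 2) = t + 4 := by ring
    rwa [h2] at h1
  -- the two main claims
  have key : dl p (φ (FreeGroup.lift x w)) -
        ∑ j, (Multiplicative.toAdd (ex p j w) : ZMod p) • dl p (φ (x j)) ∈ Ef p D 4 ∧
      δ (FreeGroup.lift x w) -
        ∑ j, (Multiplicative.toAdd (ex p j w) : ZMod p) • δ (x j) ∈ Ef p D (t + 4) := by
    have hmul : ∀ a b : FreeGroup (Idx m),
        (dl p (φ (FreeGroup.lift x a)) -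
          ∑ j, (Multiplicative.toAdd (ex p j a) : ZMod p) • dl p (φ (x j)) ∈ Ef p D 4 ∧
        δ (FreeGroup.lift x a) -
          ∑ j, (Multiplicative.toAdd (ex p j a) : ZMod p) • δ (x j) ∈ Ef p D (t + 4)) →
        (dl p (φ (FreeGroup.lift x b)) -
          ∑ j, (Multiplicative.toAdd (ex p j b) : ZMod p) • dl p (φ (x j)) ∈ Ef p D 4 ∧
        δ (FreeGroup.lift x b) -
          ∑ j, (Multiplicative.toAdd (ex p j b) : ZMod p) • δ (x j) ∈ Ef p D (t + 4)) →
        (dl p (φ (FreeGroup.lift x (a * b))) -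
          ∑ j, (Multiplicative.toAdd (ex p j (a * b)) : ZMod p) • dl p (φ (x j)) ∈ Ef p D 4 ∧
        δ (FreeGroup.lift x (a * b)) -
          ∑ j, (Multiplicative.toAdd (ex p j (a * b)) : ZMod p) • δ (x j) ∈ Ef p D (t + 4)) := by
      rintro a b ⟨ha1, ha2⟩ ⟨hb1, hb2⟩
      have hb3 := hc _ _ hb2
      constructor
      · have h1 := Submodule.add_mem _ (Submodule.add_mem _ ha1 hb1)
          (hdd (φ (FreeGroup.lift x a)) (φ (FreeGroup.lift x b)))
        convert h1 using 1
        rw [map_mul, map_mul, P14_dl_mul]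
        simp only [map_mul, toAdd_mul, add_smul, Finset.sum_add_distrib]
        abel
      · have h1 := Submodule.add_mem _ (Submodule.add_mem _ ha2 hb2)
          (hdδ (φ (FreeGroup.lift x a)) _ hb3)
        convert h1 using 1
        rw [map_mul, P14_der_mul hδ]
        simp only [map_mul, toAdd_mul, add_smul, Finset.sum_add_distrib]
        abel
    induction w using FreeGroup.induction_on with
    | C1 =>
      simp only [map_one, P14_dl_one, P14_der_one hδ, toAdd_one, zero_smul,
        Finset.sum_const_zero, sub_zero]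
      exact ⟨zero_mem _, zero_mem _⟩
    | of i =>
      have e1 : ∀ j, (Multiplicative.toAdd (ex p j (FreeGroup.of i)) : ZMod p) =
          if i = j then 1 else 0 := by
        intro j
        rw [ex, FreeGroup.lift_apply_of]
        rfl
      change dl p (φ (FreeGroup.lift x (FreeGroup.of i))) -
        ∑ j, (Multiplicative.toAdd (ex p j (FreeGroup.of i)) : ZMod p) • dl p (φ (x j)) ∈
          Ef p D 4 ∧ δ (FreeGroup.lift x (FreeGroup.of i)) -
        ∑ j, (Multiplicative.toAdd (ex p j (FreeGroup.of i)) : ZMod p) • δ (x j) ∈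
          Ef p D (t + 4)
      simp only [FreeGroup.lift_apply_of, e1, ite_smul, one_smul, zero_smul, Finset.sum_ite_eq,
        Finset.mem_univ, if_true, sub_self]
      exact ⟨zero_mem _, zero_mem _⟩
    | inv_of i hi =>
      obtain ⟨h1, h2⟩ := hi
      have h3 := hc _ _ h2
      constructor
      · have h4 := Submodule.neg_mem _ (Submodule.add_mem _ h1
          (hdd (φ (FreeGroup.lift x (FreeGroup.of i)))⁻¹ (φ (FreeGroup.lift x (FreeGroup.of i)))))
        have e : dl p (φ (FreeGroup.lift x (FreeGroup.of i)⁻¹)) =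
            -dl p (φ (FreeGroup.lift x (FreeGroup.of i))) -
              dl p (φ (FreeGroup.lift x (FreeGroup.of i)))⁻¹ *
                dl p (φ (FreeGroup.lift x (FreeGroup.of i))) := by
          rw [map_inv, map_inv]
          exact P14_dl_inv p _
        convert h4 using 1
        rw [e]
        simp only [map_inv, toAdd_inv, neg_smul, Finset.sum_neg_distrib]
        abel
      · have h4 := Submodule.neg_mem _ (Submodule.add_mem _ h2
          (hdδ (φ (FreeGroup.lift x (FreeGroup.of i))⁻¹) _ h3))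
        have e : δ (FreeGroup.lift x (FreeGroup.of i)⁻¹) =
            -δ (FreeGroup.lift x (FreeGroup.of i)) -
              dl p (φ (FreeGroup.lift x (FreeGroup.of i))⁻¹) *
                δ (FreeGroup.lift x (FreeGroup.of i)) := by
          rw [map_inv, P14_der_inv hδ, map_inv]
        convert h4 using 1
        rw [e]
        simp only [map_inv, toAdd_inv, neg_smul, Finset.sum_neg_distrib]
        abel
    | mul a b ha hb => exact hmul a b ha hb
  exact ⟨key.1, key.2, hc _ _ key.2⟩

end Pool.Agent.RG
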