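import Mathlib
import Pool.Agent.Lib.RG.PDefs

/-!
PART P, row P19: density of the words in the generators.
-/

set_option autoImplicit false

namespace Pool.Agent.RG

open scoped Classical

theorem P19_dense (m : ℕ) (G : Type) [Group G] [TopologicalSpace G] [IsTopologicalGroup G]
    (x : Idx m → G) (hgen : (Subgroup.closure (Set.range x)).topologicalClosure = ⊤)
    (N : Subgroup G) (hN : IsOpen (N : Set G)) (y : G) :
    ∃ w : FreeGroup (Idx m), (FreeGroup.lift x w)⁻¹ * y ∈ N := by
  have hy : y ∈ closure ((Subgroup.closure (Set.range x) : Subgroup G) : Set G) := by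
    rw [← Subgroup.topologicalClosure_coe, hgen]
    trivial
  have hopen : IsOpen {z : G | z⁻¹ * y ∈ (N : Set G)} :=
    hN.preimage (continuous_inv.mul continuous_const)
  obtain ⟨z, hz1, hz2⟩ := mem_closure_iff.1 hy _ hopen (by
    show y⁻¹ * y ∈ (N : Set G)
    rw [inv_mul_cancel]
    exact N.one_mem)
  have h1 : z ∈ (FreeGroup.lift x).range := by
    rw [FreeGroup.range_lift_eq_closure]
    exact hz2
  obtain ⟨w, rfl⟩ := h1
  exact ⟨w, hz1⟩

end Pool.Agent.RG
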