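import Mathlib
import Pool.Agent.Lib.RG.P14
import Pool.Agent.Lib.RG.P19

/-!
PART P, row P15: the leading form of the tame relation. Choose (P19) a word w with (lift x w)^-1 * y i in the open subgroup
N ⊓ ker φ ⊓ ⨅ ker χ_j (delta vanishes on N): then delta (y i) = delta (w(x)), φ(y i) = φ(w(x)), ex j w = χ_j (y i).
From y x = x^q y: (x^q - 1) delta y = (y - N_q) delta x, N_q = 1 + x + .. + x^(q-1) = 1 + (x-1)^2 (..) since q = 1 mod p, p odd.
Everything modulo Ef (t+6); see the computation in P07.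
-/

set_option autoImplicit false

namespace Pool.Agent.RG

open scoped Classical

section derivation

variable {p : ℕ} {G Q : Type} [Group G] [Group Q] {φ : G →* Q} {δ : G → GA p Q}

private theorem P15_der_one (hδ : IsDer p φ δ) : δ 1 = 0 := by
  have h := hδ 1 1
  rw [mul_one, map_one, map_one, one_mul] at h
  exact left_eq_add.1 h

private theorem P15_of_eq (g : Q) : MonoidAlgebra.of (ZMod p) Q g = 1 + dl p g := by
  unfold dl
  abel

private theorem P15_der_pow (hδ : IsDer p φ δ) (g : G) (k : ℕ) :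
    δ (g ^ k) = (∑ a ∈ Finset.range k, (1 + dl p (φ g)) ^ a) * δ g := by
  induction k with
  | zero => simp [P15_der_one hδ]
  | succ k ih =>
    rw [pow_succ, hδ, ih, Finset.sum_range_succ, add_mul, map_pow, map_pow, P15_of_eq]

/-- the relation `y x = x ^ q y` -/
private theorem P15_rel (hδ : IsDer p φ δ) {x y : G} {q : ℕ} (h : y * x * y⁻¹ = x ^ q) :
    ((1 + dl p (φ x)) ^ q - 1) * δ y =
      (1 + dl p (φ y) - ∑ a ∈ Finset.range q, (1 + dl p (φ x)) ^ a) * δ x := by
  have h1 : y * x = x ^ q * y := by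
    rw [← h]
    group
  have h2 := congrArg δ h1
  rw [hδ, hδ, P15_der_pow hδ, map_pow, map_pow, P15_of_eq, P15_of_eq] at h2
  have h3 : (1 + dl p (φ x)) ^ q * δ y = δ y + (1 + dl p (φ y)) * δ x -
      (∑ a ∈ Finset.range q, (1 + dl p (φ x)) ^ a) * δ x := by
    rw [h2]
    abel
  rw [sub_mul, one_mul, h3, sub_mul]
  abel

end derivation

section powers

set_option linter.unusedSectionVars false

variable {p : ℕ} [Fact p.Prime] {Q : Type} [Group Q]

private theorem P15_pow_mem {D : ℕ → Subgroup Q} {n : ℕ} (hD : NpSeries p Q n D) {ξ : GA p Q}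
    (hξ : ξ ∈ Ef p D 2) (k : ℕ) : ξ ^ k ∈ Ef p D (2 * k) := by
  induction k with
  | zero => rw [P09_top p n D hD _ (by simp)]; trivial
  | succ k ih =>
    have h := P09_mul p D _ _ _ _ ih hξ
    rw [← pow_succ] at h
    have e : (2 * (k : ℤ)) + 2 = 2 * ((k + 1 : ℕ) : ℤ) := by push_cast; ring
    rwa [e] at h

/-- the geometric sum is `q + (q choose 2) ξ + (weight 4)` -/
private theorem P15_geom {D : ℕ → Subgroup Q} {n : ℕ} (hD : NpSeries p Q n D) {ξ : GA p Q}
    (hξ : ξ ∈ Ef p D 2) (q : ℕ) :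
    (∑ a ∈ Finset.range q, (1 + ξ) ^ a) - ((q : ZMod p) • (1 : GA p Q) +
      ((q.choose 2 : ℕ) : ZMod p) • ξ) ∈ Ef p D 4 ∧
    (1 + ξ) ^ q - (1 + (q : ZMod p) • ξ) ∈ Ef p D 4 := by
  have h2 : ξ * ξ ∈ Ef p D 4 := by
    have := P09_mul p D 2 2 _ _ hξ hξ
    have e : (2 : ℤ) + 2 = 4 := by norm_num
    rwa [e] at this
  have hleft : ∀ v ∈ Ef p D 4, v * (1 + ξ) ∈ Ef p D 4 := by
    intro v hv
    rw [mul_add, mul_one]
    refine Submodule.add_mem _ hv ?_
    exact P09_anti p D (by norm_num) (P09_mul p D 4 2 _ _ hv hξ)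
  induction q with
  | zero =>
    constructor
    · simp
    · simp
  | succ q ih =>
    obtain ⟨ih1, ih2⟩ := ih
    constructor
    · have h3 := Submodule.add_mem _ ih1 ih2
      convert h3 using 1
      rw [Finset.sum_range_succ, Nat.choose_succ_succ' q 1, Nat.choose_one_right]
      push_cast
      simp only [add_smul, one_smul]
      abel
    · have h3 := Submodule.add_mem _ (hleft _ ih2)
        (Submodule.smul_mem _ (q : ZMod p) h2)
      convert h3 using 1
      rw [pow_succ]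
      push_cast
      simp only [add_smul, one_smul]
      rw [sub_mul, add_mul, one_mul, smul_mul_assoc, mul_add ξ, mul_one, smul_add]
      abel

/-- the power `(1 + ξ) ^ q` is `1 + ξ + (weight 6)` -/
private theorem P15_power (hp : p ≠ 2) {D : ℕ → Subgroup Q} {n : ℕ} (hD : NpSeries p Q n D)
    {ξ : GA p Q} (hξ : ξ ∈ Ef p D 2) {q : ℕ} (hq : q % p = 1) :
    (1 + ξ) ^ q - 1 - ξ ∈ Ef p D 6 := by
  have hp3 : 3 ≤ p := by
    have := (Fact.out : p.Prime).two_le
    omega
  obtain ⟨k, hk⟩ : ∃ k, q = 1 + p * k := ⟨q / p, by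
    have := Nat.mod_add_div q p
    omega⟩
  have hchar : CharP (GA p Q) p :=
    charP_of_injective_algebraMap (algebraMap (ZMod p) (GA p Q)).injective p
  have h1 : (1 + ξ) ^ p = 1 + ξ ^ p := by
    rw [add_pow_char_of_commute p (Commute.one_left ξ), one_pow]
  have h2 : ξ ^ p ∈ Ef p D 6 := P09_anti p D (by
    have : (3 : ℤ) ≤ p := by exact_mod_cast hp3
    linarith) (P15_pow_mem hD hξ p)
  have h3 : ∀ k : ℕ, (1 + ξ ^ p) ^ k - 1 ∈ Ef p D 6 := by
    intro k
    induction k with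
    | zero => simp
    | succ k ih =>
      have e : (1 + ξ ^ p) ^ (k + 1) - 1 = ((1 + ξ ^ p) ^ k - 1) + ((1 + ξ ^ p) ^ k - 1) * ξ ^ p +
          ξ ^ p := by
        rw [pow_succ]
        noncomm_ring
      rw [e]
      refine Submodule.add_mem _ (Submodule.add_mem _ ih ?_) h2
      exact P09_anti p D (by norm_num) (P09_mul p D 6 6 _ _ ih h2)
  have e : (1 + ξ) ^ q - 1 - ξ = ((1 + ξ ^ p) ^ k - 1) + ξ * ((1 + ξ ^ p) ^ k - 1) := by
    rw [hk, pow_add, pow_one, pow_mul, h1]
    noncomm_ring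
  rw [e]
  refine Submodule.add_mem _ (h3 k) ?_
  exact P09_anti p D (by norm_num) (P09_mul p D 2 6 _ _ hξ (h3 k))

end powers

theorem P15_relation (p m : ℕ) [Fact p.Prime] (hp : p ≠ 2) [NeZero m] (hm : 2 ≤ m)
    (G : Type) [Group G] [TopologicalSpace G] [IsTopologicalGroup G] (κ : Koch p m G)
    {Q : Type} [Group Q] [Finite Q] (n : ℕ) (D : ℕ → Subgroup Q) (hD : NpSeries p Q n D)
    (hD2 : D 2 = ⊤) (φ : G →* Q) (hφ : IsOpen (φ.ker : Set G)) (δ : G → GA p Q)
    (hδ : IsDer p φ δ) (hc : LocConst δ) (hx : ∀ i, φ (κ.x i) ∈ D (wt i)) (t : ℤ)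
    (ht : ∀ i, δ (κ.x i) ∈ Ef p D (t + wt i)) (i : Idx m) :
    dl p (φ (κ.x (nx i))) * δ (κ.x i) - dl p (φ (κ.x i)) * δ (κ.x (nx i)) ∈ Ef p D (t + 6) := by
  have hwt2 : ∀ i : Idx m, (2 : ℤ) ≤ wt i := by
    intro i
    rcases i with i | i <;> simp [wt]
  -- the word
  obtain ⟨N, hN, hN0⟩ := hc
  have hopen : IsOpen ((N ⊓ φ.ker ⊓ ⨅ j, (κ.χ j).ker : Subgroup G) : Set G) := by
    rw [Subgroup.coe_inf, Subgroup.coe_inf, Subgroup.coe_iInf]
    exact (hN.inter hφ).inter (isOpen_iInter_of_finite fun j => κ.cont j)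
  obtain ⟨w, hw⟩ := P19_dense m G κ.x κ.gen _ hopen (κ.y i)
  obtain ⟨⟨hw1, hw2⟩, hw3⟩ := hw
  have hyw : κ.y i = FreeGroup.lift κ.x w * ((FreeGroup.lift κ.x w)⁻¹ * κ.y i) := by group
  have hφy : φ (κ.y i) = φ (FreeGroup.lift κ.x w) := by
    conv_lhs => rw [hyw]
    rw [map_mul, MonoidHom.mem_ker.1 hw2, mul_one]
  have hδy : δ (κ.y i) = δ (FreeGroup.lift κ.x w) := by
    conv_lhs => rw [hyw]
    rw [hδ, hN0 _ hw1, mul_zero, add_zero]
  have hχ : ∀ j, ex p j w = κ.χ j (κ.y i) := by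
    intro j
    have h1 : κ.χ j (κ.y i) = κ.χ j (FreeGroup.lift κ.x w) := by
      conv_lhs => rw [hyw]
      rw [map_mul, MonoidHom.mem_ker.1 ((Subgroup.mem_iInf.1 hw3) j), mul_one]
    rw [h1]
    have h2 : ex p j = (κ.χ j).comp (FreeGroup.lift κ.x) := by
      refine FreeGroup.ext_hom _ _ fun k => ?_
      rw [ex, FreeGroup.lift_apply_of, MonoidHom.comp_apply, FreeGroup.lift_apply_of, κ.dual]
    rw [h2]
    rfl
  obtain ⟨ha, hb, hc2⟩ := P14_word p n D hD hD2 φ δ hδ κ.x hx t ht w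
  rw [← hφy] at ha
  rw [← hδy] at hb hc2
  set e : Idx m → ZMod p := fun j => Multiplicative.toAdd (ex p j w) with he
  set ξ : GA p Q := dl p (φ (κ.x i)) with hξdef
  have hξw : ξ ∈ Ef p D (wt i) := P09_dl p D (wt i) _ (hx i)
  have hξ : ξ ∈ Ef p D 2 := P09_anti p D (hwt2 i) hξw
  have hδx2 : δ (κ.x i) ∈ Ef p D (t + 2) := P09_anti p D (by linarith [hwt2 i]) (ht i)
  have hmulδ : ∀ (a : ℤ) (u v : GA p Q) (b : ℤ), t + 6 ≤ a + b → u ∈ Ef p D a → v ∈ Ef p D b →
      u * v ∈ Ef p D (t + 6) := by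
    intro a u v b hab hu hv
    exact P09_anti p D hab (P09_mul p D a b u v hu hv)
  -- the relation
  have hrel := P15_rel hδ (κ.tame i)
  rw [← hξdef] at hrel
  have hpow := P15_power hp hD hξ (κ.hq i)
  have hgeom := (P15_geom hD hξ (κ.q i)).1
  have hqp : ((κ.q i : ℕ) : ZMod p) = 1 := by
    have h1 := κ.hq i
    have h2 := (Fact.out : p.Prime).one_lt
    have h3 : ((κ.q i : ℕ) : ZMod p) = ((1 : ℕ) : ZMod p) := by
      rw [ZMod.natCast_eq_natCast_iff]
      unfold Nat.ModEq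
      rw [h1, Nat.mod_eq_of_lt h2]
    rw [h3, Nat.cast_one]
  have hchoose : (((κ.q i).choose 2 : ℕ) : ZMod p) = 0 := by
    have h1 : (2 : ZMod p) * (((κ.q i).choose 2 : ℕ) : ZMod p) = 0 := by
      have h2 : 2 * (κ.q i).choose 2 = κ.q i * (κ.q i - 1) := by
        rw [Nat.choose_two_right, mul_comm 2]
        exact Nat.div_mul_cancel (Nat.even_mul_pred_self _).two_dvd
      have h3 : ((2 * (κ.q i).choose 2 : ℕ) : ZMod p) = 0 := by
        rw [h2]
        push_cast
        have h4 : ((κ.q i - 1 : ℕ) : ZMod p) = 0 := by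
          rw [ZMod.natCast_eq_zero_iff]
          have h5 := Nat.mod_add_div (κ.q i) p
          rw [κ.hq i] at h5
          exact ⟨κ.q i / p, by omega⟩
        rw [h4, mul_zero]
      push_cast at h3
      exact h3
    rcases mul_eq_zero.1 h1 with h2 | h2
    · exfalso
      have h3 : ((2 : ℕ) : ZMod p) = 0 := by exact_mod_cast h2
      rw [ZMod.natCast_eq_zero_iff] at h3
      exact hp ((Nat.prime_dvd_prime_iff_eq Fact.out Nat.prime_two).1 h3)
    · exact h2
  rw [hqp, hchoose, one_smul, zero_smul, add_zero] at hgeom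
  -- (y - 1) δ x - ξ δ y has weight t + 6
  have h1 : dl p (φ (κ.y i)) * δ (κ.x i) - ξ * δ (κ.y i) ∈ Ef p D (t + 6) := by
    have h2 := hmulδ 6 _ _ (t + 2) (by linarith) hpow hc2
    have h3 := hmulδ 4 _ _ (t + 2) (by linarith) hgeom hδx2
    have h4 : dl p (φ (κ.y i)) * δ (κ.x i) - ξ * δ (κ.y i) =
        ((1 + ξ) ^ κ.q i - 1 - ξ) * δ (κ.y i) +
          ((∑ a ∈ Finset.range (κ.q i), (1 + ξ) ^ a) - 1) * δ (κ.x i) := by
      have h5 : ((1 + ξ) ^ κ.q i - 1 - ξ) * δ (κ.y i) =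
          ((1 + ξ) ^ κ.q i - 1) * δ (κ.y i) - ξ * δ (κ.y i) := by
        rw [sub_mul ((1 + ξ) ^ κ.q i - 1)]
      rw [h5, hrel]
      simp only [sub_mul, add_mul, one_mul]
      abel
    rw [h4]
    exact Submodule.add_mem _ h2 h3
  -- expand `y`
  have h2 : ∑ j, e j • (dl p (φ (κ.x j)) * δ (κ.x i) - ξ * δ (κ.x j)) ∈ Ef p D (t + 6) := by
    have h3 := hmulδ 4 _ _ (t + 2) (by linarith) ha hδx2
    have h4 := hmulδ 2 _ _ (t + 4) (by linarith) hξ hb
    have h5 : ∑ j, e j • (dl p (φ (κ.x j)) * δ (κ.x i) - ξ * δ (κ.x j)) =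
        (dl p (φ (κ.y i)) * δ (κ.x i) - ξ * δ (κ.y i)) -
        (dl p (φ (κ.y i)) - ∑ j, e j • dl p (φ (κ.x j))) * δ (κ.x i) +
        ξ * (δ (κ.y i) - ∑ j, e j • δ (κ.x j)) := by
      simp only [sub_mul, mul_sub, Finset.sum_mul, Finset.mul_sum, smul_sub,
        Finset.sum_sub_distrib, smul_mul_assoc, mul_smul_comm]
      abel
    rw [h5]
    exact Submodule.add_mem _ (Submodule.sub_mem _ h1 h3) h4
  -- all terms but one have weight t + 6
  have hother : ∀ j, j ≠ nx i → e j • (dl p (φ (κ.x j)) * δ (κ.x i) - ξ * δ (κ.x j)) ∈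
      Ef p D (t + 6) := by
    intro j hj
    rcases i with r | r
    · by_cases hji : j = Sum.inl r
      · subst hji
        rw [hξdef, sub_self, smul_zero]
        exact zero_mem _
      · have h3 : ex p j w = 1 := by
          rw [hχ]
          by_contra h4
          exact hj ((κ.linkA r j hji).1 h4)
        have h4 : e j = 0 := by
          rw [he]
          simp only [h3, toAdd_one]
        rw [h4, zero_smul]
        exact zero_mem _
    · rcases j with j | j
      · have h3 : ex p (Sum.inl j) w = 1 := by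
          rw [hχ]
          by_contra h4
          have h5 := (κ.linkS r j).1 h4
          apply hj
          rw [h5]
          rfl
        have h4 : e (Sum.inl j) = 0 := by
          rw [he]
          simp only [h3, toAdd_one]
        rw [h4, zero_smul]
        exact zero_mem _
      · refine Submodule.smul_mem _ _ (Submodule.sub_mem _ ?_ ?_)
        · refine hmulδ 3 _ _ (t + 3) (by linarith) ?_ ?_
          · have := P09_dl p D (wt (Sum.inr j : Idx m)) _ (hx (Sum.inr j))
            exact this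
          · exact ht (Sum.inr r)
        · refine hmulδ 3 _ _ (t + 3) (by linarith) ?_ ?_
          · exact hξw
          · exact ht (Sum.inr j)
  have hen : e (nx i) ≠ 0 := by
    have h3 : ex p (nx i) w ≠ 1 := by
      rw [hχ]
      rcases i with r | r
      · exact (κ.linkA r (nx (Sum.inl r)) (by simp [nx])).2 rfl
      · exact (κ.linkS r r).2 rfl
    intro h4
    apply h3
    exact Multiplicative.toAdd.injective h4
  have h3 : e (nx i) • (dl p (φ (κ.x (nx i))) * δ (κ.x i) - ξ * δ (κ.x (nx i))) ∈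
      Ef p D (t + 6) := by
    have h4 := Finset.add_sum_erase Finset.univ
      (fun j => e j • (dl p (φ (κ.x j)) * δ (κ.x i) - ξ * δ (κ.x j))) (Finset.mem_univ (nx i))
    rw [← h4] at h2
    have h5 : ∑ j ∈ Finset.univ.erase (nx i),
        e j • (dl p (φ (κ.x j)) * δ (κ.x i) - ξ * δ (κ.x j)) ∈ Ef p D (t + 6) :=
      Submodule.sum_mem _ fun j hj => hother j (Finset.ne_of_mem_erase hj)
    have h6 := Submodule.sub_mem _ h2 h5
    rwa [add_sub_cancel_right] at h6
  have h4 := Submodule.smul_mem _ (e (nx i))⁻¹ h3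
  rwa [smul_smul, inv_mul_cancel₀ hen, one_smul] at h4

end Pool.Agent.RG
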