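import Mathlib
import Pool.Agent.Lib.RG.PDefs

/-!
PART P, row P17 (Burnside basis theorem). Take a maximal independent family f_1..f_k (k <= r) of homs U -> Z/p with open kernels;
(f_t) : U -> (Z/p)^k is surjective; choose g_t in U dual to f_t and C = closed subgroup generated by them. If C <> U there is an
open subgroup of U containing C, different from U (closed subgroups of profinite groups are intersections of open ones), its core
in U gives a finite p-group U/N with a proper subgroup, contained in a maximal one, normal of index p: a nonzero hom U -> Z/p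
vanishing on C; it is a combination of the f_t, so it is zero.
-/

set_option autoImplicit false

namespace Pool.Agent.RG

open scoped Classical

/-- A proper subgroup of a finite `p`-group is contained in the kernel of a nontrivial homomorphism
to `ℤ / p`. -/
private theorem P17_hom (p : ℕ) [Fact p.Prime] (Q : Type) [Group Q] [Finite Q] {n : ℕ}
    (hQ : Nat.card Q = p ^ n) (C : Subgroup Q) (hC : C ≠ ⊤) :
    ∃ h : Q →* Multiplicative (ZMod p), C ≤ h.ker ∧ h ≠ 1 := by
  have hp : p.Prime := Fact.out
  obtain ⟨a, ha, hCa⟩ : ∃ a, a < n ∧ Nat.card C = p ^ a := by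
    have h1 : Nat.card C ∣ p ^ n := hQ ▸ C.card_subgroup_dvd_card
    obtain ⟨a, ha, hCa⟩ := (Nat.dvd_prime_pow hp).mp h1
    refine ⟨a, lt_of_le_of_ne ha ?_, hCa⟩
    rintro rfl
    exact hC (Subgroup.eq_top_of_card_eq C (by rw [hCa, hQ]))
  obtain ⟨M, hM, hCM⟩ := Sylow.exists_subgroup_card_pow_prime_le (G := Q) p (n := a) (m := n - 1)
    (by rw [hQ]; exact pow_dvd_pow _ (by omega)) C hCa (by omega)
  have hidx : M.index = p := by
    have h1 := M.card_mul_index
    rw [hM, hQ] at h1
    have h2 : p ^ n = p ^ (n - 1) * p := by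
      rw [← pow_succ]
      congr 1
      omega
    rw [h2] at h1
    exact Nat.eq_of_mul_eq_mul_left (pow_pos hp.pos _) h1
  have hn : n ≠ 0 := by omega
  have hmf : (Nat.card Q).minFac = p := by
    rw [hQ, hp.pow_minFac hn]
  have hnor : M.Normal := Subgroup.normal_of_index_eq_minFac_card (by rw [hidx, hmf])
  have hcard : Nat.card (Q ⧸ M) = p := by rw [← hidx]; rfl
  have hcard' : Nat.card (Multiplicative (ZMod p)) = p := by
    rw [Nat.card_congr Multiplicative.toAdd, Nat.card_zmod]
  let e : Q ⧸ M ≃* Multiplicative (ZMod p) := mulEquivOfPrimeCardEq hcard hcard'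
  refine ⟨e.toMonoidHom.comp (QuotientGroup.mk' M), ?_, ?_⟩
  · intro g hg
    rw [MonoidHom.mem_ker]
    change e (QuotientGroup.mk g) = 1
    rw [(QuotientGroup.eq_one_iff g).mpr (hCM hg), map_one]
  · intro h1
    have h2 : M = ⊤ := by
      rw [eq_top_iff]
      intro g _
      have h3 := DFunLike.congr_fun h1 g
      change e (QuotientGroup.mk g) = 1 at h3
      rw [map_eq_one_iff e e.injective] at h3
      exact (QuotientGroup.eq_one_iff g).mp h3
    rw [h2, Subgroup.index_top] at hidx
    exact hp.one_lt.ne hidx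

/-- Dual elements of an independent family of homomorphisms. -/
private theorem P17_dual (p : ℕ) [Fact p.Prime] {U : Type} [Group U] {k : ℕ}
    (f : Fin k → U →* Multiplicative (ZMod p))
    (hf : LinearIndependent (ZMod p) fun t => fun u : U => Multiplicative.toAdd (f t u)) :
    ∃ g : Fin k → U, ∀ t s, Multiplicative.toAdd (f t (g s)) = if t = s then 1 else 0 := by
  let Φ : U → (Fin k → ZMod p) := fun u t => Multiplicative.toAdd (f t u)
  let V : Submodule (ZMod p) (Fin k → ZMod p) :=
    { carrier := Set.range Φ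
      zero_mem' := ⟨1, by funext t; simp [Φ]⟩
      add_mem' := by
        rintro _ _ ⟨u, rfl⟩ ⟨v, rfl⟩
        exact ⟨u * v, by funext t; simp [Φ]⟩
      smul_mem' := by
        rintro c _ ⟨u, rfl⟩
        refine ⟨u ^ c.val, ?_⟩
        funext t
        simp only [Φ, map_pow, toAdd_pow, Pi.smul_apply, smul_eq_mul, nsmul_eq_mul]
        rw [ZMod.natCast_val, ZMod.cast_id] }
  have hV : V = ⊤ := by
    by_contra hne
    obtain ⟨φ, hφ, hφV⟩ := Submodule.exists_le_ker_of_lt_top V (lt_top_iff_ne_top.mpr hne)
    have h1 : ∀ v : Fin k → ZMod p, φ v = ∑ t, φ (Pi.single t 1) * v t := by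
      intro v
      conv_lhs => rw [← Finset.univ_sum_single v]
      rw [map_sum]
      refine Finset.sum_congr rfl fun t _ => ?_
      have h2 : (Pi.single t (v t) : Fin k → ZMod p) = v t • Pi.single t 1 := by
        rw [← Pi.single_smul, smul_eq_mul, mul_one]
      rw [h2, map_smul, smul_eq_mul, mul_comm]
    have h2 : ∑ t, φ (Pi.single t 1) • (fun u : U => Multiplicative.toAdd (f t u)) = 0 := by
      funext u
      rw [Finset.sum_apply, Pi.zero_apply]
      have h3 : φ (Φ u) = 0 := hφV ⟨u, rfl⟩
      rw [h1] at h3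
      exact h3
    have h3 := Fintype.linearIndependent_iff.mp hf _ h2
    apply hφ
    ext t
    simpa using h3 t
  have h1 : ∀ s : Fin k, ∃ u : U, Φ u = Pi.single s 1 := fun s => by
    have : (Pi.single s 1 : Fin k → ZMod p) ∈ V := hV ▸ Submodule.mem_top
    exact this
  choose g hg using h1
  refine ⟨g, fun t s => ?_⟩
  have h2 := congrFun (hg s) t
  rw [Pi.single_apply] at h2
  exact h2

theorem P17_burnside (p : ℕ) [Fact p.Prime] (G : Type) [Group G] [TopologicalSpace G]
    [IsTopologicalGroup G] [CompactSpace G] [T2Space G] [TotallyDisconnectedSpace G]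
    (hG : ∀ U : Subgroup G, U.Normal → IsOpen (U : Set G) → ∃ k, U.index = p ^ k)
    (U : Subgroup G) (hU : IsOpen (U : Set G)) (r : ℕ)
    (h : ∀ (k : ℕ) (f : Fin k → U →* Multiplicative (ZMod p)), IndepHoms p U k f → k ≤ r) :
    GenBy U r := by
  have hp : p.Prime := Fact.out
  have hUc : IsClosed (U : Set G) := Subgroup.isClosed_of_isOpen U hU
  -- a maximal family
  let P : ℕ → Prop := fun k => ∃ f : Fin k → U →* Multiplicative (ZMod p), IndepHoms p U k f
  have hP0 : P 0 := ⟨Fin.elim0, fun t => t.elim0, linearIndependent_empty_type⟩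
  obtain ⟨k, ⟨f, hf⟩, hk⟩ : ∃ k, P k ∧ ¬ P (k + 1) := by
    by_contra hne
    push Not at hne
    have hall : ∀ k, P k := fun k => Nat.rec hP0 (fun k hk => hne k hk) k
    obtain ⟨f, hf⟩ := hall (r + 1)
    have := h _ f hf
    omega
  have hkr := h k f hf
  obtain ⟨g, hg⟩ := P17_dual p f hf.2
  refine ⟨Finset.univ.image fun t => (g t : G), ?_, ?_⟩
  · refine Finset.card_image_le.trans ?_
    simpa using hkr
  set C : Subgroup G := (Subgroup.closure
    ((Finset.univ.image fun t => (g t : G) : Finset G) : Set G)).topologicalClosure with hC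
  have hCU : C ≤ U := by
    refine Subgroup.topologicalClosure_minimal _ ?_ hUc
    rw [Subgroup.closure_le]
    intro x hx
    rw [Finset.mem_coe, Finset.mem_image] at hx
    obtain ⟨t, -, rfl⟩ := hx
    exact (g t).2
  have hCc : IsClosed (C : Set G) := Subgroup.isClosed_topologicalClosure _
  have hgC : ∀ t, (g t : G) ∈ C := fun t =>
    Subgroup.le_topologicalClosure _ (Subgroup.subset_closure (by
      rw [Finset.mem_coe, Finset.mem_image]
      exact ⟨t, Finset.mem_univ _, rfl⟩))
  refine le_antisymm hCU fun u hu => ?_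
  by_contra huC
  -- an open normal subgroup
  have hW : IsOpen ({x : G | u * x ∉ C} ∩ (U : Set G)) :=
    ((hCc.isOpen_compl).preimage (continuous_const_mul u)).inter hU
  obtain ⟨N, hN⟩ := ProfiniteGrp.exist_openNormalSubgroup_sub_open_nhds_of_one hW
    ⟨by simpa using huC, U.one_mem⟩
  set N0 : Subgroup G := N.toSubgroup with hN0
  have hN0n : N0.Normal := N.isNormal'
  have hN0o : IsOpen (N0 : Set G) := N.isOpen'
  have hNU : N0 ≤ U := fun x hx => (hN hx).2
  have hNC : ∀ x ∈ N0, u * x ∉ C := fun x hx => (hN hx).1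
  set N' : Subgroup U := N0.subgroupOf U with hN'
  have hN'n : N'.Normal := inferInstance
  obtain ⟨K, hK⟩ := hG N0 hN0n hN0o
  have hdvd : N'.index ∣ p ^ K := by
    have h1 := Subgroup.relIndex_mul_index hNU
    rw [hK] at h1
    exact ⟨U.index, h1.symm⟩
  obtain ⟨j, -, hj⟩ := (Nat.dvd_prime_pow hp).mp hdvd
  have hcardQ : Nat.card (U ⧸ N') = p ^ j := hj
  have hfinQ : Finite (U ⧸ N') := Nat.finite_of_card_ne_zero (by
    rw [hcardQ]
    exact pow_ne_zero _ hp.ne_zero)
  set C' : Subgroup (U ⧸ N') := (C.subgroupOf U).map (QuotientGroup.mk' N') with hC'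
  have hC'ne : C' ≠ ⊤ := by
    intro htop
    have h1 : (QuotientGroup.mk' N' ⟨u, hu⟩) ∈ C' := htop ▸ Subgroup.mem_top _
    obtain ⟨c, hc, hcu⟩ := h1
    have h2 : (⟨u, hu⟩ : U)⁻¹ * c ∈ N' := by
      rw [← QuotientGroup.eq]
      exact hcu.symm
    have h3 : u⁻¹ * (c : G) ∈ N0 := h2
    refine hNC _ h3 ?_
    rw [mul_inv_cancel_left]
    exact hc
  obtain ⟨χ, hχC, hχ⟩ := P17_hom p (U ⧸ N') hcardQ C' hC'ne
  set χ' : U →* Multiplicative (ZMod p) := χ.comp (QuotientGroup.mk' N') with hχ'
  have hχN : N' ≤ χ'.ker := by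
    intro x hx
    rw [MonoidHom.mem_ker]
    change χ (QuotientGroup.mk x) = 1
    rw [(QuotientGroup.eq_one_iff x).mpr hx, map_one]
  have hχo : IsOpen ((χ'.ker.map U.subtype : Subgroup G) : Set G) := by
    refine Subgroup.isOpen_mono (H₁ := N0) ?_ hN0o
    intro x hx
    exact ⟨⟨x, hNU hx⟩, hχN hx, rfl⟩
  have hχg : ∀ t, χ' (g t) = 1 := fun t => by
    have h1 : QuotientGroup.mk' N' (g t) ∈ C' := ⟨g t, hgC t, rfl⟩
    exact MonoidHom.mem_ker.mp (hχC h1)
  -- the enlarged family is dependent
  have hdep : ¬ LinearIndependent (ZMod p) (Fin.snoc (α := fun _ => U → ZMod p)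
      (fun t => fun u : U => Multiplicative.toAdd (f t u))
      (fun u : U => Multiplicative.toAdd (χ' u))) := by
    intro hli
    refine hk ⟨Fin.snoc (α := fun _ => U →* Multiplicative (ZMod p)) f χ', ?_, ?_⟩
    · intro t
      refine Fin.lastCases ?_ (fun t => ?_) t
      · rw [Fin.snoc_last]
        exact hχo
      · rw [Fin.snoc_castSucc]
        exact hf.1 t
    · have heq : (fun t => fun u : U => Multiplicative.toAdd
          ((Fin.snoc (α := fun _ => U →* Multiplicative (ZMod p)) f χ' :
            Fin (k + 1) → U →* Multiplicative (ZMod p)) t u)) =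
          Fin.snoc (α := fun _ => U → ZMod p)
            (fun t => fun u : U => Multiplicative.toAdd (f t u))
            (fun u : U => Multiplicative.toAdd (χ' u)) := by
        funext t
        refine Fin.lastCases ?_ (fun t => ?_) t
        · rw [Fin.snoc_last, Fin.snoc_last]
        · rw [Fin.snoc_castSucc, Fin.snoc_castSucc]
      rw [heq]
      exact hli
  rw [linearIndependent_finSnoc] at hdep
  push Not at hdep
  have hmem := hdep hf.2
  rw [Submodule.mem_span_range_iff_exists_fun] at hmem
  obtain ⟨c, hc⟩ := hmem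
  have hc0 : ∀ s, c s = 0 := by
    intro s
    have h1 := congrFun hc (g s)
    rw [Finset.sum_apply] at h1
    simp only [Pi.smul_apply, smul_eq_mul, hg, mul_ite, mul_one, mul_zero,
      Finset.sum_ite_eq', Finset.mem_univ, if_true, hχg, toAdd_one] at h1
    exact h1
  apply hχ
  ext x
  have h1 := congrFun hc x
  simp only [hc0, zero_smul, Finset.sum_const_zero, Pi.zero_apply] at h1
  change Multiplicative.toAdd (χ' x) = 0
  exact h1.symm

end Pool.Agent.RG
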