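import Mathlib
import Pool.Agent.Lib.RG.PDefs

/-!
PART P, row P18: there are only finitely many continuous homs from a topologically finitely generated group to groups of
order at most N (a continuous hom is determined by the images of the x i; up to isomorphism the group is Fin k with one of finitely
many group structures), so their kernels contain a common open subgroup.
-/

set_option autoImplicit false

namespace Pool.Agent.RG

open scoped Classical

/-- The multiplication table in a coding by small numbers. -/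
private def P18_tab {N : ℕ} {Q : Type} [Group Q] (e : Q → Fin (N + 1)) :
    Set (Fin (N + 1) × Fin (N + 1) × Fin (N + 1)) :=
  {z | ∃ a b : Q, z = (e a, e b, e (a * b))}

private theorem P18_agree {N m : ℕ} {G : Type} [Group G] [TopologicalSpace G]
    [IsTopologicalGroup G] {x : Idx m → G}
    (hgen : (Subgroup.closure (Set.range x)).topologicalClosure = ⊤)
    {Q Q' : Type} [Group Q] [Group Q'] {e : Q → Fin (N + 1)} {e' : Q' → Fin (N + 1)}
    (he : Function.Injective e) (he' : Function.Injective e')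
    (hR : P18_tab e = P18_tab e') {φ : G →* Q} {φ' : G →* Q'} (hφ : IsOpen (φ.ker : Set G))
    (hφ' : IsOpen (φ'.ker : Set G)) (hx : ∀ i, e (φ (x i)) = e' (φ' (x i))) :
    φ.ker = φ'.ker := by
  have htab : ∀ a b : Q, (e a, e b, e (a * b)) ∈ P18_tab e' := fun a b => hR ▸ ⟨a, b, rfl⟩
  have hone : e 1 = e' 1 := by
    obtain ⟨a, b, h⟩ := htab 1 1
    simp only [Prod.mk.injEq, mul_one] at h
    obtain ⟨h1, h2, h3⟩ := h
    have h4 : a = a * b := he' (h1.symm.trans h3)
    have h5 : b = 1 := by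
      have := congrArg (fun z => a⁻¹ * z) h4
      simpa using this.symm
    rw [h2, h5]
  have hmul : ∀ a b : Q, ∀ a' b' : Q', e a = e' a' → e b = e' b' → e (a * b) = e' (a' * b') := by
    intro a b a' b' ha hb
    obtain ⟨c, d, h⟩ := htab a b
    simp only [Prod.mk.injEq] at h
    obtain ⟨h1, h2, h3⟩ := h
    have h4 : c = a' := he' (h1.symm.trans ha)
    have h5 : d = b' := he' (h2.symm.trans hb)
    rw [h3, h4, h5]
  have hinv : ∀ a : Q, ∀ a' : Q', e a = e' a' → e a⁻¹ = e' a'⁻¹ := by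
    intro a a' ha
    obtain ⟨c, d, h⟩ := htab a a⁻¹
    simp only [Prod.mk.injEq, mul_inv_cancel] at h
    obtain ⟨h1, h2, h3⟩ := h
    have h4 : c = a' := he' (h1.symm.trans ha)
    have h5 : c * d = 1 := he' (h3.symm.trans hone)
    rw [h4] at h5
    rw [h2, eq_inv_of_mul_eq_one_right h5]
  let H : Subgroup G :=
    { carrier := {g | e (φ g) = e' (φ' g)}
      one_mem' := by
        change e (φ 1) = e' (φ' 1)
        rw [map_one, map_one, hone]
      mul_mem' := by
        intro a b ha hb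
        change e (φ (a * b)) = e' (φ' (a * b))
        rw [map_mul, map_mul]
        exact hmul _ _ _ _ ha hb
      inv_mem' := by
        intro a ha
        change e (φ a⁻¹) = e' (φ' a⁻¹)
        rw [map_inv, map_inv]
        exact hinv _ _ ha }
  have hHo : IsOpen (H : Set G) := by
    refine Subgroup.isOpen_mono (H₁ := φ.ker ⊓ φ'.ker) ?_ (hφ.inter hφ')
    intro g hg
    change e (φ g) = e' (φ' g)
    rw [MonoidHom.mem_ker.mp hg.1, MonoidHom.mem_ker.mp hg.2, hone]
  have hHt : H = ⊤ := by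
    rw [eq_top_iff, ← hgen]
    refine Subgroup.topologicalClosure_minimal _ ?_ (Subgroup.isClosed_of_isOpen H hHo)
    rw [Subgroup.closure_le]
    rintro _ ⟨i, rfl⟩
    exact hx i
  have hall : ∀ g, e (φ g) = e' (φ' g) := fun g => by
    have : g ∈ H := hHt ▸ Subgroup.mem_top g
    exact this
  ext g
  rw [MonoidHom.mem_ker, MonoidHom.mem_ker]
  constructor
  · intro h
    have h1 := hall g
    rw [h, hone] at h1
    exact (he' h1).symm
  · intro h
    have h1 := hall g
    rw [h, ← hone] at h1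
    exact he h1

theorem P18_common (m : ℕ) (G : Type) [Group G] [TopologicalSpace G] [IsTopologicalGroup G]
    (x : Idx m → G) (hgen : (Subgroup.closure (Set.range x)).topologicalClosure = ⊤) (N : ℕ) :
    ∃ U₀ : Subgroup G, IsOpen (U₀ : Set G) ∧ ∀ (Q : Type) [Group Q] [Finite Q],
      Nat.card Q ≤ N → ∀ φ : G →* Q, IsOpen (φ.ker : Set G) → U₀ ≤ φ.ker := by
  set 𝒦 : Set (Subgroup G) := {K | ∃ (Q : Type) (_ : Group Q) (_ : Finite Q) (φ : G →* Q),
    Nat.card Q ≤ N ∧ IsOpen (φ.ker : Set G) ∧ K = φ.ker} with h𝒦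
  have hcode : ∀ K ∈ 𝒦, ∃ z : (Idx m → Fin (N + 1)) × Set (Fin (N + 1) × Fin (N + 1) × Fin (N + 1)),
      ∃ (Q : Type) (_ : Group Q) (φ : G →* Q) (e : Q → Fin (N + 1)), Function.Injective e ∧
        IsOpen (φ.ker : Set G) ∧ K = φ.ker ∧ z = (fun i => e (φ (x i)), P18_tab e) := by
    rintro K ⟨Q, hQ, hQf, φ, hcard, hφ, rfl⟩
    let e0 : Q ≃ Fin (Nat.card Q) := Finite.equivFin Q
    refine ⟨_, Q, hQ, φ, fun a => Fin.castLE (by omega) (e0 a), ?_, hφ, rfl, rfl⟩
    intro a b hab
    exact e0.injective (Fin.castLE_injective _ hab)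
  choose! D hD using hcode
  have hfin : 𝒦.Finite := by
    refine Set.Finite.of_finite_image (f := D) (Set.toFinite _) ?_
    intro K hK K' hK' hKK'
    obtain ⟨Q, hQ, φ, e, he, hφ, hKφ, hz⟩ := hD K hK
    obtain ⟨Q', hQ', φ', e', he', hφ', hKφ', hz'⟩ := hD K' hK'
    rw [hz, hz', Prod.mk.injEq] at hKK'
    rw [hKφ, hKφ']
    exact P18_agree hgen he he' hKK'.2 hφ hφ' (fun i => congrFun hKK'.1 i)
  refine ⟨sInf 𝒦, ?_, ?_⟩
  · have h1 : ((sInf 𝒦 : Subgroup G) : Set G) = ⋂ K ∈ 𝒦, (K : Set G) := Subgroup.coe_sInf 𝒦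
    rw [h1]
    refine hfin.isOpen_biInter fun K hK => ?_
    obtain ⟨Q, hQ, hQf, φ, hcard, hφ, rfl⟩ := hK
    exact hφ
  · intro Q _ _ hcard φ hφ
    exact sInf_le ⟨Q, inferInstance, inferInstance, φ, hcard, hφ, rfl⟩

end Pool.Agent.RG
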