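import Mathlib
import Pool.Agent.Lib.RG.P18
import Pool.Agent.Lib.RG.P19

/-!
PART P, row P20: the words. U0 from P18 for N; w i from P19 for the open subgroup U0 ⊓ ⨅ ker χ_j and y i; then ex j (w i) = χ_j (y i)
since both homs agree on words (dual). Induction on card Q: first replace Q by the subgroup generated by the ξ i; a nontrivial
finite p-group has a central subgroup Z of order p; φ' : G -> Q/Z by induction (card Q/Z <= N, same words), surjective since the ξ i
generate; κ.lift with E = Q, H = Q/Z, ex = ξ, ey = lift ξ (w i) gives psi; psi (x i) = ξ i * z i, z i in Z; multiply psi by the hom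
G -> Z, g -> prod_j z_j^(-χ_j(g)) (Z has order p). φ (y i) = lift ξ (w i) because φ kills U0.
-/

set_option autoImplicit false

namespace Pool.Agent.RG

open scoped Classical IsMulCommutative

/-- the homomorphism from `ℤ / p` with prescribed value of the generator -/
private theorem P20_hom (p : ℕ) {C : Type} [Group C] (c : C) (hc : c ^ p = 1) :
    ∃ f : Multiplicative (ZMod p) →* C, f (Multiplicative.ofAdd 1) = c ∧
      ∀ a, f a ∈ Subgroup.zpowers c := by
  let f0 : ℤ →+ Additive C := zmultiplesHom (Additive C) (Additive.ofMul c)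
  have hf0 : f0 p = 0 := by
    show ((p : ℤ) • Additive.ofMul c) = 0
    rw [← ofMul_zpow, zpow_natCast, hc, ofMul_one]
  refine ⟨AddMonoidHom.toMultiplicativeLeft (ZMod.lift p ⟨f0, hf0⟩), ?_, ?_⟩
  · show Additive.toMul (ZMod.lift p ⟨f0, hf0⟩ (1 : ZMod p)) = c
    have h1 : (1 : ZMod p) = ((1 : ℤ) : ZMod p) := by simp
    rw [h1, ZMod.lift_coe]
    show Additive.toMul ((1 : ℤ) • Additive.ofMul c) = c
    rw [one_smul]
    rfl
  · intro a
    obtain ⟨k, hk⟩ := ZMod.intCast_surjective (Multiplicative.toAdd a)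
    show Additive.toMul (ZMod.lift p ⟨f0, hf0⟩ (Multiplicative.toAdd a)) ∈ _
    rw [← hk, ZMod.lift_coe]
    exact ⟨k, rfl⟩

private theorem P20_lift_comp {ι G H : Type} [Group G] [Group H] (f : G →* H) (x : ι → G)
    (w : FreeGroup ι) : f (FreeGroup.lift x w) = FreeGroup.lift (fun i => f (x i)) w := by
  have h : f.comp (FreeGroup.lift x) = FreeGroup.lift (fun i => f (x i)) := by
    ext i
    simp
  exact DFunLike.congr_fun h w

private theorem P20_exists {p m : ℕ} [Fact p.Prime] [NeZero m]
    {G : Type} [Group G] [TopologicalSpace G] [IsTopologicalGroup G] (κ : Koch p m G) {N : ℕ}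
    {w : Idx m → FreeGroup (Idx m)} {U₀ : Subgroup G}
    (hU : ∀ (Q : Type) [Group Q] [Finite Q],
      Nat.card Q ≤ N → ∀ φ : G →* Q, IsOpen (φ.ker : Set G) → U₀ ≤ φ.ker)
    (hw : ∀ i, (FreeGroup.lift κ.x (w i))⁻¹ * κ.y i ∈ U₀) (n : ℕ) :
      ∀ (Q : Type) [Group Q] [Finite Q], Nat.card Q ≤ n → IsPGroup p Q → Nat.card Q ≤ N →
        ∀ ξ : Idx m → Q,
        (∀ i, FreeGroup.lift ξ (w i) * ξ i * (FreeGroup.lift ξ (w i))⁻¹ = ξ i ^ κ.q i) →
        ∃ φ : G →* Q, IsOpen (φ.ker : Set G) ∧ (∀ i, φ (κ.x i) = ξ i) ∧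
          ∀ i, φ (κ.y i) = FreeGroup.lift ξ (w i) := by
  have hval : ∀ (Q : Type) [Group Q] [Finite Q], Nat.card Q ≤ N → ∀ φ : G →* Q,
      IsOpen (φ.ker : Set G) → ∀ ξ : Idx m → Q, (∀ i, φ (κ.x i) = ξ i) →
      ∀ i, φ (κ.y i) = FreeGroup.lift ξ (w i) := by
    intro Q _ _ hQ φ hφ ξ hξ i
    have h1 := hU Q hQ φ hφ (hw i)
    rw [MonoidHom.mem_ker, map_mul, map_inv, inv_mul_eq_one] at h1
    rw [← h1, P20_lift_comp]
    congr 2
    funext j
    exact hξ j
  induction n with
  | zero =>
    intro Q _ _ h0
    have := Nat.card_pos (α := Q)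
    omega
  | succ n ih =>
    intro Q _ _ hn hp hN ξ hrel
    by_cases htop : Subgroup.closure (Set.range ξ) = ⊤
    · by_cases hnt : Nontrivial Q
      · have hc := hp.center_nontrivial
        obtain ⟨z, hz, hzo⟩ : ∃ z ∈ Subgroup.center Q, orderOf z = p := by
          have h1 : p ∣ Nat.card (Subgroup.center Q) := by
            obtain ⟨k, hk⟩ := (hp.to_subgroup (Subgroup.center Q)).exists_card_eq
            have hk0 : k ≠ 0 := by
              rintro rfl
              rw [pow_zero] at hk
              have := Finite.one_lt_card (α := Subgroup.center Q)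
              omega
            rw [hk]
            exact dvd_pow_self p hk0
          obtain ⟨z, hz⟩ := exists_prime_orderOf_dvd_card' p h1
          exact ⟨z, z.2, by rw [← hz, Subgroup.orderOf_coe]⟩
        let Z : Subgroup Q := Subgroup.zpowers z
        have hZc : Z ≤ Subgroup.center Q := by
          rw [Subgroup.zpowers_le]
          exact hz
        have hZn : Z.Normal := by
          refine ⟨fun a ha g => ?_⟩
          have h1 := Subgroup.mem_center_iff.1 (hZc ha) g
          rw [h1, mul_inv_cancel_right]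
          exact ha
        have hZcard : Nat.card Z = p := by
          rw [Nat.card_zpowers, hzo]
        have hp1 : 1 < p := (Fact.out : p.Prime).one_lt
        have hcard := Subgroup.card_eq_card_quotient_mul_card_subgroup Z
        rw [hZcard] at hcard
        have hqpos : 0 < Nat.card (Q ⧸ Z) := Nat.card_pos
        have hlt : Nat.card (Q ⧸ Z) < Nat.card Q := by
          rw [hcard]
          exact lt_mul_of_one_lt_right hqpos hp1
        have hmk : ∀ i, FreeGroup.lift (fun i => QuotientGroup.mk' Z (ξ i)) (w i) =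
            QuotientGroup.mk' Z (FreeGroup.lift ξ (w i)) := fun i => (P20_lift_comp _ _ _).symm
        obtain ⟨φ', h1, h2, h3⟩ := ih (Q ⧸ Z) (by omega) (hp.to_quotient Z) (by omega)
          (fun i => QuotientGroup.mk' Z (ξ i)) (by
            intro i
            rw [hmk, ← map_mul, ← map_inv, ← map_mul, hrel, map_pow])
        have hsurj : Function.Surjective φ' := by
          rw [← MonoidHom.range_eq_top, eq_top_iff]
          have h4 : Subgroup.closure (Set.range fun i => QuotientGroup.mk' Z (ξ i)) = ⊤ := by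
            have h5 : (Set.range fun i => QuotientGroup.mk' Z (ξ i)) =
                (QuotientGroup.mk' Z) '' (Set.range ξ) := by
              rw [← Set.range_comp]
              rfl
            rw [h5, ← MonoidHom.map_closure, htop, ← MonoidHom.range_eq_map]
            exact MonoidHom.range_eq_top.2 (QuotientGroup.mk'_surjective Z)
          rw [← h4, Subgroup.closure_le]
          rintro _ ⟨i, rfl⟩
          exact ⟨κ.x i, h2 i⟩
        obtain ⟨ψ, h4, h5⟩ := κ.lift Q (Q ⧸ Z) (QuotientGroup.mk' Z)
          (QuotientGroup.mk'_surjective Z) (by rw [QuotientGroup.ker_mk']; exact hZc)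
          (by rw [QuotientGroup.ker_mk']; exact hZcard) φ' h1 hsurj ξ
          (fun i => FreeGroup.lift ξ (w i)) (fun i => (h2 i).symm)
          (fun i => by rw [h3, hmk]) hrel
        -- the corrections
        have h6 : ∀ i, (ψ (κ.x i))⁻¹ * ξ i ∈ Z := by
          intro i
          rw [← QuotientGroup.ker_mk' Z, MonoidHom.mem_ker, map_mul, map_inv]
          have h7 : QuotientGroup.mk' Z (ψ (κ.x i)) = φ' (κ.x i) := DFunLike.congr_fun h5 (κ.x i)
          rw [h7, h2, inv_mul_cancel]
        have h7 : ∀ i, ∃ f : Multiplicative (ZMod p) →* Subgroup.center Q,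
            (f (Multiplicative.ofAdd 1) : Q) = (ψ (κ.x i))⁻¹ * ξ i := by
          intro i
          obtain ⟨f, hf, -⟩ := P20_hom p (⟨(ψ (κ.x i))⁻¹ * ξ i, hZc (h6 i)⟩ : Subgroup.center Q) (by
            apply Subtype.ext
            show ((ψ (κ.x i))⁻¹ * ξ i) ^ p = 1
            obtain ⟨k, hk⟩ := h6 i
            have hk' : (ψ (κ.x i))⁻¹ * ξ i = z ^ k := hk.symm
            rw [hk', ← zpow_natCast, ← zpow_mul, mul_comm, zpow_mul, zpow_natCast, ← hzo,
              pow_orderOf_eq_one, one_zpow])
          exact ⟨f, congrArg Subtype.val hf⟩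
        choose f hf using h7
        let η : G →* Subgroup.center Q := ∏ j, (f j).comp (κ.χ j)
        have hη : ∀ g, η g = ∏ j, f j (κ.χ j g) := by
          intro g
          show (∏ j, (f j).comp (κ.χ j)) g = _
          rw [MonoidHom.finset_prod_apply]
          rfl
        have hηx : ∀ i, (η (κ.x i) : Q) = (ψ (κ.x i))⁻¹ * ξ i := by
          intro i
          rw [hη, Finset.prod_eq_single i]
          · rw [κ.dual, if_pos rfl, hf]
          · intro j _ hj
            rw [κ.dual, if_neg hj.symm, ofAdd_zero, map_one]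
          · intro h
            exact absurd (Finset.mem_univ i) h
        let φ : G →* Q :=
          { toFun := fun g => ψ g * (η g : Q)
            map_one' := by simp
            map_mul' := fun a b => by
              rw [map_mul, map_mul, Subgroup.coe_mul]
              have h8 := Subgroup.mem_center_iff.1 (η a).2 (ψ b)
              rw [mul_assoc (ψ a) (ψ b), ← mul_assoc (ψ b), h8]
              simp only [mul_assoc] }
        have hφ : ∀ g, φ g = ψ g * (η g : Q) := fun g => rfl
        have hopen : IsOpen (φ.ker : Set G) := by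
          have h8 : IsOpen ((ψ.ker ⊓ ⨅ j, (κ.χ j).ker : Subgroup G) : Set G) := by
            rw [Subgroup.coe_inf, Subgroup.coe_iInf]
            exact h4.inter (isOpen_iInter_of_finite fun j => κ.cont j)
          refine Subgroup.isOpen_mono ?_ h8
          intro g hg
          rw [Subgroup.mem_inf, Subgroup.mem_iInf] at hg
          have h9 : η g = 1 := by
            rw [hη]
            refine Finset.prod_eq_one fun j _ => ?_
            rw [MonoidHom.mem_ker.1 (hg.2 j), map_one]
          rw [MonoidHom.mem_ker, hφ, h9, MonoidHom.mem_ker.1 hg.1]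
          simp
        have hφx : ∀ i, φ (κ.x i) = ξ i := by
          intro i
          rw [hφ, hηx, mul_inv_cancel_left]
        exact ⟨φ, hopen, hφx, hval Q hN φ hopen ξ hφx⟩
      · rw [not_nontrivial_iff_subsingleton] at hnt
        refine ⟨1, ?_, fun i => Subsingleton.elim _ _, fun i => Subsingleton.elim _ _⟩
        rw [MonoidHom.ker_one]
        exact isOpen_univ
    · have hlt : Nat.card (Subgroup.closure (Set.range ξ)) < Nat.card Q := by
        refine lt_of_le_of_ne ?_ fun h => htop (Subgroup.eq_top_of_card_eq _ h)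
        exact Nat.card_le_card_of_injective _ (Subgroup.closure (Set.range ξ)).subtype_injective
      have hsub : ∀ i, ((FreeGroup.lift (fun i => (⟨ξ i, Subgroup.subset_closure ⟨i, rfl⟩⟩ :
          Subgroup.closure (Set.range ξ))) (w i) : Subgroup.closure (Set.range ξ)) : Q) =
          FreeGroup.lift ξ (w i) := fun i =>
        P20_lift_comp (Subgroup.closure (Set.range ξ)).subtype _ _
      obtain ⟨φ', h1, h2, h3⟩ := ih (Subgroup.closure (Set.range ξ)) (by omega)
        (hp.to_subgroup _) (by omega) (fun i => ⟨ξ i, Subgroup.subset_closure ⟨i, rfl⟩⟩) (by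
          intro i
          apply Subtype.ext
          rw [Subgroup.coe_mul, Subgroup.coe_mul, Subgroup.coe_inv, Subgroup.coe_pow, hsub]
          exact hrel i)
      have h4 : ((Subgroup.closure (Set.range ξ)).subtype.comp φ').ker = φ'.ker := by
        ext g
        rw [MonoidHom.mem_ker, MonoidHom.mem_ker]
        exact ⟨fun h => Subtype.ext h, fun h => congrArg Subtype.val h⟩
      refine ⟨(Subgroup.closure (Set.range ξ)).subtype.comp φ', ?_, fun i => ?_, fun i => ?_⟩
      · rw [h4]
        exact h1
      · exact congrArg Subtype.val (h2 i)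
      · rw [← hsub]
        exact congrArg Subtype.val (h3 i)

theorem P20_words (p m : ℕ) [Fact p.Prime] [NeZero m]
    (G : Type) [Group G] [TopologicalSpace G] [IsTopologicalGroup G] (κ : Koch p m G) (N : ℕ) :
    ∃ w : Idx m → FreeGroup (Idx m), (∀ i j, ex p j (w i) = κ.χ j (κ.y i)) ∧
      ∀ (Q : Type) [Group Q] [Finite Q], IsPGroup p Q → Nat.card Q ≤ N → ∀ ξ : Idx m → Q,
        (∀ i, FreeGroup.lift ξ (w i) * ξ i * (FreeGroup.lift ξ (w i))⁻¹ = ξ i ^ κ.q i) →
        ∃ φ : G →* Q, IsOpen (φ.ker : Set G) ∧ (∀ i, φ (κ.x i) = ξ i) ∧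
          ∀ i, φ (κ.y i) = FreeGroup.lift ξ (w i) := by
  obtain ⟨U₀, hU₀, hU⟩ := P18_common m G κ.x κ.gen N
  have hopen : IsOpen ((U₀ ⊓ ⨅ j, (κ.χ j).ker : Subgroup G) : Set G) := by
    rw [Subgroup.coe_inf, Subgroup.coe_iInf]
    exact hU₀.inter (isOpen_iInter_of_finite fun j => κ.cont j)
  choose w hw using fun i => P19_dense m G κ.x κ.gen _ hopen (κ.y i)
  refine ⟨w, fun i j => ?_, fun Q _ _ hp hQ ξ hrel => ?_⟩
  · have h1 : κ.χ j ((FreeGroup.lift κ.x (w i))⁻¹ * κ.y i) = 1 :=
      MonoidHom.mem_ker.1 (Subgroup.mem_iInf.1 (hw i).2 j)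
    rw [map_mul, map_inv, inv_mul_eq_one] at h1
    rw [← h1]
    have h2 : (κ.χ j).comp (FreeGroup.lift κ.x) = ex p j := by
      apply FreeGroup.ext_hom
      intro k
      show κ.χ j (FreeGroup.lift κ.x (FreeGroup.of k)) = ex p j (FreeGroup.of k)
      rw [FreeGroup.lift_apply_of, κ.dual]
      unfold ex
      rw [FreeGroup.lift_apply_of]
    exact (DFunLike.congr_fun h2 (w i)).symm
  · exact P20_exists κ hU (fun i => (hw i).1) (Nat.card Q) Q le_rfl hp hQ ξ hrel

end Pool.Agent.RG
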