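import Mathlib
import Pool.Agent.Lib.RG.P08
import Pool.Agent.Lib.RG.P12
import Pool.Agent.Lib.RG.P13
import Pool.Agent.Lib.RG.P15
import Pool.Agent.Lib.RG.P16
import Pool.Agent.Lib.RG.P17
import Pool.Agent.Lib.RG.P20

/-!
PART P, export: rank gradient zero for profinite groups with a presentation of Koch type with cyclic
leading linking pattern.
-/

set_option autoImplicit false

namespace Pool.Agent.RG

open scoped Classical

/-- the finite quotient of depth `n` and the bound for the number of generators of its kernel -/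
theorem koch_level (p m : ℕ) [Fact p.Prime] (hp : p ≠ 2) [NeZero m] (hm : 2 ≤ m)
    (G : Type) [Group G] [TopologicalSpace G] [IsTopologicalGroup G] [CompactSpace G] [T2Space G]
    [TotallyDisconnectedSpace G]
    (hG : ∀ U : Subgroup G, U.Normal → IsOpen (U : Set G) → ∃ k, U.index = p ^ k)
    (κ : Koch p m G) (n : ℕ) (hn : 0 < n) :
    ∃ (U : Subgroup G) (r : ℕ), IsOpen (U : Set G) ∧ GenBy U r ∧ n < 3 * U.index ∧
      n * (r - 1) ≤ 3 * (2 * m - 1) * U.index := by
  obtain ⟨w, hw, hQ⟩ := P20_words p m G κ (Nbd p m n)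
  obtain ⟨Q, _, _, ξ, D, hpQ, hcard, hgen, hrel, hD, hD2, hex⟩ :=
    P08_series p hp hm w κ.q κ.hq (fun i => by rw [hw]; exact κ.self i)
      (fun r j hj => by rw [hw]; exact κ.linkA r j hj) (fun r t => by rw [hw]; exact κ.linkS r t) n
  obtain ⟨φ, hφ, hφx, hφy⟩ := hQ Q hpQ hcard ξ hrel
  have hs : Function.Surjective φ := by
    rw [← MonoidHom.range_eq_top, eq_top_iff, ← hgen, Subgroup.closure_le]
    rintro _ ⟨i, rfl⟩
    exact ⟨κ.x i, hφx i⟩
  have hidx : φ.ker.index = Nat.card Q := by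
    rw [Subgroup.index_ker, MonoidHom.range_eq_top.mpr hs]
    exact Nat.card_congr Subgroup.topEquiv.toEquiv
  obtain ⟨W, hW⟩ := P09_bot p n D hD
  have hwt : ∀ i : Idx m, 0 < wt i := by
    intro i
    rcases i with i | i <;> simp [wt]
  have hwt3 : ∀ i : Idx m, wt i ≤ 3 := by
    intro i
    rcases i with i | i <;> simp [wt]
  have hcQ : 0 < Nat.card Q := Nat.card_pos
  -- the bound for the kernels
  have hB : ∀ (i : Idx m) (W' : ℕ), ∑ k ∈ Finset.range W',
      (Module.finrank (ZMod p) (Ef p D k ⊓ (Ef p D ((k : ℤ) + wt i + 1)).comap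
        (LinearMap.mulLeft (ZMod p) (dl p (ξ i))) : Submodule (ZMod p) (GA p Q)) -
        Module.finrank (ZMod p) (Ef p D ((k : ℤ) + 1))) ≤ 3 * Nat.card Q / n := by
    intro i W'
    have h1 := P12_kernel p n D hD (wt i) (hwt i) (ξ i) (hex i) W'
    have h2 := P12_order p n D hD (wt i) (hwt i) (ξ i) (hex i)
    rw [Nat.le_div_iff_mul_le hn]
    set A := ∑ k ∈ Finset.range W', (Module.finrank (ZMod p) (Kr p D (ξ i) (wt i) k) -
      Module.finrank (ZMod p) (Ef p D ((k : ℤ) + 1)))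
    change A * n ≤ _
    calc A * n ≤ A * (wt i * orderOf (ξ i)) := Nat.mul_le_mul_left _ h2.le
      _ = wt i * (A * orderOf (ξ i)) := by ring
      _ ≤ 3 * Nat.card Q := Nat.mul_le_mul (hwt3 i) h1
  have h13 := P13_linalg hm (ZMod p) (GA p Q) (Ef p D) W (fun a b h => P09_anti p D h)
    (fun a h => P09_top p n D hD a h) hW (fun i => LinearMap.mulLeft (ZMod p) (dl p (ξ i)))
    (fun i a v hv => by
      have h1 := P09_mul p D _ _ _ _ (P09_dl p D (wt i) (ξ i) (hex i).1) hv
      rw [add_comm] at h1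
      exact h1) (3 * Nat.card Q / n) hB (Derv p κ.x φ)
    (fun v hv t ht i => by
      obtain ⟨δ, h1, h2, h3⟩ := hv
      have h4 := P15_relation p m hp hm G κ n D hD hD2 φ hφ δ h1 h2
        (fun i => by rw [hφx]; exact (hex i).1) t (fun i => by rw [h3]; exact ht i) i
      rw [hφx, hφx, h3, h3] at h4
      exact h4)
  have hfr : Module.finrank (ZMod p) (GA p Q) = Nat.card Q := by
    rw [Module.finrank_eq_nat_card_basis (MonoidAlgebra.basis Q (ZMod p))]
  rw [hfr] at h13
  refine ⟨φ.ker, 1 + (2 * m - 1) * (3 * Nat.card Q / n), hφ, ?_, ?_, ?_⟩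
  · refine P17_burnside p G hG φ.ker hφ _ fun k f hf => ?_
    have h1 := P16_shapiro p m G κ.x κ.gen φ hφ hs k f hf
    omega
  · rw [hidx]
    -- the order of `ξ i` is at most the order of `Q`
    have i0 : Idx m := Sum.inl 0
    have h1 := P12_order p n D hD (wt i0) (hwt i0) (ξ i0) (hex i0)
    have h2 : orderOf (ξ i0) ≤ Nat.card Q := Nat.le_of_dvd hcQ (orderOf_dvd_natCard _)
    calc n < wt i0 * orderOf (ξ i0) := h1
      _ ≤ 3 * Nat.card Q := Nat.mul_le_mul (hwt3 i0) h2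
  · rw [hidx, Nat.add_sub_cancel_left]
    calc n * ((2 * m - 1) * (3 * Nat.card Q / n))
        = (2 * m - 1) * (n * (3 * Nat.card Q / n)) := by ring
      _ ≤ (2 * m - 1) * (3 * Nat.card Q) := Nat.mul_le_mul_left _ (Nat.mul_div_le _ _)
      _ = 3 * (2 * m - 1) * Nat.card Q := by ring

theorem koch_rank_gradient (p m : ℕ) [Fact p.Prime] (hp : p ≠ 2) [NeZero m] (hm : 2 ≤ m)
    (G : Type) [Group G] [TopologicalSpace G] [IsTopologicalGroup G] [CompactSpace G] [T2Space G]
    [TotallyDisconnectedSpace G]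
    (hG : ∀ U : Subgroup G, U.Normal → IsOpen (U : Set G) → ∃ k, U.index = p ^ k)
    (κ : Koch p m G) :
    Infinite G ∧ ∀ ε : ℝ, 0 < ε → ∃ (U : Subgroup G) (n : ℕ), IsOpen (U : Set G) ∧
      GenBy U n ∧ ((n : ℝ) - 1) ≤ ε * U.index := by
  constructor
  · by_contra hinf
    rw [not_infinite_iff_finite] at hinf
    obtain ⟨U, r, -, -, h1, -⟩ := koch_level p m hp hm G hG κ (3 * Nat.card G)
      (Nat.mul_pos (by norm_num) Nat.card_pos)
    have h2 : U.index ≤ Nat.card G := Nat.le_of_dvd Nat.card_pos (Subgroup.index_dvd_card U)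
    omega
  · intro ε hε
    obtain ⟨n, hn⟩ := exists_nat_gt ((3 * (2 * m) : ℝ) / ε)
    have hn0 : 0 < n := by
      have h1 : (0 : ℝ) ≤ (3 * (2 * m) : ℝ) / ε := by positivity
      exact_mod_cast h1.trans_lt hn
    obtain ⟨U, r, hU, hr, h1, h2⟩ := koch_level p m hp hm G hG κ n hn0
    refine ⟨U, r, hU, hr, ?_⟩
    have hn' : (0 : ℝ) < n := by exact_mod_cast hn0
    have h3 : (n : ℝ) * ((r : ℝ) - 1) ≤ 3 * (2 * m) * U.index := by
      have h4 : ((n * (r - 1) : ℕ) : ℝ) ≤ ((3 * (2 * m - 1) * U.index : ℕ) : ℝ) := by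
        exact_mod_cast h2
      push_cast at h4
      have h5 : (r : ℝ) - 1 ≤ ((r - 1 : ℕ) : ℝ) := by
        rcases Nat.eq_zero_or_pos r with h | h
        · simp [h]
        · rw [Nat.cast_sub h]
          simp
      have h6 : ((2 * m - 1 : ℕ) : ℝ) ≤ 2 * m := by
        have : (2 * m - 1 : ℕ) ≤ 2 * m := Nat.sub_le _ _
        exact_mod_cast this
      calc (n : ℝ) * ((r : ℝ) - 1) ≤ n * ((r - 1 : ℕ) : ℝ) :=
            mul_le_mul_of_nonneg_left h5 hn'.le
        _ ≤ 3 * ((2 * m - 1 : ℕ) : ℝ) * U.index := h4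
        _ ≤ 3 * (2 * m) * U.index := by
            have : (0 : ℝ) ≤ U.index := Nat.cast_nonneg _
            nlinarith
    have h7 : 3 * (2 * (m : ℝ)) ≤ ε * n := by
      rw [div_lt_iff₀ hε] at hn
      linarith
    have h8 : (0 : ℝ) ≤ U.index := Nat.cast_nonneg _
    have h9 : (n : ℝ) * ((r : ℝ) - 1) ≤ n * (ε * U.index) := by
      calc (n : ℝ) * ((r : ℝ) - 1) ≤ 3 * (2 * m) * U.index := h3
        _ ≤ (ε * n) * U.index := mul_le_mul_of_nonneg_right h7 h8
        _ = n * (ε * U.index) := by ring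
    exact le_of_mul_le_mul_left h9 hn'

end Pool.Agent.RG
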