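import Mathlib
import Pool.Agent.Lib.RG.Defs
import Pool.Agent.Lib.RG.Pattern
import Pool.Agent.Lib.RG.PMain
import Pool.Agent.Lib.RG.G07
import Pool.Agent.Lib.RG.G08
import Pool.Agent.Lib.RG.G09
import Pool.Agent.Lib.RG.G10
import Pool.Agent.Lib.RG.G11
import Pool.Agent.Lib.RG.G12

/-!
PART G, row G13: the Galois group of the maximal extension is of Koch type.
-/

set_option autoImplicit false

namespace Pool.Agent.RG

open NumberField IsDedekindDomain

open Classical in
/-- the set of the primes -/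
noncomputable def primeSet {m : ℕ} (a s : Fin m → ℕ) : Finset ℕ :=
  Finset.image a Finset.univ ∪ Finset.image s Finset.univ

theorem G13_mem {m : ℕ} {a s : Fin m → ℕ} {r : ℕ} :
    r ∈ primeSet a s ↔ ∃ i : Fin m ⊕ Fin m, Sum.elim a s i = r := by
  classical
  unfold primeSet
  rw [Finset.mem_union, Finset.mem_image, Finset.mem_image]
  constructor
  · rintro (⟨i, -, rfl⟩ | ⟨i, -, rfl⟩)
    · exact ⟨Sum.inl i, rfl⟩
    · exact ⟨Sum.inr i, rfl⟩
  · rintro ⟨i | i, rfl⟩
    · exact Or.inl ⟨i, Finset.mem_univ _, rfl⟩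
    · exact Or.inr ⟨i, Finset.mem_univ _, rfl⟩

theorem exists_koch {p m : ℕ} [Fact p.Prime] (hp : p ≠ 2) [NeZero m] {a s : Fin m → ℕ}
    (h : Pattern p m a s) {K : Type} [Field K] [CharZero K] (hK : MaxExt p (primeSet a s) K) :
    Nonempty (Koch p m (K ≃ₐ[ℚ] K)) := by
  have hp2 : 1 < p := (Fact.out : p.Prime).one_lt
  let q : Idx m → ℕ := Sum.elim a s
  have hq : ∀ i, (q i).Prime ∧ q i % p = 1 := by
    rintro (i | i)
    · exact h.pa i
    · exact h.ps i
  have hqp : ∀ i, q i ≠ p := fun i hi => by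
    have := (hq i).2
    rw [hi, Nat.mod_self] at this
    omega
  have hqS : ∀ i, q i ∈ primeSet a s := fun i => G13_mem.2 ⟨i, rfl⟩
  have hS : ∀ r ∈ primeSet a s, r.Prime ∧ r % p = 1 := by
    intro r hr
    obtain ⟨i, rfl⟩ := G13_mem.1 hr
    exact hq i
  have hqi : ∀ r ∈ primeSet a s, ∃ i, q i = r := fun r hr => G13_mem.1 hr
  have hne : ∀ i j, i ≠ j → q i ≠ q j := fun i j hij he => hij (h.inj he)
  choose x y₀ hxy₀ htame₀ using fun i => exists_inFr hK (hq i).1 (hqp i)
  choose χ hopen hχ1 hχ2 using fun i =>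
    exists_character hK (hq i).1 (hq i).2 (hqS i) (hxy₀ i)
  let c : Idx m → ℕ := fun i => (-(Multiplicative.toAdd (χ i (y₀ i)))).val
  let y : Idx m → (K ≃ₐ[ℚ] K) := fun i => y₀ i * x i ^ c i
  have hxy : ∀ i, InFr (q i) (x i) (y i) := fun i => (hxy₀ i).mul_pow (c i)
  have hself : ∀ i, χ i (y i) = 1 := by
    intro i
    change χ i (y₀ i * x i ^ c i) = 1
    rw [map_mul, map_pow, hχ1]
    apply Multiplicative.toAdd.injective
    rw [toAdd_mul, toAdd_pow, toAdd_ofAdd, toAdd_one, nsmul_eq_mul, mul_one, ZMod.natCast_val,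
      ZMod.cast_id, add_neg_cancel]
  have hlink : ∀ i j, i ≠ j → (χ j (y i) ≠ 1 ↔ ¬ PP p (q i) (q j)) := fun i j hij =>
    not_congr (hχ2 j (q i) (x i) (y i) (hq i).1 (hne i j hij) (hxy i)).2
  refine ⟨Koch.mk x y q χ hopen ?_ (fun i => (hq i).2) ?_ ?_ hself ?_ ?_ ?_⟩
  · exact closure_inertia hK (fun r hr => (hS r hr).1) q hqi x y hxy
  · intro i
    change y₀ i * x i ^ c i * x i * (y₀ i * x i ^ c i)⁻¹ = x i ^ q i
    rw [← htame₀ i]
    group
  · intro i j
    by_cases hij : i = j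
    · subst hij
      rw [if_pos rfl]
      exact hχ1 i
    · rw [if_neg hij, ofAdd_zero]
      exact (hχ2 j (q i) (x i) (y i) (hq i).1 (hne i j hij) (hxy i)).1
  · rintro r (t | t) hj
    · rw [hlink _ _ (Ne.symm hj)]
      have hrt : r ≠ t := fun e => hj (by rw [e])
      constructor
      · intro hn
        exact absurd (h.aa r t hrt) hn
      · intro hn
        simp [nx] at hn
    · rw [hlink _ _ (Ne.symm hj)]
      change ¬ PP p (a r) (s t) ↔ _
      rw [h.as r t]
      simp [nx]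
  · intro r t
    rw [hlink _ _ (by simp)]
    change ¬ PP p (s r) (a t) ↔ _
    rw [h.sa r t]
    simp
  · intro E H _ _ _ _ π hπ hker hcard φ hφ hφs ex ey hx hy hr
    exact lift_property hp hS hK q hqi x y hxy E H π hπ hker hcard φ hφ hφs ex ey hx hy hr

end Pool.Agent.RG
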