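import Mathlib
import Pool.Agent.Lib.RG.Defs
import Pool.Agent.Lib.RG.Pattern
import Pool.Agent.Lib.RG.PMain
import Pool.Agent.Lib.RG.G07
import Pool.Agent.Lib.RG.G08
import Pool.Agent.Lib.RG.G13

/-!
PART G, row G14: the rank gradient; final theorem for a given pattern.
-/

set_option autoImplicit false

namespace Pool.Agent.RG

open NumberField IsDedekindDomain

/-- The rank gradient of a profinite group `G`: the infimum of `(n - 1) / [G : U]` over the open
subgroups `U` and the numbers `n` such that `U` can be topologically generated by `n` elements. -/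
noncomputable def rankGradient (G : Type) [Group G] [TopologicalSpace G]
    [IsTopologicalGroup G] : ℝ :=
  sInf {r : ℝ | ∃ (U : Subgroup G) (n : ℕ), IsOpen (U : Set G) ∧ GenBy U n ∧
    r = ((n : ℝ) - 1) / U.index}

theorem G14_index_pos {G : Type} [Group G] [TopologicalSpace G] [IsTopologicalGroup G]
    [CompactSpace G] (U : Subgroup G) (hU : IsOpen (U : Set G)) : 0 < U.index := by
  have h1 : Finite (G ⧸ U) := Subgroup.quotient_finite_of_isOpen U hU
  exact Nat.pos_of_ne_zero (Subgroup.index_ne_zero_of_finite)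

theorem G14_pos {G : Type} [Group G] [TopologicalSpace G] [IsTopologicalGroup G]
    [CompactSpace G] [T2Space G] (hG : Infinite G) (U : Subgroup G) (hU : IsOpen (U : Set G))
    {n : ℕ} (hn : GenBy U n) : 1 ≤ n := by
  by_contra h0
  have h1 : n = 0 := by omega
  subst h1
  obtain ⟨T, hT, hTU⟩ := hn
  have h2 : T = ∅ := Finset.card_eq_zero.1 (Nat.le_zero.1 hT)
  subst h2
  have h3 : U = ⊥ := by
    rw [← hTU]
    apply SetLike.coe_injective
    rw [Subgroup.topologicalClosure_coe]
    simp
  subst h3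
  have h4 : Finite (G ⧸ (⊥ : Subgroup G)) := Subgroup.quotient_finite_of_isOpen _ hU
  have h5 : Finite G := Finite.of_equiv _ QuotientGroup.quotientBot.toEquiv
  exact not_finite G

theorem rankGradient_eq_zero {G : Type} [Group G] [TopologicalSpace G] [IsTopologicalGroup G]
    [CompactSpace G] [T2Space G] (hG : Infinite G)
    (h : ∀ ε : ℝ, 0 < ε → ∃ (U : Subgroup G) (n : ℕ), IsOpen (U : Set G) ∧
      GenBy U n ∧ ((n : ℝ) - 1) ≤ ε * U.index) : rankGradient G = 0 := by
  have hnn : ∀ r ∈ {r : ℝ | ∃ (U : Subgroup G) (n : ℕ), IsOpen (U : Set G) ∧ GenBy U n ∧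
      r = ((n : ℝ) - 1) / U.index}, 0 ≤ r := by
    rintro r ⟨U, n, hU, hn, rfl⟩
    have h1 : (1 : ℝ) ≤ n := by exact_mod_cast G14_pos hG U hU hn
    exact div_nonneg (by linarith) (Nat.cast_nonneg _)
  apply le_antisymm
  · refine le_of_forall_pos_le_add fun ε hε => ?_
    obtain ⟨U, n, hU, hn, hle⟩ := h ε hε
    have h2 : (0 : ℝ) < U.index := by exact_mod_cast G14_index_pos U hU
    refine (csInf_le ⟨0, hnn⟩ ⟨U, n, hU, hn, rfl⟩).trans ?_
    rw [zero_add, div_le_iff₀ h2]
    exact hle
  · obtain ⟨U, n, hU, hn, hle⟩ := h 1 one_pos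
    exact le_csInf ⟨_, U, n, hU, hn, rfl⟩ hnn

/-- The Galois group of the maximal `p`-extension of `ℚ` unramified outside a set of primes with
cyclic linking pattern is infinite and has rank gradient zero. -/
theorem rank_gradient_pattern {p m : ℕ} [Fact p.Prime] (hp : p ≠ 2) [NeZero m] (hm : 2 ≤ m)
    {a s : Fin m → ℕ} (h : Pattern p m a s) :
    Infinite (KS p (primeSet a s) ≃ₐ[ℚ] KS p (primeSet a s)) ∧
      rankGradient (KS p (primeSet a s) ≃ₐ[ℚ] KS p (primeSet a s)) = 0 := by
  have hK := maxExt_KS p (primeSet a s)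
  have := hK.gal
  obtain ⟨κ⟩ := exists_koch hp h hK
  have h1 := koch_rank_gradient p m hp hm (KS p (primeSet a s) ≃ₐ[ℚ] KS p (primeSet a s))
    (fun U hN hU => hK.pro_p U hN hU) κ
  exact ⟨h1.1, rankGradient_eq_zero h1.1 h1.2⟩

end Pool.Agent.RG
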