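import Mathlib
import Pool.Agent.Lib.RG.Defs
import Pool.Agent.Lib.RG.Pattern
import Pool.Agent.Lib.RG.G01
import Pool.Agent.Lib.RG.G02
import Pool.Agent.Lib.RG.G03
import Pool.Agent.Lib.RG.G06

/-!
RG v2, row GX1: the cyclic field of degree `p` and conductor `q` with the exact value of the
Frobenius elements.

Proof: copy `exists_cyclic_field` (G06). `M`, `θ : Gal(M/ℚ) ≃* (ZMod q)ˣ` from `cyclotomic_facts`,
`H := (lam.comp θ).ker`, `F := fixedField H`, `Gal(F/ℚ) ≃* Gal(M/ℚ) ⧸ H ≃* Multiplicative (ZMod p)`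
(`QuotientGroup.quotientKerEquivOfSurjective`, `IsGalois.normalAutEquivQuotient` or by hand with
`restrictNormalHom`, whose kernel is `F.fixingSubgroup = H`). For a Frobenius `σ` of `F` at a prime
above `ℓ` take a Frobenius `σ₂` of `M` at a prime above it; its restriction differs from `σ` by an
inertia element, which is trivial; `θ σ₂ = ℓ`.
-/

set_option autoImplicit false

namespace Pool.Agent.RG

open NumberField IsDedekindDomain

theorem exists_cyclic_field_val {p q : ℕ} [Fact p.Prime] (hq : q.Prime)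
    (lam : (ZMod q)ˣ →* Multiplicative (ZMod p)) (hlam : Function.Surjective lam) :
    ∃ (F : Type) (_ : Field F) (_ : NumberField F) (_ : IsGalois ℚ F)
      (θ : (F ≃ₐ[ℚ] F) ≃* Multiplicative (ZMod p)), UnrOutside {q} F ∧
      (∀ w : HeightOneSpectrum (𝓞 F), Above w q → ∀ σ : F ≃ₐ[ℚ] F, IsInert w σ) ∧
      (∀ ℓ : ℕ, ℓ.Prime → ℓ ≠ q → ∀ w : HeightOneSpectrum (𝓞 F), Above w ℓ →
        ∀ σ : F ≃ₐ[ℚ] F, IsFrob w ℓ σ → ∀ u : (ZMod q)ˣ, (u : ZMod q) = ℓ → θ σ = lam u) := by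
  have : Fact q.Prime := ⟨hq⟩
  obtain ⟨M, _, _, _, θ, hun, hin, hfr⟩ := cyclotomic_facts hq
  -- the subgroup
  set f : (M ≃ₐ[ℚ] M) →* Multiplicative (ZMod p) := lam.comp θ.toMonoidHom with hf
  have hfs : Function.Surjective f := hlam.comp θ.surjective
  set H : Subgroup (M ≃ₐ[ℚ] M) := f.ker with hH
  have hHn : H.Normal := f.normal_ker
  set F : IntermediateField ℚ M := IntermediateField.fixedField H with hF
  have hFix : F.fixingSubgroup = H := IntermediateField.fixingSubgroup_fixedField H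
  have hFn : F.fixingSubgroup.Normal := by rw [hFix]; exact hHn
  have : IsGalois ℚ F := IsGalois.of_fixedField_normal_subgroup H
  set res : (M ≃ₐ[ℚ] M) →* (F ≃ₐ[ℚ] F) := AlgEquiv.restrictNormalHom F with hres
  have hress : Function.Surjective res := AlgEquiv.restrictNormalHom_surjective M
  have hresc : ∀ (σ : M ≃ₐ[ℚ] M) (x : F), σ (F.val x) = F.val (res σ x) := fun σ x =>
    (AlgEquiv.restrictNormal_commutes σ F x).symm
  have hker : res.ker = H := by
    rw [← hFix]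
    ext σ
    rw [MonoidHom.mem_ker, IntermediateField.mem_fixingSubgroup_iff]
    constructor
    · intro h5 x hx
      have := hresc σ ⟨x, hx⟩
      rw [h5] at this
      exact this
    · intro h5
      ext x
      have := hresc σ x
      exact this.symm.trans (h5 _ x.2)
  -- the isomorphism
  let e1 : (M ≃ₐ[ℚ] M) ⧸ res.ker ≃* (F ≃ₐ[ℚ] F) :=
    QuotientGroup.quotientKerEquivOfSurjective res hress
  let e2 : (M ≃ₐ[ℚ] M) ⧸ f.ker ≃* Multiplicative (ZMod p) :=
    QuotientGroup.quotientKerEquivOfSurjective f hfs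
  let e3 : (M ≃ₐ[ℚ] M) ⧸ res.ker ≃* (M ≃ₐ[ℚ] M) ⧸ f.ker :=
    QuotientGroup.quotientMulEquivOfEq hker
  let θ' : (F ≃ₐ[ℚ] F) ≃* Multiplicative (ZMod p) := e1.symm.trans (e3.trans e2)
  have hval : ∀ σ : M ≃ₐ[ℚ] M, θ' (res σ) = lam (θ σ) := by
    intro σ
    have h1 : e1.symm (res σ) = (QuotientGroup.mk σ : (M ≃ₐ[ℚ] M) ⧸ res.ker) := by
      rw [MulEquiv.symm_apply_eq]
      rfl
    change e2 (e3 (e1.symm (res σ))) = _
    rw [h1]
    rfl
  have hunF : UnrOutside {q} F := UnrOutside.sub (F.val : F →+* M) hun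
  refine ⟨F, inferInstance, inferInstance, inferInstance, θ', hunF, ?_, ?_⟩
  · intro w₁ hw₁ σ₁
    obtain ⟨w₂, hw₂⟩ := exists_above (F.val : F →+* M) w₁
    obtain ⟨σ₂, rfl⟩ := hress σ₁
    exact IsInert.restrict hw₂ (hresc σ₂) (hin w₂ ((hw₂.above_iff q).2 hw₁) σ₂)
  · intro l hl hlq w₁ hw₁ σ₁ hσ₁ u hu
    obtain ⟨w₂, hw₂⟩ := exists_above (F.val : F →+* M) w₁
    have hw₂l : Above w₂ l := (hw₂.above_iff l).2 hw₁
    obtain ⟨σ₂, hσ₂⟩ := exists_frob hl hw₂l
    have h1 : IsFrob w₁ l (res σ₂) := IsFrob.restrict hw₂ (hresc σ₂) hσ₂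
    have h2 : (res σ₂)⁻¹ * σ₁ = 1 := by
      refine hunF w₁ ?_ _ (h1.inv_mul hσ₁)
      intro q' hq' h3
      rw [Finset.mem_singleton] at hq'
      subst hq'
      exact hlq (Above.unique hl hq hw₁ h3)
    have h3 : σ₁ = res σ₂ := (inv_mul_eq_one.1 h2).symm
    have h5 := hfr l hl hlq w₂ hw₂l σ₂ hσ₂
    have h6 : θ σ₂ = u := Units.ext (h5.trans hu.symm)
    rw [h3, hval, h6]

end Pool.Agent.RG
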