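import Mathlib
import Pool.Agent.Lib.RG.Defs
import Pool.Agent.Lib.RG.Pattern
import Pool.Agent.Lib.RG.G01
import Pool.Agent.Lib.RG.G02
import Pool.Agent.Lib.RG.G03
import Pool.Agent.Lib.RG.G07
import Pool.Agent.Lib.RG.G08
import Pool.Agent.Lib.RG.G09
import Pool.Agent.Lib.RG.G11
import Pool.Agent.Lib.RG.GX1

/-!
RG v2, row GX2: the character of order `p` of conductor `q` with exact values.

Proof: as `exists_character` in G11 (use `G11_transport` and `exists_restrict`), `χ := θ ∘ r`.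
`χ x ≠ 1` for an inertia generator `x` at `q`: all elements of `Gal(F/ℚ)` are inert at the primes
above `q`, so `r x` generates the group of order `p`.
-/

set_option autoImplicit false

namespace Pool.Agent.RG

open NumberField IsDedekindDomain

theorem exists_character_val {p : ℕ} [Fact p.Prime] {S : Finset ℕ} {K : Type} [Field K]
    [CharZero K] (hK : MaxExt p S K) {q : ℕ} (hq : q.Prime) (hqS : q ∈ S)
    (lam : (ZMod q)ˣ →* Multiplicative (ZMod p)) (hlam : Function.Surjective lam) :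
    ∃ χ : (K ≃ₐ[ℚ] K) →* Multiplicative (ZMod p), IsOpen (χ.ker : Set (K ≃ₐ[ℚ] K)) ∧
      (∀ x y : K ≃ₐ[ℚ] K, InFr q x y → χ x ≠ 1) ∧
      ∀ (ℓ : ℕ) (x' y' : K ≃ₐ[ℚ] K), ℓ.Prime → ℓ ≠ q → InFr ℓ x' y' →
        χ x' = 1 ∧ ∀ u : (ZMod q)ˣ, (u : ZMod q) = ℓ → χ y' = lam u := by
  have hgal := hK.gal
  obtain ⟨F, hF0, hF1, hF2, θ, hunr, hram, hfrob⟩ := exists_cyclic_field_val (p := p) hq lam hlam
  have hcard : Nat.card (F ≃ₐ[ℚ] F) = p := by
    rw [Nat.card_congr θ.toEquiv]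
    change Nat.card (ZMod p) = p
    rw [Nat.card_zmod]
  have hdeg : Module.finrank ℚ F = p := by rw [← IsGalois.card_aut_eq_finrank]; exact hcard
  obtain ⟨e⟩ := hK.max F ⟨1, by rw [hdeg, pow_one]⟩
    (hunr.mono (Finset.singleton_subset_iff.2 hqS))
  obtain ⟨r, hr1, hr2, hr3⟩ := exists_restrict e
  refine ⟨θ.toMonoidHom.comp r, ?_, ?_, ?_⟩
  · refine Subgroup.isOpen_mono (H₁ := r.ker) ?_ hr1
    intro g hg
    rw [MonoidHom.mem_ker] at hg ⊢
    rw [MonoidHom.comp_apply, hg, map_one]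
  · intro x y hxy hx
    obtain ⟨w, hw1, hw2, -⟩ := G11_transport e hr3 hxy
    have h1 : r x = 1 := (map_eq_one_iff θ θ.injective).1 hx
    have h2 : ∀ a : F ≃ₐ[ℚ] F, a = 1 := fun a => by
      have h3 := (hw2 a).1 (hram w hw1 a)
      rw [h1] at h3
      obtain ⟨n, hn⟩ := Subgroup.mem_zpowers_iff.1 h3
      rw [← hn, one_zpow]
    have h3 : Subsingleton (F ≃ₐ[ℚ] F) := ⟨fun a b => by rw [h2 a, h2 b]⟩
    have h4 : Nat.card (F ≃ₐ[ℚ] F) ≤ 1 := Finite.card_le_one_iff_subsingleton.2 h3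
    have h5 := (Fact.out : p.Prime).one_lt
    omega
  · intro ℓ x' y' hℓ hne h'
    obtain ⟨w', hw1', hw2', hw3'⟩ := G11_transport e hr3 h'
    have h1 : r x' = 1 := by
      refine hunr w' ?_ _ ((hw2' _).2 (Subgroup.mem_zpowers _))
      intro t ht hab
      rw [Finset.mem_singleton] at ht
      subst ht
      exact hne (Above.unique hℓ hq hw1' hab)
    refine ⟨?_, ?_⟩
    · change θ (r x') = 1
      rw [h1, map_one]
    · intro u hu
      change θ (r y') = lam u
      exact hfrob ℓ hℓ hne w' hw1' _ hw3' u hu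

end Pool.Agent.RG
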