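import Mathlib
import Pool.Agent.Lib.RG.PDefs

/-!
PART Q, definitions: profinite groups with a presentation of Koch type whose relations have, after a
linear change of the generators and of the relations, leading terms `[z_s, z_t]` for the edges
`(s, t)` of a connected bipartite graph. General letters `α`, weights, edges `ε`, relations `κ`.
-/

set_option autoImplicit false

namespace Pool.Agent.RG.Q

open scoped Classical

/-- weights of the letters and edges `(s k, t k)` -/
structure LD (α ε : Type) where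
  W : ℕ
  wt : α → ℕ
  s : ε → α
  t : ε → α

variable {α ε κ : Type}

/-- two letters joined by an edge -/
def LD.Adj (Λ : LD α ε) (a b : α) : Prop := ∃ k, (a = Λ.s k ∧ b = Λ.t k) ∨ (a = Λ.t k ∧ b = Λ.s k)

/-- The conditions on weights and edges: all weights are in `[W, 3 W / 2)`, the edges are distinct, no
source is a target. -/
structure LD.Ok (Λ : LD α ε) : Prop where
  lo : ∀ a, Λ.W ≤ Λ.wt a
  hi : ∀ a, 2 * Λ.wt a < 3 * Λ.W
  inj : ∀ k l, Λ.s k = Λ.s l → Λ.t k = Λ.t l → k = l
  col : ∀ k l, Λ.s k ≠ Λ.t l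

/-- the graph is connected -/
def LD.Conn (Λ : LD α ε) : Prop := ∀ a b, Relation.ReflTransGen Λ.Adj a b

/-- the weight of a word -/
def wl (Λ : LD α ε) (w : FreeMonoid α) : ℕ := ((FreeMonoid.toList w).map Λ.wt).sum

/-- the free algebra on the letters with its basis of words -/
abbrev FA (F : Type) [Field F] (α : Type) : Type := MonoidAlgebra F (FreeMonoid α)

section algebra

variable {F : Type} [Field F]

/-- a word as an element of the free algebra -/
noncomputable def wd (w : FreeMonoid α) : FA F α := MonoidAlgebra.of F (FreeMonoid α) w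

/-- the letter `a` as an element of the free algebra -/
noncomputable def X (a : α) : FA F α := wd (FreeMonoid.of a)

/-- the span of the words of weight at least `k` -/
noncomputable def Pge (Λ : LD α ε) (F : Type) [Field F] (k : ℤ) : Submodule F (FA F α) :=
  Submodule.span F {x | ∃ w : FreeMonoid α, k ≤ wl Λ w ∧ x = wd w}

/-- The two-sided ideal generated by the `f i` and by the words of weight larger than `k` (it is
defined as a left ideal). -/
noncomputable def J (Λ : LD α ε) (f : ε → FA F α) (k : ℤ) : Ideal (FA F α) :=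
  Ideal.span ({x | ∃ i w, x = f i * wd w} ∪ {x | ∃ w : FreeMonoid α, k < wl Λ w ∧ x = wd w})

/-- The dimension of the algebra modulo `J Λ f k`. -/
noncomputable def bd (Λ : LD α ε) (f : ε → FA F α) (k : ℤ) : ℕ :=
  Module.finrank F (FA F α ⧸ J Λ f k)

/-- The weight of an edge. -/
def LD.we (Λ : LD α ε) (k : ε) : ℕ := Λ.wt (Λ.s k) + Λ.wt (Λ.t k)

/-- The shape of the relations: `f k = l k * (X (s k) * X (t k) - X (t k) * X (s k)) + (larger
weight)`. -/
def Shape (Λ : LD α ε) (l : ε → F) (f : ε → FA F α) : Prop :=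
  ∀ k, l k ≠ 0 ∧
    f k - l k • (X (Λ.s k) * X (Λ.t k) - X (Λ.t k) * X (Λ.s k)) ∈ Pge Λ F (Λ.we k + 1)

end algebra

/-- the pair `(s k, t k)` is forbidden in normal words -/
def Bad (Λ : LD α ε) (a b : α) : Prop := ∃ k, a = Λ.s k ∧ b = Λ.t k

/-- normal words: no two consecutive letters form a bad pair -/
def IsNormalWord (Λ : LD α ε) (w : FreeMonoid α) : Prop :=
  List.IsChain (fun a b : α => ¬ Bad Λ a b) (FreeMonoid.toList w)

/-- the number of normal words of weight at most `k` -/
noncomputable def Hc (Λ : LD α ε) (k : ℤ) : ℕ :=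
  Nat.card {w : FreeMonoid α // IsNormalWord Λ w ∧ (wl Λ w : ℤ) ≤ k}

/-- the exponent sum of the letter `a` in a word of the free group -/
noncomputable def ex (p : ℕ) (a : α) : FreeGroup α →* Multiplicative (ZMod p) :=
  FreeGroup.lift fun b => Multiplicative.ofAdd (if b = a then 1 else 0)

/-- The values on the `x a` of the locally constant derivations `G → V`. -/
def Derv (p : ℕ) {G Q : Type} [Group G] [TopologicalSpace G] [Group Q] (x : α → G)
    (φ : G →* Q) : Submodule (ZMod p) (α → GA p Q) where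
  carrier := {v | ∃ δ : G → GA p Q, IsDer p φ δ ∧ LocConst δ ∧ ∀ i, δ (x i) = v i}
  zero_mem' := ⟨fun _ => 0, fun g h => by simp, ⟨⊤, by simp, fun g _ => rfl⟩, fun i => rfl⟩
  add_mem' := by
    rintro v v' ⟨δ, h1, ⟨N, hN, hN0⟩, h2⟩ ⟨δ', h1', ⟨N', hN', hN0'⟩, h2'⟩
    refine ⟨fun g => δ g + δ' g, fun g h => ?_, ⟨N ⊓ N', hN.inter hN', fun g hg => ?_⟩, fun i => ?_⟩
    · simp only [h1 g h, h1' g h, mul_add]
      abel
    · simp only [hN0 g hg.1, hN0' g hg.2, add_zero]
    · simp only [h2, h2', Pi.add_apply]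
  smul_mem' := by
    rintro c v ⟨δ, h1, ⟨N, hN, hN0⟩, h2⟩
    refine ⟨fun g => c • δ g, fun g h => ?_, ⟨N, hN, fun g hg => ?_⟩, fun i => ?_⟩
    · simp only [h1 g h, smul_add, mul_smul_comm]
    · simp only [hN0 g hg, smul_zero]
    · simp only [h2, Pi.smul_apply]

/-- Data of Koch type on a profinite group `G`: topological generators `z a` with dual characters
`χ a`, and pairs `(x j, y j)` with `y x y⁻¹ = x ^ q` such that every central extension by a group of
order `p` of a finite quotient, to which all these pairs can be lifted, is solvable. -/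
structure KD (p : ℕ) (α κ : Type) (G : Type) [Group G] [TopologicalSpace G]
    [IsTopologicalGroup G] where
  z : α → G
  x : κ → G
  y : κ → G
  q : κ → ℕ
  χ : α → G →* Multiplicative (ZMod p)
  cont : ∀ a, IsOpen ((χ a).ker : Set G)
  gen : (Subgroup.closure (Set.range z)).topologicalClosure = ⊤
  hq : ∀ j, q j % p = 1
  tame : ∀ j, y j * x j * (y j)⁻¹ = x j ^ q j
  dual : ∀ a b, χ b (z a) = Multiplicative.ofAdd (if a = b then 1 else 0)
  lift : ∀ (E H : Type) [Group E] [Finite E] [Group H] [Finite H] (π : E →* H),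
    Function.Surjective π → π.ker ≤ Subgroup.center E → Nat.card π.ker = p →
    ∀ φ : G →* H, IsOpen (φ.ker : Set G) → Function.Surjective φ →
    ∀ ex ey : κ → E, (∀ j, π (ex j) = φ (x j)) → (∀ j, π (ey j) = φ (y j)) →
      (∀ j, ey j * ex j * (ey j)⁻¹ = ex j ^ q j) →
      ∃ ψ : G →* E, IsOpen (ψ.ker : Set G) ∧ π.comp ψ = φ

/-- the quadratic part of the relation `j` with respect to the coordinates `cx`, `cy` of `x j`, `y j`:
coefficient of `z a z b` -/
def qd {p : ℕ} (cx cy : κ → α → ZMod p) (j : κ) (a b : α) : ZMod p :=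
  cy j a * cx j b - cx j a * cy j b

/-- The combinations `∑ j, B k j * (relation j)` of the relations have leading term the edge `k`. -/
structure Lead {p : ℕ} [Fintype κ] [Fintype ε] (Λ : LD α ε) (cx cy : κ → α → ZMod p)
    (B : ε → κ → ZMod p) : Prop where
  ok : Λ.Ok
  inv : ∃ B' : κ → ε → ZMod p, ∀ j l, ∑ k, B' j k * B k l = if j = l then 1 else 0
  lead : ∀ k, ∑ j, B k j * qd cx cy j (Λ.s k) (Λ.t k) ≠ 0
  van : ∀ k a b, Λ.wt a + Λ.wt b ≤ Λ.we k → ¬ (a = Λ.s k ∧ b = Λ.t k) →
    ¬ (a = Λ.t k ∧ b = Λ.s k) → ∑ j, B k j * qd cx cy j a b = 0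

end Pool.Agent.RG.Q
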