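import Mathlib
import Pool.Agent.Lib.RG.Defs
import Pool.Agent.Lib.RG.Pattern
import Pool.Agent.Lib.RG.QDefs
import Pool.Agent.Lib.RG.G10
import Pool.Agent.Lib.RG.G12
import Pool.Agent.Lib.RG.G13
import Pool.Agent.Lib.RG.GX2

/-!
RG v2, row GX3: the Koch data of the Galois group of the maximal `p`-extension of `ℚ` unramified
outside an arbitrary finite set `S` of primes `1 mod p`, with exact linking numbers.

Proof: copy `exists_koch` (G13) with index type `S`, `q i := (i : ℕ)`. `x₀ i, y₀ i` from `exists_inFr`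
(G09), `χ i` from GX2 for `lam i`. Normalise `x`: `c` a natural number prime to `p` with
`χ i (x₀ i ^ c) = ofAdd 1` (`χ i (x₀ i) ≠ 1`), `x i := x₀ i ^ c`; `InFr` holds for `x i` (the group
`zpowers (restriction)` is the same because the degree of each layer is a power of `p`, `hK.deg`), and
the tame relation holds for `x i`. Normalise `y`: `y i := y₀ i * x i ^ c'` as in G13, so that
`χ i (y i) = 1`. For `i = j` the element `(i : ZMod i) = 0` is not a unit, so `link lam i i = 0`.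
`lift`: `lift_property` (G12). `gen`: `closure_inertia` (G10). `z := x`.
-/

set_option autoImplicit false

namespace Pool.Agent.RG

open NumberField IsDedekindDomain

/-- Powers prime to `p` of the inertia generator. -/
private theorem GX3_pow {p : ℕ} [Fact p.Prime] {S : Finset ℕ} {K : Type} [Field K] [CharZero K]
    (hK : MaxExt p S K) {q : ℕ} {x y : K ≃ₐ[ℚ] K} (h : InFr q x y) {c : ℕ}
    (hc : Nat.Coprime c p) : InFr q (x ^ c) y := by
  intro L _ _
  obtain ⟨w, hw, hin, hfr⟩ := h L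
  refine ⟨w, hw, fun σ => ?_, hfr⟩
  rw [hin, map_pow]
  obtain ⟨k, hk⟩ := hK.deg L
  have hcard : Nat.card (L ≃ₐ[ℚ] L) = p ^ k := by rw [IsGalois.card_aut_eq_finrank, hk]
  set g := AlgEquiv.restrictNormalHom L x with hg
  have hord : Nat.Coprime c (orderOf g) := by
    refine Nat.Coprime.coprime_dvd_right ?_ (Nat.Coprime.pow_right k hc)
    rw [← hcard]
    exact orderOf_dvd_natCard g
  obtain ⟨m, hm⟩ := exists_pow_eq_self_of_coprime hord
  constructor
  · intro hσ
    obtain ⟨n, rfl⟩ := Subgroup.mem_zpowers_iff.1 hσ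
    refine Subgroup.mem_zpowers_iff.2 ⟨m * n, ?_⟩
    rw [zpow_mul, zpow_natCast, hm]
  · intro hσ
    obtain ⟨n, rfl⟩ := Subgroup.mem_zpowers_iff.1 hσ
    refine Subgroup.mem_zpowers_iff.2 ⟨c * n, ?_⟩
    rw [zpow_mul, zpow_natCast]

open Classical in
/-- The linking number of `q` and `r`: the value of the character `lam r` of order `p` modulo `r` at
`q` (and `0` if `q = r`). -/
noncomputable def link {p : ℕ} {S : Finset ℕ}
    (lam : ∀ r : S, (ZMod (r : ℕ))ˣ →* Multiplicative (ZMod p)) (q r : S) : ZMod p :=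
  if h : IsUnit ((q : ℕ) : ZMod (r : ℕ)) then Multiplicative.toAdd (lam r h.unit) else 0

theorem exists_KD {p : ℕ} [Fact p.Prime] (hp : p ≠ 2) {S : Finset ℕ}
    (hS : ∀ q ∈ S, q.Prime ∧ q % p = 1)
    (lam : ∀ r : S, (ZMod (r : ℕ))ˣ →* Multiplicative (ZMod p))
    (hlam : ∀ r, Function.Surjective (lam r)) {K : Type} [Field K] [CharZero K]
    (hK : MaxExt p S K) :
    ∃ κ : Q.KD p S S (K ≃ₐ[ℚ] K), κ.z = κ.x ∧ (∀ q : S, InFr (q : ℕ) (κ.x q) (κ.y q)) ∧
      ∀ q r : S, κ.χ r (κ.y q) = Multiplicative.ofAdd (link lam q r) := by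
  have hp2 : 1 < p := (Fact.out : p.Prime).one_lt
  have hqp : ∀ i : S, (i : ℕ) ≠ p := fun i hi => by
    have := (hS i i.2).2
    rw [hi, Nat.mod_self] at this
    omega
  choose x₀ y₀ hxy₀ htame₀ using fun i : S => exists_inFr hK (hS i i.2).1 (hqp i)
  choose χ hopen hχ1 hχ2 using fun i : S =>
    exists_character_val hK (hS i i.2).1 i.2 (lam i) (hlam i)
  -- normalisation of `x`
  let b : S → ZMod p := fun i => Multiplicative.toAdd (χ i (x₀ i))
  have hb : ∀ i, b i ≠ 0 := fun i h => hχ1 i (x₀ i) (y₀ i) (hxy₀ i) (toAdd_eq_zero.1 h)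
  let d : S → ℕ := fun i => ((b i)⁻¹).val
  have hd : ∀ i, (d i : ZMod p) = (b i)⁻¹ := fun i => by
    change ((((b i)⁻¹).val : ℕ) : ZMod p) = _
    rw [ZMod.natCast_val, ZMod.cast_id]
  have hcop : ∀ i, Nat.Coprime (d i) p := by
    intro i
    rw [Nat.coprime_comm, (Fact.out : p.Prime).coprime_iff_not_dvd]
    intro h
    have h1 : (d i : ZMod p) = 0 := (ZMod.natCast_eq_zero_iff _ _).2 h
    rw [hd] at h1
    exact inv_ne_zero (hb i) h1
  let x : S → (K ≃ₐ[ℚ] K) := fun i => x₀ i ^ d i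
  have hxy₁ : ∀ i : S, InFr (i : ℕ) (x i) (y₀ i) := fun i => GX3_pow hK (hxy₀ i) (hcop i)
  have hx1 : ∀ i, χ i (x i) = Multiplicative.ofAdd 1 := by
    intro i
    change χ i (x₀ i ^ d i) = _
    rw [map_pow]
    apply Multiplicative.toAdd.injective
    rw [toAdd_pow, toAdd_ofAdd, nsmul_eq_mul, hd]
    exact inv_mul_cancel₀ (hb i)
  have htame₁ : ∀ i, y₀ i * x i * (y₀ i)⁻¹ = x i ^ (i : ℕ) := by
    intro i
    change y₀ i * x₀ i ^ d i * (y₀ i)⁻¹ = (x₀ i ^ d i) ^ (i : ℕ)
    rw [← conj_pow, htame₀ i, ← pow_mul, ← pow_mul, mul_comm]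
  -- normalisation of `y`
  let c : S → ℕ := fun i => (-(Multiplicative.toAdd (χ i (y₀ i)))).val
  let y : S → (K ≃ₐ[ℚ] K) := fun i => y₀ i * x i ^ c i
  have hxy : ∀ i : S, InFr (i : ℕ) (x i) (y i) := fun i => (hxy₁ i).mul_pow (c i)
  have hself : ∀ i, χ i (y i) = 1 := by
    intro i
    change χ i (y₀ i * x i ^ c i) = 1
    rw [map_mul, map_pow, hx1]
    apply Multiplicative.toAdd.injective
    rw [toAdd_mul, toAdd_pow, toAdd_ofAdd, toAdd_one, nsmul_eq_mul, mul_one, ZMod.natCast_val,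
      ZMod.cast_id, add_neg_cancel]
  have hne : ∀ i j : S, i ≠ j → (i : ℕ) ≠ j := fun i j hij he => hij (Subtype.ext he)
  let κ : Q.KD p S S (K ≃ₐ[ℚ] K) :=
    { z := x
      x := x
      y := y
      q := fun i => (i : ℕ)
      χ := χ
      cont := hopen
      gen := closure_inertia hK (fun r hr => (hS r hr).1) (fun i : S => (i : ℕ))
        (fun r hr => ⟨⟨r, hr⟩, rfl⟩) x y hxy
      hq := fun i => (hS i i.2).2
      tame := by
        intro i
        change y₀ i * x i ^ c i * x i * (y₀ i * x i ^ c i)⁻¹ = x i ^ (i : ℕ)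
        rw [← htame₁ i]
        group
      dual := by
        intro i j
        by_cases hij : i = j
        · subst hij
          rw [if_pos rfl]
          exact hx1 i
        · rw [if_neg hij, ofAdd_zero]
          exact (hχ2 j (i : ℕ) (x i) (y i) (hS i i.2).1 (hne i j hij) (hxy i)).1
      lift := by
        intro E H _ _ _ _ π hπ hker hcard φ hφ hφs ex ey hx hy hr
        exact lift_property hp hS hK (fun i : S => (i : ℕ)) (fun r hr => ⟨⟨r, hr⟩, rfl⟩) x y hxy
          E H π hπ hker hcard φ hφ hφs ex ey hx hy hr }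
  refine ⟨κ, rfl, hxy, ?_⟩
  intro i j
  change χ j (y i) = _
  unfold link
  by_cases hij : i = j
  · subst hij
    rw [dif_neg, ofAdd_zero]
    · exact hself i
    · intro hu
      have : Fact ((i : ℕ).Prime) := ⟨(hS i i.2).1⟩
      rw [ZMod.natCast_self] at hu
      exact not_isUnit_zero hu
  · have hcop' : IsUnit (((i : ℕ) : ℕ) : ZMod (j : ℕ)) := by
      rw [ZMod.isUnit_iff_coprime]
      exact (Nat.coprime_primes (hS i i.2).1 (hS j j.2).1).2 (hne i j hij)
    rw [dif_pos hcop', ofAdd_toAdd]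
    exact (hχ2 j (i : ℕ) (x i) (y i) (hS i i.2).1 (hne i j hij) (hxy i)).2 _ hcop'.unit_spec

end Pool.Agent.RG
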