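import Mathlib
import Pool.Agent.Lib.RG.Defs

/-!
PART K, definitions: the maximal `p`-extension of a number field `K` unramified outside the primes
above a finite set `S` of rational primes.
-/

set_option autoImplicit false

namespace Pool.Agent.RG

open NumberField IsDedekindDomain

/-- The Galois extension `L / K` is unramified outside the primes above `S`: the inertia group in
`Gal(L / K)` of every prime of `L` not above a prime of `S` is trivial. -/
def UnrRel (S : Finset ℕ) (K L : Type) [Field K] [Field L] [NumberField L] [Algebra K L] : Prop :=
  ∀ w : HeightOneSpectrum (𝓞 L), (∀ q ∈ S, ¬ Above w q) →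
    ∀ σ : L ≃ₐ[K] L, IsInert w σ → σ = 1

/-- `L` is a finite Galois extension of `K` of `p`-power degree, unramified outside the primes
above `S`. -/
def InCRel (p : ℕ) (S : Finset ℕ) (K : Type) [Field K]
    (L : IntermediateField K (AlgebraicClosure K)) : Prop :=
  ∃ _ : NumberField L, IsGalois K L ∧ (∃ k, Module.finrank K L = p ^ k) ∧ UnrRel S K L

/-- The maximal `p`-extension of `K` unramified outside the primes above `S`. -/
noncomputable def maxExtension (p : ℕ) (S : Finset ℕ) (K : Type) [Field K] :
    IntermediateField K (AlgebraicClosure K) :=
  sSup {L | InCRel p S K L}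

/-- The Galois group `G_{K,p,S}`. -/
abbrev GKpS (p : ℕ) (S : Finset ℕ) (K : Type) [Field K] : Type :=
  maxExtension p S K ≃ₐ[K] maxExtension p S K

end Pool.Agent.RG
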