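import Mathlib
import Pool.Agent.Lib.RG.Defs
import Pool.Agent.Lib.RG.KDefs
import Pool.Agent.Lib.RG.G01
import Pool.Agent.Lib.RG.G02
import Pool.Agent.Lib.RG.G03

/-!
PART K, row K02: the Galois closure over `ℚ` of a `p`-extension of `K`.

`card_of_core`: let `g : G`. `α g` has order `p ^ a`, so `g ^ (p ^ a) ∈ α.ker`; with
`Nat.card B = p ^ b` we get `β ⟨τ * (g ^ (p ^ a)) * τ⁻¹, _⟩ ^ (p ^ b) = 1` for every `τ`, hence
`g ^ (p ^ a * p ^ b) = 1`. Then `IsPGroup.iff_card`.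

`unr_of_core`: `G := M ≃ₐ[ℚ] M`; `α` = restriction to `L₁` (`L₁` Galois over `ℚ`: use
`AlgEquiv.restrictNormalHom` for the algebra structure `l₁.toAlgebra`, or the proof of
`exists_restrict` in G08). For `g ∈ α.ker`, `g` fixes the image of `K` (hK), so it restricts to a
`K`-automorphism `β g` of `L` along `l` (`L / K` normal). `hcore` says exactly
`(∀ τ, β (τ g τ⁻¹) = 1) → g = 1`. Degrees: `Nat.card (L₁ ≃ₐ[ℚ] L₁) = p ^ a`,
`Nat.card (L ≃ₐ[K] L) = p ^ b`, and `IsGalois.card_aut_eq_finrank`.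
Unramified: let `σ` be inert at `w`, `w` not above `S`. For every `τ` there is (from the Galois
action on primes, e.g. `w' := ` the prime with `w'.valuation (τ x) = w.valuation x`) a prime `w'`
with `IsInert w' (τ * σ * τ⁻¹)` (`IsInert.conj_to`), `w'` is not above a prime of `S` either.
The restriction of `τ * σ * τ⁻¹` to `L₁` is inert at the prime below `w'` (`exists_below`,
`IsInert.restrict`, `Lies.above_iff`), hence trivial by `h₁`; so `τ * σ * τ⁻¹` fixes `K`, its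
restriction to `L` is a `K`-automorphism, inert at the prime below, hence trivial by `hu`. So
`σ = 1` by `hcore`. (To get `w'` for `τ`: map the ideal of `w` by `τ`; in G03 namespace G03aux there
are helper lemmas: `smul_eq`, `val_eq`.)
-/

set_option autoImplicit false

namespace Pool.Agent.RG

open NumberField IsDedekindDomain

theorem card_of_core {p : ℕ} [Fact p.Prime] {G A B : Type} [Group G] [Finite G] [Group A]
    [Group B] [Finite B] (hA : IsPGroup p A) (hB : IsPGroup p B) (α : G →* A) (β : α.ker →* B)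
    (hcore : ∀ g : G, (∀ τ : G, ∃ h : τ * g * τ⁻¹ ∈ α.ker, β ⟨τ * g * τ⁻¹, h⟩ = 1) → g = 1) :
    IsPGroup p G := by
  intro g
  obtain ⟨a, ha⟩ := hA (α g)
  obtain ⟨b, hb⟩ := IsPGroup.iff_card.mp hB
  have hk : g ^ (p ^ a) ∈ α.ker := by
    rw [MonoidHom.mem_ker, map_pow, ha]
  refine ⟨a + b, ?_⟩
  rw [pow_add, pow_mul]
  apply hcore
  intro τ
  have h1 : τ * g ^ p ^ a * τ⁻¹ ∈ α.ker := (MonoidHom.normal_ker α).conj_mem _ hk τ
  have h2 : τ * (g ^ p ^ a) ^ p ^ b * τ⁻¹ = (τ * g ^ p ^ a * τ⁻¹) ^ p ^ b := conj_pow.symm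
  have h3 : τ * (g ^ p ^ a) ^ p ^ b * τ⁻¹ ∈ α.ker := by
    rw [h2]
    exact Subgroup.pow_mem _ h1 _
  refine ⟨h3, ?_⟩
  have h4 : (⟨τ * (g ^ p ^ a) ^ p ^ b * τ⁻¹, h3⟩ : α.ker) = ⟨τ * g ^ p ^ a * τ⁻¹, h1⟩ ^ p ^ b :=
    Subtype.ext h2
  rw [h4, map_pow, ← hb, pow_card_eq_one']

/-- restriction of automorphisms along a homomorphism of Galois number fields -/
theorem K02_restrict {M₁ M₂ : Type} [Field M₁] [NumberField M₁] [Field M₂] [NumberField M₂]
    [IsGalois ℚ M₁] (j : M₁ →+* M₂) :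
    ∃ r : (M₂ ≃ₐ[ℚ] M₂) →* (M₁ ≃ₐ[ℚ] M₁), ∀ g x, g (j x) = j (r g x) := by
  letI : Algebra M₁ M₂ := j.toAlgebra
  haveI : IsScalarTower ℚ M₁ M₂ := IsScalarTower.of_algebraMap_eq' (Subsingleton.elim _ _)
  exact ⟨AlgEquiv.restrictNormalHom M₁, fun g x => (AlgEquiv.restrictNormal_commutes g M₁ x).symm⟩

/-- restriction of the automorphisms of `M` which fix `K` to a normal extension of `K` -/
theorem K02_restrictK {K L M : Type} [Field K] [Field L] [Field M] [CharZero M] [Algebra K L]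
    [IsGalois K L] (l : L →+* M) (H : Subgroup (M ≃ₐ[ℚ] M))
    (hH : ∀ g ∈ H, ∀ a : K, g (l (algebraMap K L a)) = l (algebraMap K L a)) :
    ∃ β : H →* (L ≃ₐ[K] L), ∀ (g : H) x, g.1 (l x) = l (β g x) := by
  letI : Algebra L M := l.toAlgebra
  letI : Algebra K M := (l.comp (algebraMap K L)).toAlgebra
  haveI : IsScalarTower K L M := IsScalarTower.of_algebraMap_eq (fun x => rfl)
  let ψ : H →* (M ≃ₐ[K] M) :=
    { toFun := fun g => AlgEquiv.ofRingEquiv (f := (g.1 : M ≃+* M)) (fun a => hH g.1 g.2 a)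
      map_one' := by
        ext x
        rfl
      map_mul' := by
        intro g h
        ext x
        rfl }
  refine ⟨(AlgEquiv.restrictNormalHom L).comp ψ, fun g x => ?_⟩
  exact (AlgEquiv.restrictNormal_commutes (ψ g) L x).symm

open scoped Pointwise in
/-- the image of a prime under an automorphism -/
theorem K02_prime {M : Type} [Field M] [NumberField M] (w : HeightOneSpectrum (𝓞 M))
    (τ : M ≃ₐ[ℚ] M) : ∃ w' : HeightOneSpectrum (𝓞 M),
      ∀ x, w'.valuation M (τ x) = w.valuation M x := by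
  have hp : (τ • w.asIdeal).IsPrime := Ideal.IsPrime.smul _
  have hb : τ • w.asIdeal ≠ ⊥ := by
    intro h
    apply w.ne_bot
    have h1 : τ⁻¹ • (τ • w.asIdeal) = τ⁻¹ • (⊥ : Ideal (𝓞 M)) := by rw [h]
    rw [inv_smul_smul] at h1
    rw [h1]
    simp
  exact ⟨⟨τ • w.asIdeal, hp, hb⟩, fun x => G03aux.val_eq (w' := ⟨τ • w.asIdeal, hp, hb⟩) rfl x⟩

theorem unr_of_core {p : ℕ} [Fact p.Prime] {S : Finset ℕ} {K L L₁ M : Type} [Field K]
    [NumberField K] [Field L] [NumberField L] [Field L₁] [NumberField L₁] [Field M]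
    [NumberField M] [Algebra K L] [IsGalois K L] [IsGalois ℚ L₁] [IsGalois ℚ M]
    (hd : ∃ k, Module.finrank K L = p ^ k) (hd₁ : ∃ k, Module.finrank ℚ L₁ = p ^ k)
    (hu : UnrRel S K L) (h₁ : UnrOutside S L₁) (k₁ : K →+* L₁) (l : L →+* M) (l₁ : L₁ →+* M)
    (hK : ∀ a : K, l₁ (k₁ a) = l (algebraMap K L a))
    (hcore : ∀ σ : M ≃ₐ[ℚ] M, (∀ τ : M ≃ₐ[ℚ] M, (∀ x, (τ * σ * τ⁻¹) (l x) = l x) ∧
      ∀ x, (τ * σ * τ⁻¹) (l₁ x) = l₁ x) → σ = 1) :
    (∃ k, Module.finrank ℚ M = p ^ k) ∧ UnrOutside S M := by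
  haveI : IsScalarTower ℚ K L := IsScalarTower.of_algebraMap_eq' (Subsingleton.elim _ _)
  haveI : FiniteDimensional K L := FiniteDimensional.right ℚ K L
  obtain ⟨α, hα⟩ := K02_restrict l₁
  have hker : ∀ g ∈ α.ker, ∀ x, g (l₁ x) = l₁ x := by
    intro g hg x
    rw [hα, MonoidHom.mem_ker.mp hg]
    rfl
  have hkerK : ∀ g ∈ α.ker, ∀ a : K, g (l (algebraMap K L a)) = l (algebraMap K L a) := by
    intro g hg a
    rw [← hK]
    exact hker g hg _
  obtain ⟨β, hβ⟩ := K02_restrictK (K := K) l α.ker hkerK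
  constructor
  · have hPA : IsPGroup p (L₁ ≃ₐ[ℚ] L₁) := by
      obtain ⟨k, hk⟩ := hd₁
      apply IsPGroup.of_card (n := k)
      rw [IsGalois.card_aut_eq_finrank, hk]
    have hPB : IsPGroup p (L ≃ₐ[K] L) := by
      obtain ⟨k, hk⟩ := hd
      apply IsPGroup.of_card (n := k)
      rw [IsGalois.card_aut_eq_finrank, hk]
    have hPG : IsPGroup p (M ≃ₐ[ℚ] M) := by
      refine card_of_core hPA hPB α β (fun g hg => hcore g (fun τ => ?_))
      obtain ⟨h, hh⟩ := hg τ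
      refine ⟨fun x => ?_, fun x => hker _ h x⟩
      have h2 := hβ ⟨τ * g * τ⁻¹, h⟩ x
      rw [hh] at h2
      exact h2
    obtain ⟨k, hk⟩ := IsPGroup.iff_card.mp hPG
    exact ⟨k, by rw [← IsGalois.card_aut_eq_finrank, hk]⟩
  · intro w hw σ hσ
    apply hcore
    intro τ
    obtain ⟨w', hw'⟩ := K02_prime w τ
    have hin : IsInert w' (τ * σ * τ⁻¹) := IsInert.conj_to hw' hσ
    have hS : ∀ q ∈ S, ¬ Above w' q := by
      intro q hq hq'
      apply hw q hq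
      unfold Above at hq' ⊢
      rw [← hw', map_natCast]
      exact hq'
    set ρ := τ * σ * τ⁻¹ with hρ
    obtain ⟨w₁, hw₁⟩ := exists_below l₁ w'
    have hin₁ : IsInert w₁ (α ρ) := IsInert.restrict hw₁ (fun x => hα ρ x) hin
    have h2 : α ρ = 1 := h₁ w₁ (fun q hq hq' => hS q hq ((hw₁.above_iff q).mpr hq')) _ hin₁
    have h3 : ρ ∈ α.ker := h2
    obtain ⟨w₂, hw₂⟩ := exists_below l w'
    have hin₂ : IsInert w₂ ((β ⟨ρ, h3⟩).restrictScalars ℚ) :=
      IsInert.restrict hw₂ (fun x => hβ ⟨ρ, h3⟩ x) hin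
    have hin₃ : IsInert w₂ (β ⟨ρ, h3⟩) := ⟨fun x => hin₂.1 x, fun x hx => hin₂.2 x hx⟩
    have h4 : β ⟨ρ, h3⟩ = 1 :=
      hu w₂ (fun q hq hq' => hS q hq ((hw₂.above_iff q).mpr hq')) _ hin₃
    refine ⟨fun x => ?_, fun x => hker ρ h3 x⟩
    have h5 := hβ ⟨ρ, h3⟩ x
    rw [h4] at h5
    exact h5

end Pool.Agent.RG
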