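import Mathlib

/-!
PART K, row K03: the Galois closure over `ℚ` of the compositum of two number fields.

Regard `Ω` as a `ℚ`-algebra, `l`, `l₁` as `ℚ`-algebra homs (`RingHom.toRatAlgHom` or
`l.equivRatAlgHom`), `C := l.fieldRange ⊔ l₁.fieldRange` (finite over `ℚ`), `M :=` the normal closure
of `C` in `Ω` (`IntermediateField.normalClosure ℚ C Ω`, `normalClosure.is_finiteDimensional`,
normal since `Ω` is algebraically closed). If all conjugates of `σ` fix `C` pointwise then `σ` fixes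
`τ⁻¹ C` for all `τ`, and `M` is generated by the images of `C` under the embeddings `C → M`, each of
which is the restriction of an automorphism `τ` of `M` (`M` normal: `AlgHom.restrictNormal'`,
`AlgHom.liftNormal`, `AlgEquiv.liftNormal`, `IntermediateField.exists_algHom_..`).
-/

set_option autoImplicit false

namespace Pool.Agent.RG

open NumberField IsDedekindDomain

theorem exists_galois_closure {Ω L L₁ : Type} [Field Ω] [CharZero Ω] [IsAlgClosed Ω] [Field L]
    [NumberField L] [Field L₁] [NumberField L₁] (l : L →+* Ω) (l₁ : L₁ →+* Ω) :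
    ∃ (M : Type) (_ : Field M) (_ : NumberField M) (_ : IsGalois ℚ M) (i : M →+* Ω)
      (l' : L →+* M) (l₁' : L₁ →+* M), (∀ x, i (l' x) = l x) ∧ (∀ x, i (l₁' x) = l₁ x) ∧
      ∀ σ : M ≃ₐ[ℚ] M, (∀ τ : M ≃ₐ[ℚ] M, (∀ x, (τ * σ * τ⁻¹) (l' x) = l' x) ∧
        ∀ x, (τ * σ * τ⁻¹) (l₁' x) = l₁' x) → σ = 1 := by
  let lA : L →ₐ[ℚ] Ω := l.toRatAlgHom
  let lB : L₁ →ₐ[ℚ] Ω := l₁.toRatAlgHom
  let C : IntermediateField ℚ Ω := lA.fieldRange ⊔ lB.fieldRange
  have hCA : lA.fieldRange ≤ C := le_sup_left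
  have hCB : lB.fieldRange ≤ C := le_sup_right
  have hfA : FiniteDimensional ℚ lA.fieldRange := lA.toLinearMap.finiteDimensional_range
  have hfB : FiniteDimensional ℚ lB.fieldRange := lB.toLinearMap.finiteDimensional_range
  have hfC : FiniteDimensional ℚ C := IntermediateField.finiteDimensional_sup _ _
  let M : IntermediateField ℚ Ω := IntermediateField.normalClosure ℚ C Ω
  have hfM : FiniteDimensional ℚ M := normalClosure.is_finiteDimensional ℚ C Ω
  have hcl : IsNormalClosure ℚ C M :=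
    Algebra.IsAlgebraic.isNormalClosure_normalClosure fun x => IsAlgClosed.splits _
  have hnM : Normal ℚ M := hcl.normal
  have hNF : NumberField M := { to_charZero := inferInstance, to_finiteDimensional := hfM }
  have hG : IsGalois ℚ M := { to_normal := hnM, to_isSeparable := inferInstance }
  have hCM : C ≤ M := IntermediateField.le_normalClosure C
  have hA : ∀ x, l x ∈ M := fun x => hCM (hCA ⟨x, rfl⟩)
  have hB : ∀ x, l₁ x ∈ M := fun x => hCM (hCB ⟨x, rfl⟩)
  have hCg : C = IntermediateField.adjoin ℚ (Set.range l ∪ Set.range l₁) := by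
    apply le_antisymm
    · refine sup_le ?_ ?_
      · rintro _ ⟨x, rfl⟩
        exact IntermediateField.subset_adjoin _ _ (Or.inl ⟨x, rfl⟩)
      · rintro _ ⟨x, rfl⟩
        exact IntermediateField.subset_adjoin _ _ (Or.inr ⟨x, rfl⟩)
    · rw [IntermediateField.adjoin_le_iff]
      rintro _ (⟨x, rfl⟩ | ⟨x, rfl⟩)
      · exact hCA ⟨x, rfl⟩
      · exact hCB ⟨x, rfl⟩
  have hMg : M = IntermediateField.adjoin ℚ (⋃ f : C →ₐ[ℚ] Ω, (f.fieldRange : Set Ω)) :=
    IntermediateField.iSup_eq_adjoin ℚ _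
  refine ⟨M, inferInstance, hNF, hG, algebraMap M Ω, l.codRestrict M hA, l₁.codRestrict M hB,
    fun x => rfl, fun x => rfl, ?_⟩
  intro σ hσ
  have key : ∀ (f : C →ₐ[ℚ] M) (c : C), σ (f c) = f c := by
    intro f
    let T : M →ₐ[ℚ] M := AlgHom.liftNormal f M
    have hT : ∀ c : C, T (algebraMap C M c) = f c := fun c => AlgHom.liftNormal_commutes f M c
    let τ : M ≃ₐ[ℚ] M := AlgEquiv.ofBijective T (AlgHom.normal_bijective ℚ M M T)
    have hτ : ∀ c : C, τ (algebraMap C M c) = f c := hT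
    have h1 := hσ τ⁻¹
    have h2 : ∀ m : M, (τ⁻¹ * σ * τ⁻¹⁻¹) m = m → σ (τ m) = τ m := by
      intro m hm
      rw [inv_inv] at hm
      have h3 := congrArg τ hm
      rw [AlgEquiv.mul_apply, AlgEquiv.mul_apply, ← AlgEquiv.mul_apply, mul_inv_cancel,
        AlgEquiv.one_apply] at h3
      exact h3
    have h4 : (σ : M →ₐ[ℚ] M).comp f = f := by
      refine IntermediateField.algHom_ext_of_eq_adjoin _ hCg ?_
      rintro _ (⟨x, rfl⟩ | ⟨x, rfl⟩)
      · have h5 := h2 _ (h1.1 x)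
        have h6 : τ (l.codRestrict M hA x) = f ⟨l x, hCA ⟨x, rfl⟩⟩ := hτ ⟨l x, hCA ⟨x, rfl⟩⟩
        rw [h6] at h5
        exact h5
      · have h5 := h2 _ (h1.2 x)
        have h6 : τ (l₁.codRestrict M hB x) = f ⟨l₁ x, hCB ⟨x, rfl⟩⟩ := hτ ⟨l₁ x, hCB ⟨x, rfl⟩⟩
        rw [h6] at h5
        exact h5
    intro c
    exact DFunLike.congr_fun h4 c
  have h7 : (σ : M →ₐ[ℚ] M) = AlgHom.id ℚ M := by
    refine IntermediateField.algHom_ext_of_eq_adjoin _ hMg ?_
    intro x hx
    obtain ⟨f, c, hc⟩ := Set.mem_iUnion.1 hx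
    have h8 := key (f.codRestrict _ fun x ↦ f.fieldRange_le_normalClosure ⟨x, rfl⟩) c
    have h9 : (f.codRestrict M.toSubalgebra (fun x ↦ f.fieldRange_le_normalClosure ⟨x, rfl⟩) c : M)
        = ⟨x, by rw [hMg]; exact IntermediateField.subset_adjoin _ _ hx⟩ := Subtype.ext hc
    show σ _ = _
    rw [← h9]
    exact h8
  ext x
  exact congrArg Subtype.val (DFunLike.congr_fun h7 x)

end Pool.Agent.RG
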