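import Mathlib
import Pool.Agent.Lib.RG.Defs
import Pool.Agent.Lib.RG.KDefs
import Pool.Agent.Lib.RG.G01
import Pool.Agent.Lib.RG.G02

/-!
PART K, row K01: abstract fields and intermediate fields.

`unrRel_of_unrOutside`: a `K`-automorphism `σ` of `L` is also a `ℚ`-automorphism
(`σ.restrictScalars ℚ`, or build it by hand) with the same action, so `IsInert` is literally the same
condition.

`inCRel_fieldRange`: `L ≃ₐ[K] f.fieldRange` by `AlgEquiv.ofInjectiveField f`; transport everything
(the valuation statement: `exists_below` / `Lies` for `j := (AlgEquiv.ofInjectiveField f)` and its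
inverse, or the proof of `UnrOutside.of_equiv` in G02; `IsInert.restrict` is stated for ℚ-algebra
automorphisms: every `K`-automorphism gives a `ℚ`-automorphism).
-/

set_option autoImplicit false

namespace Pool.Agent.RG

open NumberField IsDedekindDomain

/-- a ring automorphism of a number field is a `ℚ`-automorphism -/
private def K01_rat {L : Type} [Field L] [NumberField L] (σ : L ≃+* L) : L ≃ₐ[ℚ] L :=
  AlgEquiv.ofRingEquiv (f := σ) (by
    intro r
    rw [eq_ratCast, map_ratCast])

theorem unrRel_of_unrOutside {S : Finset ℕ} {K L : Type} [Field K] [Field L] [NumberField L]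
    [Algebra K L] (h : UnrOutside S L) : UnrRel S K L := by
  intro w hw σ hσ
  have h1 := h w hw (K01_rat σ.toRingEquiv) hσ
  ext y
  exact congrArg (fun t : L ≃ₐ[ℚ] L => t y) h1

theorem inCRel_fieldRange {p : ℕ} {S : Finset ℕ} {K L : Type} [Field K] [NumberField K] [Field L]
    [NumberField L] [Algebra K L] [IsGalois K L] (hd : ∃ k, Module.finrank K L = p ^ k)
    (hu : UnrRel S K L) (f : L →ₐ[K] AlgebraicClosure K) : InCRel p S K f.fieldRange := by
  let e : L ≃ₐ[K] f.fieldRange := AlgEquiv.ofInjectiveField f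
  have hnf : NumberField f.fieldRange := NumberField.of_ringEquiv L f.fieldRange e.toRingEquiv
  refine ⟨hnf, IsGalois.of_algEquiv e, ?_, ?_⟩
  · obtain ⟨k, hk⟩ := hd
    exact ⟨k, by rw [← hk]; exact e.toLinearEquiv.finrank_eq.symm⟩
  · intro w hw σ hσ
    obtain ⟨w₁, hw₁⟩ := exists_below (e.toRingEquiv : L →+* f.fieldRange) w
    let σ' : L ≃ₐ[K] L := (e.trans σ).trans e.symm
    have hc : ∀ x, (K01_rat σ.toRingEquiv) ((e.toRingEquiv : L →+* f.fieldRange) x) =
        (e.toRingEquiv : L →+* f.fieldRange) ((K01_rat σ'.toRingEquiv) x) := by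
      intro x
      exact (e.apply_symm_apply (σ (e x))).symm
    have h2 : IsInert w (K01_rat σ.toRingEquiv) := hσ
    have h3 : IsInert w₁ (K01_rat σ'.toRingEquiv) := IsInert.restrict hw₁ hc h2
    have h1 := hu w₁ (fun q hq h2 => hw q hq ((hw₁.above_iff q).2 h2)) σ' h3
    ext1 y
    have h4 := congrArg (fun t : L ≃ₐ[K] L => e (t (e.symm y))) h1
    have h5 : e (σ' (e.symm y)) = σ y := by
      change e (e.symm (σ (e (e.symm y)))) = σ y
      rw [e.apply_symm_apply, e.apply_symm_apply]
    have h6 : e ((1 : L ≃ₐ[K] L) (e.symm y)) = y := e.apply_symm_apply y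
    exact h5.symm.trans (h4.trans h6)

end Pool.Agent.RG
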