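import Mathlib
import Pool.Agent.Lib.RG.Defs
import Pool.Agent.Lib.RG.KDefs
import Pool.Agent.Lib.RG.K01
import Pool.Agent.Lib.RG.G07
import Pool.Agent.Lib.RG.G08

/-!
PART K, row K04: the maximal extension `X` of `ℚ`, seen as an extension of a number field `K`
inside it, lies in the maximal extension of `K`.

Proof. Let `x : X`. Let `L : IntermediateField ℚ X` be a finite Galois layer containing `x` and the
image of `K` (adjoin `x` and the images of a finite generating set of `K`, normal closure; cf.
`FiniteGaloisIntermediateField.adjoin` in `eq_of_layers` of G08). `K → X` factors through `L`, so `L`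
is a `K`-algebra, `IsScalarTower ℚ K L`, `L / K` is Galois (`IsGalois.tower_top_of_isGalois`),
`finrank K L ∣ finrank ℚ L = p ^ k` (hX.deg), `UnrRel S K L` by K01 and `hX.unr`. The restriction
of `f` to `L` is `g : L →ₐ[K] Ω`, and `g.fieldRange ≤ maxExtension p S K` by `inCRel_fieldRange` and
`le_sSup`.
-/

set_option autoImplicit false

namespace Pool.Agent.RG

open NumberField IsDedekindDomain

/-- a finite Galois layer of `X / ℚ` which contains the image of `K` and a given element -/
theorem K04_layer {K X : Type} [Field K] [NumberField K] [Field X] [CharZero X] [IsGalois ℚ X]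
    (φ : K →+* X) (x : X) :
    ∃ (L : IntermediateField ℚ X) (_ : NumberField L) (_ : IsGalois ℚ L),
      (∀ a : K, φ a ∈ L) ∧ x ∈ L := by
  obtain ⟨θ, hθ⟩ := Field.exists_primitive_element ℚ K
  let φ' : K →ₐ[ℚ] X := RingHom.equivRatAlgHom K X φ
  have hφ' : ∀ a, φ' a = φ a := fun a => rfl
  let L := FiniteGaloisIntermediateField.adjoin ℚ ({φ θ, x} : Set X)
  have hsub : ({φ θ, x} : Set X) ⊆ L.toIntermediateField :=
    FiniteGaloisIntermediateField.subset_adjoin _ _
  have h1 : NumberField L.toIntermediateField := @NumberField.mk _ _ _ L.finiteDimensional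
  have h2 : IsGalois ℚ L.toIntermediateField := L.isGalois
  refine ⟨L.toIntermediateField, h1, h2, fun a => ?_, hsub (by simp)⟩
  have h3 : (IntermediateField.adjoin ℚ ({θ} : Set K)).map φ' ≤ L.toIntermediateField := by
    rw [IntermediateField.adjoin_map, IntermediateField.adjoin_le_iff]
    rintro _ ⟨b, hb, rfl⟩
    rw [Set.mem_singleton_iff] at hb
    rw [hb, hφ']
    exact hsub (by simp)
  apply h3
  rw [hθ]
  exact ⟨a, trivial, rfl⟩

theorem fieldRange_le {p : ℕ} [Fact p.Prime] {S : Finset ℕ} {K X : Type} [Field K]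
    [NumberField K] [Field X] [CharZero X] [Algebra K X] (hX : MaxExt p S X)
    (f : X →ₐ[K] AlgebraicClosure K) : f.fieldRange ≤ maxExtension p S K := by
  rintro _ ⟨x, rfl⟩
  have hgal := hX.gal
  obtain ⟨L, hnf, hG, hK, hx⟩ := K04_layer (algebraMap K X) x
  let ψ : K →+* L := (algebraMap K X).codRestrict L hK
  have hψ : ∀ a, ((ψ a : L) : X) = algebraMap K X a := fun a => rfl
  letI : Algebra K L := ψ.toAlgebra
  have halg : ∀ a, algebraMap K L a = ψ a := fun a => rfl
  haveI : IsScalarTower ℚ K L := IsScalarTower.of_algebraMap_eq' (Subsingleton.elim _ _)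
  haveI : IsGalois K L := IsGalois.tower_top_of_isGalois ℚ K L
  haveI : FiniteDimensional K L := FiniteDimensional.right ℚ K L
  have hd : ∃ k, Module.finrank K L = p ^ k := by
    obtain ⟨k, hk⟩ := hX.deg L
    have h1 := Module.finrank_mul_finrank ℚ K L
    have h2 : Module.finrank K L ∣ p ^ k := by
      rw [← hk]
      exact ⟨_, by rw [mul_comm]; exact h1.symm⟩
    obtain ⟨j, -, hj⟩ := (Nat.dvd_prime_pow Fact.out).mp h2
    exact ⟨j, hj⟩
  have hu : UnrRel S K L := unrRel_of_unrOutside (hX.unr L)
  let g : L →ₐ[K] AlgebraicClosure K :=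
    { f.toRingHom.comp (algebraMap L X) with
      commutes' := by
        intro a
        show f ((ψ a : L) : X) = _
        rw [hψ, f.commutes] }
  have h3 : g.fieldRange ≤ maxExtension p S K := le_sSup (inCRel_fieldRange hd hu g)
  exact h3 ⟨⟨x, hx⟩, rfl⟩

end Pool.Agent.RG
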