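import Mathlib
import Pool.Agent.Lib.RG.Defs
import Pool.Agent.Lib.RG.KDefs
import Pool.Agent.Lib.RG.K02
import Pool.Agent.Lib.RG.K03
import Pool.Agent.Lib.RG.K04
import Pool.Agent.Lib.RG.G07
import Pool.Agent.Lib.RG.G08

/-!
PART K, row K05: the maximal extension of `K` is the maximal extension of `ℚ`.

`le_fieldRange`: let `L` be in the class, `Ω := AlgebraicClosure K`. `L₁ : IntermediateField ℚ X`:
a finite Galois layer of `X / ℚ` containing the image of `K`. `l : L → Ω` the inclusion,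
`l₁ : L₁ → Ω` the restriction of `f`; they agree on `K` (`f` is a `K`-algebra hom). Take
`M, i, l', l₁'` from K03; by K02 (with `k₁ : K → L₁`; `i` is injective, so `l₁' (k₁ a) = l' a`) `M` is
a `p`-extension of `ℚ` unramified outside `S` (`hX.deg L₁`, `hX.unr L₁`). By `hX.max` there is
`g : M →ₐ[ℚ] X`. The homs `i` and `f ∘ g : M → Ω` are both `ℚ`-embeddings of the normal extension
`M / ℚ`, so they have the same range (`AlgHom.fieldRange_of_normal`, or: minimal polynomials split).
For `x : L`: `l x = i (l' x) ∈ range (f ∘ g) ⊆ range f`.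

`exists_iso`: `X / K` is algebraic (`X / ℚ` is), so there is `f : X →ₐ[K] Ω`
(`IsAlgClosed.lift`); its range is `maxExtension p S K`; `AlgEquiv.ofInjectiveField`.
-/

set_option autoImplicit false

namespace Pool.Agent.RG

open NumberField IsDedekindDomain

/-- two embeddings of a Galois extension of `ℚ` have the same range -/
theorem K05_range {M Ω : Type} [Field M] [NumberField M] [IsGalois ℚ M] [Field Ω] [CharZero Ω]
    (i h : M →+* Ω) (x : M) : ∃ y, h y = i x := by
  let i' : M →ₐ[ℚ] Ω := RingHom.equivRatAlgHom M Ω i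
  let h' : M →ₐ[ℚ] Ω := RingHom.equivRatAlgHom M Ω h
  let e := AlgEquiv.ofInjectiveField i'
  have hn : @Normal ℚ i'.fieldRange _ _ (IntermediateField.algebra' _) := Normal.of_algEquiv e
  let k : i'.fieldRange →ₐ[ℚ] Ω := h'.comp e.symm.toAlgHom
  have h1 : k.fieldRange = i'.fieldRange := AlgHom.fieldRange_of_normal k
  have h2 : i x ∈ k.fieldRange := by
    rw [h1]
    exact ⟨x, rfl⟩
  obtain ⟨z, hz⟩ := h2
  exact ⟨e.symm z, hz⟩

theorem le_fieldRange {p : ℕ} [Fact p.Prime] {S : Finset ℕ} {K X : Type} [Field K]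
    [NumberField K] [Field X] [CharZero X] [Algebra K X] (hX : MaxExt p S X)
    (f : X →ₐ[K] AlgebraicClosure K) (L : IntermediateField K (AlgebraicClosure K))
    (hL : InCRel p S K L) : L ≤ f.fieldRange := by
  obtain ⟨hnfL, hGL, hdL, huL⟩ := hL
  have hgal := hX.gal
  obtain ⟨L₁, hnf₁, hG₁, hK₁, -⟩ := K04_layer (algebraMap K X) (0 : X)
  obtain ⟨M, hM1, hM2, hM3, i, l', l₁', hl', hl₁', hcore⟩ :=
    exists_galois_closure (Ω := AlgebraicClosure K) (L := L) (L₁ := L₁)
      (algebraMap L (AlgebraicClosure K)) (f.toRingHom.comp (algebraMap L₁ X))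
  let k₁ : K →+* L₁ := (algebraMap K X).codRestrict L₁ hK₁
  have hk₁ : ∀ a, ((k₁ a : L₁) : X) = algebraMap K X a := fun a => rfl
  have hcomm : ∀ a : K, l₁' (k₁ a) = l' (algebraMap K L a) := by
    intro a
    apply i.injective
    rw [hl₁', hl']
    show f ((k₁ a : L₁) : X) = algebraMap L (AlgebraicClosure K) (algebraMap K L a)
    rw [hk₁, f.commutes]
    rfl
  obtain ⟨hd, hu⟩ := unr_of_core (p := p) (S := S) hdL (hX.deg L₁) huL (hX.unr L₁) k₁ l' l₁'
    hcomm hcore
  obtain ⟨g⟩ := hX.max M hd hu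
  intro x hx
  obtain ⟨y, hy⟩ := K05_range i (f.toRingHom.comp g.toRingHom) (l' ⟨x, hx⟩)
  rw [hl'] at hy
  exact ⟨g y, hy⟩

theorem exists_iso {p : ℕ} [Fact p.Prime] {S : Finset ℕ} {K X : Type} [Field K]
    [NumberField K] [Field X] [CharZero X] [Algebra K X] (hX : MaxExt p S X) :
    Nonempty (X ≃ₐ[K] maxExtension p S K) := by
  have hgal := hX.gal
  haveI : IsScalarTower ℚ K X := IsScalarTower.of_algebraMap_eq' (Subsingleton.elim _ _)
  haveI : Algebra.IsAlgebraic K X := Algebra.IsAlgebraic.tower_top (K := ℚ) K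
  let f : X →ₐ[K] AlgebraicClosure K := IsAlgClosed.lift
  have h1 : f.fieldRange = maxExtension p S K :=
    le_antisymm (fieldRange_le hX f) (sSup_le (fun L hL => le_fieldRange hX f L hL))
  exact ⟨(AlgEquiv.ofInjectiveField f).trans (IntermediateField.equivOfEq h1)⟩

end Pool.Agent.RG
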