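import Mathlib
import Pool.Agent.Lib.RG.PMain

/-!
PART K, row K07: Schreier bound for open subgroups (`GenBy U n`: `U` is the topological closure of
the subgroup generated by a finset of at most `n` elements).

Proof. `T` a finset with `T.card ≤ n` and closure of `Γ := Subgroup.closure T` equal to `U`.
Schreier (`Subgroup.exists_finset_card_le_mul`, group `Γ`, subgroup `V ⊓ Γ` of finite index): `V ⊓ Γ`
is generated by at most `(index of V ⊓ Γ in Γ) * n` elements, and this index is `V.relIndex U`
(at most suffices: `(V ⊓ Γ).relIndex Γ ≤ V.relIndex U` by `Subgroup.relIndex_dvd_of_le_left`/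
`relIndex_le_of_le_left`). `V` open and `Γ` dense in `U ≥ V` give that `V ⊓ Γ` is dense in `V`.
-/

set_option autoImplicit false

namespace Pool.Agent.RG

theorem genBy_of_le {G : Type} [Group G] [TopologicalSpace G] [IsTopologicalGroup G]
    [CompactSpace G] [T2Space G] {U V : Subgroup G} {n : ℕ} (hU : GenBy U n)
    (hV : IsOpen (V : Set G)) (hVU : V ≤ U) : GenBy V (V.relIndex U * n) := by
  classical
  obtain ⟨T, hTn, hT⟩ := hU
  set Γ : Subgroup G := Subgroup.closure (T : Set G) with hΓ
  have hΓU : Γ ≤ U := by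
    rw [← hT]; exact Subgroup.le_topologicalClosure _
  have : Finite (G ⧸ V) := Subgroup.quotient_finite_of_isOpen V hV
  have : V.FiniteIndex := Subgroup.finiteIndex_of_finite_quotient
  let S : Finset Γ := T.attach.image (fun t => (⟨t.1, Subgroup.subset_closure t.2⟩ : Γ))
  have hS : Subgroup.closure (S : Set Γ) = ⊤ := by
    have hpre : (S : Set Γ) = ((↑) : Γ → G) ⁻¹' (T : Set G) := by
      ext x
      constructor
      · intro hx
        obtain ⟨t, -, ht⟩ := Finset.mem_image.1 (Finset.mem_coe.1 hx)
        rw [← ht]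
        exact t.2
      · intro hx
        refine Finset.mem_coe.2 (Finset.mem_image.2 ⟨⟨x.1, hx⟩, Finset.mem_attach _ _, ?_⟩)
        rfl
    rw [hpre]
    exact Subgroup.closure_closure_coe_preimage
  have hScard : S.card ≤ n := by
    refine (Finset.card_image_le).trans ?_
    rw [Finset.card_attach]; exact hTn
  obtain ⟨T', hT'c, hT'⟩ := Subgroup.exists_finset_card_le_mul (V.subgroupOf Γ) hS
  have hidx : (V.subgroupOf Γ).index ≤ V.relIndex U := by
    have h0 : V.relIndex U ≠ 0 := Subgroup.FiniteIndex.index_ne_zero (H := V.subgroupOf U)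
    exact Subgroup.relIndex_le_of_le_right hΓU h0
  let φ : (V.subgroupOf Γ) →* G := Γ.subtype.comp (V.subgroupOf Γ).subtype
  refine ⟨T'.image φ, ?_, ?_⟩
  · exact (Finset.card_image_le).trans (hT'c.trans (Nat.mul_le_mul hidx hScard))
  · have hcl : Subgroup.closure ((T'.image φ : Finset G) : Set G) = V ⊓ Γ := by
      rw [Finset.coe_image, ← MonoidHom.map_closure, hT', ← MonoidHom.range_eq_map]
      ext x
      constructor
      · rintro ⟨y, rfl⟩
        exact ⟨y.2, y.1.2⟩
      · rintro ⟨hx1, hx2⟩
        exact ⟨⟨⟨x, hx2⟩, hx1⟩, rfl⟩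
    rw [hcl]
    apply le_antisymm
    · have hclosed : IsClosed (V : Set G) := Subgroup.isClosed_of_isOpen V hV
      exact Subgroup.topologicalClosure_minimal _ inf_le_left hclosed
    · intro v hv
      have h1 : v ∈ closure (Γ : Set G) := by
        have : v ∈ Γ.topologicalClosure := by rw [hT]; exact hVU hv
        exact this
      have h2 : v ∈ closure ((V : Set G) ∩ (Γ : Set G)) := hV.inter_closure ⟨hv, h1⟩
      exact h2

end Pool.Agent.RG
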