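import Mathlib
import Pool.Agent.Lib.RG.PMain

/-!
PART K, row K08: rank gradient zero with subgroups of large index.
-/

set_option autoImplicit false

namespace Pool.Agent.RG

namespace K08

variable {G : Type} [Group G] [TopologicalSpace G] [IsTopologicalGroup G]
    [CompactSpace G] [T2Space G] [TotallyDisconnectedSpace G]

/-- Open subgroups of arbitrarily large index. -/
theorem exists_index (hG : Infinite G) (N : ℕ) :
    ∃ V : Subgroup G, IsOpen (V : Set G) ∧ N ≤ V.index := by
  classical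
  obtain ⟨s, hs⟩ := Infinite.exists_subset_card_eq G N
  have h1 : ∀ x : G, ∃ V : OpenNormalSubgroup G, x ≠ 1 → x ∉ (V : Set G) := by
    intro x
    by_cases hx : x = 1
    · obtain ⟨V, -⟩ := ProfiniteGrp.exist_openNormalSubgroup_sub_open_nhds_of_one
        (isOpen_univ (X := G)) (Set.mem_univ 1)
      exact ⟨V, fun h => absurd hx h⟩
    obtain ⟨V, hV⟩ := ProfiniteGrp.exist_openNormalSubgroup_sub_open_nhds_of_one
      (isOpen_compl_singleton (x := x)) (show (1 : G) ∈ ({x} : Set G)ᶜ from fun h => hx h.symm)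
    exact ⟨V, fun _ h => hV h rfl⟩
  choose F hF using h1
  obtain ⟨V, hV⟩ : ∃ V : Subgroup G,
    V = ⨅ a ∈ s, ⨅ b ∈ s, (F (a⁻¹ * b) : Subgroup G) := ⟨_, rfl⟩
  have hVmem : ∀ x, x ∈ V ↔ ∀ a ∈ s, ∀ b ∈ s, x ∈ (F (a⁻¹ * b) : Set G) := by
    intro x
    rw [hV]
    simp only [Subgroup.mem_iInf]
    rfl
  have hVo : IsOpen (V : Set G) := by
    have : (V : Set G) = ⋂ a ∈ s, ⋂ b ∈ s, (F (a⁻¹ * b) : Set G) := by
      ext x
      simp only [Set.mem_iInter]
      exact hVmem x
    rw [this]
    exact isOpen_biInter_finset fun a _ => isOpen_biInter_finset fun b _ =>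
      (F (a⁻¹ * b)).toOpenSubgroup.isOpen
  refine ⟨V, hVo, ?_⟩
  have hfin : Finite (G ⧸ V) := Subgroup.quotient_finite_of_isOpen V hVo
  rw [Subgroup.index_eq_card, ← hs]
  have : Fintype (G ⧸ V) := Fintype.ofFinite _
  rw [Nat.card_eq_fintype_card]
  refine Finset.card_le_card_of_injOn (fun a : G => (QuotientGroup.mk a : G ⧸ V))
    (fun a _ => Finset.mem_univ _) ?_
  intro a ha b hb hab
  by_contra hne
  have h2 : a⁻¹ * b ∈ V := QuotientGroup.eq.1 hab
  have h3 : a⁻¹ * b ≠ 1 := fun h => hne (by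
    rw [← mul_one a, ← h, mul_inv_cancel_left])
  exact hF _ h3 ((hVmem _).1 h2 a ha b hb)

end K08

theorem exists_large {G : Type} [Group G] [TopologicalSpace G] [IsTopologicalGroup G]
    [CompactSpace G] [T2Space G] [TotallyDisconnectedSpace G] (hG : Infinite G)
    (h : ∀ ε : ℝ, 0 < ε → ∃ (U : Subgroup G) (n : ℕ), IsOpen (U : Set G) ∧ GenBy U n ∧
      ((n : ℝ) - 1) ≤ ε * U.index) (ε : ℝ) (hε : 0 < ε) :
    ∃ (U : Subgroup G) (n : ℕ), IsOpen (U : Set G) ∧ GenBy U n ∧ (n : ℝ) ≤ ε * U.index := by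
  classical
  obtain ⟨e, he⟩ : ∃ e, e = min ε 1 := ⟨_, rfl⟩
  have he0 : 0 < e := by rw [he]; exact lt_min hε one_pos
  have he1 : e ≤ 1 := by rw [he]; exact min_le_right _ _
  have heε : e ≤ ε := by rw [he]; exact min_le_left _ _
  obtain ⟨U, n, hUo, ⟨T, hTn, hTU⟩, hn⟩ := h (e ^ 2 / 8) (by positivity)
  by_cases hc : 2 / e ≤ (U.index : ℝ)
  · refine ⟨U, n, hUo, ⟨T, hTn, hTU⟩, ?_⟩
    have h1 : 2 ≤ e * U.index := by
      rw [div_le_iff₀ he0] at hc
      linarith
    have h2 : e ^ 2 / 8 * U.index ≤ e * U.index / 8 := by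
      have : e ^ 2 ≤ e := by nlinarith
      have hU0 : (0 : ℝ) ≤ U.index := by positivity
      nlinarith
    have h3 : e * (U.index : ℝ) ≤ ε * U.index := by
      have hU0 : (0 : ℝ) ≤ U.index := by positivity
      nlinarith
    linarith
  · push Not at hc
    have hn1 : (n : ℝ) < 2 := by
      have : e ^ 2 / 8 * U.index ≤ e ^ 2 / 8 * (2 / e) := by
        have h0 : 0 ≤ e ^ 2 / 8 := by positivity
        exact mul_le_mul_of_nonneg_left hc.le h0
      have h2 : e ^ 2 / 8 * (2 / e) = e / 4 := by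
        field_simp
        norm_num
      rw [h2] at this
      linarith
    have hn2 : n ≤ 1 := by
      have : n < 2 := by exact_mod_cast hn1
      omega
    obtain ⟨u, hu⟩ : ∃ u : G, (Subgroup.zpowers u).topologicalClosure = U := by
      have hT1 : T.card ≤ 1 := hTn.trans hn2
      rcases Finset.card_le_one_iff_subset_singleton.1 hT1 with ⟨u, hTu⟩
      rcases Finset.subset_singleton_iff.1 hTu with h0 | h0
      · refine ⟨1, ?_⟩
        rw [← hTU, h0]
        simp
      · refine ⟨u, ?_⟩
        rw [← hTU, h0]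
        simp [Subgroup.zpowers_eq_closure]
    obtain ⟨N, hN⟩ := exists_nat_ge (1 / ε)
    obtain ⟨V₀, hV₀o, hV₀⟩ := K08.exists_index hG N
    obtain ⟨V, hV⟩ : ∃ V, V = V₀ ⊓ U := ⟨_, rfl⟩
    have hVo : IsOpen (V : Set G) := by
      rw [hV]
      exact hV₀o.inter hUo
    have hVq : Finite (G ⧸ V) := Subgroup.quotient_finite_of_isOpen V hVo
    have hVfin : V.FiniteIndex := Subgroup.finiteIndex_of_finite_quotient
    have hVc : IsClosed (V : Set G) := Subgroup.isClosed_of_isOpen V hVo
    have huU : u ∈ U := by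
      rw [← hu]
      exact Subgroup.le_topologicalClosure _ (Subgroup.mem_zpowers u)
    obtain ⟨j, hj0, -, hj⟩ := Subgroup.exists_pow_mem_of_index_ne_zero hVfin.index_ne_zero u
    obtain ⟨W, hW⟩ : ∃ W, W = (Subgroup.zpowers (u ^ j)).topologicalClosure := ⟨_, rfl⟩
    have hWc : IsClosed (W : Set G) := by
      rw [hW]
      exact Subgroup.isClosed_topologicalClosure _
    have hWV : W ≤ V := by
      rw [hW]
      exact Subgroup.topologicalClosure_minimal _ (by
        rw [Subgroup.zpowers_le]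
        exact hj) hVc
    have hjW : u ^ j ∈ W := by
      rw [hW]
      exact Subgroup.le_topologicalClosure _ (Subgroup.mem_zpowers _)
    -- U is covered by j cosets of W
    have hcov : ∀ x ∈ U, ∃ i < j, (u ^ i)⁻¹ * x ∈ W := by
      obtain ⟨S, hS⟩ : ∃ S : Set G, S = ⋃ i ∈ Finset.range j, (fun x => (u ^ i)⁻¹ * x) ⁻¹' (W : Set G) :=
        ⟨_, rfl⟩
      have hSc : IsClosed S := by
        rw [hS]
        exact isClosed_biUnion_finset fun i _ => hWc.preimage (continuous_const.mul continuous_id)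
      have hzS : (Subgroup.zpowers u : Set G) ⊆ S := by
        rintro x ⟨z, rfl⟩
        rw [hS]
        simp only [Set.mem_iUnion, Finset.mem_range, Set.mem_preimage]
        have hjz : (0 : ℤ) < j := by exact_mod_cast hj0
        refine ⟨(z % j).toNat, ?_, ?_⟩
        · have h1 := Int.emod_lt_of_pos z hjz
          have h2 := Int.emod_nonneg z hjz.ne'
          omega
        · have h2 := Int.emod_nonneg z hjz.ne'
          have h3 : u ^ (z % j).toNat = u ^ (z % j) := by
            rw [← zpow_natCast, Int.toNat_of_nonneg h2]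
          have h4 : (u ^ (z % j))⁻¹ * u ^ z = (u ^ j) ^ (z / j) := by
            rw [← zpow_neg, ← zpow_add, ← zpow_natCast u j, ← zpow_mul]
            congr 1
            have := Int.emod_add_mul_ediv z j
            linarith
          show (u ^ (z % j).toNat)⁻¹ * u ^ z ∈ W
          rw [h3, h4]
          exact W.zpow_mem hjW _
      intro x hx
      have hxS : x ∈ S := by
        rw [← hu] at hx
        have h1 : ((Subgroup.zpowers u).topologicalClosure : Set G) ⊆ S := by
          rw [Subgroup.topologicalClosure_coe]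
          exact closure_minimal hzS hSc
        exact h1 hx
      rw [hS] at hxS
      simp only [Set.mem_iUnion, Finset.mem_range, Set.mem_preimage] at hxS
      obtain ⟨i, hi, hxi⟩ := hxS
      exact ⟨i, hi, hxi⟩
    have hrel : W.relIndex U ≠ 0 := by
      have hfin : Finite (U ⧸ W.subgroupOf U) := by
        refine Finite.of_surjective (fun i : Fin j =>
          (QuotientGroup.mk ⟨u ^ (i : ℕ), U.pow_mem huU _⟩ : U ⧸ W.subgroupOf U)) ?_
        intro q
        obtain ⟨x, rfl⟩ := QuotientGroup.mk_surjective q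
        obtain ⟨i, hi, hx⟩ := hcov x x.2
        refine ⟨⟨i, hi⟩, ?_⟩
        rw [QuotientGroup.eq, Subgroup.mem_subgroupOf]
        exact hx
      exact (Subgroup.index_ne_zero_of_finite (H := W.subgroupOf U))
    have hUq : Finite (G ⧸ U) := Subgroup.quotient_finite_of_isOpen U hUo
    have hUfin : U.FiniteIndex := Subgroup.finiteIndex_of_finite_quotient
    have hWU : W ≤ U := hWV.trans (by rw [hV]; exact inf_le_right)
    have hWi : W.index ≠ 0 := by
      rw [← Subgroup.relIndex_mul_index hWU]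
      exact mul_ne_zero hrel hUfin.index_ne_zero
    have hWfin : W.FiniteIndex := ⟨hWi⟩
    refine ⟨W, 1, Subgroup.isOpen_of_isClosed_of_finiteIndex W hWc,
      ⟨{u ^ j}, by simp, by
        rw [hW, Finset.coe_singleton, Subgroup.zpowers_eq_closure]⟩, ?_⟩
    have h1 : N ≤ W.index := by
      have h2 : V₀.index ∣ W.index := Subgroup.index_dvd_of_le
        (hWV.trans (by rw [hV]; exact inf_le_left))
      exact hV₀.trans (Nat.le_of_dvd (Nat.pos_of_ne_zero hWi) h2)
    have h2 : (N : ℝ) ≤ W.index := by exact_mod_cast h1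
    have h3 : 1 / ε ≤ (W.index : ℝ) := hN.trans h2
    rw [div_le_iff₀ hε] at h3
    push_cast
    linarith

end Pool.Agent.RG
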