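import Mathlib
import Pool.Agent.Lib.RG.PMain
import Pool.Agent.Lib.RG.P17
import Pool.Agent.Lib.RG.K07
import Pool.Agent.Lib.RG.K08

/-!
RG v2, rows M1a, M1b, M1c (group theory of the monotonicity theorem). Each theorem is one row; they are
independent of each other (M1c uses M1a, M1b, K07, K08).

M1a (double cosets). `g` has infinite order, so there is an open normal subgroup `N` with
`1 / ε ≤` order of `g` modulo `N` (avoid `g, g ^ 2, .., g ^ k`; `ProfiniteGrp
.exist_openNormalSubgroup_sub_open_nhds_of_one`). For an open subgroup `U ≤ N` the group `⟨g⟩` acts on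
the finite set of the cosets `U x` by right multiplication; the orbits map onto orbits of the cosets of
`N`, which have length = order of `g` modulo `N` (`N` normal, so `N x g ^ k = N x` iff `g ^ k ∈ N`).
`T` := representatives of the orbits. (Natural number exponents suffice, everything is finite.)

M1b. By `P17_burnside` (hypothesis `hΓ`) it suffices to bound the size `k` of an independent family
`f : Fin k → V →* Multiplicative (ZMod p)` of homs with open kernel, `V := U.comap π`. Let `U` be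
generated by `A` (finset of card `≤ n`), choose preimages in `V`; let `c` be a preimage of `t ∈ T i`.
Values of `f` at these preimages and at the elements `c * z i * c⁻¹` (they are in `π.ker ≤ V`, because
`π (z i) = 1` by `hker`): a vector in `(ZMod p) ^ (n + ∑ i, (T i).card)`. If all the values of a
combination `F : V → ZMod p` of the `f` vanish then `F = 0`: for any `γ : Γ` write
`π γ = u * t * π (g i) ^ j`; then `γ = v * c * g i ^ j` with `v ∈ V`, and
`γ * z i * γ⁻¹ = v * (c * z i ^ (a i ^ j) * c⁻¹) * v⁻¹`, where `F` takes the value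
`a i ^ j * F (c * z i * c⁻¹) = 0`; so `F` vanishes on the normal closure of the `z i`, hence on its
closure `π.ker` (`F` is locally constant), and `F` factors through `U`, where it vanishes on a dense
subgroup (`π` is a closed map, `π V = U`). So `F = 0`, and `k ≤ n + ∑ i, (T i).card` by linear
independence.

M1c. `ε' := ε / (card ι + 1)`. K08 gives `U₀`, `n₀ ≤ ε' * U₀.index`; M1a (for `π (g i)`, `ε'`) gives
`N i`; `U := U₀ ⊓ ⨅ i, N i`, `GenBy U (U.relIndex U₀ * n₀)` (K07), which is `≤ ε' * U.index`;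
`V := U.comap π`, `V.index = U.index`. M1b.
-/

set_option autoImplicit false

namespace Pool.Agent.RG

theorem M1a_cosets {G : Type} [Group G] [TopologicalSpace G] [IsTopologicalGroup G]
    [CompactSpace G] [T2Space G] [TotallyDisconnectedSpace G] (g : G)
    (hg : ∀ n : ℕ, 0 < n → g ^ n ≠ 1) (ε : ℝ) (hε : 0 < ε) :
    ∃ N : Subgroup G, N.Normal ∧ IsOpen (N : Set G) ∧
      ∀ U : Subgroup G, IsOpen (U : Set G) → U ≤ N → ∃ T : Finset G,
        (T.card : ℝ) ≤ ε * U.index ∧ ∀ x : G, ∃ u ∈ U, ∃ t ∈ T, ∃ k : ℕ, x = u * t * g ^ k := by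
  classical
  obtain ⟨k₀, hk₀⟩ := exists_nat_ge (1 / ε)
  have hk1 : 1 ≤ ε * k₀ := by
    rw [div_le_iff₀ hε] at hk₀
    linarith [mul_comm ε (k₀ : ℝ)]
  -- the normal subgroup
  let S : Finset G := (Finset.Icc 1 k₀).image fun j => g ^ j
  have hS : (1 : G) ∈ ((S : Set G)ᶜ) := by
    intro h
    obtain ⟨j, hj, hj1⟩ := Finset.mem_image.1 (Finset.mem_coe.1 h)
    exact hg j (Finset.mem_Icc.1 hj).1 hj1
  obtain ⟨N, hN⟩ := ProfiniteGrp.exist_openNormalSubgroup_sub_open_nhds_of_one
    (S.finite_toSet.isClosed.isOpen_compl) hS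
  have hNg : ∀ j, 0 < j → j ≤ k₀ → g ^ j ∉ N.toSubgroup := by
    intro j hj hj' hmem
    exact hN (show g ^ j ∈ (N : Set G) from hmem)
      (Finset.mem_coe.2 (Finset.mem_image.2 ⟨j, Finset.mem_Icc.2 ⟨hj, hj'⟩, rfl⟩))
  refine ⟨N.toSubgroup, N.isNormal', N.isOpen', fun U hU hUN => ?_⟩
  have hUf : Finite (G ⧸ U) := Subgroup.quotient_finite_of_isOpen U hU
  have := Fintype.ofFinite (G ⧸ U)
  let f : Equiv.Perm (G ⧸ U) := MulAction.toPerm g⁻¹
  have hf : ∀ (n : ℕ) (y : G), (f ^ n) (y : G ⧸ U) = ((g ^ n)⁻¹ * y : G) := by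
    intro n
    induction n with
    | zero => intro y; simp
    | succ n ih =>
      intro y
      rw [pow_succ', Equiv.Perm.mul_apply, ih]
      change ((g⁻¹ * ((g ^ n)⁻¹ * y) : G) : G ⧸ U) = _
      congr 1
      rw [pow_succ, mul_inv_rev, mul_assoc]
  -- freeness
  have hfree : ∀ (x : G ⧸ U) (i j : ℕ), i < j → j ≤ k₀ → (f ^ i) x ≠ (f ^ j) x := by
    intro x i j hij hj h
    obtain ⟨y, rfl⟩ := QuotientGroup.mk_surjective x
    rw [hf, hf, QuotientGroup.eq] at h
    have h1 : ((g ^ i)⁻¹ * y)⁻¹ * ((g ^ j)⁻¹ * y) = y⁻¹ * (g ^ (j - i))⁻¹ * y := by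
      have h2 : g ^ j = g ^ (j - i) * g ^ i := by
        rw [← pow_add, Nat.sub_add_cancel hij.le]
      rw [h2]
      group
    rw [h1] at h
    have h3 : y⁻¹ * (g ^ (j - i))⁻¹ * y ∈ N.toSubgroup := hUN h
    have h4 := N.isNormal'.conj_mem _ h3 y
    have h5 : y * (y⁻¹ * (g ^ (j - i))⁻¹ * y) * y⁻¹ = (g ^ (j - i))⁻¹ := by group
    rw [h5] at h4
    have h6 := inv_mem h4
    rw [inv_inv] at h6
    exact hNg (j - i) (by omega) (by omega) h6
  let s : Setoid (G ⧸ U) := Equiv.Perm.SameCycle.setoid f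
  let Q := Quotient s
  have : Fintype Q := Fintype.ofFinite Q
  have hcard : Fintype.card Q * k₀ ≤ Fintype.card (G ⧸ U) := by
    have h1 : Fintype.card (Q × Fin k₀) ≤ Fintype.card (G ⧸ U) := by
      refine Fintype.card_le_of_injective (fun z => (f ^ (z.2 : ℕ)) z.1.out) ?_
      rintro ⟨q, i⟩ ⟨q', i'⟩ h
      have h' : (f ^ (i : ℕ)) q.out = (f ^ (i' : ℕ)) q'.out := h
      have h2 : q = q' := by
        rw [← Quotient.out_eq q, ← Quotient.out_eq q']
        refine Quotient.sound (s := s) ?_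
        refine ⟨(i : ℤ) - (i' : ℤ), ?_⟩
        rw [sub_eq_neg_add, zpow_add, Equiv.Perm.mul_apply, zpow_natCast, h', ← zpow_natCast,
          ← Equiv.Perm.mul_apply, ← zpow_add, neg_add_cancel, zpow_zero, Equiv.Perm.one_apply]
      subst h2
      have h3 : (i : ℕ) = i' := by
        rcases lt_trichotomy (i : ℕ) (i' : ℕ) with h4 | h4 | h4
        · exact absurd h' (hfree _ _ _ h4 i'.2.le)
        · exact h4
        · exact absurd h'.symm (hfree _ _ _ h4 i.2.le)
      rw [Fin.ext h3]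
    rwa [Fintype.card_prod, Fintype.card_fin] at h1
  refine ⟨Finset.univ.image fun q : Q => (q.out.out)⁻¹, ?_, ?_⟩
  · have h1 : (Finset.univ.image fun q : Q => (q.out.out)⁻¹).card ≤ Fintype.card Q :=
      Finset.card_image_le
    have h2 : ((Finset.univ.image fun q : Q => (q.out.out)⁻¹).card : ℝ) ≤ Fintype.card Q := by
      exact_mod_cast h1
    have h3 : (Fintype.card Q : ℝ) * k₀ ≤ U.index := by
      have h4 : U.index = Fintype.card (G ⧸ U) := by
        rw [Subgroup.index, Nat.card_eq_fintype_card]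
      rw [h4]
      exact_mod_cast hcard
    calc ((Finset.univ.image fun q : Q => (q.out.out)⁻¹).card : ℝ) ≤ Fintype.card Q := h2
      _ ≤ Fintype.card Q * (ε * k₀) := le_mul_of_one_le_right (Nat.cast_nonneg _) hk1
      _ = ε * (Fintype.card Q * k₀) := by ring
      _ ≤ ε * U.index := mul_le_mul_of_nonneg_left h3 hε.le
  · intro x
    let q : Q := Quotient.mk s ((x⁻¹ : G) : G ⧸ U)
    have h1 : Equiv.Perm.SameCycle f q.out ((x⁻¹ : G) : G ⧸ U) := Quotient.exact (Quotient.out_eq q)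
    obtain ⟨n, hn⟩ := h1.exists_nat_pow_eq
    have h2 : ((q.out.out : G) : G ⧸ U) = q.out := QuotientGroup.out_eq' _
    rw [← h2, hf, QuotientGroup.eq] at hn
    refine ⟨x * (g ^ n)⁻¹ * q.out.out, ?_, (q.out.out)⁻¹,
      Finset.mem_image.2 ⟨q, Finset.mem_univ _, rfl⟩, n, by group⟩
    have h3 := inv_mem hn
    have h4 : (((g ^ n)⁻¹ * q.out.out)⁻¹ * x⁻¹)⁻¹ = x * (g ^ n)⁻¹ * q.out.out := by group
    rwa [h4] at h3

theorem M1b_gen {p : ℕ} [Fact p.Prime] {Γ G : Type} [Group Γ] [TopologicalSpace Γ]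
    [IsTopologicalGroup Γ] [CompactSpace Γ] [T2Space Γ] [TotallyDisconnectedSpace Γ] [Group G]
    [TopologicalSpace G] [IsTopologicalGroup G] [CompactSpace G] [T2Space G]
    (hΓ : ∀ U : Subgroup Γ, U.Normal → IsOpen (U : Set Γ) → ∃ k, U.index = p ^ k)
    (π : Γ →* G) (hπ : Continuous π) (hs : Function.Surjective π) {ι : Type} [Fintype ι]
    (z g : ι → Γ) (a : ι → ℕ) (ha : ∀ i, a i % p = 1)
    (hrel : ∀ i, g i * z i * (g i)⁻¹ = z i ^ a i)
    (hker : π.ker = (Subgroup.normalClosure (Set.range z)).topologicalClosure)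
    (U : Subgroup G) (hU : IsOpen (U : Set G)) (n : ℕ) (hn : GenBy U n) (T : ι → Finset G)
    (hT : ∀ i, ∀ x : G, ∃ u ∈ U, ∃ t ∈ T i, ∃ k : ℕ, x = u * t * π (g i) ^ k) :
    GenBy (U.comap π) (n + ∑ i, (T i).card) := by
  classical
  obtain ⟨A, hAn, hA⟩ := hn
  have hAU : ∀ x ∈ A, x ∈ U := fun x hx => by
    rw [← hA]
    exact Subgroup.le_topologicalClosure _ (Subgroup.subset_closure hx)
  have hVo : IsOpen ((U.comap π : Subgroup Γ) : Set Γ) := hU.preimage hπ
  choose pre hpre using hs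
  have hz1 : ∀ i, π (z i) = 1 := by
    intro i
    have h1 : z i ∈ π.ker := by
      rw [hker]
      exact Subgroup.le_topologicalClosure _ (Subgroup.subset_normalClosure ⟨i, rfl⟩)
    exact h1
  have hgz : ∀ i (j : ℕ), g i ^ j * z i * (g i ^ j)⁻¹ = z i ^ (a i ^ j) := by
    intro i j
    induction j with
    | zero => simp
    | succ j ih =>
      rw [pow_succ' (g i), mul_inv_rev]
      have h1 : g i * g i ^ j * z i * ((g i ^ j)⁻¹ * (g i)⁻¹)
          = g i * (g i ^ j * z i * (g i ^ j)⁻¹) * (g i)⁻¹ := by group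
      rw [h1, ih, ← conj_pow, hrel, ← pow_mul, pow_succ']
  refine P17_burnside p Γ hΓ _ hVo _ fun k f hf => ?_
  obtain ⟨hfo, hfl⟩ := hf
  let pA : A → (U.comap π : Subgroup Γ) := fun x => ⟨pre x, by
    show π (pre x) ∈ U
    rw [hpre]
    exact hAU _ x.2⟩
  let pT : (Σ i, T i) → (U.comap π : Subgroup Γ) := fun x => ⟨pre x.2 * z x.1 * (pre x.2)⁻¹, by
    show π _ ∈ U
    rw [map_mul, map_mul, hz1, mul_one, map_inv, mul_inv_cancel]
    exact U.one_mem⟩
  let pts : A ⊕ (Σ i, T i) → (U.comap π : Subgroup Γ) := Sum.elim pA pT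
  let Φ : (Fin k → ZMod p) →ₗ[ZMod p] (A ⊕ (Σ i, T i) → ZMod p) :=
    { toFun := fun l j => ∑ t, l t * Multiplicative.toAdd (f t (pts j))
      map_add' := fun l l' => by
        funext j
        simp only [Pi.add_apply, add_mul, Finset.sum_add_distrib]
      map_smul' := fun c l => by
        funext j
        simp only [Pi.smul_apply, smul_eq_mul, RingHom.id_apply, Finset.mul_sum, mul_assoc] }
  have hinj : Function.Injective Φ := by
    rw [injective_iff_map_eq_zero]
    intro l hl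
    let F : (U.comap π : Subgroup Γ) →* Multiplicative (ZMod p) :=
      { toFun := fun v => Multiplicative.ofAdd (∑ t, l t * Multiplicative.toAdd (f t v))
        map_one' := by simp
        map_mul' := fun v w => by
          rw [← ofAdd_add, ← Finset.sum_add_distrib]
          congr 1
          refine Finset.sum_congr rfl fun t _ => ?_
          rw [map_mul, toAdd_mul, mul_add] }
    have hFpts : ∀ j, F (pts j) = 1 := fun j => by
      have h1 := congrFun hl j
      show Multiplicative.ofAdd (∑ t, l t * Multiplicative.toAdd (f t (pts j))) = 1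
      rw [show (∑ t, l t * Multiplicative.toAdd (f t (pts j))) = 0 from h1]
      rfl
    let K : Subgroup Γ := F.ker.map (U.comap π).subtype
    have hKmem : ∀ (x : Γ) (h : x ∈ U.comap π), F ⟨x, h⟩ = 1 → x ∈ K := fun x h hx =>
      ⟨⟨x, h⟩, hx, rfl⟩
    have hKo : IsOpen (K : Set Γ) := by
      have h1 : IsOpen (((U.comap π) ⊓ ⨅ t, (f t).ker.map (U.comap π).subtype : Subgroup Γ)
          : Set Γ) := by
        rw [Subgroup.coe_inf, Subgroup.coe_iInf]
        exact hVo.inter (isOpen_iInter_of_finite fun t => hfo t)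
      refine Subgroup.isOpen_mono ?_ h1
      intro x hx
      obtain ⟨hx1, hx2⟩ := Subgroup.mem_inf.1 hx
      refine hKmem x hx1 ?_
      have h2 : ∀ t, f t ⟨x, hx1⟩ = 1 := by
        intro t
        obtain ⟨y, hy, hyx⟩ := Subgroup.mem_iInf.1 hx2 t
        have h3 : y = ⟨x, hx1⟩ := Subtype.ext hyx
        rw [← h3]
        exact hy
      show Multiplicative.ofAdd (∑ t, l t * Multiplicative.toAdd (f t ⟨x, hx1⟩)) = 1
      rw [Finset.sum_eq_zero fun t _ => by rw [h2 t, toAdd_one, mul_zero]]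
      rfl
    have hKc : IsClosed (K : Set Γ) := Subgroup.isClosed_of_isOpen K hKo
    have hkerK : π.ker ≤ K := by
      rw [hker]
      refine Subgroup.topologicalClosure_minimal _ ?_ hKc
      rw [Subgroup.normalClosure, Subgroup.closure_le]
      intro x hx
      obtain ⟨w, ⟨i, rfl⟩, hw⟩ := Group.mem_conjugatesOfSet_iff.1 hx
      obtain ⟨γ, hγ⟩ := isConj_iff.1 hw
      obtain ⟨u, hu, t, ht, j, hj⟩ := hT i (π γ)
      obtain ⟨c, hc⟩ : ∃ c, c = pre t := ⟨_, rfl⟩
      obtain ⟨v, hv⟩ : ∃ v, v = γ * (c * g i ^ j)⁻¹ := ⟨_, rfl⟩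
      have hvU : v ∈ U.comap π := by
        show π v ∈ U
        rw [hv, map_mul, map_inv, map_mul, map_pow, hc, hpre, hj]
        have h1 : u * t * π (g i) ^ j * (t * π (g i) ^ j)⁻¹ = u := by group
        rw [h1]
        exact hu
      obtain ⟨y, hy⟩ : ∃ y : (U.comap π : Subgroup Γ), y = pT ⟨i, t, ht⟩ := ⟨_, rfl⟩
      have hyF : F y = 1 := by
        rw [hy]
        exact hFpts (Sum.inr ⟨i, t, ht⟩)
      have hyv : (y : Γ) = c * z i * c⁻¹ := by
        rw [hy, hc]
      have hxe : x = ((⟨v, hvU⟩ * y ^ (a i ^ j) * ⟨v, hvU⟩⁻¹ : (U.comap π : Subgroup Γ)) : Γ) := by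
        push_cast
        rw [hyv, conj_pow, ← hgz i j, ← hγ, hv]
        group
      have hFx : F (⟨v, hvU⟩ * y ^ (a i ^ j) * ⟨v, hvU⟩⁻¹) = 1 := by
        rw [map_mul, map_mul, map_pow, hyF, one_pow, mul_one, ← map_mul, mul_inv_cancel, map_one]
      rw [hxe]
      exact hKmem _ (Subtype.prop _) hFx
    have hUK : U ≤ K.map π := by
      have h1 : IsClosed ((K.map π : Subgroup G) : Set G) := by
        rw [Subgroup.coe_map]
        exact (hKc.isCompact.image hπ).isClosed
      rw [← hA]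
      refine Subgroup.topologicalClosure_minimal _ ?_ h1
      rw [Subgroup.closure_le]
      intro x hx
      exact ⟨pre x, hKmem _ (pA ⟨x, hx⟩).2 (hFpts (Sum.inl ⟨x, hx⟩)), hpre x⟩
    have hF1 : ∀ v, F v = 1 := by
      intro v
      obtain ⟨κ, hκ, hκv⟩ := hUK v.2
      have h1 : (v : Γ) * κ⁻¹ ∈ K := hkerK (by
        rw [MonoidHom.mem_ker, map_mul, map_inv, hκv, mul_inv_cancel])
      have h2 : (v : Γ) ∈ K := by
        have h3 := K.mul_mem h1 hκ
        rwa [inv_mul_cancel_right] at h3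
      obtain ⟨y, hy, hyv⟩ := h2
      have h4 : y = v := Subtype.ext hyv
      rw [← h4]
      exact hy
    have h5 := Fintype.linearIndependent_iff.1 hfl l (by
      funext v
      rw [Finset.sum_apply, Pi.zero_apply]
      exact congrArg Multiplicative.toAdd (hF1 v))
    funext t
    exact h5 t
  have h1 := LinearMap.finrank_le_finrank_of_injective hinj
  rw [Module.finrank_fintype_fun_eq_card, Module.finrank_fintype_fun_eq_card, Fintype.card_fin,
    Fintype.card_sum, Fintype.card_sigma, Fintype.card_coe] at h1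
  simp only [Fintype.card_coe] at h1
  omega

theorem M1c_group {p : ℕ} [Fact p.Prime] {Γ G : Type} [Group Γ] [TopologicalSpace Γ]
    [IsTopologicalGroup Γ] [CompactSpace Γ] [T2Space Γ] [TotallyDisconnectedSpace Γ] [Group G]
    [TopologicalSpace G] [IsTopologicalGroup G] [CompactSpace G] [T2Space G]
    [TotallyDisconnectedSpace G]
    (hΓ : ∀ U : Subgroup Γ, U.Normal → IsOpen (U : Set Γ) → ∃ k, U.index = p ^ k)
    (hG : Infinite G)
    (h : ∀ ε : ℝ, 0 < ε → ∃ (U : Subgroup G) (n : ℕ), IsOpen (U : Set G) ∧ GenBy U n ∧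
      ((n : ℝ) - 1) ≤ ε * U.index)
    (π : Γ →* G) (hπ : Continuous π) (hs : Function.Surjective π) {ι : Type} [Fintype ι]
    (z g : ι → Γ) (a : ι → ℕ) (ha : ∀ i, a i % p = 1)
    (hrel : ∀ i, g i * z i * (g i)⁻¹ = z i ^ a i)
    (hker : π.ker = (Subgroup.normalClosure (Set.range z)).topologicalClosure)
    (hinf : ∀ i (n : ℕ), 0 < n → π (g i) ^ n ≠ 1) (ε : ℝ) (hε : 0 < ε) :
    ∃ (V : Subgroup Γ) (n : ℕ), IsOpen (V : Set Γ) ∧ π.ker ≤ V ∧ GenBy V n ∧
      (n : ℝ) ≤ ε * V.index := by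
  classical
  obtain ⟨e, he⟩ : ∃ e : ℝ, e = ε / (Fintype.card ι + 1) := ⟨_, rfl⟩
  have hc0 : (0 : ℝ) < Fintype.card ι + 1 := by positivity
  have he0 : 0 < e := by rw [he]; exact div_pos hε hc0
  have hee : e * (Fintype.card ι + 1) = ε := by rw [he]; exact div_mul_cancel₀ ε hc0.ne'
  obtain ⟨U₀, n₀, hU₀, hgen₀, hn₀⟩ := exists_large hG h e he0
  choose N _ hNo hN using fun i : ι => M1a_cosets (π (g i)) (fun n hn => hinf i n hn) e he0
  obtain ⟨U, hU⟩ : ∃ U : Subgroup G, U = U₀ ⊓ ⨅ i, N i := ⟨_, rfl⟩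
  have hUU₀ : U ≤ U₀ := by rw [hU]; exact inf_le_left
  have hUN : ∀ i, U ≤ N i := fun i => by
    rw [hU]
    exact inf_le_right.trans (iInf_le _ i)
  have hUo : IsOpen (U : Set G) := by
    rw [hU, Subgroup.coe_inf, Subgroup.coe_iInf]
    exact hU₀.inter (isOpen_iInter_of_finite fun i => hNo i)
  have hgenU : GenBy U (U.relIndex U₀ * n₀) := genBy_of_le hgen₀ hUo hUU₀
  have hidx : (U.relIndex U₀ : ℝ) * U₀.index = U.index := by
    exact_mod_cast Subgroup.relIndex_mul_index hUU₀
  choose T hTc hT using fun i : ι => hN i U hUo (hUN i)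
  have hV := M1b_gen hΓ π hπ hs z g a ha hrel hker U hUo _ hgenU T hT
  refine ⟨U.comap π, _, hUo.preimage hπ, Subgroup.ker_le_comap π U, hV, ?_⟩
  rw [Subgroup.index_comap_of_surjective U hs]
  push_cast
  have h1 : (U.relIndex U₀ : ℝ) * n₀ ≤ e * U.index := by
    calc (U.relIndex U₀ : ℝ) * n₀ ≤ U.relIndex U₀ * (e * U₀.index) :=
          mul_le_mul_of_nonneg_left hn₀ (Nat.cast_nonneg _)
      _ = e * (U.relIndex U₀ * U₀.index) := by ring
      _ = e * U.index := by rw [hidx]
  have h2 : ∑ i, ((T i).card : ℝ) ≤ Fintype.card ι * (e * U.index) := by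
    calc ∑ i, ((T i).card : ℝ) ≤ ∑ _i : ι, e * (U.index : ℝ) :=
          Finset.sum_le_sum fun i _ => hTc i
      _ = Fintype.card ι * (e * U.index) := by
          rw [Finset.sum_const, Finset.card_univ, nsmul_eq_mul]
  calc (U.relIndex U₀ : ℝ) * n₀ + ∑ i, ((T i).card : ℝ)
      ≤ e * U.index + Fintype.card ι * (e * U.index) := add_le_add h1 h2
    _ = e * (Fintype.card ι + 1) * U.index := by ring
    _ = ε * U.index := by rw [hee]

end Pool.Agent.RG
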