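import Mathlib
import Pool.Agent.Lib.RG.G07
import Pool.Agent.Lib.RG.G08
import Pool.Agent.Lib.RG.G09
import Pool.Agent.Lib.RG.G11

/-!
RG v2, row M2: restriction between maximal extensions.

`KS_incl`: `InC p S₁ L → InC p S L` for `S₁ ⊆ S` (`UnrOutside.mono`), so `KS p S₁ ≤ KS p S` in `QBar`;
`IntermediateField.inclusion`.
`exists_restrMax`: `X₁ / ℚ` is normal: `AlgEquiv.restrictNormalHom X₁` for the algebra structure
`i.toRingHom.toAlgebra` on `X` (as in `exists_restrict` of G08); continuity: the preimage of the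
fixing subgroup of a finite extension `E ⊆ X₁` contains the fixing subgroup of `i E`
(or `InfiniteGalois.restrictNormalHom_continuous`).
`InFr.restr`: for a layer `L₁` of `X₁` apply `G11_transport` to `L₁ → X₁ → X`.
`restr_eq_one`: on every layer `L` of `X₁` the restriction of `x` is inert at a prime above
`q ∉ S₁`, so trivial by `hX₁.unr` (`Above.unique`); `eq_of_layers`.
-/

set_option autoImplicit false

namespace Pool.Agent.RG

open NumberField IsDedekindDomain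

theorem KS_incl (p : ℕ) [Fact p.Prime] {S₁ S : Finset ℕ} (h : S₁ ⊆ S) :
    Nonempty (KS p S₁ →ₐ[ℚ] KS p S) := by
  have hle : KS p S₁ ≤ KS p S := by
    refine sSup_le ?_
    rintro L ⟨nf, gal, hk, hu⟩
    exact le_sSup ⟨nf, gal, hk, hu.mono h⟩
  exact ⟨(IntermediateField.inclusion hle).toRingHom.toRatAlgHom⟩

theorem exists_restrMax {X₁ X : Type} [Field X₁] [CharZero X₁] [IsGalois ℚ X₁] [Field X]
    [CharZero X] [IsGalois ℚ X] (i : X₁ →ₐ[ℚ] X) :
    ∃ π : (X ≃ₐ[ℚ] X) →* (X₁ ≃ₐ[ℚ] X₁), Continuous π ∧ Function.Surjective π ∧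
      ∀ g x, g (i x) = i (π g x) := by
  let _ : Algebra X₁ X := i.toRingHom.toAlgebra
  have : IsScalarTower ℚ X₁ X := IsScalarTower.of_algebraMap_eq (fun x => (i.commutes x).symm)
  have hr : ∀ (g : X ≃ₐ[ℚ] X) (x : X₁), g (i x) = i (AlgEquiv.restrictNormalHom X₁ g x) := by
    intro g x
    exact (AlgEquiv.restrictNormal_commutes g X₁ x).symm
  refine ⟨AlgEquiv.restrictNormalHom X₁, ?_, AlgEquiv.restrictNormalHom_surjective X, hr⟩
  refine continuous_of_continuousAt_one _ ?_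
  rw [ContinuousAt, map_one, Filter.tendsto_def]
  intro s hs
  obtain ⟨E, hE, hEs⟩ := (krullTopology_mem_nhds_one_iff ℚ X₁ s).1 hs
  rw [krullTopology_mem_nhds_one_iff]
  refine ⟨E.map i, (E.equivMap i).toLinearEquiv.finiteDimensional, ?_⟩
  intro g hg
  refine hEs ?_
  rw [SetLike.mem_coe, IntermediateField.mem_fixingSubgroup_iff] at hg ⊢
  intro x hx
  have h1 := hg (i x) ⟨x, hx, rfl⟩
  rw [hr] at h1
  exact i.injective h1

theorem InFr.restr {X₁ X : Type} [Field X₁] [CharZero X₁] [IsGalois ℚ X₁] [Field X]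
    [CharZero X] [IsGalois ℚ X] {i : X₁ →ₐ[ℚ] X} {π : (X ≃ₐ[ℚ] X) →* (X₁ ≃ₐ[ℚ] X₁)}
    (hπ : ∀ g x, g (i x) = i (π g x)) {q : ℕ} {x y : X ≃ₐ[ℚ] X} (h : InFr q x y) :
    InFr q (π x) (π y) := by
  intro L₁ _ _
  let e : L₁ →ₐ[ℚ] X := (i.toRingHom.comp L₁.val.toRingHom).toRatAlgHom
  let r : (X ≃ₐ[ℚ] X) →* (L₁ ≃ₐ[ℚ] L₁) := (AlgEquiv.restrictNormalHom L₁).comp π
  have hr : ∀ g z, g (e z) = e (r g z) := by
    intro g z
    have h1 : ((AlgEquiv.restrictNormalHom L₁ (π g) z : L₁) : X₁) = π g (z : X₁) :=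
      AlgEquiv.restrictNormal_commutes (π g) L₁ z
    have h2 : e (r g z) = i ((AlgEquiv.restrictNormalHom L₁ (π g) z : L₁) : X₁) := rfl
    rw [h2, h1, ← hπ]
    rfl
  exact G11_transport e hr h

theorem inFr_eq_one {p : ℕ} {S₁ : Finset ℕ} {X₁ : Type} [Field X₁] [CharZero X₁]
    (hX₁ : MaxExt p S₁ X₁) (hS₁ : ∀ q ∈ S₁, q.Prime) {q : ℕ} (hq : q.Prime) (hqS : q ∉ S₁)
    {x y : X₁ ≃ₐ[ℚ] X₁} (h : InFr q x y) : x = 1 := by
  have := hX₁.gal
  refine eq_of_layers fun L _ _ => ?_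
  obtain ⟨w, hw1, hw2, -⟩ := h L
  rw [map_one]
  refine hX₁.unr L w ?_ _ ((hw2 _).2 (Subgroup.mem_zpowers _))
  intro t ht hab
  exact hqS (Above.unique hq (hS₁ t ht) hw1 hab ▸ ht)

end Pool.Agent.RG
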