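import Mathlib
import Pool.Agent.Lib.RG.G07
import Pool.Agent.Lib.RG.G08
import Pool.Agent.Lib.RG.G09
import Pool.Agent.Lib.RG.M2

/-!
RG v2, row M3: the kernel of the restriction to the maximal extension unramified outside `S₁` is
topologically normally generated by the inertia generators at the primes of `S` not in `S₁`.

Proof. `R := (normalClosure (range z)).topologicalClosure`, normal and closed. `R ≤ π.ker`:
`π (z j) = 1` by `InFr.restr` and `inFr_eq_one`; `π.ker` is closed and normal.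
`π.ker ≤ R`: otherwise there is `g ∈ π.ker`, `g ∉ R`, hence an open normal subgroup `U` with
`g ∉ R ⊔ U =: U'` (`R` closed; as in the proof of `closure_inertia`, G10); `U'` is open and normal.
`exists_layer` for `U'`: a layer `L` on which `g` acts nontrivially and all `z j` trivially. `L` is
unramified outside `S₁`: let `w` be above `ℓ` (`exists_prime_above`), not above `S₁`; if `ℓ ∉ S` use
`hX.unr`; if `ℓ ∈ S` then `InFr` on `L` gives a prime above `ℓ` with trivial inertia, and the inertia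
groups at all primes above `ℓ` are conjugate (`exists_conj`, `IsInert.conj_to`). Degree: `hX.deg`. So
`hX₁.max` gives `f : L →ₐ[ℚ] X₁`; `i ∘ f : L → X` has the same range as the inclusion of `L` (`L / ℚ`
normal, `AlgHom.fieldRange_of_normal`), so `L` is in the range of `i`, and `g`, being in `π.ker`, fixes
it: contradiction.
-/

set_option autoImplicit false

namespace Pool.Agent.RG

open NumberField IsDedekindDomain

/-- the layer on which the inertia at the primes of `S` not in `S₁` is trivial is unramified outside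
`S₁` -/
private theorem M3_unr {p : ℕ} {S₁ S : Finset ℕ} (hS : ∀ q ∈ S, q.Prime) {X : Type} [Field X]
    [CharZero X] (hX : MaxExt p S X) {ι : Type} (q : ι → ℕ)
    (hall : ∀ r ∈ S, r ∉ S₁ → ∃ j, q j = r) (z g : ι → (X ≃ₐ[ℚ] X))
    (hz : ∀ j, InFr (q j) (z j) (g j)) (L : IntermediateField ℚ X) [NumberField L] [IsGalois ℚ L]
    (hL : ∀ j, AlgEquiv.restrictNormalHom L (z j) = 1) : UnrOutside S₁ L := by
  intro w hw σ hσ
  obtain ⟨ℓ, hℓ, hwℓ⟩ := exists_prime_above w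
  by_cases hℓS : ℓ ∈ S
  · obtain ⟨j, hj⟩ := hall ℓ hℓS fun h => hw ℓ h hwℓ
    obtain ⟨w', hw', hin, -⟩ := hz j L
    rw [hj] at hw'
    obtain ⟨τ, hτ⟩ := exists_conj hℓ hwℓ hw'
    have h1 := hσ.conj_to hτ
    rw [hin, hL j, Subgroup.zpowers_one_eq_bot, Subgroup.mem_bot] at h1
    have h2 : τ * σ = τ := by
      have := congrArg (fun z => z * τ) h1
      simpa [mul_assoc] using this
    exact mul_eq_left.1 h2
  · refine hX.unr L w (fun r hr hwr => ?_) σ hσ
    exact hℓS ((Above.unique hℓ (hS r hr) hwℓ hwr) ▸ hr)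

/-- an element of the kernel of the restriction fixes every layer which embeds into `X₁` -/
private theorem M3_fix {X₁ X : Type} [Field X₁] [CharZero X₁] [Field X] [CharZero X]
    {i : X₁ →ₐ[ℚ] X} {π : (X ≃ₐ[ℚ] X) →* (X₁ ≃ₐ[ℚ] X₁)} (hπ : ∀ g x, g (i x) = i (π g x))
    (L : IntermediateField ℚ X) [hL : IsGalois ℚ L] (f : L →ₐ[ℚ] X₁) {g : X ≃ₐ[ℚ] X}
    (hg : π g = 1) : AlgEquiv.restrictNormalHom L g = 1 := by
  have h1 : @Normal ℚ L _ _ (IntermediateField.algebra' L) := hL.to_normal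
  have hrange : (i.comp f).fieldRange = L := AlgHom.fieldRange_of_normal _
  have hfix : ∀ x ∈ L, g x = x := by
    intro x hx
    rw [← hrange] at hx
    obtain ⟨y, hy⟩ := hx
    have h2 : i (f y) = x := hy
    rw [← h2, hπ, hg]
    rfl
  ext x
  have h3 : ((AlgEquiv.restrictNormalHom L g x : L) : X) = g (x : X) :=
    AlgEquiv.restrictNormal_commutes g L x
  rw [h3, hfix _ x.2]
  rfl

theorem ker_restr {p : ℕ} [Fact p.Prime] {S₁ S : Finset ℕ} (hsub : S₁ ⊆ S)
    (hS : ∀ q ∈ S, q.Prime) {X₁ X : Type} [Field X₁] [CharZero X₁] [Field X] [CharZero X]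
    (hX₁ : MaxExt p S₁ X₁) (hX : MaxExt p S X) {i : X₁ →ₐ[ℚ] X}
    {π : (X ≃ₐ[ℚ] X) →* (X₁ ≃ₐ[ℚ] X₁)} (hc : Continuous π) (hπ : ∀ g x, g (i x) = i (π g x))
    {ι : Type} (q : ι → ℕ) (hq : ∀ j, q j ∈ S ∧ q j ∉ S₁)
    (hall : ∀ r ∈ S, r ∉ S₁ → ∃ j, q j = r) (z g : ι → (X ≃ₐ[ℚ] X))
    (hz : ∀ j, InFr (q j) (z j) (g j)) :
    π.ker = (Subgroup.normalClosure (Set.range z)).topologicalClosure := by
  have hgal := hX.gal
  have hgal₁ := hX₁.gal
  set R : Subgroup (X ≃ₐ[ℚ] X) := (Subgroup.normalClosure (Set.range z)).topologicalClosure with hR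
  have hRn : R.Normal := Subgroup.is_normal_topologicalClosure _
  have hRc : IsClosed (R : Set (X ≃ₐ[ℚ] X)) := Subgroup.isClosed_topologicalClosure _
  have hzR : ∀ j, z j ∈ R := fun j =>
    Subgroup.le_topologicalClosure _ (Subgroup.subset_normalClosure ⟨j, rfl⟩)
  refine le_antisymm ?_ ?_
  · intro g₀ hg₀
    by_contra hgR
    -- an open normal subgroup with `g₀ U ∩ R = ∅`
    obtain ⟨U, hU⟩ : ∃ U : OpenNormalSubgroup (X ≃ₐ[ℚ] X), ∀ u ∈ U, g₀ * u ∉ R := by
      have h1 : IsOpen ((fun u : X ≃ₐ[ℚ] X => g₀ * u) ⁻¹' (R : Set (X ≃ₐ[ℚ] X))ᶜ) :=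
        hRc.isOpen_compl.preimage (continuous_const.mul continuous_id)
      have h2 : (1 : X ≃ₐ[ℚ] X) ∈ ((fun u : X ≃ₐ[ℚ] X => g₀ * u) ⁻¹' (R : Set (X ≃ₐ[ℚ] X))ᶜ) := by
        simpa using hgR
      obtain ⟨U, hU⟩ := ProfiniteGrp.exist_openNormalSubgroup_sub_open_nhds_of_one h1 h2
      exact ⟨U, fun u hu => hU hu⟩
    have hUn : U.toSubgroup.Normal := U.isNormal'
    have hn : (R ⊔ U.toSubgroup).Normal := Subgroup.sup_normal _ _
    have ho : IsOpen ((R ⊔ U.toSubgroup : Subgroup (X ≃ₐ[ℚ] X)) : Set (X ≃ₐ[ℚ] X)) :=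
      Subgroup.isOpen_mono le_sup_right U.isOpen'
    have hg' : g₀ ∉ R ⊔ U.toSubgroup := by
      intro h
      have h1 : g₀ ∈ ((R ⊔ U.toSubgroup : Subgroup (X ≃ₐ[ℚ] X)) : Set (X ≃ₐ[ℚ] X)) := h
      rw [Subgroup.mul_normal, Set.mem_mul] at h1
      obtain ⟨r, hr, u, hu, hru⟩ := h1
      refine hU u⁻¹ (inv_mem hu) ?_
      rw [← hru, mul_inv_cancel_right]
      exact hr
    obtain ⟨L, _, _, hL1, -⟩ := exists_layer (R ⊔ U.toSubgroup) ho
    have hLz : ∀ j, AlgEquiv.restrictNormalHom L (z j) = 1 := fun j =>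
      (hL1 _).2 (le_sup_left (b := U.toSubgroup) (hzR j))
    obtain ⟨f⟩ := hX₁.max L (hX.deg L) (M3_unr hS hX q hall z g hz L hLz)
    exact hg' ((hL1 _).1 (M3_fix hπ L f (MonoidHom.mem_ker.1 hg₀)))
  · refine Subgroup.topologicalClosure_minimal _ ?_ ?_
    · refine Subgroup.normalClosure_le_normal ?_
      rintro _ ⟨j, rfl⟩
      exact inFr_eq_one hX₁ (fun r hr => hS r (hsub hr)) (hS _ (hq j).1) (hq j).2
        ((hz j).restr hπ)
    · have h1 : T2Space (X₁ ≃ₐ[ℚ] X₁) := krullTopology_t2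
      have h2 : ((π.ker : Subgroup (X ≃ₐ[ℚ] X)) : Set (X ≃ₐ[ℚ] X)) = π ⁻¹' {1} := by
        ext x
        exact MonoidHom.mem_ker
      rw [h2]
      exact isClosed_singleton.preimage hc

end Pool.Agent.RG
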