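import Mathlib
import Pool.Agent.Lib.RG.G07
import Pool.Agent.Lib.RG.G08
import Pool.Agent.Lib.RG.G09
import Pool.Agent.Lib.RG.G11

/-!
RG v2, row M4: a prime which does not split completely in the maximal `p`-extension unramified
outside `S₁` has a nontrivial Frobenius element there.

Proof. `hX₁.max F` gives `e : F →ₐ[ℚ] X₁`, `exists_restrict e` gives `r`, and `G11_transport` gives a
prime `w'` of `F` above `q` at which `r y` is a Frobenius (`InFr q x y`). Suppose `y = 1`, then `1` is a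
Frobenius element at `w'`; conjugate (`exists_conj`) to the given prime `w` (an inner automorphism fixes
`1`, so `1` is a Frobenius at `w`: `w.valuation (x - x ^ q) < 1` for `w.valuation x ≤ 1`). Then the
residue field at `w` has `q` elements: every `x` with `w.valuation x ≤ 1` is congruent to a natural
number modulo `w` (the polynomial `X ^ q - X` has at most `q` roots in the residue field and
`0, 1, .., q - 1` are `q` different roots). A decomposition element `σ` at `w` fixes integers, so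
`w.valuation (σ x - x) < 1`: `σ` is inert, and trivial since `F` is unramified at `w` (`q ∉ S₁`).
-/

set_option autoImplicit false

namespace Pool.Agent.RG

open NumberField IsDedekindDomain

/-- The prime `q` does not split completely in the maximal `p`-extension of `ℚ` unramified outside
`S₁`: there is a finite Galois extension `F / ℚ` of `p`-power degree, unramified outside `S₁`, such that
the decomposition group of some prime of `F` above `q` is not trivial. -/
def NotSplit (p : ℕ) (S₁ : Finset ℕ) (q : ℕ) : Prop :=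
  ∃ (F : Type) (_ : Field F) (_ : NumberField F) (_ : IsGalois ℚ F),
    (∃ k, Module.finrank ℚ F = p ^ k) ∧ UnrOutside S₁ F ∧
    ∃ (w : HeightOneSpectrum (𝓞 F)) (σ : F ≃ₐ[ℚ] F), Above w q ∧ IsDec w σ ∧ σ ≠ 1

/-- a field of characteristic `q` in which `x ^ q = x` holds has only the natural numbers as
elements -/
private theorem M4_natCast {k : Type} [Field k] {q : ℕ} (hq : q.Prime)
    (h0 : (q : k) = 0) (x : k) (hx : x ^ q = x) : ∃ n : ℕ, x = (n : k) := by
  haveI : Fact q.Prime := ⟨hq⟩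
  haveI : CharP k q := (CharP.charP_iff_prime_eq_zero hq).mpr h0
  have h1 := (Subfield.mem_bot_iff_pow_eq_self k q).mpr hx
  rw [← ZMod.fieldRange_castHom_eq_bot q] at h1
  obtain ⟨a, ha⟩ := h1
  refine ⟨a.val, ?_⟩
  rw [← ha]
  conv_lhs => rw [← ZMod.natCast_zmod_val a]
  rw [map_natCast]

private theorem M4_residue {F : Type} [Field F] [NumberField F] {w : HeightOneSpectrum (𝓞 F)}
    {q : ℕ} (hq : q.Prime) (hw : Above w q)
    (h : ∀ x : 𝓞 F, w.valuation F ((x : F) - (x : F) ^ q) < 1) (x : 𝓞 F) :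
    ∃ n : ℕ, w.valuation F ((x : F) - (n : F)) < 1 := by
  haveI := w.isMaximal
  letI : Field (𝓞 F ⧸ w.asIdeal) := Ideal.Quotient.field w.asIdeal
  have hv : ∀ r : 𝓞 F, w.valuation F (algebraMap (𝓞 F) F r) < 1 ↔ r ∈ w.asIdeal :=
    fun r => HeightOneSpectrum.valuation_lt_one_iff_mem (K := F) w r
  have h0 : ((q : ℕ) : 𝓞 F ⧸ w.asIdeal) = 0 := by
    have h1 : (q : 𝓞 F) ∈ w.asIdeal := by
      rw [← hv, map_natCast]
      exact hw
    have h3 := Ideal.Quotient.eq_zero_iff_mem.mpr h1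
    rw [map_natCast] at h3
    exact h3
  have h1 : (Ideal.Quotient.mk w.asIdeal x) ^ q = Ideal.Quotient.mk w.asIdeal x := by
    rw [← map_pow, eq_comm, Ideal.Quotient.mk_eq_mk_iff_sub_mem, ← hv, map_sub, map_pow]
    exact h x
  obtain ⟨n, hn⟩ := M4_natCast hq h0 _ h1
  refine ⟨n, ?_⟩
  have h2 : algebraMap (𝓞 F) F (x - (n : 𝓞 F)) = (x : F) - (n : F) := by
    rw [map_sub, map_natCast]
  rw [← h2, hv, ← Ideal.Quotient.mk_eq_mk_iff_sub_mem, hn, map_natCast]

theorem frob_ne_one {p : ℕ} [Fact p.Prime] {S₁ : Finset ℕ} (hS₁ : ∀ q ∈ S₁, q.Prime)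
    {X₁ : Type} [Field X₁] [CharZero X₁] (hX₁ : MaxExt p S₁ X₁) {q : ℕ} (hq : q.Prime)
    (hqS : q ∉ S₁) (h : NotSplit p S₁ q) {x y : X₁ ≃ₐ[ℚ] X₁} (hxy : InFr q x y) : y ≠ 1 := by
  intro hy
  obtain ⟨F, i1, i2, i3, hdeg, hunr, w, σ, hw, hdec, hσ⟩ := h
  haveI := hX₁.gal
  obtain ⟨e⟩ := hX₁.max F hdeg hunr
  obtain ⟨r, _, _, hr⟩ := exists_restrict e
  obtain ⟨w', hw', _, hfr⟩ := G11_transport e hr hxy
  rw [hy, map_one] at hfr
  obtain ⟨τ, hτ⟩ := exists_conj hq hw' hw
  have hfrob : ∀ x : 𝓞 F, w.valuation F ((x : F) - (x : F) ^ q) < 1 := by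
    intro x
    have h1 : w'.valuation F (τ.symm (x : F)) ≤ 1 := by
      rw [← hτ, AlgEquiv.apply_symm_apply]
      exact w.valuation_le_one x
    have h2 := hfr.2 _ h1
    rw [one_smul, ← hτ, map_sub, map_pow, AlgEquiv.apply_symm_apply] at h2
    exact h2
  apply hσ
  refine hunr w (fun q' hq' h' => hqS ?_) σ ?_
  · rw [Above.unique hq (hS₁ q' hq') hw h']
    exact hq'
  · rw [isInert_iff_of_isDec hdec]
    intro x
    obtain ⟨n, hn⟩ := M4_residue hq hw hfrob x
    have h1 : σ • (x : F) - (x : F) = σ • ((x : F) - (n : F)) - ((x : F) - (n : F)) := by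
      have h2 : σ • ((n : F)) = (n : F) := map_natCast σ n
      rw [smul_sub, h2]
      ring
    rw [h1]
    refine lt_of_le_of_lt (Valuation.map_sub _ _ _) (max_lt ?_ hn)
    rw [hdec]
    exact hn

/-- A prime which is not a `p`-th power modulo some element of `S₁` does not split completely. -/
theorem notSplit_of_not_pp {p : ℕ} [Fact p.Prime] {S₁ : Finset ℕ}
    (hS₁ : ∀ q ∈ S₁, q.Prime ∧ q % p = 1) {q : ℕ} (hq : q.Prime) (hqS : q ∉ S₁) {s : ℕ}
    (hs : s ∈ S₁) (h : ¬ PP p q s) : NotSplit p S₁ q := by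
  obtain ⟨F, i1, i2, i3, hdeg, hunr, _, hfr⟩ := exists_cyclic_field (p := p) (hS₁ s hs).1
    (hS₁ s hs).2
  obtain ⟨w, hw⟩ := exists_above_prime F hq
  obtain ⟨σ, hσ⟩ := exists_frob hq hw
  refine ⟨F, i1, i2, i3, ⟨1, by rw [hdeg, pow_one]⟩,
    UnrOutside.mono (Finset.singleton_subset_iff.mpr hs) hunr, w, σ, hw, hσ.1, fun h1 => h ?_⟩
  exact (hfr q hq (fun h2 => hqS (h2 ▸ hs)) w hw σ hσ).mp h1

end Pool.Agent.RG
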