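import Mathlib
import Pool.Agent.Lib.RG.G07
import Pool.Agent.Lib.RG.G08
import Pool.Agent.Lib.RG.G09
import Pool.Agent.Lib.RG.M1
import Pool.Agent.Lib.RG.M2
import Pool.Agent.Lib.RG.M3
import Pool.Agent.Lib.RG.M4

/-!
RG v2, row M5: monotonicity over `ℚ` (assembly of M1-M4).

`ι := {q // q ∈ S ∧ q ∉ S₁}` (finite), `z, g` from `exists_inFr` in `KS p S`, `a q := q`; `π` from
`exists_restrMax`; `π (g q)` has infinite order: it is `≠ 1` by `frob_ne_one` (`InFr.restr`) and `htf`.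
-/

set_option autoImplicit false

namespace Pool.Agent.RG

open NumberField IsDedekindDomain

theorem mono_Q {p : ℕ} [Fact p.Prime] {S₁ S : Finset ℕ} (hsub : S₁ ⊆ S)
    (hS : ∀ q ∈ S, q.Prime ∧ q % p = 1) (hns : ∀ q ∈ S, q ∉ S₁ → NotSplit p S₁ q)
    (hG : Infinite (KS p S₁ ≃ₐ[ℚ] KS p S₁))
    (h : ∀ ε : ℝ, 0 < ε → ∃ (U : Subgroup (KS p S₁ ≃ₐ[ℚ] KS p S₁)) (n : ℕ),
      IsOpen (U : Set (KS p S₁ ≃ₐ[ℚ] KS p S₁)) ∧ GenBy U n ∧ ((n : ℝ) - 1) ≤ ε * U.index)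
    (htf : ∀ g : KS p S₁ ≃ₐ[ℚ] KS p S₁, g ≠ 1 → ∀ n : ℕ, 0 < n → g ^ n ≠ 1) :
    ∃ (i : KS p S₁ →ₐ[ℚ] KS p S) (π : (KS p S ≃ₐ[ℚ] KS p S) →* (KS p S₁ ≃ₐ[ℚ] KS p S₁)),
      Continuous π ∧ Function.Surjective π ∧ (∀ g x, g (i x) = i (π g x)) ∧
      ∀ ε : ℝ, 0 < ε → ∃ (V : Subgroup (KS p S ≃ₐ[ℚ] KS p S)) (n : ℕ),
        IsOpen (V : Set (KS p S ≃ₐ[ℚ] KS p S)) ∧ π.ker ≤ V ∧ GenBy V n ∧
          (n : ℝ) ≤ ε * V.index := by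
  classical
  have hX₁ := maxExt_KS p S₁
  have hX := maxExt_KS p S
  have hgal₁ := hX₁.gal
  have hgal := hX.gal
  obtain ⟨i⟩ := KS_incl p hsub
  obtain ⟨π, hc, hs, hπ⟩ := exists_restrMax i
  refine ⟨i, π, hc, hs, hπ, ?_⟩
  have hfin : Finite {q : ℕ // q ∈ S ∧ q ∉ S₁} :=
    Set.Finite.to_subtype (S.finite_toSet.subset fun q hq => hq.1)
  have hft : Fintype {q : ℕ // q ∈ S ∧ q ∉ S₁} := Fintype.ofFinite _
  have hqp : ∀ q ∈ S, q ≠ p := by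
    intro q hq hqp
    have h1 := (hS q hq).2
    rw [hqp, Nat.mod_self] at h1
    exact absurd h1 (by norm_num)
  choose z g hzg hrel using fun q : {q : ℕ // q ∈ S ∧ q ∉ S₁} =>
    exists_inFr hX (hS q q.2.1).1 (hqp q q.2.1)
  have hker := ker_restr hsub (fun q hq => (hS q hq).1) hX₁ hX hc hπ
    (fun q : {q : ℕ // q ∈ S ∧ q ∉ S₁} => (q : ℕ)) (fun q => q.2)
    (fun r hr hr1 => ⟨⟨r, hr, hr1⟩, rfl⟩) z g hzg
  intro ε hε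
  exact M1c_group (fun U hN hU => hX.pro_p U hN hU) hG h π hc hs z g (fun q => (q : ℕ))
    (fun q => (hS q q.2.1).2) hrel hker (fun q n hn => htf _
      (frob_ne_one (fun r hr => (hS r (hsub hr)).1) hX₁ (hS q q.2.1).1 q.2.2 (hns q q.2.1 q.2.2)
        ((hzg q).restr hπ)) n hn) ε hε

end Pool.Agent.RG
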