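import Mathlib
import Pool.Agent.Lib.RG.QDefs

/-!
PART Q, row QB: change of generators in data of Koch type. z' a = product over i (in some fixed order, e.g. of the list Finset.univ.toList) of
x_i ^ (f' a i).val, χ' a = product of χ_i ^ (f a i).val (commutative target). dual': χ' b (z' a) = sum_i f b i * f' a i. gen': the closed
subgroup C generated by the z' a: if C <> ⊤ there is an open subgroup containing C, different from G (closed subgroups of profinite groups are intersections
of open ones), its core gives a finite p-group G/N with a proper subgroup, contained in a normal subgroup of index p (see P17.lean): a nonzero hom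
χ : G -> Z/p with open kernel, trivial on C; χ and prod χ_i^(c_i), c_i = χ(x_i), agree on the topological generators x_i, so they are equal;
0 = χ(z' a) = sum_i c_i f' a i for all a; multiply by f a j and sum over a: c_j = 0. So χ = 1, a contradiction.
-/

set_option autoImplicit false

namespace Pool.Agent.RG.Q

open scoped Classical

/-- A proper subgroup of a finite `p`-group is contained in the kernel of a nontrivial homomorphism
to `ℤ / p`. -/
private theorem QB_hom (p : ℕ) [Fact p.Prime] (Q : Type) [Group Q] [Finite Q] {n : ℕ}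
    (hQ : Nat.card Q = p ^ n) (C : Subgroup Q) (hC : C ≠ ⊤) :
    ∃ h : Q →* Multiplicative (ZMod p), C ≤ h.ker ∧ h ≠ 1 := by
  have hp : p.Prime := Fact.out
  obtain ⟨a, ha, hCa⟩ : ∃ a, a < n ∧ Nat.card C = p ^ a := by
    have h1 : Nat.card C ∣ p ^ n := hQ ▸ C.card_subgroup_dvd_card
    obtain ⟨a, ha, hCa⟩ := (Nat.dvd_prime_pow hp).mp h1
    refine ⟨a, lt_of_le_of_ne ha ?_, hCa⟩
    rintro rfl
    exact hC (Subgroup.eq_top_of_card_eq C (by rw [hCa, hQ]))
  obtain ⟨M, hM, hCM⟩ := Sylow.exists_subgroup_card_pow_prime_le (G := Q) p (n := a) (m := n - 1)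
    (by rw [hQ]; exact pow_dvd_pow _ (by omega)) C hCa (by omega)
  have hidx : M.index = p := by
    have h1 := M.card_mul_index
    rw [hM, hQ] at h1
    have h2 : p ^ n = p ^ (n - 1) * p := by
      rw [← pow_succ]
      congr 1
      omega
    rw [h2] at h1
    exact Nat.eq_of_mul_eq_mul_left (pow_pos hp.pos _) h1
  have hn : n ≠ 0 := by omega
  have hmf : (Nat.card Q).minFac = p := by
    rw [hQ, hp.pow_minFac hn]
  have hnor : M.Normal := Subgroup.normal_of_index_eq_minFac_card (by rw [hidx, hmf])
  have hcard : Nat.card (Q ⧸ M) = p := by rw [← hidx]; rfl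
  have hcard' : Nat.card (Multiplicative (ZMod p)) = p := by
    rw [Nat.card_congr Multiplicative.toAdd, Nat.card_zmod]
  let e : Q ⧸ M ≃* Multiplicative (ZMod p) := mulEquivOfPrimeCardEq hcard hcard'
  refine ⟨e.toMonoidHom.comp (QuotientGroup.mk' M), ?_, ?_⟩
  · intro g hg
    rw [MonoidHom.mem_ker]
    change e (QuotientGroup.mk g) = 1
    rw [(QuotientGroup.eq_one_iff g).mpr (hCM hg), map_one]
  · intro h1
    have h2 : M = ⊤ := by
      rw [eq_top_iff]
      intro g _
      have h3 := DFunLike.congr_fun h1 g
      change e (QuotientGroup.mk g) = 1 at h3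
      rw [map_eq_one_iff e e.injective] at h3
      exact (QuotientGroup.eq_one_iff g).mp h3
    rw [h2, Subgroup.index_top] at hidx
    exact hp.one_lt.ne hidx

/-- exponents modulo `p` -/
private theorem QB_pow (p : ℕ) [Fact p.Prime] (m : Multiplicative (ZMod p)) (c : ZMod p) :
    Multiplicative.toAdd (m ^ c.val) = c * Multiplicative.toAdd m := by
  rw [toAdd_pow, nsmul_eq_mul, ZMod.natCast_val, ZMod.cast_id]

/-- the value of a product of powers of characters -/
private theorem QB_char (p : ℕ) [Fact p.Prime] {ι : Type} [Fintype ι] {G : Type} [Group G]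
    (χ : ι → G →* Multiplicative (ZMod p)) (c : ι → ZMod p) (g : G) :
    Multiplicative.toAdd ((∏ i, χ i ^ (c i).val : G →* Multiplicative (ZMod p)) g) =
      ∑ i, c i * Multiplicative.toAdd (χ i g) := by
  rw [MonoidHom.finsetProd_apply, toAdd_prod]
  refine Finset.sum_congr rfl fun i _ => ?_
  rw [MonoidHom.pow_apply, QB_pow]

/-- the value of a character at a product of powers -/
private theorem QB_elt (p : ℕ) [Fact p.Prime] {ι : Type} [Fintype ι] {G : Type} [Group G]
    (χ : G →* Multiplicative (ZMod p)) (z : ι → G) (c : ι → ZMod p) :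
    Multiplicative.toAdd (χ (((Finset.univ : Finset ι).toList.map fun i => z i ^ (c i).val).prod)) =
      ∑ i, c i * Multiplicative.toAdd (χ (z i)) := by
  rw [map_list_prod, List.map_map]
  have h1 : (List.map (⇑χ ∘ fun i => z i ^ (c i).val) (Finset.univ : Finset ι).toList).prod =
      ∏ i, (χ (z i)) ^ (c i).val := by
    rw [← Finset.prod_map_toList]
    congr 1
    refine List.map_congr_left fun i _ => ?_
    rw [Function.comp_apply, map_pow]
  rw [h1, toAdd_prod]
  refine Finset.sum_congr rfl fun i _ => ?_
  rw [QB_pow]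

/-- kernels of products of characters are open -/
private theorem QB_open (p : ℕ) [Fact p.Prime] {ι : Type} [Fintype ι] {G : Type} [Group G]
    [TopologicalSpace G] [IsTopologicalGroup G]
    (χ : ι → G →* Multiplicative (ZMod p)) (hχ : ∀ i, IsOpen ((χ i).ker : Set G))
    (c : ι → ZMod p) :
    IsOpen (((∏ i, χ i ^ (c i).val : G →* Multiplicative (ZMod p)).ker : Subgroup G) : Set G) := by
  have h1 : IsOpen ((⨅ i, (χ i).ker : Subgroup G) : Set G) := by
    rw [Subgroup.coe_iInf]
    exact isOpen_iInter_of_finite hχ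
  refine Subgroup.isOpen_mono ?_ h1
  intro g hg
  rw [Subgroup.mem_iInf] at hg
  rw [MonoidHom.mem_ker]
  apply Multiplicative.toAdd.injective
  rw [QB_char]
  refine Finset.sum_eq_zero fun i _ => ?_
  rw [MonoidHom.mem_ker.mp (hg i), toAdd_one, mul_zero]

theorem base_change (p : ℕ) [Fact p.Prime] {α ι : Type} [Fintype α] [Fintype ι]
    (G : Type) [Group G] [TopologicalSpace G] [IsTopologicalGroup G] [CompactSpace G] [T2Space G]
    [TotallyDisconnectedSpace G]
    (hG : ∀ U : Subgroup G, U.Normal → IsOpen (U : Set G) → ∃ k, U.index = p ^ k)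
    (K : KD p ι ι G) (hK : K.z = K.x) (f f' : α → ι → ZMod p)
    (hf : ∀ a b, ∑ i, f b i * f' a i = if a = b then 1 else 0)
    (hf' : ∀ i j, ∑ a, f a i * f' a j = if i = j then 1 else 0) :
    ∃ K' : KD p α ι G, K'.x = K.x ∧ K'.y = K.y ∧
      ∀ a g, Multiplicative.toAdd (K'.χ a g) = ∑ i, f a i * Multiplicative.toAdd (K.χ i g) := by
  have hp : p.Prime := Fact.out
  let z' : α → G := fun a => ((Finset.univ : Finset ι).toList.map fun i => K.z i ^ (f' a i).val).prod
  let χ' : α → G →* Multiplicative (ZMod p) := fun a => ∏ i, K.χ i ^ (f a i).val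
  have hχ' : ∀ a g, Multiplicative.toAdd (χ' a g) =
      ∑ i, f a i * Multiplicative.toAdd (K.χ i g) := fun a g => QB_char p K.χ (f a) g
  have hz' : ∀ (χ : G →* Multiplicative (ZMod p)) a, Multiplicative.toAdd (χ (z' a)) =
      ∑ i, f' a i * Multiplicative.toAdd (χ (K.z i)) := fun χ a => QB_elt p χ K.z (f' a)
  have hcont : ∀ a, IsOpen ((χ' a).ker : Set G) := fun a => QB_open p K.χ K.cont (f a)
  have hdual : ∀ a b, χ' b (z' a) = Multiplicative.ofAdd (if a = b then 1 else 0) := by
    intro a b
    apply Multiplicative.toAdd.injective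
    rw [hz', toAdd_ofAdd, ← hf a b]
    refine Finset.sum_congr rfl fun i _ => ?_
    rw [hχ', mul_comm]
    congr 1
    have h1 : ∀ j, f b j * Multiplicative.toAdd (K.χ j (K.z i)) = if i = j then f b j else 0 := by
      intro j
      rw [K.dual, toAdd_ofAdd]
      split_ifs <;> simp
    rw [Finset.sum_congr rfl fun j _ => h1 j]
    simp
  have hgen : (Subgroup.closure (Set.range z')).topologicalClosure = ⊤ := by
    set C : Subgroup G := (Subgroup.closure (Set.range z')).topologicalClosure with hC
    have hCc : IsClosed (C : Set G) := Subgroup.isClosed_topologicalClosure _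
    have hzC : ∀ a, z' a ∈ C := fun a =>
      Subgroup.le_topologicalClosure _ (Subgroup.subset_closure ⟨a, rfl⟩)
    rw [eq_top_iff]
    intro u _
    by_contra huC
    have hW : IsOpen {x : G | u * x ∉ C} :=
      (hCc.isOpen_compl).preimage (continuous_const_mul u)
    obtain ⟨N, hN⟩ := ProfiniteGrp.exist_openNormalSubgroup_sub_open_nhds_of_one hW
      (by simpa using huC)
    set N0 : Subgroup G := N.toSubgroup with hN0
    have hN0n : N0.Normal := N.isNormal'
    have hN0o : IsOpen (N0 : Set G) := N.isOpen'
    have hNC : ∀ x ∈ N0, u * x ∉ C := fun x hx => hN hx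
    obtain ⟨j, hj⟩ := hG N0 hN0n hN0o
    have hcardQ : Nat.card (G ⧸ N0) = p ^ j := hj
    have hfinQ : Finite (G ⧸ N0) := Nat.finite_of_card_ne_zero (by
      rw [hcardQ]
      exact pow_ne_zero _ hp.ne_zero)
    set C' : Subgroup (G ⧸ N0) := C.map (QuotientGroup.mk' N0) with hC'
    have hC'ne : C' ≠ ⊤ := by
      intro htop
      have h1 : (QuotientGroup.mk' N0 u) ∈ C' := htop ▸ Subgroup.mem_top _
      obtain ⟨c, hc, hcu⟩ := h1
      have h3 : u⁻¹ * c ∈ N0 := by
        rw [← QuotientGroup.eq]
        exact hcu.symm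
      refine hNC _ h3 ?_
      rw [mul_inv_cancel_left]
      exact hc
    obtain ⟨χ, hχC, hχ⟩ := QB_hom p (G ⧸ N0) hcardQ C' hC'ne
    set ψ : G →* Multiplicative (ZMod p) := χ.comp (QuotientGroup.mk' N0) with hψ
    have hψo : IsOpen ((ψ.ker : Subgroup G) : Set G) := by
      refine Subgroup.isOpen_mono (H₁ := N0) ?_ hN0o
      intro x hx
      rw [MonoidHom.mem_ker]
      change χ (QuotientGroup.mk x) = 1
      rw [(QuotientGroup.eq_one_iff x).mpr hx, map_one]
    have hψz : ∀ a, ψ (z' a) = 1 := fun a => by
      have h1 : QuotientGroup.mk' N0 (z' a) ∈ C' := ⟨z' a, hzC a, rfl⟩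
      exact MonoidHom.mem_ker.mp (hχC h1)
    let c : ι → ZMod p := fun i => Multiplicative.toAdd (ψ (K.z i))
    have hc0 : ∀ j, c j = 0 := by
      intro j
      have h1 : ∑ a, f a j * (∑ i, f' a i * c i) = c j := by
        have h2 : ∑ a, f a j * (∑ i, f' a i * c i) = ∑ i, (∑ a, f a j * f' a i) * c i := by
          simp only [Finset.mul_sum, Finset.sum_mul]
          rw [Finset.sum_comm]
          refine Finset.sum_congr rfl fun i _ => Finset.sum_congr rfl fun a _ => ?_
          ring
        rw [h2]
        simp only [hf', ite_mul, one_mul, zero_mul]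
        simp
      rw [← h1]
      refine Finset.sum_eq_zero fun a _ => ?_
      have h3 := hz' ψ a
      rw [hψz, toAdd_one] at h3
      change f a j * (∑ i, f' a i * Multiplicative.toAdd (ψ (K.z i))) = 0
      rw [← h3, mul_zero]
    -- `ψ` is trivial
    have hker : (⊤ : Subgroup G) ≤ ψ.ker := by
      rw [← K.gen]
      refine Subgroup.topologicalClosure_minimal _ ?_ (Subgroup.isClosed_of_isOpen _ hψo)
      rw [Subgroup.closure_le]
      rintro _ ⟨i, rfl⟩
      change K.z i ∈ ψ.ker
      rw [MonoidHom.mem_ker]
      apply Multiplicative.toAdd.injective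
      exact hc0 i
    apply hχ
    ext x
    exact congrArg Multiplicative.toAdd (MonoidHom.mem_ker.mp (hker (Subgroup.mem_top x)))
  exact ⟨{ z := z'
           x := K.x
           y := K.y
           q := K.q
           χ := χ'
           cont := hcont
           gen := hgen
           hq := K.hq
           tame := K.tame
           dual := hdual
           lift := K.lift }, rfl, rfl, hχ'⟩

end Pool.Agent.RG.Q
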