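import Mathlib
import Pool.Agent.Lib.RG.QDefs

/-!
PART Q, row QC (pure linear algebra over the field with p elements): the cup product criterion gives leading data.

`ℓ q r` = linking numbers, `cup ℓ f g q = f q * (ℓ g) q - g q * (ℓ f) q`, so qd (coordinates of the functional f a) j a b = - cup (f a) (f b) j.
Put T0 = span of the cup u g (g in V) and the cup f v (f in U). u, v <> 0 (otherwise U cup V is too small). Choose a basis bU of U containing u, a
basis bV of V containing v, |bU| + |bV| = d = card ι. T0 is spanned by the d - 1 elements cup u b (b in bV), cup a v (a in bU, a <> u), so they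
are linearly independent, T0 <> ⊤, and there are a1 in bU, b1 in bV with cup a1 b1 not in T0; a1 <> u, b1 <> v. Letters α = bU ⊕ bV, edges
ε = bV ⊕ {a in bU, a <> u} ⊕ Unit: (u, b), (a, v), (a1, b1). The e k = cup (f (s k)) (f (t k)) form a basis; B = dual basis. Weights: W = 13,
wt v = 13, wt b1 = 15, the other b: 16, wt u = 16, wt a1 = 18, the other a: 19. Edges have weight <= 33, other pairs (a, b) with a <> u, b <> v have weight
>= 34, pairs in bU (different letters) >= 34, pairs in bV have cup product zero.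
-/

set_option autoImplicit false

namespace Pool.Agent.RG.Q

open scoped Classical

variable {p : ℕ} {ι : Type} [Fintype ι]

/-- the cup product in coordinates -/
def cup (ℓ : ι → ι → ZMod p) (f g : ι → ZMod p) (q : ι) : ZMod p :=
  f q * ∑ r, ℓ q r * g r - g q * ∑ r, ℓ q r * f r

/-- The criterion: `H^1 = U ⊕ V`, the cup product is zero on `V`, `U ∪ V` spans `H^2`, and for some
`u` in `U` and `v` in `V` the space `u ∪ V + U ∪ v` has codimension at most one. -/
def Criterion (ℓ : ι → ι → ZMod p) : Prop :=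
  ∃ U V : Submodule (ZMod p) (ι → ZMod p), IsCompl U V ∧
    (∀ f ∈ V, ∀ g ∈ V, cup ℓ f g = 0) ∧
    Submodule.span (ZMod p) {c | ∃ f ∈ U, ∃ g ∈ V, c = cup ℓ f g} = ⊤ ∧
    ∃ u ∈ U, ∃ v ∈ V, Fintype.card ι ≤ Module.finrank (ZMod p) (Submodule.span (ZMod p)
      {c | (∃ g ∈ V, c = cup ℓ u g) ∨ ∃ f ∈ U, c = cup ℓ f v}) + 1

private noncomputable def QC_L (ℓ : ι → ι → ZMod p) :
    (ι → ZMod p) →ₗ[ZMod p] (ι → ZMod p) →ₗ[ZMod p] (ι → ZMod p) :=
  LinearMap.mk₂ (ZMod p) (cup ℓ)
    (by
      intro f f' g
      funext q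
      simp only [cup, Pi.add_apply, mul_add, Finset.sum_add_distrib]
      ring)
    (by
      intro c f g
      funext q
      have h : ∑ r, ℓ q r * (c * f r) = c * ∑ r, ℓ q r * f r := by
        rw [Finset.mul_sum]
        exact Finset.sum_congr rfl fun r _ => by ring
      simp only [cup, Pi.smul_apply, smul_eq_mul, h]
      ring)
    (by
      intro f g g'
      funext q
      simp only [cup, Pi.add_apply, mul_add, Finset.sum_add_distrib]
      ring)
    (by
      intro c f g
      funext q
      have h : ∑ r, ℓ q r * (c * g r) = c * ∑ r, ℓ q r * g r := by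
        rw [Finset.mul_sum]
        exact Finset.sum_congr rfl fun r _ => by ring
      simp only [cup, Pi.smul_apply, smul_eq_mul, h]
      ring)

private theorem QC_L_apply (ℓ : ι → ι → ZMod p) (f g : ι → ZMod p) :
    QC_L ℓ f g = cup ℓ f g := rfl

private theorem QC_self (ℓ : ι → ι → ZMod p) (f : ι → ZMod p) : cup ℓ f f = 0 := by
  funext q
  simp only [cup, sub_self, Pi.zero_apply]

private theorem QC_swap (ℓ : ι → ι → ZMod p) (f g : ι → ZMod p) :
    cup ℓ f g = -cup ℓ g f := by
  funext q
  simp only [cup, Pi.neg_apply]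
  ring

private theorem QC_two [Fact p.Prime] [Nonempty ι] (ℓ : ι → ι → ZMod p)
    (U V : Submodule (ZMod p) (ι → ZMod p))
    (hUV : Module.finrank (ZMod p) U + Module.finrank (ZMod p) V = Fintype.card ι)
    (hs : Submodule.span (ZMod p) {c | ∃ f ∈ U, ∃ g ∈ V, c = cup ℓ f g} = ⊤) :
    2 ≤ Module.finrank (ZMod p) V := by
  by_contra hlt
  have h1 : Module.finrank (ZMod p) V ≤ 1 := by omega
  obtain ⟨g₀, hg₀⟩ := finrank_le_one_iff.1 h1
  have h2 : (⊤ : Submodule (ZMod p) (ι → ZMod p)) ≤ U.map ((QC_L ℓ).flip g₀) := by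
    rw [← hs, Submodule.span_le]
    rintro _ ⟨f, hf, g, hg, rfl⟩
    obtain ⟨c, hc⟩ := hg₀ ⟨g, hg⟩
    have hc' : c • (g₀ : ι → ZMod p) = g := congrArg Subtype.val hc
    refine ⟨c • f, U.smul_mem c hf, ?_⟩
    rw [LinearMap.flip_apply, map_smul, LinearMap.smul_apply, ← hc', ← QC_L_apply, map_smul]
  have h3 := Submodule.finrank_mono h2
  rw [finrank_top, Module.finrank_fintype_fun_eq_card] at h3
  have h4 := Submodule.finrank_map_le ((QC_L ℓ).flip (g₀ : ι → ZMod p)) U
  have h5 : Module.finrank (ZMod p) V = 0 := by omega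
  have h6 : V = ⊥ := Submodule.finrank_eq_zero.1 h5
  have h7 : (⊤ : Submodule (ZMod p) (ι → ZMod p)) ≤ ⊥ := by
    rw [← hs, Submodule.span_le]
    rintro _ ⟨f, hf, g, hg, rfl⟩
    rw [h6, Submodule.mem_bot] at hg
    rw [hg, ← QC_L_apply, map_zero]
    exact Submodule.zero_mem _
  have h8 := Submodule.finrank_mono h7
  rw [finrank_top, Module.finrank_fintype_fun_eq_card, finrank_bot] at h8
  have h9 : 0 < Fintype.card ι := Fintype.card_pos
  omega

private theorem QC_coord {κ : Type} (b : Module.Basis κ (ZMod p) (ι → ZMod p)) (k : κ)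
    (x : ι → ZMod p) : ∑ j, b.coord k (Pi.single j 1) * x j = b.coord k x := by
  have h : x = ∑ j, x j • (Pi.single j (1 : ZMod p) : ι → ZMod p) := by
    ext i
    simp [Finset.sum_apply, Pi.single_apply]
  conv_rhs => rw [h, map_sum]
  refine Finset.sum_congr rfl fun j _ => ?_
  rw [map_smul, smul_eq_mul, mul_comm]

omit [Fintype ι] in
private theorem QC_repr {κ : Type} [Fintype κ] (b : Module.Basis κ (ZMod p) (ι → ZMod p))
    (i j : ι) : ∑ k, b k i * b.coord k (Pi.single j 1) = if i = j then 1 else 0 := by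
  have h := congrFun (b.sum_repr (Pi.single j (1 : ZMod p))) i
  rw [Finset.sum_apply] at h
  rw [Pi.single_apply] at h
  rw [← h]
  refine Finset.sum_congr rfl fun k _ => ?_
  rw [Pi.smul_apply, smul_eq_mul, mul_comm]
  rfl

omit [Fintype ι] in
private theorem QC_ext [Fact p.Prime] (U : Submodule (ZMod p) (ι → ZMod p)) {u : ι → ZMod p}
    (hu : u ∈ U) (hu0 : u ≠ 0) : ∃ b : Set (ι → ZMod p), u ∈ b ∧
      Submodule.span (ZMod p) b = U ∧ LinearIndependent (ZMod p) ((↑) : b → ι → ZMod p) := by
  have h1 : LinearIndepOn (ZMod p) id ({u} : Set (ι → ZMod p)) :=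
    LinearIndepOn.singleton hu0
  obtain ⟨b, hb1, hb2, hb3, hb4⟩ := exists_linearIndepOn_id_extension h1
    (Set.singleton_subset_iff.2 hu : ({u} : Set (ι → ZMod p)) ⊆ (U : Set (ι → ZMod p)))
  refine ⟨b, hb2 rfl, le_antisymm (Submodule.span_le.2 hb1) hb3, hb4⟩

theorem lead_of_criterion [Fact p.Prime] [Nonempty ι] (ℓ : ι → ι → ZMod p) (h : Criterion ℓ) :
    ∃ (α ε : Type) (_ : Fintype α) (_ : Fintype ε) (_ : Nonempty α) (Λ : LD α ε)
      (f f' : α → ι → ZMod p) (B : ε → ι → ZMod p),
      (∀ a b, ∑ i, f b i * f' a i = if a = b then 1 else 0) ∧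
      (∀ i j, ∑ a, f a i * f' a j = if i = j then 1 else 0) ∧
      Lead Λ (fun j a => f a j) (fun j a => ∑ r, ℓ j r * f a r) B ∧ Λ.Conn := by
  obtain ⟨U, V, hUV, hV, hs, u, hu, v, hv, hT⟩ := h
  set T : Submodule (ZMod p) (ι → ZMod p) := Submodule.span (ZMod p)
      {c | (∃ g ∈ V, c = cup ℓ u g) ∨ ∃ f ∈ U, c = cup ℓ f v} with hTdef
  have hdim : Module.finrank (ZMod p) U + Module.finrank (ZMod p) V = Fintype.card ι := by
    rw [Submodule.finrank_add_eq_of_isCompl hUV, Module.finrank_fintype_fun_eq_card]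
  have hV2 : 2 ≤ Module.finrank (ZMod p) V := QC_two ℓ U V hdim hs
  have hU2 : 2 ≤ Module.finrank (ZMod p) U := by
    refine QC_two ℓ V U (by omega) ?_
    rw [eq_top_iff, ← hs, Submodule.span_le]
    rintro _ ⟨f, hf, g, hg, rfl⟩
    rw [QC_swap]
    exact Submodule.neg_mem _ (Submodule.subset_span ⟨g, hg, f, hf, rfl⟩)
  have hu0 : u ≠ 0 := by
    intro h0
    have h1 : T ≤ U.map ((QC_L ℓ).flip v) := by
      rw [hTdef, Submodule.span_le]
      rintro _ (⟨g, hg, rfl⟩ | ⟨f, hf, rfl⟩)
      · rw [h0, ← QC_L_apply, map_zero, LinearMap.zero_apply]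
        exact Submodule.zero_mem _
      · exact ⟨f, hf, rfl⟩
    have h2 := (Submodule.finrank_mono h1).trans (Submodule.finrank_map_le _ U)
    omega
  have hv0 : v ≠ 0 := by
    intro h0
    have h1 : T ≤ V.map (QC_L ℓ u) := by
      rw [hTdef, Submodule.span_le]
      rintro _ (⟨g, hg, rfl⟩ | ⟨f, hf, rfl⟩)
      · exact ⟨g, hg, rfl⟩
      · rw [h0, ← QC_L_apply, map_zero]
        exact Submodule.zero_mem _
    have h2 := (Submodule.finrank_mono h1).trans (Submodule.finrank_map_le _ V)
    omega
  obtain ⟨bU, hubU, hspU, hliU⟩ := QC_ext U hu hu0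
  obtain ⟨bV, hvbV, hspV, hliV⟩ := QC_ext V hv hv0
  have : Finite (ι → ZMod p) := inferInstance
  let _ : Fintype bU := Fintype.ofFinite _
  let _ : Fintype bV := Fintype.ofFinite _
  let f : bU ⊕ bV → ι → ZMod p := Sum.elim (↑) (↑)
  have hfli : LinearIndependent (ZMod p) f := by
    refine LinearIndependent.sum_type hliU hliV ?_
    rw [Subtype.range_coe, Subtype.range_coe, hspU, hspV]
    exact hUV.disjoint
  have hfsp : ⊤ ≤ Submodule.span (ZMod p) (Set.range f) := by
    have h1 : Set.range f = bU ∪ bV := by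
      change Set.range (Sum.elim _ _) = _
      rw [Set.Sum.elim_range, Subtype.range_coe, Subtype.range_coe]
    rw [h1, Submodule.span_union, hspU, hspV, hUV.sup_eq_top]
  let bas : Module.Basis (bU ⊕ bV) (ZMod p) (ι → ZMod p) := Module.Basis.mk hfli hfsp
  have hbas : ∀ a, bas a = f a := fun a => Module.Basis.mk_apply hfli hfsp a
  have hcard : Fintype.card bU + Fintype.card bV = Fintype.card ι := by
    have h1 := Module.finrank_eq_card_basis bas
    rw [Module.finrank_fintype_fun_eq_card, Fintype.card_sum] at h1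
    exact h1.symm
  let u' : bU := ⟨u, hubU⟩
  let v' : bV := ⟨v, hvbV⟩
  -- the tree edges span `T`
  have hmU : ∀ g : ι → ZMod p, ∀ S : Submodule (ZMod p) (ι → ZMod p),
      (∀ a ∈ bU, cup ℓ a g ∈ S) → ∀ f ∈ U, cup ℓ f g ∈ S := by
    intro g S hS f hf
    have h1 : U ≤ S.comap ((QC_L ℓ).flip g) := by
      rw [← hspU, Submodule.span_le]
      intro a ha
      exact hS a ha
    exact h1 hf
  have hmV : ∀ f : ι → ZMod p, ∀ S : Submodule (ZMod p) (ι → ZMod p),
      (∀ b ∈ bV, cup ℓ f b ∈ S) → ∀ g ∈ V, cup ℓ f g ∈ S := by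
    intro f S hS g hg
    have h1 : V ≤ S.comap (QC_L ℓ f) := by
      rw [← hspV, Submodule.span_le]
      intro b hb
      exact hS b hb
    exact h1 hg
  let e0 : bV ⊕ {a : bU // a ≠ u'} → ι → ZMod p :=
    Sum.elim (fun b => cup ℓ u b) (fun a => cup ℓ a.1 v)
  have hTe : T ≤ Submodule.span (ZMod p) (Set.range e0) := by
    have h1 : ∀ b : bV, cup ℓ u b ∈ Submodule.span (ZMod p) (Set.range e0) := fun b =>
      Submodule.subset_span ⟨Sum.inl b, rfl⟩
    rw [hTdef, Submodule.span_le]
    rintro _ (⟨g, hg, rfl⟩ | ⟨f, hf, rfl⟩)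
    · exact hmV u _ (fun b hb => h1 ⟨b, hb⟩) g hg
    · refine hmU v _ (fun a ha => ?_) f hf
      by_cases hau : (⟨a, ha⟩ : bU) = u'
      · have h2 : a = u := congrArg Subtype.val hau
        rw [h2]
        exact h1 v'
      · exact Submodule.subset_span ⟨Sum.inr ⟨⟨a, ha⟩, hau⟩, rfl⟩
  have hce : Fintype.card (bV ⊕ {a : bU // a ≠ u'}) + 1 = Fintype.card ι := by
    have h1 : Fintype.card {a : bU // a ≠ u'} = Fintype.card bU - 1 := by
      rw [Fintype.card_subtype_compl, Fintype.card_subtype_eq]
    have h2 : 0 < Fintype.card bU := Fintype.card_pos_iff.2 ⟨u'⟩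
    rw [Fintype.card_sum, h1]
    omega
  have hTtop : T ≠ ⊤ := by
    intro h0
    have h1 := Submodule.finrank_mono hTe
    rw [h0, finrank_top, Module.finrank_fintype_fun_eq_card] at h1
    have h2 : Module.finrank (ZMod p) (Submodule.span (ZMod p) (Set.range e0)) ≤ _ :=
      finrank_range_le_card e0
    omega
  obtain ⟨a1, b1, hab⟩ : ∃ (a1 : bU) (b1 : bV), cup ℓ a1 b1 ∉ T := by
    by_contra hne
    push Not at hne
    apply hTtop
    rw [eq_top_iff, ← hs, Submodule.span_le]
    rintro _ ⟨f, hf, g, hg, rfl⟩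
    exact hmU g T (fun a ha => hmV a T (fun b hb => hne ⟨a, ha⟩ ⟨b, hb⟩) g hg) f hf
  have ha1 : a1 ≠ u' := by
    rintro rfl
    refine hab (Submodule.subset_span (Or.inl ⟨b1, ?_, rfl⟩))
    rw [← hspV]
    exact Submodule.subset_span b1.2
  have hb1 : b1 ≠ v' := by
    rintro rfl
    refine hab (Submodule.subset_span (Or.inr ⟨a1, ?_, rfl⟩))
    rw [← hspU]
    exact Submodule.subset_span a1.2
  let sE : bV ⊕ {a : bU // a ≠ u'} ⊕ Unit → bU :=
    Sum.elim (fun _ => u') (Sum.elim (fun a => a.1) (fun _ => a1))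
  let tE : bV ⊕ {a : bU // a ≠ u'} ⊕ Unit → bV :=
    Sum.elim (fun b => b) (Sum.elim (fun _ => v') (fun _ => b1))
  let e : bV ⊕ {a : bU // a ≠ u'} ⊕ Unit → ι → ZMod p := fun k => cup ℓ (sE k) (tE k)
  have hesp : ⊤ ≤ Submodule.span (ZMod p) (Set.range e) := by
    have h1 : T ≤ Submodule.span (ZMod p) (Set.range e) := by
      refine hTe.trans (Submodule.span_mono ?_)
      rintro _ ⟨b | a, rfl⟩
      · exact ⟨Sum.inl b, rfl⟩
      · exact ⟨Sum.inr (Sum.inl a), rfl⟩
    have h2 : cup ℓ a1 b1 ∈ Submodule.span (ZMod p) (Set.range e) :=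
      Submodule.subset_span ⟨Sum.inr (Sum.inr ()), rfl⟩
    have h3 : T < Submodule.span (ZMod p) (Set.range e) :=
      lt_of_le_of_ne h1 fun h0 => hab (h0 ▸ h2)
    have h4 := Submodule.finrank_lt_finrank_of_lt h3
    have h5 := Submodule.finrank_le (Submodule.span (ZMod p) (Set.range e))
    rw [Module.finrank_fintype_fun_eq_card] at h5
    refine (Submodule.eq_top_of_finrank_eq ?_).ge
    rw [Module.finrank_fintype_fun_eq_card]
    omega
  have hce' : Fintype.card (bV ⊕ {a : bU // a ≠ u'} ⊕ Unit) =
      Module.finrank (ZMod p) (ι → ZMod p) := by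
    rw [Module.finrank_fintype_fun_eq_card, ← hce, Fintype.card_sum, Fintype.card_sum,
      Fintype.card_sum, Fintype.card_unit]
    ring
  let eb : Module.Basis (bV ⊕ {a : bU // a ≠ u'} ⊕ Unit) (ZMod p) (ι → ZMod p) :=
    basisOfTopLeSpanOfCardEqFinrank e hesp hce'
  have heb : ∀ k, eb k = e k := fun k => by
    rw [show eb = basisOfTopLeSpanOfCardEqFinrank e hesp hce' from rfl,
      coe_basisOfTopLeSpanOfCardEqFinrank]
  let wU : bU → ℕ := fun a => if a = u' then 16 else if a = a1 then 18 else 19
  let wV : bV → ℕ := fun b => if b = v' then 13 else if b = b1 then 15 else 16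
  let Λ : LD (bU ⊕ bV) (bV ⊕ {a : bU // a ≠ u'} ⊕ Unit) :=
    { W := 13
      wt := Sum.elim wU wV
      s := fun k => Sum.inl (sE k)
      t := fun k => Sum.inr (tE k) }
  have hwu : wU u' = 16 := if_pos rfl
  have hwa1 : wU a1 = 18 := by
    change (if a1 = u' then 16 else if a1 = a1 then 18 else 19) = 18
    rw [if_neg ha1, if_pos rfl]
  have hwv : wV v' = 13 := if_pos rfl
  have hwb1 : wV b1 = 15 := by
    change (if b1 = v' then 13 else if b1 = b1 then 15 else 16) = 15
    rw [if_neg hb1, if_pos rfl]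
  have hwU : ∀ a, wU a ≤ 19 ∧ 16 ≤ wU a ∧ (a ≠ u' → 18 ≤ wU a) ∧
      (a ≠ u' → a ≠ a1 → wU a = 19) := by
    intro a
    by_cases h1 : a = u'
    · rw [h1, hwu]
      refine ⟨by norm_num, by norm_num, fun h => absurd rfl h, fun h => absurd rfl h⟩
    · by_cases h2 : a = a1
      · rw [h2, hwa1]
        exact ⟨by norm_num, by norm_num, fun _ => by norm_num, fun _ h => absurd rfl h⟩
      · have h3 : wU a = 19 := by
          change (if a = u' then 16 else if a = a1 then 18 else 19) = 19
          rw [if_neg h1, if_neg h2]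
        rw [h3]
        exact ⟨by norm_num, by norm_num, fun _ => by norm_num, fun _ _ => rfl⟩
  have hwV : ∀ b, wV b ≤ 16 ∧ 13 ≤ wV b ∧ (b ≠ v' → 15 ≤ wV b) ∧
      (b ≠ v' → b ≠ b1 → wV b = 16) := by
    intro b
    by_cases h1 : b = v'
    · rw [h1, hwv]
      refine ⟨by norm_num, by norm_num, fun h => absurd rfl h, fun h => absurd rfl h⟩
    · by_cases h2 : b = b1
      · rw [h2, hwb1]
        exact ⟨by norm_num, by norm_num, fun _ => by norm_num, fun _ h => absurd rfl h⟩
      · have h3 : wV b = 16 := by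
          change (if b = v' then 13 else if b = b1 then 15 else 16) = 16
          rw [if_neg h1, if_neg h2]
        rw [h3]
        exact ⟨by norm_num, by norm_num, fun _ => by norm_num, fun _ _ => rfl⟩
  have hwe : ∀ k, Λ.we k ≤ 33 := by
    intro k
    change wU (sE k) + wV (tE k) ≤ 33
    rcases k with b | a | _
    · change wU u' + wV b ≤ 33
      have := (hwV b).1
      omega
    · change wU a.1 + wV v' ≤ 33
      have := (hwU a.1).1
      omega
    · change wU a1 + wV b1 ≤ 33
      omega
  -- edges through `u` or `v`, or the pair `(a1, b1)`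
  have hedge : ∀ (a : bU) (b : bV), wU a + wV b ≤ 33 → ∃ k, sE k = a ∧ tE k = b := by
    intro a b hab'
    by_cases h1 : a = u'
    · exact ⟨Sum.inl b, h1.symm, rfl⟩
    · by_cases h2 : b = v'
      · exact ⟨Sum.inr (Sum.inl ⟨a, h1⟩), rfl, h2.symm⟩
      · by_cases h3 : a = a1
        · by_cases h4 : b = b1
          · exact ⟨Sum.inr (Sum.inr ()), h3.symm, h4.symm⟩
          · have h5 := (hwV b).2.2.2 h2 h4
            have h6 := (hwU a).2.2.1 h1
            omega
        · have h5 := (hwU a).2.2.2 h1 h3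
          have h6 := (hwV b).2.2.1 h2
          omega
  have hinj : ∀ k l, sE k = sE l → tE k = tE l → k = l := by
    intro k l h1 h2
    rcases k with b | a | _ <;> rcases l with b' | a' | _
    · exact congrArg Sum.inl h2
    · exact absurd (h1 : u' = a'.1).symm a'.2
    · exact absurd (h1 : u' = a1).symm ha1
    · exact absurd (h1 : a.1 = u') a.2
    · exact congrArg (fun x => Sum.inr (Sum.inl x)) (Subtype.ext (h1 : a.1 = a'.1))
    · exact absurd (h2 : v' = b1).symm hb1
    · exact absurd (h1 : a1 = u') ha1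
    · exact absurd (h2 : b1 = v') hb1
    · rfl
  have hadj : ∀ k, Λ.Adj (Sum.inl (sE k)) (Sum.inr (tE k)) := fun k => ⟨k, Or.inl ⟨rfl, rfl⟩⟩
  have hadj' : ∀ k, Λ.Adj (Sum.inr (tE k)) (Sum.inl (sE k)) := fun k => ⟨k, Or.inr ⟨rfl, rfl⟩⟩
  have htou : ∀ a, Relation.ReflTransGen Λ.Adj a (Sum.inl u') := by
    have hvu : Relation.ReflTransGen Λ.Adj (Sum.inr v') (Sum.inl u') :=
      Relation.ReflTransGen.single (hadj' (Sum.inl v'))
    rintro (a | b)
    · by_cases h1 : a = u'
      · rw [h1]
      · exact Relation.ReflTransGen.head (hadj (Sum.inr (Sum.inl ⟨a, h1⟩))) hvu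
    · exact Relation.ReflTransGen.single (hadj' (Sum.inl b))
  have hfrom : ∀ a, Relation.ReflTransGen Λ.Adj (Sum.inl u') a := by
    have hvu : Relation.ReflTransGen Λ.Adj (Sum.inl u') (Sum.inr v') :=
      Relation.ReflTransGen.single (hadj (Sum.inl v'))
    rintro (a | b)
    · by_cases h1 : a = u'
      · rw [h1]
      · exact Relation.ReflTransGen.tail hvu (hadj' (Sum.inr (Sum.inl ⟨a, h1⟩)))
    · exact Relation.ReflTransGen.single (hadj (Sum.inl b))
  have hok : Λ.Ok :=
    { lo := by
        rintro (a | b)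
        · have := (hwU a).2.1
          change 13 ≤ wU a
          omega
        · exact (hwV b).2.1
      hi := by
        rintro (a | b)
        · have := (hwU a).1
          change 2 * wU a < 3 * 13
          omega
        · have := (hwV b).1
          change 2 * wV b < 3 * 13
          omega
      inj := fun k l h1 h2 => hinj k l (Sum.inl_injective h1) (Sum.inr_injective h2)
      col := fun k l h1 => Sum.inl_ne_inr h1 }
  have hq : ∀ (k : bV ⊕ {a : bU // a ≠ u'} ⊕ Unit) (a b : bU ⊕ bV),
      ∑ j, eb.coord k (Pi.single j 1) * qd (fun j a => f a j)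
        (fun j a => ∑ r, ℓ j r * f a r) j a b = -eb.coord k (cup ℓ (f a) (f b)) := by
    intro k a b
    rw [← map_neg, ← QC_coord eb k]
    refine Finset.sum_congr rfl fun j _ => ?_
    congr 1
    simp only [qd, cup, Pi.neg_apply]
    ring
  have hcoord : ∀ k l, eb.coord k (e l) = if k = l then 1 else 0 := by
    intro k l
    rw [← heb l, Module.Basis.coord_apply, Module.Basis.repr_self, Finsupp.single_apply]
    by_cases hkl : k = l
    · rw [if_pos hkl, if_pos hkl.symm]
    · rw [if_neg hkl, if_neg (fun h => hkl h.symm)]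
  refine ⟨bU ⊕ bV, bV ⊕ {a : bU // a ≠ u'} ⊕ Unit, inferInstance, inferInstance,
    ⟨Sum.inl u'⟩, Λ, f, fun a i => bas.coord a (Pi.single i 1),
    fun k j => eb.coord k (Pi.single j 1), ?_, ?_, ?_, fun a b => (htou a).trans (hfrom b)⟩
  · intro a b
    have h1 := QC_coord bas a (f b)
    rw [← hbas b, Module.Basis.coord_apply, Module.Basis.repr_self, Finsupp.single_apply] at h1
    have h2 : ∑ i, f b i * bas.coord a (Pi.single i 1) = if b = a then 1 else 0 := by
      rw [← h1]
      refine Finset.sum_congr rfl fun i _ => ?_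
      rw [hbas b, mul_comm]
    refine h2.trans ?_
    by_cases hab' : a = b
    · rw [if_pos hab', if_pos hab'.symm]
    · rw [if_neg hab', if_neg (fun h => hab' h.symm)]
  · intro i j
    rw [← QC_repr bas i j]
    refine Finset.sum_congr rfl fun a _ => ?_
    rw [hbas a]
  · exact
      { ok := hok
        inv := ⟨fun j k => e k j, fun j l => by
          rw [← QC_repr eb j l]
          refine Finset.sum_congr rfl fun k _ => ?_
          rw [heb k]⟩
        lead := by
          intro k
          rw [hq]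
          have h1 : eb.coord k (cup ℓ (f (Λ.s k)) (f (Λ.t k))) = 1 := by
            have h2 := hcoord k k
            rw [if_pos rfl] at h2
            exact h2
          rw [h1]
          exact neg_ne_zero.2 one_ne_zero
        van := by
          intro k a b hle hne hne'
          rw [hq, neg_eq_zero]
          have h33 := hwe k
          rcases a with a | a <;> rcases b with b | b
          · -- both in `bU`
            by_cases h1 : a = b
            · rw [h1, QC_self, map_zero]
            · exfalso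
              change wU a + wU b ≤ Λ.we k at hle
              have h2 := (hwU a).2
              have h3 := (hwU b).2
              by_cases h4 : a = u'
              · have h5 : b ≠ u' := fun h => h1 (h4.trans h.symm)
                have := h3.2.1 h5
                have := h2.1
                omega
              · have := h2.2.1 h4
                have := h3.1
                omega
          · change wU a + wV b ≤ Λ.we k at hle
            obtain ⟨l, hl1, hl2⟩ := hedge a b (by omega)
            have h1 : k ≠ l := by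
              rintro rfl
              exact hne ⟨congrArg Sum.inl hl1.symm, congrArg Sum.inr hl2.symm⟩
            have h2 := hcoord k l
            rw [if_neg h1] at h2
            rw [← hl1, ← hl2]
            exact h2
          · change wV a + wU b ≤ Λ.we k at hle
            obtain ⟨l, hl1, hl2⟩ := hedge b a (by omega)
            have h1 : k ≠ l := by
              rintro rfl
              exact hne' ⟨congrArg Sum.inr hl2.symm, congrArg Sum.inl hl1.symm⟩
            have h2 := hcoord k l
            rw [if_neg h1] at h2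
            rw [QC_swap, map_neg, neg_eq_zero, ← hl1, ← hl2]
            exact h2
          · have h1 : cup ℓ (f (Sum.inr a)) (f (Sum.inr b)) = 0 := by
              refine hV _ ?_ _ ?_
              · rw [← hspV]
                exact Submodule.subset_span a.2
              · rw [← hspV]
                exact Submodule.subset_span b.2
            rw [h1, map_zero] }

end Pool.Agent.RG.Q
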