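import Mathlib
import Pool.Agent.Lib.RG.QDefs

/-!
PART Q, row Q01: the kernel lemma behind the Vinberg inequality (adapt P01.lean: Idx m -> α, relations indexed by ε, weights Λ.wt with
0 < Λ.W <= wt a from Ok, 5 -> Λ.we k).
-/

set_option autoImplicit false

namespace Pool.Agent.RG.Q

open scoped Classical

section letters

variable {F : Type} [Field F] {α : Type}

theorem Q01_word_cases (w : FreeMonoid α) :
    w = 1 ∨ ∃ w' k, w = w' * FreeMonoid.of k := by
  rcases List.eq_nil_or_concat (FreeMonoid.toList w) with h | ⟨L, b, h⟩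
  · left
    exact FreeMonoid.toList.injective h
  · right
    refine ⟨FreeMonoid.ofList L, b, FreeMonoid.toList.injective ?_⟩
    rw [h, FreeMonoid.toList_mul, FreeMonoid.toList_of, FreeMonoid.toList_ofList,
      List.concat_eq_append]

theorem Q01_word_inj {w w' : FreeMonoid α} {j k : α}
    (h : w * FreeMonoid.of j = w' * FreeMonoid.of k) : w = w' ∧ j = k := by
  have h1 := congrArg FreeMonoid.toList h
  rw [FreeMonoid.toList_mul, FreeMonoid.toList_mul, FreeMonoid.toList_of,
    FreeMonoid.toList_of] at h1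
  obtain ⟨h2, h3⟩ := List.append_inj' h1 rfl
  exact ⟨FreeMonoid.toList.injective h2, List.singleton_injective h3⟩

theorem Q01_word_ne {w : FreeMonoid α} {j : α} : w * FreeMonoid.of j ≠ 1 := by
  intro h
  have h1 := congrArg FreeMonoid.toList h
  rw [FreeMonoid.toList_mul, FreeMonoid.toList_of, FreeMonoid.toList_one] at h1
  exact absurd h1 (by simp)

theorem Q01_wd_mul (u v : FreeMonoid α) : (wd (u * v) : FA F α) = wd u * wd v :=
  map_mul (MonoidAlgebra.of F (FreeMonoid α)) u v

theorem Q01_wd_one : (wd 1 : FA F α) = 1 := map_one (MonoidAlgebra.of F (FreeMonoid α))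

/-- the linear map removing the last letter `j` -/
noncomputable def Q01_rm (j : α) : FA F α →ₗ[F] FA F α :=
  (MonoidAlgebra.basis (FreeMonoid α) F).constr F fun w =>
    if h : ∃ w', w = w' * FreeMonoid.of j then wd h.choose else 0

theorem Q01_rm_wd (j : α) (w : FreeMonoid α) :
    Q01_rm j (wd w : FA F α) = if h : ∃ w', w = w' * FreeMonoid.of j then wd h.choose else 0 := by
  have h1 : (wd w : FA F α) = MonoidAlgebra.basis (FreeMonoid α) F w := by
    rw [MonoidAlgebra.basis_apply]
    rfl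
  rw [h1, Q01_rm, Module.Basis.constr_basis]

theorem Q01_rm_one (j : α) : Q01_rm j (1 : FA F α) = 0 := by
  rw [← Q01_wd_one, Q01_rm_wd, dif_neg]
  rintro ⟨w', h⟩
  exact Q01_word_ne h.symm

theorem Q01_rm_mul_X (j k : α) (x : FA F α) : Q01_rm j (x * X k) = if k = j then x else 0 := by
  induction x using MonoidAlgebra.induction_on with
  | of w =>
    change Q01_rm j (wd w * wd (FreeMonoid.of k)) = if k = j then wd w else 0
    rw [← Q01_wd_mul, Q01_rm_wd]
    by_cases hk : k = j
    · subst hk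
      have hex : ∃ w', w * FreeMonoid.of k = w' * FreeMonoid.of k := ⟨w, rfl⟩
      rw [dif_pos hex, if_pos rfl, (Q01_word_inj hex.choose_spec).1.symm]
    · rw [if_neg hk, dif_neg]
      rintro ⟨w', h⟩
      exact hk (Q01_word_inj h).2
  | add x y hx hy =>
    rw [add_mul, map_add, hx, hy]
    split_ifs <;> simp
  | smul r x hx =>
    rw [smul_mul_assoc, map_smul, hx]
    split_ifs <;> simp

/-- the augmentation -/
noncomputable def Q01_eps : FA F α →ₐ[F] F :=
  MonoidAlgebra.lift F F (FreeMonoid α) (FreeMonoid.lift fun _ => 0)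

theorem Q01_eps_X (j : α) : Q01_eps (X j : FA F α) = 0 := by
  unfold Q01_eps X wd
  rw [MonoidAlgebra.lift_of, FreeMonoid.lift_eval_of]

theorem Q01_eps_wd' (w : FreeMonoid α) (h : w ≠ 1) : Q01_eps (wd w : FA F α) = 0 := by
  rcases Q01_word_cases w with rfl | ⟨w', k, rfl⟩
  · exact absurd rfl h
  · rw [Q01_wd_mul, map_mul]
    have h1 : Q01_eps (wd (FreeMonoid.of k) : FA F α) = 0 := Q01_eps_X k
    rw [h1, mul_zero]

theorem Q01_rm_mul (j : α) (a x : FA F α) :
    Q01_rm j (a * x) = a * Q01_rm j x + Q01_eps x • Q01_rm j a := by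
  induction x using MonoidAlgebra.induction_on with
  | of w =>
    change Q01_rm j (a * wd w) = a * Q01_rm j (wd w) + Q01_eps (wd w : FA F α) • Q01_rm j a
    rcases Q01_word_cases w with rfl | ⟨w', k, rfl⟩
    · rw [Q01_wd_one, mul_one, Q01_rm_one, map_one, mul_zero, zero_add, one_smul]
    · have h1 : (wd (w' * FreeMonoid.of k) : FA F α) = wd w' * X k := Q01_wd_mul _ _
      rw [h1, ← mul_assoc, Q01_rm_mul_X, Q01_rm_mul_X, map_mul, Q01_eps_X, mul_zero, zero_smul,
        add_zero]
      split_ifs <;> simp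
  | add x y hx hy =>
    rw [mul_add, map_add, hx, hy, map_add, map_add, mul_add, add_smul]
    abel
  | smul r x hx =>
    rw [mul_smul_comm, map_smul, hx, map_smul, map_smul, mul_smul_comm, smul_add, smul_assoc]

theorem Q01_expand [Fintype α] (x : FA F α) :
    x = Q01_eps x • (1 : FA F α) + ∑ j, Q01_rm j x * X j := by
  induction x using MonoidAlgebra.induction_on with
  | of w =>
    change wd w = Q01_eps (wd w : FA F α) • (1 : FA F α) + ∑ j, Q01_rm j (wd w : FA F α) * X j
    rcases Q01_word_cases w with rfl | ⟨w', k, rfl⟩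
    · rw [Q01_wd_one, map_one, one_smul]
      have h1 : ∑ j, Q01_rm j (1 : FA F α) * X j = 0 :=
        Finset.sum_eq_zero fun j _ => by rw [Q01_rm_one, zero_mul]
      rw [h1, add_zero]
    · have h1 : (wd (w' * FreeMonoid.of k) : FA F α) = wd w' * X k := Q01_wd_mul _ _
      rw [h1, map_mul, Q01_eps_X, mul_zero, zero_smul, zero_add, Finset.sum_eq_single k]
      · rw [Q01_rm_mul_X, if_pos rfl]
      · intro j _ hj
        rw [Q01_rm_mul_X, if_neg hj.symm, zero_mul]
      · intro h
        exact absurd (Finset.mem_univ k) h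
  | add x y hx hy =>
    have h1 : ∑ j, Q01_rm j (x + y) * X j =
        ∑ j, Q01_rm j x * X j + ∑ j, Q01_rm j y * X j := by
      rw [← Finset.sum_add_distrib]
      exact Finset.sum_congr rfl fun j _ => by rw [map_add, add_mul]
    rw [h1, map_add, add_smul]
    conv_lhs => rw [hx, hy]
    abel
  | smul r x hx =>
    have h1 : ∑ j, Q01_rm j (r • x) * X j = r • ∑ j, Q01_rm j x * X j := by
      rw [Finset.smul_sum]
      exact Finset.sum_congr rfl fun j _ => by rw [map_smul, smul_mul_assoc]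
    rw [h1, map_smul, smul_assoc, ← smul_add, ← hx]

end letters

section weights

variable {F : Type} [Field F] {α ε : Type} {Λ : LD α ε}

theorem Q01_wl_one (Λ : LD α ε) : wl Λ (1 : FreeMonoid α) = 0 := rfl

theorem Q01_wl_mul (Λ : LD α ε) (u v : FreeMonoid α) : wl Λ (u * v) = wl Λ u + wl Λ v := by
  unfold wl
  rw [FreeMonoid.toList_mul, List.map_append, List.sum_append]

theorem Q01_wl_of (Λ : LD α ε) (i : α) : wl Λ (FreeMonoid.of i) = Λ.wt i := by
  unfold wl
  rw [FreeMonoid.toList_of, List.map_singleton, List.sum_singleton]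

theorem Q01_W_pos (hΛ : Λ.Ok) (a : α) : 0 < Λ.W := by
  have h1 := hΛ.lo a
  have h2 := hΛ.hi a
  omega

theorem Q01_wt_pos (hΛ : Λ.Ok) (a : α) : 0 < Λ.wt a := (Q01_W_pos hΛ a).trans_le (hΛ.lo a)

theorem Q01_we_pos (hΛ : Λ.Ok) (k : ε) : 0 < Λ.we k :=
  (Q01_wt_pos hΛ (Λ.s k)).trans_le (Nat.le_add_right _ _)

theorem Q01_eps_wd (w : FreeMonoid α) (h : 0 < wl Λ w) : Q01_eps (wd w : FA F α) = 0 := by
  apply Q01_eps_wd'
  rintro rfl
  exact absurd h (lt_irrefl _)

theorem Q01_Pge_mono {a b : ℤ} (h : a ≤ b) : Pge Λ F b ≤ Pge Λ F a := by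
  apply Submodule.span_mono
  rintro _ ⟨w, hw, rfl⟩
  exact ⟨w, h.trans hw, rfl⟩

theorem Q01_wd_Pge {a : ℤ} {w : FreeMonoid α} (h : a ≤ wl Λ w) : (wd w : FA F α) ∈ Pge Λ F a :=
  Submodule.subset_span ⟨w, h, rfl⟩

theorem Q01_X_Pge (i : α) : (X i : FA F α) ∈ Pge Λ F (Λ.wt i) :=
  Q01_wd_Pge (by rw [Q01_wl_of])

theorem Q01_Pge_mul {a b : ℤ} {x y : FA F α} (hx : x ∈ Pge Λ F a) (hy : y ∈ Pge Λ F b) :
    x * y ∈ Pge Λ F (a + b) := by
  induction hx using Submodule.span_induction with
  | mem x hx =>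
    obtain ⟨w, hw, rfl⟩ := hx
    induction hy using Submodule.span_induction with
    | mem y hy =>
      obtain ⟨w', hw', rfl⟩ := hy
      rw [← Q01_wd_mul]
      refine Q01_wd_Pge ?_
      rw [Q01_wl_mul]
      push_cast
      omega
    | zero => rw [mul_zero]; exact Submodule.zero_mem _
    | add y z _ _ hy hz => rw [mul_add]; exact Submodule.add_mem _ hy hz
    | smul c y _ hy => rw [mul_smul_comm]; exact Submodule.smul_mem _ _ hy
  | zero => rw [zero_mul]; exact Submodule.zero_mem _
  | add y z _ _ hy hz => rw [add_mul]; exact Submodule.add_mem _ hy hz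
  | smul c y _ hy => rw [smul_mul_assoc]; exact Submodule.smul_mem _ _ hy

theorem Q01_rm_Pge {a : ℤ} {x : FA F α} (hx : x ∈ Pge Λ F a) (j : α) :
    Q01_rm j x ∈ Pge Λ F (a - Λ.wt j) := by
  induction hx using Submodule.span_induction with
  | mem x hx =>
    obtain ⟨w, hw, rfl⟩ := hx
    rcases Q01_word_cases w with rfl | ⟨w', k, rfl⟩
    · rw [Q01_wd_one, Q01_rm_one]
      exact Submodule.zero_mem _
    · have h1 : (wd (w' * FreeMonoid.of k) : FA F α) = wd w' * X k := Q01_wd_mul _ _
      rw [h1, Q01_rm_mul_X]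
      split_ifs with hk
      · refine Q01_wd_Pge ?_
        rw [Q01_wl_mul, Q01_wl_of, hk] at hw
        push_cast at hw
        omega
      · exact Submodule.zero_mem _
  | zero => rw [map_zero]; exact Submodule.zero_mem _
  | add y z _ _ hy hz => rw [map_add]; exact Submodule.add_mem _ hy hz
  | smul c y _ hy => rw [map_smul]; exact Submodule.smul_mem _ _ hy

theorem Q01_eps_Pge {a : ℤ} (ha : 0 < a) {x : FA F α} (hx : x ∈ Pge Λ F a) : Q01_eps x = 0 := by
  induction hx using Submodule.span_induction with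
  | mem x hx =>
    obtain ⟨w, hw, rfl⟩ := hx
    exact Q01_eps_wd (Λ := Λ) w (by omega)
  | zero => rw [map_zero]
  | add y z _ _ hy hz => rw [map_add, hy, hz, add_zero]
  | smul c y _ hy => rw [map_smul, hy, smul_zero]

theorem Q01_shape {l : ε → F} {f : ε → FA F α} (hf : Shape Λ l f) (i : ε) :
    f i ∈ Pge Λ F (Λ.we i) := by
  have h1 := Q01_Pge_mono (Λ := Λ) (show (Λ.we i : ℤ) ≤ Λ.we i + 1 by omega) (hf i).2
  have h2 : X (Λ.s i) * X (Λ.t i) - X (Λ.t i) * X (Λ.s i) ∈ Pge Λ F (Λ.we i) := by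
    have h3 : (Λ.we i : ℤ) = Λ.wt (Λ.s i) + Λ.wt (Λ.t i) := by
      unfold LD.we
      push_cast
      rfl
    refine Submodule.sub_mem _ ?_ ?_
    · refine Q01_Pge_mono ?_ (Q01_Pge_mul (Q01_X_Pge (Λ.s i)) (Q01_X_Pge (Λ.t i)))
      omega
    · refine Q01_Pge_mono ?_ (Q01_Pge_mul (Q01_X_Pge (Λ.t i)) (Q01_X_Pge (Λ.s i)))
      omega
  have h3 := Submodule.add_mem _ h1 (Submodule.smul_mem _ (l i) h2)
  rwa [sub_add_cancel] at h3

theorem Q01_smul_mem {I : Ideal (FA F α)} (c : F) {x : FA F α} (hx : x ∈ I) : c • x ∈ I := by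
  have h1 : c • x = (c • (1 : FA F α)) * x := by rw [smul_mul_assoc, one_mul]
  rw [h1]
  exact I.mul_mem_left _ hx

variable {f : ε → FA F α}

theorem Q01_J_wd {n : ℤ} {w : FreeMonoid α} (h : n < wl Λ w) : wd w ∈ J Λ f n :=
  Ideal.subset_span (Or.inr ⟨w, h, rfl⟩)

theorem Q01_J_rel (n : ℤ) (i : ε) (x : FA F α) : f i * x ∈ J Λ f n := by
  induction x using MonoidAlgebra.induction_on with
  | of w => exact Ideal.subset_span (Or.inl ⟨i, w, rfl⟩)
  | add x y hx hy => rw [mul_add]; exact (J Λ f n).add_mem hx hy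
  | smul r x hx => rw [mul_smul_comm]; exact Q01_smul_mem r hx

theorem Q01_J_Pge {n k : ℤ} (h : n < k) {x : FA F α} (hx : x ∈ Pge Λ F k) : x ∈ J Λ f n := by
  induction hx using Submodule.span_induction with
  | mem x hx =>
    obtain ⟨w, hw, rfl⟩ := hx
    exact Q01_J_wd (h.trans_le hw)
  | zero => exact (J Λ f n).zero_mem
  | add y z _ _ hy hz => exact (J Λ f n).add_mem hy hz
  | smul c y _ hy => exact Q01_smul_mem c hy

theorem Q01_J_mul {a k : ℤ} {x y : FA F α} (hx : x ∈ J Λ f a) (hy : y ∈ Pge Λ F k) :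
    x * y ∈ J Λ f (a + k) := by
  induction hx using Submodule.span_induction with
  | mem x hx =>
    rcases hx with ⟨i, w, rfl⟩ | ⟨w, hw, rfl⟩
    · rw [mul_assoc]
      exact Q01_J_rel _ _ _
    · refine Q01_J_Pge (k := wl Λ w + k) (by omega) (Q01_Pge_mul (Q01_wd_Pge le_rfl) hy)
  | zero => rw [zero_mul]; exact (J Λ f _).zero_mem
  | add y z _ _ hy hz => rw [add_mul]; exact (J Λ f _).add_mem hy hz
  | smul c y _ hy => rw [smul_eq_mul, mul_assoc]; exact (J Λ f _).mul_mem_left _ hy

theorem Q01_J_mono {a b : ℤ} (h : a ≤ b) : J Λ f b ≤ J Λ f a := by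
  apply Ideal.span_mono
  rintro x (hx | ⟨w, hw, rfl⟩)
  · exact Or.inl hx
  · exact Or.inr ⟨w, h.trans_lt hw, rfl⟩

theorem Q01_J_neg {n : ℤ} (h : n < 0) : J Λ f n = ⊤ := by
  rw [Ideal.eq_top_iff_one, ← Q01_wd_one]
  exact Q01_J_wd (by rw [Q01_wl_one]; exact_mod_cast h)

theorem Q01_eps_J (hΛ : Λ.Ok) {l : ε → F} (hf : Shape Λ l f) {n : ℤ} (hn : 0 ≤ n) {x : FA F α}
    (hx : x ∈ J Λ f n) : Q01_eps x = 0 := by
  induction hx using Submodule.span_induction with
  | mem x hx =>
    rcases hx with ⟨i, w, rfl⟩ | ⟨w, hw, rfl⟩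
    · have hpos : (0 : ℤ) < Λ.we i := by exact_mod_cast Q01_we_pos hΛ i
      rw [map_mul, Q01_eps_Pge hpos (Q01_shape hf i), zero_mul]
    · exact Q01_eps_wd (Λ := Λ) w (by omega)
  | zero => rw [map_zero]
  | add y z _ _ hy hz => rw [map_add, hy, hz, add_zero]
  | smul c y _ hy => rw [smul_eq_mul, map_mul, hy, mul_zero]

end weights

variable {F : Type} [Field F] {α ε : Type} [Fintype α] [Fintype ε]

theorem Q01_kernel (Λ : LD α ε) (hΛ : Λ.Ok) (l : ε → F) (f : ε → FA F α) (hf : Shape Λ l f) :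
    ∃ g : ε → α → FA F α, (∀ k, f k = ∑ a, g k a * X a) ∧
      (∀ k a, g k a ∈ Pge Λ F ((Λ.we k : ℤ) - Λ.wt a)) ∧
      ∀ (n : ℤ) (c : α → FA F α), ∑ a, c a * X a ∈ J Λ f n →
        ∃ b : ε → FA F α, ∀ a, c a - ∑ k, b k * g k a ∈ J Λ f (n - Λ.wt a) := by
  refine ⟨fun i j => Q01_rm j (f i), fun i => ?_, fun i j => Q01_rm_Pge (Q01_shape hf i) j, ?_⟩
  · have h1 := Q01_expand (f i)
    have hpos : (0 : ℤ) < Λ.we i := by exact_mod_cast Q01_we_pos hΛ i
    rw [Q01_eps_Pge hpos (Q01_shape hf i), zero_smul, zero_add] at h1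
    exact h1
  · intro n c hc
    by_cases hn : 0 ≤ n
    · have key : ∀ x ∈ J Λ f n, ∃ a : ε → FA F α,
          ∀ j, Q01_rm j x - ∑ i, a i * Q01_rm j (f i) ∈ J Λ f (n - Λ.wt j) := by
        intro x hx
        induction hx using Submodule.span_induction with
        | mem x hx =>
          rcases hx with ⟨i, w, rfl⟩ | ⟨w, hw, rfl⟩
          · rcases Q01_word_cases w with rfl | ⟨w', k, rfl⟩
            · refine ⟨fun i' => if i' = i then 1 else 0, fun j => ?_⟩
              rw [Q01_wd_one, mul_one, Finset.sum_eq_single i]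
              · simp only [if_true]
                rw [one_mul, sub_self]
                exact (J Λ f _).zero_mem
              · intro i' _ hi'
                simp only [if_neg hi']
                rw [zero_mul]
              · intro h
                exact absurd (Finset.mem_univ i) h
            · refine ⟨0, fun j => ?_⟩
              have h1 : (wd (w' * FreeMonoid.of k) : FA F α) = wd w' * X k := Q01_wd_mul _ _
              have h2 : ∑ i', (0 : ε → FA F α) i' * Q01_rm j (f i') = 0 :=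
                Finset.sum_eq_zero fun i' _ => by rw [Pi.zero_apply, zero_mul]
              rw [h1, h2, sub_zero, ← mul_assoc, Q01_rm_mul_X]
              split_ifs
              · exact Q01_J_rel _ _ _
              · exact (J Λ f _).zero_mem
          · refine ⟨0, fun j => ?_⟩
            have h2 : ∑ i', (0 : ε → FA F α) i' * Q01_rm j (f i') = 0 :=
              Finset.sum_eq_zero fun i' _ => by rw [Pi.zero_apply, zero_mul]
            rw [h2, sub_zero]
            exact Q01_J_Pge (k := wl Λ w - Λ.wt j) (by omega) (Q01_rm_Pge (Q01_wd_Pge le_rfl) j)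
        | zero =>
          refine ⟨0, fun j => ?_⟩
          have h2 : ∑ i', (0 : ε → FA F α) i' * Q01_rm j (f i') = 0 :=
            Finset.sum_eq_zero fun i' _ => by rw [Pi.zero_apply, zero_mul]
          rw [h2, sub_zero, map_zero]
          exact (J Λ f _).zero_mem
        | add x y _ _ hx hy =>
          obtain ⟨a, ha⟩ := hx
          obtain ⟨b, hb⟩ := hy
          refine ⟨a + b, fun j => ?_⟩
          have h2 : ∑ i, (a + b) i * Q01_rm j (f i) =
              ∑ i, a i * Q01_rm j (f i) + ∑ i, b i * Q01_rm j (f i) := by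
            rw [← Finset.sum_add_distrib]
            exact Finset.sum_congr rfl fun i _ => by rw [Pi.add_apply, add_mul]
          have h3 := (J Λ f _).add_mem (ha j) (hb j)
          rw [map_add, h2]
          have h4 : Q01_rm j x + Q01_rm j y -
              (∑ i, a i * Q01_rm j (f i) + ∑ i, b i * Q01_rm j (f i)) =
              Q01_rm j x - ∑ i, a i * Q01_rm j (f i) +
              (Q01_rm j y - ∑ i, b i * Q01_rm j (f i)) := by abel
          rw [h4]
          exact h3
        | smul c y hy' hy =>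
          obtain ⟨a, ha⟩ := hy
          refine ⟨fun i => c * a i, fun j => ?_⟩
          have h2 : ∑ i, c * a i * Q01_rm j (f i) = c * ∑ i, a i * Q01_rm j (f i) := by
            rw [Finset.mul_sum]
            exact Finset.sum_congr rfl fun i _ => mul_assoc _ _ _
          rw [smul_eq_mul, Q01_rm_mul, Q01_eps_J hΛ hf hn hy', zero_smul, add_zero, h2, ← mul_sub]
          exact (J Λ f _).mul_mem_left _ (ha j)
      obtain ⟨a, ha⟩ := key _ hc
      refine ⟨a, fun j => ?_⟩
      have h1 : Q01_rm j (∑ k, c k * X k) = c j := by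
        rw [map_sum, Finset.sum_eq_single j]
        · rw [Q01_rm_mul_X, if_pos rfl]
        · intro k _ hk
          rw [Q01_rm_mul_X, if_neg hk]
        · intro h
          exact absurd (Finset.mem_univ j) h
      have h2 := ha j
      rwa [h1] at h2
    · refine ⟨0, fun j => ?_⟩
      rw [Q01_J_neg (by omega)]
      exact Submodule.mem_top

end Pool.Agent.RG.Q
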