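import Mathlib
import Pool.Agent.Lib.RG.Q01

/-!
PART Q, row Q02: the Vinberg inequality (adapt P02.lean; relations of different weights we k = wt (s k) + wt (t k)).
-/

set_option autoImplicit false
set_option linter.unusedSectionVars false

namespace Pool.Agent.RG.Q

open scoped Classical

variable {F : Type} [Field F] {α ε : Type} [Fintype α] [Fintype ε]

section aux

variable {Λ : LD α ε}

private theorem q_word_cases (w : FreeMonoid α) :
    w = 1 ∨ ∃ w' k, w = w' * FreeMonoid.of k := by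
  rcases List.eq_nil_or_concat (FreeMonoid.toList w) with h | ⟨L, b, h⟩
  · left
    exact FreeMonoid.toList.injective h
  · right
    refine ⟨FreeMonoid.ofList L, b, FreeMonoid.toList.injective ?_⟩
    rw [h, FreeMonoid.toList_mul, FreeMonoid.toList_of, FreeMonoid.toList_ofList,
      List.concat_eq_append]

private theorem q_wl_mul (u v : FreeMonoid α) : wl Λ (u * v) = wl Λ u + wl Λ v := by
  unfold wl
  rw [FreeMonoid.toList_mul, List.map_append, List.sum_append]

private theorem q_wl_of (i : α) : wl Λ (FreeMonoid.of i) = Λ.wt i := by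
  unfold wl
  rw [FreeMonoid.toList_of, List.map_singleton, List.sum_singleton]

private theorem q_wd_mul (u v : FreeMonoid α) : (wd (u * v) : FA F α) = wd u * wd v :=
  map_mul (MonoidAlgebra.of F (FreeMonoid α)) u v

private theorem q_wd_one : (wd 1 : FA F α) = 1 := map_one (MonoidAlgebra.of F (FreeMonoid α))

/-- the augmentation -/
private noncomputable def q_eps : FA F α →ₐ[F] F :=
  MonoidAlgebra.lift F F (FreeMonoid α) (FreeMonoid.lift fun _ => 0)

private theorem q_eps_X (j : α) : q_eps (X j : FA F α) = 0 := by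
  unfold q_eps X wd
  rw [MonoidAlgebra.lift_of, FreeMonoid.lift_eval_of]

private theorem q_eps_wd (w : FreeMonoid α) (h : 0 < wl Λ w) : q_eps (wd w : FA F α) = 0 := by
  rcases q_word_cases w with rfl | ⟨w', k, rfl⟩
  · exact absurd h (lt_irrefl _)
  · rw [q_wd_mul, map_mul]
    have h1 : q_eps (wd (FreeMonoid.of k) : FA F α) = 0 := q_eps_X k
    rw [h1, mul_zero]

private theorem q_Pge_mono {a b : ℤ} (h : a ≤ b) : Pge Λ F b ≤ Pge Λ F a := by
  apply Submodule.span_mono
  rintro _ ⟨w, hw, rfl⟩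
  exact ⟨w, h.trans hw, rfl⟩

private theorem q_wd_Pge {a : ℤ} {w : FreeMonoid α} (h : a ≤ wl Λ w) :
    (wd w : FA F α) ∈ Pge Λ F a :=
  Submodule.subset_span ⟨w, h, rfl⟩

private theorem q_X_Pge (i : α) : (X i : FA F α) ∈ Pge Λ F (Λ.wt i) :=
  q_wd_Pge (by rw [q_wl_of])

private theorem q_Pge_mul {a b : ℤ} {x y : FA F α} (hx : x ∈ Pge Λ F a) (hy : y ∈ Pge Λ F b) :
    x * y ∈ Pge Λ F (a + b) := by
  induction hx using Submodule.span_induction with
  | mem x hx =>
    obtain ⟨w, hw, rfl⟩ := hx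
    induction hy using Submodule.span_induction with
    | mem y hy =>
      obtain ⟨w', hw', rfl⟩ := hy
      rw [← q_wd_mul]
      refine q_wd_Pge ?_
      rw [q_wl_mul]
      push_cast
      omega
    | zero => rw [mul_zero]; exact Submodule.zero_mem _
    | add y z _ _ hy hz => rw [mul_add]; exact Submodule.add_mem _ hy hz
    | smul c y _ hy => rw [mul_smul_comm]; exact Submodule.smul_mem _ _ hy
  | zero => rw [zero_mul]; exact Submodule.zero_mem _
  | add y z _ _ hy hz => rw [add_mul]; exact Submodule.add_mem _ hy hz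
  | smul c y _ hy => rw [smul_mul_assoc]; exact Submodule.smul_mem _ _ hy

private theorem q_eps_Pge {a : ℤ} (ha : 0 < a) {x : FA F α} (hx : x ∈ Pge Λ F a) :
    q_eps x = 0 := by
  induction hx using Submodule.span_induction with
  | mem x hx =>
    obtain ⟨w, hw, rfl⟩ := hx
    exact q_eps_wd (Λ := Λ) w (by omega)
  | zero => rw [map_zero]
  | add y z _ _ hy hz => rw [map_add, hy, hz, add_zero]
  | smul c y _ hy => rw [map_smul, hy, smul_zero]

private theorem q_wt_pos (hΛ : Λ.Ok) (a : α) : 0 < Λ.wt a := by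
  have h1 := hΛ.lo a
  have h2 := hΛ.hi a
  omega

private theorem q_shape {l : ε → F} {f : ε → FA F α} (hf : Shape Λ l f) (k : ε) :
    f k ∈ Pge Λ F (Λ.we k) := by
  have h1 := q_Pge_mono (show (Λ.we k : ℤ) ≤ Λ.we k + 1 by omega) (hf k).2
  have h2 : X (Λ.s k) * X (Λ.t k) - X (Λ.t k) * X (Λ.s k) ∈ Pge Λ F (Λ.we k) := by
    have hw : (Λ.we k : ℤ) = Λ.wt (Λ.s k) + Λ.wt (Λ.t k) := by
      unfold LD.we
      push_cast
      rfl
    refine Submodule.sub_mem _ ?_ ?_
    · refine q_Pge_mono ?_ (q_Pge_mul (q_X_Pge (Λ.s k)) (q_X_Pge (Λ.t k)))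
      omega
    · refine q_Pge_mono ?_ (q_Pge_mul (q_X_Pge (Λ.t k)) (q_X_Pge (Λ.s k)))
      omega
  have h3 := Submodule.add_mem _ h1 (Submodule.smul_mem _ (l k) h2)
  rwa [sub_add_cancel] at h3

variable {f : ε → FA F α}

private theorem q_smul_mem {I : Ideal (FA F α)} (c : F) {x : FA F α} (hx : x ∈ I) : c • x ∈ I := by
  have h1 : c • x = (c • (1 : FA F α)) * x := by rw [smul_mul_assoc, one_mul]
  rw [h1]
  exact I.mul_mem_left _ hx

private theorem q_J_wd {n : ℤ} {w : FreeMonoid α} (h : n < wl Λ w) : wd w ∈ J Λ f n :=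
  Ideal.subset_span (Or.inr ⟨w, h, rfl⟩)

private theorem q_J_rel (n : ℤ) (i : ε) (x : FA F α) : f i * x ∈ J Λ f n := by
  induction x using MonoidAlgebra.induction_on with
  | of w => exact Ideal.subset_span (Or.inl ⟨i, w, rfl⟩)
  | add x y hx hy => rw [mul_add]; exact (J Λ f n).add_mem hx hy
  | smul r x hx => rw [mul_smul_comm]; exact q_smul_mem r hx

private theorem q_J_Pge {n k : ℤ} (h : n < k) {x : FA F α} (hx : x ∈ Pge Λ F k) :
    x ∈ J Λ f n := by
  induction hx using Submodule.span_induction with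
  | mem x hx =>
    obtain ⟨w, hw, rfl⟩ := hx
    exact q_J_wd (h.trans_le hw)
  | zero => exact (J Λ f n).zero_mem
  | add y z _ _ hy hz => exact (J Λ f n).add_mem hy hz
  | smul c y _ hy => exact q_smul_mem c hy

private theorem q_J_mul {a k : ℤ} {x y : FA F α} (hx : x ∈ J Λ f a) (hy : y ∈ Pge Λ F k) :
    x * y ∈ J Λ f (a + k) := by
  induction hx using Submodule.span_induction with
  | mem x hx =>
    rcases hx with ⟨i, w, rfl⟩ | ⟨w, hw, rfl⟩
    · rw [mul_assoc]
      exact q_J_rel _ _ _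
    · refine q_J_Pge (k := wl Λ w + k) (by omega) (q_Pge_mul (q_wd_Pge le_rfl) hy)
  | zero => rw [zero_mul]; exact (J Λ f _).zero_mem
  | add y z _ _ hy hz => rw [add_mul]; exact (J Λ f _).add_mem hy hz
  | smul c y _ hy => rw [smul_eq_mul, mul_assoc]; exact (J Λ f _).mul_mem_left _ hy

private theorem q_eps_J (hΛ : Λ.Ok) {l : ε → F} (hf : Shape Λ l f) {n : ℤ} (hn : 0 ≤ n)
    {x : FA F α} (hx : x ∈ J Λ f n) : q_eps x = 0 := by
  induction hx using Submodule.span_induction with
  | mem x hx =>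
    rcases hx with ⟨i, w, rfl⟩ | ⟨w, hw, rfl⟩
    · have h1 := q_wt_pos hΛ (Λ.s i)
      have h2 : (0 : ℤ) < Λ.we i := by
        unfold LD.we
        push_cast
        omega
      rw [map_mul, q_eps_Pge h2 (q_shape hf i), zero_mul]
    · exact q_eps_wd (Λ := Λ) w (by omega)
  | zero => rw [map_zero]
  | add y z _ _ hy hz => rw [map_add, hy, hz, add_zero]
  | smul c y _ hy => rw [smul_eq_mul, map_mul, hy, mul_zero]

private theorem q_length (hΛ : Λ.Ok) (w : FreeMonoid α) :
    (FreeMonoid.toList w).length ≤ wl Λ w := by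
  unfold wl
  induction FreeMonoid.toList w with
  | nil => exact le_rfl
  | cons a L ih =>
    rw [List.map_cons, List.sum_cons, List.length_cons]
    have := q_wt_pos hΛ a
    omega

private theorem q_words_finite (hΛ : Λ.Ok) (n : ℤ) :
    {w : FreeMonoid α | (wl Λ w : ℤ) ≤ n}.Finite := by
  have h1 : {L : List α | L.length ≤ n.toNat}.Finite := List.finite_length_le _ _
  refine (h1.preimage (f := FreeMonoid.toList) FreeMonoid.toList.injective.injOn).subset ?_
  intro w hw
  have h2 := q_length hΛ w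
  have h3 : (wl Λ w : ℤ) ≤ n := hw
  show (FreeMonoid.toList w).length ≤ n.toNat
  omega

/-- right multiplication by `y`, from the quotient by `J f a` to the quotient by `J f b` -/
private noncomputable def q_mul (Λ : LD α ε) (f : ε → FA F α) {a b : ℤ} (y : FA F α)
    (h : ∀ x ∈ J Λ f a, x * y ∈ J Λ f b) :
    (FA F α ⧸ J Λ f a) →ₗ[FA F α] (FA F α ⧸ J Λ f b) :=
  Submodule.mapQ (J Λ f a) (J Λ f b) (LinearMap.toSpanSingleton (FA F α) (FA F α) y) h

end aux

theorem Q02_finite (Λ : LD α ε) (hΛ : Λ.Ok) (f : ε → FA F α) (n : ℤ) :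
    Module.Finite F (FA F α ⧸ J Λ f n) := by
  have hfin : ((fun w : FreeMonoid α => (Submodule.Quotient.mk (wd w) : FA F α ⧸ J Λ f n)) ''
      {w | (wl Λ w : ℤ) ≤ n}).Finite := (q_words_finite hΛ n).image _
  refine ⟨⟨hfin.toFinset, ?_⟩⟩
  rw [Set.Finite.coe_toFinset, eq_top_iff]
  rintro x -
  obtain ⟨y, rfl⟩ := Submodule.Quotient.mk_surjective _ x
  induction y using MonoidAlgebra.induction_on with
  | of w =>
    by_cases hw : (wl Λ w : ℤ) ≤ n
    · exact Submodule.subset_span ⟨w, hw, rfl⟩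
    · have h1 : (Submodule.Quotient.mk (wd w) : FA F α ⧸ J Λ f n) = 0 :=
        (Submodule.Quotient.mk_eq_zero _).2 (q_J_wd (by omega))
      change Submodule.Quotient.mk (wd w) ∈ _
      rw [h1]
      exact Submodule.zero_mem _
  | add y z hy hz =>
    rw [Submodule.Quotient.mk_add]
    exact Submodule.add_mem _ hy hz
  | smul c y hy =>
    rw [Submodule.Quotient.mk_smul]
    exact Submodule.smul_mem _ _ hy

theorem Q02_vinberg (Λ : LD α ε) (hΛ : Λ.Ok) (l : ε → F) (f : ε → FA F α) (hf : Shape Λ l f)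
    (n : ℤ) (hn : 0 ≤ n) :
    1 + ∑ a, bd Λ f (n - Λ.wt a) ≤ bd Λ f n + ∑ k, bd Λ f (n - Λ.we k) := by
  obtain ⟨g, hg1, hg2, hg3⟩ := Q01_kernel Λ hΛ l f hf
  have hfin : ∀ k : ℤ, Module.Finite F (FA F α ⧸ J Λ f k) := Q02_finite Λ hΛ f
  have hX : ∀ j : α, ∀ x ∈ J Λ f (n - Λ.wt j), x * X j ∈ J Λ f n := by
    intro j x hx
    have h1 := q_J_mul hx (q_X_Pge (Λ := Λ) j)
    rwa [sub_add_cancel] at h1
  have hG : ∀ (i : ε) (j : α), ∀ x ∈ J Λ f (n - Λ.we i), x * g i j ∈ J Λ f (n - Λ.wt j) := by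
    intro i j x hx
    have h1 := q_J_mul hx (hg2 i j)
    rwa [show n - Λ.we i + ((Λ.we i : ℤ) - (Λ.wt j : ℤ)) = n - Λ.wt j by ring] at h1
  let θ : (∀ j : α, FA F α ⧸ J Λ f (n - Λ.wt j)) →ₗ[FA F α] (FA F α ⧸ J Λ f n) :=
    ∑ j, (q_mul Λ f (X j) (hX j)).comp (LinearMap.proj j)
  let κ : (∀ k : ε, FA F α ⧸ J Λ f (n - Λ.we k)) →ₗ[FA F α]
      (∀ j : α, FA F α ⧸ J Λ f (n - Λ.wt j)) :=
    LinearMap.pi fun j => ∑ i, (q_mul Λ f (g i j) (hG i j)).comp (LinearMap.proj i)
  have hθ : ∀ c : α → FA F α, θ (fun j => Submodule.Quotient.mk (c j)) =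
      Submodule.Quotient.mk (∑ j, c j * X j) := by
    intro c
    show (∑ j, (q_mul Λ f (X j) (hX j)).comp (LinearMap.proj j)) _ = _
    rw [LinearMap.sum_apply]
    have h1 : (Submodule.Quotient.mk (∑ j, c j * X j) : FA F α ⧸ J Λ f n) =
        ∑ j, Submodule.Quotient.mk (c j * X j) := map_sum (Submodule.mkQ (J Λ f n)) _ _
    rw [h1]
    rfl
  have hκ : ∀ a : ε → FA F α, κ (fun j => Submodule.Quotient.mk (a j)) =
      fun j => Submodule.Quotient.mk (∑ i, a i * g i j) := by
    intro a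
    funext j
    show (∑ i, (q_mul Λ f (g i j) (hG i j)).comp (LinearMap.proj i)) _ = _
    rw [LinearMap.sum_apply]
    have h1 : (Submodule.Quotient.mk (∑ i, a i * g i j) : FA F α ⧸ J Λ f (n - Λ.wt j)) =
        ∑ i, Submodule.Quotient.mk (a i * g i j) :=
      map_sum (Submodule.mkQ (J Λ f (n - Λ.wt j))) _ _
    rw [h1]
    rfl
  let θ' := θ.restrictScalars F
  let κ' := κ.restrictScalars F
  have hker : LinearMap.ker θ' ≤ LinearMap.range κ' := by
    intro v hv
    have hex : ∀ j, ∃ c : FA F α, (Submodule.Quotient.mk c : FA F α ⧸ J Λ f (n - Λ.wt j)) = v j :=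
      fun j => Submodule.Quotient.mk_surjective _ (v j)
    choose c hc using hex
    have hv1 : θ v = 0 := hv
    have hv2 : v = fun j => Submodule.Quotient.mk (c j) := funext fun j => (hc j).symm
    rw [hv2, hθ, Submodule.Quotient.mk_eq_zero] at hv1
    obtain ⟨a, ha⟩ := hg3 n c hv1
    refine ⟨fun j => Submodule.Quotient.mk (a j), ?_⟩
    show κ _ = v
    rw [hκ, hv2]
    funext j
    exact ((Submodule.Quotient.eq _).2 (ha j)).symm
  have h1 : Module.finrank F (LinearMap.ker θ') ≤ ∑ k, bd Λ f (n - Λ.we k) := by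
    refine (Submodule.finrank_mono hker).trans ((LinearMap.finrank_range_le κ').trans ?_)
    rw [Module.finrank_pi_fintype]
    exact le_rfl
  have h2 : Module.finrank F (LinearMap.range θ') < bd Λ f n := by
    refine Submodule.finrank_lt ?_
    intro htop
    have h3 : (Submodule.Quotient.mk (1 : FA F α) : FA F α ⧸ J Λ f n) ∈ LinearMap.range θ' := by
      rw [htop]
      exact Submodule.mem_top
    obtain ⟨v, hv⟩ := h3
    have hex : ∀ j, ∃ c : FA F α, (Submodule.Quotient.mk c : FA F α ⧸ J Λ f (n - Λ.wt j)) = v j :=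
      fun j => Submodule.Quotient.mk_surjective _ (v j)
    choose c hc using hex
    have hv1 : θ v = Submodule.Quotient.mk 1 := hv
    have hv2 : v = fun j => Submodule.Quotient.mk (c j) := funext fun j => (hc j).symm
    rw [hv2, hθ, Submodule.Quotient.eq] at hv1
    have h4 := q_eps_J hΛ hf hn hv1
    rw [map_sub, map_sum, map_one] at h4
    have h5 : ∑ j, q_eps (c j * X j) = 0 := Finset.sum_eq_zero fun j _ => by
      rw [map_mul, q_eps_X, mul_zero]
    rw [h5, zero_sub] at h4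
    exact one_ne_zero (neg_eq_zero.1 h4)
  have h3 := LinearMap.finrank_range_add_finrank_ker θ'
  rw [Module.finrank_pi_fintype] at h3
  have h4 : ∑ j : α, bd Λ f (n - Λ.wt j) =
      ∑ j : α, Module.finrank F (FA F α ⧸ J Λ f (n - Λ.wt j)) := rfl
  omega

end Pool.Agent.RG.Q
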