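import Mathlib
import Pool.Agent.Lib.RG.QDefs

/-!
PART Q, row Q03: normal words span modulo J (adapt P03.lean), and a word of weight exactly n is congruent to a normal
word with the same letters modulo J Λ f n.
-/

set_option autoImplicit false

namespace Pool.Agent.RG.Q

open scoped Classical

variable {F : Type} [Field F] {α ε : Type} [Fintype α] [Fintype ε]

omit [Fintype α] [Fintype ε] in
/-- the letter is a target -/
private def isT (Λ : LD α ε) (a : α) : Prop := ∃ k, a = Λ.t k

private noncomputable def inv (Λ : LD α ε) : List α → ℕ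
  | [] => 0
  | i :: l => (if isT Λ i then 0 else l.countP (fun a => decide (isT Λ a))) + inv Λ l

omit [Fintype α] [Fintype ε] in
private lemma countP_swap (Λ : LD α ε) (u v : List α) (i j : α) :
    (u ++ i :: j :: v).countP (fun a => decide (isT Λ a)) =
      (u ++ j :: i :: v).countP (fun a => decide (isT Λ a)) := by
  simp only [List.countP_append, List.countP_cons]
  omega

omit [Fintype α] [Fintype ε] in
private lemma inv_swap (Λ : LD α ε) (u v : List α) (a b : α) (ha : ¬ isT Λ a) (hb : isT Λ b) :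
    inv Λ (u ++ b :: a :: v) < inv Λ (u ++ a :: b :: v) := by
  induction u with
  | nil =>
    simp only [List.nil_append, inv, List.countP_cons, ha, hb, if_true, if_false,
      decide_true, decide_false]
    simp
  | cons c u ih =>
    simp only [List.cons_append, inv]
    rw [countP_swap Λ u v b a]
    omega

omit [Fintype α] [Fintype ε] in
private lemma wl_mul (Λ : LD α ε) (u v : FreeMonoid α) : wl Λ (u * v) = wl Λ u + wl Λ v := by
  simp [wl, FreeMonoid.toList_mul, List.map_append, List.sum_append]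

omit [Fintype α] in
private lemma wd_mul (u v : FreeMonoid α) : (wd (u * v) : FA F α) = wd u * wd v := by
  simp [wd]

omit [Fintype α] [Fintype ε] in
private lemma wl_of (Λ : LD α ε) (i : α) : wl Λ (FreeMonoid.of i) = Λ.wt i := by
  simp [wl]

omit [Fintype α] [Fintype ε] in
private lemma exists_bad (Λ : LD α ε) (l : List α)
    (h : ¬ List.IsChain (fun i j : α => ¬ Bad Λ i j) l) :
    ∃ u v i j, l = u ++ i :: j :: v ∧ Bad Λ i j := by
  induction l with
  | nil => exact absurd List.IsChain.nil h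
  | cons a l ih =>
    cases l with
    | nil => exact absurd (List.IsChain.singleton a) h
    | cons b l =>
      rw [List.isChain_cons_cons] at h
      by_cases hab : Bad Λ a b
      · exact ⟨[], l, a, b, rfl, hab⟩
      · have h2 : ¬ List.IsChain (fun i j : α => ¬ Bad Λ i j) (b :: l) := fun h' => h ⟨hab, h'⟩
        obtain ⟨u, v, i, j, e, hb⟩ := ih h2
        exact ⟨a :: u, v, i, j, by rw [e]; rfl, hb⟩

/-- the span of the normal words of weight at most `n` plus the ideal -/
private noncomputable def TT (Λ : LD α ε) (f : ε → FA F α) (n : ℤ) : Submodule F (FA F α) :=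
  Submodule.span F {z : FA F α | ∃ w : FreeMonoid α,
    IsNormalWord Λ w ∧ (wl Λ w : ℤ) ≤ n ∧ z = wd w} ⊔ (J Λ f n).restrictScalars F

omit [Fintype α] [Fintype ε] in
private lemma J_rel (Λ : LD α ε) (f : ε → FA F α) (n : ℤ) (i : ε) (u v : FreeMonoid α) :
    wd u * f i * wd v ∈ J Λ f n := by
  rw [mul_assoc]
  exact Ideal.mul_mem_left _ _ (Ideal.subset_span (Or.inl ⟨i, v, rfl⟩))

omit [Fintype α] [Fintype ε] in
private lemma J_big (Λ : LD α ε) (f : ε → FA F α) (n : ℤ) (w : FreeMonoid α) (h : n < wl Λ w) :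
    (wd w : FA F α) ∈ J Λ f n :=
  Ideal.subset_span (Or.inr ⟨w, h, rfl⟩)

omit [Fintype α] [Fintype ε] in
private lemma sandwich (Λ : LD α ε) (S : Submodule F (FA F α)) (u v : FreeMonoid α) (k : ℤ)
    (hS : ∀ w : FreeMonoid α, wl Λ u + k + wl Λ v ≤ wl Λ w → wd w ∈ S) (g : FA F α)
    (hg : g ∈ Pge Λ F k) : wd u * g * wd v ∈ S := by
  refine Submodule.span_induction (p := fun g _ => wd u * g * wd v ∈ S) ?_ ?_ ?_ ?_ hg
  · rintro x ⟨w, hw, rfl⟩
    rw [← wd_mul, ← wd_mul]
    refine hS _ ?_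
    rw [wl_mul, wl_mul]
    push_cast
    omega
  · simp
  · intro x y _ _ hx hy
    rw [mul_add, add_mul]
    exact S.add_mem hx hy
  · intro c x _ hx
    rw [mul_smul_comm, smul_mul_assoc]
    exact S.smul_mem c hx

omit [Fintype α] [Fintype ε] in
/-- One swap of a bad pair. -/
private lemma step (Λ : LD α ε) (hΛ : Λ.Ok) (l : ε → F) (f : ε → FA F α) (hf : Shape Λ l f)
    (w : FreeMonoid α) (hnw : ¬ IsNormalWord Λ w) :
    ∃ w' : FreeMonoid α, inv Λ (FreeMonoid.toList w') < inv Λ (FreeMonoid.toList w) ∧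
      (FreeMonoid.toList w').Perm (FreeMonoid.toList w) ∧ wl Λ w' = wl Λ w ∧
      ∀ S : Submodule F (FA F α), (∀ i u v, wd u * f i * wd v ∈ S) →
        (∀ w2 : FreeMonoid α, wl Λ w + 1 ≤ wl Λ w2 → wd w2 ∈ S) → wd w - wd w' ∈ S := by
  obtain ⟨u, v, i, j, e, hb⟩ := exists_bad Λ _ hnw
  obtain ⟨k, rfl, rfl⟩ := hb
  set u' := FreeMonoid.ofList u with hu'
  set v' := FreeMonoid.ofList v with hv'
  have ew : w = u' * FreeMonoid.of (Λ.s k) * FreeMonoid.of (Λ.t k) * v' := by
    apply FreeMonoid.toList.injective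
    simp [FreeMonoid.toList_mul, e, hu', hv']
  have ewl : wl Λ w = wl Λ u' + Λ.we k + wl Λ v' := by
    rw [ew, wl_mul, wl_mul, wl_mul, wl_of, wl_of]
    unfold LD.we
    omega
  have e3 : FreeMonoid.toList (u' * FreeMonoid.of (Λ.t k) *
      FreeMonoid.of (Λ.s k) * v') = u ++ Λ.t k :: Λ.s k :: v := by
    simp [FreeMonoid.toList_mul, hu', hv']
  refine ⟨u' * FreeMonoid.of (Λ.t k) * FreeMonoid.of (Λ.s k) * v', ?_, ?_, ?_, ?_⟩
  · rw [e3, e]
    refine inv_swap Λ u v _ _ ?_ ⟨k, rfl⟩
    rintro ⟨k', hk'⟩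
    exact hΛ.col k k' hk'
  · rw [e3, e]
    exact List.Perm.append_left _ (List.Perm.swap _ _ _)
  · rw [ewl, wl_mul, wl_mul, wl_mul, wl_of, wl_of]
    unfold LD.we
    omega
  · intro S hS1 hS2
    obtain ⟨hl, hg⟩ := hf k
    set g := f k - l k • (X (Λ.s k) * X (Λ.t k) - X (Λ.t k) * X (Λ.s k)) with hgdef
    have hbig : wd u' * g * wd v' ∈ S := by
      refine sandwich Λ S u' v' _ (fun w' hw' => hS2 w' ?_) g hg
      rw [ewl]
      omega
    have ewd : (wd w : FA F α) = wd u' * (X (Λ.s k) * X (Λ.t k)) * wd v' := by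
      rw [ew]
      simp only [wd_mul, X, mul_assoc]
    have ewd' : (wd (u' * FreeMonoid.of (Λ.t k) * FreeMonoid.of (Λ.s k) * v') : FA F α) =
        wd u' * (X (Λ.t k) * X (Λ.s k)) * wd v' := by
      simp only [wd_mul, X, mul_assoc]
    have key : (wd w - wd (u' * FreeMonoid.of (Λ.t k) * FreeMonoid.of (Λ.s k) * v') : FA F α) =
        (l k)⁻¹ • (wd u' * f k * wd v') - (l k)⁻¹ • (wd u' * g * wd v') := by
      rw [ewd, ewd', hgdef, mul_sub, sub_mul, mul_smul_comm, smul_mul_assoc, smul_sub, smul_smul,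
        inv_mul_cancel₀ hl, one_smul, mul_sub, sub_mul]
      abel
    rw [key]
    exact Submodule.sub_mem _ (Submodule.smul_mem _ _ (hS1 _ _ _)) (Submodule.smul_mem _ _ hbig)

omit [Fintype α] [Fintype ε] in
private lemma TT_word (Λ : LD α ε) (hΛ : Λ.Ok) (l : ε → F) (f : ε → FA F α) (hf : Shape Λ l f)
    (n : ℤ) : ∀ (k : ℕ) (w : FreeMonoid α), n - wl Λ w < k → wd w ∈ TT Λ f n := by
  intro k
  induction k with
  | zero =>
    intro w hw
    refine Submodule.mem_sup_right (J_big Λ f n w ?_)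
    push_cast at hw
    omega
  | succ k ihk =>
    suffices H : ∀ (t : ℕ) (w : FreeMonoid α), inv Λ (FreeMonoid.toList w) < t →
        n - wl Λ w < (k + 1 : ℕ) → wd w ∈ TT Λ f n from
      fun w hw => H (inv Λ (FreeMonoid.toList w) + 1) w (Nat.lt_succ_self _) hw
    intro t
    induction t with
    | zero => intro w hw; omega
    | succ t iht =>
      intro w hw hn
      by_cases hwn : n < wl Λ w
      · exact Submodule.mem_sup_right (J_big Λ f n w hwn)
      · by_cases hnw : IsNormalWord Λ w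
        · exact Submodule.mem_sup_left (Submodule.subset_span ⟨w, hnw, by omega, rfl⟩)
        · obtain ⟨w', h1, -, h3, h4⟩ := step Λ hΛ l f hf w hnw
          have h5 : (wd w' : FA F α) ∈ TT Λ f n := iht w' (by omega) (by rw [h3]; exact hn)
          have h6 := h4 (TT Λ f n)
            (fun i u v => Submodule.mem_sup_right (J_rel Λ f n i u v))
            (fun w2 hw2 => ihk w2 (by push_cast at hn; omega))
          have h7 : (wd w : FA F α) = (wd w - wd w') + wd w' := by abel
          rw [h7]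
          exact Submodule.add_mem _ h6 h5

theorem Q03_span (Λ : LD α ε) (hΛ : Λ.Ok) (l : ε → F) (f : ε → FA F α) (hf : Shape Λ l f)
    (n : ℤ) (x : FA F α) :
    ∃ y ∈ Submodule.span F
      {z : FA F α | ∃ w : FreeMonoid α, IsNormalWord Λ w ∧ (wl Λ w : ℤ) ≤ n ∧ z = wd w},
      x - y ∈ J Λ f n := by
  have hx : x ∈ TT Λ f n := by
    refine MonoidAlgebra.induction_on (motive := fun x => x ∈ TT Λ f n) x (fun w => ?_) ?_ ?_
    · exact TT_word Λ hΛ l f hf n ((n - wl Λ w).toNat + 1) w (by push_cast; omega)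
    · exact fun x y hx hy => Submodule.add_mem _ hx hy
    · exact fun c x hx => Submodule.smul_mem _ c hx
  obtain ⟨y, hy, z, hz, rfl⟩ := Submodule.mem_sup.1 hx
  exact ⟨y, hy, by simpa using hz⟩

theorem Q03_word (Λ : LD α ε) (hΛ : Λ.Ok) (l : ε → F) (f : ε → FA F α) (hf : Shape Λ l f)
    (n : ℤ) (w : FreeMonoid α) (hw : (wl Λ w : ℤ) = n) :
    ∃ w' : FreeMonoid α, IsNormalWord Λ w' ∧ (FreeMonoid.toList w').Perm (FreeMonoid.toList w) ∧
      (wd w - wd w' : FA F α) ∈ J Λ f n := by
  suffices H : ∀ (t : ℕ) (w : FreeMonoid α), inv Λ (FreeMonoid.toList w) < t →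
      (wl Λ w : ℤ) = n → ∃ w' : FreeMonoid α, IsNormalWord Λ w' ∧
        (FreeMonoid.toList w').Perm (FreeMonoid.toList w) ∧ (wd w - wd w' : FA F α) ∈ J Λ f n from
    H (inv Λ (FreeMonoid.toList w) + 1) w (Nat.lt_succ_self _) hw
  intro t
  induction t with
  | zero => intro w hw; omega
  | succ t iht =>
    intro w hw hn
    by_cases hnw : IsNormalWord Λ w
    · exact ⟨w, hnw, List.Perm.refl _, by rw [sub_self]; exact Ideal.zero_mem _⟩
    · obtain ⟨w1, h1, h2, h3, h4⟩ := step Λ hΛ l f hf w hnw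
      obtain ⟨w', h5, h6, h7⟩ := iht w1 (by omega) (by rw [h3]; exact hn)
      refine ⟨w', h5, h6.trans h2, ?_⟩
      have h8 := h4 ((J Λ f n).restrictScalars F) (fun i u v => J_rel Λ f n i u v)
        (fun w2 hw2 => J_big Λ f n w2 (by omega))
      have h9 : (wd w - wd w' : FA F α) = (wd w - wd w1) + (wd w1 - wd w') := by abel
      rw [h9]
      exact Ideal.add_mem _ h8 h7

end Pool.Agent.RG.Q
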