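import Mathlib
import Pool.Agent.Lib.RG.QDefs

/-!
PART Q, row Q04: the recursion for the number of normal words (adapt P04.lean). Pairs (letter a, normal word w): a w is normal unless
w = b w', (a, b) = (s k, t k) for a unique k (Ok.inj), and then w' is an arbitrary normal word since t k is not a source (Ok.col).
-/

set_option autoImplicit false

namespace Pool.Agent.RG.Q

open scoped Classical

variable {α ε : Type} [Fintype α] [Fintype ε]

namespace Q04aux

/-- weight of a list -/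
def wll (Λ : LD α ε) (w : List α) : ℕ := (w.map Λ.wt).sum

omit [Fintype α] [Fintype ε] in
theorem wll_cons (Λ : LD α ε) (i : α) (w : List α) : wll Λ (i :: w) = Λ.wt i + wll Λ w := by
  simp [wll]

omit [Fintype α] [Fintype ε] in
theorem W_pos (Λ : LD α ε) (hΛ : Λ.Ok) (a : α) : 1 ≤ Λ.wt a := by
  have h1 := hΛ.lo a
  have h2 := hΛ.hi a
  omega

omit [Fintype α] [Fintype ε] in
theorem wll_ge (Λ : LD α ε) (hΛ : Λ.Ok) (w : List α) : w.length ≤ wll Λ w := by
  induction w with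
  | nil => simp [wll]
  | cons i w ih =>
    rw [wll_cons, List.length_cons]
    have := W_pos Λ hΛ i
    omega

/-- normal lists -/
def Nl (Λ : LD α ε) (w : List α) : Prop := List.IsChain (fun i j : α => ¬ Bad Λ i j) w

/-- normal lists of weight at most n -/
def A (Λ : LD α ε) (n : ℤ) : Type := {w : List α // Nl Λ w ∧ (wll Λ w : ℤ) ≤ n}

omit [Fintype ε] in
theorem finite_le (Λ : LD α ε) (hΛ : Λ.Ok) (n : ℤ) :
    Finite {w : List α // (wll Λ w : ℤ) ≤ n} := by
  have h : {w : List α | (wll Λ w : ℤ) ≤ n}.Finite := by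
    refine (List.finite_length_le α n.toNat).subset ?_
    intro w hw
    have h1 := wll_ge Λ hΛ w
    have h2 : (wll Λ w : ℤ) ≤ n := hw
    show w.length ≤ n.toNat
    omega
  exact h

omit [Fintype ε] in
theorem finA (Λ : LD α ε) (hΛ : Λ.Ok) (n : ℤ) : Finite (A Λ n) := by
  have := finite_le Λ hΛ n
  refine Finite.of_injective
    (fun w : A Λ n => (⟨w.1, w.2.2⟩ : {w : List α // (wll Λ w : ℤ) ≤ n})) ?_
  intro a b h
  apply Subtype.ext
  simpa using h

omit [Fintype α] [Fintype ε] in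
theorem Hc_eq (Λ : LD α ε) (n : ℤ) : Hc Λ n = Nat.card (A Λ n) := rfl

omit [Fintype α] [Fintype ε] in
theorem nl_t (Λ : LD α ε) (hΛ : Λ.Ok) (k : ε) (w : List α) : Nl Λ (Λ.t k :: w) ↔ Nl Λ w := by
  unfold Nl
  rw [List.isChain_cons]
  constructor
  · exact fun h => h.2
  · intro h
    refine ⟨?_, h⟩
    rintro y _ ⟨l, h1, _⟩
    exact hΛ.col l k h1.symm

/-- the map of the proof -/
def fm (Λ : LD α ε) (hΛ : Λ.Ok) (n : ℤ) :
    A Λ n ⊕ (Σ k : ε, A Λ (n - Λ.we k)) → Option (Σ a : α, A Λ (n - Λ.wt a))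
  | Sum.inl ⟨[], _⟩ => none
  | Sum.inl ⟨j :: w, h⟩ => some ⟨j, w, (List.isChain_cons.1 h.1).2, by
      have := h.2
      rw [wll_cons] at this
      push_cast at this
      omega⟩
  | Sum.inr ⟨k, w⟩ => some ⟨Λ.s k, Λ.t k :: w.1, by
      rw [nl_t Λ hΛ]
      exact w.2.1, by
      have := w.2.2
      rw [wll_cons]
      unfold LD.we at this
      push_cast at this ⊢
      omega⟩

/-- the list of an element of the target -/
def tl (Λ : LD α ε) (n : ℤ) (s : Σ a : α, A Λ (n - Λ.wt a)) : List α := s.1 :: s.2.1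

omit [Fintype α] [Fintype ε] in
theorem fm_inj (Λ : LD α ε) (hΛ : Λ.Ok) (n : ℤ) : Function.Injective (fm Λ hΛ n) := by
  have key : ∀ (k : ε) (w : List α) (w' : List α), Nl Λ (Λ.s k :: w') →
      w' = Λ.t k :: w → False := by
    rintro k w w' hn rfl
    unfold Nl at hn
    rw [List.isChain_cons_cons] at hn
    exact hn.1 ⟨k, rfl, rfl⟩
  rintro (⟨_ | ⟨j, w⟩, hw⟩ | ⟨k, w⟩) (⟨_ | ⟨j', w'⟩, hw'⟩ | ⟨k', w'⟩) h
  · rfl
  · exact absurd h (by simp [fm])
  · exact absurd h (by simp [fm])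
  · exact absurd h (by simp [fm])
  · have h' : some (j :: w) = some (j' :: w') := congrArg (Option.map (tl Λ n)) h
    rw [Option.some.injEq, List.cons.injEq] at h'
    obtain ⟨rfl, rfl⟩ := h'
    rfl
  · have h' : some (j :: w) = some (Λ.s k' :: Λ.t k' :: w'.1) :=
      congrArg (Option.map (tl Λ n)) h
    rw [Option.some.injEq, List.cons.injEq] at h'
    obtain ⟨rfl, h'⟩ := h'
    exact (key _ _ _ hw.1 h').elim
  · exact absurd h (by simp [fm])
  · have h' : some (Λ.s k :: Λ.t k :: w.1) = some (j' :: w') :=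
      congrArg (Option.map (tl Λ n)) h
    rw [Option.some.injEq, List.cons.injEq] at h'
    obtain ⟨rfl, h'⟩ := h'
    exact (key _ _ _ hw'.1 h'.symm).elim
  · have h' : some (Λ.s k :: Λ.t k :: w.1) = some (Λ.s k' :: Λ.t k' :: w'.1) :=
      congrArg (Option.map (tl Λ n)) h
    rw [Option.some.injEq, List.cons.injEq, List.cons.injEq] at h'
    obtain ⟨h1, h2, h3⟩ := h'
    obtain rfl := hΛ.inj k k' h1 h2
    have h4 : w = w' := Subtype.ext h3
    rw [h4]

omit [Fintype α] [Fintype ε] in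
theorem fm_surj (Λ : LD α ε) (hΛ : Λ.Ok) (n : ℤ) (hn : 0 ≤ n) :
    Function.Surjective (fm Λ hΛ n) := by
  rintro (_ | ⟨j, w, hw1, hw2⟩)
  · exact ⟨Sum.inl ⟨[], List.isChain_nil, by simpa [wll] using hn⟩, rfl⟩
  · by_cases h : Nl Λ (j :: w)
    · refine ⟨Sum.inl ⟨j :: w, h, ?_⟩, rfl⟩
      rw [wll_cons]
      push_cast
      omega
    · obtain _ | ⟨b, w⟩ := w
      · exact (h (List.isChain_singleton _)).elim
      · have hb : Bad Λ j b := by
          by_contra hb
          apply h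
          unfold Nl
          rw [List.isChain_cons_cons]
          exact ⟨hb, hw1⟩
        obtain ⟨k, rfl, rfl⟩ := hb
        refine ⟨Sum.inr ⟨k, w, ?_, ?_⟩, rfl⟩
        · rw [nl_t Λ hΛ] at hw1
          exact hw1
        · rw [wll_cons] at hw2
          unfold LD.we
          push_cast at hw2 ⊢
          omega

end Q04aux

theorem Q04_count (Λ : LD α ε) (hΛ : Λ.Ok) (n : ℤ) (hn : 0 ≤ n) :
    Hc Λ n + ∑ k, Hc Λ (n - Λ.we k) = 1 + ∑ a, Hc Λ (n - Λ.wt a) := by
  have hfin := Q04aux.finA Λ hΛ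
  have e := Nat.card_congr (Equiv.ofBijective _
    ⟨Q04aux.fm_inj Λ hΛ n, Q04aux.fm_surj Λ hΛ n hn⟩)
  rw [Nat.card_sum, Nat.card_sigma, Finite.card_option, Nat.card_sigma] at e
  simp only [Q04aux.Hc_eq]
  rw [e, add_comm]

theorem Q04_neg (Λ : LD α ε) (n : ℤ) (hn : n < 0) : Hc Λ n = 0 := by
  have : IsEmpty {w : FreeMonoid α // IsNormalWord Λ w ∧ (wl Λ w : ℤ) ≤ n} := by
    constructor
    rintro ⟨w, _, h⟩
    omega
  exact Nat.card_of_isEmpty

theorem Q04_finite (Λ : LD α ε) (hΛ : Λ.Ok) (n : ℤ) :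
    Finite {w : FreeMonoid α // (wl Λ w : ℤ) ≤ n} :=
  Q04aux.finite_le Λ hΛ n

end Pool.Agent.RG.Q
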