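import Mathlib
import Pool.Agent.Lib.RG.Q02
import Pool.Agent.Lib.RG.Q03
import Pool.Agent.Lib.RG.Q04

/-!
PART Q, row Q05: normal words are a basis modulo J (adapt P05.lean); powers of elements with linear leading term.
Q05_pow: let N = r * wt a₀. J n <= J N; modulo J N the power is the sum over words w of letters of weight wt a₀ of (prod c) wd w; every such
word is congruent to a normal word with the same letters (Q03_word); the word a₀^r is normal and the only one with its letters, its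
coefficient is (c a₀)^r; so if the power were in J N the other normal words would span.
-/

set_option autoImplicit false

namespace Pool.Agent.RG.Q

open scoped Classical

variable {F : Type} [Field F] {α ε : Type} [Fintype α] [Fintype ε]

namespace Q05aux

omit [Fintype α] [Fintype ε] in
/-- If the words in `A` span modulo `J f n` then the dimension is at most the number of elements
of `A`. -/
theorem bd_le (Λ : LD α ε) (f : ε → FA F α) (n : ℤ) (A : Set (FreeMonoid α)) (hA : A.Finite)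
    (h : ∀ x : FA F α, ∃ y ∈ Submodule.span F {z : FA F α | ∃ w ∈ A, z = wd w},
      x - y ∈ J Λ f n) :
    bd Λ f n ≤ Nat.card A := by
  have : Fintype A := hA.fintype
  let q : FA F α →ₗ[F] (FA F α ⧸ J Λ f n) := (J Λ f n).mkQ.restrictScalars F
  have hq : Function.Surjective q := (J Λ f n).mkQ_surjective
  let b : A → (FA F α ⧸ J Λ f n) := fun w => q (wd w.1)
  have hspan : Submodule.span F (Set.range b) = ⊤ := by
    rw [eq_top_iff]
    rintro z -
    obtain ⟨x, rfl⟩ := hq z
    obtain ⟨y, hy, hxy⟩ := h x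
    have h1 : q x = q y := by
      rw [← sub_eq_zero, ← map_sub]
      exact (Submodule.Quotient.mk_eq_zero _).2 hxy
    rw [h1]
    have h2 : q y ∈ (Submodule.span F {z : FA F α | ∃ w ∈ A, z = wd w}).map q := ⟨y, hy, rfl⟩
    rw [Submodule.map_span] at h2
    refine Submodule.span_mono ?_ h2
    rintro _ ⟨_, ⟨w, hw, rfl⟩, rfl⟩
    exact ⟨⟨w, hw⟩, rfl⟩
  have h3 := finrank_range_le_card (R := F) b
  rw [Set.finrank, hspan, finrank_top] at h3
  rw [Nat.card_eq_fintype_card]
  exact h3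

theorem finite_normal (Λ : LD α ε) (hΛ : Λ.Ok) (n : ℤ) :
    {w : FreeMonoid α | IsNormalWord Λ w ∧ (wl Λ w : ℤ) ≤ n}.Finite := by
  have h := Q04_finite Λ hΛ n
  have h2 : {w : FreeMonoid α | (wl Λ w : ℤ) ≤ n}.Finite := h
  exact h2.subset fun w hw => hw.2

theorem bd_le_Hc (Λ : LD α ε) (hΛ : Λ.Ok) (l : ε → F) (f : ε → FA F α) (hf : Shape Λ l f)
    (n : ℤ) : bd Λ f n ≤ Hc Λ n := by
  refine bd_le Λ f n {w : FreeMonoid α | IsNormalWord Λ w ∧ (wl Λ w : ℤ) ≤ n}
    (finite_normal Λ hΛ n) ?_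
  intro x
  obtain ⟨y, hy, hxy⟩ := Q03_span Λ hΛ l f hf n x
  refine ⟨y, ?_, hxy⟩
  convert hy using 3
  ext z
  constructor
  · rintro ⟨w, ⟨h1, h2⟩, rfl⟩
    exact ⟨w, h1, h2, rfl⟩
  · rintro ⟨w, h1, h2, rfl⟩
    exact ⟨w, ⟨h1, h2⟩, rfl⟩

omit [Fintype α] [Fintype ε] in
theorem one_le_wt (Λ : LD α ε) (hΛ : Λ.Ok) (a : α) : 1 ≤ Λ.wt a := by
  have h1 := hΛ.lo a
  have h2 := hΛ.hi a
  omega

theorem dim_aux (Λ : LD α ε) (hΛ : Λ.Ok) (l : ε → F) (f : ε → FA F α) (hf : Shape Λ l f)
    (N : ℕ) : ∀ n : ℤ, n < N → bd Λ f n = Hc Λ n := by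
  induction N with
  | zero =>
    intro n hn
    have h1 := bd_le_Hc Λ hΛ l f hf n
    rw [Q04_neg Λ n (by simpa using hn)] at h1 ⊢
    omega
  | succ N ih =>
    intro n hn
    push_cast at hn
    rcases lt_or_ge n 0 with h0 | h0
    · have h1 := bd_le_Hc Λ hΛ l f hf n
      rw [Q04_neg Λ n h0] at h1 ⊢
      omega
    · have h1 := bd_le_Hc Λ hΛ l f hf n
      have h2 := Q02_vinberg Λ hΛ l f hf n h0
      have h3 := Q04_count Λ hΛ n h0
      have h4 : ∑ j : α, bd Λ f (n - Λ.wt j) = ∑ j : α, Hc Λ (n - Λ.wt j) := by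
        refine Finset.sum_congr rfl fun j _ => ih _ ?_
        have := one_le_wt Λ hΛ j
        omega
      have h5 : ∑ k : ε, bd Λ f (n - Λ.we k) = ∑ k : ε, Hc Λ (n - Λ.we k) := by
        refine Finset.sum_congr rfl fun k _ => ih _ ?_
        have := one_le_wt Λ hΛ (Λ.s k)
        unfold LD.we
        push_cast
        omega
      rw [h4, h5] at h2
      omega

end Q05aux

open Q05aux in
theorem Q05_dim (Λ : LD α ε) (hΛ : Λ.Ok) (l : ε → F) (f : ε → FA F α) (hf : Shape Λ l f)
    (n : ℤ) : bd Λ f n = Hc Λ n :=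
  dim_aux Λ hΛ l f hf (n.toNat + 1) n (by omega)

namespace Q05aux

omit [Fintype α] in
theorem toList_pow (i : α) (r : ℕ) :
    FreeMonoid.toList (FreeMonoid.of i ^ r) = List.replicate r i := by
  induction r with
  | zero => rfl
  | succ r ih =>
    rw [pow_succ', FreeMonoid.toList_mul, ih, FreeMonoid.toList_of]
    rfl

omit [Fintype α] [Fintype ε] in
theorem wl_pow (Λ : LD α ε) (i : α) (r : ℕ) : wl Λ (FreeMonoid.of i ^ r) = r * Λ.wt i := by
  unfold wl
  rw [toList_pow, List.map_replicate, List.sum_replicate, smul_eq_mul]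

omit [Fintype α] [Fintype ε] in
theorem wl_mul (Λ : LD α ε) (u v : FreeMonoid α) : wl Λ (u * v) = wl Λ u + wl Λ v := by
  simp [wl, FreeMonoid.toList_mul, List.map_append, List.sum_append]

omit [Fintype α] in
theorem wd_mul (u v : FreeMonoid α) : (wd (u * v) : FA F α) = wd u * wd v := by
  simp [wd]

omit [Fintype α] [Fintype ε] in
theorem normal_pow (Λ : LD α ε) (hΛ : Λ.Ok) (i : α) (r : ℕ) :
    IsNormalWord Λ (FreeMonoid.of i ^ r) := by
  unfold IsNormalWord
  rw [toList_pow]
  have h : ¬ Bad Λ i i := by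
    rintro ⟨k, h1, h2⟩
    exact hΛ.col k k (h1.symm.trans h2)
  induction r with
  | zero => exact List.isChain_nil
  | succ r ih =>
    cases r with
    | zero => exact List.isChain_singleton _
    | succ r => exact List.isChain_cons_cons.2 ⟨h, ih⟩

omit [Fintype α] [Fintype ε] in
theorem anti (Λ : LD α ε) {a b : ℤ} (h : a ≤ b) : Pge Λ F b ≤ Pge Λ F a := by
  apply Submodule.span_mono
  rintro x ⟨w, hw, rfl⟩
  exact ⟨w, h.trans hw, rfl⟩

omit [Fintype α] [Fintype ε] in
theorem mul_mem (Λ : LD α ε) {a b : ℤ} {x y : FA F α}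
    (hx : x ∈ Pge Λ F a) (hy : y ∈ Pge Λ F b) : x * y ∈ Pge Λ F (a + b) := by
  induction hx using Submodule.span_induction with
  | mem x hx =>
    obtain ⟨v, hv, rfl⟩ := hx
    induction hy using Submodule.span_induction with
    | mem y hy =>
      obtain ⟨w, hw, rfl⟩ := hy
      apply Submodule.subset_span
      refine ⟨v * w, ?_, ?_⟩
      · rw [wl_mul]
        push_cast
        omega
      · rw [wd_mul]
    | zero => rw [mul_zero]; exact Submodule.zero_mem _
    | add y z _ _ hy hz => rw [mul_add]; exact Submodule.add_mem _ hy hz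
    | smul c y _ hy => rw [mul_smul_comm]; exact Submodule.smul_mem _ _ hy
  | zero => rw [zero_mul]; exact Submodule.zero_mem _
  | add y z _ _ hy hz => rw [add_mul]; exact Submodule.add_mem _ hy hz
  | smul c y _ hy => rw [smul_mul_assoc]; exact Submodule.smul_mem _ _ hy

omit [Fintype α] [Fintype ε] in
theorem pow_mem (Λ : LD α ε) {w : ℕ} {x : FA F α} (hx : x ∈ Pge Λ F w) (r : ℕ) :
    x ^ r ∈ Pge Λ F (r * w : ℕ) := by
  induction r with
  | zero =>
    apply Submodule.subset_span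
    refine ⟨1, ?_, ?_⟩
    · simp
    · rw [pow_zero, wd, map_one]
  | succ r ih =>
    rw [pow_succ]
    refine anti Λ (le_of_eq ?_) (mul_mem Λ ih hx)
    push_cast
    ring

omit [Fintype α] [Fintype ε] in
theorem pow_sub (Λ : LD α ε) {w : ℕ} {x h : FA F α} (hx : x ∈ Pge Λ F w)
    (hh : h ∈ Pge Λ F (w + 1)) (r : ℕ) :
    (x + h) ^ r - x ^ r ∈ Pge Λ F ((r * w : ℕ) + 1) := by
  induction r with
  | zero =>
    rw [pow_zero, pow_zero, sub_self]
    exact Submodule.zero_mem _
  | succ r ih =>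
    have h1 : (x + h) ^ (r + 1) - x ^ (r + 1) =
        ((x + h) ^ r - x ^ r) * (x + h) + x ^ r * h := by
      rw [pow_succ, pow_succ]
      noncomm_ring
    rw [h1]
    have hxh : x + h ∈ Pge Λ F w := Submodule.add_mem _ hx (anti Λ (by omega) hh)
    refine Submodule.add_mem _ (anti Λ (le_of_eq ?_) (mul_mem Λ ih hxh))
      (anti Λ (le_of_eq ?_) (mul_mem Λ (pow_mem Λ hx r) hh))
    · push_cast
      ring
    · push_cast
      ring

/-- words of length `r` of letters of the weight of `a₀`, different from `a₀ ^ r` -/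
def Wr (Λ : LD α ε) (a₀ : α) (r : ℕ) : Set (FreeMonoid α) :=
  {w | (FreeMonoid.toList w).length = r ∧ (∀ a ∈ FreeMonoid.toList w, Λ.wt a = Λ.wt a₀) ∧
    ∃ a ∈ FreeMonoid.toList w, a ≠ a₀}

omit [Fintype α] [Fintype ε] in
theorem wl_Wr (Λ : LD α ε) {a₀ : α} {r : ℕ} {w : FreeMonoid α} (hw : w ∈ Wr Λ a₀ r) :
    wl Λ w = r * Λ.wt a₀ := by
  obtain ⟨h1, h2, -⟩ := hw
  unfold wl
  have h3 : (FreeMonoid.toList w).map Λ.wt = List.replicate r (Λ.wt a₀) := by
    rw [List.eq_replicate_iff]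
    refine ⟨by rw [List.length_map, h1], ?_⟩
    intro b hb
    obtain ⟨a, ha, rfl⟩ := List.mem_map.1 hb
    exact h2 a ha
  rw [h3, List.sum_replicate, smul_eq_mul]

omit [Fintype ε] in
theorem expand (Λ : LD α ε) (c : α → F) (a₀ : α) (hc : ∀ a, c a ≠ 0 → Λ.wt a = Λ.wt a₀) (r : ℕ) :
    (∑ a, c a • X a : FA F α) ^ r - (c a₀) ^ r • wd (FreeMonoid.of a₀ ^ r) ∈
      Submodule.span F {z : FA F α | ∃ w ∈ Wr Λ a₀ r, z = wd w} := by
  induction r with
  | zero =>
    have h1 : (wd (FreeMonoid.of a₀ ^ 0) : FA F α) = 1 := by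
      rw [pow_zero]
      exact map_one _
    rw [h1, pow_zero, pow_zero, one_smul, sub_self]
    exact Submodule.zero_mem _
  | succ r ih =>
    set S := Submodule.span F {z : FA F α | ∃ w ∈ Wr Λ a₀ (r + 1), z = wd w} with hS
    set L : FA F α := ∑ a, c a • X a with hL
    -- multiplication by L
    have h1 : ∀ x ∈ Submodule.span F {z : FA F α | ∃ w ∈ Wr Λ a₀ r, z = wd w}, x * L ∈ S := by
      intro x hx
      induction hx using Submodule.span_induction with
      | mem x hx =>
        obtain ⟨w, ⟨hw1, hw2, b, hb, hb0⟩, rfl⟩ := hx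
        rw [hL, Finset.mul_sum]
        refine Submodule.sum_mem _ fun a _ => ?_
        by_cases ha : c a = 0
        · rw [ha, zero_smul, mul_zero]
          exact Submodule.zero_mem _
        · rw [mul_smul_comm]
          refine Submodule.smul_mem _ _ (Submodule.subset_span ?_)
          refine ⟨w * FreeMonoid.of a, ⟨?_, ?_, b, ?_, hb0⟩, ?_⟩
          · rw [FreeMonoid.toList_mul, List.length_append, hw1, FreeMonoid.toList_of]
            rfl
          · intro a' ha'
            rw [FreeMonoid.toList_mul, List.mem_append, FreeMonoid.toList_of,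
              List.mem_singleton] at ha'
            rcases ha' with ha' | rfl
            · exact hw2 a' ha'
            · exact hc _ ha
          · rw [FreeMonoid.toList_mul, List.mem_append]
            exact Or.inl hb
          · rw [wd_mul]
            rfl
      | zero => rw [zero_mul]; exact Submodule.zero_mem _
      | add x y _ _ hx hy => rw [add_mul]; exact Submodule.add_mem _ hx hy
      | smul e x _ hx => rw [smul_mul_assoc]; exact Submodule.smul_mem _ _ hx
    have h2 : (c a₀) ^ r • (wd (FreeMonoid.of a₀ ^ r) : FA F α) * L -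
        (c a₀) ^ (r + 1) • wd (FreeMonoid.of a₀ ^ (r + 1)) ∈ S := by
      have h3 : (wd (FreeMonoid.of a₀ ^ (r + 1)) : FA F α) =
          wd (FreeMonoid.of a₀ ^ r) * X a₀ := by
        rw [pow_succ, wd_mul]
        rfl
      have h4 : (c a₀) ^ r • (wd (FreeMonoid.of a₀ ^ r) : FA F α) * L -
          (c a₀) ^ (r + 1) • wd (FreeMonoid.of a₀ ^ (r + 1)) =
          (c a₀) ^ r • ∑ a ∈ Finset.univ.erase a₀,
            c a • ((wd (FreeMonoid.of a₀ ^ r) : FA F α) * X a) := by
        rw [h3, hL, smul_mul_assoc, Finset.mul_sum,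
          ← Finset.add_sum_erase Finset.univ _ (Finset.mem_univ a₀), smul_add, mul_smul_comm,
          smul_smul, ← pow_succ, add_sub_cancel_left]
        congr 1
        exact Finset.sum_congr rfl fun a _ => mul_smul_comm _ _ _
      rw [h4]
      refine Submodule.smul_mem _ _ (Submodule.sum_mem _ fun a ha => ?_)
      by_cases hca : c a = 0
      · rw [hca, zero_smul]
        exact Submodule.zero_mem _
      · refine Submodule.smul_mem _ _ (Submodule.subset_span ?_)
        refine ⟨FreeMonoid.of a₀ ^ r * FreeMonoid.of a, ⟨?_, ?_, a, ?_, Finset.ne_of_mem_erase ha⟩,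
          ?_⟩
        · rw [FreeMonoid.toList_mul, List.length_append, toList_pow, List.length_replicate,
            FreeMonoid.toList_of]
          rfl
        · intro a' ha'
          rw [FreeMonoid.toList_mul, List.mem_append, FreeMonoid.toList_of, toList_pow,
            List.mem_singleton] at ha'
          rcases ha' with ha' | rfl
          · rw [List.eq_of_mem_replicate ha']
          · exact hc _ hca
        · rw [FreeMonoid.toList_mul, List.mem_append, FreeMonoid.toList_of, List.mem_singleton]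
          exact Or.inr rfl
        · rw [wd_mul]
          rfl
    have h5 : L ^ (r + 1) - (c a₀) ^ (r + 1) • (wd (FreeMonoid.of a₀ ^ (r + 1)) : FA F α) =
        (L ^ r - (c a₀) ^ r • wd (FreeMonoid.of a₀ ^ r)) * L +
        ((c a₀) ^ r • (wd (FreeMonoid.of a₀ ^ r) : FA F α) * L -
          (c a₀) ^ (r + 1) • wd (FreeMonoid.of a₀ ^ (r + 1))) := by
      rw [sub_mul, ← pow_succ]
      abel
    rw [h5]
    exact Submodule.add_mem _ (h1 _ ih) h2

omit [Fintype α] [Fintype ε] in
theorem J_anti (Λ : LD α ε) (f : ε → FA F α) {a b : ℤ} (h : a ≤ b) : J Λ f b ≤ J Λ f a := by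
  apply Ideal.span_mono
  rintro x (hx | ⟨w, hw, rfl⟩)
  · exact Or.inl hx
  · exact Or.inr ⟨w, by omega, rfl⟩

omit [Fintype α] [Fintype ε] in
theorem Pge_le_J (Λ : LD α ε) (f : ε → FA F α) (n : ℤ) {x : FA F α} (hx : x ∈ Pge Λ F (n + 1)) :
    x ∈ J Λ f n := by
  have h : Pge Λ F (n + 1) ≤ (J Λ f n).restrictScalars F := by
    refine Submodule.span_le.2 ?_
    rintro _ ⟨w, hw, rfl⟩
    exact Ideal.subset_span (Or.inr ⟨w, by omega, rfl⟩)
  exact h hx

end Q05aux

open Q05aux in
theorem Q05_pow (Λ : LD α ε) (hΛ : Λ.Ok) (l : ε → F) (f : ε → FA F α) (hf : Shape Λ l f)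
    (n : ℤ) (c : α → F) (a₀ : α) (hc : c a₀ ≠ 0) (hlow : ∀ a, c a ≠ 0 → Λ.wt a₀ ≤ Λ.wt a)
    (h : FA F α) (hh : h ∈ Pge Λ F (Λ.wt a₀ + 1)) (r : ℕ) (hr : ((r * Λ.wt a₀ : ℕ) : ℤ) ≤ n) :
    (∑ a, c a • X a + h) ^ r ∉ J Λ f n := by
  intro hmem
  set N : ℤ := ((r * Λ.wt a₀ : ℕ) : ℤ) with hN
  replace hmem := J_anti Λ f hr hmem
  -- split the linear part
  let c' : α → F := fun a => if Λ.wt a = Λ.wt a₀ then c a else 0
  let c'' : α → F := fun a => if Λ.wt a = Λ.wt a₀ then 0 else c a
  have hcc : (∑ a, c a • X a : FA F α) = ∑ a, c' a • X a + ∑ a, c'' a • X a := by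
    rw [← Finset.sum_add_distrib]
    refine Finset.sum_congr rfl fun a _ => ?_
    rw [← add_smul]
    congr 1
    change c a = (if Λ.wt a = Λ.wt a₀ then c a else 0) + (if Λ.wt a = Λ.wt a₀ then 0 else c a)
    split_ifs <;> simp
  have hc'0 : c' a₀ = c a₀ := if_pos rfl
  have hc' : ∀ a, c' a ≠ 0 → Λ.wt a = Λ.wt a₀ := by
    intro a ha
    by_contra hne
    exact ha (if_neg hne)
  have hX : ∀ a, (X a : FA F α) ∈ Pge Λ F (Λ.wt a) := by
    intro a
    refine Submodule.subset_span ⟨FreeMonoid.of a, ?_, rfl⟩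
    have : wl Λ (FreeMonoid.of a) = Λ.wt a := by simp [wl]
    rw [this]
  have hL : (∑ a, c' a • X a : FA F α) ∈ Pge Λ F (Λ.wt a₀) := by
    refine Submodule.sum_mem _ fun a _ => ?_
    by_cases ha : c' a = 0
    · rw [ha, zero_smul]
      exact Submodule.zero_mem _
    · rw [← hc' a ha]
      exact Submodule.smul_mem _ _ (hX a)
  have hh' : (∑ a, c'' a • X a + h : FA F α) ∈ Pge Λ F (Λ.wt a₀ + 1) := by
    refine Submodule.add_mem _ (Submodule.sum_mem _ fun a _ => ?_) hh
    by_cases ha : Λ.wt a = Λ.wt a₀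
    · have : c'' a = 0 := if_pos ha
      rw [this, zero_smul]
      exact Submodule.zero_mem _
    · have h1 : c'' a = c a := if_neg ha
      rw [h1]
      by_cases ha0 : c a = 0
      · rw [ha0, zero_smul]
        exact Submodule.zero_mem _
      · refine Submodule.smul_mem _ _ (anti Λ ?_ (hX a))
        have := hlow a ha0
        omega
  set w₀ : FreeMonoid α := FreeMonoid.of a₀ ^ r with hw₀
  let A : Set (FreeMonoid α) :=
    {w : FreeMonoid α | IsNormalWord Λ w ∧ (wl Λ w : ℤ) ≤ N} \ {w₀}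
  let S : Submodule F (FA F α) :=
    Submodule.span F {z : FA F α | ∃ w ∈ A, z = wd w} ⊔ (J Λ f N).restrictScalars F
  -- words of weight N in letters of weight wt a₀
  have hWr : ∀ w ∈ Wr Λ a₀ r, (wd w : FA F α) ∈ S := by
    intro w hw
    have h1 := wl_Wr Λ hw
    obtain ⟨w', h2, h3, h4⟩ := Q03_word Λ hΛ l f hf N w (by rw [h1])
    have h5 : wl Λ w' = wl Λ w := by
      unfold wl
      exact (h3.map Λ.wt).sum_eq
    have h6 : w' ≠ w₀ := by
      rintro rfl
      obtain ⟨-, -, b, hb, hb0⟩ := hw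
      have h7 := h3.symm.mem_iff.1 hb
      rw [hw₀, toList_pow] at h7
      exact hb0 (List.eq_of_mem_replicate h7)
    have h8 : (wd w : FA F α) = wd w' + (wd w - wd w') := by abel
    rw [h8]
    refine Submodule.add_mem _ (Submodule.mem_sup_left (Submodule.subset_span ⟨w', ⟨⟨h2, ?_⟩, h6⟩,
      rfl⟩)) (Submodule.mem_sup_right h4)
    rw [h5, h1]
  have hS0 : (wd w₀ : FA F α) ∈ S := by
    have h1 := pow_sub Λ hL hh' r
    have h2 := expand Λ c' a₀ hc' r
    have h3 : (c a₀) ^ r • (wd w₀ : FA F α) =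
        (∑ a, c a • X a + h) ^ r -
          ((∑ a, c' a • X a + (∑ a, c'' a • X a + h)) ^ r - (∑ a, c' a • X a) ^ r) -
          ((∑ a, c' a • X a) ^ r - (c' a₀) ^ r • wd (FreeMonoid.of a₀ ^ r)) := by
      rw [hcc, hc'0, add_assoc]
      abel
    have h4 : (c a₀) ^ r • (wd w₀ : FA F α) ∈ S := by
      rw [h3]
      refine Submodule.sub_mem _ (Submodule.sub_mem _ (Submodule.mem_sup_right hmem)
        (Submodule.mem_sup_right (Pge_le_J Λ f N h1))) ?_
      refine Submodule.span_le.2 ?_ h2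
      rintro _ ⟨w, hw, rfl⟩
      exact hWr w hw
    have h5 := Submodule.smul_mem S ((c a₀) ^ r)⁻¹ h4
    rwa [smul_smul, inv_mul_cancel₀ (pow_ne_zero r hc), one_smul] at h5
  have h1 := Q05_dim Λ hΛ l f hf N
  have hfin := finite_normal Λ hΛ N
  have hw0 : w₀ ∈ {w : FreeMonoid α | IsNormalWord Λ w ∧ (wl Λ w : ℤ) ≤ N} :=
    ⟨normal_pow Λ hΛ a₀ r, by rw [hw₀, wl_pow]⟩
  have h2 : bd Λ f N ≤ Nat.card ↥A := by
    refine bd_le Λ f N _ (hfin.subset Set.sdiff_subset) fun x => ?_
    obtain ⟨y, hy, hxy⟩ := Q03_span Λ hΛ l f hf N x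
    have hyS : y ∈ S := by
      refine Submodule.span_le.2 ?_ hy
      rintro _ ⟨w, hw1, hw2, rfl⟩
      by_cases hww : w = w₀
      · rw [hww]
        exact hS0
      · exact Submodule.mem_sup_left (Submodule.subset_span ⟨w, ⟨⟨hw1, hw2⟩, hww⟩, rfl⟩)
    obtain ⟨y', hy', z, hz, rfl⟩ := Submodule.mem_sup.1 hyS
    refine ⟨y', hy', ?_⟩
    have h3 : x - y' = (x - (y' + z)) + z := by abel
    rw [h3]
    exact Submodule.add_mem _ hxy hz
  have h5 : Nat.card ↥A < Hc Λ N := by
    have h6 : Hc Λ N = Nat.card ↥{w : FreeMonoid α | IsNormalWord Λ w ∧ (wl Λ w : ℤ) ≤ N} := rfl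
    rw [h6, Nat.card_coe_set_eq, Nat.card_coe_set_eq]
    exact Set.ncard_lt_ncard (Set.sdiff_singleton_ssubset.2 hw0) hfin
  omega

end Pool.Agent.RG.Q
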