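import Mathlib
import Pool.Agent.Lib.RG.QDefs

/-!
PART Q, row Q06: values of words of the free group at the units 1 + X a, up to weight 2 W (adapt P06.lean: 4 -> 2 W, 2 -> W).
-/

set_option autoImplicit false

namespace Pool.Agent.RG.Q

open scoped Classical

variable {α ε : Type} [Fintype α] [Fintype ε]

omit [Fintype α] [Fintype ε] in
private theorem q06_anti {F : Type} [Field F] (Λ : LD α ε) {a b : ℤ} (h : a ≤ b) :
    Pge Λ F b ≤ Pge Λ F a := by
  apply Submodule.span_mono
  rintro x ⟨w, hw, rfl⟩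
  exact ⟨w, h.trans hw, rfl⟩

omit [Fintype α] [Fintype ε] in
private theorem q06_wl_mul (Λ : LD α ε) (v w : FreeMonoid α) :
    wl Λ (v * w) = wl Λ v + wl Λ w := by
  simp [wl, FreeMonoid.toList_mul]

omit [Fintype α] [Fintype ε] in
private theorem q06_mul {F : Type} [Field F] (Λ : LD α ε) {a b : ℤ} {x y : FA F α}
    (hx : x ∈ Pge Λ F a) (hy : y ∈ Pge Λ F b) : x * y ∈ Pge Λ F (a + b) := by
  induction hx using Submodule.span_induction with
  | mem x hx =>
    obtain ⟨v, hv, rfl⟩ := hx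
    induction hy using Submodule.span_induction with
    | mem y hy =>
      obtain ⟨w, hw, rfl⟩ := hy
      apply Submodule.subset_span
      refine ⟨v * w, ?_, ?_⟩
      · rw [q06_wl_mul]
        push_cast
        omega
      · rw [wd, wd, wd, map_mul]
    | zero => rw [mul_zero]; exact Submodule.zero_mem _
    | add y z _ _ hy hz => rw [mul_add]; exact Submodule.add_mem _ hy hz
    | smul c y _ hy => rw [mul_smul_comm]; exact Submodule.smul_mem _ _ hy
  | zero => rw [zero_mul]; exact Submodule.zero_mem _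
  | add y z _ _ hy hz => rw [add_mul]; exact Submodule.add_mem _ hy hz
  | smul c y _ hy => rw [smul_mul_assoc]; exact Submodule.smul_mem _ _ hy

omit [Fintype α] [Fintype ε] in
private theorem q06_X {F : Type} [Field F] (Λ : LD α ε) (hΛ : Λ.Ok) (i : α) :
    (X i : FA F α) ∈ Pge Λ F Λ.W := by
  apply Submodule.subset_span
  refine ⟨FreeMonoid.of i, ?_, rfl⟩
  have h : wl Λ (FreeMonoid.of i) = Λ.wt i := by simp [wl]
  rw [h]
  exact_mod_cast hΛ.lo i

omit [Fintype α] [Fintype ε] in
private theorem q06_pow {F : Type} [Field F] (Λ : LD α ε) {x : FA F α} (hx : x ∈ Pge Λ F Λ.W)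
    (k : ℕ) : x ^ k ∈ Pge Λ F (Λ.W * k) := by
  induction k with
  | zero =>
    apply Submodule.subset_span
    refine ⟨1, ?_, ?_⟩
    · simp
    · rw [pow_zero, wd, map_one]
  | succ k ih =>
    rw [pow_succ]
    have h := q06_mul Λ ih hx
    refine q06_anti Λ (le_of_eq ?_) h
    push_cast
    ring

omit [Fintype α] [Fintype ε] in
private theorem q06_kill {F : Type} [Field F] (Λ : LD α ε) {n : ℕ} {A : Type} [Ring A]
    (θ : FA F α →+* A) (h : ∀ v : FreeMonoid α, n < wl Λ v → θ (wd v) = 0) {x : FA F α} {k : ℤ}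
    (hk : (n : ℤ) < k) (hx : x ∈ Pge Λ F k) : θ x = 0 := by
  induction hx using Submodule.span_induction with
  | mem x hx =>
    obtain ⟨v, hv, rfl⟩ := hx
    exact h v (by omega)
  | zero => exact map_zero θ
  | add y z _ _ hy hz => rw [map_add, hy, hz, add_zero]
  | smul c y _ hy => rw [Algebra.smul_def, map_mul, hy, mul_zero]

theorem Q06_word (p : ℕ) [Fact p.Prime] (Λ : LD α ε) (hΛ : Λ.Ok) (n : ℕ) (w : FreeGroup α) :
    ∃ g ∈ Pge Λ (ZMod p) (2 * Λ.W), ∀ (A : Type) [Ring A] (θ : FA (ZMod p) α →+* A),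
      (∀ v : FreeMonoid α, n < wl Λ v → θ (wd v) = 0) →
      ∀ u : α → Aˣ, (∀ a, (u a : A) = 1 + θ (X a)) →
        ((FreeGroup.lift u w : Aˣ) : A)
          = θ (1 + ∑ a, (Multiplicative.toAdd (ex p a w) : ZMod p) • X a + g) := by
  have hL : ∀ w : FreeGroup α,
      ∑ j, (Multiplicative.toAdd (ex p j w) : ZMod p) • (X j : FA (ZMod p) α) ∈
        Pge Λ (ZMod p) Λ.W := fun w =>
    Submodule.sum_mem _ fun j _ => Submodule.smul_mem _ _ (q06_X Λ hΛ j)
  have hof : ∀ i : α,
      ∑ j, (Multiplicative.toAdd (ex p j (FreeGroup.of i)) : ZMod p) • (X j : FA (ZMod p) α)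
        = X i := by
    intro i
    rw [Finset.sum_eq_single i]
    · simp [ex]
    · intro j _ hj
      simp [ex, hj.symm]
    · intro h
      exact absurd (Finset.mem_univ i) h
  have hW : (Λ.W : ℤ) ≤ 2 * Λ.W := by omega
  induction w using FreeGroup.induction_on with
  | C1 =>
    refine ⟨0, Submodule.zero_mem _, ?_⟩
    intro A _ θ _ u _
    simp
  | of i =>
    refine ⟨0, Submodule.zero_mem _, ?_⟩
    intro A _ θ _ u hu
    rw [hof, FreeGroup.lift_apply_of, hu, add_zero, map_add, map_one]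
  | inv_of i _ =>
    have hW1 : 1 ≤ Λ.W := by
      have h1 := hΛ.lo i
      have h2 := hΛ.hi i
      omega
    have hneg : (-X i : FA (ZMod p) α) ∈ Pge Λ (ZMod p) Λ.W := Submodule.neg_mem _ (q06_X Λ hΛ i)
    refine ⟨∑ k ∈ Finset.range n, (-X i) ^ (k + 2), ?_, ?_⟩
    · refine Submodule.sum_mem _ fun k _ => q06_anti Λ ?_ (q06_pow Λ hneg (k + 2))
      have h3 : (0 : ℤ) ≤ Λ.W * k := by positivity
      push_cast
      nlinarith
    intro A _ θ hθ u hu
    have e1 : ∑ j, (Multiplicative.toAdd (ex p j (FreeGroup.of i)⁻¹) : ZMod p) •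
        (X j : FA (ZMod p) α) = -X i := by
      rw [← hof i, ← Finset.sum_neg_distrib]
      apply Finset.sum_congr rfl
      intro j _
      rw [map_inv, toAdd_inv, neg_smul]
    have e2 : (1 + -X i + ∑ k ∈ Finset.range n, (-X i) ^ (k + 2) : FA (ZMod p) α) =
        ∑ k ∈ Finset.range (n + 2), (-X i) ^ k := by
      rw [Finset.sum_range_succ', Finset.sum_range_succ']
      simp only [zero_add, pow_one, pow_zero]
      abel
    have e3 : ((u i : Aˣ) : A) * θ (∑ k ∈ Finset.range (n + 2), (-X i) ^ k) = 1 := by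
      have h1 : (1 - -X i : FA (ZMod p) α) * ∑ k ∈ Finset.range (n + 2), (-X i) ^ k =
          1 - (-X i) ^ (n + 2) := mul_neg_geom_sum _ _
      have h2 : θ ((-X i) ^ (n + 2)) = 0 := by
        refine q06_kill Λ θ hθ (k := Λ.W * ((n + 2 : ℕ) : ℤ)) ?_ (q06_pow Λ hneg (n + 2))
        have h3 : (1 : ℤ) * ((n + 2 : ℕ) : ℤ) ≤ Λ.W * ((n + 2 : ℕ) : ℤ) :=
          mul_le_mul_of_nonneg_right (by exact_mod_cast hW1) (by positivity)
        refine lt_of_lt_of_le ?_ h3
        push_cast
        omega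
      have h3 := congrArg θ h1
      rw [map_mul, map_sub, map_sub, map_one, map_neg, sub_neg_eq_add, ← hu i, h2, sub_zero] at h3
      exact h3
    rw [e1, e2, map_inv, FreeGroup.lift_apply_of]
    rw [← mul_one (((u i)⁻¹ : Aˣ) : A), ← e3, ← mul_assoc, Units.inv_mul, one_mul]
  | mul x y hx hy =>
    obtain ⟨g, hg, hgx⟩ := hx
    obtain ⟨g', hg', hgy⟩ := hy
    set a := ∑ j, (Multiplicative.toAdd (ex p j x) : ZMod p) • (X j : FA (ZMod p) α) with ha
    set b := ∑ j, (Multiplicative.toAdd (ex p j y) : ZMod p) • (X j : FA (ZMod p) α) with hb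
    refine ⟨g + g' + (a + g) * (b + g'), ?_, ?_⟩
    · refine Submodule.add_mem _ (Submodule.add_mem _ hg hg') ?_
      have h1 := q06_mul Λ (a := Λ.W) (b := Λ.W)
        (Submodule.add_mem _ (hL x) (q06_anti Λ hW hg))
        (Submodule.add_mem _ (hL y) (q06_anti Λ hW hg'))
      exact q06_anti Λ (le_of_eq (by ring)) h1
    intro A _ θ hθ u hu
    have e1 : ∑ j, (Multiplicative.toAdd (ex p j (x * y)) : ZMod p) •
        (X j : FA (ZMod p) α) = a + b := by
      rw [ha, hb, ← Finset.sum_add_distrib]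
      apply Finset.sum_congr rfl
      intro j _
      rw [map_mul, toAdd_mul, add_smul]
    rw [e1, map_mul, Units.val_mul, hgx A θ hθ u hu, hgy A θ hθ u hu, ← map_mul]
    congr 1
    noncomm_ring

end Pool.Agent.RG.Q
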