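import Mathlib
import Pool.Agent.Lib.RG.Q05
import Pool.Agent.Lib.RG.Q07

/-!
PART Q, row Q08: finite quotients with an N_p-series in which the generators have exact depth (adapt P08.lean). New: the last
statement, words with nontrivial exponent vector c have large order: with Q06 the value of the word is 1 + sum c a X a + g, g of weight
>= 2 W > wt a (2 wt a < 3 W); choose a₀ of least weight with c a₀ <> 0; the p^k-th power minus 1 is the image of (sum c a X a + g)^(p^k), which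
is not in J (Q05_pow).
-/

set_option autoImplicit false
set_option linter.unusedSectionVars false

namespace Pool.Agent.RG.Q

open scoped Classical

variable {α ε κ : Type} [Fintype α] [Fintype ε] [Fintype κ]

/-- the bound for the order of the finite quotient of depth `n` -/
noncomputable def Nbd (p : ℕ) (Λ : LD α ε) (n : ℕ) : ℕ :=
  p ^ Nat.card {w : FreeMonoid α // wl Λ w ≤ n}

section

variable {F : Type} [Field F] {Λ : LD α ε}

private theorem Q08_wl_mul (v w : FreeMonoid α) : wl Λ (v * w) = wl Λ v + wl Λ w := by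
  simp [wl]

private theorem Q08_wd_mul (v w : FreeMonoid α) :
    (wd v * wd w : FA F α) = wd (v * w) := (map_mul _ _ _).symm

private theorem Q08_top (x : FA F α) : x ∈ Submodule.span F (Set.range (wd : _ → FA F α)) := by
  induction x using MonoidAlgebra.induction_on with
  | of w => exact Submodule.subset_span ⟨w, rfl⟩
  | add f g hf hg => exact Submodule.add_mem _ hf hg
  | smul r f hf => exact Submodule.smul_mem _ _ hf

private theorem Q08_Pge_mul {a b : ℤ} {x y : FA F α} (hx : x ∈ Pge Λ F a) (hy : y ∈ Pge Λ F b) :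
    x * y ∈ Pge Λ F (a + b) := by
  refine Submodule.span_induction ?_ ?_ ?_ ?_ hx
  · rintro _ ⟨v, hv, rfl⟩
    refine Submodule.span_induction ?_ ?_ ?_ ?_ hy
    · rintro _ ⟨w, hw, rfl⟩
      rw [Q08_wd_mul]
      refine Submodule.subset_span ⟨v * w, ?_, rfl⟩
      rw [Q08_wl_mul]
      push_cast
      omega
    · rw [mul_zero]
      exact Submodule.zero_mem _
    · intro y z _ _ hy hz
      rw [mul_add]
      exact Submodule.add_mem _ hy hz
    · intro c y _ hy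
      rw [mul_smul_comm]
      exact Submodule.smul_mem _ _ hy
  · rw [zero_mul]
    exact Submodule.zero_mem _
  · intro y z _ _ hy hz
    rw [add_mul]
    exact Submodule.add_mem _ hy hz
  · intro c y _ hy
    rw [smul_mul_assoc]
    exact Submodule.smul_mem _ _ hy

private theorem Q08_Pge_anti {a b : ℤ} (h : a ≤ b) : Pge Λ F b ≤ Pge Λ F a := by
  refine Submodule.span_mono ?_
  rintro _ ⟨w, hw, rfl⟩
  exact ⟨w, h.trans hw, rfl⟩

private theorem Q08_Pge_zero (x : FA F α) : x ∈ Pge Λ F 0 := by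
  refine Submodule.span_mono ?_ (Q08_top x)
  rintro _ ⟨w, rfl⟩
  exact ⟨w, by positivity, rfl⟩

private theorem Q08_X_mem (i : α) : (X i : FA F α) ∈ Pge Λ F (Λ.wt i) :=
  Submodule.subset_span ⟨FreeMonoid.of i, by simp [wl], rfl⟩

private theorem Q08_Pge_le_J (f : ε → FA F α) {k a : ℤ} (h : k < a) {x : FA F α}
    (hx : x ∈ Pge Λ F a) : x ∈ J Λ f k := by
  refine Submodule.span_induction ?_ ?_ ?_ ?_ hx
  · rintro _ ⟨w, hw, rfl⟩
    exact Ideal.subset_span (Or.inr ⟨w, by omega, rfl⟩)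
  · exact Submodule.zero_mem _
  · intro y z _ _ hy hz
    exact Submodule.add_mem _ hy hz
  · intro c y _ hy
    exact (J Λ f k).smul_of_tower_mem c hy

private theorem Q08_J_anti (f : ε → FA F α) {k k' : ℤ} (h : k ≤ k') : J Λ f k' ≤ J Λ f k := by
  refine Ideal.span_mono ?_
  rintro x (hx | ⟨w, hw, rfl⟩)
  · exact Or.inl hx
  · exact Or.inr ⟨w, h.trans_lt hw, rfl⟩

private theorem Q08_J_mul_wd (f : ε → FA F α) (k : ℤ) {x : FA F α} (hx : x ∈ J Λ f k)
    (v : FreeMonoid α) : x * wd v ∈ J Λ f k := by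
  refine Submodule.span_induction ?_ ?_ ?_ ?_ hx
  · rintro x (⟨i, w, rfl⟩ | ⟨w, hw, rfl⟩)
    · rw [mul_assoc, Q08_wd_mul]
      exact Ideal.subset_span (Or.inl ⟨i, w * v, rfl⟩)
    · rw [Q08_wd_mul]
      refine Ideal.subset_span (Or.inr ⟨w * v, ?_, rfl⟩)
      rw [Q08_wl_mul]
      push_cast
      omega
  · rw [zero_mul]
    exact Submodule.zero_mem _
  · intro y z _ _ hy hz
    rw [add_mul]
    exact Submodule.add_mem _ hy hz
  · intro c y _ hy
    rw [smul_mul_assoc]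
    exact Submodule.smul_mem _ _ hy

private instance Q08_twoSided (f : ε → FA F α) (k : ℤ) : (J Λ f k).IsTwoSided := by
  constructor
  intro a b ha
  refine Submodule.span_induction (p := fun b _ => a * b ∈ J Λ f k) ?_ ?_ ?_ ?_ (Q08_top b)
  · rintro _ ⟨v, rfl⟩
    exact Q08_J_mul_wd f k ha v
  · rw [mul_zero]
    exact Submodule.zero_mem _
  · intro y z _ _ hy hz
    rw [mul_add]
    exact Submodule.add_mem _ hy hz
  · intro c y _ hy
    rw [mul_smul_comm]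
    exact (J Λ f k).smul_of_tower_mem c hy

end

section

variable (p : ℕ) [Fact p.Prime] (Λ : LD α ε)

/-- the finite algebra -/
private abbrev Q08_A (f : ε → FA (ZMod p) α) (n : ℕ) : Type := FA (ZMod p) α ⧸ J Λ f (n : ℤ)

variable {p} (f : ε → FA (ZMod p) α) (n : ℕ)

/-- the filtration of the finite algebra -/
private noncomputable def Q08_I (a : ℤ) : AddSubgroup (Q08_A p Λ f n) :=
  (Pge Λ (ZMod p) a).toAddSubgroup.map (Ideal.Quotient.mk (J Λ f (n : ℤ))).toAddMonoidHom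

private theorem Q08_mem_I {a : ℤ} {x : Q08_A p Λ f n} :
    x ∈ Q08_I Λ f n a ↔ ∃ y ∈ Pge Λ (ZMod p) a, Ideal.Quotient.mk (J Λ f (n : ℤ)) y = x := by
  rfl

private theorem Q08_I_mul {a b : ℤ} {x y : Q08_A p Λ f n} (hx : x ∈ Q08_I Λ f n a)
    (hy : y ∈ Q08_I Λ f n b) : x * y ∈ Q08_I Λ f n (a + b) := by
  obtain ⟨x', hx', rfl⟩ := hx
  obtain ⟨y', hy', rfl⟩ := hy
  exact ⟨x' * y', Q08_Pge_mul hx' hy', map_mul (Ideal.Quotient.mk (J Λ f (n : ℤ))) x' y'⟩

private theorem Q08_I_zero (x : Q08_A p Λ f n) : x ∈ Q08_I Λ f n 0 := by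
  obtain ⟨y, rfl⟩ := Ideal.Quotient.mk_surjective x
  exact ⟨y, Q08_Pge_zero y, rfl⟩

private theorem Q08_I_anti {a b : ℤ} (h : a ≤ b) {x : Q08_A p Λ f n} (hx : x ∈ Q08_I Λ f n b) :
    x ∈ Q08_I Λ f n a := by
  obtain ⟨x', hx', rfl⟩ := hx
  exact ⟨x', Q08_Pge_anti h hx', rfl⟩

private theorem Q08_I_bot {a : ℤ} (h : (n : ℤ) < a) {x : Q08_A p Λ f n} (hx : x ∈ Q08_I Λ f n a) :
    x = 0 := by
  obtain ⟨x', hx', rfl⟩ := hx
  exact Ideal.Quotient.eq_zero_iff_mem.2 (Q08_Pge_le_J f h hx')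

private theorem Q08_I_mul_left {a : ℤ} (x : Q08_A p Λ f n) {y : Q08_A p Λ f n}
    (hy : y ∈ Q08_I Λ f n a) : x * y ∈ Q08_I Λ f n a := by
  have := Q08_I_mul Λ f n (Q08_I_zero Λ f n x) hy
  rwa [zero_add] at this

private theorem Q08_I_mul_right {a : ℤ} (x : Q08_A p Λ f n) {y : Q08_A p Λ f n}
    (hy : y ∈ Q08_I Λ f n a) : y * x ∈ Q08_I Λ f n a := by
  have := Q08_I_mul Λ f n hy (Q08_I_zero Λ f n x)
  rwa [add_zero] at this

private theorem Q08_I_pow {a : ℤ} {x : Q08_A p Λ f n} (hx : x ∈ Q08_I Λ f n a) (r : ℕ) :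
    x ^ r ∈ Q08_I Λ f n (r * a) := by
  induction r with
  | zero =>
    rw [Nat.cast_zero, zero_mul]
    exact Q08_I_zero Λ f n _
  | succ r ih =>
    rw [pow_succ]
    have := Q08_I_mul Λ f n ih hx
    have h : ((r + 1 : ℕ) : ℤ) * a = r * a + a := by push_cast; ring
    rw [h]
    exact this

/-- the series of subgroups of the unit group -/
private noncomputable def Q08_D (a : ℕ) : Subgroup (Q08_A p Λ f n)ˣ where
  carrier := {g | (g : Q08_A p Λ f n) - 1 ∈ Q08_I Λ f n a}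
  one_mem' := by
    show ((1 : (Q08_A p Λ f n)ˣ) : Q08_A p Λ f n) - 1 ∈ Q08_I Λ f n a
    rw [Units.val_one, sub_self]
    exact AddSubgroup.zero_mem _
  mul_mem' := by
    intro g h hg hh
    have hg' : (g : Q08_A p Λ f n) - 1 ∈ Q08_I Λ f n a := hg
    have hh' : (h : Q08_A p Λ f n) - 1 ∈ Q08_I Λ f n a := hh
    show ((g * h : (Q08_A p Λ f n)ˣ) : Q08_A p Λ f n) - 1 ∈ Q08_I Λ f n a
    have h1 : ((g * h : (Q08_A p Λ f n)ˣ) : Q08_A p Λ f n) - 1 =
        (g : Q08_A p Λ f n) * ((h : Q08_A p Λ f n) - 1) + ((g : Q08_A p Λ f n) - 1) := by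
      rw [Units.val_mul]
      noncomm_ring
    rw [h1]
    exact AddSubgroup.add_mem _ (Q08_I_mul_left Λ f n _ hh') hg'
  inv_mem' := by
    intro g hg
    have hg' : (g : Q08_A p Λ f n) - 1 ∈ Q08_I Λ f n a := hg
    show ((g⁻¹ : (Q08_A p Λ f n)ˣ) : Q08_A p Λ f n) - 1 ∈ Q08_I Λ f n a
    have h1 : ((g⁻¹ : (Q08_A p Λ f n)ˣ) : Q08_A p Λ f n) - 1 =
        -(((g⁻¹ : (Q08_A p Λ f n)ˣ) : Q08_A p Λ f n) * ((g : Q08_A p Λ f n) - 1)) := by
      rw [mul_sub, Units.inv_mul]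
      noncomm_ring
    rw [h1]
    exact AddSubgroup.neg_mem _ (Q08_I_mul_left Λ f n _ hg')

private theorem Q08_mem_D {a : ℕ} {g : (Q08_A p Λ f n)ˣ} :
    g ∈ Q08_D Λ f n a ↔ (g : Q08_A p Λ f n) - 1 ∈ Q08_I Λ f n a := Iff.rfl

private theorem Q08_D_anti {a b : ℕ} (h : a ≤ b) : Q08_D Λ f n b ≤ Q08_D Λ f n a :=
  fun _ hg => Q08_I_anti Λ f n (Int.ofNat_le.2 h) hg

private theorem Q08_D_bot {a : ℕ} (h : n < a) {g : (Q08_A p Λ f n)ˣ} (hg : g ∈ Q08_D Λ f n a) :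
    g = 1 := by
  have := Q08_I_bot Λ f n (Int.ofNat_lt.2 h) hg
  exact Units.ext (sub_eq_zero.1 this)

private theorem Q08_D_comm {a b : ℕ} {g h : (Q08_A p Λ f n)ˣ} (hg : g ∈ Q08_D Λ f n a)
    (hh : h ∈ Q08_D Λ f n b) : g * h * g⁻¹ * h⁻¹ ∈ Q08_D Λ f n (a + b) := by
  rw [Q08_mem_D] at hg hh ⊢
  have h1 : ((g * h * g⁻¹ * h⁻¹ : (Q08_A p Λ f n)ˣ) : Q08_A p Λ f n) - 1 =
      (((g : Q08_A p Λ f n) - 1) * ((h : Q08_A p Λ f n) - 1) -
        ((h : Q08_A p Λ f n) - 1) * ((g : Q08_A p Λ f n) - 1)) *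
        ((g⁻¹ * h⁻¹ : (Q08_A p Λ f n)ˣ) : Q08_A p Λ f n) := by
    have h2 : ((g : Q08_A p Λ f n) - 1) * ((h : Q08_A p Λ f n) - 1) -
        ((h : Q08_A p Λ f n) - 1) * ((g : Q08_A p Λ f n) - 1) =
        ((g * h : (Q08_A p Λ f n)ˣ) : Q08_A p Λ f n) - ((h * g : (Q08_A p Λ f n)ˣ) : Q08_A p Λ f n) := by
      rw [Units.val_mul, Units.val_mul]
      noncomm_ring
    have h3 : (h * g) * (g⁻¹ * h⁻¹) = 1 := by group
    rw [h2, sub_mul, ← Units.val_mul, ← Units.val_mul, h3, Units.val_one]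
    congr 2
    group
  rw [h1]
  refine Q08_I_mul_right Λ f n _ (AddSubgroup.sub_mem _ ?_ ?_)
  · have := Q08_I_mul Λ f n hg hh
    push_cast
    exact this
  · have := Q08_I_mul Λ f n hh hg
    rw [add_comm] at this
    push_cast
    exact this

private theorem Q08_surj (x : Q08_A p Λ f n) (hfin : Finite {w : FreeMonoid α // wl Λ w ≤ n}) :
    ∃ c : {w : FreeMonoid α // wl Λ w ≤ n} → ZMod p,
      Ideal.Quotient.mk (J Λ f (n : ℤ)) (∑ᶠ w, c w • wd (w : FreeMonoid α)) = x := by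
  have := Fintype.ofFinite {w : FreeMonoid α // wl Λ w ≤ n}
  obtain ⟨y, rfl⟩ := Ideal.Quotient.mk_surjective x
  refine Submodule.span_induction (p := fun y _ => ∃ c : {w : FreeMonoid α // wl Λ w ≤ n} →
    ZMod p, Ideal.Quotient.mk (J Λ f (n : ℤ)) (∑ᶠ w, c w • wd (w : FreeMonoid α)) =
      Ideal.Quotient.mk (J Λ f (n : ℤ)) y) ?_ ?_ ?_ ?_ (Q08_top y)
  · rintro _ ⟨w, rfl⟩
    by_cases hw : wl Λ w ≤ n
    · refine ⟨Pi.single ⟨w, hw⟩ 1, ?_⟩
      rw [finsum_eq_sum_of_fintype]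
      congr 1
      rw [Finset.sum_eq_single ⟨w, hw⟩]
      · simp
      · intro b _ hb
        rw [Pi.single_eq_of_ne hb, zero_smul]
      · intro h
        exact absurd (Finset.mem_univ _) h
    · refine ⟨0, ?_⟩
      have h1 : Ideal.Quotient.mk (J Λ f (n : ℤ)) (wd w) = 0 :=
        Ideal.Quotient.eq_zero_iff_mem.2 (Ideal.subset_span (Or.inr ⟨w, by omega, rfl⟩))
      rw [h1]
      simp
  · exact ⟨0, by simp⟩
  · rintro y z - - ⟨c, hc⟩ ⟨d, hd⟩
    refine ⟨c + d, ?_⟩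
    rw [map_add, ← hc, ← hd, ← map_add]
    congr 1
    rw [finsum_eq_sum_of_fintype, finsum_eq_sum_of_fintype, finsum_eq_sum_of_fintype,
      ← Finset.sum_add_distrib]
    exact Finset.sum_congr rfl fun w _ => add_smul _ _ _
  · rintro a y - ⟨c, hc⟩
    refine ⟨a • c, ?_⟩
    have h1 : ∀ z : FA (ZMod p) α, Ideal.Quotient.mk (J Λ f (n : ℤ)) (a • z) =
        Ideal.Quotient.mk (J Λ f (n : ℤ)) (algebraMap (ZMod p) _ a) *
          Ideal.Quotient.mk (J Λ f (n : ℤ)) z := by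
      intro z
      rw [Algebra.smul_def, map_mul]
    rw [h1, ← hc, ← h1]
    congr 1
    rw [finsum_eq_sum_of_fintype, finsum_eq_sum_of_fintype, Finset.smul_sum]
    exact Finset.sum_congr rfl fun w _ => by rw [Pi.smul_apply, smul_assoc]

end

theorem Q08_series (p : ℕ) [Fact p.Prime] (hp : p ≠ 2) [Nonempty α] (Λ : LD α ε)
    (cx cy : κ → α → ZMod p) (B : ε → κ → ZMod p) (hL : Lead Λ cx cy B)
    (wx wy : κ → FreeGroup α) (q : κ → ℕ) (hq : ∀ j, q j % p = 1)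
    (hx : ∀ j a, ex p a (wx j) = Multiplicative.ofAdd (cx j a))
    (hy : ∀ j a, ex p a (wy j) = Multiplicative.ofAdd (cy j a)) (n : ℕ) :
    ∃ (Q : Type) (_ : Group Q) (_ : Finite Q) (ξ : α → Q) (D : ℕ → Subgroup Q),
      IsPGroup p Q ∧ Nat.card Q ≤ Nbd p Λ n ∧ Subgroup.closure (Set.range ξ) = ⊤ ∧
      (∀ j, FreeGroup.lift ξ (wy j) * FreeGroup.lift ξ (wx j) * (FreeGroup.lift ξ (wy j))⁻¹ =
        FreeGroup.lift ξ (wx j) ^ q j) ∧
      NpSeries p Q n D ∧ D Λ.W = ⊤ ∧ (∀ a, Exact p n (Λ.wt a) D (ξ a)) ∧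
      ∀ w : FreeGroup α, (∃ a, ex p a w ≠ 1) → ∀ k, 2 * Λ.W * p ^ k ≤ n →
        FreeGroup.lift ξ w ^ p ^ k ≠ 1 := by
  obtain ⟨l, f, hf, hrel⟩ := Q07_rel p hp Λ cx cy B hL wx wy q hq hx hy n
  have hW : 1 ≤ Λ.W := by
    have h1 := hL.ok.lo (Classical.arbitrary α)
    have h2 := hL.ok.hi (Classical.arbitrary α)
    omega
  have hXpow : ∀ (N : ℤ) (i : α) (r : ℕ), ((r * Λ.wt i : ℕ) : ℤ) ≤ N →
      (X i : FA (ZMod p) α) ^ r ∉ J Λ f N := by
    intro N i r hr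
    have h1 := Q05_pow Λ hL.ok l f hf N (Pi.single i 1) i (by simp)
      (fun a ha => by
        by_cases h : a = i
        · rw [h]
        · exact absurd (Pi.single_eq_of_ne h 1) ha) 0 (Submodule.zero_mem _) r hr
    have h2 : (∑ a, (Pi.single i 1 : α → ZMod p) a • (X a : FA (ZMod p) α) + 0) = X i := by
      rw [add_zero, Finset.sum_eq_single i]
      · rw [Pi.single_eq_same, one_smul]
      · intro b _ hb
        rw [Pi.single_eq_of_ne hb, zero_smul]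
      · intro h
        exact absurd (Finset.mem_univ _) h
    rwa [h2] at h1
  have hpp : p.Prime := Fact.out
  -- finiteness
  have hfinw : Finite {w : FreeMonoid α // wl Λ w ≤ n} := by
    have := Q04_finite Λ hL.ok (n : ℤ)
    exact Finite.of_injective
      (fun w : {w : FreeMonoid α // wl Λ w ≤ n} =>
        (⟨w.1, Int.ofNat_le.2 w.2⟩ : {w : FreeMonoid α // (wl Λ w : ℤ) ≤ n}))
      (fun a b h => by
        have h' := congrArg Subtype.val h
        exact Subtype.ext h')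
  have hsur : Function.Surjective fun c : {w : FreeMonoid α // wl Λ w ≤ n} → ZMod p =>
      Ideal.Quotient.mk (J Λ f (n : ℤ)) (∑ᶠ w, c w • wd (w : FreeMonoid α)) :=
    fun x => Q08_surj Λ f n x hfinw
  have hfinA : Finite (Q08_A p Λ f n) := Finite.of_surjective _ hsur
  have hcardA : Nat.card (Q08_A p Λ f n) ≤ Nbd p Λ n := by
    have h1 := Nat.card_le_card_of_surjective _ hsur
    rwa [Nat.card_fun, Nat.card_zmod] at h1
  -- characteristic
  have hone : (1 : FA (ZMod p) α) ∉ J Λ f (n : ℤ) := by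
    have := hXpow (n : ℤ) (Classical.arbitrary α) 0 (by simp)
    rwa [pow_zero] at this
  have hnt : Nontrivial (Q08_A p Λ f n) := by
    refine ⟨⟨Ideal.Quotient.mk (J Λ f (n : ℤ)) 1, 0, fun h => hone ?_⟩⟩
    exact Ideal.Quotient.eq_zero_iff_mem.1 h
  have hchar : CharP (Q08_A p Λ f n) p :=
    charP_of_injective_ringHom ((Ideal.Quotient.mk (J Λ f (n : ℤ))).comp
      (algebraMap (ZMod p) (FA (ZMod p) α))).injective p
  have hpow : ∀ (g : Q08_A p Λ f n) (k : ℕ), g ^ p ^ k - 1 = (g - 1) ^ p ^ k := by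
    intro g k
    rw [sub_pow_char_pow_of_commute p k (Commute.one_right g), one_pow]
  -- the units
  have hnil : ∀ i, IsNilpotent (Ideal.Quotient.mk (J Λ f (n : ℤ)) (X i)) := by
    intro i
    refine ⟨n + 1, Q08_I_bot Λ f n (a := ((n + 1 : ℕ) : ℤ) * Λ.wt i) ?_ (Q08_I_pow Λ f n ?_ (n + 1))⟩
    · have : 1 ≤ Λ.wt i := hW.trans (hL.ok.lo i)
      push_cast
      nlinarith
    · exact ⟨X i, Q08_X_mem i, rfl⟩
  let u : α → (Q08_A p Λ f n)ˣ := fun i => (hnil i).isUnit_one_add.unit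
  have hu : ∀ i, (u i : Q08_A p Λ f n) = 1 + Ideal.Quotient.mk (J Λ f (n : ℤ)) (X i) :=
    fun i => (hnil i).isUnit_one_add.unit_spec
  have hu1 : ∀ i, (u i : Q08_A p Λ f n) - 1 = Ideal.Quotient.mk (J Λ f (n : ℤ)) (X i) := by
    intro i
    rw [hu, add_sub_cancel_left]
  have huD : ∀ i, u i ∈ Q08_D Λ f n (Λ.wt i) := by
    intro i
    rw [Q08_mem_D, hu1]
    exact ⟨X i, Q08_X_mem i, rfl⟩
  let Q : Subgroup (Q08_A p Λ f n)ˣ := Subgroup.closure (Set.range u)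
  let ξ : α → Q := fun i => ⟨u i, Subgroup.subset_closure ⟨i, rfl⟩⟩
  have hQ2 : Q ≤ Q08_D Λ f n Λ.W := by
    rw [Subgroup.closure_le]
    rintro _ ⟨i, rfl⟩
    exact Q08_D_anti Λ f n (hL.ok.lo i) (huD i)
  have hlift : ∀ v : FreeGroup (α), ((FreeGroup.lift ξ v : Q) : (Q08_A p Λ f n)ˣ) =
      FreeGroup.lift u v := by
    intro v
    have : Q.subtype.comp (FreeGroup.lift ξ) = FreeGroup.lift u := by
      refine FreeGroup.ext_hom _ _ fun i => ?_
      simp [ξ]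
    exact DFunLike.congr_fun this v
  refine ⟨Q, inferInstance, inferInstance, ξ, fun a => (Q08_D Λ f n a).subgroupOf Q, ?_, ?_, ?_, ?_,
    ⟨?_, ?_, ?_, ?_, ?_⟩, ?_, ?_, ?_⟩
  · intro g
    refine ⟨n + 1, Subtype.ext ?_⟩
    refine Q08_D_bot Λ f n (Nat.lt_succ_self n) (g := ((g ^ p ^ (n + 1) : Q) : (Q08_A p Λ f n)ˣ)) ?_
    rw [Q08_mem_D, Subgroup.coe_pow, Units.val_pow_eq_pow_val, hpow]
    have h1 : ((g : (Q08_A p Λ f n)ˣ) : Q08_A p Λ f n) - 1 ∈ Q08_I Λ f n ((Λ.W : ℕ) : ℤ) :=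
      hQ2 g.2
    refine Q08_I_anti Λ f n ?_ (Q08_I_pow Λ f n h1 (p ^ (n + 1)))
    have h2 : n + 1 ≤ p ^ (n + 1) := (Nat.lt_pow_self hpp.one_lt).le
    have h3 : ((n + 1 : ℕ) : ℤ) ≤ ((p ^ (n + 1) : ℕ) : ℤ) := by exact_mod_cast h2
    have h4 : (1 : ℤ) ≤ (Λ.W : ℤ) := by exact_mod_cast hW
    push_cast at h3 ⊢
    nlinarith
  · refine le_trans (Nat.card_le_card_of_injective
      (fun g : Q => ((g : (Q08_A p Λ f n)ˣ) : Q08_A p Λ f n)) ?_) hcardA
    intro g h hgh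
    exact Subtype.ext (Units.ext hgh)
  · have h1 : Set.range ξ = ((↑) : Q → (Q08_A p Λ f n)ˣ) ⁻¹' Set.range u := by
      ext g
      constructor
      · rintro ⟨i, rfl⟩
        exact ⟨i, rfl⟩
      · rintro ⟨i, hi⟩
        exact ⟨i, Subtype.ext hi⟩
    rw [h1]
    exact Subgroup.closure_closure_coe_preimage
  · intro i
    refine Subtype.ext ?_
    have h1 := hrel (Q08_A p Λ f n) (Ideal.Quotient.mk (J Λ f (n : ℤ)))
      (fun x hx => Ideal.Quotient.eq_zero_iff_mem.2 hx) u hu i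
    rw [Subgroup.coe_mul, Subgroup.coe_mul, Subgroup.coe_inv, Subgroup.coe_pow, hlift, hlift]
    exact h1
  · intro a b hab g hg
    exact Q08_D_anti Λ f n hab hg
  · rw [Subgroup.subgroupOf_eq_top]
    exact hQ2.trans (Q08_D_anti Λ f n hW)
  · rw [eq_bot_iff]
    intro g hg
    exact Subtype.ext (Q08_D_bot Λ f n (Nat.lt_succ_self n) hg)
  · intro a b g hg h hh
    exact Q08_D_comm Λ f n hg hh
  · intro a g hg
    have hg' : ((g : (Q08_A p Λ f n)ˣ) : Q08_A p Λ f n) - 1 ∈ Q08_I Λ f n a := hg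
    show ((g ^ p : Q) : (Q08_A p Λ f n)ˣ) ∈ Q08_D Λ f n (p * a)
    rw [Q08_mem_D, Subgroup.coe_pow, Units.val_pow_eq_pow_val]
    have h1 := hpow ((g : (Q08_A p Λ f n)ˣ) : Q08_A p Λ f n) 1
    rw [pow_one] at h1
    rw [h1]
    have h2 := Q08_I_pow Λ f n hg' p
    push_cast
    exact h2
  · rw [Subgroup.subgroupOf_eq_top]
    exact hQ2
  · intro i
    refine ⟨huD i, fun k hk hmem => ?_⟩
    have h1 : ((u i ^ p ^ k : (Q08_A p Λ f n)ˣ) : Q08_A p Λ f n) - 1 ∈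
      Q08_I Λ f n ((Λ.wt i * p ^ k + 1 : ℕ) : ℤ) := hmem
    rw [Units.val_pow_eq_pow_val, hpow, hu1, ← map_pow] at h1
    obtain ⟨y, hy, hyx⟩ := h1
    have h2 : X i ^ p ^ k - y ∈ J Λ f (n : ℤ) := by
      rw [← Ideal.Quotient.eq_zero_iff_mem, map_sub, sub_eq_zero]
      exact hyx.symm
    have h3 : X i ^ p ^ k ∈ J Λ f ((Λ.wt i * p ^ k : ℕ) : ℤ) := by
      have h4 := Q08_J_anti f (Int.ofNat_le.2 hk) h2
      have h5 : y ∈ J Λ f ((Λ.wt i * p ^ k : ℕ) : ℤ) :=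
        Q08_Pge_le_J f (Int.ofNat_lt.2 (Nat.lt_succ_self _)) hy
      have h6 := Submodule.add_mem _ h4 h5
      rwa [sub_add_cancel] at h6
    exact hXpow _ i (p ^ k) (by rw [mul_comm]) h3
  · rintro w ⟨a₁, ha₁⟩ k hk hw1
    obtain ⟨g, hg, hgu⟩ := Q06_word p Λ hL.ok n w
    have h1 := hgu (Q08_A p Λ f n) (Ideal.Quotient.mk (J Λ f (n : ℤ)))
      (fun v hv => Ideal.Quotient.eq_zero_iff_mem.2
        (Ideal.subset_span (Or.inr ⟨v, by exact_mod_cast hv, rfl⟩))) u hu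
    -- the letter of least weight with nontrivial exponent
    let c : α → ZMod p := fun a => (Multiplicative.toAdd (ex p a w) : ZMod p)
    have hc₁ : c a₁ ≠ 0 := by
      intro h0
      apply ha₁
      have h2 : Multiplicative.ofAdd (Multiplicative.toAdd (ex p a₁ w)) = 1 := by
        change Multiplicative.ofAdd (c a₁) = 1
        rw [h0, ofAdd_zero]
      rwa [ofAdd_toAdd] at h2
    obtain ⟨a₀, ha₀, hmin⟩ := Finset.exists_min_image
      (Finset.univ.filter fun a => c a ≠ 0) Λ.wt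
      ⟨a₁, Finset.mem_filter.2 ⟨Finset.mem_univ _, hc₁⟩⟩
    have hc₀ : c a₀ ≠ 0 := (Finset.mem_filter.1 ha₀).2
    have hlt : Λ.wt a₀ + 1 ≤ 2 * Λ.W := by
      have := hL.ok.hi a₀
      omega
    refine Q05_pow Λ hL.ok l f hf (n : ℤ) c a₀ hc₀
      (fun a ha => hmin a (Finset.mem_filter.2 ⟨Finset.mem_univ _, ha⟩)) g
      (Q08_Pge_anti (by exact_mod_cast hlt) hg) (p ^ k) ?_ ?_
    · have h2 : p ^ k * Λ.wt a₀ ≤ p ^ k * (2 * Λ.W) := Nat.mul_le_mul_left _ (by omega)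
      have h3 : p ^ k * (2 * Λ.W) = 2 * Λ.W * p ^ k := by ring
      exact_mod_cast (h2.trans (h3.le.trans hk))
    · rw [← Ideal.Quotient.eq_zero_iff_mem, map_pow]
      have h2 : Ideal.Quotient.mk (J Λ f (n : ℤ)) (∑ a, c a • X a + g) =
          ((FreeGroup.lift u w : (Q08_A p Λ f n)ˣ) : Q08_A p Λ f n) - 1 := by
        rw [h1, add_assoc, map_add _ 1, map_one, add_sub_cancel_left]
      have h3 : (FreeGroup.lift u w) ^ p ^ k = 1 := by
        rw [← hlift]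
        have h4 := congrArg (fun x : Q => (x : (Q08_A p Λ f n)ˣ)) hw1
        exact h4
      rw [h2, ← hpow, ← Units.val_pow_eq_pow_val, h3, Units.val_one, sub_self]

end Pool.Agent.RG.Q
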