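import Mathlib
import Pool.Agent.Lib.RG.QDefs

/-!
PART Q, row Q13 (pure linear algebra, adapt P13.lean): leading forms along a connected graph. S t = {v in S : v a in E (t + wt a) for all a};
S t / S (t+1) -> (+)_a gr_(t + wt a) is injective; order the letters a₀, a₁, .. such that each is adjacent to an earlier one (spanning tree of
the connected graph): if v a is zero in gr for an end a of an edge then L a (v b) is in E (t + wt a + wt b + 1), so v b is in
E (t + wt b) ⊓ comap (L a) E (t + wt b + wt a + 1). So dim S t / S (t+1) <= dim gr_(t + wt a₀) + sum over the other letters b of the dimension of the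
kernel for the parent a of b. Sum over t.
-/

set_option autoImplicit false

namespace Pool.Agent.RG.Q

open scoped Classical

private theorem Q13_step {F M V : Type} [Field F] [AddCommGroup M] [Module F M]
    [AddCommGroup V] [Module F V] [FiniteDimensional F M] [FiniteDimensional F V]
    (A : Submodule F M) (f : M →ₗ[F] V) (K K' : Submodule F V) (hK : K' ≤ K)
    (hA : ∀ v ∈ A, f v ∈ K) :
    Module.finrank F A ≤ Module.finrank F (A ⊓ K'.comap f : Submodule F M) +
      (Module.finrank F K - Module.finrank F K') := by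
  let g : A →ₗ[F] V ⧸ K' := K'.mkQ.comp (f.comp A.subtype)
  have h1 := LinearMap.finrank_range_add_finrank_ker g
  have h2 : Module.finrank F (LinearMap.ker g) =
      Module.finrank F (A ⊓ K'.comap f : Submodule F M) := by
    have : (LinearMap.ker g).map A.subtype = A ⊓ K'.comap f := by
      ext x
      simp only [Submodule.mem_map, LinearMap.mem_ker, Submodule.mem_inf, Submodule.mem_comap]
      constructor
      · rintro ⟨y, hy, rfl⟩
        refine ⟨y.2, ?_⟩
        have : K'.mkQ (f y) = 0 := hy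
        simpa [Submodule.Quotient.mk_eq_zero] using this
      · rintro ⟨hx, hx'⟩
        refine ⟨⟨x, hx⟩, ?_, rfl⟩
        change K'.mkQ (f x) = 0
        simpa [Submodule.Quotient.mk_eq_zero] using hx'
    rw [← this]
    exact (LinearEquiv.finrank_eq (Submodule.equivMapOfInjective A.subtype
      (Submodule.injective_subtype A) (LinearMap.ker g)))
  have h3 : LinearMap.range g ≤ K.map K'.mkQ := by
    rintro _ ⟨y, rfl⟩
    exact ⟨f y, hA _ y.2, rfl⟩
  have h4 : Module.finrank F (K.map K'.mkQ) + Module.finrank F K' = Module.finrank F K := by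
    have := Submodule.finrank_quotient_add_finrank (K'.comap K.subtype)
    have e1 : Module.finrank F (K'.comap K.subtype) = Module.finrank F K' := by
      have := LinearEquiv.finrank_eq (Submodule.comapSubtypeEquivOfLe hK)
      exact this
    let g2 : K →ₗ[F] V ⧸ K' := K'.mkQ.comp K.subtype
    have h5 := LinearMap.finrank_range_add_finrank_ker g2
    have h6 : LinearMap.range g2 = K.map K'.mkQ := by
      rw [LinearMap.range_comp, Submodule.range_subtype]
    have h7 : LinearMap.ker g2 = K'.comap K.subtype := by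
      rw [LinearMap.ker_comp, Submodule.ker_mkQ]
    rw [h6, h7, e1] at h5
    exact h5
  have h5 := Submodule.finrank_mono h3
  omega

private theorem Q13_leave {α : Type} {r : α → α → Prop} {A : Finset α} {a b : α}
    (h : Relation.ReflTransGen r a b) (ha : a ∈ A) (hb : b ∉ A) :
    ∃ x ∈ A, ∃ y, y ∉ A ∧ r x y := by
  induction h with
  | refl => exact absurd ha hb
  | @tail c d _ hcd ih =>
    by_cases hc : c ∈ A
    · exact ⟨c, hc, d, hb, hcd⟩
    · exact ih hc

/-- An enumeration of the letters in which every letter but the first has a neighbour among the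
earlier ones. -/
private theorem Q13_enum {α ε : Type} [Fintype α] [Nonempty α] (Λ : LD α ε)
    (hconn : ∀ a b, Relation.ReflTransGen Λ.Adj a b) :
    ∃ idx par : ℕ → α, (∀ a, ∃ j < Fintype.card α, idx j = a) ∧
      ∀ j, j + 1 < Fintype.card α → (∃ l ≤ j, idx l = par j) ∧ Λ.Adj (par j) (idx (j + 1)) := by
  have key : ∀ n, n + 1 ≤ Fintype.card α → ∃ idx par : ℕ → α,
      (∀ i ≤ n, ∀ j ≤ n, idx i = idx j → i = j) ∧
      ∀ j < n, (∃ l ≤ j, idx l = par j) ∧ Λ.Adj (par j) (idx (j + 1)) := by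
    intro n
    induction n with
    | zero =>
      intro _
      exact ⟨fun _ => Classical.arbitrary α, fun _ => Classical.arbitrary α,
        fun i hi j hj _ => by omega, fun j hj => absurd hj (Nat.not_lt_zero _)⟩
    | succ n ih =>
      intro hn
      obtain ⟨idx, par, h1, h2⟩ := ih (by omega)
      have hcard : ((Finset.range (n + 1)).image idx).card < Fintype.card α := by
        have := Finset.card_image_le (s := Finset.range (n + 1)) (f := idx)
        rw [Finset.card_range] at this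
        omega
      obtain ⟨b, hb⟩ : ∃ b, b ∉ (Finset.range (n + 1)).image idx := by
        by_contra hne
        push Not at hne
        have : (Finset.range (n + 1)).image idx = Finset.univ :=
          Finset.eq_univ_iff_forall.2 hne
        rw [this, Finset.card_univ] at hcard
        exact lt_irrefl _ hcard
      have h0 : idx 0 ∈ (Finset.range (n + 1)).image idx :=
        Finset.mem_image_of_mem _ (Finset.mem_range.2 (by omega))
      obtain ⟨x, hx, y, hy, hxy⟩ := Q13_leave (hconn (idx 0) b) h0 hb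
      obtain ⟨l, hl, hlx⟩ := Finset.mem_image.1 hx
      have hl' := Finset.mem_range.1 hl
      have hy' : ∀ i ≤ n, idx i ≠ y := fun i hi h =>
        hy (h ▸ Finset.mem_image_of_mem _ (Finset.mem_range.2 (by omega)))
      have e1 : ∀ i ≤ n, Function.update idx (n + 1) y i = idx i := fun i hi =>
        Function.update_of_ne (by omega) _ _
      have e2 : Function.update idx (n + 1) y (n + 1) = y := Function.update_self _ _ _
      have e3 : ∀ i < n, Function.update par n x i = par i := fun i hi =>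
        Function.update_of_ne (by omega) _ _
      have e4 : Function.update par n x n = x := Function.update_self _ _ _
      refine ⟨Function.update idx (n + 1) y, Function.update par n x, ?_, ?_⟩
      · intro i hi j hj hij
        rcases Nat.le_succ_iff.1 hi with hi' | rfl <;> rcases Nat.le_succ_iff.1 hj with hj' | rfl
        · rw [e1 i hi', e1 j hj'] at hij
          exact h1 i hi' j hj' hij
        · rw [e1 i hi', e2] at hij
          exact absurd hij (hy' i hi')
        · rw [e1 j hj', e2] at hij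
          exact absurd hij.symm (hy' j hj')
        · rfl
      · intro j hj
        rcases Nat.lt_succ_iff_lt_or_eq.1 hj with hj' | rfl
        · obtain ⟨⟨l', hl1, hl2⟩, h4⟩ := h2 j hj'
          rw [e3 j hj', e1 (j + 1) (by omega)]
          exact ⟨⟨l', hl1, by rw [e1 l' (by omega)]; exact hl2⟩, h4⟩
        · rw [e4, e2]
          exact ⟨⟨l, by omega, by rw [e1 l (by omega)]; exact hlx⟩, hxy⟩
  have hpos : 0 < Fintype.card α := Fintype.card_pos
  obtain ⟨idx, par, h1, h2⟩ := key (Fintype.card α - 1) (by omega)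
  refine ⟨idx, par, fun a => ?_, fun j hj => h2 j (by omega)⟩
  have hinj : Set.InjOn idx (Finset.range (Fintype.card α) : Set ℕ) := by
    intro i hi j hj hij
    have hi' := Finset.mem_range.1 (Finset.mem_coe.1 hi)
    have hj' := Finset.mem_range.1 (Finset.mem_coe.1 hj)
    exact h1 i (by omega) j (by omega) hij
  have hc : ((Finset.range (Fintype.card α)).image idx).card = Fintype.card α := by
    rw [Finset.card_image_of_injOn hinj, Finset.card_range]
  have hu : (Finset.range (Fintype.card α)).image idx = Finset.univ :=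
    Finset.eq_univ_of_card _ hc
  have ha : a ∈ (Finset.range (Fintype.card α)).image idx := hu ▸ Finset.mem_univ a
  obtain ⟨j, hj, hja⟩ := Finset.mem_image.1 ha
  exact ⟨j, Finset.mem_range.1 hj, hja⟩

section main

variable {α ε : Type} (Λ : LD α ε) {F V : Type} [Field F] [AddCommGroup V]
    [Module F V] (E : ℤ → Submodule F V) (S : Submodule F (α → V)) (idx par : ℕ → α)

private def Q13_T (t : ℤ) (j : ℕ) : Submodule F (α → V) where
  carrier := {v | v ∈ S ∧ (∀ i, v i ∈ E (t + Λ.wt i)) ∧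
    ∀ l < j, v (idx l) ∈ E (t + Λ.wt (idx l) + 1)}
  zero_mem' := ⟨S.zero_mem, fun i => (E _).zero_mem, fun l _ => (E _).zero_mem⟩
  add_mem' := by
    rintro v w ⟨h1, h2, h3⟩ ⟨h1', h2', h3'⟩
    exact ⟨S.add_mem h1 h1', fun i => (E _).add_mem (h2 i) (h2' i),
      fun l hl => (E _).add_mem (h3 l hl) (h3' l hl)⟩
  smul_mem' := by
    rintro c v ⟨h1, h2, h3⟩
    exact ⟨S.smul_mem c h1, fun i => (E _).smul_mem c (h2 i),
      fun l hl => (E _).smul_mem c (h3 l hl)⟩

private theorem Q13_T_mem {t : ℤ} {j : ℕ} {v : α → V} : v ∈ Q13_T Λ E S idx t j ↔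
    v ∈ S ∧ (∀ i, v i ∈ E (t + Λ.wt i)) ∧
    ∀ l < j, v (idx l) ∈ E (t + Λ.wt (idx l) + 1) := Iff.rfl

private theorem Q13_T_succ (t : ℤ) (j : ℕ) :
    Q13_T Λ E S idx t j ⊓ (E (t + Λ.wt (idx j) + 1)).comap
      (LinearMap.proj (idx j) : (α → V) →ₗ[F] V) = Q13_T Λ E S idx t (j + 1) := by
  ext v
  simp only [Submodule.mem_inf, Q13_T_mem, Submodule.mem_comap, LinearMap.proj_apply]
  constructor
  · rintro ⟨⟨h1, h2, h3⟩, h4⟩
    refine ⟨h1, h2, fun l hl => ?_⟩
    rcases Nat.lt_succ_iff_lt_or_eq.mp hl with h | h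
    · exact h3 l h
    · rw [h]; exact h4
  · rintro ⟨h1, h2, h3⟩
    exact ⟨⟨h1, h2, fun l hl => h3 l (by omega)⟩, h3 j (by omega)⟩

variable {E idx} in
private theorem Q13_T_last (hanti : ∀ a b, a ≤ b → E b ≤ E a) {N : ℕ}
    (hidx : ∀ a, ∃ j < N, idx j = a) (t : ℤ) :
    Q13_T Λ E S idx t N = Q13_T Λ E S idx (t + 1) 0 := by
  ext v
  simp only [Q13_T_mem]
  constructor
  · rintro ⟨h1, h2, h3⟩
    refine ⟨h1, fun i => ?_, fun l hl => absurd hl (by omega)⟩
    obtain ⟨j, hj, rfl⟩ := hidx i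
    have := h3 j hj
    rwa [show t + 1 + (Λ.wt (idx j) : ℤ) = t + Λ.wt (idx j) + 1 by ring]
  · rintro ⟨h1, h2, _⟩
    refine ⟨h1, fun i => hanti _ _ (by linarith) (h2 i), fun l _ => ?_⟩
    have := h2 (idx l)
    rwa [show t + 1 + (Λ.wt (idx l) : ℤ) = t + Λ.wt (idx l) + 1 by ring] at this

private noncomputable def Q13_d (L : α → V →ₗ[F] V) (i : α) (k : ℤ) : ℕ :=
  Module.finrank F (E k ⊓ (E (k + Λ.wt i + 1)).comap (L i) : Submodule F V) -
        Module.finrank F (E (k + 1))

variable {Λ E S idx par} in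
private theorem Q13_edge (L : α → V →ₗ[F] V)
    (hS : ∀ v ∈ S, ∀ t : ℤ, (∀ a, v a ∈ E (t + Λ.wt a)) →
      ∀ k, L (Λ.s k) (v (Λ.t k)) - L (Λ.t k) (v (Λ.s k)) ∈ E (t + Λ.we k + 1))
    {a b : α} (hab : Λ.Adj a b) {v : α → V} (hv : v ∈ S) {t : ℤ}
    (hvt : ∀ a, v a ∈ E (t + Λ.wt a)) :
    L a (v b) - L b (v a) ∈ E (t + Λ.wt b + Λ.wt a + 1) := by
  obtain ⟨k, ⟨rfl, rfl⟩ | ⟨rfl, rfl⟩⟩ := hab
  · have h1 := hS v hv t hvt k
    have e : t + (Λ.we k : ℤ) + 1 = t + Λ.wt (Λ.t k) + Λ.wt (Λ.s k) + 1 := by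
      unfold LD.we
      push_cast
      ring
    rwa [e] at h1
  · have h1 := (E (t + Λ.we k + 1)).neg_mem (hS v hv t hvt k)
    rw [neg_sub] at h1
    have e : t + (Λ.we k : ℤ) + 1 = t + Λ.wt (Λ.s k) + Λ.wt (Λ.t k) + 1 := by
      unfold LD.we
      push_cast
      ring
    rwa [e] at h1

variable {Λ E S idx par} in
private theorem Q13_step_succ [Finite α] [FiniteDimensional F V]
    (hanti : ∀ a b, a ≤ b → E b ≤ E a) (L : α → V →ₗ[F] V)
    (hL : ∀ i a, ∀ v ∈ E a, L i v ∈ E (a + Λ.wt i))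
    (hS : ∀ v ∈ S, ∀ t : ℤ, (∀ a, v a ∈ E (t + Λ.wt a)) →
      ∀ k, L (Λ.s k) (v (Λ.t k)) - L (Λ.t k) (v (Λ.s k)) ∈ E (t + Λ.we k + 1)) (t : ℤ) (j : ℕ)
    (hj : (∃ l ≤ j, idx l = par j) ∧ Λ.Adj (par j) (idx (j + 1))) :
    Module.finrank F (Q13_T Λ E S idx t (j + 1)) ≤ Module.finrank F (Q13_T Λ E S idx t (j + 2)) +
      Q13_d Λ E L (par j) (t + Λ.wt (idx (j + 1))) := by
  obtain ⟨⟨l, hl, hlp⟩, hadj⟩ := hj
  have key := Q13_step (Q13_T Λ E S idx t (j + 1))
    (LinearMap.proj (idx (j + 1)) : (α → V) →ₗ[F] V)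
    (E (t + Λ.wt (idx (j + 1))) ⊓
      (E ((t + Λ.wt (idx (j + 1))) + Λ.wt (par j) + 1)).comap (L (par j)))
    (E (t + Λ.wt (idx (j + 1)) + 1))
    (by
      intro x hx
      refine ⟨hanti _ _ (by linarith) hx, ?_⟩
      have := hL (par j) _ x hx
      rw [SetLike.mem_coe, Submodule.mem_comap]
      rwa [show t + (Λ.wt (idx (j + 1)) : ℤ) + Λ.wt (par j) + 1
        = t + Λ.wt (idx (j + 1)) + 1 + Λ.wt (par j) by ring])
    (by
      rintro v ⟨h1, h2, h3⟩
      refine ⟨h2 _, ?_⟩
      rw [SetLike.mem_coe, Submodule.mem_comap, LinearMap.proj_apply]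
      have h4 := Q13_edge L hS hadj h1 h2
      have h5 := hL (idx (j + 1)) _ _ (h3 l (by omega))
      rw [hlp] at h5
      have e3 : t + (Λ.wt (par j) : ℤ) + 1 + Λ.wt (idx (j + 1)) =
          t + Λ.wt (idx (j + 1)) + Λ.wt (par j) + 1 := by ring
      rw [e3] at h5
      have := (E _).add_mem h4 h5
      rwa [sub_add_cancel] at this)
  rw [Q13_T_succ] at key
  exact key

variable {Λ E S idx} in
private theorem Q13_step_zero [Finite α] [FiniteDimensional F V]
    (hanti : ∀ a b, a ≤ b → E b ≤ E a) (t : ℤ) :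
    Module.finrank F (Q13_T Λ E S idx t 0) ≤ Module.finrank F (Q13_T Λ E S idx t 1) +
      (Module.finrank F (E (t + Λ.wt (idx 0))) -
        Module.finrank F (E (t + Λ.wt (idx 0) + 1))) := by
  have key := Q13_step (Q13_T Λ E S idx t 0)
    (LinearMap.proj (idx 0) : (α → V) →ₗ[F] V)
    (E (t + Λ.wt (idx 0))) (E (t + Λ.wt (idx 0) + 1))
    (hanti _ _ (by linarith)) (by
      rintro v ⟨h1, h2, h3⟩
      exact h2 _)
  rw [Q13_T_succ] at key
  exact key

variable {Λ E S idx par} in
private theorem Q13_stage [Finite α] [FiniteDimensional F V] {N : ℕ} (hN : 0 < N)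
    (hidx : ∀ a, ∃ j < N, idx j = a)
    (hpar : ∀ j, j + 1 < N → (∃ l ≤ j, idx l = par j) ∧ Λ.Adj (par j) (idx (j + 1)))
    (hanti : ∀ a b, a ≤ b → E b ≤ E a) (L : α → V →ₗ[F] V)
    (hL : ∀ i a, ∀ v ∈ E a, L i v ∈ E (a + Λ.wt i))
    (hS : ∀ v ∈ S, ∀ t : ℤ, (∀ a, v a ∈ E (t + Λ.wt a)) →
      ∀ k, L (Λ.s k) (v (Λ.t k)) - L (Λ.t k) (v (Λ.s k)) ∈ E (t + Λ.we k + 1)) (t : ℤ) :
    Module.finrank F (Q13_T Λ E S idx t 0) ≤ Module.finrank F (Q13_T Λ E S idx (t + 1) 0) +
      (Module.finrank F (E (t + Λ.wt (idx 0))) - Module.finrank F (E (t + Λ.wt (idx 0) + 1))) +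
      ∑ j ∈ Finset.range (N - 1), Q13_d Λ E L (par j) (t + Λ.wt (idx (j + 1))) := by
  have h0 := Q13_step_zero (Λ := Λ) (E := E) (S := S) (idx := idx) hanti t
  have h1 : ∀ n, n + 1 ≤ N → Module.finrank F (Q13_T Λ E S idx t 1) ≤
      Module.finrank F (Q13_T Λ E S idx t (n + 1)) +
      ∑ j ∈ Finset.range n, Q13_d Λ E L (par j) (t + Λ.wt (idx (j + 1))) := by
    intro n
    induction n with
    | zero => intro _; simp
    | succ n ih =>
      intro hn
      rw [Finset.sum_range_succ]
      have h2 := ih (by omega)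
      have := Q13_step_succ (Λ := Λ) (E := E) (S := S) (idx := idx) (par := par) hanti L hL hS t n
        (hpar n (by omega))
      rw [show n + 1 + 1 = n + 2 from rfl]
      omega
  have h2 := h1 (N - 1) (by omega)
  rw [show N - 1 + 1 = N by omega, Q13_T_last Λ S hanti hidx] at h2
  omega

end main

theorem Q13_linalg {α ε : Type} [Fintype α] [Nonempty α] (Λ : LD α ε)
    (hconn : ∀ a b, Relation.ReflTransGen Λ.Adj a b) (F V : Type) [Field F]
    [AddCommGroup V] [Module F V] [FiniteDimensional F V] (E : ℤ → Submodule F V) (W : ℕ)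
    (hanti : ∀ a b, a ≤ b → E b ≤ E a) (htop : ∀ a, a ≤ 0 → E a = ⊤)
    (hbot : ∀ a : ℤ, (W : ℤ) ≤ a → E a = ⊥) (L : α → V →ₗ[F] V)
    (hL : ∀ i a, ∀ v ∈ E a, L i v ∈ E (a + Λ.wt i)) (B : ℕ)
    (hB : ∀ (i : α) (W' : ℕ), ∑ k ∈ Finset.range W',
      (Module.finrank F (E k ⊓ (E ((k : ℤ) + Λ.wt i + 1)).comap (L i) : Submodule F V) -
        Module.finrank F (E ((k : ℤ) + 1))) ≤ B)
    (S : Submodule F (α → V))
    (hS : ∀ v ∈ S, ∀ t : ℤ, (∀ a, v a ∈ E (t + Λ.wt a)) →
      ∀ k, L (Λ.s k) (v (Λ.t k)) - L (Λ.t k) (v (Λ.s k)) ∈ E (t + Λ.we k + 1)) :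
    Module.finrank F S ≤ Module.finrank F V + (Fintype.card α - 1) * B := by
  obtain ⟨idx, par, hidx, hpar⟩ := Q13_enum Λ hconn
  set M : ℕ := Finset.univ.sup Λ.wt with hM
  have hMw : ∀ a, Λ.wt a ≤ M := fun a => Finset.le_sup (Finset.mem_univ a)
  set N := Fintype.card α with hN
  have hN0 : 0 < N := Fintype.card_pos
  have hstart : Q13_T Λ E S idx (-(M : ℤ)) 0 = S := by
    ext v
    simp only [Q13_T_mem]
    constructor
    · exact fun h => h.1
    · intro h
      refine ⟨h, fun i => ?_, fun l hl => absurd hl (by omega)⟩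
      have : (Λ.wt i : ℤ) ≤ M := by exact_mod_cast hMw i
      rw [htop _ (by linarith)]
      trivial
  have hend : Q13_T Λ E S idx (W : ℤ) 0 = ⊥ := by
    rw [eq_bot_iff]
    rintro v ⟨h1, h2, _⟩
    rw [Submodule.mem_bot]
    funext i
    have := h2 i
    rw [hbot _ (by have : (0 : ℤ) ≤ Λ.wt i := by positivity
                   linarith)] at this
    simpa using this
  have hsum : ∀ n : ℕ, Module.finrank F (Q13_T Λ E S idx (-(M : ℤ)) 0) ≤
      Module.finrank F (Q13_T Λ E S idx (-(M : ℤ) + n) 0) +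
      (∑ k ∈ Finset.range n, (Module.finrank F (E (-(M : ℤ) + k + Λ.wt (idx 0))) -
        Module.finrank F (E (-(M : ℤ) + k + Λ.wt (idx 0) + 1)))) +
      ∑ j ∈ Finset.range (N - 1), ∑ k ∈ Finset.range n,
        Q13_d Λ E L (par j) (-(M : ℤ) + k + Λ.wt (idx (j + 1))) := by
    intro n
    induction n with
    | zero =>
      have e : (-(M : ℤ) + ((0 : ℕ) : ℤ)) = -(M : ℤ) := by push_cast; ring
      rw [e, Finset.range_zero, Finset.sum_empty]
      simp
    | succ n ih =>
      have h1 := Q13_stage hN0 hidx hpar hanti L hL hS (-(M : ℤ) + n)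
      have h2 : ∑ j ∈ Finset.range (N - 1), ∑ k ∈ Finset.range (n + 1),
        Q13_d Λ E L (par j) (-(M : ℤ) + k + Λ.wt (idx (j + 1))) =
        ∑ j ∈ Finset.range (N - 1), ∑ k ∈ Finset.range n,
        Q13_d Λ E L (par j) (-(M : ℤ) + k + Λ.wt (idx (j + 1))) +
        ∑ j ∈ Finset.range (N - 1),
          Q13_d Λ E L (par j) (-(M : ℤ) + n + Λ.wt (idx (j + 1))) := by
        rw [← Finset.sum_add_distrib]
        refine Finset.sum_congr rfl fun j _ => ?_
        rw [Finset.sum_range_succ]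
      rw [h2, Finset.sum_range_succ]
      have e : (-(M : ℤ) + ((n + 1 : ℕ) : ℤ)) = -(M : ℤ) + n + 1 := by push_cast; ring
      rw [e]
      omega
  have hfin := hsum (W + M)
  rw [show (-(M : ℤ) + ((W + M : ℕ) : ℤ)) = W by push_cast; ring, hend, hstart, finrank_bot,
    zero_add] at hfin
  have hc : ∀ n : ℕ, (∑ k ∈ Finset.range n,
      (Module.finrank F (E (-(M : ℤ) + k + Λ.wt (idx 0))) -
        Module.finrank F (E (-(M : ℤ) + k + Λ.wt (idx 0) + 1)))) +
      Module.finrank F (E (-(M : ℤ) + n + Λ.wt (idx 0))) ≤ Module.finrank F V := by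
    intro n
    induction n with
    | zero => simpa using Submodule.finrank_le _
    | succ n ih =>
      rw [Finset.sum_range_succ]
      have h1 : Module.finrank F (E (-(M : ℤ) + n + Λ.wt (idx 0) + 1)) ≤
          Module.finrank F (E (-(M : ℤ) + n + Λ.wt (idx 0))) :=
        Submodule.finrank_mono (hanti _ _ (by linarith))
      rw [show (-(M : ℤ) + ((n + 1 : ℕ) : ℤ) + Λ.wt (idx 0)) = -(M : ℤ) + n + Λ.wt (idx 0) + 1 by
        push_cast; ring]
      omega
  have hd0 : ∀ (i : α) (k : ℤ), k + 1 ≤ 0 → Q13_d Λ E L i k = 0 := by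
    intro i k hk
    unfold Q13_d
    rw [htop (k + 1) hk, finrank_top]
    exact Nat.sub_eq_zero_of_le (Submodule.finrank_le _)
  have hd : ∀ j, ∑ k ∈ Finset.range (W + M),
        Q13_d Λ E L (par j) (-(M : ℤ) + k + Λ.wt (idx (j + 1))) ≤ B := by
    intro j
    have hw := hMw (idx (j + 1))
    set w := Λ.wt (idx (j + 1)) with hwdef
    rw [show W + M = (M - w) + (W + w) by omega, Finset.sum_range_add]
    have h1 : ∑ k ∈ Finset.range (M - w), Q13_d Λ E L (par j) (-(M : ℤ) + k + w) = 0 := by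
      refine Finset.sum_eq_zero fun k hk => hd0 _ _ ?_
      have := Finset.mem_range.1 hk
      omega
    rw [h1, zero_add]
    refine le_trans (le_of_eq ?_) (hB (par j) (W + w))
    refine Finset.sum_congr rfl fun k _ => ?_
    have e : (-(M : ℤ) + ((M - w + k : ℕ) : ℤ) + (w : ℤ)) = k := by
      push_cast [Nat.cast_sub hw]
      ring
    rw [e]
    rfl
  have h3 := hc (W + M)
  have h4 : ∑ j ∈ Finset.range (N - 1), ∑ k ∈ Finset.range (W + M),
        Q13_d Λ E L (par j) (-(M : ℤ) + k + Λ.wt (idx (j + 1))) ≤ (N - 1) * B := by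
    refine le_trans (Finset.sum_le_sum fun j _ => hd j) ?_
    simp
  omega

end Pool.Agent.RG.Q
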