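import Mathlib
import Pool.Agent.Lib.RG.V14

/-!
PART Q, row Q14: values of derivations on words.
-/

set_option autoImplicit false

namespace Pool.Agent.RG.Q

open scoped Classical

variable {α ε : Type} [Fintype α]

theorem Q14_word (p : ℕ) [Fact p.Prime] (Λ : LD α ε) (hΛ : Λ.Ok) {G Q : Type} [Group G] [Group Q]
    [Finite Q] (n : ℕ) (D : ℕ → Subgroup Q) (hD : NpSeries p Q n D) (hDW : D Λ.W = ⊤) (φ : G →* Q)
    (δ : G → GA p Q) (hδ : IsDer p φ δ) (z : α → G) (hz : ∀ a, φ (z a) ∈ D (Λ.wt a)) (t : ℤ)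
    (ht : ∀ a, δ (z a) ∈ Ef p D (t + Λ.wt a)) (w : FreeGroup α) :
    dl p (φ (FreeGroup.lift z w)) -
        ∑ a, (Multiplicative.toAdd (ex p a w) : ZMod p) • dl p (φ (z a)) ∈ Ef p D (2 * Λ.W) ∧
      δ (FreeGroup.lift z w) -
        ∑ a, (Multiplicative.toAdd (ex p a w) : ZMod p) • δ (z a) ∈ Ef p D (t + 2 * Λ.W) ∧
      δ (FreeGroup.lift z w) ∈ Ef p D (t + Λ.W) := by
  refine V14_word p Λ.W D hDW φ δ hδ z t (fun a => P09_anti p D ?_ (ht a)) w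
  have h1 : (Λ.W : ℤ) ≤ Λ.wt a := by exact_mod_cast hΛ.lo a
  linarith

end Pool.Agent.RG.Q
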