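import Mathlib
import Pool.Agent.Lib.RG.V14

/-!
PART V, row V15a: the leading form of one tame relation for a filtration whose term of weight `W` is
everything.
-/

set_option autoImplicit false

namespace Pool.Agent.RG.Q

open scoped Classical

section derivation

variable {p : ℕ} {G Q : Type} [Group G] [Group Q] {φ : G →* Q} {δ : G → GA p Q}

private theorem V15_der_one (hδ : IsDer p φ δ) : δ 1 = 0 := by
  have h := hδ 1 1
  rw [mul_one, map_one, map_one, one_mul] at h
  exact left_eq_add.1 h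

private theorem V15_of_eq (g : Q) : MonoidAlgebra.of (ZMod p) Q g = 1 + dl p g := by
  unfold dl
  abel

private theorem V15_der_pow (hδ : IsDer p φ δ) (g : G) (k : ℕ) :
    δ (g ^ k) = (∑ a ∈ Finset.range k, (1 + dl p (φ g)) ^ a) * δ g := by
  induction k with
  | zero => simp [V15_der_one hδ]
  | succ k ih =>
    rw [pow_succ, hδ, ih, Finset.sum_range_succ, add_mul, map_pow, map_pow, V15_of_eq]

/-- the relation `y x = x ^ q y` -/
private theorem V15_rel (hδ : IsDer p φ δ) {x y : G} {q : ℕ} (h : y * x * y⁻¹ = x ^ q) :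
    ((1 + dl p (φ x)) ^ q - 1) * δ y =
      (1 + dl p (φ y) - ∑ a ∈ Finset.range q, (1 + dl p (φ x)) ^ a) * δ x := by
  have h1 : y * x = x ^ q * y := by
    rw [← h]
    group
  have h2 := congrArg δ h1
  rw [hδ, hδ, V15_der_pow hδ, map_pow, map_pow, V15_of_eq, V15_of_eq] at h2
  have h3 : (1 + dl p (φ x)) ^ q * δ y = δ y + (1 + dl p (φ y)) * δ x -
      (∑ a ∈ Finset.range q, (1 + dl p (φ x)) ^ a) * δ x := by
    rw [h2]
    abel
  rw [sub_mul, one_mul, h3, sub_mul]
  abel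

end derivation

section powers

variable {p : ℕ} [Fact p.Prime] {Q : Type} [Group Q]

private theorem V15_pow_mem {W : ℕ} {D : ℕ → Subgroup Q} {n : ℕ} (hD : NpSeries p Q n D)
    {ξ : GA p Q} (hξ : ξ ∈ Ef p D W) (k : ℕ) : ξ ^ k ∈ Ef p D (W * k) := by
  induction k with
  | zero => rw [P09_top p n D hD _ (by simp)]; trivial
  | succ k ih =>
    have h := P09_mul p D _ _ _ _ ih hξ
    rw [← pow_succ] at h
    have e : (W * (k : ℤ)) + W = W * ((k + 1 : ℕ) : ℤ) := by push_cast; ring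
    rwa [e] at h

/-- the geometric sum is `q + (q choose 2) ξ + (weight 2 W)` -/
private theorem V15_geom {W : ℕ} {D : ℕ → Subgroup Q} {ξ : GA p Q}
    (hξ : ξ ∈ Ef p D W) (q : ℕ) :
    (∑ a ∈ Finset.range q, (1 + ξ) ^ a) - ((q : ZMod p) • (1 : GA p Q) +
      ((q.choose 2 : ℕ) : ZMod p) • ξ) ∈ Ef p D (2 * W) ∧
    (1 + ξ) ^ q - (1 + (q : ZMod p) • ξ) ∈ Ef p D (2 * W) := by
  have hW0 : (0 : ℤ) ≤ W := Int.natCast_nonneg W
  have h2 : ξ * ξ ∈ Ef p D (2 * W) := by
    have := P09_mul p D W W _ _ hξ hξ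
    have e : (W : ℤ) + W = 2 * W := by ring
    rwa [e] at this
  have hleft : ∀ v ∈ Ef p D (2 * W), v * (1 + ξ) ∈ Ef p D (2 * W) := by
    intro v hv
    rw [mul_add, mul_one]
    refine Submodule.add_mem _ hv ?_
    exact P09_anti p D (by linarith) (P09_mul p D (2 * W) W _ _ hv hξ)
  induction q with
  | zero =>
    constructor
    · simp
    · simp
  | succ q ih =>
    obtain ⟨ih1, ih2⟩ := ih
    constructor
    · have h3 := Submodule.add_mem _ ih1 ih2
      convert h3 using 1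
      rw [Finset.sum_range_succ, Nat.choose_succ_succ' q 1, Nat.choose_one_right]
      push_cast
      simp only [add_smul, one_smul]
      abel
    · have h3 := Submodule.add_mem _ (hleft _ ih2)
        (Submodule.smul_mem _ (q : ZMod p) h2)
      convert h3 using 1
      rw [pow_succ]
      push_cast
      simp only [add_smul, one_smul]
      rw [sub_mul, add_mul, one_mul, smul_mul_assoc, mul_add ξ, mul_one, smul_add]
      abel

/-- the power `(1 + ξ) ^ q` is `1 + ξ + (weight 3 W)` -/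
private theorem V15_power (hp : p ≠ 2) {W : ℕ} {D : ℕ → Subgroup Q} {n : ℕ}
    (hD : NpSeries p Q n D) {ξ : GA p Q} (hξ : ξ ∈ Ef p D W) {q : ℕ} (hq : q % p = 1) :
    (1 + ξ) ^ q - 1 - ξ ∈ Ef p D (3 * W) := by
  have hW0 : (0 : ℤ) ≤ W := Int.natCast_nonneg W
  have hp3 : 3 ≤ p := by
    have := (Fact.out : p.Prime).two_le
    omega
  obtain ⟨k, hk⟩ : ∃ k, q = 1 + p * k := ⟨q / p, by
    have := Nat.mod_add_div q p
    omega⟩
  have hchar : CharP (GA p Q) p :=
    charP_of_injective_algebraMap (algebraMap (ZMod p) (GA p Q)).injective p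
  have h1 : (1 + ξ) ^ p = 1 + ξ ^ p := by
    rw [add_pow_char_of_commute p (Commute.one_left ξ), one_pow]
  have h2 : ξ ^ p ∈ Ef p D (3 * W) := P09_anti p D (by
    have : (3 : ℤ) ≤ p := by exact_mod_cast hp3
    nlinarith) (V15_pow_mem hD hξ p)
  have h3 : ∀ k : ℕ, (1 + ξ ^ p) ^ k - 1 ∈ Ef p D (3 * W) := by
    intro k
    induction k with
    | zero => simp
    | succ k ih =>
      have e : (1 + ξ ^ p) ^ (k + 1) - 1 = ((1 + ξ ^ p) ^ k - 1) + ((1 + ξ ^ p) ^ k - 1) * ξ ^ p +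
          ξ ^ p := by
        rw [pow_succ]
        noncomm_ring
      rw [e]
      refine Submodule.add_mem _ (Submodule.add_mem _ ih ?_) h2
      exact P09_anti p D (by linarith) (P09_mul p D (3 * W) (3 * W) _ _ ih h2)
  have e : (1 + ξ) ^ q - 1 - ξ = ((1 + ξ ^ p) ^ k - 1) + ξ * ((1 + ξ ^ p) ^ k - 1) := by
    rw [hk, pow_add, pow_one, pow_mul, h1]
    noncomm_ring
  rw [e]
  refine Submodule.add_mem _ (h3 k) ?_
  exact P09_anti p D (by linarith) (P09_mul p D W (3 * W) _ _ hξ (h3 k))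

end powers

/-- The relation `y x y⁻¹ = x ^ q` gives `(y - 1) δ x - (x - 1) δ y ∈ (weight t + 3 W)`. -/
theorem V15_tame (p : ℕ) [Fact p.Prime] (hp : p ≠ 2) {G Q : Type} [Group G] [Group Q]
    [Finite Q] (n : ℕ) (D : ℕ → Subgroup Q) (hD : NpSeries p Q n D) (W : ℕ) (hDW : D W = ⊤)
    (φ : G →* Q) (δ : G → GA p Q) (hδ : IsDer p φ δ) (x y : G) (q : ℕ) (hq : q % p = 1)
    (htame : y * x * y⁻¹ = x ^ q) (t : ℤ) (hx : δ x ∈ Ef p D (t + W))
    (hy : δ y ∈ Ef p D (t + W)) :
    dl p (φ y) * δ x - dl p (φ x) * δ y ∈ Ef p D (t + 3 * W) := by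
  have hW0 : (0 : ℤ) ≤ W := Int.natCast_nonneg W
  have hξ : dl p (φ x) ∈ Ef p D W := P09_dl p D W (φ x) (by rw [hDW]; trivial)
  have hmulδ : ∀ (a : ℤ) (u v : GA p Q) (b : ℤ), t + 3 * W ≤ a + b → u ∈ Ef p D a →
      v ∈ Ef p D b → u * v ∈ Ef p D (t + 3 * W) := by
    intro a u v b hab hu hv
    exact P09_anti p D hab (P09_mul p D a b u v hu hv)
  have hrel := V15_rel hδ htame
  have hpow := V15_power hp hD hξ hq
  have hgeom := (V15_geom hξ q).1
  have hqp : ((q : ℕ) : ZMod p) = 1 := by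
    have h1 := hq
    have h2 := (Fact.out : p.Prime).one_lt
    have h3 : ((q : ℕ) : ZMod p) = ((1 : ℕ) : ZMod p) := by
      rw [ZMod.natCast_eq_natCast_iff]
      unfold Nat.ModEq
      rw [h1, Nat.mod_eq_of_lt h2]
    rw [h3, Nat.cast_one]
  have hchoose : ((q.choose 2 : ℕ) : ZMod p) = 0 := by
    have h1 : (2 : ZMod p) * ((q.choose 2 : ℕ) : ZMod p) = 0 := by
      have h2 : 2 * q.choose 2 = q * (q - 1) := by
        rw [Nat.choose_two_right, mul_comm 2]
        exact Nat.div_mul_cancel (Nat.even_mul_pred_self _).two_dvd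
      have h3 : ((2 * q.choose 2 : ℕ) : ZMod p) = 0 := by
        rw [h2]
        push_cast
        have h4 : ((q - 1 : ℕ) : ZMod p) = 0 := by
          rw [ZMod.natCast_eq_zero_iff]
          have h5 := Nat.mod_add_div q p
          rw [hq] at h5
          exact ⟨q / p, by omega⟩
        rw [h4, mul_zero]
      push_cast at h3
      exact h3
    rcases mul_eq_zero.1 h1 with h2 | h2
    · exfalso
      have h3 : ((2 : ℕ) : ZMod p) = 0 := by exact_mod_cast h2
      rw [ZMod.natCast_eq_zero_iff] at h3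
      exact hp ((Nat.prime_dvd_prime_iff_eq Fact.out Nat.prime_two).1 h3)
    · exact h2
  rw [hqp, hchoose, one_smul, zero_smul, add_zero] at hgeom
  have h2 := hmulδ (3 * W) _ _ (t + W) (by linarith) hpow hy
  have h3 := hmulδ (2 * W) _ _ (t + W) (by linarith) hgeom hx
  have h4 : dl p (φ y) * δ x - dl p (φ x) * δ y =
      ((1 + dl p (φ x)) ^ q - 1 - dl p (φ x)) * δ y +
        ((∑ a ∈ Finset.range q, (1 + dl p (φ x)) ^ a) - 1) * δ x := by
    have h5 : ((1 + dl p (φ x)) ^ q - 1 - dl p (φ x)) * δ y =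
        ((1 + dl p (φ x)) ^ q - 1) * δ y - dl p (φ x) * δ y := by
      rw [sub_mul ((1 + dl p (φ x)) ^ q - 1)]
    rw [h5, hrel]
    simp only [sub_mul, add_mul, one_mul]
    abel
  rw [h4]
  exact Submodule.add_mem _ h2 h3

end Pool.Agent.RG.Q
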