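import Mathlib
import Pool.Agent.Lib.RG.Q14
import Pool.Agent.Lib.RG.Q19
import Pool.Agent.Lib.RG.V15a

/-!
PART Q, row Q15: the leading form of the relations (adapt P15.lean). For each j choose (Q19) words approximating x j and y j modulo the open
subgroup N ⊓ ker φ ⊓ ⨅ ker χ a (δ vanishes on N): δ (x j) = δ (word), φ (x j) = φ (word), exponents = χ. From y x = x^q y:
(x^q - 1) δ y = (y - N_q) δ x with N_q = 1 + x + .. + x^(q-1) = 1 + (x-1)^2 (..): so dl y * δ x - dl x * δ y in Ef (t + 3 W); expand by Q14: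
sum_(a,b) (cy a cx b - cx a cy b) dl (z a) δ (z b) in Ef (t + 3 W). Combine with B k j; van and antisymmetry leave the edge k; 3 W > we k.
-/

set_option autoImplicit false

namespace Pool.Agent.RG.Q

open scoped Classical

variable {α ε κ : Type} [Fintype α] [Fintype ε] [Fintype κ]

/-- Values on an element from a word with the right exponents. -/
theorem Q15_word (p : ℕ) [Fact p.Prime] (G : Type) [Group G]
    [TopologicalSpace G] [IsTopologicalGroup G] (K : KD p α κ G)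
    {Q : Type} [Group Q] [Finite Q] (W : ℕ) (D : ℕ → Subgroup Q)
    (hDW : D W = ⊤) (φ : G →* Q) (hφ : IsOpen (φ.ker : Set G)) (δ : G → GA p Q)
    (hδ : IsDer p φ δ) (hc : LocConst δ) (t : ℤ)
    (ht : ∀ a, δ (K.z a) ∈ Ef p D (t + W)) (g : G) :
    dl p (φ g) -
        ∑ a, Multiplicative.toAdd (K.χ a g) • dl p (φ (K.z a)) ∈ Ef p D (2 * W) ∧
      δ g -
        ∑ a, Multiplicative.toAdd (K.χ a g) • δ (K.z a) ∈ Ef p D (t + 2 * W) ∧
      δ g ∈ Ef p D (t + W) := by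
  obtain ⟨N, hN, hN0⟩ := hc
  have hopen : IsOpen ((N ⊓ φ.ker ⊓ ⨅ j, (K.χ j).ker : Subgroup G) : Set G) := by
    rw [Subgroup.coe_inf, Subgroup.coe_inf, Subgroup.coe_iInf]
    exact (hN.inter hφ).inter (isOpen_iInter_of_finite fun j => K.cont j)
  obtain ⟨w, hw⟩ := Q19_dense G K.z K.gen _ hopen g
  obtain ⟨⟨hw1, hw2⟩, hw3⟩ := hw
  have hyw : g = FreeGroup.lift K.z w * ((FreeGroup.lift K.z w)⁻¹ * g) := by group
  have hφy : φ g = φ (FreeGroup.lift K.z w) := by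
    conv_lhs => rw [hyw]
    rw [map_mul, MonoidHom.mem_ker.1 hw2, mul_one]
  have hδy : δ g = δ (FreeGroup.lift K.z w) := by
    conv_lhs => rw [hyw]
    rw [hδ, hN0 _ hw1, mul_zero, add_zero]
  have hχ : ∀ j, ex p j w = K.χ j g := by
    intro j
    have h1 : K.χ j g = K.χ j (FreeGroup.lift K.z w) := by
      conv_lhs => rw [hyw]
      rw [map_mul, MonoidHom.mem_ker.1 ((Subgroup.mem_iInf.1 hw3) j), mul_one]
    rw [h1]
    have h2 : ex p j = (K.χ j).comp (FreeGroup.lift K.z) := by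
      refine FreeGroup.ext_hom _ _ fun k => ?_
      rw [ex, FreeGroup.lift_apply_of, MonoidHom.comp_apply, FreeGroup.lift_apply_of, K.dual]
    rw [h2]
    rfl
  have h := V14_word p W D hDW φ δ hδ K.z t ht w
  rw [← hφy, ← hδy] at h
  simp only [hχ] at h
  exact h

theorem Q15_relation (p : ℕ) [Fact p.Prime] (hp : p ≠ 2) (G : Type) [Group G]
    [TopologicalSpace G] [IsTopologicalGroup G] (K : KD p α κ G) (Λ : LD α ε)
    (B : ε → κ → ZMod p)
    (hL : Lead Λ (fun j a => Multiplicative.toAdd (K.χ a (K.x j)))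
      (fun j a => Multiplicative.toAdd (K.χ a (K.y j))) B)
    {Q : Type} [Group Q] [Finite Q] (n : ℕ) (D : ℕ → Subgroup Q) (hD : NpSeries p Q n D)
    (hDW : D Λ.W = ⊤) (φ : G →* Q) (hφ : IsOpen (φ.ker : Set G)) (δ : G → GA p Q)
    (hδ : IsDer p φ δ) (hc : LocConst δ) (hz : ∀ a, φ (K.z a) ∈ D (Λ.wt a)) (t : ℤ)
    (ht : ∀ a, δ (K.z a) ∈ Ef p D (t + Λ.wt a)) (k : ε) :
    dl p (φ (K.z (Λ.s k))) * δ (K.z (Λ.t k)) - dl p (φ (K.z (Λ.t k))) * δ (K.z (Λ.s k)) ∈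
      Ef p D (t + Λ.we k + 1) := by
  have hlo : ∀ a, (Λ.W : ℤ) ≤ Λ.wt a := fun a => by exact_mod_cast hL.ok.lo a
  have hW0 : (0 : ℤ) ≤ Λ.W := Int.natCast_nonneg _
  have htW : ∀ a, δ (K.z a) ∈ Ef p D (t + Λ.W) := fun a =>
    P09_anti p D (by linarith [hlo a]) (ht a)
  have hwd := Q15_word p G K Λ.W D hDW φ hφ δ hδ hc t htW
  have hdlW : ∀ g : Q, dl p g ∈ Ef p D Λ.W := fun g => P09_dl p D Λ.W g (by rw [hDW]; trivial)
  set cx : κ → α → ZMod p := fun j a => Multiplicative.toAdd (K.χ a (K.x j)) with hcx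
  set cy : κ → α → ZMod p := fun j a => Multiplicative.toAdd (K.χ a (K.y j)) with hcy
  have hmulδ : ∀ (a : ℤ) (u v : GA p Q) (b : ℤ), t + 3 * Λ.W ≤ a + b → u ∈ Ef p D a →
      v ∈ Ef p D b → u * v ∈ Ef p D (t + 3 * Λ.W) := by
    intro a u v b hab hu hv
    exact P09_anti p D hab (P09_mul p D a b u v hu hv)
  -- the relation `j` in terms of the letters
  have hj : ∀ j, ∑ a, ∑ b, qd cx cy j a b • (dl p (φ (K.z a)) * δ (K.z b)) ∈
      Ef p D (t + 3 * Λ.W) := by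
    intro j
    obtain ⟨hx1, hx2, hx3⟩ := hwd (K.x j)
    obtain ⟨hy1, hy2, hy3⟩ := hwd (K.y j)
    have h1 := V15_tame p hp n D hD Λ.W hDW φ δ hδ (K.x j) (K.y j) (K.q j) (K.hq j) (K.tame j) t
      hx3 hy3
    change dl p (φ (K.x j)) - ∑ a, cx j a • dl p (φ (K.z a)) ∈ _ at hx1
    change δ (K.x j) - ∑ a, cx j a • δ (K.z a) ∈ _ at hx2
    change dl p (φ (K.y j)) - ∑ a, cy j a • dl p (φ (K.z a)) ∈ _ at hy1
    change δ (K.y j) - ∑ a, cy j a • δ (K.z a) ∈ _ at hy2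
    set ξx := dl p (φ (K.x j)) with hξx
    set ξy := dl p (φ (K.y j)) with hξy
    set Lx := ∑ a, cx j a • dl p (φ (K.z a)) with hLx
    set Ly := ∑ a, cy j a • dl p (φ (K.z a)) with hLy
    set Mx := ∑ a, cx j a • δ (K.z a) with hMx
    set My := ∑ a, cy j a • δ (K.z a) with hMy
    have hLxm : Lx ∈ Ef p D Λ.W :=
      Submodule.sum_mem _ fun a _ => Submodule.smul_mem _ _ (hdlW _)
    have hLym : Ly ∈ Ef p D Λ.W :=
      Submodule.sum_mem _ fun a _ => Submodule.smul_mem _ _ (hdlW _)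
    have e1 := hmulδ (2 * Λ.W) _ _ (t + Λ.W) (by linarith) hy1 hx3
    have e2 := hmulδ (2 * Λ.W) _ _ (t + Λ.W) (by linarith) hx1 hy3
    have e3 := hmulδ Λ.W _ _ (t + 2 * Λ.W) (by linarith) hLym hx2
    have e4 := hmulδ Λ.W _ _ (t + 2 * Λ.W) (by linarith) hLxm hy2
    have e5 : ∑ a, ∑ b, qd cx cy j a b • (dl p (φ (K.z a)) * δ (K.z b)) = Ly * Mx - Lx * My := by
      rw [hLx, hLy, hMx, hMy, Finset.sum_mul_sum, Finset.sum_mul_sum, ← Finset.sum_sub_distrib]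
      refine Finset.sum_congr rfl fun a _ => ?_
      rw [← Finset.sum_sub_distrib]
      refine Finset.sum_congr rfl fun b _ => ?_
      rw [qd, sub_smul, smul_mul_smul_comm, smul_mul_smul_comm]
    have e6 : Ly * Mx - Lx * My = (ξy * δ (K.x j) - ξx * δ (K.y j)) -
        (ξy - Ly) * δ (K.x j) + (ξx - Lx) * δ (K.y j) - Ly * (δ (K.x j) - Mx) +
        Lx * (δ (K.y j) - My) := by
      noncomm_ring
    rw [e5, e6]
    exact Submodule.add_mem _ (Submodule.sub_mem _ (Submodule.add_mem _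
      (Submodule.sub_mem _ h1 e1) e2) e3) e4
  -- combine
  set c : α → α → ZMod p := fun a b => ∑ j, B k j * qd cx cy j a b with hc'
  have hsum : ∑ a, ∑ b, c a b • (dl p (φ (K.z a)) * δ (K.z b)) ∈ Ef p D (t + 3 * Λ.W) := by
    have h1 : ∑ j, B k j • ∑ a, ∑ b, qd cx cy j a b • (dl p (φ (K.z a)) * δ (K.z b)) ∈
        Ef p D (t + 3 * Λ.W) :=
      Submodule.sum_mem _ fun j _ => Submodule.smul_mem _ _ (hj j)
    have h2 : ∑ a, ∑ b, c a b • (dl p (φ (K.z a)) * δ (K.z b)) =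
        ∑ j, B k j • ∑ a, ∑ b, qd cx cy j a b • (dl p (φ (K.z a)) * δ (K.z b)) := by
      simp only [Finset.smul_sum, hc', Finset.sum_smul, smul_smul]
      calc _ = ∑ a, ∑ j, ∑ b, (B k j * qd cx cy j a b) • (dl p (φ (K.z a)) * δ (K.z b)) :=
            Finset.sum_congr rfl fun a _ => Finset.sum_comm
        _ = _ := Finset.sum_comm
    rw [h2]
    exact h1
  have h3W : (Λ.we k : ℤ) + 1 ≤ 3 * Λ.W := by
    have h1 := hL.ok.hi (Λ.s k)
    have h2 := hL.ok.hi (Λ.t k)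
    have h3 : Λ.we k + 1 ≤ 3 * Λ.W := by
      unfold LD.we
      omega
    exact_mod_cast h3
  have hsum' : ∑ a, ∑ b, c a b • (dl p (φ (K.z a)) * δ (K.z b)) ∈ Ef p D (t + Λ.we k + 1) :=
    P09_anti p D (by linarith) hsum
  have hst : Λ.s k ≠ Λ.t k := hL.ok.col k k
  have hother : ∀ a b, ¬ (a = Λ.s k ∧ b = Λ.t k) → ¬ (a = Λ.t k ∧ b = Λ.s k) →
      c a b • (dl p (φ (K.z a)) * δ (K.z b)) ∈ Ef p D (t + Λ.we k + 1) := by
    intro a b h1 h2
    by_cases h3 : Λ.wt a + Λ.wt b ≤ Λ.we k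
    · have h4 : c a b = 0 := hL.van k a b h3 h1 h2
      rw [h4, zero_smul]
      exact zero_mem _
    · refine Submodule.smul_mem _ _ ?_
      refine P09_anti p D ?_ (P09_mul p D (Λ.wt a) (t + Λ.wt b) _ _
        (P09_dl p D (Λ.wt a) _ (hz a)) (ht b))
      have h4 : (Λ.we k : ℤ) + 1 ≤ Λ.wt a + Λ.wt b := by
        have h5 : Λ.we k + 1 ≤ Λ.wt a + Λ.wt b := by omega
        exact_mod_cast h5
      linarith
  have hanti : c (Λ.t k) (Λ.s k) = -c (Λ.s k) (Λ.t k) := by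
    simp only [hc', qd]
    rw [← Finset.sum_neg_distrib]
    refine Finset.sum_congr rfl fun j _ => ?_
    ring
  have hne : c (Λ.s k) (Λ.t k) ≠ 0 := hL.lead k
  have hpair : c (Λ.s k) (Λ.t k) • (dl p (φ (K.z (Λ.s k))) * δ (K.z (Λ.t k))) +
      c (Λ.t k) (Λ.s k) • (dl p (φ (K.z (Λ.t k))) * δ (K.z (Λ.s k))) ∈
      Ef p D (t + Λ.we k + 1) := by
    set F : α × α → GA p Q := fun e => c e.1 e.2 • (dl p (φ (K.z e.1)) * δ (K.z e.2)) with hF
    have h1 : ∑ e, F e ∈ Ef p D (t + Λ.we k + 1) := by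
      rw [Fintype.sum_prod_type]
      exact hsum'
    have h2 := Finset.add_sum_erase Finset.univ F (Finset.mem_univ (Λ.s k, Λ.t k))
    have h3 := Finset.add_sum_erase (Finset.univ.erase (Λ.s k, Λ.t k)) F
      (a := (Λ.t k, Λ.s k)) (by
        rw [Finset.mem_erase]
        refine ⟨fun h => hst ?_, Finset.mem_univ _⟩
        exact (congrArg Prod.snd h))
    have h4 : ∑ e ∈ (Finset.univ.erase (Λ.s k, Λ.t k)).erase (Λ.t k, Λ.s k), F e ∈
        Ef p D (t + Λ.we k + 1) := by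
      refine Submodule.sum_mem _ fun e he => ?_
      rw [Finset.mem_erase, Finset.mem_erase] at he
      refine hother e.1 e.2 ?_ ?_
      · rintro ⟨h5, h6⟩
        exact he.2.1 (Prod.ext h5 h6)
      · rintro ⟨h5, h6⟩
        exact he.1 (Prod.ext h5 h6)
    have h5 : F (Λ.s k, Λ.t k) + F (Λ.t k, Λ.s k) = ∑ e, F e -
        ∑ e ∈ (Finset.univ.erase (Λ.s k, Λ.t k)).erase (Λ.t k, Λ.s k), F e := by
      rw [← h2, ← h3]
      abel
    change F (Λ.s k, Λ.t k) + F (Λ.t k, Λ.s k) ∈ _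
    rw [h5]
    exact Submodule.sub_mem _ h1 h4
  rw [hanti, neg_smul, ← sub_eq_add_neg, ← smul_sub] at hpair
  have h6 := Submodule.smul_mem _ (c (Λ.s k) (Λ.t k))⁻¹ hpair
  rwa [smul_smul, inv_mul_cancel₀ hne, one_smul] at h6

end Pool.Agent.RG.Q
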