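import Mathlib
import Pool.Agent.Lib.RG.QDefs

/-!
PART Q, row Q16 (Shapiro; P16.lean for an arbitrary index type).
-/

set_option autoImplicit false

namespace Pool.Agent.RG.Q

open scoped Classical

section Q16

variable (p : ℕ) {G : Type} [Group G] {Q : Type} [Group Q] [Finite Q] (φ : G →* Q)

/-- an element of the group algebra with given coefficients -/
private noncomputable def Q16_mk (F : Q → ZMod p) : GA p Q :=
  MonoidAlgebra.ofCoeff (Finsupp.equivFunOnFinite.symm F)

private theorem Q16_coeff_mk (F : Q → ZMod p) (a : Q) : (Q16_mk p F).coeff a = F a := rfl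

omit [Finite Q] in
private theorem Q16_of_mul (g : Q) (w : GA p Q) (a : Q) :
    (MonoidAlgebra.of (ZMod p) Q g * w).coeff a = w.coeff (g⁻¹ * a) := by
  rw [MonoidAlgebra.of_apply, MonoidAlgebra.coeff_single_mul_apply, one_mul]

variable (s : Q → G) (hs : ∀ a, φ (s a) = a)

/-- the element of the kernel -/
private def Q16_u (g : G) (a : Q) : φ.ker :=
  ⟨(s a)⁻¹ * g * s ((φ g)⁻¹ * a), by
    rw [MonoidHom.mem_ker, map_mul, map_mul, map_inv, hs, hs]
    group⟩

/-- the derivation -/
private noncomputable def Q16_d (f : φ.ker →* Multiplicative (ZMod p)) (g : G) : GA p Q :=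
  Q16_mk p fun a => Multiplicative.toAdd (f (Q16_u φ s hs g a))

private theorem Q16_der (f : φ.ker →* Multiplicative (ZMod p)) : IsDer p φ (Q16_d p φ s hs f) := by
  intro g h
  ext a
  rw [MonoidAlgebra.coeff_add, Finsupp.add_apply, Q16_of_mul]
  simp only [Q16_d, Q16_coeff_mk]
  rw [← toAdd_mul, ← map_mul]
  congr 2
  apply Subtype.ext
  simp only [Q16_u, Subgroup.coe_mul, map_mul, mul_inv_rev]
  group

end Q16

theorem Q16_shapiro (p : ℕ) [Fact p.Prime] {α : Type} [Fintype α] (G : Type) [Group G]
    [TopologicalSpace G] [IsTopologicalGroup G] (x : α → G)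
    (hgen : (Subgroup.closure (Set.range x)).topologicalClosure = ⊤) {Q : Type} [Group Q]
    [Finite Q] (φ : G →* Q) (hφ : IsOpen (φ.ker : Set G)) (hs : Function.Surjective φ) (r : ℕ)
    (f : Fin r → φ.ker →* Multiplicative (ZMod p)) (hf : IndepHoms p φ.ker r f) :
    r + Nat.card Q ≤ Module.finrank (ZMod p) (Derv p x φ) + 1 := by
  obtain ⟨s, hs⟩ := hs.hasRightInverse
  have hs' : ∀ a, φ (s a) = a := hs
  have hs1 : ∀ q, ∃ g, φ g = q := fun q => ⟨s q, hs q⟩
  -- local constancy
  have hloc : ∀ t, LocConst (Q16_d p φ s hs' (f t)) := by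
    intro t
    set Kt : Subgroup G := (f t).ker.map φ.ker.subtype with hKt
    refine ⟨φ.ker ⊓ ⨅ a : Q, Kt.comap (MulAut.conj (s a)⁻¹).toMonoidHom, ?_, ?_⟩
    · rw [Subgroup.coe_inf, Subgroup.coe_iInf]
      refine hφ.inter (isOpen_iInter_of_finite fun a => ?_)
      rw [Subgroup.coe_comap]
      refine (hf.1 t).preimage ?_
      have : Continuous fun g : G => (s a)⁻¹ * g * s a := by fun_prop
      convert this using 2 with g
      simp
    · rintro g ⟨hg1, hg2⟩
      have hg1' : φ g = 1 := hg1
      simp only [Q16_d]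
      ext a
      rw [Q16_coeff_mk]
      have hga : (s a)⁻¹ * g * s a ∈ Kt := by
        have h1 : g ∈ Kt.comap (MulAut.conj (s a)⁻¹).toMonoidHom := by
          have := Subgroup.mem_iInf.1 hg2 a
          exact this
        have h2 := Subgroup.mem_comap.1 h1
        simpa using h2
      obtain ⟨u, hu, hu2⟩ := hga
      have h3 : Q16_u φ s hs' g a = u := by
        apply Subtype.ext
        simp only [Q16_u, hg1', inv_one, one_mul]
        exact hu2.symm
      rw [h3]
      have h4 : f t u = 1 := hu
      rw [h4]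
      rfl
  -- inner derivations
  have hinnD : ∀ w : GA p Q, IsDer p φ fun g => (MonoidAlgebra.of (ZMod p) Q (φ g) - 1) * w := by
    intro w g h
    simp only [map_mul]
    noncomm_ring
  have hinnL : ∀ w : GA p Q, LocConst fun g => (MonoidAlgebra.of (ZMod p) Q (φ g) - 1) * w := by
    intro w
    refine ⟨φ.ker, hφ, fun g hg => ?_⟩
    have : φ g = 1 := hg
    simp only
    rw [this, map_one, sub_self, zero_mul]
  -- the total derivation
  let δ : (Fin r → ZMod p) × GA p Q → G → GA p Q := fun cw g =>
    (∑ t, cw.1 t • Q16_d p φ s hs' (f t) g) + (MonoidAlgebra.of (ZMod p) Q (φ g) - 1) * cw.2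
  have hδD : ∀ cw, IsDer p φ (δ cw) := by
    intro cw g h
    have e := hinnD cw.2 g h
    simp only at e
    simp only [δ]
    rw [e]
    simp only [fun t => Q16_der p φ s hs' (f t) g h, smul_add, Finset.sum_add_distrib, mul_add,
      Finset.mul_sum, mul_smul_comm]
    abel
  have hδL : ∀ cw, LocConst (δ cw) := by
    intro cw
    choose N hN hN0 using hloc
    obtain ⟨N', hN', hN0'⟩ := hinnL cw.2
    refine ⟨(⨅ t, N t) ⊓ N', ?_, ?_⟩
    · rw [Subgroup.coe_inf, Subgroup.coe_iInf]
      exact (isOpen_iInter_of_finite fun t => hN t).inter hN'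
    · rintro g ⟨hg1, hg2⟩
      have e := hN0' g hg2
      simp only at e
      simp only [δ]
      rw [e]
      rw [Finset.sum_eq_zero, add_zero]
      intro t _
      rw [hN0 t g (Subgroup.mem_iInf.1 hg1 t), smul_zero]
  let Φ : (Fin r → ZMod p) × GA p Q →ₗ[ZMod p] (α → GA p Q) :=
    { toFun := fun cw i => δ cw (x i)
      map_add' := by
        intro cw cw'
        funext i
        simp only [δ, Prod.fst_add, Prod.snd_add, Pi.add_apply, add_smul, Finset.sum_add_distrib,
          mul_add]
        abel
      map_smul' := by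
        intro c cw
        funext i
        simp only [δ, Prod.smul_fst, Prod.smul_snd, Pi.smul_apply, smul_eq_mul, RingHom.id_apply,
          smul_add, Finset.smul_sum, mul_smul_comm, smul_smul] }
  have hrange : LinearMap.range Φ ≤ Derv p x φ := by
    rintro v ⟨cw, rfl⟩
    exact ⟨δ cw, hδD cw, hδL cw, fun i => rfl⟩
  -- a locally constant derivation with zero values on the `x i` vanishes
  have hzero : ∀ cw, Φ cw = 0 → ∀ g, δ cw g = 0 := by
    intro cw h0
    have hD := hδD cw
    have h1 : δ cw 1 = 0 := by
      have := hD 1 1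
      rw [mul_one, map_one, map_one, one_mul] at this
      simpa using this
    let Z : Subgroup G :=
      { carrier := {g | δ cw g = 0}
        one_mem' := h1
        mul_mem' := by
          intro a b ha hb
          simp only [Set.mem_ofPred_eq] at ha hb ⊢
          rw [hD, ha, hb, mul_zero, add_zero]
        inv_mem' := by
          intro a ha
          simp only [Set.mem_ofPred_eq] at ha ⊢
          have h2 := hD a⁻¹ a
          rw [inv_mul_cancel, h1, ha, mul_zero, add_zero] at h2
          exact h2.symm }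
    obtain ⟨N, hN, hN0⟩ := hδL cw
    have hZo : IsOpen (Z : Set G) := Subgroup.isOpen_mono (H₁ := N) (H₂ := Z) (fun g hg => hN0 g hg) hN
    have hZc : IsClosed (Z : Set G) := Subgroup.isClosed_of_isOpen Z hZo
    have hle : (Subgroup.closure (Set.range x)).topologicalClosure ≤ Z := by
      apply Subgroup.topologicalClosure_minimal _ _ hZc
      rw [Subgroup.closure_le]
      rintro _ ⟨i, rfl⟩
      exact congrFun h0 i
    intro g
    exact hle (by rw [hgen]; trivial)
  have hker : LinearMap.ker Φ ≤ Submodule.span (ZMod p)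
      {((0 : Fin r → ZMod p), Q16_mk p (fun _ : Q => 1))} := by
    intro cw hcw
    have h0 := hzero cw (LinearMap.mem_ker.1 hcw)
    have hc : cw.1 = 0 := by
      have hli := Fintype.linearIndependent_iff.1 hf.2 cw.1 ?_
      · funext t
        exact hli t
      funext u
      have h2 : φ (s 1 * (u : G) * (s 1)⁻¹) = 1 := by
        rw [map_mul, map_mul, map_inv, hs', show φ (u : G) = 1 from u.2]
        simp
      have h0' := h0 (s 1 * (u : G) * (s 1)⁻¹)
      simp only [δ] at h0'
      rw [h2, map_one, sub_self, zero_mul, add_zero] at h0'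
      have h1 : (∑ t, cw.1 t • Q16_d p φ s hs' (f t) (s 1 * (u : G) * (s 1)⁻¹)).coeff 1 = 0 := by
        rw [h0']
        rfl
      rw [MonoidAlgebra.coeff_sum, Finsupp.finsetSum_apply] at h1
      rw [Finset.sum_apply]
      have h3 : ∀ t, (cw.1 t • Q16_d p φ s hs' (f t) (s 1 * (u : G) * (s 1)⁻¹)).coeff 1 =
          (cw.1 t • fun u : φ.ker => Multiplicative.toAdd (f t u)) u := by
        intro t
        rw [MonoidAlgebra.coeff_smul_apply]
        simp only [Q16_d, Q16_coeff_mk, Pi.smul_apply]
        congr 3
        apply Subtype.ext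
        simp only [Q16_u, h2]
        group
      simp only [h3] at h1
      exact h1
    have hw : ∀ a : Q, cw.2.coeff a = cw.2.coeff 1 := by
      intro a
      obtain ⟨g, hg⟩ := hs1 a
      have h1 := h0 g
      simp only [δ, hc, Pi.zero_apply, zero_smul, Finset.sum_const_zero, zero_add, hg, sub_mul,
        one_mul] at h1
      have h2 := congrArg (fun z : GA p Q => z.coeff a) (sub_eq_zero.1 h1)
      simp only [Q16_of_mul, inv_mul_cancel] at h2
      exact h2.symm
    rw [Submodule.mem_span_singleton]
    refine ⟨cw.2.coeff 1, ?_⟩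
    refine Prod.ext ?_ ?_
    · simp [hc]
    · ext a
      simp only [Prod.smul_snd, MonoidAlgebra.coeff_smul_apply, Q16_coeff_mk, smul_eq_mul, mul_one]
      exact (hw a).symm
  -- dimensions
  have := Fintype.ofFinite Q
  let eq : GA p Q ≃ₗ[ZMod p] (Q →₀ ZMod p) := MonoidAlgebra.coeffLinearEquiv _
  have : Module.Finite (ZMod p) (GA p Q) := Module.Finite.equiv eq.symm
  have hdim : Module.finrank (ZMod p) ((Fin r → ZMod p) × GA p Q) = r + Nat.card Q := by
    rw [Module.finrank_prod, eq.finrank_eq]
    simp
  have h1 := LinearMap.finrank_range_add_finrank_ker Φ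
  have h2 : Module.finrank (ZMod p) (LinearMap.ker Φ) ≤ 1 := by
    refine (Submodule.finrank_mono hker).trans ?_
    exact (finrank_span_le_card _).trans (by simp)
  have h3 := Submodule.finrank_mono hrange
  rw [hdim] at h1
  omega

end Pool.Agent.RG.Q
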