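import Mathlib
import Pool.Agent.Lib.RG.Q18
import Pool.Agent.Lib.RG.Q19

/-!
PART Q, row Q20: the words (adapt P20.lean). U0 from Q18 for N; wx j, wy j from Q19 for the open subgroup U0 ⊓ ⨅ ker χ a and x j, y j. Induction on
card Q as in P20: lift with ex = lift ξ (wx j), ey = lift ξ (wy j); twist by prod_a c_a^(-χ_a).
-/

set_option autoImplicit false

namespace Pool.Agent.RG.Q

open scoped Classical IsMulCommutative

/-- the homomorphism from `ℤ / p` with prescribed value of the generator -/
private theorem Q20_hom (p : ℕ) {C : Type} [Group C] (c : C) (hc : c ^ p = 1) :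
    ∃ f : Multiplicative (ZMod p) →* C, f (Multiplicative.ofAdd 1) = c := by
  let f0 : ℤ →+ Additive C := zmultiplesHom (Additive C) (Additive.ofMul c)
  have hf0 : f0 p = 0 := by
    show ((p : ℤ) • Additive.ofMul c) = 0
    rw [← ofMul_zpow, zpow_natCast, hc, ofMul_one]
  refine ⟨AddMonoidHom.toMultiplicativeLeft (ZMod.lift p ⟨f0, hf0⟩), ?_⟩
  show Additive.toMul (ZMod.lift p ⟨f0, hf0⟩ (1 : ZMod p)) = c
  have h1 : (1 : ZMod p) = ((1 : ℤ) : ZMod p) := by simp
  rw [h1, ZMod.lift_coe]
  show Additive.toMul ((1 : ℤ) • Additive.ofMul c) = c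
  rw [one_smul]
  rfl

private theorem Q20_lift_comp {ι G H : Type} [Group G] [Group H] (f : G →* H) (x : ι → G)
    (w : FreeGroup ι) : f (FreeGroup.lift x w) = FreeGroup.lift (fun i => f (x i)) w := by
  have h : f.comp (FreeGroup.lift x) = FreeGroup.lift (fun i => f (x i)) := by
    ext i
    simp
  exact DFunLike.congr_fun h w

private theorem Q20_exists {p : ℕ} [Fact p.Prime] {α κ : Type} [Fintype α]
    {G : Type} [Group G] [TopologicalSpace G] [IsTopologicalGroup G] (K : KD p α κ G) {N : ℕ}
    {wx wy : κ → FreeGroup α} {U₀ : Subgroup G}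
    (hU : ∀ (Q : Type) [Group Q] [Finite Q],
      Nat.card Q ≤ N → ∀ φ : G →* Q, IsOpen (φ.ker : Set G) → U₀ ≤ φ.ker)
    (hwx : ∀ j, (FreeGroup.lift K.z (wx j))⁻¹ * K.x j ∈ U₀)
    (hwy : ∀ j, (FreeGroup.lift K.z (wy j))⁻¹ * K.y j ∈ U₀) (n : ℕ) :
      ∀ (Q : Type) [Group Q] [Finite Q], Nat.card Q ≤ n → IsPGroup p Q → Nat.card Q ≤ N →
        ∀ ξ : α → Q,
        (∀ j, FreeGroup.lift ξ (wy j) * FreeGroup.lift ξ (wx j) * (FreeGroup.lift ξ (wy j))⁻¹ =
          FreeGroup.lift ξ (wx j) ^ K.q j) →
        ∃ φ : G →* Q, IsOpen (φ.ker : Set G) ∧ (∀ a, φ (K.z a) = ξ a) := by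
  have hval : ∀ (Q : Type) [Group Q] [Finite Q], Nat.card Q ≤ N → ∀ φ : G →* Q,
      IsOpen (φ.ker : Set G) → ∀ ξ : α → Q, (∀ a, φ (K.z a) = ξ a) → ∀ (g : G) (w : FreeGroup α),
      (FreeGroup.lift K.z w)⁻¹ * g ∈ U₀ → φ g = FreeGroup.lift ξ w := by
    intro Q _ _ hQ φ hφ ξ hξ g w hw
    have h1 := hU Q hQ φ hφ hw
    rw [MonoidHom.mem_ker, map_mul, map_inv, inv_mul_eq_one] at h1
    rw [← h1, Q20_lift_comp]
    congr 2
    funext j
    exact hξ j
  induction n with
  | zero =>
    intro Q _ _ h0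
    have := Nat.card_pos (α := Q)
    omega
  | succ n ih =>
    intro Q _ _ hn hp hN ξ hrel
    by_cases htop : Subgroup.closure (Set.range ξ) = ⊤
    · by_cases hnt : Nontrivial Q
      · have hc := hp.center_nontrivial
        obtain ⟨z, hz, hzo⟩ : ∃ z ∈ Subgroup.center Q, orderOf z = p := by
          have h1 : p ∣ Nat.card (Subgroup.center Q) := by
            obtain ⟨k, hk⟩ := (hp.to_subgroup (Subgroup.center Q)).exists_card_eq
            have hk0 : k ≠ 0 := by
              rintro rfl
              rw [pow_zero] at hk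
              have := Finite.one_lt_card (α := Subgroup.center Q)
              omega
            rw [hk]
            exact dvd_pow_self p hk0
          obtain ⟨z, hz⟩ := exists_prime_orderOf_dvd_card' p h1
          exact ⟨z, z.2, by rw [← hz, Subgroup.orderOf_coe]⟩
        let Z : Subgroup Q := Subgroup.zpowers z
        have hZc : Z ≤ Subgroup.center Q := by
          rw [Subgroup.zpowers_le]
          exact hz
        have hZn : Z.Normal := by
          refine ⟨fun a ha g => ?_⟩
          have h1 := Subgroup.mem_center_iff.1 (hZc ha) g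
          rw [h1, mul_inv_cancel_right]
          exact ha
        have hZcard : Nat.card Z = p := by
          rw [Nat.card_zpowers, hzo]
        have hp1 : 1 < p := (Fact.out : p.Prime).one_lt
        have hcard := Subgroup.card_eq_card_quotient_mul_card_subgroup Z
        rw [hZcard] at hcard
        have hqpos : 0 < Nat.card (Q ⧸ Z) := Nat.card_pos
        have hlt : Nat.card (Q ⧸ Z) < Nat.card Q := by
          rw [hcard]
          exact lt_mul_of_one_lt_right hqpos hp1
        have hmk : ∀ w : FreeGroup α, FreeGroup.lift (fun i => QuotientGroup.mk' Z (ξ i)) w =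
            QuotientGroup.mk' Z (FreeGroup.lift ξ w) := fun w => (Q20_lift_comp _ _ _).symm
        obtain ⟨φ', h1, h2⟩ := ih (Q ⧸ Z) (by omega) (hp.to_quotient Z) (by omega)
          (fun i => QuotientGroup.mk' Z (ξ i)) (by
            intro j
            rw [hmk, hmk, ← map_mul, ← map_inv, ← map_mul, hrel, map_pow])
        have hsurj : Function.Surjective φ' := by
          rw [← MonoidHom.range_eq_top, eq_top_iff]
          have h4 : Subgroup.closure (Set.range fun i => QuotientGroup.mk' Z (ξ i)) = ⊤ := by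
            have h5 : (Set.range fun i => QuotientGroup.mk' Z (ξ i)) =
                (QuotientGroup.mk' Z) '' (Set.range ξ) := by
              rw [← Set.range_comp]
              rfl
            rw [h5, ← MonoidHom.map_closure, htop, ← MonoidHom.range_eq_map]
            exact MonoidHom.range_eq_top.2 (QuotientGroup.mk'_surjective Z)
          rw [← h4, Subgroup.closure_le]
          rintro _ ⟨i, rfl⟩
          exact ⟨K.z i, h2 i⟩
        have hNq : Nat.card (Q ⧸ Z) ≤ N := by omega
        obtain ⟨ψ, h4, h5⟩ := K.lift Q (Q ⧸ Z) (QuotientGroup.mk' Z)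
          (QuotientGroup.mk'_surjective Z) (by rw [QuotientGroup.ker_mk']; exact hZc)
          (by rw [QuotientGroup.ker_mk']; exact hZcard) φ' h1 hsurj
          (fun j => FreeGroup.lift ξ (wx j)) (fun j => FreeGroup.lift ξ (wy j))
          (fun j => by rw [hval (Q ⧸ Z) hNq φ' h1 _ h2 (K.x j) (wx j) (hwx j), hmk])
          (fun j => by rw [hval (Q ⧸ Z) hNq φ' h1 _ h2 (K.y j) (wy j) (hwy j), hmk]) hrel
        -- the corrections
        have h6 : ∀ i, (ψ (K.z i))⁻¹ * ξ i ∈ Z := by
          intro i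
          rw [← QuotientGroup.ker_mk' Z, MonoidHom.mem_ker, map_mul, map_inv]
          have h7 : QuotientGroup.mk' Z (ψ (K.z i)) = φ' (K.z i) := DFunLike.congr_fun h5 (K.z i)
          rw [h7, h2, inv_mul_cancel]
        have h7 : ∀ i, ∃ f : Multiplicative (ZMod p) →* Subgroup.center Q,
            (f (Multiplicative.ofAdd 1) : Q) = (ψ (K.z i))⁻¹ * ξ i := by
          intro i
          obtain ⟨f, hf⟩ := Q20_hom p (⟨(ψ (K.z i))⁻¹ * ξ i, hZc (h6 i)⟩ : Subgroup.center Q) (by
            apply Subtype.ext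
            show ((ψ (K.z i))⁻¹ * ξ i) ^ p = 1
            obtain ⟨k, hk⟩ := h6 i
            have hk' : (ψ (K.z i))⁻¹ * ξ i = z ^ k := hk.symm
            rw [hk', ← zpow_natCast, ← zpow_mul, mul_comm, zpow_mul, zpow_natCast, ← hzo,
              pow_orderOf_eq_one, one_zpow])
          exact ⟨f, congrArg Subtype.val hf⟩
        choose f hf using h7
        let η : G →* Subgroup.center Q := ∏ j, (f j).comp (K.χ j)
        have hη : ∀ g, η g = ∏ j, f j (K.χ j g) := by
          intro g
          show (∏ j, (f j).comp (K.χ j)) g = _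
          rw [MonoidHom.finset_prod_apply]
          rfl
        have hηx : ∀ i, (η (K.z i) : Q) = (ψ (K.z i))⁻¹ * ξ i := by
          intro i
          rw [hη, Finset.prod_eq_single i]
          · rw [K.dual, if_pos rfl, hf]
          · intro j _ hj
            rw [K.dual, if_neg hj.symm, ofAdd_zero, map_one]
          · intro h
            exact absurd (Finset.mem_univ i) h
        let φ : G →* Q :=
          { toFun := fun g => ψ g * (η g : Q)
            map_one' := by simp
            map_mul' := fun a b => by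
              rw [map_mul, map_mul, Subgroup.coe_mul]
              have h8 := Subgroup.mem_center_iff.1 (η a).2 (ψ b)
              rw [mul_assoc (ψ a) (ψ b), ← mul_assoc (ψ b), h8]
              simp only [mul_assoc] }
        have hφ : ∀ g, φ g = ψ g * (η g : Q) := fun g => rfl
        have hopen : IsOpen (φ.ker : Set G) := by
          have h8 : IsOpen ((ψ.ker ⊓ ⨅ j, (K.χ j).ker : Subgroup G) : Set G) := by
            rw [Subgroup.coe_inf, Subgroup.coe_iInf]
            exact h4.inter (isOpen_iInter_of_finite fun j => K.cont j)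
          refine Subgroup.isOpen_mono ?_ h8
          intro g hg
          rw [Subgroup.mem_inf, Subgroup.mem_iInf] at hg
          have h9 : η g = 1 := by
            rw [hη]
            refine Finset.prod_eq_one fun j _ => ?_
            rw [MonoidHom.mem_ker.1 (hg.2 j), map_one]
          rw [MonoidHom.mem_ker, hφ, h9, MonoidHom.mem_ker.1 hg.1]
          simp
        have hφx : ∀ i, φ (K.z i) = ξ i := by
          intro i
          rw [hφ, hηx, mul_inv_cancel_left]
        exact ⟨φ, hopen, hφx⟩
      · rw [not_nontrivial_iff_subsingleton] at hnt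
        refine ⟨1, ?_, fun i => Subsingleton.elim _ _⟩
        rw [MonoidHom.ker_one]
        exact isOpen_univ
    · have hlt : Nat.card (Subgroup.closure (Set.range ξ)) < Nat.card Q := by
        refine lt_of_le_of_ne ?_ fun h => htop (Subgroup.eq_top_of_card_eq _ h)
        exact Nat.card_le_card_of_injective _ (Subgroup.closure (Set.range ξ)).subtype_injective
      have hsub : ∀ w : FreeGroup α, ((FreeGroup.lift (fun i => (⟨ξ i, Subgroup.subset_closure
          ⟨i, rfl⟩⟩ : Subgroup.closure (Set.range ξ))) w : Subgroup.closure (Set.range ξ)) : Q) =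
          FreeGroup.lift ξ w := fun w =>
        Q20_lift_comp (Subgroup.closure (Set.range ξ)).subtype _ _
      obtain ⟨φ', h1, h2⟩ := ih (Subgroup.closure (Set.range ξ)) (by omega)
        (hp.to_subgroup _) (by omega) (fun i => ⟨ξ i, Subgroup.subset_closure ⟨i, rfl⟩⟩) (by
          intro i
          apply Subtype.ext
          rw [Subgroup.coe_mul, Subgroup.coe_mul, Subgroup.coe_inv, Subgroup.coe_pow, hsub, hsub]
          exact hrel i)
      have h4 : ((Subgroup.closure (Set.range ξ)).subtype.comp φ').ker = φ'.ker := by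
        ext g
        rw [MonoidHom.mem_ker, MonoidHom.mem_ker]
        exact ⟨fun h => Subtype.ext h, fun h => congrArg Subtype.val h⟩
      refine ⟨(Subgroup.closure (Set.range ξ)).subtype.comp φ', ?_, fun i => ?_⟩
      · rw [h4]
        exact h1
      · exact congrArg Subtype.val (h2 i)

/-- the words, with the values of all homomorphisms to small groups -/
theorem Q20_values (p : ℕ) [Fact p.Prime] {α κ : Type} [Fintype α] [Fintype κ]
    (G : Type) [Group G] [TopologicalSpace G] [IsTopologicalGroup G] (K : KD p α κ G) (N : ℕ) :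
    ∃ wx wy : κ → FreeGroup α, (∀ j a, ex p a (wx j) = K.χ a (K.x j)) ∧
      (∀ j a, ex p a (wy j) = K.χ a (K.y j)) ∧
      (∀ (Q : Type) [Group Q] [Finite Q], IsPGroup p Q → Nat.card Q ≤ N → ∀ ξ : α → Q,
        (∀ j, FreeGroup.lift ξ (wy j) * FreeGroup.lift ξ (wx j) * (FreeGroup.lift ξ (wy j))⁻¹ =
          FreeGroup.lift ξ (wx j) ^ K.q j) →
        ∃ φ : G →* Q, IsOpen (φ.ker : Set G) ∧ (∀ a, φ (K.z a) = ξ a)) ∧
      ∀ (Q : Type) [Group Q] [Finite Q], Nat.card Q ≤ N → ∀ φ : G →* Q,
        IsOpen (φ.ker : Set G) → ∀ j, φ (K.x j) = FreeGroup.lift (fun a => φ (K.z a)) (wx j) ∧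
          φ (K.y j) = FreeGroup.lift (fun a => φ (K.z a)) (wy j) := by
  obtain ⟨U₀, hU₀, hU⟩ := Q18_common G K.z K.gen N
  have hopen : IsOpen ((U₀ ⊓ ⨅ j, (K.χ j).ker : Subgroup G) : Set G) := by
    rw [Subgroup.coe_inf, Subgroup.coe_iInf]
    exact hU₀.inter (isOpen_iInter_of_finite fun j => K.cont j)
  have hex : ∀ (w : FreeGroup α) (g : G),
      (FreeGroup.lift K.z w)⁻¹ * g ∈ (U₀ ⊓ ⨅ j, (K.χ j).ker : Subgroup G) →
      ∀ a, ex p a w = K.χ a g := by
    intro w g hw a
    have h1 : K.χ a ((FreeGroup.lift K.z w)⁻¹ * g) = 1 :=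
      MonoidHom.mem_ker.1 (Subgroup.mem_iInf.1 hw.2 a)
    rw [map_mul, map_inv, inv_mul_eq_one] at h1
    rw [← h1]
    have h2 : (K.χ a).comp (FreeGroup.lift K.z) = ex p a := by
      apply FreeGroup.ext_hom
      intro k
      show K.χ a (FreeGroup.lift K.z (FreeGroup.of k)) = ex p a (FreeGroup.of k)
      rw [FreeGroup.lift_apply_of, K.dual]
      unfold ex
      rw [FreeGroup.lift_apply_of]
    exact (DFunLike.congr_fun h2 w).symm
  choose wx hwx using fun j => Q19_dense G K.z K.gen _ hopen (K.x j)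
  choose wy hwy using fun j => Q19_dense G K.z K.gen _ hopen (K.y j)
  refine ⟨wx, wy, fun j a => hex _ _ (hwx j) a, fun j a => hex _ _ (hwy j) a,
    fun Q _ _ hp hQ ξ hrel => ?_, fun Q _ _ hQ φ hφ j => ?_⟩
  · exact Q20_exists K hU (fun j => (hwx j).1) (fun j => (hwy j).1) (Nat.card Q) Q le_rfl hp hQ ξ
      hrel
  · have hval : ∀ (g : G) (w : FreeGroup α), (FreeGroup.lift K.z w)⁻¹ * g ∈ U₀ →
        φ g = FreeGroup.lift (fun a => φ (K.z a)) w := by
      intro g w hw
      have h1 := hU Q hQ φ hφ hw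
      rw [MonoidHom.mem_ker, map_mul, map_inv, inv_mul_eq_one] at h1
      rw [← h1, Q20_lift_comp]
    exact ⟨hval _ _ (hwx j).1, hval _ _ (hwy j).1⟩

theorem Q20_words (p : ℕ) [Fact p.Prime] {α κ : Type} [Fintype α] [Fintype κ]
    (G : Type) [Group G] [TopologicalSpace G] [IsTopologicalGroup G] (K : KD p α κ G) (N : ℕ) :
    ∃ wx wy : κ → FreeGroup α, (∀ j a, ex p a (wx j) = K.χ a (K.x j)) ∧
      (∀ j a, ex p a (wy j) = K.χ a (K.y j)) ∧
      ∀ (Q : Type) [Group Q] [Finite Q], IsPGroup p Q → Nat.card Q ≤ N → ∀ ξ : α → Q,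
        (∀ j, FreeGroup.lift ξ (wy j) * FreeGroup.lift ξ (wx j) * (FreeGroup.lift ξ (wy j))⁻¹ =
          FreeGroup.lift ξ (wx j) ^ K.q j) →
        ∃ φ : G →* Q, IsOpen (φ.ker : Set G) ∧ (∀ a, φ (K.z a) = ξ a) := by
  obtain ⟨wx, wy, h1, h2, h3, -⟩ := Q20_values p G K N
  exact ⟨wx, wy, h1, h2, h3⟩

end Pool.Agent.RG.Q
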