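import Mathlib
import Pool.Agent.Lib.RG.P12
import Pool.Agent.Lib.RG.P17
import Pool.Agent.Lib.RG.Q08
import Pool.Agent.Lib.RG.Q13
import Pool.Agent.Lib.RG.Q15
import Pool.Agent.Lib.RG.Q16
import Pool.Agent.Lib.RG.Q20

/-!
PART Q, export: rank gradient zero for profinite groups of Koch type whose relations lead to a connected
bipartite graph.
-/

set_option autoImplicit false

namespace Pool.Agent.RG.Q

open scoped Classical

variable {α ε κ : Type} [Fintype α] [Fintype ε] [Fintype κ]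

/-- the coordinates of the `x j` -/
abbrev KD.cx {p : ℕ} {G : Type} [Group G] [TopologicalSpace G] [IsTopologicalGroup G]
    (K : KD p α κ G) (j : κ) (a : α) : ZMod p := Multiplicative.toAdd (K.χ a (K.x j))

/-- the coordinates of the `y j` -/
abbrev KD.cy {p : ℕ} {G : Type} [Group G] [TopologicalSpace G] [IsTopologicalGroup G]
    (K : KD p α κ G) (j : κ) (a : α) : ZMod p := Multiplicative.toAdd (K.χ a (K.y j))

/-- the finite quotient of depth `n` and the bound for the number of generators of its kernel -/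
theorem level (p : ℕ) [Fact p.Prime] (hp : p ≠ 2) [Nonempty α]
    (G : Type) [Group G] [TopologicalSpace G] [IsTopologicalGroup G] [CompactSpace G] [T2Space G]
    [TotallyDisconnectedSpace G]
    (hG : ∀ U : Subgroup G, U.Normal → IsOpen (U : Set G) → ∃ k, U.index = p ^ k)
    (K : KD p α κ G) (Λ : LD α ε) (B : ε → κ → ZMod p) (hL : Lead Λ K.cx K.cy B) (hconn : Λ.Conn)
    (n : ℕ) (hn : 0 < n) :
    ∃ (U : Subgroup G) (r : ℕ), U.Normal ∧ IsOpen (U : Set G) ∧ GenBy U r ∧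
      n < 2 * Λ.W * U.index ∧ n * (r - 1) ≤ 2 * Λ.W * Fintype.card α * U.index ∧
      ∀ g : G, (∃ a, K.χ a g ≠ 1) → ∀ k, 2 * Λ.W * p ^ k ≤ n → g ^ p ^ k ∉ U := by
  have hOk := hL.ok
  have hW : 0 < Λ.W := by
    have a₀ : α := Classical.arbitrary α
    have h1 := hOk.lo a₀
    have h2 := hOk.hi a₀
    omega
  obtain ⟨U₀, hU₀, hU₀'⟩ := Q18_common G K.z K.gen (Nbd p Λ n)
  obtain ⟨wx, wy, hwx, hwy, hQ⟩ := Q20_words p G K (Nbd p Λ n)
  obtain ⟨Q, _, _, ξ, D, hpQ, hcard, hgen, hrel, hD, hDW, hex, hord⟩ :=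
    Q08_series p hp Λ K.cx K.cy B hL wx wy K.q K.hq
      (fun j a => by rw [hwx]; exact (ofAdd_toAdd _).symm)
      (fun j a => by rw [hwy]; exact (ofAdd_toAdd _).symm) n
  obtain ⟨φ, hφ, hφz⟩ := hQ Q hpQ hcard ξ hrel
  have hs : Function.Surjective φ := by
    rw [← MonoidHom.range_eq_top, eq_top_iff, ← hgen, Subgroup.closure_le]
    rintro _ ⟨i, rfl⟩
    exact ⟨K.z i, hφz i⟩
  have hidx : φ.ker.index = Nat.card Q := by
    rw [Subgroup.index_ker, MonoidHom.range_eq_top.mpr hs]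
    exact Nat.card_congr Subgroup.topEquiv.toEquiv
  obtain ⟨W', hW'⟩ := P09_bot p n D hD
  have hwt : ∀ i : α, 0 < Λ.wt i := fun i => hW.trans_le (hOk.lo i)
  have hwt2 : ∀ i : α, Λ.wt i ≤ 2 * Λ.W := fun i => by have := hOk.hi i; omega
  have hcQ : 0 < Nat.card Q := Nat.card_pos
  have hB : ∀ (i : α) (W'' : ℕ), ∑ k ∈ Finset.range W'',
      (Module.finrank (ZMod p) (Ef p D k ⊓ (Ef p D ((k : ℤ) + Λ.wt i + 1)).comap
        (LinearMap.mulLeft (ZMod p) (dl p (ξ i))) : Submodule (ZMod p) (GA p Q)) -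
        Module.finrank (ZMod p) (Ef p D ((k : ℤ) + 1))) ≤ 2 * Λ.W * Nat.card Q / n := by
    intro i W''
    have h1 := P12_kernel p n D hD (Λ.wt i) (hwt i) (ξ i) (hex i) W''
    have h2 := P12_order p n D hD (Λ.wt i) (hwt i) (ξ i) (hex i)
    rw [Nat.le_div_iff_mul_le hn]
    set A := ∑ k ∈ Finset.range W'', (Module.finrank (ZMod p) (Kr p D (ξ i) (Λ.wt i) k) -
      Module.finrank (ZMod p) (Ef p D ((k : ℤ) + 1)))
    change A * n ≤ _
    calc A * n ≤ A * (Λ.wt i * orderOf (ξ i)) := Nat.mul_le_mul_left _ h2.le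
      _ = Λ.wt i * (A * orderOf (ξ i)) := by ring
      _ ≤ 2 * Λ.W * Nat.card Q := Nat.mul_le_mul (hwt2 i) h1
  have h13 := Q13_linalg Λ hconn (ZMod p) (GA p Q) (Ef p D) W' (fun a b h => P09_anti p D h)
    (fun a h => P09_top p n D hD a h) hW' (fun i => LinearMap.mulLeft (ZMod p) (dl p (ξ i)))
    (fun i a v hv => by
      have h1 := P09_mul p D _ _ _ _ (P09_dl p D (Λ.wt i) (ξ i) (hex i).1) hv
      rw [add_comm] at h1
      exact h1) (2 * Λ.W * Nat.card Q / n) hB (Derv p K.z φ)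
    (fun v hv t ht k => by
      obtain ⟨δ, h1, h2, h3⟩ := hv
      have h4 := Q15_relation p hp G K Λ B hL n D hD hDW φ hφ δ h1 h2
        (fun i => by rw [hφz]; exact (hex i).1) t (fun i => by rw [h3]; exact ht i) k
      rw [hφz, hφz, h3, h3] at h4
      exact h4)
  have hfr : Module.finrank (ZMod p) (GA p Q) = Nat.card Q := by
    rw [Module.finrank_eq_nat_card_basis (MonoidAlgebra.basis Q (ZMod p))]
  rw [hfr] at h13
  refine ⟨φ.ker, 1 + (Fintype.card α - 1) * (2 * Λ.W * Nat.card Q / n), inferInstance, hφ, ?_, ?_,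
    ?_, ?_⟩
  · refine P17_burnside p G hG φ.ker hφ _ fun k f hf => ?_
    have h1 := Q16_shapiro p G K.z K.gen φ hφ hs k f hf
    omega
  · rw [hidx]
    -- the order of `ξ i` is at most the order of `Q`
    have i0 : α := Classical.arbitrary α
    have h1 := P12_order p n D hD (Λ.wt i0) (hwt i0) (ξ i0) (hex i0)
    have h2 : orderOf (ξ i0) ≤ Nat.card Q := Nat.le_of_dvd hcQ (orderOf_dvd_natCard _)
    calc n < Λ.wt i0 * orderOf (ξ i0) := h1
      _ ≤ 2 * Λ.W * Nat.card Q := Nat.mul_le_mul (hwt2 i0) h2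
  · rw [hidx, Nat.add_sub_cancel_left]
    calc n * ((Fintype.card α - 1) * (2 * Λ.W * Nat.card Q / n))
        = (Fintype.card α - 1) * (n * (2 * Λ.W * Nat.card Q / n)) := by ring
      _ ≤ Fintype.card α * (2 * Λ.W * Nat.card Q) :=
          Nat.mul_le_mul (Nat.sub_le _ _) (Nat.mul_div_le _ _)
      _ = 2 * Λ.W * Fintype.card α * Nat.card Q := by ring
  · intro g hg k hk hgU
    -- approximate `g` by a word
    have hχ : IsOpen (((⨅ a : α, (K.χ a).ker : Subgroup G)) : Set G) := by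
      rw [Subgroup.coe_iInf]
      exact isOpen_iInter_of_finite fun a => K.cont a
    obtain ⟨w, hw⟩ := Q19_dense G K.z K.gen (U₀ ⊓ ⨅ a : α, (K.χ a).ker) (by
      rw [Subgroup.coe_inf]
      exact hU₀.inter hχ) g
    have hw1 : (FreeGroup.lift K.z w)⁻¹ * g ∈ φ.ker := hU₀' Q hcard φ hφ hw.1
    have hw2 : ∀ a, K.χ a g = ex p a w := by
      intro a
      have h1 : (FreeGroup.lift K.z w)⁻¹ * g ∈ (K.χ a).ker := by
        exact (iInf_le (fun a : α => (K.χ a).ker) a) hw.2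
      rw [MonoidHom.mem_ker, map_mul, map_inv, inv_mul_eq_one] at h1
      rw [← h1]
      have h2 : (K.χ a).comp (FreeGroup.lift K.z) = ex p a := by
        apply FreeGroup.ext_hom
        intro b
        rw [MonoidHom.comp_apply, FreeGroup.lift_apply_of, K.dual]
        unfold ex
        rw [FreeGroup.lift_apply_of]
      exact DFunLike.congr_fun h2 w
    have hφg : φ g = FreeGroup.lift ξ w := by
      rw [MonoidHom.mem_ker, map_mul, map_inv, inv_mul_eq_one] at hw1
      rw [← hw1]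
      have h2 : φ.comp (FreeGroup.lift K.z) = FreeGroup.lift ξ := by
        apply FreeGroup.ext_hom
        intro b
        rw [MonoidHom.comp_apply, FreeGroup.lift_apply_of, FreeGroup.lift_apply_of]
        exact hφz b
      exact DFunLike.congr_fun h2 w
    obtain ⟨a, ha⟩ := hg
    refine hord w ⟨a, by rw [← hw2]; exact ha⟩ k hk ?_
    rw [← hφg, ← map_pow]
    exact hgU

theorem rank_gradient (p : ℕ) [Fact p.Prime] (hp : p ≠ 2) [Nonempty α]
    (G : Type) [Group G] [TopologicalSpace G] [IsTopologicalGroup G] [CompactSpace G] [T2Space G]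
    [TotallyDisconnectedSpace G]
    (hG : ∀ U : Subgroup G, U.Normal → IsOpen (U : Set G) → ∃ k, U.index = p ^ k)
    (K : KD p α κ G) (Λ : LD α ε) (B : ε → κ → ZMod p) (hL : Lead Λ K.cx K.cy B)
    (hconn : Λ.Conn) :
    Infinite G ∧ (∀ e : ℝ, 0 < e → ∃ (U : Subgroup G) (n : ℕ), IsOpen (U : Set G) ∧
      GenBy U n ∧ ((n : ℝ) - 1) ≤ e * U.index) ∧
    ∀ g : G, (∃ a, K.χ a g ≠ 1) → ∀ n : ℕ, 0 < n → g ^ n ≠ 1 := by
  have hpp : p.Prime := Fact.out
  refine ⟨?_, ?_, ?_⟩
  · by_contra hinf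
    rw [not_infinite_iff_finite] at hinf
    obtain ⟨U, r, -, -, -, h1, -, -⟩ := level p hp G hG K Λ B hL hconn (2 * Λ.W * Nat.card G + 1)
      (Nat.succ_pos _)
    have h2 : U.index ≤ Nat.card G := Nat.le_of_dvd Nat.card_pos (Subgroup.index_dvd_card U)
    have h3 : 2 * Λ.W * U.index ≤ 2 * Λ.W * Nat.card G := Nat.mul_le_mul_left _ h2
    omega
  · intro e he
    set C : ℕ := 2 * Λ.W * Fintype.card α with hC
    obtain ⟨n, hn⟩ := exists_nat_gt ((C : ℝ) / e)
    have hn0 : 0 < n := by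
      have h1 : (0 : ℝ) ≤ (C : ℝ) / e := by positivity
      exact_mod_cast h1.trans_lt hn
    obtain ⟨U, r, -, hU, hr, h1, h2, -⟩ := level p hp G hG K Λ B hL hconn n hn0
    refine ⟨U, r, hU, hr, ?_⟩
    have hn' : (0 : ℝ) < n := by exact_mod_cast hn0
    have h3 : (n : ℝ) * ((r : ℝ) - 1) ≤ C * U.index := by
      have h4 : ((n * (r - 1) : ℕ) : ℝ) ≤ ((C * U.index : ℕ) : ℝ) := by
        exact_mod_cast h2
      push_cast at h4
      have h5 : (r : ℝ) - 1 ≤ ((r - 1 : ℕ) : ℝ) := by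
        rcases Nat.eq_zero_or_pos r with h | h
        · simp [h]
        · rw [Nat.cast_sub h]
          simp
      calc (n : ℝ) * ((r : ℝ) - 1) ≤ n * ((r - 1 : ℕ) : ℝ) :=
            mul_le_mul_of_nonneg_left h5 hn'.le
        _ ≤ C * U.index := h4
    have h7 : (C : ℝ) ≤ e * n := by
      rw [div_lt_iff₀ he] at hn
      linarith
    have h8 : (0 : ℝ) ≤ U.index := Nat.cast_nonneg _
    have h9 : (n : ℝ) * ((r : ℝ) - 1) ≤ n * (e * U.index) := by
      calc (n : ℝ) * ((r : ℝ) - 1) ≤ C * U.index := h3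
        _ ≤ (e * n) * U.index := mul_le_mul_of_nonneg_right h7 h8
        _ = n * (e * U.index) := by ring
    exact le_of_mul_le_mul_left h9 hn'
  · intro g hg n hn hgn
    -- the order of `g` in a finite `p`-quotient is a power of `p` dividing `n`
    obtain ⟨U, r, hN, hU, -, -, -, h4⟩ := level p hp G hG K Λ B hL hconn (2 * Λ.W * p ^ n + 1)
      (Nat.succ_pos _)
    have hU4 := h4 g hg n (by omega)
    obtain ⟨k, hk⟩ := hG U hN hU
    have h5 : orderOf (QuotientGroup.mk g : G ⧸ U) ∣ p ^ k := by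
      rw [← hk]
      exact orderOf_dvd_natCard _
    obtain ⟨j, hj, hj'⟩ := (Nat.dvd_prime_pow hpp).mp h5
    have h6 : orderOf (QuotientGroup.mk g : G ⧸ U) ∣ n := by
      rw [orderOf_dvd_iff_pow_eq_one, ← QuotientGroup.mk_pow, hgn]
      rfl
    have h7 : p ^ j ≤ n := Nat.le_of_dvd hn (hj' ▸ h6)
    have h8 : j ≤ n := (Nat.lt_pow_self hpp.one_lt).le.trans h7
    apply hU4
    have h9 : (QuotientGroup.mk g : G ⧸ U) ^ p ^ n = 1 := by
      rw [← orderOf_dvd_iff_pow_eq_one, hj']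
      exact pow_dvd_pow p h8
    rw [← QuotientGroup.mk_pow] at h9
    exact (QuotientGroup.eq_one_iff _).mp h9

end Pool.Agent.RG.Q
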