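import Mathlib
import Pool.Agent.Lib.RG.QDefs

/-!
PART Q, row QT1: projections of words (trace monoid of a bipartite graph).
QT1_inj: induction on the length. u, v normal with the same projections; the pairs (c, c) show that they have the same letters (c is never adjacent
to c: Ok.col). If the first letters agree cancel them (FreeMonoid is cancellative, tails of normal words are normal). If the first letters
a of u, b of v differ, the projection to (a, b) shows that a, b are adjacent (otherwise one projection begins with a, the other with b). Say b is a target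
t k and a = s k (the other case is symmetric, exchange u and v). b occurs in u; u = u1 b u2 with b not in u1, u1 not empty; the last letter c of u1 is
adjacent to b (otherwise the projection of u to (c, b) begins with c and that of v with b), so c is a source (b = t k is not a source: Ok.col), and
c and b form a bad pair: contradiction to u normal.
QT1_word: exchanging the two letters of an edge does not change the projections nor the weight.
-/

set_option autoImplicit false

namespace Pool.Agent.RG.Q

open scoped Classical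

variable {F : Type} [Field F] {α ε : Type}

/-- the projections of a word to the pairs of (equal or different) letters which are not joined by an
edge -/
noncomputable def proj (Λ : LD α ε) :
    FreeMonoid α →* ({ab : α × α // ¬ Λ.Adj ab.1 ab.2} → FreeMonoid α) :=
  FreeMonoid.lift fun c ab => if c = ab.1.1 ∨ c = ab.1.2 then FreeMonoid.of c else 1

/-- the subword of the letters `a` and `b` -/
private noncomputable def flt (a b : α) (l : List α) : List α := l.filter fun c => c = a ∨ c = b

private lemma toList_proj (Λ : LD α ε) (w : FreeMonoid α)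
    (ab : {ab : α × α // ¬ Λ.Adj ab.1 ab.2}) :
    FreeMonoid.toList (proj Λ w ab) = flt ab.1.1 ab.1.2 (FreeMonoid.toList w) := by
  induction w using FreeMonoid.recOn with
  | one => simp [flt]
  | of_mul c w ih =>
    rw [map_mul, Pi.mul_apply, FreeMonoid.toList_mul, ih]
    unfold flt
    rw [FreeMonoid.toList_of_mul, List.filter_cons]
    by_cases h : c = ab.1.1 ∨ c = ab.1.2
    · simp [proj, h]
    · simp [proj, h]

private lemma flt_eq (Λ : LD α ε) {w w' : FreeMonoid α} (h : proj Λ w = proj Λ w') {a b : α}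
    (hab : ¬ Λ.Adj a b) : flt a b (FreeMonoid.toList w) = flt a b (FreeMonoid.toList w') := by
  rw [← toList_proj Λ w ⟨(a, b), hab⟩, ← toList_proj Λ w' ⟨(a, b), hab⟩, h]

private lemma not_adj_self (Λ : LD α ε) (hΛ : Λ.Ok) (a : α) : ¬ Λ.Adj a a := by
  rintro ⟨k, ⟨h1, h2⟩ | ⟨h1, h2⟩⟩
  · exact hΛ.col k k (h1.symm.trans h2)
  · exact hΛ.col k k (h2.symm.trans h1)

private lemma mem_of_flt (Λ : LD α ε) (hΛ : Λ.Ok) {l l' : List α}
    (h : ∀ a b, ¬ Λ.Adj a b → flt a b l = flt a b l') {a : α} (ha : a ∈ l) : a ∈ l' := by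
  have h1 : a ∈ flt a a l := by simp [flt, ha]
  rw [h a a (not_adj_self Λ hΛ a)] at h1
  exact List.mem_of_mem_filter h1

private lemma flt_head {l₁ l₂ : List α} {c b : α} (hc : c ∈ l₁) (hb : b ∉ l₁) :
    ∃ r, flt c b (l₁ ++ l₂) = c :: r := by
  have h1 : flt c b (l₁ ++ l₂) = flt c b l₁ ++ flt c b l₂ := List.filter_append ..
  have h2 : c ∈ flt c b l₁ := by simp [flt, hc]
  cases h3 : flt c b l₁ with
  | nil => rw [h3] at h2; exact absurd h2 List.not_mem_nil
  | cons e r =>
    have h4 : e ∈ flt c b l₁ := by rw [h3]; exact List.mem_cons_self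
    have h5 : e ∈ l₁ := List.mem_of_mem_filter h4
    have h6 : e = c ∨ e = b := by
      have := List.of_mem_filter h4
      simpa using this
    rcases h6 with rfl | rfl
    · exact ⟨r ++ flt e b l₂, by rw [h1, h3]; rfl⟩
    · exact absurd h5 hb

private lemma key (Λ : LD α ε) (hΛ : Λ.Ok) {l : List α} {a b : α} {u v : List α}
    (hl : l = a :: u) (hn : List.IsChain (fun a b : α => ¬ Bad Λ a b) l) (hab : a ≠ b) (k : ε)
    (hb : b = Λ.t k) (h : ∀ x y, ¬ Λ.Adj x y → flt x y l = flt x y (b :: v)) : False := by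
  have h1 : b ∈ l := mem_of_flt Λ hΛ (fun x y hxy => (h x y hxy).symm) List.mem_cons_self
  obtain ⟨l₁, l₂, h2, h3⟩ := List.eq_append_cons_of_mem h1
  rcases List.eq_nil_or_concat l₁ with rfl | ⟨l₀, c, rfl⟩
  · rw [hl] at h2
    simp only [List.nil_append, List.cons.injEq] at h2
    exact hab h2.1
  · have hbad : ¬ Bad Λ c b := by
      rw [h2] at hn
      simp only [List.concat_eq_append, List.append_assoc, List.cons_append,
        List.nil_append] at hn
      exact (List.isChain_append_cons_cons.1 hn).2.1
    have hcm : c ∈ l₀.concat c := by simp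
    have hadj : ¬ Λ.Adj c b := by
      rintro ⟨j, ⟨h4, h5⟩ | ⟨h4, h5⟩⟩
      · exact hbad ⟨j, h4, h5⟩
      · exact hΛ.col j k (h5.symm.trans hb)
    obtain ⟨r, hr⟩ := flt_head (l₂ := b :: l₂) hcm h3
    have h4 := h c b hadj
    rw [h2, hr] at h4
    have h5 : flt c b (b :: v) = b :: flt c b v := by simp [flt]
    rw [h5] at h4
    have h6 : c = b := (List.cons.inj h4).1
    exact h3 (h6 ▸ hcm)

private lemma inj_list (Λ : LD α ε) (hΛ : Λ.Ok) : ∀ (l l' : List α),
    List.IsChain (fun a b : α => ¬ Bad Λ a b) l → List.IsChain (fun a b : α => ¬ Bad Λ a b) l' →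
    (∀ a b, ¬ Λ.Adj a b → flt a b l = flt a b l') → l = l' := by
  intro l
  induction l with
  | nil =>
    intro l' _ _ h
    cases l' with
    | nil => rfl
    | cons b v =>
      have h1 : b ∈ ([] : List α) :=
        mem_of_flt Λ hΛ (fun x y hxy => (h x y hxy).symm) List.mem_cons_self
      exact absurd h1 List.not_mem_nil
  | cons a u ih =>
    intro l' hl hl' h
    cases l' with
    | nil =>
      have h1 : a ∈ ([] : List α) := mem_of_flt Λ hΛ h List.mem_cons_self
      exact absurd h1 List.not_mem_nil
    | cons b v =>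
      by_cases hab : a = b
      · subst hab
        have h1 : u = v := by
          refine ih v hl.tail hl'.tail ?_
          intro x y hxy
          have h2 := h x y hxy
          unfold flt at h2 ⊢
          rw [List.filter_cons, List.filter_cons] at h2
          split_ifs at h2 with h3
          · exact (List.cons.inj h2).2
          · exact h2
        rw [h1]
      · exfalso
        have hadj : Λ.Adj a b := by
          by_contra hadj
          have h1 := h a b hadj
          have h2 : flt a b (a :: u) = a :: flt a b u := by simp [flt]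
          have h3 : flt a b (b :: v) = b :: flt a b v := by simp [flt]
          rw [h2, h3] at h1
          exact hab (List.cons.inj h1).1
        obtain ⟨k, ⟨h1, h2⟩ | ⟨h1, h2⟩⟩ := hadj
        · exact key Λ hΛ rfl hl hab k h2 h
        · exact key Λ hΛ rfl hl' (Ne.symm hab) k h1 (fun x y hxy => (h x y hxy).symm)

theorem QT1_inj (Λ : LD α ε) (hΛ : Λ.Ok) (w w' : FreeMonoid α) (hw : IsNormalWord Λ w)
    (hw' : IsNormalWord Λ w') (h : proj Λ w = proj Λ w') : w = w' := by
  apply FreeMonoid.toList.injective
  exact inj_list Λ hΛ _ _ hw hw' fun a b hab => flt_eq Λ h hab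

theorem QT1_wl (Λ : LD α ε) (hΛ : Λ.Ok) (w w' : FreeMonoid α) (h : proj Λ w = proj Λ w') :
    wl Λ w = wl Λ w' := by
  have h1 : (FreeMonoid.toList w).Perm (FreeMonoid.toList w') := by
    rw [List.perm_iff_count]
    intro c
    have h2 := flt_eq Λ h (not_adj_self Λ hΛ c)
    have h3 : ∀ l : List α, l.count c = (flt c c l).length := by
      intro l
      unfold flt
      rw [List.count_eq_length_filter]
      congr 1
      apply List.filter_congr
      intro x _
      by_cases hx : x = c
      · simp [hx]
      · simp [hx]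
    rw [h3, h3, h2]
  exact (h1.map Λ.wt).sum_eq

private noncomputable def isT (Λ : LD α ε) (c : α) : Bool := decide (∃ k, c = Λ.t k)

private noncomputable def inv (Λ : LD α ε) : List α → ℕ
  | [] => 0
  | i :: l => (if isT Λ i then 0 else l.countP (isT Λ)) + inv Λ l

private lemma countP_swap (Λ : LD α ε) (u v : List α) (i j : α) :
    (u ++ i :: j :: v).countP (isT Λ) = (u ++ j :: i :: v).countP (isT Λ) := by
  simp only [List.countP_append, List.countP_cons]
  omega

private lemma isT_t (Λ : LD α ε) (k : ε) : isT Λ (Λ.t k) = true := by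
  simp [isT]

private lemma isT_s (Λ : LD α ε) (hΛ : Λ.Ok) (k : ε) : isT Λ (Λ.s k) = false := by
  simp only [isT, decide_eq_false_iff_not, not_exists]
  exact fun j hj => hΛ.col k j hj

private lemma inv_swap (Λ : LD α ε) (hΛ : Λ.Ok) (u v : List α) (k : ε) :
    inv Λ (u ++ Λ.t k :: Λ.s k :: v) < inv Λ (u ++ Λ.s k :: Λ.t k :: v) := by
  induction u with
  | nil =>
    simp only [List.nil_append, inv, isT_t, isT_s Λ hΛ, List.countP_cons]
    simp
  | cons a u ih =>
    simp only [List.cons_append, inv]
    rw [countP_swap Λ u v (Λ.t k) (Λ.s k)]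
    omega

private lemma wl_mul (Λ : LD α ε) (u v : FreeMonoid α) : wl Λ (u * v) = wl Λ u + wl Λ v := by
  simp [wl, FreeMonoid.toList_mul, List.map_append, List.sum_append]

private lemma wd_mul (u v : FreeMonoid α) : (wd (u * v) : FA F α) = wd u * wd v := by
  simp [wd]

private lemma wl_of (Λ : LD α ε) (i : α) : wl Λ (FreeMonoid.of i) = Λ.wt i := by
  simp [wl]

private lemma exists_bad (Λ : LD α ε) (l : List α)
    (h : ¬ List.IsChain (fun i j : α => ¬ Bad Λ i j) l) :
    ∃ u v i j, l = u ++ i :: j :: v ∧ Bad Λ i j := by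
  induction l with
  | nil => exact absurd List.IsChain.nil h
  | cons a l ih =>
    cases l with
    | nil => exact absurd (List.IsChain.singleton a) h
    | cons b l =>
      rw [List.isChain_cons_cons] at h
      by_cases hab : Bad Λ a b
      · exact ⟨[], l, a, b, rfl, hab⟩
      · have h2 : ¬ List.IsChain (fun i j : α => ¬ Bad Λ i j) (b :: l) := fun h' => h ⟨hab, h'⟩
        obtain ⟨u, v, i, j, e, hb⟩ := ih h2
        exact ⟨a :: u, v, i, j, by rw [e]; rfl, hb⟩

private lemma sandwich (Λ : LD α ε) (S : Submodule F (FA F α)) (u v : FreeMonoid α) (k : ℤ)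
    (hS : ∀ w : FreeMonoid α, wl Λ u + k + wl Λ v ≤ wl Λ w → wd w ∈ S) (g : FA F α)
    (hg : g ∈ Pge Λ F k) : wd u * g * wd v ∈ S := by
  refine Submodule.span_induction (p := fun g _ => wd u * g * wd v ∈ S) ?_ ?_ ?_ ?_ hg
  · rintro x ⟨w, hw, rfl⟩
    rw [← wd_mul, ← wd_mul]
    refine hS _ ?_
    rw [wl_mul, wl_mul]
    push_cast
    omega
  · simp
  · intro x y _ _ hx hy
    rw [mul_add, add_mul]
    exact S.add_mem hx hy
  · intro c x _ hx
    rw [mul_smul_comm, smul_mul_assoc]
    exact S.smul_mem c hx

private lemma proj_comm (Λ : LD α ε) (hΛ : Λ.Ok) (k : ε) :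
    proj Λ (FreeMonoid.of (Λ.s k)) * proj Λ (FreeMonoid.of (Λ.t k)) =
      proj Λ (FreeMonoid.of (Λ.t k)) * proj Λ (FreeMonoid.of (Λ.s k)) := by
  funext ab
  obtain ⟨⟨a, b⟩, hab⟩ := ab
  simp only [Pi.mul_apply, proj, FreeMonoid.lift_eval_of]
  by_cases h1 : Λ.s k = a ∨ Λ.s k = b
  · by_cases h2 : Λ.t k = a ∨ Λ.t k = b
    · exfalso
      rcases h1 with h1 | h1 <;> rcases h2 with h2 | h2
      · exact hΛ.col k k (h1.trans h2.symm)
      · exact hab ⟨k, Or.inl ⟨h1.symm, h2.symm⟩⟩
      · exact hab ⟨k, Or.inr ⟨h2.symm, h1.symm⟩⟩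
      · exact hΛ.col k k (h1.trans h2.symm)
    · simp [h2]
  · simp [h1]

theorem QT1_word (Λ : LD α ε) (hΛ : Λ.Ok) (l : ε → F) (f : ε → FA F α) (hf : Shape Λ l f)
    (w : FreeMonoid α) :
    ∃ w' : FreeMonoid α, IsNormalWord Λ w' ∧ proj Λ w' = proj Λ w ∧
      (wd w - wd w' : FA F α) ∈ J Λ f (wl Λ w) := by
  suffices H : ∀ (t : ℕ) (w : FreeMonoid α), inv Λ (FreeMonoid.toList w) < t →
      ∃ w' : FreeMonoid α, IsNormalWord Λ w' ∧ proj Λ w' = proj Λ w ∧
        (wd w - wd w' : FA F α) ∈ J Λ f (wl Λ w) from
    H (inv Λ (FreeMonoid.toList w) + 1) w (Nat.lt_succ_self _)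
  intro t
  induction t with
  | zero => intro w hw; omega
  | succ t iht =>
    intro w hw
    by_cases hnw : IsNormalWord Λ w
    · exact ⟨w, hnw, rfl, by rw [sub_self]; exact Ideal.zero_mem _⟩
    · obtain ⟨u, v, i, j, e, k, rfl, rfl⟩ := exists_bad Λ _ hnw
      set u' := FreeMonoid.ofList u with hu'
      set v' := FreeMonoid.ofList v with hv'
      have ew : w = u' * FreeMonoid.of (Λ.s k) * FreeMonoid.of (Λ.t k) * v' := by
        apply FreeMonoid.toList.injective
        simp [FreeMonoid.toList_mul, e, hu', hv']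
      set w₁ := u' * FreeMonoid.of (Λ.t k) * FreeMonoid.of (Λ.s k) * v' with hw₁
      have ewl : wl Λ w = wl Λ u' + Λ.we k + wl Λ v' := by
        rw [ew, wl_mul, wl_mul, wl_mul, wl_of, wl_of, LD.we]
        ring
      have ewl₁ : wl Λ w₁ = wl Λ w := by
        rw [ewl, hw₁, wl_mul, wl_mul, wl_mul, wl_of, wl_of, LD.we]
        ring
      have hpr : proj Λ w₁ = proj Λ w := by
        rw [ew, hw₁]
        simp only [map_mul, mul_assoc]
        rw [← mul_assoc (proj Λ (FreeMonoid.of (Λ.t k))), ← proj_comm Λ hΛ k, mul_assoc]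
      obtain ⟨w', h1, h2, h3⟩ := iht w₁ (by
        have e3 : FreeMonoid.toList w₁ = u ++ Λ.t k :: Λ.s k :: v := by
          simp [hw₁, FreeMonoid.toList_mul, hu', hv']
        rw [e3]
        rw [e] at hw
        have := inv_swap Λ hΛ u v k
        omega)
      refine ⟨w', h1, h2.trans hpr, ?_⟩
      rw [ewl₁] at h3
      have h4 : (wd w - wd w₁ : FA F α) ∈ J Λ f (wl Λ w) := by
        obtain ⟨hl, hg⟩ := hf k
        set g := f k - l k • (X (Λ.s k) * X (Λ.t k) - X (Λ.t k) * X (Λ.s k)) with hgdef
        have hrel : wd u' * f k * wd v' ∈ J Λ f (wl Λ w) := by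
          rw [mul_assoc]
          exact Ideal.mul_mem_left _ _ (Ideal.subset_span (Or.inl ⟨k, v', rfl⟩))
        have hbig : wd u' * g * wd v' ∈ (J Λ f (wl Λ w)).restrictScalars F := by
          refine sandwich Λ _ u' v' ((Λ.we k : ℤ) + 1) (fun w'' hw'' => ?_) g hg
          refine Ideal.subset_span (Or.inr ⟨w'', ?_, rfl⟩)
          rw [ewl]
          push_cast
          omega
        have key : (wd w - wd w₁ : FA F α) =
            (l k)⁻¹ • (wd u' * f k * wd v') - (l k)⁻¹ • (wd u' * g * wd v') := by
          rw [ew, hw₁, hgdef, mul_sub, sub_mul, mul_smul_comm, smul_mul_assoc, smul_sub, smul_smul,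
            inv_mul_cancel₀ hl, one_smul, mul_sub, sub_mul]
          simp only [wd_mul, X, mul_assoc]
          abel
        rw [key]
        exact ((J Λ f (wl Λ w)).restrictScalars F).sub_mem
          (((J Λ f (wl Λ w)).restrictScalars F).smul_mem _ hrel)
          (((J Λ f (wl Λ w)).restrictScalars F).smul_mem _ hbig)
      have h5 : (wd w - wd w' : FA F α) = (wd w - wd w₁) + (wd w₁ - wd w') := by abel
      rw [h5]
      exact Ideal.add_mem _ h4 h3

end Pool.Agent.RG.Q
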