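import Mathlib

/-!
PART Q, row QT3: free monoids have unique products.

Proof: take words `a₀ ∈ A` and `b₀ ∈ B` of maximal length. If `a * b = a₀ * b₀` with `a ∈ A`, `b ∈ B` then the
lengths of `a` and `a₀` (and of `b` and `b₀`) agree, so `a = a₀` and `b = b₀`.
-/

set_option autoImplicit false

namespace Pool.Agent.RG.Q

open scoped Classical

theorem QT3_unique (α : Type) : UniqueProds (FreeMonoid α) := by
  refine ⟨fun {A B} hA hB => ?_⟩
  obtain ⟨a₀, ha₀, hamax⟩ := A.exists_max_image (fun w => (FreeMonoid.toList w).length) hA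
  obtain ⟨b₀, hb₀, hbmax⟩ := B.exists_max_image (fun w => (FreeMonoid.toList w).length) hB
  refine ⟨a₀, ha₀, b₀, hb₀, fun a b ha hb h => ?_⟩
  have h1 : FreeMonoid.toList a ++ FreeMonoid.toList b =
      FreeMonoid.toList a₀ ++ FreeMonoid.toList b₀ := congrArg FreeMonoid.toList h
  have h2 := hamax a ha
  have h3 := hbmax b hb
  have h4 := congrArg List.length h1
  rw [List.length_append, List.length_append] at h4
  have h5 : (FreeMonoid.toList a).length = (FreeMonoid.toList a₀).length := by omega
  obtain ⟨h6, h7⟩ := List.append_inj h1 h5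
  exact ⟨FreeMonoid.toList.injective h6, FreeMonoid.toList.injective h7⟩

end Pool.Agent.RG.Q
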