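import Mathlib
import Pool.Agent.Lib.RG.Q01
import Pool.Agent.Lib.RG.Q05
import Pool.Agent.Lib.RG.QT1
import Pool.Agent.Lib.RG.QT3

/-!
PART Q, row QT4: the graded algebra has no zero divisors; powers of elements outside J n are outside J (r n).
Let m <= n be maximal with e in Pge m + J n (e is in Pge 0; Pge (n+1) is contained in J n). Note J m = (f) + Pge (m+1) = J n + Pge (m+1), where (f) = the
two-sided ideal generated by the f k, contained in every J. So e = λ mod J m where λ is a nonzero combination of normal words of weight m (QT1_word).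
Domain: for nonzero combinations λ, μ of normal words of weight m, m' the product λ μ is not in J (m + m'): λ μ = sum c_w c'_w' wd (w w'), wd (w w') is congruent
to the normal word NF(w w') with proj = proj w * proj w'; by unique products in the target of proj (QT3, Pi instance) there are w0, w0' such that
proj w0 * proj w0' is attained only once, so the coefficient of NF(w0 w0') is c c' <> 0; normal words of weight <= m + m' are linearly independent modulo
J (m + m') (Q05_dim with Q03_span). By induction λ^r is not in J (r m), it is congruent to a nonzero combination of normal words of weight r m.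
e^r = λ^r mod J (r m) (cross terms: (f) is an ideal, Pge (m+1) * Pge m^(r-1) is in Pge (r m + 1)); J (r n) <= J (r m).
-/

set_option autoImplicit false

namespace Pool.Agent.RG.Q

open scoped Classical

variable {F : Type} [Field F] {α ε : Type}

private theorem top_Pge (Λ : LD α ε) (x : FA F α) : x ∈ Pge Λ F 0 := by
  induction x using MonoidAlgebra.induction_on with
  | of w => exact Q01_wd_Pge (by positivity)
  | add x y hx hy => exact Submodule.add_mem _ hx hy
  | smul r x hx => exact Submodule.smul_mem _ _ hx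

private theorem sub_eps [Fintype α] (Λ : LD α ε) (hΛ : Λ.Ok) (x : FA F α) :
    x - Q01_eps x • (1 : FA F α) ∈ Pge Λ F 1 := by
  have h := Q01_expand x
  have h2 : x - Q01_eps x • (1 : FA F α) = ∑ j, Q01_rm j x * X j := by
    conv_lhs => rw [h]
    rw [← h]
    rw [sub_eq_iff_eq_add, add_comm]
    exact h
  rw [h2]
  refine Submodule.sum_mem _ fun j _ => ?_
  have h3 := Q01_Pge_mul (top_Pge Λ (Q01_rm j x)) (Q01_X_Pge (F := F) (Λ := Λ) j)
  refine Q01_Pge_mono ?_ h3
  have := Q01_wt_pos hΛ j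
  omega

private theorem Pge_mul_J {Λ : LD α ε} {f : ε → FA F α} {a b : ℤ} {y : FA F α}
    (hy : y ∈ J Λ f b) : ∀ z ∈ Pge Λ F (a + 1), z * y ∈ J Λ f (a + b + 1) := by
  induction hy using Submodule.span_induction with
  | mem x hx =>
    intro z hz
    rcases hx with ⟨i, w, rfl⟩ | ⟨w, hw, rfl⟩
    · exact (J Λ f _).mul_mem_left _ (Q01_J_rel _ _ _)
    · refine Q01_J_Pge (k := a + 1 + wl Λ w) (by omega) (Q01_Pge_mul hz (Q01_wd_Pge le_rfl))
  | zero => intro z _; rw [mul_zero]; exact (J Λ f _).zero_mem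
  | add y y' _ _ hy hy' =>
    intro z hz
    rw [mul_add]
    exact (J Λ f _).add_mem (hy z hz) (hy' z hz)
  | smul c y _ hy =>
    intro z hz
    rw [smul_eq_mul, ← mul_assoc]
    refine hy (z * c) ?_
    have h := Q01_Pge_mul hz (top_Pge Λ c)
    rwa [add_zero] at h

private theorem J_mul_J {Λ : LD α ε} {f : ε → FA F α} {a b : ℤ} {x y : FA F α}
    (hx : x ∈ J Λ f a) (hy : y ∈ J Λ f b) : x * y ∈ J Λ f (a + b + 1) := by
  induction hx using Submodule.span_induction with
  | mem x hx =>
    rcases hx with ⟨i, w, rfl⟩ | ⟨w, hw, rfl⟩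
    · rw [mul_assoc]
      exact Q01_J_rel _ _ _
    · exact Pge_mul_J hy _ (Q01_wd_Pge (by omega))
  | zero => rw [zero_mul]; exact (J Λ f _).zero_mem
  | add y y' _ _ hy hy' =>
    rw [add_mul]
    exact (J Λ f _).add_mem hy hy'
  | smul c x _ hx =>
    rw [smul_eq_mul, mul_assoc]
    exact (J Λ f _).mul_mem_left _ hx

/-- the normal words of weight `m` -/
private def NW (Λ : LD α ε) (m : ℤ) : Set (FreeMonoid α) :=
  {w | IsNormalWord Λ w ∧ (wl Λ w : ℤ) = m}

private theorem NW_Pge {Λ : LD α ε} {m : ℤ} {y : FA F α}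
    (hy : y ∈ Submodule.span F (wd '' NW Λ m : Set (FA F α))) : y ∈ Pge Λ F m := by
  refine Submodule.span_le.2 ?_ hy
  rintro _ ⟨w, hw, rfl⟩
  exact Q01_wd_Pge hw.2.ge

private theorem decomp [Fintype α] (Λ : LD α ε) (hΛ : Λ.Ok) (l : ε → F) (f : ε → FA F α)
    (hf : Shape Λ l f) (m : ℤ) (x : FA F α) (hx : x ∈ J Λ f (m - 1)) :
    ∃ y ∈ Submodule.span F (wd '' NW Λ m : Set (FA F α)), x - y ∈ J Λ f m := by
  induction hx using Submodule.span_induction with
  | mem x hx =>
    rcases hx with ⟨i, w, rfl⟩ | ⟨w, hw, rfl⟩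
    · exact ⟨0, Submodule.zero_mem _, by rw [sub_zero]; exact Q01_J_rel _ _ _⟩
    · rcases eq_or_lt_of_le (show m ≤ wl Λ w by omega) with h | h
      · obtain ⟨w', h1, h2, h3⟩ := QT1_word Λ hΛ l f hf w
        refine ⟨wd w', Submodule.subset_span ⟨w', ⟨h1, ?_⟩, rfl⟩, ?_⟩
        · rw [QT1_wl Λ hΛ w' w h2, h]
        · rw [h]; exact h3
      · exact ⟨0, Submodule.zero_mem _, by rw [sub_zero]; exact Q01_J_wd h⟩
  | zero => exact ⟨0, Submodule.zero_mem _, by rw [sub_zero]; exact (J Λ f _).zero_mem⟩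
  | add x x' _ _ hx hx' =>
    obtain ⟨y, hy, h⟩ := hx
    obtain ⟨y', hy', h'⟩ := hx'
    refine ⟨y + y', Submodule.add_mem _ hy hy', ?_⟩
    rw [add_sub_add_comm]
    exact (J Λ f _).add_mem h h'
  | smul c x _ hx =>
    obtain ⟨y, hy, h⟩ := hx
    refine ⟨Q01_eps c • y, Submodule.smul_mem _ _ hy, ?_⟩
    have h1 : c • x - Q01_eps c • y = c * (x - y) + (c - Q01_eps c • (1 : FA F α)) * y := by
      rw [smul_eq_mul, mul_sub, sub_mul, smul_mul_assoc, one_mul]
      abel
    rw [h1]
    refine (J Λ f _).add_mem ((J Λ f _).mul_mem_left _ h) ?_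
    exact Q01_J_Pge (k := 1 + m) (by omega) (Q01_Pge_mul (sub_eps Λ hΛ c) (NW_Pge hy))

private theorem indep [Fintype α] [Fintype ε] (Λ : LD α ε) (hΛ : Λ.Ok) (l : ε → F)
    (f : ε → FA F α) (hf : Shape Λ l f) (n : ℤ) (c : FreeMonoid α →₀ F)
    (hc : ∀ w ∈ c.support, IsNormalWord Λ w ∧ (wl Λ w : ℤ) ≤ n)
    (h : Finsupp.linearCombination F (fun w : FreeMonoid α => (wd w : FA F α)) c ∈ J Λ f n) :
    c = 0 := by
  let ι := {w : FreeMonoid α // IsNormalWord Λ w ∧ (wl Λ w : ℤ) ≤ n}
  have hfin : Finite ι := by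
    have h1 := Q04_finite Λ hΛ n
    refine Finite.of_injective
      (fun w : ι => (⟨w.1, w.2.2⟩ : {w : FreeMonoid α // (wl Λ w : ℤ) ≤ n})) ?_
    intro a b hab
    apply Subtype.ext
    simpa using hab
  have hft : Fintype ι := Fintype.ofFinite ι
  let v : ι → FA F α ⧸ J Λ f n := fun w => Submodule.Quotient.mk (wd w.1)
  have hspan : ⊤ ≤ Submodule.span F (Set.range v) := by
    rintro x -
    obtain ⟨y, rfl⟩ := Submodule.Quotient.mk_surjective _ x
    obtain ⟨z, hz, hyz⟩ := Q03_span Λ hΛ l f hf n y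
    have h1 : (Submodule.Quotient.mk y : FA F α ⧸ J Λ f n) = Submodule.Quotient.mk z :=
      (Submodule.Quotient.eq _).2 hyz
    rw [h1]
    clear h1 hyz
    induction hz using Submodule.span_induction with
    | mem z hz =>
      obtain ⟨w, hw, hw2, rfl⟩ := hz
      exact Submodule.subset_span ⟨⟨w, hw, hw2⟩, rfl⟩
    | zero => rw [Submodule.Quotient.mk_zero]; exact Submodule.zero_mem _
    | add a b _ _ ha hb =>
      rw [Submodule.Quotient.mk_add]
      exact Submodule.add_mem _ ha hb
    | smul r a _ ha =>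
      rw [Submodule.Quotient.mk_smul]
      exact Submodule.smul_mem _ _ ha
  have hcard : Fintype.card ι = Module.finrank F (FA F α ⧸ J Λ f n) := by
    have h1 := Q05_dim Λ hΛ l f hf n
    unfold bd Hc at h1
    rw [h1, Nat.card_eq_fintype_card]
  have hli := linearIndependent_of_top_le_span_of_card_eq_finrank hspan hcard
  rw [Fintype.linearIndependent_iff] at hli
  have h0 : ∑ i : ι, c i.1 • v i = 0 := by
    have h1 : (Submodule.Quotient.mk (∑ i : ι, c i.1 • wd i.1) : FA F α ⧸ J Λ f n) =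
        ∑ i : ι, c i.1 • v i := by
      have := map_sum ((Submodule.mkQ (J Λ f n)).restrictScalars F)
        (fun i : ι => c i.1 • (wd i.1 : FA F α)) Finset.univ
      refine this.trans ?_
      refine Finset.sum_congr rfl fun i _ => ?_
      rw [map_smul]
      rfl
    rw [← h1, Submodule.Quotient.mk_eq_zero]
    have h2 : ∑ i : ι, c i.1 • (wd i.1 : FA F α) =
        Finsupp.linearCombination F (fun w : FreeMonoid α => (wd w : FA F α)) c := by
      rw [Finsupp.linearCombination_apply, Finsupp.sum]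
      rw [← Finset.sum_subtype_of_mem (p := fun w => IsNormalWord Λ w ∧ (wl Λ w : ℤ) ≤ n)
        (fun w => c w • (wd w : FA F α)) hc]
      refine (Finset.sum_subset (Finset.subset_univ _) ?_).symm
      intro i _ hi
      rw [Finset.mem_subtype, Finsupp.notMem_support_iff] at hi
      rw [hi, zero_smul]
    rw [h2]
    exact h
  have h1 := hli (fun i => c i.1) h0
  ext w
  by_cases hw : w ∈ c.support
  · exact h1 ⟨w, hc w hw⟩
  · rw [Finsupp.notMem_support_iff] at hw
    rw [hw]
    rfl

private theorem domain [Fintype α] [Fintype ε] (Λ : LD α ε) (hΛ : Λ.Ok) (l : ε → F)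
    (f : ε → FA F α) (hf : Shape Λ l f) (m n : ℤ) (c d : FreeMonoid α →₀ F)
    (hc : ∀ w ∈ c.support, w ∈ NW Λ m) (hd : ∀ w ∈ d.support, w ∈ NW Λ n)
    (hc0 : c ≠ 0) (hd0 : d ≠ 0) :
    Finsupp.linearCombination F (fun w : FreeMonoid α => (wd w : FA F α)) c *
      Finsupp.linearCombination F (fun w : FreeMonoid α => (wd w : FA F α)) d ∉
        J Λ f (m + n) := by
  intro hJ
  have hU := QT3_unique α
  choose NF hN1 hN2 hN3 using fun w => QT1_word (F := F) Λ hΛ l f hf w
  obtain ⟨a₀, ha₀, b₀, hb₀, hu⟩ := UniqueProds.uniqueMul_of_nonempty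
    (A := c.support.image (proj Λ)) (B := d.support.image (proj Λ))
    ((Finsupp.support_nonempty_iff.2 hc0).image _) ((Finsupp.support_nonempty_iff.2 hd0).image _)
  obtain ⟨w₀, hw₀, rfl⟩ := Finset.mem_image.1 ha₀
  obtain ⟨v₀, hv₀, rfl⟩ := Finset.mem_image.1 hb₀
  let g : FreeMonoid α →₀ F :=
    ∑ w ∈ c.support, ∑ v ∈ d.support, Finsupp.single (NF (w * v)) (c w * d v)
  have hg : g = 0 := by
    refine indep Λ hΛ l f hf (m + n) g ?_ ?_
    · intro u hu
      obtain ⟨w, hw, hu⟩ := Finset.mem_biUnion.1 (Finsupp.support_finsetSum hu)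
      obtain ⟨v, hv, hu⟩ := Finset.mem_biUnion.1 (Finsupp.support_finsetSum hu)
      have := Finset.mem_singleton.1 (Finsupp.support_single_subset hu)
      subst this
      refine ⟨hN1 _, ?_⟩
      rw [QT1_wl Λ hΛ _ _ (hN2 (w * v)), Q01_wl_mul]
      have h1 := (hc w hw).2
      have h2 := (hd v hv).2
      push_cast
      omega
    · have h1 : Finsupp.linearCombination F (fun w : FreeMonoid α => (wd w : FA F α)) g =
          ∑ w ∈ c.support, ∑ v ∈ d.support, (c w * d v) • wd (NF (w * v)) := by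
        simp only [g, map_sum, Finsupp.linearCombination_single]
      have h2 : Finsupp.linearCombination F (fun w : FreeMonoid α => (wd w : FA F α)) c *
          Finsupp.linearCombination F (fun w : FreeMonoid α => (wd w : FA F α)) d =
          ∑ w ∈ c.support, ∑ v ∈ d.support, (c w * d v) • wd (w * v) := by
        rw [Finsupp.linearCombination_apply, Finsupp.linearCombination_apply, Finsupp.sum,
          Finsupp.sum, Finset.sum_mul_sum]
        refine Finset.sum_congr rfl fun w _ => Finset.sum_congr rfl fun v _ => ?_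
        rw [Q01_wd_mul, smul_mul_smul_comm]
      rw [h2] at hJ
      rw [h1]
      have h3 : ∑ w ∈ c.support, ∑ v ∈ d.support, (c w * d v) • (wd (w * v) : FA F α) -
          ∑ w ∈ c.support, ∑ v ∈ d.support, (c w * d v) • wd (NF (w * v)) ∈ J Λ f (m + n) := by
        rw [← Finset.sum_sub_distrib]
        refine Submodule.sum_mem _ fun w hw => ?_
        rw [← Finset.sum_sub_distrib]
        refine Submodule.sum_mem _ fun v hv => ?_
        rw [← smul_sub]
        refine Q01_smul_mem _ ?_
        have h4 := hN3 (w * v)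
        rw [Q01_wl_mul] at h4
        have h5 := (hc w hw).2
        have h6 := (hd v hv).2
        have h7 : ((wl Λ w + wl Λ v : ℕ) : ℤ) = m + n := by
          push_cast
          omega
        rwa [h7] at h4
      have h4 := (J Λ f (m + n)).sub_mem hJ h3
      rwa [sub_sub_cancel] at h4
  have hval : g (NF (w₀ * v₀)) = c w₀ * d v₀ := by
    have key : ∀ w ∈ c.support, ∀ v ∈ d.support, NF (w * v) = NF (w₀ * v₀) →
        w = w₀ ∧ v = v₀ := by
      intro w hw v hv h
      have h1 : proj Λ w * proj Λ v = proj Λ w₀ * proj Λ v₀ := by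
        rw [← map_mul, ← map_mul, ← hN2 (w * v), h, hN2]
      obtain ⟨h2, h3⟩ := hu (Finset.mem_image_of_mem _ hw) (Finset.mem_image_of_mem _ hv) h1
      exact ⟨QT1_inj Λ hΛ _ _ (hc w hw).1 (hc w₀ hw₀).1 h2,
        QT1_inj Λ hΛ _ _ (hd v hv).1 (hd v₀ hv₀).1 h3⟩
    simp only [g, Finsupp.finsetSum_apply]
    rw [Finset.sum_eq_single_of_mem w₀ hw₀, Finset.sum_eq_single_of_mem v₀ hv₀,
      Finsupp.single_eq_same]
    · intro v hv hne
      rw [Finsupp.single_eq_of_ne]
      intro h
      exact hne (key w₀ hw₀ v hv h.symm).2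
    · intro w hw hne
      refine Finset.sum_eq_zero fun v hv => ?_
      rw [Finsupp.single_eq_of_ne]
      intro h
      exact hne (key w hw v hv h.symm).1
  rw [hg, Finsupp.zero_apply] at hval
  exact mul_ne_zero (Finsupp.mem_support_iff.1 hw₀) (Finsupp.mem_support_iff.1 hv₀) hval.symm

private theorem domain' [Fintype α] [Fintype ε] (Λ : LD α ε) (hΛ : Λ.Ok) (l : ε → F)
    (f : ε → FA F α) (hf : Shape Λ l f) (m n : ℤ) (x y : FA F α)
    (hx : x ∈ J Λ f (m - 1)) (hy : y ∈ J Λ f (n - 1)) (hx' : x ∉ J Λ f m) (hy' : y ∉ J Λ f n) :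
    x * y ∈ J Λ f (m + n - 1) ∧ x * y ∉ J Λ f (m + n) := by
  constructor
  · have h := J_mul_J hx hy
    rwa [show m - 1 + (n - 1) + 1 = m + n - 1 by ring] at h
  · intro hJ
    obtain ⟨a, ha, hxa⟩ := decomp Λ hΛ l f hf m x hx
    obtain ⟨b, hb, hyb⟩ := decomp Λ hΛ l f hf n y hy
    have haJ : a ∈ J Λ f (m - 1) := Q01_J_Pge (k := m) (by omega) (NW_Pge ha)
    have hab : a * b ∈ J Λ f (m + n) := by
      have h1 : a * b = x * y - ((x - a) * y + a * (y - b)) := by
        rw [sub_mul, mul_sub]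
        abel
      rw [h1]
      refine (J Λ f _).sub_mem hJ ((J Λ f _).add_mem ?_ ?_)
      · have h := J_mul_J hxa hy
        rwa [show m + (n - 1) + 1 = m + n by ring] at h
      · have h := J_mul_J haJ hyb
        rwa [show m - 1 + n + 1 = m + n by ring] at h
    obtain ⟨c, hc, rfl⟩ := (Finsupp.mem_span_image_iff_linearCombination F).1 ha
    obtain ⟨d, hd, rfl⟩ := (Finsupp.mem_span_image_iff_linearCombination F).1 hb
    refine domain Λ hΛ l f hf m n c d (fun w hw => hc hw) (fun w hw => hd hw) ?_ ?_ hab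
    · rintro rfl
      rw [map_zero, sub_zero] at hxa
      exact hx' hxa
    · rintro rfl
      rw [map_zero, sub_zero] at hyb
      exact hy' hyb

variable [Fintype α] [Fintype ε]

theorem QT4_pow (Λ : LD α ε) (hΛ : Λ.Ok) (l : ε → F) (f : ε → FA F α) (hf : Shape Λ l f)
    (n : ℕ) (e : FA F α) (he : e ∉ J Λ f n) (r : ℕ) : e ^ r ∉ J Λ f (r * n : ℕ) := by
  have hex : ∃ m : ℕ, e ∉ J Λ f m := ⟨n, he⟩
  obtain ⟨m, hm, hmin⟩ : ∃ m : ℕ, e ∉ J Λ f m ∧ ∀ k < m, e ∈ J Λ f k :=
    ⟨Nat.find hex, Nat.find_spec hex, fun k hk => not_not.1 (Nat.find_min hex hk)⟩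
  have hmn : m ≤ n := by
    by_contra h
    exact he (hmin n (by omega))
  have hm1 : e ∈ J Λ f ((m : ℤ) - 1) := by
    rcases Nat.eq_zero_or_pos m with h | h
    · rw [h, Q01_J_neg (by norm_num)]
      exact Submodule.mem_top
    · have := hmin (m - 1) (by omega)
      rwa [Nat.cast_sub (by omega), Nat.cast_one] at this
  have key : ∀ r : ℕ, e ^ r ∈ J Λ f ((r * m : ℕ) - 1 : ℤ) ∧ e ^ r ∉ J Λ f (r * m : ℕ) := by
    intro r
    induction r with
    | zero =>
      rw [pow_zero, zero_mul]
      constructor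
      · rw [Q01_J_neg (by norm_num)]
        exact Submodule.mem_top
      · intro h
        have h1 := Q01_eps_J hΛ hf (le_refl _) h
        rw [map_one] at h1
        exact one_ne_zero h1
    | succ r ih =>
      rw [pow_succ]
      have h := domain' Λ hΛ l f hf (r * m : ℕ) m (e ^ r) e ih.1 hm1 ih.2 hm
      have h2 : (((r + 1) * m : ℕ) : ℤ) = ((r * m : ℕ) : ℤ) + m := by
        push_cast
        ring
      rw [h2]
      exact h
  intro h
  refine (key r).2 (Q01_J_mono ?_ h)
  exact_mod_cast Nat.mul_le_mul_left r hmn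

end Pool.Agent.RG.Q
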