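import Mathlib
import Pool.Agent.Lib.RG.Q06

/-!
PART Q, row QT7: Q07_rel with a converse (same proof as Q07.lean, which may be copied; its author is helper90): if the units u a satisfy the relations then θ
kills the f k: f k = sum_j B k j f0 j, θ (f0 j) = y x - x^q y = 0.
-/

set_option autoImplicit false
set_option linter.unusedSectionVars false

namespace Pool.Agent.RG.Q

open scoped Classical

variable {α ε κ : Type} [Fintype α] [Fintype ε] [Fintype κ]

section QT7

variable {Λ : LD α ε} {F : Type} [Field F]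

private theorem QT7_wl_mul (v w : FreeMonoid α) : wl Λ (v * w) = wl Λ v + wl Λ w := by
  simp [wl]

private theorem QT7_wd_mul (v w : FreeMonoid α) :
    (wd v : FA F α) * wd w = wd (v * w) := by
  simp only [wd, map_mul]

private theorem QT7_mul {a b : ℤ} {x y : FA F α} (hx : x ∈ Pge Λ F a) (hy : y ∈ Pge Λ F b) :
    x * y ∈ Pge Λ F (a + b) := by
  have h := Submodule.mul_mem_mul hx hy
  rw [Pge, Pge, Submodule.span_mul_span] at h
  refine Submodule.span_mono ?_ h
  rintro _ ⟨x, ⟨v, hv, rfl⟩, y, ⟨w, hw, rfl⟩, rfl⟩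
  refine ⟨v * w, ?_, ?_⟩
  · rw [QT7_wl_mul]
    push_cast
    linarith
  · simp only [QT7_wd_mul]

private theorem QT7_anti {a b : ℤ} (h : a ≤ b) : Pge Λ F b ≤ Pge Λ F a := by
  apply Submodule.span_mono
  rintro _ ⟨w, hw, rfl⟩
  exact ⟨w, h.trans hw, rfl⟩

private theorem QT7_top (x : FA F α) : x ∈ Pge Λ F 0 := by
  rw [← MonoidAlgebra.sum_coeff_single x, Finsupp.sum]
  apply Submodule.sum_mem
  intro w _
  have : (MonoidAlgebra.single w (x.coeff w) : FA F α) = x.coeff w • wd w := by
    rw [wd, MonoidAlgebra.of_apply, MonoidAlgebra.smul_single, smul_eq_mul, mul_one]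
  rw [this]
  exact Submodule.smul_mem _ _ (Submodule.subset_span ⟨w, by positivity, rfl⟩)

private theorem QT7_mul_left {k : ℤ} {x : FA F α} (y : FA F α) (hx : x ∈ Pge Λ F k) :
    y * x ∈ Pge Λ F k := by
  have := QT7_mul (QT7_top y) hx
  rwa [zero_add] at this

private theorem QT7_mul_right {k : ℤ} {x : FA F α} (y : FA F α) (hx : x ∈ Pge Λ F k) :
    x * y ∈ Pge Λ F k := by
  have := QT7_mul hx (QT7_top y)
  rwa [add_zero] at this

private theorem QT7_X (i : α) : (X i : FA F α) ∈ Pge Λ F (Λ.wt i) := by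
  refine Submodule.subset_span ⟨FreeMonoid.of i, ?_, rfl⟩
  simp [wl]

private theorem QT7_XW (hΛ : Λ.Ok) (i : α) : (X i : FA F α) ∈ Pge Λ F Λ.W := by
  refine QT7_anti ?_ (QT7_X i)
  exact_mod_cast hΛ.lo i

private theorem QT7_pow {k : ℤ} {x : FA F α} (hx : x ∈ Pge Λ F k) (s : ℕ) :
    x ^ s ∈ Pge Λ F (s * k) := by
  induction s with
  | zero => simpa using QT7_top (F := F) (Λ := Λ) 1
  | succ s ih =>
    rw [pow_succ]
    have e : ((s + 1 : ℕ) : ℤ) * k = s * k + k := by
      push_cast
      ring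
    rw [e]
    exact QT7_mul ih hx

private theorem QT7_one_add {k : ℤ} {z : FA F α} (hz : z ∈ Pge Λ F k) (s : ℕ) :
    (1 + z) ^ s - 1 ∈ Pge Λ F k := by
  induction s with
  | zero => simp
  | succ s ih =>
    have : (1 + z) ^ (s + 1) - 1 = ((1 + z) ^ s - 1) * (1 + z) + z := by
      rw [pow_succ]
      noncomm_ring
    rw [this]
    exact Submodule.add_mem _ (QT7_mul_right _ ih) hz

end QT7

private theorem QT7_tame (p : ℕ) [Fact p.Prime] (hp : p ≠ 2) (Λ : LD α ε)
    {z : FA (ZMod p) α} (hz : z ∈ Pge Λ (ZMod p) Λ.W) (q : ℕ) (hq : q % p = 1) :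
    (1 + z) ^ q - (1 + z) ∈ Pge Λ (ZMod p) (3 * Λ.W) := by
  have hc : CharP (FA (ZMod p) α) p :=
    charP_of_injective_algebraMap (algebraMap (ZMod p) (FA (ZMod p) α)).injective p
  have h3 : 3 ≤ p := by
    have := (Fact.out : p.Prime).two_le
    omega
  obtain ⟨s, hs⟩ : ∃ s, q = p * s + 1 := ⟨q / p, by
    have := Nat.div_add_mod q p
    omega⟩
  have e : (1 + z) ^ q - (1 + z) = ((1 + z ^ p) ^ s - 1) * (1 + z) := by
    rw [hs, pow_succ, pow_mul]
    rw [add_pow_char_of_commute _ (Commute.one_left _), one_pow]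
    noncomm_ring
  rw [e]
  apply QT7_mul_right
  apply QT7_one_add
  refine QT7_anti ?_ (QT7_pow hz p)
  have h4 : (3 : ℤ) ≤ p := by exact_mod_cast h3
  have h5 : (0 : ℤ) ≤ Λ.W := by positivity
  nlinarith

/-- the linear part -/
private theorem QT7_lin {Λ : LD α ε} {F : Type} [Field F] (hΛ : Λ.Ok) (c : α → F) :
    ∑ a, c a • (X a : FA F α) ∈ Pge Λ F Λ.W :=
  Submodule.sum_mem _ fun a _ => Submodule.smul_mem _ _ (QT7_XW hΛ a)

/-- the commutator of two linear forms -/
private theorem QT7_comm (p : ℕ) (cx cy : κ → α → ZMod p) [Fact p.Prime] (j : κ) :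
    (∑ a, cy j a • (X a : FA (ZMod p) α)) * (∑ a, cx j a • X a) -
      (∑ a, cx j a • (X a : FA (ZMod p) α)) * (∑ a, cy j a • X a) =
    ∑ a, ∑ b, qd cx cy j a b • (X a * X b) := by
  rw [Finset.sum_mul_sum, Finset.sum_mul_sum, ← Finset.sum_sub_distrib]
  refine Finset.sum_congr rfl fun a _ => ?_
  rw [← Finset.sum_sub_distrib]
  refine Finset.sum_congr rfl fun b _ => ?_
  rw [qd, sub_smul, smul_mul_smul_comm, smul_mul_smul_comm]

theorem QT7_rel (p : ℕ) [Fact p.Prime] (hp : p ≠ 2) (Λ : LD α ε) (cx cy : κ → α → ZMod p)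
    (B : ε → κ → ZMod p) (hL : Lead Λ cx cy B) (wx wy : κ → FreeGroup α) (q : κ → ℕ)
    (hq : ∀ j, q j % p = 1) (hx : ∀ j a, ex p a (wx j) = Multiplicative.ofAdd (cx j a))
    (hy : ∀ j a, ex p a (wy j) = Multiplicative.ofAdd (cy j a)) (n : ℕ) :
    ∃ (l : ε → ZMod p) (f : ε → FA (ZMod p) α), Shape Λ l f ∧
      (∀ (A : Type) [Ring A] (θ : FA (ZMod p) α →+* A), (∀ x ∈ J Λ f n, θ x = 0) →
        ∀ u : α → Aˣ, (∀ a, (u a : A) = 1 + θ (X a)) →
          ∀ j, FreeGroup.lift u (wy j) * FreeGroup.lift u (wx j) * (FreeGroup.lift u (wy j))⁻¹ =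
            FreeGroup.lift u (wx j) ^ q j) ∧
      ∀ (A : Type) [Ring A] (θ : FA (ZMod p) α →+* A),
        (∀ v : FreeMonoid α, n < wl Λ v → θ (wd v) = 0) →
        ∀ u : α → Aˣ, (∀ a, (u a : A) = 1 + θ (X a)) →
          (∀ j, FreeGroup.lift u (wy j) * FreeGroup.lift u (wx j) * (FreeGroup.lift u (wy j))⁻¹ =
            FreeGroup.lift u (wx j) ^ q j) → ∀ k, θ (f k) = 0 := by
  have hΛ := hL.ok
  choose gx hgx hgxθ using fun j => Q06_word p Λ hΛ n (wx j)
  choose gy hgy hgyθ using fun j => Q06_word p Λ hΛ n (wy j)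
  let ξ : κ → FA (ZMod p) α := fun j => ∑ a, cx j a • X a
  let η : κ → FA (ZMod p) α := fun j => ∑ a, cy j a • X a
  let x : κ → FA (ZMod p) α := fun j => 1 + (ξ j + gx j)
  let y : κ → FA (ZMod p) α := fun j => 1 + (η j + gy j)
  let f0 : κ → FA (ZMod p) α := fun j => y j * x j - x j ^ q j * y j
  have hξ : ∀ j, ξ j ∈ Pge Λ (ZMod p) Λ.W := fun j => QT7_lin hΛ _
  have hη : ∀ j, η j ∈ Pge Λ (ZMod p) Λ.W := fun j => QT7_lin hΛ _
  have hW : (0 : ℤ) ≤ Λ.W := by positivity
  have hf0 : ∀ j, f0 j - ∑ a, ∑ b, qd cx cy j a b • ((X a : FA (ZMod p) α) * X b) ∈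
      Pge Λ (ZMod p) (3 * Λ.W) := by
    intro j
    have hz : ξ j + gx j ∈ Pge Λ (ZMod p) Λ.W :=
      Submodule.add_mem _ (hξ j) (QT7_anti (by linarith) (hgx j))
    have h1 := QT7_mul_right (y j) (QT7_tame p hp Λ hz (q j) (hq j))
    have h2 : η j * gx j - gx j * η j ∈ Pge Λ (ZMod p) (3 * Λ.W) := by
      refine Submodule.sub_mem _ (QT7_anti ?_ (QT7_mul (hη j) (hgx j)))
        (QT7_anti ?_ (QT7_mul (hgx j) (hη j))) <;> linarith
    have h3 : gy j * ξ j - ξ j * gy j ∈ Pge Λ (ZMod p) (3 * Λ.W) := by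
      refine Submodule.sub_mem _ (QT7_anti ?_ (QT7_mul (hgy j) (hξ j)))
        (QT7_anti ?_ (QT7_mul (hξ j) (hgy j))) <;> linarith
    have h4 : gy j * gx j - gx j * gy j ∈ Pge Λ (ZMod p) (3 * Λ.W) := by
      refine Submodule.sub_mem _ (QT7_anti ?_ (QT7_mul (hgy j) (hgx j)))
        (QT7_anti ?_ (QT7_mul (hgx j) (hgy j))) <;> linarith
    have h5 := Submodule.sub_mem _ (Submodule.add_mem _ (Submodule.add_mem _ h2 h3) h4) h1
    convert h5 using 1
    rw [← QT7_comm]
    change f0 j - (η j * ξ j - ξ j * η j) = _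
    simp only [f0, x, y]
    noncomm_ring
  let f : ε → FA (ZMod p) α := fun k => ∑ j, B k j • f0 j
  refine ⟨fun k => ∑ j, B k j * qd cx cy j (Λ.s k) (Λ.t k), f, ?_, ?_, ?_⟩
  · intro k
    refine ⟨hL.lead k, ?_⟩
    have hwe : (Λ.we k : ℤ) + 1 ≤ 3 * Λ.W := by
      have h1 := hΛ.hi (Λ.s k)
      have h2 := hΛ.hi (Λ.t k)
      have h3 : Λ.we k = Λ.wt (Λ.s k) + Λ.wt (Λ.t k) := rfl
      omega
    have hst : Λ.s k ≠ Λ.t k := hΛ.col k k
    let c : α → α → ZMod p := fun a b => ∑ j, B k j * qd cx cy j a b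
    have hanti : ∀ a b, c b a = - c a b := by
      intro a b
      simp only [c]
      rw [← Finset.sum_neg_distrib]
      refine Finset.sum_congr rfl fun j _ => ?_
      rw [qd, qd]
      ring
    have e1 : f k - ∑ a, ∑ b, c a b • ((X a : FA (ZMod p) α) * X b) ∈
        Pge Λ (ZMod p) (Λ.we k + 1) := by
      have e2 : f k - ∑ a, ∑ b, c a b • ((X a : FA (ZMod p) α) * X b) =
          ∑ j, B k j • (f0 j - ∑ a, ∑ b, qd cx cy j a b • ((X a : FA (ZMod p) α) * X b)) := by
        have e3 : ∑ a, ∑ b, c a b • ((X a : FA (ZMod p) α) * X b) =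
            ∑ j, B k j • ∑ a, ∑ b, qd cx cy j a b • ((X a : FA (ZMod p) α) * X b) := by
          simp only [c, Finset.sum_smul, Finset.smul_sum, smul_smul]
          rw [Finset.sum_comm]
          rw [Finset.sum_comm]
          conv_rhs => rw [Finset.sum_comm]
          refine Finset.sum_congr rfl fun a _ => ?_
          rw [Finset.sum_comm]
        rw [e3]
        simp only [smul_sub, Finset.sum_sub_distrib, f]
      rw [e2]
      exact Submodule.sum_mem _ fun j _ => Submodule.smul_mem _ _ (QT7_anti hwe (hf0 j))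
    have e4 : (∑ a, ∑ b, c a b • ((X a : FA (ZMod p) α) * X b)) -
        c (Λ.s k) (Λ.t k) • (X (Λ.s k) * X (Λ.t k) - X (Λ.t k) * X (Λ.s k)) ∈
        Pge Λ (ZMod p) (Λ.we k + 1) := by
      have e5 : (∑ a, ∑ b, c a b • ((X a : FA (ZMod p) α) * X b)) -
          c (Λ.s k) (Λ.t k) • (X (Λ.s k) * X (Λ.t k) - X (Λ.t k) * X (Λ.s k)) =
          ∑ a, ∑ b, ((if (a = Λ.s k ∧ b = Λ.t k) ∨ (a = Λ.t k ∧ b = Λ.s k) then 0 else c a b) •
            ((X a : FA (ZMod p) α) * X b)) := by
        have e6 : ∀ a b, (c a b • ((X a : FA (ZMod p) α) * X b)) =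
            ((if (a = Λ.s k ∧ b = Λ.t k) ∨ (a = Λ.t k ∧ b = Λ.s k) then 0 else c a b) •
              ((X a : FA (ZMod p) α) * X b)) +
            ((if a = Λ.s k then (if b = Λ.t k then c a b • ((X a : FA (ZMod p) α) * X b) else 0)
              else 0) +
             (if a = Λ.t k then (if b = Λ.s k then c a b • ((X a : FA (ZMod p) α) * X b) else 0)
              else 0)) := by
          intro a b
          by_cases hP : a = Λ.s k ∧ b = Λ.t k
          · obtain ⟨ha, hb⟩ := hP
            rw [if_pos (Or.inl ⟨ha, hb⟩), if_pos ha, if_pos hb, if_neg (fun h => hst (ha.symm.trans h)),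
              zero_smul, zero_add, add_zero]
          · by_cases hQ : a = Λ.t k ∧ b = Λ.s k
            · obtain ⟨ha, hb⟩ := hQ
              rw [if_pos (Or.inr ⟨ha, hb⟩), if_neg (fun h => hst (h.symm.trans ha)), if_pos ha,
                if_pos hb, zero_smul, zero_add, zero_add]
            · have z1 : (if a = Λ.s k then
                  (if b = Λ.t k then c a b • ((X a : FA (ZMod p) α) * X b) else 0) else 0) = 0 := by
                split_ifs with h1 h2
                · exact absurd ⟨h1, h2⟩ hP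
                · rfl
                · rfl
              have z2 : (if a = Λ.t k then
                  (if b = Λ.s k then c a b • ((X a : FA (ZMod p) α) * X b) else 0) else 0) = 0 := by
                split_ifs with h1 h2
                · exact absurd ⟨h1, h2⟩ hQ
                · rfl
                · rfl
              rw [z1, z2, add_zero, add_zero, if_neg (fun h => h.elim hP hQ)]
        rw [Finset.sum_congr rfl fun a _ => Finset.sum_congr rfl fun b _ => e6 a b]
        simp only [Finset.sum_add_distrib]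
        have e7 : ∑ a, ∑ b, (if a = Λ.s k then
            (if b = Λ.t k then c a b • ((X a : FA (ZMod p) α) * X b) else 0) else 0) =
            c (Λ.s k) (Λ.t k) • ((X (Λ.s k) : FA (ZMod p) α) * X (Λ.t k)) := by
          rw [Finset.sum_eq_single (Λ.s k)]
          · simp
          · intro a _ ha
            simp [ha]
          · intro h
            exact absurd (Finset.mem_univ _) h
        have e8 : ∑ a, ∑ b, (if a = Λ.t k then
            (if b = Λ.s k then c a b • ((X a : FA (ZMod p) α) * X b) else 0) else 0) =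
            c (Λ.t k) (Λ.s k) • ((X (Λ.t k) : FA (ZMod p) α) * X (Λ.s k)) := by
          rw [Finset.sum_eq_single (Λ.t k)]
          · simp
          · intro a _ ha
            simp [ha]
          · intro h
            exact absurd (Finset.mem_univ _) h
        rw [e7, e8, hanti (Λ.s k) (Λ.t k), smul_sub, neg_smul]
        abel
      rw [e5]
      refine Submodule.sum_mem _ fun a _ => Submodule.sum_mem _ fun b _ => ?_
      split_ifs with h
      · rw [zero_smul]
        exact Submodule.zero_mem _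
      · push Not at h
        by_cases hle : Λ.wt a + Λ.wt b ≤ Λ.we k
        · have h0 : c a b = 0 := hL.van k a b hle (fun h' => h.1 h'.1 h'.2) (fun h' => h.2 h'.1 h'.2)
          rw [h0, zero_smul]
          exact Submodule.zero_mem _
        · apply Submodule.smul_mem
          refine QT7_anti ?_ (QT7_mul (QT7_X a) (QT7_X b))
          push Not at hle
          exact_mod_cast hle
    have h9 := Submodule.add_mem _ e1 e4
    rw [sub_add_sub_cancel] at h9
    exact h9
  · intro A _ θ hθ u hu j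
    have hword : ∀ v : FreeMonoid α, n < wl Λ v → θ (wd v) = 0 := by
      intro v hv
      apply hθ
      exact Ideal.subset_span (Or.inr ⟨v, by exact_mod_cast hv, rfl⟩)
    have hyθ : ((FreeGroup.lift u (wy j) : Aˣ) : A) = θ (y j) := by
      rw [hgyθ j A θ hword u hu, add_assoc]
      simp only [hy, toAdd_ofAdd]
      rfl
    have hxθ : ((FreeGroup.lift u (wx j) : Aˣ) : A) = θ (x j) := by
      rw [hgxθ j A θ hword u hu, add_assoc]
      simp only [hx, toAdd_ofAdd]
      rfl
    have hfk : ∀ k, θ (f k) = 0 := by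
      intro k
      apply hθ
      refine Ideal.subset_span (Or.inl ⟨k, 1, ?_⟩)
      rw [wd, map_one, mul_one]
    obtain ⟨B', hB'⟩ := hL.inv
    have hf0j : f0 j = ∑ k, B' j k • f k := by
      have e1 : ∑ k, B' j k • f k = ∑ l, (∑ k, B' j k * B k l) • f0 l := by
        simp only [f, Finset.smul_sum, smul_smul, Finset.sum_smul]
        rw [Finset.sum_comm]
      rw [e1]
      simp only [hB', ite_smul, one_smul, zero_smul, Finset.sum_ite_eq, Finset.mem_univ, if_true]
    have hθ0 : θ (f0 j) = 0 := by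
      rw [hf0j, map_sum]
      refine Finset.sum_eq_zero fun k _ => ?_
      rw [Algebra.smul_def, map_mul, hfk, mul_zero]
    rw [mul_inv_eq_iff_eq_mul]
    apply Units.ext
    rw [Units.val_mul, Units.val_mul, Units.val_pow_eq_pow_val, hyθ, hxθ, ← map_mul, ← map_pow,
      ← map_mul, ← sub_eq_zero, ← map_sub]
    exact hθ0

  · intro A _ θ hword u hu hrel k
    have hθ0 : ∀ j, θ (f0 j) = 0 := by
      intro j
      have hyθ : ((FreeGroup.lift u (wy j) : Aˣ) : A) = θ (y j) := by
        rw [hgyθ j A θ hword u hu, add_assoc]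
        simp only [hy, toAdd_ofAdd]
        rfl
      have hxθ : ((FreeGroup.lift u (wx j) : Aˣ) : A) = θ (x j) := by
        rw [hgxθ j A θ hword u hu, add_assoc]
        simp only [hx, toAdd_ofAdd]
        rfl
      have h1 := hrel j
      rw [mul_inv_eq_iff_eq_mul] at h1
      have h2 := congrArg (Units.val) h1
      rw [Units.val_mul, Units.val_mul, Units.val_pow_eq_pow_val, hyθ, hxθ, ← map_mul, ← map_pow,
        ← map_mul, ← sub_eq_zero, ← map_sub] at h2
      exact h2
    have e : θ (f k) = ∑ j, θ (B k j • f0 j) := by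
      simp only [f, map_sum]
    rw [e]
    refine Finset.sum_eq_zero fun j _ => ?_
    rw [Algebra.smul_def, map_mul, hθ0, mul_zero]

end Pool.Agent.RG.Q
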