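import Mathlib
import Pool.Agent.Lib.RG.Q08
import Pool.Agent.Lib.RG.QT4
import Pool.Agent.Lib.RG.QT7

/-!
PART Q, row QT8: as Q08_series (copy Q08.lean; its author is helper37), with QT7 instead of Q07 and a stronger last statement. Its proof: Q06 gives for the
word w an element e = sum ex X + g (the same for all θ) with value of w = 1 + θ e. If (lift ξ w)^(p^k) = 1 then e^(p^k) is in J n, n >= m p^k, so in
J (m p^k), so e is in J m (QT4_pow). θ : FA -> group algebra of P over ZMod p, X a -> η a - 1, kills words of weight > m >= 2 W |P| (length > |P| since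
the weights are < 2 W; a product of |P| elements of the augmentation ideal of a finite p-group is zero: e.g. P09_bot for a suitable series, or: the powers of the
augmentation ideal strictly decrease, dimension |P|), and the f k (QT7), so θ kills J m, θ e = 0, the value of w at η is 1 in the group algebra, lift η w = 1.
-/

set_option autoImplicit false
set_option linter.unusedSectionVars false

namespace Pool.Agent.RG.Q

open scoped Classical

variable {α ε κ : Type} [Fintype α] [Fintype ε] [Fintype κ]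

section

variable {F : Type} [Field F] {Λ : LD α ε}

private theorem QT8_wl_mul (v w : FreeMonoid α) : wl Λ (v * w) = wl Λ v + wl Λ w := by
  simp [wl]

private theorem QT8_wd_mul (v w : FreeMonoid α) :
    (wd v * wd w : FA F α) = wd (v * w) := (map_mul _ _ _).symm

private theorem QT8_top (x : FA F α) : x ∈ Submodule.span F (Set.range (wd : _ → FA F α)) := by
  induction x using MonoidAlgebra.induction_on with
  | of w => exact Submodule.subset_span ⟨w, rfl⟩
  | add f g hf hg => exact Submodule.add_mem _ hf hg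
  | smul r f hf => exact Submodule.smul_mem _ _ hf

private theorem QT8_Pge_mul {a b : ℤ} {x y : FA F α} (hx : x ∈ Pge Λ F a) (hy : y ∈ Pge Λ F b) :
    x * y ∈ Pge Λ F (a + b) := by
  refine Submodule.span_induction ?_ ?_ ?_ ?_ hx
  · rintro _ ⟨v, hv, rfl⟩
    refine Submodule.span_induction ?_ ?_ ?_ ?_ hy
    · rintro _ ⟨w, hw, rfl⟩
      rw [QT8_wd_mul]
      refine Submodule.subset_span ⟨v * w, ?_, rfl⟩
      rw [QT8_wl_mul]
      push_cast
      omega
    · rw [mul_zero]
      exact Submodule.zero_mem _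
    · intro y z _ _ hy hz
      rw [mul_add]
      exact Submodule.add_mem _ hy hz
    · intro c y _ hy
      rw [mul_smul_comm]
      exact Submodule.smul_mem _ _ hy
  · rw [zero_mul]
    exact Submodule.zero_mem _
  · intro y z _ _ hy hz
    rw [add_mul]
    exact Submodule.add_mem _ hy hz
  · intro c y _ hy
    rw [smul_mul_assoc]
    exact Submodule.smul_mem _ _ hy

private theorem QT8_Pge_anti {a b : ℤ} (h : a ≤ b) : Pge Λ F b ≤ Pge Λ F a := by
  refine Submodule.span_mono ?_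
  rintro _ ⟨w, hw, rfl⟩
  exact ⟨w, h.trans hw, rfl⟩

private theorem QT8_Pge_zero (x : FA F α) : x ∈ Pge Λ F 0 := by
  refine Submodule.span_mono ?_ (QT8_top x)
  rintro _ ⟨w, rfl⟩
  exact ⟨w, by positivity, rfl⟩

private theorem QT8_X_mem (i : α) : (X i : FA F α) ∈ Pge Λ F (Λ.wt i) :=
  Submodule.subset_span ⟨FreeMonoid.of i, by simp [wl], rfl⟩

private theorem QT8_Pge_le_J (f : ε → FA F α) {k a : ℤ} (h : k < a) {x : FA F α}
    (hx : x ∈ Pge Λ F a) : x ∈ J Λ f k := by
  refine Submodule.span_induction ?_ ?_ ?_ ?_ hx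
  · rintro _ ⟨w, hw, rfl⟩
    exact Ideal.subset_span (Or.inr ⟨w, by omega, rfl⟩)
  · exact Submodule.zero_mem _
  · intro y z _ _ hy hz
    exact Submodule.add_mem _ hy hz
  · intro c y _ hy
    exact (J Λ f k).smul_of_tower_mem c hy

private theorem QT8_J_anti (f : ε → FA F α) {k k' : ℤ} (h : k ≤ k') : J Λ f k' ≤ J Λ f k := by
  refine Ideal.span_mono ?_
  rintro x (hx | ⟨w, hw, rfl⟩)
  · exact Or.inl hx
  · exact Or.inr ⟨w, h.trans_lt hw, rfl⟩

private theorem QT8_J_mul_wd (f : ε → FA F α) (k : ℤ) {x : FA F α} (hx : x ∈ J Λ f k)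
    (v : FreeMonoid α) : x * wd v ∈ J Λ f k := by
  refine Submodule.span_induction ?_ ?_ ?_ ?_ hx
  · rintro x (⟨i, w, rfl⟩ | ⟨w, hw, rfl⟩)
    · rw [mul_assoc, QT8_wd_mul]
      exact Ideal.subset_span (Or.inl ⟨i, w * v, rfl⟩)
    · rw [QT8_wd_mul]
      refine Ideal.subset_span (Or.inr ⟨w * v, ?_, rfl⟩)
      rw [QT8_wl_mul]
      push_cast
      omega
  · rw [zero_mul]
    exact Submodule.zero_mem _
  · intro y z _ _ hy hz
    rw [add_mul]
    exact Submodule.add_mem _ hy hz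
  · intro c y _ hy
    rw [smul_mul_assoc]
    exact Submodule.smul_mem _ _ hy

private instance QT8_twoSided (f : ε → FA F α) (k : ℤ) : (J Λ f k).IsTwoSided := by
  constructor
  intro a b ha
  refine Submodule.span_induction (p := fun b _ => a * b ∈ J Λ f k) ?_ ?_ ?_ ?_ (QT8_top b)
  · rintro _ ⟨v, rfl⟩
    exact QT8_J_mul_wd f k ha v
  · rw [mul_zero]
    exact Submodule.zero_mem _
  · intro y z _ _ hy hz
    rw [mul_add]
    exact Submodule.add_mem _ hy hz
  · intro c y _ hy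
    rw [mul_smul_comm]
    exact (J Λ f k).smul_of_tower_mem c hy

end

section

variable (p : ℕ) [Fact p.Prime] (Λ : LD α ε)

/-- the finite algebra -/
private abbrev QT8_A (f : ε → FA (ZMod p) α) (n : ℕ) : Type := FA (ZMod p) α ⧸ J Λ f (n : ℤ)

variable {p} (f : ε → FA (ZMod p) α) (n : ℕ)

/-- the filtration of the finite algebra -/
private noncomputable def QT8_I (a : ℤ) : AddSubgroup (QT8_A p Λ f n) :=
  (Pge Λ (ZMod p) a).toAddSubgroup.map (Ideal.Quotient.mk (J Λ f (n : ℤ))).toAddMonoidHom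

private theorem QT8_mem_I {a : ℤ} {x : QT8_A p Λ f n} :
    x ∈ QT8_I Λ f n a ↔ ∃ y ∈ Pge Λ (ZMod p) a, Ideal.Quotient.mk (J Λ f (n : ℤ)) y = x := by
  rfl

private theorem QT8_I_mul {a b : ℤ} {x y : QT8_A p Λ f n} (hx : x ∈ QT8_I Λ f n a)
    (hy : y ∈ QT8_I Λ f n b) : x * y ∈ QT8_I Λ f n (a + b) := by
  obtain ⟨x', hx', rfl⟩ := hx
  obtain ⟨y', hy', rfl⟩ := hy
  exact ⟨x' * y', QT8_Pge_mul hx' hy', map_mul (Ideal.Quotient.mk (J Λ f (n : ℤ))) x' y'⟩

private theorem QT8_I_zero (x : QT8_A p Λ f n) : x ∈ QT8_I Λ f n 0 := by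
  obtain ⟨y, rfl⟩ := Ideal.Quotient.mk_surjective x
  exact ⟨y, QT8_Pge_zero y, rfl⟩

private theorem QT8_I_anti {a b : ℤ} (h : a ≤ b) {x : QT8_A p Λ f n} (hx : x ∈ QT8_I Λ f n b) :
    x ∈ QT8_I Λ f n a := by
  obtain ⟨x', hx', rfl⟩ := hx
  exact ⟨x', QT8_Pge_anti h hx', rfl⟩

private theorem QT8_I_bot {a : ℤ} (h : (n : ℤ) < a) {x : QT8_A p Λ f n} (hx : x ∈ QT8_I Λ f n a) :
    x = 0 := by
  obtain ⟨x', hx', rfl⟩ := hx
  exact Ideal.Quotient.eq_zero_iff_mem.2 (QT8_Pge_le_J f h hx')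

private theorem QT8_I_mul_left {a : ℤ} (x : QT8_A p Λ f n) {y : QT8_A p Λ f n}
    (hy : y ∈ QT8_I Λ f n a) : x * y ∈ QT8_I Λ f n a := by
  have := QT8_I_mul Λ f n (QT8_I_zero Λ f n x) hy
  rwa [zero_add] at this

private theorem QT8_I_mul_right {a : ℤ} (x : QT8_A p Λ f n) {y : QT8_A p Λ f n}
    (hy : y ∈ QT8_I Λ f n a) : y * x ∈ QT8_I Λ f n a := by
  have := QT8_I_mul Λ f n hy (QT8_I_zero Λ f n x)
  rwa [add_zero] at this

private theorem QT8_I_pow {a : ℤ} {x : QT8_A p Λ f n} (hx : x ∈ QT8_I Λ f n a) (r : ℕ) :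
    x ^ r ∈ QT8_I Λ f n (r * a) := by
  induction r with
  | zero =>
    rw [Nat.cast_zero, zero_mul]
    exact QT8_I_zero Λ f n _
  | succ r ih =>
    rw [pow_succ]
    have := QT8_I_mul Λ f n ih hx
    have h : ((r + 1 : ℕ) : ℤ) * a = r * a + a := by push_cast; ring
    rw [h]
    exact this

/-- the series of subgroups of the unit group -/
private noncomputable def QT8_D (a : ℕ) : Subgroup (QT8_A p Λ f n)ˣ where
  carrier := {g | (g : QT8_A p Λ f n) - 1 ∈ QT8_I Λ f n a}
  one_mem' := by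
    show ((1 : (QT8_A p Λ f n)ˣ) : QT8_A p Λ f n) - 1 ∈ QT8_I Λ f n a
    rw [Units.val_one, sub_self]
    exact AddSubgroup.zero_mem _
  mul_mem' := by
    intro g h hg hh
    have hg' : (g : QT8_A p Λ f n) - 1 ∈ QT8_I Λ f n a := hg
    have hh' : (h : QT8_A p Λ f n) - 1 ∈ QT8_I Λ f n a := hh
    show ((g * h : (QT8_A p Λ f n)ˣ) : QT8_A p Λ f n) - 1 ∈ QT8_I Λ f n a
    have h1 : ((g * h : (QT8_A p Λ f n)ˣ) : QT8_A p Λ f n) - 1 =
        (g : QT8_A p Λ f n) * ((h : QT8_A p Λ f n) - 1) + ((g : QT8_A p Λ f n) - 1) := by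
      rw [Units.val_mul]
      noncomm_ring
    rw [h1]
    exact AddSubgroup.add_mem _ (QT8_I_mul_left Λ f n _ hh') hg'
  inv_mem' := by
    intro g hg
    have hg' : (g : QT8_A p Λ f n) - 1 ∈ QT8_I Λ f n a := hg
    show ((g⁻¹ : (QT8_A p Λ f n)ˣ) : QT8_A p Λ f n) - 1 ∈ QT8_I Λ f n a
    have h1 : ((g⁻¹ : (QT8_A p Λ f n)ˣ) : QT8_A p Λ f n) - 1 =
        -(((g⁻¹ : (QT8_A p Λ f n)ˣ) : QT8_A p Λ f n) * ((g : QT8_A p Λ f n) - 1)) := by
      rw [mul_sub, Units.inv_mul]
      noncomm_ring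
    rw [h1]
    exact AddSubgroup.neg_mem _ (QT8_I_mul_left Λ f n _ hg')

private theorem QT8_mem_D {a : ℕ} {g : (QT8_A p Λ f n)ˣ} :
    g ∈ QT8_D Λ f n a ↔ (g : QT8_A p Λ f n) - 1 ∈ QT8_I Λ f n a := Iff.rfl

private theorem QT8_D_anti {a b : ℕ} (h : a ≤ b) : QT8_D Λ f n b ≤ QT8_D Λ f n a :=
  fun _ hg => QT8_I_anti Λ f n (Int.ofNat_le.2 h) hg

private theorem QT8_D_bot {a : ℕ} (h : n < a) {g : (QT8_A p Λ f n)ˣ} (hg : g ∈ QT8_D Λ f n a) :
    g = 1 := by
  have := QT8_I_bot Λ f n (Int.ofNat_lt.2 h) hg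
  exact Units.ext (sub_eq_zero.1 this)

private theorem QT8_D_comm {a b : ℕ} {g h : (QT8_A p Λ f n)ˣ} (hg : g ∈ QT8_D Λ f n a)
    (hh : h ∈ QT8_D Λ f n b) : g * h * g⁻¹ * h⁻¹ ∈ QT8_D Λ f n (a + b) := by
  rw [QT8_mem_D] at hg hh ⊢
  have h1 : ((g * h * g⁻¹ * h⁻¹ : (QT8_A p Λ f n)ˣ) : QT8_A p Λ f n) - 1 =
      (((g : QT8_A p Λ f n) - 1) * ((h : QT8_A p Λ f n) - 1) -
        ((h : QT8_A p Λ f n) - 1) * ((g : QT8_A p Λ f n) - 1)) *
        ((g⁻¹ * h⁻¹ : (QT8_A p Λ f n)ˣ) : QT8_A p Λ f n) := by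
    have h2 : ((g : QT8_A p Λ f n) - 1) * ((h : QT8_A p Λ f n) - 1) -
        ((h : QT8_A p Λ f n) - 1) * ((g : QT8_A p Λ f n) - 1) =
        ((g * h : (QT8_A p Λ f n)ˣ) : QT8_A p Λ f n) - ((h * g : (QT8_A p Λ f n)ˣ) : QT8_A p Λ f n) := by
      rw [Units.val_mul, Units.val_mul]
      noncomm_ring
    have h3 : (h * g) * (g⁻¹ * h⁻¹) = 1 := by group
    rw [h2, sub_mul, ← Units.val_mul, ← Units.val_mul, h3, Units.val_one]
    congr 2
    group
  rw [h1]
  refine QT8_I_mul_right Λ f n _ (AddSubgroup.sub_mem _ ?_ ?_)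
  · have := QT8_I_mul Λ f n hg hh
    push_cast
    exact this
  · have := QT8_I_mul Λ f n hh hg
    rw [add_comm] at this
    push_cast
    exact this

private theorem QT8_surj (x : QT8_A p Λ f n) (hfin : Finite {w : FreeMonoid α // wl Λ w ≤ n}) :
    ∃ c : {w : FreeMonoid α // wl Λ w ≤ n} → ZMod p,
      Ideal.Quotient.mk (J Λ f (n : ℤ)) (∑ᶠ w, c w • wd (w : FreeMonoid α)) = x := by
  have := Fintype.ofFinite {w : FreeMonoid α // wl Λ w ≤ n}
  obtain ⟨y, rfl⟩ := Ideal.Quotient.mk_surjective x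
  refine Submodule.span_induction (p := fun y _ => ∃ c : {w : FreeMonoid α // wl Λ w ≤ n} →
    ZMod p, Ideal.Quotient.mk (J Λ f (n : ℤ)) (∑ᶠ w, c w • wd (w : FreeMonoid α)) =
      Ideal.Quotient.mk (J Λ f (n : ℤ)) y) ?_ ?_ ?_ ?_ (QT8_top y)
  · rintro _ ⟨w, rfl⟩
    by_cases hw : wl Λ w ≤ n
    · refine ⟨Pi.single ⟨w, hw⟩ 1, ?_⟩
      rw [finsum_eq_sum_of_fintype]
      congr 1
      rw [Finset.sum_eq_single ⟨w, hw⟩]
      · simp
      · intro b _ hb
        rw [Pi.single_eq_of_ne hb, zero_smul]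
      · intro h
        exact absurd (Finset.mem_univ _) h
    · refine ⟨0, ?_⟩
      have h1 : Ideal.Quotient.mk (J Λ f (n : ℤ)) (wd w) = 0 :=
        Ideal.Quotient.eq_zero_iff_mem.2 (Ideal.subset_span (Or.inr ⟨w, by omega, rfl⟩))
      rw [h1]
      simp
  · exact ⟨0, by simp⟩
  · rintro y z - - ⟨c, hc⟩ ⟨d, hd⟩
    refine ⟨c + d, ?_⟩
    rw [map_add, ← hc, ← hd, ← map_add]
    congr 1
    rw [finsum_eq_sum_of_fintype, finsum_eq_sum_of_fintype, finsum_eq_sum_of_fintype,
      ← Finset.sum_add_distrib]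
    exact Finset.sum_congr rfl fun w _ => add_smul _ _ _
  · rintro a y - ⟨c, hc⟩
    refine ⟨a • c, ?_⟩
    have h1 : ∀ z : FA (ZMod p) α, Ideal.Quotient.mk (J Λ f (n : ℤ)) (a • z) =
        Ideal.Quotient.mk (J Λ f (n : ℤ)) (algebraMap (ZMod p) _ a) *
          Ideal.Quotient.mk (J Λ f (n : ℤ)) z := by
      intro z
      rw [Algebra.smul_def, map_mul]
    rw [h1, ← hc, ← h1]
    congr 1
    rw [finsum_eq_sum_of_fintype, finsum_eq_sum_of_fintype, Finset.smul_sum]
    exact Finset.sum_congr rfl fun w _ => by rw [Pi.smul_apply, smul_assoc]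

end

section nilpotency

variable (p : ℕ) [Fact p.Prime] {P : Type} [Group P] [Finite P]

/-- A finite `p`-group has a nonzero fixed vector in each nonzero finite representation. -/
private theorem QT8_fixed (hP : IsPGroup p P) (V : Type) [AddCommGroup V] [Module (ZMod p) V]
    [Finite V] [Nontrivial V] (ρ : P →* Module.End (ZMod p) V) :
    ∃ v : V, v ≠ 0 ∧ ∀ g, ρ g v = v := by
  letI : MulAction P V := MulAction.compHom V ρ
  have hsm : ∀ (g : P) (v : V), g • v = ρ g v := fun g v => rfl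
  have hfin : Module.Finite (ZMod p) V := Module.Finite.of_finite
  have hdvd : p ∣ Nat.card V := by
    have hft : Fintype V := Fintype.ofFinite V
    rw [Nat.card_eq_fintype_card, Module.card_eq_pow_finrank (K := ZMod p), ZMod.card]
    exact dvd_pow_self p (Module.finrank_pos (R := ZMod p) (M := V)).ne'
  have h0 : (0 : V) ∈ MulAction.fixedPoints P V := fun g => by
    rw [hsm, map_zero]
  obtain ⟨b, hb, hne⟩ := hP.exists_fixed_point_of_prime_dvd_card_of_fixed_point V hdvd h0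
  exact ⟨b, hne.symm, fun g => hb g⟩

/-- Products of many elements of the augmentation ideal act as zero. -/
private theorem QT8_nil (hP : IsPGroup p P) (d : ℕ) : ∀ (V : Type) [AddCommGroup V]
    [Module (ZMod p) V] [Finite V] (ρ : P →* Module.End (ZMod p) V),
    Module.finrank (ZMod p) V ≤ d → ∀ L : List P, d ≤ L.length →
      (L.map fun g => ρ g - 1).prod = 0 := by
  induction d with
  | zero =>
    intro V _ _ _ ρ hd L _
    have hfin : Module.Finite (ZMod p) V := Module.Finite.of_finite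
    have h1 : Module.finrank (ZMod p) V = 0 := by omega
    have h2 : Subsingleton V := Module.finrank_zero_iff.1 h1
    exact LinearMap.ext fun x => Subsingleton.elim _ _
  | succ d ih =>
    intro V _ _ _ ρ hd L hL
    have hfin : Module.Finite (ZMod p) V := Module.Finite.of_finite
    rcases subsingleton_or_nontrivial V with hs | hn
    · exact LinearMap.ext fun x => Subsingleton.elim _ _
    · obtain ⟨b, hb0, hb⟩ := QT8_fixed p hP V ρ
      let N : Submodule (ZMod p) V := Submodule.span (ZMod p) {b}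
      have hbN : b ∈ N := Submodule.mem_span_singleton_self b
      have hN : ∀ g, N ≤ N.comap (ρ g) := by
        intro g
        rw [Submodule.span_singleton_le_iff_mem]
        change ρ g b ∈ N
        rw [hb]
        exact hbN
      let ρ' : P →* Module.End (ZMod p) (V ⧸ N) :=
        { toFun := fun g => N.mapQ N (ρ g) (hN g)
          map_one' := by
            refine Submodule.linearMap_qext _ (LinearMap.ext fun x => ?_)
            change N.mkQ (ρ 1 x) = N.mkQ x
            rw [map_one]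
            rfl
          map_mul' := fun g h => by
            refine Submodule.linearMap_qext _ (LinearMap.ext fun x => ?_)
            change N.mkQ (ρ (g * h) x) = N.mkQ (ρ g (ρ h x))
            rw [map_mul]
            rfl }
      have hρ' : ∀ g x, ρ' g (N.mkQ x) = N.mkQ (ρ g x) := fun g x => rfl
      have hd' : Module.finrank (ZMod p) (V ⧸ N) ≤ d := by
        have h1 := N.finrank_quotient_add_finrank
        have h2 : Module.finrank (ZMod p) N = 1 := finrank_span_singleton hb0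
        omega
      have hcomp : ∀ (L : List P) (x : V), N.mkQ ((L.map fun g => ρ g - 1).prod x) =
          (L.map fun g => ρ' g - 1).prod (N.mkQ x) := by
        intro L
        induction L with
        | nil => intro x; rfl
        | cons g L ihL =>
          intro x
          rw [List.map_cons, List.prod_cons, List.map_cons, List.prod_cons]
          change N.mkQ ((ρ g - 1) _) = (ρ' g - 1) _
          rw [← ihL, LinearMap.sub_apply, LinearMap.sub_apply, hρ', map_sub]
          rfl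
      cases L with
      | nil => exact absurd hL (by simp)
      | cons g L =>
        rw [List.length_cons] at hL
        have hfq : Finite (V ⧸ N) := Finite.of_surjective N.mkQ N.mkQ_surjective
        have h1 := ih (V ⧸ N) ρ' hd' L (by omega)
        refine LinearMap.ext fun x => ?_
        have h2 : (L.map fun g => ρ g - 1).prod x ∈ N := by
          rw [← Submodule.Quotient.mk_eq_zero]
          have h3 := hcomp L x
          rw [h1] at h3
          exact h3
        obtain ⟨c, hc⟩ := Submodule.mem_span_singleton.1 h2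
        rw [List.map_cons, List.prod_cons]
        change (ρ g - 1) ((L.map fun g => ρ g - 1).prod x) = 0
        rw [← hc, LinearMap.sub_apply, map_smul, hb]
        exact sub_self _

/-- A product of `|P|` elements `g - 1` of the group algebra of a finite `p`-group is zero. -/
private theorem QT8_aug (hP : IsPGroup p P) (L : List P) (hL : Nat.card P ≤ L.length) :
    (L.map fun g => MonoidAlgebra.of (ZMod p) P g - 1).prod = 0 := by
  have hft : Fintype P := Fintype.ofFinite P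
  have hspan : Submodule.span (ZMod p) (Set.range fun g : P => MonoidAlgebra.of (ZMod p) P g) = ⊤ := by
    rw [eq_top_iff]
    rintro x -
    induction x using MonoidAlgebra.induction_on with
    | of w => exact Submodule.subset_span ⟨w, rfl⟩
    | add f g hf hg => exact Submodule.add_mem _ hf hg
    | smul r f hf => exact Submodule.smul_mem _ _ hf
  have hfin : Module.Finite (ZMod p) (MonoidAlgebra (ZMod p) P) := by
    refine ⟨⟨Finset.univ.image fun g : P => MonoidAlgebra.of (ZMod p) P g, ?_⟩⟩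
    rw [Finset.coe_image, Finset.coe_univ, Set.image_univ]
    exact hspan
  have hfinite : Finite (MonoidAlgebra (ZMod p) P) := Module.finite_of_finite (ZMod p)
  have hrank : Module.finrank (ZMod p) (MonoidAlgebra (ZMod p) P) ≤ Nat.card P := by
    rw [← finrank_top, ← hspan, Nat.card_eq_fintype_card]
    exact finrank_range_le_card _
  let ρ : P →* Module.End (ZMod p) (MonoidAlgebra (ZMod p) P) :=
    ((Algebra.lmul (ZMod p) (MonoidAlgebra (ZMod p) P)) : _ →* _).comp
      (MonoidAlgebra.of (ZMod p) P)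
  have hρ : ∀ g x, ρ g x = MonoidAlgebra.of (ZMod p) P g * x := fun g x => rfl
  have h1 := QT8_nil p hP (Nat.card P) (MonoidAlgebra (ZMod p) P) ρ hrank L hL
  have h2 : ∀ (L : List P) (x : MonoidAlgebra (ZMod p) P), (L.map fun g => ρ g - 1).prod x =
      (L.map fun g => MonoidAlgebra.of (ZMod p) P g - 1).prod * x := by
    intro L
    induction L with
    | nil => intro x; simp
    | cons g L ih =>
      intro x
      rw [List.map_cons, List.prod_cons, List.map_cons, List.prod_cons]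
      change (ρ g - 1) _ = _
      rw [ih, LinearMap.sub_apply, hρ, Module.End.one_apply, mul_assoc, sub_mul, one_mul]
  have h3 := h2 L 1
  rw [h1, mul_one] at h3
  exact h3.symm

end nilpotency

private theorem QT8_lift_comp {ι G H : Type} [Group G] [Group H] (f : G →* H) (x : ι → G)
    (w : FreeGroup ι) : f (FreeGroup.lift x w) = FreeGroup.lift (fun i => f (x i)) w := by
  have h : f.comp (FreeGroup.lift x) = FreeGroup.lift (fun i => f (x i)) := by
    ext i
    simp
  exact DFunLike.congr_fun h w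

private theorem QT8_wl_le (Λ : LD α ε) (hΛ : Λ.Ok) (v : FreeMonoid α) :
    wl Λ v ≤ 2 * Λ.W * v.toList.length := by
  induction v using FreeMonoid.recOn with
  | one => simp [wl]
  | of_mul a v ih =>
    rw [QT8_wl_mul, FreeMonoid.toList_mul, List.length_append]
    have h1 : wl Λ (FreeMonoid.of a) = Λ.wt a := by simp [wl]
    have h2 := hΛ.hi a
    rw [h1, FreeMonoid.toList_of, List.length_singleton, mul_add, mul_one]
    omega

theorem QT8_series (p : ℕ) [Fact p.Prime] (hp : p ≠ 2) [Nonempty α] (Λ : LD α ε)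
    (cx cy : κ → α → ZMod p) (B : ε → κ → ZMod p) (hL : Lead Λ cx cy B)
    (wx wy : κ → FreeGroup α) (q : κ → ℕ) (hq : ∀ j, q j % p = 1)
    (hx : ∀ j a, ex p a (wx j) = Multiplicative.ofAdd (cx j a))
    (hy : ∀ j a, ex p a (wy j) = Multiplicative.ofAdd (cy j a)) (n : ℕ) :
    ∃ (Q : Type) (_ : Group Q) (_ : Finite Q) (ξ : α → Q) (D : ℕ → Subgroup Q),
      IsPGroup p Q ∧ Nat.card Q ≤ Nbd p Λ n ∧ Subgroup.closure (Set.range ξ) = ⊤ ∧
      (∀ j, FreeGroup.lift ξ (wy j) * FreeGroup.lift ξ (wx j) * (FreeGroup.lift ξ (wy j))⁻¹ =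
        FreeGroup.lift ξ (wx j) ^ q j) ∧
      NpSeries p Q n D ∧ D Λ.W = ⊤ ∧ (∀ a, Exact p n (Λ.wt a) D (ξ a)) ∧
      ∀ m k : ℕ, m * p ^ k ≤ n → ∀ (P : Type) [Group P] [Finite P], IsPGroup p P →
        2 * Λ.W * Nat.card P ≤ m → ∀ η : α → P,
        (∀ j, FreeGroup.lift η (wy j) * FreeGroup.lift η (wx j) * (FreeGroup.lift η (wy j))⁻¹ =
          FreeGroup.lift η (wx j) ^ q j) →
        ∀ w : FreeGroup α, FreeGroup.lift η w ≠ 1 → FreeGroup.lift ξ w ^ p ^ k ≠ 1 := by
  obtain ⟨l, f, hf, hrel, hconv⟩ := QT7_rel p hp Λ cx cy B hL wx wy q hq hx hy n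
  have hW : 1 ≤ Λ.W := by
    have h1 := hL.ok.lo (Classical.arbitrary α)
    have h2 := hL.ok.hi (Classical.arbitrary α)
    omega
  have hXpow : ∀ (N : ℤ) (i : α) (r : ℕ), ((r * Λ.wt i : ℕ) : ℤ) ≤ N →
      (X i : FA (ZMod p) α) ^ r ∉ J Λ f N := by
    intro N i r hr
    have h1 := Q05_pow Λ hL.ok l f hf N (Pi.single i 1) i (by simp)
      (fun a ha => by
        by_cases h : a = i
        · rw [h]
        · exact absurd (Pi.single_eq_of_ne h 1) ha) 0 (Submodule.zero_mem _) r hr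
    have h2 : (∑ a, (Pi.single i 1 : α → ZMod p) a • (X a : FA (ZMod p) α) + 0) = X i := by
      rw [add_zero, Finset.sum_eq_single i]
      · rw [Pi.single_eq_same, one_smul]
      · intro b _ hb
        rw [Pi.single_eq_of_ne hb, zero_smul]
      · intro h
        exact absurd (Finset.mem_univ _) h
    rwa [h2] at h1
  have hpp : p.Prime := Fact.out
  -- finiteness
  have hfinw : Finite {w : FreeMonoid α // wl Λ w ≤ n} := by
    have := Q04_finite Λ hL.ok (n : ℤ)
    exact Finite.of_injective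
      (fun w : {w : FreeMonoid α // wl Λ w ≤ n} =>
        (⟨w.1, Int.ofNat_le.2 w.2⟩ : {w : FreeMonoid α // (wl Λ w : ℤ) ≤ n}))
      (fun a b h => by
        have h' := congrArg Subtype.val h
        exact Subtype.ext h')
  have hsur : Function.Surjective fun c : {w : FreeMonoid α // wl Λ w ≤ n} → ZMod p =>
      Ideal.Quotient.mk (J Λ f (n : ℤ)) (∑ᶠ w, c w • wd (w : FreeMonoid α)) :=
    fun x => QT8_surj Λ f n x hfinw
  have hfinA : Finite (QT8_A p Λ f n) := Finite.of_surjective _ hsur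
  have hcardA : Nat.card (QT8_A p Λ f n) ≤ Nbd p Λ n := by
    have h1 := Nat.card_le_card_of_surjective _ hsur
    rwa [Nat.card_fun, Nat.card_zmod] at h1
  -- characteristic
  have hone : (1 : FA (ZMod p) α) ∉ J Λ f (n : ℤ) := by
    have := hXpow (n : ℤ) (Classical.arbitrary α) 0 (by simp)
    rwa [pow_zero] at this
  have hnt : Nontrivial (QT8_A p Λ f n) := by
    refine ⟨⟨Ideal.Quotient.mk (J Λ f (n : ℤ)) 1, 0, fun h => hone ?_⟩⟩
    exact Ideal.Quotient.eq_zero_iff_mem.1 h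
  have hchar : CharP (QT8_A p Λ f n) p :=
    charP_of_injective_ringHom ((Ideal.Quotient.mk (J Λ f (n : ℤ))).comp
      (algebraMap (ZMod p) (FA (ZMod p) α))).injective p
  have hpow : ∀ (g : QT8_A p Λ f n) (k : ℕ), g ^ p ^ k - 1 = (g - 1) ^ p ^ k := by
    intro g k
    rw [sub_pow_char_pow_of_commute p k (Commute.one_right g), one_pow]
  -- the units
  have hnil : ∀ i, IsNilpotent (Ideal.Quotient.mk (J Λ f (n : ℤ)) (X i)) := by
    intro i
    refine ⟨n + 1, QT8_I_bot Λ f n (a := ((n + 1 : ℕ) : ℤ) * Λ.wt i) ?_ (QT8_I_pow Λ f n ?_ (n + 1))⟩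
    · have : 1 ≤ Λ.wt i := hW.trans (hL.ok.lo i)
      push_cast
      nlinarith
    · exact ⟨X i, QT8_X_mem i, rfl⟩
  let u : α → (QT8_A p Λ f n)ˣ := fun i => (hnil i).isUnit_one_add.unit
  have hu : ∀ i, (u i : QT8_A p Λ f n) = 1 + Ideal.Quotient.mk (J Λ f (n : ℤ)) (X i) :=
    fun i => (hnil i).isUnit_one_add.unit_spec
  have hu1 : ∀ i, (u i : QT8_A p Λ f n) - 1 = Ideal.Quotient.mk (J Λ f (n : ℤ)) (X i) := by
    intro i
    rw [hu, add_sub_cancel_left]
  have huD : ∀ i, u i ∈ QT8_D Λ f n (Λ.wt i) := by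
    intro i
    rw [QT8_mem_D, hu1]
    exact ⟨X i, QT8_X_mem i, rfl⟩
  let Q : Subgroup (QT8_A p Λ f n)ˣ := Subgroup.closure (Set.range u)
  let ξ : α → Q := fun i => ⟨u i, Subgroup.subset_closure ⟨i, rfl⟩⟩
  have hQ2 : Q ≤ QT8_D Λ f n Λ.W := by
    rw [Subgroup.closure_le]
    rintro _ ⟨i, rfl⟩
    exact QT8_D_anti Λ f n (hL.ok.lo i) (huD i)
  have hlift : ∀ v : FreeGroup (α), ((FreeGroup.lift ξ v : Q) : (QT8_A p Λ f n)ˣ) =
      FreeGroup.lift u v := by
    intro v
    have : Q.subtype.comp (FreeGroup.lift ξ) = FreeGroup.lift u := by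
      refine FreeGroup.ext_hom _ _ fun i => ?_
      simp [ξ]
    exact DFunLike.congr_fun this v
  refine ⟨Q, inferInstance, inferInstance, ξ, fun a => (QT8_D Λ f n a).subgroupOf Q, ?_, ?_, ?_, ?_,
    ⟨?_, ?_, ?_, ?_, ?_⟩, ?_, ?_, ?_⟩
  · intro g
    refine ⟨n + 1, Subtype.ext ?_⟩
    refine QT8_D_bot Λ f n (Nat.lt_succ_self n) (g := ((g ^ p ^ (n + 1) : Q) : (QT8_A p Λ f n)ˣ)) ?_
    rw [QT8_mem_D, Subgroup.coe_pow, Units.val_pow_eq_pow_val, hpow]
    have h1 : ((g : (QT8_A p Λ f n)ˣ) : QT8_A p Λ f n) - 1 ∈ QT8_I Λ f n ((Λ.W : ℕ) : ℤ) :=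
      hQ2 g.2
    refine QT8_I_anti Λ f n ?_ (QT8_I_pow Λ f n h1 (p ^ (n + 1)))
    have h2 : n + 1 ≤ p ^ (n + 1) := (Nat.lt_pow_self hpp.one_lt).le
    have h3 : ((n + 1 : ℕ) : ℤ) ≤ ((p ^ (n + 1) : ℕ) : ℤ) := by exact_mod_cast h2
    have h4 : (1 : ℤ) ≤ (Λ.W : ℤ) := by exact_mod_cast hW
    push_cast at h3 ⊢
    nlinarith
  · refine le_trans (Nat.card_le_card_of_injective
      (fun g : Q => ((g : (QT8_A p Λ f n)ˣ) : QT8_A p Λ f n)) ?_) hcardA
    intro g h hgh
    exact Subtype.ext (Units.ext hgh)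
  · have h1 : Set.range ξ = ((↑) : Q → (QT8_A p Λ f n)ˣ) ⁻¹' Set.range u := by
      ext g
      constructor
      · rintro ⟨i, rfl⟩
        exact ⟨i, rfl⟩
      · rintro ⟨i, hi⟩
        exact ⟨i, Subtype.ext hi⟩
    rw [h1]
    exact Subgroup.closure_closure_coe_preimage
  · intro i
    refine Subtype.ext ?_
    have h1 := hrel (QT8_A p Λ f n) (Ideal.Quotient.mk (J Λ f (n : ℤ)))
      (fun x hx => Ideal.Quotient.eq_zero_iff_mem.2 hx) u hu i
    rw [Subgroup.coe_mul, Subgroup.coe_mul, Subgroup.coe_inv, Subgroup.coe_pow, hlift, hlift]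
    exact h1
  · intro a b hab g hg
    exact QT8_D_anti Λ f n hab hg
  · rw [Subgroup.subgroupOf_eq_top]
    exact hQ2.trans (QT8_D_anti Λ f n hW)
  · rw [eq_bot_iff]
    intro g hg
    exact Subtype.ext (QT8_D_bot Λ f n (Nat.lt_succ_self n) hg)
  · intro a b g hg h hh
    exact QT8_D_comm Λ f n hg hh
  · intro a g hg
    have hg' : ((g : (QT8_A p Λ f n)ˣ) : QT8_A p Λ f n) - 1 ∈ QT8_I Λ f n a := hg
    show ((g ^ p : Q) : (QT8_A p Λ f n)ˣ) ∈ QT8_D Λ f n (p * a)
    rw [QT8_mem_D, Subgroup.coe_pow, Units.val_pow_eq_pow_val]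
    have h1 := hpow ((g : (QT8_A p Λ f n)ˣ) : QT8_A p Λ f n) 1
    rw [pow_one] at h1
    rw [h1]
    have h2 := QT8_I_pow Λ f n hg' p
    push_cast
    exact h2
  · rw [Subgroup.subgroupOf_eq_top]
    exact hQ2
  · intro i
    refine ⟨huD i, fun k hk hmem => ?_⟩
    have h1 : ((u i ^ p ^ k : (QT8_A p Λ f n)ˣ) : QT8_A p Λ f n) - 1 ∈
      QT8_I Λ f n ((Λ.wt i * p ^ k + 1 : ℕ) : ℤ) := hmem
    rw [Units.val_pow_eq_pow_val, hpow, hu1, ← map_pow] at h1
    obtain ⟨y, hy, hyx⟩ := h1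
    have h2 : X i ^ p ^ k - y ∈ J Λ f (n : ℤ) := by
      rw [← Ideal.Quotient.eq_zero_iff_mem, map_sub, sub_eq_zero]
      exact hyx.symm
    have h3 : X i ^ p ^ k ∈ J Λ f ((Λ.wt i * p ^ k : ℕ) : ℤ) := by
      have h4 := QT8_J_anti f (Int.ofNat_le.2 hk) h2
      have h5 : y ∈ J Λ f ((Λ.wt i * p ^ k : ℕ) : ℤ) :=
        QT8_Pge_le_J f (Int.ofNat_lt.2 (Nat.lt_succ_self _)) hy
      have h6 := Submodule.add_mem _ h4 h5
      rwa [sub_add_cancel] at h6
    exact hXpow _ i (p ^ k) (by rw [mul_comm]) h3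
  · intro m k hmk P _ _ hP hPm η hη w hw hw1
    have hmn : m ≤ n := le_trans (Nat.le_mul_of_pos_right m (pow_pos hpp.pos k)) hmk
    obtain ⟨g, hg, hgu⟩ := Q06_word p Λ hL.ok n w
    have h1 := hgu (QT8_A p Λ f n) (Ideal.Quotient.mk (J Λ f (n : ℤ)))
      (fun v hv => Ideal.Quotient.eq_zero_iff_mem.2
        (Ideal.subset_span (Or.inr ⟨v, by exact_mod_cast hv, rfl⟩))) u hu
    generalize hedef : (∑ a, (Multiplicative.toAdd (ex p a w) : ZMod p) • (X a : FA (ZMod p) α)) + g
      = e at *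
    have he : e ∈ J Λ f (m : ℤ) := by
      by_contra he
      refine QT4_pow Λ hL.ok l f hf m e he (p ^ k) ?_
      have hle : ((p ^ k * m : ℕ) : ℤ) ≤ (n : ℤ) := by
        rw [mul_comm]
        exact Int.ofNat_le.2 hmk
      refine QT8_J_anti f hle ?_
      rw [← Ideal.Quotient.eq_zero_iff_mem, map_pow]
      have h2 : Ideal.Quotient.mk (J Λ f (n : ℤ)) e =
          ((FreeGroup.lift u w : (QT8_A p Λ f n)ˣ) : QT8_A p Λ f n) - 1 := by
        rw [h1, add_assoc, hedef, map_add _ 1, map_one, add_sub_cancel_left]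
      have h3 : (FreeGroup.lift u w) ^ p ^ k = 1 := by
        rw [← hlift]
        have h4 := congrArg (fun x : Q => (x : (QT8_A p Λ f n)ˣ)) hw1
        exact h4
      rw [h2, ← hpow, ← Units.val_pow_eq_pow_val, h3, Units.val_one, sub_self]
    -- the homomorphism to the group algebra of `P`
    let F0 : FreeMonoid α →* MonoidAlgebra (ZMod p) P :=
      FreeMonoid.lift fun a => MonoidAlgebra.of (ZMod p) P (η a) - 1
    let θ : FA (ZMod p) α →+* MonoidAlgebra (ZMod p) P :=
      (MonoidAlgebra.lift (ZMod p) (MonoidAlgebra (ZMod p) P) (FreeMonoid α) F0 : _ →ₐ[ZMod p] _)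
    have hθ : ∀ v : FreeMonoid α, θ (wd v) = F0 v := fun v => MonoidAlgebra.lift_of _ _
    have hθX : ∀ a, θ (X a) = MonoidAlgebra.of (ZMod p) P (η a) - 1 := by
      intro a
      change θ (wd (FreeMonoid.of a)) = _
      rw [hθ]
      exact FreeMonoid.lift_eval_of _ _
    have hθ0 : ∀ v : FreeMonoid α, m < wl Λ v → θ (wd v) = 0 := by
      intro v hv
      rw [hθ]
      have h2 : F0 v = ((v.toList.map η).map fun g => MonoidAlgebra.of (ZMod p) P g - 1).prod := by
        rw [List.map_map]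
        exact FreeMonoid.lift_apply _ _
      rw [h2]
      refine QT8_aug p hP _ ?_
      rw [List.length_map]
      have h3 := QT8_wl_le Λ hL.ok v
      by_contra h4
      have h5 : 2 * Λ.W * v.toList.length ≤ 2 * Λ.W * Nat.card P :=
        Nat.mul_le_mul_left _ (by omega)
      omega
    let U : P →* (MonoidAlgebra (ZMod p) P)ˣ :=
      (Units.map (MonoidAlgebra.of (ZMod p) P)).comp (toUnits (G := P)).toMonoidHom
    have hU : ∀ x, ((U x : (MonoidAlgebra (ZMod p) P)ˣ) : MonoidAlgebra (ZMod p) P) =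
        MonoidAlgebra.of (ZMod p) P x := fun x => rfl
    have huP : ∀ a, ((U (η a) : (MonoidAlgebra (ZMod p) P)ˣ) : MonoidAlgebra (ZMod p) P) =
        1 + θ (X a) := by
      intro a
      rw [hU, hθX, add_sub_cancel]
    have hkill := hconv (MonoidAlgebra (ZMod p) P) θ (fun v hv => hθ0 v (lt_of_le_of_lt hmn hv))
      (fun a => U (η a)) huP (by
        intro j
        rw [← QT8_lift_comp U η, ← QT8_lift_comp U η, ← map_mul, ← map_inv, ← map_mul, hη, map_pow])
    have hθe : θ e = 0 := by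
      refine Submodule.span_induction (p := fun x _ => θ x = 0) ?_ ?_ ?_ ?_ he
      · rintro x (⟨i, v, rfl⟩ | ⟨v, hv, rfl⟩)
        · rw [map_mul, hkill, zero_mul]
        · exact hθ0 v (by exact_mod_cast hv)
      · exact map_zero θ
      · intro x y _ _ hx hy
        rw [map_add, hx, hy, add_zero]
      · intro a x _ hx
        rw [smul_eq_mul, map_mul, hx, mul_zero]
    have hval := hgu (MonoidAlgebra (ZMod p) P) θ
      (fun v hv => hθ0 v (lt_of_le_of_lt hmn hv)) (fun a => U (η a)) huP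
    rw [add_assoc, hedef, map_add, map_one, hθe, add_zero, ← QT8_lift_comp U η, hU,
      ← map_one (MonoidAlgebra.of (ZMod p) P)] at hval
    exact hw (MonoidAlgebra.of_injective hval)

end Pool.Agent.RG.Q
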