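import Mathlib
import Pool.Agent.Lib.RG.QMain
import Pool.Agent.Lib.RG.QT8

/-!
PART Q, export: torsion-freeness.
-/

set_option autoImplicit false

namespace Pool.Agent.RG.Q

open scoped Classical

variable {α ε κ : Type} [Fintype α] [Fintype ε] [Fintype κ]

theorem torsion_free (p : ℕ) [Fact p.Prime] (hp : p ≠ 2) [Nonempty α]
    (G : Type) [Group G] [TopologicalSpace G] [IsTopologicalGroup G] [CompactSpace G] [T2Space G]
    [TotallyDisconnectedSpace G]
    (hG : ∀ U : Subgroup G, U.Normal → IsOpen (U : Set G) → ∃ k, U.index = p ^ k)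
    (K : KD p α κ G) (Λ : LD α ε) (B : ε → κ → ZMod p) (hL : Lead Λ K.cx K.cy B)
    (g : G) (hg : g ≠ 1) (n : ℕ) (hn : 0 < n) : g ^ n ≠ 1 := by
  have hpp : p.Prime := Fact.out
  intro hgn
  -- a finite quotient in which `g` is not trivial
  obtain ⟨V, hV⟩ := ProfiniteGrp.exist_openNormalSubgroup_sub_open_nhds_of_one
    (isOpen_compl_singleton (x := g)) (by simpa using hg.symm)
  have hgV : g ∉ (V : Set G) := fun h => (hV h) rfl
  have hVo : IsOpen ((V.toSubgroup : Subgroup G) : Set G) := V.isOpen'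
  have hVn : (V.toSubgroup : Subgroup G).Normal := V.isNormal'
  have hfin : Finite (G ⧸ (V.toSubgroup : Subgroup G)) :=
    Subgroup.quotient_finite_of_isOpen _ hVo
  set P := G ⧸ (V.toSubgroup : Subgroup G) with hP
  have hpP : IsPGroup p P := by
    obtain ⟨k, hk⟩ := hG _ hVn hVo
    exact IsPGroup.of_card (n := k) hk
  let π : G →* P := QuotientGroup.mk' V.toSubgroup
  have hπ : IsOpen (π.ker : Set G) := by
    rw [QuotientGroup.ker_mk']
    exact hVo
  set m : ℕ := 2 * Λ.W * Nat.card P with hm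
  set N : ℕ := m * p ^ n with hN
  obtain ⟨U₀, hU₀, hU₀'⟩ := Q18_common G K.z K.gen (Nbd p Λ N + Nat.card P)
  obtain ⟨wx, wy, hwx, hwy, hQ, hval⟩ := Q20_values p G K (Nbd p Λ N + Nat.card P)
  obtain ⟨Q, _, _, ξ, D, hpQ, hcard, hgen, hrel, hD, hDW, hex, hord⟩ :=
    QT8_series p hp Λ K.cx K.cy B hL wx wy K.q K.hq
      (fun j a => by rw [hwx]; exact (ofAdd_toAdd _).symm)
      (fun j a => by rw [hwy]; exact (ofAdd_toAdd _).symm) N
  obtain ⟨φ, hφ, hφz⟩ := hQ Q hpQ (hcard.trans (Nat.le_add_right _ _)) ξ hrel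
  -- the word
  obtain ⟨w, hw⟩ := Q19_dense G K.z K.gen U₀ hU₀ g
  have key : ∀ (R : Type) [Group R] [Finite R], Nat.card R ≤ Nbd p Λ N + Nat.card P →
      ∀ θ : G →* R, IsOpen (θ.ker : Set G) → θ g = FreeGroup.lift (fun a => θ (K.z a)) w := by
    intro R _ _ hR θ hθ
    have hw1 : (FreeGroup.lift K.z w)⁻¹ * g ∈ θ.ker := hU₀' R hR θ hθ hw
    rw [MonoidHom.mem_ker, map_mul, map_inv, inv_mul_eq_one] at hw1
    rw [← hw1]
    have h2 : θ.comp (FreeGroup.lift K.z) = FreeGroup.lift (fun a => θ (K.z a)) := by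
      apply FreeGroup.ext_hom
      intro b
      rw [MonoidHom.comp_apply, FreeGroup.lift_apply_of, FreeGroup.lift_apply_of]
    exact DFunLike.congr_fun h2 w
  have hπg : FreeGroup.lift (fun a => π (K.z a)) w ≠ 1 := by
    rw [← key P (Nat.le_add_left _ _) π hπ]
    intro h
    exact hgV ((QuotientGroup.eq_one_iff g).mp h)
  have hrelP : ∀ j, FreeGroup.lift (fun a => π (K.z a)) (wy j) *
      FreeGroup.lift (fun a => π (K.z a)) (wx j) *
      (FreeGroup.lift (fun a => π (K.z a)) (wy j))⁻¹ =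
        FreeGroup.lift (fun a => π (K.z a)) (wx j) ^ K.q j := by
    intro j
    obtain ⟨h1, h2⟩ := hval P (Nat.le_add_left _ _) π hπ j
    rw [← h1, ← h2, ← map_mul, ← map_inv, ← map_mul, K.tame, map_pow]
  have hne := hord m n le_rfl P hpP le_rfl (fun a => π (K.z a)) hrelP w hπg
  apply hne
  have hφg : φ g = FreeGroup.lift ξ w := by
    rw [key Q (hcard.trans (Nat.le_add_right _ _)) φ hφ]
    congr 2
    funext a
    exact hφz a
  rw [← hφg, ← orderOf_dvd_iff_pow_eq_one]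
  -- the order of `φ g` is a power of `p` dividing `n`
  obtain ⟨k, hk⟩ := hpQ (φ g)
  have h5 : orderOf (φ g) ∣ p ^ k := orderOf_dvd_of_pow_eq_one hk
  obtain ⟨j, hj, hj'⟩ := (Nat.dvd_prime_pow hpp).mp h5
  have h6 : orderOf (φ g) ∣ n := by
    rw [orderOf_dvd_iff_pow_eq_one, ← map_pow, hgn, map_one]
  have h7 : p ^ j ≤ n := Nat.le_of_dvd hn (hj' ▸ h6)
  have h8 : j ≤ n := (Nat.lt_pow_self hpp.one_lt).le.trans h7
  rw [hj']
  exact pow_dvd_pow p h8

end Pool.Agent.RG.Q
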