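import Mathlib
import Pool.Agent.Lib.RG.QMain
import Pool.Agent.Lib.RG.QTF
import Pool.Agent.Lib.RG.QCrit
import Pool.Agent.Lib.RG.QB

/-!
PART Q, export: the cup product criterion for rank gradient zero.
-/

set_option autoImplicit false

namespace Pool.Agent.RG.Q

open scoped Classical

theorem rank_gradient_criterion (p : ℕ) [Fact p.Prime] (hp : p ≠ 2) {ι : Type} [Fintype ι]
    [Nonempty ι] (G : Type) [Group G] [TopologicalSpace G] [IsTopologicalGroup G] [CompactSpace G]
    [T2Space G] [TotallyDisconnectedSpace G]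
    (hG : ∀ U : Subgroup G, U.Normal → IsOpen (U : Set G) → ∃ k, U.index = p ^ k)
    (K : KD p ι ι G) (hK : K.z = K.x) (ℓ : ι → ι → ZMod p)
    (hℓ : ∀ q r, K.χ r (K.y q) = Multiplicative.ofAdd (ℓ q r)) (h : Criterion ℓ) :
    Infinite G ∧ (∀ e : ℝ, 0 < e → ∃ (U : Subgroup G) (n : ℕ), IsOpen (U : Set G) ∧
      GenBy U n ∧ ((n : ℝ) - 1) ≤ e * U.index) ∧
    ∀ g : G, g ≠ 1 → ∀ n : ℕ, 0 < n → g ^ n ≠ 1 := by
  obtain ⟨α, ε, _, _, _, Λ, f, f', B, hf, hf', hL, hconn⟩ := lead_of_criterion ℓ h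
  obtain ⟨K', hx, hy, hχ⟩ := base_change p G hG K hK f f' hf hf'
  have hcx : (K'.cx : ι → α → ZMod p) = fun j a => f a j := by
    funext j a
    show Multiplicative.toAdd (K'.χ a (K'.x j)) = f a j
    rw [hχ, hx, Finset.sum_eq_single j]
    · have h1 : K.χ j (K.x j) = Multiplicative.ofAdd (if j = j then 1 else 0) := by
        have := K.dual j j
        rwa [hK] at this
      rw [h1, if_pos rfl, toAdd_ofAdd, mul_one]
    · intro i _ hi
      have h1 : K.χ i (K.x j) = Multiplicative.ofAdd (if j = i then 1 else 0) := by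
        have := K.dual j i
        rwa [hK] at this
      rw [h1, if_neg (Ne.symm hi), toAdd_ofAdd, mul_zero]
    · intro hj
      exact absurd (Finset.mem_univ j) hj
  have hcy : (K'.cy : ι → α → ZMod p) = fun j a => ∑ r, ℓ j r * f a r := by
    funext j a
    show Multiplicative.toAdd (K'.χ a (K'.y j)) = _
    rw [hχ, hy]
    refine Finset.sum_congr rfl fun i _ => ?_
    rw [hℓ, toAdd_ofAdd, mul_comm]
  have hL' : Lead Λ K'.cx K'.cy B := by rw [hcx, hcy]; exact hL
  obtain ⟨h1, h2, -⟩ := rank_gradient p hp G hG K' Λ B hL' hconn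
  exact ⟨h1, h2, fun g hg n hn => torsion_free p hp G hG K' Λ B hL' g hg n hn⟩

end Pool.Agent.RG.Q
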