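import Mathlib
import Pool.Agent.Lib.RG.Defs
import Pool.Agent.Lib.RG.G01

/-!
RG v2, definitions: the maximal `p`-extension of a number field `K` unramified outside a set of
primes of `K`.
-/

set_option autoImplicit false

namespace Pool.Agent.RG

open NumberField IsDedekindDomain

variable {K : Type} [Field K] [NumberField K]

/-- The Galois extension `L / K` is unramified outside the set `S` of primes of `K`: the inertia group
in `Gal(L / K)` of every prime of `L` which does not lie above a prime of `S` is trivial. -/
def UnrP (S : Set (HeightOneSpectrum (𝓞 K))) (L : Type) [Field L] [NumberField L]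
    [Algebra K L] : Prop :=
  ∀ w : HeightOneSpectrum (𝓞 L), (∀ v ∈ S, ¬ Lies (algebraMap K L) w v) →
    ∀ σ : L ≃ₐ[K] L, IsInert w σ → σ = 1

/-- `L` is a finite Galois extension of `K` of `p`-power degree, unramified outside `S`. -/
def InCP (p : ℕ) (S : Set (HeightOneSpectrum (𝓞 K)))
    (L : IntermediateField K (AlgebraicClosure K)) : Prop :=
  ∃ _ : NumberField L, IsGalois K L ∧ (∃ k, Module.finrank K L = p ^ k) ∧ UnrP S L

/-- The maximal `p`-extension of `K` unramified outside `S`. -/
noncomputable def maxExtP (p : ℕ) (S : Set (HeightOneSpectrum (𝓞 K))) :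
    IntermediateField K (AlgebraicClosure K) :=
  sSup {L | InCP p S L}

/-- The Galois group `G_{K,p,S}`. -/
abbrev GP (p : ℕ) (S : Set (HeightOneSpectrum (𝓞 K))) : Type :=
  maxExtP p S ≃ₐ[K] maxExtP p S

end Pool.Agent.RG
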