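import Mathlib
import Pool.Agent.Lib.RG.Defs
import Pool.Agent.Lib.RG.KDefs
import Pool.Agent.Lib.RG.RDefs

/-!
RG v2, row R1.

`maxExtP_le`: `InCP p S' L → InCRel p S K L` (a prime `w` of `L` not above any `q ∈ S` does not lie
above a `v ∈ S'`: if `Lies (algebraMap K L) w v` and `Above v q` then `Above w q`, `Lies.above_iff`);
`sSup_le_sSup`.
`isGalois_maxExtP`: a compositum of Galois extensions is Galois (`sSup`/`iSup` of normal
extensions in a fixed algebraic closure: `IntermediateField.normal_iSup`; separable because of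
characteristic zero).
`exists_quot`: restriction to a normal subextension: `Y' ≤ Y` in the algebraic closure. Algebra
structure of `Y` over `Y'` by `IntermediateField.inclusion hle`; `AlgEquiv.restrictNormalHom`;
continuity as in `exists_restrMax` (row M2) or `InfiniteGalois.restrictNormalHom_continuous`.
-/

set_option autoImplicit false

namespace Pool.Agent.RG

open NumberField IsDedekindDomain

variable {K : Type} [Field K] [NumberField K]

theorem maxExtP_le {p : ℕ} {S : Finset ℕ} {S' : Set (HeightOneSpectrum (𝓞 K))}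
    (h : ∀ v ∈ S', ∃ q ∈ S, Above v q) : maxExtP p S' ≤ maxExtension p S K := by
  refine sSup_le_sSup ?_
  rintro L ⟨nf, gal, hk, hu⟩
  refine ⟨nf, gal, hk, ?_⟩
  intro w hw σ hσ
  refine hu w ?_ σ hσ
  intro v hv hl
  obtain ⟨q, hq, hab⟩ := h v hv
  exact hw q hq ((hl.above_iff q).2 hab)

theorem isGalois_maxExtP (p : ℕ) (S' : Set (HeightOneSpectrum (𝓞 K))) :
    IsGalois K (maxExtP p S') := by
  have hn : Normal K (maxExtP p S') := by
    rw [maxExtP, sSup_eq_iSup']
    refine IntermediateField.normal_iSup (h := ?_)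
    rintro ⟨L, hL⟩
    obtain ⟨nf, gal, hk, hu⟩ := hL
    exact gal.to_normal
  exact { to_normal := hn, to_isSeparable := inferInstance }

theorem exists_quot {Y' Y : IntermediateField K (AlgebraicClosure K)} (hle : Y' ≤ Y)
    [IsGalois K Y'] [IsGalois K Y] :
    ∃ ρ : (Y ≃ₐ[K] Y) →* (Y' ≃ₐ[K] Y'), Continuous ρ ∧ Function.Surjective ρ ∧
      ∀ h : Y ≃ₐ[K] Y, ρ h = 1 →
        ∀ (x : AlgebraicClosure K) (hx : x ∈ Y'), ((h ⟨x, hle hx⟩ : Y) : AlgebraicClosure K) = x := by
  let i : Y' →ₐ[K] Y := IntermediateField.inclusion hle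
  let _ : Algebra Y' Y := i.toRingHom.toAlgebra
  have : IsScalarTower K Y' Y := IsScalarTower.of_algebraMap_eq (fun x => (i.commutes x).symm)
  have hr : ∀ (g : Y ≃ₐ[K] Y) (x : Y'), g (i x) = i (AlgEquiv.restrictNormalHom Y' g x) := by
    intro g x
    exact (AlgEquiv.restrictNormal_commutes g Y' x).symm
  refine ⟨AlgEquiv.restrictNormalHom Y', ?_, AlgEquiv.restrictNormalHom_surjective Y, ?_⟩
  · refine continuous_of_continuousAt_one _ ?_
    rw [ContinuousAt, map_one, Filter.tendsto_def]
    intro s hs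
    obtain ⟨E, hE, hEs⟩ := (krullTopology_mem_nhds_one_iff K Y' s).1 hs
    rw [krullTopology_mem_nhds_one_iff]
    refine ⟨E.map i, (E.equivMap i).toLinearEquiv.finiteDimensional, ?_⟩
    intro g hg
    refine hEs ?_
    rw [SetLike.mem_coe, IntermediateField.mem_fixingSubgroup_iff] at hg ⊢
    intro x hx
    have h1 := hg (i x) ⟨x, hx, rfl⟩
    rw [hr] at h1
    exact i.injective h1
  · intro h hh x hx
    have h1 := hr h ⟨x, hx⟩
    rw [hh, AlgEquiv.one_apply] at h1
    have h2 : ((h (i ⟨x, hx⟩) : Y) : AlgebraicClosure K) = ((i ⟨x, hx⟩ : Y) : AlgebraicClosure K) :=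
      congrArg _ h1
    exact h2

end Pool.Agent.RG
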