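import Mathlib
import Pool.Agent.Lib.RG.Defs
import Pool.Agent.Lib.RG.RDefs
import Pool.Agent.Lib.RG.G01
import Pool.Agent.Lib.RG.G02
import Pool.Agent.Lib.RG.G03
import Pool.Agent.Lib.RG.G07
import Pool.Agent.Lib.RG.G08

/-!
RG v2, row R2: the compositum of `K` with the maximal `p`-extension of `ℚ` unramified outside `S₁` is
contained in the maximal `p`-extension of `K` unramified outside `S'`, when `S'` contains all primes of
`K` above `S₁`.

Proof. `x` lies in a layer `L` of `X₁` (finite Galois over `ℚ`; `FiniteGaloisIntermediateField.adjoin`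
as in `eq_of_layers`, G08). Let `N := K(f(i L))` in `Ω := AlgebraicClosure K`, i.e.
`IntermediateField.adjoin K (f ∘ i '' L)`: a number field, finite over `K`, Galois over `K` (it is the
splitting field over `K` of the polynomials which define `L`; or: every `K`-embedding of `N` in `Ω`
maps `f(i L)` to itself since `L / ℚ` is normal). Restriction `Gal(N/K) → Gal(L/ℚ)` is an injective
homomorphism (an automorphism of `N` trivial on `K` and on `f(i L)` is trivial), so
`Nat.card (N ≃ₐ[K] N)` divides `Nat.card (L ≃ₐ[ℚ] L) = [L : ℚ] = p ^ k` (`hX₁.deg`), and `[N : K]` is a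
power of `p` (`Nat.dvd_prime_pow`). Unramified: let `w` be a prime of `N` not lying above a prime of
`S'`, `σ` inert at `w`. Let `v` be the prime of `K` below `w` and `u` the prime of `L` below `w`
(`exists_below`). `u` is not above a `q ∈ S₁`: otherwise `w` and `v` are above `q` (`Lies.above_iff`), so
`v ∈ S'`. The restriction of `σ` (as a `ℚ`-automorphism of `N`) to `L` is inert at `u`
(`IsInert.restrict`), so it is trivial (`hX₁.unr L`), hence `σ = 1`. So `N` is in the class and
`f (i x) ∈ N ≤ maxExtP p S'` (`le_sSup`).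
-/

set_option autoImplicit false

namespace Pool.Agent.RG

open NumberField IsDedekindDomain

namespace R2aux

theorem exists_res' {K L N : Type} [Field K] [NumberField K] [Field L] [NumberField L] [Field N]
    [NumberField N] [IsGalois ℚ L] [Algebra K N] (j : L →+* N) (σ : N ≃ₐ[K] N) :
    ∃ τ : L ≃ₐ[ℚ] L, ∀ x, σ (j x) = j (τ x) := by
  have : IsScalarTower ℚ K N := inferInstance
  exact G07aux.exists_res j (σ.restrictScalars ℚ)

theorem pow_comm' {K L N : Type} [Field K] [NumberField K] [Field L] [NumberField L] [Field N]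
    [NumberField N] [Algebra K N] (j : L →+* N) (σ : N ≃ₐ[K] N) (τ : L ≃ₐ[ℚ] L)
    (h : ∀ x, σ (j x) = j (τ x)) (n : ℕ) (x : L) : (σ ^ n) (j x) = j ((τ ^ n) x) := by
  induction n generalizing x with
  | zero => simp
  | succ n ih => rw [pow_succ, pow_succ, AlgEquiv.mul_apply, AlgEquiv.mul_apply, h, ih]

theorem degree {p : ℕ} [Fact p.Prime] {K L N : Type} [Field K] [NumberField K] [Field L]
    [NumberField L] [Field N] [NumberField N] [IsGalois ℚ L] [Algebra K N]
    [FiniteDimensional K N] [IsGalois K N] (j : L →+* N)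
    (hgen : ∀ σ : N ≃ₐ[K] N, (∀ x, σ (j x) = j x) → σ = 1)
    (hd : ∃ k, Module.finrank ℚ L = p ^ k) : ∃ k, Module.finrank K N = p ^ k := by
  obtain ⟨k, hk⟩ := hd
  have hp : IsPGroup p (N ≃ₐ[K] N) := by
    intro σ
    refine ⟨k, hgen _ fun x => ?_⟩
    obtain ⟨τ, hτ⟩ := exists_res' j σ
    have e : τ ^ p ^ k = 1 := by
      rw [← hk, ← IsGalois.card_aut_eq_finrank]
      exact pow_card_eq_one'
    rw [pow_comm' j σ τ hτ, e]
    rfl
  obtain ⟨n, hn⟩ := IsPGroup.iff_card.1 hp
  exact ⟨n, by rw [← hn, IsGalois.card_aut_eq_finrank]⟩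

theorem unr {S₁ : Finset ℕ} {K L N : Type} [Field K] [NumberField K] [Field L]
    [NumberField L] [Field N] [NumberField N] [IsGalois ℚ L] [Algebra K N] (j : L →+* N)
    (hgen : ∀ σ : N ≃ₐ[K] N, (∀ x, σ (j x) = j x) → σ = 1)
    {S' : Set (HeightOneSpectrum (𝓞 K))}
    (hS' : ∀ (v : HeightOneSpectrum (𝓞 K)), ∀ q ∈ S₁, Above v q → v ∈ S')
    (hL : UnrOutside S₁ L) : UnrP S' N := by
  intro w hw σ hσ
  refine hgen σ fun x => ?_
  obtain ⟨v, hv⟩ := exists_below (algebraMap K N) w
  obtain ⟨u, hu⟩ := exists_below j w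
  have : IsScalarTower ℚ K N := inferInstance
  obtain ⟨τ, hτ⟩ := G07aux.exists_res j (σ.restrictScalars ℚ)
  have hσ' : IsInert w (σ.restrictScalars ℚ) := hσ
  have h1 := IsInert.restrict hu hτ hσ'
  have h2 : τ = 1 := by
    refine hL u ?_ τ h1
    intro q hq hab
    exact hw v (hS' v q hq ((hv.above_iff q).1 ((hu.above_iff q).2 hab))) hv
  have h3 : σ (j x) = j (τ x) := hτ x
  rw [h3, h2]
  rfl

theorem compositum {p : ℕ} [Fact p.Prime] {S₁ : Finset ℕ} {K : Type} [Field K] [NumberField K]
    {S' : Set (HeightOneSpectrum (𝓞 K))}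
    (hS' : ∀ (v : HeightOneSpectrum (𝓞 K)), ∀ q ∈ S₁, Above v q → v ∈ S') {L : Type}
    [Field L] [NumberField L] [IsGalois ℚ L] (hd : ∃ k, Module.finrank ℚ L = p ^ k)
    (hL : UnrOutside S₁ L) (φ : L →+* AlgebraicClosure K) (y : L) : φ y ∈ maxExtP p S' := by
  obtain ⟨α, hα⟩ := Field.exists_primitive_element ℚ L
  let N : IntermediateField K (AlgebraicClosure K) := IntermediateField.adjoin K {φ α}
  have hmem : ∀ z, φ z ∈ N := by
    intro z
    let T : IntermediateField ℚ L := (N.toSubfield.comap φ).toIntermediateField fun q => by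
      rw [eq_ratCast]
      exact SubfieldClass.ratCast_mem _ q
    have h1 : IntermediateField.adjoin ℚ {α} ≤ T := by
      rw [IntermediateField.adjoin_simple_le_iff]
      exact IntermediateField.mem_adjoin_simple_self K (φ α)
    rw [hα] at h1
    exact h1 (IntermediateField.mem_top (x := z))
  have fd : FiniteDimensional K N :=
    IntermediateField.adjoin.finiteDimensional (Algebra.IsIntegral.isIntegral (φ α))
  have nf : NumberField N := NumberField.of_module_finite K N
  have nm : Normal K N := by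
    rw [IntermediateField.normal_iff_forall_map_le]
    intro σ
    rw [IntermediateField.adjoin_map, IntermediateField.adjoin_le_iff, Set.image_singleton,
      Set.singleton_subset_iff]
    let g : L →ₐ[ℚ] AlgebraicClosure K := φ.toRatAlgHom
    let e := AlgEquiv.ofInjectiveField g
    have hn : Normal ℚ L := IsGalois.to_normal
    have hn2 : @Normal ℚ g.fieldRange _ _ (IntermediateField.algebra' g.fieldRange) :=
      Normal.of_algEquiv (F := ℚ) (E := L) (E' := g.fieldRange) e
    let f := (σ.restrictScalars ℚ).comp g.fieldRange.val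
    have h1 : f.fieldRange = g.fieldRange := AlgHom.fieldRange_of_normal f
    have h2 : f ⟨φ α, ⟨α, rfl⟩⟩ ∈ f.fieldRange := ⟨_, rfl⟩
    rw [h1] at h2
    obtain ⟨β, hβ⟩ := h2
    have h3 : φ β = σ (φ α) := hβ
    rw [← h3]
    exact hmem β
  have gal : IsGalois K N := ⟨⟩
  let j : L →+* N := φ.codRestrict N hmem
  have hj : ∀ z, ((j z : N) : AlgebraicClosure K) = φ z := fun z => rfl
  have hgen : ∀ σ : N ≃ₐ[K] N, (∀ x, σ (j x) = j x) → σ = 1 := by
    intro σ h
    have h1 : (σ : N →ₐ[K] N) = AlgHom.id K N := by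
      refine IntermediateField.adjoin_algHom_ext K ?_
      intro x hx
      rw [Set.mem_singleton_iff] at hx
      subst hx
      exact h α
    refine AlgEquiv.ext fun x => ?_
    exact DFunLike.congr_fun h1 x
  have hN : InCP p S' N := ⟨nf, gal, degree j hgen hd, unr j hgen hS' hL⟩
  have hle : N ≤ maxExtP p S' := le_sSup hN
  exact hle (hmem y)

end R2aux

theorem mem_maxExtP {p : ℕ} [Fact p.Prime] {S₁ : Finset ℕ} {K : Type} [Field K] [NumberField K]
    {S' : Set (HeightOneSpectrum (𝓞 K))}
    (hS' : ∀ (v : HeightOneSpectrum (𝓞 K)), ∀ q ∈ S₁, Above v q → v ∈ S') {X₁ X : Type}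
    [Field X₁] [CharZero X₁] (hX₁ : MaxExt p S₁ X₁) [Field X] [CharZero X] [Algebra K X]
    (i : X₁ →ₐ[ℚ] X) (f : X →ₐ[K] AlgebraicClosure K) (x : X₁) : f (i x) ∈ maxExtP p S' := by
  have hgal := hX₁.gal
  let L := FiniteGaloisIntermediateField.adjoin ℚ {x}
  have hx : x ∈ L.toIntermediateField := FiniteGaloisIntermediateField.subset_adjoin _ _ rfl
  have h1 : NumberField L.toIntermediateField := @NumberField.mk _ _ _ L.finiteDimensional
  have h2 : IsGalois ℚ L.toIntermediateField := L.isGalois
  exact R2aux.compositum hS' (hX₁.deg L.toIntermediateField) (hX₁.unr L.toIntermediateField)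
    ((f.toRingHom.comp i.toRingHom).comp L.toIntermediateField.val.toRingHom) ⟨x, hx⟩

end Pool.Agent.RG
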