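import Mathlib
import Pool.Agent.Lib.RG.PMain
import Pool.Agent.Lib.RG.K07

/-!
RG v2, row R3 (group theory): passing to an open subgroup and then to a quotient between.

Proof. `R := Φ.range`, open, `c := R.index ≠ 0`. For `ε > 0` take `V`, `n` from `hV` for `ε / c`.
`V' := V ⊓ R`: open, `GenBy V' (V'.relIndex V * n)` (K07), `V'.relIndex V * n ≤ (ε / c) * V'.index` and
`V'.index = (V'.relIndex R) * c`. `W := V.comap Φ = V'.comap Φ` has index `V'.relIndex R` in `H`, and
`GenBy W N`, `N := V'.relIndex V * n` (exactly as in K09, `rg_of_embedding`, `Φ` is a closed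
embedding). `U := W.map ρ`: `ρ` is an open map (a continuous surjective hom of compact Hausdorff groups),
so `U` is open; `ρ.ker ≤ W` (`hk`: `Φ h ∈ π.ker ≤ V`), so `U.index = W.index`
(`Subgroup.index_map_of_...`/`comap_map_eq_self`, `index_comap_of_surjective`); `GenBy U N`: images of the
generators (`ρ` closed map). So `N ≤ ε * U.index`.
Infinite: the kernel of `ρ` is contained in the kernel of `π ∘ Φ`, so the image of `π ∘ Φ` is a
quotient of `H'`; this image is `π '' R`, open in `G` (`π` is an open map), hence infinite because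
`G` is infinite and the image has finite index.
-/

set_option autoImplicit false

namespace Pool.Agent.RG

theorem R3_group {Γ G H H' : Type} [Group Γ] [TopologicalSpace Γ] [IsTopologicalGroup Γ]
    [CompactSpace Γ] [T2Space Γ] [Group G] [TopologicalSpace G] [IsTopologicalGroup G]
    [CompactSpace G] [T2Space G] [Group H] [TopologicalSpace H] [IsTopologicalGroup H]
    [CompactSpace H] [T2Space H] [Group H'] [TopologicalSpace H'] [IsTopologicalGroup H']
    [CompactSpace H'] [T2Space H'] (π : Γ →* G) (hπ : Continuous π)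
    (hs : Function.Surjective π) (hG : Infinite G)
    (hV : ∀ ε : ℝ, 0 < ε → ∃ (V : Subgroup Γ) (n : ℕ), IsOpen (V : Set Γ) ∧ π.ker ≤ V ∧
      GenBy V n ∧ (n : ℝ) ≤ ε * V.index)
    (Φ : H →* Γ) (hΦ : Continuous Φ) (hi : Function.Injective Φ)
    (ho : IsOpen (Φ.range : Set Γ)) (ρ : H →* H') (hρ : Continuous ρ)
    (hρs : Function.Surjective ρ) (hk : ∀ h, ρ h = 1 → π (Φ h) = 1) :
    Infinite H' ∧ ∀ ε : ℝ, 0 < ε → ∃ (U : Subgroup H') (n : ℕ), IsOpen (U : Set H') ∧
      GenBy U n ∧ ((n : ℝ) - 1) ≤ ε * U.index := by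
  classical
  have hRq : Finite (Γ ⧸ Φ.range) := Subgroup.quotient_finite_of_isOpen _ ho
  have hRfin : Φ.range.FiniteIndex := Subgroup.finiteIndex_of_finite_quotient
  have hRi : Φ.range.index ≠ 0 := hRfin.index_ne_zero
  have hH : Infinite H' := by
    by_contra hcon
    rw [not_infinite_iff_finite] at hcon
    have h1 : ρ.ker.index ≠ 0 := by
      rw [Subgroup.index_ker]
      exact Nat.card_pos.ne'
    have hle : ρ.ker ≤ (π.comp Φ).ker := fun h hh => hk h hh
    have h2 : (π.comp Φ).ker.index ≠ 0 := fun h0 => by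
      have h3 := Subgroup.index_dvd_of_le hle
      rw [h0, zero_dvd_iff] at h3
      exact h1 h3
    rw [Subgroup.index_ker, ← MonoidHom.map_range] at h2
    have h4 : (Φ.range.map π).index ≠ 0 := fun h0 => by
      have h5 := Subgroup.index_map_dvd (H := Φ.range) hs
      rw [h0, zero_dvd_iff] at h5
      exact hRi h5
    have h6 := Subgroup.card_mul_index (Φ.range.map π)
    have h7 : Nat.card G ≠ 0 := by
      rw [← h6]
      exact mul_ne_zero h2 h4
    have h8 : Finite G := Nat.finite_of_card_ne_zero h7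
    exact not_finite G
  refine ⟨hH, fun ε hε => ?_⟩
  obtain ⟨c, hcd⟩ : ∃ c, c = Φ.range.index := ⟨_, rfl⟩
  have hc0 : (0 : ℝ) < c := by
    have : 0 < c := by rw [hcd]; exact Nat.pos_of_ne_zero hRi
    exact_mod_cast this
  obtain ⟨U, n, hUo, hUk, hUn, hn⟩ := hV (ε / c) (by positivity)
  obtain ⟨V, hV'⟩ : ∃ V, V = U ⊓ Φ.range := ⟨_, rfl⟩
  have hVo : IsOpen (V : Set Γ) := by
    rw [hV']
    exact hUo.inter ho
  have hVU : V ≤ U := by rw [hV']; exact inf_le_left
  have hVR : V ≤ Φ.range := by rw [hV']; exact inf_le_right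
  obtain ⟨j, hj⟩ : ∃ j, j = V.relIndex U := ⟨_, rfl⟩
  obtain ⟨T, hTn, hTV⟩ := genBy_of_le hUn hVo hVU
  rw [← hj] at hTn
  have hTV' : ∀ x ∈ T, x ∈ V := fun x hx => by
    rw [← hTV]
    exact Subgroup.le_topologicalClosure _ (Subgroup.subset_closure hx)
  obtain ⟨W, hW⟩ : ∃ W, W = V.comap Φ := ⟨_, rfl⟩
  have hWo : IsOpen (W : Set H) := by
    rw [hW]
    exact hVo.preimage hΦ
  have hWi : W.index = V.relIndex Φ.range := by
    rw [hW, Subgroup.index_comap]
  have hVi1 : V.index = j * U.index := by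
    rw [hj, Subgroup.relIndex_mul_index hVU]
  have hVi2 : V.index = W.index * c := by
    rw [hWi, hcd, Subgroup.relIndex_mul_index hVR]
  -- the generators of W
  have hemb : Topology.IsClosedEmbedding Φ := hΦ.isClosedEmbedding hi
  obtain ⟨T', hT'⟩ : ∃ T' : Finset H, T'.card ≤ j * n ∧ (T' : Set H) = Φ ⁻¹' (T : Set Γ) := by
    refine ⟨T.preimage Φ hi.injOn, ?_, by simp⟩
    refine (Finset.card_le_card_of_injOn Φ (fun x hx => ?_) hi.injOn).trans hTn
    simpa using hx
  have himg : Φ '' (Φ ⁻¹' (T : Set Γ)) = (T : Set Γ) := by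
    rw [Set.image_preimage_eq_iff]
    intro x hx
    exact hVR (hTV' x hx)
  have hclos : (Subgroup.closure (T' : Set H)).topologicalClosure = W := by
    apply SetLike.coe_injective
    have h1 : Φ '' ((Subgroup.closure (T' : Set H)).topologicalClosure : Set H) = (V : Set Γ) := by
      rw [Subgroup.topologicalClosure_coe, ← hemb.closure_image_eq, ← Subgroup.coe_map,
        MonoidHom.map_closure, hT'.2, himg, ← Subgroup.topologicalClosure_coe, hTV]
    have h2 : (W : Set H) = Φ ⁻¹' (V : Set Γ) := by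
      rw [hW]
      rfl
    rw [h2, ← h1, Set.preimage_image_eq _ hi]
  -- the image in H'
  have hkW : ρ.ker ≤ W := by
    intro h hh
    have h1 : π (Φ h) = 1 := hk h hh
    rw [hW, Subgroup.mem_comap, hV']
    exact ⟨hUk h1, ⟨h, rfl⟩⟩
  have hρc : IsClosedMap ρ := hρ.isClosedMap
  have hWq : Finite (H ⧸ W) := Subgroup.quotient_finite_of_isOpen _ hWo
  have hWf : W.FiniteIndex := Subgroup.finiteIndex_of_finite_quotient
  have hcm : (W.map ρ).comap ρ = W := Subgroup.comap_map_eq_self hkW
  have hidx : (W.map ρ).index = W.index := by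
    have h1 := Subgroup.index_comap_of_surjective (W.map ρ) hρs
    rw [hcm] at h1
    exact h1.symm
  have hWcl : IsClosed (W : Set H) := Subgroup.isClosed_of_isOpen W hWo
  have hUcl : IsClosed ((W.map ρ : Subgroup H') : Set H') := hρc _ hWcl
  have hUf : (W.map ρ).FiniteIndex := ⟨by rw [hidx]; exact hWf.index_ne_zero⟩
  have hUopen : IsOpen ((W.map ρ : Subgroup H') : Set H') :=
    Subgroup.isOpen_of_isClosed_of_finiteIndex _ hUcl
  have hgen : GenBy (W.map ρ) (j * n) := by
    refine ⟨T'.image ρ, Finset.card_image_le.trans hT'.1, ?_⟩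
    apply SetLike.coe_injective
    rw [Subgroup.topologicalClosure_coe, Finset.coe_image, ← MonoidHom.map_closure,
      Subgroup.coe_map, hρc.closure_image_eq_of_continuous hρ, ← Subgroup.topologicalClosure_coe,
      hclos, Subgroup.coe_map]
  refine ⟨W.map ρ, j * n, hUopen, hgen, ?_⟩
  rw [hidx]
  have e1 : (V.index : ℝ) = j * U.index := by exact_mod_cast hVi1
  have e2 : (V.index : ℝ) = W.index * c := by exact_mod_cast hVi2
  have e3 : (j : ℝ) * n ≤ j * (ε / c * U.index) :=
    mul_le_mul_of_nonneg_left hn (by positivity)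
  have e4 : (j : ℝ) * (ε / c * U.index) = ε * W.index := by
    have : (j : ℝ) * (ε / c * U.index) = ε / c * (j * U.index) := by ring
    rw [this, ← e1, e2]
    field_simp
  push_cast
  linarith

end Pool.Agent.RG
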