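import Mathlib
import Pool.Agent.Lib.RG.Defs
import Pool.Agent.Lib.RG.G01
import Pool.Agent.Lib.RG.G02
import Pool.Agent.Lib.RG.G03
import Pool.Agent.Lib.RG.G04
import Pool.Agent.Lib.RG.E32

/-!
PART K, row K10: a tame Galois `p`-extension of `ℚ` is ramified only at primes `1 mod p`.

Proof. `R :=` the finite set of ramified primes (`finite_ramified`, E32). If `w` is not above a
prime of `R` then, `w` being above some prime `ℓ` (`exists_prime_above`), every inert `σ` at `w` is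
`1`. Let `ℓ ∈ R`: `w` above `ℓ`, `σ ≠ 1` inert at `w`. `ℓ ≠ p` by `ht`. `s` a Frobenius at `w`
(`exists_frob`), `s σ s⁻¹ = σ ^ ℓ` (`tame_relation`). Let `p ^ a` be the order of `σ`, `a ≥ 1`
(`Gal` is a `p`-group). Replacing `σ` by `σ ^ (p ^ (a - 1))` (inert as well) we may assume
`orderOf σ = p`. `s ^ (p ^ b) = 1` for some `b`, so `σ = s ^ (p ^ b) σ s ^ (-p ^ b) =
σ ^ (ℓ ^ (p ^ b))`, so `ℓ ^ (p ^ b) = 1 mod p`; but `ℓ ^ (p ^ b) = ℓ mod p` (Fermat), hence
`ℓ % p = 1` (`p` is prime, so `1 % p = 1`).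
-/

set_option autoImplicit false

namespace Pool.Agent.RG

open NumberField IsDedekindDomain

theorem exists_ramified_set {p : ℕ} [Fact p.Prime] {M : Type} [Field M] [NumberField M]
    [IsGalois ℚ M] (hd : ∃ k, Module.finrank ℚ M = p ^ k)
    (ht : ∀ w : HeightOneSpectrum (𝓞 M), Above w p → ∀ σ : M ≃ₐ[ℚ] M, IsInert w σ → σ = 1) :
    ∃ R : Finset ℕ, (∀ q ∈ R, q.Prime ∧ q % p = 1) ∧ UnrOutside R M := by
  have hp := (Fact.out : p.Prime)
  obtain ⟨k, hk⟩ := hd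
  refine ⟨(finite_ramified M).toFinset, fun q hq => ?_, fun w hw σ hσ => ?_⟩
  · rw [Set.Finite.mem_toFinset] at hq
    obtain ⟨hqp, w, hw, σ, hσ, hne⟩ := hq
    refine ⟨hqp, ?_⟩
    have hqne : q ≠ p := by
      rintro rfl
      exact hne (ht w hw σ hσ)
    obtain ⟨s, hs⟩ := exists_frob hqp hw
    have hpow : ∀ g : M ≃ₐ[ℚ] M, g ^ (p ^ k) = 1 := fun g => by
      rw [← hk, ← IsGalois.card_aut_eq_finrank]
      exact pow_card_eq_one'
    obtain ⟨a, ha, hord⟩ := (Nat.dvd_prime_pow hp).1 (orderOf_dvd_of_pow_eq_one (hpow σ))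
    have ha0 : a ≠ 0 := by
      rintro rfl
      rw [pow_zero, orderOf_eq_one_iff] at hord
      exact hne hord
    obtain ⟨b, rfl⟩ := Nat.exists_eq_succ_of_ne_zero ha0
    have hτo : orderOf (σ ^ (p ^ b)) = p := by
      rw [orderOf_pow' σ (pow_ne_zero _ hp.ne_zero), hord, Nat.succ_eq_add_one, pow_succ,
        Nat.gcd_mul_right_left, Nat.mul_div_cancel_left _ (pow_pos hp.pos _)]
    have hτi : IsInert w (σ ^ (p ^ b)) :=
      (inertiaGroup (M ≃ₐ[ℚ] M) w).pow_mem (x := σ) hσ (p ^ b)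
    generalize σ ^ (p ^ b) = τ at hτo hτi
    have hrel := tame_relation hk hqp hqne hw hτi hs
    have hrel' : ∀ n : ℕ, s ^ n * τ * (s ^ n)⁻¹ = τ ^ (q ^ n) := fun n => by
      induction n with
      | zero => simp
      | succ n ih =>
        have h1 : s ^ (n + 1) * τ * (s ^ (n + 1))⁻¹ = s * (s ^ n * τ * (s ^ n)⁻¹) * s⁻¹ := by
          rw [pow_succ']; group
        rw [h1, ih, ← conj_pow, hrel, ← pow_mul, pow_succ, mul_comm q]
    have h2 := hrel' (p ^ k)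
    rw [hpow s, one_mul, inv_one, mul_one] at h2
    have h3 : τ ^ 1 = τ ^ (q ^ (p ^ k)) := by rw [pow_one]; exact h2
    rw [pow_eq_pow_iff_modEq, hτo, ← ZMod.natCast_eq_natCast_iff] at h3
    push_cast at h3
    rw [ZMod.pow_card_pow] at h3
    have h4 : ((q : ℕ) : ZMod p) = ((1 : ℕ) : ZMod p) := by rw [← h3]; simp
    rw [ZMod.natCast_eq_natCast_iff'] at h4
    rw [h4, Nat.mod_eq_of_lt hp.one_lt]
  · obtain ⟨ℓ, hℓ, hab⟩ := exists_prime_above w
    by_contra hne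
    refine hw ℓ ?_ hab
    rw [Set.Finite.mem_toFinset]
    exact ⟨hℓ, w, hab, σ, hσ, hne⟩

end Pool.Agent.RG
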