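import Mathlib
import Pool.Agent.Lib.RG.Defs
import Pool.Agent.Lib.RG.RDefs
import Pool.Agent.Lib.RG.G01
import Pool.Agent.Lib.RG.G02
import Pool.Agent.Lib.RG.G03
import Pool.Agent.Lib.RG.G04
import Pool.Agent.Lib.RG.K10

/-!
RG v2, row R4: residue characteristics.

`above_mod`: `K` embeds into `M`, Galois of degree `p ^ k` over `ℚ`. Let `v` be a prime of `K` above the
prime number `q` with `absNorm v % p = 1`. Then `q % p = 1`. Proof: `absNorm v = q ^ f`
(`Ideal.absNorm`, residue field of characteristic `q`), and `f` is a power of `p`: `f` divides the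
inertia degree of a prime `w` of `M` above `v` (multiplicativity), which divides `[M : ℚ] = p ^ k`
(`M / ℚ` Galois; `Ideal.ncard_primesOver_mul_ramificationIdxIn_mul_inertiaDegIn`, or: the order of the
quotient decomposition group by inertia). So `q ^ f = q` mod `p` (Fermat, `ZMod.pow_card_pow`), and
`q % p = 1`. A possible shortcut for the exponent: `M / ℚ` Galois, the inertia degree of `w` over `ℚ`
divides the degree.

`ramified_mod` : same proof as in K10 (`exists_ramified_set`), in fact take `R` from there: the prime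
`q` below `w` must be in `R`, otherwise `σ = 1`.
-/

set_option autoImplicit false

namespace Pool.Agent.RG

open NumberField IsDedekindDomain

theorem above_mod {p : ℕ} [Fact p.Prime] {K M : Type} [Field K] [NumberField K] [Field M]
    [NumberField M] [IsGalois ℚ M] (hd : ∃ k, Module.finrank ℚ M = p ^ k) (j : K →+* M)
    {v : HeightOneSpectrum (𝓞 K)} {q : ℕ} (hq : q.Prime) (hv : Above v q)
    (h : Ideal.absNorm v.asIdeal % p = 1) : q % p = 1 := by
  have hp := (Fact.out : p.Prime)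
  obtain ⟨k, hk⟩ := hd
  obtain ⟨w, hw⟩ := exists_above j v
  have hwq : Above w q := (hw.above_iff q).2 hv
  let _ : Algebra K M := j.toAlgebra
  have hlo : w.asIdeal.LiesOver v.asIdeal := by
    constructor
    ext x
    rw [Ideal.mem_comap, ← G01aux.mem_iff, ← G01aux.mem_iff, ← (hw _).2]
    rfl
  have hv' : v.asIdeal.LiesOver (Ideal.span {(q : ℤ)}) := ⟨(G03aux.under_eq hq hv).symm⟩
  have hw' : w.asIdeal.LiesOver (Ideal.span {(q : ℤ)}) := ⟨(G03aux.under_eq hq hwq).symm⟩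
  have hqprime : (Ideal.span {(q : ℤ)}).IsPrime :=
    (Ideal.span_singleton_prime (by exact_mod_cast hq.ne_zero)).2 (Nat.prime_iff_prime_int.1 hq)
  have hqmax : (Ideal.span {(q : ℤ)}).IsMaximal :=
    hqprime.isMaximal (by
      rw [Ne, Ideal.span_singleton_eq_bot]
      exact_mod_cast hq.ne_zero)
  have h1 : v.asIdeal.inertiaDeg ℤ ∣ w.asIdeal.inertiaDeg ℤ :=
    Ideal.inertiaDeg_below_dvd v.asIdeal w.asIdeal
  have h2 : w.asIdeal.inertiaDeg ℤ ∣ p ^ k := by
    have hG := IsGaloisGroup.of_isFractionRing (M ≃ₐ[ℚ] M) ℤ (𝓞 M) ℚ M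
    have h3 := Ideal.ncard_primesOver_mul_ramificationIdxIn_mul_inertiaDegIn
      (Ideal.span {(q : ℤ)}) (𝓞 M) (M ≃ₐ[ℚ] M)
    rw [IsGalois.card_aut_eq_finrank, hk,
      Ideal.inertiaDegIn_eq_inertiaDeg (Ideal.span {(q : ℤ)}) w.asIdeal (M ≃ₐ[ℚ] M)] at h3
    rw [← h3]
    exact (dvd_mul_left _ _).trans (dvd_mul_left _ _)
  obtain ⟨a, -, ha⟩ := (Nat.dvd_prime_pow hp).1 (h1.trans h2)
  have h4 := Ideal.absNorm_eq_pow_inertiaDeg' v.asIdeal hq
  rw [Ideal.inertiaDeg'_eq_inertiaDeg, ha] at h4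
  have h5 : ((Ideal.absNorm v.asIdeal : ℕ) : ZMod p) = ((1 : ℕ) : ZMod p) := by
    rw [ZMod.natCast_eq_natCast_iff', h, Nat.mod_eq_of_lt hp.one_lt]
  rw [h4, Nat.cast_pow, ZMod.pow_card_pow] at h5
  rw [ZMod.natCast_eq_natCast_iff', Nat.mod_eq_of_lt hp.one_lt] at h5
  exact h5

/-- the prime number `q` is ramified in `M / ℚ` -/
def Ram (q : ℕ) (M : Type) [Field M] [NumberField M] : Prop :=
  ∃ (w : HeightOneSpectrum (𝓞 M)) (σ : M ≃ₐ[ℚ] M), Above w q ∧ IsInert w σ ∧ σ ≠ 1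

theorem ramified_set {p : ℕ} [Fact p.Prime] {M : Type} [Field M] [NumberField M] [IsGalois ℚ M]
    (hd : ∃ k, Module.finrank ℚ M = p ^ k) (ht : ¬ Ram p M) :
    ∃ R : Finset ℕ, (∀ q, q ∈ R ↔ q.Prime ∧ Ram q M) ∧ (∀ q ∈ R, q % p = 1) ∧
      UnrOutside R M := by
  classical
  obtain ⟨R, hR, hU⟩ := exists_ramified_set (p := p) hd (fun w hw σ hσ => by
    by_contra hne
    exact ht ⟨w, σ, hw, hσ, hne⟩)
  have key : ∀ q : ℕ, q.Prime → Ram q M → q ∈ R := by
    rintro q hq ⟨w, σ, hw, hσ, hne⟩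
    by_contra hqR
    refine hne (hU w (fun r hr hab => ?_) σ hσ)
    have := hw.unique hq (hR r hr).1 hab
    exact hqR (this ▸ hr)
  refine ⟨R.filter fun q => Ram q M, fun q => ?_, fun q hq => ?_, fun w hw σ hσ => ?_⟩
  · rw [Finset.mem_filter]
    exact ⟨fun h => ⟨(hR q h.1).1, h.2⟩, fun h => ⟨key q h.1 h.2, h.2⟩⟩
  · exact (hR q (Finset.mem_filter.1 hq).1).2
  · by_contra hne
    obtain ⟨ℓ, hℓ, hab⟩ := exists_prime_above w
    have hram : Ram ℓ M := ⟨w, σ, hab, hσ, hne⟩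
    exact hw ℓ (Finset.mem_filter.2 ⟨key ℓ hℓ hram, hram⟩) hab

end Pool.Agent.RG
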