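import Mathlib
import Pool.Agent.Lib.RG.RDefs
import Pool.Agent.Lib.RG.R1
import Pool.Agent.Lib.RG.R2
import Pool.Agent.Lib.RG.R3
import Pool.Agent.Lib.RG.R4
import Pool.Agent.Lib.RG.M5
import Pool.Agent.Lib.RG.GX3
import Pool.Agent.Lib.RG.K05
import Pool.Agent.Lib.RG.R5
import Pool.Agent.Lib.RG.G14
import Pool.Agent.Lib.RG.QTop

/-!
RG v2: rank gradient zero over all tame bases, for all sets `S` of primes of `K` which contain the
primes above a good set `S₁` and no prime which splits completely in the maximal extension.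
-/

set_option autoImplicit false

namespace Pool.Agent.RG

open NumberField IsDedekindDomain

/-- the primes of `K` in `S` have finitely many residue characteristics -/
theorem finite_chars {K : Type} [Field K] [NumberField K] {S' : Set (HeightOneSpectrum (𝓞 K))}
    (hfin : S'.Finite) : ∃ T : Finset ℕ, ∀ q, q ∈ T ↔ q.Prime ∧ ∃ v ∈ S', Above v q := by
  classical
  choose r hr using fun v : HeightOneSpectrum (𝓞 K) => exists_prime_above v
  refine ⟨hfin.toFinset.image r, fun q => ?_⟩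
  rw [Finset.mem_image]
  constructor
  · rintro ⟨v, hv, rfl⟩
    exact ⟨(hr v).1, v, (Set.Finite.mem_toFinset _).1 hv, (hr v).2⟩
  · rintro ⟨hq, v, hv, hvq⟩
    exact ⟨v, (Set.Finite.mem_toFinset _).2 hv, Above.unique (hr v).1 hq (hr v).2 hvq⟩

theorem rank_gradient_mono {p : ℕ} [Fact p.Prime] (hp : p ≠ 2) {S₁ : Finset ℕ}
    (hS₁ : ∀ q ∈ S₁, q.Prime ∧ q % p = 1) (hne : S₁.Nonempty)
    (lam : ∀ r : S₁, (ZMod (r : ℕ))ˣ →* Multiplicative (ZMod p))
    (hlam : ∀ r, Function.Surjective (lam r)) (hcrit : Q.Criterion (link lam))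
    {K M : Type} [Field K] [NumberField K] [Field M] [NumberField M] [IsGalois ℚ M]
    (hd : ∃ k, Module.finrank ℚ M = p ^ k) (ht : ¬ Ram p M) (j : K →+* M)
    (S' : Set (HeightOneSpectrum (𝓞 K))) (hfin : S'.Finite)
    (hN : ∀ v ∈ S', Ideal.absNorm v.asIdeal % p = 1)
    (hcont : ∀ v : HeightOneSpectrum (𝓞 K), ∀ q ∈ S₁, Above v q → v ∈ S')
    (hns : ∀ q : ℕ, q.Prime → q ∉ S₁ → ((∃ v ∈ S', Above v q) ∨ Ram q M) → NotSplit p S₁ q) :
    Infinite (GP p S') ∧ rankGradient (GP p S') = 0 := by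
  classical
  -- the good set
  have hX₁ := maxExt_KS p S₁
  have hgal₁ := hX₁.gal
  obtain ⟨κ, hκ1, -, hκ3⟩ := exists_KD hp hS₁ lam hlam hX₁
  have hne' : Nonempty S₁ := hne.to_subtype
  obtain ⟨hG, hRG, htf⟩ := Q.rank_gradient_criterion p hp (KS p S₁ ≃ₐ[ℚ] KS p S₁)
    (fun U hN hU => hX₁.pro_p U hN hU) κ hκ1 (link lam) hκ3 hcrit
  -- the set of rational primes
  obtain ⟨R, hR1, hR2, hR3⟩ := ramified_set hd ht
  obtain ⟨T, hT⟩ := finite_chars hfin
  set S : Finset ℕ := S₁ ∪ (T ∪ R) with hS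
  have hSp : ∀ q ∈ S, q.Prime ∧ q % p = 1 := by
    intro q hq
    rcases Finset.mem_union.1 hq with h | h
    · exact hS₁ q h
    · rcases Finset.mem_union.1 h with h | h
      · obtain ⟨hq, v, hv, hvq⟩ := (hT q).1 h
        exact ⟨hq, above_mod hd j hq hvq (hN v hv)⟩
      · exact ⟨((hR1 q).1 h).1, hR2 q h⟩
  have hnsS : ∀ q ∈ S, q ∉ S₁ → NotSplit p S₁ q := by
    intro q hq hq1
    rcases Finset.mem_union.1 hq with h | h
    · exact absurd h hq1
    · rcases Finset.mem_union.1 h with h | h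
      · obtain ⟨hq, v, hv, hvq⟩ := (hT q).1 h
        exact hns q hq hq1 (Or.inl ⟨v, hv, hvq⟩)
      · exact hns q ((hR1 q).1 h).1 hq1 (Or.inr ((hR1 q).1 h).2)
  obtain ⟨i, π, hπc, hπs, hπi, hV⟩ := mono_Q (Finset.subset_union_left) hSp hnsS hG hRG htf
  -- the base field
  have hX := maxExt_KS p S
  have hgal := hX.gal
  have huM : UnrOutside S M :=
    hR3.mono ((Finset.subset_union_right).trans Finset.subset_union_right)
  obtain ⟨g⟩ := hX.max M hd huM
  let _ : Algebra K (KS p S) := ((g : M →+* KS p S).comp j).toAlgebra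
  obtain ⟨e⟩ := exists_iso (K := K) hX
  obtain ⟨hgY, Φ, hΦc, hΦi, hΦo, hΦv⟩ := exists_embedding_val e
  have hle : maxExtP p S' ≤ maxExtension p S K := by
    refine maxExtP_le fun v hv => ?_
    obtain ⟨q, hq, hvq⟩ := exists_prime_above v
    exact ⟨q, Finset.mem_union_right _ (Finset.mem_union_left _ ((hT q).2 ⟨hq, v, hv, hvq⟩)), hvq⟩
  have hgP := isGalois_maxExtP p S'
  obtain ⟨ρ, hρc, hρs, hρk⟩ := exists_quot hle
  have hk : ∀ h, ρ h = 1 → π (Φ h) = 1 := by
    intro h hh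
    refine AlgEquiv.ext fun x => i.injective ?_
    change i (π (Φ h) x) = i x
    rw [← hπi, hΦv]
    have h1 : (maxExtension p S K).val (e (i x)) ∈ maxExtP p S' :=
      mem_maxExtP hcont hX₁ i ((maxExtension p S K).val.comp (e : KS p S →ₐ[K] maxExtension p S K)) x
    have h2 := hρk h hh _ h1
    have h3 : h (e (i x)) = e (i x) := Subtype.ext h2
    rw [h3, e.symm_apply_apply]
  obtain ⟨h1, h2⟩ := R3_group π hπc hπs hG hV Φ hΦc hΦi hΦo ρ hρc hρs hk
  exact ⟨h1, rankGradient_eq_zero h1 h2⟩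

end Pool.Agent.RG
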