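import Mathlib

/-!
RG campaign, D01: a proper subgroup of `(ℤ/p)^ι` is killed by a non-zero linear form.
(Submodule over `ZMod p`, e.g. `AddSubgroup.toZModSubmodule`, then `Submodule.exists_le_ker_of_lt_top`
or `Submodule.exists_dual_forall_apply_eq_zero_iff`; write the form by its values on `Pi.single i 1`.)
-/

set_option autoImplicit false

namespace Pool.Agent.RG

theorem exists_form (p : ℕ) [Fact p.Prime] {ι : Type} [Fintype ι] (W : AddSubgroup (ι → ZMod p))
    (hW : W ≠ ⊤) : ∃ c : ι → ZMod p, c ≠ 0 ∧ ∀ w ∈ W, ∑ i, c i * w i = 0 := by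
  classical
  obtain ⟨W', hW'⟩ : ∃ W' : Submodule (ZMod p) (ι → ZMod p), W' = AddSubgroup.toZModSubmodule p W :=
    ⟨_, rfl⟩
  have hm : ∀ w, w ∈ W' ↔ w ∈ W := fun w => by
    rw [hW']; exact AddSubgroup.mem_toZModSubmodule p
  have hlt : W' < ⊤ := by
    rw [lt_top_iff_ne_top]
    intro h
    apply hW
    rw [eq_top_iff]
    intro w _
    rw [← hm, h]
    trivial
  obtain ⟨f, hf, hfW⟩ := Submodule.exists_le_ker_of_lt_top W' hlt
  refine ⟨fun i => f (Pi.single i 1), ?_, fun w hw => ?_⟩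
  · intro h
    apply hf
    refine LinearMap.pi_ext' fun i => ?_
    refine LinearMap.ext_ring ?_
    exact congrFun h i
  · have h1 : f w = 0 := hfW ((hm w).2 hw)
    rw [pi_eq_sum_univ' w, map_sum] at h1
    rw [← h1]
    refine Finset.sum_congr rfl fun i _ => ?_
    rw [map_smul, smul_eq_mul, mul_comm]

end Pool.Agent.RG
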