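import Mathlib
import Pool.Agent.Lib.RG.Pattern

/-!
RG campaign, PART D: common definitions.
-/

set_option autoImplicit false

namespace Pool.Agent.RG

open NumberField IsDedekindDomain

/-- the algebraic closure of the rational numbers -/
abbrev Om : Type := AlgebraicClosure ℚ

/-- `σ` fixes the `M`-th roots of unity -/
def FixMu (M : ℕ) (σ : Om ≃ₐ[ℚ] Om) : Prop := ∀ ξ : Om, ξ ^ M = 1 → σ ξ = ξ

/-- The set of prime numbers `l` which are the norm of a prime of the number field `N` -/
def TN (N : Type) [Field N] [NumberField N] : Set ℕ :=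
  {l | l.Prime ∧ ∃ w : HeightOneSpectrum (𝓞 N), Ideal.absNorm w.asIdeal = l}

/-- `σ` is a Frobenius at the prime `Q`, which lies above `l` -/
structure Frb (L : Type) [Field L] [NumberField L] (l : ℕ) (Q : Ideal (𝓞 L))
    (σ : L ≃ₐ[ℚ] L) : Prop where
  pr : Q.IsPrime
  mem : (l : 𝓞 L) ∈ Q
  frob : ∀ x : 𝓞 L, σ • x - x ^ l ∈ Q

end Pool.Agent.RG
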