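import Mathlib
import Pool.Agent.Lib.RG.DDefs

/-!
RG campaign, D02: a rational number which becomes a `p`-th power in `ℚ(ζ_M)` is a `p`-th power
(`p` odd).

Proof. Let `ζ` be a primitive `p`-th root of unity, `g` an automorphism of `Om` with `g ζ = ζ ^ 2`
(minimal polynomial = cyclotomic polynomial; `p` odd). Let `σ` fix `ζ`. Then `g⁻¹ σ⁻¹ g σ`, hence also
every commutator, fixes the `M`-th roots of unity (automorphisms act on the cyclic group `μ_M` by
powers), so it fixes `c`: `σ (g c) = g (σ c)`. Write `σ c = ζ ^ k * c`, `g c = ζ ^ j * c` (the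
quotients are `p`-th roots of unity). Then `g (σ c) = ζ ^ (2 k) * ζ ^ j * c` and
`σ (g c) = ζ ^ j * ζ ^ k * c`, so `ζ ^ k = 1` and `σ c = c`. Hence `c` is fixed by all automorphisms
which fix `ζ`, i.e. `c ∈ ℚ⟮ζ⟯` (infinite Galois theory, or `minpoly ℚ⟮ζ⟯ c` has degree one).
With `E = ℚ⟮ζ⟯`, `[E : ℚ] = p - 1`: `(N c) ^ p = N B = B ^ (p - 1)`, so `B = (B / N c) ^ p`.
-/

set_option autoImplicit false

namespace Pool.Agent.RG

private theorem isAlgClosure_om : IsAlgClosure ℚ Om := by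
  have h : ∀ (i : Algebra ℚ Om), @Algebra.IsAlgebraic ℚ Om _ _ i := by
    intro i
    have h1 : i = AlgebraicClosure.instAlgebra ℚ := Subsingleton.elim _ _
    rw [h1]
    exact AlgebraicClosure.isAlgebraic ℚ
  exact ⟨inferInstance, h _⟩

private theorem isGalois_om : IsGalois ℚ Om := by
  have := isAlgClosure_om
  infer_instance

/-- automorphisms act on roots of unity by powers, so they commute there -/
private theorem comm_mu {M : ℕ} (hM : 0 < M) (σ g : Om ≃ₐ[ℚ] Om) (ξ : Om) (hξ : ξ ^ M = 1) :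
    σ (g ξ) = g (σ ξ) := by
  have : NeZero M := ⟨hM.ne'⟩
  obtain ⟨η, hη⟩ := HasEnoughRootsOfUnity.exists_primitiveRoot Om M
  have hpow : ∀ z : Om, z ^ M = 1 → ∃ i, η ^ i = z := fun z hz => by
    obtain ⟨i, -, hi⟩ := hη.eq_pow_of_pow_eq_one hz
    exact ⟨i, hi⟩
  obtain ⟨i, rfl⟩ := hpow ξ hξ
  obtain ⟨a, ha⟩ := hpow (σ η) (by rw [← map_pow, hη.pow_eq_one, map_one])
  obtain ⟨b, hb⟩ := hpow (g η) (by rw [← map_pow, hη.pow_eq_one, map_one])
  rw [map_pow, map_pow, map_pow, map_pow, ← ha, ← hb, map_pow, map_pow, ← ha, ← hb, ← pow_mul,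
    ← pow_mul, ← pow_mul, ← pow_mul, mul_left_comm a b i]

theorem root_of_cyc (p : ℕ) [Fact p.Prime] (hp : p ≠ 2) (M : ℕ) (hM : 0 < M) (hpM : p ∣ M) (c : Om)
    (hc : ∀ σ : Om ≃ₐ[ℚ] Om, FixMu M σ → σ c = c) (B : ℚ) (hB : B ≠ 0)
    (h : c ^ p = algebraMap ℚ Om B) : ∃ r : ℚ, r ^ p = B := by
  have hpp : p.Prime := Fact.out
  have : NeZero p := ⟨hpp.ne_zero⟩
  have hgal := isGalois_om
  have hc0 : c ≠ 0 := by
    rintro rfl
    rw [zero_pow hpp.ne_zero] at h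
    exact hB ((map_eq_zero _).1 h.symm)
  obtain ⟨ζ, hζ⟩ := HasEnoughRootsOfUnity.exists_primitiveRoot Om p
  have hζ2 : IsPrimitiveRoot (ζ ^ 2) p :=
    hζ.pow_of_coprime 2 ((Nat.coprime_primes Nat.prime_two hpp).2 hp.symm)
  obtain ⟨g, hg⟩ : ∃ g : Om ≃ₐ[ℚ] Om, g ζ = ζ ^ 2 := by
    refine isConjRoot_iff_exists_algEquiv.1 ?_
    show minpoly ℚ (ζ ^ 2) = minpoly ℚ ζ
    rw [← Polynomial.cyclotomic_eq_minpoly_rat hζ hpp.pos,
      ← Polynomial.cyclotomic_eq_minpoly_rat hζ2 hpp.pos]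
  have hquot : ∀ σ : Om ≃ₐ[ℚ] Om, ∃ k : ℕ, σ c = ζ ^ k * c := by
    intro σ
    have h1 : (σ c / c) ^ p = 1 := by
      rw [div_pow, ← map_pow, h, AlgEquiv.commutes, div_self]
      exact fun h2 => hB ((map_eq_zero _).1 h2)
    obtain ⟨k, -, hk⟩ := hζ.eq_pow_of_pow_eq_one h1
    exact ⟨k, by rw [hk, div_mul_cancel₀ _ hc0]⟩
  have hfix : ∀ σ : Om ≃ₐ[ℚ] Om, σ ζ = ζ → σ c = c := by
    intro σ hσ
    have h1 : σ (g c) = g (σ c) := by
      have h2 := hc ((g * σ)⁻¹ * (σ * g)) (by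
        intro ξ hξ
        show (g * σ)⁻¹ ((σ * g) ξ) = ξ
        have h3 : (σ * g) ξ = (g * σ) ξ := comm_mu hM σ g ξ hξ
        rw [h3, ← AlgEquiv.mul_apply, inv_mul_cancel, AlgEquiv.one_apply])
      have h4 : (σ * g) c = (g * σ) c := by
        have h5 := congrArg (g * σ) h2
        rw [← AlgEquiv.mul_apply, mul_inv_cancel_left] at h5
        exact h5
      exact h4
    obtain ⟨k, hk⟩ := hquot σ
    obtain ⟨j, hj⟩ := hquot g
    rw [hk, hj, map_mul, map_mul, map_pow, map_pow, hσ, hg, hk, hj] at h1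
    have hζ0 : ζ ≠ 0 := hζ.ne_zero hpp.ne_zero
    have h2 : ζ ^ k * (ζ ^ j * c) = ζ ^ k * (ζ ^ k * (ζ ^ j * c)) := by
      have h3 : (ζ ^ 2) ^ k = ζ ^ k * ζ ^ k := by ring
      rw [h3] at h1
      calc ζ ^ k * (ζ ^ j * c) = ζ ^ j * (ζ ^ k * c) := by ring
        _ = _ := by rw [h1]; ring
    have h3 := mul_left_cancel₀ (pow_ne_zero k hζ0) h2
    have h4 : ζ ^ k = 1 := by
      have h5 : (ζ ^ j * c) ≠ 0 := mul_ne_zero (pow_ne_zero j hζ0) hc0
      exact mul_right_cancel₀ h5 (by rw [one_mul]; exact h3.symm)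
    rw [hk, h4, one_mul]
  -- the element is in the cyclotomic field
  have hmem : c ∈ IntermediateField.adjoin ℚ {ζ} := by
    rw [← InfiniteGalois.fixedField_fixingSubgroup (IntermediateField.adjoin ℚ {ζ}),
      IntermediateField.mem_fixedField_iff]
    intro σ hσ
    rw [IntermediateField.mem_fixingSubgroup_iff] at hσ
    exact hfix σ (hσ ζ (IntermediateField.mem_adjoin_simple_self ℚ ζ))
  have hint : IsIntegral ℚ ζ := hζ.isIntegral hpp.pos |>.tower_top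
  have hfr : Module.finrank ℚ (IntermediateField.adjoin ℚ {ζ}) = p - 1 := by
    rw [IntermediateField.adjoin.finrank hint, ← Polynomial.cyclotomic_eq_minpoly_rat hζ hpp.pos,
      Polynomial.natDegree_cyclotomic, Nat.totient_prime hpp]
  have hfd : FiniteDimensional ℚ (IntermediateField.adjoin ℚ {ζ}) :=
    IntermediateField.adjoin.finiteDimensional hint
  set c' : IntermediateField.adjoin ℚ {ζ} := ⟨c, hmem⟩ with hc'
  have h1 : c' ^ p = algebraMap ℚ _ B := Subtype.ext h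
  have h2 := congrArg (Algebra.norm ℚ) h1
  rw [map_pow, Algebra.norm_algebraMap, hfr] at h2
  refine ⟨B / Algebra.norm ℚ c', ?_⟩
  rw [div_pow, h2, div_eq_iff (pow_ne_zero _ hB), ← pow_succ', Nat.sub_add_cancel hpp.one_le]

end Pool.Agent.RG
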