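import Mathlib

/-!
RG campaign, D03: a product of powers of distinct primes is a `p`-th power of a rational number only
if `p` divides the exponents (`padicValRat`).
-/

set_option autoImplicit false

namespace Pool.Agent.RG

theorem not_pow (p : ℕ) (B : Finset ℕ) (hB : ∀ b ∈ B, b.Prime) (e : ℕ → ℕ)
    (r : ℚ) (h : r ^ p = ∏ b ∈ B, (b : ℚ) ^ e b) : ∀ b ∈ B, p ∣ e b := by
  classical
  intro b hb
  have hbp : Fact b.Prime := ⟨hB b hb⟩
  set m : ℕ := ∏ c ∈ B.erase b, c ^ e c with hm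
  have hm0 : m ≠ 0 := Finset.prod_ne_zero_iff.2 fun c hc =>
    pow_ne_zero _ (hB c (Finset.mem_of_mem_erase hc)).ne_zero
  have hndvd : ¬ b ∣ m := by
    rw [hm, hbp.out.prime.dvd_finsetProd_iff]
    rintro ⟨c, hc, hdvd⟩
    have h1 := (Nat.prime_dvd_prime_iff_eq hbp.out (hB c (Finset.mem_of_mem_erase hc))).1
      (hbp.out.dvd_of_dvd_pow hdvd)
    exact Finset.ne_of_mem_erase hc h1.symm
  have h1 : r ^ p = ((b ^ e b * m : ℕ) : ℚ) := by
    rw [h, hm, ← Finset.mul_prod_erase B _ hb]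
    push_cast
    rfl
  have h2 : padicValRat b (r ^ p) = (e b : ℤ) := by
    rw [h1, padicValRat.of_nat, padicValNat.mul (pow_ne_zero _ hbp.out.ne_zero) hm0,
      padicValNat.prime_pow, padicValNat.eq_zero_of_not_dvd hndvd, add_zero]
  rcases Nat.eq_zero_or_pos p with rfl | hp
  · rw [pow_zero, padicValRat.one] at h2
    rw [zero_dvd_iff]
    omega
  · have hr : r ≠ 0 := by
      rintro rfl
      rw [zero_pow hp.ne'] at h1
      have : (b ^ e b * m : ℕ) = 0 := by exact_mod_cast h1.symm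
      exact mul_ne_zero (pow_ne_zero _ hbp.out.ne_zero) hm0 this
    rw [padicValRat.pow] at h2
    have : (p : ℤ) ∣ (e b : ℤ) := ⟨_, h2.symm⟩
    exact_mod_cast this

end Pool.Agent.RG
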