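import Mathlib
import Pool.Agent.Lib.RG.DDefs
import Pool.Agent.Lib.RG.D01
import Pool.Agent.Lib.RG.D02
import Pool.Agent.Lib.RG.D03

/-!
RG campaign, D04: independence of the radicals.

Proof. For `σ` with `FixMu M σ` (a subgroup) and `b ∈ B` we have `σ (β b) = ζ ^ k_b(σ) * β b` with
`k_b(σ) : ZMod p`, and `k_b` is a homomorphism (`ζ` is fixed because `p ∣ M`). If the image `W` of
`(k_b)_b` in `B → ZMod p` is not everything, D01 gives `c ≠ 0` with `∑ c_b k_b = 0` on `W`. Then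
`C = ∏ (β b) ^ (c b).val` is fixed by all `σ` with `FixMu M σ`, and `C ^ p = ∏ b ^ (c b).val`, which is
the `p`-th power of a rational number by D02, so `p ∣ (c b).val` for all `b` by D03: contradiction.
-/

set_option autoImplicit false

namespace Pool.Agent.RG

theorem radicals (p : ℕ) [Fact p.Prime] (hp : p ≠ 2) (M : ℕ) (hM : 0 < M) (hpM : p ∣ M)
    (ζ : Om) (hζ : IsPrimitiveRoot ζ p) (B : Finset ℕ) (hB : ∀ b ∈ B, b.Prime) (β : ℕ → Om)
    (hβ : ∀ b ∈ B, β b ^ p = (b : Om)) (k : ℕ → ℕ) :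
    ∃ σ : Om ≃ₐ[ℚ] Om, FixMu M σ ∧ ∀ b ∈ B, σ (β b) = ζ ^ k b * β b := by
  classical
  have hp0 : 0 < p := (Fact.out : p.Prime).pos
  have : NeZero p := ⟨hp0.ne'⟩
  have hζM : ζ ^ M = 1 := by
    obtain ⟨c, rfl⟩ := hpM
    rw [pow_mul, hζ.pow_eq_one, one_pow]
  have hmod : ∀ n : ℕ, ζ ^ (n % p) = ζ ^ n := fun n => by
    conv_rhs => rw [← Nat.div_add_mod n p, pow_add, pow_mul, hζ.pow_eq_one, one_pow, one_mul]
  have hadd : ∀ x y : ZMod p, ζ ^ (x + y).val = ζ ^ x.val * ζ ^ y.val := fun x y => by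
    rw [ZMod.val_add, hmod, pow_add]
  have hfix : ∀ (σ : Om ≃ₐ[ℚ] Om), FixMu M σ → ∀ n : ℕ, σ (ζ ^ n) = ζ ^ n := fun σ hσ n => by
    rw [map_pow, hσ ζ hζM]
  have hb0 : ∀ b ∈ B, (b : Om) ≠ 0 := fun b hb => Nat.cast_ne_zero.mpr (hB b hb).ne_zero
  have hβ0 : ∀ b ∈ B, β b ≠ 0 := by
    intro b hb h
    apply hb0 b hb
    rw [← hβ b hb, h, zero_pow hp0.ne']
  -- the subgroup of exponents
  let W : AddSubgroup ({b // b ∈ B} → ZMod p) :=
    { carrier := {w | ∃ σ : Om ≃ₐ[ℚ] Om, FixMu M σ ∧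
        ∀ b : {b // b ∈ B}, σ (β b) = ζ ^ (w b).val * β b}
      zero_mem' := ⟨1, fun ξ _ => rfl, fun b => by simp⟩
      add_mem' := by
        rintro w w' ⟨σ, hσ, hw⟩ ⟨τ, hτ, hw'⟩
        refine ⟨σ * τ, fun ξ hξ => ?_, fun b => ?_⟩
        · rw [AlgEquiv.mul_apply, hτ ξ hξ, hσ ξ hξ]
        · rw [AlgEquiv.mul_apply, hw', map_mul, hfix σ hσ, hw, Pi.add_apply, hadd]
          ring
      neg_mem' := by
        rintro w ⟨σ, hσ, hw⟩
        refine ⟨σ.symm, fun ξ hξ => ?_, fun b => ?_⟩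
        · rw [AlgEquiv.symm_apply_eq, hσ ξ hξ]
        · rw [AlgEquiv.symm_apply_eq, map_mul, hfix σ hσ, hw, ← mul_assoc, ← hadd]
          simp }
  by_cases hW : W = ⊤
  · have h1 : (fun b : {b // b ∈ B} => ((k b : ℕ) : ZMod p)) ∈ W := by rw [hW]; trivial
    obtain ⟨σ, hσ, hw⟩ := h1
    refine ⟨σ, hσ, fun b hb => ?_⟩
    rw [hw ⟨b, hb⟩]
    simp only [ZMod.val_natCast, hmod]
  · exfalso
    obtain ⟨c, hc0, hc⟩ := exists_form p W hW
    set C : Om := ∏ b : {b // b ∈ B}, β b ^ (c b).val with hC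
    have hfixC : ∀ σ : Om ≃ₐ[ℚ] Om, FixMu M σ → σ C = C := by
      intro σ hσ
      have hj : ∀ b : {b // b ∈ B}, ∃ j : ZMod p, σ (β b) = ζ ^ j.val * β b := by
        intro b
        have h1 : (σ (β b) / β b) ^ p = 1 := by
          rw [div_pow, ← map_pow, hβ b b.2, map_natCast, div_self (hb0 b b.2)]
        obtain ⟨j, hj, hj2⟩ := hζ.eq_pow_of_pow_eq_one h1
        refine ⟨(j : ZMod p), ?_⟩
        rw [ZMod.val_natCast, hmod, hj2, div_mul_cancel₀ _ (hβ0 b b.2)]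
      choose w hw using hj
      have hwW : w ∈ W := ⟨σ, hσ, hw⟩
      have hs := hc w hwW
      have h2 : σ C = ζ ^ (∑ b : {b // b ∈ B}, (w b).val * (c b).val) * C := by
        rw [hC, map_prod, ← Finset.prod_pow_eq_pow_sum, ← Finset.prod_mul_distrib]
        refine Finset.prod_congr rfl fun b _ => ?_
        rw [map_pow, hw b, mul_pow, ← pow_mul]
      have h3 : p ∣ ∑ b : {b // b ∈ B}, (w b).val * (c b).val := by
        rw [← ZMod.natCast_eq_zero_iff]
        push_cast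
        rw [← hs]
        refine Finset.sum_congr rfl fun b _ => ?_
        rw [ZMod.natCast_zmod_val, ZMod.natCast_zmod_val, mul_comm]
      obtain ⟨d, hd⟩ := h3
      rw [h2, hd, pow_mul, hζ.pow_eq_one, one_pow, one_mul]
    let e : ℕ → ℕ := fun b => if h : b ∈ B then (c ⟨b, h⟩).val else 0
    have hCp : C ^ p = algebraMap ℚ Om (∏ b ∈ B, (b : ℚ) ^ e b) := by
      rw [hC, ← Finset.prod_pow, map_prod, ← Finset.prod_coe_sort B]
      refine Finset.prod_congr rfl fun b _ => ?_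
      have : e b = (c b).val := by simp [e]
      rw [this, ← pow_mul, mul_comm, pow_mul, hβ b b.2, map_pow, map_natCast]
    have hne : (∏ b ∈ B, (b : ℚ) ^ e b) ≠ 0 :=
      Finset.prod_ne_zero_iff.mpr fun b hb => pow_ne_zero _ (Nat.cast_ne_zero.mpr (hB b hb).ne_zero)
    obtain ⟨r, hr⟩ := root_of_cyc p hp M hM hpM C hfixC _ hne hCp
    have hdiv := not_pow p B hB e r hr
    apply hc0
    funext b
    have h4 : p ∣ (c b).val := by
      have := hdiv b b.2
      simpa [e] using this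
    have h5 : (c b).val = 0 := Nat.eq_zero_of_dvd_of_lt h4 (ZMod.val_lt _)
    exact (ZMod.val_eq_zero _).mp h5

end Pool.Agent.RG
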