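import Mathlib
import Pool.Agent.Lib.RG.DDefs

/-!
RG campaign, D05: automorphisms of `Om` with a given action on the `M`-th roots of unity.

Proof. `ζ` primitive `M`-th root of unity in `Om`; `ζ ^ u` is another one; both have minimal
polynomial `cyclotomic M ℚ`; so some automorphism of `Om` maps `ζ` to `ζ ^ u` (for instance
`IsConjRoot`, `minpoly` + `IntermediateField.exists_algHom_of_splits_of_aeval`, or
`IsCyclotomicExtension.autEquivPow` and `AlgEquiv.restrictNormalHom_surjective`).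
-/

set_option autoImplicit false

namespace Pool.Agent.RG

theorem D05_normal : Normal ℚ Om := by
  let i : Algebra ℚ Om := (AlgebraicClosure.instAlgebra ℚ)
  have : IsAlgClosure ℚ Om := by infer_instance
  exact @IsAlgClosure.normal ℚ Om _ _ (AlgebraicClosure.instAlgebra ℚ) this

theorem cyc_exists (M : ℕ) (hM : 0 < M) (u : ℕ) (hu : u.Coprime M) :
    ∃ σ : Om ≃ₐ[ℚ] Om, ∀ ξ : Om, ξ ^ M = 1 → σ ξ = ξ ^ u := by
  have : NeZero M := ⟨hM.ne'⟩
  have : Normal ℚ Om := D05_normal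
  obtain ⟨ζ, hζ⟩ := HasEnoughRootsOfUnity.exists_primitiveRoot Om M
  have h2 : IsPrimitiveRoot (ζ ^ u) M := hζ.pow_of_coprime u hu
  have hc : IsConjRoot ℚ (ζ ^ u) ζ := by
    change minpoly ℚ (ζ ^ u) = minpoly ℚ ζ
    rw [← Polynomial.cyclotomic_eq_minpoly_rat hζ hM, ← Polynomial.cyclotomic_eq_minpoly_rat h2 hM]
  obtain ⟨σ, hσ⟩ := isConjRoot_iff_exists_algEquiv.mp hc
  refine ⟨σ, fun ξ hξ => ?_⟩
  obtain ⟨i, -, rfl⟩ := hζ.eq_pow_of_pow_eq_one hξ
  rw [map_pow, hσ, ← pow_mul, ← pow_mul, mul_comm]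

end Pool.Agent.RG
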