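import Mathlib
import Pool.Agent.Lib.RG.DDefs
import Pool.Agent.Lib.RG.D04
import Pool.Agent.Lib.RG.D05

/-!
RG campaign, D06: automorphisms of `Om` with a given action on the `M`-th roots of unity and on the
radicals. (`σ = τ σ₀`, `σ₀` from D05, `σ₀ (β b) = ζ ^ j_b * β b`, `τ` from D04 with exponents
`k_b - j_b` modulo `p`.)
-/

set_option autoImplicit false

namespace Pool.Agent.RG

theorem gal_exists (p : ℕ) [Fact p.Prime] (hp : p ≠ 2) (M : ℕ) (hM : 0 < M) (hpM : p ∣ M)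
    (ζ : Om) (hζ : IsPrimitiveRoot ζ p) (B : Finset ℕ) (hB : ∀ b ∈ B, b.Prime) (β : ℕ → Om)
    (hβ : ∀ b ∈ B, β b ^ p = (b : Om)) (u : ℕ) (hu : u.Coprime M) (k : ℕ → ℕ) :
    ∃ σ : Om ≃ₐ[ℚ] Om, (∀ ξ : Om, ξ ^ M = 1 → σ ξ = ξ ^ u) ∧
      ∀ b ∈ B, σ (β b) = ζ ^ k b * β b := by
  classical
  have hp0 : 0 < p := (Fact.out : p.Prime).pos
  have : NeZero p := ⟨hp0.ne'⟩
  obtain ⟨σ₀, hσ₀⟩ := cyc_exists M hM u hu
  -- exponents of `σ₀` on the radicals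
  have hj : ∀ b : ℕ, ∃ j : ℕ, j < p ∧ (b ∈ B → σ₀ (β b) = ζ ^ j * β b) := by
    intro b
    by_cases hb : b ∈ B
    · have hb0 : (b : Om) ≠ 0 := Nat.cast_ne_zero.mpr (hB b hb).ne_zero
      have hβ0 : β b ≠ 0 := by
        intro h
        apply hb0
        rw [← hβ b hb, h, zero_pow hp0.ne']
      have h1 : (σ₀ (β b) / β b) ^ p = 1 := by
        rw [div_pow, ← map_pow, hβ b hb, map_natCast, div_self hb0]
      obtain ⟨j, hj, hj2⟩ := hζ.eq_pow_of_pow_eq_one h1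
      exact ⟨j, hj, fun _ => by rw [hj2, div_mul_cancel₀ _ hβ0]⟩
    · exact ⟨0, hp0, fun h => absurd h hb⟩
  choose j hjp hj using hj
  obtain ⟨τ, hτ1, hτ2⟩ := radicals p hp M hM hpM ζ hζ B hB β hβ (fun b => k b + (p - j b))
  refine ⟨τ * σ₀, fun ξ hξ => ?_, fun b hb => ?_⟩
  · rw [AlgEquiv.mul_apply, hσ₀ ξ hξ, map_pow, hτ1 ξ hξ]
  · have hζM : ζ ^ M = 1 := by
      obtain ⟨c, rfl⟩ := hpM
      rw [pow_mul, hζ.pow_eq_one, one_pow]
    rw [AlgEquiv.mul_apply, hj b hb, map_mul, map_pow, hτ1 ζ hζM, hτ2 b hb, ← mul_assoc, ← pow_add]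
    congr 1
    have h3 : j b + (k b + (p - j b)) = k b + p := by have := hjp b; omega
    rw [h3, pow_add, hζ.pow_eq_one, mul_one]

end Pool.Agent.RG
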