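import Mathlib
import Pool.Agent.Lib.RG.DDefs

/-!
RG campaign, D07: the number of primes of norm `l` (a prime number) of a number field `N` is at most
`[N : ℚ]`.

(`Σ e f = [N : ℚ]` over the primes above `(l)`, or: the product of different primes of norm `l`
divides `(l)`, whose norm is `l ^ [N : ℚ]`.)
-/

set_option autoImplicit false

namespace Pool.Agent.RG

open NumberField IsDedekindDomain

theorem D07aux_lies (N : Type) [Field N] [NumberField N] (l : ℕ) (hl : l.Prime)
    (w : HeightOneSpectrum (𝓞 N)) (hw : Ideal.absNorm w.asIdeal = l) :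
    w.asIdeal ∈ (Ideal.span {(l : ℤ)}).primesOver (𝓞 N) := by
  refine ⟨w.isPrime, ⟨?_⟩⟩
  have hmem : ((l : ℤ) : 𝓞 N) ∈ w.asIdeal := by
    have := Ideal.absNorm_mem w.asIdeal
    rw [hw] at this
    simpa using this
  have hlp : Prime (l : ℤ) := Nat.prime_iff_prime_int.1 hl
  have hmax : (Ideal.span {(l : ℤ)}).IsMaximal :=
    PrincipalIdealRing.isMaximal_of_irreducible hlp.irreducible
  refine hmax.eq_of_le ?_ ?_
  · exact Ideal.IsPrime.ne_top (Ideal.IsPrime.comap (algebraMap ℤ (𝓞 N)) (K := w.asIdeal))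
  · rw [Ideal.span_singleton_le_iff_mem, Ideal.mem_comap]
    simpa using hmem

theorem norm_card_le (N : Type) [Field N] [NumberField N] (l : ℕ) (hl : l.Prime) :
    {w : HeightOneSpectrum (𝓞 N) | Ideal.absNorm w.asIdeal = l}.Finite ∧
    {w : HeightOneSpectrum (𝓞 N) | Ideal.absNorm w.asIdeal = l}.ncard ≤ Module.finrank ℚ N := by
  have hlp : Prime (l : ℤ) := Nat.prime_iff_prime_int.1 hl
  have hmax : (Ideal.span {(l : ℤ)}).IsMaximal :=
    PrincipalIdealRing.isMaximal_of_irreducible hlp.irreducible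
  have h0 : (Ideal.span {(l : ℤ)}) ≠ ⊥ := by
    rw [Ne, Ideal.span_singleton_eq_bot]
    exact hlp.ne_zero
  have hinj : Set.InjOn (fun w : HeightOneSpectrum (𝓞 N) => w.asIdeal)
      {w : HeightOneSpectrum (𝓞 N) | Ideal.absNorm w.asIdeal = l} :=
    fun a _ b _ h => HeightOneSpectrum.ext h
  have hsub : (fun w : HeightOneSpectrum (𝓞 N) => w.asIdeal) ''
      {w : HeightOneSpectrum (𝓞 N) | Ideal.absNorm w.asIdeal = l} ⊆
      ((IsDedekindDomain.primesOverFinset (Ideal.span {(l : ℤ)}) (𝓞 N) : Finset (Ideal (𝓞 N))) :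
        Set (Ideal (𝓞 N))) := by
    rintro _ ⟨w, hw, rfl⟩
    rw [IsDedekindDomain.coe_primesOverFinset h0]
    exact D07aux_lies N l hl w hw
  have hfin := (Finset.finite_toSet _).subset hsub
  refine ⟨Set.Finite.of_finite_image hfin hinj, ?_⟩
  rw [← Set.InjOn.ncard_image hinj]
  refine (Set.ncard_le_ncard hsub (Finset.finite_toSet _)).trans ?_
  rw [Set.ncard_coe_finset]
  exact Ideal.card_primesOverFinset_le_finrank (𝓞 N) ℚ N h0

end Pool.Agent.RG
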