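import Mathlib
import Pool.Agent.Lib.RG.DDefs

/-!
RG campaign, D08: in a Galois number field almost every `l` which is the norm of a prime is the norm
of exactly `[N : ℚ]` primes.

Proof. Take `F` = prime divisors of the discriminant. If `l ∉ F` then `l` is unramified
(`NumberField.not_dvd_discr_iff_isUnramifiedIn`), the inertia degree of a prime of norm `l` is `1`,
all primes above `l` are conjugate; `Ideal.ncard_primesOver_mul_ramificationIdxIn_mul_inertiaDegIn`.
-/

set_option autoImplicit false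

namespace Pool.Agent.RG

open NumberField IsDedekindDomain

private theorem liesOver_of_norm {N : Type} [Field N] [NumberField N] {l : ℕ} (hl : l.Prime)
    (w : HeightOneSpectrum (𝓞 N)) (hw : Ideal.absNorm w.asIdeal = l) :
    w.asIdeal.LiesOver (Ideal.span {(l : ℤ)}) := by
  have hlp : Prime (l : ℤ) := Nat.prime_iff_prime_int.mp hl
  have hp : (Ideal.span {(l : ℤ)}).IsPrime :=
    (Ideal.span_singleton_prime hlp.ne_zero).2 hlp
  have hm : (Ideal.span {(l : ℤ)}).IsMaximal :=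
    hp.isMaximal (by
      rw [Ne, Ideal.span_singleton_eq_bot]
      exact hlp.ne_zero)
  have h1 : (l : 𝓞 N) ∈ w.asIdeal := by
    rw [← hw]
    exact Ideal.absNorm_mem _
  refine ⟨hm.eq_of_le ?_ ?_⟩
  · have := w.isPrime
    exact (Ideal.IsPrime.under ℤ w.asIdeal).ne_top
  · rw [Ideal.span_singleton_le_iff_mem, Ideal.mem_comap]
    simpa using h1

theorem norm_card_eq (N : Type) [Field N] [NumberField N] [IsGalois ℚ N] :
    ∃ F : Finset ℕ, ∀ l ∈ TN N, l ∉ F →
      {w : HeightOneSpectrum (𝓞 N) | Ideal.absNorm w.asIdeal = l}.ncard = Module.finrank ℚ N := by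
  refine ⟨(discr N).natAbs.primeFactors, ?_⟩
  rintro l ⟨hl, w0, hw0⟩ hlF
  have hlp : Prime (l : ℤ) := Nat.prime_iff_prime_int.mp hl
  have hp : (Ideal.span {(l : ℤ)}).IsPrime :=
    (Ideal.span_singleton_prime hlp.ne_zero).2 hlp
  have hnd : ¬ (l : ℤ) ∣ discr N := by
    intro h
    apply hlF
    rw [Nat.mem_primeFactors]
    exact ⟨hl, Int.natCast_dvd.1 h, Int.natAbs_ne_zero.2 (discr_ne_zero N)⟩
  have hun := (not_dvd_discr_iff_isUnramifiedIn N (𝓞 N) hlp).1 hnd
  have hw0p := w0.isPrime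
  have hw0o := liesOver_of_norm hl w0 hw0
  have hf0 : w0.asIdeal.inertiaDeg ℤ = 1 := by
    have h1 := Ideal.natAbs_pow_inertiaDeg (l : ℤ) w0.asIdeal
    rw [hw0, Int.natAbs_natCast] at h1
    exact Nat.pow_right_injective hl.two_le (by simpa using h1)
  have he0 : w0.asIdeal.ramificationIdx ℤ = 1 := hun.ramificationIdx_eq_one hw0o
  have hmain := Ideal.ncard_primesOver_mul_ramificationIdxIn_mul_inertiaDegIn
    (Ideal.span {(l : ℤ)}) (𝓞 N) Gal(N/ℚ)
  rw [Ideal.ramificationIdxIn_eq_ramificationIdx (Ideal.span {(l : ℤ)}) w0.asIdeal Gal(N/ℚ),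
    Ideal.inertiaDegIn_eq_inertiaDeg (Ideal.span {(l : ℤ)}) w0.asIdeal Gal(N/ℚ), he0, hf0,
    mul_one, mul_one, IsGalois.card_aut_eq_finrank] at hmain
  rw [← hmain]
  have hinj : Function.Injective (HeightOneSpectrum.asIdeal : HeightOneSpectrum (𝓞 N) → _) :=
    fun _ _ h => HeightOneSpectrum.ext h
  rw [← Set.ncard_image_of_injective _ hinj]
  congr 1
  ext P
  constructor
  · rintro ⟨w, hw, rfl⟩
    exact ⟨w.isPrime, liesOver_of_norm hl w hw⟩
  · rintro ⟨hP, hPo⟩
    have hbot : P ≠ ⊥ := by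
      refine Ideal.ne_bot_of_liesOver_of_ne_bot (p := Ideal.span {(l : ℤ)}) ?_ P
      rw [Ne, Ideal.span_singleton_eq_bot]
      exact hlp.ne_zero
    refine ⟨⟨P, hP, hbot⟩, ?_, rfl⟩
    show Ideal.absNorm P = l
    rw [← Ideal.natAbs_pow_inertiaDeg (l : ℤ) P, Int.natAbs_natCast,
      Ideal.inertiaDeg_eq_of_isGaloisGroup (Ideal.span {(l : ℤ)}) P w0.asIdeal Gal(N/ℚ), hf0,
      pow_one]

end Pool.Agent.RG
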