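import Mathlib
import Pool.Agent.Lib.RG.DDefs
import Pool.Agent.Lib.RG.Zeta
import Pool.Agent.Lib.RG.D07
import Pool.Agent.Lib.RG.D08

/-!
RG campaign, D09: the set `TN N` of a Galois number field has density `1 / [N : ℚ]`.

Proof. With `c l` = number of primes of norm `l`: `∑ over w = ∑ over l of c l * l ^ (-s)` (primes `w`
of prime norm, fibres over the norm; `c l = 0` outside `TN N`), `0 ≤ n - c l ≤ n`, and `c l = n` for
`l ∈ TN N` outside the finite set of D08. So `n * (∑ l ∈ TN N) - (∑ over w)` lies in `[0, n * F.card]`.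
-/

set_option autoImplicit false

namespace Pool.Agent.RG

open NumberField IsDedekindDomain

/-- the norm of a prime of prime norm -/
private noncomputable def D09nrm (N : Type) [Field N] [NumberField N]
    (w : {w : HeightOneSpectrum (𝓞 N) // (Ideal.absNorm w.asIdeal).Prime}) : TN N :=
  ⟨Ideal.absNorm w.1.asIdeal, w.2, w.1, rfl⟩

private theorem D09card (N : Type) [Field N] [NumberField N] (l : TN N) :
    Nat.card {w // D09nrm N w = l} =
      {w : HeightOneSpectrum (𝓞 N) | Ideal.absNorm w.asIdeal = l}.ncard := by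
  rw [← Nat.card_coe_set_eq]
  refine Nat.card_congr ⟨fun w => ⟨w.1.1, ?_⟩, fun w => ⟨⟨w.1, ?_⟩, ?_⟩, ?_, ?_⟩
  · have := congrArg Subtype.val w.2
    exact this
  · have h : Ideal.absNorm w.1.asIdeal = l := w.2
    rw [h]
    exact l.2.1
  · apply Subtype.ext
    exact w.2
  · intro w
    rfl
  · intro w
    rfl

private theorem D09sum (N : Type) [Field N] [NumberField N] (s : ℝ)
    (hs : Summable (fun w : {w : HeightOneSpectrum (𝓞 N) // (Ideal.absNorm w.asIdeal).Prime} =>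
        (Ideal.absNorm w.1.asIdeal : ℝ) ^ (-s))) :
    Summable (fun l : TN N =>
      ({w : HeightOneSpectrum (𝓞 N) | Ideal.absNorm w.asIdeal = l}.ncard : ℝ) *
        ((l : ℕ) : ℝ) ^ (-s)) ∧
    (∑' w : {w : HeightOneSpectrum (𝓞 N) // (Ideal.absNorm w.asIdeal).Prime},
        (Ideal.absNorm w.1.asIdeal : ℝ) ^ (-s)) =
      ∑' l : TN N, ({w : HeightOneSpectrum (𝓞 N) | Ideal.absNorm w.asIdeal = l}.ncard : ℝ) *
        ((l : ℕ) : ℝ) ^ (-s) := by
  have h1 : Summable (fun x : (Σ l : TN N, {w // D09nrm N w = l}) =>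
      (Ideal.absNorm x.2.1.1.asIdeal : ℝ) ^ (-s)) :=
    (Equiv.sigmaFiberEquiv (D09nrm N)).summable_iff.mpr hs
  have h2 : ∀ l : TN N, (∑' w : {w // D09nrm N w = l},
      (Ideal.absNorm w.1.1.asIdeal : ℝ) ^ (-s)) =
      ({w : HeightOneSpectrum (𝓞 N) | Ideal.absNorm w.asIdeal = l}.ncard : ℝ) *
        ((l : ℕ) : ℝ) ^ (-s) := by
    intro l
    have h3 : ∀ w : {w // D09nrm N w = l}, (Ideal.absNorm w.1.1.asIdeal : ℝ) ^ (-s) =
        ((l : ℕ) : ℝ) ^ (-s) := by
      intro w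
      have h4 : Ideal.absNorm w.1.1.asIdeal = (l : ℕ) := congrArg Subtype.val w.2
      rw [h4]
    rw [tsum_congr h3, tsum_const, D09card, nsmul_eq_mul]
  constructor
  · have h5 := h1.sigma
    refine h5.congr (fun l => ?_)
    exact h2 l
  · rw [← (Equiv.sigmaFiberEquiv (D09nrm N)).tsum_eq]
    have h6 := h1.tsum_sigma
    refine Eq.trans h6 (tsum_congr h2)

theorem spl_sum (N : Type) [Field N] [NumberField N] [IsGalois ℚ N] :
    ∃ C : ℝ, ∀ s : ℝ, 1 < s → s ≤ 2 →
      |(∑' l : TN N, ((l : ℕ) : ℝ) ^ (-s)) -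
        (Module.finrank ℚ N : ℝ)⁻¹ * Real.log (1 / (s - 1))| ≤ C := by
  classical
  obtain ⟨C, hC⟩ := prime_sum N
  obtain ⟨F, hF⟩ := norm_card_eq N
  set n : ℕ := Module.finrank ℚ N with hn
  have hn0 : 0 < n := Module.finrank_pos
  have hnR : (0 : ℝ) < n := by exact_mod_cast hn0
  refine ⟨(n : ℝ)⁻¹ * (n * F.card + C), fun s hs1 hs2 => ?_⟩
  obtain ⟨hsum, hbd⟩ := hC s hs1 hs2
  obtain ⟨hsum2, heq⟩ := D09sum N s hsum
  rw [heq] at hbd
  have hsum3 : Summable (fun l : TN N => ((l : ℕ) : ℝ) ^ (-s)) := by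
    have h := Real.summable_nat_rpow (p := -s) |>.mpr (by linarith)
    exact h.comp_injective Subtype.val_injective
  set c : TN N → ℝ := fun l =>
    ({w : HeightOneSpectrum (𝓞 N) | Ideal.absNorm w.asIdeal = l}.ncard : ℝ) with hc
  have hdiff : (n : ℝ) * (∑' l : TN N, ((l : ℕ) : ℝ) ^ (-s)) -
      (∑' l : TN N, c l * ((l : ℕ) : ℝ) ^ (-s)) =
      ∑' l : TN N, ((n : ℝ) - c l) * ((l : ℕ) : ℝ) ^ (-s) := by
    rw [← tsum_mul_left, ← (hsum3.mul_left (n : ℝ)).tsum_sub hsum2]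
    refine tsum_congr (fun l => ?_)
    ring
  have hcle : ∀ l : TN N, c l ≤ n := by
    intro l
    have := (norm_card_le N l l.2.1).2
    simp only [hc]
    exact_mod_cast this
  have hc0 : ∀ l : TN N, 0 ≤ c l := fun l => by positivity
  have hlpos : ∀ l : TN N, (0 : ℝ) ≤ ((l : ℕ) : ℝ) ^ (-s) := fun l => by positivity
  have hlle : ∀ l : TN N, ((l : ℕ) : ℝ) ^ (-s) ≤ 1 := by
    intro l
    apply Real.rpow_le_one_of_one_le_of_nonpos
    · exact_mod_cast l.2.1.one_lt.le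
    · linarith
  have hnn : 0 ≤ ∑' l : TN N, ((n : ℝ) - c l) * ((l : ℕ) : ℝ) ^ (-s) :=
    tsum_nonneg (fun l => mul_nonneg (by linarith [hcle l]) (hlpos l))
  have hup : ∑' l : TN N, ((n : ℝ) - c l) * ((l : ℕ) : ℝ) ^ (-s) ≤ n * F.card := by
    set T : Finset (TN N) := F.subtype (fun l => l ∈ TN N) with hT
    have hz : ∀ l : TN N, l ∉ T → ((n : ℝ) - c l) * ((l : ℕ) : ℝ) ^ (-s) = 0 := by
      intro l hl
      have h1 : (l : ℕ) ∉ F := by
        intro h
        apply hl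
        rw [hT, Finset.mem_subtype]
        exact h
      have h2 := hF l l.2 h1
      have h3 : c l = n := by
        simp only [hc]
        exact_mod_cast h2
      rw [h3]
      ring
    rw [tsum_eq_sum hz]
    calc ∑ l ∈ T, ((n : ℝ) - c l) * ((l : ℕ) : ℝ) ^ (-s) ≤ ∑ l ∈ T, (n : ℝ) := by
          refine Finset.sum_le_sum (fun l _ => ?_)
          have h1 : (n : ℝ) - c l ≤ n := by linarith [hc0 l]
          calc ((n : ℝ) - c l) * ((l : ℕ) : ℝ) ^ (-s) ≤ n * 1 :=
                mul_le_mul h1 (hlle l) (hlpos l) hnR.le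
            _ = n := mul_one _
      _ = T.card * n := by rw [Finset.sum_const, nsmul_eq_mul]
      _ ≤ F.card * n := by
          have : T.card ≤ F.card := by
            rw [hT, Finset.card_subtype]
            exact Finset.card_filter_le _ _
          have h2 : (T.card : ℝ) ≤ F.card := by exact_mod_cast this
          exact mul_le_mul_of_nonneg_right h2 hnR.le
      _ = n * F.card := mul_comm _ _
  have habs : |(n : ℝ) * (∑' l : TN N, ((l : ℕ) : ℝ) ^ (-s)) - Real.log (1 / (s - 1))| ≤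
      n * F.card + C := by
    have h1 : (n : ℝ) * (∑' l : TN N, ((l : ℕ) : ℝ) ^ (-s)) - Real.log (1 / (s - 1)) =
        (∑' l : TN N, ((n : ℝ) - c l) * ((l : ℕ) : ℝ) ^ (-s)) +
        ((∑' l : TN N, c l * ((l : ℕ) : ℝ) ^ (-s)) - Real.log (1 / (s - 1))) := by
      rw [← hdiff]
      ring
    rw [h1]
    refine (abs_add_le _ _).trans ?_
    rw [abs_of_nonneg hnn]
    exact add_le_add hup hbd
  have h2 : (∑' l : TN N, ((l : ℕ) : ℝ) ^ (-s)) - (n : ℝ)⁻¹ * Real.log (1 / (s - 1)) =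
      (n : ℝ)⁻¹ * ((n : ℝ) * (∑' l : TN N, ((l : ℕ) : ℝ) ^ (-s)) - Real.log (1 / (s - 1))) := by
    field_simp
  rw [h2, abs_mul, abs_of_pos (inv_pos.mpr hnR)]
  exact mul_le_mul_of_nonneg_left habs (inv_pos.mpr hnR).le

end Pool.Agent.RG
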