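import Mathlib
import Pool.Agent.Lib.RG.DDefs

/-!
RG campaign, D10: existence of a Frobenius element in `H` above a prime of norm `l` of the fixed
field of `H`.

Proof. `w` prime of `𝓞 N`, `N = fixedField H`, of norm `l`; `Q` a prime of `𝓞 L` above `w`;
`H` acts on `𝓞 L` with invariants `𝓞 N` (`IsGaloisGroup H N L`, `IsGaloisGroup.of_isFractionRing`);
`IsArithFrobAt.exists_of_isInvariant` with `Nat.card (𝓞 N ⧸ w) = l`.
-/

set_option autoImplicit false

namespace Pool.Agent.RG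

open NumberField IsDedekindDomain

theorem frob_of_norm (L : Type) [Field L] [NumberField L] [IsGalois ℚ L]
    (H : Subgroup (L ≃ₐ[ℚ] L)) (l : ℕ) (hl : l ∈ TN (IntermediateField.fixedField H)) :
    ∃ (Q : Ideal (𝓞 L)) (σ : L ≃ₐ[ℚ] L), Frb L l Q σ ∧ σ ∈ H := by
  obtain ⟨hlp, w, hw⟩ := hl
  have hG : IsGaloisGroup H (IntermediateField.fixedField H) L :=
    IsGaloisGroup.subgroup (L ≃ₐ[ℚ] L) ℚ L H
  have hpr := w.isPrime
  obtain ⟨Q, hQ, hQw⟩ := Ideal.exists_maximal_ideal_liesOver_of_isIntegral (S := 𝓞 L) w.asIdeal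
  have hlw : (l : 𝓞 (IntermediateField.fixedField H)) ∈ w.asIdeal := by
    rw [← hw]
    exact Ideal.absNorm_mem _
  have hlQ : (l : 𝓞 L) ∈ Q := by
    have h1 := hQw.over
    rw [h1, Ideal.under_def, Ideal.mem_comap] at hlw
    simpa using hlw
  have hQ0 : Q ≠ ⊥ := by
    rintro rfl
    rw [Ideal.mem_bot] at hlQ
    exact hlp.ne_zero (by exact_mod_cast hlQ)
  have hfin : Finite (𝓞 L ⧸ Q) := Q.finiteQuotientOfFreeOfNeBot hQ0
  have hG2 : IsGaloisGroup H (𝓞 (IntermediateField.fixedField H)) (𝓞 L) :=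
    IsGaloisGroup.of_isFractionRing H (𝓞 (IntermediateField.fixedField H)) (𝓞 L)
      (IntermediateField.fixedField H) L
  obtain ⟨σ, hσ⟩ := IsArithFrobAt.exists_of_isInvariant (𝓞 (IntermediateField.fixedField H)) H Q
  have hcard : Nat.card (𝓞 (IntermediateField.fixedField H) ⧸
      Q.under (𝓞 (IntermediateField.fixedField H))) = l := by
    rw [← hQw.over, ← hw]
    rfl
  refine ⟨Q, σ.1, ⟨hQ.isPrime, hlQ, fun x => ?_⟩, σ.2⟩
  have := hσ x
  rw [hcard] at this
  exact this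

end Pool.Agent.RG
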