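import Mathlib
import Pool.Agent.Lib.RG.DDefs

/-!
RG campaign, D11: if a Frobenius element at `Q | l` belongs to `H` then the prime `w` of the fixed
field of `H` under `Q` has norm `l`.

Proof. `x ^ l - x ∈ w` for all `x ∈ 𝓞 N` because `σ • x = x`; so the residue field `𝓞 N ⧸ w` (a finite
field of characteristic `l`) has at most `l` elements (roots of `X ^ l - X`), and at least `l`.
-/

set_option autoImplicit false

namespace Pool.Agent.RG

open NumberField IsDedekindDomain

theorem D11aux.card_eq (k : Type) [CommRing k] [IsDomain k] [Finite k] (l : ℕ) (hl : l.Prime)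
    (h0 : (l : k) = 0) (h : ∀ x : k, x ^ l = x) : Nat.card k = l := by
  classical
  cases nonempty_fintype k
  apply le_antisymm
  · rw [Nat.card_eq_fintype_card]
    have h2 : (Polynomial.X ^ l - Polynomial.X : Polynomial k).natDegree = l := by
      have h0 : (Polynomial.X : Polynomial k).natDegree <
          (Polynomial.X ^ l : Polynomial k).natDegree := by
        rw [Polynomial.natDegree_X, Polynomial.natDegree_X_pow]
        exact hl.one_lt
      rw [Polynomial.natDegree_sub_eq_left_of_natDegree_lt h0, Polynomial.natDegree_X_pow]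
    have h1 : (Polynomial.X ^ l - Polynomial.X : Polynomial k) ≠ 0 := by
      intro h0
      rw [h0, Polynomial.natDegree_zero] at h2
      exact hl.ne_zero h2.symm
    have h3 := Polynomial.card_roots' (Polynomial.X ^ l - Polynomial.X : Polynomial k)
    rw [h2] at h3
    refine le_trans ?_ h3
    have h4 : (Finset.univ : Finset k) ⊆
        (Polynomial.X ^ l - Polynomial.X : Polynomial k).roots.toFinset := by
      intro x _
      rw [Multiset.mem_toFinset, Polynomial.mem_roots h1, Polynomial.IsRoot.def]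
      simp [h x]
    exact (Finset.card_le_card h4).trans (Multiset.toFinset_card_le _)
  · have : Fact l.Prime := ⟨hl⟩
    have hc : CharP k l := by
      obtain ⟨p, hp⟩ := CharP.exists k
      have h1 : p ∣ l := (CharP.cast_eq_zero_iff k p l).1 h0
      rcases (Nat.dvd_prime hl).1 h1 with rfl | rfl
      · have h5 : ((1 : ℕ) : k) = 0 := CharP.cast_eq_zero k 1
        rw [Nat.cast_one] at h5
        exact absurd h5 one_ne_zero
      · exact hp
    have h1 := Nat.card_le_card_of_injective (ZMod.castHom (dvd_refl l) k)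
      (ZMod.castHom_injective k)
    simpa using h1

theorem norm_of_frob (L : Type) [Field L] [NumberField L]
    (H : Subgroup (L ≃ₐ[ℚ] L)) (l : ℕ) (hl : l.Prime) (Q : Ideal (𝓞 L)) (σ : L ≃ₐ[ℚ] L)
    (h : Frb L l Q σ) (hσ : σ ∈ H) : l ∈ TN (IntermediateField.fixedField H) := by
  have hpr := h.pr
  set N := IntermediateField.fixedField H with hN
  set w : Ideal (𝓞 N) := Q.under (𝓞 N) with hw
  have hwp : w.IsPrime := inferInstance
  have hlw : (l : 𝓞 N) ∈ w := by
    rw [hw, Ideal.under_def, Ideal.mem_comap]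
    simpa using h.mem
  have hw0 : w ≠ ⊥ := by
    intro h0
    rw [h0, Ideal.mem_bot] at hlw
    exact hl.ne_zero (by exact_mod_cast hlw)
  have hfix : ∀ x : 𝓞 N, x ^ l - x ∈ w := fun x => by
    rw [hw, Ideal.under_def, Ideal.mem_comap]
    have h1 := h.frob (algebraMap (𝓞 N) (𝓞 L) x)
    have h2 : σ • algebraMap (𝓞 N) (𝓞 L) x = algebraMap (𝓞 N) (𝓞 L) x := by
      apply RingOfIntegers.ext
      exact (x : N).2 ⟨σ, hσ⟩
    rw [h2] at h1
    have h3 := Q.neg_mem_iff.2 h1
    simpa using h3
  have hfin : Finite (𝓞 N ⧸ w) := w.finiteQuotientOfFreeOfNeBot hw0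
  refine ⟨hl, ⟨w, hwp, hw0⟩, ?_⟩
  change Nat.card (𝓞 N ⧸ w) = l
  refine D11aux.card_eq (𝓞 N ⧸ w) l hl ?_ fun x => ?_
  · have := Ideal.Quotient.eq_zero_iff_mem.2 hlw
    simpa using this
  · obtain ⟨a, rfl⟩ := Ideal.Quotient.mk_surjective x
    rw [← map_pow, Ideal.Quotient.eq]
    exact hfix a

end Pool.Agent.RG
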