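import Mathlib
import Pool.Agent.Lib.RG.DDefs
import Pool.Agent.Lib.RG.D09
import Pool.Agent.Lib.RG.D10
import Pool.Agent.Lib.RG.D11

/-!
RG campaign, D12: a prime number `l` outside a given finite set with a Frobenius element in `H₀` and
not in `H₁ ∪ H₂`.

Proof. `N_i` = fixed field of `H_i`, Galois over `ℚ` of degree `n_i = |G| / |H_i|`; `n_1, n_2 ≥ 3 n_0`.
If `TN N_0 ⊆ TN N_1 ∪ TN N_2 ∪ F` then D09 gives
`(1/n_0 - 1/n_1 - 1/n_2) * log (1/(s-1)) ≤ C` for `1 < s ≤ 2`, which is false for `s → 1`. Take `l` in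
`TN N_0` outside; D10 gives `Q`, `σ ∈ H_0`; `σ ∉ H_1`, `σ ∉ H_2` by D11.
-/

set_option autoImplicit false

namespace Pool.Agent.RG

open NumberField IsDedekindDomain

private theorem D12tsum (s : ℝ) (hs : 1 < s) (A A1 A2 : Set ℕ) (F : Finset ℕ)
    (h : ∀ l ∈ A, l ∉ F → l ∈ A1 ∨ l ∈ A2) :
    (∑' l : A, ((l : ℕ) : ℝ) ^ (-s)) ≤ (∑' l : A1, ((l : ℕ) : ℝ) ^ (-s)) +
      (∑' l : A2, ((l : ℕ) : ℝ) ^ (-s)) + F.card := by
  classical
  have hsum : Summable (fun l : ℕ => (l : ℝ) ^ (-s)) := Real.summable_nat_rpow.mpr (by linarith)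
  have hnn : ∀ l : ℕ, (0 : ℝ) ≤ (l : ℝ) ^ (-s) := fun l => by positivity
  have hle1 : ∀ l : ℕ, (l : ℝ) ^ (-s) ≤ 1 := by
    intro l
    rcases Nat.eq_zero_or_pos l with h0 | h0
    · rw [h0, Nat.cast_zero, Real.zero_rpow (by linarith)]
      exact zero_le_one
    · apply Real.rpow_le_one_of_one_le_of_nonpos
      · exact_mod_cast h0
      · linarith
  have e : ∀ B : Set ℕ, (∑' l : B, ((l : ℕ) : ℝ) ^ (-s)) =
      ∑' l : ℕ, B.indicator (fun l : ℕ => (l : ℝ) ^ (-s)) l := fun B =>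
    tsum_subtype B (fun l : ℕ => (l : ℝ) ^ (-s))
  rw [e A, e A1, e A2]
  have i : ∀ B : Set ℕ, Summable (B.indicator (fun l : ℕ => (l : ℝ) ^ (-s))) :=
    fun B => hsum.indicator B
  have hF : (∑' l : ℕ, (F : Set ℕ).indicator (fun l : ℕ => (l : ℝ) ^ (-s)) l) ≤ F.card := by
    rw [← tsum_subtype, Finset.tsum_subtype' F (fun l : ℕ => (l : ℝ) ^ (-s))]
    calc ∑ l ∈ F, (l : ℝ) ^ (-s) ≤ ∑ l ∈ F, (1 : ℝ) := Finset.sum_le_sum (fun l _ => hle1 l)
      _ = F.card := by simp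
  have hkey : (∑' l : ℕ, A.indicator (fun l : ℕ => (l : ℝ) ^ (-s)) l) ≤
      ∑' l : ℕ, (A1.indicator (fun l : ℕ => (l : ℝ) ^ (-s)) l +
        A2.indicator (fun l : ℕ => (l : ℝ) ^ (-s)) l +
        (F : Set ℕ).indicator (fun l : ℕ => (l : ℝ) ^ (-s)) l) := by
    refine (i A).tsum_le_tsum (fun l => ?_) (((i A1).add (i A2)).add (i F))
    have n1 : ∀ B : Set ℕ, (0 : ℝ) ≤ B.indicator (fun l : ℕ => (l : ℝ) ^ (-s)) l :=
      fun B => Set.indicator_nonneg (fun l _ => hnn l) l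
    by_cases hA : l ∈ A
    · rw [Set.indicator_of_mem hA]
      by_cases hlF : l ∈ (F : Set ℕ)
      · have := Set.indicator_of_mem hlF (fun l : ℕ => (l : ℝ) ^ (-s))
        rw [this]
        linarith [n1 A1, n1 A2]
      · rcases h l hA (by simpa using hlF) with h1 | h1
        · have := Set.indicator_of_mem h1 (fun l : ℕ => (l : ℝ) ^ (-s))
          rw [this]
          linarith [n1 F, n1 A2]
        · have := Set.indicator_of_mem h1 (fun l : ℕ => (l : ℝ) ^ (-s))
          rw [this]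
          linarith [n1 F, n1 A1]
    · rw [Set.indicator_of_notMem hA]
      linarith [n1 F, n1 A1, n1 A2]
  rw [((i A1).add (i A2)).tsum_add (i F), (i A1).tsum_add (i A2)] at hkey
  linarith

private theorem D12real (n0 n1 n2 C0 C1 C2 f : ℝ) (h0 : 0 < n0) (h1 : 3 * n0 ≤ n1)
    (h2 : 3 * n0 ≤ n2)
    (h : ∀ s : ℝ, 1 < s → s ≤ 2 → ∃ a0 a1 a2 : ℝ, a0 ≤ a1 + a2 + f ∧
      |a0 - n0⁻¹ * Real.log (1 / (s - 1))| ≤ C0 ∧
      |a1 - n1⁻¹ * Real.log (1 / (s - 1))| ≤ C1 ∧
      |a2 - n2⁻¹ * Real.log (1 / (s - 1))| ≤ C2) : False := by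
  set T : ℝ := max 0 (3 * n0 * (C0 + C1 + C2 + f + 1)) with hT
  have hT0 : 0 ≤ T := le_max_left _ _
  have hT1 : 3 * n0 * (C0 + C1 + C2 + f + 1) ≤ T := le_max_right _ _
  have hs1 : 1 < 1 + Real.exp (-T) := by linarith [Real.exp_pos (-T)]
  have hs2 : 1 + Real.exp (-T) ≤ 2 := by
    have : Real.exp (-T) ≤ 1 := Real.exp_le_one_iff.mpr (by linarith)
    linarith
  obtain ⟨a0, a1, a2, ha, b0, b1, b2⟩ := h _ hs1 hs2
  have hlog : Real.log (1 / (1 + Real.exp (-T) - 1)) = T := by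
    rw [add_sub_cancel_left, one_div, ← Real.exp_neg, neg_neg, Real.log_exp]
  rw [hlog] at b0 b1 b2
  have c0 := (abs_le.mp b0).1
  have c1 := (abs_le.mp b1).2
  have c2 := (abs_le.mp b2).2
  have i1 : n1⁻¹ ≤ (3 * n0)⁻¹ := inv_anti₀ (by positivity) h1
  have i2 : n2⁻¹ ≤ (3 * n0)⁻¹ := inv_anti₀ (by positivity) h2
  have j1 : n1⁻¹ * T ≤ (3 * n0)⁻¹ * T := mul_le_mul_of_nonneg_right i1 hT0
  have j2 : n2⁻¹ * T ≤ (3 * n0)⁻¹ * T := mul_le_mul_of_nonneg_right i2 hT0
  have k0 : n0⁻¹ * T = 3 * ((3 * n0)⁻¹ * T) := by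
    field_simp
  have k1 : (3 * n0)⁻¹ * T ≤ C0 + C1 + C2 + f := by linarith
  have k2 : C0 + C1 + C2 + f + 1 ≤ (3 * n0)⁻¹ * T := by
    have h3 : (0 : ℝ) < (3 * n0)⁻¹ := by positivity
    have h4 := mul_le_mul_of_nonneg_left hT1 h3.le
    have h5 : (3 * n0)⁻¹ * (3 * n0 * (C0 + C1 + C2 + f + 1)) = C0 + C1 + C2 + f + 1 := by
      field_simp
    rw [h5] at h4
    exact h4
  linarith

private theorem D12gal (L : Type) [Field L] [NumberField L] [IsGalois ℚ L]
    (H : Subgroup (L ≃ₐ[ℚ] L)) (n : H.Normal) :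
    IsGalois ℚ (IntermediateField.fixedField H) := by
  have := IsGalois.of_fixedField_normal_subgroup H
  exact this

private theorem D12fin (L : Type) [Field L] [NumberField L] [IsGalois ℚ L]
    (H : Subgroup (L ≃ₐ[ℚ] L)) :
    Module.finrank ℚ (IntermediateField.fixedField H) * Nat.card H = Module.finrank ℚ L := by
  rw [← IntermediateField.finrank_fixedField_eq_card H]
  exact Module.finrank_mul_finrank ℚ (IntermediateField.fixedField H) L

theorem exists_frobElem (L : Type) [Field L] [NumberField L] [IsGalois ℚ L]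
    (H0 H1 H2 : Subgroup (L ≃ₐ[ℚ] L)) (n0 : H0.Normal) (n1 : H1.Normal) (n2 : H2.Normal)
    (h1 : 3 * Nat.card H1 ≤ Nat.card H0) (h2 : 3 * Nat.card H2 ≤ Nat.card H0) (F : Finset ℕ) :
    ∃ l : ℕ, l.Prime ∧ l ∉ F ∧ ∃ (Q : Ideal (𝓞 L)) (σ : L ≃ₐ[ℚ] L), Frb L l Q σ ∧ σ ∈ H0 ∧
      σ ∉ H1 ∧ σ ∉ H2 := by
  have g0 : IsGalois ℚ (IntermediateField.fixedField H0) := D12gal L H0 n0
  have g1 : IsGalois ℚ (IntermediateField.fixedField H1) := D12gal L H1 n1
  have g2 : IsGalois ℚ (IntermediateField.fixedField H2) := D12gal L H2 n2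
  by_cases hall : ∀ l ∈ TN (IntermediateField.fixedField H0), l ∉ F →
      l ∈ TN (IntermediateField.fixedField H1) ∨ l ∈ TN (IntermediateField.fixedField H2)
  · exfalso
    obtain ⟨C0, hC0⟩ := spl_sum (IntermediateField.fixedField H0)
    obtain ⟨C1, hC1⟩ := spl_sum (IntermediateField.fixedField H1)
    obtain ⟨C2, hC2⟩ := spl_sum (IntermediateField.fixedField H2)
    have p0 : 0 < Module.finrank ℚ (IntermediateField.fixedField H0) := Module.finrank_pos
    have p1 : 0 < Module.finrank ℚ (IntermediateField.fixedField H1) := Module.finrank_pos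
    have p2 : 0 < Module.finrank ℚ (IntermediateField.fixedField H2) := Module.finrank_pos
    have f0 := D12fin L H0
    have f1 := D12fin L H1
    have f2 := D12fin L H2
    have q1 : 0 < Nat.card H1 := Nat.card_pos
    have q2 : 0 < Nat.card H2 := Nat.card_pos
    have r1 : 3 * Module.finrank ℚ (IntermediateField.fixedField H0) ≤
        Module.finrank ℚ (IntermediateField.fixedField H1) := by
      by_contra hc
      push Not at hc
      have := Nat.mul_le_mul_left (Module.finrank ℚ (IntermediateField.fixedField H0)) h1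
      have h3 := Nat.mul_lt_mul_of_pos_right hc q1
      rw [f1] at h3
      rw [f0] at this
      have h4 : Module.finrank ℚ (IntermediateField.fixedField H0) * (3 * Nat.card H1) =
        3 * Module.finrank ℚ (IntermediateField.fixedField H0) * Nat.card H1 := by ring
      omega
    have r2 : 3 * Module.finrank ℚ (IntermediateField.fixedField H0) ≤
        Module.finrank ℚ (IntermediateField.fixedField H2) := by
      by_contra hc
      push Not at hc
      have := Nat.mul_le_mul_left (Module.finrank ℚ (IntermediateField.fixedField H0)) h2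
      have h3 := Nat.mul_lt_mul_of_pos_right hc q2
      rw [f2] at h3
      rw [f0] at this
      have h4 : Module.finrank ℚ (IntermediateField.fixedField H0) * (3 * Nat.card H2) =
        3 * Module.finrank ℚ (IntermediateField.fixedField H0) * Nat.card H2 := by ring
      omega
    refine D12real (Module.finrank ℚ (IntermediateField.fixedField H0))
      (Module.finrank ℚ (IntermediateField.fixedField H1))
      (Module.finrank ℚ (IntermediateField.fixedField H2)) C0 C1 C2 F.card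
      (by exact_mod_cast p0) (by exact_mod_cast r1) (by exact_mod_cast r2) ?_
    intro s hs1 hs2
    exact ⟨_, _, _, D12tsum s hs1 _ _ _ F hall, hC0 s hs1 hs2, hC1 s hs1 hs2, hC2 s hs1 hs2⟩
  · push Not at hall
    obtain ⟨l, hl0, hlF, hl1, hl2⟩ := hall
    obtain ⟨Q, σ, hQ, hσ⟩ := frob_of_norm L H0 l hl0
    refine ⟨l, hl0.1, hlF, Q, σ, hQ, hσ, fun h => hl1 ?_, fun h => hl2 ?_⟩
    · exact norm_of_frob L H1 l hl0.1 Q σ hQ h
    · exact norm_of_frob L H2 l hl0.1 Q σ hQ h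

end Pool.Agent.RG
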