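import Mathlib
import Pool.Agent.Lib.RG.DDefs

/-!
RG campaign, D13: Frobenius elements, roots of unity and radicals.

`frob_mu`: as in `AlgHom.IsArithFrobAt.apply_of_pow_eq_one` (`l` does not divide `M`).
`frob_rad`: let `ζ` be a primitive `p`-th root of unity in `L`, `β ^ p = b`, `l ∤ b`, `l ≠ p`,
`l = 1` mod `p`. `σ β = ζ ^ k β`. If `σ β = β`: `β ^ (l - 1) - 1 ∈ Q` (β is a unit mod `Q`), i.e.
`b ^ ((l-1)/p) = 1` in `𝓞 L ⧸ Q`, hence in `ZMod l`, hence `b` is a `p`-th power in `ZMod l`. Conversely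
if `b = x ^ p` in `ZMod l` then `b ^ ((l-1)/p) = 1`, so `σ β - β ∈ Q`, `(ζ ^ k - 1) * β ∈ Q`,
`ζ ^ k - 1 ∈ Q`, `ζ ^ k = 1` (`p = ∏ (1 - ζ ^ i) ∉ Q`).
-/

set_option autoImplicit false

namespace Pool.Agent.RG

open NumberField IsDedekindDomain

private theorem mem_iff_dvd {L : Type} [Field L] [NumberField L] {l : ℕ} (hl : l.Prime)
    {Q : Ideal (𝓞 L)} (hQ : Q.IsPrime) (hm : (l : 𝓞 L) ∈ Q) (n : ℤ) :
    (n : 𝓞 L) ∈ Q ↔ (l : ℤ) ∣ n := by
  have hlp : Prime (l : ℤ) := Nat.prime_iff_prime_int.mp hl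
  constructor
  · intro h
    by_contra hn
    have hcop : IsCoprime (l : ℤ) n := (Irreducible.coprime_iff_not_dvd hlp.irreducible).2 hn
    obtain ⟨a, b, hab⟩ := hcop
    apply hQ.ne_top
    rw [Ideal.eq_top_iff_one]
    have h1 : (1 : 𝓞 L) = (a : 𝓞 L) * (l : 𝓞 L) + (b : 𝓞 L) * (n : 𝓞 L) := by
      have := congrArg (fun z : ℤ => (z : 𝓞 L)) hab
      push_cast at this
      exact this.symm
    rw [h1]
    exact Q.add_mem (Q.mul_mem_left _ hm) (Q.mul_mem_left _ h)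
  · rintro ⟨c, rfl⟩
    push_cast
    exact Q.mul_mem_right _ hm

private theorem under_eq {L : Type} [Field L] [NumberField L] {l : ℕ} (hl : l.Prime)
    {Q : Ideal (𝓞 L)} (hQ : Q.IsPrime) (hm : (l : 𝓞 L) ∈ Q) :
    Q.under ℤ = Ideal.span {(l : ℤ)} := by
  ext n
  rw [Ideal.mem_span_singleton, ← mem_iff_dvd hl hQ hm n]
  show algebraMap ℤ (𝓞 L) n ∈ Q ↔ _
  rw [eq_intCast]

private theorem card_under {L : Type} [Field L] [NumberField L] {l : ℕ} (hl : l.Prime)
    {Q : Ideal (𝓞 L)} (hQ : Q.IsPrime) (hm : (l : 𝓞 L) ∈ Q) :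
    Nat.card (ℤ ⧸ Q.under ℤ) = l := by
  rw [under_eq hl hQ hm, Nat.card_congr (Int.quotientSpanNatEquivZMod l).toEquiv, Nat.card_zmod]

theorem frob_mu (L : Type) [Field L] [NumberField L] (l : ℕ) (hl : l.Prime) (Q : Ideal (𝓞 L))
    (σ : L ≃ₐ[ℚ] L) (h : Frb L l Q σ) (M : ℕ) (hM : ¬ l ∣ M) (ξ : L) (hξ : ξ ^ M = 1) :
    σ ξ = ξ ^ l := by
  have hM0 : M ≠ 0 := by
    rintro rfl
    exact hM (dvd_zero l)
  have hint : IsIntegral ℤ ξ := IsIntegral.of_pow (Nat.pos_of_ne_zero hM0) (by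
    rw [hξ]
    exact isIntegral_one)
  let X : 𝓞 L := ⟨ξ, hint⟩
  have hX : X ^ M = 1 := RingOfIntegers.ext (by
    show ξ ^ M = 1
    exact hξ)
  have H : (MulSemiringAction.toAlgHom ℤ (𝓞 L) σ).IsArithFrobAt Q := by
    intro x
    rw [card_under hl h.pr h.mem]
    exact h.frob x
  have h1 := H.apply_of_pow_eq_one hX (by
    intro h2
    have h3 := (mem_iff_dvd hl h.pr h.mem (M : ℤ)).1 (by push_cast; exact h2)
    exact hM (Int.natCast_dvd_natCast.1 h3))
  rw [card_under hl h.pr h.mem] at h1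
  exact congrArg (fun z : 𝓞 L => (z : L)) h1

/-- power residues and the Euler criterion -/
private theorem pp_iff {p b l n : ℕ} (hl : l.Prime) (hn : l = p * n + 1) (hb : ¬ l ∣ b) :
    PP p b l ↔ (b : ZMod l) ^ n = 1 := by
  have : Fact l.Prime := ⟨hl⟩
  have hn0 : n ≠ 0 := by
    rintro rfl
    rw [mul_zero, zero_add] at hn
    exact hl.one_lt.ne' hn
  have hb0 : (b : ZMod l) ≠ 0 := by
    rwa [Ne, ZMod.natCast_eq_zero_iff]
  constructor
  · rintro ⟨x, hx⟩
    have hx0 : x ≠ 0 := by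
      rintro rfl
      apply hb0
      rw [← hx]
      apply zero_pow
      rintro rfl
      rw [zero_mul, zero_add] at hn
      exact hl.one_lt.ne' hn
    have h2 : p * n = l - 1 := by omega
    rw [← hx, ← pow_mul, h2]
    exact ZMod.pow_card_sub_one_eq_one hx0
  · intro h
    obtain ⟨g, hg⟩ := IsCyclic.exists_generator (α := (ZMod l)ˣ)
    have hord : orderOf g = p * n := by
      rw [orderOf_eq_card_of_forall_mem_zpowers hg, Nat.card_eq_fintype_card,
        ZMod.card_units_eq_totient, Nat.totient_prime hl, hn, Nat.add_sub_cancel]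
    let u : (ZMod l)ˣ := Units.mk0 _ hb0
    obtain ⟨j, hj⟩ := Subgroup.mem_zpowers_iff.1 (hg u)
    have h1 : u ^ n = 1 := Units.ext (by
      push_cast
      exact h)
    rw [← hj, ← zpow_natCast, ← zpow_mul, ← orderOf_dvd_iff_zpow_eq_one, hord] at h1
    push_cast at h1
    have h2 : (p : ℤ) ∣ j := Int.dvd_of_mul_dvd_mul_right (by exact_mod_cast hn0) h1
    obtain ⟨i, rfl⟩ := h2
    refine ⟨((g ^ i : (ZMod l)ˣ) : ZMod l), ?_⟩
    have h3 : (g ^ i) ^ p = u := by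
      rw [← hj, ← zpow_natCast, ← zpow_mul, mul_comm]
    have h4 : (((g ^ i) ^ p : (ZMod l)ˣ) : ZMod l) = b := by
      rw [h3]
      rfl
    rw [← h4]
    rfl

theorem frob_rad (L : Type) [Field L] [NumberField L] (l : ℕ) (hl : l.Prime) (Q : Ideal (𝓞 L))
    (σ : L ≃ₐ[ℚ] L) (h : Frb L l Q σ) (p : ℕ) [Fact p.Prime] (hlp : l % p = 1)
    (ζ : L) (hζ : IsPrimitiveRoot ζ p) (b : ℕ) (hb : ¬ l ∣ b) (β : L) (hβ : β ^ p = (b : L)) :
    σ β = β ↔ PP p b l := by
  have hp : p.Prime := Fact.out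
  have : NeZero p := ⟨hp.ne_zero⟩
  have hlne : ¬ l ∣ p := by
    intro h1
    have h2 := (Nat.prime_dvd_prime_iff_eq hl hp).1 h1
    rw [h2, Nat.mod_self] at hlp
    exact zero_ne_one hlp
  obtain ⟨n, hn⟩ : ∃ n, l = p * n + 1 := ⟨l / p, by
    have := Nat.div_add_mod l p
    omega⟩
  rw [pp_iff hl hn hb]
  have hint : IsIntegral ℤ β := IsIntegral.of_pow hp.pos (by
    rw [hβ]
    exact isIntegral_algebraMap (R := ℤ) (A := L) (x := (b : ℤ)) |> fun h => by simpa using h)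
  have hmem := mem_iff_dvd hl h.pr h.mem
  let B : 𝓞 L := ⟨β, hint⟩
  have hB : B ^ p = (b : 𝓞 L) := RingOfIntegers.ext (by
    show β ^ p = _
    rw [hβ]
    simp)
  have hBQ : B ∉ Q := by
    intro h1
    have h2 : (b : 𝓞 L) ∈ Q := by
      rw [← hB]
      exact Q.pow_mem_of_mem h1 p hp.pos
    have h3 := (hmem (b : ℤ)).1 (by push_cast; exact h2)
    exact hb (Int.natCast_dvd_natCast.1 h3)
  have hBl : B ^ l = B * (b : 𝓞 L) ^ n := by
    rw [hn, pow_succ, pow_mul, hB, mul_comm]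
  have hfr := h.frob B
  rw [hBl] at hfr
  have hbn : (b : ZMod l) ^ n = 1 ↔ (b : 𝓞 L) ^ n - 1 ∈ Q := by
    have h1 := hmem ((b : ℤ) ^ n - 1)
    push_cast at h1
    rw [h1, ← ZMod.intCast_zmod_eq_zero_iff_dvd]
    push_cast
    rw [sub_eq_zero]
  have hσB : ((σ • B : 𝓞 L) : L) = σ β := rfl
  constructor
  · intro h1
    rw [hbn]
    have h2 : σ • B = B := RingOfIntegers.ext h1
    rw [h2] at hfr
    have h3 : B * (1 - (b : 𝓞 L) ^ n) ∈ Q := by
      have : B * (1 - (b : 𝓞 L) ^ n) = B - B * (b : 𝓞 L) ^ n := by ring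
      rwa [this]
    have h4 := (h.pr.mem_or_mem h3).resolve_left hBQ
    rw [← neg_sub]
    exact Q.neg_mem h4
  · intro h1
    rw [hbn] at h1
    have hβ0 : β ≠ 0 := by
      intro h2
      apply hBQ
      have : B = 0 := RingOfIntegers.ext h2
      rw [this]
      exact Q.zero_mem
    have h2 : σ • B - B ∈ Q := by
      have : σ • B - B = (σ • B - B * (b : 𝓞 L) ^ n) + B * ((b : 𝓞 L) ^ n - 1) := by ring
      rw [this]
      exact Q.add_mem hfr (Q.mul_mem_left _ h1)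
    have h3 : (σ β / β) ^ p = 1 := by
      rw [div_pow, ← map_pow, hβ, map_natCast, div_self]
      intro h4
      rw [h4] at hβ
      exact hβ0 (eq_zero_of_pow_eq_zero hβ)
    obtain ⟨k, -, hk⟩ := hζ.eq_pow_of_pow_eq_one h3
    have hk' : σ β = ζ ^ k * β := by
      rw [hk, div_mul_cancel₀ _ hβ0]
    let Z : 𝓞 L := hζ.toInteger
    have hZ : IsPrimitiveRoot Z p := hζ.toInteger_isPrimitiveRoot
    have h4 : σ • B = Z ^ k * B := RingOfIntegers.ext hk'
    rw [h4] at h2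
    have h5 : (Z ^ k - 1) * B ∈ Q := by
      have : (Z ^ k - 1) * B = Z ^ k * B - B := by ring
      rwa [this]
    have h6 := (h.pr.mem_or_mem h5).resolve_right hBQ
    by_cases h7 : Z ^ k = 1
    · have h8 : ζ ^ k = 1 := congrArg (fun z : 𝓞 L => (z : L)) h7
      rw [hk', h8, one_mul]
    · exfalso
      have h8 : (Z ^ k) ^ p = 1 := by
        rw [← pow_mul, mul_comm, pow_mul, hZ.pow_eq_one, one_pow]
      have h9 : ∑ i ∈ Finset.range p, (Z ^ k) ^ i = 0 := by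
        have := geom_sum_mul (Z ^ k) p
        rw [h8, sub_self, mul_eq_zero] at this
        exact this.resolve_right (sub_ne_zero.2 h7)
      have h10 : ∀ i ∈ Finset.range p, (Z ^ k) ^ i - 1 ∈ Q := by
        intro i _
        obtain ⟨c, hc⟩ := sub_dvd_pow_sub_pow (Z ^ k) 1 i
        rw [one_pow] at hc
        rw [hc]
        exact Q.mul_mem_right _ h6
      have h11 := Q.sum_mem h10
      rw [Finset.sum_sub_distrib, h9, zero_sub, Finset.sum_const, Finset.card_range, nsmul_eq_mul,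
        mul_one, Q.neg_mem_iff] at h11
      have h12 := (hmem (p : ℤ)).1 (by push_cast; exact h11)
      exact hlne (Int.natCast_dvd_natCast.1 h12)

end Pool.Agent.RG
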