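import Mathlib

/-!
RG campaign, D14: a group lemma. (`relIndex` is neither `1` nor `2`: otherwise `σ ^ 2 ∈ H₁`,
`σ ^ p ∈ H₁`, `p` odd.)
-/

set_option autoImplicit false

namespace Pool.Agent.RG

theorem card_three {G : Type} [Group G] [Finite G] (H0 H1 : Subgroup G) (hle : H1 ≤ H0)
    (hn : H1.Normal) (p : ℕ) (hp : p % 2 = 1) (σ : G) (h0 : σ ∈ H0) (h1 : σ ∉ H1)
    (h2 : σ ^ p ∈ H1) : 3 * Nat.card H1 ≤ Nat.card H0 := by
  have hcard : Nat.card (H1.subgroupOf H0) = Nat.card H1 :=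
    Nat.card_congr (Subgroup.subgroupOfEquivOfLe hle).toEquiv
  have hmul := (H1.subgroupOf H0).card_mul_index
  rw [hcard] at hmul
  have hne0 : (H1.subgroupOf H0).index ≠ 0 := Subgroup.index_ne_zero_of_finite
  have hne1 : (H1.subgroupOf H0).index ≠ 1 := by
    intro h
    rw [Subgroup.index_eq_one, Subgroup.subgroupOf_eq_top] at h
    exact h1 (h h0)
  have hne2 : (H1.subgroupOf H0).index ≠ 2 := by
    intro h
    have hsq := Subgroup.sq_mem_of_index_two h (⟨σ, h0⟩ : H0)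
    rw [Subgroup.mem_subgroupOf] at hsq
    have hsq' : σ ^ 2 ∈ H1 := by simpa using hsq
    obtain ⟨k, hk⟩ : ∃ k, p = 2 * k + 1 := ⟨p / 2, by omega⟩
    rw [hk, pow_succ, pow_mul] at h2
    exact h1 ((Subgroup.mul_mem_cancel_left H1 (H1.pow_mem hsq' k)).1 h2)
  have hge : 3 ≤ (H1.subgroupOf H0).index := by omega
  rw [← hmul, mul_comm]
  exact Nat.mul_le_mul_left _ hge

end Pool.Agent.RG
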