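import Mathlib
import Pool.Agent.Lib.RG.DDefs
import Pool.Agent.Lib.RG.D06
import Pool.Agent.Lib.RG.D12
import Pool.Agent.Lib.RG.D13
import Pool.Agent.Lib.RG.D14

/-!
RG campaign, D15: the step lemma.

Proof. `M = p ∏ q`, `M' = M / t`, `L` = the splitting field in `Om` of
`(X ^ M - 1) ∏ (X ^ p - q)`, `H₀` = automorphisms of `L` which fix the `M'`-th roots of unity and the
`p`-th roots of `q ∈ Q`, `q ≠ u`; `H₁` = those in `H₀` which act on `μ_t` by a `p`-th power (mod `t`);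
`H₂` = those in `H₀` which fix the `p`-th roots of `u`.
-/

set_option autoImplicit false

namespace Pool.Agent.RG

open NumberField IsDedekindDomain IntermediateField

private theorem acl_om : IsAlgClosure ℚ Om := by
  have h : ∀ (i : Algebra ℚ Om), @Algebra.IsAlgebraic ℚ Om _ _ i := by
    intro i
    have h1 : i = AlgebraicClosure.instAlgebra ℚ := Subsingleton.elim _ _
    rw [h1]
    exact AlgebraicClosure.isAlgebraic ℚ
  exact ⟨inferInstance, h _⟩

/-- the generators of the field -/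
private def gens (p M : ℕ) (Q : Finset ℕ) : Set Om :=
  {x | x ^ M = 1} ∪ {x | ∃ q ∈ Q, x ^ p = (q : Om)}

private theorem gens_finite (p M : ℕ) (Q : Finset ℕ) (hp : 0 < p) (hM : 0 < M) :
    (gens p M Q).Finite := by
  classical
  refine Set.Finite.union ?_ ?_
  · refine ((Polynomial.nthRoots M (1 : Om)).toFinset.finite_toSet).subset fun x hx => ?_
    simp only [Finset.mem_coe, Multiset.mem_toFinset]
    exact (Polynomial.mem_nthRoots hM).mpr hx
  · refine ((Q.biUnion fun q => (Polynomial.nthRoots p (q : Om)).toFinset).finite_toSet).subset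
      fun x hx => ?_
    obtain ⟨q, hq, hx⟩ := hx
    simp only [Finset.mem_coe, Finset.mem_biUnion, Multiset.mem_toFinset]
    exact ⟨q, hq, (Polynomial.mem_nthRoots hp).mpr hx⟩

private theorem gal_rat {E : Type} [Field E] [CharZero E] (i : Algebra ℚ E)
    (h : @IsGalois ℚ _ E _ i) : IsGalois ℚ E := by
  have h1 : i = DivisionRing.toRatAlgebra := Subsingleton.elim _ _
  subst h1
  exact h

private theorem fd_rat {E : Type} [Field E] [CharZero E] (i : Algebra ℚ E)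
    (h : @Module.Finite ℚ E _ _ i.toModule) : FiniteDimensional ℚ E := by
  have h1 : i = DivisionRing.toRatAlgebra := Subsingleton.elim _ _
  subst h1
  exact h

/-- the field -/
private theorem exists_field (p M : ℕ) (hp : 0 < p) (hM : 0 < M) (Q : Finset ℕ) :
    ∃ (L : Type) (_ : Field L) (_ : NumberField L) (_ : IsGalois ℚ L) (ι : L →+* Om),
      (∀ x : Om, x ^ M = 1 → ∃ y : L, ι y = x) ∧
      (∀ q ∈ Q, ∀ x : Om, x ^ p = (q : Om) → ∃ y : L, ι y = x) ∧
      ∀ σ : Om ≃ₐ[ℚ] Om, ∃ σ' : L ≃ₐ[ℚ] L, ∀ x : L, ι (σ' x) = σ (ι x) := by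
  have hacl := acl_om
  have halg : Algebra.IsAlgebraic ℚ Om := hacl.isAlgebraic
  have hnOm : Normal ℚ Om := IsAlgClosure.normal ℚ Om
  have hfin : Finite (gens p M Q) := (gens_finite p M Q hp hM).to_subtype
  let L : IntermediateField ℚ Om := adjoin ℚ (gens p M Q)
  have hmap : ∀ σ : Om →ₐ[ℚ] Om, L.map σ ≤ L := by
    intro σ
    change (adjoin ℚ (gens p M Q)).map σ ≤ adjoin ℚ (gens p M Q)
    rw [adjoin_map]
    refine adjoin.mono _ _ _ ?_
    rintro _ ⟨x, hx, rfl⟩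
    rcases hx with hx | ⟨q, hq, hx⟩
    · left
      have h1 : x ^ M = 1 := hx
      change (σ x) ^ M = 1
      rw [← map_pow, h1, map_one]
    · right
      refine ⟨q, hq, ?_⟩
      rw [← map_pow, hx, map_natCast]
  have hn := (normal_iff_forall_map_le (K := L)).mpr hmap
  have hfd := finiteDimensional_adjoin (K := ℚ) (S := gens p M Q)
    fun x _ => (Algebra.IsAlgebraic.isAlgebraic (R := ℚ) x).isIntegral
  have hcz : CharZero L := inferInstance
  have hfd2 : FiniteDimensional ℚ L := fd_rat _ hfd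
  have hnf : NumberField L := @NumberField.mk L _ hcz hfd2
  have hsep := @Algebra.IsAlgebraic.isSeparable_of_perfectField ℚ L _ _ _ _ _
  have hg := @IsGalois.mk ℚ _ L _ _ hsep hn
  have hg2 : IsGalois ℚ L := gal_rat _ hg
  have hst : IsScalarTower ℚ L Om := IsScalarTower.of_algebraMap_eq' (Subsingleton.elim _ _)
  refine ⟨L, inferInstance, hnf, hg2, algebraMap L Om, ?_, ?_, ?_⟩
  · exact fun x hx => ⟨⟨x, subset_adjoin _ _ (Or.inl hx)⟩, rfl⟩
  · exact fun q hq x hx => ⟨⟨x, subset_adjoin _ _ (Or.inr ⟨q, hq, hx⟩)⟩, rfl⟩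
  · intro σ
    exact ⟨σ.restrictNormal L, fun x => σ.restrictNormal_commutes L x⟩

/-- the subgroup of automorphisms fixing a set -/
private def FS {L : Type} [Field L] [Algebra ℚ L] (S : Set L) : Subgroup (L ≃ₐ[ℚ] L) where
  carrier := {σ | ∀ x ∈ S, σ x = x}
  mul_mem' := by
    intro a b ha hb x hx
    rw [AlgEquiv.mul_apply, hb x hx, ha x hx]
  one_mem' := fun x _ => rfl
  inv_mem' := by
    intro a ha x hx
    have := ha x hx
    calc a⁻¹ x = a⁻¹ (a x) := by rw [this]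
      _ = x := by rw [← AlgEquiv.mul_apply, inv_mul_cancel, AlgEquiv.one_apply]

private theorem FS_normal {L : Type} [Field L] [Algebra ℚ L] (S : Set L)
    (hS : ∀ g : L ≃ₐ[ℚ] L, ∀ x ∈ S, g x ∈ S) : (FS S).Normal := by
  refine ⟨fun σ hσ g x hx => ?_⟩
  have h1 := hσ _ (hS g⁻¹ x hx)
  rw [AlgEquiv.mul_apply, AlgEquiv.mul_apply, h1, ← AlgEquiv.mul_apply, mul_inv_cancel,
    AlgEquiv.one_apply]

/-- not every unit modulo `t` is a `p`-th power -/
private theorem exists_nonpow (p t : ℕ) [Fact p.Prime] (ht : t.Prime) (h : t % p = 1) :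
    ∃ g : (ZMod t)ˣ, g ∉ (powMonoidHom p : (ZMod t)ˣ →* (ZMod t)ˣ).range := by
  have : Fact t.Prime := ⟨ht⟩
  by_contra hcon
  push Not at hcon
  have hsurj : Function.Surjective (powMonoidHom p : (ZMod t)ˣ →* (ZMod t)ˣ) := fun x => hcon x
  have hinj := Finite.injective_iff_surjective.mpr hsurj
  have hp := Fact.out (p := p.Prime)
  have hdvd : p ∣ Nat.card (ZMod t)ˣ := by
    rw [Nat.card_eq_fintype_card, ZMod.card_units]
    exact (Nat.modEq_iff_dvd' ht.one_le).mp (by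
      rw [Nat.ModEq, Nat.mod_eq_of_lt hp.one_lt, h])
  obtain ⟨x, hx⟩ := exists_prime_orderOf_dvd_card' p hdvd
  have h1 : powMonoidHom p x = powMonoidHom p (1 : (ZMod t)ˣ) := by
    simp only [powMonoidHom_apply, one_pow]
    rw [← hx]
    exact pow_orderOf_eq_one x
  have h2 := hinj h1
  rw [h2, orderOf_one] at hx
  exact hp.one_lt.ne hx

private theorem prim_modEq {L : Type} [Field L] {v : L} {n : ℕ} (hv : IsPrimitiveRoot v n)
    (hn : 0 < n) {a b : ℕ} (h : v ^ a = v ^ b) : a ≡ b [MOD n] := by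
  refine hv.pow_inj (Nat.mod_lt _ hn) (Nat.mod_lt _ hn) ?_
  rw [← pow_eq_pow_mod a hv.pow_eq_one, ← pow_eq_pow_mod b hv.pow_eq_one, h]

theorem step (p : ℕ) [Fact p.Prime] (hp : p ≠ 2) (Q : Finset ℕ) (hQ : ∀ q ∈ Q, q.Prime ∧ q % p = 1)
    (t u : ℕ) (ht : t ∈ Q) (hu : u ∈ Q) (F : Finset ℕ) :
    ∃ l : ℕ, l ∉ F ∧ l.Prime ∧ l % p = 1 ∧ (∀ q ∈ Q, (PP p l q ↔ q ≠ t)) ∧
      ∀ q ∈ Q, (PP p q l ↔ q ≠ u) := by
  classical
  have hpp : p.Prime := Fact.out
  have hp0 : 0 < p := hpp.pos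
  have htp : t.Prime := (hQ t ht).1
  have : Fact t.Prime := ⟨htp⟩
  have : NeZero t := ⟨htp.ne_zero⟩
  -- the moduli
  set M' : ℕ := p * ∏ q ∈ Q.erase t, q with hM'
  set M : ℕ := M' * t with hM
  have hM'0 : 0 < M' := by
    refine Nat.mul_pos hp0 (Finset.prod_pos fun q hq => ?_)
    exact (hQ q (Finset.mem_of_mem_erase hq)).1.pos
  have hM0 : 0 < M := Nat.mul_pos hM'0 htp.pos
  have hpM' : p ∣ M' := Dvd.intro _ rfl
  have hpM : p ∣ M := hpM'.mul_right t
  have hqM' : ∀ q ∈ Q, q ≠ t → q ∣ M' := fun q hq hqt =>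
    (Finset.dvd_prod_of_mem (fun q => q) (Finset.mem_erase.mpr ⟨hqt, hq⟩)).mul_left p
  have hne : ∀ q ∈ Q, q ≠ p := by
    intro q hq h
    have := (hQ q hq).2
    rw [h, Nat.mod_self] at this
    exact zero_ne_one this
  have hcop : M'.Coprime t := by
    rw [hM']
    refine Nat.Coprime.mul_left ?_ ?_
    · exact (Nat.coprime_primes hpp htp).mpr (hne t ht).symm
    · refine Nat.Coprime.prod_left fun q hq => ?_
      exact (Nat.coprime_primes (hQ q (Finset.mem_of_mem_erase hq)).1 htp).mpr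
        (Finset.ne_of_mem_erase hq)
  -- roots in `Om`
  have : NeZero p := ⟨hpp.ne_zero⟩
  obtain ⟨ζ, hζ⟩ := HasEnoughRootsOfUnity.exists_primitiveRoot Om p
  have hβ : ∀ b : ℕ, ∃ z : Om, z ^ p = (b : Om) := fun b =>
    IsAlgClosed.exists_pow_nat_eq (b : Om) hp0
  choose β hβ using hβ
  -- the field
  obtain ⟨L, iF, iN, iG, ι, hmem1, hmem2, hrest⟩ := exists_field p M hp0 hM0 Q
  have hι : Function.Injective ι := ι.injective
  have hζM : ζ ^ M = 1 := (hζ.pow_eq_one_iff_dvd M).mpr hpM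
  obtain ⟨z, hz⟩ := hmem1 ζ hζM
  have hzp : IsPrimitiveRoot z p := IsPrimitiveRoot.of_map_of_injective (f := ι) (by rwa [hz]) hι
  have : NeZero M' := ⟨hM'0.ne'⟩
  obtain ⟨ω, hω⟩ := HasEnoughRootsOfUnity.exists_primitiveRoot Om M'
  obtain ⟨τ, hτ⟩ := HasEnoughRootsOfUnity.exists_primitiveRoot Om t
  have hωM : ω ^ M = 1 := (hω.pow_eq_one_iff_dvd M).mpr (Dvd.intro _ rfl)
  have hτM : τ ^ M = 1 := (hτ.pow_eq_one_iff_dvd M).mpr (Dvd.intro_left _ rfl)
  obtain ⟨w, hw⟩ := hmem1 ω hωM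
  obtain ⟨v, hv⟩ := hmem1 τ hτM
  have hwp : IsPrimitiveRoot w M' := IsPrimitiveRoot.of_map_of_injective (f := ι) (by rwa [hw]) hι
  have hvp : IsPrimitiveRoot v t := IsPrimitiveRoot.of_map_of_injective (f := ι) (by rwa [hv]) hι
  -- the groups
  obtain ⟨H0, n0, g0⟩ : ∃ H : Subgroup (L ≃ₐ[ℚ] L), H.Normal ∧ ∀ σ, σ ∈ H ↔
      ((∀ x : L, x ^ M' = 1 → σ x = x) ∧ ∀ q ∈ Q, q ≠ u → ∀ x : L, x ^ p = (q : L) → σ x = x) := by
    refine ⟨FS ({x | x ^ M' = 1} ∪ {x | ∃ q ∈ Q, q ≠ u ∧ x ^ p = (q : L)}), FS_normal _ ?_, ?_⟩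
    · intro g x hx
      rcases hx with hx | ⟨q, hq, hqu, hx⟩
      · left
        have h1 : x ^ M' = 1 := hx
        change (g x) ^ M' = 1
        rw [← map_pow, h1, map_one]
      · right
        refine ⟨q, hq, hqu, ?_⟩
        rw [← map_pow, hx, map_natCast]
    · intro σ
      constructor
      · intro h
        exact ⟨fun x hx => h x (Or.inl hx), fun q hq hqu x hx => h x (Or.inr ⟨q, hq, hqu, hx⟩)⟩
      · rintro ⟨h1, h2⟩ x (hx | ⟨q, hq, hqu, hx⟩)
        · exact h1 x hx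
        · exact h2 q hq hqu x hx
  obtain ⟨H1, n1, g1⟩ : ∃ H : Subgroup (L ≃ₐ[ℚ] L), H.Normal ∧ ∀ σ, σ ∈ H ↔
      (σ ∈ H0 ∧ ∃ y : (ZMod t)ˣ, hvp.autToPow ℚ σ = y ^ p) := by
    refine ⟨H0 ⊓ (powMonoidHom p : (ZMod t)ˣ →* (ZMod t)ˣ).range.comap (hvp.autToPow ℚ), ?_, ?_⟩
    · have nK : ((powMonoidHom p : (ZMod t)ˣ →* (ZMod t)ˣ).range.comap
          (hvp.autToPow ℚ)).Normal := Subgroup.Normal.comap inferInstance _
      exact Subgroup.normal_inf_normal _ _
    · intro σ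
      rw [Subgroup.mem_inf, Subgroup.mem_comap, MonoidHom.mem_range]
      simp only [powMonoidHom_apply, eq_comm]
  obtain ⟨H2, n2, g2⟩ : ∃ H : Subgroup (L ≃ₐ[ℚ] L), H.Normal ∧ ∀ σ, σ ∈ H ↔
      (σ ∈ H0 ∧ ∀ x : L, x ^ p = (u : L) → σ x = x) := by
    have nF : (FS {x : L | x ^ p = (u : L)}).Normal := FS_normal _ (by
      intro g x hx
      have h1 : x ^ p = (u : L) := hx
      change (g x) ^ p = (u : L)
      rw [← map_pow, h1, map_natCast])
    exact ⟨H0 ⊓ FS {x : L | x ^ p = (u : L)}, Subgroup.normal_inf_normal _ _, fun σ => Iff.rfl⟩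
  have hle1 : H1 ≤ H0 := fun σ hσ => ((g1 σ).mp hσ).1
  have hle2 : H2 ≤ H0 := fun σ hσ => ((g2 σ).mp hσ).1
  -- all `p`-th roots
  have hroots : ∀ b : ℕ, b ≠ 0 → ∀ x : Om, x ^ p = (b : Om) → ∃ j : ℕ, x = ζ ^ j * β b := by
    intro b hb x hx
    have hb0 : β b ≠ 0 := by
      intro h0
      have := hβ b
      rw [h0, zero_pow hpp.ne_zero] at this
      exact hb (by exact_mod_cast this.symm)
    have h1 : (x / β b) ^ p = 1 := by
      rw [div_pow, hx, hβ b, div_self]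
      exact_mod_cast hb
    obtain ⟨j, _, hj⟩ := hζ.eq_pow_of_pow_eq_one h1
    exact ⟨j, by rw [hj, div_mul_cancel₀ _ hb0]⟩
  have hpodd : p % 2 = 1 := hpp.eq_two_or_odd.resolve_left hp
  -- first inequality
  have c1 : 3 * Nat.card H1 ≤ Nat.card H0 := by
    obtain ⟨g, hg⟩ := exists_nonpow p t htp (hQ t ht).2
    obtain ⟨a, ha1, ha2⟩ := Nat.chineseRemainder hcop 1 (g : ZMod t).val
    have hga : ((a : ℕ) : ZMod t) = (g : ZMod t) := by
      have := (ZMod.natCast_eq_natCast_iff a ((g : ZMod t).val) t).mpr ha2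
      rw [this, ZMod.natCast_zmod_val]
    have hacop : a.Coprime M := by
      rw [hM]
      refine Nat.Coprime.mul_right ?_ ?_
      · have := ha1.gcd_eq
        rw [Nat.Coprime, this, Nat.gcd_one_left]
      · rw [← ZMod.isUnit_iff_coprime, hga]
        exact g.isUnit
    obtain ⟨σ, hσ1, hσ2⟩ := gal_exists p hp M hM0 hpM ζ hζ Q (fun b hb => (hQ b hb).1) β
      (fun b _ => hβ b) a hacop (fun _ => 0)
    have haM' : ∀ ξ : Om, ξ ^ M' = 1 → ξ ^ a = ξ := by
      intro ξ hξ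
      have h1 := pow_eq_pow_mod a hξ
      have h2 := pow_eq_pow_mod 1 hξ
      have h3 : a % M' = 1 % M' := ha1
      rw [h1, h3, ← h2, pow_one]
    have hfix : ∀ x : Om, x ^ M' = 1 → σ x = x := by
      intro x hx
      rw [hσ1 x (by rw [hM, pow_mul, hx, one_pow]), haM' x hx]
    have hζM' : ζ ^ M' = 1 := (hζ.pow_eq_one_iff_dvd M').mpr hpM'
    have hfix2 : ∀ q ∈ Q, ∀ x : Om, x ^ p = (q : Om) → σ x = x := by
      intro q hq x hx
      obtain ⟨j, rfl⟩ := hroots q (hQ q hq).1.ne_zero x hx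
      rw [map_mul, map_pow, hfix ζ hζM', hσ2 q hq, pow_zero, one_mul]
    obtain ⟨σ', hres⟩ := hrest σ
    have m0 : σ' ∈ H0 := by
      rw [g0]
      refine ⟨fun x hx => hι ?_, fun q hq _ x hx => hι ?_⟩
      · rw [hres]
        exact hfix _ (by rw [← map_pow, hx, map_one])
      · rw [hres]
        exact hfix2 q hq _ (by rw [← map_pow, hx, map_natCast])
    have hpow : hvp.autToPow ℚ σ' = g := by
      apply Units.ext
      have h1 := hvp.autToPow_spec ℚ σ'
      have h2 : σ' v = v ^ a := by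
        apply hι
        rw [hres, hv, map_pow, hv]
        exact hσ1 τ hτM
      rw [h2] at h1
      have h3 := prim_modEq hvp htp.pos h1
      have h4 := (ZMod.natCast_eq_natCast_iff _ _ t).mpr h3
      rw [ZMod.natCast_zmod_val] at h4
      rw [h4, hga]
    refine card_three H0 H1 hle1 n1 p hpodd σ' m0 ?_ ?_
    · rw [g1]
      rintro ⟨_, y, h⟩
      exact hg ⟨y, by rw [powMonoidHom_apply, ← h, hpow]⟩
    · rw [g1]
      exact ⟨H0.pow_mem m0 p, _, map_pow _ _ _⟩
  -- second inequality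
  have c2 : 3 * Nat.card H2 ≤ Nat.card H0 := by
    obtain ⟨σ, hσ1, hσ2⟩ := gal_exists p hp M hM0 hpM ζ hζ Q (fun b hb => (hQ b hb).1) β
      (fun b _ => hβ b) 1 (Nat.coprime_one_left M) (fun b => if b = u then 1 else 0)
    have hfix : ∀ x : Om, x ^ M' = 1 → σ x = x := by
      intro x hx
      rw [hσ1 x (by rw [hM, pow_mul, hx, one_pow]), pow_one]
    have hζM' : ζ ^ M' = 1 := (hζ.pow_eq_one_iff_dvd M').mpr hpM'
    have hζσ : σ ζ = ζ := hfix ζ hζM'
    have hfix2 : ∀ q ∈ Q, q ≠ u → ∀ x : Om, x ^ p = (q : Om) → σ x = x := by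
      intro q hq hqu x hx
      obtain ⟨j, rfl⟩ := hroots q (hQ q hq).1.ne_zero x hx
      rw [map_mul, map_pow, hζσ, hσ2 q hq, if_neg hqu, pow_zero, one_mul]
    obtain ⟨σ', hres⟩ := hrest σ
    have m0 : σ' ∈ H0 := by
      rw [g0]
      refine ⟨fun x hx => hι ?_, fun q hq hqu x hx => hι ?_⟩
      · rw [hres]
        exact hfix _ (by rw [← map_pow, hx, map_one])
      · rw [hres]
        exact hfix2 q hq hqu _ (by rw [← map_pow, hx, map_natCast])
    have hzσ : σ' z = z := by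
      apply hι
      rw [hres, hz]
      exact hζσ
    have hmul : ∀ x : L, x ^ p = (u : L) → σ' x = z * x := by
      intro x hx
      have hx' : (ι x) ^ p = (u : Om) := by rw [← map_pow, hx, map_natCast]
      obtain ⟨j, hj⟩ := hroots u (hQ u hu).1.ne_zero _ hx'
      apply hι
      rw [hres, hj, map_mul, map_pow, hζσ, hσ2 u hu, if_pos rfl, pow_one, map_mul, hz, hj]
      ring
    refine card_three H0 H2 hle2 n2 p hpodd σ' m0 ?_ ?_
    · rw [g2]
      rintro ⟨_, h⟩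
      obtain ⟨b, hb⟩ := hmem2 u hu _ (hβ u)
      have hbp : b ^ p = (u : L) := by
        apply hι
        rw [map_pow, hb, hβ u, map_natCast]
      have h1 := h b hbp
      rw [hmul b hbp] at h1
      have hb0 : b ≠ 0 := by
        intro h0
        rw [h0, zero_pow hpp.ne_zero] at hbp
        exact (hQ u hu).1.ne_zero (by exact_mod_cast hbp.symm)
      have h2 : z = 1 := by
        have : z * b = 1 * b := by rw [h1, one_mul]
        exact mul_right_cancel₀ hb0 this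
      exact hpp.one_lt.ne' (hzp.unique (h2 ▸ IsPrimitiveRoot.one))
    · rw [g2]
      refine ⟨H0.pow_mem m0 p, fun x hx => ?_⟩
      have hk : ∀ k : ℕ, (σ' ^ k) x = z ^ k * x := by
        intro k
        induction k with
        | zero => simp
        | succ k ih =>
          rw [pow_succ', AlgEquiv.mul_apply, ih, map_mul, map_pow, hzσ, hmul x hx]
          ring
      rw [hk p, hzp.pow_eq_one, one_mul]
  -- the prime
  obtain ⟨l, hl, hlF, P, σ, hfr, hσ0, hσ1, hσ2⟩ :=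
    exists_frobElem L H0 H1 H2 n0 n1 n2 c1 c2 (F ∪ Q ∪ {p})
  have hσ0' := (g0 σ).mp hσ0
  have hlF' : l ∉ F := fun h => hlF (by simp [h])
  have hlQ : l ∉ Q := fun h => hlF (by simp [h])
  have hlp : l ≠ p := fun h => hlF (by simp [h])
  have hlM' : ¬ l ∣ M' := by
    intro h
    rcases (hl.dvd_mul).mp h with h | h
    · exact hlp ((Nat.prime_dvd_prime_iff_eq hl hpp).mp h)
    · obtain ⟨q, hq, hlq⟩ := (Prime.dvd_finsetProd_iff hl.prime _).mp h
      have hq' := Finset.mem_of_mem_erase hq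
      exact hlQ (((Nat.prime_dvd_prime_iff_eq hl (hQ q hq').1).mp hlq) ▸ hq')
  have hlt : ¬ l ∣ t := fun h => hlQ (((Nat.prime_dvd_prime_iff_eq hl htp).mp h) ▸ ht)
  have e1 : l ≡ 1 [MOD M'] := by
    have h1 := frob_mu L l hl P σ hfr M' hlM' w hwp.pow_eq_one
    have h2 : σ w = w := hσ0'.1 w hwp.pow_eq_one
    rw [h2] at h1
    have h3 : w ^ l = w ^ 1 := by rw [pow_one, ← h1]
    exact prim_modEq hwp hM'0 h3
  have e2 : l % p = 1 := by
    have := e1.of_dvd hpM'
    rw [Nat.ModEq, Nat.mod_eq_of_lt hpp.one_lt] at this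
    exact this
  refine ⟨l, hlF', hl, e2, fun q hq => ?_, fun q hq => ?_⟩
  · constructor
    · rintro ⟨x, hx⟩ rfl
      refine hσ1 ((g1 σ).mpr ⟨hσ0, ?_⟩)
      have h1 := frob_mu L l hl P σ hfr q hlt v hvp.pow_eq_one
      have h2 := hvp.autToPow_spec ℚ σ
      rw [h1] at h2
      have h3 := prim_modEq hvp htp.pos h2
      have h4 := (ZMod.natCast_eq_natCast_iff _ _ q).mpr h3
      rw [ZMod.natCast_zmod_val] at h4
      have hx0 : IsUnit x := by
        rw [isUnit_iff_ne_zero]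
        rintro rfl
        rw [zero_pow hpp.ne_zero, ← h4] at hx
        exact (hvp.autToPow ℚ σ).ne_zero hx.symm
      refine ⟨hx0.unit, ?_⟩
      apply Units.ext
      rw [Units.val_pow_eq_pow_val, IsUnit.unit_spec, hx, h4]
    · intro hqt
      refine ⟨1, ?_⟩
      rw [one_pow]
      have := (ZMod.natCast_eq_natCast_iff l 1 q).mpr (e1.of_dvd (hqM' q hq hqt))
      rw [this, Nat.cast_one]
  · have hlq : ¬ l ∣ q := fun h => hlQ (((Nat.prime_dvd_prime_iff_eq hl (hQ q hq).1).mp h) ▸ hq)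
    constructor
    · rintro hpq rfl
      refine hσ2 ((g2 σ).mpr ⟨hσ0, fun x hx => ?_⟩)
      exact (frob_rad L l hl P σ hfr p e2 z hzp q hlq x hx).mpr hpq
    · intro hqu
      obtain ⟨b, hb⟩ := hmem2 q hq _ (hβ q)
      have hbp : b ^ p = (q : L) := by
        apply hι
        rw [map_pow, hb, hβ q, map_natCast]
      exact (frob_rad L l hl P σ hfr p e2 z hzp q hlq b hbp).mp
        (hσ0'.2 q hq hqu b hbp)

end Pool.Agent.RG
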