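import Mathlib
import Pool.Agent.Lib.RG.Pattern
import Pool.Agent.Lib.RG.D15

/-!
RG campaign, PART D, export: the pattern exists above every finite set of primes.

Proof. Enlarge `S₀` to a set with at least two elements (Dirichlet), enumerate it as `s : Fin m → ℕ`,
add the `a_i` one after the other by D15 with `Q = {s_j} ∪ {a_j : j < i}`, `t = s_{i+1}`, `u = s_i`,
`F = Q`.
-/

set_option autoImplicit false

namespace Pool.Agent.RG

/-- the first `k` of the `a_i` have been chosen -/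
private def Part (p m : ℕ) [NeZero m] (s : Fin m → ℕ) (k : ℕ) (a : Fin m → ℕ) : Prop :=
  ∀ i : Fin m, (i : ℕ) < k → (a i).Prime ∧ a i % p = 1 ∧ (∀ j, a i ≠ s j) ∧
    (∀ j, PP p (a i) (s j) ↔ j ≠ i + 1) ∧ (∀ j, PP p (s j) (a i) ↔ j ≠ i) ∧
    ∀ j : Fin m, (j : ℕ) < k → j ≠ i → PP p (a i) (a j) ∧ a i ≠ a j

private theorem part_succ (p : ℕ) [Fact p.Prime] (hp : p ≠ 2) (m : ℕ) [NeZero m]
    (s : Fin m → ℕ) (hs : ∀ i, (s i).Prime ∧ s i % p = 1) (hinj : Function.Injective s)
    (k : ℕ) (hk : k < m) (a : Fin m → ℕ) (ha : Part p m s k a) :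
    ∃ a' : Fin m → ℕ, Part p m s (k + 1) a' := by
  classical
  set i : Fin m := ⟨k, hk⟩ with hi
  set Q : Finset ℕ := Finset.univ.image s ∪
    (Finset.univ.filter (fun j : Fin m => (j : ℕ) < k)).image a with hQdef
  have hsQ : ∀ j, s j ∈ Q := fun j =>
    Finset.mem_union_left _ (Finset.mem_image_of_mem _ (Finset.mem_univ j))
  have haQ : ∀ j : Fin m, (j : ℕ) < k → a j ∈ Q := fun j hj =>
    Finset.mem_union_right _ (Finset.mem_image_of_mem _ (by simp [hj]))
  have hQ : ∀ q ∈ Q, q.Prime ∧ q % p = 1 := by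
    intro q hq
    rcases Finset.mem_union.1 hq with h | h
    · obtain ⟨j, -, rfl⟩ := Finset.mem_image.1 h
      exact hs j
    · obtain ⟨j, hj, rfl⟩ := Finset.mem_image.1 h
      have hj' : (j : ℕ) < k := (Finset.mem_filter.1 hj).2
      exact ⟨(ha j hj').1, (ha j hj').2.1⟩
  obtain ⟨l, hlF, hlp, hl1, hlq, hql⟩ := step p hp Q hQ (s (i + 1)) (s i) (hsQ _) (hsQ _) Q
  refine ⟨Function.update a i l, ?_⟩
  have hval : ∀ j : Fin m, (j : ℕ) < k → Function.update a i l j = a j := by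
    intro j hj
    have : j ≠ i := by
      rintro rfl
      simp [hi] at hj
    exact Function.update_of_ne this _ _
  have hvali : Function.update a i l i = l := Function.update_self _ _ _
  have hcase : ∀ j : Fin m, (j : ℕ) < k + 1 → (j : ℕ) < k ∨ j = i := by
    intro j hj
    rcases Nat.lt_succ_iff_lt_or_eq.1 hj with h | h
    · exact Or.inl h
    · exact Or.inr (Fin.ext h)
  intro j hj
  rcases hcase j hj with hj | rfl
  · rw [hval j hj]
    obtain ⟨h1, h2, h3, h4, h5, h6⟩ := ha j hj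
    refine ⟨h1, h2, h3, h4, h5, ?_⟩
    intro j' hj' hne
    rcases hcase j' hj' with hj' | rfl
    · rw [hval j' hj']
      exact h6 j' hj' hne
    · rw [hvali]
      refine ⟨(hql _ (haQ j hj)).2 (h3 _), ?_⟩
      rintro rfl
      exact hlF (haQ j hj)
  · rw [hvali]
    refine ⟨hlp, hl1, ?_, ?_, ?_, ?_⟩
    · rintro j' rfl
      exact hlF (hsQ j')
    · intro j'
      rw [hlq _ (hsQ j')]
      exact hinj.ne_iff
    · intro j'
      rw [hql _ (hsQ j')]
      exact hinj.ne_iff
    · intro j' hj' hne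
      rcases hcase j' hj' with hj' | rfl
      · rw [hval j' hj']
        refine ⟨(hlq _ (haQ j' hj')).2 ((ha j' hj').2.2.1 _), ?_⟩
        rintro rfl
        exact hlF (haQ j' hj')
      · exact absurd rfl hne

private theorem part_all (p : ℕ) [Fact p.Prime] (hp : p ≠ 2) (m : ℕ) [NeZero m]
    (s : Fin m → ℕ) (hs : ∀ i, (s i).Prime ∧ s i % p = 1) (hinj : Function.Injective s)
    (k : ℕ) (hk : k ≤ m) : ∃ a : Fin m → ℕ, Part p m s k a := by
  induction k with
  | zero => exact ⟨fun _ => 0, fun i hi => absurd hi (Nat.not_lt_zero _)⟩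
  | succ k ih =>
    obtain ⟨a, ha⟩ := ih (by omega)
    exact part_succ p hp m s hs hinj k (by omega) a ha

theorem exists_pattern (p : ℕ) [Fact p.Prime] (hp : p ≠ 2) (S0 : Finset ℕ)
    (hS0 : ∀ q ∈ S0, q.Prime ∧ q % p = 1) :
    ∃ (m : ℕ) (_ : NeZero m) (a s : Fin m → ℕ), 2 ≤ m ∧ Pattern p m a s ∧
      ∀ q ∈ S0, q ∈ Set.range s := by
  classical
  have hp0 : p.Prime := Fact.out
  have h1p : 1 % p = 1 := Nat.mod_eq_of_lt hp0.one_lt
  obtain ⟨l1, hl1, -, hl1'⟩ := Nat.exists_prime_gt_modEq_one (k := p) 0 hp0.ne_zero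
  obtain ⟨l2, hl2, hlt, hl2'⟩ := Nat.exists_prime_gt_modEq_one (k := p) l1 hp0.ne_zero
  rw [Nat.ModEq, h1p] at hl1' hl2'
  set S : Finset ℕ := S0 ∪ {l1, l2} with hS
  have hSp : ∀ q ∈ S, q.Prime ∧ q % p = 1 := by
    intro q hq
    rcases Finset.mem_union.1 hq with h | h
    · exact hS0 q h
    · rcases Finset.mem_insert.1 h with h | h
      · exact h ▸ ⟨hl1, hl1'⟩
      · exact (Finset.mem_singleton.1 h) ▸ ⟨hl2, hl2'⟩
  have hcard : 2 ≤ S.card := by
    rw [← Finset.card_pair (ne_of_lt hlt)]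
    exact Finset.card_le_card Finset.subset_union_right
  have hne : NeZero S.card := ⟨by omega⟩
  have hmem : ∀ i, S.orderEmbOfFin rfl i ∈ S := fun i => Finset.orderEmbOfFin_mem _ _ _
  obtain ⟨a, ha⟩ := part_all p hp S.card (fun i => S.orderEmbOfFin rfl i)
    (fun i => hSp _ (hmem i)) (S.orderEmbOfFin rfl).injective S.card le_rfl
  refine ⟨S.card, hne, a, fun i => S.orderEmbOfFin rfl i, hcard, ?_, ?_⟩
  · refine ⟨fun i => ⟨(ha i i.2).1, (ha i i.2).2.1⟩, fun i => hSp _ (hmem i), ?_, ?_, ?_, ?_⟩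
    · rintro (i | i) (j | j) hij
      · simp only [Sum.elim_inl] at hij
        by_contra hne'
        have hji : j ≠ i := fun h => hne' (by rw [h])
        exact ((ha i i.2).2.2.2.2.2 j j.2 hji).2 hij
      · exact absurd hij ((ha i i.2).2.2.1 j)
      · exact absurd hij.symm ((ha j j.2).2.2.1 i)
      · simp only [Sum.elim_inr] at hij
        rw [(S.orderEmbOfFin rfl).injective hij]
    · intro i j hij
      exact ((ha i i.2).2.2.2.2.2 j j.2 hij.symm).1
    · intro i j
      exact (ha i i.2).2.2.2.1 j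
    · intro i j
      exact (ha j j.2).2.2.2.2.1 i |>.trans ⟨fun h => h.symm, fun h => h.symm⟩
  · intro q hq
    have hqS : q ∈ S := Finset.mem_union_left _ hq
    have : q ∈ Set.range (S.orderEmbOfFin rfl) := by
      rw [Finset.range_orderEmbOfFin]
      exact hqS
    exact this

end Pool.Agent.RG
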