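import Mathlib
import Pool.Agent.Lib.RG.Defs
import Pool.Agent.Lib.RG.G01
import Pool.Agent.Lib.RG.G02
import Pool.Agent.Lib.RG.G03
import Pool.Agent.Lib.RG.E21

/-!
PART E, row E33 (helper86): the local hypothesis of `bhn` from the hypotheses of `embedding`, and restriction homomorphisms.
-/

set_option autoImplicit false

namespace Pool.Agent.RG

open NumberField IsDedekindDomain

/-- restriction to a normal subfield -/
theorem exists_restr {L N : Type} [Field L] [NumberField L] [IsGalois ℚ L] [Field N]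
    [NumberField N] (i : L →+* N) :
    ∃ r : (N ≃ₐ[ℚ] N) →* (L ≃ₐ[ℚ] L), ∀ g x, g (i x) = i (r g x) := by
  letI : Algebra L N := i.toAlgebra
  haveI : IsScalarTower ℚ L N := IsScalarTower.of_algebraMap_eq' (Subsingleton.elim _ _)
  refine ⟨AlgEquiv.restrictNormalHom L, fun g x => ?_⟩
  exact (AlgEquiv.restrictNormal_commutes g L x).symm

/-- Frobenius elements under conjugation -/
theorem IsFrob.conj_to {M : Type} [Field M] [NumberField M] {w w' : HeightOneSpectrum (𝓞 M)}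
    {q : ℕ} {τ σ : M ≃ₐ[ℚ] M} (hτ : ∀ x, w'.valuation M (τ x) = w.valuation M x)
    (hσ : IsFrob w q σ) : IsFrob w' q (τ * σ * τ⁻¹) := by
  have h1 : ∀ x, w'.valuation M x = w.valuation M (τ⁻¹ x) := by
    intro x
    rw [← hτ]
    congr 1
    exact (AlgEquiv.apply_symm_apply τ x).symm
  constructor
  · intro x
    have h2 : (τ * σ * τ⁻¹) • x = τ (σ (τ⁻¹ x)) := rfl
    rw [h2, hτ, h1]
    exact hσ.1 (τ⁻¹ x)
  · intro x hx
    have h2 : (τ * σ * τ⁻¹) • x - x ^ q = τ (σ (τ⁻¹ x) - (τ⁻¹ x) ^ q) := by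
      rw [map_sub, map_pow]
      have h3 : τ (τ⁻¹ x) = x := AlgEquiv.apply_symm_apply τ x
      rw [h3]
      rfl
    rw [h2, hτ]
    exact hσ.2 (τ⁻¹ x) (by rw [← h1]; exact hx)

theorem local_hyp {p : ℕ} [Fact p.Prime] {S : Finset ℕ} (hS : ∀ q ∈ S, q.Prime ∧ q % p = 1)
    {L M : Type} [Field L] [NumberField L] [IsGalois ℚ L] [Field M] [NumberField M]
    [IsGalois ℚ M] {E : Type} [Group E] (π : E →* (L ≃ₐ[ℚ] L)) (hπ : Function.Surjective π)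
    (hunr : UnrOutside S L)
    (hloc : ∀ q ∈ S, ∃ w : HeightOneSpectrum (𝓞 L), Above w q ∧ ∃ t s : E,
      (∀ σ : L ≃ₐ[ℚ] L, IsInert w σ ↔ σ ∈ Subgroup.zpowers (π t)) ∧ IsFrob w q (π s) ∧
      s * t * s⁻¹ = t ^ q) {j : L →+* M} {ζ : M} {θ : (L ≃ₐ[ℚ] L) →* (M ≃ₐ[ℚ] M)}
    (hζ : IsPrimitiveRoot ζ p) (hθ : ∀ h x, θ h (j x) = j (h x))
    (hinj : Function.Injective θ) (hsurj : ∀ g : M ≃ₐ[ℚ] M, g ζ = ζ → ∃ h, g = θ h)
    (w : HeightOneSpectrum (𝓞 M)) (hwp : ¬ Above w p)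
    (hg : ∃ g : E, IsInert w (θ (π g)) ∧ π g ≠ 1) :
    ∃ (q : ℕ) (t s : E), q.Prime ∧ q % p = 1 ∧ Above w q ∧ IsInert w (θ (π t)) ∧
      (∀ g : E, IsInert w (θ (π g)) → ∃ k : ℤ, ∃ z ∈ π.ker, g = t ^ k * z) ∧
      IsFrob w q (θ (π s)) ∧ s * t * s⁻¹ = t ^ q := by
  obtain ⟨w₁, hw₁⟩ := exists_below j w
  obtain ⟨g, hg, hg1⟩ := hg
  have hres : ∀ e : E, IsInert w (θ (π e)) → IsInert w₁ (π e) := fun e he =>
    IsInert.restrict hw₁ (fun x => hθ (π e) x) he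
  -- `w₁` lies above a prime of `S`
  obtain ⟨q, hqS, hq⟩ : ∃ q ∈ S, Above w₁ q := by
    by_contra hcon
    push Not at hcon
    exact hg1 (hunr w₁ hcon (π g) (hres g hg))
  obtain ⟨hqp, hq1⟩ := hS q hqS
  obtain ⟨w₀, hw₀, t₀, s₀, ht₀, hs₀, hrel⟩ := hloc q hqS
  obtain ⟨τ, hτ⟩ := exists_conj hqp hw₀ hq
  obtain ⟨e, he⟩ := hπ τ
  have hinert₀ : IsInert w₀ (π t₀) := (ht₀ (π t₀)).mpr (Subgroup.mem_zpowers _)
  have hwq : Above w q := (hw₁.above_iff q).mpr hq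
  have ht1 : π (e * t₀ * e⁻¹) = τ * π t₀ * τ⁻¹ := by
    rw [map_mul, map_mul, map_inv, he]
  have hs1 : π (e * s₀ * e⁻¹) = τ * π s₀ * τ⁻¹ := by
    rw [map_mul, map_mul, map_inv, he]
  refine ⟨q, e * t₀ * e⁻¹, e * s₀ * e⁻¹, hqp, hq1, hwq, ?_, ?_, ?_, ?_⟩
  · refine inert_transfer hζ hθ hinj hsurj hw₁ hwp ?_
    rw [ht1]
    exact hinert₀.conj_to hτ
  · intro g' hg'
    have h1 := hres g' hg'
    -- move back to `w₀`
    have hτ' : ∀ x, w₀.valuation L (τ⁻¹ x) = w₁.valuation L x := by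
      intro x
      rw [← hτ]
      congr 1
      exact AlgEquiv.apply_symm_apply τ x
    have h2 := h1.conj_to hτ'
    rw [inv_inv, ht₀, Subgroup.mem_zpowers_iff] at h2
    obtain ⟨k, hk⟩ := h2
    refine ⟨k, (e * t₀ * e⁻¹) ^ (-k) * g', ?_, ?_⟩
    · rw [MonoidHom.mem_ker, map_mul, map_zpow, ht1, zpow_neg]
      rw [conj_zpow, hk]
      group
    · rw [zpow_neg, mul_inv_cancel_left]
  · refine frob_transfer hζ hθ hinj hsurj hw₁ hqp hq1 hwq ?_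
    rw [hs1]
    exact hs₀.conj_to hτ
  · have h3 : e * s₀ * e⁻¹ * (e * t₀ * e⁻¹) * (e * s₀ * e⁻¹)⁻¹ = e * (s₀ * t₀ * s₀⁻¹) * e⁻¹ := by
      group
    rw [h3, hrel]
    rw [conj_pow]

end Pool.Agent.RG
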