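import Mathlib
import Pool.Agent.Lib.RG.G08

/-!
PART K, row K06: the Galois group over `K` is an open subgroup of the Galois group over `ℚ`.

`Φ g := ` the `ℚ`-automorphism `x ↦ e.symm (g (e x))` of `X`. Injective: clear. Range: the
automorphisms fixing the image of `K` pointwise; it is the fixing subgroup of the finite extension
`(algebraMap K X).range / ℚ` (as `IntermediateField ℚ X`), open by
`IntermediateField.fixingSubgroup_isOpen`. Continuous: by `continuous_of_continuousAt_one` and the
Krull topology basis: for a finite extension `E / ℚ` in `X`, `Φ⁻¹ (E.fixingSubgroup)` contains the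
fixing subgroup of `K(e(E)) / K` in `Y` which is finite.
`IsGalois K Y`: `IsScalarTower ℚ K X` holds automatically (`IsScalarTower.rat` or
`.of_algebraMap_eq`), `IsGalois.tower_top_of_isGalois ℚ K X`, `IsGalois.of_algEquiv e`.
-/

set_option autoImplicit false

namespace Pool.Agent.RG

open NumberField IsDedekindDomain

theorem exists_embedding {K X Y : Type} [Field K] [NumberField K] [Field X] [CharZero X]
    [IsGalois ℚ X] [Algebra K X] [Field Y] [Algebra K Y] (e : X ≃ₐ[K] Y) :
    IsGalois K Y ∧ ∃ Φ : (Y ≃ₐ[K] Y) →* (X ≃ₐ[ℚ] X), Continuous Φ ∧ Function.Injective Φ ∧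
      IsOpen (Φ.range : Set (X ≃ₐ[ℚ] X)) := by
  have : IsScalarTower ℚ K X := inferInstance
  have : IsGalois K X := IsGalois.tower_top_of_isGalois ℚ K X
  have hKY : IsGalois K Y := IsGalois.of_algEquiv e
  refine ⟨hKY, ?_⟩
  let Φ : (Y ≃ₐ[K] Y) →* (X ≃ₐ[ℚ] X) :=
    { toFun := fun g => ((e.trans g).trans e.symm).restrictScalars ℚ
      map_one' := by
        ext x
        show e.symm (e x) = x
        exact e.symm_apply_apply x
      map_mul' := fun g h => by
        ext x
        show e.symm (g (h (e x))) = e.symm (g (e (e.symm (h (e x)))))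
        rw [e.apply_symm_apply] }
  have hΦ : ∀ g x, Φ g x = e.symm (g (e x)) := fun g x => rfl
  refine ⟨Φ, ?_, ?_, ?_⟩
  · refine continuous_of_continuousAt_one Φ ?_
    rw [ContinuousAt, map_one]
    intro s hs
    rw [krullTopology_mem_nhds_one_iff] at hs
    obtain ⟨E, hE, hEs⟩ := hs
    obtain ⟨S, hS⟩ := (IntermediateField.essFiniteType_iff (K := E)).1 inferInstance
    rw [Filter.mem_map, krullTopology_mem_nhds_one_iff]
    refine ⟨IntermediateField.adjoin K (e '' S), ?_, ?_⟩
    · refine IntermediateField.finiteDimensional_adjoin fun x _ => ?_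
      exact Algebra.IsIntegral.isIntegral x
    · intro g hg
      apply hEs
      rw [SetLike.mem_coe, IntermediateField.mem_fixingSubgroup_iff] at hg ⊢
      have h1 : E ≤ IntermediateField.fixedField (Subgroup.zpowers (Φ g)) := by
        rw [← hS, IntermediateField.adjoin_le_iff]
        intro x hx
        rw [SetLike.mem_coe, IntermediateField.mem_fixedField_iff]
        intro f hf
        have h2 : Subgroup.zpowers (Φ g) ≤ MulAction.stabilizer (X ≃ₐ[ℚ] X) x := by
          rw [Subgroup.zpowers_le, MulAction.mem_stabilizer_iff]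
          show Φ g x = x
          rw [hΦ, hg _ (IntermediateField.subset_adjoin _ _ ⟨x, hx, rfl⟩), e.symm_apply_apply]
        exact h2 hf
      intro x hx
      have h3 := h1 hx
      rw [IntermediateField.mem_fixedField_iff] at h3
      exact h3 _ (Subgroup.mem_zpowers _)
  · intro g h hgh
    ext y
    have h1 := DFunLike.congr_fun hgh (e.symm y)
    rw [hΦ, hΦ, e.apply_symm_apply] at h1
    exact e.symm.injective h1
  · let F : IntermediateField ℚ X := (IsScalarTower.toAlgHom ℚ K X).fieldRange
    have hF : FiniteDimensional ℚ F :=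
      (IsScalarTower.toAlgHom ℚ K X).toLinearMap.finiteDimensional_range
    have h1 : (Φ.range : Set (X ≃ₐ[ℚ] X)) = F.fixingSubgroup := by
      ext h
      rw [SetLike.mem_coe, SetLike.mem_coe, IntermediateField.mem_fixingSubgroup_iff]
      constructor
      · rintro ⟨g, rfl⟩ _ ⟨k, rfl⟩
        show e.symm (g (e (algebraMap K X k))) = algebraMap K X k
        rw [e.commutes, g.commutes, e.symm.commutes]
      · intro hh
        have hk : ∀ k, h (algebraMap K X k) = algebraMap K X k := fun k => hh _ ⟨k, rfl⟩
        refine ⟨(e.symm.trans (AlgEquiv.ofRingEquiv (f := (h : X ≃+* X)) hk)).trans e, ?_⟩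
        ext x
        rw [hΦ]
        show e.symm (e (h (e.symm (e x)))) = h x
        rw [e.symm_apply_apply, e.symm_apply_apply]
    rw [h1]
    exact IntermediateField.fixingSubgroup_isOpen F

end Pool.Agent.RG
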