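import Mathlib
import Pool.Agent.Lib.RG.PMain
import Pool.Agent.Lib.RG.K07
import Pool.Agent.Lib.RG.K08

/-!
PART K, row K09: rank gradient zero passes to open subgroups.
-/

set_option autoImplicit false

namespace Pool.Agent.RG

theorem rg_of_embedding {G H : Type} [Group G] [TopologicalSpace G] [IsTopologicalGroup G]
    [CompactSpace G] [T2Space G] [TotallyDisconnectedSpace G] [Group H] [TopologicalSpace H]
    [IsTopologicalGroup H] [CompactSpace H] (hG : Infinite G)
    (h : ∀ ε : ℝ, 0 < ε → ∃ (U : Subgroup G) (n : ℕ), IsOpen (U : Set G) ∧ GenBy U n ∧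
      ((n : ℝ) - 1) ≤ ε * U.index)
    (Φ : H →* G) (hc : Continuous Φ) (hi : Function.Injective Φ)
    (ho : IsOpen (Φ.range : Set G)) :
    Infinite H ∧ ∀ ε : ℝ, 0 < ε → ∃ (U : Subgroup H) (n : ℕ), IsOpen (U : Set H) ∧ GenBy U n ∧
      ((n : ℝ) - 1) ≤ ε * U.index := by
  classical
  have hRq : Finite (G ⧸ Φ.range) := Subgroup.quotient_finite_of_isOpen _ ho
  have hRfin : Φ.range.FiniteIndex := Subgroup.finiteIndex_of_finite_quotient
  have hRi : Φ.range.index ≠ 0 := hRfin.index_ne_zero
  have hH : Infinite H := by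
    by_contra hcon
    rw [not_infinite_iff_finite] at hcon
    have h1 : Finite Φ.range := Finite.of_surjective Φ.rangeRestrict Φ.rangeRestrict_surjective
    have h2 : Finite G := by
      have h3 := Subgroup.card_mul_index Φ.range
      have h4 : Nat.card G ≠ 0 := by
        rw [← h3]
        exact mul_ne_zero Nat.card_pos.ne' hRi
      exact Nat.finite_of_card_ne_zero h4
    exact not_finite G
  refine ⟨hH, fun ε hε => ?_⟩
  obtain ⟨c, hcd⟩ : ∃ c, c = Φ.range.index := ⟨_, rfl⟩
  have hc0 : (0 : ℝ) < c := by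
    have : 0 < c := by rw [hcd]; exact Nat.pos_of_ne_zero hRi
    exact_mod_cast this
  obtain ⟨U, n, hUo, hUn, hn⟩ := exists_large hG h (ε / c) (by positivity)
  obtain ⟨V, hV⟩ : ∃ V, V = U ⊓ Φ.range := ⟨_, rfl⟩
  have hVo : IsOpen (V : Set G) := by
    rw [hV]
    exact hUo.inter ho
  have hVU : V ≤ U := by rw [hV]; exact inf_le_left
  have hVR : V ≤ Φ.range := by rw [hV]; exact inf_le_right
  obtain ⟨j, hj⟩ : ∃ j, j = V.relIndex U := ⟨_, rfl⟩
  obtain ⟨T, hTn, hTV⟩ := genBy_of_le hUn hVo hVU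
  rw [← hj] at hTn
  have hTV' : ∀ x ∈ T, x ∈ V := fun x hx => by
    rw [← hTV]
    exact Subgroup.le_topologicalClosure _ (Subgroup.subset_closure hx)
  obtain ⟨W, hW⟩ : ∃ W, W = V.comap Φ := ⟨_, rfl⟩
  have hWo : IsOpen (W : Set H) := by
    rw [hW]
    exact hVo.preimage hc
  have hWi : W.index = V.relIndex Φ.range := by
    rw [hW, Subgroup.index_comap]
  have hVi1 : V.index = j * U.index := by
    rw [hj, Subgroup.relIndex_mul_index hVU]
  have hVi2 : V.index = W.index * c := by
    rw [hWi, hcd, Subgroup.relIndex_mul_index hVR]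
  -- the generators
  have hemb : Topology.IsClosedEmbedding Φ := hc.isClosedEmbedding hi
  obtain ⟨T', hT'⟩ : ∃ T' : Finset H, T'.card ≤ j * n ∧ (T' : Set H) = Φ ⁻¹' (T : Set G) := by
    refine ⟨T.preimage Φ hi.injOn, ?_, by simp⟩
    refine (Finset.card_le_card_of_injOn Φ (fun x hx => ?_) hi.injOn).trans hTn
    simpa using hx
  have himg : Φ '' (Φ ⁻¹' (T : Set G)) = (T : Set G) := by
    rw [Set.image_preimage_eq_iff]
    intro x hx
    exact hVR (hTV' x hx)
  have hclos : (Subgroup.closure (T' : Set H)).topologicalClosure = W := by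
    apply SetLike.coe_injective
    have h1 : Φ '' ((Subgroup.closure (T' : Set H)).topologicalClosure : Set H) = (V : Set G) := by
      rw [Subgroup.topologicalClosure_coe, ← hemb.closure_image_eq, ← Subgroup.coe_map,
        MonoidHom.map_closure, hT'.2, himg, ← Subgroup.topologicalClosure_coe, hTV]
    have h2 : (W : Set H) = Φ ⁻¹' (V : Set G) := by
      rw [hW]
      rfl
    rw [h2, ← h1, Set.preimage_image_eq _ hi]
  refine ⟨W, j * n, hWo, ⟨T', hT'.1, hclos⟩, ?_⟩
  have e1 : (V.index : ℝ) = j * U.index := by exact_mod_cast hVi1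
  have e2 : (V.index : ℝ) = W.index * c := by exact_mod_cast hVi2
  have e3 : (j : ℝ) * n ≤ j * (ε / c * U.index) :=
    mul_le_mul_of_nonneg_left hn (by positivity)
  have e4 : (j : ℝ) * (ε / c * U.index) = ε * W.index := by
    have : (j : ℝ) * (ε / c * U.index) = ε / c * (j * U.index) := by ring
    rw [this, ← e1, e2]
    field_simp
  push_cast
  linarith

end Pool.Agent.RG
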