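import Mathlib
import Pool.Agent.Lib.RG.KDefs
import Pool.Agent.Lib.RG.G13
import Pool.Agent.Lib.RG.G14
import Pool.Agent.Lib.RG.K05
import Pool.Agent.Lib.RG.K06
import Pool.Agent.Lib.RG.K09

/-!
PART K: rank gradient zero for all number fields inside the maximal extension.
-/

set_option autoImplicit false

namespace Pool.Agent.RG

open NumberField IsDedekindDomain

/-- Let `K` be a number field contained in a finite Galois `p`-extension `M` of `ℚ` unramified
outside a set `S` of primes with cyclic linking pattern. Then `G_{K,p,S}` is infinite and has rank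
gradient zero. -/
theorem rank_gradient_pattern_rel {p m : ℕ} [Fact p.Prime] (hp : p ≠ 2) [NeZero m] (hm : 2 ≤ m)
    {a s : Fin m → ℕ} (h : Pattern p m a s) {K M : Type} [Field K] [NumberField K] [Field M]
    [NumberField M] [IsGalois ℚ M] (hd : ∃ k, Module.finrank ℚ M = p ^ k)
    (hu : UnrOutside (primeSet a s) M) (j : K →+* M) :
    Infinite (GKpS p (primeSet a s) K) ∧ rankGradient (GKpS p (primeSet a s) K) = 0 := by
  have hX := maxExt_KS p (primeSet a s)
  have hgal := hX.gal
  obtain ⟨κ⟩ := exists_koch hp h hX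
  have h1 := koch_rank_gradient p m hp hm (KS p (primeSet a s) ≃ₐ[ℚ] KS p (primeSet a s))
    (fun U hN hU => hX.pro_p U hN hU) κ
  obtain ⟨g⟩ := hX.max M hd hu
  let _ : Algebra K (KS p (primeSet a s)) := ((g : M →+* KS p (primeSet a s)).comp j).toAlgebra
  obtain ⟨e⟩ := exists_iso (K := K) hX
  obtain ⟨hg, Φ, hc, hi, ho⟩ := exists_embedding e
  obtain ⟨h2, h3⟩ := rg_of_embedding h1.1 h1.2 Φ hc hi ho
  exact ⟨h2, rankGradient_eq_zero h2 h3⟩

end Pool.Agent.RG
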