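import Mathlib
import Pool.Agent.Lib.RG.KMain
import Pool.Agent.Lib.RG.K10
import Pool.Agent.Lib.RG.DMain

/-!
PART K: rank gradient zero for all tame bases.
-/

set_option autoImplicit false

namespace Pool.Agent.RG

open NumberField IsDedekindDomain

/-- Let `p` be an odd prime, `M` a finite Galois `p`-extension of `ℚ` in which `p` is unramified and
`K` a number field contained in `M` (for instance `K = M = ℚ`). Every finite set `S₀` of primes
`1 mod p` is contained in a finite set `S` of primes `1 mod p` such that `G_{K,p,S}` is infinite and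
has rank gradient zero. -/
theorem rank_gradient_tame {p : ℕ} [Fact p.Prime] (hp : p ≠ 2) {K M : Type} [Field K]
    [NumberField K] [Field M] [NumberField M] [IsGalois ℚ M]
    (hd : ∃ k, Module.finrank ℚ M = p ^ k)
    (ht : ∀ w : HeightOneSpectrum (𝓞 M), Above w p → ∀ σ : M ≃ₐ[ℚ] M, IsInert w σ → σ = 1)
    (j : K →+* M) (S₀ : Finset ℕ) (hS₀ : ∀ q ∈ S₀, q.Prime ∧ q % p = 1) :
    ∃ S : Finset ℕ, S₀ ⊆ S ∧ (∀ q ∈ S, q.Prime ∧ q % p = 1) ∧
      Infinite (GKpS p S K) ∧ rankGradient (GKpS p S K) = 0 := by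
  classical
  obtain ⟨R, hR, hu⟩ := exists_ramified_set hd ht
  obtain ⟨m, hm0, a, s, hm, hpat, hsub⟩ := exists_pattern p hp (S₀ ∪ R) (by
    intro q hq
    rcases Finset.mem_union.1 hq with h | h
    · exact hS₀ q h
    · exact hR q h)
  have hsub' : S₀ ∪ R ⊆ primeSet a s := by
    intro q hq
    obtain ⟨i, hi⟩ := hsub q hq
    exact G13_mem.2 ⟨Sum.inr i, hi⟩
  refine ⟨primeSet a s, Finset.union_subset_left hsub', ?_, ?_⟩
  · intro q hq
    obtain ⟨i | i, hi⟩ := G13_mem.1 hq
    · rw [← hi]; exact hpat.pa i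
    · rw [← hi]; exact hpat.ps i
  · exact rank_gradient_pattern_rel hp hm hpat hd (hu.mono (Finset.union_subset_right hsub')) j

end Pool.Agent.RG
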