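import Mathlib
import Pool.Agent.Lib.RG.Pattern

/-!
RG v2, PART N, definitions: choosing primes at random one after another.
-/

set_option autoImplicit false

namespace Pool.Agent.RG

/-- the primes congruent to `1` modulo `p` -/
def P1 (p : ℕ) : Set ℕ := {q | q.Prime ∧ q % p = 1}

/-- The lower mean value, in the sense of Dirichlet density, of the function `f` over the primes
congruent to `1` modulo `p`. -/
noncomputable def pmean (p : ℕ) (f : ℕ → ℝ) : ℝ :=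
  Filter.liminf (fun s : ℝ => (∑' q : P1 p, f q * ((q : ℕ) : ℝ) ^ (-s)) /
    ∑' q : P1 p, ((q : ℕ) : ℝ) ^ (-s)) (nhdsWithin 1 (Set.Ioi 1))

open Classical in
/-- The probability that the set `S ∪ {q_1, .., q_k}` has the property `P` if the primes `q_1`,
`q_2`, .., `q_k` congruent to `1` modulo `p` are chosen at random one after another (iterated lower
Dirichlet density). -/
noncomputable def iterProb (p : ℕ) (P : Finset ℕ → Prop) : ℕ → Finset ℕ → ℝ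
  | 0, S => if P S then 1 else 0
  | k + 1, S => pmean p fun q => iterProb p P k (insert q S)

/-- the set `A` of primes has density `c` with respect to `log (1 / (s - 1))` -/
def HasD (A : Set ℕ) (c : ℝ) : Prop :=
  ∃ C : ℝ, ∀ s : ℝ, 1 < s → s ≤ 2 →
    |(∑' l : A, ((l : ℕ) : ℝ) ^ (-s)) - c * Real.log (1 / (s - 1))| ≤ C

/-- the primes `ℓ` which are `p`-th powers modulo the elements of `T₁` and modulo which the elements
of `T₂` are `p`-th powers -/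
def splitSet (p : ℕ) (T₁ T₂ : Finset ℕ) : Set ℕ :=
  {ℓ | ℓ.Prime ∧ ℓ % p = 1 ∧ (∀ s ∈ T₁, PP p ℓ s) ∧ ∀ s ∈ T₂, PP p s ℓ}

/-- The core: `a₀ → b₀ → a₁ → b₁ → a₀` is the pattern of the residue symbols of four primes. -/
structure Core (p a₀ a₁ b₀ b₁ : ℕ) : Prop where
  mem : ∀ q, q = a₀ ∨ q = a₁ ∨ q = b₀ ∨ q = b₁ → q.Prime ∧ q % p = 1
  na : a₀ ≠ a₁
  nb : b₀ ≠ b₁
  nab : ∀ a, a = a₀ ∨ a = a₁ → a ≠ b₀ ∧ a ≠ b₁
  aa : PP p a₀ a₁ ∧ PP p a₁ a₀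
  a0 : ¬ PP p a₀ b₀ ∧ PP p a₀ b₁
  a1 : ¬ PP p a₁ b₁ ∧ PP p a₁ b₀
  b0 : ¬ PP p b₀ a₁ ∧ PP p b₀ a₀
  b1 : ¬ PP p b₁ a₀ ∧ PP p b₁ a₁

open Classical in
/-- The elements `b` of `S` of type `B`: `b₀`, `b₁` and those modulo which `a₀`, `a₁` are `p`-th
powers and which are a `p`-th power modulo exactly one of `a₀`, `a₁`. -/
noncomputable def Bset (p a₀ a₁ b₀ b₁ : ℕ) (S : Finset ℕ) : Finset ℕ :=
  S.filter fun b => b = b₀ ∨ b = b₁ ∨
    (b ≠ a₀ ∧ b ≠ a₁ ∧ PP p a₀ b ∧ PP p a₁ b ∧ (PP p b a₀ ↔ ¬ PP p b a₁))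

open Classical in
/-- the good subset `{a₀, a₁} ∪ B` -/
noncomputable def Gset (p a₀ a₁ b₀ b₁ : ℕ) (S : Finset ℕ) : Finset ℕ :=
  {a₀, a₁} ∪ Bset p a₀ a₁ b₀ b₁ S

open Classical in
/-- the elements of `S ∪ R` outside the good subset which are `p`-th powers modulo all its elements -/
noncomputable def Uset (p : ℕ) (R : Finset ℕ) (a₀ a₁ b₀ b₁ : ℕ) (S : Finset ℕ) : Finset ℕ :=
  (S ∪ R).filter fun q => q ∉ Gset p a₀ a₁ b₀ b₁ S ∧ ∀ s ∈ Gset p a₀ a₁ b₀ b₁ S, PP p q s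

/-- The combinatorial condition on `S`. -/
def Crit (p : ℕ) (R S : Finset ℕ) : Prop :=
  ∃ a₀ ∈ S, ∃ a₁ ∈ S, ∃ b₀ ∈ S, ∃ b₁ ∈ S, Core p a₀ a₁ b₀ b₁ ∧ Uset p R a₀ a₁ b₀ b₁ S = ∅

end Pool.Agent.RG
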