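import Mathlib
import Pool.Agent.Lib.RG.NDefs

/-!
RG v2, row N2: calculus of densities.

`HasD.diff`, `HasD.diff_finset`, `HasD.union`: the sums `∑' l : A, l ^ (-s)` are summable for `s > 1`
(`Real.summable_nat_rpow`), additive over disjoint unions; a finite set contributes at most its
cardinality (`0 < l ^ (-s) ≤ 1` for `l ≥ 1`; the term `l = 0` is `0 ^ (-s) = 0`).

`pmean_ge`: for `s → 1+` the quotient `(∑' q : P1 p, 1_{A i}(q) q^{-s}) / ∑' q : P1 p, q^{-s}` tends to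
`d i` because numerator = `d i / (p-1) * log (1/(s-1)) + O(1)` and denominator =
`1/(p-1) * log (1/(s-1)) + O(1)`, `log (1/(s-1)) → ∞`. The minorant
`q ↦ c₀ + ∑ i, c i * 1_{A i}(q)` for `q ∉ F`, and `-B` for `q ∈ F` has mean
`c₀ + ∑ i, c i * d i` (finitely many `q` do not matter). `liminf` is monotone for functions bounded above
and below (`f ≤ B'`, so the quotients are `≤ B'`; `Filter.le_liminf_of_le` or `Filter.liminf_le_liminf`,
`Filter.Tendsto.liminf_eq`).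

`pmean_le_one`: `f ≤ 1` on `P1 p` gives `pmean ≤ 1`; `pmean_nonneg`; `pmean_mono` for functions with
values in `[0, 1]` on `P1 p`. (`hden`: the denominators are positive, since `P1 p` has infinite sum;
hypothesis `h1 : HasD (P1 p) (((p:ℝ) - 1)⁻¹)`.)
-/

set_option autoImplicit false

namespace Pool.Agent.RG

private theorem N2sum {s : ℝ} (hs : 1 < s) : Summable (fun n : ℕ => (n : ℝ) ^ (-s)) :=
  Real.summable_nat_rpow.mpr (by linarith)

private theorem N2sumI {s : ℝ} (hs : 1 < s) (A : Set ℕ) :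
    Summable (A.indicator (fun n : ℕ => (n : ℝ) ^ (-s))) :=
  (N2sum hs).indicator A

private theorem N2nn (s : ℝ) (n : ℕ) : (0 : ℝ) ≤ (n : ℝ) ^ (-s) := by positivity

private theorem N2le {s : ℝ} (hs : 1 < s) (n : ℕ) : (n : ℝ) ^ (-s) ≤ 1 := by
  rcases Nat.eq_zero_or_pos n with h | h
  · subst h
    rw [Nat.cast_zero, Real.zero_rpow (by linarith)]
    exact zero_le_one
  · apply Real.rpow_le_one_of_one_le_of_nonpos
    · exact_mod_cast h
    · linarith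

private theorem N2T (A : Set ℕ) (s : ℝ) :
    (∑' l : A, ((l : ℕ) : ℝ) ^ (-s)) = ∑' n : ℕ, A.indicator (fun n : ℕ => (n : ℝ) ^ (-s)) n :=
  tsum_subtype A (fun n : ℕ => (n : ℝ) ^ (-s))

theorem HasD.diff {A B : Set ℕ} {a b : ℝ} (hA : HasD A a) (hB : HasD B b) (h : B ⊆ A) :
    HasD (A \ B) (a - b) := by
  obtain ⟨C, hC⟩ := hA
  obtain ⟨D, hD⟩ := hB
  refine ⟨C + D, fun s hs1 hs2 => ?_⟩
  have h1 := hC s hs1 hs2
  have h2 := hD s hs1 hs2
  have h3 : (∑' l : (A \ B : Set ℕ), ((l : ℕ) : ℝ) ^ (-s)) =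
      (∑' l : A, ((l : ℕ) : ℝ) ^ (-s)) - ∑' l : B, ((l : ℕ) : ℝ) ^ (-s) := by
    rw [N2T, N2T, N2T, ← (N2sumI hs1 A).tsum_sub (N2sumI hs1 B), Set.indicator_sdiff h]
    rfl
  rw [h3]
  rw [abs_le] at *
  constructor <;> nlinarith

private theorem N2fin (F : Finset ℕ) (A : Set ℕ) (hA : A ⊆ F) : HasD A 0 := by
  refine ⟨F.card, fun s hs1 hs2 => ?_⟩
  rw [zero_mul, sub_zero, N2T, abs_of_nonneg
    (tsum_nonneg fun n => Set.indicator_nonneg (fun n _ => N2nn s n) n)]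
  rw [tsum_eq_sum (s := F)]
  · calc ∑ n ∈ F, A.indicator (fun n : ℕ => (n : ℝ) ^ (-s)) n ≤ ∑ n ∈ F, (1 : ℝ) := by
          refine Finset.sum_le_sum fun n _ => ?_
          exact Set.indicator_le_self' (fun _ _ => N2nn s n) n |>.trans (N2le hs1 n)
      _ = F.card := by simp
  · intro n hn
    exact Set.indicator_of_notMem (fun h => hn (by exact_mod_cast hA h)) _

theorem HasD.diff_finset {A : Set ℕ} {a : ℝ} (hA : HasD A a) (F : Finset ℕ) :
    HasD (A \ (F : Set ℕ)) a := by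
  have h := hA.diff (N2fin F (A ∩ F) Set.inter_subset_right) Set.inter_subset_left
  rwa [sub_zero, Set.sdiff_self_inter] at h

theorem HasD.union {A B : Set ℕ} {a b : ℝ} (hA : HasD A a) (hB : HasD B b)
    (h : Disjoint A B) : HasD (A ∪ B) (a + b) := by
  obtain ⟨C, hC⟩ := hA
  obtain ⟨D, hD⟩ := hB
  refine ⟨C + D, fun s hs1 hs2 => ?_⟩
  have h1 := hC s hs1 hs2
  have h2 := hD s hs1 hs2
  have h3 : (∑' l : (A ∪ B : Set ℕ), ((l : ℕ) : ℝ) ^ (-s)) =
      (∑' l : A, ((l : ℕ) : ℝ) ^ (-s)) + ∑' l : B, ((l : ℕ) : ℝ) ^ (-s) := by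
    rw [N2T, N2T, N2T, ← (N2sumI hs1 A).tsum_add (N2sumI hs1 B),
      Set.indicator_union_of_disjoint h]
  rw [h3]
  rw [abs_le] at *
  constructor <;> nlinarith

private theorem N2log : Filter.Tendsto (fun s : ℝ => Real.log (1 / (s - 1)))
    (nhdsWithin 1 (Set.Ioi 1)) Filter.atTop := by
  refine Real.tendsto_log_atTop.comp ?_
  have h1 : Filter.Tendsto (fun s : ℝ => s - 1) (nhdsWithin 1 (Set.Ioi 1))
      (nhdsWithin 0 (Set.Ioi 0)) := by
    refine tendsto_nhdsWithin_iff.mpr ⟨?_, ?_⟩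
    · have h2 : Filter.Tendsto (fun s : ℝ => s - 1) (nhds 1) (nhds (1 - 1)) :=
        (continuous_id.sub continuous_const).tendsto 1
      rw [sub_self] at h2
      exact h2.mono_left nhdsWithin_le_nhds
    · filter_upwards [self_mem_nhdsWithin] with s hs
      have : (1 : ℝ) < s := hs
      simp only [Set.mem_Ioi]
      linarith
  have h3 := tendsto_inv_nhdsGT_zero.comp h1
  refine h3.congr fun s => ?_
  simp [one_div]

private theorem N2ev : ∀ᶠ s : ℝ in nhdsWithin 1 (Set.Ioi 1), 1 < s ∧ s ≤ 2 := by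
  have h1 : Set.Iic (2 : ℝ) ∈ nhds (1 : ℝ) := Iic_mem_nhds (by norm_num)
  filter_upwards [self_mem_nhdsWithin, nhdsWithin_le_nhds h1] with s hs1 hs2
  exact ⟨hs1, hs2⟩

private theorem N2lim {A : Set ℕ} {a : ℝ} (hA : HasD A a) :
    Filter.Tendsto (fun s : ℝ => (∑' l : A, ((l : ℕ) : ℝ) ^ (-s)) / Real.log (1 / (s - 1)))
      (nhdsWithin 1 (Set.Ioi 1)) (nhds a) := by
  obtain ⟨C, hC⟩ := hA
  rw [tendsto_iff_norm_sub_tendsto_zero]
  have h0 : Filter.Tendsto (fun s : ℝ => C / Real.log (1 / (s - 1)))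
      (nhdsWithin 1 (Set.Ioi 1)) (nhds 0) := N2log.const_div_atTop C
  refine squeeze_zero' (Filter.Eventually.of_forall fun s => norm_nonneg _) ?_ h0
  filter_upwards [N2ev, N2log.eventually_gt_atTop 0] with s hs hl
  have h1 := hC s hs.1 hs.2
  rw [Real.norm_eq_abs, div_sub' hl.ne', abs_div, abs_of_pos hl, mul_comm]
  exact div_le_div_of_nonneg_right h1 hl.le

private theorem N2quot {A D : Set ℕ} {a d : ℝ} (hA : HasD A a) (hD : HasD D d) (hd : d ≠ 0) :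
    Filter.Tendsto (fun s : ℝ => (∑' l : A, ((l : ℕ) : ℝ) ^ (-s)) / ∑' l : D, ((l : ℕ) : ℝ) ^ (-s))
      (nhdsWithin 1 (Set.Ioi 1)) (nhds (a / d)) := by
  refine ((N2lim hA).div (N2lim hD) hd).congr' ?_
  filter_upwards [N2log.eventually_gt_atTop 0] with s hl
  simp only [Pi.div_apply]
  rw [div_div_div_cancel_right₀ hl.ne']

private theorem N2inv {D : Set ℕ} {d : ℝ} (hD : HasD D d) (hd : d ≠ 0) (K : ℝ) :
    Filter.Tendsto (fun s : ℝ => K / ∑' l : D, ((l : ℕ) : ℝ) ^ (-s))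
      (nhdsWithin 1 (Set.Ioi 1)) (nhds 0) := by
  have h := (N2log.const_div_atTop K).div (N2lim hD) hd
  rw [zero_div] at h
  refine h.congr' ?_
  filter_upwards [N2log.eventually_gt_atTop 0] with s hl
  simp only [Pi.div_apply]
  rw [div_div_div_cancel_right₀ hl.ne']

private theorem N2sumf {s : ℝ} (hs : 1 < s) (A : Set ℕ) (f : ℕ → ℝ) (B : ℝ)
    (hf : ∀ q, |f q| ≤ B) : Summable (fun q : A => f q * ((q : ℕ) : ℝ) ^ (-s)) := by
  have h1 : Summable (fun q : A => B * ((q : ℕ) : ℝ) ^ (-s)) :=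
    ((N2sum hs).comp_injective Subtype.val_injective).mul_left B
  refine Summable.of_norm_bounded h1 fun q => ?_
  rw [norm_mul, Real.norm_eq_abs, Real.norm_eq_abs, abs_of_nonneg (N2nn s q)]
  exact mul_le_mul_of_nonneg_right (hf q) (N2nn s q)

private theorem N2pos {p : ℕ} (s : ℝ) :
    0 ≤ ∑' q : P1 p, ((q : ℕ) : ℝ) ^ (-s) := tsum_nonneg fun q => N2nn s q

private theorem N2up {p : ℕ} {s : ℝ} (hs : 1 < s) (f : ℕ → ℝ) (B : ℝ)
    (hlo : ∀ q, -B ≤ f q) (hup : ∀ q, f q ≤ B) :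
    (∑' q : P1 p, f q * ((q : ℕ) : ℝ) ^ (-s)) / (∑' q : P1 p, ((q : ℕ) : ℝ) ^ (-s)) ≤ B := by
  have hB : 0 ≤ B := by
    have h1 := hlo 0
    have h2 := hup 0
    linarith
  refine div_le_of_le_mul₀ (N2pos s) hB ?_
  rw [← tsum_mul_left]
  refine (N2sumf hs (P1 p) f B fun q => abs_le.mpr ⟨hlo q, hup q⟩).tsum_le_tsum (fun q => ?_)
    (((N2sum hs).comp_injective Subtype.val_injective).mul_left B)
  exact mul_le_mul_of_nonneg_right (hup q) (N2nn s q)

private theorem N2cob {p : ℕ} (f : ℕ → ℝ) (B : ℝ)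
    (hlo : ∀ q, -B ≤ f q) (hup : ∀ q, f q ≤ B) :
    Filter.IsCoboundedUnder (· ≥ ·) (nhdsWithin 1 (Set.Ioi 1))
      (fun s : ℝ => (∑' q : P1 p, f q * ((q : ℕ) : ℝ) ^ (-s)) /
        (∑' q : P1 p, ((q : ℕ) : ℝ) ^ (-s))) := by
  have h : Filter.IsBoundedUnder (· ≤ ·) (nhdsWithin 1 (Set.Ioi 1))
      (fun s : ℝ => (∑' q : P1 p, f q * ((q : ℕ) : ℝ) ^ (-s)) /
        (∑' q : P1 p, ((q : ℕ) : ℝ) ^ (-s))) := by
    refine ⟨B, ?_⟩
    rw [Filter.eventually_map]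
    filter_upwards [N2ev] with s hs
    exact N2up hs.1 f B hlo hup
  exact h.isCoboundedUnder_ge

open Classical in
theorem pmean_ge {p : ℕ} (hp : 1 < p) (h1 : HasD (P1 p) (((p : ℝ) - 1)⁻¹)) {ι : Type}
    [Fintype ι] (A : ι → Set ℕ) (hA : ∀ i, A i ⊆ P1 p) (d : ι → ℝ)
    (hd : ∀ i, HasD (A i) (((p : ℝ) - 1)⁻¹ * d i)) (c₀ : ℝ) (c : ι → ℝ) (F : Finset ℕ)
    (f : ℕ → ℝ) (B : ℝ) (hlo : ∀ q, -B ≤ f q) (hup : ∀ q, f q ≤ B)
    (hf : ∀ q ∈ P1 p, q ∉ F → c₀ + ∑ i, c i * (if q ∈ A i then 1 else 0) ≤ f q) :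
    c₀ + ∑ i, c i * d i ≤ pmean p f := by
  have hpR : (1 : ℝ) < p := by exact_mod_cast hp
  have hp1 : ((p : ℝ) - 1)⁻¹ ≠ 0 := by
    have : (p : ℝ) - 1 ≠ 0 := by linarith
    exact inv_ne_zero this
  -- the minorant
  set g : ℕ → ℝ := fun q => c₀ + ∑ i, c i * (if q ∈ A i then 1 else 0) with hg
  set G : ℝ := |c₀| + ∑ i, |c i| with hG
  have hgG : ∀ q, |g q| ≤ G := by
    intro q
    simp only [hg, hG]
    refine (abs_add_le _ _).trans (add_le_add le_rfl ?_)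
    refine (Finset.abs_sum_le_sum_abs _ _).trans (Finset.sum_le_sum fun i _ => ?_)
    rw [abs_mul]
    split_ifs
    · simp
    · simp
  have hB : 0 ≤ B := by
    have h1 := hlo 0
    have h2 := hup 0
    linarith
  have hG0 : 0 ≤ G := (abs_nonneg _).trans (hgG 0)
  set K : ℝ := F.card * (B + G) with hK
  -- the means of the minorant
  have hlim : Filter.Tendsto (fun s : ℝ =>
      c₀ + ∑ i, c i * ((∑' l : A i, ((l : ℕ) : ℝ) ^ (-s)) / ∑' q : P1 p, ((q : ℕ) : ℝ) ^ (-s)) -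
        K / ∑' q : P1 p, ((q : ℕ) : ℝ) ^ (-s)) (nhdsWithin 1 (Set.Ioi 1))
      (nhds (c₀ + ∑ i, c i * d i)) := by
    have h2 : Filter.Tendsto (fun s : ℝ =>
      c₀ + ∑ i, c i * ((∑' l : A i, ((l : ℕ) : ℝ) ^ (-s)) / ∑' q : P1 p, ((q : ℕ) : ℝ) ^ (-s)))
      (nhdsWithin 1 (Set.Ioi 1)) (nhds (c₀ + ∑ i, c i * d i)) := by
      refine tendsto_const_nhds.add (tendsto_finsetSum _ fun i _ => ?_)
      refine tendsto_const_nhds.mul ?_
      have h3 := N2quot (hd i) h1 hp1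
      rwa [mul_div_cancel_left₀ _ hp1] at h3
    have h4 := h2.sub (N2inv h1 hp1 K)
    rwa [sub_zero] at h4
  rw [← hlim.liminf_eq]
  refine Filter.liminf_le_liminf ?_ hlim.isBoundedUnder_ge (N2cob f B hlo hup)
  filter_upwards [N2ev, (N2lim h1).eventually_ne hp1] with s hs hne
  have hs1 := hs.1
  set Ds : ℝ := ∑' q : P1 p, ((q : ℕ) : ℝ) ^ (-s) with hDs
  have hDs0 : 0 < Ds := by
    refine lt_of_le_of_ne (N2pos s) fun h0 => hne ?_
    rw [← h0, zero_div]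
  have hsumq : Summable (fun q : P1 p => ((q : ℕ) : ℝ) ^ (-s)) :=
    (N2sum hs1).comp_injective Subtype.val_injective
  have hsumA : ∀ i, (∑' l : A i, ((l : ℕ) : ℝ) ^ (-s)) =
      ∑' q : P1 p, (if (q : ℕ) ∈ A i then (1 : ℝ) else 0) * ((q : ℕ) : ℝ) ^ (-s) := by
    intro i
    rw [N2T, tsum_subtype (P1 p)
      (fun n : ℕ => (if n ∈ A i then (1 : ℝ) else 0) * (n : ℝ) ^ (-s))]
    refine tsum_congr fun n => ?_
    by_cases hn : n ∈ A i
    · rw [Set.indicator_of_mem hn, Set.indicator_of_mem (hA i hn), if_pos hn, one_mul]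
    · rw [Set.indicator_of_notMem hn]
      by_cases hn' : n ∈ P1 p
      · rw [Set.indicator_of_mem hn', if_neg hn, zero_mul]
      · rw [Set.indicator_of_notMem hn']
  have hsi : ∀ i, Summable (fun q : P1 p =>
      c i * ((if (q : ℕ) ∈ A i then (1 : ℝ) else 0) * ((q : ℕ) : ℝ) ^ (-s))) := by
    intro i
    refine Summable.mul_left _ ?_
    refine N2sumf hs1 (P1 p) (fun q => if q ∈ A i then (1 : ℝ) else 0) 1 fun q => ?_
    split_ifs <;> simp
  have hgsum : (∑' q : P1 p, g q * ((q : ℕ) : ℝ) ^ (-s)) =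
      c₀ * Ds + ∑ i, c i * ∑' l : A i, ((l : ℕ) : ℝ) ^ (-s) := by
    have e1 : ∀ q : P1 p, g q * ((q : ℕ) : ℝ) ^ (-s) = c₀ * ((q : ℕ) : ℝ) ^ (-s) +
        ∑ i, c i * ((if (q : ℕ) ∈ A i then (1 : ℝ) else 0) * ((q : ℕ) : ℝ) ^ (-s)) := by
      intro q
      simp only [hg]
      rw [add_mul, Finset.sum_mul]
      congr 1
      refine Finset.sum_congr rfl fun i _ => ?_
      ring
    rw [tsum_congr e1, (hsumq.mul_left c₀).tsum_add (summable_sum fun i _ => hsi i), tsum_mul_left,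
      Summable.tsum_finsetSum fun i _ => hsi i]
    congr 1
    refine Finset.sum_congr rfl fun i _ => ?_
    rw [tsum_mul_left, hsumA i]
  have hu : c₀ + ∑ i, c i * ((∑' l : A i, ((l : ℕ) : ℝ) ^ (-s)) / Ds) - K / Ds =
      ((∑' q : P1 p, g q * ((q : ℕ) : ℝ) ^ (-s)) - K) / Ds := by
    rw [hgsum, sub_div, add_div, mul_div_cancel_right₀ _ hDs0.ne', Finset.sum_div]
    congr 2
    refine Finset.sum_congr rfl fun i _ => ?_
    rw [mul_div_assoc]
  rw [hu]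
  refine div_le_div_of_nonneg_right ?_ hDs0.le
  have hsg : Summable (fun q : P1 p => g q * ((q : ℕ) : ℝ) ^ (-s)) := N2sumf hs1 (P1 p) g G hgG
  have hsf : Summable (fun q : P1 p => f q * ((q : ℕ) : ℝ) ^ (-s)) :=
    N2sumf hs1 (P1 p) f B fun q => abs_le.mpr ⟨hlo q, hup q⟩
  have hw : ∀ q : P1 p, g q * ((q : ℕ) : ℝ) ^ (-s) - f q * ((q : ℕ) : ℝ) ^ (-s) ≤
      if (q : ℕ) ∈ F then B + G else 0 := by
    intro q
    rw [← sub_mul]
    split_ifs with hqF
    · calc (g q - f q) * ((q : ℕ) : ℝ) ^ (-s) ≤ (B + G) * 1 := by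
            refine mul_le_mul ?_ (N2le hs1 q) (N2nn s q) (by linarith)
            have h2 := (abs_le.mp (hgG q)).2
            have h3 := hlo q
            linarith
        _ = B + G := mul_one _
    · refine mul_nonpos_of_nonpos_of_nonneg ?_ (N2nn s q)
      have h2 := hf q q.2 hqF
      simp only [hg]
      linarith
  set T : Finset (P1 p) := F.subtype (fun l => l ∈ P1 p) with hT
  have hz : ∀ q : P1 p, q ∉ T → (if (q : ℕ) ∈ F then B + G else 0) = 0 := by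
    intro q hq
    rw [if_neg]
    intro h
    apply hq
    rw [hT, Finset.mem_subtype]
    exact h
  have hsw : Summable (fun q : P1 p => if (q : ℕ) ∈ F then B + G else 0) :=
    summable_of_ne_finset_zero (s := T) fun q hq => hz q hq
  have h5 : (∑' q : P1 p, (g q * ((q : ℕ) : ℝ) ^ (-s) - f q * ((q : ℕ) : ℝ) ^ (-s))) ≤ K := by
    refine ((hsg.sub hsf).tsum_le_tsum hw hsw).trans ?_
    rw [tsum_eq_sum hz]
    calc ∑ q ∈ T, (if (q : ℕ) ∈ F then B + G else 0) ≤ ∑ q ∈ T, (B + G) := by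
          refine Finset.sum_le_sum fun q _ => ?_
          split_ifs
          · exact le_rfl
          · linarith
      _ = T.card * (B + G) := by rw [Finset.sum_const, nsmul_eq_mul]
      _ ≤ F.card * (B + G) := by
          have : T.card ≤ F.card := by
            rw [hT, Finset.card_subtype]
            exact Finset.card_filter_le _ _
          have h2 : (T.card : ℝ) ≤ F.card := by exact_mod_cast this
          exact mul_le_mul_of_nonneg_right h2 (by linarith)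
  rw [hsg.tsum_sub hsf] at h5
  linarith

theorem pmean_le_one {p : ℕ} (hp : 1 < p) (h1 : HasD (P1 p) (((p : ℝ) - 1)⁻¹)) {f : ℕ → ℝ}
    (h0 : ∀ q, 0 ≤ f q) (hf : ∀ q, f q ≤ 1) : pmean p f ≤ 1 := by
  have hlo : ∀ q, -(1 : ℝ) ≤ f q := fun q => by linarith [h0 q]
  have hc : Filter.Tendsto (fun _ : ℝ => (1 : ℝ)) (nhdsWithin 1 (Set.Ioi 1)) (nhds 1) :=
    tendsto_const_nhds
  unfold pmean
  conv_rhs => rw [← hc.liminf_eq]
  refine Filter.liminf_le_liminf ?_ ?_ hc.isCoboundedUnder_ge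
  · filter_upwards [N2ev] with s hs
    exact N2up hs.1 f 1 hlo hf
  · refine ⟨0, ?_⟩
    rw [Filter.eventually_map]
    refine Filter.Eventually.of_forall fun s => ?_
    exact div_nonneg (tsum_nonneg fun q => mul_nonneg (h0 q) (N2nn s q)) (N2pos s)

theorem pmean_nonneg {p : ℕ} {f : ℕ → ℝ} (h0 : ∀ q, 0 ≤ f q) (hf : ∀ q, f q ≤ 1) :
    0 ≤ pmean p f := by
  have hlo : ∀ q, -(1 : ℝ) ≤ f q := fun q => by linarith [h0 q]
  have hc : Filter.Tendsto (fun _ : ℝ => (0 : ℝ)) (nhdsWithin 1 (Set.Ioi 1)) (nhds 0) :=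
    tendsto_const_nhds
  unfold pmean
  conv_lhs => rw [← hc.liminf_eq]
  refine Filter.liminf_le_liminf ?_ hc.isBoundedUnder_ge (N2cob f 1 hlo hf)
  refine Filter.Eventually.of_forall fun s => ?_
  exact div_nonneg (tsum_nonneg fun q => mul_nonneg (h0 q) (N2nn s q)) (N2pos s)

theorem pmean_mono {p : ℕ} {f g : ℕ → ℝ} (h0 : ∀ q, 0 ≤ f q) (hg : ∀ q, g q ≤ 1)
    (h : ∀ q ∈ P1 p, f q ≤ g q) (hf : ∀ q, f q ≤ 1) (hg0 : ∀ q, 0 ≤ g q) :
    pmean p f ≤ pmean p g := by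
  have hlo : ∀ q, -(1 : ℝ) ≤ f q := fun q => by linarith [h0 q]
  have hlo' : ∀ q, -(1 : ℝ) ≤ g q := fun q => by linarith [hg0 q]
  unfold pmean
  refine Filter.liminf_le_liminf ?_ ?_ (N2cob g 1 hlo' hg)
  · filter_upwards [N2ev] with s hs
    refine div_le_div_of_nonneg_right ?_ (N2pos s)
    refine (N2sumf hs.1 (P1 p) f 1 fun q => abs_le.mpr ⟨hlo q, hf q⟩).tsum_le_tsum (fun q => ?_)
      (N2sumf hs.1 (P1 p) g 1 fun q => abs_le.mpr ⟨hlo' q, hg q⟩)
    exact mul_le_mul_of_nonneg_right (h q q.2) (N2nn s q)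
  · refine ⟨0, ?_⟩
    rw [Filter.eventually_map]
    refine Filter.Eventually.of_forall fun s => ?_
    exact div_nonneg (tsum_nonneg fun q => mul_nonneg (h0 q) (N2nn s q)) (N2pos s)

end Pool.Agent.RG
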