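import Mathlib
import Pool.Agent.Lib.RG.NDefs
import Pool.Agent.Lib.RG.D06
import Pool.Agent.Lib.RG.D09
import Pool.Agent.Lib.RG.D10
import Pool.Agent.Lib.RG.D11
import Pool.Agent.Lib.RG.D13
import Pool.Agent.Lib.RG.D15
import Pool.Agent.Lib.RG.N2

/-!
RG v2, row N1: the density of the split primes.

Proof. `T := T₁ ∪ T₂`, `M := p * ∏ s ∈ T, s`, `L ⊆ Om` the splitting field of
`(X ^ M - 1) * ∏ s ∈ T, (X ^ p - s)` (see the proof of `step`, D15). `H :=` the subgroup of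
`σ ∈ Gal(L/ℚ)` which fix the `p`-th roots of unity, act on `μ_s` (`s ∈ T₁`) by a `p`-th power modulo `s`
(`σ ζ_s = ζ_s ^ u`, `u` a `p`-th power in `(ZMod s)ˣ`) and fix the `p`-th roots of `s` for `s ∈ T₂`. It
is normal. Index of `H`: the homomorphism (of the subgroup fixing `μ_p`) to
`∏_{s ∈ T₁} (ZMod s)ˣ / p × ∏_{s ∈ T₂} ZMod p` is surjective by `gal_exists` (D06: choose `u` by the
Chinese remainder theorem with `u = 1` mod `p` and given residues mod `s`), its kernel is `H`, and the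
subgroup fixing `μ_p` has index `p - 1` (D06 again, `σ ↦ u mod p` is onto `(ZMod p)ˣ`). So
`finrank ℚ (fixedField H) = (p - 1) * p ^ (card T₁ + card T₂)`. D09 (`spl_sum`) for
`N := fixedField H` (Galois since `H` is normal) gives the density of `TN N`; by D10 (`frob_of_norm`),
D11 (`norm_of_frob`) and D13 (`frob_mu`, `frob_rad`) `TN N` and `splitSet p T₁ T₂` differ by a finite
set (contained in the prime divisors of `M`): if `l ∈ TN N`, `l ∤ M`, then `Frb L l Q σ` with `σ ∈ H`, and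
`σ ζ = ζ ^ l`, so `l % p = 1`, `l` is a `p`-th power mod `s ∈ T₁` (`PP p l s`), and `PP p s l` for
`s ∈ T₂` by `frob_rad`. Conversely let `l` be in `splitSet`, `l ∤ M`, `Q` a prime of `𝓞 L` above `l` and `σ` a
Frobenius at `Q` (`exists_frob` of G03 or `IsArithFrobAt.exists_of_isInvariant`, or D10 with
`H = ⊤`: `l ∈ TN ℚ`-like); then `σ ∈ H`, so `l ∈ TN N` by D11. A finite set changes the sum by a
bounded amount. (`p = 2` excluded only for D06.)
-/

set_option autoImplicit false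

namespace Pool.Agent.RG

open NumberField IsDedekindDomain IntermediateField

private theorem N1acl_om : IsAlgClosure ℚ Om := by
  have h : ∀ (i : Algebra ℚ Om), @Algebra.IsAlgebraic ℚ Om _ _ i := by
    intro i
    have h1 : i = AlgebraicClosure.instAlgebra ℚ := Subsingleton.elim _ _
    rw [h1]
    exact AlgebraicClosure.isAlgebraic ℚ
  exact ⟨inferInstance, h _⟩

/-- the generators of the field -/
private def N1gens (p M : ℕ) (Q : Finset ℕ) : Set Om :=
  {x | x ^ M = 1} ∪ {x | ∃ q ∈ Q, x ^ p = (q : Om)}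

private theorem N1gens_finite (p M : ℕ) (Q : Finset ℕ) (hp : 0 < p) (hM : 0 < M) :
    (N1gens p M Q).Finite := by
  classical
  refine Set.Finite.union ?_ ?_
  · refine ((Polynomial.nthRoots M (1 : Om)).toFinset.finite_toSet).subset fun x hx => ?_
    simp only [Finset.mem_coe, Multiset.mem_toFinset]
    exact (Polynomial.mem_nthRoots hM).mpr hx
  · refine ((Q.biUnion fun q => (Polynomial.nthRoots p (q : Om)).toFinset).finite_toSet).subset
      fun x hx => ?_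
    obtain ⟨q, hq, hx⟩ := hx
    simp only [Finset.mem_coe, Finset.mem_biUnion, Multiset.mem_toFinset]
    exact ⟨q, hq, (Polynomial.mem_nthRoots hp).mpr hx⟩

private theorem N1gal_rat {E : Type} [Field E] [CharZero E] (i : Algebra ℚ E)
    (h : @IsGalois ℚ _ E _ i) : IsGalois ℚ E := by
  have h1 : i = DivisionRing.toRatAlgebra := Subsingleton.elim _ _
  subst h1
  exact h

private theorem N1fd_rat {E : Type} [Field E] [CharZero E] (i : Algebra ℚ E)
    (h : @Module.Finite ℚ E _ _ i.toModule) : FiniteDimensional ℚ E := by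
  have h1 : i = DivisionRing.toRatAlgebra := Subsingleton.elim _ _
  subst h1
  exact h

/-- the field -/
private theorem N1exists_field (p M : ℕ) (hp : 0 < p) (hM : 0 < M) (Q : Finset ℕ) :
    ∃ (L : Type) (_ : Field L) (_ : NumberField L) (_ : IsGalois ℚ L) (ι : L →+* Om),
      (∀ x : Om, x ^ M = 1 → ∃ y : L, ι y = x) ∧
      (∀ q ∈ Q, ∀ x : Om, x ^ p = (q : Om) → ∃ y : L, ι y = x) ∧
      ∀ σ : Om ≃ₐ[ℚ] Om, ∃ σ' : L ≃ₐ[ℚ] L, ∀ x : L, ι (σ' x) = σ (ι x) := by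
  have hacl := N1acl_om
  have halg : Algebra.IsAlgebraic ℚ Om := hacl.isAlgebraic
  have hnOm : Normal ℚ Om := IsAlgClosure.normal ℚ Om
  have hfin : Finite (N1gens p M Q) := (N1gens_finite p M Q hp hM).to_subtype
  let L : IntermediateField ℚ Om := adjoin ℚ (N1gens p M Q)
  have hmap : ∀ σ : Om →ₐ[ℚ] Om, L.map σ ≤ L := by
    intro σ
    change (adjoin ℚ (N1gens p M Q)).map σ ≤ adjoin ℚ (N1gens p M Q)
    rw [adjoin_map]
    refine adjoin.mono _ _ _ ?_
    rintro _ ⟨x, hx, rfl⟩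
    rcases hx with hx | ⟨q, hq, hx⟩
    · left
      have h1 : x ^ M = 1 := hx
      change (σ x) ^ M = 1
      rw [← map_pow, h1, map_one]
    · right
      refine ⟨q, hq, ?_⟩
      rw [← map_pow, hx, map_natCast]
  have hn := (normal_iff_forall_map_le (K := L)).mpr hmap
  have hfd := finiteDimensional_adjoin (K := ℚ) (S := N1gens p M Q)
    fun x _ => (Algebra.IsAlgebraic.isAlgebraic (R := ℚ) x).isIntegral
  have hcz : CharZero L := inferInstance
  have hfd2 : FiniteDimensional ℚ L := N1fd_rat _ hfd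
  have hnf : NumberField L := @NumberField.mk L _ hcz hfd2
  have hsep := @Algebra.IsAlgebraic.isSeparable_of_perfectField ℚ L _ _ _ _ _
  have hg := @IsGalois.mk ℚ _ L _ _ hsep hn
  have hg2 : IsGalois ℚ L := N1gal_rat _ hg
  have hst : IsScalarTower ℚ L Om := IsScalarTower.of_algebraMap_eq' (Subsingleton.elim _ _)
  refine ⟨L, inferInstance, hnf, hg2, algebraMap L Om, ?_, ?_, ?_⟩
  · exact fun x hx => ⟨⟨x, subset_adjoin _ _ (Or.inl hx)⟩, rfl⟩
  · exact fun q hq x hx => ⟨⟨x, subset_adjoin _ _ (Or.inr ⟨q, hq, hx⟩)⟩, rfl⟩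
  · intro σ
    exact ⟨σ.restrictNormal L, fun x => σ.restrictNormal_commutes L x⟩

/-- the subgroup of automorphisms fixing a set -/
private def N1FS {L : Type} [Field L] [Algebra ℚ L] (S : Set L) : Subgroup (L ≃ₐ[ℚ] L) where
  carrier := {σ | ∀ x ∈ S, σ x = x}
  mul_mem' := by
    intro a b ha hb x hx
    rw [AlgEquiv.mul_apply, hb x hx, ha x hx]
  one_mem' := fun x _ => rfl
  inv_mem' := by
    intro a ha x hx
    have := ha x hx
    calc a⁻¹ x = a⁻¹ (a x) := by rw [this]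
      _ = x := by rw [← AlgEquiv.mul_apply, inv_mul_cancel, AlgEquiv.one_apply]

private theorem N1FS_normal {L : Type} [Field L] [Algebra ℚ L] (S : Set L)
    (hS : ∀ g : L ≃ₐ[ℚ] L, ∀ x ∈ S, g x ∈ S) : (N1FS S).Normal := by
  refine ⟨fun σ hσ g x hx => ?_⟩
  have h1 := hσ _ (hS g⁻¹ x hx)
  rw [AlgEquiv.mul_apply, AlgEquiv.mul_apply, h1, ← AlgEquiv.mul_apply, mul_inv_cancel,
    AlgEquiv.one_apply]

private theorem N1prim {L : Type} [Field L] {v : L} {n : ℕ} (hv : IsPrimitiveRoot v n)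
    (hn : 0 < n) {a b : ℕ} (h : v ^ a = v ^ b) : a ≡ b [MOD n] := by
  refine hv.pow_inj (Nat.mod_lt _ hn) (Nat.mod_lt _ hn) ?_
  rw [← pow_eq_pow_mod a hv.pow_eq_one, ← pow_eq_pow_mod b hv.pow_eq_one, h]


/-- the index of a subgroup by counting the values of a function constant on the left cosets -/
private theorem N1index {G X : Type} [Group G] (H : Subgroup G) (F : G → X)
    (h : ∀ σ τ, F σ = F τ ↔ σ⁻¹ * τ ∈ H) (hs : Function.Surjective F) : H.index = Nat.card X := by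
  unfold Subgroup.index
  refine Nat.card_eq_of_bijective (fun q : G ⧸ H => F q.out) ⟨?_, ?_⟩
  · intro q q' hq
    have h1 : (q.out)⁻¹ * q'.out ∈ H := (h _ _).mp hq
    have h2 := QuotientGroup.eq.mpr h1
    rwa [QuotientGroup.out_eq', QuotientGroup.out_eq'] at h2
  · intro x
    obtain ⟨σ, rfl⟩ := hs x
    refine ⟨(σ : G ⧸ H), ?_⟩
    have h2 : (((σ : G ⧸ H).out : G) : G ⧸ H) = (σ : G ⧸ H) := QuotientGroup.out_eq' _
    exact (h _ _).mpr (QuotientGroup.eq.mp h2)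

/-- existence of a Frobenius element -/
private theorem N1frob (L : Type) [Field L] [NumberField L] [IsGalois ℚ L] (l : ℕ)
    (hl : l.Prime) : ∃ (Q : Ideal (𝓞 L)) (σ : L ≃ₐ[ℚ] L), Frb L l Q σ := by
  have hlp : Prime (l : ℤ) := Nat.prime_iff_prime_int.mp hl
  have hmax : (Ideal.span {(l : ℤ)}).IsMaximal := by
    have := (Ideal.span_singleton_prime hlp.ne_zero).2 hlp
    exact this.isMaximal (by simpa using hlp.ne_zero)
  obtain ⟨Q, hQ, hQw⟩ := Ideal.exists_maximal_ideal_liesOver_of_isIntegral (S := 𝓞 L)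
    (Ideal.span {(l : ℤ)})
  have hlQ : (l : 𝓞 L) ∈ Q := by
    have h1 : (l : ℤ) ∈ Ideal.span {(l : ℤ)} := Ideal.mem_span_singleton_self _
    rw [hQw.over, Ideal.under_def, Ideal.mem_comap] at h1
    simpa using h1
  have hQ0 : Q ≠ ⊥ := by
    rintro rfl
    rw [Ideal.mem_bot] at hlQ
    exact hl.ne_zero (by exact_mod_cast hlQ)
  have hfin : Finite (𝓞 L ⧸ Q) := Q.finiteQuotientOfFreeOfNeBot hQ0
  have hG2 : IsGaloisGroup (L ≃ₐ[ℚ] L) ℤ (𝓞 L) :=
    IsGaloisGroup.of_isFractionRing (L ≃ₐ[ℚ] L) ℤ (𝓞 L) ℚ L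
  obtain ⟨σ, hσ⟩ := IsArithFrobAt.exists_of_isInvariant ℤ (L ≃ₐ[ℚ] L) Q
  have hcard : Nat.card (ℤ ⧸ Q.under ℤ) = l := by
    rw [← hQw.over, Nat.card_congr (Int.quotientSpanNatEquivZMod l).toEquiv, Nat.card_zmod]
  refine ⟨Q, σ, ⟨hQ.isPrime, hlQ, fun x => ?_⟩⟩
  have := hσ x
  rw [hcard] at this
  exact this

private theorem N1pow {L : Type} [Field L] [Algebra ℚ L] {n : ℕ} [NeZero n] {v : L}
    (hv : IsPrimitiveRoot v n) (σ : L ≃ₐ[ℚ] L) (u : ℕ) (h : σ v = v ^ u) :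
    ((hv.autToPow ℚ σ : (ZMod n)ˣ) : ZMod n) = (u : ZMod n) := by
  have h1 := hv.autToPow_spec ℚ σ
  rw [h] at h1
  have h3 := N1prim hv (NeZero.pos n) h1
  have h4 := (ZMod.natCast_eq_natCast_iff _ _ n).mpr h3
  rwa [ZMod.natCast_zmod_val] at h4

private theorem N1eq {L : Type} [Field L] [Algebra ℚ L] {n : ℕ} [NeZero n] {v : L}
    (hv : IsPrimitiveRoot v n) (σ τ : L ≃ₐ[ℚ] L) :
    hv.autToPow ℚ σ = hv.autToPow ℚ τ ↔ σ v = τ v := by
  constructor
  · intro h
    rw [← hv.autToPow_spec ℚ σ, ← hv.autToPow_spec ℚ τ, h]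
  · intro h
    apply Units.ext
    have h1 := N1pow hv σ (hv.autToPow ℚ τ : ZMod n).val (by rw [h, hv.autToPow_spec ℚ τ])
    rw [h1, ZMod.natCast_zmod_val]

private theorem N1card (p s : ℕ) [Fact p.Prime] (hs : s.Prime) (h : s % p = 1) :
    Nat.card ((ZMod s)ˣ ⧸ (powMonoidHom p : (ZMod s)ˣ →* (ZMod s)ˣ).range) = p := by
  have : Fact s.Prime := ⟨hs⟩
  have h1 := IsCyclic.index_powMonoidHom_range (G := (ZMod s)ˣ) p
  have hp := Fact.out (p := p.Prime)
  have hdvd : p ∣ Nat.card (ZMod s)ˣ := by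
    rw [Nat.card_eq_fintype_card, ZMod.card_units]
    exact (Nat.modEq_iff_dvd' hs.one_le).mp (by
      rw [Nat.ModEq, Nat.mod_eq_of_lt hp.one_lt, h])
  rw [Nat.gcd_eq_right hdvd] at h1
  exact h1

/-- the subgroup: a normal subgroup with the required index -/
private theorem N1group (p : ℕ) [Fact p.Prime] (T₁ T₂ : Finset ℕ)
    (h₁ : ∀ s ∈ T₁, s.Prime ∧ s % p = 1) (h₂ : ∀ s ∈ T₂, s.Prime ∧ s % p = 1)
    (L : Type) [Field L] [NumberField L] [IsGalois ℚ L] (z : L) (hz : IsPrimitiveRoot z p)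
    (v : ℕ → L) (hv : ∀ s ∈ T₁, IsPrimitiveRoot (v s) s) (β : ℕ → L)
    (hβ : ∀ s ∈ T₂, β s ^ p = (s : L))
    (hex : ∀ u : ℕ, u.Coprime p → (∀ s ∈ T₁, u.Coprime s) → ∀ k : ℕ → ℕ, ∃ σ : L ≃ₐ[ℚ] L,
      σ z = z ^ u ∧ (∀ s ∈ T₁, σ (v s) = v s ^ u) ∧ ∀ s ∈ T₂, σ (β s) = z ^ k s * β s) :
    ∃ H : Subgroup (L ≃ₐ[ℚ] L), H.Normal ∧ H.index = (p - 1) * p ^ T₁.card * p ^ T₂.card ∧
      ∀ σ, σ ∈ H ↔ (σ z = z ∧ (∀ s ∈ T₁, ∃ y : ℕ, σ (v s) = v s ^ (y ^ p)) ∧
        ∀ s ∈ T₂, σ (β s) = β s) := by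
  classical
  have hpp : p.Prime := Fact.out
  have : NeZero p := ⟨hpp.ne_zero⟩
  have iN : ∀ s : T₁, NeZero (s : ℕ) := fun s => ⟨(h₁ s s.2).1.ne_zero⟩
  have hz0 : z ≠ 0 := hz.ne_zero hpp.ne_zero
  have hβ0 : ∀ s ∈ T₂, β s ≠ 0 := by
    intro s hs h0
    have h1 := hβ s hs
    rw [h0, zero_pow hpp.ne_zero] at h1
    exact (h₂ s hs).1.ne_zero (by exact_mod_cast h1.symm)
  have hroots : ∀ s ∈ T₂, ∀ x : L, x ^ p = (s : L) → ∃ j : ℕ, j < p ∧ x = z ^ j * β s := by
    intro s hs x hx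
    have hb0 := hβ0 s hs
    have h1 : (x / β s) ^ p = 1 := by
      rw [div_pow, hx, hβ s hs, div_self]
      exact_mod_cast (h₂ s hs).1.ne_zero
    obtain ⟨j, hj', hj⟩ := hz.eq_pow_of_pow_eq_one h1
    exact ⟨j, hj', by rw [hj, div_mul_cancel₀ _ hb0]⟩
  -- the character at `s`
  let χ : ∀ s : T₁, (L ≃ₐ[ℚ] L) →* (ZMod (s : ℕ))ˣ := fun s => (hv s s.2).autToPow ℚ
  let R : ∀ s : T₁, Subgroup (ZMod (s : ℕ))ˣ := fun s =>
    (powMonoidHom p : (ZMod (s : ℕ))ˣ →* (ZMod (s : ℕ))ˣ).range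
  let S0 : Set L := {x | x ^ p = 1} ∪ {x | ∃ q ∈ T₂, x ^ p = (q : L)}
  have nF : (N1FS S0).Normal := by
    refine N1FS_normal _ ?_
    intro g x hx
    rcases hx with hx | ⟨q, hq, hx⟩
    · left
      have h1 : x ^ p = 1 := hx
      change (g x) ^ p = 1
      rw [← map_pow, h1, map_one]
    · right
      refine ⟨q, hq, ?_⟩
      rw [← map_pow, hx, map_natCast]
  have nK : (⨅ s : T₁, (R s).comap (χ s)).Normal := by
    refine Subgroup.normal_iInf_normal fun s => ?_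
    exact Subgroup.Normal.comap inferInstance _
  refine ⟨N1FS S0 ⊓ ⨅ s : T₁, (R s).comap (χ s), Subgroup.normal_inf_normal _ _, ?_, ?_⟩
  · -- the index
    have hc : ∀ (s : T₂) (σ : L ≃ₐ[ℚ] L), ∃ c : ZMod p, σ (β s) = z ^ c.val * β s := by
      intro s σ
      obtain ⟨j, hj, h⟩ := hroots s s.2 (σ (β s)) (by rw [← map_pow, hβ s s.2, map_natCast])
      exact ⟨(j : ZMod p), by rw [ZMod.val_natCast_of_lt hj]; exact h⟩
    choose c hc using hc
    have hceq : ∀ (s : T₂) (σ τ : L ≃ₐ[ℚ] L), c s σ = c s τ ↔ σ (β s) = τ (β s) := by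
      intro s σ τ
      constructor
      · intro h
        rw [hc s σ, hc s τ, h]
      · intro h
        rw [hc s σ, hc s τ] at h
        have h1 := mul_right_cancel₀ (hβ0 s s.2) h
        have h2 := hz.pow_inj (ZMod.val_lt _) (ZMod.val_lt _) h1
        exact ZMod.val_injective p h2
    let F : (L ≃ₐ[ℚ] L) → (ZMod p)ˣ × (∀ s : T₁, (ZMod (s : ℕ))ˣ ⧸ R s) × (T₂ → ZMod p) :=
      fun σ => (hz.autToPow ℚ σ, fun s => (χ s σ : (ZMod (s : ℕ))ˣ ⧸ R s), fun s => c s σ)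
    have hFeq : ∀ σ τ, F σ = F τ ↔ σ⁻¹ * τ ∈ N1FS S0 ⊓ ⨅ s : T₁, (R s).comap (χ s) := by
      intro σ τ
      have e1 : F σ = F τ ↔ (σ z = τ z ∧ (∀ s : T₁, (χ s σ)⁻¹ * χ s τ ∈ R s) ∧
          ∀ s : T₂, σ (β s) = τ (β s)) := by
        simp only [F, Prod.mk.injEq, funext_iff]
        rw [N1eq hz σ τ]
        refine and_congr Iff.rfl (and_congr (forall_congr' fun s => ?_)
          (forall_congr' fun s => hceq s σ τ))
        exact QuotientGroup.eq
      rw [e1, Subgroup.mem_inf, Subgroup.mem_iInf]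
      have e2 : ∀ s : T₁, (σ⁻¹ * τ ∈ (R s).comap (χ s) ↔ (χ s σ)⁻¹ * χ s τ ∈ R s) := by
        intro s
        rw [Subgroup.mem_comap, map_mul, map_inv]
      rw [forall_congr' e2]
      have e3 : σ⁻¹ * τ ∈ N1FS S0 ↔ (σ z = τ z ∧ ∀ s : T₂, σ (β s) = τ (β s)) := by
        have h1 : ∀ x : L, (σ⁻¹ * τ) x = x ↔ σ x = τ x := by
          intro x
          rw [AlgEquiv.mul_apply]
          constructor
          · intro h
            have h2 := congrArg σ h
            rw [← AlgEquiv.mul_apply, mul_inv_cancel, AlgEquiv.one_apply] at h2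
            exact h2.symm
          · intro h
            rw [← h, ← AlgEquiv.mul_apply, inv_mul_cancel, AlgEquiv.one_apply]
        constructor
        · intro h
          refine ⟨(h1 z).mp (h z (Or.inl hz.pow_eq_one)), fun s => (h1 _).mp ?_⟩
          exact h _ (Or.inr ⟨s, s.2, hβ s s.2⟩)
        · rintro ⟨ha, hb⟩ x hx
          rw [h1]
          rcases hx with hx | ⟨q, hq, hx⟩
          · obtain ⟨i, _, rfl⟩ := hz.eq_pow_of_pow_eq_one hx
            rw [map_pow, map_pow, ha]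
          · obtain ⟨j, _, rfl⟩ := hroots q hq x hx
            rw [map_mul, map_mul, map_pow, map_pow, ha, hb ⟨q, hq⟩]
      rw [e3]
      tauto
    have hFs : Function.Surjective F := by
      rintro ⟨a, b, d⟩
      have hg : ∀ s : T₁, ∃ g : (ZMod (s : ℕ))ˣ, (g : (ZMod (s : ℕ))ˣ ⧸ R s) = b s :=
        fun s => QuotientGroup.mk_surjective (b s)
      choose g hg using hg
      let A : ℕ → ℕ := fun i => if i = p then (a : ZMod p).val else
        if h : i ∈ T₁ then (g ⟨i, h⟩ : ZMod i).val else 0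
      have hpT : p ∉ T₁ := by
        intro h
        have := (h₁ p h).2
        rw [Nat.mod_self] at this
        exact zero_ne_one this
      have hprime : ∀ i ∈ insert p T₁, i.Prime := by
        intro i hi
        rcases Finset.mem_insert.mp hi with rfl | hi
        · exact hpp
        · exact (h₁ i hi).1
      obtain ⟨u, hu⟩ := Nat.chineseRemainderOfFinset A id (insert p T₁)
        (fun i hi => (hprime i hi).ne_zero) (by
          intro i hi j hj hij
          exact (Nat.coprime_primes (hprime i hi) (hprime j hj)).mpr hij)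
      have hup : ((u : ℕ) : ZMod p) = (a : ZMod p) := by
        have h1 := hu p (Finset.mem_insert_self _ _)
        have h2 := (ZMod.natCast_eq_natCast_iff u (A p) p).mpr h1
        rw [h2]
        simp only [A, if_true]
        rw [ZMod.natCast_zmod_val]
      have hus : ∀ s : T₁, ((u : ℕ) : ZMod (s : ℕ)) = (g s : ZMod (s : ℕ)) := by
        intro s
        have h1 := hu s (Finset.mem_insert_of_mem s.2)
        have h2 := (ZMod.natCast_eq_natCast_iff u (A s) s).mpr h1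
        have h3 : (s : ℕ) ≠ p := fun h => hpT (h ▸ s.2)
        rw [h2]
        simp only [A, if_neg h3, dif_pos s.2]
        rw [ZMod.natCast_zmod_val]
      have hcp : u.Coprime p := by
        rw [← ZMod.isUnit_iff_coprime, hup]
        exact a.isUnit
      have hcs : ∀ s ∈ T₁, u.Coprime s := by
        intro s hs
        rw [← ZMod.isUnit_iff_coprime, hus ⟨s, hs⟩]
        exact (g ⟨s, hs⟩).isUnit
      obtain ⟨σ, hσ1, hσ2, hσ3⟩ := hex u hcp hcs
        (fun i => if h : i ∈ T₂ then (d ⟨i, h⟩).val else 0)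
      refine ⟨σ, ?_⟩
      simp only [F, Prod.mk.injEq, funext_iff]
      refine ⟨?_, fun s => ?_, fun s => ?_⟩
      · apply Units.ext
        rw [N1pow hz σ u hσ1, hup]
      · rw [← hg s]
        congr 1
        apply Units.ext
        rw [← hus s]
        exact N1pow (hv s s.2) σ u (hσ2 s s.2)
      · have h1 := hσ3 s s.2
        rw [hc s σ] at h1
        have h2 := mul_right_cancel₀ (hβ0 s s.2) h1
        rw [dif_pos s.2] at h2
        have h3 := hz.pow_inj (ZMod.val_lt _) (ZMod.val_lt _) h2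
        exact ZMod.val_injective p h3
    rw [N1index _ F hFeq hFs, Nat.card_prod, Nat.card_prod, Nat.card_pi, Nat.card_pi]
    have c1 : Nat.card (ZMod p)ˣ = p - 1 := by
      rw [Nat.card_eq_fintype_card, ZMod.card_units]
    have c2 : ∀ s : T₁, Nat.card ((ZMod (s : ℕ))ˣ ⧸ R s) = p := fun s =>
      N1card p s (h₁ s s.2).1 (h₁ s s.2).2
    rw [c1, Finset.prod_congr rfl fun s _ => c2 s]
    simp [Finset.prod_const, mul_assoc]
  · -- membership
    intro σ
    rw [Subgroup.mem_inf, Subgroup.mem_iInf]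
    constructor
    · rintro ⟨ha, hb⟩
      have key : ∀ s : T₁, ∃ y : ℕ, σ (v s) = v s ^ (y ^ p) := by
        intro s
        have h1 := hb s
        rw [Subgroup.mem_comap] at h1
        obtain ⟨y, hy⟩ := h1
        refine ⟨(y : ZMod (s : ℕ)).val, ?_⟩
        have h2 := (hv s s.2).autToPow_spec ℚ σ
        rw [← h2]
        have h3 : (hv s s.2).autToPow ℚ σ = y ^ p := hy.symm
        rw [h3]
        have h4 : ((y ^ p : (ZMod (s : ℕ))ˣ) : ZMod (s : ℕ)).val =
            ((y : ZMod (s : ℕ)).val ^ p) % s := by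
          rw [Units.val_pow_eq_pow_val]
          have h5 : ((y : ZMod (s : ℕ)) ^ p) =
              (((y : ZMod (s : ℕ)).val ^ p : ℕ) : ZMod (s : ℕ)) := by
            rw [Nat.cast_pow, ZMod.natCast_zmod_val]
          rw [h5, ZMod.val_natCast]
        rw [h4, ← pow_eq_pow_mod _ (hv s s.2).pow_eq_one]
      refine ⟨ha z (Or.inl hz.pow_eq_one), fun s hs => ?_, fun s hs => ?_⟩
      · exact key ⟨s, hs⟩
      · exact ha _ (Or.inr ⟨s, hs, hβ s hs⟩)
    · rintro ⟨ha, hb, hd⟩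
      refine ⟨fun x hx => ?_, fun s => ?_⟩
      · rcases hx with hx | ⟨q, hq, hx⟩
        · obtain ⟨i, _, rfl⟩ := hz.eq_pow_of_pow_eq_one hx
          rw [map_pow, ha]
        · obtain ⟨j, _, rfl⟩ := hroots q hq x hx
          rw [map_mul, map_pow, ha, hd q hq]
      · obtain ⟨y, hy⟩ := hb s s.2
        have h1 := N1pow (hv s s.2) σ (y ^ p) hy
        rw [Nat.cast_pow] at h1
        have h2 : IsUnit ((y : ZMod (s : ℕ)) ^ p) := by
          rw [← h1]
          exact Units.isUnit _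
        have h3 : IsUnit (y : ZMod (s : ℕ)) := (isUnit_pow_iff hpp.ne_zero).mp h2
        rw [Subgroup.mem_comap]
        refine ⟨h3.unit, ?_⟩
        apply Units.ext
        change ((h3.unit ^ p : (ZMod (s : ℕ))ˣ) : ZMod (s : ℕ)) = _
        rw [Units.val_pow_eq_pow_val, IsUnit.unit_spec]
        exact h1.symm

private theorem N1fin (F : Finset ℕ) (A : Set ℕ) (hA : A ⊆ F) : HasD A 0 := by
  refine ⟨F.card, fun s hs1 hs2 => ?_⟩
  have hnn : ∀ n : ℕ, (0 : ℝ) ≤ (n : ℝ) ^ (-s) := fun n => by positivity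
  have hle : ∀ n : ℕ, (n : ℝ) ^ (-s) ≤ 1 := by
    intro n
    rcases Nat.eq_zero_or_pos n with h | h
    · subst h
      rw [Nat.cast_zero, Real.zero_rpow (by linarith)]
      exact zero_le_one
    · apply Real.rpow_le_one_of_one_le_of_nonpos
      · exact_mod_cast h
      · linarith
  rw [zero_mul, sub_zero, tsum_subtype A (fun n : ℕ => (n : ℝ) ^ (-s)), abs_of_nonneg
    (tsum_nonneg fun n => Set.indicator_nonneg (fun n _ => hnn n) n)]
  rw [tsum_eq_sum (s := F)]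
  · calc ∑ n ∈ F, A.indicator (fun n : ℕ => (n : ℝ) ^ (-s)) n ≤ ∑ n ∈ F, (1 : ℝ) := by
          refine Finset.sum_le_sum fun n _ => ?_
          exact Set.indicator_le_self' (fun _ _ => hnn n) n |>.trans (hle n)
      _ = F.card := by simp
  · intro n hn
    exact Set.indicator_of_notMem (fun h => hn (by exact_mod_cast hA h)) _

private theorem N1gal (L : Type) [Field L] [NumberField L] [IsGalois ℚ L]
    (H : Subgroup (L ≃ₐ[ℚ] L)) (_hn : H.Normal) :
    IsGalois ℚ (IntermediateField.fixedField H) := by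
  have := IsGalois.of_fixedField_normal_subgroup H
  exact N1gal_rat _ this

/-- the arithmetic of the splitting field -/
private theorem N1main {p : ℕ} [Fact p.Prime] (hp : p ≠ 2) (T₁ T₂ : Finset ℕ)
    (h₁ : ∀ s ∈ T₁, s.Prime ∧ s % p = 1) (h₂ : ∀ s ∈ T₂, s.Prime ∧ s % p = 1) :
    ∃ (A : Set ℕ), HasD A (((p : ℝ) - 1)⁻¹ * ((p : ℝ)⁻¹) ^ (T₁.card + T₂.card)) ∧
      ∀ l : ℕ, l ∉ ({p} ∪ T₁ ∪ T₂ : Finset ℕ) → (l ∈ A ↔ l ∈ splitSet p T₁ T₂) := by
  classical
  have hpp : p.Prime := Fact.out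
  have hp0 : 0 < p := hpp.pos
  have : NeZero p := ⟨hpp.ne_zero⟩
  set M : ℕ := p * ∏ s ∈ T₁, s with hM
  have hM0 : 0 < M := Nat.mul_pos hp0 (Finset.prod_pos fun s hs => (h₁ s hs).1.pos)
  have hpM : p ∣ M := Dvd.intro _ rfl
  have hsM : ∀ s ∈ T₁, s ∣ M := fun s hs =>
    (Finset.dvd_prod_of_mem (fun s => s) hs).mul_left p
  obtain ⟨ζ, hζ⟩ := HasEnoughRootsOfUnity.exists_primitiveRoot Om p
  have hβ : ∀ b : ℕ, ∃ z : Om, z ^ p = (b : Om) := fun b =>
    IsAlgClosed.exists_pow_nat_eq (b : Om) hp0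
  choose β hβ using hβ
  have hω : ∀ s : ℕ, ∃ w : Om, s ∈ T₁ → IsPrimitiveRoot w s := by
    intro s
    by_cases hs : s ∈ T₁
    · have : NeZero s := ⟨(h₁ s hs).1.ne_zero⟩
      obtain ⟨w, hw⟩ := HasEnoughRootsOfUnity.exists_primitiveRoot Om s
      exact ⟨w, fun _ => hw⟩
    · exact ⟨0, fun h => absurd h hs⟩
  choose ω hω using hω
  obtain ⟨L, iF, iN, iG, ι, hmem1, hmem2, hrest⟩ := N1exists_field p M hp0 hM0 T₂
  have hι : Function.Injective ι := ι.injective
  obtain ⟨z, hz⟩ := hmem1 ζ ((hζ.pow_eq_one_iff_dvd M).mpr hpM)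
  have hzp : IsPrimitiveRoot z p := IsPrimitiveRoot.of_map_of_injective (f := ι) (by rwa [hz]) hι
  have hv : ∀ s : ℕ, ∃ v : L, s ∈ T₁ → ι v = ω s := by
    intro s
    by_cases hs : s ∈ T₁
    · obtain ⟨v, hv⟩ := hmem1 (ω s) (((hω s hs).pow_eq_one_iff_dvd M).mpr (hsM s hs))
      exact ⟨v, fun _ => hv⟩
    · exact ⟨0, fun h => absurd h hs⟩
  choose v hv using hv
  have hvp : ∀ s ∈ T₁, IsPrimitiveRoot (v s) s := fun s hs =>
    IsPrimitiveRoot.of_map_of_injective (f := ι) (by rw [hv s hs]; exact hω s hs) hι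
  have hb : ∀ s : ℕ, ∃ b : L, s ∈ T₂ → ι b = β s := by
    intro s
    by_cases hs : s ∈ T₂
    · obtain ⟨b, hb⟩ := hmem2 s hs (β s) (hβ s)
      exact ⟨b, fun _ => hb⟩
    · exact ⟨0, fun h => absurd h hs⟩
  choose b hb using hb
  have hbp : ∀ s ∈ T₂, b s ^ p = (s : L) := by
    intro s hs
    apply hι
    rw [map_pow, hb s hs, hβ s, map_natCast]
  have hex : ∀ u : ℕ, u.Coprime p → (∀ s ∈ T₁, u.Coprime s) → ∀ k : ℕ → ℕ,
      ∃ σ : L ≃ₐ[ℚ] L, σ z = z ^ u ∧ (∀ s ∈ T₁, σ (v s) = v s ^ u) ∧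
        ∀ s ∈ T₂, σ (b s) = z ^ k s * b s := by
    intro u hu1 hu2 k
    have hu : u.Coprime M := Nat.Coprime.mul_right hu1 (Nat.Coprime.prod_right hu2)
    obtain ⟨σ, hσ1, hσ2⟩ := gal_exists p hp M hM0 hpM ζ hζ T₂ (fun s hs => (h₂ s hs).1) β
      (fun s _ => hβ s) u hu k
    obtain ⟨σ', hres⟩ := hrest σ
    refine ⟨σ', ?_, fun s hs => ?_, fun s hs => ?_⟩
    · apply hι
      rw [hres, hz, map_pow, hz]
      exact hσ1 ζ ((hζ.pow_eq_one_iff_dvd M).mpr hpM)
    · apply hι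
      rw [hres, hv s hs, map_pow, hv s hs]
      exact hσ1 _ (((hω s hs).pow_eq_one_iff_dvd M).mpr (hsM s hs))
    · apply hι
      rw [hres, hb s hs, map_mul, map_pow, hz, hb s hs]
      exact hσ2 s hs
  obtain ⟨H, nH, hind, hHm⟩ := N1group p T₁ T₂ h₁ h₂ L z hzp v hvp b hbp hex
  refine ⟨TN (fixedField H), ?_, ?_⟩
  · have hG : IsGalois ℚ (fixedField H) := N1gal L H nH
    obtain ⟨C, hC⟩ := spl_sum (fixedField H)
    refine ⟨C, ?_⟩
    have e1 : Module.finrank ℚ (fixedField H) = (p - 1) * p ^ T₁.card * p ^ T₂.card := by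
      rw [← hind, finrank_eq_fixingSubgroup_index, fixingSubgroup_fixedField]
    have e2 : (Module.finrank ℚ (fixedField H) : ℝ)⁻¹ =
        ((p : ℝ) - 1)⁻¹ * ((p : ℝ)⁻¹) ^ (T₁.card + T₂.card) := by
      rw [e1]
      push_cast [Nat.cast_sub hpp.one_le]
      rw [pow_add, inv_pow, inv_pow, mul_inv, mul_inv, mul_assoc]
    rw [← e2]
    exact hC
  · intro l hlE
    simp only [Finset.mem_union, Finset.mem_singleton, not_or] at hlE
    obtain ⟨⟨hlp, hlT1⟩, hlT2⟩ := hlE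
    have hne1 : ∀ s ∈ T₁, l.Prime → ¬ l ∣ s := fun s hs hl h =>
      hlT1 (((Nat.prime_dvd_prime_iff_eq hl (h₁ s hs).1).mp h) ▸ hs)
    have hne2 : ∀ s ∈ T₂, l.Prime → ¬ l ∣ s := fun s hs hl h =>
      hlT2 (((Nat.prime_dvd_prime_iff_eq hl (h₂ s hs).1).mp h) ▸ hs)
    have hnep : l.Prime → ¬ l ∣ p := fun hl h => hlp ((Nat.prime_dvd_prime_iff_eq hl hpp).mp h)
    -- translation for a Frobenius element
    have key : ∀ (hl : l.Prime) (Q : Ideal (𝓞 L)) (σ : L ≃ₐ[ℚ] L), Frb L l Q σ →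
        (σ ∈ H ↔ l ∈ splitSet p T₁ T₂) := by
      intro hl Q σ hfr
      have k1 : σ z = z ↔ l % p = 1 := by
        rw [frob_mu L l hl Q σ hfr p (hnep hl) z hzp.pow_eq_one]
        constructor
        · intro h
          have h3 : z ^ l = z ^ 1 := by rw [h, pow_one]
          have h4 := N1prim hzp hp0 h3
          rwa [Nat.ModEq, Nat.mod_eq_of_lt hpp.one_lt] at h4
        · intro h
          rw [pow_eq_pow_mod l hzp.pow_eq_one, h, pow_one]
      have k2 : ∀ s ∈ T₁, ((∃ y : ℕ, σ (v s) = v s ^ (y ^ p)) ↔ PP p l s) := by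
        intro s hs
        have hs0 := (h₁ s hs).1.pos
        have : NeZero s := ⟨hs0.ne'⟩
        rw [frob_mu L l hl Q σ hfr s (hne1 s hs hl) (v s) (hvp s hs).pow_eq_one]
        constructor
        · rintro ⟨y, hy⟩
          have h4 := N1prim (hvp s hs) hs0 hy
          have h5 := (ZMod.natCast_eq_natCast_iff _ _ s).mpr h4
          refine ⟨(y : ZMod s), ?_⟩
          rw [h5, Nat.cast_pow]
        · rintro ⟨x, hx⟩
          refine ⟨x.val, ?_⟩
          have h5 : ((l : ℕ) : ZMod s) = ((x.val ^ p : ℕ) : ZMod s) := by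
            rw [Nat.cast_pow, ZMod.natCast_zmod_val, hx]
          have h6 : l % s = (x.val ^ p) % s := (ZMod.natCast_eq_natCast_iff _ _ s).mp h5
          rw [pow_eq_pow_mod l (hvp s hs).pow_eq_one, h6,
            ← pow_eq_pow_mod _ (hvp s hs).pow_eq_one]
      rw [hHm, splitSet, Set.mem_ofPred_eq]
      constructor
      · rintro ⟨ha, hb', hc⟩
        have hl1 := k1.mp ha
        refine ⟨hl, hl1, fun s hs => (k2 s hs).mp (hb' s hs), fun s hs => ?_⟩
        exact (frob_rad L l hl Q σ hfr p hl1 z hzp s (hne2 s hs hl) (b s) (hbp s hs)).mp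
          (hc s hs)
      · rintro ⟨_, hl1, hb', hc⟩
        refine ⟨k1.mpr hl1, fun s hs => (k2 s hs).mpr (hb' s hs), fun s hs => ?_⟩
        exact (frob_rad L l hl Q σ hfr p hl1 z hzp s (hne2 s hs hl) (b s) (hbp s hs)).mpr
          (hc s hs)
    constructor
    · intro hl
      obtain ⟨Q, σ, hfr, hσ⟩ := frob_of_norm L H l hl
      exact (key hl.1 Q σ hfr).mp hσ
    · intro hl
      obtain ⟨Q, σ, hfr⟩ := N1frob L l hl.1
      exact norm_of_frob L H l hl.1 Q σ hfr ((key hl.1 Q σ hfr).mpr hl)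

theorem split_density {p : ℕ} [Fact p.Prime] (hp : p ≠ 2) (T₁ T₂ : Finset ℕ)
    (h₁ : ∀ s ∈ T₁, s.Prime ∧ s % p = 1) (h₂ : ∀ s ∈ T₂, s.Prime ∧ s % p = 1) :
    HasD (splitSet p T₁ T₂) (((p : ℝ) - 1)⁻¹ * ((p : ℝ)⁻¹) ^ (T₁.card + T₂.card)) := by
  classical
  obtain ⟨A, hA, hE⟩ := N1main hp T₁ T₂ h₁ h₂
  set E : Finset ℕ := {p} ∪ T₁ ∪ T₂ with hEdef
  have h1 := hA.diff_finset E
  have h2 : A \ (E : Set ℕ) = splitSet p T₁ T₂ \ (E : Set ℕ) := by
    ext l
    simp only [Set.mem_sdiff, Finset.mem_coe]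
    constructor
    · rintro ⟨h, hl⟩
      exact ⟨(hE l hl).mp h, hl⟩
    · rintro ⟨h, hl⟩
      exact ⟨(hE l hl).mpr h, hl⟩
  rw [h2] at h1
  have h3 := h1.union (N1fin E (splitSet p T₁ T₂ ∩ (E : Set ℕ)) Set.inter_subset_right)
    (by
      rw [Set.disjoint_left]
      rintro x ⟨_, hx⟩ ⟨_, hx'⟩
      exact hx hx')
  rw [add_zero] at h3
  have h4 : splitSet p T₁ T₂ \ (E : Set ℕ) ∪ splitSet p T₁ T₂ ∩ (E : Set ℕ) =
      splitSet p T₁ T₂ := Set.sdiff_union_inter _ _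
  rwa [h4] at h3

end Pool.Agent.RG
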