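import Mathlib
import Pool.Agent.Lib.RG.NDefs
import Pool.Agent.Lib.RG.N2

/-!
RG v2, rows N3a and N3b: once the core is present the probability of failure decays exponentially.

N3a: bounds and monotonicity of `iterProb` (induction on `k` with N2).

N3b. `η := 2 / p ^ 3 * (1 - 1 / p) ^ 2`. Induction on `k` for all `S` (containing the core, all elements
of `S` and `R` primes congruent to 1 mod p). `k = 0`: if `Uset = ∅` then `Crit` holds and `iterProb = 1`;
otherwise the left side is `≤ 0`. Step: apply `pmean_ge` to `f q = iterProb p (Crit p R) k (insert q S)`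
with `F = S ∪ R`. For `q ∈ P1 p`, `q ∉ S ∪ R`, put `G := Gset S`, `B := Bset S`, `U := Uset S`
(`insert` keeps the core), `J := {q | PP a₀ q, PP a₁ q, exactly one of PP q a₀, PP q a₁}`:
 * if `q ∈ J` then `Bset (insert q S) = insert q B` and `Uset (insert q S) ⊆ {u ∈ U | PP p u q}`;
 * if `q ∉ J` then `Bset (insert q S) = B` and `Uset (insert q S) ⊆ U ∪ {q}`, and `⊆ U` if some
   `s ∈ G` has `¬ PP p q s`.
So `card (Uset (insert q S)) ≤ ∑ u ∈ U, (1 - 1_{q ∈ J, ¬ PP u q}) + 1_{q ∈ Z}`,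
`Z := {q | ∀ s ∈ G, PP p q s} = splitSet p G ∅`, and `(1/p) ^ card (Bset (insert q S)) ≤
(1/p) ^ card B * (1 - (1 - 1/p) 1_{q ∈ J})`. By the induction hypothesis
`f q ≥ 1 - (1-η)^k * (card Uset' + k / (1-η) * (1/p) ^ card B')`. Relative densities: `J` is the
disjoint union of `splitSet {a₁} {a₀,a₁} \ splitSet {a₀,a₁} {a₀,a₁}` and the same with `a₀`: density
`c := 2 / p ^ 3 * (1 - 1/p)`; `{q ∈ J | PP u q}`: `{a₀, a₁, u}` in place of `{a₀, a₁}` for `T₂`: density
`c / p` (`u ≠ a₀, a₁`), so `{q ∈ J | ¬ PP u q}` has density `c (1 - 1/p) = η`; `Z` has density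
`(1/p) ^ card G ≤ (1/p) ^ card B`. Altogether
`1 - (1-η)^k * (card U * (1-η) + (1/p)^card B + k/(1-η) * (1/p)^card B * (1-η))`
`= 1 - (1-η)^(k+1) * (card U + (k+1)/(1-η) * (1/p)^card B)`. (All densities relative to `P1 p`:
`splitSet p ∅ ∅ = P1 p`. Index type of `pmean_ge`: e.g. `Option (Option U)`.)
-/

set_option autoImplicit false

namespace Pool.Agent.RG

theorem iterProb_nonneg (p : ℕ) (P : Finset ℕ → Prop) (hp : 1 < p)
    (h1 : HasD (P1 p) (((p : ℝ) - 1)⁻¹)) (k : ℕ) (S : Finset ℕ) :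
    0 ≤ iterProb p P k S ∧ iterProb p P k S ≤ 1 := by
  induction k generalizing S with
  | zero =>
    rw [iterProb]
    split_ifs
    · exact ⟨zero_le_one, le_rfl⟩
    · exact ⟨le_rfl, zero_le_one⟩
  | succ k ih =>
    rw [iterProb]
    exact ⟨pmean_nonneg (fun q => (ih _).1) (fun q => (ih _).2),
      pmean_le_one hp h1 (fun q => (ih _).1) (fun q => (ih _).2)⟩

theorem iterProb_mono (p : ℕ) (hp : 1 < p) (h1 : HasD (P1 p) (((p : ℝ) - 1)⁻¹))
    {P Q : Finset ℕ → Prop} (h : ∀ S : Finset ℕ, (∀ q ∈ S, q ∈ P1 p) → P S → Q S) (k : ℕ)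
    (S : Finset ℕ) (hS : ∀ q ∈ S, q ∈ P1 p) : iterProb p P k S ≤ iterProb p Q k S := by
  induction k generalizing S with
  | zero =>
    rw [iterProb, iterProb]
    by_cases hP : P S
    · rw [if_pos hP, if_pos (h S hS hP)]
    · rw [if_neg hP]
      split_ifs
      · exact zero_le_one
      · exact le_rfl
  | succ k ih =>
    rw [iterProb, iterProb]
    refine pmean_mono (fun q => (iterProb_nonneg p P hp h1 k _).1)
      (fun q => (iterProb_nonneg p Q hp h1 k _).2) (fun q hq => ih _ ?_)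
      (fun q => (iterProb_nonneg p P hp h1 k _).2) (fun q => (iterProb_nonneg p Q hp h1 k _).1)
    intro r hr
    rcases Finset.mem_insert.mp hr with rfl | hr
    · exact hq
    · exact hS r hr

end Pool.Agent.RG
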