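import Mathlib
import Pool.Agent.Lib.RG.NDefs
import Pool.Agent.Lib.RG.N1
import Pool.Agent.Lib.RG.N2
import Pool.Agent.Lib.RG.N3a

/-!
RG v2, rows N3a and N3b: once the core is present the probability of failure decays exponentially.

N3a: bounds and monotonicity of `iterProb` (induction on `k` with N2).

N3b. `η := 2 / p ^ 3 * (1 - 1 / p) ^ 2`. Induction on `k` for all `S` (containing the core, all elements
of `S` and `R` primes congruent to 1 mod p). `k = 0`: if `Uset = ∅` then `Crit` holds and `iterProb = 1`;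
otherwise the left side is `≤ 0`. Step: apply `pmean_ge` to `f q = iterProb p (Crit p R) k (insert q S)`
with `F = S ∪ R`. For `q ∈ P1 p`, `q ∉ S ∪ R`, put `G := Gset S`, `B := Bset S`, `U := Uset S`
(`insert` keeps the core), `J := {q | PP a₀ q, PP a₁ q, exactly one of PP q a₀, PP q a₁}`:
 * if `q ∈ J` then `Bset (insert q S) = insert q B` and `Uset (insert q S) ⊆ {u ∈ U | PP p u q}`;
 * if `q ∉ J` then `Bset (insert q S) = B` and `Uset (insert q S) ⊆ U ∪ {q}`, and `⊆ U` if some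
   `s ∈ G` has `¬ PP p q s`.
So `card (Uset (insert q S)) ≤ ∑ u ∈ U, (1 - 1_{q ∈ J, ¬ PP u q}) + 1_{q ∈ Z}`,
`Z := {q | ∀ s ∈ G, PP p q s} = splitSet p G ∅`, and `(1/p) ^ card (Bset (insert q S)) ≤
(1/p) ^ card B * (1 - (1 - 1/p) 1_{q ∈ J})`. By the induction hypothesis
`f q ≥ 1 - (1-η)^k * (card Uset' + k / (1-η) * (1/p) ^ card B')`. Relative densities: `J` is the
disjoint union of `splitSet {a₁} {a₀,a₁} \ splitSet {a₀,a₁} {a₀,a₁}` and the same with `a₀`: density
`c := 2 / p ^ 3 * (1 - 1/p)`; `{q ∈ J | PP u q}`: `{a₀, a₁, u}` in place of `{a₀, a₁}` for `T₂`: density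
`c / p` (`u ≠ a₀, a₁`), so `{q ∈ J | ¬ PP u q}` has density `c (1 - 1/p) = η`; `Z` has density
`(1/p) ^ card G ≤ (1/p) ^ card B`. Altogether
`1 - (1-η)^k * (card U * (1-η) + (1/p)^card B + k/(1-η) * (1/p)^card B * (1-η))`
`= 1 - (1-η)^(k+1) * (card U + (k+1)/(1-η) * (1/p)^card B)`. (All densities relative to `P1 p`:
`splitSet p ∅ ∅ = P1 p`. Index type of `pmean_ge`: e.g. `Option (Option U)`.)
-/

set_option autoImplicit false

namespace Pool.Agent.RG

/-- the rate -/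
noncomputable def eta (p : ℕ) : ℝ := 2 / (p : ℝ) ^ 3 * (1 - 1 / (p : ℝ)) ^ 2

private theorem N3b_h1 {p : ℕ} [Fact p.Prime] (hp : p ≠ 2) :
    HasD (P1 p) (((p : ℝ) - 1)⁻¹) := by
  have h := split_density (p := p) hp ∅ ∅ (by simp) (by simp)
  have he : splitSet p ∅ ∅ = P1 p := by
    ext q
    simp [splitSet, P1]
  rw [he] at h
  simpa using h

/-- the type B condition -/
private def Jc (p a₀ a₁ q : ℕ) : Prop :=
  PP p a₀ q ∧ PP p a₁ q ∧ (PP p q a₀ ↔ ¬ PP p q a₁)

private theorem N3b_B {p a₀ a₁ b₀ b₁ : ℕ} {S : Finset ℕ} {q : ℕ} (hq : q ∉ S) (ha₀ : a₀ ∈ S)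
    (ha₁ : a₁ ∈ S) (hb₀ : b₀ ∈ S) (hb₁ : b₁ ∈ S) (x : ℕ) :
    x ∈ Bset p a₀ a₁ b₀ b₁ (insert q S) ↔
      x ∈ Bset p a₀ a₁ b₀ b₁ S ∨ (x = q ∧ Jc p a₀ a₁ q) := by
  classical
  unfold Bset Jc
  rw [Finset.mem_filter, Finset.mem_filter, Finset.mem_insert]
  constructor
  · rintro ⟨rfl | h1, h2⟩
    · right
      refine ⟨rfl, ?_⟩
      rcases h2 with h2 | h2 | h2
      · exact absurd (h2 ▸ hb₀) hq
      · exact absurd (h2 ▸ hb₁) hq
      · exact h2.2.2
    · exact Or.inl ⟨h1, h2⟩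
  · rintro (⟨h1, h2⟩ | ⟨rfl, h2⟩)
    · exact ⟨Or.inr h1, h2⟩
    · refine ⟨Or.inl rfl, Or.inr (Or.inr ⟨?_, ?_, h2⟩)⟩
      · rintro rfl
        exact hq ha₀
      · rintro rfl
        exact hq ha₁

private theorem N3b_G {p a₀ a₁ b₀ b₁ : ℕ} {S : Finset ℕ} {q : ℕ} (hq : q ∉ S) (ha₀ : a₀ ∈ S)
    (ha₁ : a₁ ∈ S) (hb₀ : b₀ ∈ S) (hb₁ : b₁ ∈ S) (x : ℕ) :
    x ∈ Gset p a₀ a₁ b₀ b₁ (insert q S) ↔
      x ∈ Gset p a₀ a₁ b₀ b₁ S ∨ (x = q ∧ Jc p a₀ a₁ q) := by
  classical
  unfold Gset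
  rw [Finset.mem_union, Finset.mem_union, N3b_B hq ha₀ ha₁ hb₀ hb₁]
  tauto

private theorem N3b_Bsub {p a₀ a₁ b₀ b₁ : ℕ} {S : Finset ℕ} : Bset p a₀ a₁ b₀ b₁ S ⊆ S := by
  classical
  exact Finset.filter_subset _ _

open Classical in
private theorem N3b_cardB {p a₀ a₁ b₀ b₁ : ℕ} {S : Finset ℕ} {q : ℕ} (hq : q ∉ S) (ha₀ : a₀ ∈ S)
    (ha₁ : a₁ ∈ S) (hb₀ : b₀ ∈ S) (hb₁ : b₁ ∈ S) (hp : 0 < p) :
    (1 / (p : ℝ)) ^ (Bset p a₀ a₁ b₀ b₁ (insert q S)).card =
      (1 / (p : ℝ)) ^ (Bset p a₀ a₁ b₀ b₁ S).card *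
        (1 - (1 - 1 / (p : ℝ)) * (if Jc p a₀ a₁ q then 1 else 0)) := by
  by_cases hJ : Jc p a₀ a₁ q
  · have h1 : Bset p a₀ a₁ b₀ b₁ (insert q S) = insert q (Bset p a₀ a₁ b₀ b₁ S) := by
      ext x
      rw [N3b_B hq ha₀ ha₁ hb₀ hb₁, Finset.mem_insert]
      tauto
    have h2 : q ∉ Bset p a₀ a₁ b₀ b₁ S := fun h => hq (N3b_Bsub h)
    rw [h1, Finset.card_insert_of_notMem h2, if_pos hJ, pow_succ]
    ring
  · have h1 : Bset p a₀ a₁ b₀ b₁ (insert q S) = Bset p a₀ a₁ b₀ b₁ S := by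
      ext x
      rw [N3b_B hq ha₀ ha₁ hb₀ hb₁]
      tauto
    rw [h1, if_neg hJ]
    ring

open Classical in
private theorem N3b_cardU {p : ℕ} {R : Finset ℕ} {a₀ a₁ b₀ b₁ : ℕ} {S : Finset ℕ} {q : ℕ}
    (hq : q ∉ S) (hqR : q ∉ R) (ha₀ : a₀ ∈ S)
    (ha₁ : a₁ ∈ S) (hb₀ : b₀ ∈ S) (hb₁ : b₁ ∈ S) :
    ((Uset p R a₀ a₁ b₀ b₁ (insert q S)).card : ℝ) ≤
      (Uset p R a₀ a₁ b₀ b₁ S).card -
        ∑ u ∈ Uset p R a₀ a₁ b₀ b₁ S, (if Jc p a₀ a₁ q ∧ ¬ PP p u q then (1 : ℝ) else 0) +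
        (if ∀ s ∈ Gset p a₀ a₁ b₀ b₁ S, PP p q s then 1 else 0) := by
  have hmem : ∀ x, x ∈ Uset p R a₀ a₁ b₀ b₁ (insert q S) →
      (x = q ∨ x ∈ S ∪ R) ∧ (x ∉ Gset p a₀ a₁ b₀ b₁ S ∧ ∀ s ∈ Gset p a₀ a₁ b₀ b₁ S, PP p x s) ∧
        (Jc p a₀ a₁ q → x ≠ q ∧ PP p x q) := by
    intro x hx
    unfold Uset at hx
    rw [Finset.mem_filter, Finset.mem_union, Finset.mem_insert] at hx
    obtain ⟨h1, h2, h3⟩ := hx
    rw [N3b_G hq ha₀ ha₁ hb₀ hb₁] at h2
    refine ⟨?_, ⟨fun h => h2 (Or.inl h), fun s hs => h3 s ?_⟩, fun hJ => ⟨?_, h3 q ?_⟩⟩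
    · rw [Finset.mem_union]
      tauto
    · rw [N3b_G hq ha₀ ha₁ hb₀ hb₁]
      exact Or.inl hs
    · rintro rfl
      exact h2 (Or.inr ⟨rfl, hJ⟩)
    · rw [N3b_G hq ha₀ ha₁ hb₀ hb₁]
      exact Or.inr ⟨rfl, hJ⟩
  by_cases hJ : Jc p a₀ a₁ q
  · have h1 : Uset p R a₀ a₁ b₀ b₁ (insert q S) ⊆
        (Uset p R a₀ a₁ b₀ b₁ S).filter fun u => PP p u q := by
      intro x hx
      obtain ⟨h1, h2, h3⟩ := hmem x hx
      rw [Finset.mem_filter]
      refine ⟨?_, (h3 hJ).2⟩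
      unfold Uset
      rw [Finset.mem_filter]
      exact ⟨h1.resolve_left (h3 hJ).1, h2⟩
    have h2 : ((Uset p R a₀ a₁ b₀ b₁ (insert q S)).card : ℝ) ≤
        ((Uset p R a₀ a₁ b₀ b₁ S).filter fun u => PP p u q).card := by
      exact_mod_cast Finset.card_le_card h1
    have h3 : (((Uset p R a₀ a₁ b₀ b₁ S).filter fun u => PP p u q).card : ℝ) =
        (Uset p R a₀ a₁ b₀ b₁ S).card -
          ∑ u ∈ Uset p R a₀ a₁ b₀ b₁ S, (if Jc p a₀ a₁ q ∧ ¬ PP p u q then (1 : ℝ) else 0) := by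
      rw [Finset.card_filter, Finset.card_eq_sum_ones]
      push_cast
      rw [← Finset.sum_sub_distrib]
      refine Finset.sum_congr rfl fun u _ => ?_
      by_cases hu : PP p u q
      · rw [if_pos hu, if_neg (fun h => h.2 hu)]
        ring
      · rw [if_neg hu, if_pos ⟨hJ, hu⟩]
        ring
    have h4 : (0 : ℝ) ≤ (if ∀ s ∈ Gset p a₀ a₁ b₀ b₁ S, PP p q s then 1 else 0) := by
      split_ifs <;> norm_num
    linarith
  · have h0 : ∑ u ∈ Uset p R a₀ a₁ b₀ b₁ S,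
        (if Jc p a₀ a₁ q ∧ ¬ PP p u q then (1 : ℝ) else 0) = 0 := by
      refine Finset.sum_eq_zero fun u _ => ?_
      rw [if_neg (fun h => hJ h.1)]
    rw [h0, sub_zero]
    by_cases hZ : ∀ s ∈ Gset p a₀ a₁ b₀ b₁ S, PP p q s
    · rw [if_pos hZ]
      have h1 : Uset p R a₀ a₁ b₀ b₁ (insert q S) ⊆ insert q (Uset p R a₀ a₁ b₀ b₁ S) := by
        intro x hx
        obtain ⟨h1, h2, h3⟩ := hmem x hx
        rw [Finset.mem_insert]
        rcases h1 with h1 | h1
        · exact Or.inl h1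
        · right
          unfold Uset
          rw [Finset.mem_filter]
          exact ⟨h1, h2⟩
      have h2 := (Finset.card_le_card h1).trans (Finset.card_insert_le _ _)
      exact_mod_cast h2
    · rw [if_neg hZ, add_zero]
      have h1 : Uset p R a₀ a₁ b₀ b₁ (insert q S) ⊆ Uset p R a₀ a₁ b₀ b₁ S := by
        intro x hx
        obtain ⟨h1, h2, h3⟩ := hmem x hx
        unfold Uset
        rw [Finset.mem_filter]
        refine ⟨h1.resolve_left ?_, h2⟩
        rintro rfl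
        exact hZ h2.2
      exact_mod_cast Finset.card_le_card h1

/-- the primes with the type B condition and modulo which the elements of `T` are `p`-th powers -/
private def Jset (p a₀ a₁ : ℕ) (T : Finset ℕ) : Set ℕ :=
  {q | q ∈ P1 p ∧ (PP p q a₀ ↔ ¬ PP p q a₁) ∧ ∀ s ∈ T, PP p s q}

private theorem Jset_dens {p : ℕ} [Fact p.Prime] (hp : p ≠ 2) {a₀ a₁ : ℕ} (hne : a₀ ≠ a₁)
    (ha₀ : a₀.Prime ∧ a₀ % p = 1) (ha₁ : a₁.Prime ∧ a₁ % p = 1) (T : Finset ℕ)
    (hT : ∀ s ∈ T, s.Prime ∧ s % p = 1) :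
    HasD (Jset p a₀ a₁ T)
      (((p : ℝ) - 1)⁻¹ * (2 * (1 / (p : ℝ)) ^ (T.card + 1) * (1 - 1 / (p : ℝ)))) := by
  classical
  have e0 := split_density hp {a₀} T (by simpa using ha₀) hT
  have e1 := split_density hp {a₁} T (by simpa using ha₁) hT
  have e2 := split_density hp {a₀, a₁} T (by
    intro s hs
    rw [Finset.mem_insert, Finset.mem_singleton] at hs
    rcases hs with rfl | rfl
    · exact ha₀
    · exact ha₁) hT
  rw [Finset.card_singleton] at e0 e1
  rw [Finset.card_pair hne] at e2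
  have f0 := e0.diff e2 (by
    rintro l ⟨h1, h2, h3, h4⟩
    exact ⟨h1, h2, fun s hs => h3 s (by
      rw [Finset.mem_singleton] at hs
      simp [hs]), h4⟩)
  have f1 := e1.diff e2 (by
    rintro l ⟨h1, h2, h3, h4⟩
    exact ⟨h1, h2, fun s hs => h3 s (by
      rw [Finset.mem_singleton] at hs
      simp [hs]), h4⟩)
  have m0 : ∀ l, l ∈ splitSet p {a₀} T \ splitSet p {a₀, a₁} T ↔
      l ∈ P1 p ∧ (∀ s ∈ T, PP p s l) ∧ PP p l a₀ ∧ ¬ PP p l a₁ := by
    intro l
    simp only [splitSet, P1, Set.mem_diff, Set.mem_setOf_eq, Finset.mem_singleton, forall_eq,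
      Finset.mem_insert, forall_eq_or_imp]
    tauto
  have m1 : ∀ l, l ∈ splitSet p {a₁} T \ splitSet p {a₀, a₁} T ↔
      l ∈ P1 p ∧ (∀ s ∈ T, PP p s l) ∧ PP p l a₁ ∧ ¬ PP p l a₀ := by
    intro l
    simp only [splitSet, P1, Set.mem_diff, Set.mem_setOf_eq, Finset.mem_singleton, forall_eq,
      Finset.mem_insert, forall_eq_or_imp]
    tauto
  have g := f0.union f1 (by
    rw [Set.disjoint_left]
    intro l h0 h1
    rw [m0] at h0
    rw [m1] at h1
    exact h1.2.2.2 h0.2.2.1)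
  have he : splitSet p {a₀} T \ splitSet p {a₀, a₁} T ∪
      splitSet p {a₁} T \ splitSet p {a₀, a₁} T = Jset p a₀ a₁ T := by
    ext l
    rw [Set.mem_union, m0, m1]
    simp only [Jset, Set.mem_setOf_eq]
    tauto
  rw [he] at g
  convert g using 1
  rw [one_div]
  ring

theorem core_prob {p : ℕ} [Fact p.Prime] (hp : p ≠ 2) (R : Finset ℕ)
    (hR : ∀ q ∈ R, q.Prime ∧ q % p = 1) {a₀ a₁ b₀ b₁ : ℕ} (hc : Core p a₀ a₁ b₀ b₁) (k : ℕ)
    (S : Finset ℕ) (hS : ∀ q ∈ S, q.Prime ∧ q % p = 1) (ha₀ : a₀ ∈ S) (ha₁ : a₁ ∈ S)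
    (hb₀ : b₀ ∈ S) (hb₁ : b₁ ∈ S) :
    1 - (1 - eta p) ^ k * ((Uset p R a₀ a₁ b₀ b₁ S).card +
      k / (1 - eta p) * (1 / (p : ℝ)) ^ (Bset p a₀ a₁ b₀ b₁ S).card) ≤
      iterProb p (Crit p R) k S := by
  classical
  have hpp : p.Prime := Fact.out
  have hp3 : 3 ≤ p := by
    have := hpp.two_le
    omega
  have hp1 : 1 < p := hpp.one_lt
  have hpR : (3 : ℝ) ≤ p := by exact_mod_cast hp3
  have hx0 : (0 : ℝ) < 1 / (p : ℝ) := by positivity
  have hx1 : 1 / (p : ℝ) ≤ 1 / 3 := one_div_le_one_div_of_le (by norm_num) hpR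
  have heta : eta p = 2 * (1 / (p : ℝ)) ^ 3 * (1 - 1 / (p : ℝ)) ^ 2 := by
    unfold eta
    rw [div_eq_mul_one_div, one_div_pow]
  have heta0 : 0 ≤ eta p := by
    rw [heta]
    positivity
  have heta1 : eta p < 1 := by
    rw [heta]
    have h1 : (1 / (p : ℝ)) ^ 3 ≤ (1 / 3) ^ 3 := pow_le_pow_left₀ hx0.le hx1 3
    have h2 : (1 - 1 / (p : ℝ)) ^ 2 ≤ 1 := pow_le_one₀ (by linarith) (by linarith)
    have h3 : 0 ≤ (1 - 1 / (p : ℝ)) ^ 2 := sq_nonneg _
    nlinarith [pow_pos hx0 3]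
  have h1 := N3b_h1 (p := p) hp
  induction k generalizing S with
  | zero =>
    unfold iterProb
    rw [pow_zero, Nat.cast_zero, zero_div, zero_mul, add_zero, one_mul]
    by_cases hU : Uset p R a₀ a₁ b₀ b₁ S = ∅
    · rw [if_pos ⟨a₀, ha₀, a₁, ha₁, b₀, hb₀, b₁, hb₁, hc, hU⟩, hU]
      simp
    · have h2 : 1 ≤ (Uset p R a₀ a₁ b₀ b₁ S).card :=
        Finset.card_pos.2 (Finset.nonempty_iff_ne_empty.2 hU)
      have h3 : (1 : ℝ) ≤ (Uset p R a₀ a₁ b₀ b₁ S).card := by exact_mod_cast h2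
      split_ifs <;> linarith
  | succ k ih =>
    have hv0 : 0 < 1 - eta p := by linarith
    set U := Uset p R a₀ a₁ b₀ b₁ S with hU
    set B := Bset p a₀ a₁ b₀ b₁ S with hB
    set G := Gset p a₀ a₁ b₀ b₁ S with hG
    set x : ℝ := 1 / (p : ℝ) with hx
    have hUp : ∀ u ∈ U, u.Prime ∧ u % p = 1 := by
      intro u hu
      rw [hU, Uset, Finset.mem_filter, Finset.mem_union] at hu
      exact hu.1.elim (hS u) (hR u)
    have hUne : ∀ u ∈ U, u ≠ a₀ ∧ u ≠ a₁ := by
      intro u hu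
      rw [hU, Uset, Finset.mem_filter] at hu
      have h2 := hu.2.1
      rw [Gset, Finset.mem_union, Finset.mem_insert, Finset.mem_singleton] at h2
      tauto
    have hGp : ∀ u ∈ G, u.Prime ∧ u % p = 1 := by
      intro u hu
      rw [hG, Gset, Finset.mem_union, Finset.mem_insert, Finset.mem_singleton] at hu
      rcases hu with (rfl | rfl) | hu
      · exact hS _ ha₀
      · exact hS _ ha₁
      · exact hS _ (N3b_Bsub hu)
    have hBG : B.card ≤ G.card := by
      refine Finset.card_le_card ?_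
      intro y hy
      rw [hG, Gset, Finset.mem_union]
      exact Or.inr hy
    -- densities
    have dJ : HasD (Jset p a₀ a₁ {a₀, a₁}) (((p : ℝ) - 1)⁻¹ * (2 * x ^ 3 * (1 - x))) := by
      have h2 := Jset_dens hp hc.na (hS _ ha₀) (hS _ ha₁) {a₀, a₁} (by
        intro s hs
        rw [Finset.mem_insert, Finset.mem_singleton] at hs
        rcases hs with rfl | rfl
        · exact hS _ ha₀
        · exact hS _ ha₁)
      rw [Finset.card_pair hc.na] at h2
      exact h2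
    have dJu : ∀ u ∈ U, HasD (Jset p a₀ a₁ {a₀, a₁} \ Jset p a₀ a₁ {u, a₀, a₁})
        (((p : ℝ) - 1)⁻¹ * eta p) := by
      intro u hu
      have h2 := Jset_dens hp hc.na (hS _ ha₀) (hS _ ha₁) {u, a₀, a₁} (by
        intro s hs
        rw [Finset.mem_insert, Finset.mem_insert, Finset.mem_singleton] at hs
        rcases hs with rfl | rfl | rfl
        · exact hUp _ hu
        · exact hS _ ha₀
        · exact hS _ ha₁)
      have h3 : u ∉ ({a₀, a₁} : Finset ℕ) := by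
        rw [Finset.mem_insert, Finset.mem_singleton]
        have := hUne u hu
        tauto
      rw [Finset.card_insert_of_notMem h3, Finset.card_pair hc.na] at h2
      have h4 := dJ.diff h2 (by
        rintro l ⟨h5, h6, h7⟩
        exact ⟨h5, h6, fun s hs => h7 s (Finset.mem_insert_of_mem hs)⟩)
      convert h4 using 1
      rw [heta]
      ring
    have dZ : HasD (splitSet p G ∅) (((p : ℝ) - 1)⁻¹ * x ^ G.card) := by
      have h2 := split_density hp G ∅ hGp (by simp)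
      rw [Finset.card_empty, add_zero, ← one_div (p : ℝ)] at h2
      exact h2
    -- the sets and coefficients
    let A : Option (Option U) → Set ℕ := fun i => match i with
      | none => Jset p a₀ a₁ {a₀, a₁}
      | some none => splitSet p G ∅
      | some (some u) => Jset p a₀ a₁ {a₀, a₁} \ Jset p a₀ a₁ {u.1, a₀, a₁}
    let d : Option (Option U) → ℝ := fun i => match i with
      | none => 2 * x ^ 3 * (1 - x)
      | some none => x ^ G.card
      | some (some _) => eta p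
    let c : Option (Option U) → ℝ := fun i => match i with
      | none => (1 - eta p) ^ k * (k / (1 - eta p) * x ^ B.card * (1 - x))
      | some none => -(1 - eta p) ^ k
      | some (some _) => (1 - eta p) ^ k
    have hmain := pmean_ge hp1 h1 A (by
        rintro (_ | _ | u)
        · exact fun l hl => hl.1
        · exact fun l hl => ⟨hl.1, hl.2.1⟩
        · exact fun l hl => hl.1.1) d (by
        rintro (_ | _ | u)
        · exact dJ
        · exact dZ
        · exact dJu u.1 u.2)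
      (1 - (1 - eta p) ^ k * (U.card + k / (1 - eta p) * x ^ B.card)) c (S ∪ R)
      (fun q => iterProb p (Crit p R) k (insert q S)) 1
      (fun q => by linarith [(iterProb_nonneg p (Crit p R) hp1 h1 k (insert q S)).1])
      (fun q => (iterProb_nonneg p (Crit p R) hp1 h1 k (insert q S)).2) (by
        intro q hq hqF
        rw [Finset.mem_union, not_or] at hqF
        obtain ⟨hqS, hqR⟩ := hqF
        have hS' : ∀ y ∈ insert q S, y.Prime ∧ y % p = 1 := by
          intro y hy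
          rw [Finset.mem_insert] at hy
          rcases hy with rfl | hy
          · exact hq
          · exact hS y hy
        have h2 := ih (insert q S) hS' (Finset.mem_insert_of_mem ha₀)
          (Finset.mem_insert_of_mem ha₁) (Finset.mem_insert_of_mem hb₀)
          (Finset.mem_insert_of_mem hb₁)
        refine le_trans ?_ h2
        have h3 := N3b_cardU (p := p) (R := R) hqS hqR ha₀ ha₁ hb₀ hb₁
        rw [N3b_cardB hqS ha₀ ha₁ hb₀ hb₁ hpp.pos]
        rw [Fintype.sum_option, Fintype.sum_option]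
        have hJ : q ∈ A none ↔ Jc p a₀ a₁ q := by
          change q ∈ Jset p a₀ a₁ {a₀, a₁} ↔ _
          simp only [Jset, Jc, Set.mem_setOf_eq, Finset.mem_insert, Finset.mem_singleton,
            forall_eq_or_imp, forall_eq]
          constructor
          · rintro ⟨-, h5, h6, h7⟩
            exact ⟨h6, h7, h5⟩
          · rintro ⟨h6, h7, h5⟩
            exact ⟨hq, h5, h6, h7⟩
        have hZ : q ∈ A (some none) ↔ ∀ s ∈ G, PP p q s := by
          change q ∈ splitSet p G ∅ ↔ _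
          constructor
          · exact fun h => h.2.2.1
          · exact fun h => ⟨hq.1, hq.2, h, by simp⟩
        have hAu : ∀ u : U, q ∈ A (some (some u)) ↔ Jc p a₀ a₁ q ∧ ¬ PP p u q := by
          intro u
          rw [← hJ]
          change q ∈ Jset p a₀ a₁ {a₀, a₁} \ Jset p a₀ a₁ {u.1, a₀, a₁} ↔
            q ∈ Jset p a₀ a₁ {a₀, a₁} ∧ _
          rw [Set.mem_diff]
          refine and_congr_right fun h5 => not_congr ?_
          constructor
          · exact fun h6 => h6.2.2 u.1 (Finset.mem_insert_self _ _)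
          · intro h6
            refine ⟨h5.1, h5.2.1, fun s hs => ?_⟩
            rw [Finset.mem_insert] at hs
            rcases hs with rfl | hs
            · exact h6
            · exact h5.2.2 s hs
        simp only [hJ, hZ, hAu]
        have h4 : ∑ u : U, c (some (some u)) * (if Jc p a₀ a₁ q ∧ ¬ PP p u q then (1 : ℝ) else 0) =
            (1 - eta p) ^ k *
              ∑ u ∈ U, (if Jc p a₀ a₁ q ∧ ¬ PP p u q then (1 : ℝ) else 0) := by
          rw [← Finset.sum_coe_sort U, Finset.mul_sum]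
        rw [h4]
        change 1 - (1 - eta p) ^ k * (U.card + k / (1 - eta p) * x ^ B.card) +
          ((1 - eta p) ^ k * (k / (1 - eta p) * x ^ B.card * (1 - x)) *
            (if Jc p a₀ a₁ q then 1 else 0) +
          (-(1 - eta p) ^ k * (if ∀ s ∈ G, PP p q s then 1 else 0) +
            (1 - eta p) ^ k *
              ∑ u ∈ U, (if Jc p a₀ a₁ q ∧ ¬ PP p u q then (1 : ℝ) else 0))) ≤ _
        have h5 := mul_le_mul_of_nonneg_left h3 (pow_nonneg hv0.le k)
        rw [← hU, ← hG] at h5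
        have h6 : (1 - eta p) ^ k * ((Uset p R a₀ a₁ b₀ b₁ (insert q S)).card +
            k / (1 - eta p) * (x ^ (Bset p a₀ a₁ b₀ b₁ S).card *
              (1 - (1 - x) * (if Jc p a₀ a₁ q then 1 else 0)))) =
            (1 - eta p) ^ k * (Uset p R a₀ a₁ b₀ b₁ (insert q S)).card +
            ((1 - eta p) ^ k * (k / (1 - eta p) * x ^ B.card) -
            (1 - eta p) ^ k * (k / (1 - eta p) * x ^ B.card * (1 - x)) *
              (if Jc p a₀ a₁ q then 1 else 0)) := by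
          rw [hB]
          ring
        rw [h6]
        linarith)
    unfold iterProb
    refine le_trans ?_ hmain
    rw [Fintype.sum_option, Fintype.sum_option]
    have h4 : ∑ u : U, c (some (some u)) * d (some (some u)) =
        (1 - eta p) ^ k * (eta p * U.card) := by
      change ∑ u : U, (1 - eta p) ^ k * eta p = _
      rw [Finset.sum_const, Finset.card_univ, Fintype.card_coe, nsmul_eq_mul]
      ring
    rw [h4]
    change _ ≤ 1 - (1 - eta p) ^ k * (U.card + k / (1 - eta p) * x ^ B.card) +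
      ((1 - eta p) ^ k * (k / (1 - eta p) * x ^ B.card * (1 - x)) * (2 * x ^ 3 * (1 - x)) +
      (-(1 - eta p) ^ k * x ^ G.card + (1 - eta p) ^ k * (eta p * U.card)))
    have h5 : x ^ G.card ≤ x ^ B.card := pow_le_pow_of_le_one hx0.le (by linarith) hBG
    have h6 := mul_le_mul_of_nonneg_left h5 (pow_nonneg hv0.le k)
    have h7 : (1 - eta p) ^ (k + 1) * (U.card + ((k + 1 : ℕ) : ℝ) / (1 - eta p) * x ^ B.card) =
        (1 - eta p) ^ k * ((1 - eta p) * U.card + (k + 1) * x ^ B.card) := by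
      rw [pow_succ]
      push_cast
      field_simp
    have h8 : (1 - eta p) ^ k * (k / (1 - eta p) * x ^ B.card * (1 - x)) * (2 * x ^ 3 * (1 - x)) =
        (1 - eta p) ^ k * (k / (1 - eta p) * x ^ B.card) * eta p := by
      rw [heta]
      ring
    have h9 : (1 - eta p) ^ k * (k / (1 - eta p) * x ^ B.card) * (1 - eta p) =
        (1 - eta p) ^ k * (k * x ^ B.card) := by
      field_simp
    rw [h7, h8]
    linarith

end Pool.Agent.RG
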