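import Mathlib
import Pool.Agent.Lib.RG.NDefs
import Pool.Agent.Lib.RG.N2

/-!
RG v2, rows N4a and N4b: the core appears.

N4a (one step). `A ⊆ P1 p` of relative density `d`, `f ≥ x` on `A` outside a finite set, `f ≥ y`
elsewhere: `d * x + (1 - d) * y ≤ pmean p f` (`pmean_ge` with one set, `c₀ = y`, `c = x - y`).

N4b (four steps). Let `x ≤ 1`, `y ≤ 1` be lower bounds: `x ≤ iterProb p P k S'` for all
`S' ⊇ S`, with `card S' ≤ card S + 4`, which contain a core, and `y ≤ iterProb p P k S'` for all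
`S' ⊇ S` with `card S' ≤ card S + 4`; `y ≤ x`. Then
`δ * x + (1 - δ) * y ≤ iterProb p P (k + 4) S` with `δ = (1/p) ^ 6 * (1 - 1/p) ^ 4`: choose `a₀`
arbitrary (not in `S`), `a₁ ∈ splitSet {a₀} {a₀}` (density `(1/p)^2`), `b₀` with `PP a₁ b₀`, `PP b₀ a₀`,
`¬ PP a₀ b₀`, `¬ PP b₀ a₁` (density `(1/p)^2 (1-1/p)^2`, inclusion-exclusion with `HasD.diff`), `b₁` with
the roles of `a₀`, `a₁` exchanged. The four steps are applications of N4a.

N4c (limit). Claim: for all `j`, `n`, `ε > 0` there is `K` such that for `k ≥ K` and all `S` with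
`card (S ∪ R) ≤ n` (primes 1 mod p): `iterProb p (Crit p R) k S ≥ 1 - (1 - δ) ^ j - ε`. `j = 0` trivial.
Step: N4b with `y := 1 - (1-δ)^j - ε`, `x := 1 - (1-η)^k (n + 4 + k/(1-η))` (`core_prob`), which is
`≥ 1 - ε` for large `k` (`k * (1-η)^k → 0`). Then let `j → ∞`; upper bound `≤ 1`.
-/

set_option autoImplicit false

namespace Pool.Agent.RG

theorem pmean_step {p : ℕ} (hp : 1 < p) (h1 : HasD (P1 p) (((p : ℝ) - 1)⁻¹)) {A : Set ℕ}
    (hA : A ⊆ P1 p) {d : ℝ} (hd : HasD A (((p : ℝ) - 1)⁻¹ * d)) (F : Finset ℕ) {f : ℕ → ℝ}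
    (h0 : ∀ q, 0 ≤ f q) (hf1 : ∀ q, f q ≤ 1) {x y : ℝ} (hyx : y ≤ x)
    (hx : ∀ q ∈ A, q ∉ F → x ≤ f q) (hy : ∀ q ∈ P1 p, q ∉ F → y ≤ f q) :
    d * x + (1 - d) * y ≤ pmean p f := by
  classical
  have h := pmean_ge hp h1 (ι := Unit) (fun _ => A) (fun _ => hA) (fun _ => d) (fun _ => hd) y
    (fun _ => x - y) F f 1 (fun q => by linarith [h0 q]) hf1 (fun q hq hqF => by
      simp only [Finset.univ_unique, Finset.sum_singleton]
      by_cases hqA : q ∈ A
      · rw [if_pos hqA]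
        have := hx q hqA hqF
        linarith
      · rw [if_neg hqA]
        have := hy q hq hqF
        linarith)
  simp only [Finset.univ_unique, Finset.sum_singleton] at h
  calc d * x + (1 - d) * y = y + (x - y) * d := by ring
    _ ≤ pmean p f := h

end Pool.Agent.RG
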