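import Mathlib
import Pool.Agent.Lib.RG.NDefs
import Pool.Agent.Lib.RG.N1
import Pool.Agent.Lib.RG.N2
import Pool.Agent.Lib.RG.N3a
import Pool.Agent.Lib.RG.N4a

/-!
RG v2, rows N4a and N4b: the core appears.

N4a (one step). `A ⊆ P1 p` of relative density `d`, `f ≥ x` on `A` outside a finite set, `f ≥ y`
elsewhere: `d * x + (1 - d) * y ≤ pmean p f` (`pmean_ge` with one set, `c₀ = y`, `c = x - y`).

N4b (four steps). Let `x ≤ 1`, `y ≤ 1` be lower bounds: `x ≤ iterProb p P k S'` for all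
`S' ⊇ S`, with `card S' ≤ card S + 4`, which contain a core, and `y ≤ iterProb p P k S'` for all
`S' ⊇ S` with `card S' ≤ card S + 4`; `y ≤ x`. Then
`δ * x + (1 - δ) * y ≤ iterProb p P (k + 4) S` with `δ = (1/p) ^ 6 * (1 - 1/p) ^ 4`: choose `a₀`
arbitrary (not in `S`), `a₁ ∈ splitSet {a₀} {a₀}` (density `(1/p)^2`), `b₀` with `PP a₁ b₀`, `PP b₀ a₀`,
`¬ PP a₀ b₀`, `¬ PP b₀ a₁` (density `(1/p)^2 (1-1/p)^2`, inclusion-exclusion with `HasD.diff`), `b₁` with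
the roles of `a₀`, `a₁` exchanged. The four steps are applications of N4a.

N4c (limit). Claim: for all `j`, `n`, `ε > 0` there is `K` such that for `k ≥ K` and all `S` with
`card (S ∪ R) ≤ n` (primes 1 mod p): `iterProb p (Crit p R) k S ≥ 1 - (1 - δ) ^ j - ε`. `j = 0` trivial.
Step: N4b with `y := 1 - (1-δ)^j - ε`, `x := 1 - (1-η)^k (n + 4 + k/(1-η))` (`core_prob`), which is
`≥ 1 - ε` for large `k` (`k * (1-η)^k → 0`). Then let `j → ∞`; upper bound `≤ 1`.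
-/

set_option autoImplicit false

namespace Pool.Agent.RG

namespace N4bAux

theorem splitSet_subset (p : ℕ) (T₁ T₂ : Finset ℕ) : splitSet p T₁ T₂ ⊆ P1 p :=
  fun _ h => ⟨h.1, h.2.1⟩

theorem splitSet_empty (p : ℕ) : splitSet p ∅ ∅ = P1 p := by
  ext l
  constructor
  · intro h
    exact ⟨h.1, h.2.1⟩
  · intro h
    exact ⟨h.1, h.2, fun s hs => absurd hs (Finset.notMem_empty s),
      fun s hs => absurd hs (Finset.notMem_empty s)⟩

theorem hasD_P1 {p : ℕ} [Fact p.Prime] (hp : p ≠ 2) : HasD (P1 p) (((p : ℝ) - 1)⁻¹) := by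
  have h := split_density hp ∅ ∅ (fun s hs => absurd hs (Finset.notMem_empty s))
    (fun s hs => absurd hs (Finset.notMem_empty s))
  rw [splitSet_empty] at h
  simpa using h

/-- the primes of type `b₀` for `a₀`, `a₁` -/
def bSet (p a₀ a₁ : ℕ) : Set ℕ :=
  {b | b.Prime ∧ b % p = 1 ∧ ¬ PP p a₀ b ∧ PP p a₁ b ∧ ¬ PP p b a₁ ∧ PP p b a₀}

theorem bSet_subset (p a₀ a₁ : ℕ) : bSet p a₀ a₁ ⊆ P1 p := fun _ h => ⟨h.1, h.2.1⟩

theorem hasD_bSet {p : ℕ} [Fact p.Prime] (hp : p ≠ 2) {a₀ a₁ : ℕ} (h0 : a₀.Prime ∧ a₀ % p = 1)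
    (h1 : a₁.Prime ∧ a₁ % p = 1) (hne : a₀ ≠ a₁) :
    HasD (bSet p a₀ a₁) (((p : ℝ) - 1)⁻¹ * ((1 / (p : ℝ)) ^ 2 * (1 - 1 / (p : ℝ)) ^ 2)) := by
  classical
  have hs0 : ∀ s ∈ ({a₀} : Finset ℕ), s.Prime ∧ s % p = 1 := by
    intro s hs
    rw [Finset.mem_singleton] at hs
    rw [hs]
    exact h0
  have hs1 : ∀ s ∈ ({a₁} : Finset ℕ), s.Prime ∧ s % p = 1 := by
    intro s hs
    rw [Finset.mem_singleton] at hs
    rw [hs]
    exact h1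
  have hs01 : ∀ s ∈ ({a₀, a₁} : Finset ℕ), s.Prime ∧ s % p = 1 := by
    intro s hs
    rw [Finset.mem_insert, Finset.mem_singleton] at hs
    rcases hs with hs | hs
    · rw [hs]
      exact h0
    · rw [hs]
      exact h1
  have c2 : ({a₀, a₁} : Finset ℕ).card = 2 := Finset.card_pair hne
  have d1 := split_density hp {a₀} {a₁} hs0 hs1
  have d2 := split_density hp {a₀} {a₀, a₁} hs0 hs01
  have d3 := split_density hp {a₀, a₁} {a₁} hs01 hs1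
  have d4 := split_density hp {a₀, a₁} {a₀, a₁} hs01 hs01
  rw [Finset.card_singleton, Finset.card_singleton] at d1
  rw [Finset.card_singleton, c2] at d2
  rw [Finset.card_singleton, c2] at d3
  rw [c2] at d4
  -- the difference of the first two
  have m0 : ∀ (Q : ℕ → Prop), (∀ s ∈ ({a₀} : Finset ℕ), Q s) ↔ Q a₀ := by
    intro Q
    simp
  have m1 : ∀ (Q : ℕ → Prop), (∀ s ∈ ({a₁} : Finset ℕ), Q s) ↔ Q a₁ := by
    intro Q
    simp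
  have m01 : ∀ (Q : ℕ → Prop), (∀ s ∈ ({a₀, a₁} : Finset ℕ), Q s) ↔ Q a₀ ∧ Q a₁ := by
    intro Q
    simp
  have e1 := HasD.diff d1 d2 (fun l hl => ⟨hl.1, hl.2.1, hl.2.2.1, (m1 _).2 ((m01 _).1 hl.2.2.2).2⟩)
  have e2 := HasD.diff d3 d4 (fun l hl => ⟨hl.1, hl.2.1, hl.2.2.1, (m1 _).2 ((m01 _).1 hl.2.2.2).2⟩)
  have e3 := HasD.diff e1 e2 (by
    rintro l ⟨h3, h4⟩
    refine ⟨⟨h3.1, h3.2.1, (m0 _).2 ((m01 _).1 h3.2.2.1).1, h3.2.2.2⟩, fun h5 => h4 ?_⟩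
    exact ⟨h3.1, h3.2.1, h3.2.2.1, h5.2.2.2⟩)
  have hset : bSet p a₀ a₁ = (splitSet p {a₀} {a₁} \ splitSet p {a₀} {a₀, a₁}) \
      (splitSet p {a₀, a₁} {a₁} \ splitSet p {a₀, a₁} {a₀, a₁}) := by
    ext l
    constructor
    · rintro ⟨g1, g2, g3, g4, g5, g6⟩
      refine ⟨⟨⟨g1, g2, (m0 _).2 g6, (m1 _).2 g4⟩, fun h => g3 ((m01 _).1 h.2.2.2).1⟩, ?_⟩
      rintro ⟨h, -⟩
      exact g5 ((m01 _).1 h.2.2.1).2
    · rintro ⟨⟨⟨g1, g2, g3, g4⟩, g5⟩, g6⟩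
      have k0 : PP p l a₀ := (m0 _).1 g3
      have k1 : PP p a₁ l := (m1 _).1 g4
      have k2 : ¬ PP p a₀ l := fun h => g5 ⟨g1, g2, g3, (m01 _).2 ⟨h, k1⟩⟩
      refine ⟨g1, g2, k2, k1, fun h => g6 ⟨⟨g1, g2, (m01 _).2 ⟨k0, h⟩, g4⟩, fun h' => ?_⟩, k0⟩
      exact k2 ((m01 _).1 h'.2.2.2).1
  rw [hset]
  have hval : ((p : ℝ) - 1)⁻¹ * ((1 / (p : ℝ)) ^ 2 * (1 - 1 / (p : ℝ)) ^ 2) =
      (((p : ℝ) - 1)⁻¹ * ((p : ℝ)⁻¹) ^ (1 + 1) - ((p : ℝ) - 1)⁻¹ * ((p : ℝ)⁻¹) ^ (1 + 2)) -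
      (((p : ℝ) - 1)⁻¹ * ((p : ℝ)⁻¹) ^ (2 + 1) - ((p : ℝ) - 1)⁻¹ * ((p : ℝ)⁻¹) ^ (2 + 2)) := by
    rw [one_div]
    ring
  rw [hval]
  exact e3

end N4bAux

theorem four_steps {p : ℕ} [Fact p.Prime] (hp : p ≠ 2) (P : Finset ℕ → Prop) (k : ℕ)
    (S : Finset ℕ) (hS : ∀ q ∈ S, q.Prime ∧ q % p = 1) {x y : ℝ} (hyx : y ≤ x)
    (hy : ∀ S' : Finset ℕ, S ⊆ S' → S'.card ≤ S.card + 4 →
      (∀ q ∈ S', q.Prime ∧ q % p = 1) → y ≤ iterProb p P k S')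
    (hx : ∀ S' : Finset ℕ, S ⊆ S' → S'.card ≤ S.card + 4 →
      (∀ q ∈ S', q.Prime ∧ q % p = 1) →
      (∃ a₀ ∈ S', ∃ a₁ ∈ S', ∃ b₀ ∈ S', ∃ b₁ ∈ S', Core p a₀ a₁ b₀ b₁) →
      x ≤ iterProb p P k S') :
    (1 / (p : ℝ)) ^ 6 * (1 - 1 / (p : ℝ)) ^ 4 * x +
      (1 - (1 / (p : ℝ)) ^ 6 * (1 - 1 / (p : ℝ)) ^ 4) * y ≤ iterProb p P (k + 4) S := by
  classical
  have hpp : 1 < p := (Fact.out : p.Prime).one_lt
  have h1 : HasD (P1 p) (((p : ℝ) - 1)⁻¹) := N4bAux.hasD_P1 hp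
  have h1' : HasD (P1 p) (((p : ℝ) - 1)⁻¹ * 1) := by rw [mul_one]; exact h1
  have hnn : ∀ (j : ℕ) (S' : Finset ℕ), 0 ≤ iterProb p P j S' := fun j S' =>
    (iterProb_nonneg p P hpp h1 j S').1
  have hle1 : ∀ (j : ℕ) (S' : Finset ℕ), iterProb p P j S' ≤ 1 := fun j S' =>
    (iterProb_nonneg p P hpp h1 j S').2
  have hsucc : ∀ (j : ℕ) (S' : Finset ℕ), iterProb p P (j + 1) S' =
      pmean p fun q => iterProb p P j (insert q S') := fun j S' => rfl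
  have hins : ∀ (S' : Finset ℕ) (q : ℕ), q ∈ P1 p → (∀ q ∈ S', q.Prime ∧ q % p = 1) →
      ∀ r ∈ insert q S', r.Prime ∧ r % p = 1 := by
    intro S' q hq hS' r hr
    rcases Finset.mem_insert.1 hr with hr | hr
    · rw [hr]
      exact hq
    · exact hS' r hr
  -- the bound `y` holds at all levels
  have hlow : ∀ (j : ℕ) (S' : Finset ℕ), S ⊆ S' → S'.card + j ≤ S.card + 4 →
      (∀ q ∈ S', q.Prime ∧ q % p = 1) → y ≤ iterProb p P (k + j) S' := by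
    intro j
    induction j with
    | zero =>
      intro S' hSS' hc hS'
      exact hy S' hSS' (by omega) hS'
    | succ j ih =>
      intro S' hSS' hc hS'
      have h2 : ∀ q ∈ P1 p, y ≤ iterProb p P (k + j) (insert q S') := by
        intro q hq
        refine ih _ (hSS'.trans (Finset.subset_insert _ _)) ?_ (hins S' q hq hS')
        have := Finset.card_insert_le q S'
        omega
      have h3 := pmean_step (x := y) (y := y) hpp h1 (le_refl (P1 p)) h1' ∅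
        (f := fun q => iterProb p P (k + j) (insert q S'))
        (fun q => hnn _ _) (fun q => hle1 _ _) le_rfl (fun q hq _ => h2 q hq)
        (fun q hq _ => h2 q hq)
      have h4 : iterProb p P (k + (j + 1)) S' =
        pmean p fun q => iterProb p P (k + j) (insert q S') := rfl
      rw [h4]
      linarith
  have hlow' : ∀ (j : ℕ) (S' : Finset ℕ) (q : ℕ), q ∈ P1 p → S ⊆ S' →
      S'.card + j + 1 ≤ S.card + 4 → (∀ q ∈ S', q.Prime ∧ q % p = 1) →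
      y ≤ iterProb p P (k + j) (insert q S') := by
    intro j S' q hq hSS' hc hS'
    refine hlow j _ (hSS'.trans (Finset.subset_insert _ _)) ?_ (hins S' q hq hS')
    have := Finset.card_insert_le q S'
    omega
  have hp0 : (0 : ℝ) < 1 / (p : ℝ) := by
    have : (0 : ℝ) < (p : ℝ) := by exact_mod_cast (by omega : 0 < p)
    positivity
  have hp1 : 1 / (p : ℝ) ≤ 1 := by
    have : (1 : ℝ) ≤ (p : ℝ) := by exact_mod_cast (by omega : 1 ≤ p)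
    rw [div_le_one (by linarith)]
    exact this
  have hd0 : 0 ≤ (1 / (p : ℝ)) ^ 2 * (1 - 1 / (p : ℝ)) ^ 2 := by positivity
  -- the last step
  have L3 : ∀ a₀ ∈ P1 p, ∀ a₁ ∈ splitSet p {a₀} {a₀}, a₁ ≠ a₀ → ∀ b₀ ∈ N4bAux.bSet p a₀ a₁,
      b₀ ≠ a₀ → b₀ ≠ a₁ →
      (1 / (p : ℝ)) ^ 2 * (1 - 1 / (p : ℝ)) ^ 2 * x +
        (1 - (1 / (p : ℝ)) ^ 2 * (1 - 1 / (p : ℝ)) ^ 2) * y ≤
      iterProb p P (k + 1) (insert b₀ (insert a₁ (insert a₀ S))) := by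
    intro a₀ ha₀ a₁ ha₁ hne b₀ hb₀ hb0 hb1
    have g1 : a₁ ∈ P1 p := ⟨ha₁.1, ha₁.2.1⟩
    have g2 : b₀ ∈ P1 p := ⟨hb₀.1, hb₀.2.1⟩
    have hS3 := hins _ b₀ g2 (hins _ a₁ g1 (hins S a₀ ha₀ hS))
    have c1 := Finset.card_insert_le a₀ S
    have c2 := Finset.card_insert_le a₁ (insert a₀ S)
    have c3 := Finset.card_insert_le b₀ (insert a₁ (insert a₀ S))
    have hsub : S ⊆ insert b₀ (insert a₁ (insert a₀ S)) :=
      (Finset.subset_insert _ _).trans ((Finset.subset_insert _ _).trans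
        (Finset.subset_insert _ _))
    rw [hsucc]
    refine pmean_step hpp h1 (N4bAux.bSet_subset p a₁ a₀)
      (N4bAux.hasD_bSet hp g1 ha₀ hne) {a₀, a₁, b₀}
      (fun q => hnn _ _) (fun q => hle1 _ _) hyx ?_ ?_
    · intro b₁ hb₁ hb₁F
      have n0 : b₁ ≠ a₀ := fun h => hb₁F (by rw [h]; simp)
      have n1 : b₁ ≠ a₁ := fun h => hb₁F (by rw [h]; simp)
      have n2 : b₁ ≠ b₀ := fun h => hb₁F (by rw [h]; simp)
      have g3 : b₁ ∈ P1 p := ⟨hb₁.1, hb₁.2.1⟩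
      refine hx _ (hsub.trans (Finset.subset_insert _ _)) ?_ (hins _ b₁ g3 hS3) ?_
      · have c4 := Finset.card_insert_le b₁ (insert b₀ (insert a₁ (insert a₀ S)))
        omega
      · refine ⟨a₀, by simp, a₁, by simp, b₀, by simp, b₁, by simp, ?_⟩
        refine ⟨?_, hne.symm, n2.symm, ?_, ?_, ?_, ?_, ?_, ?_⟩
        · rintro q (rfl | rfl | rfl | rfl)
          · exact ha₀
          · exact g1
          · exact g2
          · exact g3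
        · rintro a (rfl | rfl)
          · exact ⟨hb0.symm, n0.symm⟩
          · exact ⟨hb1.symm, n1.symm⟩
        · exact ⟨ha₁.2.2.2 a₀ (Finset.mem_singleton_self a₀),
            ha₁.2.2.1 a₀ (Finset.mem_singleton_self a₀)⟩
        · exact ⟨hb₀.2.2.1, hb₁.2.2.2.1⟩
        · exact ⟨hb₁.2.2.1, hb₀.2.2.2.1⟩
        · exact ⟨hb₀.2.2.2.2.1, hb₀.2.2.2.2.2⟩
        · exact ⟨hb₁.2.2.2.2.1, hb₁.2.2.2.2.2⟩
    · intro q hq _
      exact hlow' 0 _ q hq hsub (by omega) hS3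
  have hx3 : y ≤ (1 / (p : ℝ)) ^ 2 * (1 - 1 / (p : ℝ)) ^ 2 * x +
        (1 - (1 / (p : ℝ)) ^ 2 * (1 - 1 / (p : ℝ)) ^ 2) * y := by
    nlinarith [mul_nonneg hd0 (sub_nonneg.2 hyx)]
  set x₃ : ℝ := (1 / (p : ℝ)) ^ 2 * (1 - 1 / (p : ℝ)) ^ 2 * x +
        (1 - (1 / (p : ℝ)) ^ 2 * (1 - 1 / (p : ℝ)) ^ 2) * y with hx₃
  have L2 : ∀ a₀ ∈ P1 p, ∀ a₁ ∈ splitSet p {a₀} {a₀}, a₁ ≠ a₀ →
      (1 / (p : ℝ)) ^ 2 * (1 - 1 / (p : ℝ)) ^ 2 * x₃ +
        (1 - (1 / (p : ℝ)) ^ 2 * (1 - 1 / (p : ℝ)) ^ 2) * y ≤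
      iterProb p P (k + 2) (insert a₁ (insert a₀ S)) := by
    intro a₀ ha₀ a₁ ha₁ hne
    have g1 : a₁ ∈ P1 p := ⟨ha₁.1, ha₁.2.1⟩
    have hS2 := hins _ a₁ g1 (hins S a₀ ha₀ hS)
    have c1 := Finset.card_insert_le a₀ S
    have c2 := Finset.card_insert_le a₁ (insert a₀ S)
    have hsub : S ⊆ insert a₁ (insert a₀ S) :=
      (Finset.subset_insert _ _).trans (Finset.subset_insert _ _)
    have hstep : iterProb p P (k + 2) (insert a₁ (insert a₀ S)) = pmean p fun q =>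
      iterProb p P (k + 1) (insert q (insert a₁ (insert a₀ S))) := rfl
    rw [hstep]
    refine pmean_step hpp h1 (N4bAux.bSet_subset p a₀ a₁)
      (N4bAux.hasD_bSet hp ha₀ g1 hne.symm) {a₀, a₁}
      (fun q => hnn _ _) (fun q => hle1 _ _) hx3 ?_ ?_
    · intro b₀ hb₀ hb₀F
      have n0 : b₀ ≠ a₀ := fun h => hb₀F (by rw [h]; simp)
      have n1 : b₀ ≠ a₁ := fun h => hb₀F (by rw [h]; simp)
      exact L3 a₀ ha₀ a₁ ha₁ hne b₀ hb₀ n0 n1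
    · intro q hq _
      exact hlow' 1 _ q hq hsub (by omega) hS2
  have hx2 : y ≤ (1 / (p : ℝ)) ^ 2 * (1 - 1 / (p : ℝ)) ^ 2 * x₃ +
        (1 - (1 / (p : ℝ)) ^ 2 * (1 - 1 / (p : ℝ)) ^ 2) * y := by
    nlinarith [mul_nonneg hd0 (sub_nonneg.2 hx3)]
  set x₂ : ℝ := (1 / (p : ℝ)) ^ 2 * (1 - 1 / (p : ℝ)) ^ 2 * x₃ +
        (1 - (1 / (p : ℝ)) ^ 2 * (1 - 1 / (p : ℝ)) ^ 2) * y with hx₂
  have L1 : ∀ a₀ ∈ P1 p, (1 / (p : ℝ)) ^ 2 * x₂ + (1 - (1 / (p : ℝ)) ^ 2) * y ≤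
      iterProb p P (k + 3) (insert a₀ S) := by
    intro a₀ ha₀
    have hS1 := hins S a₀ ha₀ hS
    have c1 := Finset.card_insert_le a₀ S
    have hsub : S ⊆ insert a₀ S := Finset.subset_insert _ _
    have hstep : iterProb p P (k + 3) (insert a₀ S) = pmean p fun q =>
      iterProb p P (k + 2) (insert q (insert a₀ S)) := rfl
    have hsing : ∀ s ∈ ({a₀} : Finset ℕ), s.Prime ∧ s % p = 1 := by
      intro s hs
      rw [Finset.mem_singleton] at hs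
      rw [hs]
      exact ha₀
    have hdens := split_density hp {a₀} {a₀} hsing hsing
    rw [Finset.card_singleton] at hdens
    have hdens' : HasD (splitSet p {a₀} {a₀}) (((p : ℝ) - 1)⁻¹ * (1 / (p : ℝ)) ^ 2) := by
      rw [one_div]
      exact hdens
    rw [hstep]
    refine pmean_step hpp h1 (N4bAux.splitSet_subset p {a₀} {a₀}) hdens' {a₀}
      (fun q => hnn _ _) (fun q => hle1 _ _) hx2 ?_ ?_
    · intro a₁ ha₁ ha₁F
      have n0 : a₁ ≠ a₀ := fun h => ha₁F (by rw [h]; simp)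
      exact L2 a₀ ha₀ a₁ ha₁ n0
    · intro q hq _
      exact hlow' 2 _ q hq hsub (by omega) hS1
  have hstep : iterProb p P (k + 4) S = pmean p fun q => iterProb p P (k + 3) (insert q S) := rfl
  have hfin := pmean_step hpp h1 (le_refl (P1 p)) h1' ∅
    (f := fun q => iterProb p P (k + 3) (insert q S))
    (fun q => hnn _ _) (fun q => hle1 _ _) (le_refl
      ((1 / (p : ℝ)) ^ 2 * x₂ + (1 - (1 / (p : ℝ)) ^ 2) * y))
    (fun q hq _ => L1 q hq) (fun q hq _ => L1 q hq)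
  rw [hstep]
  refine le_trans (le_of_eq ?_) hfin
  rw [hx₂, hx₃]
  ring

end Pool.Agent.RG
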