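import Mathlib
import Pool.Agent.Lib.RG.NDefs
import Pool.Agent.Lib.RG.N1
import Pool.Agent.Lib.RG.N2
import Pool.Agent.Lib.RG.N3a
import Pool.Agent.Lib.RG.N3b
import Pool.Agent.Lib.RG.N4b

/-!
RG v2, row N4c (limit).
-/

set_option autoImplicit false

namespace Pool.Agent.RG

theorem N4c_eta {p : ℕ} (hp3 : 3 ≤ p) : 0 < 1 - eta p ∧ 1 - eta p < 1 := by
  have h3 : (3 : ℝ) ≤ p := by exact_mod_cast hp3
  have h1 : 0 < 1 - 1 / (p : ℝ) := by
    have : 1 / (p : ℝ) ≤ 1 / 3 := one_div_le_one_div_of_le (by norm_num) h3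
    linarith
  have h1' : 1 - 1 / (p : ℝ) ≤ 1 := by
    have : 0 < 1 / (p : ℝ) := by positivity
    linarith
  have h2 : 0 < 2 / (p : ℝ) ^ 3 := by positivity
  have h2' : 2 / (p : ℝ) ^ 3 ≤ 2 / 27 := by
    refine div_le_div_of_nonneg_left (by norm_num) (by norm_num) ?_
    calc (27 : ℝ) = 3 ^ 3 := by norm_num
      _ ≤ (p : ℝ) ^ 3 := pow_le_pow_left₀ (by norm_num) h3 3
  have h3 : (1 - 1 / (p : ℝ)) ^ 2 ≤ 1 := pow_le_one₀ h1.le h1'
  have h4 : 0 < (1 - 1 / (p : ℝ)) ^ 2 := by positivity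
  unfold eta
  refine ⟨?_, ?_⟩
  · have : 2 / (p : ℝ) ^ 3 * (1 - 1 / (p : ℝ)) ^ 2 ≤ 2 / 27 * 1 :=
      mul_le_mul h2' h3 h4.le (by norm_num)
    linarith
  · have : 0 < 2 / (p : ℝ) ^ 3 * (1 - 1 / (p : ℝ)) ^ 2 := mul_pos h2 h4
    linarith

theorem N4c_tendsto {r : ℝ} (h0 : 0 < r) (h1 : r < 1) (a : ℝ) :
    Filter.Tendsto (fun k : ℕ => r ^ k * (a + k / r)) Filter.atTop (nhds 0) := by
  have t1 : Filter.Tendsto (fun k : ℕ => r ^ k) Filter.atTop (nhds 0) :=
    tendsto_pow_atTop_nhds_zero_of_lt_one h0.le h1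
  have t2 : Filter.Tendsto (fun k : ℕ => (k : ℝ) * r ^ k) Filter.atTop (nhds 0) :=
    tendsto_self_mul_const_pow_of_lt_one h0.le h1
  have t3 := (t1.mul_const a).add (t2.mul_const (1 / r))
  simp only [zero_mul, add_zero] at t3
  refine t3.congr fun k => ?_
  ring

theorem crit_limit {p : ℕ} [Fact p.Prime] (hp : p ≠ 2) (R : Finset ℕ)
    (hR : ∀ q ∈ R, q.Prime ∧ q % p = 1) (S : Finset ℕ) (hS : ∀ q ∈ S, q.Prime ∧ q % p = 1) :
    Filter.Tendsto (fun k => iterProb p (Crit p R) k S) Filter.atTop (nhds 1) := by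
  classical
  have hpp : p.Prime := Fact.out
  have hp1 : 1 < p := hpp.one_lt
  have hp3 : 3 ≤ p := by
    have := hpp.two_le
    omega
  have h1 : HasD (P1 p) (((p : ℝ) - 1)⁻¹) := by
    have h := split_density (p := p) hp ∅ ∅ (by simp) (by simp)
    have he : splitSet p ∅ ∅ = P1 p := by
      ext q
      simp [splitSet, P1]
    rw [he] at h
    simpa using h
  have hbd := fun k S' => iterProb_nonneg p (Crit p R) hp1 h1 k S'
  obtain ⟨he0, he1⟩ := N4c_eta hp3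
  have h3 : (3 : ℝ) ≤ p := by exact_mod_cast hp3
  set δ : ℝ := (1 / (p : ℝ)) ^ 6 * (1 - 1 / (p : ℝ)) ^ 4 with hδ
  have hx0 : 0 < 1 / (p : ℝ) := by positivity
  have hx1 : 1 / (p : ℝ) ≤ 1 / 3 := one_div_le_one_div_of_le (by norm_num) h3
  have hδ0 : 0 < δ := by
    have : 0 < 1 - 1 / (p : ℝ) := by linarith
    positivity
  have hδ1 : δ < 1 := by
    have a1 : (1 / (p : ℝ)) ^ 6 ≤ 1 / 3 := by
      calc (1 / (p : ℝ)) ^ 6 ≤ (1 / 3) ^ 6 := pow_le_pow_left₀ hx0.le hx1 6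
        _ ≤ 1 / 3 := by norm_num
    have a2 : (1 - 1 / (p : ℝ)) ^ 4 ≤ 1 := pow_le_one₀ (by linarith) (by linarith)
    have a3 : 0 < (1 - 1 / (p : ℝ)) ^ 4 := by
      have : 0 < 1 - 1 / (p : ℝ) := by linarith
      positivity
    calc δ ≤ 1 / 3 * 1 := mul_le_mul a1 a2 a3.le (by norm_num)
      _ < 1 := by norm_num
  -- the claim
  have claim : ∀ (j n : ℕ) (ε : ℝ), 0 < ε → ∃ K : ℕ, ∀ k, K ≤ k → ∀ S' : Finset ℕ,
      (∀ q ∈ S', q.Prime ∧ q % p = 1) → S'.card ≤ n →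
        1 - (1 - δ) ^ j - ε ≤ iterProb p (Crit p R) k S' := by
    intro j
    induction j with
    | zero =>
      intro n ε hε
      refine ⟨0, fun k _ S' _ _ => ?_⟩
      have := (hbd k S').1
      simp only [pow_zero]
      linarith
    | succ j ih =>
      intro n ε hε
      obtain ⟨K1, hK1⟩ := ih (n + 4) ε hε
      have t := N4c_tendsto he0 he1 ((n : ℝ) + 4 + R.card)
      have t2 : ∀ᶠ k : ℕ in Filter.atTop,
          (1 - eta p) ^ k * ((n : ℝ) + 4 + R.card + k / (1 - eta p)) < ε :=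
        t.eventually (gt_mem_nhds hε)
      obtain ⟨K2, hK2⟩ := Filter.eventually_atTop.1 t2
      refine ⟨max K1 K2 + 4, fun k' hk' S' hS' hcard => ?_⟩
      obtain ⟨k, rfl⟩ : ∃ k, k' = k + 4 := ⟨k' - 4, by omega⟩
      have hk1 : K1 ≤ k := by omega
      have hk2 : K2 ≤ k := by omega
      have hpow : 0 ≤ (1 - δ) ^ j := pow_nonneg (by linarith) j
      have key := four_steps (p := p) hp (Crit p R) k S' hS' (x := 1 - ε)
        (y := 1 - (1 - δ) ^ j - ε) (by linarith) ?_ ?_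
      · rw [← hδ] at key
        refine le_trans (le_of_eq ?_) key
        ring
      · intro S'' hsub hc hS''
        exact hK1 k hk1 S'' hS'' (by omega)
      · rintro S'' hsub hc hS'' ⟨a₀, ha₀, a₁, ha₁, b₀, hb₀, b₁, hb₁, hcore⟩
        have h4 := core_prob hp R hR hcore k S'' hS'' ha₀ ha₁ hb₀ hb₁
        refine le_trans ?_ h4
        have h5 : ((Uset p R a₀ a₁ b₀ b₁ S'').card : ℝ) ≤ (n : ℝ) + 4 + R.card := by
          have : (Uset p R a₀ a₁ b₀ b₁ S'').card ≤ n + 4 + R.card := by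
            calc (Uset p R a₀ a₁ b₀ b₁ S'').card ≤ (S'' ∪ R).card := Finset.card_filter_le _ _
              _ ≤ S''.card + R.card := Finset.card_union_le _ _
              _ ≤ n + 4 + R.card := by omega
          exact_mod_cast this
        have h6 : (k : ℝ) / (1 - eta p) * (1 / (p : ℝ)) ^ (Bset p a₀ a₁ b₀ b₁ S'').card ≤
            (k : ℝ) / (1 - eta p) := by
          refine mul_le_of_le_one_right (by positivity) ?_
          exact pow_le_one₀ hx0.le (by linarith)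
        have h7 := hK2 k hk2
        have h8 : (1 - eta p) ^ k * (((Uset p R a₀ a₁ b₀ b₁ S'').card : ℝ) +
            (k : ℝ) / (1 - eta p) * (1 / (p : ℝ)) ^ (Bset p a₀ a₁ b₀ b₁ S'').card) ≤
            (1 - eta p) ^ k * ((n : ℝ) + 4 + R.card + k / (1 - eta p)) :=
          mul_le_mul_of_nonneg_left (by linarith) (pow_nonneg he0.le k)
        linarith
  rw [tendsto_order]
  refine ⟨fun a ha => ?_, fun a ha => ?_⟩
  · have hε : 0 < (1 - a) / 2 := by linarith
    obtain ⟨j, hj⟩ := exists_pow_lt_of_lt_one hε (show 1 - δ < 1 by linarith)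
    obtain ⟨K, hK⟩ := claim j S.card ((1 - a) / 2) hε
    refine Filter.eventually_atTop.2 ⟨K, fun k hk => ?_⟩
    have := hK k hk S hS le_rfl
    linarith
  · exact Filter.Eventually.of_forall fun k => lt_of_le_of_lt (hbd k S).2 ha

end Pool.Agent.RG
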