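import Mathlib
import Pool.Agent.Lib.RG.NDefs
import Pool.Agent.Lib.RG.GX3

/-!
RG v2, rows N5a, N5b.

N5a: the linking numbers vanish exactly for `p`-th powers: `q ≠ r` primes of `S`: `link lam q r = 0 ↔
PP p q r` (`lam r` is a surjective character of order `p` of the cyclic group `(ZMod r)ˣ`, its kernel is
the group of the `p`-th powers: it contains them and has the same index; `PP p q r` means
`∃ x : ZMod r, x ^ p = q`, `q` a unit), and `link lam q q = 0`.

N5b: the cup product criterion for `G = {a₀, a₁} ∪ B`. `V :=` functions supported on `{a₀, a₁}`, `U :=`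
functions supported on `B`. Write `ℓ = link lam`. Zero pattern of `ℓ` (N5a, definition of `Core`,
`Bset`): `ℓ a a' = 0` for `a, a' ∈ A`; for `b ∈ B` there is exactly one `a = n b ∈ A` with `ℓ b a ≠ 0`
(`n b₀ = a₁`, `n b₁ = a₀`); `ℓ a₀ b ≠ 0` iff `b = b₀`, `ℓ a₁ b ≠ 0` iff `b = b₁` (for the other `b` use
`PP p a₀ b`, `PP p a₁ b`). Cup products: for `f ∈ U`, `g ∈ V`: `(cup f g) b = f b * ℓ b (n b) * g (n b)`
for `b ∈ B`, `(cup f g) a₀ = - g a₀ * ℓ a₀ b₀ * f b₀`, `(cup f g) a₁ = - g a₁ * ℓ a₁ b₁ * f b₁`.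
`cup = 0` on `V`. Span: `f = δ_b`, `g = δ_(n b)` gives a multiple `≠ 0` of `δ_b` (the `a` components
vanish: `b = b₀`: `n b₀ = a₁` and `ℓ a₁ b₀ = 0`, etc.); `f = δ_(b₀)`, `g = δ_(a₀)` gives `δ_(a₀)` times a
unit; same for `a₁`. `u := ` the function `1` on `B`, `v :=` the function `1` on `A`. The linear map
`(f, g) ↦ cup u g + cup f v` from `U × V` (dimension `card G`) has kernel of dimension at most one:
it is given by `g (n b) + f b = 0` for all `b` and `g a₀ + f b₀ = 0`, `g a₁ + f b₁ = 0`; with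
`n b₀ = a₁`, `n b₁ = a₀`: `f b₀ = - g a₁ = - g a₀`, so `g` is constant and `f = - g (n b)`. So the rank
is at least `card G - 1`, and the span in the criterion contains the range of this map.
-/

set_option autoImplicit false

namespace Pool.Agent.RG

private theorem N5a_dvd {p r : ℕ} [Fact p.Prime] (hr : r.Prime) (h : r % p = 1) : p ∣ r - 1 := by
  have h1 : (r - 1) % p = 0 := by
    have h2 := Nat.sub_mod_eq_zero_of_mod_eq (m := r) (n := 1) (k := p)
      (by rw [h, Nat.mod_eq_of_lt (Fact.out : p.Prime).one_lt])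
    exact h2
  exact Nat.dvd_of_mod_eq_zero h1

private theorem N5a_ker {p r : ℕ} [Fact p.Prime] (hr : r.Prime)
    (lam : (ZMod r)ˣ →* Multiplicative (ZMod p)) (hlam : Function.Surjective lam) (u : (ZMod r)ˣ) :
    lam u = 1 ↔ ∃ y : (ZMod r)ˣ, y ^ p = u := by
  have : Fact r.Prime := ⟨hr⟩
  have hp : p.Prime := Fact.out
  have hpow : ∀ z : Multiplicative (ZMod p), z ^ p = 1 := by
    intro z
    apply Multiplicative.toAdd.injective
    rw [toAdd_pow, toAdd_one, nsmul_eq_mul, CharP.cast_eq_zero, zero_mul]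
  constructor
  · intro hu
    obtain ⟨g, hg⟩ := IsCyclic.exists_generator (α := (ZMod r)ˣ)
    have hg1 : lam g ≠ 1 := by
      intro h1
      obtain ⟨v, hv⟩ := hlam (Multiplicative.ofAdd 1)
      obtain ⟨k, hk⟩ := Subgroup.mem_zpowers_iff.1 (hg v)
      rw [← hk, map_zpow, h1, one_zpow] at hv
      have h2 : (0 : ZMod p) = 1 := congrArg Multiplicative.toAdd hv
      exact zero_ne_one h2
    have hord : orderOf (lam g) = p := orderOf_eq_prime (hpow _) hg1
    obtain ⟨k, hk⟩ := Subgroup.mem_zpowers_iff.1 (hg u)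
    have h3 : lam g ^ k = 1 := by rw [← map_zpow, hk, hu]
    have h4 : ((p : ℕ) : ℤ) ∣ k := by
      rw [← hord]
      exact orderOf_dvd_iff_zpow_eq_one.2 h3
    obtain ⟨m, hm⟩ := h4
    refine ⟨g ^ m, ?_⟩
    rw [← hk, hm, ← zpow_natCast, ← zpow_mul, mul_comm]
  · rintro ⟨y, rfl⟩
    rw [map_pow, hpow]

theorem link_eq_zero {p : ℕ} [Fact p.Prime] {S : Finset ℕ} (hS : ∀ q ∈ S, q.Prime ∧ q % p = 1)
    (lam : ∀ r : S, (ZMod (r : ℕ))ˣ →* Multiplicative (ZMod p))
    (hlam : ∀ r, Function.Surjective (lam r)) (q r : S) :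
    link lam q r = 0 ↔ (q = r ∨ PP p (q : ℕ) (r : ℕ)) := by
  have hr := hS r r.2
  have hq := hS q q.2
  have : Fact (r : ℕ).Prime := ⟨hr.1⟩
  by_cases hqr : q = r
  · subst hqr
    refine ⟨fun _ => Or.inl rfl, fun _ => ?_⟩
    have hn : ¬ IsUnit (((q : ℕ) : ℕ) : ZMod (q : ℕ)) := by
      rw [ZMod.natCast_self]
      exact not_isUnit_zero
    rw [link, dif_neg hn]
  · have hne : (q : ℕ) ≠ (r : ℕ) := fun h => hqr (Subtype.ext h)
    have hu : IsUnit ((q : ℕ) : ZMod (r : ℕ)) := by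
      rw [ZMod.isUnit_iff_coprime]
      exact (Nat.coprime_primes hq.1 hr.1).2 hne
    rw [link, dif_pos hu, toAdd_eq_zero, N5a_ker hr.1 (lam r) (hlam r)]
    constructor
    · rintro ⟨y, hy⟩
      refine Or.inr ⟨(y : ZMod (r : ℕ)), ?_⟩
      rw [← Units.val_pow_eq_pow_val, hy, IsUnit.unit_spec]
    · rintro (h | ⟨x, hx⟩)
      · exact absurd h hqr
      · have hxu : IsUnit x := by
          rw [← hx] at hu
          exact (isUnit_pow_iff (Fact.out : p.Prime).ne_zero).1 hu
        refine ⟨hxu.unit, ?_⟩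
        apply Units.ext
        rw [Units.val_pow_eq_pow_val, IsUnit.unit_spec, IsUnit.unit_spec, hx]

/-- every prime `1 mod p` has a surjective character to `ZMod p` -/
theorem exists_lam {p : ℕ} [Fact p.Prime] {r : ℕ} (hr : r.Prime) (h : r % p = 1) :
    ∃ lam : (ZMod r)ˣ →* Multiplicative (ZMod p), Function.Surjective lam := by
  have : Fact r.Prime := ⟨hr⟩
  have hd : p ∣ Nat.card (ZMod r)ˣ := by
    rw [Nat.card_eq_fintype_card, ZMod.card_units_eq_totient, Nat.totient_prime hr]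
    exact N5a_dvd hr h
  let e : Multiplicative (ZMod (Nat.card (ZMod r)ˣ)) ≃* (ZMod r)ˣ :=
    zmodCyclicMulEquiv inferInstance
  let f : Multiplicative (ZMod (Nat.card (ZMod r)ˣ)) →* Multiplicative (ZMod p) :=
    AddMonoidHom.toMultiplicative (ZMod.castHom hd (ZMod p)).toAddMonoidHom
  refine ⟨f.comp e.symm.toMonoidHom, ?_⟩
  have hf : Function.Surjective f := fun z => by
    obtain ⟨w, hw⟩ := ZMod.castHom_surjective hd (Multiplicative.toAdd z)
    exact ⟨Multiplicative.ofAdd w, congrArg Multiplicative.ofAdd hw⟩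
  exact hf.comp e.symm.surjective

end Pool.Agent.RG
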