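import Mathlib
import Pool.Agent.Lib.RG.NDefs
import Pool.Agent.Lib.RG.QCrit
import Pool.Agent.Lib.RG.GX3
import Pool.Agent.Lib.RG.N5a

/-!
RG v2, rows N5a, N5b.

N5a: the linking numbers vanish exactly for `p`-th powers: `q ≠ r` primes of `S`: `link lam q r = 0 ↔
PP p q r` (`lam r` is a surjective character of order `p` of the cyclic group `(ZMod r)ˣ`, its kernel is
the group of the `p`-th powers: it contains them and has the same index; `PP p q r` means
`∃ x : ZMod r, x ^ p = q`, `q` a unit), and `link lam q q = 0`.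

N5b: the cup product criterion for `G = {a₀, a₁} ∪ B`. `V :=` functions supported on `{a₀, a₁}`, `U :=`
functions supported on `B`. Write `ℓ = link lam`. Zero pattern of `ℓ` (N5a, definition of `Core`,
`Bset`): `ℓ a a' = 0` for `a, a' ∈ A`; for `b ∈ B` there is exactly one `a = n b ∈ A` with `ℓ b a ≠ 0`
(`n b₀ = a₁`, `n b₁ = a₀`); `ℓ a₀ b ≠ 0` iff `b = b₀`, `ℓ a₁ b ≠ 0` iff `b = b₁` (for the other `b` use
`PP p a₀ b`, `PP p a₁ b`). Cup products: for `f ∈ U`, `g ∈ V`: `(cup f g) b = f b * ℓ b (n b) * g (n b)`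
for `b ∈ B`, `(cup f g) a₀ = - g a₀ * ℓ a₀ b₀ * f b₀`, `(cup f g) a₁ = - g a₁ * ℓ a₁ b₁ * f b₁`.
`cup = 0` on `V`. Span: `f = δ_b`, `g = δ_(n b)` gives a multiple `≠ 0` of `δ_b` (the `a` components
vanish: `b = b₀`: `n b₀ = a₁` and `ℓ a₁ b₀ = 0`, etc.); `f = δ_(b₀)`, `g = δ_(a₀)` gives `δ_(a₀)` times a
unit; same for `a₁`. `u := ` the function `1` on `B`, `v :=` the function `1` on `A`. The linear map
`(f, g) ↦ cup u g + cup f v` from `U × V` (dimension `card G`) has kernel of dimension at most one: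
it is given by `g (n b) + f b = 0` for all `b` and `g a₀ + f b₀ = 0`, `g a₁ + f b₁ = 0`; with
`n b₀ = a₁`, `n b₁ = a₀`: `f b₀ = - g a₁ = - g a₀`, so `g` is constant and `f = - g (n b)`. So the rank
is at least `card G - 1`, and the span in the criterion contains the range of this map.
-/

set_option autoImplicit false

namespace Pool.Agent.RG

section N5bAux

open Q

variable {p : ℕ} [Fact p.Prime] {ι : Type} [Fintype ι]

/-- The pattern of the zeros of the linking numbers. -/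
private structure N5bPat (ℓ : ι → ι → ZMod p) (a₀ a₁ b₀ b₁ : ι) : Prop where
  na : a₀ ≠ a₁
  n00 : a₀ ≠ b₀
  n01 : a₀ ≠ b₁
  n10 : a₁ ≠ b₀
  n11 : a₁ ≠ b₁
  ha0 : ∀ b, b ≠ b₀ → ℓ a₀ b = 0
  ha0' : ℓ a₀ b₀ ≠ 0
  ha1 : ∀ b, b ≠ b₁ → ℓ a₁ b = 0
  ha1' : ℓ a₁ b₁ ≠ 0
  hb : ∀ b, b ≠ a₀ → b ≠ a₁ → (ℓ b a₀ = 0 ∧ ℓ b a₁ ≠ 0) ∨ (ℓ b a₀ ≠ 0 ∧ ℓ b a₁ = 0)
  hb0 : ℓ b₀ a₀ = 0
  hb1 : ℓ b₁ a₁ = 0

variable {ℓ : ι → ι → ZMod p} {a₀ a₁ b₀ b₁ : ι}

private lemma N5bPat.sumA (h : N5bPat ℓ a₀ a₁ b₀ b₁) {g : ι → ZMod p}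
    (hg : ∀ b, b ≠ a₀ → b ≠ a₁ → g b = 0) (q : ι) :
    ∑ r, ℓ q r * g r = ℓ q a₀ * g a₀ + ℓ q a₁ * g a₁ :=
  Fintype.sum_eq_add a₀ a₁ h.na fun x hx => by rw [hg x hx.1 hx.2, mul_zero]

private lemma N5bPat.sum0 (h : N5bPat ℓ a₀ a₁ b₀ b₁) (f : ι → ZMod p) :
    ∑ r, ℓ a₀ r * f r = ℓ a₀ b₀ * f b₀ :=
  Fintype.sum_eq_single b₀ fun x hx => by rw [h.ha0 x hx, zero_mul]

private lemma N5bPat.sum1 (h : N5bPat ℓ a₀ a₁ b₀ b₁) (f : ι → ZMod p) :
    ∑ r, ℓ a₁ r * f r = ℓ a₁ b₁ * f b₁ :=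
  Fintype.sum_eq_single b₁ fun x hx => by rw [h.ha1 x hx, zero_mul]

private lemma N5bPat.cup0 (h : N5bPat ℓ a₀ a₁ b₀ b₁) (f g : ι → ZMod p) :
    cup ℓ f g a₀ = f a₀ * (ℓ a₀ b₀ * g b₀) - g a₀ * (ℓ a₀ b₀ * f b₀) := by
  unfold cup
  rw [h.sum0, h.sum0]

private lemma N5bPat.cup1 (h : N5bPat ℓ a₀ a₁ b₀ b₁) (f g : ι → ZMod p) :
    cup ℓ f g a₁ = f a₁ * (ℓ a₁ b₁ * g b₁) - g a₁ * (ℓ a₁ b₁ * f b₁) := by
  unfold cup
  rw [h.sum1, h.sum1]

private lemma N5bPat.cupB (h : N5bPat ℓ a₀ a₁ b₀ b₁) (f : ι → ZMod p) {g : ι → ZMod p}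
    (hg : ∀ b, b ≠ a₀ → b ≠ a₁ → g b = 0) (b : ι) (h0 : b ≠ a₀) (h1 : b ≠ a₁) :
    cup ℓ f g b = f b * (ℓ b a₀ * g a₀ + ℓ b a₁ * g a₁) := by
  unfold cup
  rw [h.sumA hg, hg b h0 h1]
  ring

open Classical in
private lemma N5bPat.crit (h : N5bPat ℓ a₀ a₁ b₀ b₁) : Q.Criterion ℓ := by
  let U : Submodule (ZMod p) (ι → ZMod p) :=
    { carrier := {f | f a₀ = 0 ∧ f a₁ = 0}
      add_mem' := by
        rintro f g ⟨h1, h2⟩ ⟨h3, h4⟩
        exact ⟨by simp [h1, h3], by simp [h2, h4]⟩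
      zero_mem' := ⟨rfl, rfl⟩
      smul_mem' := by
        rintro c f ⟨h1, h2⟩
        exact ⟨by simp [h1], by simp [h2]⟩ }
  let V : Submodule (ZMod p) (ι → ZMod p) :=
    { carrier := {g | ∀ b, b ≠ a₀ → b ≠ a₁ → g b = 0}
      add_mem' := by
        intro f g hf hg b h0 h1
        simp [hf b h0 h1, hg b h0 h1]
      zero_mem' := fun _ _ _ => rfl
      smul_mem' := by
        intro c f hf b h0 h1
        simp [hf b h0 h1] }
  have hU : ∀ f, f ∈ U ↔ f a₀ = 0 ∧ f a₁ = 0 := fun f => Iff.rfl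
  have hV : ∀ g, g ∈ V ↔ ∀ b, b ≠ a₀ → b ≠ a₁ → g b = 0 := fun g => Iff.rfl
  let PA : (ι → ZMod p) → ι → ZMod p := fun f i => if i = a₀ ∨ i = a₁ then f i else 0
  let PBf : (ι → ZMod p) → ι → ZMod p := fun f i => if i = a₀ ∨ i = a₁ then 0 else f i
  have hPA : ∀ f, PA f ∈ V := fun f b h0 h1 => by simp [PA, h0, h1]
  have hPB : ∀ f, PBf f ∈ U := fun f => ⟨by simp [PBf], by simp [PBf]⟩
  have hsum : ∀ f, PBf f + PA f = f := by
    intro f
    funext i
    by_cases hi : i = a₀ ∨ i = a₁ <;> simp [PA, PBf, hi]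
  refine ⟨U, V, ?_, ?_, ?_, ?_⟩
  · constructor
    · rw [Submodule.disjoint_def]
      intro f h1 h2
      funext i
      by_cases h3 : i = a₀
      · rw [h3]; exact h1.1
      · by_cases h4 : i = a₁
        · rw [h4]; exact h1.2
        · exact h2 i h3 h4
    · rw [codisjoint_iff, eq_top_iff]
      intro f _
      rw [← hsum f]
      exact Submodule.add_mem_sup (hPB f) (hPA f)
  · intro f hf g hg
    funext q
    by_cases h3 : q = a₀
    · subst h3
      rw [h.cup0, hf b₀ h.n00.symm h.n10.symm, hg b₀ h.n00.symm h.n10.symm]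
      simp
    · by_cases h4 : q = a₁
      · subst h4
        rw [h.cup1, hf b₁ h.n01.symm h.n11.symm, hg b₁ h.n01.symm h.n11.symm]
        simp
      · rw [h.cupB f hg q h3 h4, hf q h3 h4]
        simp
  · rw [eq_top_iff]
    have key : ∀ i, Pi.single i (1 : ZMod p) ∈ Submodule.span (ZMod p)
        {c | ∃ f ∈ U, ∃ g ∈ V, c = cup ℓ f g} := by
      intro i
      -- it is enough to have a nonzero multiple
      suffices hs : ∃ f ∈ U, ∃ g ∈ V, ∃ t : ZMod p, t ≠ 0 ∧ cup ℓ f g = t • Pi.single i 1 by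
        obtain ⟨f, hf, g, hg, t, ht, hc⟩ := hs
        have h1 : (Pi.single i 1 : ι → ZMod p) = t⁻¹ • cup ℓ f g := by
          rw [hc, smul_smul, inv_mul_cancel₀ ht, one_smul]
        rw [h1]
        exact Submodule.smul_mem _ _ (Submodule.subset_span ⟨f, hf, g, hg, rfl⟩)
      have hsV : ∀ a, a = a₀ ∨ a = a₁ → (Pi.single a 1 : ι → ZMod p) ∈ V := by
        intro a ha b h0 h1
        rcases ha with rfl | rfl
        · exact Pi.single_eq_of_ne h0 _
        · exact Pi.single_eq_of_ne h1 _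
      have hsU : ∀ b, b ≠ a₀ → b ≠ a₁ → (Pi.single b 1 : ι → ZMod p) ∈ U := by
        intro b h0 h1
        exact ⟨Pi.single_eq_of_ne h0.symm _, Pi.single_eq_of_ne h1.symm _⟩
      by_cases h3 : i = a₀
      · subst h3
        refine ⟨_, hsU b₀ h.n00.symm h.n10.symm, _, hsV i (Or.inl rfl), - ℓ i b₀,
          neg_ne_zero.2 h.ha0', ?_⟩
        funext q
        by_cases h5 : q = i
        · subst h5
          rw [h.cup0]
          simp [h.n00]
        · by_cases h4 : q = a₁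
          · subst h4
            rw [h.cup1]
            simp [h.na.symm, h.n10]
          · rw [h.cupB _ (hsV i (Or.inl rfl)) q h5 h4]
            by_cases h6 : q = b₀
            · subst h6
              simp [h.hb0, h.na.symm, h5]
            · simp [h5, h6]
      · by_cases h4 : i = a₁
        · subst h4
          refine ⟨_, hsU b₁ h.n01.symm h.n11.symm, _, hsV i (Or.inr rfl), - ℓ i b₁,
            neg_ne_zero.2 h.ha1', ?_⟩
          funext q
          by_cases h5 : q = a₀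
          · subst h5
            rw [h.cup0]
            simp [h.na, h.n01]
          · by_cases h6 : q = i
            · subst h6
              rw [h.cup1]
              simp [h.n11]
            · rw [h.cupB _ (hsV i (Or.inr rfl)) q h5 h6]
              by_cases h7 : q = b₁
              · subst h7
                simp [h.hb1, h.na, h6]
              · simp [h6, h7]
        · rcases h.hb i h3 h4 with ⟨h5, h6⟩ | ⟨h5, h6⟩
          · have hne1 : i ≠ b₁ := by
              rintro rfl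
              exact h6 h.hb1
            refine ⟨_, hsU i h3 h4, _, hsV a₁ (Or.inr rfl), ℓ i a₁, h6, ?_⟩
            funext q
            by_cases h7 : q = a₀
            · subst h7
              rw [h.cup0]
              simp [h.na, Ne.symm h3]
            · by_cases h8 : q = a₁
              · subst h8
                rw [h.cup1]
                simp [Ne.symm h4, hne1.symm, h.n11.symm]
              · rw [h.cupB _ (hsV a₁ (Or.inr rfl)) q h7 h8]
                by_cases h9 : q = i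
                · subst h9
                  simp [h.na]
                · simp [h9]
          · have hne0 : i ≠ b₀ := by
              rintro rfl
              exact h5 h.hb0
            refine ⟨_, hsU i h3 h4, _, hsV a₀ (Or.inl rfl), ℓ i a₀, h5, ?_⟩
            funext q
            by_cases h7 : q = a₀
            · subst h7
              rw [h.cup0]
              simp [Ne.symm h3, hne0.symm, h.n00.symm]
            · by_cases h8 : q = a₁
              · subst h8
                rw [h.cup1]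
                simp [h.na.symm, Ne.symm h4]
              · rw [h.cupB _ (hsV a₀ (Or.inl rfl)) q h7 h8]
                by_cases h9 : q = i
                · subst h9
                  simp [h.na.symm]
                · simp [h9]
    intro f _
    rw [← Finset.univ_sum_single f]
    refine Submodule.sum_mem _ fun i _ => ?_
    have h1 : (Pi.single i (f i) : ι → ZMod p) = f i • Pi.single i 1 := by
      rw [← Pi.single_smul, smul_eq_mul, mul_one]
    rw [h1]
    exact Submodule.smul_mem _ _ (key i)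
  · let u : ι → ZMod p := PBf fun _ => 1
    let v : ι → ZMod p := PA fun _ => 1
    refine ⟨u, hPB _, v, hPA _, ?_⟩
    set T := Submodule.span (ZMod p) {c | (∃ g ∈ V, c = cup ℓ u g) ∨ ∃ f ∈ U, c = cup ℓ f v}
      with hT
    let Φ : (ι → ZMod p) →ₗ[ZMod p] (ι → ZMod p) :=
      { toFun := fun f => cup ℓ u (PA f) + cup ℓ (PBf f) v
        map_add' := by
          intro f g
          have h1 : PA (f + g) = PA f + PA g := by
            funext i
            by_cases hi : i = a₀ ∨ i = a₁ <;> simp [PA, hi]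
          have h2 : PBf (f + g) = PBf f + PBf g := by
            funext i
            by_cases hi : i = a₀ ∨ i = a₁ <;> simp [PBf, hi]
          rw [h1, h2]
          funext q
          simp only [cup, Pi.add_apply, mul_add, Finset.sum_add_distrib]
          ring
        map_smul' := by
          intro c f
          have h1 : PA (c • f) = c • PA f := by
            funext i
            by_cases hi : i = a₀ ∨ i = a₁ <;> simp [PA, hi]
          have h2 : PBf (c • f) = c • PBf f := by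
            funext i
            by_cases hi : i = a₀ ∨ i = a₁ <;> simp [PBf, hi]
          rw [h1, h2]
          funext q
          have h3 : ∀ g : ι → ZMod p, ∑ r, ℓ q r * (c * g r) = c * ∑ r, ℓ q r * g r := by
            intro g
            rw [Finset.mul_sum]
            exact Finset.sum_congr rfl fun r _ => by ring
          simp only [cup, Pi.add_apply, Pi.smul_apply, smul_eq_mul, RingHom.id_apply, h3]
          ring }
    have hΦ : ∀ f, Φ f = cup ℓ u (PA f) + cup ℓ (PBf f) v := fun f => rfl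
    have hrange : LinearMap.range Φ ≤ T := by
      rintro _ ⟨f, rfl⟩
      rw [hΦ]
      exact T.add_mem (Submodule.subset_span (Or.inl ⟨_, hPA f, rfl⟩))
        (Submodule.subset_span (Or.inr ⟨_, hPB f, rfl⟩))
    have hPAa : ∀ f i, i = a₀ ∨ i = a₁ → PA f i = f i := fun f i hi => by simp [PA, hi]
    have hPAb : ∀ f i, i ≠ a₀ → i ≠ a₁ → PA f i = 0 := fun f i h0 h1 => by simp [PA, h0, h1]
    have hPBa : ∀ f i, i = a₀ ∨ i = a₁ → PBf f i = 0 := fun f i hi => by simp [PBf, hi]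
    have hPBb : ∀ f i, i ≠ a₀ → i ≠ a₁ → PBf f i = f i := fun f i h0 h1 => by
      simp [PBf, h0, h1]
    have hu0 : ∀ i, i = a₀ ∨ i = a₁ → u i = 0 := hPBa fun _ => 1
    have hu1 : ∀ i, i ≠ a₀ → i ≠ a₁ → u i = 1 := hPBb fun _ => 1
    have hv1 : ∀ i, i = a₀ ∨ i = a₁ → v i = 1 := hPAa fun _ => 1
    have hv0 : ∀ i, i ≠ a₀ → i ≠ a₁ → v i = 0 := hPAb fun _ => 1
    have hker : LinearMap.ker Φ ≤ Submodule.span (ZMod p) {(v - u : ι → ZMod p)} := by
      intro f hf
      rw [LinearMap.mem_ker] at hf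
      have hq : ∀ q, cup ℓ u (PA f) q + cup ℓ (PBf f) v q = 0 := fun q => congrFun hf q
      have e0 : f a₀ + f b₀ = 0 := by
        have h1 := hq a₀
        rw [h.cup0, h.cup0, hPAa f a₀ (Or.inl rfl), hPAb f b₀ h.n00.symm h.n10.symm,
          hPBb f b₀ h.n00.symm h.n10.symm, hPBa f a₀ (Or.inl rfl)] at h1
        have h2 : u a₀ = 0 := hu0 _ (Or.inl rfl)
        have h3 : u b₀ = 1 := hu1 _ h.n00.symm h.n10.symm
        have h4 : v a₀ = 1 := hv1 _ (Or.inl rfl)
        have h5 : v b₀ = 0 := hv0 _ h.n00.symm h.n10.symm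
        rw [h2, h3, h4, h5] at h1
        have h6 : ℓ a₀ b₀ * (f a₀ + f b₀) = 0 := by linear_combination -h1
        exact (mul_eq_zero.1 h6).resolve_left h.ha0'
      have e1 : f a₁ + f b₁ = 0 := by
        have h1 := hq a₁
        rw [h.cup1, h.cup1, hPAa f a₁ (Or.inr rfl), hPAb f b₁ h.n01.symm h.n11.symm,
          hPBb f b₁ h.n01.symm h.n11.symm, hPBa f a₁ (Or.inr rfl)] at h1
        have h2 : u a₁ = 0 := hu0 _ (Or.inr rfl)
        have h3 : u b₁ = 1 := hu1 _ h.n01.symm h.n11.symm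
        have h4 : v a₁ = 1 := hv1 _ (Or.inr rfl)
        have h5 : v b₁ = 0 := hv0 _ h.n01.symm h.n11.symm
        rw [h2, h3, h4, h5] at h1
        have h6 : ℓ a₁ b₁ * (f a₁ + f b₁) = 0 := by linear_combination -h1
        exact (mul_eq_zero.1 h6).resolve_left h.ha1'
      have eb : ∀ b, b ≠ a₀ → b ≠ a₁ →
          ℓ b a₀ * (f a₀ + f b) + ℓ b a₁ * (f a₁ + f b) = 0 := by
        intro b h0 h1
        have h2 := hq b
        rw [h.cupB u (hPA f) b h0 h1, h.cupB (PBf f) (g := v) hv0 b h0 h1,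
          hPAa f a₀ (Or.inl rfl), hPAa f a₁ (Or.inr rfl), hv1 a₀ (Or.inl rfl),
          hv1 a₁ (Or.inr rfl), hPBb f b h0 h1, hu1 b h0 h1] at h2
        linear_combination h2
      have e2 : f a₁ + f b₀ = 0 := by
        have h1 := eb b₀ h.n00.symm h.n10.symm
        rw [h.hb0, zero_mul, zero_add] at h1
        rcases h.hb b₀ h.n00.symm h.n10.symm with ⟨_, h3⟩ | ⟨h3, _⟩
        · exact (mul_eq_zero.1 h1).resolve_left h3
        · exact absurd h.hb0 h3
      have e3 : f a₁ = f a₀ := by linear_combination e2 - e0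
      rw [Submodule.mem_span_singleton]
      refine ⟨f a₀, ?_⟩
      funext i
      by_cases h0 : i = a₀
      · have h2 : u i = 0 := hu0 _ (Or.inl h0)
        have h4 : v i = 1 := hv1 _ (Or.inl h0)
        rw [Pi.smul_apply, Pi.sub_apply, h2, h4, h0, sub_zero, smul_eq_mul, mul_one]
      · by_cases h1 : i = a₁
        · have h2 : u i = 0 := hu0 _ (Or.inr h1)
          have h4 : v i = 1 := hv1 _ (Or.inr h1)
          rw [Pi.smul_apply, Pi.sub_apply, h2, h4, h1, sub_zero, smul_eq_mul, mul_one, e3]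
        · have h2 : u i = 1 := hu1 _ h0 h1
          have h4 : v i = 0 := hv0 _ h0 h1
          have h5 := eb i h0 h1
          have h6 : f a₀ + f i = 0 := by
            rcases h.hb i h0 h1 with ⟨h7, h8⟩ | ⟨h7, h8⟩
            · rw [h7, zero_mul, zero_add, e3] at h5
              exact (mul_eq_zero.1 h5).resolve_left h8
            · rw [h8, zero_mul, add_zero] at h5
              exact (mul_eq_zero.1 h5).resolve_left h7
          simp [h2, h4]
          linear_combination -h6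
    have h1 := LinearMap.finrank_range_add_finrank_ker Φ
    rw [Module.finrank_fintype_fun_eq_card] at h1
    have h2 : Module.finrank (ZMod p) (LinearMap.ker Φ) ≤ 1 := by
      refine (Submodule.finrank_mono hker).trans ?_
      have h3 := finrank_span_le_card (R := ZMod p) ({(v - u : ι → ZMod p)} : Set (ι → ZMod p))
      simpa using h3
    have h3 := Submodule.finrank_mono hrange
    omega

end N5bAux

theorem criterion_core {p : ℕ} [Fact p.Prime] {a₀ a₁ b₀ b₁ : ℕ} (hc : Core p a₀ a₁ b₀ b₁)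
    {S : Finset ℕ} (hS : ∀ q ∈ S, q.Prime ∧ q % p = 1) (ha₀ : a₀ ∈ S) (ha₁ : a₁ ∈ S)
    (hb₀ : b₀ ∈ S) (hb₁ : b₁ ∈ S)
    (lam : ∀ r : Gset p a₀ a₁ b₀ b₁ S, (ZMod (r : ℕ))ˣ →* Multiplicative (ZMod p))
    (hlam : ∀ r, Function.Surjective (lam r)) : Q.Criterion (link lam) := by
  classical
  have hmem : ∀ q, q ∈ Gset p a₀ a₁ b₀ b₁ S ↔ (q = a₀ ∨ q = a₁) ∨ q ∈ S ∧ (q = b₀ ∨ q = b₁ ∨
      (q ≠ a₀ ∧ q ≠ a₁ ∧ PP p a₀ q ∧ PP p a₁ q ∧ (PP p q a₀ ↔ ¬ PP p q a₁))) := by
    intro q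
    rw [Gset, Finset.mem_union, Finset.mem_insert, Finset.mem_singleton, Bset, Finset.mem_filter]
  have hG : ∀ q ∈ Gset p a₀ a₁ b₀ b₁ S, q.Prime ∧ q % p = 1 := by
    intro q hq
    rcases (hmem q).1 hq with (rfl | rfl) | ⟨h, -⟩
    · exact hS _ ha₀
    · exact hS _ ha₁
    · exact hS _ h
  have hz := link_eq_zero hG lam hlam
  let A0 : Gset p a₀ a₁ b₀ b₁ S := ⟨a₀, (hmem _).2 (Or.inl (Or.inl rfl))⟩
  let A1 : Gset p a₀ a₁ b₀ b₁ S := ⟨a₁, (hmem _).2 (Or.inl (Or.inr rfl))⟩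
  let B0 : Gset p a₀ a₁ b₀ b₁ S := ⟨b₀, (hmem _).2 (Or.inr ⟨hb₀, Or.inl rfl⟩)⟩
  let B1 : Gset p a₀ a₁ b₀ b₁ S := ⟨b₁, (hmem _).2 (Or.inr ⟨hb₁, Or.inr (Or.inl rfl)⟩)⟩
  have n00 : a₀ ≠ b₀ := (hc.nab a₀ (Or.inl rfl)).1
  have n01 : a₀ ≠ b₁ := (hc.nab a₀ (Or.inl rfl)).2
  have n10 : a₁ ≠ b₀ := (hc.nab a₁ (Or.inr rfl)).1
  have n11 : a₁ ≠ b₁ := (hc.nab a₁ (Or.inr rfl)).2
  have hne : ∀ q r : Gset p a₀ a₁ b₀ b₁ S, (q : ℕ) ≠ r → ¬ PP p (q : ℕ) (r : ℕ) →
      link lam q r ≠ 0 := by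
    intro q r h1 h2 h3
    rcases (hz q r).1 h3 with h4 | h4
    · exact h1 (congrArg Subtype.val h4)
    · exact h2 h4
  refine N5bPat.crit (a₀ := A0) (a₁ := A1) (b₀ := B0) (b₁ := B1) ⟨?_, ?_, ?_, ?_, ?_, ?_, ?_, ?_,
    ?_, ?_, ?_, ?_⟩
  · exact fun h => hc.na (congrArg Subtype.val h)
  · exact fun h => n00 (congrArg Subtype.val h)
  · exact fun h => n01 (congrArg Subtype.val h)
  · exact fun h => n10 (congrArg Subtype.val h)
  · exact fun h => n11 (congrArg Subtype.val h)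
  · rintro ⟨b, hb⟩ hb'
    have hb'' : b ≠ b₀ := fun h => hb' (Subtype.ext h)
    refine (hz _ _).2 ?_
    rcases (hmem b).1 hb with (h | h) | ⟨-, h | h | h⟩
    · exact Or.inl (Subtype.ext h.symm)
    · right
      change PP p a₀ b
      rw [h]
      exact hc.aa.1
    · exact absurd h hb''
    · right
      change PP p a₀ b
      rw [h]
      exact hc.a0.2
    · exact Or.inr h.2.2.1
  · exact hne A0 B0 n00 hc.a0.1
  · rintro ⟨b, hb⟩ hb'
    have hb'' : b ≠ b₁ := fun h => hb' (Subtype.ext h)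
    refine (hz _ _).2 ?_
    rcases (hmem b).1 hb with (h | h) | ⟨-, h | h | h⟩
    · right
      change PP p a₁ b
      rw [h]
      exact hc.aa.2
    · exact Or.inl (Subtype.ext h.symm)
    · right
      change PP p a₁ b
      rw [h]
      exact hc.a1.2
    · exact absurd h hb''
    · exact Or.inr h.2.2.2.1
  · exact hne A1 B1 n11 hc.a1.1
  · rintro ⟨b, hb⟩ h0 h1
    have h0' : b ≠ a₀ := fun h => h0 (Subtype.ext h)
    have h1' : b ≠ a₁ := fun h => h1 (Subtype.ext h)
    rcases (hmem b).1 hb with (h | h) | ⟨-, h | h | h⟩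
    · exact absurd h h0'
    · exact absurd h h1'
    · subst h
      exact Or.inl ⟨(hz _ _).2 (Or.inr hc.b0.2), hne _ A1 h1' hc.b0.1⟩
    · subst h
      exact Or.inr ⟨hne _ A0 h0' hc.b1.1, (hz _ _).2 (Or.inr hc.b1.2)⟩
    · by_cases h2 : PP p b a₀
      · exact Or.inl ⟨(hz _ _).2 (Or.inr h2), hne _ A1 h1' (h.2.2.2.2.1 h2)⟩
      · refine Or.inr ⟨hne _ A0 h0' h2, (hz _ _).2 (Or.inr ?_)⟩
        by_contra h3
        exact h2 (h.2.2.2.2.2 h3)
  · exact (hz _ _).2 (Or.inr hc.b0.2)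
  · exact (hz _ _).2 (Or.inr hc.b1.2)

end Pool.Agent.RG
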