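import Mathlib
import Pool.Agent.Lib.RG.Defs
import Pool.Agent.Lib.RG.KDefs
import Pool.Agent.Lib.RG.RDefs
import Pool.Agent.Lib.RG.G01

/-!
RG v2, row R6: sets of rational primes and sets of primes of `K`.

`maxExtP_eq`: `UnrP {v | ∃ q ∈ S, Above v q} L ↔ UnrRel S K L` (`exists_below`, `Lies.above_iff`), so
the two classes agree.
`finite_above`: every prime of `K` above `q` contains `q`; finitely many prime ideals contain the
nonzero ideal `(q)`.
`absNorm_mod`: `absNorm v` is a power of `q` (the residue field is a finite field of characteristic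
`q`).
-/

set_option autoImplicit false

namespace Pool.Agent.RG

open NumberField IsDedekindDomain

variable {K : Type} [Field K] [NumberField K]

theorem maxExtP_eq (p : ℕ) (S : Finset ℕ) :
    maxExtP p {v : HeightOneSpectrum (𝓞 K) | ∃ q ∈ S, Above v q} = maxExtension p S K := by
  have key : ∀ (L : IntermediateField K (AlgebraicClosure K)),
      InCP p {v : HeightOneSpectrum (𝓞 K) | ∃ q ∈ S, Above v q} L ↔ InCRel p S K L := by
    intro L
    constructor
    · rintro ⟨hL, hG, hk, hU⟩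
      refine ⟨hL, hG, hk, ?_⟩
      intro w hw
      apply hU w
      rintro v ⟨q, hq, hvq⟩ hlies
      exact hw q hq ((hlies.above_iff q).2 hvq)
    · rintro ⟨hL, hG, hk, hU⟩
      refine ⟨hL, hG, hk, ?_⟩
      intro w hw
      apply hU w
      intro q hq hwq
      obtain ⟨v, hv⟩ := exists_below (algebraMap K L) w
      exact hw v ⟨q, hq, (hv.above_iff q).1 hwq⟩ hv
  unfold maxExtP maxExtension
  congr 1
  ext L
  exact key L

theorem finite_above (S : Finset ℕ) (hS : ∀ q ∈ S, q.Prime) :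
    {v : HeightOneSpectrum (𝓞 K) | ∃ q ∈ S, Above v q}.Finite := by
  have h1 : {v : HeightOneSpectrum (𝓞 K) | ∃ q ∈ S, Above v q} =
      ⋃ q ∈ S, {v : HeightOneSpectrum (𝓞 K) | Above v q} := by
    ext v
    simp
  rw [h1]
  refine Set.Finite.biUnion S.finite_toSet ?_
  intro q hq
  have hq' : q.Prime := hS q hq
  have hne : Ideal.span {((q : ℕ) : 𝓞 K)} ≠ ⊥ := by
    rw [Ne, Ideal.span_singleton_eq_bot]
    exact_mod_cast hq'.ne_zero
  refine (Ideal.finite_factors hne).subset ?_
  intro v hv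
  change v.asIdeal ∣ Ideal.span {((q : ℕ) : 𝓞 K)}
  rw [Ideal.dvd_span_singleton]
  exact (G01aux.above_iff_mem v q).1 hv

theorem absNorm_mod {p q : ℕ} (hp : 1 < p) (hq : q.Prime) (h : q % p = 1)
    {v : HeightOneSpectrum (𝓞 K)} (hv : Above v q) : Ideal.absNorm v.asIdeal % p = 1 := by
  have hmem : (q : 𝓞 K) ∈ v.asIdeal := (G01aux.above_iff_mem v q).1 hv
  have hfin : Finite (𝓞 K ⧸ v.asIdeal) := Ideal.finiteQuotientOfFreeOfNeBot v.asIdeal v.ne_bot
  have hmax : v.asIdeal.IsMaximal := v.isMaximal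
  let _ : Field (𝓞 K ⧸ v.asIdeal) := Ideal.Quotient.field v.asIdeal
  have hchar : CharP (𝓞 K ⧸ v.asIdeal) q := by
    have h0 : ((q : ℕ) : 𝓞 K ⧸ v.asIdeal) = 0 := by
      have := Ideal.Quotient.eq_zero_iff_mem.2 hmem
      rwa [map_natCast] at this
    exact (CharP.ringChar_of_prime_eq_zero hq h0) ▸ ringChar.charP _
  let _ : Fintype (𝓞 K ⧸ v.asIdeal) := Fintype.ofFinite _
  have : Fact q.Prime := ⟨hq⟩
  obtain ⟨n, -, hn⟩ := FiniteField.card (𝓞 K ⧸ v.asIdeal) q
  have hcard : Ideal.absNorm v.asIdeal = q ^ (n : ℕ) := by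
    rw [Ideal.absNorm_apply, Submodule.cardQuot_apply, Nat.card_eq_fintype_card]
    exact hn
  rw [hcard, Nat.pow_mod, h, one_pow, Nat.mod_eq_of_lt hp]

end Pool.Agent.RG
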