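import Mathlib
import Pool.Agent.Lib.RG.NDefs
import Pool.Agent.Lib.RG.N4c
import Pool.Agent.Lib.RG.N5b
import Pool.Agent.Lib.RG.R6
import Pool.Agent.Lib.RG.RMain

/-!
RG v2, PART N: almost all sets of primes.
-/

set_option autoImplicit false

namespace Pool.Agent.RG

open NumberField IsDedekindDomain

theorem crit_good {p : ℕ} [Fact p.Prime] (hp : p ≠ 2) {K M : Type} [Field K] [NumberField K]
    [Field M] [NumberField M] [IsGalois ℚ M] (hd : ∃ k, Module.finrank ℚ M = p ^ k)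
    (ht : ¬ Ram p M) (j : K →+* M) {R : Finset ℕ} (hR : ∀ q, q ∈ R ↔ q.Prime ∧ Ram q M)
    {S : Finset ℕ} (hS : ∀ q ∈ S, q.Prime ∧ q % p = 1) (h : Crit p R S) :
    Infinite (GKpS p S K) ∧ rankGradient (GKpS p S K) = 0 := by
  classical
  obtain ⟨a₀, ha₀, a₁, ha₁, b₀, hb₀, b₁, hb₁, hc, hU⟩ := h
  set S₁ : Finset ℕ := Gset p a₀ a₁ b₀ b₁ S with hS₁
  have hsub : S₁ ⊆ S := by
    intro q hq
    rw [hS₁, Gset, Finset.mem_union] at hq
    rcases hq with hq | hq
    · rw [Finset.mem_insert, Finset.mem_singleton] at hq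
      rcases hq with rfl | rfl
      · exact ha₀
      · exact ha₁
    · exact (Finset.mem_filter.1 hq).1
  have hS₁p : ∀ q ∈ S₁, q.Prime ∧ q % p = 1 := fun q hq => hS q (hsub hq)
  have hne : S₁.Nonempty := ⟨a₀, Finset.mem_union_left _ (Finset.mem_insert_self _ _)⟩
  choose lam hlam using fun r : S₁ => exists_lam (p := p) (hS₁p r r.2).1 (hS₁p r r.2).2
  have hcrit := criterion_core hc hS ha₀ ha₁ hb₀ hb₁ lam hlam
  have hp1 : 1 < p := (Fact.out : p.Prime).one_lt
  have key : Infinite (GP p {v : HeightOneSpectrum (𝓞 K) | ∃ q ∈ S, Above v q}) ∧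
      rankGradient (GP p {v : HeightOneSpectrum (𝓞 K) | ∃ q ∈ S, Above v q}) = 0 := by
    refine rank_gradient_mono hp hS₁p hne lam hlam hcrit hd ht j
      {v : HeightOneSpectrum (𝓞 K) | ∃ q ∈ S, Above v q}
      (finite_above S fun q hq => (hS q hq).1)
      (fun v ⟨q, hq, hvq⟩ => absNorm_mod hp1 (hS q hq).1 (hS q hq).2 hvq)
      (fun v q hq hvq => ⟨q, hsub hq, hvq⟩) ?_
    intro q hq hqS₁ hor
    have hqSR : q ∈ S ∪ R := by
      rcases hor with ⟨v, ⟨r, hr, hvr⟩, hvq⟩ | hram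
      · have : q = r := Above.unique hq (hS r hr).1 hvq hvr
        rw [this]
        exact Finset.mem_union_left _ hr
      · exact Finset.mem_union_right _ ((hR q).2 ⟨hq, hram⟩)
    have hnU : q ∉ Uset p R a₀ a₁ b₀ b₁ S := by
      rw [hU]
      exact Finset.notMem_empty q
    rw [Uset, Finset.mem_filter] at hnU
    push Not at hnU
    obtain ⟨s, hs, hns⟩ := hnU hqSR hqS₁
    exact notSplit_of_not_pp hS₁p hq hqS₁ hs hns
  unfold GP at key
  rw [maxExtP_eq (K := K) p S] at key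
  exact key

/-- Almost all sets of primes are good. -/
theorem almost_all {p : ℕ} [Fact p.Prime] (hp : p ≠ 2) {K M : Type} [Field K] [NumberField K]
    [Field M] [NumberField M] [IsGalois ℚ M] (hd : ∃ k, Module.finrank ℚ M = p ^ k)
    (ht : ¬ Ram p M) (j : K →+* M) (S₀ : Finset ℕ) (hS₀ : ∀ q ∈ S₀, q.Prime ∧ q % p = 1) :
    Filter.Tendsto (fun k => iterProb p
      (fun S => Infinite (GKpS p S K) ∧ rankGradient (GKpS p S K) = 0) k S₀)
      Filter.atTop (nhds 1) := by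
  obtain ⟨R, hR1, hR2, -⟩ := ramified_set hd ht
  have hp1 : 1 < p := (Fact.out : p.Prime).one_lt
  have h1 : HasD (P1 p) (((p : ℝ) - 1)⁻¹) := by
    have h := split_density (p := p) hp ∅ ∅ (by simp) (by simp)
    have he : splitSet p ∅ ∅ = P1 p := by
      ext q
      simp [splitSet, P1]
    rw [he] at h
    simpa using h
  refine tendsto_of_tendsto_of_tendsto_of_le_of_le
    (crit_limit hp R (fun q hq => ⟨((hR1 q).1 hq).1, hR2 q hq⟩) S₀ hS₀) tendsto_const_nhds ?_ ?_
  · intro k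
    exact iterProb_mono p hp1 h1 (fun S hS h => crit_good hp hd ht j hR1 hS h) k S₀ hS₀
  · intro k
    exact (iterProb_nonneg p _ hp1 h1 k S₀).2

end Pool.Agent.RG
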